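import Pool.Agent.SR3.ASet
import Pool.Agent.SR3.ALam
import Pool.Agent.SDA.Th

/-!
# SR3 ATh: the part of the surface away from the curve
-/

set_option autoImplicit false

open Topology Filter Metric

noncomputable section

namespace Pool.Agent.SR3

open Pool.Agent.H36.BP (EN fs wd Sub OrdTwo)
open Pool.Agent.H14.PP (IsCone Tan)
open Pool.Agent.SY (Ent)
open Pool.Agent.SDA (EnergyK Near AffOpen Nm nForms)
open Geo (Gd)

variable {N : ℕ} {G : Geo N} {T : Set (EN N)} {rho : EN N → ℝ} {M : ℕ} {c₀ C δ : ℝ} {g : (ℂ → EN N) → ℂ → ℝ}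

/-- every vector of `K` has a normalised multiple -/
theorem exists_root (hG : G.Ok) {x : EN N} (hx : x ∈ G.K) : ∃ c : ℂ, c ≠ 0 ∧ G.p (c • x) = 1 := by
  have hh : 0 < G.h := hG.aff.pos ()
  obtain ⟨c, hc⟩ := IsAlgClosed.exists_pow_nat_eq (G.p x)⁻¹ hh
  refine ⟨c, ?_, ?_⟩
  · rintro rfl
    rw [zero_pow hh.ne'] at hc
    exact inv_ne_zero (p_ne hG hx) hc.symm
  · rw [p_smul hG, hc, inv_mul_cancel₀ (p_ne hG hx)]

theorem n_inv (hG : G.Ok) {x v : EN N} (hx : x ∈ G.K) (hv : Tan G.X x v) {c : ℂ} (hc : c ≠ 0) (a : ℂ) : G.n (c • x) (c • v + a • x) = G.n x v := by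
  show ∑ j, ‖G.w j (c • x) (c • v + a • x)‖ ^ ((G.m j : ℝ)⁻¹) = ∑ j, ‖G.w j x v‖ ^ ((G.m j : ℝ)⁻¹)
  exact Finset.sum_congr rfl fun j _ => by rw [hG.w_inv j x hx v hv c a hc]

theorem thick (hG : G.Ok) (hM : G.Met T rho M c₀ C δ g) {δ' : ℝ} (hδ : 0 < δ') :
    ∃ d₁ C₂ : ℝ, 0 < d₁ ∧ (∀ F, Ent G.K T F → ∀ z, δ' ≤ rho (F z) → 1 ≤ G.n (F z) (deriv F z) → d₁ ≤ g F z) ∧
      ∀ x ∈ G.K, G.p x = 1 → δ' ≤ rho x → Real.log ‖x‖ ≤ C₂ := by
  have S := setup_fs hG hM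
  obtain ⟨d₀, C₂, hd₀, hth, hlog⟩ := Pool.Agent.SDA.thick S hδ
  have hlog' : ∀ x ∈ G.K, G.p x = 1 → δ' ≤ rho x → Real.log ‖x‖ ≤ C₂ := fun x hx hp h => hlog x hx (by simpa [Geo.P] using hp) h
  obtain ⟨A, hA, hL⟩ := L_le_fs hG (Real.exp C₂)
  obtain ⟨B, hB, hn⟩ := n_le_L hG
  have hBA : 0 < B * A := mul_pos hB hA
  refine ⟨d₀ / (B * A), C₂, div_pos hd₀ hBA, fun F hF z hz h1 => ?_, hlog'⟩
  have hK := hF.mem z
  have hT := tan hG hF.diff hF.mem z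
  obtain ⟨c, hc0, hc⟩ := exists_root hG hK
  have hyK : c • F z ∈ G.K := smul_mem hG hK hc0
  have hTy : Tan G.X (c • F z) (c • deriv F z) := by
    have h2 := tan hG (F := fun w => c • F w) (hF.diff.const_smul c) (fun w => smul_mem hG (hF.mem w) hc0) z
    rwa [deriv_fun_const_smul c (hF.diff z)] at h2
  have hrho : rho (c • F z) = rho (F z) := hM.rhos _ (KX hG hK) c hc0
  have hy0 : 0 < ‖c • F z‖ := norm_pos_iff.2 (ne0 hG hyK)
  have hyn : ‖c • F z‖ ≤ Real.exp C₂ := (Real.log_le_iff_le_exp hy0).1 (hlog' _ hyK hc (by rw [hrho]; exact hz))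
  have h2 : G.n (c • F z) (c • deriv F z) = G.n (F z) (deriv F z) := by
    have h3 := n_inv hG hK hT hc0 0
    rwa [zero_smul, add_zero] at h3
  have h3 : fs (c • F z) (c • deriv F z) = fs (F z) (deriv F z) := by
    have h4 := Pool.Agent.H36.BP.fs_inv (ne0 hG hK) (deriv F z) hc0 0
    rwa [zero_smul, add_zero] at h4
  have h4 : 1 ≤ B * A * fs (F z) (deriv F z) := by
    have h5 := hn _ hyK _ hTy
    have h6 := hL _ hyK hc hyn (c • deriv F z)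
    rw [h2] at h5
    rw [h3] at h6
    calc (1 : ℝ) ≤ B * G.L (c • F z) (c • deriv F z) := h1.trans h5
      _ ≤ B * (A * fs (F z) (deriv F z)) := mul_le_mul_of_nonneg_left h6 hB.le
      _ = B * A * fs (F z) (deriv F z) := by ring
  have ha0 : ((B * A : ℝ) : ℂ) ≠ 0 := by exact_mod_cast hBA.ne'
  have hE := ent_comp hF ha0 z
  have h5 := hth _ hE 0 (by
    show δ' ≤ rho (F (((B * A : ℝ) : ℂ) * 0 + z))
    rw [mul_zero, zero_add]
    exact hz) (by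
    show 1 ≤ fs (F (((B * A : ℝ) : ℂ) * 0 + z)) (deriv (fun w => F (((B * A : ℝ) : ℂ) * w + z)) 0)
    rw [deriv_aff hF.diff, Pool.Agent.H36.BP.fs_smul_right, mul_zero, zero_add, Complex.norm_real, Real.norm_of_nonneg hBA.le]
    exact h4)
  rw [hM.en.aff F hF _ z ha0 0, Complex.norm_real, Real.norm_of_nonneg hBA.le, mul_zero, zero_add] at h5
  rw [div_le_iff₀ hBA]
  linarith

end Pool.Agent.SR3
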