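import Pool.Agent.SR3.ABas
import Pool.Agent.H36.BP.SubC

/-!
# SR3 AGrd: the derivatives of `lam i` along a curve
-/

set_option autoImplicit false

open Topology Filter Metric

noncomputable section

namespace Pool.Agent.SR3

open Pool.Agent.H36.BP (EN fs wd Sub OrdTwo)
open Pool.Agent.H14.PP (IsCone Tan)
open Pool.Agent.SY (Ent)
open Pool.Agent.SDA (EnergyK Near AffOpen Nm nForms)
open Geo (Gd)

variable {N : ℕ} {G : Geo N} {T : Set (EN N)} {rho : EN N → ℝ} {M : ℕ} {c₀ C δ : ℝ} {g : (ℂ → EN N) → ℂ → ℝ}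

private theorem inner_re {K : ℕ} (x y : EN K) : inner ℝ x y = (inner ℂ x y).re := by
  rw [PiLp.inner_apply, PiLp.inner_apply, Complex.re_sum]
  refine Finset.sum_congr rfl fun i _ => ?_
  rw [Complex.inner, RCLike.inner_apply, mul_comm]

/-- the derivative of `log ‖V‖` -/
theorem grad_log_norm {K : ℕ} {V : ℂ → EN K} {v : EN K} {z : ℂ} (hV : HasDerivAt V v z) (h0 : V z ≠ 0) :
    HasFDerivAt (fun w => Real.log ‖V w‖) (reL (inner ℂ (V z) v / (‖V z‖ : ℂ) ^ 2)) z := by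
  have hn : ‖V z‖ ≠ 0 := norm_ne_zero_iff.2 h0
  have h1 : HasFDerivAt V ((ContinuousLinearMap.toSpanSingleton ℂ v).restrictScalars ℝ) z := hV.hasFDerivAt.restrictScalars ℝ
  have h2 := h1.norm_sq
  have h3 := (h2.log (pow_ne_zero 2 hn)).const_mul (1 / 2 : ℝ)
  have h4 : HasFDerivAt (fun w => Real.log ‖V w‖) _ z := h3.congr_of_eventuallyEq (Eventually.of_forall fun w => by
    show Real.log ‖V w‖ = 1 / 2 * Real.log (‖V w‖ ^ 2)
    rw [Real.log_pow]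
    push_cast
    ring)
  refine h4.congr_fderiv ?_
  refine ContinuousLinearMap.ext fun w => ?_
  have h5 : (innerSL ℝ (V z)) (w • v) = (w * inner ℂ (V z) v).re := by
    rw [innerSL_apply_apply, inner_re, inner_smul_right]
  rw [reL_apply]
  show (1 / 2 : ℝ) * ((‖V z‖ ^ 2)⁻¹ * (2 • (innerSL ℝ (V z)) (w • v))) = _
  rw [h5]
  have h6 : inner ℂ (V z) v / (‖V z‖ : ℂ) ^ 2 * w = ((‖V z‖ ^ 2)⁻¹ : ℝ) * (w * inner ℂ (V z) v) := by
    push_cast
    ring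
  rw [h6, Complex.re_ofReal_mul, nsmul_eq_mul]
  push_cast
  ring

theorem lam_grad (hG : G.Ok) (i : G.ι) {F : ℂ → EN N} {z : ℂ} (hF : AnalyticAt ℂ F z) (hz : F z ∈ G.K) :
    HasFDerivAt (fun w => G.lam i (F w)) (reL (-G.ell i (F z) (deriv F z))) z := by
  have h1 := grad_log_norm hF.differentiableAt.hasDerivAt (ne0 hG hz)
  have h2 : HasDerivAt (fun w => G.E i (F w)) (fderiv ℂ (G.E i) (F z) (deriv F z)) z :=
    (hG.anE i (F z)).differentiableAt.hasFDerivAt.comp_hasDerivAt z hF.differentiableAt.hasDerivAt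
  have h3 := grad_log_norm h2 (hG.neE i _ hz)
  have h4 := (h1.const_mul (G.c i : ℝ)).sub h3
  refine h4.congr_fderiv ?_
  refine ContinuousLinearMap.ext fun w => ?_
  show (G.c i : ℝ) * (reL (inner ℂ (F z) (deriv F z) / (‖F z‖ : ℂ) ^ 2)) w -
    (reL (inner ℂ (G.E i (F z)) (fderiv ℂ (G.E i) (F z) (deriv F z)) / (‖G.E i (F z)‖ : ℂ) ^ 2)) w = _
  rw [reL_apply, reL_apply, reL_apply, ← Complex.re_ofReal_mul, ← Complex.sub_re]
  congr 1
  unfold Geo.ell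
  push_cast
  ring

/-- `|Lap lam| ≤ C fs ^ 2`; `s` may be negative -/
theorem lam_sub (hG : G.Ok) : ∃ B : ℝ, 0 ≤ B ∧ ∀ (i : G.ι) (s : ℝ) (F : ℂ → EN N) (z : ℂ), AnalyticAt ℂ F z → (∀ᶠ w in 𝓝 z, F w ∈ G.K) →
    Sub (fun w => Real.exp (s * G.lam i (F w))) z (-(|s| * B * fs (F z) (deriv F z) ^ 2)) := by
  obtain ⟨C, hC, hfs⟩ := hG.fsE
  refine ⟨∑ i, (G.c i : ℝ) + C ^ 2, by positivity, fun i s F z hF hK => ?_⟩
  have hz := hK.self_of_nhds
  have h0 := ne0 hG hz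
  have hE : AnalyticAt ℂ (fun w => G.E i (F w)) z := (hG.anE i (F z)).comp hF
  have hEd : deriv (fun w => G.E i (F w)) z = fderiv ℂ (G.E i) (F z) (deriv F z) :=
    ((hG.anE i (F z)).differentiableAt.hasFDerivAt.comp_hasDerivAt z hF.differentiableAt.hasDerivAt).deriv
  have h1 := Sub.norm_rpow hF h0 (s * G.c i)
  have h2 := Sub.norm_rpow hE (hG.neE i _ hz) (-s)
  have h3 := h1.mul h2
  have hT := tan_at hG hF hK
  have h4 := hfs i (F z) hz (deriv F z) hT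
  rw [hEd] at h3
  set f : ℝ := fs (F z) (deriv F z) with hf
  set e : ℝ := fs (G.E i (F z)) (fderiv ℂ (G.E i) (F z) (deriv F z)) with he
  have hf0 : 0 ≤ f := Pool.Agent.H36.BP.fs_nonneg _ _
  have he0 : 0 ≤ e := Pool.Agent.H36.BP.fs_nonneg _ _
  have hc : (G.c i : ℝ) ≤ ∑ i, (G.c i : ℝ) := Finset.single_le_sum (f := fun i => (G.c i : ℝ)) (fun _ _ => Nat.cast_nonneg _) (Finset.mem_univ i)
  have h5 : -(|s| * (∑ i, (G.c i : ℝ) + C ^ 2) * f ^ 2) ≤ s * G.c i * f ^ 2 / 2 + -s * e ^ 2 / 2 := by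
    have h6 : e ^ 2 ≤ C ^ 2 * f ^ 2 := by
      rw [← mul_pow]
      exact pow_le_pow_left₀ he0 h4 2
    have h7 : -(|s| * ((G.c i : ℝ) * f ^ 2)) ≤ s * ((G.c i : ℝ) * f ^ 2) := by
      have h8 : -(|s|) ≤ s := neg_abs_le s
      have h9 : 0 ≤ (G.c i : ℝ) * f ^ 2 := by positivity
      nlinarith
    have h8 : -(|s| * e ^ 2) ≤ -s * e ^ 2 := by
      have h9 : -(|s|) ≤ -s := neg_le_neg (le_abs_self s)
      nlinarith [sq_nonneg e]
    have h9 : |s| * e ^ 2 ≤ |s| * (C ^ 2 * f ^ 2) := mul_le_mul_of_nonneg_left h6 (abs_nonneg s)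
    have h10 : |s| * ((G.c i : ℝ) * f ^ 2) ≤ |s| * ((∑ i, (G.c i : ℝ)) * f ^ 2) :=
      mul_le_mul_of_nonneg_left (mul_le_mul_of_nonneg_right hc (sq_nonneg f)) (abs_nonneg s)
    have h11 : 0 ≤ |s| * ((G.c i : ℝ) * f ^ 2) := by positivity
    have h12 : 0 ≤ |s| * (C ^ 2 * f ^ 2) := by positivity
    nlinarith
  refine (h3.anti h5).congr ?_
  filter_upwards [hK] with w hw
  have hn : 0 < ‖F w‖ := norm_pos_iff.2 (ne0 hG hw)
  have hEn : 0 < ‖G.E i (F w)‖ := norm_pos_iff.2 (hG.neE i _ hw)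
  show ‖F w‖ ^ (s * (G.c i : ℝ)) * ‖G.E i (F w)‖ ^ (-s) = Real.exp (s * G.lam i (F w))
  rw [Real.rpow_def_of_pos hn, Real.rpow_def_of_pos hEn, ← Real.exp_add]
  congr 1
  unfold Geo.lam
  ring

end Pool.Agent.SR3
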