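import Pool.Agent.SR3.ABd
import Pool.Agent.SR3.ALpr
import Pool.Agent.SDA.Ha
import Pool.Agent.SDA.F0

/-!
# SR3 ASml: (W), the metric is exponentially small far from the good points

Harnack's inequality on the disc of radius `d / 2` with centre `z`, at the point `w`, for `v = g F * ‖F‖ ^ (-c₀)`, against `lprime` on the disc of
radius `d / 4`.
-/

set_option autoImplicit false

open Topology Filter Metric

noncomputable section

namespace Pool.Agent.SR3

open Pool.Agent.H36.BP (EN fs wd Sub OrdTwo)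
open Pool.Agent.H14.PP (IsCone Tan)
open Pool.Agent.SY (Ent)
open Pool.Agent.SDA (EnergyK Near AffOpen Nm nForms)
open Geo (Gd)

variable {N : ℕ} {G : Geo N} {T : Set (EN N)} {rho : EN N → ℝ} {M : ℕ} {c₀ C δ : ℝ} {g : (ℂ → EN N) → ℂ → ℝ}

/-- `log ‖e ^ B x‖ = B + log ‖x‖` -/
private theorem ASml_norm (B : ℝ) (x : EN N) : ‖(Real.exp B : ℂ) • x‖ = Real.exp B * ‖x‖ := by
  rw [norm_smul, Complex.norm_real, Real.norm_eq_abs, abs_of_pos (Real.exp_pos B)]

theorem small (hG : G.Ok) (hM : G.Met T rho M c₀ C δ g) :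
    ∃ a c R : ℝ, 0 < c ∧ 0 < R ∧ ∀ (q : G.J → ℂ) (F : ℂ → EN N), G.Cl T q F → ∀ z, R ≤ infDist z (Gd rho δ F) → ∀ w,
      ‖w - z‖ ≤ infDist z (Gd rho δ F) / 8 → g F w ≤ Real.exp (a - c * infDist z (Gd rho δ F)) * ‖F w‖ ^ c₀ := by
  obtain ⟨B, hB0, hB⟩ := log_lower hG
  obtain ⟨C₁, hC₁, hbd⟩ := bound hG hM
  obtain ⟨A₀, r₀, hA₀, hr₀, hlp⟩ := lprime hG
  have hc₀ : 0 < c₀ := hM.en.c₀_pos
  refine ⟨Real.log C₁ + c₀ * B, c₀ * A₀ / 20, 4 * r₀, by positivity, by positivity, fun q F hF z hR w hw => ?_⟩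
  obtain ⟨d, hd⟩ : ∃ d, d = infDist z (Gd rho δ F) := ⟨_, rfl⟩
  rw [← hd] at hR hw ⊢
  have hd0 : 0 < d := by linarith
  have hFK : ∀ z, F z ∈ G.K := hF.ent.mem
  have hne : ∀ z, 0 < ‖F z‖ := fun z => norm_pos_iff.2 (ne0 hG (hFK z))
  have hlow : ∀ z, -B ≤ Real.log ‖F z‖ := fun z => hB _ (hF.nm z)
  have hcont : Continuous F := hF.ent.diff.continuous
  have hg0 : ∀ z, 0 ≤ g F z := hM.en.nonneg F hF.ent
  rcases (hg0 w).eq_or_lt with h0 | h0
  · rw [← h0]
    have := Real.rpow_nonneg (norm_nonneg (F w)) c₀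
    positivity
  -- the function `v`
  obtain ⟨v, hv⟩ : ∃ v : ℂ → ℝ, v = fun z => g F z * ‖F z‖ ^ (-c₀) := ⟨_, rfl⟩
  have hv0 : ∀ z, 0 ≤ v z := fun z => by
    rw [hv]
    exact mul_nonneg (hg0 z) (Real.rpow_nonneg (norm_nonneg _) _)
  have hvw : 0 < v w := by
    rw [hv]
    exact mul_pos h0 (Real.rpow_pos_of_pos (hne w) _)
  have husc : UpperSemicontinuousOn v (closedBall z (d / 2)) := by
    rw [hv]
    exact Pool.Agent.SDA.F1_usc (fun z a ha => hM.en.usc F hF.ent z a ha)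
      (hcont.norm.rpow_const fun z => Or.inl (hne z).ne') (fun z => Real.rpow_pos_of_pos (hne z) _) _
  have hs : ∀ x ∈ ball z (d / 2), 0 < v x → Sub v x 0 := by
    intro x hx hvx
    have h1 : rho (F x) < δ := by
      refine lt_of_ball (z := z) ?_
      rw [← hd, ← dist_eq_norm]
      have := mem_ball.1 hx
      linarith
    have h2 : 0 < g F x := by
      rcases (hg0 x).eq_or_lt with h3 | h3
      · rw [hv] at hvx
        simp only [← h3, zero_mul, lt_self_iff_false] at hvx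
      · exact h3
    rw [hv]
    exact hM.near F hF.ent x h1 h2
  -- the curve with norms at least one
  obtain ⟨F', hF'⟩ : ∃ F' : ℂ → EN N, F' = fun z => (Real.exp B : ℂ) • F z := ⟨_, rfl⟩
  have hF'n : ∀ z, ‖F' z‖ = Real.exp B * ‖F z‖ := fun z => by rw [hF']; exact ASml_norm B (F z)
  have hF'l : ∀ z, Real.log ‖F' z‖ = B + Real.log ‖F z‖ := fun z => by
    rw [hF'n, Real.log_mul (Real.exp_pos B).ne' (hne z).ne', Real.log_exp]
  have hF'1 : ∀ z, 1 ≤ ‖F' z‖ := fun z => by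
    have h1 : 0 ≤ Real.log ‖F' z‖ := by rw [hF'l]; linarith [hlow z]
    have h2 : 0 < ‖F' z‖ := by rw [hF'n]; exact mul_pos (Real.exp_pos B) (hne z)
    exact (Real.log_nonneg_iff h2).1 h1
  have hva : ∀ x ∈ closedBall z (d / 2), v x ≤ Real.exp (Real.log C₁ + c₀ * B) * ‖F' x‖ ^ (-c₀) := by
    intro x _
    have h1 : Real.exp (Real.log C₁ + c₀ * B) * ‖F' x‖ ^ (-c₀) = C₁ * ‖F x‖ ^ (-c₀) := by
      rw [hF'n, Real.mul_rpow (Real.exp_pos B).le (norm_nonneg _), ← Real.exp_mul, Real.exp_add, Real.exp_log hC₁]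
      have h2 : Real.exp (c₀ * B) * Real.exp (B * -c₀) = 1 := by
        rw [← Real.exp_add]
        have : c₀ * B + B * -c₀ = 0 := by ring
        rw [this, Real.exp_zero]
      calc C₁ * Real.exp (c₀ * B) * (Real.exp (B * -c₀) * ‖F x‖ ^ (-c₀))
          = C₁ * (Real.exp (c₀ * B) * Real.exp (B * -c₀)) * ‖F x‖ ^ (-c₀) := by ring
        _ = C₁ * ‖F x‖ ^ (-c₀) := by rw [h2, mul_one]
    rw [h1, hv]
    exact mul_le_mul_of_nonneg_right (hbd q F hF x) (Real.rpow_nonneg (norm_nonneg _) _)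
  have hwz : ‖w - z‖ ≤ d / 8 := hw
  have hwb : w ∈ ball z (d / 2) := by
    rw [mem_ball, dist_eq_norm]
    linarith
  have hdiff : Differentiable ℂ F' := by
    rw [hF']
    exact hF.ent.diff.const_smul (Real.exp B : ℂ)
  have key := Pool.Agent.SDA.harnack (b := -Real.log (v w)) hc₀ hwb hdiff hF'1 husc (fun x _ => hv0 x) hs hva
    (by rw [neg_neg, Real.exp_log hvw])
  obtain ⟨x, hx, hlx⟩ := hlp F hF.ent.diff hFK hF.nm z (d / 4) (by linarith) (fun y _ => (cl_n hF y).ge)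
  have hx' : x ∈ closedBall z (d / 2 / 2) := by
    have : d / 2 / 2 = d / 4 := by ring
    rw [this]
    exact hx
  have h1 := key x hx'
  rw [hF'l] at h1
  -- the constant of Harnack's inequality
  have h2 : (d / 2 + ‖w - z‖) / (d / 2 - ‖w - z‖) ≤ 5 / 3 := by
    rw [div_le_div_iff₀ (by linarith) (by norm_num)]
    linarith
  obtain ⟨s, hs'⟩ : ∃ s, s = Real.log C₁ + c₀ * B + -Real.log (v w) := ⟨_, rfl⟩
  rw [← hs'] at h1
  have h3 : c₀ * (A₀ * (d / 4)) ≤ c₀ * (B + Real.log ‖F x‖) := mul_le_mul_of_nonneg_left (by linarith) hc₀.le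
  have h4 : 0 < (d / 2 + ‖w - z‖) / (d / 2 - ‖w - z‖) := div_pos (by positivity) (by linarith)
  have h5 : 0 < c₀ * (A₀ * (d / 4)) := by positivity
  have h6 : 0 ≤ s := by
    by_contra hcon
    push Not at hcon
    have h7 : 3 * ((d / 2 + ‖w - z‖) / (d / 2 - ‖w - z‖)) * s < 0 := mul_neg_of_pos_of_neg (by positivity) hcon
    linarith
  have h7 : 3 * ((d / 2 + ‖w - z‖) / (d / 2 - ‖w - z‖)) * s ≤ 3 * (5 / 3) * s :=
    mul_le_mul_of_nonneg_right (mul_le_mul_of_nonneg_left h2 (by norm_num)) h6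
  have h8 : Real.log (v w) ≤ Real.log C₁ + c₀ * B - c₀ * A₀ / 20 * d := by
    have h9 : c₀ * (A₀ * (d / 4)) ≤ 5 * s := by linarith
    rw [hs'] at h9
    linarith
  have h9 : v w ≤ Real.exp (Real.log C₁ + c₀ * B - c₀ * A₀ / 20 * d) := by
    rw [← Real.exp_log hvw]
    exact Real.exp_le_exp.2 h8
  have h10 : g F w = v w * ‖F w‖ ^ c₀ := by
    rw [hv]
    simp only
    rw [mul_assoc, ← Real.rpow_add (hne w), neg_add_cancel, Real.rpow_zero, mul_one]
  rw [h10]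
  exact mul_le_mul_of_nonneg_right h9 (Real.rpow_nonneg (norm_nonneg _) _)

end Pool.Agent.SR3
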