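import Pool.Agent.SR3.AGrw
import Pool.Agent.SR3.AJmp
import Pool.Agent.SR3.AThr
import Pool.Agent.H17.Montel

/-!
# SR3 AGap: the wells

If `log ‖F z‖ ≤ B` and the distance `d` of `z` to the good points is large, let `r` be the distance of `z` to the set where `log ‖F‖ ≥ B + 1`: `r ≤ exp (-η d)` (`jump`);
three circles with the radii `r`, `d / 2` and `growth`: `F (z + r w)` has polynomial growth, uniformly.
-/

set_option autoImplicit false

open Topology Filter Metric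

noncomputable section

namespace Pool.Agent.SR3

open Pool.Agent.H36.BP (EN fs wd Sub OrdTwo)
open Pool.Agent.H14.PP (IsCone Tan)
open Pool.Agent.SY (Ent)
open Pool.Agent.SDA (EnergyK Near AffOpen Nm nForms)
open Geo (Gd)

variable {N : ℕ} {G : Geo N} {T : Set (EN N)} {rho : EN N → ℝ} {M : ℕ} {c₀ C δ : ℝ} {g : (ℂ → EN N) → ℂ → ℝ}

/-- Montel on the plane, along an ultrafilter -/
theorem gap_montel (𝒰 : Ultrafilter ℕ) {Φ : ℕ → ℂ → EN N} (hd : ∀ k, Differentiable ℂ (Φ k)) {b : ℝ → ℝ}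
    (hb : ∀ R : ℝ, ∀ᶠ k in (𝒰 : Filter ℕ), ∀ z ∈ ball (0 : ℂ) R, ‖Φ k z‖ ≤ b R) :
    ∃ H : ℂ → EN N, Differentiable ℂ H ∧ TendstoLocallyUniformlyOn Φ H (𝒰 : Filter ℕ) Set.univ := by
  have hmont : ∀ R : ℕ, ∃ h : ℂ → EN N, DifferentiableOn ℂ h (ball 0 (R + 1)) ∧
      TendstoLocallyUniformlyOn Φ h (𝒰 : Filter ℕ) (ball 0 (R + 1)) := fun R =>
    Pool.Agent.H17.montel_ultrafilter 𝒰 (Eventually.of_forall fun k => (hd k).differentiableOn) (hb _)
  choose h hdf hcv using hmont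
  have hmem : ∀ z : ℂ, z ∈ ball (0 : ℂ) ((⌈‖z‖⌉₊ : ℕ) + 1) := by
    intro z
    rw [mem_ball_zero_iff]
    have := Nat.le_ceil ‖z‖
    linarith
  obtain ⟨H, hH⟩ : ∃ H : ℂ → EN N, H = fun z => h ⌈‖z‖⌉₊ z := ⟨_, rfl⟩
  have hHt : ∀ z, Tendsto (fun k => Φ k z) (𝒰 : Filter ℕ) (𝓝 (H z)) := by
    intro z
    rw [hH]
    exact (hcv _).tendsto_at (hmem z)
  have hHR : ∀ R : ℕ, ∀ z ∈ ball (0 : ℂ) (R + 1), H z = h R z := fun R z hz =>
    tendsto_nhds_unique (hHt z) ((hcv R).tendsto_at hz)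
  refine ⟨H, fun z => ?_, fun u hu z _ => ?_⟩
  · have hz := hmem z
    have h1 := (hdf _).differentiableAt (isOpen_ball.mem_nhds hz)
    refine h1.congr_of_eventuallyEq ?_
    filter_upwards [isOpen_ball.mem_nhds hz] with y hy
    exact hHR _ y hy
  · have hz := hmem z
    obtain ⟨t, ht, hev⟩ := hcv _ u hu z hz
    have ht' : t ∈ 𝓝 z := by
      rwa [isOpen_ball.nhdsWithin_eq hz] at ht
    refine ⟨t ∩ ball 0 ((⌈‖z‖⌉₊ : ℕ) + 1), ?_, ?_⟩
    · rw [nhdsWithin_univ]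
      exact inter_mem ht' (isOpen_ball.mem_nhds hz)
    · filter_upwards [hev] with k hk y hy
      rw [hHR _ y hy.2]
      exact hk y hy.1

/-- the rescaling of one curve -/
theorem gap_one (S : Base G T rho M c₀ C δ g) (B : ℝ) :
    ∃ R₀ C' : ℝ, 2 < R₀ ∧ 0 ≤ C' ∧ ∀ (q : G.J → ℂ) (F : ℂ → EN N), G.Cl T q F → ∀ z, R₀ ≤ infDist z (Gd rho δ F) → Real.log ‖F z‖ ≤ B →
      ∃ r : ℝ, 0 < r ∧ r ≤ 1 ∧ (∀ w : ℂ, ‖w‖ ≤ 1 → Real.log ‖F (z + r * w)‖ ≤ B + 1) ∧ (∃ w : ℂ, ‖w‖ ≤ 1 ∧ B + 1 ≤ Real.log ‖F (z + r * w)‖) ∧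
        ∀ w : ℂ, 1 ≤ ‖w‖ → ‖w‖ ≤ infDist z (Gd rho δ F) / 2 → ‖F (z + r * w)‖ ≤ Real.exp (|B + 1| + C' * Real.log ‖w‖) := by
  obtain ⟨η, R₁, hη, hR₁, hjump⟩ := jump S B
  obtain ⟨B', hB', hgr⟩ := growth S.ok S.met
  refine ⟨max R₁ 3, 2 * B' / η, lt_max_of_lt_right (by norm_num), by positivity, fun q F hF z hz hB => ?_⟩
  set d : ℝ := infDist z (Gd rho δ F) with hd
  have hd1 : R₁ ≤ d := (le_max_left _ _).trans hz
  have hd3 : 3 ≤ d := (le_max_right _ _).trans hz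
  obtain ⟨w₀, hw₀, hw₀B⟩ := hjump q F hF z hd1 hB
  have hFd := hF.ent.diff
  have hF0 : ∀ w, F w ≠ 0 := fun w => ne0 S.ok (hF.ent.mem w)
  have hcont : Continuous fun w => Real.log ‖F w‖ := hFd.continuous.norm.log fun w => norm_ne_zero_iff.2 (hF0 w)
  set s₀ : ℝ := Real.exp (-(η * d)) with hs₀
  have hs₀1 : s₀ ≤ 1 := by
    rw [hs₀, Real.exp_le_one_iff]
    have : 0 ≤ η * d := by positivity
    linarith
  -- the first point where the curve is large
  have hAc : IsCompact (closedBall z s₀ ∩ {w | B + 1 ≤ Real.log ‖F w‖}) :=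
    (isCompact_closedBall z s₀).inter_right (isClosed_le continuous_const hcont)
  obtain ⟨w₁, ⟨hw₁s, hw₁B⟩, hmin⟩ := hAc.exists_isMinOn ⟨w₀, by rw [mem_closedBall, dist_eq_norm]; exact hw₀, hw₀B.le⟩
    ((continuous_id.sub continuous_const).norm.continuousOn (f := fun w : ℂ => ‖id w - z‖))
  set r : ℝ := ‖w₁ - z‖ with hr
  have hrs : r ≤ s₀ := by rwa [mem_closedBall, dist_eq_norm] at hw₁s
  have hr0 : 0 < r := by
    rw [hr, norm_pos_iff, sub_ne_zero]
    rintro rfl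
    have h1 : B + 1 ≤ Real.log ‖F w₁‖ := hw₁B
    linarith
  have hlt : ∀ w ∈ ball z r, Real.log ‖F w‖ ≤ B + 1 := by
    intro w hw
    by_contra hcon
    push Not at hcon
    rw [mem_ball, dist_eq_norm] at hw
    have h1 : r ≤ ‖id w - z‖ := hmin ⟨by rw [mem_closedBall, dist_eq_norm]; exact hw.le.trans hrs, hcon.le⟩
    exact absurd hw (not_lt.2 h1)
  have hle : ∀ w ∈ closedBall z r, Real.log ‖F w‖ ≤ B + 1 := by
    intro w hw
    rw [← closure_ball z hr0.ne'] at hw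
    exact closure_minimal (fun y hy => hlt y hy) (isClosed_le hcont continuous_const) hw
  have hrn : ‖(r : ℂ)‖ = r := by rw [Complex.norm_real, Real.norm_of_nonneg hr0.le]
  refine ⟨r, hr0, hrs.trans hs₀1, fun w hw => hle _ ?_, ⟨(w₁ - z) / r, ?_, ?_⟩, fun w hw1 hw2 => ?_⟩
  · rw [mem_closedBall, dist_eq_norm, add_sub_cancel_left, norm_mul, hrn]
    exact mul_le_of_le_one_right hr0.le hw
  · rw [norm_div, hrn, ← hr, div_self hr0.ne']
  · have e : z + (r : ℂ) * ((w₁ - z) / r) = w₁ := by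
      have : (r : ℂ) ≠ 0 := Complex.ofReal_ne_zero.2 hr0.ne'
      field_simp
      ring
    rw [e]
    exact hw₁B
  · -- three circles
    have hw0 : 0 < ‖w‖ := by linarith
    have hrd : r < d / 2 := by linarith [hrs.trans hs₀1]
    set m₂ : ℝ := B' * (1 + (d + d / 2)) with hm₂
    have hm₂0 : 0 ≤ m₂ := by positivity
    have h1 : ∀ y, ‖y - z‖ = r → ‖F y‖ ≤ Real.exp (B + 1) := fun y hy => by
      rw [← Real.log_le_iff_le_exp (norm_pos_iff.2 (hF0 y))]
      exact hle y (by rw [mem_closedBall, dist_eq_norm]; exact hy.le)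
    have h2 : ∀ y, ‖y - z‖ = d / 2 → ‖F y‖ ≤ Real.exp m₂ := fun y hy => by
      rw [← Real.log_le_iff_le_exp (norm_pos_iff.2 (hF0 y))]
      refine (hgr q F hF y).trans (mul_le_mul_of_nonneg_left ?_ hB')
      have h3 : infDist y (Gd rho δ F) ≤ infDist z (Gd rho δ F) + dist y z := infDist_le_infDist_add_dist
      rw [dist_eq_norm, hy] at h3
      linarith
    have hy : ‖z + (r : ℂ) * w - z‖ = r * ‖w‖ := by rw [add_sub_cancel_left, norm_mul, hrn]
    have hyr : r ≤ ‖z + (r : ℂ) * w - z‖ := by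
      rw [hy]
      exact le_mul_of_one_le_right hr0.le hw1
    have hyd : ‖z + (r : ℂ) * w - z‖ ≤ d / 2 := by
      rw [hy]
      exact (mul_le_of_le_one_left hw0.le (hrs.trans hs₀1)).trans hw2
    refine (three_circles hFd hr0 hrd h1 h2 _ hyr hyd).trans (Real.exp_le_exp.2 ?_)
    rw [hy, Real.log_mul hr0.ne' hw0.ne']
    set Λ : ℝ := Real.log (d / 2) - Real.log r with hΛ
    have hΛd : η * d ≤ Λ := by
      have h3 : Real.log r ≤ -(η * d) := by
        rw [← Real.log_exp (-(η * d))]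
        exact Real.log_le_log hr0 hrs
      have h4 : 0 ≤ Real.log (d / 2) := Real.log_nonneg (by linarith)
      linarith
    have hηd : 0 < η * d := by positivity
    have hΛ0 : 0 < Λ := lt_of_lt_of_le hηd hΛd
    set t : ℝ := Real.log ‖w‖ with ht
    have ht0 : 0 ≤ t := Real.log_nonneg hw1
    have htΛ : t ≤ Λ := by
      have h3 := Real.log_le_log (by positivity) (hy ▸ hyd)
      rw [Real.log_mul hr0.ne' hw0.ne'] at h3
      linarith
    have e1 : (Real.log (d / 2) - (Real.log r + t)) * (B + 1) + (Real.log r + t - Real.log r) * m₂ = (Λ - t) * (B + 1) + t * m₂ := by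
      rw [hΛ]
      ring
    rw [e1, div_le_iff₀ hΛ0]
    have h5 : (Λ - t) * (B + 1) ≤ Λ * |B + 1| := by
      calc (Λ - t) * (B + 1) ≤ (Λ - t) * |B + 1| := mul_le_mul_of_nonneg_left (le_abs_self _) (by linarith)
        _ ≤ Λ * |B + 1| := mul_le_mul_of_nonneg_right (by linarith) (abs_nonneg _)
    have h6 : m₂ ≤ 2 * B' / η * Λ := by
      have h7 : m₂ ≤ 2 * B' / η * (η * d) := by
        have e2 : 2 * B' / η * (η * d) = B' * (2 * d) := by
          field_simp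
        rw [e2, hm₂]
        exact mul_le_mul_of_nonneg_left (by linarith) hB'
      exact h7.trans (mul_le_mul_of_nonneg_left hΛd (by positivity))
    have h8 := mul_le_mul_of_nonneg_left h6 ht0
    calc (Λ - t) * (B + 1) + t * m₂ ≤ Λ * |B + 1| + t * (2 * B' / η * Λ) := add_le_add h5 h8
      _ = (|B + 1| + 2 * B' / η * t) * Λ := by ring

end Pool.Agent.SR3
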