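import Pool.Agent.SDA.La
import Pool.Agent.SR3.ADefs

/-!
# SR3 ARad: the radial weight

`‖z - c‖ ≥ Re (e⁻¹ (z - c))`, `|e| = 1`, with equality at `w`, so `exp (k (‖z - c‖ - r₀)²) ≥ exp (k (Re m)²)`, `m = e⁻¹ (z - c) - r₀`, `SDA.La.sub_exp_re`.
-/

set_option autoImplicit false

open Topology Filter Metric

noncomputable section

namespace Pool.Agent.SR3

open Pool.Agent.H36.BP (EN fs wd Sub OrdTwo)

theorem sub_rad' {k r₀ : ℝ} (hk : 0 ≤ k) {c w : ℂ} (h : r₀ < ‖w - c‖) : Sub (fun z => Real.exp (k * max (‖z - c‖ - r₀) 0 ^ 2)) w (k / 2) := by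
  -- the direction
  obtain ⟨e, he, hew⟩ : ∃ e : ℂ, ‖e‖ = 1 ∧ e * (w - c) = (‖w - c‖ : ℂ) := by
    by_cases h0 : w - c = 0
    · exact ⟨1, norm_one, by rw [h0]; simp⟩
    · have h1 : (‖w - c‖ : ℂ) ≠ 0 := by exact_mod_cast norm_ne_zero_iff.2 h0
      refine ⟨(‖w - c‖ : ℂ) / (w - c), ?_, div_mul_cancel₀ _ h0⟩
      rw [norm_div, Complex.norm_real, norm_norm, div_self (norm_ne_zero_iff.2 h0)]
  obtain ⟨m, hm⟩ : ∃ m : ℂ → ℂ, m = fun z => (√k : ℂ) * (e * (z - c) - (r₀ : ℂ)) := ⟨_, rfl⟩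
  have hma : AnalyticAt ℂ m w := by
    rw [hm]
    exact analyticAt_const.mul ((analyticAt_const.mul (analyticAt_id.sub analyticAt_const)).sub analyticAt_const)
  have hmd : deriv m w = (√k : ℂ) * e := by
    have h1 : HasDerivAt (fun z : ℂ => (√k : ℂ) * (e * (z - c) - (r₀ : ℂ))) ((√k : ℂ) * (e * 1)) w :=
      ((((hasDerivAt_id w).sub_const c).const_mul e).sub_const _).const_mul _
    rw [hm, h1.deriv, mul_one]
  have hmre : ∀ z, (m z).re = √k * ((e * (z - c)).re - r₀) := fun z => by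
    rw [hm]
    show (((√k : ℝ) : ℂ) * (e * (z - c) - (r₀ : ℂ))).re = _
    rw [Complex.re_ofReal_mul, Complex.sub_re, Complex.ofReal_re]
  have hsq : ∀ z, (m z).re ^ 2 = k * ((e * (z - c)).re - r₀) ^ 2 := fun z => by
    rw [hmre, mul_pow, Real.sq_sqrt hk]
  have hs := Pool.Agent.SDA.La.sub_exp_re hma
  have hc : 1 / 2 * ‖deriv m w‖ ^ 2 = k / 2 := by
    rw [hmd, norm_mul, he, mul_one, Complex.norm_real, Real.norm_of_nonneg (Real.sqrt_nonneg _), Real.sq_sqrt hk]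
    ring
  rw [hc] at hs
  have hwre : (e * (w - c)).re = ‖w - c‖ := by rw [hew, Complex.ofReal_re]
  refine hs.mono ?_ ?_
  · show Real.exp ((m w).re ^ 2) = Real.exp (k * max (‖w - c‖ - r₀) 0 ^ 2)
    rw [hsq, hwre, max_eq_left (by linarith)]
  · have h1 : ∀ᶠ z in 𝓝 w, r₀ < (e * (z - c)).re := by
      have h2 : Continuous fun z : ℂ => (e * (z - c)).re := by fun_prop
      have h3 : r₀ < (e * (w - c)).re := by rw [hwre]; exact h
      exact continuousAt_const.eventually_lt h2.continuousAt h3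
    filter_upwards [h1] with z hz
    show Real.exp ((m z).re ^ 2) ≤ Real.exp (k * max (‖z - c‖ - r₀) 0 ^ 2)
    rw [hsq]
    refine Real.exp_le_exp.2 (mul_le_mul_of_nonneg_left ?_ hk)
    have h2 : (e * (z - c)).re ≤ ‖z - c‖ := by
      refine (Complex.re_le_norm _).trans (le_of_eq ?_)
      rw [norm_mul, he, one_mul]
    refine pow_le_pow_left₀ (by linarith) ?_ 2
    exact le_trans (by linarith) (le_max_left _ _)

theorem sub_rad (k r₀ : ℝ) (hk : 0 ≤ k) (c w : ℂ) : Sub (fun z => Real.exp (k * max (‖z - c‖ - r₀) 0 ^ 2)) w 0 := by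
  by_cases h : r₀ < ‖w - c‖
  · exact (sub_rad' hk h).anti (by linarith)
  · refine (Pool.Agent.H36.BP.Sub.const one_pos w).mono ?_ (Eventually.of_forall fun z => ?_)
    · show (1 : ℝ) = Real.exp (k * max (‖w - c‖ - r₀) 0 ^ 2)
      rw [max_eq_right (by linarith [not_lt.1 h])]
      simp
    · exact Real.one_le_exp (by positivity)

end Pool.Agent.SR3
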