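import Pool.Agent.SR3.ATh
import Pool.Agent.SR3.AGd
import Pool.Agent.SR3.ABas
import Pool.Agent.SR3.ARad
import Pool.Agent.SR3.ALam
import Pool.Agent.SDA.Ha
import Pool.Agent.SDA.F0

/-!
# SR3 AGrw: the growth of the lifts

Harnack's inequality on the disc with centre `z` and radius `d + 1`, `d` the distance to the good points, at the nearest good point.
-/

set_option autoImplicit false

open Topology Filter Metric

noncomputable section

namespace Pool.Agent.SR3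

open Pool.Agent.H36.BP (EN fs wd Sub OrdTwo)
open Pool.Agent.H14.PP (IsCone Tan)
open Pool.Agent.SY (Ent)
open Pool.Agent.SDA (EnergyK Near AffOpen Nm nForms)
open Geo (Gd)

variable {N : ℕ} {G : Geo N} {T : Set (EN N)} {rho : EN N → ℝ} {M : ℕ} {c₀ C δ : ℝ} {g : (ℂ → EN N) → ℂ → ℝ}

theorem growth (hG : G.Ok) (hM : G.Met T rho M c₀ C δ g) :
    ∃ B : ℝ, 0 ≤ B ∧ ∀ (q : G.J → ℂ) (F : ℂ → EN N), G.Cl T q F → ∀ z, Real.log ‖F z‖ ≤ B * (1 + infDist z (Gd rho δ F)) := by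
  obtain ⟨C₁, hC₁, hg⟩ := bound hG hM
  obtain ⟨d₁, C₂, hd₁, hth, hlog⟩ := thick hG hM hM.pos
  obtain ⟨B₁, hB₁, hlow⟩ := log_lower hG
  have hC0 := hM.en.C_pos
  have hc₀ := hM.en.c₀_pos
  obtain ⟨c, hc, hc1⟩ : ∃ c : ℝ, 0 < c ∧ Real.log c = -B₁ := ⟨Real.exp (-B₁), Real.exp_pos _, Real.log_exp _⟩
  obtain ⟨k, hk⟩ : ∃ k : ℝ, k = 2 * (C * C₁ ^ 2) := ⟨_, rfl⟩
  have hk0 : 0 ≤ k := by rw [hk]; positivity
  obtain ⟨a, ha⟩ : ∃ a : ℝ, a = Real.log C₁ + k * 2 ^ 2 := ⟨_, rfl⟩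
  obtain ⟨b, hb⟩ : ∃ b : ℝ, b = -Real.log d₁ + c₀ * (C₂ - Real.log c) := ⟨_, rfl⟩
  obtain ⟨D, hD⟩ : ∃ D : ℝ, D = 6 * |a + b| / c₀ := ⟨_, rfl⟩
  have hD0 : 0 ≤ D := by rw [hD]; positivity
  refine ⟨D + |Real.log c|, by positivity, fun q F hF z => ?_⟩
  have hpos0 : ∀ z, 0 < ‖F z‖ := fun z => norm_pos_iff.2 (ne0 hG (hF.ent.mem z))
  have hFc : ∀ z, c ≤ ‖F z‖ := fun z => by
    have h1 := hlow (F z) (hF.nm z)
    rw [← hc1] at h1
    exact (Real.log_le_log_iff hc (hpos0 z)).1 h1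
  have hc0 : ‖((c : ℂ))⁻¹‖ = c⁻¹ := by rw [norm_inv, Complex.norm_real, Real.norm_eq_abs, abs_of_pos hc]
  obtain ⟨F₁, hF₁⟩ : ∃ F₁ : ℂ → EN N, F₁ = fun z => ((c : ℂ))⁻¹ • F z := ⟨_, rfl⟩
  have hn : ∀ z, ‖F₁ z‖ = c⁻¹ * ‖F z‖ := fun z => by
    rw [hF₁]
    simp only
    rw [norm_smul, hc0]
  have h1 : ∀ z, 1 ≤ ‖F₁ z‖ := fun z => by
    rw [hn]
    have := mul_le_mul_of_nonneg_left (hFc z) (inv_nonneg.2 hc.le)
    rwa [inv_mul_cancel₀ hc.ne'] at this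
  have hd : Differentiable ℂ F₁ := by
    rw [hF₁]
    exact hF.ent.diff.const_smul ((c : ℂ))⁻¹
  have hpos : ∀ z, 0 < ‖F₁ z‖ ^ (-c₀) := fun z => Real.rpow_pos_of_pos (lt_of_lt_of_le one_pos (h1 z)) _
  have hcont : Continuous fun z => ‖F₁ z‖ ^ (-c₀) :=
    hd.continuous.norm.rpow_const fun z => Or.inl (lt_of_lt_of_le one_pos (h1 z)).ne'
  -- the nearest good point
  obtain ⟨d, hdd⟩ : ∃ d : ℝ, d = infDist z (Gd rho δ F) := ⟨_, rfl⟩
  obtain ⟨p, hp, hzp⟩ := (gd_closed hG hM hF).exists_infDist_eq_dist (exists_good hG hM hF) z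
  rw [← hdd] at hzp ⊢
  have hd0 : 0 ≤ d := by rw [hzp]; exact dist_nonneg
  have hpz : ‖p - z‖ = d := by rw [hzp, dist_comm, dist_eq_norm]
  obtain ⟨W, hW⟩ : ∃ W : ℂ → ℝ, W = fun w => Real.exp (k * max (‖w - z‖ - (d - 1)) 0 ^ 2) := ⟨_, rfl⟩
  have hWc : Continuous W := by
    rw [hW]
    fun_prop
  have hW0 : ∀ w, 0 < W w := fun w => by rw [hW]; exact Real.exp_pos _
  have hW1 : ∀ w, 1 ≤ W w := fun w => by
    rw [hW]
    exact Real.one_le_exp (mul_nonneg hk0 (sq_nonneg _))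
  have hcont' : Continuous fun w => ‖F₁ w‖ ^ (-c₀) * W w := hcont.mul hWc
  have hpos' : ∀ w, 0 < ‖F₁ w‖ ^ (-c₀) * W w := fun w => mul_pos (hpos w) (hW0 w)
  have hmul : ∀ w, (c⁻¹) ^ (-c₀) * (g F w * ‖F w‖ ^ (-c₀)) * W w = g F w * (‖F₁ w‖ ^ (-c₀) * W w) := fun w => by
    rw [hn, Real.mul_rpow (inv_nonneg.2 hc.le) (norm_nonneg _)]
    ring
  have hcp : 0 < (c⁻¹) ^ (-c₀) := Real.rpow_pos_of_pos (inv_pos.2 hc) _
  have hsub : ∀ w, 0 < g F w * (‖F₁ w‖ ^ (-c₀) * W w) → Sub (fun w => g F w * (‖F₁ w‖ ^ (-c₀) * W w)) w 0 := fun w hw => by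
    have hgz : 0 < g F w := by
      rcases (hM.en.nonneg F hF.ent w).lt_or_eq with h | h
      · exact h
      · rw [← h, zero_mul] at hw
        exact absurd hw (lt_irrefl _)
    by_cases hwd : ‖w - z‖ < d
    · have h2 := hM.near F hF.ent w (lt_of_ball (by rwa [← hdd])) hgz
      have h3 := h2.const_mul hcp
      have h4 := sub_rad k (d - 1) hk0 z w
      have h5 := h3.mul h4
      rw [add_zero] at h5
      refine h5.congr (Filter.Eventually.of_forall fun w' => ?_)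
      have h6 := hmul w'
      rw [hW] at h6 ⊢
      exact h6
    · have h2 := hM.en.sub F hF.ent w hgz
      have h3 := h2.const_mul hcp
      have h4 := sub_rad' (c := z) (w := w) (r₀ := d - 1) hk0 (by linarith [not_lt.1 hwd])
      have h5 := (h3.mul h4).anti (d := 0) (by
        have h7 : g F w ^ 2 ≤ C₁ ^ 2 := pow_le_pow_left₀ hgz.le (hg q F hF w) 2
        have h8 := mul_le_mul_of_nonneg_left h7 hC0.le
        rw [hk]
        linarith)
      refine h5.congr (Filter.Eventually.of_forall fun w' => ?_)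
      have h6 := hmul w'
      rw [hW] at h6 ⊢
      exact h6
  have hFp : Real.exp (-b) ≤ g F p * (‖F₁ p‖ ^ (-c₀) * W p) := by
    have h2 := hth F hF.ent p hp (cl_n hF p).ge
    have h3 := hlog (F p) (hF.ent.mem p) (hF.nm p) hp
    have h4 : ‖F₁ p‖ ^ (-c₀) = Real.exp (-(c₀ * Real.log ‖F₁ p‖)) := by
      rw [Real.rpow_def_of_pos (lt_of_lt_of_le one_pos (h1 p))]
      congr 1
      ring
    have h5 : Real.log ‖F₁ p‖ ≤ C₂ - Real.log c := by
      rw [hn, Real.log_mul (inv_pos.2 hc).ne' (lt_of_lt_of_le hc (hFc p)).ne', Real.log_inv]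
      linarith
    have h6 : Real.exp (-(c₀ * (C₂ - Real.log c))) ≤ ‖F₁ p‖ ^ (-c₀) := by
      rw [h4]
      refine Real.exp_le_exp.2 ?_
      have := mul_le_mul_of_nonneg_left h5 hc₀.le
      linarith
    calc Real.exp (-b) = d₁ * Real.exp (-(c₀ * (C₂ - Real.log c))) := by
          rw [hb, neg_add, neg_neg, Real.exp_add, Real.exp_log hd₁]
      _ ≤ g F p * ‖F₁ p‖ ^ (-c₀) := mul_le_mul h2 h6 (Real.exp_pos _).le (hM.en.nonneg F hF.ent p)
      _ ≤ g F p * (‖F₁ p‖ ^ (-c₀) * W p) := by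
          refine mul_le_mul_of_nonneg_left ?_ (hM.en.nonneg F hF.ent p)
          exact le_mul_of_one_le_right (hpos p).le (hW1 p)
  have hR : (0 : ℝ) < d + 1 := by linarith
  have h4 := Pool.Agent.SDA.harnack (N := N) (c := z) (z₀ := p) (R := d + 1) (a := a) (b := b) hc₀
      (by rw [mem_ball, dist_eq_norm, hpz]; linarith) hd h1
      (v := fun w => g F w * (‖F₁ w‖ ^ (-c₀) * W w)) (Pool.Agent.SDA.F1_usc (hM.en.usc F hF.ent) hcont' hpos' _)
      (fun w _ => mul_nonneg (hM.en.nonneg F hF.ent w) (hpos' w).le) (fun w _ hw => hsub w hw)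
      (fun w hw => by
        have h5 : ‖w - z‖ ≤ d + 1 := by rwa [mem_closedBall, dist_eq_norm] at hw
        have h6 : W w ≤ Real.exp (k * 2 ^ 2) := by
          rw [hW]
          refine Real.exp_le_exp.2 (mul_le_mul_of_nonneg_left (pow_le_pow_left₀ (le_max_right _ _) ?_ 2) hk0)
          exact max_le (by linarith) zero_le_two
        rw [ha, Real.exp_add, Real.exp_log hC₁]
        calc g F w * (‖F₁ w‖ ^ (-c₀) * W w) ≤ C₁ * (‖F₁ w‖ ^ (-c₀) * Real.exp (k * 2 ^ 2)) :=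
              mul_le_mul (hg q F hF w) (mul_le_mul_of_nonneg_left h6 (hpos w).le) (hpos' w).le hC₁.le
          _ = C₁ * Real.exp (k * 2 ^ 2) * ‖F₁ w‖ ^ (-c₀) := by ring)
      hFp z (mem_closedBall_self (by linarith))
  rw [hpz, show d + 1 - d = 1 by ring, div_one] at h4
  have h5 : Real.log ‖F₁ z‖ ≤ D * (1 + d) := by
    have h6 : 3 * (d + 1 + d) * (a + b) ≤ 6 * (1 + d) * |a + b| := by
      have h7 : 3 * (d + 1 + d) * (a + b) ≤ 3 * (d + 1 + d) * |a + b| := mul_le_mul_of_nonneg_left (le_abs_self _) (by linarith)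
      have h8 : 3 * (d + 1 + d) * |a + b| ≤ 6 * (1 + d) * |a + b| := mul_le_mul_of_nonneg_right (by linarith) (abs_nonneg _)
      linarith
    have h9 : c₀ * Real.log ‖F₁ z‖ ≤ 6 * (1 + d) * |a + b| := h4.trans h6
    rw [hD, div_mul_eq_mul_div, le_div_iff₀ hc₀]
    linarith
  rw [hn, Real.log_mul (inv_pos.2 hc).ne' (hpos0 z).ne', Real.log_inv] at h5
  have h6 : |Real.log c| ≤ |Real.log c| * (1 + d) := le_mul_of_one_le_right (abs_nonneg _) (by linarith)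
  have h7 := le_abs_self (Real.log c)
  rw [add_mul]
  linarith

end Pool.Agent.SR3
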