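import Pool.Agent.SR3.ADefs
import Pool.Agent.H36.BP.WdA

/-!
# SR3 AZal: Zalcman's rescaling for the Fubini-Study length

PROOF.  `s w = fs (F w) (F' w)` is continuous; `b` = a maximum of `s w (R / 2 - ‖w - z‖)` on the closed disc of radius `R / 2`, `ρ = R / 2 - ‖b - z‖`,
`s b ρ ≥ s z R / 2 > 4 k`, `a = 1 / s b`.  For `‖w‖ < k` the point `y = b + a w` has `‖y - b‖ ≤ a k < ρ / 4`, so `s y (3 ρ / 4) ≤ s b ρ`.
-/

set_option autoImplicit false

open Topology Filter Metric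

noncomputable section

namespace Pool.Agent.SR3

open Pool.Agent.H36.BP (EN fs wd fs_nonneg)

private theorem AZal_cont {K : ℕ} {F : ℂ → EN K} (hF : Differentiable ℂ F) (h0 : ∀ z, F z ≠ 0) : Continuous fun w => fs (F w) (deriv F w) := by
  have h1 : Continuous F := hF.continuous
  have h2 : Continuous (deriv F) := (hF.contDiff (n := 1)).continuous_deriv le_rfl
  have h3 : ∀ w, ‖F w‖ ^ 2 ≠ 0 := fun w => pow_ne_zero 2 (norm_ne_zero_iff.2 (h0 w))
  unfold fs wd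
  exact ((((h1.norm.pow 2).mul (h2.norm.pow 2)).sub ((h1.inner h2).norm.pow 2)).sqrt).div (h1.norm.pow 2) h3

theorem zalcman {K : ℕ} {F : ℂ → EN K} (hF : Differentiable ℂ F) (h0 : ∀ z, F z ≠ 0) {R k : ℝ} (hR : 0 < R) (hk : 1 ≤ k) {z : ℂ}
    (h : 8 * k < R * fs (F z) (deriv F z)) :
    ∃ (a : ℝ) (b : ℂ), 0 < a ∧ ‖b - z‖ ≤ R / 2 ∧ a * k ≤ R / 4 ∧ a * fs (F b) (deriv F b) = 1 ∧
      ∀ w ∈ ball (0 : ℂ) k, a * fs (F (b + a * w)) (deriv F (b + a * w)) ≤ 2 := by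
  obtain ⟨s, hs⟩ : ∃ s : ℂ → ℝ, s = fun w => fs (F w) (deriv F w) := ⟨_, rfl⟩
  have hsc : Continuous s := by rw [hs]; exact AZal_cont hF h0
  have hs0 : ∀ w, 0 ≤ s w := fun w => by rw [hs]; exact fs_nonneg _ _
  have hsz : 8 * k < R * s z := by rw [hs]; exact h
  have huc : ContinuousOn (fun w => s w * (R / 2 - ‖w - z‖)) (closedBall z (R / 2)) :=
    (hsc.mul (continuous_const.sub (continuous_id.sub continuous_const).norm)).continuousOn
  obtain ⟨b, hb, hmax⟩ := (isCompact_closedBall z (R / 2)).exists_isMaxOn ⟨z, mem_closedBall_self (by positivity)⟩ huc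
  have hbn : ‖b - z‖ ≤ R / 2 := mem_closedBall_iff_norm.1 hb
  have h1 : s z * (R / 2) ≤ s b * (R / 2 - ‖b - z‖) := by
    have := hmax (mem_closedBall_self (by positivity : (0 : ℝ) ≤ R / 2))
    simpa using this
  obtain ⟨ρ, hρ⟩ : ∃ ρ : ℝ, ρ = R / 2 - ‖b - z‖ := ⟨_, rfl⟩
  rw [← hρ] at h1
  have hρ0 : 0 ≤ ρ := by rw [hρ]; linarith
  have h2 : 4 * k < s b * ρ := by nlinarith
  have hpos : 0 < s b * ρ := by linarith
  have hsb : 0 < s b := by
    rcases (hs0 b).lt_or_eq with h3 | h3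
    · exact h3
    · rw [← h3, zero_mul] at hpos
      exact absurd hpos (lt_irrefl _)
  have hρp : 0 < ρ := by
    rcases hρ0.lt_or_eq with h3 | h3
    · exact h3
    · rw [← h3, mul_zero] at hpos
      exact absurd hpos (lt_irrefl _)
  have hak : (s b)⁻¹ * k < ρ / 4 := by
    rw [inv_mul_lt_iff₀ hsb]
    linarith
  refine ⟨(s b)⁻¹, b, inv_pos.2 hsb, hbn, ?_, ?_, ?_⟩
  · have h3 : ρ ≤ R / 2 := by rw [hρ]; linarith [norm_nonneg (b - z)]
    linarith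
  · have h3 : s b = fs (F b) (deriv F b) := by rw [hs]
    rw [← h3]
    exact inv_mul_cancel₀ hsb.ne'
  · intro w hw
    rw [mem_ball_zero_iff] at hw
    obtain ⟨y, hy⟩ : ∃ y : ℂ, y = b + (((s b)⁻¹ : ℝ) : ℂ) * w := ⟨_, rfl⟩
    rw [← hy]
    have h3 : fs (F y) (deriv F y) = s y := by rw [hs]
    rw [h3]
    have hyb : ‖y - b‖ ≤ ρ / 4 := by
      rw [hy, add_sub_cancel_left, norm_mul, Complex.norm_real, Real.norm_of_nonneg (inv_pos.2 hsb).le]
      have h4 : (s b)⁻¹ * ‖w‖ ≤ (s b)⁻¹ * k := mul_le_mul_of_nonneg_left hw.le (inv_pos.2 hsb).le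
      linarith
    have hyz : ‖y - z‖ ≤ ‖b - z‖ + ρ / 4 := by
      calc ‖y - z‖ = ‖(y - b) + (b - z)‖ := by rw [sub_add_sub_cancel]
        _ ≤ ‖y - b‖ + ‖b - z‖ := norm_add_le _ _
        _ ≤ ‖b - z‖ + ρ / 4 := by linarith
    have hyball : y ∈ closedBall z (R / 2) := by
      rw [mem_closedBall_iff_norm]
      linarith [hρ]
    have h5 : s y * (R / 2 - ‖y - z‖) ≤ s b * (R / 2 - ‖b - z‖) := hmax hyball
    rw [← hρ] at h5
    have h6 : s y * (3 * ρ / 4) ≤ s y * (R / 2 - ‖y - z‖) := mul_le_mul_of_nonneg_left (by linarith) (hs0 y)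
    have h7 : s y * (3 / 4) ≤ s b := by
      have h8 : s y * (3 / 4) * ρ ≤ s b * ρ := by linarith
      exact le_of_mul_le_mul_right h8 hρp
    rw [inv_mul_le_iff₀ hsb]
    linarith

end Pool.Agent.SR3
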