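import Pool.Agent.SR3.ABas
import Pool.Agent.SR3.ABd
import Pool.Agent.SR3.ACp
import Pool.Agent.SR3.AGap
import Pool.Agent.SR3.AGd
import Pool.Agent.SR3.AGrd
import Pool.Agent.SR3.AGrw
import Pool.Agent.SR3.AHar
import Pool.Agent.SR3.AJmp
import Pool.Agent.SR3.ALam
import Pool.Agent.SR3.ALbd
import Pool.Agent.SR3.ALow
import Pool.Agent.SR3.ALpr
import Pool.Agent.SR3.APl
import Pool.Agent.SR3.ARad
import Pool.Agent.SR3.ASet
import Pool.Agent.SR3.ASml
import Pool.Agent.SR3.ASpd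
import Pool.Agent.SR3.ASq
import Pool.Agent.SR3.AStc
import Pool.Agent.SR3.ATh
import Pool.Agent.SR3.AThr
import Pool.Agent.SR3.AZal

/-!
# SR3 AAll: blocks A, B, C
-/
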