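import Pool.Agent.SR3.Defs
import Pool.Agent.H62.EF.PrLip
import Pool.Agent.H13.LU.Logs
import Pool.Agent.H14.PP.Poly
import Pool.Agent.H14.PP.CurveBasic

/-!
# SR3 Apx: on a slow disc `lam i` is the real part of a holomorphic function up to a constant
-/

set_option autoImplicit false

open Topology Filter Metric

noncomputable section

namespace Pool.Agent.SR3

open Pool.Agent.H36.BP (EN fs wd fs_nonneg)
open Pool.Agent.H14.PP (IsCone Tan)

private theorem apx_pr {n : ℕ} (x : EN n) (l : Fin (n + 1)) :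
    (Pool.Agent.H62.EF.pr x).ofLp (l, l) = ((‖x.ofLp l‖ ^ 2 / ‖x‖ ^ 2 : ℝ) : ℂ) := by
  show x.ofLp l * (starRingEnd ℂ) (x.ofLp l) / ((‖x‖ ^ 2 : ℝ) : ℂ) = _
  rw [Complex.mul_conj']
  push_cast
  ring

/-- on a slow disc the logarithm of the norm is the real part of a holomorphic function up to a constant -/
theorem apx_one {n : ℕ} {F : ℂ → EN n} {w : ℂ} {r : ℝ} (hr : 0 < r) (hF : DifferentiableOn ℂ F (ball w r)) (h0 : ∀ z ∈ ball w r, F z ≠ 0)
    (hs : ∀ z ∈ ball w r, fs (F z) (deriv F z) ≤ 1 / (4 * ((n : ℝ) + 1) ^ 2) / r) :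
    ∃ g : ℂ → ℂ, DifferentiableOn ℂ g (ball w r) ∧ ∀ z ∈ ball w r, |Real.log ‖F z‖ - (g z).re| ≤ 2 * ((n : ℝ) + 1) ∧
      ‖inner ℂ (F z) (deriv F z) / (‖F z‖ : ℂ) ^ 2 - deriv g z‖ ≤ 2 * ((n : ℝ) + 1) * fs (F z) (deriv F z) := by
  have hw : w ∈ ball w r := mem_ball_self hr
  have hn : (0 : ℝ) < (n : ℝ) + 1 := by positivity
  obtain ⟨l, hl⟩ := Pool.Agent.H14.PP.exists_coord (h0 w hw)
  have key : ∀ z ∈ ball w r, ‖F z‖ ≤ 2 * ((n : ℝ) + 1) * ‖(F z).ofLp l‖ := by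
    intro z hz
    have h1 := Pool.Agent.H62.EF.pr_lipschitz isOpen_ball (convex_ball w r) hF h0 hs z hz w hw
    have h2 : ‖z - w‖ ≤ r := by
      rw [← dist_eq_norm]
      exact (mem_ball.1 hz).le
    have h3 : dist (Pool.Agent.H62.EF.pr (F z)) (Pool.Agent.H62.EF.pr (F w)) ≤ 1 / (2 * ((n : ℝ) + 1) ^ 2) := by
      refine h1.trans ?_
      have h4 : 2 * (1 / (4 * ((n : ℝ) + 1) ^ 2) / r) * ‖z - w‖ ≤ 2 * (1 / (4 * ((n : ℝ) + 1) ^ 2) / r) * r :=
        mul_le_mul_of_nonneg_left h2 (by positivity)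
      refine h4.trans (le_of_eq ?_)
      field_simp
      ring
    have h5 : |‖(F z).ofLp l‖ ^ 2 / ‖F z‖ ^ 2 - ‖(F w).ofLp l‖ ^ 2 / ‖F w‖ ^ 2| ≤ 1 / (2 * ((n : ℝ) + 1) ^ 2) := by
      have h6 := PiLp.norm_apply_le (Pool.Agent.H62.EF.pr (F z) - Pool.Agent.H62.EF.pr (F w)) (l, l)
      have h7 : (Pool.Agent.H62.EF.pr (F z) - Pool.Agent.H62.EF.pr (F w)) (l, l) =
          ((‖(F z).ofLp l‖ ^ 2 / ‖F z‖ ^ 2 - ‖(F w).ofLp l‖ ^ 2 / ‖F w‖ ^ 2 : ℝ) : ℂ) := by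
        rw [PiLp.sub_apply]
        show (Pool.Agent.H62.EF.pr (F z)).ofLp (l, l) - (Pool.Agent.H62.EF.pr (F w)).ofLp (l, l) = _
        rw [apx_pr, apx_pr]
        push_cast
        ring
      rw [h7, Complex.norm_real, Real.norm_eq_abs, ← dist_eq_norm] at h6
      exact h6.trans h3
    have hz0 : 0 < ‖F z‖ := norm_pos_iff.2 (h0 z hz)
    have hw0 : 0 < ‖F w‖ := norm_pos_iff.2 (h0 w hw)
    have h8 : 1 / ((n : ℝ) + 1) ^ 2 ≤ ‖(F w).ofLp l‖ ^ 2 / ‖F w‖ ^ 2 := by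
      rw [div_le_div_iff₀ (by positivity) (by positivity), one_mul, ← mul_pow]
      refine pow_le_pow_left₀ hw0.le ?_ 2
      rw [mul_comm]
      exact hl
    have h9 : 1 / (4 * ((n : ℝ) + 1) ^ 2) ≤ ‖(F z).ofLp l‖ ^ 2 / ‖F z‖ ^ 2 := by
      have h10 := (abs_le.1 h5).1
      have h11 : 1 / (2 * ((n : ℝ) + 1) ^ 2) = 1 / ((n : ℝ) + 1) ^ 2 / 2 := by
        field_simp
      have h12 : 1 / (4 * ((n : ℝ) + 1) ^ 2) = 1 / ((n : ℝ) + 1) ^ 2 / 4 := by
        field_simp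
      have h13 : 0 < 1 / ((n : ℝ) + 1) ^ 2 := by positivity
      rw [h11] at h10
      rw [h12]
      linarith
    rw [div_le_div_iff₀ (by positivity) (by positivity), one_mul] at h9
    have h14 : ‖F z‖ ^ 2 ≤ (2 * ((n : ℝ) + 1) * ‖(F z).ofLp l‖) ^ 2 := by
      refine h9.trans (le_of_eq ?_)
      ring
    exact le_of_sq_le_sq h14 (by positivity)
  have hne : ∀ z ∈ ball w r, (F z).ofLp l ≠ 0 := by
    intro z hz h
    have h1 := key z hz
    rw [h, norm_zero, mul_zero] at h1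
    exact h0 z hz (norm_le_zero_iff.1 h1)
  have hFl : DifferentiableOn ℂ (fun z => (F z).ofLp l) (ball w r) := fun z hz =>
    ((EuclideanSpace.proj (𝕜 := ℂ) l : EN n →L[ℂ] ℂ).differentiableAt.comp_differentiableWithinAt z (hF z hz))
  obtain ⟨g, hg, hge⟩ := Pool.Agent.H13.LU.exists_log isOpen_ball (convex_ball w r) ⟨w, hw⟩ hFl hne
  refine ⟨g, hg, fun z hz => ?_⟩
  have hnb : ball w r ∈ 𝓝 z := isOpen_ball.mem_nhds hz
  have hz0 : 0 < ‖F z‖ := norm_pos_iff.2 (h0 z hz)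
  have hl0 : 0 < ‖(F z).ofLp l‖ := norm_pos_iff.2 (hne z hz)
  constructor
  · have h1 : (g z).re = Real.log ‖(F z).ofLp l‖ := by
      rw [← hge z hz, Complex.norm_exp, Real.log_exp]
    have h2 : ‖(F z).ofLp l‖ ≤ ‖F z‖ := PiLp.norm_apply_le (F z) l
    rw [h1, ← Real.log_div hz0.ne' hl0.ne', abs_of_nonneg (Real.log_nonneg ((one_le_div hl0).2 h2))]
    have h3 : ‖F z‖ / ‖(F z).ofLp l‖ ≤ 2 * ((n : ℝ) + 1) := by
      rw [div_le_iff₀ hl0]
      exact key z hz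
    refine (Real.log_le_sub_one_of_pos (by positivity)).trans ?_
    linarith
  · have hFd : HasDerivAt F (deriv F z) z := ((hF z hz).differentiableAt hnb).hasDerivAt
    have h1 : HasDerivAt (fun z => (F z).ofLp l) ((deriv F z).ofLp l) z :=
      (EuclideanSpace.proj (𝕜 := ℂ) l : EN n →L[ℂ] ℂ).hasFDerivAt.comp_hasDerivAt z hFd
    have h2 : HasDerivAt (fun z => Complex.exp (g z)) (Complex.exp (g z) * deriv g z) z :=
      ((hg z hz).differentiableAt hnb).hasDerivAt.cexp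
    have h3 : (fun z => Complex.exp (g z)) =ᶠ[𝓝 z] fun z => (F z).ofLp l := by
      filter_upwards [hnb] with y hy using hge y hy
    have h4 : Complex.exp (g z) * deriv g z = (deriv F z).ofLp l := h2.unique (h1.congr_of_eventuallyEq h3)
    rw [hge z hz] at h4
    set a : ℂ := inner ℂ (F z) (deriv F z) / (‖F z‖ : ℂ) ^ 2 with ha
    have h5 : (F z).ofLp l * (a - deriv g z) = -((deriv F z - a • F z).ofLp l) := by
      have h6 : (deriv F z - a • F z).ofLp l = (deriv F z).ofLp l - a * (F z).ofLp l := by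
        simp [PiLp.sub_apply, PiLp.smul_apply, smul_eq_mul]
      rw [h6, mul_sub, h4]
      ring
    have h6 : ‖(F z).ofLp l‖ * ‖a - deriv g z‖ ≤ fs (F z) (deriv F z) * ‖F z‖ := by
      rw [← norm_mul, h5, norm_neg]
      refine (PiLp.norm_apply_le _ l).trans (le_of_eq ?_)
      rw [Pool.Agent.H14.PP.fs_eq (h0 z hz), div_mul_cancel₀ _ hz0.ne']
    have h7 : fs (F z) (deriv F z) * ‖F z‖ ≤ fs (F z) (deriv F z) * (2 * ((n : ℝ) + 1) * ‖(F z).ofLp l‖) :=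
      mul_le_mul_of_nonneg_left (key z hz) (fs_nonneg _ _)
    have h8 : ‖(F z).ofLp l‖ * ‖a - deriv g z‖ ≤ ‖(F z).ofLp l‖ * (2 * ((n : ℝ) + 1) * fs (F z) (deriv F z)) := by
      refine h6.trans (h7.trans (le_of_eq ?_))
      ring
    exact le_of_mul_le_mul_left h8 hl0

variable {N : ℕ} {G : Geo N}

theorem apx (hG : G.Ok) : ∃ B η : ℝ, 0 < B ∧ 0 < η ∧ ∀ (F : ℂ → EN N) (w : ℂ) (r : ℝ), 0 < r → Differentiable ℂ F → (∀ z, F z ∈ G.K) →
    (∀ z ∈ ball w r, fs (F z) (deriv F z) ≤ η / r) → ∃ h : G.ι → ℂ → ℂ, (∀ i, DifferentiableOn ℂ (h i) (ball w r)) ∧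
      ∀ i, ∀ z ∈ ball w r, |G.lam i (F z) - (h i z).re| ≤ B ∧ ‖G.ell i (F z) (deriv F z) + deriv (h i) z‖ ≤ B * fs (F z) (deriv F z) := by
  obtain ⟨C, hC0, hC⟩ := hG.fsE
  have hKX : ∀ x ∈ G.K, x ∈ G.X := fun x hx => ((hG.aff.mem x).1 hx).1
  have hK0 : ∀ x ∈ G.K, x ≠ 0 := fun x hx h => hG.cone.zero_notMem (h ▸ hKX x hx)
  set cs : ℝ := ∑ i, (G.c i : ℝ) with hcs
  have hcs0 : 0 ≤ cs := Finset.sum_nonneg fun i _ => by positivity
  have hci : ∀ i, (G.c i : ℝ) ≤ cs := fun i =>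
    Finset.single_le_sum (f := fun i => (G.c i : ℝ)) (fun i _ => by positivity) (Finset.mem_univ i)
  set a : ℝ := 2 * ((N : ℝ) + 1) with ha
  set b : ℝ := 2 * ((G.M : ℝ) + 1) with hb
  have ha0 : 0 < a := by positivity
  have hb0 : 0 < b := by positivity
  have hη1 : (0 : ℝ) < 1 / (4 * ((N : ℝ) + 1) ^ 2) := by positivity
  have hη2 : (0 : ℝ) < 1 / (4 * ((G.M : ℝ) + 1) ^ 2) / (C + 1) := by positivity
  refine ⟨cs * a + b * (C + 1), min (1 / (4 * ((N : ℝ) + 1) ^ 2)) (1 / (4 * ((G.M : ℝ) + 1) ^ 2) / (C + 1)), by positivity, lt_min hη1 hη2, ?_⟩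
  intro F w r hr hF hFK hs
  obtain ⟨g₀, hg₀, hg₀'⟩ := apx_one hr hF.differentiableOn (fun z _ => hK0 _ (hFK z)) (fun z hz =>
    (hs z hz).trans (div_le_div_of_nonneg_right (min_le_left _ _) hr.le))
  have hT : ∀ z, Tan G.X (F z) (deriv F z) := by
    intro z
    refine ⟨fun t => F (t + z), ⟨(hF.comp (differentiable_id.add_const z)).analyticAt 0, Eventually.of_forall fun t => hKX _ (hFK _)⟩, by simp, ?_⟩
    rw [deriv_comp_add_const]
    simp
  have hEd : ∀ i z, HasDerivAt (fun y => G.E i (F y)) (fderiv ℂ (G.E i) (F z) (deriv F z)) z := fun i z =>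
    ((hG.anE i (F z)).differentiableAt.hasFDerivAt).comp_hasDerivAt z (hF z).hasDerivAt
  have hE : ∀ i, ∃ g : ℂ → ℂ, DifferentiableOn ℂ g (ball w r) ∧ ∀ z ∈ ball w r, |Real.log ‖G.E i (F z)‖ - (g z).re| ≤ b ∧
      ‖inner ℂ (G.E i (F z)) (fderiv ℂ (G.E i) (F z) (deriv F z)) / (‖G.E i (F z)‖ : ℂ) ^ 2 - deriv g z‖ ≤ b * (C * fs (F z) (deriv F z)) := by
    intro i
    have h1 : ∀ z ∈ ball w r, fs (G.E i (F z)) (deriv (fun y => G.E i (F y)) z) ≤ C * fs (F z) (deriv F z) := by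
      intro z _
      rw [(hEd i z).deriv]
      exact hC i (F z) (hFK z) (deriv F z) (hT z)
    obtain ⟨g, hg, hg'⟩ := apx_one (F := fun y => G.E i (F y)) hr (fun z _ => (hEd i z).differentiableAt.differentiableWithinAt)
      (fun z _ => hG.neE i _ (hFK z)) (fun z hz => by
        refine (h1 z hz).trans ?_
        have h2 : C * fs (F z) (deriv F z) ≤ C * (1 / (4 * ((G.M : ℝ) + 1) ^ 2) / (C + 1) / r) :=
          mul_le_mul_of_nonneg_left ((hs z hz).trans (div_le_div_of_nonneg_right (min_le_right _ _) hr.le)) hC0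
        refine h2.trans ?_
        have h3 : C * (1 / (4 * ((G.M : ℝ) + 1) ^ 2) / (C + 1) / r) = (C / (C + 1)) * (1 / (4 * ((G.M : ℝ) + 1) ^ 2) / r) := by
          field_simp
        rw [h3]
        have h4 : C / (C + 1) ≤ 1 := by
          rw [div_le_one (by positivity)]
          linarith
        exact mul_le_of_le_one_left (by positivity) h4)
    refine ⟨g, hg, fun z hz => ?_⟩
    obtain ⟨h2, h3⟩ := hg' z hz
    refine ⟨h2, ?_⟩
    have h4 := h1 z hz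
    rw [(hEd i z).deriv] at h3 h4
    exact h3.trans (mul_le_mul_of_nonneg_left h4 hb0.le)
  choose g hg hg' using hE
  refine ⟨fun i z => (G.c i : ℂ) * g₀ z - g i z, fun i => (hg₀.const_mul _).sub (hg i), fun i z hz => ?_⟩
  have hnb : ball w r ∈ 𝓝 z := isOpen_ball.mem_nhds hz
  obtain ⟨h1, h2⟩ := hg₀' z hz
  obtain ⟨h3, h4⟩ := hg' i z hz
  have hc0 : (0 : ℝ) ≤ G.c i := by positivity
  have hf0 := fs_nonneg (F z) (deriv F z)
  constructor
  · have h5 : G.lam i (F z) - ((G.c i : ℂ) * g₀ z - g i z).re =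
        G.c i * (Real.log ‖F z‖ - (g₀ z).re) - (Real.log ‖G.E i (F z)‖ - (g i z).re) := by
      have h6 : ((G.c i : ℂ) * g₀ z - g i z).re = G.c i * (g₀ z).re - (g i z).re := by
        simp
      rw [h6]
      unfold Geo.lam
      ring
    rw [h5]
    refine (abs_sub _ _).trans ?_
    rw [abs_mul, abs_of_nonneg hc0]
    have h7 : (G.c i : ℝ) * |Real.log ‖F z‖ - (g₀ z).re| ≤ cs * a := mul_le_mul (hci i) h1 (abs_nonneg _) hcs0
    have h8 : b ≤ b * (C + 1) := by nlinarith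
    linarith
  · have h5 : deriv (fun z => (G.c i : ℂ) * g₀ z - g i z) z = (G.c i : ℂ) * deriv g₀ z - deriv (g i) z :=
      ((((hg₀ z hz).differentiableAt hnb).hasDerivAt.const_mul _).sub ((hg i z hz).differentiableAt hnb).hasDerivAt).deriv
    have h6 : G.ell i (F z) (deriv F z) + deriv (fun z => (G.c i : ℂ) * g₀ z - g i z) z =
        (inner ℂ (G.E i (F z)) (fderiv ℂ (G.E i) (F z) (deriv F z)) / (‖G.E i (F z)‖ : ℂ) ^ 2 - deriv (g i) z) -
          (G.c i : ℂ) * (inner ℂ (F z) (deriv F z) / (‖F z‖ : ℂ) ^ 2 - deriv g₀ z) := by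
      rw [h5]
      unfold Geo.ell
      ring
    rw [h6]
    refine (norm_sub_le _ _).trans ?_
    rw [norm_mul, Complex.norm_natCast]
    have h7 : (G.c i : ℝ) * ‖inner ℂ (F z) (deriv F z) / (‖F z‖ : ℂ) ^ 2 - deriv g₀ z‖ ≤ cs * (a * fs (F z) (deriv F z)) :=
      mul_le_mul (hci i) h2 (norm_nonneg _) hcs0
    have h8 : 0 ≤ b * fs (F z) (deriv F z) := by positivity
    nlinarith

end Pool.Agent.SR3
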