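import Pool.Agent.H17BP.Surf
import Pool.Agent.H14.PP.Defs

/-!
# SR3 Glo (module H1): from charts to the whole surface (helper92)
-/

set_option autoImplicit false

open Topology Filter Metric

noncomputable section

namespace Pool.Agent.SR3

open Pool.Agent.H36.BP (EN)
open Pool.Agent.H17BP (Surface IsChart)
open Pool.Agent.H14.PP (IsCone Tan CurveAt)

variable {N : ℕ}

/-- the points and tangent vectors of the surface near the centre of a chart -/
private theorem glo_chart {X : Set (EN N)} {σ : ℂ × ℂ → EN N} {τ : EN N → ℂ × ℂ} (h : IsChart X σ τ) :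
    ∀ᶠ y in 𝓝 (σ 0), y ∈ X → ∃ (p : ℂ × ℂ) (c : ℂ), p = τ y ∧ c ≠ 0 ∧ y = c • σ p ∧
      ∀ v, Tan X y v → ∃ (a : ℂ) (v' : ℂ × ℂ), v = c • fderiv ℂ σ p v' + a • σ p := by
  have h0 : τ (σ 0) = 0 := h.left.self_of_nhds
  have h1 : Tendsto τ (𝓝 (σ 0)) (𝓝 0) := by
    have := h.τ_an.continuousAt
    rwa [ContinuousAt, h0] at this
  have h2 : ∀ᶠ y in 𝓝 (σ 0), σ (τ y) ≠ 0 := (h.σ_an.continuousAt.tendsto.comp h1).eventually_ne h.ne
  filter_upwards [h.right.eventually_nhds, h.τ_an.eventually_analyticAt, h1.eventually h.σ_an.eventually_analyticAt, h2] with y h3 h4 h5 h6 hyX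
  obtain ⟨c, hc, h7⟩ := h3.self_of_nhds hyX
  refine ⟨τ y, c, rfl, hc, h7, fun v hv => ?_⟩
  obtain ⟨F, ⟨hF, hFX⟩, hF0, hF1⟩ := hv
  have h8 : AnalyticAt ℂ (fun z => τ (F z)) 0 := AnalyticAt.comp_of_eq h4 hF hF0
  have h9 : AnalyticAt ℂ (fun z => σ (τ (F z))) 0 := AnalyticAt.comp_of_eq h5 h8 (by rw [hF0])
  obtain ⟨b, hb⟩ : ∃ b, σ (τ y) b ≠ 0 := by
    by_contra hne
    push Not at hne
    exact h6 (by ext b; exact hne b)
  have hco : ∀ {G : ℂ → EN N}, AnalyticAt ℂ G 0 → AnalyticAt ℂ (fun z => G z b) 0 := fun {G} hG =>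
    ((EuclideanSpace.proj b : EN N →L[ℂ] ℂ).analyticAt _).fun_comp hG
  have hGb : σ (τ (F 0)) b ≠ 0 := by rwa [hF0]
  have hk : AnalyticAt ℂ (fun z => F z b / σ (τ (F z)) b) 0 := (hco hF).div (hco h9) hGb
  have he : F =ᶠ[𝓝 0] fun z => (F z b / σ (τ (F z)) b) • σ (τ (F z)) := by
    have hFc : Tendsto F (𝓝 0) (𝓝 y) := by
      have := hF.continuousAt
      rwa [ContinuousAt, hF0] at this
    filter_upwards [hFX, hFc.eventually h3, (hco h9).continuousAt.eventually_ne hGb] with z h10 h11 h12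
    obtain ⟨c', -, h13⟩ := h11 h10
    have h14 : F z b = c' * σ (τ (F z)) b := by
      have := congrArg (fun x : EN N => x b) h13
      simpa using this
    rw [h14, mul_div_cancel_right₀ _ h12]
    exact h13
  have h15 : HasDerivAt (fun z => σ (τ (F z))) (fderiv ℂ σ (τ y) (fderiv ℂ τ y v)) 0 := by
    have h16 : HasDerivAt F v 0 := by
      rw [← hF1]
      exact hF.differentiableAt.hasDerivAt
    have h17 : HasDerivAt (fun z => τ (F z)) (fderiv ℂ τ y v) 0 := by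
      have h4' : HasFDerivAt τ (fderiv ℂ τ y) (F 0) := by
        rw [hF0]
        exact h4.differentiableAt.hasFDerivAt
      exact h4'.comp_hasDerivAt 0 h16
    have h5' : HasFDerivAt σ (fderiv ℂ σ (τ y)) (τ (F 0)) := by
      rw [hF0]
      exact h5.differentiableAt.hasFDerivAt
    exact h5'.comp_hasDerivAt 0 h17
  have hk0 : F 0 b / σ (τ (F 0)) b = c := by
    rw [hF0]
    have h18 : y b = c * σ (τ y) b := by
      have := congrArg (fun x : EN N => x b) h7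
      simpa using this
    rw [h18, mul_div_cancel_right₀ _ hb]
  have h19 := hk.differentiableAt.hasDerivAt.smul h15
  have h20 := h19.congr_of_eventuallyEq he
  refine ⟨deriv (fun z => F z b / σ (τ (F z)) b) 0, fderiv ℂ τ y v, ?_⟩
  have h21 := h20.deriv
  rw [hF1, hk0, hF0] at h21
  exact h21

/-- a tangent vector in a chart (`StubR`, RsC4) -/
theorem tan_chart {X : Set (EN N)} {σ : ℂ × ℂ → EN N} {τ : EN N → ℂ × ℂ} (h : IsChart X σ τ) :
    ∀ᶠ y in 𝓝 (σ 0), y ∈ X → ∃ a : ℂ, a ≠ 0 ∧ y = a • σ (τ y) ∧ ∀ v, Tan X y v → ∃ (t : ℂ × ℂ) (a' : ℂ), v = a • fderiv ℂ σ (τ y) t + a' • y := by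
  filter_upwards [glo_chart h] with y hy hyX
  obtain ⟨p, c, hp, hc, h1, h2⟩ := hy hyX
  subst hp
  refine ⟨c, hc, h1, fun v hv => ?_⟩
  obtain ⟨a, v', h3⟩ := h2 v hv
  refine ⟨v', a / c, ?_⟩
  have h4 : (a / c) • y = a • σ (τ y) := by
    conv_lhs => rw [h1, smul_smul, div_mul_cancel₀ _ hc]
  rw [h3, h4]

/-- from charts to the whole surface, for estimates which do not depend on the lift (compactness) -/
theorem global_bound {X K : Set (EN N)} (hX : Surface X) (hc : IsCone X) (hKX : K ⊆ X) (hKs : ∀ x ∈ K, ∀ c : ℂ, c ≠ 0 → c • x ∈ K)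
    {Q : ℝ → EN N → EN N → Prop} (hmono : ∀ C C' x v, C ≤ C' → Q C x v → Q C' x v)
    (hinv : ∀ C, ∀ x ∈ K, ∀ v, Tan X x v → ∀ c a : ℂ, c ≠ 0 → Q C x v → Q C (c • x) (c • v + a • x))
    (hloc : ∀ x ∈ X, ∃ σ τ, IsChart X σ τ ∧ σ 0 = x ∧ ∃ C : ℝ, ∀ᶠ y in 𝓝 (0 : ℂ × ℂ), σ y ∈ K → ∀ v', Q C (σ y) (fderiv ℂ σ y v')) :
    ∃ C : ℝ, ∀ x ∈ K, ∀ v, Tan X x v → Q C x v := by
  have hl : ∀ x ∈ X, ∃ C : ℝ, ∀ᶠ y in 𝓝 x, y ∈ K → ∀ v, Tan X y v → Q C y v := by
    intro x hx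
    obtain ⟨σ, τ, hch, h0, C, hC⟩ := hloc x hx
    refine ⟨C, ?_⟩
    subst h0
    have h1 : Tendsto τ (𝓝 (σ 0)) (𝓝 0) := by
      have := hch.τ_an.continuousAt
      have h2 : τ (σ 0) = 0 := hch.left.self_of_nhds
      rwa [ContinuousAt, h2] at this
    filter_upwards [glo_chart hch, h1.eventually hC, h1.eventually hch.σ_mem.eventually_nhds, h1.eventually hch.σ_an.eventually_analyticAt]
      with y h2 h3 h4 h5 hyK v hv
    obtain ⟨p, c, hp, hc0, h7, h8⟩ := h2 (hKX hyK)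
    obtain ⟨a, v', h9⟩ := h8 v hv
    rw [← hp] at h3 h4 h5
    have h10 : σ p ∈ K := by
      have h11 : c⁻¹ • y = σ p := by rw [h7, smul_smul, inv_mul_cancel₀ hc0, one_smul]
      rw [← h11]
      exact hKs y hyK c⁻¹ (inv_ne_zero hc0)
    have h12 : Tan X (σ p) (fderiv ℂ σ p v') := by
      have h13 : HasDerivAt (fun z : ℂ => p + z • v') v' 0 := by
        have := ((hasDerivAt_id (0 : ℂ)).smul_const v').const_add p
        simpa using this
      have h14 : p + (0 : ℂ) • v' = p := by rw [zero_smul, add_zero]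
      have h15 : AnalyticAt ℂ (fun z : ℂ => p + z • v') 0 := analyticAt_const.add (analyticAt_id.smul analyticAt_const)
      refine ⟨fun z => σ (p + z • v'), ⟨AnalyticAt.comp_of_eq h5 h15 h14, ?_⟩, congrArg σ h14, ?_⟩
      · have h16 : Tendsto (fun z : ℂ => p + z • v') (𝓝 0) (𝓝 p) := by
          have := h15.continuousAt
          rwa [ContinuousAt, h14] at this
        exact h16.eventually h4
      · have h17 : HasFDerivAt σ (fderiv ℂ σ p) (p + (0 : ℂ) • v') := by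
          rw [h14]
          exact h5.differentiableAt.hasFDerivAt
        exact (h17.comp_hasDerivAt 0 h13).deriv
    rw [h7, h9]
    exact hinv C (σ p) h10 _ h12 c a hc0 (h3 h10 v')
  have hS : IsCompact (insert (0 : EN N) X ∩ sphere (0 : EN N) 1) := (isCompact_sphere (0 : EN N) 1).inter_left hc.closed
  have hall : ∃ C : ℝ, ∀ y ∈ insert (0 : EN N) X ∩ sphere (0 : EN N) 1, y ∈ K → ∀ v, Tan X y v → Q C y v := by
    refine hS.induction_on (p := fun s => ∃ C : ℝ, ∀ y ∈ s, y ∈ K → ∀ v, Tan X y v → Q C y v) ?_ ?_ ?_ ?_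
    · exact ⟨0, fun y hy => absurd hy (Set.notMem_empty y)⟩
    · rintro s t hst ⟨C, hC⟩
      exact ⟨C, fun y hy => hC y (hst hy)⟩
    · rintro s t ⟨C, hC⟩ ⟨C', hC'⟩
      refine ⟨max C C', fun y hy hyK v hv => ?_⟩
      rcases hy with hy | hy
      · exact hmono C _ y v (le_max_left _ _) (hC y hy hyK v hv)
      · exact hmono C' _ y v (le_max_right _ _) (hC' y hy hyK v hv)
    · rintro x ⟨hx1, hx2⟩
      have hxX : x ∈ X := by
        rcases hx1 with h | h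
        · rw [mem_sphere_zero_iff_norm, h, norm_zero] at hx2
          exact absurd hx2 (by norm_num)
        · exact h
      obtain ⟨C, hC⟩ := hl x hxX
      exact ⟨_, mem_nhdsWithin_of_mem_nhds hC, C, fun y hy => hy⟩
  obtain ⟨C, hC⟩ := hall
  refine ⟨C, fun x hx v hv => ?_⟩
  have hx0 : x ≠ 0 := fun h => hX.zero (h ▸ hKX hx)
  have hxn : (‖x‖ : ℂ) ≠ 0 := by
    simpa using norm_ne_zero_iff.2 hx0
  have h1 : (‖x‖ : ℂ)⁻¹ • x ∈ K := hKs x hx _ (inv_ne_zero hxn)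
  have h2 : Tan X ((‖x‖ : ℂ)⁻¹ • x) ((‖x‖ : ℂ)⁻¹ • v) := by
    obtain ⟨F, ⟨hF, hFX⟩, hF0, hF1⟩ := hv
    refine ⟨fun z => (‖x‖ : ℂ)⁻¹ • F z, ⟨analyticAt_const.fun_smul hF, ?_⟩, congrArg (fun y => (‖x‖ : ℂ)⁻¹ • y) hF0, ?_⟩
    · filter_upwards [hFX] with z hz
      exact hX.smul _ hz _ (inv_ne_zero hxn)
    · rw [← hF1]
      exact (hF.differentiableAt.hasDerivAt.const_smul ((‖x‖ : ℂ)⁻¹)).deriv
  have h3 : ‖(‖x‖ : ℂ)⁻¹ • x‖ = 1 := by
    rw [norm_smul, norm_inv, Complex.norm_real, norm_norm, inv_mul_cancel₀ (norm_ne_zero_iff.2 hx0)]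
  have h4 := hC _ ⟨Or.inr (hKX h1), mem_sphere_zero_iff_norm.2 h3⟩ h1 _ h2
  have h5 := hinv C _ h1 _ h2 (‖x‖ : ℂ) 0 hxn h4
  rwa [smul_smul, mul_inv_cancel₀ hxn, one_smul, smul_smul, mul_inv_cancel₀ hxn, one_smul, zero_smul, add_zero] at h5

end Pool.Agent.SR3
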