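import Pool.Agent.SR3.Snc1
import Pool.Agent.SR3.Snc2

/-!
# SR3 Big: module H16, the degrees of the equations of the components may be assumed to be large

`E' i (l, a) = E i l * X a ^ κ`: the vector `vec (E' i) x` is the tensor product of `vec (E i) x` and of `w (x) = (x a ^ κ)`, which has no zeros; the quotient
`⟨g, g'⟩ / |g|²` of a tensor product is the sum of those of the factors, and for `w` it is `κ ⟨x, v⟩ / |x|²` up to `C * fs x v`.
-/

set_option autoImplicit false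

open Topology Filter Metric MvPolynomial

noncomputable section

namespace Pool.Agent.SR3

open Pool.Agent.H36.BP (EN fs wd fs_nonneg)
open Pool.Agent.H17BP (Surface IsChart)
open Pool.Agent.H14.PP (IsCone Tan)
open Pool.Agent.H17 (PN VanishesAt HolomorphicInto)
open Pool.Agent.H17EF (projVar coneE)
open Pool.Agent.AD (SymDiff TangentTo)

variable {N k M : ℕ}

/-! ## the tensor product -/

/-- the indices of the products -/
def bigE (M N : ℕ) : Fin ((M + 1) * (N + 1) - 1 + 1) ≃ Fin (M + 1) × Fin (N + 1) :=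
  (finCongr (Nat.sub_add_cancel (Nat.mul_pos (Nat.succ_pos M) (Nat.succ_pos N)))).trans finProdFinEquiv.symm

/-- the new equations -/
def bigF (κ : ℕ) (E : Fin (M + 1) → MvPolynomial (Fin (N + 1)) ℂ) (l : Fin ((M + 1) * (N + 1) - 1 + 1)) : MvPolynomial (Fin (N + 1)) ℂ :=
  E (bigE M N l).1 * X (bigE M N l).2 ^ κ

/-- the vector of the powers of the coordinates -/
def powV (κ : ℕ) (x : EN N) : EN N := WithLp.toLp 2 fun a => x a ^ κ

/-- the derivative of `powV` -/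
def powD (κ : ℕ) (x v : EN N) : EN N := WithLp.toLp 2 fun a => (κ : ℂ) * x a ^ (κ - 1) * v a

theorem bigF_eval (κ : ℕ) (E : Fin (M + 1) → MvPolynomial (Fin (N + 1)) ℂ) (l : Fin ((M + 1) * (N + 1) - 1 + 1)) (x : Fin (N + 1) → ℂ) :
    eval x (bigF κ E l) = eval x (E (bigE M N l).1) * x (bigE M N l).2 ^ κ := by
  unfold bigF
  rw [map_mul, map_pow, eval_X]

theorem vec_bigF (κ : ℕ) (E : Fin (M + 1) → MvPolynomial (Fin (N + 1)) ℂ) (x : EN N) (l : Fin ((M + 1) * (N + 1) - 1 + 1)) :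
    vec (bigF κ E) x l = vec E x (bigE M N l).1 * powV κ x (bigE M N l).2 := bigF_eval κ E l x.ofLp

theorem big_coord {M' : ℕ} (E : Fin (M' + 1) → MvPolynomial (Fin (N + 1)) ℂ) (x v : EN N) (l : Fin (M' + 1)) :
    fderiv ℂ (vec E) x v l = fderiv ℂ (fun y : EN N => eval y.ofLp (E l)) x v := by
  have h1 : HasFDerivAt (fun y : EN N => vec E y l) ((EuclideanSpace.proj l : EN M' →L[ℂ] ℂ).comp (fderiv ℂ (vec E) x)) x :=
    (EuclideanSpace.proj l : EN M' →L[ℂ] ℂ).hasFDerivAt.comp x (snc2_diffE E x).hasFDerivAt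
  exact (congrArg (fun T : EN N →L[ℂ] ℂ => T v) h1.fderiv).symm

theorem big_deriv (κ : ℕ) (E : Fin (M + 1) → MvPolynomial (Fin (N + 1)) ℂ) (x v : EN N) (l : Fin ((M + 1) * (N + 1) - 1 + 1)) :
    fderiv ℂ (vec (bigF κ E)) x v l = fderiv ℂ (vec E) x v (bigE M N l).1 * powV κ x (bigE M N l).2 +
      vec E x (bigE M N l).1 * powD κ x v (bigE M N l).2 := by
  rw [big_coord, big_coord]
  have h1 : HasFDerivAt (fun y : EN N => eval y.ofLp (E (bigE M N l).1)) (fderiv ℂ (fun y : EN N => eval y.ofLp (E (bigE M N l).1)) x) x :=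
    (snc2_diffH _ x).hasFDerivAt
  have h2 : HasFDerivAt (fun y : EN N => y (bigE M N l).2) (EuclideanSpace.proj (bigE M N l).2 : EN N →L[ℂ] ℂ) x :=
    (EuclideanSpace.proj (bigE M N l).2 : EN N →L[ℂ] ℂ).hasFDerivAt
  have h3 : HasFDerivAt (fun y : EN N => eval y.ofLp (E (bigE M N l).1) * y (bigE M N l).2 ^ κ) _ x := h1.mul (h2.pow κ)
  have h4 : (fun y : EN N => eval y.ofLp (bigF κ E l)) = fun y : EN N => eval y.ofLp (E (bigE M N l).1) * y (bigE M N l).2 ^ κ := by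
    funext y
    exact bigF_eval κ E l y.ofLp
  rw [h4, h3.fderiv]
  simp only [_root_.add_apply, _root_.smul_apply, smul_eq_mul, nsmul_eq_mul]
  have e1 : powV κ x (bigE M N l).2 = x (bigE M N l).2 ^ κ := rfl
  have e2 : powD κ x v (bigE M N l).2 = (κ : ℂ) * x (bigE M N l).2 ^ (κ - 1) * v (bigE M N l).2 := rfl
  have e3 : vec E x (bigE M N l).1 = eval x.ofLp (E (bigE M N l).1) := rfl
  have e4 : (EuclideanSpace.proj (bigE M N l).2 : EN N →L[ℂ] ℂ) v = v (bigE M N l).2 := rfl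
  rw [e1, e2, e3, e4]
  ring

/-- the inner product of tensor products -/
theorem big_sum (p q : Fin (M + 1) → ℂ) (r t : Fin (N + 1) → ℂ) :
    ∑ l, (p (bigE M N l).1 * r (bigE M N l).2) * (starRingEnd ℂ) (q (bigE M N l).1 * t (bigE M N l).2) =
      (∑ l, p l * (starRingEnd ℂ) (q l)) * ∑ a, r a * (starRingEnd ℂ) (t a) := by
  rw [Fintype.sum_equiv (bigE M N) _ (fun j => (p j.1 * r j.2) * (starRingEnd ℂ) (q j.1 * t j.2)) fun _ => rfl, Fintype.sum_prod_type, Finset.sum_mul_sum]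
  refine Finset.sum_congr rfl fun i _ => Finset.sum_congr rfl fun j _ => ?_
  rw [map_mul]
  ring

theorem big_inner {M' : ℕ} (p q : EN M') : inner ℂ q p = ∑ l, p l * (starRingEnd ℂ) (q l) := by
  rw [PiLp.inner_apply]
  exact Finset.sum_congr rfl fun l _ => RCLike.inner_apply _ _

theorem big_quot (κ : ℕ) (E : Fin (M + 1) → MvPolynomial (Fin (N + 1)) ℂ) {x : EN N} (hE : vec E x ≠ 0) (hw : powV κ x ≠ 0) (v : EN N) :
    inner ℂ (vec (bigF κ E) x) (fderiv ℂ (vec (bigF κ E)) x v) / (‖vec (bigF κ E) x‖ : ℂ) ^ 2 =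
      inner ℂ (vec E x) (fderiv ℂ (vec E) x v) / (‖vec E x‖ : ℂ) ^ 2 + inner ℂ (powV κ x) (powD κ x v) / (‖powV κ x‖ : ℂ) ^ 2 := by
  have e1 : inner ℂ (vec (bigF κ E) x) (fderiv ℂ (vec (bigF κ E)) x v) =
      inner ℂ (vec E x) (fderiv ℂ (vec E) x v) * inner ℂ (powV κ x) (powV κ x) + inner ℂ (vec E x) (vec E x) * inner ℂ (powV κ x) (powD κ x v) := by
    rw [big_inner, big_inner, big_inner, big_inner, big_inner, ← big_sum, ← big_sum, ← Finset.sum_add_distrib]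
    refine Finset.sum_congr rfl fun l _ => ?_
    rw [big_deriv, vec_bigF]
    ring
  have e2 : inner ℂ (vec (bigF κ E) x) (vec (bigF κ E) x) = inner ℂ (vec E x) (vec E x) * inner ℂ (powV κ x) (powV κ x) := by
    rw [big_inner, big_inner, big_inner, ← big_sum]
    refine Finset.sum_congr rfl fun l _ => ?_
    rw [vec_bigF]
  have e3 : ∀ {M' : ℕ} (p : EN M'), inner ℂ p p = (‖p‖ : ℂ) ^ 2 := fun p => inner_self_eq_norm_sq_to_K p
  rw [e3, e3, e3] at e2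
  rw [e1, e2, e3, e3]
  have h1 : (‖vec E x‖ : ℂ) ≠ 0 := by exact_mod_cast norm_ne_zero_iff.2 hE
  have h2 : (‖powV κ x‖ : ℂ) ≠ 0 := by exact_mod_cast norm_ne_zero_iff.2 hw
  field_simp

/-! ## the powers of the coordinates -/

theorem big_max (x : EN N) : ∃ a, ‖x‖ ≤ (N + 1) * ‖x a‖ := by
  obtain ⟨a, -, ha⟩ := Finset.exists_max_image Finset.univ (fun a => ‖x a‖) ⟨0, Finset.mem_univ _⟩
  refine ⟨a, ?_⟩
  have h1 : ‖x‖ ^ 2 ≤ ((N + 1) * ‖x a‖) ^ 2 := by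
    rw [EuclideanSpace.norm_sq_eq]
    calc ∑ i, ‖x i‖ ^ 2 ≤ ∑ _i : Fin (N + 1), ‖x a‖ ^ 2 :=
          Finset.sum_le_sum fun i hi => pow_le_pow_left₀ (norm_nonneg _) (ha i hi) 2
      _ = (N + 1) * ‖x a‖ ^ 2 := by
          rw [Finset.sum_const, Finset.card_univ, Fintype.card_fin, nsmul_eq_mul]
          push_cast
          ring
      _ ≤ (N + 1) ^ 2 * ‖x a‖ ^ 2 := by
          refine mul_le_mul_of_nonneg_right ?_ (sq_nonneg _)
          have h2 : (0 : ℝ) ≤ N := Nat.cast_nonneg N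
          nlinarith
      _ = _ := by ring
  exact (pow_le_pow_iff_left₀ (norm_nonneg _) (by positivity) two_ne_zero).1 h1

theorem powV_ge (κ : ℕ) (x : EN N) : ‖x‖ ^ κ ≤ (N + 1) ^ κ * ‖powV κ x‖ := by
  obtain ⟨a, ha⟩ := big_max x
  have h1 : ‖x a‖ ^ κ ≤ ‖powV κ x‖ := by
    have h2 := PiLp.norm_apply_le (powV κ x) a
    rwa [show powV κ x a = x a ^ κ from rfl, norm_pow] at h2
  calc ‖x‖ ^ κ ≤ ((N + 1) * ‖x a‖) ^ κ := pow_le_pow_left₀ (norm_nonneg _) ha κ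
    _ = (N + 1) ^ κ * ‖x a‖ ^ κ := mul_pow _ _ _
    _ ≤ _ := mul_le_mul_of_nonneg_left h1 (by positivity)

theorem powV_ne (κ : ℕ) {x : EN N} (hx : x ≠ 0) : powV κ x ≠ 0 := by
  intro h
  have h1 := powV_ge κ x
  rw [h, norm_zero, mul_zero] at h1
  exact absurd h1 (not_le.2 (pow_pos (norm_pos_iff.2 hx) κ))

theorem powD_self (κ : ℕ) (hκ : 1 ≤ κ) (x : EN N) : powD κ x x = (κ : ℂ) • powV κ x := by
  ext a
  show (κ : ℂ) * x a ^ (κ - 1) * x a = (κ : ℂ) • (x a ^ κ)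
  rw [smul_eq_mul, mul_assoc, pow_sub_one_mul (by omega)]

theorem powD_add (κ : ℕ) (x v w : EN N) : powD κ x (v + w) = powD κ x v + powD κ x w := by
  ext a
  show (κ : ℂ) * x a ^ (κ - 1) * (v a + w a) = (κ : ℂ) * x a ^ (κ - 1) * v a + (κ : ℂ) * x a ^ (κ - 1) * w a
  ring

theorem powD_smul (κ : ℕ) (x v : EN N) (t : ℂ) : powD κ x (t • v) = t • powD κ x v := by
  ext a
  show (κ : ℂ) * x a ^ (κ - 1) * (t * v a) = t * ((κ : ℂ) * x a ^ (κ - 1) * v a)
  ring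

theorem powD_le (κ : ℕ) (x v : EN N) : ‖powD κ x v‖ ≤ κ * ‖x‖ ^ (κ - 1) * ‖v‖ := by
  have h1 : ‖powD κ x v‖ ^ 2 ≤ (κ * ‖x‖ ^ (κ - 1) * ‖v‖) ^ 2 := by
    rw [EuclideanSpace.norm_sq_eq, mul_pow _ ‖v‖, EuclideanSpace.norm_sq_eq v, Finset.mul_sum]
    refine Finset.sum_le_sum fun a _ => ?_
    rw [← mul_pow]
    refine pow_le_pow_left₀ (norm_nonneg _) ?_ 2
    rw [show powD κ x v a = (κ : ℂ) * x a ^ (κ - 1) * v a from rfl, norm_mul, norm_mul, norm_pow, Complex.norm_natCast]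
    exact mul_le_mul_of_nonneg_right (mul_le_mul_of_nonneg_left (pow_le_pow_left₀ (norm_nonneg _) (PiLp.norm_apply_le x a) _) (Nat.cast_nonneg κ)) (norm_nonneg _)
  exact (pow_le_pow_iff_left₀ (norm_nonneg _) (by positivity) two_ne_zero).1 h1

/-- the quotient of `powV` -/
theorem pow_quot (κ : ℕ) (hκ : 1 ≤ κ) {x : EN N} (hx : x ≠ 0) (v : EN N) :
    ‖inner ℂ (powV κ x) (powD κ x v) / (‖powV κ x‖ : ℂ) ^ 2 - (κ : ℂ) * (inner ℂ x v / (‖x‖ : ℂ) ^ 2)‖ ≤ κ * (N + 1) ^ κ * fs x v := by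
  obtain ⟨α, hα⟩ : ∃ α : ℂ, α = inner ℂ x v / (‖x‖ : ℂ) ^ 2 := ⟨_, rfl⟩
  obtain ⟨v', hv'⟩ : ∃ v' : EN N, v' = v - α • x := ⟨_, rfl⟩
  have hx' : 0 < ‖x‖ := norm_pos_iff.2 hx
  have hw := powV_ne κ hx
  have hw' : (‖powV κ x‖ : ℂ) ≠ 0 := by exact_mod_cast norm_ne_zero_iff.2 hw
  have h1 : powD κ x v = α • ((κ : ℂ) • powV κ x) + powD κ x v' := by
    rw [← powD_self κ hκ, ← powD_smul, ← powD_add, hv', add_sub_cancel]
  have h2 : inner ℂ (powV κ x) (powD κ x v) / (‖powV κ x‖ : ℂ) ^ 2 - (κ : ℂ) * (inner ℂ x v / (‖x‖ : ℂ) ^ 2) =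
      inner ℂ (powV κ x) (powD κ x v') / (‖powV κ x‖ : ℂ) ^ 2 := by
    have h3 : inner ℂ (powV κ x) (powV κ x) = (‖powV κ x‖ : ℂ) ^ 2 := inner_self_eq_norm_sq_to_K _
    rw [← hα, h1, inner_add_right, inner_smul_right, inner_smul_right, h3]
    field_simp
    ring
  rw [h2]
  refine snc2_quot_le hw ?_
  have h3 : ‖v'‖ = ‖x‖ * fs x v := by
    have h4 := snc2_wd hx v
    rw [← hα, ← hv'] at h4
    unfold Pool.Agent.H36.BP.fs
    rw [← h4]
    field_simp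
  have h4 : 0 ≤ fs x v := fs_nonneg x v
  calc ‖powD κ x v'‖ ≤ κ * ‖x‖ ^ (κ - 1) * ‖v'‖ := powD_le κ x v'
    _ = κ * fs x v * ‖x‖ ^ κ := by
        rw [h3, ← pow_sub_one_mul (show κ ≠ 0 by omega) ‖x‖]
        ring
    _ ≤ κ * fs x v * ((N + 1) ^ κ * ‖powV κ x‖) := mul_le_mul_of_nonneg_left (powV_ge κ x) (by positivity)
    _ = _ := by ring

theorem ellE_big (κ : ℕ) (hκ : 1 ≤ κ) (E : Fin (M + 1) → MvPolynomial (Fin (N + 1)) ℂ) (c : ℕ) {x : EN N} (hx : x ≠ 0) (hE : vec E x ≠ 0) (v : EN N) :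
    ‖ellE E c x v‖ ≤ ‖ellE (bigF κ E) (c + κ) x v‖ + κ * (N + 1) ^ κ * fs x v := by
  have h1 : ellE E c x v = ellE (bigF κ E) (c + κ) x v -
      (inner ℂ (powV κ x) (powD κ x v) / (‖powV κ x‖ : ℂ) ^ 2 - (κ : ℂ) * (inner ℂ x v / (‖x‖ : ℂ) ^ 2)) := by
    unfold ellE
    rw [big_quot κ E hE (powV_ne κ hx) v]
    push_cast
    ring
  rw [h1]
  exact (norm_sub_le _ _).trans (add_le_add le_rfl (pow_quot κ hκ hx v))

/-! ## the hypotheses -/

variable {P : Ideal (MvPolynomial (Fin (N + 1)) ℂ)} {H : MvPolynomial (Fin (N + 1)) ℂ} {h : ℕ} {E : Fin k → Fin (M + 1) → MvPolynomial (Fin (N + 1)) ℂ}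
  {c b : Fin k → ℕ}

theorem snc_big (κ : ℕ) (hs : Snc P H E b) : Snc P H (fun i => bigF κ (E i)) b where
  pos := hs.pos
  chart := by
    intro x hx
    obtain ⟨σ, τ, s, e, u, h1, h2, h3, h4, h5, h6, h7⟩ := hs.chart x hx
    have hx0 : x ≠ 0 := by
      rw [← h2]
      exact h1.ne
    refine ⟨σ, τ, s, fun i y => WithLp.toLp 2 fun l => e i y (bigE M N l).1 * powV κ (σ y) (bigE M N l).2, u, h1, h2, h3, fun i => ⟨?_, ?_, ?_⟩, h5, h6, h7⟩
    · have h8 : AnalyticAt ℂ (fun y => fun l : Fin ((M + 1) * (N + 1) - 1 + 1) => e i y (bigE M N l).1 * powV κ (σ y) (bigE M N l).2) 0 := by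
        refine AnalyticAt.pi fun l => ?_
        have h9 : AnalyticAt ℂ (fun y => e i y (bigE M N l).1) 0 := ((EuclideanSpace.proj (bigE M N l).1 : EN M →L[ℂ] ℂ).analyticAt _).comp (h4 i).1
        have h10 : AnalyticAt ℂ (fun y => σ y (bigE M N l).2) 0 := ((EuclideanSpace.proj (bigE M N l).2 : EN N →L[ℂ] ℂ).analyticAt _).comp h1.σ_an
        exact h9.mul (h10.pow κ)
      exact (((PiLp.continuousLinearEquiv 2 ℂ fun _ : Fin ((M + 1) * (N + 1) - 1 + 1) => ℂ).symm :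
        (Fin ((M + 1) * (N + 1) - 1 + 1) → ℂ) →L[ℂ] EN ((M + 1) * (N + 1) - 1)).analyticAt _).comp h8
    · intro h8
      have h9 : ∃ l, e i 0 l ≠ 0 := by
        by_contra h10
        push Not at h10
        exact (h4 i).2.1 (by ext l; exact h10 l)
      have h10 : ∃ a, x a ≠ 0 := by
        by_contra h11
        push Not at h11
        exact hx0 (by ext a; exact h11 a)
      obtain ⟨l, hl⟩ := h9
      obtain ⟨a, ha⟩ := h10
      have h11 := congrArg (fun p : EN ((M + 1) * (N + 1) - 1) => p ((bigE M N).symm (l, a))) h8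
      have h12 : e i 0 l * x a ^ κ = 0 := by
        have h13 : e i 0 (bigE M N ((bigE M N).symm (l, a))).1 * (σ 0) (bigE M N ((bigE M N).symm (l, a))).2 ^ κ = 0 := h11
        rwa [Equiv.apply_symm_apply, h2] at h13
      exact (mul_ne_zero hl (pow_ne_zero κ ha)) h12
    · filter_upwards [(h4 i).2.2] with y hy
      ext l
      rw [vec_bigF, hy]
      show co (s i) y * e i y (bigE M N l).1 * powV κ (σ y) (bigE M N l).2 = co (s i) y * (e i y (bigE M N l).1 * powV κ (σ y) (bigE M N l).2)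
      ring

theorem vanishes_big (κ : ℕ) (E : Fin (M + 1) → MvPolynomial (Fin (N + 1)) ℂ) (p : PN N) : (∀ l, VanishesAt (bigF κ E l) p) ↔ ∀ l, VanishesAt (E l) p := by
  constructor
  · intro h l
    have h10 : ∃ a, p.rep a ≠ 0 := by
      by_contra h11
      push Not at h11
      exact p.rep_nonzero (funext h11)
    obtain ⟨a, ha⟩ := h10
    have h1 := h ((bigE M N).symm (l, a))
    unfold VanishesAt at h1 ⊢
    rw [bigF_eval, Equiv.apply_symm_apply] at h1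
    exact (mul_eq_zero.1 h1).resolve_right (pow_ne_zero κ ha)
  · intro h l
    have h1 := h (bigE M N l).1
    unfold VanishesAt at h1 ⊢
    rw [bigF_eval, h1, zero_mul]

theorem noBdy_big (κ : ℕ) (hB : NoBdyCurve P E) : NoBdyCurve P (fun i => bigF κ (E i)) := by
  intro i f hf h1 h2
  refine hB i f hf (fun z => ⟨(h1 z).1, (vanishes_big κ (E i) (f z)).1 (h1 z).2⟩) fun i' hi' z => ?_
  by_contra h3
  push Not at h3
  obtain ⟨l, hl⟩ := h2 i' hi' z
  exact hl ((vanishes_big κ (E i') (f z)).2 h3 l)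

theorem logPoles_big (κ : ℕ) (hκ : 1 ≤ κ) (hs : Snc P H E b) {m : ℕ} {θ : SymDiff (oc P H) m} (hθ : HasLogPoles E c θ) :
    HasLogPoles (fun i => bigF κ (E i)) (fun i => c i + κ) θ := by
  obtain ⟨C, hC, hle⟩ := hθ
  refine ⟨C * (1 + k * (κ * (N + 1) ^ κ)) ^ m, by positivity, fun x hx v hv => (hle x hx v hv).trans ?_⟩
  have hx0 : x ≠ 0 := by
    obtain ⟨σ, τ, s, e, u, h1, h2, -⟩ := hs.chart x hx.1
    rw [← h2]
    exact h1.ne
  have h4 : 0 ≤ fs x v := fs_nonneg x v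
  have h1 : logLen E c x v ≤ (1 + k * (κ * (N + 1) ^ κ)) * logLen (fun i => bigF κ (E i)) (fun i => c i + κ) x v := by
    have h2 : ∑ i, ‖ellE (E i) (c i) x v‖ ≤ ∑ i, ‖ellE (bigF κ (E i)) (c i + κ) x v‖ + k * (κ * (N + 1) ^ κ) * fs x v := by
      calc ∑ i, ‖ellE (E i) (c i) x v‖ ≤ ∑ i, (‖ellE (bigF κ (E i)) (c i + κ) x v‖ + κ * (N + 1) ^ κ * fs x v) :=
            Finset.sum_le_sum fun i _ => ellE_big κ hκ (E i) (c i) hx0 (snc_ne hs i hx) v
        _ = _ := by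
            rw [Finset.sum_add_distrib, Finset.sum_const, Finset.card_univ, Fintype.card_fin, nsmul_eq_mul]
            ring
    have h3 : 0 ≤ ∑ i, ‖ellE (bigF κ (E i)) (c i + κ) x v‖ := Finset.sum_nonneg fun _ _ => norm_nonneg _
    have h5 : (0 : ℝ) ≤ k * (κ * (N + 1) ^ κ) := by positivity
    unfold logLen
    nlinarith [mul_nonneg h5 h3]
  rw [mul_assoc, ← mul_pow]
  exact mul_le_mul_of_nonneg_left (pow_le_pow_left₀ (add_nonneg (fs_nonneg x v) (Finset.sum_nonneg fun _ _ => norm_nonneg _)) h1 m) hC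

/-- MODULE H16 (Big.lean): the degrees `c i` may be assumed to be large -/
theorem exists_big (hX : Surface (coneE P)) (hc : IsCone (coneE P)) (hH : H.IsHomogeneous h) (hE : ∀ i l, (E i l).IsHomogeneous (c i))
    (hs : Snc P H E b) (hB : NoBdyCurve P E) {s : ℕ} {m : Fin s → ℕ} (θ : ∀ j, SymDiff (oc P H) (m j)) (hθ : ∀ j, HasLogPoles E c (θ j)) :
    ∃ (M' : ℕ) (E' : Fin k → Fin (M' + 1) → MvPolynomial (Fin (N + 1)) ℂ) (c' : Fin k → ℕ), (∀ i l, (E' i l).IsHomogeneous (c' i)) ∧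
      (∀ i, h + 1 ≤ c' i) ∧ Snc P H E' b ∧ NoBdyCurve P E' ∧ ∀ j, HasLogPoles E' c' (θ j) :=
  ⟨(M + 1) * (N + 1) - 1, fun i => bigF (h + 1) (E i), fun i => c i + (h + 1), fun i l => (hE i _).mul ((isHomogeneous_X_pow _ _)),
    fun i => Nat.le_add_left _ _, snc_big _ hs, noBdy_big _ hB, fun j => logPoles_big _ (Nat.le_add_left _ _) hs (hθ j)⟩

end Pool.Agent.SR3
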