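import Pool.Agent.SR3.HDefs2
import Pool.Agent.SDA.X3
import Pool.Agent.SDA.X4

/-!
# SR3 CopA: two coprime algebraic symmetric differentials

The common null curves of two coprime algebraic symmetric differentials lie in one algebraic curve: with `H ^ (r + 1)` the differentials extend across
`{H = 0}` in every chart.
-/

set_option autoImplicit false

open Topology Filter Metric MvPolynomial

noncomputable section

namespace Pool.Agent.SR3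

open Pool.Agent.H36.BP (EN fs)
open Pool.Agent.H17BP (Surface IsChart IsForm NoZeros LocalEq)
open Pool.Agent.H36.BPL (PoleLE)
open Pool.Agent.H14.PP (IsCone Tan IsOpenPart)
open Pool.Agent.H14.KB (rhoS)
open Pool.Agent.H17 (PN VanishesAt HolomorphicInto)
open Pool.Agent.H62.FC (Homog)
open Pool.Agent.H17LG.Variety (FunField IsLogGeneralType)
open Pool.Agent.H13.OT (OrderTwo)
open Pool.Agent.H17EF (projVar coneE)
open Pool.Agent.AD (SymDiff TangentTo)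
open Pool.Agent.AD.NC (IsSmooth IsOfLogGeneralType)
open Pool.Agent.SDA (openCone EnergyK Near AffOpen IsHyperbolicOpen)
open Pool.Agent.E1 (ComNull)

variable {N k M : ℕ}

variable {P : Ideal (MvPolynomial (Fin (N + 1)) ℂ)} {H : MvPolynomial (Fin (N + 1)) ℂ} {h : ℕ} {E : Fin k → Fin (M + 1) → MvPolynomial (Fin (N + 1)) ℂ}
  {c b : Fin k → ℕ}

/-- near `0` the points off the boundary have a neighbourhood in the open cone -/
theorem CopA_near {σ : ℂ × ℂ → EN N} {τ : EN N → ℂ × ℂ} (hσ : IsChart (coneE P) σ τ) :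
    ∀ᶠ p in 𝓝 (0 : ℂ × ℂ), AnalyticAt ℂ σ p ∧ (eval (σ p).ofLp H ≠ 0 → ∀ᶠ q in 𝓝 p, σ q ∈ oc P H) := by
  have hev : AnalyticAt ℂ (fun p => eval (σ p).ofLp H) 0 :=
    AnalyticAt.comp (g := fun x : EN N => eval x.ofLp H) (f := σ) (Pool.Agent.SDA.E1_an H _) hσ.σ_an
  filter_upwards [hσ.σ_an.eventually_analyticAt, hσ.σ_mem.eventually_nhds, hev.eventually_analyticAt] with p h1 h2 h3
  refine ⟨h1, fun hp => ?_⟩
  filter_upwards [h2, h3.continuousAt.eventually_ne hp] with q hq hq0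
  exact ⟨hq, fun _ => hq0⟩

/-- `H ^ (r + 1) * θ` is holomorphic in a chart -/
theorem CopA_an {m : ℕ} (θ : SymDiff (oc P H) m) {W : MvPolynomial (Fin (N + 1) ⊕ Fin (N + 1)) ℂ} {r : ℕ}
    (hW : ∀ x ∈ oc P H, ∀ v, Tan (oc P H) x v → θ.toFun x v * eval x.ofLp H ^ r = eval (Sum.elim x.ofLp v.ofLp) W)
    {σ : ℂ × ℂ → EN N} {τ : EN N → ℂ × ℂ} (hσ : IsChart (coneE P) σ τ) (v : ℂ × ℂ) :
    AnalyticAt ℂ (fun y : (ℂ × ℂ) × (ℂ × ℂ) => eval (σ y.1).ofLp H ^ (r + 1) * θ.toFun (σ y.1) (fderiv ℂ σ y.1 y.2)) (0, v) := by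
  have hfst : Tendsto (Prod.fst : (ℂ × ℂ) × (ℂ × ℂ) → ℂ × ℂ) (𝓝 ((0 : ℂ × ℂ), v)) (𝓝 0) := continuousAt_fst
  have h0 : AnalyticAt ℂ (fun y : (ℂ × ℂ) × (ℂ × ℂ) => σ y.1) (0, v) :=
    AnalyticAt.comp (g := σ) (f := Prod.fst) (x := ((0 : ℂ × ℂ), v)) hσ.σ_an analyticAt_fst
  have h1 : AnalyticAt ℂ (fun y : (ℂ × ℂ) × (ℂ × ℂ) => eval (σ y.1).ofLp H) (0, v) :=
    AnalyticAt.comp (g := fun x : EN N => eval x.ofLp H) (f := fun y : (ℂ × ℂ) × (ℂ × ℂ) => σ y.1) (x := ((0 : ℂ × ℂ), v))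
      (Pool.Agent.SDA.E1_an H _) h0
  have h2 : AnalyticAt ℂ (fun y : (ℂ × ℂ) × (ℂ × ℂ) => fderiv ℂ σ y.1 y.2) (0, v) := by
    have h3 : AnalyticAt ℂ (fun y : (ℂ × ℂ) × (ℂ × ℂ) => fderiv ℂ σ y.1) (0, v) :=
      AnalyticAt.comp (g := fderiv ℂ σ) (f := Prod.fst) (x := ((0 : ℂ × ℂ), v)) hσ.σ_an.fderiv analyticAt_fst
    exact AnalyticAt.comp (g := fun q : (ℂ × ℂ →L[ℂ] EN N) × (ℂ × ℂ) => (ContinuousLinearMap.id ℂ (ℂ × ℂ →L[ℂ] EN N)) q.1 q.2)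
      (f := fun y : (ℂ × ℂ) × (ℂ × ℂ) => (fderiv ℂ σ y.1, y.2)) (x := ((0 : ℂ × ℂ), v))
      ((ContinuousLinearMap.id ℂ (ℂ × ℂ →L[ℂ] EN N)).analyticAt_bilinear _) (h3.prod analyticAt_snd)
  have hco : ∀ {g : (ℂ × ℂ) × (ℂ × ℂ) → EN N}, AnalyticAt ℂ g (0, v) → ∀ j : Fin (N + 1), AnalyticAt ℂ (fun y => (g y).ofLp j) (0, v) := by
    intro g hg j
    exact ((EuclideanSpace.proj (𝕜 := ℂ) j : EN N →L[ℂ] ℂ).analyticAt _).comp hg
  have h4 : AnalyticAt ℂ (fun y : (ℂ × ℂ) × (ℂ × ℂ) => eval (Sum.elim (σ y.1).ofLp (fderiv ℂ σ y.1 y.2).ofLp) W) (0, v) := by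
    have h5 := AnalyticAt.aeval_mvPolynomial (𝕜 := ℂ) (f := fun (y : (ℂ × ℂ) × (ℂ × ℂ)) (i : Fin (N + 1) ⊕ Fin (N + 1)) =>
      Sum.elim (σ y.1).ofLp (fderiv ℂ σ y.1 y.2).ofLp i) (z := ((0 : ℂ × ℂ), v)) (fun i => by
        cases i with
        | inl j => exact hco h0 j
        | inr j => exact hco h2 j) W
    exact h5
  refine (h1.mul h4).congr ?_
  filter_upwards [hfst.eventually (CopA_near (H := H) hσ)] with y hy
  by_cases hz : eval (σ y.1).ofLp H = 0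
  · simp [hz]
  · have h5 := hy.2 hz
    have h6 := hW _ h5.self_of_nhds _ (Pool.Agent.E2.tan_fderiv_chart hy.1 h5 y.2)
    show eval (σ y.1).ofLp H * eval (Sum.elim (σ y.1).ofLp (fderiv ℂ σ y.1 y.2).ofLp) W = _
    rw [← h6, pow_succ]
    ring

/-- the local equation -/
theorem CopA_localEq (hX : Surface (coneE P)) (hH : H.IsHomogeneous h) {m₁ m₂ : ℕ} (h₁ : 1 ≤ m₁) (h₂ : 1 ≤ m₂)
    (θ₁ : SymDiff (oc P H) m₁) (θ₂ : SymDiff (oc P H) m₂) (hθ₁ : IsAlg θ₁) (hθ₂ : IsAlg θ₂)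
    {σ : ℂ × ℂ → EN N} {τ : EN N → ℂ × ℂ} (hσ : IsChart (coneE P) σ τ) :
    ∃ g : ℂ × ℂ → ℂ, LocalEq (ComNull θ₁ θ₂ ∪ {x | x ∈ coneE P ∧ eval x.ofLp H = 0}) σ g := by
  have hK : IsOpenPart (coneE P) (oc P H) := Pool.Agent.SDA.X3_openPart (H := fun _ : Fin 1 => H) (e := fun _ => h) hX.smul fun _ => hH
  obtain ⟨W₁, r₁, hW₁⟩ := hθ₁
  obtain ⟨W₂, r₂, hW₂⟩ := hθ₂
  have hev : AnalyticAt ℂ (fun p => eval (σ p).ofLp H) 0 :=
    AnalyticAt.comp (g := fun x : EN N => eval x.ofLp H) (f := σ) (Pool.Agent.SDA.E1_an H _) hσ.σ_an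
  have hnb := CopA_near (H := H) hσ
  have hs : ∀ {m : ℕ} (r : ℕ) (θ : SymDiff (oc P H) m), ∀ᶠ p in 𝓝 (0 : ℂ × ℂ), ∀ (c : ℂ) (v : ℂ × ℂ),
      eval (σ p).ofLp H ^ (r + 1) * θ.toFun (σ p) (fderiv ℂ σ p (c • v)) =
      c ^ m * (eval (σ p).ofLp H ^ (r + 1) * θ.toFun (σ p) (fderiv ℂ σ p v)) := by
    intro m r θ
    filter_upwards [hnb] with p hp c v
    by_cases h0 : eval (σ p).ofLp H = 0
    · rw [h0, zero_pow (Nat.succ_ne_zero r), zero_mul, zero_mul, mul_zero]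
    · rw [map_smul, θ.smul _ _ (Pool.Agent.E2.tan_fderiv_chart hp.1 (hp.2 h0) v)]
      ring
  obtain ⟨g₀, hg₀, hg⟩ := Pool.Agent.E1.localEq_common h₁ h₂
    (a := fun y : (ℂ × ℂ) × (ℂ × ℂ) => eval (σ y.1).ofLp H ^ (r₁ + 1) * θ₁.toFun (σ y.1) (fderiv ℂ σ y.1 y.2))
    (b := fun y : (ℂ × ℂ) × (ℂ × ℂ) => eval (σ y.1).ofLp H ^ (r₂ + 1) * θ₂.toFun (σ y.1) (fderiv ℂ σ y.1 y.2))
    (fun v => CopA_an θ₁ hW₁ hσ v) (fun v => CopA_an θ₂ hW₂ hσ v) (hs r₁ θ₁) (hs r₂ θ₂)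
  refine ⟨fun p => eval (σ p).ofLp H * g₀ p, hev.mul hg₀, ?_⟩
  filter_upwards [hg, hnb, Pool.Agent.E2.tan_chart hX hσ, hσ.near] with p hp hn ht hc
  by_cases h0 : eval (σ p).ofLp H = 0
  · simp only [h0, zero_mul, iff_true]
    exact Or.inr ⟨ht.1, h0⟩
  have hKp : ∀ᶠ q in 𝓝 p, σ q ∈ oc P H := hn.2 h0
  have hb : σ p ∉ {x : EN N | x ∈ coneE P ∧ eval x.ofLp H = 0} := by
    rintro ⟨_, hi⟩
    exact h0 hi
  rw [mul_eq_zero, or_iff_right h0, hp]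
  constructor
  · rintro (⟨hx, w, hw, hne, e1, e2⟩ | h)
    · obtain ⟨v, a, hv⟩ := ht.2 w (Pool.Agent.SDA.E2_tan' hK hw)
      have hTv := Pool.Agent.E2.tan_fderiv_chart hn.1 hKp v
      refine ⟨v, ?_, ?_, ?_⟩
      · rintro rfl
        apply hne a
        rw [hv, map_zero, zero_add]
      · show _ * _ = _
        rw [hv, θ₁.add_smul _ _ hTv] at e1
        rw [e1, mul_zero]
      · show _ * _ = _
        rw [hv, θ₂.add_smul _ _ hTv] at e2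
        rw [e2, mul_zero]
    · exact absurd h hb
  · rintro ⟨v, hv0, e1, e2⟩
    refine Or.inl ⟨hKp.self_of_nhds, fderiv ℂ σ p v, Pool.Agent.E2.tan_fderiv_chart hn.1 hKp v, fun a ha => hv0 ?_, ?_, ?_⟩
    · have h3 : fderiv ℂ (fun x => σ (p + x)) 0 v = a • σ (p + 0) := by
        rw [fderiv_comp_add_left, add_zero]
        exact ha
      exact (Pool.Agent.H62.BU.toChart hc).indep h3
    · exact (mul_eq_zero.1 e1).resolve_left (pow_ne_zero _ h0)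
    · exact (mul_eq_zero.1 e2).resolve_left (pow_ne_zero _ h0)

/-- MODULE H15 (CopA.lean): two coprime algebraic symmetric differentials (`SDA/X3`, `SDA/X4`, where the extension of the forms across `{H = 0}` follows from
`IsAlg` instead of `VanishesOnStatic`) -/
theorem exists_R_alg [P.IsPrime] {z : Fin 2 → FunField P} (hP : Homog P) (hz : IsTranscendenceBasis ℂ z) (hsm : IsSmooth P 2)
    (hH : H.IsHomogeneous h) (h1 : 1 ≤ h) (hHP : H ∉ P) {m₁ m₂ : ℕ} (h₁ : 1 ≤ m₁) (h₂ : 1 ≤ m₂)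
    (θ₁ : SymDiff (oc P H) m₁) (θ₂ : SymDiff (oc P H) m₂) (hθ₁ : IsAlg θ₁) (hθ₂ : IsAlg θ₂)
    (hd : oc P H ⊆ closure (oc P H \ Pool.Agent.E1.ComNull θ₁ θ₂)) :
    ∃ (R : MvPolynomial (Fin (N + 1)) ℂ) (d : ℕ), R.IsHomogeneous d ∧ R ∉ P ∧ ∀ f : ℂ → PN N, HolomorphicInto f Set.univ →
      (∀ z, f z ∈ projVar P ∧ ¬ VanishesAt H (f z)) → (∃ z w, f z ≠ f w) → TangentTo θ₁ f → TangentTo θ₂ f → ∀ z, VanishesAt R (f z) := by
  have hsm' : ∀ y : Fin (N + 1) → ℂ, y ≠ 0 → (∀ Q ∈ P, eval y Q = 0) → Module.finrank ℂ (Pool.Agent.H13.SM.conTan P y) ≤ 3 := hsm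
  have hX : Surface (coneE P) := Pool.Agent.H90.SG.surface_coneE hP hz hsm'
  have hc : IsCone (coneE P) := Pool.Agent.AD.isCone_coneE hP
  have hK : IsOpenPart (coneE P) (oc P H) := Pool.Agent.SDA.X4_openPart (H := fun _ : Fin 1 => H) (e := fun _ => h) hc fun _ => hH
  obtain ⟨R, d, hR, hRP, hRZ⟩ := Pool.Agent.E1.exists_form_of_analytic hz hX
    (Z := ComNull θ₁ θ₂ ∪ {x | x ∈ coneE P ∧ eval x.ofLp H = 0})
    (fun x hx => hx.elim (fun h => h.1.1) fun h => h.1)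
    (fun x hx c hc0 => hx.elim (fun h => Or.inl (Pool.Agent.SDA.X4_comNull_smul hc hK θ₁ θ₂ x h c hc0)) fun h => Or.inr
      ⟨hc.smul_mem x h.1 c hc0, by
        have h2 : (c • x).ofLp = c • x.ofLp := rfl
        rw [h2, Pool.Agent.H17EF.eval_smul_form hH, h.2, mul_zero]⟩)
    (fun x hx => by
      obtain ⟨σ, τ, hσ, h0⟩ := hX.chart x hx
      obtain ⟨g, hg⟩ := CopA_localEq hX hH h₁ h₂ θ₁ θ₂ hθ₁ hθ₂ hσ
      refine ⟨σ, τ, g, hσ, h0, hg, fun h3 => Pool.Agent.SDA.X4_thin (H := fun _ : Fin 1 => H) (e := fun _ => h) hP hz hsm' (fun _ => hH)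
        (fun _ => hHP) θ₁ θ₂ hd hσ ?_⟩
      filter_upwards [hg.2, h3] with p hp1 hp2
      rcases hp1.2 hp2 with h4 | ⟨h4, h5⟩
      · exact Or.inl h4
      · exact Or.inr ⟨h4, 0, h5⟩)
  refine ⟨R, d, hR, hRP, fun f hf hfU hne h1 h2 => ?_⟩
  obtain ⟨F, hF, hF1⟩ := h1
  obtain ⟨G, hG, hG1⟩ := h2
  have hFK : ∀ z, F z ∈ oc P H := fun z => by
    refine ⟨(hF.mem_iff hP z).1 (hfU z).1, fun _ hi => (hfU z).2 ?_⟩
    obtain ⟨h5, h6⟩ := hF.2 z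
    show eval (f z).rep H = 0
    rw [h6]
    obtain ⟨a, ha, hrep⟩ := Pool.Agent.H36.BP.rep_mk h5
    rw [hrep, Pool.Agent.H17EF.eval_smul_form hH a (F z).ofLp, hi, mul_zero]
  exact Pool.Agent.SDA.X4_vanishes hc hK θ₁ θ₂ hR (fun x hx => hRZ x (Or.inl hx)) hF hG hFK hne hF1 hG1

end Pool.Agent.SR3
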