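import Pool.Agent.SR3.LnDefs
import Pool.Agent.SR3.Snc2
import Pool.Agent.AD.T.Sym
import Pool.Agent.H22.WL.Proj
import Pool.Agent.H22.W.Def

/-!
# SR3 LnN: an affine line is tangent to every logarithmic symmetric differential

`g z = θ (F z) (F' z)` is entire; `F` and `vec E ∘ F` are vectors of polynomials, so `‖F' z‖ / ‖F z‖` and `‖(vec E ∘ F)' z‖ / ‖vec E (F z)‖` are at most `C / ‖z‖` near infinity; so `g → 0`
at infinity, `g = 0`.
-/

set_option autoImplicit false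

open Topology Filter Metric MvPolynomial

noncomputable section

namespace Pool.Agent.SR3

open Pool.Agent.H36.BP (EN fs wd wd_le)
open Pool.Agent.H14.PP (IsCone Tan CurveAt)
open Pool.Agent.H14.V (IsLift isLift_mk)
open Pool.Agent.H17 (PN VanishesAt HolomorphicInto)
open Pool.Agent.H62.FC (Homog)
open Pool.Agent.H13.OT (OrderTwo)
open Pool.Agent.H17EF (projVar coneE)
open Pool.Agent.H22.W (tan_entire)
open Pool.Agent.H22.WL (vanishesAt_lift)
open Pool.Agent.AD (SymDiff TangentTo)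

variable {N k M : ℕ} {P : Ideal (MvPolynomial (Fin (N + 1)) ℂ)} {H : MvPolynomial (Fin (N + 1)) ℂ} {h : ℕ}
  {E : Fin k → Fin (M + 1) → MvPolynomial (Fin (N + 1)) ℂ} {c b : Fin k → ℕ}

/-- the vector of the values -/
private def LnN_ev {n : ℕ} (G : Fin (n + 1) → Polynomial ℂ) (z : ℂ) : EN n := WithLp.toLp 2 (pev G z)

private theorem LnN_hasDeriv {n : ℕ} (G : Fin (n + 1) → Polynomial ℂ) (z : ℂ) :
    HasDerivAt (LnN_ev G) (LnN_ev (fun l => (G l).derivative) z) z := by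
  have h1 : HasDerivAt (fun z => pev G z) (pev (fun l => (G l).derivative) z) z :=
    hasDerivAt_pi.2 fun l => (G l).hasDerivAt z
  exact ((PiLp.continuousLinearEquiv 2 ℂ (fun _ : Fin (n + 1) => ℂ)).symm.hasFDerivAt).comp_hasDerivAt z h1

private theorem LnN_diff {n : ℕ} (G : Fin (n + 1) → Polynomial ℂ) : Differentiable ℂ (LnN_ev G) := fun z => (LnN_hasDeriv G z).differentiableAt

private theorem LnN_deriv {n : ℕ} (G : Fin (n + 1) → Polynomial ℂ) (z : ℂ) : deriv (LnN_ev G) z = LnN_ev (fun l => (G l).derivative) z :=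
  (LnN_hasDeriv G z).deriv

private theorem LnN_large (R : ℝ) : ∀ᶠ z : ℂ in cocompact ℂ, R ≤ ‖z‖ :=
  (tendsto_norm_cocompact_atTop (E := ℂ)).eventually (eventually_ge_atTop R)

/-- upper bound -/
private theorem LnN_up (p : Polynomial ℂ) {n : ℕ} (hn : p.natDegree ≤ n) : ∃ C : ℝ, 0 ≤ C ∧ ∀ z : ℂ, 1 ≤ ‖z‖ → ‖p.eval z‖ ≤ C * ‖z‖ ^ n := by
  refine ⟨∑ i ∈ Finset.range (p.natDegree + 1), ‖p.coeff i‖, Finset.sum_nonneg fun _ _ => norm_nonneg _, fun z hz => ?_⟩
  rw [Polynomial.eval_eq_sum_range, Finset.sum_mul]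
  refine (norm_sum_le _ _).trans (Finset.sum_le_sum fun i hi => ?_)
  rw [norm_mul, norm_pow]
  exact mul_le_mul_of_nonneg_left (pow_le_pow_right₀ hz (by have := Finset.mem_range.1 hi; omega)) (norm_nonneg _)

private theorem LnN_lead (p : Polynomial ℂ) :
    Tendsto (fun z : ℂ => ‖p.eval z‖ / ‖z‖ ^ p.natDegree) (cocompact ℂ) (𝓝 ‖p.leadingCoeff‖) := by
  have h1 : Tendsto (fun z : ℂ => z⁻¹) (cocompact ℂ) (𝓝 0) := by
    rw [← Metric.cobounded_eq_cocompact]
    exact tendsto_inv₀_cobounded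
  have h2 : Tendsto (fun z : ℂ => ‖(p.reverse).eval z⁻¹‖) (cocompact ℂ) (𝓝 ‖(p.reverse).eval 0‖) :=
    ((p.reverse.continuous.tendsto 0).comp h1).norm
  rw [← Polynomial.coeff_zero_eq_eval_zero, Polynomial.coeff_zero_reverse] at h2
  refine h2.congr' ?_
  filter_upwards [LnN_large 1] with z hz
  have hz0 : z ≠ 0 := by
    rintro rfl
    rw [norm_zero] at hz
    linarith
  have hpos : (0 : ℝ) < ‖z‖ ^ p.natDegree := pow_pos (norm_pos_iff.2 hz0) _
  rw [eq_div_iff hpos.ne', ← norm_pow, ← norm_mul]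
  congr 1
  let _ : Invertible z := invertibleOfNonzero hz0
  have h3 := Polynomial.eval₂_reverse_mul_pow (RingHom.id ℂ) z p
  rw [invOf_eq_inv] at h3
  simpa [Polynomial.eval₂_eq_eval_map] using h3

/-- lower bound -/
private theorem LnN_low {p : Polynomial ℂ} (hp : p ≠ 0) : ∃ a : ℝ, 0 < a ∧ ∀ᶠ z : ℂ in cocompact ℂ, a * ‖z‖ ^ p.natDegree ≤ ‖p.eval z‖ := by
  have h0 : 0 < ‖p.leadingCoeff‖ := norm_pos_iff.2 (Polynomial.leadingCoeff_ne_zero.2 hp)
  refine ⟨‖p.leadingCoeff‖ / 2, by positivity, ?_⟩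
  filter_upwards [(LnN_lead p).eventually (lt_mem_nhds (half_lt_self h0)), LnN_large 1] with z hz h1
  have h2 : 0 < ‖z‖ ^ p.natDegree := by positivity
  rw [lt_div_iff₀ h2] at hz
  exact hz.le

/-- the logarithmic derivative of a vector of polynomials -/
private theorem LnN_quot {n : ℕ} (G : Fin (n + 1) → Polynomial ℂ) :
    ∃ C : ℝ, 0 ≤ C ∧ ∀ᶠ z : ℂ in cocompact ℂ, ‖LnN_ev (fun l => (G l).derivative) z‖ ≤ C / ‖z‖ * ‖LnN_ev G z‖ := by
  obtain ⟨l₀, -, hl₀⟩ := Finset.exists_max_image Finset.univ (fun l => (G l).natDegree) ⟨0, Finset.mem_univ _⟩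
  rcases Nat.eq_zero_or_pos (G l₀).natDegree with h0 | h0
  · refine ⟨0, le_rfl, Eventually.of_forall fun z => ?_⟩
    have h1 : (fun l => (G l).derivative) = fun _ => 0 := by
      funext l
      refine Polynomial.derivative_of_natDegree_zero ?_
      have := hl₀ l (Finset.mem_univ l)
      omega
    rw [h1]
    have h2 : LnN_ev (fun _ : Fin (n + 1) => (0 : Polynomial ℂ)) z = 0 := by
      ext l
      change (0 : Polynomial ℂ).eval z = 0
      rw [Polynomial.eval_zero]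
    rw [h2, norm_zero]
    positivity
  · have hne : G l₀ ≠ 0 := by
      intro h
      rw [h, Polynomial.natDegree_zero] at h0
      exact lt_irrefl _ h0
    obtain ⟨a, ha, hlow⟩ := LnN_low hne
    have hup : ∀ l, ∃ C : ℝ, 0 ≤ C ∧ ∀ z : ℂ, 1 ≤ ‖z‖ → ‖((G l).derivative).eval z‖ ≤ C * ‖z‖ ^ ((G l₀).natDegree - 1) := fun l =>
      LnN_up _ ((Polynomial.natDegree_derivative_le (G l)).trans (by have := hl₀ l (Finset.mem_univ l); omega))
    choose C hC0 hC using hup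
    refine ⟨(∑ l, C l) / a, by have := Finset.sum_nonneg fun l (_ : l ∈ Finset.univ) => hC0 l; positivity, ?_⟩
    filter_upwards [hlow, LnN_large 1] with z hz h1
    have hz0 : 0 < ‖z‖ := by linarith
    have h2 : ‖LnN_ev (fun l => (G l).derivative) z‖ ≤ (∑ l, C l) * ‖z‖ ^ ((G l₀).natDegree - 1) := by
      have h3 : ‖LnN_ev (fun l => (G l).derivative) z‖ ≤ ∑ l, ‖((G l).derivative).eval z‖ := by
        rw [EuclideanSpace.norm_eq]
        refine (Real.sqrt_le_sqrt (Finset.sum_sq_le_sq_sum_of_nonneg ?_)).trans ?_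
        · exact fun l _ => norm_nonneg _
        · rw [Real.sqrt_sq (Finset.sum_nonneg fun _ _ => norm_nonneg _)]
          exact le_rfl
      refine h3.trans ?_
      rw [Finset.sum_mul]
      exact Finset.sum_le_sum fun l _ => hC l z h1
    have h3 : ‖(G l₀).eval z‖ ≤ ‖LnN_ev G z‖ := PiLp.norm_apply_le (LnN_ev G z) l₀
    have h4 : ‖z‖ ^ (G l₀).natDegree = ‖z‖ ^ ((G l₀).natDegree - 1) * ‖z‖ := by
      rw [← pow_succ, Nat.sub_add_cancel h0]
    have h5 : a * (‖z‖ ^ ((G l₀).natDegree - 1) * ‖z‖) ≤ ‖LnN_ev G z‖ := by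
      rw [← h4]
      exact hz.trans h3
    refine h2.trans ?_
    have h6 : 0 ≤ ∑ l, C l := Finset.sum_nonneg fun l _ => hC0 l
    rw [div_div, div_mul_eq_mul_div, le_div_iff₀ (by positivity)]
    calc (∑ l, C l) * ‖z‖ ^ ((G l₀).natDegree - 1) * (a * ‖z‖) = (∑ l, C l) * (a * (‖z‖ ^ ((G l₀).natDegree - 1) * ‖z‖)) := by ring
      _ ≤ (∑ l, C l) * ‖LnN_ev G z‖ := mul_le_mul_of_nonneg_left h5 h6

/-- the composition with a form is a polynomial -/
private theorem LnN_comp {n : ℕ} (F : Fin (N + 1) → Polynomial ℂ) (E₀ : Fin (n + 1) → MvPolynomial (Fin (N + 1)) ℂ) (z : ℂ) :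
    vec E₀ (LnN_ev F z) = LnN_ev (fun l => MvPolynomial.aeval F (E₀ l)) z := by
  ext l
  change eval (pev F z) (E₀ l) = (MvPolynomial.aeval F (E₀ l)).eval z
  have h1 := MvPolynomial.eval₂_comp_left (Polynomial.evalRingHom z) (algebraMap ℂ (Polynomial ℂ)) F (E₀ l)
  rw [MvPolynomial.aeval_def, ← Polynomial.coe_evalRingHom, h1]
  have h2 : (Polynomial.evalRingHom z).comp (algebraMap ℂ (Polynomial ℂ)) = RingHom.id ℂ := by
    ext a
    simp
  rw [h2]
  rfl

private theorem LnN_inner {n : ℕ} (x v : EN n) (hx : x ≠ 0) : ‖inner ℂ x v / (‖x‖ : ℂ) ^ 2‖ ≤ ‖v‖ / ‖x‖ := by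
  have h1 : 0 < ‖x‖ := norm_pos_iff.2 hx
  rw [norm_div, norm_pow, Complex.norm_real, Real.norm_eq_abs, abs_of_pos h1, div_le_div_iff₀ (by positivity) h1]
  calc ‖inner ℂ x v‖ * ‖x‖ ≤ ‖x‖ * ‖v‖ * ‖x‖ := mul_le_mul_of_nonneg_right (norm_inner_le_norm _ _) h1.le
    _ = ‖v‖ * ‖x‖ ^ 2 := by ring

private theorem LnN_fs {n : ℕ} (x v : EN n) (hx : x ≠ 0) : fs x v ≤ ‖v‖ / ‖x‖ := by
  have h1 : 0 < ‖x‖ := norm_pos_iff.2 hx
  unfold fs
  rw [div_le_div_iff₀ (by positivity) h1]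
  calc wd x v * ‖x‖ ≤ ‖x‖ * ‖v‖ * ‖x‖ := mul_le_mul_of_nonneg_right (wd_le _ _) h1.le
    _ = ‖v‖ * ‖x‖ ^ 2 := by ring

/-- the logarithmic length of the derivative of an affine line -/
private theorem LnN_log {F : Fin (N + 1) → Polynomial ℂ} (c : Fin k → ℕ) (h0 : ∀ z, LnN_ev F z ≠ 0) (hE : ∀ i z, vec (E i) (LnN_ev F z) ≠ 0) :
    ∃ C : ℝ, 0 ≤ C ∧ ∀ᶠ z : ℂ in cocompact ℂ, logLen E c (LnN_ev F z) (deriv (LnN_ev F) z) ≤ C / ‖z‖ := by
  obtain ⟨C₀, hC₀, h1⟩ := LnN_quot F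
  have h2 : ∀ i, ∃ C : ℝ, 0 ≤ C ∧ ∀ᶠ z : ℂ in cocompact ℂ, ‖LnN_ev (fun l => (MvPolynomial.aeval F (E i l)).derivative) z‖ ≤
      C / ‖z‖ * ‖LnN_ev (fun l => MvPolynomial.aeval F (E i l)) z‖ := fun i => LnN_quot _
  choose C hC h2 using h2
  refine ⟨C₀ + ∑ i, (C i + c i * C₀), add_nonneg hC₀ (Finset.sum_nonneg fun i _ => add_nonneg (hC i) (by positivity)), ?_⟩
  filter_upwards [h1, eventually_all.2 h2, LnN_large 1] with z hz hz' hz1
  have hx : 0 < ‖LnN_ev F z‖ := norm_pos_iff.2 (h0 z)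
  have h3 : ‖deriv (LnN_ev F) z‖ / ‖LnN_ev F z‖ ≤ C₀ / ‖z‖ := by
    rw [LnN_deriv, div_le_iff₀ hx]
    exact hz
  have h4 : ∀ i, ‖ellE (E i) (c i) (LnN_ev F z) (deriv (LnN_ev F) z)‖ ≤ (C i + c i * C₀) / ‖z‖ := by
    intro i
    have hy : 0 < ‖vec (E i) (LnN_ev F z)‖ := norm_pos_iff.2 (hE i z)
    have h5 : fderiv ℂ (vec (E i)) (LnN_ev F z) (deriv (LnN_ev F) z) = LnN_ev (fun l => (MvPolynomial.aeval F (E i l)).derivative) z := by
      have h6 : HasDerivAt (fun w => vec (E i) (LnN_ev F w)) (fderiv ℂ (vec (E i)) (LnN_ev F z) (deriv (LnN_ev F) z)) z :=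
        ((snc2_diffE (E i) (LnN_ev F z)).hasFDerivAt).comp_hasDerivAt z ((LnN_diff F z).hasDerivAt)
      have h7 : (fun w => vec (E i) (LnN_ev F w)) = LnN_ev (fun l => MvPolynomial.aeval F (E i l)) := funext fun w => LnN_comp F (E i) w
      rw [h7] at h6
      exact h6.unique (LnN_hasDeriv _ z)
    have h6 : ‖fderiv ℂ (vec (E i)) (LnN_ev F z) (deriv (LnN_ev F) z)‖ / ‖vec (E i) (LnN_ev F z)‖ ≤ C i / ‖z‖ := by
      rw [h5, div_le_iff₀ hy, LnN_comp]
      exact hz' i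
    unfold ellE
    refine (norm_sub_le _ _).trans ?_
    rw [add_div]
    refine add_le_add ((LnN_inner _ _ (hE i z)).trans h6) ?_
    rw [norm_mul, Complex.norm_natCast, mul_div_assoc]
    exact mul_le_mul_of_nonneg_left ((LnN_inner _ _ (h0 z)).trans h3) (Nat.cast_nonneg _)
  unfold logLen
  rw [add_div, Finset.sum_div]
  exact add_le_add ((LnN_fs _ _ (h0 z)).trans h3) (Finset.sum_le_sum fun i _ => h4 i)

private theorem LnN_zero (hH : H.IsHomogeneous h) (h1 : 1 ≤ h) {x : Fin (N + 1) → ℂ} (hx : eval x H = 1) : x ≠ 0 := by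
  rintro rfl
  have h2 := snc2_evalH hH (0 : ℂ) (0 : EN N)
  rw [smul_zero, zero_pow (by omega), zero_mul] at h2
  exact one_ne_zero (hx.symm.trans h2)

private theorem LnN_up' (p : Polynomial ℂ) {n : ℕ} (hn : p.natDegree ≤ n) : ∃ C : ℝ, 0 ≤ C ∧ ∀ z : ℂ, ‖p.eval z‖ ≤ C * (1 + ‖z‖) ^ n := by
  refine ⟨∑ i ∈ Finset.range (p.natDegree + 1), ‖p.coeff i‖, Finset.sum_nonneg fun _ _ => norm_nonneg _, fun z => ?_⟩
  rw [Polynomial.eval_eq_sum_range, Finset.sum_mul]
  refine (norm_sum_le _ _).trans (Finset.sum_le_sum fun i hi => ?_)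
  rw [norm_mul, norm_pow]
  have h0 := norm_nonneg z
  refine mul_le_mul_of_nonneg_left ?_ (norm_nonneg _)
  exact (pow_le_pow_left₀ h0 (by linarith) i).trans (pow_le_pow_right₀ (by linarith) (by have := Finset.mem_range.1 hi; omega))

/-- order two -/
private theorem LnN_ord {F : Fin (N + 1) → Polynomial ℂ} (h0 : ∀ z, (LnN_ev F z).ofLp ≠ 0) :
    OrderTwo fun z => Projectivization.mk ℂ (LnN_ev F z).ofLp (h0 z) := by
  have hup : ∀ l, ∃ C : ℝ, 0 ≤ C ∧ ∀ z : ℂ, ‖(F l).eval z‖ ≤ C * (1 + ‖z‖) ^ (Finset.univ.sup fun l => (F l).natDegree) := fun l =>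
    LnN_up' _ (Finset.le_sup (f := fun l => (F l).natDegree) (Finset.mem_univ l))
  choose C hC0 hC using hup
  set n : ℕ := Finset.univ.sup fun l => (F l).natDegree with hn
  set K : ℝ := 1 + ∑ l, C l with hK
  have hK1 : 1 ≤ K := by
    have := Finset.sum_nonneg fun l (_ : l ∈ Finset.univ) => hC0 l
    rw [hK]
    linarith
  have hd : Differentiable ℂ fun z => pev F z := differentiable_pi.2 fun l => (F l).differentiable
  have hle : ∀ z, ‖pev F z‖ ≤ K * (1 + ‖z‖) ^ n := by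
    intro z
    have hz := norm_nonneg z
    refine (pi_norm_le_iff_of_nonneg (by positivity)).2 fun l => (hC l z).trans ?_
    refine mul_le_mul_of_nonneg_right ?_ (by positivity)
    have := Finset.single_le_sum (fun l (_ : l ∈ Finset.univ) => hC0 l) (Finset.mem_univ l)
    rw [hK]
    linarith
  refine ⟨fun z => pev F z, Real.log K + n, hd, fun z => ⟨h0 z, rfl⟩, fun r hr => ?_⟩
  have hlK : 0 ≤ Real.log K := Real.log_nonneg hK1
  refine Real.circleAverage_mono_on_of_le_circle ?_ fun z hz => ?_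
  · refine ContinuousOn.circleIntegrable hr.le (Continuous.continuousOn ?_)
    exact (hd.continuous.norm).log fun z => norm_ne_zero_iff.2 (h0 z)
  · have hz' : ‖z‖ = r := by simpa [abs_of_pos hr] using hz
    have h1 : 0 < ‖pev F z‖ := norm_pos_iff.2 (h0 z)
    calc Real.log ‖pev F z‖ ≤ Real.log (K * (1 + ‖z‖) ^ n) := Real.log_le_log h1 (hle z)
      _ = Real.log K + n * Real.log (1 + r) := by rw [hz', Real.log_mul (by positivity) (by positivity), Real.log_pow]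
      _ ≤ Real.log K + n * r := by
        have h2 := Real.log_le_sub_one_of_pos (show (0 : ℝ) < 1 + r by linarith)
        have h3 : (n : ℝ) * Real.log (1 + r) ≤ n * r := mul_le_mul_of_nonneg_left (by linarith) (Nat.cast_nonneg _)
        linarith
      _ ≤ (Real.log K + n) * (1 + r ^ 2) := by
        have h2 : (0 : ℝ) ≤ n := Nat.cast_nonneg _
        have h3 : r ≤ 1 + r ^ 2 := by nlinarith [sq_nonneg (r - 1)]
        have h4 : (n : ℝ) * r ≤ n * (1 + r ^ 2) := mul_le_mul_of_nonneg_left h3 h2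
        have h5 : Real.log K ≤ Real.log K * (1 + r ^ 2) := le_mul_of_one_le_right hlK (by nlinarith [sq_nonneg r])
        linarith

/-- the projective curve is not constant -/
private theorem LnN_ne (hH : H.IsHomogeneous h) (h1 : 1 ≤ h) {F : Fin (N + 1) → Polynomial ℂ} (hF : PLine P H F) (h0 : ∀ z, (LnN_ev F z).ofLp ≠ 0) :
    ∃ z w, Projectivization.mk ℂ (LnN_ev F z).ofLp (h0 z) ≠ Projectivization.mk ℂ (LnN_ev F w).ofLp (h0 w) := by
  classical
  by_contra hcon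
  push Not at hcon
  obtain ⟨l, hl⟩ := hF.ne
  have h2 : ∀ z, (F l).eval z ∈ (Polynomial.nthRootsFinset h (1 : ℂ)).image fun a => a * (F l).eval 0 := by
    intro z
    have h3 := hcon z 0
    rw [Projectivization.mk_eq_mk_iff'] at h3
    obtain ⟨a, ha⟩ := h3
    have ha' : a • pev F 0 = pev F z := ha
    have h4 : a ^ h = 1 := by
      have h5 := snc2_evalH hH a (LnN_ev F 0)
      have h6 : eval (a • LnN_ev F 0).ofLp H = 1 := by
        change eval (a • pev F 0) H = 1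
        rw [ha']
        exact hF.one z
      have h7 : eval (LnN_ev F 0).ofLp H = 1 := hF.one 0
      rw [h6, h7, mul_one] at h5
      exact h5.symm
    refine Finset.mem_image.2 ⟨a, (Polynomial.mem_nthRootsFinset (by omega) _).2 h4, ?_⟩
    exact congrFun ha' l
  obtain ⟨v, hv⟩ := Infinite.exists_notMem_finset ((Polynomial.nthRootsFinset h (1 : ℂ)).image fun a => a * (F l).eval 0)
  have h3 : (F l - Polynomial.C v).degree ≠ 0 := by
    intro h4
    have h5 : (F l - Polynomial.C v).natDegree = 0 := Polynomial.natDegree_eq_zero_iff_degree_le_zero.2 h4.le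
    rw [Polynomial.natDegree_sub_C] at h5
    omega
  obtain ⟨z, hz⟩ := IsAlgClosed.exists_root (F l - Polynomial.C v) h3
  rw [Polynomial.IsRoot.def, Polynomial.eval_sub, Polynomial.eval_C, sub_eq_zero] at hz
  exact hv (hz ▸ h2 z)

private theorem LnN_oc (hH : H.IsHomogeneous h) (h1 : 1 ≤ h) {F : Fin (N + 1) → Polynomial ℂ} (hF : PLine P H F) (z : ℂ) : LnN_ev F z ∈ oc P H := by
  refine ⟨⟨LnN_zero hH h1 (hF.one z), fun Q hQ => hF.mem z Q hQ⟩, fun _ => ?_⟩
  have h2 : eval (pev F z) H ≠ 0 := by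
    rw [hF.one z]
    exact one_ne_zero
  exact h2

theorem line_null (hH : H.IsHomogeneous h) (h1 : 1 ≤ h) (hs : Snc P H E b) {m : ℕ} (hm : 1 ≤ m) (θ : SymDiff (oc P H) m) (hθ : HasLogPoles E c θ)
    {F : Fin (N + 1) → Polynomial ℂ} (hF : PLine P H F) (z : ℂ) :
    θ.toFun (WithLp.toLp 2 (pev F z)) (deriv (fun w => (WithLp.toLp 2 (pev F w) : EN N)) z) = 0 := by
  have hoc := LnN_oc hH h1 hF
  have h0 : ∀ z, LnN_ev F z ≠ 0 := fun z h => (hoc z).1.1 (by
    have h2 := congrArg WithLp.ofLp h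
    exact h2)
  obtain ⟨C, hC, hCθ⟩ := hθ
  obtain ⟨C', hC', hlog⟩ := LnN_log (E := E) c h0 fun i z => snc2_ne hs i (hoc z)
  have han : Differentiable ℂ fun z => θ.toFun (LnN_ev F z) (deriv (LnN_ev F) z) := fun z =>
    (θ.curve_an ⟨(LnN_diff F).analyticAt z, Eventually.of_forall hoc⟩).differentiableAt
  refine han.apply_eq_of_tendsto_cocompact z ?_
  have h2 : Tendsto (fun z : ℂ => C * (C' / ‖z‖) ^ m) (cocompact ℂ) (𝓝 (C * 0 ^ m)) :=
    (((tendsto_norm_cocompact_atTop (E := ℂ)).const_div_atTop C').pow m).const_mul C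
  rw [zero_pow (by omega), mul_zero] at h2
  refine squeeze_zero_norm' ?_ h2
  filter_upwards [hlog] with z hz
  refine (hCθ _ (hoc z) _ (tan_entire (LnN_diff F) hoc z)).trans (mul_le_mul_of_nonneg_left (pow_le_pow_left₀ ?_ hz m) hC)
  exact add_nonneg (Pool.Agent.H36.BP.fs_nonneg _ _) (Finset.sum_nonneg fun _ _ => norm_nonneg _)

theorem line_R (hP : Homog P) (hH : H.IsHomogeneous h) (h1 : 1 ≤ h) (hs : Snc P H E b) {s : ℕ} {m : Fin s → ℕ} (hm : ∀ j, 1 ≤ m j)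
    (θ : ∀ j, SymDiff (oc P H) (m j)) (hθ : ∀ j, HasLogPoles E c (θ j))
    {t : ℕ} {R : Fin t → MvPolynomial (Fin (N + 1)) ℂ} (hN : NullCurve θ R) {F : Fin (N + 1) → Polynomial ℂ} (hF : PLine P H F) (l : Fin t) (z : ℂ) :
    eval (pev F z) (R l) = 0 := by
  have hoc := LnN_oc hH h1 hF
  have h0 : ∀ z, (LnN_ev F z).ofLp ≠ 0 := fun z => (hoc z).1.1
  have hl : IsLift (LnN_ev F) fun z => Projectivization.mk ℂ (LnN_ev F z).ofLp (h0 z) := isLift_mk (LnN_diff F) h0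
  obtain ⟨D, hR⟩ := hN.hom
  have h2 := hN.null _ hl.holomorphicInto (LnN_ord h0)
    (fun z => ⟨(hl.mem_iff hP z).2 (hoc z).1, fun h2 => (hoc z).2 0 ((vanishesAt_lift hl hH z).1 h2)⟩) (LnN_ne hH h1 hF h0)
    (fun j => ⟨_, hl, line_null hH h1 hs (hm j) (θ j) (hθ j) hF⟩) l z
  exact (vanishesAt_lift hl (hR l) z).1 h2

end Pool.Agent.SR3
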