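import Pool.Agent.SR3.MetG
import Pool.Agent.SR3.Wfl
import Pool.Agent.H22.WL.Proj

/-!
# SR3 MetA: the first metric, with the condition on the null curves
-/

set_option autoImplicit false

open Topology Filter Metric MvPolynomial

noncomputable section

namespace Pool.Agent.SR3

open Pool.Agent.H36.BP (EN fs Sub OrdTwo)
open Pool.Agent.H17BP (Surface IsForm NoZeros IsChart)
open Pool.Agent.H14.KB (rhoS)
open Pool.Agent.H14.PP (IsCone Tan IsOpenPart)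
open Pool.Agent.H14.V (IsLift isLift_mk)
open Pool.Agent.H17 (PN VanishesAt HolomorphicInto)
open Pool.Agent.H62.FC (Homog)
open Pool.Agent.H17LG.Variety (FunField)
open Pool.Agent.H17EF (coneE projVar LE)
open Pool.Agent.H13.SM (cone)
open Pool.Agent.H13.OT (OrderTwo)
open Pool.Agent.H22.WL (evF vanishesAt_lift)
open Pool.Agent.AD (SymDiff TangentTo)
open Pool.Agent.AD.NC (IsSmooth)
open Pool.Agent.SDA (openCone EnergyK Near nForms)

variable {N k M : ℕ} {P : Ideal (MvPolynomial (Fin (N + 1)) ℂ)} {H : MvPolynomial (Fin (N + 1)) ℂ} {h : ℕ}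
  {E : Fin k → Fin (M + 1) → MvPolynomial (Fin (N + 1)) ℂ} {c b : Fin k → ℕ}

/-- from the characteristic function to the averages -/
private theorem orderTwo_of_ordTwo {F : ℂ → EN N} {f : ℂ → PN N} (h : IsLift F f) (hF : OrdTwo F) : OrderTwo f := by
  have h1 : OrdTwo fun z => (LE N).symm (F z) := Pool.Agent.H17EF.ordTwo_symm hF
  have h2 : Differentiable ℂ fun z => (LE N).symm (F z) := (LE N).symm.differentiable.comp h.1
  have h3 : ∀ z, (LE N).symm (F z) ≠ 0 := fun z => (h.2 z).1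
  have h4 : ∀ z, Pool.Agent.H17BP.HolP (fun z => (LE N).symm (F z)) z := by
    intro z
    exact ⟨fun z => (LE N).symm (F z), h2.analyticAt z, h3 z, Eventually.of_forall fun w => ⟨1, one_ne_zero, by simp⟩⟩
  have h5 := Pool.Agent.H13.OT.OrdTwo.orderTwo h3 h4 h1
  have h6 : f = fun z => Projectivization.mk ℂ ((LE N).symm (F z)) (h3 z) := by
    funext z
    exact (h.2 z).2
  rw [h6]
  exact h5

/-- The null curves of order two lie in the curve `{R l = 0 for all l}`. -/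
theorem null_mem (hP : Homog P) (hH : H.IsHomogeneous h) {s : ℕ} {m : Fin s → ℕ} (hm : ∀ j, 1 ≤ m j) (θ : ∀ j, SymDiff (oc P H) (m j)) {t : ℕ}
    {R : Fin t → MvPolynomial (Fin (N + 1)) ℂ} (hnull : NullCurve θ R) {F : ℂ → EN N} (hF : Differentiable ℂ F) (hK : ∀ z, F z ∈ oc P H)
    (ho : OrdTwo F) (h0 : ∀ z, nForms m (fun j => (θ j).toFun) (F z) (deriv F z) = 0) :
    (∀ l z, eval (F z).ofLp (R l) = 0) ∨ ∀ z w, ∃ c : ℂ, F z = c • F w := by
  have hFX : ∀ z, F z ∈ coneE P := fun z => (hK z).1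
  have hne : ∀ z, (F z).ofLp ≠ 0 := fun z => (hFX z).1
  have hl := isLift_mk hF hne
  by_cases hcon : ∃ z w, (fun z => Projectivization.mk ℂ (F z).ofLp (hne z)) z ≠ (fun z => Projectivization.mk ℂ (F z).ofLp (hne z)) w
  · left
    have hzero : ∀ j z, (θ j).toFun (F z) (deriv F z) = 0 := by
      intro j z
      have h1 : ∑ j, ‖(θ j).toFun (F z) (deriv F z)‖ ^ ((m j : ℝ)⁻¹) = 0 := h0 z
      have h2 := (Finset.sum_eq_zero_iff_of_nonneg fun j _ => Real.rpow_nonneg (norm_nonneg ((θ j).toFun (F z) (deriv F z))) _).1 h1 j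
        (Finset.mem_univ j)
      have h3 : ((m j : ℝ)⁻¹) ≠ 0 := by
        have : (m j : ℝ) ≠ 0 := by
          have := hm j
          positivity
        exact inv_ne_zero this
      exact norm_eq_zero.1 (((Real.rpow_eq_zero (norm_nonneg _) h3).1 h2))
    obtain ⟨D, hR⟩ := hnull.hom
    intro l z
    have h1 := hnull.null _ hl.holomorphicInto (orderTwo_of_ordTwo hl ho)
      (fun z => ⟨(hl.mem_iff hP z).2 (hFX z), fun h2 => (hK z).2 0 ((vanishesAt_lift hl hH z).1 h2)⟩) hcon (fun j => ⟨F, hl, hzero j⟩) l z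
    exact (vanishesAt_lift hl (hR l) z).1 h1
  · right
    push Not at hcon
    intro z w
    have h1 := hcon z w
    simp only at h1
    rw [Projectivization.mk_eq_mk_iff'] at h1
    obtain ⟨a, ha⟩ := h1
    exact ⟨a, WithLp.ofLp_injective 2 ha.symm⟩

/-- the metric of a curve which contains the null curves -/
theorem MetD.met {s : ℕ} {m : Fin s → ℕ} (θ : ∀ j, SymDiff (oc P H) (m j)) {mΩ jΩ r : ℕ} {Ω : Fin r → EN N → EN N → EN N → ℂ}
    {n : ℕ} (supp : Fin n → Finset (Fin k)) (Pol : Fin n → Fin s → MvPolynomial (Fin k) ℂ) (ty : EN N → Fin n) {T : Set (EN N)}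
    {rho : EN N → ℝ} {M' : ℕ} {c₀ C δ : ℝ} {g : (ℂ → EN N) → ℂ → ℝ} (D : MetD (coneE P) (oc P H) T rho M' c₀ C δ g)
    (hn : ∀ F : ℂ → EN N, Differentiable ℂ F → (∀ z, F z ∈ oc P H) → OrdTwo F → (∀ z, nForms m (fun j => (θ j).toFun) (F z) (deriv F z) = 0) →
      (∀ z, F z ∈ T) ∨ ∀ z w, ∃ c : ℂ, F z = c • F w)
    (hΩ : ∀ x ∈ oc P H, x ∉ T → ∃ a, ∀ v w, Tan (coneE P) x v → Tan (coneE P) x w → LinearIndependent ℂ ![x, v, w] → Ω a x v w ≠ 0) :
    (geoOf P H h E c b θ supp Pol ty mΩ jΩ Ω).Met T rho M' c₀ C δ g where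
  en := D.en
  pos := D.pos
  near := D.near
  TX := D.TX
  Ts := D.Ts
  KT := D.KT
  rho0 := D.rho0
  rhoT := D.rhoT
  rhoc := D.rhoc
  rhos := D.rhos
  Ti := D.Ti
  null := hn
  Ωne := hΩ

/-- the zeros of the forms `Ω a` -/
theorem omega_ne (hP : Homog P) (hH : H.IsHomogeneous h) (h1 : 1 ≤ h) {mΩ jΩ r : ℕ} {Ω : Fin r → EN N → EN N → EN N → ℂ}
    {Q : Fin r → MvPolynomial (Fin (N + 1)) ℂ} (hΩ : LogForms P H mΩ jΩ Ω Q) {x : EN N} (hx : x ∈ oc P H) {a : Fin r} (ha : eval x.ofLp (Q a) ≠ 0)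
    {v w : EN N} (hv : Tan (coneE P) x v) (hw : Tan (coneE P) x w) (hli : LinearIndependent ℂ ![x, v, w]) : Ω a x v w ≠ 0 := by
  have hK : IsOpenPart (coneE P) (oc P H) := isOpenPart_oc hP hH h1
  obtain ⟨γ, ⟨g1, g2⟩, g3, g4⟩ := Pool.Agent.SDA.E2_tan hK hx hv
  obtain ⟨γ', ⟨g1', g2'⟩, g3', g4'⟩ := Pool.Agent.SDA.E2_tan hK hx hw
  exact hΩ.noZeros a x hx ha v ⟨γ, g1, g2, g3, g4⟩ w ⟨γ', g1', g2', g3', g4'⟩ hli

/-- MODULE H11 (MetA.lean): the first metric -/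
theorem exists_met [P.IsPrime] {z : Fin 2 → FunField P} (hP : Homog P) (hz : IsTranscendenceBasis ℂ z) (hsm : IsSmooth P 2)
    (hH : H.IsHomogeneous h) (h1 : 1 ≤ h) (hHP : H ∉ P) {s : ℕ} {m : Fin s → ℕ} (hs1 : 1 ≤ s) (hm : ∀ j, 1 ≤ m j)
    (θ : ∀ j, SymDiff (oc P H) (m j)) {mΩ jΩ r t D₁ D₂ : ℕ} {Ω : Fin r → EN N → EN N → EN N → ℂ}
    {Q : Fin r → MvPolynomial (Fin (N + 1)) ℂ} (hΩ : LogForms P H mΩ jΩ Ω Q) (hQ : ∀ a, (Q a).IsHomogeneous D₂)
    {R : Fin t → MvPolynomial (Fin (N + 1)) ℂ} (hR : ∀ l, (R l).IsHomogeneous D₁) (hnull : NullCurve θ R) (hcov : ZeroCover P H Q R)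
    {n : ℕ} (supp : Fin n → Finset (Fin k)) (Pol : Fin n → Fin s → MvPolynomial (Fin k) ℂ) (ty : EN N → Fin n) :
    ∃ (M' : ℕ) (c₀ C δ : ℝ) (g : (ℂ → EN N) → ℂ → ℝ),
      (geoOf P H h E c b θ supp Pol ty mΩ jΩ Ω).Met {x | x ∈ coneE P ∧ ∀ a, eqT H R Q a x = 0} (rhoS (eqT H R Q) (D₁ + D₂ + h)) M' c₀ C δ g := by
  obtain ⟨M', c₀, C, δ, g, D⟩ := exists_metD_family hP hz hsm hH h1 hHP hΩ hQ hR hnull.ne hcov
  refine ⟨M', c₀, C, δ, g, D.met θ supp Pol ty (fun F hF hK ho h0 => ?_) fun x hx hxT => ?_⟩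
  · rcases null_mem hP hH hm θ hnull hF hK ho h0 with h2 | h2
    · left
      intro w
      refine ⟨(hK w).1, fun a => ?_⟩
      show eval (F w).ofLp (R a.1 * Q a.2 * H) = 0
      rw [map_mul, map_mul, h2 a.1 w, zero_mul, zero_mul]
    · exact Or.inr h2
  · have h2 : ∃ a : Fin t × Fin r, eqT H R Q a x ≠ 0 := by
      by_contra hcon
      push Not at hcon
      exact hxT ⟨hx.1, hcon⟩
    obtain ⟨a, ha⟩ := h2
    have h3 : eval x.ofLp (Q a.2) ≠ 0 := by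
      intro h4
      apply ha
      show eval x.ofLp (R a.1 * Q a.2 * H) = 0
      rw [map_mul, map_mul, h4, mul_zero, zero_mul]
    exact ⟨a.2, fun v w hv hw hli => omega_ne hP hH h1 hΩ hx h3 hv hw hli⟩

end Pool.Agent.SR3
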