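import Pool.Agent.SR3.NcDefs
import Pool.Agent.AD.T.NCDefs
import Pool.Agent.H17BP.TrdegLt

/-!
# SR3 Gens: generators of one degree

`Q i * X a ^ (D - d i)` for homogeneous generators `Q i` of `I`, of degree `d i ≤ D`.
-/

set_option autoImplicit false

open Topology Filter Metric MvPolynomial

noncomputable section

namespace Pool.Agent.SR3

open Pool.Agent.H36.BP (EN)
open Pool.Agent.H17 (PN VanishesAt HolomorphicInto)
open Pool.Agent.H62.FC (Homog)
open Pool.Agent.H17LG.Variety (FunField)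
open Pool.Agent.H13.OT (OrderTwo)
open Pool.Agent.H13.SM (conTan)
open Pool.Agent.H17EF (projVar coneE)
open Pool.Agent.AD (SymDiff TangentTo)
open Pool.Agent.AD.NC (IsSmooth)
open Pool.Agent.H17BP (mapIdeal)

variable {N : ℕ}

variable {P : Ideal (MvPolynomial (Fin (N + 1)) ℂ)} {H : MvPolynomial (Fin (N + 1)) ℂ} {h : ℕ}

/-- the product rule -/
private theorem Gens_mul (x v : Fin (N + 1) → ℂ) (f g : MvPolynomial (Fin (N + 1)) ℂ) :
    ∑ i, v i * eval x (pderiv i (f * g)) = (∑ i, v i * eval x (pderiv i f)) * eval x g + eval x f * ∑ i, v i * eval x (pderiv i g) := by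
  rw [Finset.sum_mul, Finset.mul_sum, ← Finset.sum_add_distrib]
  refine Finset.sum_congr rfl fun i _ => ?_
  rw [Derivation.leibniz, map_add, smul_eq_mul, smul_eq_mul, map_mul, map_mul]
  ring

/-- MODULE N5 (Gens.lean): `Q i * X a ^ (D - d i)` for homogeneous generators `Q i` of `I`, of degree `d i ≤ D` -/
theorem exists_gens [P.IsPrime] {I : Ideal (MvPolynomial (Fin (N + 1)) ℂ)} (hX : ∃ i, (X i : MvPolynomial (Fin (N + 1)) ℂ) ∉ P) (hI : Homog I)
    (hne : ¬ I ≤ P) :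
    ∃ (t D : ℕ) (R' : Fin t → MvPolynomial (Fin (N + 1)) ℂ), (∀ l, (R' l).IsHomogeneous D) ∧ (∀ l, R' l ∈ I) ∧ (∃ l, R' l ∉ P) ∧
      ∀ x : Fin (N + 1) → ℂ, x ≠ 0 → (∀ l, eval x (R' l) = 0) → (∀ Q ∈ I, eval x Q = 0) ∧
        ∀ v : Fin (N + 1) → ℂ, (∀ l, ∑ i, v i * eval x (pderiv i (R' l)) = 0) → v ∈ conTan I x := by
  classical
  obtain ⟨s, hs⟩ := (isNoetherianRing_iff_ideal_fg _).1 (inferInstance : IsNoetherianRing (MvPolynomial (Fin (N + 1)) ℂ)) I
  have hsI : ∀ f ∈ s, f ∈ I := fun f hf => hs ▸ Ideal.subset_span hf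
  obtain ⟨D, hD⟩ : ∃ D : ℕ, ∀ f ∈ s, f.totalDegree ≤ D := ⟨s.sup totalDegree, fun f hf => Finset.le_sup (f := totalDegree) hf⟩
  -- the homogeneous generators
  obtain ⟨Q, hQ⟩ : ∃ Q : s × Fin (D + 1) → MvPolynomial (Fin (N + 1)) ℂ, Q = fun p => homogeneousComponent (p.2 : ℕ) (p.1 : MvPolynomial (Fin (N + 1)) ℂ) :=
    ⟨_, rfl⟩
  have hQI : ∀ p, Q p ∈ I := fun p => by
    rw [hQ]
    exact hI _ (hsI _ p.1.2) _
  have hQhom : ∀ p, (Q p).IsHomogeneous (p.2 : ℕ) := fun p => by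
    rw [hQ]
    exact homogeneousComponent_isHomogeneous _ _
  have hspan : I ≤ Ideal.span (Set.range Q) := by
    rw [← hs, Ideal.span_le]
    intro f hf
    have h1 := sum_homogeneousComponent f
    rw [SetLike.mem_coe, ← h1]
    refine Ideal.sum_mem _ fun n hn => Ideal.subset_span ?_
    have h2 : n < D + 1 := (Finset.mem_range.1 hn).trans_le (Nat.succ_le_succ (hD f hf))
    exact ⟨(⟨f, hf⟩, ⟨n, h2⟩), by rw [hQ]⟩
  obtain ⟨R, hR⟩ : ∃ R : (s × Fin (D + 1)) × Fin (N + 1) → MvPolynomial (Fin (N + 1)) ℂ, R = fun q => Q q.1 * X q.2 ^ (D - (q.1.2 : ℕ)) := ⟨_, rfl⟩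
  obtain ⟨e⟩ : Nonempty ((s × Fin (D + 1)) × Fin (N + 1) ≃ Fin (Fintype.card ((s × Fin (D + 1)) × Fin (N + 1)))) := ⟨Fintype.equivFin _⟩
  refine ⟨_, D, fun l => R (e.symm l), fun l => ?_, fun l => ?_, ?_, fun x hx h0 => ?_⟩
  · obtain ⟨q, hq⟩ : ∃ q, q = e.symm l := ⟨_, rfl⟩
    show (R (e.symm l)).IsHomogeneous D
    rw [← hq, hR]
    have h1 : (q.1.2 : ℕ) + (D - (q.1.2 : ℕ)) = D := Nat.add_sub_cancel' (Nat.lt_succ_iff.1 q.1.2.2)
    have h2 := (hQhom q.1).mul ((isHomogeneous_X ℂ q.2).pow (D - (q.1.2 : ℕ)))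
    rw [one_mul, h1] at h2
    exact h2
  · show R (e.symm l) ∈ I
    rw [hR]
    exact I.mul_mem_right _ (hQI _)
  · by_contra hcon
    push Not at hcon
    obtain ⟨a, ha⟩ := hX
    refine hne (hspan.trans (Ideal.span_le.2 ?_))
    rintro _ ⟨p, rfl⟩
    have h1 := hcon (e (p, a))
    simp only [e.symm_apply_apply, hR] at h1
    exact (Ideal.IsPrime.mem_or_mem inferInstance h1).resolve_right fun h2 => ha (Ideal.IsPrime.mem_of_pow_mem inferInstance _ h2)
  · obtain ⟨a, ha⟩ : ∃ a, x a ≠ 0 := by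
      by_contra hcon
      push Not at hcon
      exact hx (funext hcon)
    have h1 : ∀ p, eval x (Q p) = 0 := by
      intro p
      have h2 := h0 (e (p, a))
      simp only [e.symm_apply_apply, hR, map_mul, map_pow, eval_X] at h2
      exact (mul_eq_zero.1 h2).resolve_right (pow_ne_zero _ ha)
    have h2 : ∀ G ∈ I, eval x G = 0 := by
      intro G hG
      have h3 : Ideal.span (Set.range Q) ≤ RingHom.ker (eval x) := Ideal.span_le.2 (by
        rintro _ ⟨p, rfl⟩
        exact h1 p)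
      exact h3 (hspan hG)
    refine ⟨h2, fun v hv => ?_⟩
    have h3 : ∀ p, ∑ i, v i * eval x (pderiv i (Q p)) = 0 := by
      intro p
      have h4 := hv (e (p, a))
      simp only [e.symm_apply_apply, hR] at h4
      rw [Gens_mul, h1 p, zero_mul, add_zero, map_pow, eval_X] at h4
      exact (mul_eq_zero.1 h4).resolve_right (pow_ne_zero _ ha)
    intro G hG
    have h5 : ∀ f ∈ Ideal.span (Set.range Q), f ∈ I := fun f hf => (Ideal.span_le.2 (by
      rintro _ ⟨p, rfl⟩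
      exact hQI p) : Ideal.span (Set.range Q) ≤ I) hf
    have h4 : G ∈ Ideal.span (Set.range Q) := hspan hG
    clear hG
    induction h4 using Submodule.span_induction with
    | mem G hG' =>
      obtain ⟨p, rfl⟩ := hG'
      exact h3 p
    | zero => simp
    | add f g hf hg ihf ihg =>
      simp only [map_add, mul_add, Finset.sum_add_distrib, ihf, ihg, add_zero]
    | smul c f hf ihf =>
      rw [smul_eq_mul, Gens_mul, ihf, h2 f (h5 f hf), mul_zero, mul_zero, add_zero]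

end Pool.Agent.SR3
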