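import Pool.Agent.SR3.NC.NulM
import Pool.Agent.SR3.NC.Pt
import Pool.Agent.SR3.NC.FinZ
import Pool.Agent.SR3.NC.Cur
import Pool.Agent.SR3.NCcA
import Pool.Agent.SR3.Gens
import Pool.Agent.H17BP.Final

/-!
# SR3 NCu (MODULE H14): from `the null curves of order two lie in {R = 0}' to the data `NullCurve'

The ideals `mapIdeal f` of the null curves `f` of order two are finitely many homogeneous primes `J` of dimension one, `R'` are forms which generate their
intersection `I` up to powers of the coordinates.  Outside a finite set, a common zero `x` of the `R'` lies in exactly one of the curves and the tangent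
vectors of `I` at `x` are those of `J`, spanned by `x` and `t (x)`; `W (x, t (x))` vanishes on the curve.
-/

set_option autoImplicit false

open Topology Filter Metric MvPolynomial

noncomputable section

namespace Pool.Agent.SR3

open Pool.Agent.SR3.NC
open Pool.Agent.H36.BP (EN)
open Pool.Agent.H17 (PN VanishesAt HolomorphicInto)
open Pool.Agent.H62.FC (Homog)
open Pool.Agent.H17LG.Variety (FunField)
open Pool.Agent.H17EF (projVar coneE mk_mem_projVar)
open Pool.Agent.H17GT (coordFun functionField)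
open Pool.Agent.H17R (coordFun_ne_zero_iff)
open Pool.Agent.H13.SM (conTan cone Inv_hasFDerivAt_eval)
open Pool.Agent.H13.OT (OrderTwo)
open Pool.Agent.H17BP (mapIdeal mapIdeal_homog mem_mapIdeal_form vanishesAt_mk)
open Pool.Agent.AD (SymDiff TangentTo)
open Pool.Agent.AD.NC (IsSmooth)
open Pool.Agent.H14.PP (Tan)

variable {N : ℕ} {P : Ideal (MvPolynomial (Fin (N + 1)) ℂ)} {H : MvPolynomial (Fin (N + 1)) ℂ} {h : ℕ}

/-- a form which is in all the ideals except `J` -/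
private theorem ncu_sep {J : Ideal (MvPolynomial (Fin (N + 1)) ℂ)} [hJ : J.IsPrime] {T : Set (Ideal (MvPolynomial (Fin (N + 1)) ℂ))} (hT : T.Finite)
    (hh : ∀ J' ∈ T, Homog J') (hn : ∀ J' ∈ T, J' ≠ J → ¬ J' ≤ J) :
    ∃ (K : MvPolynomial (Fin (N + 1)) ℂ) (n : ℕ), K.IsHomogeneous n ∧ K ∉ J ∧ ∀ J' ∈ T, J' ≠ J → K ∈ J' := by
  classical
  induction T, hT using Set.Finite.induction_on with
  | empty => exact ⟨1, 0, isHomogeneous_one _ _, fun h => hJ.ne_top ((Ideal.eq_top_iff_one J).2 h), fun J' h => absurd h (Set.notMem_empty _)⟩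
  | @insert a T _ _ ih =>
    obtain ⟨K, n, hK, hKJ, hK'⟩ := ih (fun J' h => hh J' (Set.mem_insert_of_mem _ h)) (fun J' h => hn J' (Set.mem_insert_of_mem _ h))
    by_cases haJ : a = J
    · refine ⟨K, n, hK, hKJ, ?_⟩
      rintro J' (rfl | hJ') hne
      · exact absurd haJ hne
      · exact hK' J' hJ' hne
    · have h1 := hn a (Set.mem_insert _ _) haJ
      obtain ⟨q, hqa, hqJ⟩ := Set.not_subset.1 h1
      obtain ⟨i, hi⟩ : ∃ i, homogeneousComponent i q ∉ J := by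
        by_contra hcon
        push Not at hcon
        apply hqJ
        rw [← MvPolynomial.sum_homogeneousComponent q]
        exact Ideal.sum_mem _ fun i _ => hcon i
      refine ⟨homogeneousComponent i q * K, i + n, (homogeneousComponent_isHomogeneous i q).mul hK, fun h => (hJ.mem_or_mem h).elim hi hKJ, ?_⟩
      rintro J' (rfl | hJ') hne
      · exact Ideal.mul_mem_right _ _ (hh _ (Set.mem_insert _ _) q hqa i)
      · exact Ideal.mul_mem_left _ _ (hK' J' hJ' hne)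

/-- a point of a finite intersection -/
private theorem ncu_point {T : Set (Ideal (MvPolynomial (Fin (N + 1)) ℂ))} (hT : T.Finite) {x : Fin (N + 1) → ℂ}
    (hx : ∀ Q ∈ sInf T, eval x Q = 0) : ∃ J ∈ T, ∀ Q ∈ J, eval x Q = 0 := by
  classical
  by_contra hcon
  push Not at hcon
  have key : ∀ S ⊆ T, ∃ q, (∀ J ∈ S, q ∈ J) ∧ eval x q ≠ 0 := by
    intro S hST
    have hS := hT.subset hST
    induction S, hS using Set.Finite.induction_on with
    | empty => exact ⟨1, fun J h => absurd h (Set.notMem_empty _), by simp⟩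
    | @insert a S _ _ ih =>
      obtain ⟨q, hq, hq0⟩ := ih fun J h => hST (Set.mem_insert_of_mem _ h)
      obtain ⟨r, hr, hr0⟩ := hcon a (hST (Set.mem_insert _ _))
      refine ⟨r * q, ?_, by rw [map_mul]; exact mul_ne_zero hr0 hq0⟩
      rintro J (rfl | hJ)
      · exact Ideal.mul_mem_right _ _ hr
      · exact Ideal.mul_mem_left _ _ (hq J hJ)
  obtain ⟨q, hq, hq0⟩ := key T subset_rfl
  exact hq0 (hx q (Submodule.mem_sInf.2 hq))

private theorem ncu_fderiv (Q : MvPolynomial (Fin (N + 1)) ℂ) (x v : EN N) :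
    fderiv ℂ (fun y : EN N => eval y.ofLp Q) x v = ∑ i, v i * eval x.ofLp (pderiv i Q) := by
  have h1 := Inv_hasFDerivAt_eval Q x.ofLp
  have h2 : HasFDerivAt (fun y : EN N => y.ofLp) ((EuclideanSpace.equiv (Fin (N + 1)) ℂ : EN N →L[ℂ] (Fin (N + 1) → ℂ))) x :=
    (EuclideanSpace.equiv (Fin (N + 1)) ℂ).hasFDerivAt
  have h3 : HasFDerivAt (fun y : EN N => eval y.ofLp Q)
      ((∑ i, eval x.ofLp (pderiv i Q) • (ContinuousLinearMap.proj i : (Fin (N + 1) → ℂ) →L[ℂ] ℂ)).comp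
        (EuclideanSpace.equiv (Fin (N + 1)) ℂ : EN N →L[ℂ] (Fin (N + 1) → ℂ))) x := h1.comp x h2
  rw [h3.fderiv]
  simp only [ContinuousLinearMap.comp_apply, sum_apply, smul_apply, ContinuousLinearMap.proj_apply, smul_eq_mul]
  exact Finset.sum_congr rfl fun i _ => mul_comm _ _

private theorem ncu_coord {Q : Ideal (MvPolynomial (Fin (N + 1)) ℂ)} [Q.IsPrime] {k : ℕ} {z : Fin (k + 1) → FunField Q}
    (hz : IsTranscendenceBasis ℂ z) : ∃ i, coordFun Q i ≠ 0 := by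
  by_contra hcon
  push Not at hcon
  have h1 : functionField Q = ⊥ := by
    rw [functionField, IntermediateField.adjoin_eq_bot_iff]
    rintro f ⟨i, j, rfl⟩
    rw [hcon i, zero_div]
    exact zero_mem _
  have h2 : Transcendental ℂ (z 0) := hz.1.transcendental 0
  apply h2
  set y : functionField Q := z 0 with hy
  have h3 : (y : FractionRing (MvPolynomial (Fin (N + 1)) ℂ ⧸ Q)) ∈
      (⊥ : IntermediateField ℂ (FractionRing (MvPolynomial (Fin (N + 1)) ℂ ⧸ Q))) := by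
    rw [← h1]
    exact y.2
  obtain ⟨c, hc⟩ := IntermediateField.mem_bot.mp h3
  have h4 : y = algebraMap ℂ (functionField Q) c := Subtype.ext hc.symm
  have h5 : IsAlgebraic ℂ y := by
    rw [h4]
    exact isAlgebraic_algebraMap c
  exact h5

theorem exists_nullCurve [P.IsPrime] {z : Fin 2 → FunField P} (hP : Homog P) (hz : IsTranscendenceBasis ℂ z) (hsm : IsSmooth P 2)
    (hH : H.IsHomogeneous h) (h1 : 1 ≤ h) (hHP : H ∉ P) {s : ℕ} {m : Fin s → ℕ} (hs1 : 1 ≤ s) (hm : ∀ j, 1 ≤ m j) (θ : ∀ j, SymDiff (oc P H) (m j))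
    (hθ : ∀ j, IsAlg (θ j)) {R : MvPolynomial (Fin (N + 1)) ℂ} {d : ℕ} (hR : R.IsHomogeneous d) (hRP : R ∉ P)
    (hnull : ∀ f : ℂ → PN N, HolomorphicInto f Set.univ → OrderTwo f → (∀ z, f z ∈ projVar P ∧ ¬ VanishesAt H (f z)) → (∃ z w, f z ≠ f w) →
      (∀ j, TangentTo (θ j) f) → ∀ z, VanishesAt R (f z)) :
    ∃ (t : ℕ) (R' : Fin t → MvPolynomial (Fin (N + 1)) ℂ), NullCurve θ R' := by
  classical
  choose W r hW using hθ
  obtain ⟨T, hTdef⟩ : ∃ T : Set (Ideal (MvPolynomial (Fin (N + 1)) ℂ)), T = {J | ∃ f : ℂ → PN N, HolomorphicInto f Set.univ ∧ OrderTwo f ∧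
    (∀ z, f z ∈ projVar P ∧ ¬ VanishesAt H (f z)) ∧ (∃ z w, f z ≠ f w) ∧ (∀ j, TangentTo (θ j) f) ∧ J = mapIdeal f Set.univ} := ⟨_, rfl⟩
  have hcur : ∀ J ∈ T, ∃ f, CurveIn P R f ∧ (∀ z, f z ∈ projVar P ∧ ¬ VanishesAt H (f z)) ∧ (∀ j, TangentTo (θ j) f) ∧ J = mapIdeal f Set.univ := by
    intro J hJ
    rw [hTdef] at hJ
    obtain ⟨f, a1, a2, a3, a4, a5, rfl⟩ := hJ
    exact ⟨f, ⟨a1, a4, fun z => (a3 z).1, hnull f a1 a2 a3 a4 a5⟩, a3, a5, rfl⟩
  have hTfin : T.Finite := (finite_curves hP ⟨z, hz⟩ hR hRP).subset fun J hJ => by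
    obtain ⟨f, hf, -, -, rfl⟩ := hcur J hJ
    exact ⟨f, hf, rfl⟩
  have hThom : ∀ J ∈ T, Homog J := by
    intro J hJ
    obtain ⟨f, -, -, -, rfl⟩ := hcur J hJ
    exact mapIdeal_homog
  -- the data of one curve
  have hdat : ∀ J ∈ T, P ≤ J ∧ R ∈ J ∧ ∃ (G : MvPolynomial (Fin (N + 1)) ℂ) (t : Fin (N + 1) → MvPolynomial (Fin (N + 1)) ℂ)
      (K : MvPolynomial (Fin (N + 1)) ℂ) (n : ℕ), (G * K).IsHomogeneous n ∧ Tng J G t ∧ (∀ j, aeval (Sum.elim X t) (W j) ∈ J) ∧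
      (∀ J' ∈ T, J' ≠ J → K ∈ J') ∧ {p : PN N | p ∈ projVar J ∧ VanishesAt (G * K) p}.Finite := by
    intro J hJ
    obtain ⟨f, hf, hfP, hft, hJf⟩ := hcur J hJ
    have hp : J.IsPrime := by
      rw [hJf]
      exact curve_prime hf
    have hJz : ∃ z : Fin 1 → FunField J, IsTranscendenceBasis ℂ z := by
      subst hJf
      exact curve_trdeg hP ⟨z, hz⟩ hR hRP hf (curve_prime hf)
    have hPJ : P ≤ J := by
      rw [hJf]
      exact Pool.Agent.H17BP.le_mapIdeal hP fun z _ => ⟨hf.mem z, fun m => m.elim0⟩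
    have hRJ : R ∈ J := by
      rw [hJf]
      exact (mem_mapIdeal_form hR).2 fun z _ => hf.van z
    obtain ⟨z', hz'⟩ := hJz
    obtain ⟨G, g, t, e, hG, hGJ, -, -, ht⟩ := exists_tangent (hThom J hJ) hz'
    obtain ⟨K, n, hK, hKJ, hK'⟩ := ncu_sep (J := J) hTfin hThom fun J' hJ' hne hle => by
      obtain ⟨f', hf', -, -, hJf'⟩ := hcur J' hJ'
      apply hne
      rw [hJf, hJf'] at hle ⊢
      exact curve_eq hP ⟨z, hz⟩ hR hRP hf' hf hle
    refine ⟨hPJ, hRJ, G, t, K, g + n, hG.mul hK, ht, fun j => ?_, hK', ?_⟩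
    · have hG' : G ∉ mapIdeal f Set.univ := hJf ▸ hGJ
      have ht' : Tng (mapIdeal f Set.univ) G t := hJf ▸ ht
      rw [hJf]
      exact null_mem hP (hm j) (θ j) hH (hW j) hf.hol hfP hf.ne (hft j) hG' ht'
    · exact finite_zeros (hThom J hJ) ⟨z', hz'⟩ (hG.mul hK) fun h => (hp.mem_or_mem h).elim hGJ hKJ
  -- the forms
  have hIhom : Homog (sInf T) := by
    intro Q hQ n
    rw [Submodule.mem_sInf] at hQ ⊢
    exact fun J hJ => hThom J hJ Q (hQ J hJ) n
  have hIP : ¬ sInf T ≤ P := fun hle => hRP (hle (Submodule.mem_sInf.2 fun J hJ => (hdat J hJ).2.1))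
  obtain ⟨l, hl⟩ := ncu_coord (k := 1) hz
  obtain ⟨t, D, R', hhom, hmem, hneP, hpt⟩ := exists_gens (P := P) ⟨l, Pool.Agent.H17R.coordFun_ne_zero_iff.1 hl⟩ hIhom hIP
  refine ⟨t, R', ⟨⟨D, hhom⟩, hneP, ?_, ?_⟩⟩
  · intro f a1 a2 a3 a4 a5 l z
    have hJ : mapIdeal f Set.univ ∈ T := by
      rw [hTdef]
      exact ⟨f, a1, a2, a3, a4, a5, rfl⟩
    exact (mem_mapIdeal_form (hhom l)).1 (Submodule.mem_sInf.1 (hmem l) _ hJ) z (Set.mem_univ z)
  · have hdat2 : ∀ J : T, ∃ (G : MvPolynomial (Fin (N + 1)) ℂ) (t : Fin (N + 1) → MvPolynomial (Fin (N + 1)) ℂ)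
        (K : MvPolynomial (Fin (N + 1)) ℂ) (n : ℕ), (G * K).IsHomogeneous n ∧ Tng J.1 G t ∧ (∀ j, aeval (Sum.elim X t) (W j) ∈ J.1) ∧
        (∀ J' ∈ T, J' ≠ J.1 → K ∈ J') ∧ {p : PN N | p ∈ projVar J.1 ∧ VanishesAt (G * K) p}.Finite := fun J => (hdat J.1 J.2).2.2
    choose G t K n hGK hTng hWJ hKJ hfin using hdat2
    have hTF : Finite T := hTfin
    have hS : (⋃ J : T, {p : PN N | p ∈ projVar J.1 ∧ VanishesAt (G J * K J) p}).Finite := Set.finite_iUnion hfin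
    refine ⟨hS.toFinset, fun x hx hx0 hxS hxR v hv hdv j => ?_⟩
    rw [Set.Finite.mem_toFinset] at hxS
    obtain ⟨hxI, hvI⟩ := hpt x.ofLp hx0 hxR
    have hvI' := hvI v.ofLp fun l => by
      rw [← ncu_fderiv]
      exact hdv l
    obtain ⟨J, hJ, hxJ⟩ := ncu_point hTfin hxI
    have hmk : Projectivization.mk ℂ x.ofLp hx0 ∈ projVar J := (mk_mem_projVar (hThom J hJ) hx0).2 ⟨hx0, hxJ⟩
    have hne : eval x.ofLp (G ⟨J, hJ⟩ * K ⟨J, hJ⟩) ≠ 0 := by
      intro h0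
      apply hxS
      rw [Set.mem_iUnion]
      exact ⟨⟨J, hJ⟩, hmk, (vanishesAt_mk (hGK ⟨J, hJ⟩) hx0).2 h0⟩
    rw [map_mul] at hne
    have hG0 := left_ne_zero_of_mul hne
    have hK0 := right_ne_zero_of_mul hne
    have hvJ : v.ofLp ∈ conTan J x.ofLp := by
      intro Q hQ
      have hKQ : K ⟨J, hJ⟩ * Q ∈ sInf T := by
        rw [Submodule.mem_sInf]
        intro J' hJ'
        by_cases hJJ : J' = J
        · rw [hJJ]
          exact Ideal.mul_mem_left _ _ hQ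
        · exact Ideal.mul_mem_right _ _ (hKJ ⟨J, hJ⟩ J' hJ' hJJ)
      have h3 := hvI' _ hKQ
      have h4 : ∀ i, eval x.ofLp (pderiv i (K ⟨J, hJ⟩ * Q)) = eval x.ofLp (K ⟨J, hJ⟩) * eval x.ofLp (pderiv i Q) := by
        intro i
        rw [Derivation.leibniz, smul_eq_mul, smul_eq_mul, map_add, map_mul, map_mul, hxJ Q hQ, zero_mul, add_zero]
      simp only [h4] at h3
      have h5 : eval x.ofLp (K ⟨J, hJ⟩) * ∑ i, v.ofLp i * eval x.ofLp (pderiv i Q) = 0 := by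
        rw [Finset.mul_sum, ← h3]
        exact Finset.sum_congr rfl fun i _ => by ring
      exact (mul_eq_zero.1 h5).resolve_left hK0
    exact null_at hP hz hsm (hdat J hJ).1 (hm j) (θ j) (hW j) (hTng ⟨J, hJ⟩) (hWJ ⟨J, hJ⟩ j) hx hxJ hG0 hvJ

end Pool.Agent.SR3
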