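import Pool.Agent.SR3.ABas
import Pool.Agent.SR3.EGDefs
import Pool.Agent.MQ.Fub

/-!
# SR3 EGa: block E, the second derivatives of `lam i` along a curve
-/

set_option autoImplicit false

open Topology Filter Metric InnerProductSpace Laplacian

noncomputable section

namespace Pool.Agent.SR3

open Pool.Agent.H36.BP (EN fs)
open Pool.Agent.SDR (gc)

variable {N : ℕ} {G : Geo N}

theorem gc_conj (u : ℂ → ℝ) (z : ℂ) : gc u z = (starRingEnd ℂ) (Pool.Agent.MQ.gr u z) := by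
  unfold gc Pool.Agent.MQ.gr
  apply Complex.ext <;> simp

theorem log_c2 {M : ℕ} {F : ℂ → EN M} {z : ℂ} (hF : AnalyticAt ℂ F z) (h0 : F z ≠ 0) :
    ContDiffAt ℝ 2 (fun w => Real.log ‖F w‖) z ∧ Δ (fun w => Real.log ‖F w‖) z = 2 * fs (F z) (deriv F z) ^ 2 ∧
      gc (fun w => Real.log ‖F w‖) z = inner ℂ (F z) (deriv F z) / (‖F z‖ : ℂ) ^ 2 := by
  have h1 := Pool.Agent.MQ.lap_log_norm hF h0
  refine ⟨h1.1, h1.2, ?_⟩
  rw [gc_conj, Pool.Agent.MQ.gr_log_normV hF.differentiableAt.hasDerivAt h0, map_mul, Complex.conj_conj, Complex.conj_ofReal]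
  push_cast
  rw [div_eq_mul_inv, mul_comm]

theorem gc_const_mul {u : ℂ → ℝ} {z : ℂ} (hu : DifferentiableAt ℝ u z) (c : ℝ) : gc (fun w => c * u w) z = (c : ℂ) * gc u z := by
  have h : fderiv ℝ (fun w => c * u w) z = c • fderiv ℝ u z := fderiv_const_mul hu c
  unfold gc
  rw [h]
  simp
  ring

/-- MODULE EGa. -/
theorem lam_c2 (hG : G.Ok) : ∃ B : ℝ, 0 ≤ B ∧ ∀ (i : G.ι) (F : ℂ → EN N) (z : ℂ), AnalyticAt ℂ F z → (∀ᶠ w in 𝓝 z, F w ∈ G.K) →
    ContDiffAt ℝ 2 (fun w => G.lam i (F w)) z ∧ |Δ (fun w => G.lam i (F w)) z| ≤ B * fs (F z) (deriv F z) ^ 2 ∧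
      gc (fun w => G.lam i (F w)) z = - G.ell i (F z) (deriv F z) := by
  obtain ⟨C, hC, hfs⟩ := hG.fsE
  refine ⟨2 * (∑ i, (G.c i : ℝ)) + 2 * C ^ 2, by positivity, fun i F z hF hK => ?_⟩
  have hz : F z ∈ G.K := hK.self_of_nhds
  have h0 : F z ≠ 0 := ne0 hG hz
  have hE0 : G.E i (F z) ≠ 0 := hG.neE i _ hz
  have hEF : AnalyticAt ℂ (fun w => G.E i (F w)) z := (hG.anE i (F z)).comp hF
  have hd : deriv (fun w => G.E i (F w)) z = fderiv ℂ (G.E i) (F z) (deriv F z) :=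
    ((hG.anE i (F z)).differentiableAt.hasFDerivAt.comp_hasDerivAt z hF.differentiableAt.hasDerivAt).deriv
  obtain ⟨a1, a2, a3⟩ := log_c2 hF h0
  obtain ⟨b1, b2, b3⟩ := log_c2 hEF hE0
  rw [hd] at b2 b3
  have hT := tan_at hG hF hK
  have hc1 : ContDiffAt ℝ 2 (fun w => (G.c i : ℝ) * Real.log ‖F w‖) z := contDiffAt_const.mul a1
  have e1 : Δ (fun w => (G.c i : ℝ) * Real.log ‖F w‖) z = (G.c i : ℝ) * (2 * fs (F z) (deriv F z) ^ 2) := by
    have := laplacian_smul (G.c i : ℝ) a1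
    rw [a2] at this
    exact this
  have e2 : Δ (fun w => G.lam i (F w)) z = (G.c i : ℝ) * (2 * fs (F z) (deriv F z) ^ 2) -
      2 * fs (G.E i (F z)) (fderiv ℂ (G.E i) (F z) (deriv F z)) ^ 2 := by
    have := hc1.laplacian_sub b1
    rw [e1, b2] at this
    exact this
  have hd1 : DifferentiableAt ℝ (fun w => Real.log ‖F w‖) z := a1.differentiableAt two_ne_zero
  have hd2 : DifferentiableAt ℝ (fun w => Real.log ‖G.E i (F w)‖) z := b1.differentiableAt two_ne_zero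
  refine ⟨hc1.sub b1, ?_, ?_⟩
  · rw [e2]
    have f0 : 0 ≤ fs (F z) (deriv F z) := Pool.Agent.H36.BP.fs_nonneg _ _
    have f1 : 0 ≤ fs (G.E i (F z)) (fderiv ℂ (G.E i) (F z) (deriv F z)) := Pool.Agent.H36.BP.fs_nonneg _ _
    have f2 := hfs i (F z) hz (deriv F z) hT
    have f3 : fs (G.E i (F z)) (fderiv ℂ (G.E i) (F z) (deriv F z)) ^ 2 ≤ C ^ 2 * fs (F z) (deriv F z) ^ 2 := by
      rw [← mul_pow]
      exact pow_le_pow_left₀ f1 f2 2
    have f4 : (G.c i : ℝ) ≤ ∑ i, (G.c i : ℝ) :=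
      Finset.single_le_sum (f := fun i => (G.c i : ℝ)) (fun _ _ => Nat.cast_nonneg _) (Finset.mem_univ i)
    have f5 : (G.c i : ℝ) * fs (F z) (deriv F z) ^ 2 ≤ (∑ i, (G.c i : ℝ)) * fs (F z) (deriv F z) ^ 2 :=
      mul_le_mul_of_nonneg_right f4 (sq_nonneg _)
    have f6 : 0 ≤ (G.c i : ℝ) * fs (F z) (deriv F z) ^ 2 := by positivity
    have f7 : 0 ≤ fs (G.E i (F z)) (fderiv ℂ (G.E i) (F z) (deriv F z)) ^ 2 := sq_nonneg _
    have f8 : 0 ≤ C ^ 2 * fs (F z) (deriv F z) ^ 2 := by positivity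
    rw [abs_le]
    constructor <;> nlinarith
  · have g1 : gc (fun w => G.lam i (F w)) z = gc (fun w => (G.c i : ℝ) * Real.log ‖F w‖) z - gc (fun w => Real.log ‖G.E i (F w)‖) z :=
      Pool.Agent.SDR.gc_sub (hd1.const_mul _) hd2
    rw [g1, gc_const_mul hd1, a3, b3]
    unfold Geo.ell
    push_cast
    ring

end Pool.Agent.SR3
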