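import Pool.Agent.SR3.ALam
import Pool.Agent.SR3.AGd
import Pool.Agent.SR3.AGrw
import Pool.Agent.SR3.ALow
import Pool.Agent.SR3.ASpd
import Pool.Agent.SR3.EGa
import Pool.Agent.SR3.EGDefs

/-!
# SR3 EGb: the family of the curves of the class satisfies the hypotheses of block E
-/

set_option autoImplicit false

open Topology Filter Metric InnerProductSpace Laplacian

noncomputable section

namespace Pool.Agent.SR3

open Pool.Agent.H36.BP (EN fs)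
open Pool.Agent.SDR (gc)
open Pool.Agent.SR3.BE (Fam Hyp Fit AllFlat Rel ht vee)

variable {N : ℕ} {G : Geo N} {T : Set (EN N)} {rho : EN N → ℝ} {M : ℕ} {c₀ C δ : ℝ} {g : (ℂ → EN N) → ℂ → ℝ}

theorem eHyp (S : Base G T rho M c₀ C δ g) : ∃ B₀ C₁ c₁ R₁ : ℝ, ∀ C₂ R₂ : ℝ, C₁ ≤ C₂ → R₁ ≤ R₂ → Hyp (eFam G T rho δ B₀) C₂ c₁ R₂ := by
  classical
  obtain ⟨B₀, hB₀, hlow⟩ := lam_lowerA S.ok
  obtain ⟨B₁, hB₁, hup⟩ := lam_upperA S.ok
  obtain ⟨B₂, hB₂, hgr⟩ := growth S.ok S.met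
  obtain ⟨c', B₃, hc', hlw⟩ := lower S
  obtain ⟨B₄, R₄, hB₄, hR₄, hsp⟩ := speed S
  obtain ⟨B₅, hB₅, hc2⟩ := lam_c2 S.ok
  have hh : (1 : ℝ) ≤ G.h := by exact_mod_cast S.ok.aff.pos ()
  set bm : ℝ := 1 + ∑ i, (G.b i : ℝ) with hbm
  have hbi : ∀ i, (G.b i : ℝ) ≤ bm := by
    intro i
    have h1 : (G.b i : ℝ) ≤ ∑ i, (G.b i : ℝ) := Finset.single_le_sum (f := fun i => (G.b i : ℝ)) (fun _ _ => Nat.cast_nonneg _) (Finset.mem_univ i)
    linarith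
  have hbm1 : 1 ≤ bm := by
    have h1 : 0 ≤ ∑ i, (G.b i : ℝ) := Finset.sum_nonneg fun _ _ => Nat.cast_nonneg _
    linarith
  refine ⟨B₀, max 1 (max (G.h * B₂ + B₁ + B₀) (B₅ * B₄ ^ 2)), G.h * c' / (2 * bm), max 1 (max R₄ ((2 * (G.h * B₃ + B₁)) / (G.h * c'))),
    fun C₂ R₂ hC₂ hR₂ => ?_⟩
  have hC1 : 1 ≤ C₂ := (le_max_left _ _).trans hC₂
  have hC2 : G.h * B₂ + B₁ + B₀ ≤ C₂ := ((le_max_left _ _).trans (le_max_right _ _)).trans hC₂
  have hC3 : B₅ * B₄ ^ 2 ≤ C₂ := ((le_max_right _ _).trans (le_max_right _ _)).trans hC₂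
  have hR1 : 1 ≤ R₂ := (le_max_left _ _).trans hR₂
  have hR2 : R₄ ≤ R₂ := ((le_max_left _ _).trans (le_max_right _ _)).trans hR₂
  have hR3 : (2 * (G.h * B₃ + B₁)) / (G.h * c') ≤ R₂ := ((le_max_right _ _).trans (le_max_right _ _)).trans hR₂
  have hhc : 0 < G.h * c' := by positivity
  have hK : ∀ (x : ECl G T) z, x.1.2 z ∈ G.K := fun x z => x.2.ent.mem z
  have hD : ∀ (x : ECl G T), Differentiable ℂ x.1.2 := fun x => x.2.ent.diff
  have hd0 : ∀ (x : ECl G T) z, 0 ≤ (eFam G T rho δ B₀).d x z := fun x z => infDist_nonneg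
  refine ⟨hC1, by positivity, hR1, fun x => exists_good S.ok S.met x.2, fun x i z => ?_, fun x i z => ?_, fun x z hz => ?_, fun x i z hz => ?_, fun x i z hz => ?_⟩
  · have h1 := hlow i _ (hK x z)
    show 0 ≤ G.lam i (x.1.2 z) + B₀
    linarith
  · have h1 := (hup _ (hK x z) (x.2.nm z)).1 i
    have h2 := hgr _ _ x.2 z
    show G.lam i (x.1.2 z) + B₀ ≤ C₂ * (1 + infDist z (Geo.Gd rho δ x.1.2))
    have h3 : 0 ≤ infDist z (Geo.Gd rho δ x.1.2) := infDist_nonneg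
    have h4 : (G.h : ℝ) * Real.log ‖x.1.2 z‖ ≤ G.h * (B₂ * (1 + infDist z (Geo.Gd rho δ x.1.2))) := mul_le_mul_of_nonneg_left h2 (by linarith)
    have h5 : (G.h * B₂ + B₁ + B₀) * (1 + infDist z (Geo.Gd rho δ x.1.2)) ≤ C₂ * (1 + infDist z (Geo.Gd rho δ x.1.2)) :=
      mul_le_mul_of_nonneg_right hC2 (by linarith)
    nlinarith
  · have h1 := hlw _ _ x.2 z
    have h2 := (hup _ (hK x z) (x.2.nm z)).2.1
    have h3 : ∑ i, G.b i * G.lam i (x.1.2 z) ≤ bm * ∑ i, (G.lam i (x.1.2 z) + B₀) := by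
      rw [Finset.mul_sum]
      refine Finset.sum_le_sum fun i _ => ?_
      have h4 := hlow i _ (hK x z)
      have h5 : (G.b i : ℝ) * (G.lam i (x.1.2 z) + B₀) ≤ bm * (G.lam i (x.1.2 z) + B₀) := mul_le_mul_of_nonneg_right (hbi i) (by linarith)
      have h6 : 0 ≤ (G.b i : ℝ) * B₀ := by positivity
      nlinarith
    show G.h * c' / (2 * bm) * infDist z (Geo.Gd rho δ x.1.2) ≤ ∑ i, (G.lam i (x.1.2 z) + B₀)
    have hz' : R₂ ≤ infDist z (Geo.Gd rho δ x.1.2) := hz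
    have h7 : 2 * (G.h * B₃ + B₁) ≤ infDist z (Geo.Gd rho δ x.1.2) * (G.h * c') := by
      rw [← div_le_iff₀ hhc]
      exact hR3.trans hz'
    have h8 : (G.h : ℝ) * (c' * infDist z (Geo.Gd rho δ x.1.2) - B₃) ≤ G.h * Real.log ‖x.1.2 z‖ := mul_le_mul_of_nonneg_left h1 (by linarith)
    have h9 : G.h * c' * infDist z (Geo.Gd rho δ x.1.2) / 2 ≤ bm * ∑ i, (G.lam i (x.1.2 z) + B₀) := by nlinarith
    rw [show G.h * c' / (2 * bm) * infDist z (Geo.Gd rho δ x.1.2) = (G.h * c' * infDist z (Geo.Gd rho δ x.1.2) / 2) / bm by field_simp,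
      div_le_iff₀ (by linarith)]
    linarith
  · have h1 := (hc2 i x.1.2 z ((hD x).analyticAt z) (Eventually.of_forall fun w => hK x w)).1
    exact h1.add contDiffAt_const
  · obtain ⟨h1, h2, -⟩ := hc2 i x.1.2 z ((hD x).analyticAt z) (Eventually.of_forall fun w => hK x w)
    have h3 : Δ ((eFam G T rho δ B₀).lam x i) z = Δ (fun w => G.lam i (x.1.2 w)) z := by
      have h4 : (eFam G T rho δ B₀).lam x i = (fun w => G.lam i (x.1.2 w)) + fun _ => B₀ := rfl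
      rw [h4, h1.laplacian_add contDiffAt_const]
      simp
    rw [h3]
    have hz' : R₂ ≤ infDist z (Geo.Gd rho δ x.1.2) := hz
    have h5 := hsp _ _ x.2 z (hR2.trans hz')
    have h6 : 0 < infDist z (Geo.Gd rho δ x.1.2) := by linarith
    have h7 : 0 ≤ fs (x.1.2 z) (deriv x.1.2 z) := Pool.Agent.H36.BP.fs_nonneg _ _
    calc |Δ (fun w => G.lam i (x.1.2 w)) z| ≤ B₅ * fs (x.1.2 z) (deriv x.1.2 z) ^ 2 := h2
      _ ≤ B₅ * (B₄ / infDist z (Geo.Gd rho δ x.1.2)) ^ 2 := mul_le_mul_of_nonneg_left (pow_le_pow_left₀ h7 h5 2) hB₅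
      _ = B₅ * B₄ ^ 2 / infDist z (Geo.Gd rho δ x.1.2) ^ 2 := by rw [div_pow, mul_div_assoc]
      _ ≤ C₂ / infDist z (Geo.Gd rho δ x.1.2) ^ 2 := div_le_div_of_nonneg_right hC3 (by positivity)

end Pool.Agent.SR3
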