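import Pool.Agent.SR3.ARad
import Pool.Agent.SDA.F0
import Pool.Agent.H36.BP.MaxP

/-!
# SR3 ZDisc: a logarithmic gain

`v` is subharmonic for the logarithm on the disc with centre `r` and radius `r`, with a bounded error in a neighbourhood of width one of the circle, and
`v z ≤ exp (A - c |Im z| + B (2 + |z|) ^ γ)`.  Then `v 1 ≤ exp (A' - c / 3 log r)`.  Comparison with the real part of
`(c / 3) (z log z - log (2 r) z) + B' (z + 2) ^ γ`.
-/

set_option autoImplicit false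

open Topology Filter Metric

noncomputable section

namespace Pool.Agent.SR3

open Pool.Agent.H36.BP (Sub Sub.anti Sub.mul Sub.congr Sub.of_holo Sub.exp_sq max_principle)

/-- on the circle `|z - r| = r` -/
private theorem zd_circle {r : ℝ} {z : ℂ} (h : ‖z - r‖ = r) : ‖z‖ ^ 2 = 2 * r * z.re := by
  have h1 : ‖z - r‖ ^ 2 = r ^ 2 := by rw [h]
  rw [← Complex.normSq_eq_norm_sq, Complex.normSq_apply] at h1 ⊢
  simp only [Complex.sub_re, Complex.ofReal_re, Complex.sub_im, Complex.ofReal_im, sub_zero] at h1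
  nlinarith

private theorem zd_log_re (z : ℂ) : (z * Complex.log z).re = z.re * Real.log ‖z‖ - z.im * Complex.arg z := by
  rw [Complex.mul_re, Complex.log_re, Complex.log_im]

/-- the boundary values of the first part -/
private theorem zd_bdy {r : ℝ} (hr : 0 < r) {z : ℂ} (h : ‖z - r‖ = r) :
    -(3 * |z.im|) ≤ (z * Complex.log z).re - Real.log (2 * r) * z.re := by
  have h1 := zd_circle h
  have h2 : 0 ≤ z.re := by
    have : 0 ≤ 2 * r * z.re := by rw [← h1]; positivity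
    by_contra hc
    push Not at hc
    nlinarith
  rw [zd_log_re]
  have h3 : |Complex.arg z| ≤ Real.pi / 2 := Complex.abs_arg_le_pi_div_two_iff.2 h2
  have h4 : z.im * Complex.arg z ≤ 2 * |z.im| := by
    refine (le_abs_self _).trans ?_
    rw [abs_mul, mul_comm]
    refine mul_le_mul_of_nonneg_right (h3.trans ?_) (abs_nonneg _)
    linarith [Real.pi_lt_four]
  rcases eq_or_ne z 0 with h0 | h0
  · rw [h0]; simp
  have hz : 0 < ‖z‖ := norm_pos_iff.2 h0
  -- `log (2 r / |z|) ≤ 2 r / |z| - 1`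
  have h5 : Real.log (2 * r) - Real.log ‖z‖ ≤ 2 * r / ‖z‖ - 1 := by
    rw [← Real.log_div (by positivity) hz.ne']
    exact Real.log_le_sub_one_of_pos (by positivity)
  have h6 : z.re * (Real.log (2 * r) - Real.log ‖z‖) ≤ z.re * (2 * r / ‖z‖ - 1) := mul_le_mul_of_nonneg_left h5 h2
  have h7 : z.re * (2 * r / ‖z‖ - 1) = ‖z‖ - z.re := by
    have : z.re * (2 * r / ‖z‖) = ‖z‖ := by
      rw [mul_div_assoc', div_eq_iff hz.ne']
      linarith
    rw [mul_sub, this, mul_one]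
  have h8 : ‖z‖ ≤ z.re + |z.im| := by
    have := Complex.norm_le_abs_re_add_abs_im z
    rwa [abs_of_nonneg h2] at this
  nlinarith

/-- the boundary values of the second part -/
private theorem zd_pow {γ : ℝ} (hγ : 0 < γ) (hγ1 : γ < 1) {z : ℂ} (h : 0 ≤ z.re) :
    (2 + ‖z‖) ^ γ * Real.cos (γ * (Real.pi / 2)) ≤ 2 * ((z + 2) ^ (γ : ℂ)).re := by
  have h0 : 0 ≤ (z + 2).re := by simp; linarith
  rw [Complex.cpow_ofReal_re]
  have h1 : |Complex.arg (z + 2)| ≤ Real.pi / 2 := Complex.abs_arg_le_pi_div_two_iff.2 h0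
  have h2 : Real.cos (γ * (Real.pi / 2)) ≤ Real.cos (Complex.arg (z + 2) * γ) := by
    rw [← Real.cos_abs (Complex.arg (z + 2) * γ), abs_mul, abs_of_pos hγ, mul_comm |_| γ]
    refine Real.cos_le_cos_of_nonneg_of_le_pi (by positivity) ?_ (mul_le_mul_of_nonneg_left h1 hγ.le)
    nlinarith [Real.pi_pos]
  have hc : 0 < Real.cos (γ * (Real.pi / 2)) := by
    refine Real.cos_pos_of_mem_Ioo ⟨?_, ?_⟩
    · nlinarith [Real.pi_pos]
    · nlinarith [Real.pi_pos]
  have h3 : (2 + ‖z‖) ≤ 2 * ‖z + 2‖ := by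
    have h4 : 2 ≤ ‖z + 2‖ := by
      refine le_trans ?_ (Complex.re_le_norm _)
      simp
      linarith
    have h5 : ‖z‖ ≤ ‖z + 2‖ := by
      rw [← sq_le_sq₀ (norm_nonneg _) (norm_nonneg _), ← Complex.normSq_eq_norm_sq, ← Complex.normSq_eq_norm_sq, Complex.normSq_apply,
        Complex.normSq_apply]
      simp
      nlinarith
    linarith
  have h4 : (2 + ‖z‖) ^ γ ≤ 2 * ‖z + 2‖ ^ γ := by
    refine (Real.rpow_le_rpow (by positivity) h3 hγ.le).trans ?_
    rw [Real.mul_rpow (by norm_num) (norm_nonneg _)]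
    refine mul_le_mul_of_nonneg_right ?_ (Real.rpow_nonneg (norm_nonneg _) _)
    calc (2 : ℝ) ^ γ ≤ 2 ^ (1 : ℝ) := Real.rpow_le_rpow_of_exponent_le (by norm_num) hγ1.le
      _ = 2 := Real.rpow_one 2
  calc (2 + ‖z‖) ^ γ * Real.cos (γ * (Real.pi / 2)) ≤ (2 * ‖z + 2‖ ^ γ) * Real.cos (Complex.arg (z + 2) * γ) :=
        mul_le_mul h4 h2 hc.le (by positivity)
    _ = 2 * (‖z + 2‖ ^ γ * Real.cos (Complex.arg (z + 2) * γ)) := by ring

private theorem zd_cont0 : ContinuousAt (fun z : ℂ => z * Complex.log z) 0 := by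
  have h0 : (0 : ℂ) * Complex.log 0 = 0 := by simp
  rw [ContinuousAt, h0, tendsto_zero_iff_norm_tendsto_zero]
  have h1 : Tendsto (fun z : ℂ => |‖z‖ * Real.log ‖z‖| + Real.pi * ‖z‖) (𝓝 0) (𝓝 0) := by
    have h2 : Continuous fun z : ℂ => |‖z‖ * Real.log ‖z‖| + Real.pi * ‖z‖ :=
      ((Real.continuous_mul_log.comp continuous_norm).abs).add (continuous_const.mul continuous_norm)
    have h3 := h2.tendsto 0
    simpa using h3
  refine squeeze_zero (fun z => norm_nonneg _) (fun z => ?_) h1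
  rw [norm_mul, abs_mul, abs_norm, ← mul_comm ‖z‖ Real.pi, ← mul_add]
  refine mul_le_mul_of_nonneg_left ?_ (norm_nonneg _)
  refine (Complex.norm_le_abs_re_add_abs_im _).trans ?_
  rw [Complex.log_re, Complex.log_im]
  linarith [Complex.abs_arg_le_pi z]

/-- the disc -/
private theorem zd_re {r : ℝ} (hr : 0 < r) {z : ℂ} (h : ‖z - r‖ ≤ r) : z = 0 ∨ 0 < z.re := by
  have h1 : ‖z - r‖ ^ 2 ≤ r ^ 2 := pow_le_pow_left₀ (norm_nonneg _) h 2
  rw [← Complex.normSq_eq_norm_sq, Complex.normSq_apply] at h1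
  simp only [Complex.sub_re, Complex.ofReal_re, Complex.sub_im, Complex.ofReal_im, sub_zero] at h1
  by_cases h2 : 0 < z.re
  · exact Or.inr h2
  · left
    push Not at h2
    have h3 : z.re * z.re + z.im * z.im ≤ 2 * r * z.re := by nlinarith
    have h4 : 2 * r * z.re ≤ 0 := by nlinarith
    have h5 : z.re * z.re = 0 := by nlinarith [mul_self_nonneg z.re, mul_self_nonneg z.im]
    have h6 : z.im * z.im = 0 := by nlinarith [mul_self_nonneg z.re, mul_self_nonneg z.im]
    exact Complex.ext (mul_self_eq_zero.1 h5) (mul_self_eq_zero.1 h6)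

theorem disc_gain {γ c k A B : ℝ} (hγ : 0 < γ) (hγ1 : γ < 1) (hc : 0 < c) (hk : 0 ≤ k) (hB : 0 ≤ B) :
    ∃ A' : ℝ, ∀ r : ℝ, 2 < r → ∀ v : ℂ → ℝ, UpperSemicontinuousOn v (closedBall (r : ℂ) r) → (∀ z, 0 ≤ v z) →
      (∀ z ∈ ball (r : ℂ) r, 0 < v z → Sub v z (-k)) → (∀ z ∈ ball (r : ℂ) (r - 1), 0 < v z → Sub v z 0) →
      (∀ z ∈ closedBall (r : ℂ) r, v z ≤ Real.exp (A - c * |z.im| + B * (2 + ‖z‖) ^ γ)) → v 1 ≤ Real.exp (A' - c / 3 * Real.log r) := by
  have hcos : 0 < Real.cos (γ * (Real.pi / 2)) := by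
    refine Real.cos_pos_of_mem_Ioo ⟨?_, ?_⟩
    · nlinarith [Real.pi_pos]
    · nlinarith [Real.pi_pos]
  obtain ⟨B₁, hB₁⟩ : ∃ B₁, B₁ = 2 * B / Real.cos (γ * (Real.pi / 2)) := ⟨_, rfl⟩
  have hB₁0 : 0 ≤ B₁ := by rw [hB₁]; positivity
  refine ⟨A + 8 * k + 4 + 3 * B₁, fun r hr v husc hv0 hs1 hs2 hle => ?_⟩
  have hr0 : 0 < r := by linarith
  -- the comparison function
  obtain ⟨H, hH⟩ : ∃ H : ℂ → ℂ, H = fun z => ((c / 3 : ℝ) : ℂ) * (z * Complex.log z - (Real.log (2 * r) : ℂ) * z) + (B₁ : ℂ) * (z + 2) ^ (γ : ℂ) :=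
    ⟨_, rfl⟩
  have hHre : ∀ z, (H z).re = c / 3 * ((z * Complex.log z).re - Real.log (2 * r) * z.re) + B₁ * ((z + 2) ^ (γ : ℂ)).re := by
    intro z
    rw [hH]
    simp only [Complex.add_re, Complex.re_ofReal_mul, Complex.sub_re]
  have hslit : ∀ z : ℂ, 0 ≤ z.re → z + 2 ∈ Complex.slitPlane := fun z hz => Or.inl (by simp; linarith)
  have hHan : ∀ z : ℂ, 0 < z.re → AnalyticAt ℂ H z := by
    intro z hz
    rw [hH]
    refine (analyticAt_const.mul ((analyticAt_id.mul (analyticAt_clog (Or.inl hz))).sub (analyticAt_const.mul analyticAt_id))).add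
      (analyticAt_const.mul ?_)
    exact (analyticAt_id.add analyticAt_const).cpow analyticAt_const (hslit z hz.le)
  have hHc : ContinuousOn H (closedBall (r : ℂ) r) := by
    intro z hz
    rw [mem_closedBall, dist_eq_norm] at hz
    rcases zd_re hr0 hz with h0 | h0
    · rw [h0]
      have h1 : ContinuousAt (fun z : ℂ => (z + 2) ^ (γ : ℂ)) 0 :=
        (((analyticAt_id (𝕜 := ℂ) (z := (0 : ℂ))).add analyticAt_const).cpow analyticAt_const (hslit 0 le_rfl)).continuousAt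
      have h2 : ContinuousAt H 0 := by
        rw [hH]
        exact (continuousAt_const.mul (zd_cont0.sub (continuousAt_const.mul continuousAt_id))).add (continuousAt_const.mul h1)
      exact h2.continuousWithinAt
    · exact (hHan z h0).continuousAt.continuousWithinAt
  have hHbdy : ∀ z : ℂ, ‖z - r‖ = r → -(c * |z.im|) + B * (2 + ‖z‖) ^ γ ≤ (H z).re := by
    intro z hz
    have hre : 0 ≤ z.re := by
      rcases zd_re hr0 hz.le with h0 | h0
      · rw [h0]; simp
      · exact h0.le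
    rw [hHre]
    have h1 := mul_le_mul_of_nonneg_left (zd_bdy hr0 hz) (by positivity : (0 : ℝ) ≤ c / 3)
    have h2 := mul_le_mul_of_nonneg_left (zd_pow hγ hγ1 hre) (by positivity : (0 : ℝ) ≤ B / Real.cos (γ * (Real.pi / 2)))
    have h3 : B / Real.cos (γ * (Real.pi / 2)) * ((2 + ‖z‖) ^ γ * Real.cos (γ * (Real.pi / 2))) = B * (2 + ‖z‖) ^ γ := by
      rw [mul_comm ((2 + ‖z‖) ^ γ), ← mul_assoc, div_mul_cancel₀ _ hcos.ne']
    have h4 : B / Real.cos (γ * (Real.pi / 2)) * (2 * ((z + 2) ^ (γ : ℂ)).re) = B₁ * ((z + 2) ^ (γ : ℂ)).re := by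
      rw [hB₁]; ring
    rw [h3, h4] at h2
    linarith
  -- the function
  obtain ⟨ε, hε⟩ : ∃ ε : ℝ, ε = 1 / r ^ 2 := ⟨_, rfl⟩
  have hε0 : 0 < ε := by rw [hε]; positivity
  obtain ⟨f, hf⟩ : ∃ f : ℂ → ℝ, f = fun z => ‖Complex.exp (-H z)‖ * (Real.exp (2 * k * max (‖z - r‖ - (r - 2)) 0 ^ 2) * Real.exp (ε * ‖z‖ ^ 2)) :=
    ⟨_, rfl⟩
  have hf0 : ∀ z, 0 < f z := fun z => by
    rw [hf]
    exact mul_pos (norm_pos_iff.2 (Complex.exp_ne_zero _)) (by positivity)
  have hfe : ∀ z, f z = Real.exp (-(H z).re + 2 * k * max (‖z - r‖ - (r - 2)) 0 ^ 2 + ε * ‖z‖ ^ 2) := fun z => by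
    rw [hf]
    show ‖Complex.exp (-H z)‖ * (Real.exp (2 * k * max (‖z - r‖ - (r - 2)) 0 ^ 2) * Real.exp (ε * ‖z‖ ^ 2)) = _
    rw [Complex.norm_exp, Complex.neg_re, ← Real.exp_add, ← Real.exp_add, add_assoc]
  have hfc : ContinuousOn f (closedBall (r : ℂ) r) := by
    rw [hf]
    refine (hHc.neg.cexp.norm).mul (Continuous.continuousOn ?_)
    fun_prop
  have huscf : UpperSemicontinuousOn (fun z => v z * f z) (closedBall (r : ℂ) r) := by
    intro z hz y hy
    have hy' : v z * f z < y := hy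
    have h1 : v z < y / f z := (lt_div_iff₀ (hf0 z)).2 hy'
    obtain ⟨a, ha1, ha2⟩ := exists_between h1
    have h2 : a * f z < y := (lt_div_iff₀ (hf0 z)).1 ha2
    have h3 : ∀ᶠ w in 𝓝[closedBall (r : ℂ) r] z, a * f w < y :=
      ((continuousWithinAt_const.mul (hfc z hz)).tendsto).eventually (gt_mem_nhds h2)
    filter_upwards [husc z hz a ha1, h3] with w hw1 hw2
    exact (mul_lt_mul_of_pos_right hw1 (hf0 w)).trans hw2
  have key := max_principle (isCompact_closedBall (r : ℂ) r) isOpen_ball ball_subset_closedBall (u := fun z => v z * f z) huscf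
    (fun z hz hvz => ?_) (Real.exp_pos (A + 8 * k + 4)).le (fun z hz => ?_) 1 ?_
  · have h1 : f 1 = Real.exp (-(H 1).re + 2 * k * max (‖(1 : ℂ) - r‖ - (r - 2)) 0 ^ 2 + ε * ‖(1 : ℂ)‖ ^ 2) := hfe 1
    have h2 : Real.exp (-(H 1).re) ≤ f 1 := by
      rw [h1, Real.exp_le_exp]
      have : 0 ≤ 2 * k * max (‖(1 : ℂ) - r‖ - (r - 2)) 0 ^ 2 + ε * ‖(1 : ℂ)‖ ^ 2 := by positivity
      linarith
    have h3 : v 1 * Real.exp (-(H 1).re) ≤ Real.exp (A + 8 * k + 4) := (mul_le_mul_of_nonneg_left h2 (hv0 1)).trans key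
    have h4 : (H 1).re ≤ 3 * B₁ - c / 3 * Real.log r := by
      rw [hHre]
      have h5 : (((1 : ℂ) + 2) ^ (γ : ℂ)).re ≤ 3 := by
        refine (Complex.re_le_norm _).trans ?_
        have h6 : (1 : ℂ) + 2 = ((3 : ℝ) : ℂ) := by push_cast; norm_num
        rw [h6, Complex.norm_cpow_eq_rpow_re_of_pos (by norm_num), Complex.ofReal_re]
        calc (3 : ℝ) ^ γ ≤ 3 ^ (1 : ℝ) := Real.rpow_le_rpow_of_exponent_le (by norm_num) hγ1.le
          _ = 3 := Real.rpow_one 3
      have h6 : Real.log (2 * r) = Real.log 2 + Real.log r := Real.log_mul (by norm_num) hr0.ne'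
      have h7 : 0 ≤ Real.log 2 := Real.log_nonneg (by norm_num)
      have h8 : (((1 : ℂ)) * Complex.log 1).re = 0 := by simp
      rw [h8, h6, Complex.one_re]
      have h9 := mul_le_mul_of_nonneg_left h5 hB₁0
      have h10 : 0 ≤ c / 3 * Real.log 2 := by positivity
      have h11 : c / 3 * (0 - (Real.log 2 + Real.log r) * 1) = -(c / 3 * Real.log 2) - c / 3 * Real.log r := by ring
      rw [h11]
      generalize (((1 : ℂ) + 2) ^ (γ : ℂ)).re = t at h9 ⊢
      linarith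
    have h5 : v 1 ≤ Real.exp (A + 8 * k + 4) * Real.exp ((H 1).re) := by
      have h6 : v 1 = v 1 * Real.exp (-(H 1).re) * Real.exp ((H 1).re) := by
        rw [mul_assoc, ← Real.exp_add, neg_add_cancel, Real.exp_zero, mul_one]
      rw [h6]
      exact mul_le_mul_of_nonneg_right h3 (Real.exp_pos _).le
    refine h5.trans ?_
    rw [← Real.exp_add, Real.exp_le_exp]
    linarith
  · -- the Laplacian
    have hv : 0 < v z := by
      by_contra hcon
      have : v z * f z ≤ 0 := mul_nonpos_of_nonpos_of_nonneg (not_lt.1 hcon) (hf0 z).le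
      linarith
    have hzn : ‖z - r‖ < r := by
      rw [mem_ball, dist_eq_norm] at hz
      exact hz
    have hre : 0 < z.re := by
      rcases zd_re hr0 hzn.le with h0 | h0
      · exfalso
        rw [h0, zero_sub, norm_neg, Complex.norm_real, Real.norm_eq_abs, abs_of_pos hr0] at hzn
        exact lt_irrefl _ hzn
      · exact h0
    have h1 : Sub (fun w => ‖Complex.exp (-H w)‖) z 0 := Sub.of_holo ((hHan z hre).neg.cexp) (Complex.exp_ne_zero _)
    have h2 : Sub (fun w => Real.exp (ε * ‖w‖ ^ 2)) z (ε * ‖deriv (fun w : ℂ => w) z‖ ^ 2) := Sub.exp_sq analyticAt_id _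
    have h3 : deriv (fun w : ℂ => w) z = 1 := deriv_id z
    rw [h3, norm_one, one_pow, mul_one] at h2
    by_cases hz1 : ‖z - r‖ < r - 1
    · have h4 := hs2 z (by rw [mem_ball, dist_eq_norm]; exact hz1) hv
      have h5 := sub_rad (2 * k) (r - 2) (by positivity) (r : ℂ) z
      refine ⟨0 + (0 + (0 + ε)), by linarith, ?_⟩
      rw [hf]
      exact h4.mul (h1.mul (h5.mul h2))
    · have h4 := hs1 z hz hv
      have h5 : Sub (fun w => Real.exp (2 * k * max (‖w - r‖ - (r - 2)) 0 ^ 2)) z (2 * k / 2) :=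
        sub_rad' (by positivity) (by linarith [not_lt.1 hz1])
      refine ⟨-k + (0 + (2 * k / 2 + ε)), by linarith, ?_⟩
      rw [hf]
      exact h4.mul (h1.mul (h5.mul h2))
  · -- the boundary
    have hzn : ‖z - r‖ = r := by
      have h1 : z ∈ sphere (r : ℂ) r := by
        rw [← closedBall_sdiff_ball]
        exact hz
      rw [mem_sphere, dist_eq_norm] at h1
      exact h1
    show v z * f z ≤ _
    have h1 := hle z hz.1
    have h2 := hHbdy z hzn
    refine (mul_le_mul_of_nonneg_right h1 (hf0 z).le).trans ?_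
    rw [hfe, ← Real.exp_add, Real.exp_le_exp, hzn]
    have h3 : max (r - (r - 2)) 0 = 2 := by
      rw [sub_sub_cancel, max_eq_left (by norm_num)]
    rw [h3]
    have h4 : ε * ‖z‖ ^ 2 ≤ 4 := by
      have h5 : ‖z‖ ≤ 2 * r := by
        have h6 : ‖z‖ ≤ ‖z - r‖ + ‖(r : ℂ)‖ := by
          have := norm_add_le (z - r) (r : ℂ)
          rwa [sub_add_cancel] at this
        rw [hzn, Complex.norm_real, Real.norm_eq_abs, abs_of_pos hr0] at h6
        linarith
      have h6 : ‖z‖ ^ 2 ≤ (2 * r) ^ 2 := pow_le_pow_left₀ (norm_nonneg _) h5 2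
      rw [hε, one_div, inv_mul_le_iff₀ (by positivity)]
      linarith
    linarith
  · rw [mem_closedBall, dist_eq_norm]
    have h1 : (1 : ℂ) - r = ((1 - r : ℝ) : ℂ) := by push_cast; ring
    rw [h1, Complex.norm_real, Real.norm_eq_abs, abs_of_neg (by linarith)]
    linarith

end Pool.Agent.SR3
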