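import Pool.Agent.SR3.GapD
import Pool.Agent.SR3.ABd
import Pool.Agent.SR3.ATh
import Pool.Agent.SR3.AGd
import Pool.Agent.SR3.AGap
import Pool.Agent.SR3.ALam
import Pool.Agent.SR3.ZDisc
import Pool.Agent.SR3.EFin

/-!
# SR3 Dense: the good points of a second metric are relatively dense

`r` = the distance of the `T`-good point `a` to the `T'`-good points, `p` = a nearest one; after an affine change of the parameter `p = 1`, `a = 1 + r`.
The function `v = g' ‖F‖ ^ (-c₀')` has no error in the ball with centre `1 + r` and radius `r`.  `T`-good points near `p`: `straight` gives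
`log v ≤ A - c |Im z| + B |z| ^ γ` (the line is almost parallel to the real axis, as it is near `p` and `a`), so `disc_gain` bounds `r`, as
`log v 1` is bounded from below.
-/

set_option autoImplicit false

open Topology Filter Metric

noncomputable section

namespace Pool.Agent.SR3

open Pool.Agent.H36.BP (EN fs wd Sub OrdTwo)
open Pool.Agent.H14.PP (IsCone Tan)
open Pool.Agent.SY (Ent)
open Pool.Agent.SDA (EnergyK Near AffOpen Nm nForms)
open Geo (Gd)

variable {N : ℕ} {G : Geo N} {T : Set (EN N)} {rho : EN N → ℝ} {M : ℕ} {c₀ C δ : ℝ} {g : (ℂ → EN N) → ℂ → ℝ}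

/-- the growth in terms of the distance to the line -/
private theorem dn_low (S : Base G T rho M c₀ C δ g) :
    ∃ γ α B : ℝ, 0 < γ ∧ γ < 1 ∧ 0 < α ∧ 0 ≤ B ∧ ∀ (q : G.J → ℂ) (F : ℂ → EN N), G.Cl T q F → ∀ a ∈ Gd rho δ F,
      ∃ u : ℂ, ‖u‖ = 1 ∧ ∀ z, α * |yy u a z| - B * pw γ ‖z - a‖ ≤ Real.log ‖F z‖ := by
  obtain ⟨γ, A', B, hγ, hγ1, hA', hB, hst⟩ := straight S
  obtain ⟨B₁, hB₁, hup⟩ := lam_upperA S.ok
  have hh : 0 < (G.h : ℝ) := by
    have h1 : 1 ≤ G.h := S.ok.aff.pos ()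
    exact_mod_cast h1
  have hpw : ∀ r : ℝ, 0 ≤ r → 1 ≤ pw γ r := fun r hr => Real.one_le_rpow (by linarith) hγ.le
  obtain ⟨n, hn⟩ : ∃ n : ℝ, n = ∑ i, (G.b i : ℝ) := ⟨_, rfl⟩
  have hn0 : 0 ≤ n := by rw [hn]; positivity
  refine ⟨γ, A' / G.h, (n * B + B₁) / G.h, hγ, hγ1, by positivity, by positivity, fun q F hF a ha => ?_⟩
  obtain ⟨u, β, β', ⟨hu, hβ, hfit⟩, h1, h2⟩ := hst q F hF a ha
  refine ⟨u, hu, fun z => ?_⟩
  have hz := hup (F z) (hF.ent.mem z) (hF.nm z)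
  -- the sum of the functions `lin`
  have h3 : A' * |yy u a z| ≤ ∑ i, lin u a (β i) (β' i) z := by
    unfold lin
    rw [Finset.sum_add_distrib, ← Finset.sum_mul, ← Finset.sum_mul]
    rcases le_total 0 (yy u a z) with h4 | h4
    · rw [abs_of_nonneg h4, max_eq_left h4, max_eq_right (by linarith), mul_zero, add_zero]
      exact mul_le_mul_of_nonneg_right h1 h4
    · rw [abs_of_nonpos h4, max_eq_right h4, max_eq_left (by linarith), mul_zero, zero_add]
      exact mul_le_mul_of_nonneg_right h2 (by linarith)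
  have h4 : ∑ i, lin u a (β i) (β' i) z - n * (B * pw γ ‖z - a‖) ≤ ∑ i, G.b i * G.lam i (F z) := by
    rw [hn, Finset.sum_mul, ← Finset.sum_sub_distrib]
    refine Finset.sum_le_sum fun i _ => ?_
    have h5 : lin u a (β i) (β' i) z - B * pw γ ‖z - a‖ ≤ G.lam i (F z) := by
      have := (abs_le.1 (hfit z (Set.mem_univ _) i)).1
      linarith
    have hb : (1 : ℝ) ≤ G.b i := by exact_mod_cast S.ok.b_pos i
    have hlin : 0 ≤ lin u a (β i) (β' i) z := by
      unfold lin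
      have := hβ i
      have h6 := le_max_right (yy u a z) 0
      have h7 := le_max_right (-yy u a z) 0
      exact add_nonneg (mul_nonneg this.1 h6) (mul_nonneg this.2 h7)
    have h6 := mul_le_mul_of_nonneg_left h5 (by linarith : (0 : ℝ) ≤ G.b i)
    nlinarith
  have h5 : A' * |yy u a z| - (n * B + B₁) * pw γ ‖z - a‖ ≤ G.h * Real.log ‖F z‖ := by
    have h6 := hpw ‖z - a‖ (norm_nonneg _)
    nlinarith [hz.2.2]
  rw [div_mul_eq_mul_div, div_mul_eq_mul_div, ← sub_div, div_le_iff₀ hh]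
  linarith

/-- powers -/
private theorem pw_le {γ : ℝ} (hγ : 0 < γ) (hγ1 : γ < 1) {K : ℝ} (hK : 0 ≤ K) {r : ℝ} (hr : 0 ≤ r) : pw γ (r + K) ≤ (1 + K) * pw γ r := by
  unfold pw
  have h1 : 2 + (r + K) ≤ (1 + K) * (2 + r) := by nlinarith
  refine (Real.rpow_le_rpow (by positivity) h1 hγ.le).trans ?_
  rw [Real.mul_rpow (by positivity) (by positivity)]
  refine mul_le_mul_of_nonneg_right ?_ (Real.rpow_nonneg (by positivity) _)
  calc (1 + K) ^ γ ≤ (1 + K) ^ (1 : ℝ) := Real.rpow_le_rpow_of_exponent_le (by linarith) hγ1.le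
    _ = 1 + K := Real.rpow_one _

private theorem pw_mono {γ : ℝ} (hγ : 0 < γ) {r s : ℝ} (hr : 0 ≤ r) (h : r ≤ s) : pw γ r ≤ pw γ s :=
  Real.rpow_le_rpow (by linarith) (by linarith) hγ.le

private theorem pw_lin {γ : ℝ} (hγ : 0 < γ) (hγ1 : γ < 1) {r : ℝ} (hr : 1 ≤ r) : pw γ r ≤ 3 * r ^ γ := by
  unfold pw
  have h2 : 2 + r ≤ 3 * r := by linarith
  refine (Real.rpow_le_rpow (by positivity) h2 hγ.le).trans ?_
  rw [Real.mul_rpow (by norm_num) (by linarith)]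
  refine mul_le_mul_of_nonneg_right ?_ (Real.rpow_nonneg (by linarith) _)
  calc (3 : ℝ) ^ γ ≤ 3 ^ (1 : ℝ) := Real.rpow_le_rpow_of_exponent_le (by norm_num) hγ1.le
    _ = 3 := Real.rpow_one _

private theorem pw_div {γ : ℝ} (hγ : 0 < γ) (hγ1 : γ < 1) {r t : ℝ} (hr : 1 ≤ r) (ht : 0 ≤ t) (htr : t ≤ 2 * r) :
    pw γ r / r * t ≤ 6 * pw γ t := by
  have hr0 : 0 < r := by linarith
  have h1 := pw_lin hγ hγ1 hr
  have h2 : r ^ γ * (t / (2 * r)) ≤ t ^ γ := by
    have h3 : t / (2 * r) ≤ (t / (2 * r)) ^ γ := by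
      have h4 : t / (2 * r) ≤ 1 := (div_le_one (by positivity)).2 htr
      calc t / (2 * r) = (t / (2 * r)) ^ (1 : ℝ) := (Real.rpow_one _).symm
        _ ≤ (t / (2 * r)) ^ γ := Real.rpow_le_rpow_of_exponent_ge' (by positivity) h4 hγ.le hγ1.le
    have h4 : (t / (2 * r)) ^ γ ≤ (t / r) ^ γ := by
      refine Real.rpow_le_rpow (by positivity) ?_ hγ.le
      exact div_le_div_of_nonneg_left ht hr0 (by linarith)
    have h5 : r ^ γ * (t / r) ^ γ = t ^ γ := by
      rw [← Real.mul_rpow hr0.le (by positivity), mul_div_cancel₀ _ hr0.ne']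
    calc r ^ γ * (t / (2 * r)) ≤ r ^ γ * (t / r) ^ γ := mul_le_mul_of_nonneg_left (h3.trans h4) (Real.rpow_nonneg hr0.le _)
      _ = t ^ γ := h5
  have h3 : t ^ γ ≤ pw γ t := Real.rpow_le_rpow ht (by linarith) hγ.le
  have h4 : pw γ r / r * t ≤ 3 * r ^ γ / r * t := by
    refine mul_le_mul_of_nonneg_right ?_ ht
    exact div_le_div_of_nonneg_right h1 hr0.le
  have h5 : 3 * r ^ γ / r * t = 6 * (r ^ γ * (t / (2 * r))) := by
    field_simp
    ring
  rw [h5] at h4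
  linarith

private theorem pw_tendsto {γ : ℝ} (hγ : 0 < γ) (hγ1 : γ < 1) : Tendsto (fun r => pw γ r / r) atTop (𝓝 0) := by
  have h1 : Tendsto (fun r : ℝ => 3 * r ^ (-(1 - γ))) atTop (𝓝 0) := by
    have := (tendsto_rpow_neg_atTop (by linarith : 0 < 1 - γ)).const_mul 3
    simpa using this
  refine squeeze_zero' ?_ ?_ h1
  · filter_upwards [eventually_ge_atTop (1 : ℝ)] with r hr
    exact div_nonneg (Real.rpow_nonneg (by linarith) _) (by linarith)
  · filter_upwards [eventually_ge_atTop (1 : ℝ)] with r hr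
    have hr0 : 0 < r := by linarith
    have h4 : r ^ (-(1 - γ)) = r ^ γ / r := by
      rw [neg_sub, Real.rpow_sub hr0, Real.rpow_one]
    rw [h4, ← mul_div_assoc]
    exact div_le_div_of_nonneg_right (pw_lin hγ hγ1 hr) hr0.le

/-- the normalised situation -/
private theorem dn_main (S : Base G T rho M c₀ C δ g) {T' : Set (EN N)} {rho' : EN N → ℝ} {M' : ℕ} {c₀' C' δ' : ℝ} {g' : (ℂ → EN N) → ℂ → ℝ}
    (hM' : G.Met T' rho' M' c₀' C' δ' g') (hT : T ⊆ T') :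
    ∃ R : ℝ, ∀ r : ℝ, R ≤ r → ∀ (q : G.J → ℂ) (F : ℂ → EN N), G.Cl T' q F → ((1 + r : ℝ) : ℂ) ∈ Gd rho δ F → (1 : ℂ) ∈ Gd rho' δ' F →
      (∀ z ∈ ball ((1 + r : ℝ) : ℂ) r, z ∉ Gd rho' δ' F) → False := by
  have hG := S.ok
  obtain ⟨γ, α, B, hγ, hγ1, hα, hB, hlow⟩ := dn_low S
  obtain ⟨C₁, hC₁, hbd⟩ := bound hG hM'
  obtain ⟨d₁, C₂, hd₁, hth, hC₂⟩ := thick hG hM' hM'.pos
  obtain ⟨_, C₃, _, _, hC₃⟩ := thick hG S.met S.met.pos
  obtain ⟨R₁, hR₁⟩ := gapD S C₂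
  have hc₀ : 0 < c₀' := hM'.en.c₀_pos
  obtain ⟨K₁, hK₁⟩ : ∃ K₁, K₁ = max R₁ 0 + 1 := ⟨_, rfl⟩
  have hK₁0 : 0 ≤ K₁ := by rw [hK₁]; positivity
  obtain ⟨K, hK⟩ : ∃ K, K = K₁ + 1 := ⟨_, rfl⟩
  have hK0 : 0 ≤ K := by rw [hK]; positivity
  obtain ⟨C₄, hC₄⟩ : ∃ C₄, C₄ = (|C₃| + B * (1 + K₁)) / α + K₁ := ⟨_, rfl⟩
  have hC₄0 : 0 ≤ C₄ := by rw [hC₄]; positivity
  obtain ⟨B₅, hB₅⟩ : ∃ B₅, B₅ = 6 * α * C₄ + α * K + B * (1 + K) := ⟨_, rfl⟩
  have hB₅0 : 0 ≤ B₅ := by rw [hB₅]; positivity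
  obtain ⟨A', hA'⟩ := disc_gain (A := Real.log C₁) (k := C' * C₁ ^ 2) (B := c₀' * B₅) hγ hγ1 (by positivity : 0 < c₀' * (α / 2))
    (by have := hM'.en.C_pos; positivity) (by positivity)
  have hev : ∀ᶠ r : ℝ in atTop, 2 < r ∧ C₄ * (pw γ r / r) ≤ 1 / 2 ∧ A' - c₀' * (α / 2) / 3 * Real.log r < Real.log d₁ - c₀' * C₂ := by
    refine (eventually_gt_atTop 2).and (Filter.Eventually.and ?_ ?_)
    · have h1 := (pw_tendsto hγ hγ1).const_mul C₄
      rw [mul_zero] at h1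
      exact h1.eventually_le_const (by norm_num)
    · have h1 : Tendsto (fun r => c₀' * (α / 2) / 3 * Real.log r) atTop atTop := Real.tendsto_log_atTop.const_mul_atTop (by positivity)
      filter_upwards [h1.eventually_gt_atTop (A' - (Real.log d₁ - c₀' * C₂))] with r hr
      linarith
  obtain ⟨R, hR⟩ := eventually_atTop.1 hev
  refine ⟨R, fun r hr q F hF ha hp hfree => ?_⟩
  obtain ⟨hr2, hr3, hr4⟩ := hR r hr
  have hr0 : 0 < r := by linarith
  have hFT : G.Cl T q F := ⟨⟨hF.ent.diff, hF.ent.mem, by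
    obtain ⟨z, hz⟩ := hF.ent.out
    exact ⟨z, fun h => hz (hT h)⟩⟩, hF.nm, hF.val, hF.one⟩
  have hne : ∀ z, 0 < ‖F z‖ := fun z => norm_pos_iff.2 (ne0 hG (hF.ent.mem z))
  have hpw0 : ∀ s : ℝ, 0 ≤ s → 1 ≤ pw γ s := fun s hs => Real.one_le_rpow (by linarith) hγ.le
  -- the base point
  have hp2 : Real.log ‖F 1‖ ≤ C₂ := hC₂ _ (hF.ent.mem 1) (hF.nm 1) hp
  have h1 : infDist (1 : ℂ) (Gd rho δ F) < K₁ := by
    have h2 := hR₁ q F hFT 1 hp2
    have h3 := le_max_left R₁ 0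
    rw [hK₁]
    linarith
  obtain ⟨a, haG, had⟩ := (infDist_lt_iff ⟨_, ha⟩).1 h1
  rw [dist_eq_norm] at had
  have han : ‖a‖ ≤ K := by
    have h2 : ‖a‖ ≤ ‖(1 : ℂ)‖ + ‖(1 : ℂ) - a‖ := by
      have h3 := norm_sub_le (1 : ℂ) (1 - a)
      rwa [sub_sub_cancel] at h3
    rw [norm_one] at h2
    rw [hK]
    linarith
  obtain ⟨u, hu, hlow'⟩ := hlow q F hFT a haG
  have hstar : ∀ z, ‖star u * z‖ = ‖z‖ := fun z => by rw [norm_mul, norm_star, hu, one_mul]
  -- the angle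
  have hang : r * |u.re| ≤ C₄ * pw γ r := by
    have h2 := hlow' ((1 + r : ℝ) : ℂ)
    have h3 : Real.log ‖F ((1 + r : ℝ) : ℂ)‖ ≤ |C₃| := (hC₃ _ (hF.ent.mem _) (hF.nm _) ha).trans (le_abs_self _)
    have h4 : ‖((1 + r : ℝ) : ℂ) - a‖ ≤ r + K₁ := by
      have h5 : ((1 + r : ℝ) : ℂ) - a = (r : ℂ) + (1 - a) := by push_cast; ring
      rw [h5]
      refine (norm_add_le _ _).trans ?_
      rw [Complex.norm_real, Real.norm_eq_abs, abs_of_pos hr0]
      linarith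
    have h5 : pw γ ‖((1 + r : ℝ) : ℂ) - a‖ ≤ (1 + K₁) * pw γ r := (pw_mono hγ (norm_nonneg _) h4).trans (pw_le hγ hγ1 hK₁0 hr0.le)
    have h6 : yy u a ((1 + r : ℝ) : ℂ) = r * u.re + (star u * (1 - a)).re := by
      unfold yy
      have h7 : star u * (((1 + r : ℝ) : ℂ) - a) = (r : ℂ) * star u + star u * (1 - a) := by push_cast; ring
      rw [h7, Complex.add_re, Complex.re_ofReal_mul]
      rfl
    have h7 : |(star u * (1 - a)).re| ≤ K₁ := (Complex.abs_re_le_norm _).trans (by rw [hstar]; exact had.le)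
    have h8 : r * |u.re| ≤ |yy u a ((1 + r : ℝ) : ℂ)| + K₁ := by
      have h9 : r * |u.re| = |r * u.re| := by rw [abs_mul, abs_of_pos hr0]
      have h10 : r * u.re = yy u a ((1 + r : ℝ) : ℂ) - (star u * (1 - a)).re := by rw [h6]; ring
      rw [h9, h10]
      refine (abs_sub _ _).trans ?_
      linarith
    have h9 : α * |yy u a ((1 + r : ℝ) : ℂ)| ≤ (|C₃| + B * (1 + K₁)) * pw γ r := by
      have h10 := mul_le_mul_of_nonneg_left h5 hB
      have h11 : |C₃| ≤ |C₃| * pw γ r := le_mul_of_one_le_right (abs_nonneg _) (hpw0 r hr0.le)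
      linarith
    have h10 : |yy u a ((1 + r : ℝ) : ℂ)| ≤ (|C₃| + B * (1 + K₁)) / α * pw γ r := by
      rw [div_mul_eq_mul_div, le_div_iff₀ hα]
      linarith
    have h11 : K₁ ≤ K₁ * pw γ r := le_mul_of_one_le_right hK₁0 (hpw0 r hr0.le)
    rw [hC₄]
    linarith
  have hang' : |u.re| ≤ C₄ * (pw γ r / r) := by
    rw [mul_div_assoc', le_div_iff₀ hr0]
    linarith
  have him : 1 / 2 ≤ |u.im| := by
    have h2 : u.re ^ 2 + u.im ^ 2 = 1 := by
      have h3 := Complex.sq_norm u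
      rw [hu, Complex.normSq_apply] at h3
      linarith
    have h3 : |u.re| ≤ 1 / 2 := hang'.trans hr3
    have h4 : u.re ^ 2 ≤ 1 / 4 := by
      rw [← sq_abs]
      nlinarith [abs_nonneg u.re]
    have h5 : 3 / 4 ≤ |u.im| ^ 2 := by rw [sq_abs]; linarith
    nlinarith [abs_nonneg u.im]
  -- the growth
  have hgr : ∀ z : ℂ, ‖z‖ ≤ 2 * r → α / 2 * |z.im| - B₅ * pw γ ‖z‖ ≤ Real.log ‖F z‖ := by
    intro z hz
    have h2 := hlow' z
    have h3 : ‖z - a‖ ≤ ‖z‖ + K := (norm_sub_le _ _).trans (by linarith)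
    have h4 : pw γ ‖z - a‖ ≤ (1 + K) * pw γ ‖z‖ := (pw_mono hγ (norm_nonneg _) h3).trans (pw_le hγ hγ1 hK0 (norm_nonneg _))
    have h5 : |u.re| * ‖z‖ ≤ 6 * C₄ * pw γ ‖z‖ := by
      have h6 := mul_le_mul_of_nonneg_right hang' (norm_nonneg z)
      have h7 := mul_le_mul_of_nonneg_left (pw_div hγ hγ1 (by linarith : (1 : ℝ) ≤ r) (norm_nonneg z) hz) hC₄0
      linarith
    have h6 : yy u a z = u.re * z.re + u.im * z.im - (star u * a).re := by
      unfold yy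
      rw [mul_sub, Complex.sub_re, Complex.mul_re]
      simp
    have h7 : 1 / 2 * |z.im| - |u.re| * ‖z‖ - K ≤ |yy u a z| := by
      have h8 : |(star u * a).re| ≤ K := (Complex.abs_re_le_norm _).trans (by rw [hstar]; exact han)
      have h9 : |u.re * z.re| ≤ |u.re| * ‖z‖ := by
        rw [abs_mul]
        exact mul_le_mul_of_nonneg_left (Complex.abs_re_le_norm z) (abs_nonneg _)
      have h10 : 1 / 2 * |z.im| ≤ |u.im * z.im| := by
        rw [abs_mul]
        exact mul_le_mul_of_nonneg_right him (abs_nonneg _)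
      have h11 : u.im * z.im = yy u a z - u.re * z.re + (star u * a).re := by rw [h6]; ring
      have h12 : |u.im * z.im| ≤ |yy u a z| + |u.re * z.re| + |(star u * a).re| := by
        rw [h11]
        exact (abs_add_le _ _).trans (add_le_add (abs_sub _ _) le_rfl)
      linarith
    have h8 := mul_le_mul_of_nonneg_left h7 hα.le
    have h9 := mul_le_mul_of_nonneg_left h4 hB
    have h10 := mul_le_mul_of_nonneg_left h5 hα.le
    have h11 : α * K ≤ α * K * pw γ ‖z‖ := le_mul_of_one_le_right (by positivity) (hpw0 _ (norm_nonneg _))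
    rw [hB₅]
    linarith
  -- the function
  have hg0 : ∀ z, 0 ≤ g' F z := hM'.en.nonneg F hF.ent
  obtain ⟨v, hv⟩ : ∃ v : ℂ → ℝ, v = fun z => g' F z * ‖F z‖ ^ (-c₀') := ⟨_, rfl⟩
  have hv0 : ∀ z, 0 ≤ v z := fun z => by
    rw [hv]
    exact mul_nonneg (hg0 z) (Real.rpow_nonneg (norm_nonneg _) _)
  have hgv : ∀ z, 0 < v z → 0 < g' F z := by
    intro z hz
    rcases (hg0 z).eq_or_lt with h3 | h3
    · rw [hv] at hz
      simp only [← h3, zero_mul, lt_self_iff_false] at hz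
    · exact h3
  have key := hA' r hr2 v ?_ hv0 ?_ ?_ ?_
  · have h2 : d₁ ≤ g' F 1 := hth F hF.ent 1 hp (cl_n hF 1).ge
    have h3 : Real.exp (Real.log d₁ - c₀' * C₂) ≤ v 1 := by
      rw [hv, sub_eq_add_neg, Real.exp_add, Real.exp_log hd₁]
      refine mul_le_mul h2 ?_ (Real.exp_pos _).le (hg0 1)
      rw [Real.rpow_def_of_pos (hne 1), Real.exp_le_exp]
      nlinarith
    have h4 := Real.exp_le_exp.1 (h3.trans key)
    linarith
  · rw [hv]
    exact Pool.Agent.SDA.F1_usc (fun z a ha => hM'.en.usc F hF.ent z a ha)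
      (hF.ent.diff.continuous.norm.rpow_const fun z => Or.inl (hne z).ne') (fun z => Real.rpow_pos_of_pos (hne z) _) _
  · intro z _ hz
    rw [hv]
    refine (hM'.en.sub F hF.ent z (hgv z hz)).anti ?_
    have h2 := hbd q F hF z
    have h3 : g' F z ^ 2 ≤ C₁ ^ 2 := pow_le_pow_left₀ (hg0 z) h2 2
    have h4 := mul_le_mul_of_nonneg_left h3 hM'.en.C_pos.le
    linarith
  · intro z hz hvz
    rw [hv]
    refine hM'.near F hF.ent z ?_ (hgv z hvz)
    have h2 : z ∈ ball ((1 + r : ℝ) : ℂ) r := by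
      rw [mem_ball, dist_eq_norm] at hz ⊢
      have h3 : z - ((1 + r : ℝ) : ℂ) = (z - r) - 1 := by push_cast; ring
      rw [h3]
      refine (norm_sub_le _ _).trans_lt ?_
      rw [norm_one]
      linarith
    exact not_le.1 (hfree z h2)
  · intro z hz
    have h2 : ‖z‖ ≤ 2 * r := by
      have h3 : ‖z‖ ≤ ‖z - r‖ + ‖(r : ℂ)‖ := by
        have := norm_add_le (z - r) (r : ℂ)
        rwa [sub_add_cancel] at this
      rw [mem_closedBall, dist_eq_norm] at hz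
      rw [Complex.norm_real, Real.norm_eq_abs, abs_of_pos hr0] at h3
      linarith
    have h3 := mul_le_mul_of_nonneg_left (hgr z h2) hc₀.le
    rw [hv]
    calc g' F z * ‖F z‖ ^ (-c₀') ≤ C₁ * ‖F z‖ ^ (-c₀') :=
          mul_le_mul_of_nonneg_right (hbd q F hF z) (Real.rpow_nonneg (norm_nonneg _) _)
      _ = Real.exp (Real.log C₁ + Real.log ‖F z‖ * (-c₀')) := by
          rw [Real.exp_add, Real.exp_log hC₁, Real.rpow_def_of_pos (hne z)]
      _ ≤ Real.exp (Real.log C₁ - c₀' * (α / 2) * |z.im| + c₀' * B₅ * (2 + ‖z‖) ^ γ) := by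
          rw [Real.exp_le_exp]
          have h4 : pw γ ‖z‖ = (2 + ‖z‖) ^ γ := rfl
          rw [h4] at h3
          linarith

/-- MODULE Z1 (block F, (15)): the good points of a second metric are relatively dense -/
theorem dense' (S : Base G T rho M c₀ C δ g) {T' : Set (EN N)} {rho' : EN N → ℝ} {M' : ℕ} {c₀' C' δ' : ℝ} {g' : (ℂ → EN N) → ℂ → ℝ}
    (hM' : G.Met T' rho' M' c₀' C' δ' g') (hT : T ⊆ T') :
    ∃ R : ℝ, ∀ (q : G.J → ℂ) (F : ℂ → EN N), G.Cl T' q F → ∀ a ∈ Gd rho δ F, ∃ b ∈ Gd rho' δ' F, dist a b ≤ R := by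
  obtain ⟨R, hR⟩ := dn_main S hM' hT
  refine ⟨max R 1, fun q F hF a ha => ?_⟩
  have hcl : IsClosed (Gd rho' δ' F) := gd_closed S.ok hM' hF
  obtain ⟨p, hp, hpd⟩ := hcl.exists_infDist_eq_dist (exists_good S.ok hM' hF) a
  refine ⟨p, hp, ?_⟩
  by_contra hcon
  push Not at hcon
  obtain ⟨r, hr⟩ : ∃ r, r = dist a p := ⟨_, rfl⟩
  rw [← hr] at hcon hpd
  have hr1 : R ≤ r := (le_max_left _ _).trans hcon.le
  have hr0 : 0 < r := by
    have := le_max_right R 1
    linarith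
  have hrc : (r : ℂ) ≠ 0 := by exact_mod_cast hr0.ne'
  have hrn : ‖a - p‖ = r := by rw [hr, dist_eq_norm]
  obtain ⟨e, he⟩ : ∃ e : ℂ, e = (a - p) / r := ⟨_, rfl⟩
  have hen : ‖e‖ = 1 := by
    rw [he, norm_div, hrn, Complex.norm_real, Real.norm_eq_abs, abs_of_pos hr0, div_self hr0.ne']
  have her : e * r = a - p := by rw [he, div_mul_cancel₀ _ hrc]
  refine hR r hr1 _ _ (cl_comp S.ok hF hen (p - e)) ?_ ?_ ?_
  · show δ ≤ rho (F (e * ((1 + r : ℝ) : ℂ) + (p - e)))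
    have h1 : e * ((1 + r : ℝ) : ℂ) + (p - e) = a := by
      push_cast
      linear_combination her
    rw [h1]
    exact ha
  · show δ' ≤ rho' (F (e * 1 + (p - e)))
    have h1 : e * 1 + (p - e) = p := by ring
    rw [h1]
    exact hp
  · intro z hz hz'
    have h1 : e * z + (p - e) ∈ Gd rho' δ' F := hz'
    have h2 : infDist a (Gd rho' δ' F) ≤ dist a (e * z + (p - e)) := infDist_le_dist_of_mem h1
    rw [hpd, dist_eq_norm] at h2
    rw [mem_ball, dist_eq_norm] at hz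
    have h3 : a - (e * z + (p - e)) = -(e * (z - ((1 + r : ℝ) : ℂ))) := by
      push_cast
      linear_combination (-1 : ℂ) * her
    rw [h3, norm_neg, norm_mul, hen, one_mul] at h2
    linarith

end Pool.Agent.SR3
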