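import Pool.Agent.SR3.EMax
import Pool.Agent.H30M.Calc

/-!
# SR3 EGrad: the gradient estimate

`grad_est`: the part of `f` which is odd with respect to a line vanishes on the line; maximum principle in a half disc with the barrier
`2 M |w|² / r² + (A + 4 M / r² + ε) (2 r x - x²)`.
-/

set_option autoImplicit false

open Topology Filter Metric Complex InnerProductSpace Laplacian

noncomputable section

namespace Pool.Agent.SR3.BE

open Pool.Agent.SDR (gc)
open Pool.Agent.H30M (gg lap_mul lap_add lap_sub lap_const_mul)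

/-- the Laplacian and isometries -/
theorem eg_lap_iso (L : ℂ ≃ₗᵢ[ℝ] ℂ) (c : ℂ) (f : ℂ → ℝ) (w : ℂ) : Δ (fun w => f (c + L w)) w = Δ f (c + L w) := by
  have h1 : ∀ v : ℂ, iteratedFDeriv ℝ 2 (fun w => f (c + L w)) w ![v, v] = iteratedFDeriv ℝ 2 f (c + L w) ![L v, L v] := by
    intro v
    have e1 : (fun w => f (c + L w)) = (fun v => f (c + v)) ∘ L.toContinuousLinearEquiv := rfl
    have e2 := L.toContinuousLinearEquiv.iteratedFDerivWithin_comp_right (fun v => f (c + v)) uniqueDiffOn_univ (x := w) (Set.mem_univ _) 2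
    rw [Set.preimage_univ, iteratedFDerivWithin_univ, iteratedFDerivWithin_univ] at e2
    rw [e1, e2, ContinuousMultilinearMap.compContinuousLinearMap_apply, iteratedFDeriv_comp_add_left']
    have e3 : (fun i => (L.toContinuousLinearEquiv : ℂ →L[ℝ] ℂ) (![v, v] i)) = ![L v, L v] := by
      funext i
      fin_cases i <;> rfl
    rw [e3]
    rfl
  rw [congrFun (laplacian_eq_iteratedFDeriv_orthonormalBasis (fun w => f (c + L w)) Complex.orthonormalBasisOneI) w,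
    congrFun (laplacian_eq_iteratedFDeriv_orthonormalBasis f (Complex.orthonormalBasisOneI.map L)) (c + L w)]
  refine Finset.sum_congr rfl fun i _ => ?_
  rw [h1, OrthonormalBasis.map_apply]

theorem eg_re (w : ℂ) : ContDiffAt ℝ 2 (fun w : ℂ => w.re) w ∧ Δ (fun w : ℂ => w.re) w = 0 ∧ gg (fun w : ℂ => w.re) (fun w : ℂ => w.re) w = 1 := by
  have h0 : HarmonicAt (fun w : ℂ => w.re) w := (analyticAt_id (𝕜 := ℂ) (z := w)).harmonicAt_re
  have h1 : HasFDerivAt (fun w : ℂ => w.re) reCLM w := reCLM.hasFDerivAt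
  refine ⟨reCLM.contDiff.contDiffAt, h0.2.self_of_nhds, ?_⟩
  unfold gg
  rw [h1.fderiv]
  simp

theorem eg_im (w : ℂ) : ContDiffAt ℝ 2 (fun w : ℂ => w.im) w ∧ Δ (fun w : ℂ => w.im) w = 0 ∧ gg (fun w : ℂ => w.im) (fun w : ℂ => w.im) w = 1 := by
  have h0 : HarmonicAt (fun w : ℂ => w.im) w := (analyticAt_id (𝕜 := ℂ) (z := w)).harmonicAt_im
  have h1 : HasFDerivAt (fun w : ℂ => w.im) imCLM w := imCLM.hasFDerivAt
  refine ⟨imCLM.contDiff.contDiffAt, h0.2.self_of_nhds, ?_⟩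
  unfold gg
  rw [h1.fderiv]
  simp

/-- the barrier -/
def egb (a l r : ℝ) (w : ℂ) : ℝ := a * (w.re * w.re + w.im * w.im) + l * (2 * r * w.re - w.re * w.re)

theorem egb_lap (a l r : ℝ) (w : ℂ) : ContDiffAt ℝ 2 (egb a l r) w ∧ Δ (egb a l r) w = 4 * a - 2 * l := by
  obtain ⟨h1, h2, h3⟩ := eg_re w
  obtain ⟨h4, h5, h6⟩ := eg_im w
  have c1 : ContDiffAt ℝ 2 (fun w : ℂ => w.re * w.re) w := h1.mul h1
  have c2 : ContDiffAt ℝ 2 (fun w : ℂ => w.im * w.im) w := h4.mul h4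
  have c3 : ContDiffAt ℝ 2 (fun w : ℂ => w.re * w.re + w.im * w.im) w := c1.add c2
  have c4 : ContDiffAt ℝ 2 (fun w : ℂ => 2 * r * w.re) w := contDiffAt_const.mul h1
  have c5 : ContDiffAt ℝ 2 (fun w : ℂ => 2 * r * w.re - w.re * w.re) w := c4.sub c1
  have c6 : ContDiffAt ℝ 2 (fun w : ℂ => a * (w.re * w.re + w.im * w.im)) w := contDiffAt_const.mul c3
  have c7 : ContDiffAt ℝ 2 (fun w : ℂ => l * (2 * r * w.re - w.re * w.re)) w := contDiffAt_const.mul c5
  refine ⟨c6.add c7, ?_⟩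
  have e : Δ (egb a l r) w = Δ (fun w : ℂ => a * (w.re * w.re + w.im * w.im)) w + Δ (fun w : ℂ => l * (2 * r * w.re - w.re * w.re)) w := lap_add c6 c7
  rw [e, lap_const_mul c3, lap_const_mul c5, lap_add c1 c2, lap_sub c4 c1, lap_const_mul h1, lap_mul h1 h1, lap_mul h4 h4, h2, h3, h5, h6]
  ring

/-- the reflection in the imaginary axis -/
def egr : ℂ ≃ₗᵢ[ℝ] ℂ := Complex.conjLIE.trans (LinearIsometryEquiv.neg ℝ)

theorem egr_apply (w : ℂ) : egr w = -(starRingEnd ℂ) w := rfl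

/-- the bound on the half disc -/
theorem eg_half {f : ℂ → ℝ} {r A M ε : ℝ} (hr : 0 < r) (hA : 0 ≤ A) (hM : 0 ≤ M) (hε : 0 < ε) (h2 : ∀ w ∈ closedBall (0 : ℂ) r, ContDiffAt ℝ 2 f w)
    (hl : ∀ w ∈ closedBall (0 : ℂ) r, |Δ f w| ≤ A) (hb : ∀ w ∈ closedBall (0 : ℂ) r, |f w| ≤ M) :
    ∀ w ∈ closedBall (0 : ℂ) r ∩ {w | 0 ≤ w.re}, f w - f (egr w) - egb (2 * M / r ^ 2) (A + 4 * M / r ^ 2 + ε) r w ≤ 0 := by
  set a₁ : ℝ := 2 * M / r ^ 2 with ha₁
  set l : ℝ := A + 4 * M / r ^ 2 + ε with hldef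
  have ha₁0 : 0 ≤ a₁ := by positivity
  have hl0 : 0 ≤ l := by positivity
  have hK : IsCompact (closedBall (0 : ℂ) r ∩ {w | 0 ≤ w.re}) := (isCompact_closedBall 0 r).inter_right (isClosed_le continuous_const continuous_re)
  have hρ : ∀ w ∈ closedBall (0 : ℂ) r, egr w ∈ closedBall (0 : ℂ) r := by
    intro w hw
    rw [mem_closedBall_zero_iff] at hw ⊢
    rwa [LinearIsometryEquiv.norm_map]
  have hcρ : ∀ w ∈ closedBall (0 : ℂ) r, ContDiffAt ℝ 2 (fun w => f (egr w)) w := fun w hw =>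
    (h2 _ (hρ w hw)).comp w egr.toContinuousLinearEquiv.contDiff.contDiffAt
  have hc : ∀ w ∈ closedBall (0 : ℂ) r, ContDiffAt ℝ 2 (fun w => f w - f (egr w) - egb a₁ l r w) w := fun w hw =>
    ((h2 w hw).sub (hcρ w hw)).sub (egb_lap a₁ l r w).1
  refine weak_max hK (fun w hw => (hc w hw.1).continuousAt.continuousWithinAt) (fun w hw _ => ?_) fun w hw hw' => ?_
  · have hwK := (interior_subset hw).1
    refine ⟨hc w hwK, ?_⟩
    have e1 : Δ (fun w => f w - f (egr w) - egb a₁ l r w) w = Δ f w - Δ f (egr w) - (4 * a₁ - 2 * l) := by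
      rw [lap_sub ((h2 w hwK).sub (hcρ w hwK)) (egb_lap a₁ l r w).1, lap_sub (h2 w hwK) (hcρ w hwK), (egb_lap a₁ l r w).2]
      have e2 := eg_lap_iso egr 0 f w
      simp only [zero_add] at e2
      rw [e2]
    rw [e1]
    have h3 := (abs_le.1 (hl w hwK)).1
    have h4 := (abs_le.1 (hl _ (hρ w hwK))).2
    have h5 : 4 * a₁ = 8 * M / r ^ 2 := by rw [ha₁]; ring
    have h6 : 2 * l = 2 * A + 8 * M / r ^ 2 + 2 * ε := by rw [hldef]; ring
    linarith
  · obtain ⟨hw1, hw2⟩ := hw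
    have hw2 : 0 ≤ w.re := hw2
    have hwn : ‖w‖ ≤ r := by simpa using hw1
    have hcase : ‖w‖ = r ∨ w.re = 0 := by
      by_contra hcon
      push Not at hcon
      refine hw' (mem_interior.2 ⟨ball 0 r ∩ {w | 0 < w.re}, ?_, isOpen_ball.inter (isOpen_lt continuous_const continuous_re), ?_, ?_⟩)
      · rintro v ⟨hv1, hv2⟩
        have hv2 : 0 < v.re := hv2
        exact ⟨ball_subset_closedBall hv1, hv2.le⟩
      · rw [mem_ball_zero_iff]
        exact lt_of_le_of_ne hwn hcon.1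
      · exact lt_of_le_of_ne hw2 (Ne.symm hcon.2)
    rcases hcase with h1 | h1
    · have h3 := (abs_le.1 (hb w hw1)).2
      have h4 := (abs_le.1 (hb _ (hρ w hw1))).1
      have h5 : w.re * w.re + w.im * w.im = r ^ 2 := by
        rw [← h1, Complex.sq_norm, Complex.normSq_apply]
      have h6 : w.re ≤ r := (Complex.re_le_norm w).trans hwn
      have h7 : 0 ≤ l * (2 * r * w.re - w.re * w.re) := mul_nonneg hl0 (by nlinarith)
      have h8 : a₁ * r ^ 2 = 2 * M := by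
        rw [ha₁]
        field_simp
      unfold egb
      rw [h5, h8]
      linarith
    · have h3 : egr w = w := by
        rw [egr_apply]
        apply Complex.ext
        · simp [h1]
        · simp
      have h4 : 0 ≤ a₁ * (w.im * w.im) := mul_nonneg ha₁0 (mul_self_nonneg _)
      rw [h3]
      unfold egb
      rw [h1]
      simp only [mul_zero, zero_add, sub_self, add_zero]
      linarith

/-- the derivative in the direction `1` -/
theorem eg_dir {f : ℂ → ℝ} {r A M : ℝ} (hr : 0 < r) (hA : 0 ≤ A) (hM : 0 ≤ M) (h2 : ∀ w ∈ closedBall (0 : ℂ) r, ContDiffAt ℝ 2 f w)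
    (hl : ∀ w ∈ closedBall (0 : ℂ) r, |Δ f w| ≤ A) (hb : ∀ w ∈ closedBall (0 : ℂ) r, |f w| ≤ M) : fderiv ℝ f 0 1 ≤ A * r + 4 * M / r := by
  refine le_of_forall_pos_le_add fun ε' hε' => ?_
  set ε : ℝ := ε' / r with hεdef
  have hε : 0 < ε := by positivity
  have key := eg_half hr hA hM hε h2 hl hb
  set a₁ : ℝ := 2 * M / r ^ 2 with ha₁
  set l : ℝ := A + 4 * M / r ^ 2 + ε with hldef
  have ha₁0 : 0 ≤ a₁ := by positivity
  have hl0 : 0 ≤ l := by positivity
  have hd : HasFDerivAt f (fderiv ℝ f 0) 0 := ((h2 0 (mem_closedBall_self hr.le)).differentiableAt (by norm_num)).hasFDerivAt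
  have h00 : HasDerivAt (fun t : ℝ => (t : ℂ)) 1 0 := by
    have := (hasDerivAt_id (0 : ℝ)).ofReal_comp
    simpa using this
  have h3 : HasDerivAt (fun t : ℝ => f ((t : ℂ) * 1)) (fderiv ℝ f 0 1) 0 := by
    have h4 : HasDerivAt (fun t : ℝ => (t : ℂ) * 1) 1 0 := by
      simpa using h00
    have h5 : HasFDerivAt f (fderiv ℝ f 0) (((0 : ℝ) : ℂ) * 1) := by simpa using hd
    exact h5.comp_hasDerivAt 0 h4
  have h6 : HasDerivAt (fun t : ℝ => f ((t : ℂ) * (-1))) (fderiv ℝ f 0 (-1)) 0 := by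
    have h4 : HasDerivAt (fun t : ℝ => (t : ℂ) * (-1)) (-1) 0 := by
      simpa using h00.fun_neg
    have h5 : HasFDerivAt f (fderiv ℝ f 0) (((0 : ℝ) : ℂ) * (-1)) := by simpa using hd
    exact h5.comp_hasDerivAt 0 h4
  have h7 : HasDerivAt (fun t : ℝ => f ((t : ℂ) * 1) - f ((t : ℂ) * (-1))) (2 * fderiv ℝ f 0 1) 0 := by
    refine (h3.sub h6).congr_deriv ?_
    rw [map_neg]
    ring
  have h8 : Tendsto (fun t : ℝ => t⁻¹ * (f ((t : ℂ) * 1) - f ((t : ℂ) * (-1)))) (𝓝[>] 0) (𝓝 (2 * fderiv ℝ f 0 1)) := by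
    have := h7.tendsto_slope_zero_right
    simpa using this
  have h9 : Tendsto (fun t : ℝ => a₁ * t + 2 * r * l) (𝓝[>] 0) (𝓝 (a₁ * 0 + 2 * r * l)) :=
    ((continuous_const.mul continuous_id).add continuous_const).continuousAt.tendsto.mono_left nhdsWithin_le_nhds
  have h10 : ∀ᶠ t : ℝ in 𝓝[>] 0, t⁻¹ * (f ((t : ℂ) * 1) - f ((t : ℂ) * (-1))) ≤ a₁ * t + 2 * r * l := by
    filter_upwards [Ioo_mem_nhdsGT hr] with t ht
    obtain ⟨ht0, htr⟩ := ht
    have hk := key (t : ℂ) ⟨by rw [mem_closedBall_zero_iff, Complex.norm_real, Real.norm_of_nonneg ht0.le]; exact htr.le, by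
      show 0 ≤ ((t : ℂ)).re
      rw [Complex.ofReal_re]
      exact ht0.le⟩
    have e1 : egr (t : ℂ) = (t : ℂ) * (-1) := by
      rw [egr_apply, Complex.conj_ofReal]
      ring
    unfold egb at hk
    rw [e1, Complex.ofReal_re, Complex.ofReal_im] at hk
    rw [mul_one, inv_mul_le_iff₀ ht0]
    have h11 : 0 ≤ l * (t * t) := mul_nonneg hl0 (mul_self_nonneg _)
    linarith
  have h12 := le_of_tendsto_of_tendsto h8 h9 h10
  have h13 : r * l = A * r + 4 * M / r + ε' := by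
    rw [hldef, hεdef]
    field_simp
  linarith

theorem grad_est : ∃ C : ℝ, 0 < C ∧ ∀ (f : ℂ → ℝ) (z : ℂ) (r A M : ℝ), 0 < r → 0 ≤ A → 0 ≤ M → (∀ w ∈ closedBall z r, ContDiffAt ℝ 2 f w) →
    (∀ w ∈ closedBall z r, |Δ f w| ≤ A) → (∀ w ∈ closedBall z r, |f w| ≤ M) → ‖gc f z‖ ≤ C * (M / r + A * r) := by
  refine ⟨8, by norm_num, fun f z r A M hr hA hM h2 hl hb => ?_⟩
  -- a general direction
  have key : ∀ (g : ℂ → ℝ), (∀ w ∈ closedBall z r, ContDiffAt ℝ 2 g w) → (∀ w ∈ closedBall z r, |Δ g w| ≤ A) → (∀ w ∈ closedBall z r, |g w| ≤ M) →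
      ∀ L : ℂ ≃ₗᵢ[ℝ] ℂ, fderiv ℝ g z (L 1) ≤ A * r + 4 * M / r := by
    intro g g2 gl gb L
    have hm : ∀ w ∈ closedBall (0 : ℂ) r, z + L w ∈ closedBall z r := by
      intro w hw
      rw [mem_closedBall_zero_iff] at hw
      rw [mem_closedBall, dist_eq_norm, add_sub_cancel_left, LinearIsometryEquiv.norm_map]
      exact hw
    have hLc : ContDiff ℝ 2 (fun w : ℂ => z + L w) := contDiff_const.add L.toContinuousLinearEquiv.contDiff
    have h3 := eg_dir (f := fun w => g (z + L w)) hr hA hM (fun w hw => (g2 _ (hm w hw)).comp w hLc.contDiffAt)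
      (fun w hw => by rw [eg_lap_iso]; exact gl _ (hm w hw)) fun w hw => gb _ (hm w hw)
    have h4 : HasFDerivAt (fun w : ℂ => z + L w) (L.toContinuousLinearEquiv : ℂ →L[ℝ] ℂ) 0 :=
      (L.toContinuousLinearEquiv : ℂ →L[ℝ] ℂ).hasFDerivAt.const_add z
    have h5 : HasFDerivAt g (fderiv ℝ g z) (z + L 0) := by
      rw [map_zero, add_zero]
      exact ((g2 z (mem_closedBall_self hr.le)).differentiableAt (by norm_num)).hasFDerivAt
    have h6 := h5.comp (0 : ℂ) h4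
    have h7 : fderiv ℝ (fun w => g (z + L w)) 0 1 = fderiv ℝ g z (L 1) := by
      have h8 : HasFDerivAt (fun w => g (z + L w)) ((fderiv ℝ g z).comp (L.toContinuousLinearEquiv : ℂ →L[ℝ] ℂ)) 0 := h6
      rw [h8.fderiv]
      rfl
    rwa [h7] at h3
  have hneg : ∀ v : ℂ, fderiv ℝ (fun w => - f w) z v = - fderiv ℝ f z v := by
    intro v
    rw [fderiv_fun_neg]
    rfl
  have n2 : ∀ w ∈ closedBall z r, ContDiffAt ℝ 2 (fun w => - f w) w := fun w hw => (h2 w hw).neg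
  have nl : ∀ w ∈ closedBall z r, |Δ (fun w => - f w) w| ≤ A := by
    intro w hw
    have e1 : Δ (fun w => - f w) w = - Δ f w := by
      have := congrFun (laplacian_neg (f := f)) w
      exact this
    rw [e1, abs_neg]
    exact hl w hw
  have nb : ∀ w ∈ closedBall z r, |(fun w => - f w) w| ≤ M := fun w hw => by
    show |- f w| ≤ M
    rw [abs_neg]
    exact hb w hw
  -- the direction `1`
  have a1 := key f h2 hl hb (LinearIsometryEquiv.refl ℝ ℂ)
  have a2 := key (fun w => - f w) n2 nl nb (LinearIsometryEquiv.refl ℝ ℂ)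
  rw [hneg] at a2
  -- the direction `I`
  set J : ℂ ≃ₗᵢ[ℝ] ℂ := rotation ⟨I, by simp [Submonoid.unitSphere, mem_sphere_iff_norm]⟩ with hJ
  have hJ1 : J 1 = I := by
    rw [hJ, rotation_apply, mul_one]
  have a3 := key f h2 hl hb J
  have a4 := key (fun w => - f w) n2 nl nb J
  rw [hneg] at a4
  rw [hJ1] at a3 a4
  have b1 : |fderiv ℝ f z 1| ≤ A * r + 4 * M / r := abs_le.2 ⟨by
    have : fderiv ℝ f z ((LinearIsometryEquiv.refl ℝ ℂ) 1) = fderiv ℝ f z 1 := rfl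
    linarith, a1⟩
  have b2 : |fderiv ℝ f z I| ≤ A * r + 4 * M / r := abs_le.2 ⟨by linarith, a3⟩
  unfold gc
  have b3 : ‖((fderiv ℝ f z 1 : ℝ) : ℂ) - I * ((fderiv ℝ f z I : ℝ) : ℂ)‖ ≤ |fderiv ℝ f z 1| + |fderiv ℝ f z I| := by
    refine (norm_sub_le _ _).trans (le_of_eq ?_)
    rw [norm_mul, Complex.norm_I, one_mul, Complex.norm_real, Complex.norm_real, Real.norm_eq_abs, Real.norm_eq_abs]
  refine b3.trans ?_
  have b4 : 8 * (M / r + A * r) = 2 * (A * r + 4 * M / r) + 6 * (A * r) := by ring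
  rw [b4]
  have b5 : 0 ≤ A * r := by positivity
  linarith

end Pool.Agent.SR3.BE
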