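import Pool.Agent.SR3.GapD
import Pool.Agent.SR3.AAll
import Pool.Agent.SR3.EFin
import Pool.Agent.SR3.Dense
import Pool.Agent.SR3.F.Tube
import Pool.Agent.SR3.F.Rigid
import Pool.Agent.SR3.F.First
import Pool.Agent.SR3.G.OneF

/-!
# SR3 OneForm: module Z2, one form kills the class
-/

set_option autoImplicit false
set_option linter.unusedSectionVars false

open Topology Filter Metric

noncomputable section

namespace Pool.Agent.SR3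

open Pool.Agent.H36.BP (EN)
open Pool.Agent.SR3.G (Str Facts Facts' HFacts one_form_of)
open Geo (Gd)
open F (tube_bd rigid_f first_p)

variable {N : ℕ} {G : Geo N} {T : Set (EN N)} {rho : EN N → ℝ} {M : ℕ} {c₀ C δ : ℝ} {g : (ℂ → EN N) → ℂ → ℝ}

/-- MODULE Z2 (block G): one form kills the class.  `𝒬` is the set of the functions on the cone which are given by the forms which are not `0` on `X`. -/
theorem one_form (S : Base G T rho M c₀ C δ g) {𝒬 : Set (EN N → ℂ)} (h𝒬 : 𝒬.Nonempty) (hmul : ∀ Q ∈ 𝒬, ∀ Q' ∈ 𝒬, (fun x => Q x * Q' x) ∈ 𝒬)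
    (hmet : ∀ R ∈ 𝒬, ∃ Q ∈ 𝒬, (∀ x, R x = 0 → Q x = 0) ∧ (∀ x ∈ T, Q x = 0) ∧
      ∃ (rho' : EN N → ℝ) (M' : ℕ) (c₀' C' δ' : ℝ) (g' : (ℂ → EN N) → ℂ → ℝ), G.Met {x | x ∈ G.X ∧ Q x = 0} rho' M' c₀' C' δ' g')
    (hper : ∀ (q : G.J → ℂ) (F : ℂ → EN N) (ω : ℂ), G.Cl T q F → ω ≠ 0 → (∀ z, F (z + ω) = F z) →
      (∃ B : ℝ, ∀ z, Real.log ‖F z‖ ≤ B * (1 + ‖z‖)) → ∃ Q ∈ 𝒬, ∀ z, Q (F z) = 0) :
    ∃ Q ∈ 𝒬, (∃ (rho' : EN N → ℝ) (M' : ℕ) (c₀' C' δ' : ℝ) (g' : (ℂ → EN N) → ℂ → ℝ), G.Met {x | x ∈ G.X ∧ Q x = 0} rho' M' c₀' C' δ' g') ∧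
      ∀ (q : G.J → ℂ) (F : ℂ → EN N), ¬ G.Cl {x | x ∈ G.X ∧ Q x = 0} q F := by
  obtain ⟨γ, A', B, hγ0, hγ1, hA', hB, hst⟩ := straight S
  have hstr : Str G T rho δ γ A' B := ⟨hγ0, hγ1, hA', hB, hst⟩
  have hf : Facts G T rho δ γ A' B := ⟨hstr, fun q F hF => exists_good S.ok S.met hF, growth S.ok S.met, gapD S, lower S,
    fun 𝒰 h𝒰 q F hF h0 => compact S.ok S.met 𝒰 h𝒰 q F hF h0⟩
  have hHF : HFacts G T rho δ 𝒬 := by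
    intro R hR
    obtain ⟨Q, hQ, h1, h2, rho', M', c₀', C', δ', g', hM'⟩ := hmet R hR
    exact ⟨Q, hQ, h1, h2, rho', δ', ⟨dense' S hM' fun x hx => ⟨S.met.TX hx, h2 x hx⟩,
      fun 𝒰 h𝒰 q F hF h0 => compact S.ok hM' 𝒰 h𝒰 q F hF h0⟩⟩
  obtain ⟨Q, hQ, hall⟩ := one_form_of S.ok hf (tube_bd S hf) (rigid_f S hstr) (first_p S hf) h𝒬 hmul hHF hper
  obtain ⟨Q', hQ', h1, h2, h3⟩ := hmet Q hQ
  refine ⟨Q', hQ', h3, fun q F hF => ?_⟩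
  obtain ⟨z, hz⟩ := hF.ent.out
  have hX : F z ∈ G.X := ((S.ok.aff.mem _).1 (hF.ent.mem z)).1
  refine hz ⟨hX, h1 _ (hall q F ⟨⟨hF.ent.diff, hF.ent.mem, z, fun hT => hz ⟨hX, h2 _ hT⟩⟩, hF.nm, hF.val, hF.one⟩ z)⟩

end Pool.Agent.SR3
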