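import Pool.Agent.SR3.PolZ
import Pool.Agent.SDA.Q3b

/-!
# SR3 ConT: the length of a curve of order two is constant or tame
-/

set_option autoImplicit false

open Topology Filter Metric

noncomputable section

namespace Pool.Agent.SR3

open Pool.Agent.H36.BP (EN fs wd Sub OrdTwo)
open Pool.Agent.SDA (nForms Tame)

variable {N : ℕ} {G : Geo N}

/-- MODULE Z4 (ConT.lean; `SDA/Q3b.lean`, `tame_poly`) -/
theorem const_or_tame (hG : G.Ok) {F : ℂ → EN N} (hF : Differentiable ℂ F) (hK : ∀ z, F z ∈ G.K) (hN : ∀ z, G.p (F z) = 1) (ho : OrdTwo F) :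
    (∃ c : ℝ, ∀ z, G.n (F z) (deriv F z) = c) ∨ Tame fun z => G.n (F z) (deriv F z) := by
  choose p hp using fun j => exists_poly hG hF hK hN ho j
  have h1 : ∀ z, G.n (F z) (deriv F z) = 0 + ∑ j, ‖(p j).eval z‖ ^ ((G.m j : ℝ)⁻¹) := by
    intro z
    rw [zero_add]
    show ∑ j, ‖G.w j (F z) (deriv F z)‖ ^ ((G.m j : ℝ)⁻¹) = _
    exact Finset.sum_congr rfl fun j _ => by rw [hp j z]
  have h2 := Pool.Agent.SDA.tame_poly p hG.one_m (b := 0) le_rfl
  simp only [h1]
  exact h2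

end Pool.Agent.SR3
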