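import Pool.Agent.SR3.Tm2
import Pool.Agent.SR3.ClN
import Pool.Agent.SR3.ConT

/-!
# SR3 OrdZ: the curves of order two (module Z8)

The port of `SDA/Mn`.
-/

set_option autoImplicit false

open Topology Filter Metric

noncomputable section

namespace Pool.Agent.SR3

open Pool.Agent.H36.BP (EN fs wd Sub OrdTwo)
open Pool.Agent.H14.PP (IsCone Tan)
open Pool.Agent.SY (Ent)
open Pool.Agent.SDA (EnergyK Near AffOpen Nm nForms Tame)

variable {N : ℕ} {G : Geo N} {T : Set (EN N)} {rho : EN N → ℝ} {M : ℕ} {c₀ C δ : ℝ} {g : (ℂ → EN N) → ℂ → ℝ}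

/-- a normalised entire curve of order two -/
private theorem OrdZ_norm (hG : G.Ok) (hM : G.Met T rho M c₀ C δ g) (hno : ∀ (q : G.J → ℂ) (F : ℂ → EN N), ¬ G.Cl T q F) {F : ℂ → EN N}
    (hF : Differentiable ℂ F) (hK : ∀ z, F z ∈ G.K) (hN : ∀ z, G.p (F z) = 1) (ho : OrdTwo F) :
    (∀ z, F z ∈ T) ∨ ∀ z w, ∃ c : ℂ, F z = c • F w := by
  by_cases hT : ∀ z, F z ∈ T
  · exact Or.inl hT
  push Not at hT
  have hE : Ent G.K T F := ⟨hF, hK, hT⟩
  rcases const_or_tame hG hF hK hN ho with ⟨c, hc⟩ | ht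
  · have hc0 : 0 ≤ c := by
      rw [← hc 0]
      exact n_nonneg _ _
    rcases hc0.eq_or_lt with h0 | h0
    · exact hM.null F hF hK ho fun z => by rw [hc z, ← h0]
    · exfalso
      have hcne : ((c⁻¹ : ℝ) : ℂ) ≠ 0 := by exact_mod_cast (inv_pos.2 h0).ne'
      obtain ⟨q, hq⟩ := cl_of_n hG (T := T) (F := fun z : ℂ => F (((c⁻¹ : ℝ) : ℂ) * z + 0)) (ent_comp hE hcne 0) (fun z => hN _) fun z => by
        rw [n_aff hG hF hK, hc, Complex.norm_real, Real.norm_of_nonneg (inv_pos.2 h0).le, inv_mul_cancel₀ h0.ne']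
      exact hno q _ hq
  · exact absurd ht (not_tame hG hM hno hE hN)

/-- MODULE Z8: the curves of order two -/
theorem ordTwo_in (hG : G.Ok) (hM : G.Met T rho M c₀ C δ g) (hno : ∀ (q : G.J → ℂ) (F : ℂ → EN N), ¬ G.Cl T q F) {F : ℂ → EN N}
    (hF : Differentiable ℂ F) (hK : ∀ z, F z ∈ G.K) (ho : OrdTwo F) : (∀ z, F z ∈ T) ∨ ∀ z w, ∃ c : ℂ, F z = c • F w := by
  obtain ⟨u, hu, hu0, hN⟩ := Pool.Agent.SDA.exists_norm hG.aff hF hK
  have hH : Differentiable ℂ fun z => u z • F z := hu.smul hF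
  have hHK : ∀ z, u z • F z ∈ G.K := fun z => smul_mem hG (hK z) (hu0 z)
  have hHo : OrdTwo fun z => u z • F z := ho.congr fun z => ⟨u z, hu0 z, rfl⟩
  rcases OrdZ_norm hG hM hno hH hHK (nm_iff.1 hN) hHo with h | h
  · left
    intro z
    have h1 := hM.Ts _ (h z) (u z)⁻¹ (inv_ne_zero (hu0 z))
    rwa [smul_smul, inv_mul_cancel₀ (hu0 z), one_smul] at h1
  · right
    intro z w
    obtain ⟨c, hc⟩ := h z w
    refine ⟨(u z)⁻¹ * (c * u w), ?_⟩
    have h1 : F z = (u z)⁻¹ • (u z • F z) := by rw [smul_smul, inv_mul_cancel₀ (hu0 z), one_smul]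
    rw [h1, hc, smul_smul, smul_smul, mul_assoc]

end Pool.Agent.SR3
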