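import Pool.Agent.SR3.G.PerG

/-!
# SR3 Per (module H13): a periodic curve of exponential type is algebraic (helper92)
-/

set_option autoImplicit false

open Topology Filter Metric MvPolynomial

noncomputable section

namespace Pool.Agent.SR3

open Pool.Agent.H36.BP (EN)
open Pool.Agent.H17EF (coneE)
open Pool.Agent.H17LG.Variety (FunField)
open Pool.Agent.H62.FC (Homog)

variable {N : ℕ} {P : Ideal (MvPolynomial (Fin (N + 1)) ℂ)}

theorem periodic_degenerate [P.IsPrime] {z : Fin 2 → FunField P} (hP : Homog P) (hz : IsTranscendenceBasis ℂ z) {F : ℂ → EN N}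
    (hF : Differentiable ℂ F) (hX : ∀ z, F z ∈ coneE P) {ω : ℂ} (hω : ω ≠ 0) (hper : ∀ z, F (z + ω) = F z)
    (hg : ∃ B : ℝ, ∀ z, Real.log ‖F z‖ ≤ B * (1 + ‖z‖)) :
    ∃ (R : MvPolynomial (Fin (N + 1)) ℂ) (D : ℕ), R.IsHomogeneous D ∧ R ∉ P ∧ ∀ z, eval (F z).ofLp R = 0 :=
  G.per_degenerate hP ⟨z, hz⟩ hF hX hω hper hg

end Pool.Agent.SR3
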