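import Pool.Agent.SR3.LnDefs

/-!
# SR3 HDefs3: the sections of `m K_X + (m - 1) D - j H`, with common zeros on affine lines
-/

set_option autoImplicit false

open Topology Filter Metric MvPolynomial

noncomputable section

namespace Pool.Agent.SR3

open Pool.Agent.H36.BP (EN)
open Pool.Agent.H17BP (IsForm NoZeros)
open Pool.Agent.H36.BPL (PoleLE)
open Pool.Agent.H17EF (coneE)

variable {N : ℕ}

/-- Sections `Ω a` of `m K_X + (m - 1) D - j H`, `D = {H = 0}`, such that the zeros of `Ω a` in `U` lie in `{Q a = 0}`. -/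
structure LogForms (P : Ideal (MvPolynomial (Fin (N + 1)) ℂ)) (H : MvPolynomial (Fin (N + 1)) ℂ) (m j : ℕ) {r : ℕ}
    (Ω : Fin r → EN N → EN N → EN N → ℂ) (Q : Fin r → MvPolynomial (Fin (N + 1)) ℂ) : Prop where
  one_m : 1 ≤ m
  one_j : 1 ≤ j
  form : ∀ a, IsForm (oc P H) m j (Ω a)
  pole : ∀ a, PoleLE (coneE P) (oc P H) (m - 1) (Ω a)
  hom : ∃ D, ∀ a, (Q a).IsHomogeneous D
  noZeros : ∀ a, NoZeros (oc P H) {x | eval x.ofLp (Q a) = 0} (Ω a)

/-- The point `x` lies on an affine line. -/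
def OnLine (P : Ideal (MvPolynomial (Fin (N + 1)) ℂ)) (H : MvPolynomial (Fin (N + 1)) ℂ) (x : EN N) : Prop :=
  ∃ F : Fin (N + 1) → Polynomial ℂ, PLine P H F ∧ ∃ z t : ℂ, x = t • WithLp.toLp 2 (pev F z)

/-- The common zeros in `U` of the forms `Q a` lie on affine lines. -/
def LineCover (P : Ideal (MvPolynomial (Fin (N + 1)) ℂ)) (H : MvPolynomial (Fin (N + 1)) ℂ) {r : ℕ} (Q : Fin r → MvPolynomial (Fin (N + 1)) ℂ) : Prop :=
  ∀ x ∈ oc P H, (∀ a, eval x.ofLp (Q a) = 0) → OnLine P H x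

/-- The common zeros in `U` of the forms `Q a` are zeros of the forms `R l`. -/
def ZeroCover (P : Ideal (MvPolynomial (Fin (N + 1)) ℂ)) (H : MvPolynomial (Fin (N + 1)) ℂ) {r t : ℕ} (Q : Fin r → MvPolynomial (Fin (N + 1)) ℂ)
    (R : Fin t → MvPolynomial (Fin (N + 1)) ℂ) : Prop :=
  ∀ x ∈ oc P H, (∀ a, eval x.ofLp (Q a) = 0) → ∀ l, eval x.ofLp (R l) = 0

end Pool.Agent.SR3
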