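import Pool.Agent.SR3.Qnl
import Pool.Agent.SR3.HDefs3

/-!
# SR3 QnB: the curve `Z` is null in a quantitative sense, for forms `Q a` with common zeros on `Z`
-/

set_option autoImplicit false

open Topology Filter Metric MvPolynomial

noncomputable section

namespace Pool.Agent.SR3

open Pool.Agent.H36.BP (EN fs wd wd_sq wd_le fs_nonneg)
open Pool.Agent.H17BP (Surface IsChart IsForm NoZeros)
open Pool.Agent.H14.PP (IsCone Tan CurveAt)
open Pool.Agent.H14.KB (rhoS)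
open Pool.Agent.H17 (PN VanishesAt HolomorphicInto)
open Pool.Agent.H62.FC (Homog)
open Pool.Agent.H17LG.Variety (FunField)
open Pool.Agent.H17EF (projVar coneE LE)
open Pool.Agent.H13.SM (conTan cone Inv_hasFDerivAt_eval)
open Pool.Agent.AD (SymDiff TangentTo)
open Pool.Agent.AD.NC (IsSmooth)
open Pool.Agent.SDA (openCone)
open Pool.Agent.SDR (pv disc_null)

variable {N k M : ℕ} {P : Ideal (MvPolynomial (Fin (N + 1)) ℂ)}

private theorem tan_comb {X : Set (EN N)} (hX : ∀ x ∈ X, ∀ c : ℂ, c ≠ 0 → c • x ∈ X) {x v : EN N} (h : Tan X x v) (t a : ℂ) :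
    Tan X x (t • v + a • x) := by
  obtain ⟨F, ⟨hF, hFX⟩, h0, h1⟩ := h
  have g1 : HasDerivAt (fun z : ℂ => t * z) t 0 := by simpa using (hasDerivAt_id (0 : ℂ)).const_mul t
  have g2 : HasDerivAt F v (t * 0) := by rw [mul_zero, ← h1]; exact hF.differentiableAt.hasDerivAt
  have g3 : HasDerivAt (fun z : ℂ => F (t * z)) (t • v) 0 := HasDerivAt.scomp (0 : ℂ) g2 g1
  have g4 : HasDerivAt (fun z : ℂ => 1 + a * z) a 0 := by
    simpa using ((hasDerivAt_id (0 : ℂ)).const_mul a).const_add 1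
  have g5 := g4.smul g3
  refine ⟨fun z => (1 + a * z) • F (t * z), ⟨?_, ?_⟩, ?_, ?_⟩
  · have e1 : AnalyticAt ℂ (fun z : ℂ => t * z) 0 := analyticAt_const.mul analyticAt_id
    have e2 : AnalyticAt ℂ F ((fun z : ℂ => t * z) 0) := by simpa using hF
    exact (analyticAt_const.add (analyticAt_const.mul analyticAt_id)).smul (AnalyticAt.comp (g := F) (f := fun z : ℂ => t * z) e2 e1)
  · have c1 : Tendsto (fun z : ℂ => t * z) (𝓝 0) (𝓝 0) := by
      have : Continuous fun z : ℂ => t * z := by fun_prop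
      simpa using this.tendsto 0
    have c2 : ∀ᶠ z : ℂ in 𝓝 0, (1 + a * z) ≠ 0 := by
      have : ContinuousAt (fun z : ℂ => 1 + a * z) 0 := by fun_prop
      exact this.eventually_ne (by simp)
    filter_upwards [c1.eventually hFX, c2] with z hz1 hz2
    exact hX _ hz1 _ hz2
  · simp [h0]
  · have h4 : deriv (fun z => (1 + a * z) • F (t * z)) 0 = (1 + a * 0) • (t • v) + a • F (t * 0) := g5.deriv
    rw [h4]
    simp [h0]

private theorem fderiv_eval (Q : MvPolynomial (Fin (N + 1)) ℂ) (x v : EN N) :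
    fderiv ℂ (fun y : EN N => eval y.ofLp Q) x v = ∑ i, v i * eval x.ofLp (pderiv i Q) := by
  have h1 : HasFDerivAt (fun y : EN N => y.ofLp) ((LE N).symm : EN N →L[ℂ] (Fin (N + 1) → ℂ)) x :=
    ((LE N).symm : EN N →L[ℂ] (Fin (N + 1) → ℂ)).hasFDerivAt
  have h2 := (Inv_hasFDerivAt_eval Q x.ofLp).comp x h1
  have h3 : HasFDerivAt (fun y : EN N => eval y.ofLp Q)
      ((∑ i, eval x.ofLp (pderiv i Q) • (ContinuousLinearMap.proj i : (Fin (N + 1) → ℂ) →L[ℂ] ℂ)).comp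
        ((LE N).symm : EN N →L[ℂ] (Fin (N + 1) → ℂ))) x := h2
  rw [h3.fderiv]
  have e : ((LE N).symm : EN N →L[ℂ] (Fin (N + 1) → ℂ)) v = v.ofLp := rfl
  rw [ContinuousLinearMap.comp_apply, e]
  simp only [sum_apply, FunLike.coe_smul, Pi.smul_apply, ContinuousLinearMap.proj_apply, smul_eq_mul]
  exact Finset.sum_congr rfl fun i _ => mul_comm _ _

private theorem cont_eval (Q : MvPolynomial (Fin (N + 1)) ℂ) : Continuous fun y : EN N => eval y.ofLp Q :=
  (MvPolynomial.continuous_eval Q).comp (LE N).symm.continuous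

private theorem oc_smul {H : MvPolynomial (Fin (N + 1)) ℂ} {h : ℕ} (hH : H.IsHomogeneous h) (hX : Surface (coneE P)) :
    ∀ x ∈ oc P H, ∀ c : ℂ, c ≠ 0 → c • x ∈ oc P H := by
  intro x hx c hc
  refine ⟨hX.smul x hx.1 c hc, fun i => ?_⟩
  have h1 := hx.2 i
  have h2 : eval (c • x).ofLp H = c ^ h * eval x.ofLp H := Pool.Agent.AD.P.eval_smul_of_homog hH c x.ofLp
  rw [h2]
  exact mul_ne_zero (pow_ne_zero _ hc) h1

/-- an algebraic symmetric differential on a compact part -/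
private theorem sym_le {H : MvPolynomial (Fin (N + 1)) ℂ} {h : ℕ} (hH : H.IsHomogeneous h) (hX : Surface (coneE P)) {m : ℕ} (hm : 1 ≤ m)
    (θ : SymDiff (oc P H) m) {W : MvPolynomial (Fin (N + 1) ⊕ Fin (N + 1)) ℂ} {r : ℕ}
    (hW : ∀ x ∈ oc P H, ∀ v, Tan (oc P H) x v → θ.toFun x v * eval x.ofLp H ^ r = eval (Sum.elim x.ofLp v.ofLp) W) (B : ℝ) :
    ∃ A : ℝ, 0 ≤ A ∧ ∀ x ∈ oc P H, eval x.ofLp H = 1 → ‖x‖ ≤ B → ∀ v, Tan (oc P H) x v → ‖v‖ ≤ B → ‖θ.toFun x v‖ ≤ A * fs x v := by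
  have hK : IsCompact (closedBall (0 : EN N) B ×ˢ closedBall (0 : EN N) 1) := (isCompact_closedBall _ _).prod (isCompact_closedBall _ _)
  have hc : Continuous fun p : EN N × EN N => eval (Sum.elim p.1.ofLp p.2.ofLp) W := by
    refine (MvPolynomial.continuous_eval W).comp (continuous_pi fun i => ?_)
    rcases i with i | i
    · exact (continuous_apply i).comp ((LE N).symm.continuous.comp continuous_fst)
    · exact (continuous_apply i).comp ((LE N).symm.continuous.comp continuous_snd)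
  obtain ⟨A₁, hA₁⟩ := hK.exists_bound_of_continuousOn hc.continuousOn
  refine ⟨|A₁| * |B| ^ (m - 1) * |B|, by positivity, fun x hx hHx hxB v hv hvB => ?_⟩
  have hoc := oc_smul hH hX
  have hx0 : x ≠ 0 := fun h0 => hx.1.1 (by rw [h0]; rfl)
  have hxn : 0 < ‖x‖ := norm_pos_iff.2 hx0
  have hB0 : 0 ≤ B := hxn.le.trans hxB
  set c : ℂ := inner ℂ x v / (‖x‖ : ℂ) ^ 2 with hcdef
  set v' : EN N := v + (-c) • x with hv'
  have horth : inner ℂ x v' = (0 : ℂ) := by
    have hxx : (inner ℂ x x : ℂ) = (‖x‖ : ℂ) ^ 2 := inner_self_eq_norm_sq_to_K x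
    have : ((‖x‖ : ℂ)) ^ 2 ≠ 0 := pow_ne_zero _ (by exact_mod_cast hxn.ne')
    rw [hv', inner_add_right, inner_smul_right, hxx, hcdef, neg_mul, div_mul_cancel₀ _ this, add_neg_cancel]
  have hwd : wd x v = ‖x‖ * ‖v'‖ := by
    have h1 : wd x v = wd x v' := by
      have h := Pool.Agent.H36.BP.wd_inv x v 1 (-c)
      rw [one_smul, one_smul, norm_one] at h
      rw [hv', h]; ring
    have h2 := wd_sq x v'
    rw [horth, norm_zero] at h2
    rw [h1]
    have h3 : wd x v' ^ 2 = (‖x‖ * ‖v'‖) ^ 2 := by rw [h2]; ring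
    exact (pow_left_inj₀ (Pool.Agent.H36.BP.wd_nonneg _ _) (by positivity) two_ne_zero).mp h3
  have hv'n : ‖v'‖ = fs x v * ‖x‖ := by
    unfold fs
    rw [hwd]
    field_simp
  have hv'le : ‖v'‖ ≤ |B| := by
    have h1 : ‖x‖ * ‖v'‖ ≤ ‖x‖ * ‖v‖ := by rw [← hwd]; exact wd_le _ _
    exact (le_of_mul_le_mul_left h1 hxn).trans (hvB.trans (le_abs_self _))
  have hT' : Tan (oc P H) x v' := by
    have := tan_comb hoc hv 1 (-c)
    rwa [one_smul] at this
  have hθ' : θ.toFun x v = θ.toFun x v' := (θ.add_smul x v hv (-c)).symm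
  rcases eq_or_ne v' 0 with h0 | h0
  · have h1 : θ.toFun x v' = 0 := by
      have h2 := θ.smul x v' hT' 0
      rw [zero_smul, zero_pow (by omega), zero_mul] at h2
      rw [h0]; exact h2
    rw [hθ', h1, norm_zero]
    exact mul_nonneg (by positivity) (fs_nonneg _ _)
  · have hv'pos : 0 < ‖v'‖ := norm_pos_iff.2 h0
    set u : EN N := ((‖v'‖ : ℂ)⁻¹) • v' with hu
    have hun : ‖u‖ = 1 := by
      rw [hu, norm_smul, norm_inv, Complex.norm_real, norm_norm, inv_mul_cancel₀ hv'pos.ne']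
    have hTu : Tan (oc P H) x u := by
      have := tan_comb hoc hT' ((‖v'‖ : ℂ)⁻¹) 0
      rwa [zero_smul, add_zero] at this
    have hvu : v' = (‖v'‖ : ℂ) • u := by
      rw [hu, smul_smul, mul_inv_cancel₀ (by exact_mod_cast hv'pos.ne'), one_smul]
    have h1 : θ.toFun x v' = (‖v'‖ : ℂ) ^ m * θ.toFun x u := by
      conv_lhs => rw [hvu]
      exact θ.smul x u hTu _
    have h2 : ‖θ.toFun x u‖ ≤ |A₁| := by
      have h3 := hW x hx u hTu
      rw [hHx, one_pow, mul_one] at h3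
      rw [h3]
      exact (hA₁ (x, u) ⟨by simpa using hxB, by simp [hun]⟩).trans (le_abs_self _)
    rw [hθ', h1, norm_mul, norm_pow, Complex.norm_real, norm_norm]
    calc ‖v'‖ ^ m * ‖θ.toFun x u‖ = ‖v'‖ ^ (m - 1) * ‖v'‖ * ‖θ.toFun x u‖ := by
          rw [← pow_succ, Nat.sub_add_cancel hm]
      _ ≤ |B| ^ (m - 1) * (fs x v * |B|) * |A₁| := by
          have h5 : ‖v'‖ ≤ fs x v * |B| := by
            rw [hv'n]
            exact mul_le_mul_of_nonneg_left (hxB.trans (le_abs_self _)) (fs_nonneg _ _)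
          have h6 : ‖v'‖ ^ (m - 1) ≤ |B| ^ (m - 1) := pow_le_pow_left₀ (norm_nonneg _) hv'le _
          have h7 := fs_nonneg x v
          exact mul_le_mul (mul_le_mul h6 h5 (norm_nonneg _) (by positivity)) h2 (norm_nonneg _) (by positivity)
      _ = |A₁| * |B| ^ (m - 1) * |B| * fs x v := by ring

/-- the ideal of the polynomials which vanish at `x` with their derivative in the direction of `v` -/
private theorem gen_all {G : Finset (MvPolynomial (Fin (N + 1)) ℂ)} (hG : Ideal.span (G : Set (MvPolynomial (Fin (N + 1)) ℂ)) = P)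
    {x v : Fin (N + 1) → ℂ} (h1 : ∀ Q ∈ G, eval x Q = 0) (h2 : ∀ Q ∈ G, ∑ i, v i * eval x (pderiv i Q) = 0) :
    (∀ Q ∈ P, eval x Q = 0) ∧ ∀ Q ∈ P, ∑ i, v i * eval x (pderiv i Q) = 0 := by
  have key : ∀ Q ∈ P, eval x Q = 0 ∧ ∑ i, v i * eval x (pderiv i Q) = 0 := by
    intro Q hQ
    rw [← hG] at hQ
    induction hQ using Submodule.span_induction with
    | mem Q hQ => exact ⟨h1 Q hQ, h2 Q hQ⟩
    | zero => simp
    | add p q _ _ hp hq =>
      refine ⟨by rw [map_add, hp.1, hq.1, add_zero], ?_⟩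
      simp only [map_add, mul_add, Finset.sum_add_distrib, hp.2, hq.2, add_zero]
    | smul a p _ hp =>
      refine ⟨by rw [smul_eq_mul, map_mul, hp.1, mul_zero], ?_⟩
      simp only [smul_eq_mul, Derivation.leibniz, map_add, map_mul, hp.1, zero_mul, add_zero]
      have : ∑ i, v i * (eval x a * eval x (pderiv i p)) = eval x a * ∑ i, v i * eval x (pderiv i p) := by
        rw [Finset.mul_sum]
        exact Finset.sum_congr rfl fun i _ => by ring
      rw [this, hp.2, mul_zero]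
  exact ⟨fun Q hQ => (key Q hQ).1, fun Q hQ => (key Q hQ).2⟩

/-- The curve `Z` is null in a quantitative sense. -/
theorem exists_qnB [P.IsPrime] {z : Fin 2 → FunField P} (hP : Homog P) (hz : IsTranscendenceBasis ℂ z) (hsm : IsSmooth P 2)
    {H : MvPolynomial (Fin (N + 1)) ℂ} {h : ℕ}
    (hH : H.IsHomogeneous h) (h1 : 1 ≤ h) {s : ℕ} {m : Fin s → ℕ}
    (hm : ∀ j, 1 ≤ m j) (θ : ∀ j, SymDiff (oc P H) (m j)) (hθ : ∀ j, IsAlg (θ j)) {r t : ℕ}
    {Q : Fin r → MvPolynomial (Fin (N + 1)) ℂ} {R : Fin t → MvPolynomial (Fin (N + 1)) ℂ} (hR : NullCurve θ R) (hcov : ZeroCover P H Q R)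
    (D : ℕ) (B : ℝ) :
    ∃ C α : ℝ, 0 ≤ C ∧ 0 < α ∧ ∀ (φ : ℂ → EN N) (q : Fin s → ℂ) (ε : ℝ), 0 < ε → ε ≤ 1 → DifferentiableOn ℂ φ (ball 0 1) →
      (∀ z ∈ ball (0 : ℂ) 1, φ z ∈ oc P H ∧ eval (φ z).ofLp H = 1 ∧ ‖φ z‖ ≤ B ∧
        rhoS (eqT H R Q) D (φ z) ≤ ε) →
      (∀ j, ∀ z ∈ ball (0 : ℂ) 1, (θ j).toFun (φ z) (deriv φ z) = q j) → ∑ j, ‖q j‖ ^ ((m j : ℝ)⁻¹) ≤ C * ε ^ α := by
  classical
  have hX : Surface (coneE P) := Pool.Agent.H90.SG.surface_coneE hP hz hsm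
  have hoc := oc_smul (P := P) hH hX
  -- the compact set
  set Kc : Set (EN N) := {x | ‖x‖ ≤ B ∧ x ∈ oc P H ∧ eval x.ofLp H = 1} with hKc
  have hKcc : IsCompact Kc := by
    have e : Kc = closedBall (0 : EN N) B ∩ ({x | ∀ Q ∈ P, eval x.ofLp Q = 0} ∩ {x | eval x.ofLp H = 1}) := by
      ext x
      simp only [hKc, Set.mem_ofPred_eq, Set.mem_inter_iff, mem_closedBall_zero_iff]
      constructor
      · rintro ⟨a1, a2, a3⟩
        exact ⟨a1, a2.1.2, a3⟩
      · rintro ⟨a1, a2, a3⟩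
        refine ⟨a1, ⟨⟨?_, a2⟩, fun _ => by rw [a3]; exact one_ne_zero⟩, a3⟩
        intro h0
        have h0' : x.ofLp = 0 := h0
        rw [h0'] at a3
        have : eval (0 : Fin (N + 1) → ℂ) H = 0 := by
          have := Pool.Agent.AD.P.eval_smul_of_homog hH (0 : ℂ) (0 : Fin (N + 1) → ℂ)
          rw [zero_smul, zero_pow (by omega), zero_mul] at this
          exact this
        rw [this] at a3
        exact zero_ne_one a3
    rw [e]
    refine (isCompact_closedBall _ _).inter_right (IsClosed.inter ?_ ?_)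
    · have : {x : EN N | ∀ Q ∈ P, eval x.ofLp Q = 0} = ⋂ Q ∈ P, {x | eval x.ofLp Q = 0} := by ext x; simp
      rw [this]
      exact isClosed_biInter fun Q _ => isClosed_eq (cont_eval Q) continuous_const
    · exact isClosed_eq (cont_eval H) continuous_const
  rcases Set.eq_empty_or_nonempty Kc with hemp | hKne
  · refine ⟨0, 1, le_refl _, one_pos, fun φ q ε hε hε1 hφ hφK hq => ?_⟩
    obtain ⟨a1, a2, a3, -⟩ := hφK 0 (mem_ball_self one_pos)
    have : φ 0 ∈ Kc := ⟨a3, a1, a2⟩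
    rw [hemp] at this
    exact this.elim
  -- the lower bound of the norm
  obtain ⟨x₀, hx₀, hx₀m⟩ := hKcc.exists_isMinOn hKne continuous_norm.continuousOn
  have hne : ∀ x ∈ Kc, x ≠ 0 := fun x hx h0 => hx.2.1.1.1 (by rw [h0]; rfl)
  have hx₀0 : 0 < ‖x₀‖ := norm_pos_iff.2 (hne x₀ hx₀)
  have hB0 : 0 < B := hx₀0.trans_le hx₀.1
  -- the generators of `P`
  obtain ⟨G, hG⟩ : P.FG := IsNoetherian.noetherian P
  have hG' : Ideal.span (G : Set (MvPolynomial (Fin (N + 1)) ℂ)) = P := hG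
  -- the Nullstellensatz
  obtain ⟨n, hn1, hn⟩ := Pool.Agent.SDR.ns_bound (T := Fin t) R (Sum.elim (fun g : {g // g ∈ G} => g.1)
    (Sum.elim (fun _ : Unit => H - 1) fun a : Fin t × Fin r => R a.1 * Q a.2)) (by
      intro l y hy
      have g1 : ∀ Q ∈ G, eval y Q = 0 := fun Q hQ => hy (Sum.inl ⟨Q, hQ⟩)
      have g2 : ∀ Q ∈ G, ∑ i, (0 : Fin (N + 1) → ℂ) i * eval y (pderiv i Q) = 0 := fun Q hQ => by simp
      have g3 := (gen_all hG' g1 g2).1
      have g4 : eval y H = 1 := by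
        have h2 := hy (Sum.inr (Sum.inl ()))
        simp only [Sum.elim_inr, Sum.elim_inl, map_sub, map_one] at h2
        exact sub_eq_zero.1 h2
      have hy0 : y ≠ 0 := by
        rintro rfl
        have : eval (0 : Fin (N + 1) → ℂ) H = 0 := by
          have := Pool.Agent.AD.P.eval_smul_of_homog hH (0 : ℂ) (0 : Fin (N + 1) → ℂ)
          rw [zero_smul, zero_pow (by omega), zero_mul] at this
          exact this
        rw [this] at g4
        exact zero_ne_one g4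
      have g5 : (WithLp.toLp 2 y : EN N) ∈ oc P H := ⟨⟨hy0, g3⟩, fun _ => by
        show eval y H ≠ 0
        rw [g4]
        exact one_ne_zero⟩
      by_cases h2 : ∀ a, eval y (Q a) = 0
      · exact hcov _ g5 h2 l
      · push Not at h2
        obtain ⟨a, ha⟩ := h2
        have h3 := hy (Sum.inr (Sum.inr (l, a)))
        simp only [Sum.elim_inr, map_mul] at h3
        exact (mul_eq_zero.1 h3).resolve_right ha)
  obtain ⟨C₃, hC₃0, hC₃⟩ := hn B
  have hnpos : (0 : ℝ) < n := by exact_mod_cast hn1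
  set K₂ : ℝ := C₃ * (t * r * B ^ D) + 1 with hK₂
  have hK₂0 : 0 < K₂ := by rw [hK₂]; positivity
  set C₂ : ℝ := K₂ ^ ((n : ℝ)⁻¹) with hC₂
  have hC₂0 : 0 < C₂ := Real.rpow_pos_of_pos hK₂0 _
  -- the points
  obtain ⟨S, hS⟩ := hR.tan
  set S' : Finset (EN N) := S.image fun p => WithLp.toLp 2 p.rep with hS'
  have hS0 : ∀ p ∈ S', p ≠ 0 := by
    intro p hp h0
    rw [hS', Finset.mem_image] at hp
    obtain ⟨p', -, rfl⟩ := hp
    exact p'.rep_nonzero (congrArg WithLp.ofLp h0)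
  have hS'' : ∀ x : EN N, (∀ p ∈ S', ∀ c : ℂ, x ≠ c • p) → ∀ hx : x.ofLp ≠ 0, Projectivization.mk ℂ x.ofLp hx ∉ S := by
    intro x hxp hx hmem
    obtain ⟨a, ha⟩ := Projectivization.exists_smul_eq_mk_rep ℂ x.ofLp hx
    refine hxp (WithLp.toLp 2 (Projectivization.mk ℂ x.ofLp hx).rep) (Finset.mem_image_of_mem _ hmem) ((a⁻¹ : ℂˣ) : ℂ) ?_
    apply WithLp.ofLp_injective
    rw [← ha]
    change x.ofLp = ((a⁻¹ : ℂˣ) : ℂ) • ((a : ℂ) • x.ofLp)
    rw [smul_smul, ← Units.val_mul, inv_mul_cancel, Units.val_one, one_smul]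
  -- one form
  have hone : ∀ j, ∃ C α : ℝ, 0 ≤ C ∧ 0 < α ∧ ∀ (φ : ℂ → EN N) (q : ℂ) (ε : ℝ), 0 < ε → ε ≤ 1 → DifferentiableOn ℂ φ (ball 0 1) →
      (∀ z ∈ ball (0 : ℂ) 1, φ z ∈ oc P H ∧ eval (φ z).ofLp H = 1 ∧ ‖φ z‖ ≤ B ∧
        rhoS (eqT H R Q) D (φ z) ≤ ε) →
      (∀ z ∈ ball (0 : ℂ) 1, (θ j).toFun (φ z) (deriv φ z) = q) → ‖q‖ ≤ C * ε ^ α := by
    intro j
    obtain ⟨W, e, hW⟩ := hθ j
    obtain ⟨A, hA0, hA⟩ := sym_le hH hX (hm j) (θ j) hW (2 * B)
    obtain ⟨C, α, hC0, hα0, hmain⟩ := disc_null (κ := {g // g ∈ G} ⊕ Fin t) (Sum.elim (fun g => g.1) fun l => MvPolynomial.C ((C₂ : ℂ)⁻¹) * R l) H W S' hS0 (by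
      intro x v hHx hRx hdRx hxS
      have g1 : ∀ Q ∈ G, eval x.ofLp Q = 0 := fun Q hQ => hRx (Sum.inl ⟨Q, hQ⟩)
      have g2 : ∀ Q ∈ G, ∑ i, v.ofLp i * eval x.ofLp (pderiv i Q) = 0 := fun Q hQ => hdRx (Sum.inl ⟨Q, hQ⟩)
      obtain ⟨g3, g4⟩ := gen_all hG' g1 g2
      have hC₂c : (C₂ : ℂ) ≠ 0 := by exact_mod_cast hC₂0.ne'
      have hx0 : x.ofLp ≠ 0 := by
        intro h0
        rw [h0] at hHx
        have : eval (0 : Fin (N + 1) → ℂ) H = 0 := by
          have := Pool.Agent.AD.P.eval_smul_of_homog hH (0 : ℂ) (0 : Fin (N + 1) → ℂ)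
          rw [zero_smul, zero_pow (by omega), zero_mul] at this
          exact this
        exact hHx this
      have hxc : x ∈ coneE P := ⟨hx0, g3⟩
      have hxo : x ∈ oc P H := ⟨hxc, fun _ => hHx⟩
      have hT : Tan (coneE P) x v := tan_of_conTan hP hz hsm hxc g4
      have hTo : Tan (oc P H) x v := by
        obtain ⟨F, ⟨hF, hFX⟩, h0, h1'⟩ := hT
        refine ⟨F, ⟨hF, ?_⟩, h0, h1'⟩
        have hc : ContinuousAt (fun z => eval (F z).ofLp H) 0 := (cont_eval H).continuousAt.comp hF.continuousAt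
        filter_upwards [hFX, hc.eventually_ne (by rw [h0]; exact hHx)] with z hz1 hz2
        exact ⟨hz1, fun _ => hz2⟩
      have g5 : ∀ l, eval x.ofLp (R l) = 0 := by
        intro l
        have := hRx (Sum.inr l)
        simp only [Sum.elim_inr, map_mul, eval_C, mul_eq_zero, inv_eq_zero, hC₂c, false_or] at this
        exact this
      have g6 : ∀ l, fderiv ℂ (fun y : EN N => eval y.ofLp (R l)) x v = 0 := by
        intro l
        rw [fderiv_eval]
        have h2 := hdRx (Sum.inr l)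
        simp only [Sum.elim_inr, pderiv_C_mul, map_mul, eval_C] at h2
        have h3 : ∑ i, v.ofLp i * ((C₂ : ℂ)⁻¹ * eval x.ofLp (pderiv i (R l))) = (C₂ : ℂ)⁻¹ * ∑ i, v.ofLp i * eval x.ofLp (pderiv i (R l)) := by
          rw [Finset.mul_sum]
          exact Finset.sum_congr rfl fun i _ => by ring
        rw [h3, mul_eq_zero, inv_eq_zero] at h2
        exact h2.resolve_left hC₂c
      have g7 := hS x hxo hx0 (hS'' x hxS hx0) g5 v hTo g6 j
      have g8 := hW x hxo v hTo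
      rw [g7, zero_mul] at g8
      exact g8.symm) (min ‖x₀‖ 1) (max (2 * B) (max 1 A)) (lt_min hx₀0 one_pos)
    refine ⟨C, (n : ℝ)⁻¹ * α, hC0, mul_pos (inv_pos.2 hnpos) hα0, fun φ q ε hε hε1 hφ hφK hq => ?_⟩
    rw [Real.rpow_mul hε.le]
    set ε₁ : ℝ := ε ^ ((n : ℝ)⁻¹) with hε₁
    have hε₁0 : 0 < ε₁ := Real.rpow_pos_of_pos hε _
    have hε₁1 : ε₁ ≤ 1 := Real.rpow_le_one hε.le hε1 (inv_pos.2 hnpos).le
    have hφd : ∀ w ∈ ball (0 : ℂ) 1, DifferentiableAt ℂ φ w := fun w hw => (hφ w hw).differentiableAt (isOpen_ball.mem_nhds hw)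
    have hT : ∀ w ∈ ball (0 : ℂ) 1, Tan (oc P H) (φ w) (deriv φ w) := by
      intro w hw
      have hw' : ∀ᶠ y in 𝓝 w, y ∈ ball (0 : ℂ) 1 := isOpen_ball.mem_nhds hw
      have han : AnalyticAt ℂ φ w := hφ.analyticAt (isOpen_ball.mem_nhds hw)
      have htr : Tendsto (fun y : ℂ => w + y) (𝓝 0) (𝓝 w) := by
        have : Continuous fun y : ℂ => w + y := by fun_prop
        simpa using this.tendsto 0
      refine ⟨fun y => φ (w + y), ⟨?_, ?_⟩, by simp, ?_⟩
      · have e2 : AnalyticAt ℂ φ ((fun y : ℂ => w + y) 0) := by simpa using han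
        exact AnalyticAt.comp (g := φ) (f := fun y : ℂ => w + y) e2 (analyticAt_const.add analyticAt_id)
      · filter_upwards [htr.eventually hw'] with y hy
        exact (hφK _ hy).1
      · rw [deriv_comp_const_add]
        simp
    have hKφ : ∀ w ∈ ball (0 : ℂ) 1, φ w ∈ Kc := fun w hw => ⟨(hφK w hw).2.2.1, (hφK w hw).1, (hφK w hw).2.1⟩
    have hd0 : ‖deriv φ 0‖ ≤ 2 * B := by
      have := Complex.norm_deriv_le_of_forall_mem_sphere_norm_le (c := 0) (R := 1 / 2) (C := B) (f := φ) (by norm_num)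
        (DifferentiableOn.diffContOnCl fun w hw => (hφd w (by
          rw [closure_ball _ (by norm_num)] at hw
          rw [mem_closedBall_zero_iff] at hw
          rw [mem_ball_zero_iff]; linarith)).differentiableWithinAt) (fun w hw => (hφK w (by
            rw [mem_sphere_zero_iff_norm] at hw
            rw [mem_ball_zero_iff, hw]; norm_num)).2.2.1)
      calc ‖deriv φ 0‖ ≤ B / (1 / 2) := this
        _ = 2 * B := by ring
    have h00 : (0 : ℂ) ∈ ball (0 : ℂ) 1 := mem_ball_self one_pos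
    refine hmain ε₁ hε₁0 hε₁1 φ ‖q‖ hφ (fun w hw => ⟨?_, ?_, ?_, ?_⟩) (fun w hw => ?_) ?_
    · exact (min_le_left _ _).trans (hx₀m (hKφ w hw))
    · exact ((hφK w hw).2.2.1.trans (by linarith)).trans (le_max_left _ _)
    · rw [(hφK w hw).2.1, norm_one]; exact min_le_right _ _
    · rintro (g | l)
      · simp only [Sum.elim_inl]
        have hgP : g.1 ∈ P := by rw [← hG']; exact Ideal.subset_span g.2
        have k0 : eval (φ w).ofLp g.1 = 0 := (hφK w hw).1.1.2 g.1 hgP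
        rw [k0, norm_zero]
        exact hε₁0.le
      · simp only [Sum.elim_inr, map_mul, eval_C, norm_mul, norm_inv, Complex.norm_real, Real.norm_eq_abs, abs_of_pos hC₂0]
        have k1 := (hφK w hw).2.2.2
        have k2 : 0 < ‖φ w‖ := norm_pos_iff.2 (hne _ (hKφ w hw))
        have k4 : ∀ a : Fin t × Fin r, ‖eval (φ w).ofLp (R a.1 * Q a.2)‖ ≤ ε * B ^ D := by
          intro a
          have k5 : ‖eval (φ w).ofLp (R a.1 * Q a.2 * H)‖ ≤ ‖fun a : Fin t × Fin r => eval (φ w).ofLp (R a.1 * Q a.2 * H)‖ :=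
            norm_le_pi_norm (fun a : Fin t × Fin r => eval (φ w).ofLp (R a.1 * Q a.2 * H)) a
          have k6 : ‖fun a : Fin t × Fin r => eval (φ w).ofLp (R a.1 * Q a.2 * H)‖ ≤ ε * ‖φ w‖ ^ D := by
            unfold rhoS eqT at k1
            rwa [div_le_iff₀ (by positivity)] at k1
          rw [map_mul, (hφK w hw).2.1, mul_one] at k5
          refine k5.trans (k6.trans ?_)
          have := (hφK w hw).2.2.1
          gcongr
        have k7 := hC₃ l (φ w).ofLp fun i => (PiLp.norm_apply_le (φ w) i).trans (hφK w hw).2.2.1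
        have k8 : ∑ i, ‖eval (φ w).ofLp ((Sum.elim (fun g : {g // g ∈ G} => g.1)
            (Sum.elim (fun _ : Unit => H - 1) fun a : Fin t × Fin r => R a.1 * Q a.2)) i)‖ ≤ t * r * (ε * B ^ D) := by
          rw [Fintype.sum_sum_type, Fintype.sum_sum_type]
          simp only [Sum.elim_inl, Sum.elim_inr]
          have e1 : ∑ g : {g // g ∈ G}, ‖eval (φ w).ofLp g.1‖ = 0 := Finset.sum_eq_zero fun g _ => by
            have hgP : g.1 ∈ P := by rw [← hG']; exact Ideal.subset_span g.2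
            have h0 : eval (φ w).ofLp g.1 = 0 := (hφK w hw).1.1.2 g.1 hgP
            rw [h0, norm_zero]
          have e2 : ∑ _a : Unit, ‖eval (φ w).ofLp (H - 1)‖ = 0 := Finset.sum_eq_zero fun _ _ => by
            rw [map_sub, map_one, (hφK w hw).2.1, sub_self, norm_zero]
          rw [e1, e2, zero_add, zero_add]
          calc ∑ a : Fin t × Fin r, ‖eval (φ w).ofLp (R a.1 * Q a.2)‖ ≤ ∑ _a : Fin t × Fin r, ε * B ^ D := Finset.sum_le_sum fun a _ => k4 a
            _ = t * r * (ε * B ^ D) := by simp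
        have k9 : ‖eval (φ w).ofLp (R l)‖ ^ n ≤ K₂ * ε := by
          refine (k7.trans (mul_le_mul_of_nonneg_left k8 hC₃0)).trans ?_
          rw [hK₂]
          have : C₃ * (t * r * (ε * B ^ D)) = C₃ * (t * r * B ^ D) * ε := by ring
          rw [this]
          nlinarith
        have k10 : ‖eval (φ w).ofLp (R l)‖ ≤ C₂ * ε₁ := by
          rw [hC₂, hε₁, ← Real.mul_rpow hK₂0.le hε.le]
          have e1 : ‖eval (φ w).ofLp (R l)‖ = (‖eval (φ w).ofLp (R l)‖ ^ n) ^ ((n : ℝ)⁻¹) := by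
            rw [← Real.rpow_natCast, ← Real.rpow_mul (norm_nonneg _), mul_inv_cancel₀ hnpos.ne', Real.rpow_one]
          rw [e1]
          exact Real.rpow_le_rpow (by positivity) k9 (inv_pos.2 hnpos).le
        rw [inv_mul_le_iff₀ hC₂0]
        exact k10
    · have hw1 : w ∈ ball (0 : ℂ) 1 := by rw [mem_ball_zero_iff] at hw ⊢; linarith
      have k1 := hW (φ w) (hφK w hw1).1 _ (hT w hw1)
      rw [(hφK w hw1).2.1, one_pow, mul_one, hq w hw1] at k1
      have k2 : pv W (φ w) (deriv φ w) = q := k1.symm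
      rw [k2]
      exact le_mul_of_one_le_left (norm_nonneg _) ((le_max_left _ _).trans (le_max_right _ _))
    · have k1 := hA (φ 0) (hφK 0 h00).1 (hφK 0 h00).2.1 ((hφK 0 h00).2.2.1.trans (by linarith)) _ (hT 0 h00) hd0
      rw [hq 0 h00] at k1
      exact k1.trans (mul_le_mul_of_nonneg_right ((le_max_right _ _).trans (le_max_right _ _)) (fs_nonneg _ _))
  choose C α hC0 hα0 hmain using hone
  -- the common exponent
  set β : ℝ := (∑ j, (m j : ℝ) / α j + 1)⁻¹ with hβ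
  have hsum0 : 0 ≤ ∑ j, (m j : ℝ) / α j := Finset.sum_nonneg fun j _ => div_nonneg (Nat.cast_nonneg _) (hα0 j).le
  have hβ0 : 0 < β := by rw [hβ]; positivity
  have hβj : ∀ j, β ≤ α j * (m j : ℝ)⁻¹ := by
    intro j
    have hmj : (0 : ℝ) < m j := by exact_mod_cast hm j
    have k1 : (m j : ℝ) / α j ≤ ∑ j, (m j : ℝ) / α j + 1 := by
      have := Finset.single_le_sum (f := fun j => (m j : ℝ) / α j) (fun j _ => div_nonneg (Nat.cast_nonneg _) (hα0 j).le) (Finset.mem_univ j)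
      linarith
    have k2 : α j * (m j : ℝ)⁻¹ = ((m j : ℝ) / α j)⁻¹ := by rw [inv_div]; rfl
    rw [k2, hβ]
    exact inv_anti₀ (div_pos hmj (hα0 j)) k1
  refine ⟨∑ j, C j ^ ((m j : ℝ)⁻¹), β, Finset.sum_nonneg fun j _ => Real.rpow_nonneg (hC0 j) _, hβ0, fun φ q ε hε hε1 hφ hφK hq => ?_⟩
  rw [Finset.sum_mul]
  refine Finset.sum_le_sum fun j _ => ?_
  have k1 := hmain j φ (q j) ε hε hε1 hφ hφK (hq j)
  calc ‖q j‖ ^ ((m j : ℝ)⁻¹) ≤ (C j * ε ^ α j) ^ ((m j : ℝ)⁻¹) := Real.rpow_le_rpow (norm_nonneg _) k1 (by positivity)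
    _ = C j ^ ((m j : ℝ)⁻¹) * ε ^ (α j * (m j : ℝ)⁻¹) := by
        rw [Real.mul_rpow (hC0 j) (Real.rpow_nonneg hε.le _), ← Real.rpow_mul hε.le]
    _ ≤ C j ^ ((m j : ℝ)⁻¹) * ε ^ β :=
        mul_le_mul_of_nonneg_left (Real.rpow_le_rpow_of_exponent_ge hε hε1 (hβj j)) (Real.rpow_nonneg (hC0 j) _)

end Pool.Agent.SR3
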