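import Pool.Agent.SR3.GDefs
import Pool.Agent.H62.EF.PrA
import Pool.Agent.SY.NBa

/-!
# SR3 Bdr: the boundary, and the ends of the lines

`Ok.h1` needs a curve in `K`, so `bdry_of` has the hypothesis that `K` is not empty.
-/

set_option autoImplicit false

open Topology Filter Metric

noncomputable section

namespace Pool.Agent.SR3

open Pool.Agent.H36.BP (EN fs wd Sub OrdTwo)
open Pool.Agent.H14.PP (IsCone Tan)
open Pool.Agent.H62.EF (MN pr)

variable {N : ℕ} {G : Geo N}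

theorem pd_le_dist {x y : EN N} (hx : x ≠ 0) (hy : y ≠ 0) : pd x y ≤ dist (pr x) (pr y) := by
  have h1 : 0 ≤ wd x y / (‖x‖ * ‖y‖) := div_nonneg (Real.sqrt_nonneg _) (by positivity)
  rw [Pool.Agent.H62.EF.dist_pr hx hy]
  have h2 : (1 : ℝ) ≤ √2 := Real.one_le_sqrt.2 (by norm_num)
  show wd x y / (‖x‖ * ‖y‖) ≤ _
  nlinarith

theorem bdry_of (hG : G.Ok) (hK : G.K.Nonempty) : G.Bdry := by
  classical
  have hne : ∀ x ∈ G.X, x ≠ 0 := fun x hx h => hG.surf.zero (h ▸ hx)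
  refine ⟨hG.oneE, fun y hy _ i hi => ?_, fun i i' hii => ?_, fun H hH hHX i hi hi' z z' => ?_⟩
  · obtain ⟨l, r, c, hr, hc, h⟩ := hG.locE y hy i hi
    exact ⟨l, r, c, hr, hc, fun x hx hd => h x hx ((pd_le_dist (hne x hx) (hne y hy)).trans_lt hd)⟩
  · obtain ⟨S, hS⟩ := hG.cross
    refine (S.image pr).finite_toSet.subset ?_
    rintro P ⟨y, hy, -, h1, h2, rfl⟩
    obtain ⟨s, hs, c, hc⟩ := hS y hy i i' hii h1 h2
    have hc0 : c ≠ 0 := by
      rintro rfl
      exact hne y hy (by rw [hc, zero_smul])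
    rw [hc, Pool.Agent.H62.EF.pr_smul s hc0]
    exact Finset.mem_coe.2 (Finset.mem_image_of_mem _ hs)
  · obtain ⟨x₀, hx₀⟩ := hK
    obtain ⟨c, hc⟩ := hG.h1 (Filter.hyperfilter ℕ) (by
        rw [← Nat.cofinite_eq_atTop]
        exact Filter.hyperfilter_le_cofinite) (fun _ _ => x₀) H (fun _ => differentiable_const _) (fun _ _ => hx₀) hH hHX (fun w hw => by
      exfalso
      obtain ⟨j, j', hjj, h1, h2⟩ := hw
      rcases eq_or_ne j i with h | h
      · subst h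
        exact hi' j' hjj.symm w h2
      · exact hi' j h w h1) z z'
    have hc0 : c ≠ 0 := by
      rintro rfl
      exact hne _ (hHX z).1 (by rw [hc, zero_smul])
    rw [hc, Pool.Agent.H62.EF.pr_smul _ hc0]

/-- the end of a line -/
theorem line_dir (hG : G.Ok) {φ : ℂ → EN N} (hφ : G.Line φ) :
    ∃ v : EN N, v ∈ G.X ∧ v ∉ G.K ∧ Tendsto (fun w => pr (φ w)) (cocompact ℂ) (𝓝 (pr v)) := by
  obtain ⟨C, k, hC⟩ := hφ.pol
  have hpol : ∀ l : Fin (N + 1), ∃ p : Polynomial ℂ, ∀ z, (φ z) l = p.eval z := by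
    intro l
    refine Pool.Agent.SY.exists_poly_of_growth k (fun z => (φ z) l) C ?_ ?_
    · exact (EuclideanSpace.proj (𝕜 := ℂ) l).differentiable.comp hφ.diff
    · intro z
      exact (PiLp.norm_apply_le (φ z) l).trans (hC z)
  choose P hP using hpol
  obtain ⟨D, hD⟩ : ∃ D : ℕ, D = Finset.univ.sup fun l => (P l).natDegree := ⟨_, rfl⟩
  have hle : ∀ l, (P l).natDegree ≤ D := fun l => by
    rw [hD]
    exact Finset.le_sup (f := fun l => (P l).natDegree) (Finset.mem_univ l)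
  obtain ⟨l₀, -, hl₀⟩ : ∃ l₀ ∈ (Finset.univ : Finset (Fin (N + 1))), D = (P l₀).natDegree := by
    rw [hD]
    exact Finset.exists_mem_eq_sup _ Finset.univ_nonempty _
  have hD1 : 1 ≤ D := by
    by_contra h
    obtain ⟨z, z', hzz⟩ := hφ.ne
    apply hzz
    ext l
    have h1 : (P l).natDegree = 0 := by
      have := hle l
      omega
    rw [hP, hP, Polynomial.eq_C_of_natDegree_eq_zero h1, Polynomial.eval_C, Polynomial.eval_C]
  obtain ⟨v, hv⟩ : ∃ v : EN N, v = WithLp.toLp 2 fun l => (P l).coeff D := ⟨_, rfl⟩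
  have hv0 : v ≠ 0 := by
    intro h
    have h1 : (P l₀).coeff D = 0 := by
      have := congrArg (fun x : EN N => x l₀) h
      rw [hv] at this
      exact this
    rw [hl₀] at h1
    have h2 : P l₀ = 0 := Polynomial.leadingCoeff_eq_zero.1 h1
    rw [h2, Polynomial.natDegree_zero] at hl₀
    omega
  have hinv : Tendsto (fun z : ℂ => z⁻¹) (cocompact ℂ) (𝓝 0) := by
    rw [← Metric.cobounded_eq_cocompact]
    exact tendsto_inv₀_cobounded
  have hz0 : ∀ᶠ z : ℂ in cocompact ℂ, z ≠ 0 := by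
    have h1 : {(0 : ℂ)}ᶜ ∈ cocompact ℂ := isCompact_singleton.compl_mem_cocompact
    filter_upwards [h1] with z hz
    exact hz
  have hcoord : ∀ l, Tendsto (fun z : ℂ => (z ^ D)⁻¹ * (P l).eval z) (cocompact ℂ) (𝓝 ((P l).coeff D)) := by
    intro l
    have h1 : Tendsto (fun z : ℂ => ∑ i ∈ Finset.range (D + 1), (P l).coeff i * (z⁻¹) ^ (D - i)) (cocompact ℂ)
        (𝓝 (∑ i ∈ Finset.range (D + 1), (P l).coeff i * (0 : ℂ) ^ (D - i))) :=
      tendsto_finsetSum _ fun i _ => (hinv.pow _).const_mul _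
    have h2 : ∑ i ∈ Finset.range (D + 1), (P l).coeff i * (0 : ℂ) ^ (D - i) = (P l).coeff D := by
      rw [Finset.sum_eq_single D]
      · simp
      · intro i hi hiD
        have : D - i ≠ 0 := by
          have := Finset.mem_range.1 hi
          omega
        rw [zero_pow this, mul_zero]
      · intro h
        exact absurd (Finset.mem_range.2 (Nat.lt_succ_self D)) h
    rw [h2] at h1
    refine h1.congr' ?_
    filter_upwards [hz0] with z hz
    rw [Polynomial.eval_eq_sum_range' (Nat.lt_succ_of_le (hle l)), Finset.mul_sum]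
    refine Finset.sum_congr rfl fun i hi => ?_
    have h3 : i ≤ D := by
      have := Finset.mem_range.1 hi
      omega
    obtain ⟨e, rfl⟩ := Nat.exists_eq_add_of_le h3
    rw [Nat.add_sub_cancel_left, inv_pow, pow_add]
    field_simp
  have hlim : Tendsto (fun z : ℂ => (z ^ D)⁻¹ • φ z) (cocompact ℂ) (𝓝 v) := by
    rw [hv]
    have h1 : Tendsto (fun z : ℂ => fun l => (z ^ D)⁻¹ * (P l).eval z) (cocompact ℂ) (𝓝 fun l => (P l).coeff D) := tendsto_pi_nhds.2 hcoord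
    have h2 := ((PiLp.continuous_toLp 2 (fun _ : Fin (N + 1) => ℂ)).tendsto _).comp h1
    refine h2.congr fun z => ?_
    ext l
    simp [hP]
  have hmem : ∀ᶠ z : ℂ in cocompact ℂ, (z ^ D)⁻¹ • φ z ∈ G.X := by
    filter_upwards [hz0] with z hz
    exact hG.surf.smul _ ((hG.aff.mem _).1 (hφ.mem z)).1 _ (inv_ne_zero (pow_ne_zero _ hz))
  have hvX : v ∈ G.X := hG.surf.closed v (mem_closure_of_tendsto hlim hmem) hv0
  refine ⟨v, hvX, fun hvK => ?_, ?_⟩
  · have h1 : G.p v ≠ 0 := ((hG.aff.mem v).1 hvK).2 ()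
    have h2 : Tendsto (fun z : ℂ => G.p ((z ^ D)⁻¹ • φ z)) (cocompact ℂ) (𝓝 (G.p v)) :=
      (hG.aff.an () v).continuousAt.tendsto.comp hlim
    have h3 : Tendsto (fun z : ℂ => G.p ((z ^ D)⁻¹ • φ z)) (cocompact ℂ) (𝓝 0) := by
      have h4 : Tendsto (fun z : ℂ => (z⁻¹) ^ (D * G.h)) (cocompact ℂ) (𝓝 0) := by
        have h5 := hinv.pow (D * G.h)
        rwa [zero_pow (by
          have : 1 ≤ G.h := hG.aff.pos ()
          exact Nat.mul_ne_zero (by omega) (by omega))] at h5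
      refine h4.congr fun z => ?_
      have h6 : G.p ((z ^ D)⁻¹ • φ z) = ((z ^ D)⁻¹) ^ G.h * G.p (φ z) := hG.aff.smul () _ _
      rw [h6, hφ.nm, mul_one, inv_pow, inv_pow, pow_mul]
    exact h1 (tendsto_nhds_unique h2 h3)
  · have h1 := (Pool.Agent.H62.EF.continuousAt_pr hv0).tendsto.comp hlim
    refine h1.congr' ?_
    filter_upwards [hz0] with z hz
    exact Pool.Agent.H62.EF.pr_smul _ (inv_ne_zero (pow_ne_zero _ hz))

theorem exists_ends (hG : G.Ok) : ∃ Y : Finset (EN N), G.Ends Y := by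
  classical
  obtain ⟨n, Φ, hΦ, hall⟩ := hG.lines
  choose v hvX hvK hv using fun k => line_dir hG (hΦ k)
  have hr : ∀ P : MN N, ∃ y : EN N, (∃ k, pr (v k) = P) → (∃ k, y = v k) ∧ pr y = P := by
    intro P
    by_cases h : ∃ k, pr (v k) = P
    · obtain ⟨k, hk⟩ := h
      exact ⟨v k, fun _ => ⟨⟨k, rfl⟩, hk⟩⟩
    · exact ⟨0, fun h' => absurd h' h⟩
  choose r hr using hr
  refine ⟨Finset.univ.image fun k => r (pr (v k)), ⟨?_, ?_, ?_⟩⟩
  · intro y hy
    obtain ⟨k, -, rfl⟩ := Finset.mem_image.1 hy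
    obtain ⟨⟨j, hj⟩, -⟩ := hr (pr (v k)) ⟨k, rfl⟩
    rw [hj]
    exact ⟨hvX j, hvK j⟩
  · intro y hy y' hy' h
    obtain ⟨k, -, rfl⟩ := Finset.mem_image.1 hy
    obtain ⟨k', -, rfl⟩ := Finset.mem_image.1 hy'
    rw [(hr (pr (v k)) ⟨k, rfl⟩).2, (hr (pr (v k')) ⟨k', rfl⟩).2] at h
    rw [h]
  · intro ε hε
    have h1 : ∀ k, ∃ M : ℝ, ∀ w, M < ‖Φ k w‖ → dist (pr (Φ k w)) (pr (v k)) < ε := by
      intro k
      have h2 : ∀ᶠ w in cocompact ℂ, dist (pr (Φ k w)) (pr (v k)) < ε := (Metric.tendsto_nhds.1 (hv k)) ε hε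
      rw [← Metric.cobounded_eq_cocompact, Filter.eventually_iff, ← Bornology.isCobounded_def, ← Bornology.isBounded_compl_iff] at h2
      obtain ⟨R, hR⟩ := h2.subset_closedBall (0 : ℂ)
      obtain ⟨M, hM⟩ := (isCompact_closedBall (0 : ℂ) R).exists_bound_of_continuousOn (hΦ k).diff.continuous.continuousOn
      refine ⟨M, fun w hw => ?_⟩
      by_contra hcon
      exact absurd (hM w (hR hcon)) (not_le.2 hw)
    choose M hM using h1
    obtain ⟨B, hB⟩ : ∃ B : ℝ, ∀ k, M k < Real.exp B := by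
      obtain ⟨b, hb⟩ : ∃ b : ℝ, ∀ k, M k ≤ b := ⟨∑ k, |M k|, fun k => (le_abs_self _).trans (Finset.single_le_sum (f := fun k => |M k|) (fun _ _ => abs_nonneg _) (Finset.mem_univ k))⟩
      refine ⟨b, fun k => (hb k).trans_lt ?_⟩
      linarith [Real.add_one_le_exp b]
    refine ⟨B, fun φ hφ z hz => ?_⟩
    obtain ⟨k, hk⟩ := hall φ hφ
    obtain ⟨w, hw⟩ := hk z
    refine ⟨r (pr (v k)), Finset.mem_image_of_mem _ (Finset.mem_univ k), ?_⟩
    rw [(hr (pr (v k)) ⟨k, rfl⟩).2, hw]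
    refine hM k w ((hB k).trans_le ?_)
    rw [← hw]
    have h0 : 0 < ‖φ z‖ := norm_pos_iff.2 fun h => hG.surf.zero (h ▸ ((hG.aff.mem _).1 (hφ.mem z)).1)
    exact (Real.le_log_iff_exp_le h0).1 hz

end Pool.Agent.SR3
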