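import Pool.Agent.SR3.HDefs
import Pool.Agent.H14.KB.Kob
import Pool.Agent.AD.T.NCDefs
import Pool.Agent.H36.BPB.Hur
import Pool.Agent.H17.BrodyLimit
import Pool.Agent.H14.PP.Poly

/-!
# SR3 Bdy: entire curves in the boundary (H7)

The limit curve lies in a component `i` or does not meet it (`hur_of_eqn` with the local equation of the component in the chart of `Snc`); it lies in one of
them, and if it lies in two of them then it is locally constant.
-/

set_option autoImplicit false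

open Topology Filter Metric MvPolynomial

noncomputable section

namespace Pool.Agent.SR3

open Pool.Agent.H36.BP (EN fs)
open Pool.Agent.H17BP (Surface IsChart IsForm NoZeros)
open Pool.Agent.H14.PP (IsCone Tan analyticAt_evalEN eval_smulEN)
open Pool.Agent.H17 (PN VanishesAt HolomorphicInto vanishesAt_mk_iff)
open Pool.Agent.H62.FC (Homog)
open Pool.Agent.H17EF (projVar coneE mk_mem_projVar)

variable {N k M : ℕ}
variable {P : Ideal (MvPolynomial (Fin (N + 1)) ℂ)} {H : MvPolynomial (Fin (N + 1)) ℂ} {h : ℕ} {E : Fin k → Fin (M + 1) → MvPolynomial (Fin (N + 1)) ℂ}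
  {c b : Fin k → ℕ}

namespace BdyAux

theorem vec_smul {i : Fin k} (hE : ∀ l, (E i l).IsHomogeneous (c i)) (a : ℂ) (x : EN N) : vec (E i) (a • x) = a ^ c i • vec (E i) x := by
  unfold vec
  ext l
  simp only [PiLp.smul_apply, smul_eq_mul]
  exact eval_smulEN (hE l) a x

theorem vec_eq_zero {i : Fin k} {x : EN N} : vec (E i) x = 0 ↔ ∀ l, eval x.ofLp (E i l) = 0 := by
  unfold vec
  constructor
  · intro h l
    have := congrArg (fun v : EN M => v l) h
    simpa using this
  · intro h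
    ext l
    simpa using h l

theorem continuous_vec (i : Fin k) : Continuous (vec (E i) : EN N → EN M) := by
  unfold vec
  have h1 : Continuous fun x : EN N => fun l => eval x.ofLp (E i l) := by
    refine continuous_pi fun l => ?_
    exact continuous_iff_continuousAt.2 fun x => (analyticAt_evalEN (E i l) x).continuousAt
  exact (PiLp.continuous_toLp 2 _).comp h1

theorem analyticAt_co (s : Option Bool) (p : ℂ × ℂ) : AnalyticAt ℂ (co s) p := by
  rcases s with _ | _ | _
  · exact analyticAt_const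
  · exact analyticAt_fst
  · exact analyticAt_snd

/-- the local equations of all components -/
theorem local_eqn (hE : ∀ i l, (E i l).IsHomogeneous (c i)) (hs : Snc P H E b) {x : EN N} (hx : x ∈ coneE P) :
    ∃ (τ : EN N → ℂ × ℂ) (s : Fin k → Option Bool), AnalyticAt ℂ τ x ∧ τ x = 0 ∧ (∀ i i', s i ≠ none → s i = s i' → i = i') ∧
      (∀ i, ∀ᶠ y in 𝓝 x, y ∈ coneE P → (vec (E i) y = 0 ↔ co (s i) (τ y) = 0)) ∧
      (∀ᶠ y in 𝓝 x, y ∈ coneE P → τ y = 0 → ∃ a : ℂ, y = a • x) ∧ (eval x.ofLp H = 0 → ∃ i, vec (E i) x = 0) := by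
  obtain ⟨σ, τ, s, e, u, hch, hσ0, hinj, he, hu, hu0, hH⟩ := hs.chart x hx
  have hτx : τ x = 0 := by
    rw [← hσ0]
    exact hch.left.self_of_nhds
  have hτa : AnalyticAt ℂ τ x := by
    rw [← hσ0]
    exact hch.τ_an
  have hτt : Tendsto τ (𝓝 x) (𝓝 0) := by
    have := hτa.continuousAt.tendsto
    rwa [hτx] at this
  have hright := hch.right
  rw [hσ0] at hright
  refine ⟨τ, s, hτa, hτx, hinj, fun i => ?_, ?_, ?_⟩
  · have h1 : ∀ᶠ y in 𝓝 (0 : ℂ × ℂ), e i y ≠ 0 := (he i).1.continuousAt.eventually_ne (he i).2.1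
    filter_upwards [hright, hτt.eventually h1, hτt.eventually (he i).2.2] with y h2 h3 h4 hy
    obtain ⟨a, ha, hya⟩ := h2 hy
    have h5 : vec (E i) y = a ^ c i • (co (s i) (τ y) • e i (τ y)) := by
      conv_lhs => rw [hya]
      rw [vec_smul (hE i), h4]
    rw [h5, smul_eq_zero, smul_eq_zero]
    constructor
    · rintro (h6 | h6 | h6)
      · exact absurd h6 (pow_ne_zero _ ha)
      · exact h6
      · exact absurd h6 h3
    · intro h6
      exact Or.inr (Or.inl h6)
  · filter_upwards [hright] with y h2 hy h3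
    obtain ⟨a, ha, hya⟩ := h2 hy
    refine ⟨a, ?_⟩
    rw [h3, hσ0] at hya
    exact hya
  · intro hHx
    have h1 := hH.self_of_nhds
    rw [hσ0, hHx] at h1
    have h2 := (mul_eq_zero.1 h1.symm).resolve_left hu0
    obtain ⟨i, -, hi⟩ := Finset.prod_eq_zero_iff.1 h2
    have h3 : co (s i) (0 : ℂ × ℂ) = 0 := eq_zero_of_pow_eq_zero hi
    refine ⟨i, ?_⟩
    have h4 := (he i).2.2.self_of_nhds
    rw [hσ0, h3, zero_smul] at h4
    exact h4

end BdyAux

open BdyAux

/-- MODULE H7: entire curves in the boundary -/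
theorem h1_of (hX : Surface (coneE P)) (hc : IsCone (coneE P)) (hP : Homog P) (hE : ∀ i l, (E i l).IsHomogeneous (c i)) (hs : Snc P H E b)
    (hB : NoBdyCurve P E) (𝒰 : Ultrafilter ℕ) (h𝒰 : (𝒰 : Filter ℕ) ≤ atTop) (F : ℕ → ℂ → EN N) (H' : ℂ → EN N)
    (hF : ∀ k, Differentiable ℂ (F k)) (hFK : ∀ k z, F k z ∈ oc P H) (hH' : Differentiable ℂ H') (hH : ∀ z, H' z ∈ coneE P ∧ H' z ∉ oc P H)
    (hlim : ∀ z, (∃ i i', i ≠ i' ∧ vec (E i) (H' z) = 0 ∧ vec (E i') (H' z) = 0) →
      ∃ r : ℝ, 0 < r ∧ ∃ u : ℕ → ℂ → ℂ, (∀ᶠ k in (𝒰 : Filter ℕ), DifferentiableOn ℂ (u k) (ball z r) ∧ ∀ w ∈ ball z r, u k w ≠ 0) ∧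
        TendstoLocallyUniformlyOn (fun k w => u k w • F k w) H' 𝒰 (ball z r)) (z z' : ℂ) : ∃ c : ℂ, H' z = c • H' z' := by
  have hne0 : ∀ z, H' z ≠ 0 := fun z h0 => hX.zero (h0 ▸ (hH z).1)
  -- the open sets `K i`
  have hzero_ne : ∀ i, ∀ x ∈ oc P H, vec (E i) x ≠ 0 := by
    intro i x hx h0
    have hx1 : x ∈ coneE P := hx.1
    obtain ⟨σ, τ, s, e, u, hch, hσ0, hinj, he, hu, hu0, hHe⟩ := hs.chart x hx1
    have h1 := (he i).2.2.self_of_nhds
    rw [hσ0, h0] at h1
    have h2 : co (s i) (0 : ℂ × ℂ) = 0 := (smul_eq_zero.1 h1.symm).resolve_right (he i).2.1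
    have h3 := hHe.self_of_nhds
    rw [hσ0] at h3
    apply hx.2 0
    rw [h3]
    have h4 : ∏ i, co (s i) (0 : ℂ × ℂ) ^ b i = 0 := by
      refine Finset.prod_eq_zero (Finset.mem_univ i) ?_
      rw [h2, zero_pow]
      have := hs.pos i
      omega
    rw [h4, mul_zero]
  have hopen : ∀ i z₀, vec (E i) (H' z₀) = 0 → ∀ᶠ z in 𝓝 z₀, vec (E i) (H' z) = 0 := by
    intro i z₀ h0
    by_cases hcr : ∃ i', i' ≠ i ∧ vec (E i') (H' z₀) = 0
    swap
    · push Not at hcr
      have h1 : ∀ᶠ z in 𝓝 z₀, ∀ i' ∈ (Finset.univ.filter fun i' => i' ≠ i), vec (E i') (H' z) ≠ 0 := by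
        rw [Filter.eventually_all_finset]
        intro i' hi'
        exact (((continuous_vec i').comp hH'.continuous).continuousAt (x := z₀)).eventually_ne (hcr i' (Finset.mem_filter.1 hi').2)
      filter_upwards [h1] with z hz
      obtain ⟨τ, s, -, -, -, -, -, h2⟩ := local_eqn hE hs (hH z).1
      obtain ⟨i'', hi''⟩ : ∃ i, vec (E i) (H' z) = 0 := by
        apply h2
        by_contra h3
        exact (hH z).2 ⟨(hH z).1, fun _ => h3⟩
      by_cases h4 : i'' = i
      · rwa [h4] at hi''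
      · exact absurd hi'' (hz i'' (Finset.mem_filter.2 ⟨Finset.mem_univ _, h4⟩))
    obtain ⟨i₂, hi₂, hi₂'⟩ := hcr
    set K : Set (EN N) := {x | x ∈ coneE P ∧ vec (E i) x ≠ 0} with hK
    obtain ⟨r, hr, u, hu, hconv⟩ := hlim z₀ ⟨i, i₂, hi₂.symm, h0, hi₂'⟩
    have hcl : ∀ x ∈ closure K, x ≠ 0 → x ∈ coneE P := fun x hx hx0 =>
      hX.closed x (closure_mono (fun y hy => hy.1) hx) hx0
    have heqn : ∀ x ∈ coneE P, ∃ g : EN N → ℂ, AnalyticAt ℂ g x ∧ ∀ᶠ y in 𝓝 x, y ∈ coneE P → (y ∉ K ↔ g y = 0) := by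
      intro x hx
      obtain ⟨τ, s, hτ, hτx, -, hloc, -, -⟩ := local_eqn hE hs hx
      refine ⟨fun y => co (s i) (τ y), AnalyticAt.comp (g := co (s i)) (f := τ) (analyticAt_co _ _) hτ, ?_⟩
      filter_upwards [hloc i] with y hy hyX
      rw [← hy hyX]
      constructor
      · intro h1
        by_contra h2
        exact h1 ⟨hyX, h2⟩
      · intro h1 h2
        exact h2.2 h1
    have h1 := Pool.Agent.H36.BPB.hur_of_eqn (X := coneE P) (K := K) hcl (fun y hy => hy.1) heqn (𝒰 : Filter ℕ) inferInstance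
      (fun k w => u k w • F k w) H' z₀ r hr ?_ hH'.differentiableOn hconv (hne0 z₀) ?_
    · filter_upwards [h1] with z hz
      by_contra h2
      exact hz ⟨(hH z).1, h2⟩
    · filter_upwards [hu] with n hn
      refine ⟨hn.1.smul (hF n).differentiableOn, fun w hw => ⟨hX.smul _ (hFK n w).1 _ (hn.2 w hw), ?_⟩⟩
      rw [vec_smul (hE i)]
      exact smul_ne_zero (pow_ne_zero _ (hn.2 w hw)) (hzero_ne i _ (hFK n w))
    · intro h2
      exact h2.2 h0
  -- all or nothing
  have hall : ∀ i z₀, vec (E i) (H' z₀) = 0 → ∀ z, vec (E i) (H' z) = 0 := by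
    intro i z₀ h0
    have h1 : IsClopen {z | vec (E i) (H' z) = 0} := by
      refine ⟨isClosed_eq ((continuous_vec i).comp hH'.continuous) continuous_const, ?_⟩
      rw [isOpen_iff_eventually]
      intro z hz
      exact hopen i z hz
    have h2 := h1.eq_univ ⟨z₀, h0⟩
    intro z
    have h3 : z ∈ {z | vec (E i) (H' z) = 0} := by
      rw [h2]
      exact Set.mem_univ z
    exact h3
  -- the curve in the projective space
  have hoL : ∀ z, (H' z).ofLp ≠ 0 := by
    intro z h0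
    apply hne0 z
    ext l
    simpa using congrFun h0 l
  set f : ℂ → PN N := fun z => Projectivization.mk ℂ (H' z).ofLp (hoL z) with hf
  have hfin : ∀ z z', f z = f z' → ∃ c : ℂ, H' z = c • H' z' := by
    intro z z' h1
    rw [hf] at h1
    obtain ⟨a, ha⟩ := (Projectivization.mk_eq_mk_iff' ℂ _ _ _ _).1 h1
    refine ⟨a, ?_⟩
    ext l
    have := congrFun ha l
    simpa using this.symm
  obtain ⟨i₀, hi₀⟩ : ∃ i, vec (E i) (H' 0) = 0 := by
    obtain ⟨τ, s, -, -, -, -, -, h1⟩ := local_eqn hE hs (hH 0).1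
    apply h1
    by_contra h2
    exact (hH 0).2 ⟨(hH 0).1, fun _ => h2⟩
  by_cases huniq : ∃ i', i' ≠ i₀ ∧ ∃ z₁, vec (E i') (H' z₁) = 0
  · -- two components
    obtain ⟨i', hne, z₁, hz₁⟩ := huniq
    have hA := hall i₀ 0 hi₀
    have hB' := hall i' z₁ hz₁
    have hloc : ∀ z₀, ∀ᶠ z in 𝓝 z₀, f z = f z₀ := by
      intro z₀
      obtain ⟨τ, s, hτ, hτx, hinj, hl, hcst, -⟩ := local_eqn hE hs (hH z₀).1
      have h1 := hH'.continuous.continuousAt (x := z₀)
      filter_upwards [h1.eventually (hl i₀), h1.eventually (hl i'), h1.eventually hcst] with z h2 h3 h4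
      have h5 := (h2 (hH z).1).1 (hA z)
      have h6 := (h3 (hH z).1).1 (hB' z)
      have hs1 : s i₀ ≠ none := by
        intro h7
        rw [h7] at h5
        exact one_ne_zero h5
      have hs2 : s i' ≠ none := by
        intro h7
        rw [h7] at h6
        exact one_ne_zero h6
      have hs3 : s i₀ ≠ s i' := fun h7 => hne (hinj i₀ i' hs1 h7).symm
      have h7 : τ (H' z) = 0 := by
        obtain ⟨b₁, hb₁⟩ := Option.ne_none_iff_exists'.1 hs1
        obtain ⟨b₂, hb₂⟩ := Option.ne_none_iff_exists'.1 hs2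
        rw [hb₁] at h5 hs3
        rw [hb₂] at h6 hs3
        cases b₁ <;> cases b₂
        · exact absurd rfl hs3
        · exact Prod.ext h5 h6
        · exact Prod.ext h6 h5
        · exact absurd rfl hs3
      obtain ⟨a, ha⟩ := h4 (hH z).1 h7
      rw [hf]
      simp only
      rw [Projectivization.mk_eq_mk_iff']
      refine ⟨a, ?_⟩
      funext l
      rw [ha]
      simp
    have hconst : IsLocallyConstant f := IsLocallyConstant.iff_eventually_eq f |>.2 fun z₀ => hloc z₀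
    exact hfin z z' (hconst.apply_eq_of_preconnectedSpace z z')
  · push Not at huniq
    apply hfin
    refine hB i₀ f ?_ ?_ ?_ z z'
    · intro z₀ _
      refine ⟨fun z => (H' z).ofLp, ?_, Eventually.of_forall fun z => ⟨hoL z, rfl⟩⟩
      have h1 : AnalyticAt ℂ H' z₀ := hH'.analyticAt z₀
      exact AnalyticAt.comp (g := fun v : EN N => v.ofLp) (f := H')
        ((EuclideanSpace.equiv (Fin (N + 1)) ℂ).toContinuousLinearMap.analyticAt _) h1
    · intro z
      refine ⟨(mk_mem_projVar hP (hoL z)).2 (hH z).1, fun l => ?_⟩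
      exact (vanishesAt_mk_iff (hE i₀ l) _ (hoL z)).2 (vec_eq_zero.1 (hall i₀ 0 hi₀ z) l)
    · intro i' hi' z
      have h1 := huniq i' hi' z
      rw [Ne, vec_eq_zero] at h1
      push Not at h1
      obtain ⟨l, hl⟩ := h1
      exact ⟨l, fun h2 => hl ((vanishesAt_mk_iff (hE i' l) _ (hoL z)).1 h2)⟩

end Pool.Agent.SR3
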