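import Pool.Agent.SR3.CDefs

/-!
# SR3 CRes: restriction to a smaller disc whose boundary meets no hole

`h' i = h i + ∑ M k i log (z - ζ k)` over the wells outside (a branch of the logarithm on the ball).
-/

set_option autoImplicit false

open Metric

noncomputable section

namespace Pool.Agent.SR3

variable {κ : Type} [Fintype κ]

/-- a branch of `log (z - c)` on a ball which does not contain `c` -/
private def lgc (z₁ c z : ℂ) : ℂ := Complex.log ((z - c) / (z₁ - c)) + Complex.log (z₁ - c)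

private theorem lgc_mem {z₁ c z : ℂ} {ρ₁ : ℝ} (hc : ρ₁ < ‖c - z₁‖) (hz : z ∈ ball z₁ ρ₁) : z₁ - c ≠ 0 ∧ z - c ≠ 0 ∧ (z - c) / (z₁ - c) ∈ Complex.slitPlane := by
  rw [mem_ball, dist_eq_norm] at hz
  have h1 : ‖z - z₁‖ < ‖z₁ - c‖ := by
    rw [norm_sub_rev z₁ c]
    exact hz.trans hc
  have h0 : 0 < ‖z₁ - c‖ := lt_of_le_of_lt (norm_nonneg _) h1
  have hne : z₁ - c ≠ 0 := norm_pos_iff.1 h0
  have h2 : (z - c) / (z₁ - c) = 1 + (z - z₁) / (z₁ - c) := by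
    field_simp
    ring
  have h3 : ‖(z - z₁) / (z₁ - c)‖ < 1 := by
    rw [norm_div, div_lt_one h0]
    exact h1
  have h4 : 0 < ((z - c) / (z₁ - c)).re := by
    rw [h2, Complex.add_re, Complex.one_re]
    have h5 := Complex.abs_re_le_norm ((z - z₁) / (z₁ - c))
    have h6 := abs_lt.1 (lt_of_le_of_lt h5 h3)
    linarith [h6.1]
  refine ⟨hne, ?_, Or.inl h4⟩
  intro h5
  rw [h5, zero_div] at h4
  simp at h4

private theorem lgc_re {z₁ c z : ℂ} {ρ₁ : ℝ} (hc : ρ₁ < ‖c - z₁‖) (hz : z ∈ ball z₁ ρ₁) : (lgc z₁ c z).re = Real.log ‖z - c‖ := by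
  obtain ⟨h1, h2, -⟩ := lgc_mem hc hz
  rw [lgc, Complex.add_re, Complex.log_re, Complex.log_re, norm_div, Real.log_div (norm_ne_zero_iff.2 h2) (norm_ne_zero_iff.2 h1)]
  ring

private theorem lgc_deriv {z₁ c z : ℂ} {ρ₁ : ℝ} (hc : ρ₁ < ‖c - z₁‖) (hz : z ∈ ball z₁ ρ₁) : HasDerivAt (lgc z₁ c) (1 / (z - c)) z := by
  obtain ⟨h1, h2, h3⟩ := lgc_mem hc hz
  have h4 : HasDerivAt (fun z : ℂ => (z - c) / (z₁ - c)) (1 / (z₁ - c)) z := ((hasDerivAt_id z).sub_const c).div_const _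
  have h5 := (h4.clog h3).add_const (Complex.log (z₁ - c))
  have h6 : 1 / (z₁ - c) / ((z - c) / (z₁ - c)) = 1 / (z - c) := by
    field_simp
  rw [h6] at h5
  exact h5

theorem wd_restrict {ζ : κ → ℂ} {s : κ → ℝ} {M : κ → Fin 2 → ℕ} {h : Fin 2 → ℂ → ℂ} {z₀ : ℂ} {ρ C η K : ℝ} (W : Wd ζ s M h z₀ ρ C η K) (hC : 1 ≤ C) (hη : 0 < η)
    (hK : 2 ≤ K) {z₁ : ℂ} {ρ₁ A : ℝ} (hρ₁ : 0 < ρ₁) (hb : ball z₁ ρ₁ ⊆ ball z₀ ρ) (hA : 1 ≤ A) (hρA : ρ ≤ A * ρ₁) (hl : ρ₁ ≤ ρ)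
    (hm : ∀ k, ρ₁ + s k < ‖ζ k - z₁‖ ∨ ‖ζ k - z₁‖ + s k < ρ₁) :
    ∃ (κ' : Type) (_ : Fintype κ') (e : κ' → κ) (h' : Fin 2 → ℂ → ℂ), Function.Injective e ∧ (∀ k, ζ k ∈ ball z₁ ρ₁ ↔ ∃ k', e k' = k) ∧
      Wd (ζ ∘ e) (s ∘ e) (M ∘ e) h' z₁ ρ₁ (A * C) η K ∧ ∀ i, ∀ z ∈ ball z₁ ρ₁, (∀ k, s k ≤ ‖z - ζ k‖) →
        sg (ζ ∘ e) (M ∘ e) h' i z = sg ζ M h i z ∧ sl (ζ ∘ e) (M ∘ e) h' i z = sl ζ M h i z := by
  classical
  -- the wells outside
  have hout : ∀ k, ζ k ∉ ball z₁ ρ₁ → ρ₁ + s k < ‖ζ k - z₁‖ := by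
    intro k hk
    rcases hm k with h1 | h1
    · exact h1
    · refine absurd ?_ hk
      rw [mem_ball, dist_eq_norm]
      linarith [W.s_pos k]
  have hout' : ∀ k, ζ k ∉ ball z₁ ρ₁ → ρ₁ < ‖ζ k - z₁‖ := fun k hk => by linarith [hout k hk, W.s_pos k]
  have hfar : ∀ k, ζ k ∉ ball z₁ ρ₁ → ∀ z ∈ ball z₁ ρ₁, s k ≤ ‖z - ζ k‖ := by
    intro k hk z hz
    rw [mem_ball, dist_eq_norm] at hz
    have h1 : ‖ζ k - z₁‖ ≤ ‖z - ζ k‖ + ‖z - z₁‖ := by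
      have : ζ k - z₁ = -(z - ζ k) + (z - z₁) := by ring
      rw [this]
      refine (norm_add_le _ _).trans ?_
      rw [norm_neg]
    linarith [hout k hk]
  set e : {k // ζ k ∈ ball z₁ ρ₁} → κ := Subtype.val with he
  set h' : Fin 2 → ℂ → ℂ := fun i z => h i z + ∑ k ∈ Finset.univ.filter (fun k => ζ k ∉ ball z₁ ρ₁), (M k i : ℂ) * lgc z₁ (ζ k) z with hh'
  have hsplitR : ∀ f : κ → ℝ, ∑ k, f k = ∑ k' : {k // ζ k ∈ ball z₁ ρ₁}, f (e k') + ∑ k ∈ Finset.univ.filter (fun k => ζ k ∉ ball z₁ ρ₁), f k := by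
    intro f
    rw [← Finset.sum_filter_add_sum_filter_not Finset.univ (fun k => ζ k ∈ ball z₁ ρ₁) f]
    congr 1
    exact (Finset.sum_subtype (Finset.univ.filter fun k => ζ k ∈ ball z₁ ρ₁) (fun x => by simp) f)
  have hsplitC : ∀ f : κ → ℂ, ∑ k, f k = ∑ k' : {k // ζ k ∈ ball z₁ ρ₁}, f (e k') + ∑ k ∈ Finset.univ.filter (fun k => ζ k ∉ ball z₁ ρ₁), f k := by
    intro f
    rw [← Finset.sum_filter_add_sum_filter_not Finset.univ (fun k => ζ k ∈ ball z₁ ρ₁) f]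
    congr 1
    exact (Finset.sum_subtype (Finset.univ.filter fun k => ζ k ∈ ball z₁ ρ₁) (fun x => by simp) f)
  have hsg : ∀ i, ∀ z ∈ ball z₁ ρ₁, sg (ζ ∘ e) (M ∘ e) h' i z = sg ζ M h i z := by
    intro i z hz
    have h1 : (h' i z).re = (h i z).re + ∑ k ∈ Finset.univ.filter (fun k => ζ k ∉ ball z₁ ρ₁), (M k i : ℝ) * Real.log ‖z - ζ k‖ := by
      rw [hh', Complex.add_re, Complex.re_sum]
      congr 1
      refine Finset.sum_congr rfl fun k hk => ?_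
      rw [Finset.mem_filter] at hk
      have h2 : ((M k i : ℂ) * lgc z₁ (ζ k) z).re = (M k i : ℝ) * (lgc z₁ (ζ k) z).re := by
        rw [← Complex.ofReal_natCast, Complex.re_ofReal_mul]
      rw [h2, lgc_re (hout' k hk.2) hz]
    rw [sg, sg, h1, hsplitR fun k => (M k i : ℝ) * Real.log ‖z - ζ k‖]
    simp only [Function.comp_apply]
    ring
  have hhd : ∀ i, ∀ z ∈ ball z₁ ρ₁, HasDerivAt (h' i) (deriv (h i) z + ∑ k ∈ Finset.univ.filter (fun k => ζ k ∉ ball z₁ ρ₁), (M k i : ℂ) / (z - ζ k)) z := by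
    intro i z hz
    have h1 : HasDerivAt (h i) (deriv (h i) z) z := ((W.hol i).differentiableAt (isOpen_ball.mem_nhds (hb hz))).hasDerivAt
    refine h1.add ?_
    have h2 : ∀ k ∈ Finset.univ.filter (fun k => ζ k ∉ ball z₁ ρ₁), HasDerivAt (fun z => (M k i : ℂ) * lgc z₁ (ζ k) z) ((M k i : ℂ) / (z - ζ k)) z := by
      intro k hk
      rw [Finset.mem_filter] at hk
      have h3 := (lgc_deriv (hout' k hk.2) hz).const_mul (M k i : ℂ)
      rwa [mul_one_div] at h3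
    have h3 := HasDerivAt.fun_sum h2
    exact h3
  have hsl : ∀ i, ∀ z ∈ ball z₁ ρ₁, sl (ζ ∘ e) (M ∘ e) h' i z = sl ζ M h i z := by
    intro i z hz
    rw [sl, sl, (hhd i z hz).deriv, hsplitC fun k => (M k i : ℂ) / (z - ζ k)]
    simp only [Function.comp_apply]
    ring
  have hall : ∀ z ∈ ball z₁ ρ₁, (∀ k' : {k // ζ k ∈ ball z₁ ρ₁}, s (e k') ≤ ‖z - ζ (e k')‖) → ∀ k, s k ≤ ‖z - ζ k‖ := by
    intro z hz h1 k
    by_cases hk : ζ k ∈ ball z₁ ρ₁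
    · exact h1 ⟨k, hk⟩
    · exact hfar k hk z hz
  have hC0 : 0 ≤ C := by linarith
  have hAC : C ≤ A * C := by nlinarith
  refine ⟨{k // ζ k ∈ ball z₁ ρ₁}, inferInstance, e, h', Subtype.val_injective, fun k => ⟨fun hk => ⟨⟨k, hk⟩, rfl⟩, ?_⟩, ?_, fun i z hz _ => ⟨hsg i z hz, hsl i z hz⟩⟩
  · rintro ⟨k', rfl⟩
    exact k'.2
  · refine ⟨fun i z hz => (hhd i z hz).differentiableAt.differentiableWithinAt, fun k => k.2, fun k i => W.one _ _, fun k i => (W.M_le _ _).trans hAC,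
      fun k => W.s_pos _, fun k => (W.s_le _).trans (Real.exp_le_exp.2 ?_), fun j k hjk => W.sep _ _ fun h1 => hjk (Subtype.val_injective h1),
      fun j k hjk => W.sepN _ _ hjk, ?_, ?_, ?_, ?_⟩
    · nlinarith
    · have h1 : (Fintype.card {k // ζ k ∈ ball z₁ ρ₁} : ℝ) ≤ Fintype.card κ := by exact_mod_cast Fintype.card_subtype_le _
      refine h1.trans (W.card.trans ?_)
      nlinarith
    · intro i z hz h1
      rw [hsg i z hz]
      have h2 := W.low i z (hb hz) (hall z hz h1)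
      linarith
    · intro i z hz h1
      rw [hsg i z hz]
      refine (W.upp i z (hb hz) (hall z hz h1)).trans ?_
      nlinarith
    · intro k i z hz h1
      rw [hsg i z hz]
      exact (W.rim _ i z (hb hz) h1).trans hAC

/-- a circle which meets no hole -/
theorem good_circle {ζ : κ → ℂ} {s : κ → ℝ} (hs : ∀ k, 0 ≤ s k) {z₁ : ℂ} {r₁ r₂ : ℝ} (h : 2 * ∑ k, s k < r₂ - r₁) :
    ∃ r : ℝ, r₁ ≤ r ∧ r ≤ r₂ ∧ ∀ k, r + s k < ‖ζ k - z₁‖ ∨ ‖ζ k - z₁‖ + s k < r := by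
  classical
  by_contra hcon
  push Not at hcon
  have hsub : Set.Icc r₁ r₂ ⊆ ⋃ k, Set.Icc (‖ζ k - z₁‖ - s k) (‖ζ k - z₁‖ + s k) := by
    intro r hr
    obtain ⟨k, h1, h2⟩ := hcon r hr.1 hr.2
    exact Set.mem_iUnion.2 ⟨k, by constructor <;> linarith⟩
  have h1 : MeasureTheory.volume (Set.Icc r₁ r₂) ≤ ∑ k, MeasureTheory.volume (Set.Icc (‖ζ k - z₁‖ - s k) (‖ζ k - z₁‖ + s k)) :=
    (MeasureTheory.measure_mono hsub).trans (MeasureTheory.measure_iUnion_fintype_le _ _)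
  simp only [Real.volume_Icc] at h1
  have h2 : ∀ k, ‖ζ k - z₁‖ + s k - (‖ζ k - z₁‖ - s k) = 2 * s k := fun k => by ring
  simp only [h2] at h1
  rw [← ENNReal.ofReal_sum_of_nonneg fun k _ => by linarith [hs k], ← Finset.mul_sum] at h1
  have h3 : 0 ≤ 2 * ∑ k, s k := by
    have := Finset.sum_nonneg fun k (_ : k ∈ Finset.univ) => hs k
    linarith
  have h4 := (ENNReal.ofReal_le_ofReal_iff h3).1 h1
  linarith

end Pool.Agent.SR3
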