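import Pool.Agent.SR3.CDefs
import Pool.Agent.SR3.CRes

/-!
# SR3 CAff: the pure case

`ℓ = a 1 sl 0 - a 0 sl 1 = a 1 deriv (h 0) - a 0 deriv (h 1)` is holomorphic; `|b ℓ ^ m - q| ≤ θ'` on a circle which meets no tiny disc, so inside it (maximum principle).
Cauchy's estimate for `b ℓ ^ m - q` and `|b ℓ ^ m| ≥ c / 2` bound `ℓ'`, so `ℓ` is almost constant: `l := ℓ (z₀)`.
-/

set_option autoImplicit false

open Metric

noncomputable section

namespace Pool.Agent.SR3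

private theorem le_one_add_pow {x : ℝ} (hx : 0 ≤ x) {m : ℕ} (hm : 1 ≤ m) : x ≤ 1 + x ^ m := by
  rcases le_total x 1 with h | h
  · have := pow_nonneg hx m
    linarith
  · have := le_self_pow₀ h (by omega : m ≠ 0)
    linarith

private theorem val_bound {w b q : ℂ} {m : ℕ} (hm : 1 ≤ m) {C θ' : ℝ} (hqC : ‖q‖ ≤ C) (hb : b ≠ 0) (hθ1 : θ' ≤ 1)
    (hw : ‖b * w ^ m - q‖ ≤ θ') : ‖w‖ ≤ 1 + (C + 1) / ‖b‖ := by
  have hb0 : 0 < ‖b‖ := norm_pos_iff.2 hb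
  have h1 : ‖b‖ * ‖w‖ ^ m ≤ C + 1 := by
    calc ‖b‖ * ‖w‖ ^ m = ‖(b * w ^ m - q) + q‖ := by rw [sub_add_cancel, norm_mul, norm_pow]
      _ ≤ ‖b * w ^ m - q‖ + ‖q‖ := norm_add_le _ _
      _ ≤ C + 1 := by linarith
  have h2 : ‖w‖ ^ m ≤ (C + 1) / ‖b‖ := by
    rw [le_div_iff₀ hb0]
    linarith
  linarith [le_one_add_pow (norm_nonneg w) hm]

private theorem val_lower {w b q : ℂ} {m : ℕ} {c θ' : ℝ} (hq : c ≤ ‖q‖) (hθc : θ' ≤ c / 2)
    (hw : ‖b * w ^ m - q‖ ≤ θ') : c / 2 ≤ ‖b‖ * ‖w‖ ^ m := by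
  have : ‖q‖ ≤ ‖b * w ^ m - q‖ + ‖b * w ^ m‖ := by
    calc ‖q‖ = ‖b * w ^ m - (b * w ^ m - q)‖ := by rw [sub_sub_cancel]
      _ ≤ ‖b * w ^ m‖ + ‖b * w ^ m - q‖ := norm_sub_le _ _
      _ = _ := add_comm _ _
  rw [norm_mul, norm_pow] at this
  linarith

private theorem der_small {ℓ : ℂ → ℂ} {b q : ℂ} {m : ℕ} (hm : 1 ≤ m) {c C θ' d : ℝ} (hc : 0 < c) (hq : c ≤ ‖q‖) (hqC : ‖q‖ ≤ C) (hb : b ≠ 0)
    (hθ1 : θ' ≤ 1) (hθc : θ' ≤ c / 2) (hd : 0 < d) {V : Set ℂ} (hV : IsOpen V) (hℓ : DifferentiableOn ℂ ℓ V) {z : ℂ}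
    (hzV : closedBall z d ⊆ V) (hbd : ∀ w ∈ closedBall z d, ‖b * ℓ w ^ m - q‖ ≤ θ') :
    ‖deriv ℓ z‖ ≤ 2 * θ' * (1 + (C + 1) / ‖b‖) / (c * d) := by
  have hzz : z ∈ closedBall z d := mem_closedBall_self hd.le
  have hθ0 : 0 ≤ θ' := (norm_nonneg _).trans (hbd z hzz)
  have hℓz : DifferentiableAt ℂ ℓ z := hℓ.differentiableAt (hV.mem_nhds (hzV hzz))
  set g : ℂ → ℂ := fun w => b * ℓ w ^ m - q with hg
  have hgV : DifferentiableOn ℂ g V := ((hℓ.pow m).const_mul b).sub_const q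
  have hcl : DiffContOnCl ℂ g (ball z d) := by
    refine DifferentiableOn.diffContOnCl ?_
    rw [closure_ball z hd.ne']
    exact hgV.mono hzV
  have h1 : ‖deriv g z‖ ≤ θ' / d :=
    Complex.norm_deriv_le_of_forall_mem_sphere_norm_le hd hcl fun w hw => hbd w (sphere_subset_closedBall hw)
  have h2 : deriv g z = b * (m * ℓ z ^ (m - 1) * deriv ℓ z) := by
    have : HasDerivAt g (b * (m * ℓ z ^ (m - 1) * deriv ℓ z)) z := by
      have := ((hℓz.hasDerivAt.pow m).const_mul b).sub_const q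
      simpa [hg] using this
    exact this.deriv
  have h3 : ‖b‖ * ((m : ℝ) * ‖ℓ z‖ ^ (m - 1) * ‖deriv ℓ z‖) ≤ θ' / d := by
    have : ‖deriv g z‖ = ‖b‖ * ((m : ℝ) * ‖ℓ z‖ ^ (m - 1) * ‖deriv ℓ z‖) := by
      rw [h2, norm_mul, norm_mul, norm_mul, norm_pow, Complex.norm_natCast]
    rw [← this]; exact h1
  have hU := val_bound hm hqC hb hθ1 (hbd z hzz)
  have hL := val_lower hq hθc (hbd z hzz)
  have hm1 : (1 : ℝ) ≤ m := by exact_mod_cast hm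
  have h4 : ‖ℓ z‖ ^ m = ‖ℓ z‖ ^ (m - 1) * ‖ℓ z‖ := by
    rw [← pow_succ]; congr 1; omega
  have h5 : c / 2 * ‖deriv ℓ z‖ ≤ θ' / d * (1 + (C + 1) / ‖b‖) := by
    calc c / 2 * ‖deriv ℓ z‖ ≤ ‖b‖ * ‖ℓ z‖ ^ m * ‖deriv ℓ z‖ := mul_le_mul_of_nonneg_right hL (norm_nonneg _)
      _ ≤ (m : ℝ) * (‖b‖ * ‖ℓ z‖ ^ m * ‖deriv ℓ z‖) := le_mul_of_one_le_left (by positivity) hm1
      _ = ‖b‖ * ((m : ℝ) * ‖ℓ z‖ ^ (m - 1) * ‖deriv ℓ z‖) * ‖ℓ z‖ := by rw [h4]; ring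
      _ ≤ θ' / d * ‖ℓ z‖ := mul_le_mul_of_nonneg_right h3 (norm_nonneg _)
      _ ≤ θ' / d * (1 + (C + 1) / ‖b‖) := mul_le_mul_of_nonneg_left hU (by positivity)
  rw [le_div_iff₀ (by positivity)]
  calc ‖deriv ℓ z‖ * (c * d) = 2 * d * (c / 2 * ‖deriv ℓ z‖) := by ring
    _ ≤ 2 * d * (θ' / d * (1 + (C + 1) / ‖b‖)) := mul_le_mul_of_nonneg_left h5 (by positivity)
    _ = 2 * θ' * (1 + (C + 1) / ‖b‖) := by field_simp

/-- the linear approximation of a primitive -/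
private theorem prim_lin {G : ℂ → ℂ} {z₀ : ℂ} {R ρ ε : ℝ} (hRρ : R ≤ ρ) (hG : DifferentiableOn ℂ G (ball z₀ ρ)) {l : ℂ}
    (hl : ∀ z ∈ ball z₀ R, ‖deriv G z - l‖ ≤ ε) {z w : ℂ} (hz : z ∈ ball z₀ R) (hw : w ∈ ball z₀ R) :
    ‖(G z - l * z) - (G w - l * w)‖ ≤ ε * ‖z - w‖ := by
  have hd : ∀ x ∈ ball z₀ R, HasDerivAt (fun y => G y - l * y) (deriv G x - l) x := by
    intro x hx
    have hGx : DifferentiableAt ℂ G x := hG.differentiableAt (isOpen_ball.mem_nhds (ball_subset_ball hRρ hx))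
    have := hGx.hasDerivAt.fun_sub ((hasDerivAt_id' x).const_mul l)
    rwa [mul_one] at this
  exact Convex.norm_image_sub_le_of_norm_deriv_le (f := fun y => G y - l * y) (fun x hx => (hd x hx).differentiableAt)
    (fun x hx => by rw [(hd x hx).deriv]; exact hl x hx) (convex_ball z₀ R) hw hz

theorem wd_aff {C η : ℝ} (hC : 1 ≤ C) (hη : 0 < η) {m : ℕ} (hm : 1 ≤ m) (a : Fin 2 → ℕ) {b : ℂ} (hb : b ≠ 0) {c : ℝ} (hc : 0 < c) {θ : ℝ} (hθ : 0 < θ) :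
    ∃ θ₀ : ℝ, 0 < θ₀ ∧ ∀ θ' : ℝ, 0 < θ' → θ' ≤ θ₀ → ∃ ρ₁ : ℝ, ∀ (κ : Type) [Fintype κ] (ζ : κ → ℂ) (s : κ → ℝ) (M : κ → Fin 2 → ℕ) (h : Fin 2 → ℂ → ℂ)
      (z₀ : ℂ) (ρ K : ℝ), Wd ζ s M h z₀ ρ C η K → 2 ≤ K → ρ₁ ≤ ρ → (∀ k, M k 0 * a 1 = M k 1 * a 0) → ∀ q : ℂ, c ≤ ‖q‖ → ‖q‖ ≤ C →
        (∀ z ∈ ball z₀ ρ, (∀ k, Real.exp (-(θ' * ρ)) / 2 ≤ ‖z - ζ k‖) → ‖b * ((a 1 : ℂ) * sl ζ M h 0 z - (a 0 : ℂ) * sl ζ M h 1 z) ^ m - q‖ ≤ θ') →
          (∃ k, ζ k = z₀) → ∃ l : ℂ, c ≤ 2 * ‖b‖ * ‖l‖ ^ m ∧ ∀ z ∈ ball z₀ ((1 - θ) * ρ), (∀ k, s k ≤ ‖z - ζ k‖) →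
            |(a 1 : ℝ) * sg ζ M h 0 z - (a 0 : ℝ) * sg ζ M h 1 z - (l * (z - z₀)).re| ≤ θ * ρ := by
  classical
  have hb0 : 0 < ‖b‖ := norm_pos_iff.2 hb
  rcases le_or_gt 1 θ with hθ1 | hθ1
  · -- the ball is empty
    refine ⟨1, one_pos, fun θ' _ _ => ⟨1, fun κ _ ζ s M h z₀ ρ K W hK hρ hpar q hq hqC hbd hex => ?_⟩⟩
    refine ⟨((1 + c / (2 * ‖b‖) : ℝ) : ℂ), ?_, fun z hz => ?_⟩
    · have hx : (1 : ℝ) ≤ 1 + c / (2 * ‖b‖) := by
        have : 0 < c / (2 * ‖b‖) := by positivity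
        linarith
      have hn : ‖((1 + c / (2 * ‖b‖) : ℝ) : ℂ)‖ = 1 + c / (2 * ‖b‖) := by
        rw [Complex.norm_real, Real.norm_of_nonneg (by linarith)]
      rw [hn]
      have h1 : 1 + c / (2 * ‖b‖) ≤ (1 + c / (2 * ‖b‖)) ^ m := le_self_pow₀ hx (by omega)
      have h2 : c = 2 * ‖b‖ * (c / (2 * ‖b‖)) := by field_simp
      calc c = 2 * ‖b‖ * (c / (2 * ‖b‖)) := h2
        _ ≤ 2 * ‖b‖ * (1 + c / (2 * ‖b‖)) ^ m := mul_le_mul_of_nonneg_left (by linarith) (by positivity)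
    · exfalso
      have : (1 - θ) * ρ ≤ 0 := mul_nonpos_of_nonpos_of_nonneg (by linarith) (by linarith)
      rw [mem_ball] at hz
      linarith [dist_nonneg (x := z) (y := z₀)]
  set U : ℝ := 1 + (C + 1) / ‖b‖ with hU
  have hU1 : 1 ≤ U := by
    have : 0 < (C + 1) / ‖b‖ := by positivity
    rw [hU]; linarith
  refine ⟨min (min 1 (c / 2)) (c * θ ^ 2 / (32 * U)), by positivity, fun θ' hθ' hle => ?_⟩
  have hle1 : θ' ≤ 1 := hle.trans ((min_le_left _ _).trans (min_le_left _ _))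
  have hlec : θ' ≤ c / 2 := hle.trans ((min_le_left _ _).trans (min_le_right _ _))
  have hle3 : θ' ≤ c * θ ^ 2 / (32 * U) := hle.trans (min_le_right _ _)
  set A : ℝ := ((a 0 : ℝ) + a 1) * C + U with hA
  have hA0 : 0 ≤ A := by positivity
  refine ⟨max (max 1 (8 * C / (θ * θ'))) (max (2 * A / θ) (2 / (1 - θ))), fun κ _ ζ s M h z₀ ρ K W hK hρ hpar q hq hqC hbd hex => ?_⟩
  have hρ1 : 1 ≤ ρ := (le_max_left _ _).trans ((le_max_left _ _).trans hρ)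
  have hρ2 : 8 * C / (θ * θ') ≤ ρ := (le_max_right _ _).trans ((le_max_left _ _).trans hρ)
  have hρ3 : 2 * A / θ ≤ ρ := (le_max_left _ _).trans ((le_max_right _ _).trans hρ)
  have hρ4 : 2 / (1 - θ) ≤ ρ := (le_max_right _ _).trans ((le_max_right _ _).trans hρ)
  have hρ0 : 0 < ρ := by linarith
  have h1θ : 0 < 1 - θ := by linarith
  -- the function
  set G : ℂ → ℂ := fun z => (a 1 : ℂ) * h 0 z - (a 0 : ℂ) * h 1 z with hG
  have hGd : DifferentiableOn ℂ G (ball z₀ ρ) := ((W.hol 0).const_mul _).sub ((W.hol 1).const_mul _)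
  have hℓd : DifferentiableOn ℂ (deriv G) (ball z₀ ρ) := hGd.deriv isOpen_ball
  have hparC : ∀ k, (a 1 : ℂ) * (M k 0 : ℂ) = (a 0 : ℂ) * (M k 1 : ℂ) := by
    intro k
    have : ((M k 0 * a 1 : ℕ) : ℂ) = ((M k 1 * a 0 : ℕ) : ℂ) := by rw [hpar k]
    push_cast at this
    linear_combination this
  have hparR : ∀ k, (a 1 : ℝ) * (M k 0 : ℝ) = (a 0 : ℝ) * (M k 1 : ℝ) := by
    intro k
    have : ((M k 0 * a 1 : ℕ) : ℝ) = ((M k 1 * a 0 : ℕ) : ℝ) := by rw [hpar k]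
    push_cast at this
    linear_combination this
  have hsl : ∀ z ∈ ball z₀ ρ, (a 1 : ℂ) * sl ζ M h 0 z - (a 0 : ℂ) * sl ζ M h 1 z = deriv G z := by
    intro z hz
    have h0 : DifferentiableAt ℂ (h 0) z := (W.hol 0).differentiableAt (isOpen_ball.mem_nhds hz)
    have h1 : DifferentiableAt ℂ (h 1) z := (W.hol 1).differentiableAt (isOpen_ball.mem_nhds hz)
    have hdG : deriv G z = (a 1 : ℂ) * deriv (h 0) z - (a 0 : ℂ) * deriv (h 1) z :=
      ((h0.hasDerivAt.const_mul _).sub (h1.hasDerivAt.const_mul _)).deriv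
    have hsum : (a 1 : ℂ) * ∑ k, (M k 0 : ℂ) / (z - ζ k) = (a 0 : ℂ) * ∑ k, (M k 1 : ℂ) / (z - ζ k) := by
      rw [Finset.mul_sum, Finset.mul_sum]
      refine Finset.sum_congr rfl fun k _ => ?_
      rw [← mul_div_assoc, ← mul_div_assoc, hparC k]
    rw [hdG]
    simp only [sl]
    linear_combination hsum
  have hsg : ∀ z, (a 1 : ℝ) * sg ζ M h 0 z - (a 0 : ℝ) * sg ζ M h 1 z = (G z).re := by
    intro z
    have hsum : (a 1 : ℝ) * ∑ k, (M k 0 : ℝ) * Real.log ‖z - ζ k‖ = (a 0 : ℝ) * ∑ k, (M k 1 : ℝ) * Real.log ‖z - ζ k‖ := by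
      rw [Finset.mul_sum, Finset.mul_sum]
      refine Finset.sum_congr rfl fun k _ => ?_
      rw [← mul_assoc, ← mul_assoc, hparR k]
    have hre : (G z).re = (a 1 : ℝ) * (h 0 z).re - (a 0 : ℝ) * (h 1 z).re := by
      simp [hG]
    rw [hre]
    simp only [sg]
    linear_combination hsum
  -- a circle which meets no tiny disc
  set e : ℝ := Real.exp (-(θ' * ρ)) / 2 with he
  have he0 : 0 < e := by positivity
  have hcirc : 2 * ∑ _k : κ, e < (1 - θ / 4) * ρ - (1 - θ / 2) * ρ := by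
    rw [Finset.sum_const, Finset.card_univ, nsmul_eq_mul]
    have hexp : Real.exp (-(θ' * ρ)) < 1 / (θ' * ρ) := by
      rw [Real.exp_neg, ← one_div]
      refine one_div_lt_one_div_of_lt (by positivity) ?_
      have := Real.add_one_le_exp (θ' * ρ)
      linarith
    have hcard := W.card
    have h1 : 2 * ((Fintype.card κ : ℝ) * e) ≤ C * ρ * Real.exp (-(θ' * ρ)) := by
      rw [he]
      have : (Fintype.card κ : ℝ) * Real.exp (-(θ' * ρ)) ≤ C * ρ * Real.exp (-(θ' * ρ)) :=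
        mul_le_mul_of_nonneg_right hcard (Real.exp_pos _).le
      linarith
    have h2 : C * ρ * Real.exp (-(θ' * ρ)) ≤ C * ρ * (1 / (θ' * ρ)) := mul_le_mul_of_nonneg_left hexp.le (by positivity)
    have h3 : C * ρ * (1 / (θ' * ρ)) = C / θ' := by field_simp
    have h4 : 8 * C / (θ * θ') = 8 * (C / θ') / θ := by field_simp
    have h5 : 8 * (C / θ') ≤ ρ * θ := by
      rw [h4, div_le_iff₀ hθ] at hρ2
      exact hρ2
    have h6 : 0 < C / θ' := by positivity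
    nlinarith
  obtain ⟨r, hr1, hr2, hrk⟩ := good_circle (ζ := ζ) (s := fun _ => e) (fun _ => he0.le) (z₁ := z₀) hcirc
  have hr0 : 0 < r := lt_of_lt_of_le (by nlinarith) hr1
  have hrρ : r < ρ := lt_of_le_of_lt hr2 (by nlinarith)
  have hballs : closedBall z₀ r ⊆ ball z₀ ρ := closedBall_subset_ball hrρ
  have hin : ∀ w ∈ closedBall z₀ r, ‖b * deriv G w ^ m - q‖ ≤ θ' := by
    intro w hw
    have hd : DiffContOnCl ℂ (fun w => b * deriv G w ^ m - q) (ball z₀ r) := by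
      refine DifferentiableOn.diffContOnCl ?_
      rw [closure_ball z₀ hr0.ne']
      exact (((hℓd.pow m).const_mul b).sub_const q).mono hballs
    refine Complex.norm_le_of_forall_mem_frontier_norm_le isBounded_ball hd (fun z hz => ?_) (by rw [closure_ball z₀ hr0.ne']; exact hw)
    rw [frontier_ball z₀ hr0.ne'] at hz
    have hzb : z ∈ ball z₀ ρ := hballs (sphere_subset_closedBall hz)
    have hzr : ‖z - z₀‖ = r := by rw [← dist_eq_norm]; exact hz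
    rw [← hsl z hzb]
    refine hbd z hzb fun k => ?_
    rcases hrk k with hk | hk
    · have := norm_sub_norm_le (ζ k - z₀) (z - z₀)
      have h2 : ‖ζ k - z₀ - (z - z₀)‖ = ‖z - ζ k‖ := by rw [← norm_neg]; congr 1; ring
      rw [h2, hzr] at this
      linarith
    · have := norm_sub_norm_le (z - z₀) (ζ k - z₀)
      have h2 : ‖z - z₀ - (ζ k - z₀)‖ = ‖z - ζ k‖ := by congr 1; ring
      rw [h2, hzr] at this
      linarith
  -- the derivative of `ℓ`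
  set d : ℝ := θ * ρ / 4 with hd
  have hd0 : 0 < d := by positivity
  set R : ℝ := (1 - θ) * ρ with hR
  have hRρ : R ≤ ρ := by rw [hR]; nlinarith
  have hR2 : 2 ≤ R := by
    rw [div_le_iff₀ h1θ] at hρ4
    rw [hR]; linarith
  have hsubd : ∀ z ∈ ball z₀ R, closedBall z d ⊆ closedBall z₀ r := by
    intro z hz w hw
    rw [mem_ball] at hz
    rw [mem_closedBall] at hw ⊢
    have := dist_triangle w z z₀
    have h2 : R + d ≤ r := by
      refine le_trans ?_ hr1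
      rw [hR, hd]; nlinarith
    linarith
  have hderℓ : ∀ z ∈ ball z₀ R, ‖deriv (deriv G) z‖ ≤ θ / (4 * ρ) := by
    intro z hz
    have h1 := der_small hm hc hq hqC hb hle1 hlec hd0 isOpen_ball hℓd ((hsubd z hz).trans hballs) fun w hw => hin w (hsubd z hz hw)
    refine h1.trans ?_
    rw [← hU, hd, div_le_div_iff₀ (by positivity) (by positivity)]
    have h2 : θ' * (32 * U) ≤ c * θ ^ 2 := by
      rw [le_div_iff₀ (by positivity)] at hle3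
      exact hle3
    have h3 : 0 ≤ ρ := hρ0.le
    nlinarith [mul_le_mul_of_nonneg_right h2 h3]
  have hz₀R : z₀ ∈ ball z₀ R := mem_ball_self (by linarith)
  set l : ℂ := deriv G z₀ with hl
  have hz₀r : z₀ ∈ closedBall z₀ r := mem_closedBall_self hr0.le
  have hlU : ‖l‖ ≤ U := val_bound hm hqC hb hle1 (hin z₀ hz₀r)
  have hlow := val_lower hq hlec (hin z₀ hz₀r)
  have hlin : ∀ z ∈ ball z₀ R, ‖deriv G z - l‖ ≤ θ / 4 := by
    intro z hz
    have h1 := Convex.norm_image_sub_le_of_norm_deriv_le (f := deriv G)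
      (fun x hx => hℓd.differentiableAt (isOpen_ball.mem_nhds (ball_subset_ball hRρ hx))) hderℓ (convex_ball z₀ R) hz₀R hz
    refine h1.trans ?_
    have h2 : ‖z - z₀‖ ≤ ρ := by
      rw [← dist_eq_norm]; rw [mem_ball] at hz; linarith
    calc θ / (4 * ρ) * ‖z - z₀‖ ≤ θ / (4 * ρ) * ρ := mul_le_mul_of_nonneg_left h2 (by positivity)
      _ = θ / 4 := by field_simp
  refine ⟨l, by linarith, fun z hz _ => ?_⟩
  -- a point of the rim of the hole at `z₀`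
  obtain ⟨k, hk⟩ := hex
  have hsk0 := W.s_pos k
  have hsk1 : s k ≤ 1 := (W.s_le k).trans (Real.exp_le_one_iff.2 (by nlinarith))
  set w : ℂ := z₀ + (s k : ℂ) with hw
  have hwk : ‖w - z₀‖ = s k := by
    rw [hw, add_sub_cancel_left, Complex.norm_real, Real.norm_of_nonneg hsk0.le]
  have hwR : w ∈ ball z₀ R := by
    rw [mem_ball, dist_eq_norm, hwk]; linarith
  have hwρ : w ∈ ball z₀ ρ := ball_subset_ball hRρ hwR
  have hwall : ∀ j, s j ≤ ‖w - ζ j‖ := by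
    intro j
    by_cases hj : j = k
    · subst hj
      rw [hk, hwk]
    · have h1 := W.sep j k hj
      have h2 := W.sep k j (Ne.symm hj)
      have h3 : ‖ζ k - ζ j‖ = ‖ζ j - ζ k‖ := norm_sub_rev _ _
      rw [h3] at h2
      have h4 := norm_sub_norm_le (ζ j - ζ k) (w - ζ k)
      have h5 : ‖ζ j - ζ k - (w - ζ k)‖ = ‖w - ζ j‖ := by rw [← norm_neg]; congr 1; ring
      have h6 : ‖w - ζ k‖ = s k := by rw [hk, hwk]
      rw [h5, h6] at h4
      linarith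
  have hsgw : ∀ i, |sg ζ M h i w| ≤ C := fun i =>
    abs_le.2 ⟨W.low i w hwρ hwall, W.rim k i w hwρ (by rw [hk, hwk])⟩
  have hGw : |(G w).re| ≤ ((a 0 : ℝ) + a 1) * C := by
    rw [← hsg w]
    calc |(a 1 : ℝ) * sg ζ M h 0 w - (a 0 : ℝ) * sg ζ M h 1 w| ≤ |(a 1 : ℝ) * sg ζ M h 0 w| + |(a 0 : ℝ) * sg ζ M h 1 w| := abs_sub _ _
      _ = (a 1 : ℝ) * |sg ζ M h 0 w| + (a 0 : ℝ) * |sg ζ M h 1 w| := by
          rw [abs_mul, abs_mul, Nat.abs_cast, Nat.abs_cast]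
      _ ≤ (a 1 : ℝ) * C + (a 0 : ℝ) * C := add_le_add (mul_le_mul_of_nonneg_left (hsgw 0) (Nat.cast_nonneg _))
          (mul_le_mul_of_nonneg_left (hsgw 1) (Nat.cast_nonneg _))
      _ = ((a 0 : ℝ) + a 1) * C := by ring
  have hprim := prim_lin hRρ hGd hlin hz hwR
  rw [hsg z]
  have hid : (G z).re - (l * (z - z₀)).re = ((G z - l * z) - (G w - l * w)).re + (G w).re - (l * (w - z₀)).re := by
    simp only [Complex.sub_re, Complex.mul_re, Complex.sub_im]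
    ring
  rw [hid]
  have hzw : ‖z - w‖ ≤ 2 * ρ := by
    have h1 : dist z z₀ < R := hz
    have h2 : dist w z₀ < R := hwR
    rw [← dist_eq_norm]
    linarith [dist_triangle_right z w z₀]
  have h1 : |((G z - l * z) - (G w - l * w)).re| ≤ θ / 4 * (2 * ρ) :=
    (Complex.abs_re_le_norm _).trans (hprim.trans (mul_le_mul_of_nonneg_left hzw (by positivity)))
  have h2 : |(l * (w - z₀)).re| ≤ U := by
    refine (Complex.abs_re_le_norm _).trans ?_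
    rw [norm_mul, hwk]
    calc ‖l‖ * s k ≤ U * 1 := mul_le_mul hlU hsk1 hsk0.le (by linarith)
      _ = U := mul_one _
  have h3 : A ≤ θ * ρ / 2 := by
    rw [div_le_iff₀ hθ] at hρ3
    linarith
  have h4 := abs_le.1 h1
  have h5 := abs_le.1 h2
  have h6 := abs_le.1 hGw
  rw [abs_le]
  constructor <;> nlinarith [h4.1, h4.2, h5.1, h5.2, h6.1, h6.2]

end Pool.Agent.SR3
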