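import Pool.Agent.SR3.CDefs
import Pool.Agent.SR2.AHar

/-!
# SR3 CBdd: bounds for the potentials with the wells removed

`Hh ≥ sg ≥ - C` off the holes, and in the holes by the minimum principle.  A circle about `z₀` of radius between `ρ / 16` and `ρ / 8` meets no hole; Jensen on it
bounds `Hh z₀`; Harnack.
-/

set_option autoImplicit false

open Metric Real

noncomputable section

namespace Pool.Agent.SR3

private theorem exists_r (κ : Type) [Fintype κ] (d s : κ → ℝ) {ρ e : ℝ} (hs0 : ∀ k, 0 < s k) (hse : ∀ k, s k ≤ e)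
    (hsum : 2 * (Fintype.card κ : ℝ) * e < ρ / 16) : ∃ r ∈ Set.Icc (ρ / 16) (ρ / 8), ∀ k, s k ≤ |r - d k| := by
  by_contra hcon
  push Not at hcon
  have hsub : Set.Icc (ρ / 16) (ρ / 8) ⊆ ⋃ k, Set.Ioo (d k - s k) (d k + s k) := by
    intro r hr
    obtain ⟨k, hk⟩ := hcon r hr
    rw [abs_lt] at hk
    exact Set.mem_iUnion.2 ⟨k, ⟨by linarith [hk.1], by linarith [hk.2]⟩⟩
  have h1 : MeasureTheory.volume (Set.Icc (ρ / 16) (ρ / 8)) ≤ ENNReal.ofReal (2 * (Fintype.card κ : ℝ) * e) := by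
    calc MeasureTheory.volume (Set.Icc (ρ / 16) (ρ / 8)) ≤ MeasureTheory.volume (⋃ k, Set.Ioo (d k - s k) (d k + s k)) :=
          MeasureTheory.measure_mono hsub
      _ ≤ ∑ k, MeasureTheory.volume (Set.Ioo (d k - s k) (d k + s k)) := MeasureTheory.measure_iUnion_fintype_le _ _
      _ ≤ ∑ _k : κ, ENNReal.ofReal (2 * e) := by
          refine Finset.sum_le_sum fun k _ => ?_
          rw [Real.volume_Ioo]
          exact ENNReal.ofReal_le_ofReal (by linarith [hse k])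
      _ = ENNReal.ofReal (2 * (Fintype.card κ : ℝ) * e) := by
          rw [Finset.sum_const, Finset.card_univ, nsmul_eq_mul, ← ENNReal.ofReal_natCast, ← ENNReal.ofReal_mul (by positivity)]
          congr 1
          ring
  rw [Real.volume_Icc] at h1
  by_cases hk : Nonempty κ
  · obtain ⟨k⟩ := hk
    have he : 0 < e := (hs0 k).trans_le (hse k)
    have h2 := (ENNReal.ofReal_le_ofReal_iff (by positivity)).1 h1
    linarith
  · rw [not_nonempty_iff] at hk
    have h0 : (Fintype.card κ : ℝ) = 0 := by exact_mod_cast Fintype.card_eq_zero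
    rw [h0] at hsum
    obtain ⟨k, -⟩ := hcon (ρ / 16) ⟨le_rfl, by linarith⟩
    exact hk.elim k

private theorem sum_le {κ : Type} [Fintype κ] {M : κ → Fin 2 → ℕ} {C ρ : ℝ} (hC : 1 ≤ C) (hM : ∀ k i, (M k i : ℝ) ≤ C) (hcard : (Fintype.card κ : ℝ) ≤ C * ρ)
    (i : Fin 2) : (∑ k, (M k i : ℝ)) ≤ C ^ 2 * ρ := by
  calc (∑ k, (M k i : ℝ)) ≤ ∑ _k : κ, C := Finset.sum_le_sum fun k _ => hM k i
    _ = (Fintype.card κ : ℝ) * C := by rw [Finset.sum_const, Finset.card_univ, nsmul_eq_mul]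
    _ ≤ C * ρ * C := mul_le_mul_of_nonneg_right hcard (by linarith)
    _ = C ^ 2 * ρ := by ring

variable {κ : Type} [Fintype κ] {ζ : κ → ℂ} {s : κ → ℝ} {M : κ → Fin 2 → ℕ} {h : Fin 2 → ℂ → ℂ} {z₀ : ℂ} {ρ C η K : ℝ}

private theorem sg_le (hW : Wd ζ s M h z₀ ρ C η K) (i : Fin 2) {z : ℂ} (hz : z ∈ ball z₀ ρ) (hoff : ∀ k, s k ≤ ‖z - ζ k‖) :
    sg ζ M h i z ≤ Hh M h ρ i z := by
  have h1 : ∑ k, (M k i : ℝ) * Real.log ‖z - ζ k‖ ≤ (∑ k, (M k i : ℝ)) * Real.log (2 * ρ) := by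
    rw [Finset.sum_mul]
    refine Finset.sum_le_sum fun k _ => mul_le_mul_of_nonneg_left ?_ (Nat.cast_nonneg _)
    have h2 := hW.mem k
    rw [mem_ball, dist_eq_norm] at hz h2
    refine Real.log_le_log ((hW.s_pos k).trans_le (hoff k)) ?_
    calc ‖z - ζ k‖ = ‖(z - z₀) - (ζ k - z₀)‖ := by congr 1; ring
      _ ≤ ‖z - z₀‖ + ‖ζ k - z₀‖ := norm_sub_le _ _
      _ ≤ 2 * ρ := by linarith
  unfold sg Hh
  linarith

private theorem low_all (hW : Wd ζ s M h z₀ ρ C η K) (hK : 2 ≤ K) (hs : ∀ k, s k ≤ ρ / 32) (i : Fin 2) {z : ℂ}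
    (hz : z ∈ ball z₀ (7 * ρ / 8)) : -C ≤ Hh M h ρ i z := by
  have hρ : 0 < ρ := by
    have h1 := pos_of_mem_ball hz
    linarith
  have hsub : ball z₀ (7 * ρ / 8) ⊆ ball z₀ ρ := ball_subset_ball (by linarith)
  by_cases hoff : ∀ k, s k ≤ ‖z - ζ k‖
  · exact (hW.low i z (hsub hz) hoff).trans (sg_le hW i (hsub hz) hoff)
  · push Not at hoff
    obtain ⟨k, hk⟩ := hoff
    have hcl : closedBall (ζ k) (s k) ⊆ ball z₀ ρ := by
      intro w hw
      rw [mem_closedBall, dist_eq_norm] at hw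
      rw [mem_ball, dist_eq_norm] at hz ⊢
      have h1 := hs k
      calc ‖w - z₀‖ = ‖(w - ζ k) - (z - ζ k) + (z - z₀)‖ := by congr 1; ring
        _ ≤ ‖w - ζ k‖ + ‖z - ζ k‖ + ‖z - z₀‖ := (norm_add_le _ _).trans (add_le_add (norm_sub_le _ _) le_rfl)
        _ < ρ := by linarith
    have hsph : ∀ w, ‖w - ζ k‖ = s k → -C ≤ Hh M h ρ i w := by
      intro w hw
      have hwb : w ∈ ball z₀ ρ := hcl (by rw [mem_closedBall, dist_eq_norm, hw])
      have hwoff : ∀ j, s j ≤ ‖w - ζ j‖ := by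
        intro j
        by_cases hjk : j = k
        · rw [hjk, hw]
        · have h1 := hW.sep j k hjk
          have h2 := hW.sep k j (Ne.symm hjk)
          have h3 := hW.s_pos j
          have h4 := hW.s_pos k
          rw [norm_sub_rev] at h2
          have h5 : 2 * s j ≤ ‖ζ j - ζ k‖ := h1
          have h6 : 2 * s k ≤ ‖ζ j - ζ k‖ := h2
          have h7 : ‖ζ j - ζ k‖ ≤ ‖w - ζ j‖ + ‖w - ζ k‖ := by
            calc ‖ζ j - ζ k‖ = ‖(w - ζ k) - (w - ζ j)‖ := by congr 1; ring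
              _ ≤ ‖w - ζ k‖ + ‖w - ζ j‖ := norm_sub_le _ _
              _ = ‖w - ζ j‖ + ‖w - ζ k‖ := add_comm _ _
          linarith
      exact (hW.low i w hwb hwoff).trans (sg_le hW i hwb hwoff)
    have hd : DiffContOnCl ℂ (fun w => Complex.exp (-h i w)) (ball (ζ k) (s k)) := by
      refine DifferentiableOn.diffContOnCl ?_
      rw [closure_ball _ (hW.s_pos k).ne']
      exact ((hW.hol i).mono hcl).neg.cexp
    have hB := Complex.norm_le_of_forall_mem_frontier_norm_le isBounded_ball hd (C := Real.exp (C + (∑ k, (M k i : ℝ)) * Real.log (2 * ρ))) (fun w hw => by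
      rw [frontier_ball _ (hW.s_pos k).ne', mem_sphere, dist_eq_norm] at hw
      have h1 := hsph w hw
      unfold Hh at h1
      rw [Complex.norm_exp, Complex.neg_re]
      exact Real.exp_le_exp.2 (by linarith)) (z := z) (by
        rw [closure_ball _ (hW.s_pos k).ne', mem_closedBall, dist_eq_norm]
        exact hk.le)
    rw [Complex.norm_exp, Complex.neg_re, Real.exp_le_exp] at hB
    unfold Hh
    linarith

private theorem upp_zero (hW : Wd ζ s M h z₀ ρ C η K) (hC : 1 ≤ C) (hρ : 1 ≤ ρ) (hsum : 2 * (Fintype.card κ : ℝ) * Real.exp (-(η * ρ)) < ρ / 16) (i : Fin 2) :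
    Hh M h ρ i z₀ ≤ 5 * C ^ 2 * ρ := by
  obtain ⟨r, ⟨hr1, hr2⟩, hr⟩ := exists_r κ (fun k => ‖ζ k - z₀‖) s hW.s_pos hW.s_le hsum
  have hr0 : 0 < r := by linarith
  have hsph : ∀ z ∈ sphere z₀ |r|, z ∈ ball z₀ ρ ∧ ∀ k, s k ≤ ‖z - ζ k‖ := by
    intro z hz
    rw [mem_sphere, dist_eq_norm, abs_of_pos hr0] at hz
    refine ⟨by rw [mem_ball, dist_eq_norm, hz]; linarith, fun k => (hr k).trans ?_⟩
    calc |r - ‖ζ k - z₀‖| = |‖z - z₀‖ - ‖ζ k - z₀‖| := by rw [hz]
      _ ≤ ‖(z - z₀) - (ζ k - z₀)‖ := abs_norm_sub_norm_le _ _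
      _ = ‖z - ζ k‖ := by congr 1; ring
  have hcl : closedBall z₀ |r| ⊆ ball z₀ ρ := by
    rw [abs_of_pos hr0]
    exact closedBall_subset_ball (by linarith)
  have hdc : DiffContOnCl ℂ (h i) (ball z₀ |r|) := by
    refine DifferentiableOn.diffContOnCl ?_
    rw [closure_ball _ (abs_pos.2 hr0.ne').ne']
    exact (hW.hol i).mono hcl
  have hint : CircleIntegrable (h i) z₀ r := by
    refine ContinuousOn.circleIntegrable hr0.le ?_
    refine (hW.hol i).continuousOn.mono ?_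
    rw [← abs_of_pos hr0]
    exact sphere_subset_closedBall.trans hcl
  have havg : circleAverage (fun z => (h i z).re) z₀ r = (h i z₀).re := by
    have h1 := Complex.reCLM.circleAverage_comp_comm (f := h i) (c := z₀) (R := r) hint
    rw [hdc.circleAverage] at h1
    exact h1
  have hintr : CircleIntegrable (fun z => (h i z).re) z₀ r := by
    refine ContinuousOn.circleIntegrable hr0.le ?_
    refine Complex.continuous_re.comp_continuousOn ((hW.hol i).continuousOn.mono ?_)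
    rw [← abs_of_pos hr0]
    exact sphere_subset_closedBall.trans hcl
  have hintl : ∀ k, CircleIntegrable (fun z => Real.log ‖z - ζ k‖) z₀ r := fun k =>
    MeromorphicOn.circleIntegrable_log_norm (fun _ _ => by fun_prop)
  have hintk : ∀ k, CircleIntegrable (fun z => (M k i : ℝ) * Real.log ‖z - ζ k‖) z₀ r := fun k => (hintl k).const_smul (a := (M k i : ℝ))
  have hints : CircleIntegrable (fun z => ∑ k, (M k i : ℝ) * Real.log ‖z - ζ k‖) z₀ r := by
    have h1 := CircleIntegrable.sum Finset.univ (fun k _ => hintk k)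
    convert h1 using 1
    ext z
    simp
  have hlog : ∀ k, Real.log r ≤ circleAverage (fun z => Real.log ‖z - ζ k‖) z₀ r := by
    intro k
    rw [circleAverage_log_norm_sub_const_eq_log_radius_add_posLog hr0.ne']
    have := Real.posLog_nonneg (x := r⁻¹ * ‖z₀ - ζ k‖)
    linarith
  have htot : circleAverage (fun z => sg ζ M h i z) z₀ r = (h i z₀).re + ∑ k, (M k i : ℝ) * circleAverage (fun z => Real.log ‖z - ζ k‖) z₀ r := by
    unfold sg
    rw [circleAverage_fun_add hintr hints, havg, circleAverage_fun_sum (fun k _ => hintk k)]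
    congr 1
    refine Finset.sum_congr rfl fun k _ => ?_
    have h1 := circleAverage_fun_smul (a := (M k i : ℝ)) (f := fun z => Real.log ‖z - ζ k‖) (c := z₀) (R := r)
    simpa only [smul_eq_mul] using h1
  have hle : circleAverage (fun z => sg ζ M h i z) z₀ r ≤ C * ρ := by
    refine circleAverage_mono_on_of_le_circle ?_ (fun z hz => hW.upp i z (hsph z hz).1 (hsph z hz).2)
    exact hintr.add hints
  have hsr : (∑ k, (M k i : ℝ)) * Real.log r ≤ ∑ k, (M k i : ℝ) * circleAverage (fun z => Real.log ‖z - ζ k‖) z₀ r := by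
    rw [Finset.sum_mul]
    exact Finset.sum_le_sum fun k _ => mul_le_mul_of_nonneg_left (hlog k) (Nat.cast_nonneg _)
  have hl32 : Real.log (2 * ρ) - Real.log r ≤ 4 := by
    rw [← Real.log_div (by positivity) hr0.ne']
    have h1 : 2 * ρ / r ≤ 32 := by
      rw [div_le_iff₀ hr0]
      linarith
    have h2 : Real.log (2 * ρ / r) ≤ Real.log 32 := Real.log_le_log (by positivity) h1
    have h3 : Real.log 32 = 5 * Real.log 2 := by
      rw [show (32 : ℝ) = 2 ^ 5 by norm_num, Real.log_pow]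
      norm_num
    have h4 := Real.log_two_lt_d9
    linarith
  have hS := sum_le hC hW.M_le hW.card i
  have hS0 : 0 ≤ ∑ k, (M k i : ℝ) := Finset.sum_nonneg fun k _ => Nat.cast_nonneg _
  have h5 : (∑ k, (M k i : ℝ)) * (Real.log (2 * ρ) - Real.log r) ≤ C ^ 2 * ρ * 4 :=
    (mul_le_mul_of_nonneg_left hl32 hS0).trans (mul_le_mul_of_nonneg_right hS (by norm_num))
  have h6 : C * ρ ≤ C ^ 2 * ρ := by nlinarith
  unfold Hh
  rw [htot] at hle
  nlinarith

theorem wd_bdd {C η : ℝ} (hC : 1 ≤ C) (hη : 0 < η) : ∃ C₁ ρ₁ : ℝ, 1 ≤ C₁ ∧ 1 ≤ ρ₁ ∧ ∀ (κ : Type) [Fintype κ] (ζ : κ → ℂ) (s : κ → ℝ) (M : κ → Fin 2 → ℕ)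
    (h : Fin 2 → ℂ → ℂ) (z₀ : ℂ) (ρ K : ℝ), Wd ζ s M h z₀ ρ C η K → 2 ≤ K → ρ₁ ≤ ρ → ∀ i, ∀ z ∈ ball z₀ (3 * ρ / 4),
      -C ≤ Hh M h ρ i z ∧ Hh M h ρ i z ≤ C₁ * ρ ∧ ‖deriv (h i) z‖ ≤ C₁ := by
  refine ⟨2592 * C ^ 2, 32 * C / η + 1, by nlinarith, ?_, ?_⟩
  · have : 0 ≤ 32 * C / η := by positivity
    linarith
  intro κ _ ζ s M h z₀ ρ K hW hK hρ₁ i z hz
  have hq : 0 ≤ 32 * C / η := by positivity
  have hρ : 1 ≤ ρ := by linarith
  have hρ0 : 0 < ρ := by linarith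
  have hexp : Real.exp (-(η * ρ)) < 1 / (32 * C) := by
    rw [Real.exp_neg, inv_eq_one_div]
    refine one_div_lt_one_div_of_lt (by positivity) ?_
    have h1 : 32 * C < η * ρ + 1 := by
      have h2 : 32 * C = η * (32 * C / η) := by field_simp
      have h3 : η * (32 * C / η) ≤ η * (ρ - 1) := mul_le_mul_of_nonneg_left (by linarith) hη.le
      nlinarith
    exact h1.trans_le (Real.add_one_le_exp _)
  have hs : ∀ k, s k ≤ ρ / 32 := by
    intro k
    have h1 : (1 : ℝ) / (32 * C) ≤ 1 / 32 := by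
      rw [div_le_div_iff₀ (by positivity) (by norm_num)]
      linarith
    have h2 := hW.s_le k
    linarith
  have hsum : 2 * (Fintype.card κ : ℝ) * Real.exp (-(η * ρ)) < ρ / 16 := by
    have h1 : 2 * (Fintype.card κ : ℝ) * Real.exp (-(η * ρ)) ≤ 2 * (C * ρ) * Real.exp (-(η * ρ)) :=
      mul_le_mul_of_nonneg_right (by linarith [hW.card]) (Real.exp_pos _).le
    have h2 : 2 * (C * ρ) * Real.exp (-(η * ρ)) < 2 * (C * ρ) * (1 / (32 * C)) := mul_lt_mul_of_pos_left hexp (by positivity)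
    have h3 : 2 * (C * ρ) * (1 / (32 * C)) = ρ / 16 := by
      field_simp
      norm_num
    linarith
  have hlow : ∀ w ∈ ball z₀ (7 * ρ / 8), -C ≤ Hh M h ρ i w := fun w hw => low_all hW hK hs i hw
  have hzero := upp_zero hW hC hρ hsum i
  -- the holomorphic function with the real part `Hh + C`
  obtain ⟨B, hB⟩ : ∃ B : ℝ, B = (∑ k, (M k i : ℝ)) * Real.log (2 * ρ) + C := ⟨_, rfl⟩
  obtain ⟨F, hF⟩ : ∃ F : ℂ → ℂ, F = fun w => h i w + (B : ℂ) := ⟨_, rfl⟩
  have hFre : ∀ w, (F w).re = Hh M h ρ i w + C := by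
    intro w
    rw [hF, hB]
    unfold Hh
    rw [Complex.add_re, Complex.ofReal_re]
    ring
  have hFd : DifferentiableOn ℂ F (ball z₀ ρ) := by
    rw [hF]
    exact (hW.hol i).add_const _
  have hF0 : ∀ w ∈ ball z₀ (7 * ρ / 8), 0 ≤ (F w).re := by
    intro w hw
    rw [hFre]
    linarith [hlow w hw]
  have hsub : ∀ (w : ℂ) (r : ℝ), ‖w - z₀‖ + r ≤ 7 * ρ / 8 → ball w r ⊆ ball z₀ (7 * ρ / 8) := by
    intro w r hwr x hx
    rw [mem_ball, dist_eq_norm] at hx ⊢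
    calc ‖x - z₀‖ = ‖(x - w) + (w - z₀)‖ := by congr 1; ring
      _ ≤ ‖x - w‖ + ‖w - z₀‖ := norm_add_le _ _
      _ < 7 * ρ / 8 := by linarith
  have hb : ball z₀ (7 * ρ / 8) ⊆ ball z₀ ρ := ball_subset_ball (by linarith)
  have hstep : ∀ (w x : ℂ) (r : ℝ), 0 < r → ‖w - z₀‖ + r ≤ 7 * ρ / 8 → ‖x - w‖ ≤ r / 2 → (F x).re ≤ 3 * (F w).re := by
    intro w x r hr hwr hx
    exact SR2.harnack_re hr (hFd.mono ((hsub w r hwr).trans hb)) (fun y hy => hF0 y (hsub w r hwr hy)) hx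
  rw [mem_ball, dist_eq_norm] at hz
  obtain ⟨v, hv⟩ : ∃ v : ℂ, v = z - z₀ := ⟨_, rfl⟩
  rw [← hv] at hz
  have hn : ∀ t : ℝ, 0 ≤ t → ‖(t : ℂ) * v‖ = t * ‖v‖ := fun t ht => by rw [norm_mul, Complex.norm_real, Real.norm_of_nonneg ht]
  have h1 : (F (z₀ + ((1 / 2 : ℝ) : ℂ) * v)).re ≤ 3 * (F z₀).re := by
    refine hstep z₀ _ (7 * ρ / 8) (by linarith) (by rw [sub_self, norm_zero]; linarith) ?_
    rw [add_sub_cancel_left, hn _ (by norm_num)]
    linarith
  have h2 : (F (z₀ + ((5 / 6 : ℝ) : ℂ) * v)).re ≤ 3 * (F (z₀ + ((1 / 2 : ℝ) : ℂ) * v)).re := by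
    refine hstep _ _ (ρ / 2) (by linarith) ?_ ?_
    · rw [add_sub_cancel_left, hn _ (by norm_num)]
      linarith
    · have h3 : z₀ + ((5 / 6 : ℝ) : ℂ) * v - (z₀ + ((1 / 2 : ℝ) : ℂ) * v) = ((1 / 3 : ℝ) : ℂ) * v := by
        push_cast
        ring
      rw [h3, hn _ (by norm_num)]
      linarith
  have h3 : (F z).re ≤ 3 * (F (z₀ + ((5 / 6 : ℝ) : ℂ) * v)).re := by
    refine hstep _ _ (ρ / 4) (by linarith) ?_ ?_
    · rw [add_sub_cancel_left, hn _ (by norm_num)]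
      linarith
    · have h4 : z - (z₀ + ((5 / 6 : ℝ) : ℂ) * v) = ((1 / 6 : ℝ) : ℂ) * v := by
        rw [hv]
        push_cast
        ring
      rw [h4, hn _ (by norm_num)]
      linarith
  have h4 : (F z₀).re ≤ 6 * C ^ 2 * ρ := by
    rw [hFre]
    have h5 : C ≤ C ^ 2 * ρ := by nlinarith [mul_le_mul hC hρ (by norm_num : (0 : ℝ) ≤ 1) (by linarith : (0 : ℝ) ≤ C)]
    linarith
  have h5 : (F z).re ≤ 162 * C ^ 2 * ρ := by linarith
  have hzb : z ∈ ball z₀ (7 * ρ / 8) := by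
    rw [mem_ball, dist_eq_norm, ← hv]
    linarith
  have hpos : 0 < C ^ 2 * ρ := by positivity
  refine ⟨hlow z hzb, ?_, ?_⟩
  · rw [hFre] at h5
    nlinarith
  · have h6 := SR2.deriv_le_re (f := F) (z := z) (r := ρ / 8) (by linarith)
      (hFd.mono ((hsub z (ρ / 8) (by rw [← hv]; linarith)).trans hb)) (fun y hy => hF0 y (hsub z (ρ / 8) (by rw [← hv]; linarith) hy))
    have h7 : deriv F z = deriv (h i) z := by
      rw [hF]
      exact deriv_add_const _
    rw [h7] at h6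
    refine h6.trans ?_
    rw [div_le_iff₀ (by linarith)]
    nlinarith

end Pool.Agent.SR3
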