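import Pool.Agent.SR3.CDefs

/-!
# SR3 CCnt: the number of zeros in a hole

`f / ∏ (z - a j)` is holomorphic near the closed disc of radius `8 s`; on the sphere `|w - ζ| = 8 s` the product is at least `(7 s) ^ n`, at the point `z` at most
`(3 s) ^ n`.
-/

set_option autoImplicit false

open Metric

noncomputable section

namespace Pool.Agent.SR3

theorem fac_count {f : ℂ → ℂ} (hf : Differentiable ℂ f) {ζ : ℂ} {s : ℝ} (hs : 0 < s) {n : ℕ} {a : Fin n → ℂ} (ha : ∀ j, a j ∈ closedBall ζ s) {G : ℂ → ℂ}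
    {U : Set ℂ} (hU : IsOpen U) (hsU : closedBall ζ (8 * s) ⊆ U) (hG : DifferentiableOn ℂ G U) (hfG : ∀ z ∈ U, f z = G z * ∏ j, (z - a j))
    {A B : ℝ} (hB : ∀ z, ‖z - ζ‖ = 8 * s → ‖f z‖ ≤ Real.exp B) {z : ℂ} (hz : ‖z - ζ‖ ≤ 2 * s) (hA : Real.exp A ≤ ‖f z‖) :
    (n : ℝ) * Real.log (7 / 3) ≤ B - A := by
  have h8 : (0 : ℝ) < 8 * s := by linarith
  have h7 : (0 : ℝ) < 7 * s := by linarith
  have hprod : ∀ w : ℂ, ‖∏ j, (w - a j)‖ = ∏ j, ‖w - a j‖ := fun w => norm_prod _ _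
  have hG1 : ∀ w ∈ frontier (ball ζ (8 * s)), ‖G w‖ ≤ Real.exp B / (7 * s) ^ n := by
    intro w hw
    rw [frontier_ball ζ h8.ne', mem_sphere, dist_eq_norm] at hw
    have hwU : w ∈ U := hsU (by rw [mem_closedBall, dist_eq_norm, hw])
    have h1 : (7 * s) ^ n ≤ ‖∏ j, (w - a j)‖ := by
      rw [hprod]
      calc (7 * s) ^ n = ∏ _j : Fin n, (7 * s) := by simp
        _ ≤ ∏ j, ‖w - a j‖ := by
          refine Finset.prod_le_prod (fun _ _ => h7.le) fun j _ => ?_
          have h2 : ‖a j - ζ‖ ≤ s := by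
            have := ha j
            rwa [mem_closedBall, dist_eq_norm] at this
          have h3 : ‖w - ζ‖ ≤ ‖w - a j‖ + ‖a j - ζ‖ := norm_sub_le_norm_sub_add_norm_sub _ _ _
          linarith
    have h4 : ‖G w‖ * ‖∏ j, (w - a j)‖ ≤ Real.exp B := by
      rw [← norm_mul, ← hfG w hwU]
      exact hB w hw
    rw [le_div_iff₀ (pow_pos h7 n)]
    exact (mul_le_mul_of_nonneg_left h1 (norm_nonneg _)).trans h4
  have hzb : z ∈ ball ζ (8 * s) := by
    rw [mem_ball, dist_eq_norm]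
    linarith
  have hG2 : ‖G z‖ ≤ Real.exp B / (7 * s) ^ n := by
    refine Complex.norm_le_of_forall_mem_frontier_norm_le isBounded_ball ?_ hG1 (subset_closure hzb)
    refine DifferentiableOn.diffContOnCl (hG.mono ?_)
    exact closure_ball_subset_closedBall.trans hsU
  have hzU : z ∈ U := hsU (ball_subset_closedBall hzb)
  have h5 : ‖∏ j, (z - a j)‖ ≤ (3 * s) ^ n := by
    rw [hprod]
    calc ∏ j, ‖z - a j‖ ≤ ∏ _j : Fin n, (3 * s) := by
          refine Finset.prod_le_prod (fun _ _ => norm_nonneg _) fun j _ => ?_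
          have h2 : ‖a j - ζ‖ ≤ s := by
            have := ha j
            rwa [mem_closedBall, dist_eq_norm] at this
          have h3 : ‖z - a j‖ ≤ ‖z - ζ‖ + ‖ζ - a j‖ := norm_sub_le_norm_sub_add_norm_sub _ _ _
          rw [norm_sub_rev ζ] at h3
          linarith
      _ = (3 * s) ^ n := by simp
  have h6 : Real.exp A ≤ Real.exp B / (7 * s) ^ n * (3 * s) ^ n := by
    refine hA.trans ?_
    rw [hfG z hzU, norm_mul]
    exact mul_le_mul hG2 h5 (norm_nonneg _) (div_nonneg (Real.exp_pos _).le (pow_pos h7 n).le)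
  have h9 : Real.exp A * (7 / 3 : ℝ) ^ n ≤ Real.exp B := by
    have h10 : Real.exp B / (7 * s) ^ n * (3 * s) ^ n = Real.exp B / (7 / 3 : ℝ) ^ n := by
      rw [mul_pow, mul_pow, div_pow]
      have h11 : s ^ n ≠ 0 := (pow_pos hs n).ne'
      field_simp
    rw [h10, le_div_iff₀ (by positivity)] at h6
    exact h6
  have h12 := Real.log_le_log (by positivity) h9
  rw [Real.log_mul (Real.exp_pos _).ne' (by positivity), Real.log_exp, Real.log_exp, Real.log_pow] at h12
  linarith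

end Pool.Agent.SR3
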