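import Mathlib

/-!
# SR3 CDefs: wells at a crossing, function theory

In a disc the curve is near a crossing of two boundary components outside finitely many tiny discs, the holes `‖z - ζ k‖ < s k`.
`sg i` is `log` of the inverse distance to the component `i`, up to a bounded error: `Re (h i) + ∑ M k i log ‖z - ζ k‖`; `sl i = 2 ∂ (sg i)`.
-/

set_option autoImplicit false

open Metric

noncomputable section

namespace Pool.Agent.SR3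

variable {κ : Type} [Fintype κ]

/-- the potential of the component `i` -/
def sg (ζ : κ → ℂ) (M : κ → Fin 2 → ℕ) (h : Fin 2 → ℂ → ℂ) (i : Fin 2) (z : ℂ) : ℝ :=
  (h i z).re + ∑ k, (M k i : ℝ) * Real.log ‖z - ζ k‖

/-- its derivative `2 ∂` -/
def sl (ζ : κ → ℂ) (M : κ → Fin 2 → ℕ) (h : Fin 2 → ℂ → ℂ) (i : Fin 2) (z : ℂ) : ℂ :=
  deriv (h i) z + ∑ k, (M k i : ℂ) / (z - ζ k)

/-- `sg i` with the wells removed: harmonic, and at least `sg i` -/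
def Hh (M : κ → Fin 2 → ℕ) (h : Fin 2 → ℂ → ℂ) (ρ : ℝ) (i : Fin 2) (z : ℂ) : ℝ :=
  (h i z).re + (∑ k, (M k i : ℝ)) * Real.log (2 * ρ)

/-- Wells in the disc `ball z₀ ρ`, with constants `C`, `η`; `K` separates the non parallel ones. -/
structure Wd (ζ : κ → ℂ) (s : κ → ℝ) (M : κ → Fin 2 → ℕ) (h : Fin 2 → ℂ → ℂ) (z₀ : ℂ) (ρ C η K : ℝ) : Prop where
  hol : ∀ i, DifferentiableOn ℂ (h i) (ball z₀ ρ)
  mem : ∀ k, ζ k ∈ ball z₀ ρ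
  one : ∀ k i, 1 ≤ M k i
  M_le : ∀ k i, (M k i : ℝ) ≤ C
  s_pos : ∀ k, 0 < s k
  s_le : ∀ k, s k ≤ Real.exp (-(η * ρ))
  sep : ∀ j k, j ≠ k → 2 * s j ≤ ‖ζ j - ζ k‖
  sepN : ∀ j k, M j 0 * M k 1 ≠ M j 1 * M k 0 → K * s j ≤ ‖ζ j - ζ k‖
  card : (Fintype.card κ : ℝ) ≤ C * ρ
  low : ∀ i, ∀ z ∈ ball z₀ ρ, (∀ k, s k ≤ ‖z - ζ k‖) → -C ≤ sg ζ M h i z
  upp : ∀ i, ∀ z ∈ ball z₀ ρ, (∀ k, s k ≤ ‖z - ζ k‖) → sg ζ M h i z ≤ C * ρ
  rim : ∀ k i, ∀ z ∈ ball z₀ ρ, ‖z - ζ k‖ = s k → sg ζ M h i z ≤ C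

/-- the linear form which vanishes at `M k` -/
def Lf (a : Fin 2 → ℕ) : MvPolynomial (Fin 2) ℂ :=
  MvPolynomial.C (a 1 : ℂ) * MvPolynomial.X 0 - MvPolynomial.C (a 0 : ℂ) * MvPolynomial.X 1

end Pool.Agent.SR3
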