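import Pool.Agent.SR3.CBdd

/-!
# SR3 CNum: the number of wells near a well

At a point `z` of the rim of the hole `k`: `∑ M j i log (2 ρ / ‖z - ζ j‖) = Hh i z - sg i z ≤ C₁ ρ + C`, and all terms are `≥ 0`.
-/

set_option autoImplicit false

open Metric

noncomputable section

namespace Pool.Agent.SR3

theorem wd_num {C η : ℝ} (hC : 1 ≤ C) (hη : 0 < η) : ∃ C₁ ρ₁ : ℝ, 1 ≤ C₁ ∧ 1 ≤ ρ₁ ∧ ∀ (κ : Type) [Fintype κ] (ζ : κ → ℂ) (s : κ → ℝ) (M : κ → Fin 2 → ℕ)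
    (h : Fin 2 → ℂ → ℂ) (z₀ : ℂ) (ρ K : ℝ), Wd ζ s M h z₀ ρ C η K → 2 ≤ K → ρ₁ ≤ ρ → ∀ k, ζ k ∈ ball z₀ (5 * ρ / 8) → ∀ t : ℝ, s k ≤ t → t ≤ ρ / 8 →
      ((Finset.univ.filter fun j => ‖ζ j - ζ k‖ ≤ t).card : ℝ) * Real.log (ρ / t) ≤ C₁ * ρ := by
  obtain ⟨C₁, ρ₁, hC₁, hρ₁, H⟩ := wd_bdd hC hη
  refine ⟨C₁ + C, ρ₁, by linarith, hρ₁, ?_⟩
  intro κ _ ζ s M h z₀ ρ K W hK hρ k hk t hst ht
  have hρ1 : 1 ≤ ρ := hρ₁.trans hρ
  have hρ0 : 0 < ρ := by linarith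
  have hsk := W.s_pos k
  have ht0 : 0 < t := hsk.trans_le hst
  -- the point of the rim
  obtain ⟨z, hz⟩ : ∃ z : ℂ, ‖z - ζ k‖ = s k := by
    refine ⟨ζ k + (s k : ℂ), ?_⟩
    rw [add_sub_cancel_left, Complex.norm_real, Real.norm_of_nonneg hsk.le]
  have hk' : ‖ζ k - z₀‖ < 5 * ρ / 8 := by rw [← mem_ball_iff_norm]; exact hk
  have hzz : ‖z - z₀‖ < 3 * ρ / 4 := by
    have h1 : ‖z - z₀‖ ≤ ‖z - ζ k‖ + ‖ζ k - z₀‖ := norm_sub_le_norm_sub_add_norm_sub z (ζ k) z₀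
    linarith
  have hzb : z ∈ ball z₀ (3 * ρ / 4) := by rw [mem_ball_iff_norm]; exact hzz
  have hzB : z ∈ ball z₀ ρ := by rw [mem_ball_iff_norm]; linarith
  have hoff : ∀ j, s j ≤ ‖z - ζ j‖ := by
    intro j
    by_cases hjk : j = k
    · rw [hjk, hz]
    · have h1 := W.sep j k hjk
      have h2 := W.sep k j (fun h => hjk h.symm)
      have h3 : ‖ζ k - ζ j‖ ≤ ‖ζ k - z‖ + ‖z - ζ j‖ := norm_sub_le_norm_sub_add_norm_sub (ζ k) z (ζ j)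
      rw [norm_sub_rev (ζ k) z, hz] at h3
      rw [norm_sub_rev (ζ j) (ζ k)] at h1
      linarith
  have hlow := W.low 0 z hzB hoff
  have hup := (H κ ζ s M h z₀ ρ K W hK hρ 0 z hzb).2.1
  have heq : Hh M h ρ 0 z - sg ζ M h 0 z = ∑ j, (M j 0 : ℝ) * (Real.log (2 * ρ) - Real.log ‖z - ζ j‖) := by
    simp only [Hh, sg, mul_sub, Finset.sum_sub_distrib, Finset.sum_mul]
    ring
  have hterm : ∀ j, 0 ≤ (M j 0 : ℝ) * (Real.log (2 * ρ) - Real.log ‖z - ζ j‖) := by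
    intro j
    have hj : ‖ζ j - z₀‖ < ρ := by rw [← mem_ball_iff_norm]; exact W.mem j
    have h1 : ‖z - ζ j‖ ≤ ‖z - z₀‖ + ‖z₀ - ζ j‖ := norm_sub_le_norm_sub_add_norm_sub z z₀ (ζ j)
    rw [norm_sub_rev z₀ (ζ j)] at h1
    have h2 : Real.log ‖z - ζ j‖ ≤ Real.log (2 * ρ) := Real.log_le_log ((W.s_pos j).trans_le (hoff j)) (by linarith)
    exact mul_nonneg (Nat.cast_nonneg _) (by linarith)
  have hlog0 : 0 ≤ Real.log (ρ / t) := Real.log_nonneg (by rw [le_div_iff₀ ht0]; linarith)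
  have hfil : ∀ j ∈ Finset.univ.filter (fun j => ‖ζ j - ζ k‖ ≤ t), Real.log (ρ / t) ≤ (M j 0 : ℝ) * (Real.log (2 * ρ) - Real.log ‖z - ζ j‖) := by
    intro j hj
    have hj' : ‖ζ j - ζ k‖ ≤ t := (Finset.mem_filter.1 hj).2
    have h1 : ‖z - ζ j‖ ≤ ‖z - ζ k‖ + ‖ζ k - ζ j‖ := norm_sub_le_norm_sub_add_norm_sub z (ζ k) (ζ j)
    rw [norm_sub_rev (ζ k) (ζ j), hz] at h1
    have h2 : Real.log ‖z - ζ j‖ ≤ Real.log (2 * t) := Real.log_le_log ((W.s_pos j).trans_le (hoff j)) (by linarith)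
    have h3 : Real.log (ρ / t) = Real.log (2 * ρ) - Real.log (2 * t) := by
      rw [← Real.log_div (by positivity) (by positivity), mul_div_mul_left _ _ (by norm_num : (2 : ℝ) ≠ 0)]
    have h4 : (1 : ℝ) ≤ (M j 0 : ℝ) := by exact_mod_cast W.one j 0
    have h5 : Real.log (ρ / t) ≤ Real.log (2 * ρ) - Real.log ‖z - ζ j‖ := by linarith
    calc Real.log (ρ / t) ≤ Real.log (2 * ρ) - Real.log ‖z - ζ j‖ := h5
      _ = 1 * (Real.log (2 * ρ) - Real.log ‖z - ζ j‖) := (one_mul _).symm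
      _ ≤ _ := mul_le_mul_of_nonneg_right h4 (hlog0.trans h5)
  have hC' : C ≤ C * ρ := le_mul_of_one_le_right (by linarith) hρ1
  calc ((Finset.univ.filter fun j => ‖ζ j - ζ k‖ ≤ t).card : ℝ) * Real.log (ρ / t)
      = ∑ _j ∈ Finset.univ.filter (fun j => ‖ζ j - ζ k‖ ≤ t), Real.log (ρ / t) := by rw [Finset.sum_const, nsmul_eq_mul]
    _ ≤ ∑ j ∈ Finset.univ.filter (fun j => ‖ζ j - ζ k‖ ≤ t), (M j 0 : ℝ) * (Real.log (2 * ρ) - Real.log ‖z - ζ j‖) := Finset.sum_le_sum hfil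
    _ ≤ ∑ j, (M j 0 : ℝ) * (Real.log (2 * ρ) - Real.log ‖z - ζ j‖) :=
        Finset.sum_le_sum_of_subset_of_nonneg (Finset.filter_subset _ _) (fun j _ _ => hterm j)
    _ = Hh M h ρ 0 z - sg ζ M h 0 z := heq.symm
    _ ≤ (C₁ + C) * ρ := by rw [add_mul]; linarith

end Pool.Agent.SR3
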