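import Pool.Agent.SR3.CBdd
import Pool.Agent.SR3.CNum

/-!
# SR3 CDir: all wells near the centre have parallel vectors
-/

set_option autoImplicit false

open Metric

noncomputable section

namespace Pool.Agent.SR3

variable {κ : Type} [Fintype κ]

private theorem cd_log_sub {x y m : ℝ} (hm : 0 < m) (hx : m ≤ x) (hy : m ≤ y) : |Real.log x - Real.log y| ≤ |x - y| / m := by
  have key : ∀ {x y : ℝ}, m ≤ x → m ≤ y → Real.log x - Real.log y ≤ |x - y| / m := by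
    intro x y hx hy
    have hx0 : 0 < x := lt_of_lt_of_le hm hx
    have hy0 : 0 < y := lt_of_lt_of_le hm hy
    rw [← Real.log_div hx0.ne' hy0.ne']
    have h1 := Real.log_le_sub_one_of_pos (div_pos hx0 hy0)
    have h2 : x / y - 1 = (x - y) / y := by field_simp
    have h3 : (x - y) / y ≤ |x - y| / y := by
      exact div_le_div_of_nonneg_right (le_abs_self _) hy0.le
    have h4 : |x - y| / y ≤ |x - y| / m := div_le_div_of_nonneg_left (abs_nonneg _) hm hy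
    linarith
  rw [abs_le]
  constructor
  · have := key hy hx
    rw [abs_sub_comm] at this
    linarith
  · exact key hx hy

private theorem cd_log4 : Real.log 4 ≤ 2 := by
  have h : Real.log 4 = 2 * Real.log 2 := by
    rw [show (4 : ℝ) = 2 ^ 2 by norm_num, Real.log_pow]; norm_num
  have := Real.log_two_lt_d9
  rw [h]; linarith

/-- the value of one term -/
private theorem cd_term {p R : ℝ} (_hR : 0 < R) (hp : 0 < p) : 0 ≤ Real.log (max p R) - Real.log p ∧ (R / 4 ≤ p → Real.log (max p R) - Real.log p ≤ Real.log 4) ∧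
    (R ≤ p → Real.log (max p R) - Real.log p = 0) := by
  refine ⟨?_, ?_, ?_⟩
  · have := Real.log_le_log hp (le_max_left p R)
    linarith
  · intro h
    have h4 : max p R ≤ 4 * p := by
      apply max_le <;> linarith
    have := Real.log_le_log (lt_of_lt_of_le hp (le_max_left p R)) h4
    rw [Real.log_mul (by norm_num) hp.ne'] at this
    linarith
  · intro h
    rw [max_eq_left h]; ring

private theorem cd_near {w p : κ → ℝ} {W R : ℝ} {S : Finset κ} (hR : 0 < R) (hW : 0 ≤ W) (hw : ∀ j, |w j| ≤ W) (hp : ∀ j, 0 < p j)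
    (h0 : ∀ j, p j < R / 4 → w j = 0) (hS : ∀ j, p j < R → j ∈ S) :
    |∑ j, w j * (Real.log (max (p j) R) - Real.log (p j))| ≤ W * Real.log 4 * S.card := by
  classical
  have hl4 : 0 ≤ Real.log 4 := Real.log_nonneg (by norm_num)
  have hpt : ∀ j, |w j * (Real.log (max (p j) R) - Real.log (p j))| ≤ if j ∈ S then W * Real.log 4 else 0 := by
    intro j
    obtain ⟨t0, t1, t2⟩ := cd_term hR (hp j)
    by_cases h1 : p j < R / 4
    · rw [h0 j h1]
      simp only [zero_mul, abs_zero]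
      split_ifs
      · exact mul_nonneg hW hl4
      · exact le_rfl
    · push Not at h1
      by_cases h2 : p j < R
      · rw [if_pos (hS j h2), abs_mul, abs_of_nonneg t0]
        exact mul_le_mul (hw j) (t1 h1) t0 hW
      · push Not at h2
        rw [t2 h2, mul_zero, abs_zero]
        split_ifs
        · exact mul_nonneg hW hl4
        · exact le_rfl
  calc |∑ j, w j * (Real.log (max (p j) R) - Real.log (p j))| ≤ ∑ j, |w j * (Real.log (max (p j) R) - Real.log (p j))| := Finset.abs_sum_le_sum_abs _ _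
    _ ≤ ∑ j, (if j ∈ S then W * Real.log 4 else 0) := Finset.sum_le_sum fun j _ => hpt j
    _ = W * Real.log 4 * S.card := by
      rw [Finset.sum_ite_mem, Finset.univ_inter, Finset.sum_const, nsmul_eq_mul]; ring

private theorem cd_low {w p : κ → ℝ} {W R s : ℝ} {S : Finset κ} {k : κ} (hR : 0 < R) (hW : 0 ≤ W) (hw : ∀ j, |w j| ≤ W) (hp : ∀ j, 0 < p j)
    (h0 : ∀ j, p j < R / 4 → 0 ≤ w j) (hS : ∀ j, p j < R → j ∈ S) (hk : p k = s) (hs : s < R) (h1 : 1 ≤ w k) :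
    Real.log (R / s) - W * Real.log 4 * S.card ≤ ∑ j, w j * (Real.log (max (p j) R) - Real.log (p j)) := by
  classical
  have hl4 : 0 ≤ Real.log 4 := Real.log_nonneg (by norm_num)
  have hs0 : 0 < s := hk ▸ hp k
  have hpt : ∀ j, (if j = k then Real.log (R / s) else 0) - (if j ∈ S then W * Real.log 4 else 0) ≤
      w j * (Real.log (max (p j) R) - Real.log (p j)) := by
    intro j
    have hS0 : 0 ≤ (if j ∈ S then W * Real.log 4 else 0) := by
      split_ifs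
      · exact mul_nonneg hW hl4
      · exact le_rfl
    obtain ⟨t0, t1, t2⟩ := cd_term hR (hp j)
    by_cases hjk : j = k
    · subst hjk
      rw [if_pos rfl, hk, max_eq_right hs.le, Real.log_div hR.ne' hs0.ne']
      rw [hk, max_eq_right hs.le] at t0
      nlinarith
    · rw [if_neg hjk]
      by_cases h1 : p j < R / 4
      · have := mul_nonneg (h0 j h1) t0
        linarith
      · push Not at h1
        by_cases h2 : p j < R
        · rw [if_pos (hS j h2)]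
          have h3 : |w j * (Real.log (max (p j) R) - Real.log (p j))| ≤ W * Real.log 4 := by
            rw [abs_mul, abs_of_nonneg t0]
            exact mul_le_mul (hw j) (t1 h1) t0 hW
          have := (abs_le.mp h3).1
          linarith
        · push Not at h2
          rw [t2 h2, mul_zero]
          linarith
  calc Real.log (R / s) - W * Real.log 4 * S.card
      = ∑ j, ((if j = k then Real.log (R / s) else 0) - (if j ∈ S then W * Real.log 4 else 0)) := by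
        rw [Finset.sum_sub_distrib, Finset.sum_ite_mem, Finset.univ_inter, Finset.sum_const, nsmul_eq_mul, Finset.sum_ite_eq' Finset.univ k, if_pos (Finset.mem_univ k)]
        ring
    _ ≤ ∑ j, w j * (Real.log (max (p j) R) - Real.log (p j)) := Finset.sum_le_sum fun j _ => hpt j

private theorem cd_diff {w p q : κ → ℝ} {W R t : ℝ} {S : Finset κ} (hR : 0 < R) (ht : 0 < t) (hW : 0 ≤ W) (hw : ∀ j, |w j| ≤ W)
    (hpq : ∀ j, |p j - q j| ≤ 2 * R) (hfar : ∀ j, j ∉ S → t / 2 ≤ p j ∧ t / 2 ≤ q j) :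
    |∑ j, w j * (Real.log (max (p j) R) - Real.log (max (q j) R))| ≤ W * (2 * S.card + Fintype.card κ * (4 * R / t)) := by
  classical
  have hmm : ∀ j, |max (p j) R - max (q j) R| ≤ 2 * R := fun j => (abs_max_sub_max_le_abs (p j) (q j) R).trans (hpq j)
  have hRt : 0 ≤ 4 * R / t := by positivity
  have hpt : ∀ j, |w j * (Real.log (max (p j) R) - Real.log (max (q j) R))| ≤ W * ((if j ∈ S then 2 else 0) + 4 * R / t) := by
    intro j
    rw [abs_mul]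
    apply mul_le_mul (hw j) _ (abs_nonneg _) hW
    by_cases hj : j ∈ S
    · rw [if_pos hj]
      have h1 := cd_log_sub hR (le_max_right (p j) R) (le_max_right (q j) R)
      have h2 : |max (p j) R - max (q j) R| / R ≤ 2 := by
        rw [div_le_iff₀ hR]; exact hmm j
      linarith
    · rw [if_neg hj, zero_add]
      obtain ⟨a1, a2⟩ := hfar j hj
      have h1 := cd_log_sub (half_pos ht) (a1.trans (le_max_left (p j) R)) (a2.trans (le_max_left (q j) R))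
      have h2 : |max (p j) R - max (q j) R| / (t / 2) ≤ 4 * R / t := by
        rw [div_le_div_iff₀ (half_pos ht) ht]
        nlinarith [hmm j]
      linarith
  calc |∑ j, w j * (Real.log (max (p j) R) - Real.log (max (q j) R))|
      ≤ ∑ j, |w j * (Real.log (max (p j) R) - Real.log (max (q j) R))| := Finset.abs_sum_le_sum_abs _ _
    _ ≤ ∑ j, W * ((if j ∈ S then 2 else 0) + 4 * R / t) := Finset.sum_le_sum fun j _ => hpt j
    _ = W * (2 * S.card + Fintype.card κ * (4 * R / t)) := by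
      rw [← Finset.mul_sum, Finset.sum_add_distrib, Finset.sum_ite_mem, Finset.univ_inter, Finset.sum_const, Finset.sum_const, nsmul_eq_mul, nsmul_eq_mul, Finset.card_univ]
      ring

/-- the rim point of the hole `k` is off all holes -/
private theorem cd_rim {ζ : κ → ℂ} {s : κ → ℝ} {M : κ → Fin 2 → ℕ} {h : Fin 2 → ℂ → ℂ} {z₀ : ℂ} {ρ C η K : ℝ} (H : Wd ζ s M h z₀ ρ C η K) (hK : 4 ≤ K) (k j : κ) :
    s j ≤ ‖ζ k + (s k : ℂ) - ζ j‖ := by
  by_cases hjk : j = k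
  · subst hjk
    rw [add_sub_cancel_left, Complex.norm_real, Real.norm_of_nonneg (H.s_pos j).le]
  · have h1 := H.sep j k hjk
    have h2 := H.sep k j (Ne.symm hjk)
    have hj := H.s_pos j
    have hk := H.s_pos k
    rw [norm_sub_rev] at h1
    have h5 : ‖ζ k - ζ j‖ ≤ ‖ζ k + (s k : ℂ) - ζ j‖ + ‖(s k : ℂ)‖ := by
      calc ‖ζ k - ζ j‖ = ‖(ζ k + (s k : ℂ) - ζ j) - (s k : ℂ)‖ := by congr 1; ring
        _ ≤ _ := norm_sub_le _ _
    rw [Complex.norm_real, Real.norm_of_nonneg hk.le] at h5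
    linarith

private theorem cd_sg {ζ : κ → ℂ} {s : κ → ℝ} {M : κ → Fin 2 → ℕ} {h : Fin 2 → ℂ → ℂ} {z₀ : ℂ} {ρ C η K : ℝ} (H : Wd ζ s M h z₀ ρ C η K) (hK : 4 ≤ K) (k : κ)
    (hz : ζ k + (s k : ℂ) ∈ ball z₀ ρ) (i : Fin 2) : |sg ζ M h i (ζ k + (s k : ℂ))| ≤ C := by
  rw [abs_le]
  refine ⟨H.low i _ hz (fun j => cd_rim H hK k j), H.rim k i _ hz ?_⟩
  rw [add_sub_cancel_left, Complex.norm_real, Real.norm_of_nonneg (H.s_pos k).le]

private theorem cd_exp {L : ℝ} (hL : 0 < L) : Real.exp (-(L / 2)) ≤ 2 / L ∧ Real.exp (-L) ≤ 1 / L := by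
  constructor
  · rw [Real.exp_neg, le_div_iff₀ hL, inv_mul_le_iff₀ (Real.exp_pos _)]
    have := Real.add_one_le_exp (L / 2)
    linarith
  · rw [Real.exp_neg, le_div_iff₀ hL, inv_mul_le_iff₀ (Real.exp_pos _)]
    have := Real.add_one_le_exp L
    linarith

private theorem cd_key {C η C₁ C₂ : ℝ} (hC : 1 ≤ C) (hη : 0 < η) (hC₁ : 1 ≤ C₁) (hC₂ : 1 ≤ C₂) {ζ : κ → ℂ} {s : κ → ℝ} {M : κ → Fin 2 → ℕ} {h : Fin 2 → ℂ → ℂ} {z₀ : ℂ}
    {ρ K : ℝ} (H : Wd ζ s M h z₀ ρ C η K) (hK : 4 ≤ K) (hρ : 8 ≤ ρ)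
    (hb : ∀ i, ∀ z ∈ ball z₀ (3 * ρ / 4), ‖deriv (h i) z‖ ≤ C₁) (j0 k1 : κ) (hj0 : ζ j0 ∈ ball z₀ (ρ / 2))
    (hnum : ∀ t : ℝ, s j0 ≤ t → t ≤ ρ / 8 → ((Finset.univ.filter fun j => ‖ζ j - ζ j0‖ ≤ t).card : ℝ) * Real.log (ρ / t) ≤ C₂ * ρ)
    {R : ℝ} (hR : ‖ζ j0 - ζ k1‖ = R) (hR1 : R ≤ ρ / 64) (hne : M j0 0 * M k1 1 ≠ M j0 1 * M k1 0)
    (hp0 : ∀ j, ‖ζ j - ζ j0‖ < R / 2 → M j 0 * M j0 1 = M j 1 * M j0 0) (hp1 : ∀ j, ‖ζ j - ζ k1‖ < R / 2 → M j 0 * M k1 1 = M j 1 * M k1 0) :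
    Real.log (R / s k1) ≤ (4 * C ^ 2 + 4 * C * C₁ + 12 * C ^ 2 * C₂ + 8 * C ^ 3) * (1 + ρ / Real.log (ρ / R)) := by
  classical
  have hjk : j0 ≠ k1 := by
    rintro rfl
    exact hne (mul_comm _ _)
  have hs0 := H.s_pos j0
  have hs1 := H.s_pos k1
  have hs0R : 4 * s j0 ≤ R := by
    have h1 := H.sepN j0 k1 hne
    rw [hR] at h1
    exact (mul_le_mul_of_nonneg_right hK hs0.le).trans h1
  have hs1R : 4 * s k1 ≤ R := by
    have h1 := H.sepN k1 j0 fun hh => hne (by rw [mul_comm (M j0 0), mul_comm (M j0 1)]; exact hh.symm)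
    rw [norm_sub_rev, hR] at h1
    exact (mul_le_mul_of_nonneg_right hK hs1.le).trans h1
  have hR0 : 0 < R := by linarith
  have hρ0 : 0 < ρ := by linarith
  -- the scales
  set L : ℝ := Real.log (ρ / R) with hLdef
  have hRL : R = ρ * Real.exp (-L) := by
    rw [hLdef, Real.exp_neg, Real.exp_log (div_pos hρ0 hR0)]
    field_simp
  have hL : 0 < L := by
    rw [hLdef]
    apply Real.log_pos
    rw [lt_div_iff₀ hR0]
    linarith
  obtain ⟨he1, he2⟩ := cd_exp hL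
  set x : ℝ := Real.exp (-(L / 2)) with hx
  have hx0 : 0 < x := Real.exp_pos _
  have hxx : x * x = Real.exp (-L) := by
    rw [hx, ← Real.exp_add]; congr 1; ring
  have hx8 : x ≤ 1 / 8 := by
    by_contra hcon
    push Not at hcon
    have : 1 / 64 < x * x := by nlinarith
    rw [hxx] at this
    have h2 : ρ * (1 / 64) < ρ * Real.exp (-L) := mul_lt_mul_of_pos_left this hρ0
    rw [← hRL] at h2
    linarith
  set t : ℝ := ρ * x with ht
  have ht0 : 0 < t := mul_pos hρ0 hx0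
  have hRt : R = t * x := by rw [ht, hRL, ← hxx]; ring
  have hRt8 : 8 * R ≤ t := by
    rw [hRt]; nlinarith
  have htρ : t ≤ ρ / 8 := by
    rw [ht]; nlinarith
  have hlogt : Real.log (ρ / t) = L / 2 := by
    have : ρ / t = Real.exp (L / 2) := by
      rw [ht, hx, Real.exp_neg]; field_simp
    rw [this, Real.log_exp]
  set S : Finset κ := Finset.univ.filter fun j => ‖ζ j - ζ j0‖ ≤ t with hSdef
  have hN : (S.card : ℝ) ≤ 2 * C₂ * (ρ / L) := by
    have h1 := hnum t (by linarith) htρ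
    rw [hlogt] at h1
    rw [← mul_div_assoc, le_div_iff₀ hL]
    linarith
  have hmemS : ∀ j, ‖ζ j - ζ j0‖ ≤ t → j ∈ S := fun j hj => by
    rw [hSdef, Finset.mem_filter]; exact ⟨Finset.mem_univ _, hj⟩
  have hnotS : ∀ j, j ∉ S → t < ‖ζ j - ζ j0‖ := fun j hj => by
    by_contra hcon
    push Not at hcon
    exact hj (hmemS j hcon)
  -- the two points
  set z : ℂ := ζ j0 + (s j0 : ℂ) with hz
  set z' : ℂ := ζ k1 + (s k1 : ℂ) with hz'
  have hzn : ‖z - ζ j0‖ = s j0 := by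
    rw [hz, add_sub_cancel_left, Complex.norm_real, Real.norm_of_nonneg hs0.le]
  have hzn' : ‖z' - ζ k1‖ = s k1 := by
    rw [hz', add_sub_cancel_left, Complex.norm_real, Real.norm_of_nonneg hs1.le]
  have hj0' : ‖ζ j0 - z₀‖ < ρ / 2 := by rwa [mem_ball, dist_eq_norm] at hj0
  have hzball : z ∈ ball z₀ (3 * ρ / 4) := by
    rw [mem_ball, dist_eq_norm]
    calc ‖z - z₀‖ = ‖(z - ζ j0) + (ζ j0 - z₀)‖ := by congr 1; ring
      _ ≤ ‖z - ζ j0‖ + ‖ζ j0 - z₀‖ := norm_add_le _ _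
      _ < 3 * ρ / 4 := by rw [hzn]; linarith
  have hzball' : z' ∈ ball z₀ (3 * ρ / 4) := by
    rw [mem_ball, dist_eq_norm]
    calc ‖z' - z₀‖ = ‖(z' - ζ k1) + ((ζ k1 - ζ j0) + (ζ j0 - z₀))‖ := by congr 1; ring
      _ ≤ ‖z' - ζ k1‖ + (‖ζ k1 - ζ j0‖ + ‖ζ j0 - z₀‖) := (norm_add_le _ _).trans (add_le_add le_rfl (norm_add_le _ _))
      _ < 3 * ρ / 4 := by rw [hzn', norm_sub_rev (ζ k1), hR]; linarith
  have hzz : ‖z' - z‖ ≤ 2 * R := by
    calc ‖z' - z‖ = ‖(z' - ζ k1) + ((ζ k1 - ζ j0) - (z - ζ j0))‖ := by congr 1; ring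
      _ ≤ ‖z' - ζ k1‖ + (‖ζ k1 - ζ j0‖ + ‖z - ζ j0‖) := (norm_add_le _ _).trans (add_le_add le_rfl (norm_sub_le _ _))
      _ ≤ 2 * R := by rw [hzn', hzn, norm_sub_rev (ζ k1), hR]; linarith
  have hsub : ball z₀ (3 * ρ / 4) ⊆ ball z₀ ρ := ball_subset_ball (by linarith)
  have hsg : ∀ i, |sg ζ M h i z| ≤ C := fun i => cd_sg H hK j0 (hsub hzball) i
  have hsg' : ∀ i, |sg ζ M h i z'| ≤ C := fun i => cd_sg H hK k1 (hsub hzball') i
  have hh : ∀ i, ‖h i z' - h i z‖ ≤ C₁ * (2 * R) := by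
    intro i
    have h1 := (convex_ball z₀ (3 * ρ / 4)).norm_image_sub_le_of_norm_deriv_le (𝕜 := ℂ) (f := h i) (C := C₁)
      (fun y hy => (H.hol i).differentiableAt (isOpen_ball.mem_nhds (hsub hy))) (fun y hy => hb i y hy) hzball hzball'
    exact h1.trans (mul_le_mul_of_nonneg_left hzz (by linarith))
  -- the sign
  obtain ⟨e, he, heX⟩ : ∃ e : ℝ, |e| = 1 ∧ 1 ≤ e * ((M j0 1 : ℝ) * M k1 0 - (M j0 0 : ℝ) * M k1 1) := by
    rcases lt_or_gt_of_ne hne with h1 | h1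
    · refine ⟨1, abs_one, ?_⟩
      have : (M j0 0 : ℝ) * M k1 1 + 1 ≤ (M j0 1 : ℝ) * M k1 0 := by exact_mod_cast h1
      linarith
    · refine ⟨-1, by simp, ?_⟩
      have : (M j0 1 : ℝ) * M k1 0 + 1 ≤ (M j0 0 : ℝ) * M k1 1 := by exact_mod_cast h1
      linarith
  have hM0 : ∀ k i, (0 : ℝ) ≤ M k i := fun k i => Nat.cast_nonneg _
  set w : κ → ℝ := fun j => e * ((M j0 1 : ℝ) * M j 0 - (M j0 0 : ℝ) * M j 1) with hw
  set u : ℂ → ℝ := fun y => e * ((M j0 1 : ℝ) * (h 0 y).re - (M j0 0 : ℝ) * (h 1 y).re) with hu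
  have hG : ∀ y, e * ((M j0 1 : ℝ) * sg ζ M h 0 y - (M j0 0 : ℝ) * sg ζ M h 1 y) = u y + ∑ j, w j * Real.log ‖y - ζ j‖ := by
    intro y
    simp only [hu, hw, sg, mul_add, Finset.mul_sum, mul_sub, sub_mul, Finset.sum_sub_distrib]
    have e1 : ∀ j, e * ((M j0 1 : ℝ) * ((M j 0 : ℝ) * Real.log ‖y - ζ j‖)) = e * ((M j0 1 : ℝ) * M j 0) * Real.log ‖y - ζ j‖ := fun j => by ring
    have e2 : ∀ j, e * ((M j0 0 : ℝ) * ((M j 1 : ℝ) * Real.log ‖y - ζ j‖)) = e * ((M j0 0 : ℝ) * M j 1) * Real.log ‖y - ζ j‖ := fun j => by ring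
    simp only [e1, e2]
    ring
  have hGb : ∀ {a b : ℝ}, |a| ≤ C → |b| ≤ C → |e * ((M j0 1 : ℝ) * a - (M j0 0 : ℝ) * b)| ≤ 2 * C ^ 2 := by
    intro a b ha hb
    rw [abs_mul, he, one_mul]
    calc |(M j0 1 : ℝ) * a - (M j0 0 : ℝ) * b| ≤ |(M j0 1 : ℝ) * a| + |(M j0 0 : ℝ) * b| := abs_sub _ _
      _ = (M j0 1 : ℝ) * |a| + (M j0 0 : ℝ) * |b| := by rw [abs_mul, abs_mul, Nat.abs_cast, Nat.abs_cast]
      _ ≤ C * C + C * C := by
        apply add_le_add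
        · exact mul_le_mul (H.M_le _ _) ha (abs_nonneg _) (by linarith)
        · exact mul_le_mul (H.M_le _ _) hb (abs_nonneg _) (by linarith)
      _ = 2 * C ^ 2 := by ring
  have hGz : |u z + ∑ j, w j * Real.log ‖z - ζ j‖| ≤ 2 * C ^ 2 := by rw [← hG]; exact hGb (hsg 0) (hsg 1)
  have hGz' : |u z' + ∑ j, w j * Real.log ‖z' - ζ j‖| ≤ 2 * C ^ 2 := by rw [← hG]; exact hGb (hsg' 0) (hsg' 1)
  have hW : ∀ j, |w j| ≤ C ^ 2 := by
    intro j
    simp only [hw]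
    rw [abs_mul, he, one_mul, abs_le]
    have p1 : (M j0 1 : ℝ) * M j 0 ≤ C * C := mul_le_mul (H.M_le _ _) (H.M_le _ _) (hM0 _ _) (by linarith)
    have p2 : (M j0 0 : ℝ) * M j 1 ≤ C * C := mul_le_mul (H.M_le _ _) (H.M_le _ _) (hM0 _ _) (by linarith)
    have p3 : 0 ≤ (M j0 1 : ℝ) * M j 0 := mul_nonneg (hM0 _ _) (hM0 _ _)
    have p4 : 0 ≤ (M j0 0 : ℝ) * M j 1 := mul_nonneg (hM0 _ _) (hM0 _ _)
    constructor <;> nlinarith
  have hC2 : 0 ≤ C ^ 2 := by positivity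
  have hu' : |u z' - u z| ≤ 4 * C * C₁ * R := by
    have e1 : u z' - u z = e * ((M j0 1 : ℝ) * (h 0 z' - h 0 z).re - (M j0 0 : ℝ) * (h 1 z' - h 1 z).re) := by
      simp only [hu, Complex.sub_re]; ring
    rw [e1, abs_mul, he, one_mul]
    have q0 : |(h 0 z' - h 0 z).re| ≤ C₁ * (2 * R) := (Complex.abs_re_le_norm _).trans (hh 0)
    have q1 : |(h 1 z' - h 1 z).re| ≤ C₁ * (2 * R) := (Complex.abs_re_le_norm _).trans (hh 1)
    calc |(M j0 1 : ℝ) * (h 0 z' - h 0 z).re - (M j0 0 : ℝ) * (h 1 z' - h 1 z).re|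
        ≤ |(M j0 1 : ℝ) * (h 0 z' - h 0 z).re| + |(M j0 0 : ℝ) * (h 1 z' - h 1 z).re| := abs_sub _ _
      _ = (M j0 1 : ℝ) * |(h 0 z' - h 0 z).re| + (M j0 0 : ℝ) * |(h 1 z' - h 1 z).re| := by rw [abs_mul, abs_mul, Nat.abs_cast, Nat.abs_cast]
      _ ≤ C * (C₁ * (2 * R)) + C * (C₁ * (2 * R)) := by
        apply add_le_add
        · exact mul_le_mul (H.M_le _ _) q0 (abs_nonneg _) (by linarith)
        · exact mul_le_mul (H.M_le _ _) q1 (abs_nonneg _) (by linarith)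
      _ = 4 * C * C₁ * R := by ring
  have hpz : ∀ j, 0 < ‖z - ζ j‖ := fun j => lt_of_lt_of_le (H.s_pos j) (cd_rim H hK j0 j)
  have hpz' : ∀ j, 0 < ‖z' - ζ j‖ := fun j => lt_of_lt_of_le (H.s_pos j) (cd_rim H hK k1 j)
  -- distances
  have d0 : ∀ j, |‖z - ζ j‖ - ‖ζ j - ζ j0‖| ≤ R / 4 := by
    intro j
    rw [norm_sub_rev (ζ j) (ζ j0)]
    refine (abs_norm_sub_norm_le _ _).trans ?_
    have : z - ζ j - (ζ j0 - ζ j) = z - ζ j0 := by ring
    rw [this, hzn]; linarith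
  have d1 : ∀ j, |‖z' - ζ j‖ - ‖ζ j - ζ k1‖| ≤ R / 4 := by
    intro j
    rw [norm_sub_rev (ζ j) (ζ k1)]
    refine (abs_norm_sub_norm_le _ _).trans ?_
    have : z' - ζ j - (ζ k1 - ζ j) = z' - ζ k1 := by ring
    rw [this, hzn']; linarith
  have d2 : ∀ j, |‖ζ j - ζ k1‖ - ‖ζ j - ζ j0‖| ≤ R := by
    intro j
    refine (abs_norm_sub_norm_le _ _).trans ?_
    have : ζ j - ζ k1 - (ζ j - ζ j0) = ζ j0 - ζ k1 := by ring
    rw [this, hR]
  have hnear := cd_near (w := w) (p := fun j => ‖z - ζ j‖) (W := C ^ 2) (S := S) hR0 hC2 hW hpz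
    (fun j hj => by
      have a0 := (abs_le.mp (d0 j)).1
      have b0 := hp0 j (by linarith)
      have b1 : (M j 0 : ℝ) * M j0 1 = (M j 1 : ℝ) * M j0 0 := by exact_mod_cast b0
      simp only [hw]
      have : (M j0 1 : ℝ) * M j 0 - (M j0 0 : ℝ) * M j 1 = 0 := by linarith
      rw [this, mul_zero])
    (fun j hj => hmemS j (by
      have a0 := (abs_le.mp (d0 j)).1
      linarith))
  have hlow := cd_low (w := w) (p := fun j => ‖z' - ζ j‖) (W := C ^ 2) (S := S) (k := k1) (s := s k1) hR0 hC2 hW hpz'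
    (fun j hj => by
      have a0 := (abs_le.mp (d1 j)).1
      have b0 := hp1 j (by linarith)
      have b1 : (M j 0 : ℝ) * M k1 1 = (M j 1 : ℝ) * M k1 0 := by exact_mod_cast b0
      have c0 : (1 : ℝ) ≤ M k1 0 := by exact_mod_cast H.one k1 0
      have c1 : 0 ≤ (M j 0 : ℝ) := hM0 _ _
      have e1 : (M k1 0 : ℝ) * w j = (M j 0 : ℝ) * (e * ((M j0 1 : ℝ) * M k1 0 - (M j0 0 : ℝ) * M k1 1)) := by
        simp only [hw]
        linear_combination (e * (M j0 0 : ℝ)) * b1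
      by_contra hcon
      push Not at hcon
      have : (M k1 0 : ℝ) * w j < 0 := mul_neg_of_pos_of_neg (by linarith) hcon
      rw [e1] at this
      have : 0 ≤ (M j 0 : ℝ) * (e * ((M j0 1 : ℝ) * M k1 0 - (M j0 0 : ℝ) * M k1 1)) := mul_nonneg c1 (by linarith)
      linarith)
    (fun j hj => hmemS j (by
      have a0 := (abs_le.mp (d1 j)).1
      have a1 := (abs_le.mp (d2 j)).1
      linarith))
    hzn' (by linarith) (by simpa only [hw] using heX)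
  have hdiff := cd_diff (w := w) (p := fun j => ‖z' - ζ j‖) (q := fun j => ‖z - ζ j‖) (W := C ^ 2) (S := S) (t := t) hR0 ht0 hC2 hW
    (fun j => by
      refine (abs_norm_sub_norm_le _ _).trans ?_
      have : z' - ζ j - (z - ζ j) = z' - z := by ring
      rw [this]; exact hzz)
    (fun j hj => by
      have a := hnotS j hj
      have a0 := (abs_le.mp (d0 j)).1
      have a1 := (abs_le.mp (d1 j)).1
      have a2 := (abs_le.mp (d2 j)).1
      constructor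
      · linarith
      · linarith)
  simp only [mul_sub, Finset.sum_sub_distrib] at hnear hlow hdiff
  have hcard := H.card
  have hRx : 4 * R / t = 4 * x := by
    rw [hRt]; field_simp
  rw [hRx] at hdiff
  have hcx : (Fintype.card κ : ℝ) * (4 * x) ≤ 8 * C * (ρ / L) := by
    calc (Fintype.card κ : ℝ) * (4 * x) ≤ (C * ρ) * (4 * (2 / L)) := by
          apply mul_le_mul hcard (by linarith) (by positivity) (by positivity)
      _ = 8 * C * (ρ / L) := by ring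
  have hRρ : R ≤ ρ / L := by
    rw [hRL]
    calc ρ * Real.exp (-L) ≤ ρ * (1 / L) := mul_le_mul_of_nonneg_left he2 hρ0.le
      _ = ρ / L := by ring
  have hρL : 0 < ρ / L := div_pos hρ0 hL
  have hcard0 : (0 : ℝ) ≤ S.card := Nat.cast_nonneg _
  have hl4 := cd_log4
  have hl4' : 0 ≤ Real.log 4 := Real.log_nonneg (by norm_num)
  have n1 := abs_le.mp hnear
  have n2 := abs_le.mp hdiff
  have n3 := abs_le.mp hGz
  have n4 := abs_le.mp hGz'
  have n5 := abs_le.mp hu'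
  have f1 : C ^ 2 * Real.log 4 * S.card ≤ 4 * C ^ 2 * C₂ * (ρ / L) := by
    calc C ^ 2 * Real.log 4 * S.card ≤ C ^ 2 * 2 * (2 * C₂ * (ρ / L)) := by
          apply mul_le_mul (mul_le_mul_of_nonneg_left hl4 hC2) hN hcard0 (by positivity)
      _ = 4 * C ^ 2 * C₂ * (ρ / L) := by ring
  have f2 : C ^ 2 * (2 * S.card + Fintype.card κ * (4 * x)) ≤ 4 * C ^ 2 * C₂ * (ρ / L) + 8 * C ^ 3 * (ρ / L) := by
    calc C ^ 2 * (2 * S.card + Fintype.card κ * (4 * x)) ≤ C ^ 2 * (2 * (2 * C₂ * (ρ / L)) + 8 * C * (ρ / L)) := by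
          apply mul_le_mul_of_nonneg_left _ hC2
          linarith
      _ = 4 * C ^ 2 * C₂ * (ρ / L) + 8 * C ^ 3 * (ρ / L) := by ring
  have f3 : 4 * C * C₁ * R ≤ 4 * C * C₁ * (ρ / L) := mul_le_mul_of_nonneg_left hRρ (by positivity)
  have f4 : 0 ≤ (4 * C * C₁ + 12 * C ^ 2 * C₂ + 8 * C ^ 3) := by positivity
  have f5 : 0 ≤ 4 * C ^ 2 * (ρ / L) := by positivity
  have goal : (4 * C ^ 2 + 4 * C * C₁ + 12 * C ^ 2 * C₂ + 8 * C ^ 3) * (1 + ρ / L) =
      4 * C ^ 2 + 4 * C * C₁ * (ρ / L) + 12 * C ^ 2 * C₂ * (ρ / L) + 8 * C ^ 3 * (ρ / L) + (4 * C * C₁ + 12 * C ^ 2 * C₂ + 8 * C ^ 3) + 4 * C ^ 2 * (ρ / L) := by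
    ring
  rw [goal]
  linarith [n1.1, n1.2, n2.1, n2.2, n3.1, n3.2, n4.1, n4.2, n5.1, n5.2]

theorem wd_dir {C η : ℝ} (hC : 1 ≤ C) (hη : 0 < η) : ∃ K₁ δ₁ ρ₁ : ℝ, 0 < δ₁ ∧ δ₁ ≤ 1 / 8 ∧ ∀ (κ : Type) [Fintype κ] (ζ : κ → ℂ) (s : κ → ℝ)
    (M : κ → Fin 2 → ℕ) (h : Fin 2 → ℂ → ℂ) (z₀ : ℂ) (ρ K : ℝ), Wd ζ s M h z₀ ρ C η K → K₁ ≤ K → ρ₁ ≤ ρ → ∀ j k, ζ j ∈ ball z₀ (δ₁ * ρ) →
      ζ k ∈ ball z₀ (δ₁ * ρ) → M j 0 * M k 1 = M j 1 * M k 0 := by
  classical
  obtain ⟨C₁, ρa, hC₁, hρa, Hb⟩ := wd_bdd hC hη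
  obtain ⟨C₂, ρb, hC₂, hρb, Hn⟩ := wd_num hC hη
  set E : ℝ := 4 * C ^ 2 + 4 * C * C₁ + 12 * C ^ 2 * C₂ + 8 * C ^ 3 with hE
  have hE0 : 0 < E := by positivity
  have hδ0 : 0 < Real.exp (-(4 * E / η)) / 200 := by positivity
  have hδe : Real.exp (-(4 * E / η)) ≤ 1 := by
    rw [Real.exp_le_one_iff]
    have : 0 < 4 * E / η := by positivity
    linarith
  set δ : ℝ := Real.exp (-(4 * E / η)) / 200 with hδ
  refine ⟨Real.exp (E * (1 + 2 / η)) + 4, δ, ρa + ρb + 8 + 4 * E / η, hδ0, by linarith, ?_⟩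
  intro κ _ ζ s M h z₀ ρ K H hK hρ j k hj hk
  by_contra hne
  have hK4 : 4 ≤ K := by
    have := Real.exp_pos (E * (1 + 2 / η)); linarith
  have hEη : 0 < 4 * E / η := by positivity
  have hρ8 : 8 ≤ ρ := by linarith
  have hρ0 : 0 < ρ := by linarith
  -- the extremal pair
  set f : κ × κ → ℝ := fun q => ‖ζ q.1 - ζ q.2‖ / (ρ / 2 - ‖ζ q.1 - z₀‖) with hf
  set P : Finset (κ × κ) := Finset.univ.filter fun q => M q.1 0 * M q.2 1 ≠ M q.1 1 * M q.2 0 ∧ ‖ζ q.1 - z₀‖ < ρ / 2 with hP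
  rw [mem_ball, dist_eq_norm] at hj hk
  have hδ8 : δ ≤ 1 / 200 := by linarith
  have hδρ : δ * ρ ≤ ρ / 200 := by nlinarith
  have hPm : (j, k) ∈ P := by
    rw [hP, Finset.mem_filter]
    exact ⟨Finset.mem_univ _, hne, by simp only; linarith⟩
  obtain ⟨q, hq, hmin⟩ := Finset.exists_min_image P f ⟨_, hPm⟩
  rw [hP, Finset.mem_filter] at hq
  obtain ⟨-, hq1, hq2⟩ := hq
  obtain ⟨j0, k1⟩ := q
  simp only at hq1 hq2
  have hmin' : ∀ a b, M a 0 * M b 1 ≠ M a 1 * M b 0 → ‖ζ a - z₀‖ < ρ / 2 →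
      ‖ζ j0 - ζ k1‖ / (ρ / 2 - ‖ζ j0 - z₀‖) ≤ ‖ζ a - ζ b‖ / (ρ / 2 - ‖ζ a - z₀‖) := by
    intro a b h1 h2
    have := hmin (a, b) (by rw [hP, Finset.mem_filter]; exact ⟨Finset.mem_univ _, h1, h2⟩)
    simpa only [hf] using this
  set D : ℝ := ρ / 2 - ‖ζ j0 - z₀‖ with hD
  have hD0 : 0 < D := by linarith
  have hDρ : D ≤ ρ / 2 := by
    have := norm_nonneg (ζ j0 - z₀); linarith
  set R : ℝ := ‖ζ j0 - ζ k1‖ with hRdef
  have hratio : R / D ≤ 6 * δ := by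
    refine (hmin' j k hne (by linarith)).trans ?_
    have h1 : ‖ζ j - ζ k‖ ≤ 2 * (δ * ρ) := by
      calc ‖ζ j - ζ k‖ = ‖(ζ j - z₀) - (ζ k - z₀)‖ := by congr 1; ring
        _ ≤ ‖ζ j - z₀‖ + ‖ζ k - z₀‖ := norm_sub_le _ _
        _ ≤ 2 * (δ * ρ) := by linarith
    have h2 : 0 < ρ / 2 - ‖ζ j - z₀‖ := by linarith
    rw [div_le_iff₀ h2]
    have h3 : ρ / 3 ≤ ρ / 2 - ‖ζ j - z₀‖ := by linarith
    have h4 : 6 * δ * (ρ / 3) ≤ 6 * δ * (ρ / 2 - ‖ζ j - z₀‖) := mul_le_mul_of_nonneg_left h3 (by linarith)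
    linarith
  have hRD : R ≤ 6 * δ * D := by rwa [div_le_iff₀ hD0] at hratio
  have hR3 : R ≤ 3 * δ * ρ := by nlinarith
  have hR64 : R ≤ ρ / 64 := by linarith
  have hjk : j0 ≠ k1 := by
    rintro rfl
    exact hq1 (mul_comm _ _)
  have hs1 := H.s_pos k1
  have hsepk : K * s k1 ≤ R := by
    have := H.sepN k1 j0 fun hh => hq1 (by rw [mul_comm (M j0 0), mul_comm (M j0 1)]; exact hh.symm)
    rwa [norm_sub_rev] at this
  have hR0 : 0 < R := lt_of_lt_of_le (by positivity) hsepk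
  have hpar : ∀ a b, ‖ζ a - ζ j0‖ ≤ R → ‖ζ b - ζ a‖ < R / 2 → M b 0 * M a 1 = M b 1 * M a 0 := by
    intro a b h1 h2
    by_contra hcon
    have hcon' : M a 0 * M b 1 ≠ M a 1 * M b 0 := fun hh => hcon (by rw [mul_comm (M b 0), mul_comm (M b 1)]; exact hh.symm)
    have h3 : ‖ζ a - z₀‖ ≤ R + ‖ζ j0 - z₀‖ := by
      calc ‖ζ a - z₀‖ = ‖(ζ a - ζ j0) + (ζ j0 - z₀)‖ := by congr 1; ring
        _ ≤ ‖ζ a - ζ j0‖ + ‖ζ j0 - z₀‖ := norm_add_le _ _
        _ ≤ _ := by linarith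
    have h4 : 2 * R ≤ D := by nlinarith
    have h5 : D / 2 ≤ ρ / 2 - ‖ζ a - z₀‖ := by linarith
    have h6 := hmin' a b hcon' (by linarith)
    rw [div_le_div_iff₀ hD0 (by linarith)] at h6
    rw [norm_sub_rev] at h2
    have h7 : R * (D / 2) ≤ R * (ρ / 2 - ‖ζ a - z₀‖) := mul_le_mul_of_nonneg_left h5 hR0.le
    have h8 : ‖ζ a - ζ b‖ * D < R / 2 * D := mul_lt_mul_of_pos_right h2 hD0
    linarith
  have hkey := cd_key hC hη hC₁ hC₂ H hK4 hρ8 (fun i z hz => (Hb κ ζ s M h z₀ ρ K H (by linarith) (by linarith) i z hz).2.2) j0 k1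
    (by rw [mem_ball, dist_eq_norm]; exact hq2)
    (fun t h1 h2 => Hn κ ζ s M h z₀ ρ K H (by linarith) (by linarith) j0 (by rw [mem_ball, dist_eq_norm]; linarith) t h1 h2)
    (R := R) rfl hR64 hq1
    (fun a ha => hpar j0 a (by rw [sub_self, norm_zero]; exact hR0.le) ha)
    (fun a ha => hpar k1 a (by rw [norm_sub_rev]) ha)
  rw [← hE] at hkey
  set L : ℝ := Real.log (ρ / R) with hL
  have hL1 : 4 * E / η < L := by
    rw [hL, Real.lt_log_iff_exp_lt (div_pos hρ0 hR0), lt_div_iff₀ hR0]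
    have h1 : Real.exp (4 * E / η) * Real.exp (-(4 * E / η)) = 1 := by rw [← Real.exp_add]; simp
    have h2 : Real.exp (4 * E / η) * R ≤ Real.exp (4 * E / η) * (3 * δ * ρ) := mul_le_mul_of_nonneg_left hR3 (Real.exp_pos _).le
    have h3 : Real.exp (4 * E / η) * (3 * δ * ρ) = 3 / 200 * ρ := by
      rw [hδ]
      calc Real.exp (4 * E / η) * (3 * (Real.exp (-(4 * E / η)) / 200) * ρ) = (Real.exp (4 * E / η) * Real.exp (-(4 * E / η))) * (3 / 200 * ρ) := by ring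
        _ = 3 / 200 * ρ := by rw [h1, one_mul]
    linarith
  have hL0 : 0 < L := by linarith
  have hRs : 0 < R / s k1 := div_pos hR0 hs1
  rcases le_or_gt (Real.exp (-(η * ρ / 2))) R with hc | hc
  · have h1 : η * ρ / 2 ≤ Real.log (R / s k1) := by
      rw [Real.le_log_iff_exp_le hRs, le_div_iff₀ hs1]
      calc Real.exp (η * ρ / 2) * s k1 ≤ Real.exp (η * ρ / 2) * Real.exp (-(η * ρ)) := mul_le_mul_of_nonneg_left (H.s_le k1) (Real.exp_pos _).le
        _ = Real.exp (-(η * ρ / 2)) := by rw [← Real.exp_add]; congr 1; ring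
        _ ≤ R := hc
    have h2 : 4 * E / η < ρ := by linarith
    rw [div_lt_iff₀ hη] at h2
    have h3 : η * ρ / 4 < E * (ρ / L) := by nlinarith
    rw [← mul_div_assoc, lt_div_iff₀ hL0] at h3
    rw [div_lt_iff₀ hη] at hL1
    nlinarith
  · have h1 : η * ρ / 2 ≤ L := by
      rw [hL, Real.log_div hρ0.ne' hR0.ne']
      have a1 : Real.log R ≤ -(η * ρ / 2) := by
        rw [Real.log_le_iff_le_exp hR0]; exact hc.le
      have a2 : 0 ≤ Real.log ρ := Real.log_nonneg (by linarith)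
      linarith
    have h2 : ρ / L ≤ 2 / η := by
      rw [div_le_div_iff₀ hL0 hη]; linarith
    have h3 : K ≤ R / s k1 := by rwa [le_div_iff₀ hs1]
    have h4 : Real.exp (E * (1 + 2 / η)) < R / s k1 := by linarith
    have h5 := (Real.lt_log_iff_exp_lt hRs).mpr h4
    have h6 : E * (1 + ρ / L) ≤ E * (1 + 2 / η) := mul_le_mul_of_nonneg_left (by linarith) hE0.le
    linarith

end Pool.Agent.SR3
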