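import Pool.Agent.SR3.CDefs

/-!
# SR3 CErr: the error terms of the factorization

`|log |(z - a) / (z - ζ)|| ≤ 2 s / |z - ζ|` and `|1 / (z - a) - 1 / (z - ζ)| ≤ 2 s / |z - ζ| ^ 2` if `|a - ζ| ≤ s`, `2 s ≤ |z - ζ|`.
-/

set_option autoImplicit false

open Metric

noncomputable section

namespace Pool.Agent.SR3

variable {κ : Type} [Fintype κ]

private theorem sub_le {a ζ z : ℂ} {s : ℝ} (ha : a ∈ closedBall ζ s) : ‖z - ζ‖ - s ≤ ‖z - a‖ ∧ ‖z - a‖ ≤ ‖z - ζ‖ + s := by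
  have h1 : ‖a - ζ‖ ≤ s := by rwa [← dist_eq_norm]
  have h2 : ‖z - ζ‖ ≤ ‖z - a‖ + ‖a - ζ‖ := by
    have := norm_add_le (z - a) (a - ζ)
    rwa [show z - a + (a - ζ) = z - ζ by ring] at this
  have h3 : ‖z - a‖ ≤ ‖z - ζ‖ + ‖ζ - a‖ := by
    have := norm_add_le (z - ζ) (ζ - a)
    rwa [show z - ζ + (ζ - a) = z - a by ring] at this
  rw [norm_sub_rev ζ a] at h3
  exact ⟨by linarith, by linarith⟩

private theorem half_le {a ζ z : ℂ} {s : ℝ} (ha : a ∈ closedBall ζ s) (hz : 2 * s ≤ ‖z - ζ‖) : ‖z - ζ‖ / 2 ≤ ‖z - a‖ := by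
  have := (sub_le (z := z) ha).1
  linarith

private theorem log_err {a ζ z : ℂ} {s : ℝ} (hs : 0 < s) (ha : a ∈ closedBall ζ s) (hz : 2 * s ≤ ‖z - ζ‖) :
    |Real.log ‖z - a‖ - Real.log ‖z - ζ‖| ≤ 2 * s / ‖z - ζ‖ := by
  have hd : 0 < ‖z - ζ‖ := by linarith
  have ha' : 0 < ‖z - a‖ := lt_of_lt_of_le (by linarith) (half_le ha hz)
  obtain ⟨h1, h2⟩ := sub_le (z := z) ha
  rw [abs_le]
  constructor
  · have h3 : Real.log (‖z - ζ‖ / ‖z - a‖) ≤ ‖z - ζ‖ / ‖z - a‖ - 1 := Real.log_le_sub_one_of_pos (div_pos hd ha')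
    rw [Real.log_div hd.ne' ha'.ne'] at h3
    have h4 : ‖z - ζ‖ / ‖z - a‖ - 1 ≤ 2 * s / ‖z - ζ‖ := by
      rw [div_sub_one ha'.ne', div_le_div_iff₀ ha' hd]
      nlinarith [half_le ha hz]
    linarith
  · have h3 : Real.log (‖z - a‖ / ‖z - ζ‖) ≤ ‖z - a‖ / ‖z - ζ‖ - 1 := Real.log_le_sub_one_of_pos (div_pos ha' hd)
    rw [Real.log_div ha'.ne' hd.ne'] at h3
    have h4 : ‖z - a‖ / ‖z - ζ‖ - 1 ≤ 2 * s / ‖z - ζ‖ := by
      rw [div_sub_one hd.ne']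
      exact div_le_div_of_nonneg_right (by linarith) hd.le
    linarith

private theorem inv_err {a ζ z : ℂ} {s : ℝ} (hs : 0 < s) (ha : a ∈ closedBall ζ s) (hz : 2 * s ≤ ‖z - ζ‖) :
    ‖(z - a)⁻¹ - 1 / (z - ζ)‖ ≤ 2 * s / ‖z - ζ‖ ^ 2 := by
  have hd : 0 < ‖z - ζ‖ := by linarith
  have hh := half_le ha hz
  have ha' : 0 < ‖z - a‖ := lt_of_lt_of_le (by linarith) hh
  have h1 : ‖a - ζ‖ ≤ s := by rwa [← dist_eq_norm]
  have e1 : (z - a)⁻¹ - 1 / (z - ζ) = (a - ζ) / ((z - a) * (z - ζ)) := by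
    have h2 : z - a ≠ 0 := norm_pos_iff.1 ha'
    have h3 : z - ζ ≠ 0 := norm_pos_iff.1 hd
    field_simp
    ring
  rw [e1, norm_div, norm_mul, div_le_div_iff₀ (mul_pos ha' hd) (pow_pos hd 2)]
  nlinarith [mul_le_mul_of_nonneg_right h1 (sq_nonneg ‖z - ζ‖), mul_le_mul_of_nonneg_left hh (mul_nonneg hs.le hd.le)]

theorem fac_log {ζ : κ → ℂ} {s : κ → ℝ} {f g : ℂ → ℂ} {n : κ → ℕ} {a : (k : κ) → Fin (n k) → ℂ} {z₀ : ℂ} {ρ : ℝ} (hs : ∀ k, 0 < s k)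
    (ha : ∀ k j, a k j ∈ closedBall (ζ k) (s k)) (hfg : ∀ z ∈ ball z₀ ρ, f z = Complex.exp (g z) * ∏ k, ∏ j, (z - a k j)) :
    ∀ z ∈ ball z₀ ρ, (∀ k, 2 * s k ≤ ‖z - ζ k‖) →
      |Real.log ‖f z‖ - (g z).re - ∑ k, (n k : ℝ) * Real.log ‖z - ζ k‖| ≤ ∑ k, (n k : ℝ) * (2 * s k / ‖z - ζ k‖) := by
  intro z hz hzs
  have ha' : ∀ k j, 0 < ‖z - a k j‖ := fun k j => by
    have h1 := half_le (ha k j) (hzs k)
    have h2 := hs k
    have h3 := hzs k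
    linarith
  have e1 : Real.log ‖f z‖ = (g z).re + ∑ k, ∑ j, Real.log ‖z - a k j‖ := by
    rw [hfg z hz, norm_mul, Complex.norm_exp, norm_prod, Real.log_mul (Real.exp_pos _).ne' (Finset.prod_ne_zero_iff.2 fun k _ => by
      rw [norm_prod]; exact Finset.prod_ne_zero_iff.2 fun j _ => (ha' k j).ne'), Real.log_exp, Real.log_prod fun k _ => by
      rw [norm_prod]; exact Finset.prod_ne_zero_iff.2 fun j _ => (ha' k j).ne']
    congr 1
    refine Finset.sum_congr rfl fun k _ => ?_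
    rw [norm_prod, Real.log_prod fun j _ => (ha' k j).ne']
  have e2 : Real.log ‖f z‖ - (g z).re - ∑ k, (n k : ℝ) * Real.log ‖z - ζ k‖ = ∑ k, ∑ j : Fin (n k), (Real.log ‖z - a k j‖ - Real.log ‖z - ζ k‖) := by
    rw [e1, add_sub_cancel_left, ← Finset.sum_sub_distrib]
    refine Finset.sum_congr rfl fun k _ => ?_
    rw [Finset.sum_sub_distrib, Finset.sum_const, Finset.card_univ, Fintype.card_fin, nsmul_eq_mul]
  rw [e2]
  refine (Finset.abs_sum_le_sum_abs _ _).trans (Finset.sum_le_sum fun k _ => ?_)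
  refine (Finset.abs_sum_le_sum_abs _ _).trans ((Finset.sum_le_sum fun j _ => log_err (hs k) (ha k j) (hzs k)).trans_eq ?_)
  rw [Finset.sum_const, Finset.card_univ, Fintype.card_fin, nsmul_eq_mul]

theorem fac_deriv {ζ : κ → ℂ} {s : κ → ℝ} {f g : ℂ → ℂ} {n : κ → ℕ} {a : (k : κ) → Fin (n k) → ℂ} {z₀ : ℂ} {ρ : ℝ} (hs : ∀ k, 0 < s k)
    (hg : DifferentiableOn ℂ g (ball z₀ ρ))
    (ha : ∀ k j, a k j ∈ closedBall (ζ k) (s k)) (hfg : ∀ z ∈ ball z₀ ρ, f z = Complex.exp (g z) * ∏ k, ∏ j, (z - a k j)) :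
    ∀ z ∈ ball z₀ ρ, (∀ k, 2 * s k ≤ ‖z - ζ k‖) →
      ‖deriv f z / f z - deriv g z - ∑ k, (n k : ℂ) / (z - ζ k)‖ ≤ ∑ k, (n k : ℝ) * (2 * s k / ‖z - ζ k‖ ^ 2) := by
  intro z hz hzs
  have ha' : ∀ k j, 0 < ‖z - a k j‖ := fun k j => by
    have h1 := half_le (ha k j) (hzs k)
    have h2 := hs k
    have h3 := hzs k
    linarith
  have hne : ∀ k j, z - a k j ≠ 0 := fun k j => norm_pos_iff.1 (ha' k j)
  have hgz : DifferentiableAt ℂ g z := hg.differentiableAt (isOpen_ball.mem_nhds hz)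
  have hev : f =ᶠ[nhds z] fun w => Complex.exp (g w) * ∏ k, ∏ j, (w - a k j) :=
    Filter.eventually_of_mem (isOpen_ball.mem_nhds hz) hfg
  have hP : ∀ k ∈ Finset.univ, DifferentiableAt ℂ (fun w => ∏ j, (w - a k j)) z := fun k _ => by fun_prop
  have e1 : deriv f z / f z = deriv g z + ∑ k, ∑ j, (z - a k j)⁻¹ := by
    have h1 : deriv f z / f z = logDeriv (fun w => Complex.exp (g w) * ∏ k, ∏ j, (w - a k j)) z := by
      rw [logDeriv_apply, hev.deriv_eq, hfg z hz]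
    rw [h1, logDeriv_mul (f := fun w => Complex.exp (g w)) (g := fun w => ∏ k, ∏ j, (w - a k j)) z (Complex.exp_ne_zero _)
      (Finset.prod_ne_zero_iff.2 fun k _ => Finset.prod_ne_zero_iff.2 fun j _ => hne k j) hgz.cexp (by fun_prop)]
    congr 1
    · rw [logDeriv_apply, deriv_cexp hgz, mul_div_cancel_left₀ _ (Complex.exp_ne_zero _)]
    · rw [logDeriv_prod (fun k _ => Finset.prod_ne_zero_iff.2 fun j _ => hne k j) hP]
      refine Finset.sum_congr rfl fun k _ => ?_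
      rw [logDeriv_prod (fun j _ => hne k j) (fun j _ => by fun_prop)]
      refine Finset.sum_congr rfl fun j _ => ?_
      rw [logDeriv_apply, deriv_sub_const, deriv_id'', one_div]
  have e2 : deriv f z / f z - deriv g z - ∑ k, (n k : ℂ) / (z - ζ k) = ∑ k, ∑ j : Fin (n k), ((z - a k j)⁻¹ - 1 / (z - ζ k)) := by
    rw [e1, add_sub_cancel_left, ← Finset.sum_sub_distrib]
    refine Finset.sum_congr rfl fun k _ => ?_
    rw [Finset.sum_sub_distrib, Finset.sum_const, Finset.card_univ, Fintype.card_fin, nsmul_eq_mul, mul_one_div]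
  rw [e2]
  refine (norm_sum_le _ _).trans (Finset.sum_le_sum fun k _ => ?_)
  refine (norm_sum_le _ _).trans ((Finset.sum_le_sum fun j _ => inv_err (hs k) (ha k j) (hzs k)).trans_eq ?_)
  rw [Finset.sum_const, Finset.card_univ, Fintype.card_fin, nsmul_eq_mul]

end Pool.Agent.SR3
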