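import Pool.Agent.SR3.CDefs

/-!
# SR3 CFac: the factorization

Divide by the zeros in the closed disc, one by one.  This stops: if `f = G * ∏ (z - a j)` with `N` points `a j` in the disc of radius `ρ`, then
`|G z₁| ≤ M / (4 ρ) ^ N` (maximum principle on the disc of radius `5 ρ`), so `|f z₁| ≤ M / 2 ^ N`.
-/

set_option autoImplicit false

open Metric

noncomputable section

namespace Pool.Agent.SR3

variable {κ : Type} [Fintype κ]

private theorem exists_fac {f : ℂ → ℂ} (hf : Differentiable ℂ f) {z₀ : ℂ} {ρ : ℝ} (hρ : 0 < ρ) {z₁ : ℂ} (hz₁ : z₁ ∈ closedBall z₀ ρ) (h1 : f z₁ ≠ 0) :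
    ∃ (N : ℕ) (a : Fin N → ℂ) (G : ℂ → ℂ), Differentiable ℂ G ∧ (∀ j, a j ∈ closedBall z₀ ρ) ∧ (∀ z, f z = G z * ∏ j, (z - a j)) ∧
      ∀ z ∈ closedBall z₀ ρ, G z ≠ 0 := by
  by_contra hno
  have key : ∀ N : ℕ, ∃ (a : Fin N → ℂ) (G : ℂ → ℂ), Differentiable ℂ G ∧ (∀ j, a j ∈ closedBall z₀ ρ) ∧ (∀ z, f z = G z * ∏ j, (z - a j)) := by
    intro N
    induction N with
    | zero => exact ⟨Fin.elim0, f, hf, fun j => j.elim0, fun z => by simp⟩
    | succ N ih =>
      obtain ⟨a, G, hG, ha, hfG⟩ := ih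
      have h2 : ∃ w ∈ closedBall z₀ ρ, G w = 0 := by
        by_contra h3
        push Not at h3
        exact hno ⟨N, a, G, hG, ha, hfG, h3⟩
      obtain ⟨w, hw, hGw⟩ := h2
      refine ⟨Fin.snoc a w, dslope G w, ?_, ?_, fun z => ?_⟩
      · rw [← differentiableOn_univ, Complex.differentiableOn_dslope Filter.univ_mem, differentiableOn_univ]
        exact hG
      · refine Fin.lastCases ?_ fun j => ?_
        · rw [Fin.snoc_last]
          exact hw
        · rw [Fin.snoc_castSucc]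
          exact ha j
      · rw [hfG z, Fin.prod_univ_castSucc]
        simp only [Fin.snoc_castSucc, Fin.snoc_last]
        have h3 : (z - w) • dslope G w z = G z - G w := sub_smul_dslope G w z
        rw [hGw, sub_zero, smul_eq_mul] at h3
        rw [← h3]
        ring
  -- the maximum of `f` on the sphere of radius `5 ρ`
  have hc : IsCompact (sphere z₀ (5 * ρ)) := isCompact_sphere z₀ (5 * ρ)
  obtain ⟨M, hM⟩ := hc.exists_bound_of_continuousOn hf.continuous.continuousOn
  have hM0 : 0 ≤ M := by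
    have h2 : z₀ + ((5 * ρ : ℝ) : ℂ) ∈ sphere z₀ (5 * ρ) := by
      rw [mem_sphere_iff_norm, add_sub_cancel_left, Complex.norm_real, Real.norm_eq_abs, abs_of_pos (by positivity)]
    exact (norm_nonneg _).trans (hM _ h2)
  have hb : ∀ N : ℕ, ‖f z₁‖ ≤ M * (1 / 2) ^ N := by
    intro N
    obtain ⟨a, G, hG, ha, hfG⟩ := key N
    have h2 : ∀ z ∈ frontier (ball z₀ (5 * ρ)), ‖G z‖ ≤ M / (4 * ρ) ^ N := by
      intro z hz
      have hz' : z ∈ sphere z₀ (5 * ρ) := by
        rwa [frontier_ball _ (by positivity : (5 * ρ : ℝ) ≠ 0)] at hz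
      have h3 := hM z hz'
      rw [hfG z, norm_mul, norm_prod] at h3
      have h4 : (4 * ρ) ^ N ≤ ∏ j, ‖z - a j‖ := by
        have h5 : ∏ _j : Fin N, (4 * ρ) ≤ ∏ j, ‖z - a j‖ := by
          refine Finset.prod_le_prod (fun _ _ => by positivity) fun j _ => ?_
          have h6 := ha j
          rw [mem_closedBall, dist_eq_norm] at h6
          rw [mem_sphere_iff_norm] at hz'
          have h7 : ‖z - z₀‖ ≤ ‖z - a j‖ + ‖a j - z₀‖ := by
            have := norm_add_le (z - a j) (a j - z₀)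
            rwa [sub_add_sub_cancel] at this
          linarith
        rwa [Finset.prod_const, Finset.card_univ, Fintype.card_fin] at h5
      rw [le_div_iff₀ (by positivity)]
      exact (mul_le_mul_of_nonneg_left h4 (norm_nonneg _)).trans h3
    have h3 : ‖G z₁‖ ≤ M / (4 * ρ) ^ N := by
      refine Complex.norm_le_of_forall_mem_frontier_norm_le isBounded_ball hG.diffContOnCl h2 ?_
      refine subset_closure (mem_ball.2 ?_)
      have := mem_closedBall.1 hz₁
      linarith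
    have h4 : ∏ j, ‖z₁ - a j‖ ≤ (2 * ρ) ^ N := by
      have h5 : ∏ j, ‖z₁ - a j‖ ≤ ∏ _j : Fin N, (2 * ρ) := by
        refine Finset.prod_le_prod (fun _ _ => norm_nonneg _) fun j _ => ?_
        have h6 := ha j
        have h7 := hz₁
        rw [mem_closedBall, dist_eq_norm] at h6 h7
        have h8 : ‖z₁ - a j‖ ≤ ‖z₁ - z₀‖ + ‖a j - z₀‖ := by
          have := norm_sub_le (z₁ - z₀) (a j - z₀)
          rwa [sub_sub_sub_cancel_right] at this
        linarith
      rwa [Finset.prod_const, Finset.card_univ, Fintype.card_fin] at h5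
    calc ‖f z₁‖ = ‖G z₁‖ * ∏ j, ‖z₁ - a j‖ := by rw [hfG z₁, norm_mul, norm_prod]
      _ ≤ M / (4 * ρ) ^ N * (2 * ρ) ^ N := mul_le_mul h3 h4 (Finset.prod_nonneg fun _ _ => norm_nonneg _) (by positivity)
      _ = M * (1 / 2) ^ N := by
        rw [div_mul_eq_mul_div, mul_div_assoc, ← div_pow]
        congr 2
        field_simp
        norm_num
  have h3 : Filter.Tendsto (fun N : ℕ => M * (1 / 2 : ℝ) ^ N) Filter.atTop (nhds (M * 0)) :=
    (tendsto_pow_atTop_nhds_zero_of_lt_one (by norm_num) (by norm_num)).const_mul M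
  rw [mul_zero] at h3
  have h4 : ‖f z₁‖ ≤ 0 := ge_of_tendsto' h3 hb
  exact h1 (norm_le_zero_iff.1 h4)

/-- a function without zeros on a disc is an exponential -/
private theorem exists_log {G : ℂ → ℂ} (hG : Differentiable ℂ G) {z₀ : ℂ} {ρ : ℝ} (hρ : 0 < ρ) (h0 : ∀ z ∈ ball z₀ ρ, G z ≠ 0) :
    ∃ g : ℂ → ℂ, DifferentiableOn ℂ g (ball z₀ ρ) ∧ ∀ z ∈ ball z₀ ρ, G z = Complex.exp (g z) := by
  have h1 : DifferentiableOn ℂ (fun z => deriv G z / G z) (ball z₀ ρ) :=
    hG.deriv.differentiableOn.div hG.differentiableOn h0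
  obtain ⟨p, hp⟩ := h1.isExactOn_ball
  have hz₀ : z₀ ∈ ball z₀ ρ := mem_ball_self hρ
  obtain ⟨c, hc⟩ : ∃ c, Complex.exp c = G z₀ * Complex.exp (-p z₀) := ⟨Complex.log (G z₀ * Complex.exp (-p z₀)), Complex.exp_log (mul_ne_zero (h0 z₀ hz₀) (Complex.exp_ne_zero _))⟩
  refine ⟨fun z => p z + c, fun z hz => ((hp z hz).differentiableAt.add_const c).differentiableWithinAt, fun z hz => ?_⟩
  have h2 : ∀ w ∈ ball z₀ ρ, HasDerivAt (fun z => G z * Complex.exp (-p z)) 0 w := by
    intro w hw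
    have h3 := (hG w).hasDerivAt.mul ((hp w hw).neg.cexp)
    have h4 : G w * (deriv G w / G w) = deriv G w := mul_div_cancel₀ _ (h0 w hw)
    have h5 : deriv G w * Complex.exp (-p w) + G w * (Complex.exp (-p w) * -(deriv G w / G w)) = 0 := by
      linear_combination -Complex.exp (-p w) * h4
    rwa [show deriv G w * Complex.exp ((-p) w) + G w * (Complex.exp ((-p) w) * -(deriv G w / G w)) = 0 from h5] at h3
  have h3 : G z * Complex.exp (-p z) = G z₀ * Complex.exp (-p z₀) := by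
    refine isOpen_ball.is_const_of_deriv_eq_zero (convex_ball z₀ ρ).isPreconnected (fun w hw => (h2 w hw).differentiableAt.differentiableWithinAt)
      (fun w hw => (h2 w hw).deriv) hz hz₀
  rw [Complex.exp_add, hc, ← h3, mul_left_comm, ← Complex.exp_add, add_neg_cancel, Complex.exp_zero, mul_one]

theorem fac {ζ : κ → ℂ} {s : κ → ℝ} {f : ℂ → ℂ} (hf : Differentiable ℂ f) {z₀ : ℂ} {ρ : ℝ} (hρ : 0 < ρ)
    (hin : ∀ k, closedBall (ζ k) (s k) ⊆ ball z₀ ρ) (hdis : ∀ j k, j ≠ k → Disjoint (closedBall (ζ j) (s j)) (closedBall (ζ k) (s k)))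
    (h0 : ∀ z ∈ closedBall z₀ ρ, (∀ k, s k < ‖z - ζ k‖) → f z ≠ 0) :
    ∃ (n : κ → ℕ) (a : (k : κ) → Fin (n k) → ℂ) (g : ℂ → ℂ), DifferentiableOn ℂ g (ball z₀ ρ) ∧ (∀ k j, a k j ∈ closedBall (ζ k) (s k)) ∧
      ∀ z ∈ ball z₀ ρ, f z = Complex.exp (g z) * ∏ k, ∏ j, (z - a k j) := by
  classical
  have _ := hdis
  -- a point on the sphere
  have hz₁ : z₀ + (ρ : ℂ) ∈ sphere z₀ ρ := by
    rw [mem_sphere_iff_norm, add_sub_cancel_left, Complex.norm_real, Real.norm_eq_abs, abs_of_pos hρ]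
  have hf₁ : f (z₀ + (ρ : ℂ)) ≠ 0 := by
    refine h0 _ (sphere_subset_closedBall hz₁) fun k => ?_
    by_contra h1
    have h2 : z₀ + (ρ : ℂ) ∈ closedBall (ζ k) (s k) := by
      rw [mem_closedBall, dist_eq_norm]
      exact not_lt.1 h1
    exact absurd (mem_sphere.1 hz₁) (ne_of_lt (mem_ball.1 (hin k h2)))
  obtain ⟨N, a, G, hG, ha, hfG, hG0⟩ := exists_fac hf hρ (sphere_subset_closedBall hz₁) hf₁
  obtain ⟨g, hg, hgG⟩ := exists_log hG hρ fun z hz => hG0 z (ball_subset_closedBall hz)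
  have hk : ∀ j, ∃ k, a j ∈ closedBall (ζ k) (s k) := by
    intro j
    by_contra h1
    push Not at h1
    refine h0 (a j) (ha j) (fun k => ?_) ?_
    · have h2 := h1 k
      rw [mem_closedBall, dist_eq_norm] at h2
      exact not_le.1 h2
    · rw [hfG, Finset.prod_eq_zero (Finset.mem_univ j) (sub_self _), mul_zero]
  choose c hc using hk
  refine ⟨fun k => Fintype.card {j // c j = k}, fun k i => a ((Fintype.equivFin {j // c j = k}).symm i).1, g, hg, fun k i => ?_, fun z hz => ?_⟩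
  · have h1 := ((Fintype.equivFin {j // c j = k}).symm i).2
    have h2 := hc ((Fintype.equivFin {j // c j = k}).symm i).1
    rwa [h1] at h2
  · rw [hfG z, hgG z hz]
    congr 1
    have h1 : ∀ k, ∏ i, (z - a ((Fintype.equivFin {j // c j = k}).symm i).1) = ∏ j : {j // c j = k}, (z - a j.1) := fun k =>
      (Fintype.equivFin {j // c j = k}).symm.prod_comp fun j => z - a j.1
    rw [Finset.prod_congr rfl fun k _ => h1 k, ← Fintype.prod_sigma']
    exact ((Equiv.sigmaFiberEquiv c).prod_comp fun j => z - a j).symm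

end Pool.Agent.SR3
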