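import Pool.Agent.SR3.CDefs

/-!
# SR3 CLin: a binary form is a power of the linear form `Lf a` times a form which does not vanish at `a`

Induction on `m`: a homogeneous `P` with `P (a) = 0` is divisible by `Lf a`, because `a 1 ^ m * P = P (a 0 X 1 , a 1 X 1) = 0` modulo `Lf a`.
-/

set_option autoImplicit false

open MvPolynomial

noncomputable section

namespace Pool.Agent.SR3

/-- modulo `Lf a` the variables are proportional -/
private theorem CLin_cong (a : Fin 2 → ℕ) (P : MvPolynomial (Fin 2) ℂ) :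
    Lf a ∣ aeval (fun i => C (a 1 : ℂ) * X i : Fin 2 → MvPolynomial (Fin 2) ℂ) P - aeval (fun i => C (a i : ℂ) * X 1 : Fin 2 → MvPolynomial (Fin 2) ℂ) P := by
  induction P using MvPolynomial.induction_on with
  | C c => rw [aeval_C, aeval_C, sub_self]; exact dvd_zero _
  | add p q hp hq =>
    rw [map_add, map_add, add_sub_add_comm]
    exact dvd_add hp hq
  | mul_X p i hp =>
    rw [map_mul, map_mul, aeval_X, aeval_X]
    have h1 : Lf a ∣ C (a 1 : ℂ) * X i - C (a i : ℂ) * X 1 := by
      fin_cases i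
      · exact dvd_refl _
      · show Lf a ∣ C (a 1 : ℂ) * X 1 - C (a 1 : ℂ) * X 1
        rw [sub_self]
        exact dvd_zero _
    have h2 : ∀ u v s t : MvPolynomial (Fin 2) ℂ, u * s - v * t = (u - v) * s + v * (s - t) := fun u v s t => by ring
    rw [h2]
    exact dvd_add (hp.mul_right _) (h1.mul_left _)

/-- scaling of a homogeneous polynomial by a constant -/
private theorem CLin_scale {m : ℕ} {P : MvPolynomial (Fin 2) ℂ} (hP : P.IsHomogeneous m) (u : MvPolynomial (Fin 2) ℂ) (y : Fin 2 → MvPolynomial (Fin 2) ℂ) :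
    aeval (fun i => u * y i) P = u ^ m * aeval y P := by
  rw [aeval_def, eval₂_eq', aeval_def, eval₂_eq', Finset.mul_sum]
  refine Finset.sum_congr rfl fun d hd => ?_
  have h1 : ∑ i, d i = m := by
    have h2 := hP (mem_support_iff.1 hd)
    rw [Finsupp.weight_apply, Finsupp.sum_fintype _ _ (fun i => by simp)] at h2
    simpa using h2
  simp only [mul_pow, Finset.prod_mul_distrib, Finset.prod_pow_eq_pow_sum, h1]
  ring

private theorem CLin_const (a : Fin 2 → ℕ) (P : MvPolynomial (Fin 2) ℂ) :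
    aeval (fun i => C (a i : ℂ) : Fin 2 → MvPolynomial (Fin 2) ℂ) P = C (eval (fun i => (a i : ℂ)) P) := by
  induction P using MvPolynomial.induction_on with
  | C c => rw [aeval_C, eval_C]; rfl
  | add p q hp hq => rw [map_add, map_add, map_add, hp, hq]
  | mul_X p i hp => rw [map_mul, map_mul, map_mul, hp, aeval_X, eval_X]

/-- the value at `a` -/
private theorem CLin_val {m : ℕ} {P : MvPolynomial (Fin 2) ℂ} (hP : P.IsHomogeneous m) (a : Fin 2 → ℕ) :
    aeval (fun i => C (a i : ℂ) * X 1 : Fin 2 → MvPolynomial (Fin 2) ℂ) P = X 1 ^ m * C (eval (fun i => (a i : ℂ)) P) := by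
  have h1 : (fun i => C (a i : ℂ) * X 1 : Fin 2 → MvPolynomial (Fin 2) ℂ) = fun i => X 1 * C (a i : ℂ) := by
    funext i
    exact mul_comm _ _
  rw [h1, CLin_scale hP, CLin_const]

private theorem CLin_dvd {m : ℕ} {P : MvPolynomial (Fin 2) ℂ} (hP : P.IsHomogeneous m) (a : Fin 2 → ℕ) (ha : a 1 ≠ 0) (h0 : eval (fun i => (a i : ℂ)) P = 0) :
    Lf a ∣ P := by
  have h1 := CLin_cong a P
  have h2 : aeval (fun i => X i : Fin 2 → MvPolynomial (Fin 2) ℂ) P = P := aeval_X_left_apply P
  rw [CLin_val hP, h0, C_0, mul_zero, sub_zero, CLin_scale hP, h2, ← C_pow] at h1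
  have h3 : ((a 1 : ℂ) ^ m) ≠ 0 := pow_ne_zero _ (by exact_mod_cast ha)
  have h4 : P = C (((a 1 : ℂ) ^ m)⁻¹) * (C ((a 1 : ℂ) ^ m) * P) := by
    rw [← mul_assoc, ← C_mul, inv_mul_cancel₀ h3, C_1, one_mul]
  rw [h4]
  exact h1.mul_left _

private theorem CLin_hom (a : Fin 2 → ℕ) : (Lf a).IsHomogeneous 1 := by
  have h1 : ∀ (c : ℂ) (i : Fin 2), (C c * X i : MvPolynomial (Fin 2) ℂ).IsHomogeneous 1 := fun c i => by
    simpa using (isHomogeneous_C (Fin 2) c).mul (isHomogeneous_X ℂ i)
  exact (h1 _ _).sub (h1 _ _)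

private theorem CLin_ne (a : Fin 2 → ℕ) (ha : a 1 ≠ 0) : Lf a ≠ 0 := by
  intro h
  have h1 := congrArg (eval (fun i : Fin 2 => if i = 0 then (1 : ℂ) else 0)) h
  simp [Lf] at h1
  exact ha h1

/-- the quotient of a form by `Lf a` is a form -/
private theorem CLin_quot {m : ℕ} {P Q : MvPolynomial (Fin 2) ℂ} (hP : P.IsHomogeneous (m + 1)) (a : Fin 2 → ℕ) (ha : a 1 ≠ 0) (h : P = Lf a * Q) :
    Q.IsHomogeneous m := by
  have h1 : Q = homogeneousComponent m Q := by
    have h2 : Lf a * (Q - homogeneousComponent m Q) = 0 := by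
      have h3 : ∀ i, homogeneousComponent (m + 1) (Lf a * homogeneousComponent i Q) = if i = m then Lf a * homogeneousComponent i Q else 0 := fun i => by
        rw [homogeneousComponent_of_mem ((CLin_hom a).mul (homogeneousComponent_isHomogeneous i Q))]
        by_cases h4 : i = m
        · rw [if_pos (by omega), if_pos h4]
        · rw [if_neg (by omega), if_neg h4]
      have h5 : homogeneousComponent (m + 1) (Lf a * Q) = Lf a * homogeneousComponent m Q := by
        conv_lhs => rw [← sum_homogeneousComponent Q, Finset.mul_sum, map_sum]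
        rw [Finset.sum_congr rfl (fun i _ => h3 i), Finset.sum_ite_eq']
        split_ifs with h6
        · rfl
        · rw [homogeneousComponent_eq_zero m Q (by rw [Finset.mem_range] at h6; omega), mul_zero]
      rw [mul_sub, ← h5, ← h, homogeneousComponent_eq_self hP, sub_self]
    rcases mul_eq_zero.1 h2 with h3 | h3
    · exact absurd h3 (CLin_ne a ha)
    · exact sub_eq_zero.1 h3
  rw [h1]
  exact homogeneousComponent_isHomogeneous m Q

theorem lin_factor {m : ℕ} {P : MvPolynomial (Fin 2) ℂ} (hP : P.IsHomogeneous m) (h0 : P ≠ 0) (a : Fin 2 → ℕ) (ha : a 1 ≠ 0) :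
    ∃ (e : ℕ) (P' : MvPolynomial (Fin 2) ℂ), e ≤ m ∧ P'.IsHomogeneous (m - e) ∧ P = Lf a ^ e * P' ∧ MvPolynomial.eval (fun i => (a i : ℂ)) P' ≠ 0 := by
  induction m generalizing P with
  | zero =>
    refine ⟨0, P, le_refl _, hP, by rw [pow_zero, one_mul], ?_⟩
    have h1 : P = C (coeff 0 P) := (totalDegree_eq_zero_iff_eq_C.1 (Nat.le_zero.1 hP.totalDegree_le))
    rw [h1, eval_C]
    intro h2
    rw [h2, C_0] at h1
    exact h0 h1
  | succ m ih =>
    by_cases h1 : eval (fun i => (a i : ℂ)) P = 0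
    · obtain ⟨Q, hQ⟩ := CLin_dvd hP a ha h1
      have hQ0 : Q ≠ 0 := by
        rintro rfl
        rw [mul_zero] at hQ
        exact h0 hQ
      obtain ⟨e, P', h2, h3, h4, h5⟩ := ih (CLin_quot hP a ha hQ) hQ0
      refine ⟨e + 1, P', by omega, ?_, ?_, h5⟩
      · have h6 : m + 1 - (e + 1) = m - e := by omega
        rw [h6]
        exact h3
      · rw [hQ, h4, pow_succ]
        ring
    · exact ⟨0, P, Nat.zero_le _, hP, by rw [pow_zero, one_mul], h1⟩

end Pool.Agent.SR3
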