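import Pool.Agent.SR3.CLowA
import Pool.Agent.SR3.CRes
import Pool.Agent.SR2.AHar

/-!
# SR3 CLow: every point which is not too near to a well

Near a well: `wd_lowA` for the restriction to a disc about the point.  Otherwise a chain of discs (Harnack) along the segment to `z₀`, up to the first point which is
near a well.
-/

set_option autoImplicit false

open Metric

noncomputable section

namespace Pool.Agent.SR3

/-- `exp (- x)` is small -/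
private theorem exp_small {a b ρ : ℝ} (ha : 0 < a) (hb : 0 < b) (h : 1 / (a * b) ≤ ρ) : Real.exp (-(a * ρ)) < b := by
  have h1 : 1 / b ≤ a * ρ := by
    rw [div_le_iff₀ (mul_pos ha hb)] at h
    rw [div_le_iff₀ hb]
    linarith
  have h2 : 1 / b < Real.exp (a * ρ) := by linarith [Real.add_one_le_exp (a * ρ)]
  rw [Real.exp_neg, inv_lt_comm₀ (Real.exp_pos _) hb, ← one_div]
  exact h2

/-- a point near a well, in the whole disc -/
private theorem near {C η ε : ℝ} (hC : 1 ≤ C) (hη : 0 < η) (hε : 0 < ε) (hε1 : ε ≤ 1) : ∃ δ c θ ρ₁ : ℝ, 0 < δ ∧ 0 < c ∧ 0 < θ ∧ θ ≤ η ∧ 1 ≤ ρ₁ ∧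
    ∀ (κ : Type) [Fintype κ] (ζ : κ → ℂ) (s : κ → ℝ)
    (M : κ → Fin 2 → ℕ) (h : Fin 2 → ℂ → ℂ) (z₀ : ℂ) (ρ K : ℝ), Wd ζ s M h z₀ ρ C η K → 2 ≤ K → ρ₁ ≤ ρ →
      ∀ z ∈ ball z₀ ((1 - ε) * ρ), (∀ k, Real.exp (-(θ * ρ)) ≤ ‖z - ζ k‖) → (∃ k, ‖z - ζ k‖ ≤ δ * ρ) → ∀ i, c * ρ ≤ sg ζ M h i z := by
  have hA : 1 ≤ 4 / ε := by rw [le_div_iff₀ hε]; linarith
  have hC' : 1 ≤ 4 / ε * C := by nlinarith
  obtain ⟨δ, c, θ, ρ₁, hδ, hδ8, hc, hθ, H⟩ := wd_lowA (C := 4 / ε * C) (η := η) hC' hη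
  refine ⟨δ * ε / 4, c * ε / 4, min (θ * ε / 4) η, max 1 (max (4 * ρ₁ / ε) (1 / (η * (ε / (8 * C))))), by positivity, by positivity,
    lt_min (by positivity) hη, min_le_right _ _, le_max_left _ _, ?_⟩
  intro κ _ ζ s M h z₀ ρ K W hK hρ z hz hfar hnear i
  have hρ1 : 1 ≤ ρ := (le_max_left _ _).trans hρ
  have hρ0 : 0 < ρ := by linarith
  have hρ2 : 4 * ρ₁ / ε ≤ ρ := ((le_max_left _ _).trans (le_max_right _ _)).trans hρ
  have hρ3 : 1 / (η * (ε / (8 * C))) ≤ ρ := ((le_max_right _ _).trans (le_max_right _ _)).trans hρ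
  have hC0 : 0 < C := by linarith
  have hexp : Real.exp (-(η * ρ)) < ε / (8 * C) := exp_small hη (by positivity) hρ3
  have hsum : ∑ k, s k ≤ C * ρ * Real.exp (-(η * ρ)) := by
    calc ∑ k, s k ≤ ∑ _k : κ, Real.exp (-(η * ρ)) := Finset.sum_le_sum fun k _ => W.s_le k
      _ = (Fintype.card κ : ℝ) * Real.exp (-(η * ρ)) := by rw [Finset.sum_const, nsmul_eq_mul, Finset.card_univ]
      _ ≤ C * ρ * Real.exp (-(η * ρ)) := mul_le_mul_of_nonneg_right W.card (Real.exp_pos _).le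
  have hsum2 : 2 * ∑ k, s k < ε * ρ / 2 - ε * ρ / 4 := by
    have h1 : C * ρ * Real.exp (-(η * ρ)) < C * ρ * (ε / (8 * C)) := mul_lt_mul_of_pos_left hexp (by positivity)
    have h2 : C * ρ * (ε / (8 * C)) = ε * ρ / 8 := by field_simp
    linarith
  obtain ⟨r, hr1, hr2, hm⟩ := good_circle (ζ := ζ) (s := s) (fun k => (W.s_pos k).le) (z₁ := z) (r₁ := ε * ρ / 4) (r₂ := ε * ρ / 2) hsum2
  have hερ : 0 < ε * ρ := by positivity
  have hr0 : 0 < r := by linarith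
  have hερ1 : ε * ρ ≤ ρ := by nlinarith
  have hzd : dist z z₀ < (1 - ε) * ρ := mem_ball.1 hz
  have hb : ball z r ⊆ ball z₀ ρ := ball_subset_ball' (by nlinarith)
  have hρA : ρ ≤ 4 / ε * r := by
    rw [div_mul_eq_mul_div, le_div_iff₀ hε]; linarith
  obtain ⟨κ', inst, e, h', -, hmem, W', hsg⟩ := wd_restrict W hC hη hK hr0 hb hA hρA (by linarith) hm
  have hs : ∀ k, s k ≤ ‖z - ζ k‖ := by
    intro k
    refine (W.s_le k).trans (le_trans (Real.exp_le_exp.2 ?_) (hfar k))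
    have : min (θ * ε / 4) η * ρ ≤ η * ρ := mul_le_mul_of_nonneg_right (min_le_right _ _) hρ0.le
    linarith
  have hρ₁r : ρ₁ ≤ r := by
    rw [div_le_iff₀ hε] at hρ2
    linarith
  have hθr : min (θ * ε / 4) η * ρ ≤ θ * r := by
    have h1 : min (θ * ε / 4) η * ρ ≤ θ * ε / 4 * ρ := mul_le_mul_of_nonneg_right (min_le_left _ _) hρ0.le
    have h2 : θ * (ε * ρ / 4) ≤ θ * r := mul_le_mul_of_nonneg_left hr1 hθ.le
    nlinarith
  have h3 := H κ' (ζ ∘ e) (s ∘ e) (M ∘ e) h' z r K W' hK hρ₁r z (mem_ball_self (by linarith)) ?_ ?_ i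
  · rw [(hsg i z (mem_ball_self hr0) hs).1] at h3
    have h4 : c * (ε * ρ / 4) ≤ c * r := mul_le_mul_of_nonneg_left hr1 hc.le
    nlinarith
  · intro k'
    refine le_trans (Real.exp_le_exp.2 ?_) (hfar (e k'))
    linarith
  · obtain ⟨k, hk⟩ := hnear
    have h5 : ‖z - ζ k‖ ≤ δ * r := by
      have : δ * (ε * ρ / 4) ≤ δ * r := mul_le_mul_of_nonneg_left hr1 hδ.le
      nlinarith
    have h6 : ζ k ∈ ball z r := by
      rw [mem_ball, dist_comm, dist_eq_norm]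
      nlinarith
    obtain ⟨k', hk'⟩ := (hmem k).1 h6
    exact ⟨k', by simpa [hk'] using h5⟩

/-- Harnack in a disc without wells -/
private theorem step {κ : Type} [Fintype κ] {ζ : κ → ℂ} {s : κ → ℝ} {M : κ → Fin 2 → ℕ} {h : Fin 2 → ℂ → ℂ} {z₀ : ℂ} {ρ C η K : ℝ}
    (W : Wd ζ s M h z₀ ρ C η K) (hC : 1 ≤ C) (hη : 0 < η) (hK : 2 ≤ K) {w : ℂ} {r : ℝ} (hr : 0 < r) (hrρ : r ≤ ρ) (hb : ball w r ⊆ ball z₀ ρ)
    (hk : ∀ k, r + s k < ‖ζ k - w‖) (i : Fin 2) {w' : ℂ} (hw' : ‖w' - w‖ ≤ r / 2) : sg ζ M h i w' + C ≤ 3 * (sg ζ M h i w + C) := by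
  have hA : 1 ≤ ρ / r := by rw [le_div_iff₀ hr]; linarith
  have hρA : ρ ≤ ρ / r * r := by rw [div_mul_cancel₀ _ hr.ne']
  obtain ⟨κ', inst, e, h', -, hmem, W', hsg⟩ := wd_restrict W hC hη hK hr hb hA hρA hrρ fun k => Or.inl (hk k)
  have hempty : IsEmpty κ' := by
    constructor
    intro k'
    have h1 : ζ (e k') ∈ ball w r := (hmem (e k')).2 ⟨k', rfl⟩
    have h2 := hk (e k')
    rw [mem_ball, dist_eq_norm] at h1
    linarith [W.s_pos (e k')]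
  have hs : ∀ z ∈ ball w r, ∀ k, s k ≤ ‖z - ζ k‖ := by
    intro z hz k
    have h1 := hk k
    rw [mem_ball, dist_eq_norm] at hz
    have h2 : ‖ζ k - w‖ ≤ ‖z - w‖ + ‖z - ζ k‖ := by
      have : ζ k - w = (z - w) - (z - ζ k) := by ring
      rw [this]
      exact norm_sub_le _ _
    linarith
  have hre : ∀ z ∈ ball w r, (h' i z).re = sg ζ M h i z := by
    intro z hz
    rw [← (hsg i z hz (hs z hz)).1]
    simp [sg]
  have hd : DifferentiableOn ℂ (fun z => h' i z + (C : ℂ)) (ball w r) := (W'.hol i).add_const _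
  have h0 : ∀ z ∈ ball w r, 0 ≤ (h' i z + (C : ℂ)).re := by
    intro z hz
    rw [Complex.add_re, Complex.ofReal_re, hre z hz]
    linarith [W.low i z (hb hz) (hs z hz)]
  have h1 := Pool.Agent.SR2.harnack_re hr hd h0 hw'
  rw [Complex.add_re, Complex.ofReal_re, Complex.add_re, Complex.ofReal_re, hre w (mem_ball_self hr), hre w'] at h1
  · exact h1
  · rw [mem_ball, dist_eq_norm]
    linarith

/-- the chain along a segment -/
private theorem chain {u : ℂ → ℝ} {S : Set ℂ} {r : ℝ} (hstep : ∀ w ∈ S, ∀ w' : ℂ, ‖w' - w‖ ≤ r → u w' ≤ 3 * u w) {a b : ℂ} {N : ℕ} (hN : 0 < N)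
    (hseg : ∀ t : ℝ, 0 ≤ t → t ≤ 1 → a + (t : ℂ) * (b - a) ∈ S) (hab : ‖b - a‖ ≤ N * r) : u a ≤ 3 ^ N * u b := by
  have hN' : (0 : ℝ) < N := by exact_mod_cast hN
  have key : ∀ j : ℕ, j ≤ N → u a ≤ 3 ^ j * u (a + ((j / N : ℝ) : ℂ) * (b - a)) := by
    intro j
    induction j with
    | zero =>
      intro _
      simp
    | succ j ih =>
      intro hj
      have h1 := ih (by omega)
      have hjN : ((j + 1 : ℕ) : ℝ) ≤ N := by exact_mod_cast hj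
      have h2 := hstep (a + (((j + 1 : ℕ) / N : ℝ) : ℂ) * (b - a)) (hseg _ (by positivity) (by rw [div_le_one hN']; exact hjN))
        (a + ((j / N : ℝ) : ℂ) * (b - a)) ?_
      · calc u a ≤ 3 ^ j * u (a + ((j / N : ℝ) : ℂ) * (b - a)) := h1
          _ ≤ 3 ^ j * (3 * u (a + (((j + 1 : ℕ) / N : ℝ) : ℂ) * (b - a))) := mul_le_mul_of_nonneg_left h2 (by positivity)
          _ = 3 ^ (j + 1) * u (a + (((j + 1 : ℕ) / N : ℝ) : ℂ) * (b - a)) := by ring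
      · have h3 : a + ((j / N : ℝ) : ℂ) * (b - a) - (a + (((j + 1 : ℕ) / N : ℝ) : ℂ) * (b - a)) = (((-1) / N : ℝ) : ℂ) * (b - a) := by
          push_cast
          field_simp
          ring
        rw [h3, norm_mul, Complex.norm_real, Real.norm_eq_abs, abs_div, abs_neg, abs_one, abs_of_pos hN', one_div, inv_mul_le_iff₀ hN']
        exact hab
  have h := key N le_rfl
  rwa [div_self hN'.ne', Complex.ofReal_one, one_mul, add_sub_cancel] at h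

theorem wd_low {C η ε : ℝ} (hC : 1 ≤ C) (hη : 0 < η) (hε : 0 < ε) : ∃ c θ ρ₁ : ℝ, 0 < c ∧ 0 < θ ∧ ∀ (κ : Type) [Fintype κ] (ζ : κ → ℂ) (s : κ → ℝ)
    (M : κ → Fin 2 → ℕ) (h : Fin 2 → ℂ → ℂ) (z₀ : ℂ) (ρ K : ℝ), Wd ζ s M h z₀ ρ C η K → 2 ≤ K → ρ₁ ≤ ρ → (∃ k, ζ k = z₀) →
      ∀ z ∈ ball z₀ ((1 - ε) * ρ), (∀ k, Real.exp (-(θ * ρ)) ≤ ‖z - ζ k‖) → ∀ i, c * ρ ≤ sg ζ M h i z := by
  rcases le_or_gt ε 1 with hε1 | hε1
  swap
  · refine ⟨1, 1, 1, one_pos, one_pos, ?_⟩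
    intro κ _ ζ s M h z₀ ρ K W hK hρ _ z hz
    exfalso
    rw [mem_ball] at hz
    nlinarith [dist_nonneg (x := z) (y := z₀)]
  obtain ⟨δ, c, θ, ρ₁, hδ, hc, hθ, hθη, hρ₁, H⟩ := near hC hη hε hε1
  obtain ⟨m, hm⟩ : ∃ m : ℝ, m = min δ ε := ⟨_, rfl⟩
  have hm0 : 0 < m := by rw [hm]; exact lt_min hδ hε
  have hmδ : m ≤ δ := by rw [hm]; exact min_le_left _ _
  have hmε : m ≤ ε := by rw [hm]; exact min_le_right _ _
  obtain ⟨N, hNm⟩ : ∃ N : ℕ, 4 / m ≤ N := exists_nat_ge _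
  have hN : 0 < N := by
    have : (0 : ℝ) < N := lt_of_lt_of_le (by positivity) hNm
    exact_mod_cast this
  have h3N : (0 : ℝ) < 3 ^ N := by positivity
  refine ⟨c / 3 ^ N / 2, θ, max ρ₁ (max (1 / (θ * (δ / 2))) (2 * C * 3 ^ N / c)), by positivity, hθ, ?_⟩
  intro κ _ ζ s M h z₀ ρ K W hK hρ hz₀ z hz hfar i
  have hρ1 : ρ₁ ≤ ρ := (le_max_left _ _).trans hρ
  have hρ2 : 1 / (θ * (δ / 2)) ≤ ρ := ((le_max_left _ _).trans (le_max_right _ _)).trans hρ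
  have hρ3 : 2 * C * 3 ^ N / c ≤ ρ := ((le_max_right _ _).trans (le_max_right _ _)).trans hρ
  have hρge : 1 ≤ ρ := hρ₁.trans hρ1
  have hρ0 : 0 < ρ := by linarith
  have hexpθ : Real.exp (-(θ * ρ)) < δ / 2 := exp_small hθ (by positivity) hρ2
  have hexpη : Real.exp (-(η * ρ)) ≤ Real.exp (-(θ * ρ)) := Real.exp_le_exp.2 (by nlinarith)
  have hcc : c / 3 ^ N / 2 * ρ ≤ c * ρ := by
    refine mul_le_mul_of_nonneg_right ?_ hρ0.le
    have h1 : c / 3 ^ N ≤ c := div_le_self hc.le (one_le_pow₀ (by norm_num))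
    have h2 : 0 < c / 3 ^ N := by positivity
    linarith
  by_cases hnear : ∃ k, ‖z - ζ k‖ ≤ δ * ρ
  · exact hcc.trans (H κ ζ s M h z₀ ρ K W hK hρ1 z hz hfar hnear i)
  push Not at hnear
  -- the first point near a well
  obtain ⟨γ, hγ⟩ : ∃ γ : ℝ → ℂ, γ = fun t : ℝ => z + (t : ℂ) * (z₀ - z) := ⟨_, rfl⟩
  have hγt : ∀ t, γ t = z + (t : ℂ) * (z₀ - z) := fun t => by rw [hγ]
  have hγc : Continuous γ := by
    rw [hγ]
    fun_prop
  have hcl : IsClosed (⋃ k, {t : ℝ | ‖γ t - ζ k‖ ≤ δ * ρ}) :=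
    isClosed_iUnion_of_finite fun k => isClosed_le (by fun_prop) continuous_const
  have hTc : IsCompact (Set.Icc (0 : ℝ) 1 ∩ ⋃ k, {t : ℝ | ‖γ t - ζ k‖ ≤ δ * ρ}) := isCompact_Icc.inter_right hcl
  obtain ⟨k₀, hk₀⟩ := hz₀
  have hTn : (Set.Icc (0 : ℝ) 1 ∩ ⋃ k, {t : ℝ | ‖γ t - ζ k‖ ≤ δ * ρ}).Nonempty := by
    refine ⟨1, ⟨zero_le_one, le_rfl⟩, Set.mem_iUnion.2 ⟨k₀, ?_⟩⟩
    show ‖γ 1 - ζ k₀‖ ≤ δ * ρ
    rw [hγt, hk₀, Complex.ofReal_one, one_mul, add_sub_cancel, sub_self, norm_zero]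
    positivity
  obtain ⟨t₀, ht₀, hmin⟩ := hTc.exists_isLeast hTn
  obtain ⟨⟨h00, h01⟩, ht₀'⟩ := ht₀
  obtain ⟨k₁, hk₁⟩ := Set.mem_iUnion.1 ht₀'
  have hk₁' : ‖γ t₀ - ζ k₁‖ ≤ δ * ρ := hk₁
  have ht0pos : 0 < t₀ := by
    rcases h00.lt_or_eq with h1 | h1
    · exact h1
    · exfalso
      have h2 := hnear k₁
      rw [← h1, hγt, Complex.ofReal_zero, zero_mul, add_zero] at hk₁'
      linarith
  have hbefore : ∀ k, ∀ t ∈ Set.Icc 0 t₀, δ * ρ ≤ ‖γ t - ζ k‖ := by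
    intro k
    have h1 : Set.Ico 0 t₀ ⊆ {t : ℝ | δ * ρ ≤ ‖γ t - ζ k‖} := by
      intro t ht
      by_contra hcon
      have hlt : ‖γ t - ζ k‖ < δ * ρ := not_le.1 hcon
      have h2 : t ∈ Set.Icc (0 : ℝ) 1 ∩ ⋃ k, {t : ℝ | ‖γ t - ζ k‖ ≤ δ * ρ} :=
        ⟨⟨ht.1, ht.2.le.trans h01⟩, Set.mem_iUnion.2 ⟨k, hlt.le⟩⟩
      exact absurd (hmin h2) (not_le.2 ht.2)
    have h3 : IsClosed {t : ℝ | δ * ρ ≤ ‖γ t - ζ k‖} := isClosed_le continuous_const (by fun_prop)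
    have h4 := closure_minimal h1 h3
    rw [closure_Ico ht0pos.ne] at h4
    exact fun t ht => h4 ht
  have hzd : ‖z - z₀‖ < (1 - ε) * ρ := by rw [← dist_eq_norm]; exact mem_ball.1 hz
  have hin : ∀ t, 0 ≤ t → t ≤ 1 → ‖γ t - z₀‖ < (1 - ε) * ρ := by
    intro t h1 h2
    have h3 : γ t - z₀ = ((1 - t : ℝ) : ℂ) * (z - z₀) := by
      rw [hγt]
      push_cast
      ring
    rw [h3, norm_mul, Complex.norm_real, Real.norm_eq_abs, abs_of_nonneg (by linarith)]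
    nlinarith [norm_nonneg (z - z₀)]
  have hfar' : ∀ k, Real.exp (-(θ * ρ)) ≤ ‖γ t₀ - ζ k‖ := by
    intro k
    have h1 := hbefore k t₀ ⟨h00, le_rfl⟩
    nlinarith
  have hlow := H κ ζ s M h z₀ ρ K W hK hρ1 (γ t₀) (by rw [mem_ball, dist_eq_norm]; exact hin t₀ h00 h01) hfar' ⟨k₁, hk₁'⟩ i
  -- the chain
  have hch := chain (u := fun w => sg ζ M h i w + C) (S := {w : ℂ | ‖w - z₀‖ < (1 - ε) * ρ ∧ ∀ k, δ * ρ ≤ ‖w - ζ k‖}) (r := m * ρ / 4)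
    (a := γ t₀) (b := z) (N := N) ?_ hN ?_ ?_
  · have hch' : sg ζ M h i (γ t₀) + C ≤ 3 ^ N * (sg ζ M h i z + C) := hch
    have h1 : c * ρ ≤ 3 ^ N * (sg ζ M h i z + C) := by linarith
    have h2 : c / 3 ^ N * ρ ≤ sg ζ M h i z + C := by
      rw [div_mul_eq_mul_div, div_le_iff₀ h3N]
      linarith
    have h3 : C ≤ c / 3 ^ N / 2 * ρ := by
      rw [div_le_iff₀ hc] at hρ3
      rw [div_div, div_mul_eq_mul_div, le_div_iff₀ (by positivity)]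
      nlinarith
    have h4 : c / 3 ^ N / 2 * ρ = c / 3 ^ N * ρ / 2 := by ring
    linarith
  · rintro w ⟨hw1, hw2⟩ w' hw'
    have hmρ : m * ρ ≤ δ * ρ := mul_le_mul_of_nonneg_right hmδ hρ0.le
    have hmρ' : m * ρ ≤ ε * ρ := mul_le_mul_of_nonneg_right hmε hρ0.le
    have hερ : ε * ρ ≤ ρ := by nlinarith
    have hm' : 0 < m * ρ := by positivity
    refine step W hC hη hK (w := w) (r := m * ρ / 2) (by positivity) (by linarith) (ball_subset_ball' ?_) ?_ i ?_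
    · rw [dist_eq_norm]
      linarith
    · intro k
      have h1 := hw2 k
      have h2 := W.s_le k
      rw [norm_sub_rev]
      nlinarith
    · linarith
  · intro t h1 h2
    have h3 : γ t₀ + (t : ℂ) * (z - γ t₀) = γ ((1 - t) * t₀) := by
      rw [hγt, hγt]
      push_cast
      ring
    have h4 : 0 ≤ (1 - t) * t₀ := mul_nonneg (by linarith) h00
    have h5 : (1 - t) * t₀ ≤ t₀ := by nlinarith
    show ‖γ t₀ + (t : ℂ) * (z - γ t₀) - z₀‖ < (1 - ε) * ρ ∧ ∀ k, δ * ρ ≤ ‖γ t₀ + (t : ℂ) * (z - γ t₀) - ζ k‖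
    rw [h3]
    exact ⟨hin _ h4 (h5.trans h01), fun k => hbefore k _ ⟨h4, h5⟩⟩
  · have h1 : z - γ t₀ = ((-t₀ : ℝ) : ℂ) * (z₀ - z) := by
      rw [hγt]
      push_cast
      ring
    rw [h1, norm_mul, Complex.norm_real, Real.norm_eq_abs, abs_neg, abs_of_nonneg h00, norm_sub_rev]
    have h2 : 4 ≤ N * m := by
      rw [div_le_iff₀ hm0] at hNm
      exact hNm
    have h3 : t₀ * ‖z - z₀‖ ≤ ρ := by
      have : (1 - ε) * ρ ≤ ρ := by nlinarith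
      nlinarith [norm_nonneg (z - z₀)]
    nlinarith

end Pool.Agent.SR3
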