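import Pool.Agent.SR3.CBdd
import Pool.Agent.SR3.CNum

/-!
# SR3 CLowA: the lower bound near a well, but not too near

`z` at distance between `exp (- θ ρ)` and `δ ρ` from the nearest well `ζ k`; compare with a point `z'` of the rim of the hole `k`.
-/

set_option autoImplicit false

open Metric

noncomputable section

namespace Pool.Agent.SR3

namespace CLowA

/-- the term of a well other than the nearest one -/
theorem term_ge {m C d d' t : ℝ} (hm : 0 ≤ m) (hmC : m ≤ C) (ht : 0 < t) (hd : t ≤ d) (hd' : 0 < d') (h : d' ≤ d + 2 * t) :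
    -(C * (2 * t / d)) ≤ m * (Real.log d - Real.log d') := by
  have hdp : 0 < d := lt_of_lt_of_le ht hd
  have h1 : Real.log d' ≤ Real.log (d + 2 * t) := Real.log_le_log hd' h
  have h2 : Real.log (d + 2 * t) = Real.log d + Real.log (1 + 2 * t / d) := by
    rw [← Real.log_mul hdp.ne' (by positivity)]
    congr 1
    field_simp
  have h3 : Real.log (1 + 2 * t / d) ≤ 2 * t / d := by
    have := Real.log_le_sub_one_of_pos (show (0 : ℝ) < 1 + 2 * t / d by positivity)
    linarith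
  have h4 : -(2 * t / d) ≤ Real.log d - Real.log d' := by linarith
  have h5 : 0 ≤ 2 * t / d := by positivity
  calc -(C * (2 * t / d)) ≤ -(m * (2 * t / d)) := by nlinarith
    _ = m * (-(2 * t / d)) := by ring
    _ ≤ _ := mul_le_mul_of_nonneg_left h4 hm

end CLowA

theorem wd_lowA {C η : ℝ} (hC : 1 ≤ C) (hη : 0 < η) : ∃ δ c θ ρ₁ : ℝ, 0 < δ ∧ δ ≤ 1 / 8 ∧ 0 < c ∧ 0 < θ ∧ ∀ (κ : Type) [Fintype κ] (ζ : κ → ℂ) (s : κ → ℝ)
    (M : κ → Fin 2 → ℕ) (h : Fin 2 → ℂ → ℂ) (z₀ : ℂ) (ρ K : ℝ), Wd ζ s M h z₀ ρ C η K → 2 ≤ K → ρ₁ ≤ ρ → ∀ z ∈ ball z₀ (ρ / 8),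
      (∀ k, Real.exp (-(θ * ρ)) ≤ ‖z - ζ k‖) → (∃ k, ‖z - ζ k‖ ≤ δ * ρ) → ∀ i, c * ρ ≤ sg ζ M h i z := by
  obtain ⟨C₁, ρa, hC₁, hρa, hbdd⟩ := wd_bdd hC hη
  obtain ⟨C₂, ρb, hC₂, hρb, hnum⟩ := wd_num hC hη
  set A : ℝ := 16 * C * C / η + 1 with hA
  have hCp : 0 < C := by linarith
  have hC₁p : 0 < C₁ := by linarith
  have hC₂p : 0 < C₂ := by linarith
  have hApos : 1 < A := by
    have : 0 < 16 * C * C / η := by positivity
    linarith
  set Λ : ℝ := 16 * C * C₂ / η + Real.log 8 with hΛ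
  have hlog8 : 0 < Real.log 8 := Real.log_pos (by norm_num)
  have hΛpos : 0 < Λ := by positivity
  set δ : ℝ := min (Real.exp (-Λ) / (A + 1)) (η / (32 * C₁)) with hδ
  have hδpos : 0 < δ := by
    rw [hδ]
    exact lt_min (by positivity) (by positivity)
  have hδ1 : (A + 1) * δ ≤ Real.exp (-Λ) := by
    have h1 : δ ≤ Real.exp (-Λ) / (A + 1) := min_le_left _ _
    have h2 : 0 < A + 1 := by linarith
    rw [le_div_iff₀ h2] at h1
    linarith
  have hδ2 : 2 * C₁ * δ ≤ η / 16 := by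
    have h1 : δ ≤ η / (32 * C₁) := min_le_right _ _
    rw [le_div_iff₀ (by positivity)] at h1
    linarith
  have hexp8 : Real.exp (-Λ) ≤ 1 / 8 := by
    have h1 : Real.exp (-Λ) ≤ Real.exp (-Real.log 8) := by
      apply Real.exp_le_exp.mpr
      have : 0 < 16 * C * C₂ / η := by positivity
      linarith
    rw [Real.exp_neg (Real.log 8), Real.exp_log (by norm_num)] at h1
    linarith
  have hδ8 : δ ≤ 1 / 8 := by nlinarith
  refine ⟨δ, η / 8, η / 2, max (max ρa ρb) (16 * C / η), hδpos, hδ8, by positivity, by positivity, ?_⟩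
  intro κ _ ζ s M h z₀ ρ K W hK hρ z hz hfar hnear i
  classical
  have hρa' : ρa ≤ ρ := le_trans (le_trans (le_max_left _ _) (le_max_left _ _)) hρ
  have hρb' : ρb ≤ ρ := le_trans (le_trans (le_max_right _ _) (le_max_left _ _)) hρ
  have hρc : 16 * C / η ≤ ρ := le_trans (le_max_right _ _) hρ
  have hρC : 16 * C ≤ η * ρ := by
    rw [div_le_iff₀ hη] at hρc
    linarith
  have hρpos : 0 < ρ := by linarith
  -- the nearest well
  obtain ⟨k₀, hk₀⟩ := hnear
  obtain ⟨k, -, hk⟩ := Finset.exists_min_image Finset.univ (fun j => ‖z - ζ j‖) ⟨k₀, Finset.mem_univ _⟩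
  have hkmin : ∀ j, ‖z - ζ k‖ ≤ ‖z - ζ j‖ := fun j => hk j (Finset.mem_univ _)
  set t : ℝ := ‖z - ζ k‖ with ht
  have htδ : t ≤ δ * ρ := le_trans (hkmin k₀) hk₀
  have htexp : Real.exp (-(η / 2 * ρ)) ≤ t := hfar k
  have htpos : 0 < t := lt_of_lt_of_le (Real.exp_pos _) htexp
  have hspos : 0 < s k := W.s_pos k
  have hsexp : s k ≤ Real.exp (-(η * ρ)) := W.s_le k
  have hst : s k ≤ t := by
    refine le_trans hsexp (le_trans (Real.exp_le_exp.mpr ?_) htexp)
    nlinarith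
  have hzz₀ : ‖z - z₀‖ < ρ / 8 := by rwa [mem_ball, dist_eq_norm] at hz
  -- the point of the rim
  set z' : ℂ := ζ k + (s k : ℂ) with hz'
  have hz'k : ‖z' - ζ k‖ = s k := by
    rw [hz', add_sub_cancel_left, Complex.norm_real, Real.norm_of_nonneg hspos.le]
  have hzz' : ‖z' - z‖ ≤ 2 * t := by
    have h1 : z' - z = (z' - ζ k) - (z - ζ k) := by ring
    rw [h1]
    refine le_trans (norm_sub_le _ _) ?_
    rw [hz'k]
    linarith
  have htρ : t ≤ ρ / 8 := by
    have h1 : δ * ρ ≤ 1 / 8 * ρ := mul_le_mul_of_nonneg_right hδ8 hρpos.le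
    linarith
  have hz'z₀ : ‖z' - z₀‖ < 3 * ρ / 4 := by
    have h1 : z' - z₀ = (z' - z) + (z - z₀) := by ring
    rw [h1]
    refine lt_of_le_of_lt (norm_add_le _ _) ?_
    linarith
  have hz'b : z' ∈ ball z₀ (3 * ρ / 4) := by rw [mem_ball, dist_eq_norm]; exact hz'z₀
  have hzb : z ∈ ball z₀ (3 * ρ / 4) := by rw [mem_ball, dist_eq_norm]; linarith
  have hsub : ball z₀ (3 * ρ / 4) ⊆ ball z₀ ρ := ball_subset_ball (by linarith)
  have hsep : ∀ j, j ≠ k → s j + s k ≤ ‖ζ j - ζ k‖ := by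
    intro j hj
    have h1 := W.sep j k hj
    have h2 := W.sep k j (Ne.symm hj)
    rw [norm_sub_rev] at h2
    have h3 := W.s_pos j
    nlinarith
  have hz'far : ∀ j, s j ≤ ‖z' - ζ j‖ := by
    intro j
    by_cases hj : j = k
    · subst hj; rw [hz'k]
    · have h1 := hsep j hj
      have h2 : ‖ζ j - ζ k‖ ≤ ‖z' - ζ j‖ + ‖z' - ζ k‖ := by
        have h3 : ζ j - ζ k = -(z' - ζ j) + (z' - ζ k) := by ring
        rw [h3]
        refine le_trans (norm_add_le _ _) ?_
        rw [norm_neg]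
      rw [hz'k] at h2
      linarith
  have hlow : -C ≤ sg ζ M h i z' := W.low i z' (hsub hz'b) hz'far
  -- the holomorphic part
  have hLip : ‖h i z' - h i z‖ ≤ C₁ * ‖z' - z‖ := by
    refine Convex.norm_image_sub_le_of_norm_deriv_le (s := ball z₀ (3 * ρ / 4)) ?_ ?_ (convex_ball _ _) hzb hz'b
    · intro w hw
      exact ((W.hol i) w (hsub hw)).differentiableAt (isOpen_ball.mem_nhds (hsub hw))
    · intro w hw
      exact (hbdd κ ζ s M h z₀ ρ K W hK hρa' i w hw).2.2
  have hre : (h i z').re - (h i z).re ≤ η / 16 * ρ := by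
    have h1 : (h i z').re - (h i z).re ≤ ‖h i z' - h i z‖ := by
      rw [← Complex.sub_re]; exact Complex.re_le_norm _
    have h2 : C₁ * ‖z' - z‖ ≤ C₁ * (2 * t) := mul_le_mul_of_nonneg_left hzz' hC₁p.le
    have h3 : C₁ * (2 * t) ≤ C₁ * (2 * (δ * ρ)) := by
      apply mul_le_mul_of_nonneg_left _ hC₁p.le
      linarith
    have h4 : C₁ * (2 * (δ * ρ)) ≤ η / 16 * ρ := by
      have := mul_le_mul_of_nonneg_right hδ2 hρpos.le
      linarith
    linarith
  -- the number of wells near `ζ k`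
  set t' : ℝ := (A + 1) * t with ht'
  have htt' : t ≤ t' := by
    rw [ht']; nlinarith
  have ht'ρ : t' ≤ Real.exp (-Λ) * ρ := by
    have h1 : (A + 1) * t ≤ (A + 1) * (δ * ρ) := mul_le_mul_of_nonneg_left htδ (by linarith)
    have h2 : (A + 1) * (δ * ρ) ≤ Real.exp (-Λ) * ρ := by
      rw [← mul_assoc]; exact mul_le_mul_of_nonneg_right hδ1 hρpos.le
    exact le_trans h1 h2
  have ht'8 : t' ≤ ρ / 8 := by
    have := mul_le_mul_of_nonneg_right hexp8 hρpos.le
    linarith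
  have ht'pos : 0 < t' := lt_of_lt_of_le htpos htt'
  have hζk : ζ k ∈ ball z₀ (5 * ρ / 8) := by
    rw [mem_ball, dist_eq_norm]
    have h1 : ζ k - z₀ = -(z - ζ k) + (z - z₀) := by ring
    rw [h1]
    refine lt_of_le_of_lt (norm_add_le _ _) ?_
    rw [norm_neg]
    linarith
  have hcard := hnum κ ζ s M h z₀ ρ K W hK hρb' k hζk t' (le_trans hst htt') ht'8
  set N : ℕ := (Finset.univ.filter fun j => ‖ζ j - ζ k‖ ≤ t').card with hN
  have hlogΛ : Λ ≤ Real.log (ρ / t') := by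
    rw [Real.le_log_iff_exp_le (by positivity), le_div_iff₀ ht'pos]
    calc Real.exp Λ * t' ≤ Real.exp Λ * (Real.exp (-Λ) * ρ) := mul_le_mul_of_nonneg_left ht'ρ (Real.exp_pos _).le
      _ = ρ := by rw [← mul_assoc, ← Real.exp_add]; simp
  have hNle : (N : ℝ) * Λ ≤ C₂ * ρ := le_trans (mul_le_mul_of_nonneg_left hlogΛ (Nat.cast_nonneg _)) hcard
  have hN2 : 2 * C * (N : ℝ) ≤ η / 8 * ρ := by
    have h1 : (N : ℝ) * (16 * C * C₂ / η) ≤ C₂ * ρ := by
      refine le_trans (mul_le_mul_of_nonneg_left ?_ (Nat.cast_nonneg _)) hNle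
      rw [hΛ]; linarith
    have h2 : (N : ℝ) * (16 * C * C₂ / η) = C₂ * ((N : ℝ) * (16 * C / η)) := by ring
    rw [h2] at h1
    have h3 : (N : ℝ) * (16 * C / η) ≤ ρ := le_of_mul_le_mul_left h1 hC₂p
    have h4 : (N : ℝ) * (16 * C / η) = (N * (16 * C)) / η := by ring
    rw [h4, div_le_iff₀ hη] at h3
    linarith
  have hA2 : (Fintype.card κ : ℝ) * (2 * C / A) ≤ η / 8 * ρ := by
    have h1 : 2 * C / A ≤ η / (8 * C) := by
      rw [div_le_div_iff₀ (by linarith) (by positivity)]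
      have h2 : η * A = 16 * C * C + η := by rw [hA]; field_simp
      rw [h2]; nlinarith
    calc (Fintype.card κ : ℝ) * (2 * C / A) ≤ (C * ρ) * (η / (8 * C)) :=
          mul_le_mul W.card h1 (by positivity) (by positivity)
      _ = η / 8 * ρ := by field_simp
  -- the terms
  have hterm : ∀ j, (if j = k then η / 2 * ρ else 0) - (if ‖ζ j - ζ k‖ ≤ t' then 2 * C else 0) - 2 * C / A ≤
      (M j i : ℝ) * (Real.log ‖z - ζ j‖ - Real.log ‖z' - ζ j‖) := by
    intro j
    have hA0 : 0 < 2 * C / A := by positivity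
    by_cases hj : j = k
    · subst hj
      rw [if_pos rfl, hz'k]
      have h1 : -(η / 2 * ρ) ≤ Real.log ‖z - ζ j‖ := by
        rw [Real.le_log_iff_exp_le htpos]; exact htexp
      have h2 : Real.log (s j) ≤ -(η * ρ) := by
        rw [Real.log_le_iff_le_exp hspos]; exact hsexp
      have h3 : η / 2 * ρ ≤ Real.log ‖z - ζ j‖ - Real.log (s j) := by linarith
      have h4 : (1 : ℝ) ≤ (M j i : ℝ) := by exact_mod_cast W.one j i
      have h5 : 0 ≤ η / 2 * ρ := by positivity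
      have h6 : η / 2 * ρ ≤ (M j i : ℝ) * (Real.log ‖z - ζ j‖ - Real.log (s j)) := by nlinarith
      have h7 : (0 : ℝ) ≤ (if ‖ζ j - ζ j‖ ≤ t' then 2 * C else 0) := by split_ifs <;> positivity
      linarith
    · rw [if_neg hj]
      have hd : t ≤ ‖z - ζ j‖ := hkmin j
      have hd' : 0 < ‖z' - ζ j‖ := lt_of_lt_of_le (W.s_pos j) (hz'far j)
      have hdd : ‖z' - ζ j‖ ≤ ‖z - ζ j‖ + 2 * t := by
        have h1 : z' - ζ j = (z - ζ j) + (z' - z) := by ring
        rw [h1]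
        refine le_trans (norm_add_le _ _) ?_
        linarith
      have h1 := CLowA.term_ge (Nat.cast_nonneg (M j i)) (W.M_le j i) htpos hd hd' hdd
      have hdp : 0 < ‖z - ζ j‖ := lt_of_lt_of_le htpos hd
      by_cases hb : ‖ζ j - ζ k‖ ≤ t'
      · rw [if_pos hb]
        have h2 : 2 * t / ‖z - ζ j‖ ≤ 2 := by
          rw [div_le_iff₀ hdp]; linarith
        have h3 : C * (2 * t / ‖z - ζ j‖) ≤ C * 2 := mul_le_mul_of_nonneg_left h2 hCp.le
        linarith
      · rw [if_neg hb]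
        have h4 : A * t ≤ ‖z - ζ j‖ := by
          have h5 : ‖ζ j - ζ k‖ ≤ ‖z - ζ j‖ + t := by
            have h6 : ζ j - ζ k = -(z - ζ j) + (z - ζ k) := by ring
            rw [h6]
            refine le_trans (norm_add_le _ _) ?_
            rw [norm_neg]
          have h7 : t' < ‖ζ j - ζ k‖ := not_le.mp hb
          rw [ht'] at h7
          linarith
        have h2 : 2 * t / ‖z - ζ j‖ ≤ 2 / A := by
          rw [div_le_div_iff₀ hdp (by linarith)]
          linarith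
        have h3 : C * (2 * t / ‖z - ζ j‖) ≤ C * (2 / A) := mul_le_mul_of_nonneg_left h2 hCp.le
        have h8 : C * (2 / A) = 2 * C / A := by ring
        linarith
  have hsum := Finset.sum_le_sum (fun j (_ : j ∈ Finset.univ) => hterm j)
  rw [Finset.sum_sub_distrib, Finset.sum_sub_distrib, Finset.sum_ite_eq' Finset.univ k (fun _ => η / 2 * ρ), if_pos (Finset.mem_univ _),
    ← Finset.sum_filter, Finset.sum_const, Finset.sum_const, nsmul_eq_mul, nsmul_eq_mul, Finset.card_univ] at hsum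
  have hsg : sg ζ M h i z = sg ζ M h i z' - ((h i z').re - (h i z).re) + ∑ j, (M j i : ℝ) * (Real.log ‖z - ζ j‖ - Real.log ‖z' - ζ j‖) := by
    unfold sg
    simp only [mul_sub, Finset.sum_sub_distrib]
    ring
  rw [hsg]
  have hC16 : C ≤ η / 16 * ρ := by linarith
  have hNN : (N : ℝ) * (2 * C) = 2 * C * N := by ring
  linarith
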