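import Pool.Agent.SR3.CBdd
import Pool.Agent.SR3.CDir
import Pool.Agent.SR3.CPig
import Pool.Agent.SR3.CLin

/-!
# SR3 CPur: the residue polynomial is a pure power

PROOF.  Let `a = M k`, `P = L ^ e * P'`, `L = Lf a`, `P' (a) ≠ 0`, `d = deg P' = m - e`; suppose `e < m`.  `wd_dir`: on `ball z₀ (δ₁ ρ)` all wells are
parallel to `a`, so `ℓ = a 1 sl 0 - a 0 sl 1` is holomorphic on `ball z₀ (δ₁ ρ)` and bounded by `C₂` on `ball z₀ (δ₁ ρ / 2)`.  On the circle of `wd_pig`: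
`μ = λ a`, `sl = μ / w + E`, `|E| ≤ ε / t`, so `w ^ d P' (sl) = P' (μ) (1 + x)`, `|x| ≤ 1 / 8`, and `ℓ ^ e P' (sl) = q (1 + y)`, `|y| ≤ 1 / 8`: with
`Q = q / P' (μ)`, `|ℓ ^ e - Q w ^ d| ≤ |Q| t ^ d / 2` on the circle.  Cauchy: `|Q| R ^ d ≤ 2 C₂ ^ e`, `R = δ₁ ρ / 4`: a contradiction for large `ρ`.
-/

set_option autoImplicit false

open Metric

noncomputable section

namespace Pool.Agent.SR3

/-- a function which is close to `Q w ^ d` on a small circle is large on a big circle -/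
private lemma cpur_cauchy {G : ℂ → ℂ} {z₀ Q : ℂ} {R t B : ℝ} {d : ℕ} (ht : 0 < t) (htR : t < R)
    (hG : DifferentiableOn ℂ G (ball z₀ (2 * R))) (hB : ∀ z ∈ ball z₀ (2 * R), ‖G z‖ ≤ B)
    (hQ : ∀ z, ‖z - z₀‖ = t → ‖G z - Q * (z - z₀) ^ d‖ ≤ ‖Q‖ / 2 * t ^ d) : ‖Q‖ * R ^ d ≤ 2 * B := by
  have hR : 0 < R := ht.trans htR
  have hm : DifferentiableOn ℂ (fun z : ℂ => Q * (z - z₀) ^ d) (ball z₀ (2 * R)) := by
    apply Differentiable.differentiableOn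
    fun_prop
  have hsub : ∀ r, r < 2 * R → 0 < r → closedBall z₀ r ⊆ ball z₀ (2 * R) := fun r hr _ => closedBall_subset_ball hr
  have h1 : ‖iteratedDeriv d G z₀‖ ≤ d.factorial * B / R ^ d := by
    refine Complex.norm_iteratedDeriv_le_of_forall_mem_sphere_norm_le d hR ?_ ?_
    · exact (hG.mono (hsub R (by linarith) hR)).diffContOnCl_ball (subset_refl _)
    · intro z hz
      exact hB z (hsub R (by linarith) hR (sphere_subset_closedBall hz))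
  have h2 : ‖iteratedDeriv d (fun z => G z - Q * (z - z₀) ^ d) z₀‖ ≤ d.factorial * (‖Q‖ / 2 * t ^ d) / t ^ d := by
    refine Complex.norm_iteratedDeriv_le_of_forall_mem_sphere_norm_le d ht ?_ ?_
    · exact ((hG.sub hm).mono (hsub t (by linarith) ht)).diffContOnCl_ball (subset_refl _)
    · intro z hz
      exact hQ z (by rwa [mem_sphere_iff_norm] at hz)
  have h3 : iteratedDeriv d (fun z : ℂ => Q * (z - z₀) ^ d) z₀ = Q * d.factorial := by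
    rw [iteratedDeriv_const_mul_field]
    have h4 := congrFun (iteratedDeriv_comp_sub_const (n := d) (f := fun z : ℂ => z ^ d) (s := z₀)) z₀
    rw [h4, sub_self, iteratedDeriv_fun_pow_zero, if_pos rfl]
  have hat : ContDiffAt ℂ d G z₀ :=
    (hG.analyticAt (isOpen_ball.mem_nhds (mem_ball_self (by linarith)))).contDiffAt
  have hat2 : ContDiffAt ℂ d (fun z : ℂ => Q * (z - z₀) ^ d) z₀ :=
    (hm.analyticAt (isOpen_ball.mem_nhds (mem_ball_self (by linarith)))).contDiffAt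
  have h4 : iteratedDeriv d (fun z => G z - Q * (z - z₀) ^ d) z₀ = iteratedDeriv d G z₀ - Q * d.factorial := by
    rw [← h3]
    exact iteratedDeriv_sub hat hat2
  have hf : (0 : ℝ) < d.factorial := by exact_mod_cast d.factorial_pos
  have htd : 0 < t ^ d := pow_pos ht d
  have hRd : 0 < R ^ d := pow_pos hR d
  have h5 : (d.factorial : ℝ) * (‖Q‖ / 2 * t ^ d) / t ^ d = d.factorial * (‖Q‖ / 2) := by
    field_simp
  rw [h4, h5] at h2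
  have h6 : ‖Q‖ * d.factorial ≤ ‖iteratedDeriv d G z₀ - Q * d.factorial‖ + ‖iteratedDeriv d G z₀‖ := by
    have h7 : ‖Q * (d.factorial : ℂ)‖ = ‖Q‖ * d.factorial := by
      rw [norm_mul, Complex.norm_natCast]
    rw [← h7]
    calc ‖Q * (d.factorial : ℂ)‖ = ‖iteratedDeriv d G z₀ - (iteratedDeriv d G z₀ - Q * d.factorial)‖ := by
          congr 1
          ring
      _ ≤ ‖iteratedDeriv d G z₀‖ + ‖iteratedDeriv d G z₀ - Q * d.factorial‖ := norm_sub_le _ _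
      _ = _ := add_comm _ _
  have h8 : ‖Q‖ / 2 ≤ B / R ^ d := by
    have h9 : (d.factorial : ℝ) * (‖Q‖ / 2) ≤ d.factorial * (B / R ^ d) := by
      have h10 : (d.factorial : ℝ) * (B / R ^ d) = d.factorial * B / R ^ d := by ring
      rw [h10]
      nlinarith
    exact le_of_mul_le_mul_left h9 hf
  rw [le_div_iff₀ hRd] at h8
  linarith

/-- values of a form at a multiple -/
private lemma cpur_hom {d : ℕ} {P : MvPolynomial (Fin 2) ℂ} (hP : P.IsHomogeneous d) (c : ℂ) (x : Fin 2 → ℂ) :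
    MvPolynomial.eval (fun i => c * x i) P = c ^ d * MvPolynomial.eval x P := by
  rw [MvPolynomial.eval_eq, MvPolynomial.eval_eq, Finset.mul_sum]
  refine Finset.sum_congr rfl fun s hs => ?_
  have h1 : s.degree = d := by
    rw [Finsupp.degree_apply]
    exact (hP.degree_eq_sum_deg_support hs).symm
  have h2 : ∏ i ∈ s.support, (c * x i) ^ s i = c ^ d * ∏ i ∈ s.support, x i ^ s i := by
    rw [← h1, Finsupp.degree_apply, ← Finset.prod_pow_eq_pow_sum, ← Finset.prod_mul_distrib]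
    exact Finset.prod_congr rfl fun i _ => mul_pow _ _ _
  rw [h2]
  ring

/-- a form near a point where it does not vanish -/
private lemma cpur_near {P : MvPolynomial (Fin 2) ℂ} {a : Fin 2 → ℂ} (h : MvPolynomial.eval a P ≠ 0) :
    ∃ ε : ℝ, 0 < ε ∧ ∀ y : Fin 2 → ℂ, (∀ i, ‖y i‖ ≤ ε) →
      ‖MvPolynomial.eval (fun i => a i + y i) P - MvPolynomial.eval a P‖ ≤ ‖MvPolynomial.eval a P‖ / 8 := by
  have hc := (MvPolynomial.continuous_eval P).continuousAt (x := a)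
  rw [Metric.continuousAt_iff] at hc
  obtain ⟨ε, hε, h1⟩ := hc (‖MvPolynomial.eval a P‖ / 8) (by positivity)
  refine ⟨ε / 2, half_pos hε, fun y hy => ?_⟩
  have h2 : dist (fun i => a i + y i) a < ε := by
    rw [dist_pi_lt_iff hε]
    intro i
    rw [dist_eq_norm]
    have h3 : a i + y i - a i = y i := by ring
    rw [h3]
    linarith [hy i]
  have h3 := h1 h2
  rw [dist_eq_norm] at h3
  exact h3.le

/-- the form at `μ / w` up to a small error, `μ` a multiple of `a` -/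
private lemma cpur_pert {d : ℕ} {P : MvPolynomial (Fin 2) ℂ} (hP : P.IsHomogeneous d) {a μ : Fin 2 → ℕ} {C ε : ℝ}
    (ha : ∀ i, 1 ≤ a i) (haC : (a 0 : ℝ) ≤ C) (hμ : 1 ≤ μ 0) (hpar : a 0 * μ 1 = a 1 * μ 0)
    (hε : ∀ y : Fin 2 → ℂ, (∀ i, ‖y i‖ ≤ C * ε) → ‖MvPolynomial.eval (fun i => (a i : ℂ) + y i) P - MvPolynomial.eval (fun i => (a i : ℂ)) P‖ ≤
      ‖MvPolynomial.eval (fun i => (a i : ℂ)) P‖ / 8)
    {w : ℂ} (hw : w ≠ 0) {x : Fin 2 → ℂ} (hx : ∀ i, ‖x i - (μ i : ℂ) / w‖ ≤ ε / ‖w‖) :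
    ‖w ^ d * MvPolynomial.eval x P - MvPolynomial.eval (fun i => (μ i : ℂ)) P‖ ≤ ‖MvPolynomial.eval (fun i => (μ i : ℂ)) P‖ / 8 := by
  have ha0 : (a 0 : ℂ) ≠ 0 := by exact_mod_cast (by have := ha 0; omega : a 0 ≠ 0)
  have hμ0 : (μ 0 : ℂ) ≠ 0 := by exact_mod_cast (by omega : μ 0 ≠ 0)
  obtain ⟨l, hl⟩ : ∃ l : ℂ, l = (μ 0 : ℂ) / a 0 := ⟨_, rfl⟩
  have hl0 : l ≠ 0 := by
    rw [hl]
    exact div_ne_zero hμ0 ha0
  have hμl : ∀ i, (μ i : ℂ) = l * a i := by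
    intro i
    rw [hl]
    fin_cases i
    · change (μ 0 : ℂ) = μ 0 / a 0 * a 0
      rw [div_mul_cancel₀ _ ha0]
    · change (μ 1 : ℂ) = μ 0 / a 0 * a 1
      have h1 : (a 0 : ℂ) * μ 1 = a 1 * μ 0 := by exact_mod_cast hpar
      field_simp
      linear_combination h1
  have hln : 1 ≤ C * ‖l‖ := by
    have ha0' : (0 : ℝ) < a 0 := by exact_mod_cast (by have := ha 0; omega : 0 < a 0)
    have hμ' : (1 : ℝ) ≤ μ 0 := by exact_mod_cast hμ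
    rw [hl, norm_div, Complex.norm_natCast, Complex.norm_natCast, ← mul_div_assoc, le_div_iff₀ ha0']
    nlinarith
  have hlpos : 0 < ‖l‖ := norm_pos_iff.2 hl0
  have hwpos : 0 < ‖w‖ := norm_pos_iff.2 hw
  obtain ⟨y, hy⟩ : ∃ y : Fin 2 → ℂ, ∀ i, y i = (w * x i - μ i) / l := ⟨fun i => (w * x i - μ i) / l, fun _ => rfl⟩
  have hyn : ∀ i, ‖y i‖ ≤ C * ε := by
    intro i
    have h1 : w * x i - μ i = w * (x i - (μ i : ℂ) / w) := by
      field_simp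
    have h2 : ‖w * x i - μ i‖ ≤ ε := by
      rw [h1, norm_mul]
      calc ‖w‖ * ‖x i - (μ i : ℂ) / w‖ ≤ ‖w‖ * (ε / ‖w‖) := mul_le_mul_of_nonneg_left (hx i) hwpos.le
        _ = ε := by field_simp
    have hε0 : 0 ≤ ε := le_trans (norm_nonneg _) h2
    rw [hy, norm_div, div_le_iff₀ hlpos]
    calc ‖w * x i - μ i‖ ≤ ε * 1 := by rw [mul_one]; exact h2
      _ ≤ ε * (C * ‖l‖) := mul_le_mul_of_nonneg_left hln hε0
      _ = C * ε * ‖l‖ := by ring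
  have h1 : (fun i => w * x i) = fun i => l * ((a i : ℂ) + y i) := by
    funext i
    rw [hy, mul_add, ← hμl, mul_div_cancel₀ _ hl0]
    ring
  have h2 : (fun i => (μ i : ℂ)) = fun i => l * (a i : ℂ) := funext hμl
  rw [← cpur_hom hP, h1, h2, cpur_hom hP, cpur_hom hP, ← mul_sub, norm_mul, norm_mul]
  have h3 := hε y hyn
  have h4 : 0 ≤ ‖l ^ d‖ := norm_nonneg _
  nlinarith

private lemma cpur_alg {L p q Pμ w : ℂ} {d : ℕ} (hr : ‖L * p - q‖ ≤ ‖q‖ / 8) (hs : ‖w ^ d * p - Pμ‖ ≤ ‖Pμ‖ / 8) (hP : Pμ ≠ 0) :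
    ‖L - q / Pμ * w ^ d‖ ≤ ‖q / Pμ‖ / 2 * ‖w‖ ^ d := by
  have hPn : 0 < ‖Pμ‖ := norm_pos_iff.2 hP
  have h1 : (L - q / Pμ * w ^ d) * (w ^ d * p) = w ^ d * ((L * p - q) - q / Pμ * (w ^ d * p - Pμ)) := by
    field_simp
    ring
  have h2 : ‖(L * p - q) - q / Pμ * (w ^ d * p - Pμ)‖ ≤ ‖q‖ / 4 := by
    have h3 : ‖q / Pμ * (w ^ d * p - Pμ)‖ ≤ ‖q‖ / 8 := by
      rw [norm_mul, norm_div]
      calc ‖q‖ / ‖Pμ‖ * ‖w ^ d * p - Pμ‖ ≤ ‖q‖ / ‖Pμ‖ * (‖Pμ‖ / 8) := mul_le_mul_of_nonneg_left hs (by positivity)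
        _ = ‖q‖ / 8 := by field_simp
    linarith [norm_sub_le (L * p - q) (q / Pμ * (w ^ d * p - Pμ))]
  have h4 : 7 / 8 * ‖Pμ‖ ≤ ‖w ^ d * p‖ := by
    have h5 : ‖Pμ‖ ≤ ‖w ^ d * p‖ + ‖w ^ d * p - Pμ‖ := by
      calc ‖Pμ‖ = ‖w ^ d * p - (w ^ d * p - Pμ)‖ := by
            congr 1
            ring
        _ ≤ _ := norm_sub_le _ _
    linarith
  have h6 : ‖L - q / Pμ * w ^ d‖ * (7 / 8 * ‖Pμ‖) ≤ ‖w‖ ^ d * (‖q‖ / 4) := by
    calc ‖L - q / Pμ * w ^ d‖ * (7 / 8 * ‖Pμ‖) ≤ ‖L - q / Pμ * w ^ d‖ * ‖w ^ d * p‖ := mul_le_mul_of_nonneg_left h4 (norm_nonneg _)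
      _ = ‖w ^ d * ((L * p - q) - q / Pμ * (w ^ d * p - Pμ))‖ := by rw [← norm_mul, h1]
      _ = ‖w‖ ^ d * ‖(L * p - q) - q / Pμ * (w ^ d * p - Pμ)‖ := by rw [norm_mul, norm_pow]
      _ ≤ ‖w‖ ^ d * (‖q‖ / 4) := mul_le_mul_of_nonneg_left h2 (by positivity)
  have h7 : ‖q / Pμ‖ / 2 * ‖w‖ ^ d = ‖w‖ ^ d * ‖q‖ / (2 * ‖Pμ‖) := by
    rw [norm_div]
    field_simp
  rw [h7, le_div_iff₀ (by positivity)]
  have h8 : 0 ≤ ‖w‖ ^ d * ‖q‖ := by positivity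
  nlinarith

variable {κ : Type} [Fintype κ]

private lemma cpur_ell (ζ : κ → ℂ) (M : κ → Fin 2 → ℕ) (h : Fin 2 → ℂ → ℂ) (a : Fin 2 → ℕ) (z : ℂ) :
    (a 1 : ℂ) * sl ζ M h 0 z - (a 0 : ℂ) * sl ζ M h 1 z =
      (a 1 : ℂ) * deriv (h 0) z - (a 0 : ℂ) * deriv (h 1) z + ∑ k, ((a 1 : ℂ) * M k 0 - (a 0 : ℂ) * M k 1) / (z - ζ k) := by
  have h1 : ∑ k, ((a 1 : ℂ) * M k 0 - (a 0 : ℂ) * M k 1) / (z - ζ k) =
      (a 1 : ℂ) * ∑ k, (M k 0 : ℂ) / (z - ζ k) - (a 0 : ℂ) * ∑ k, (M k 1 : ℂ) / (z - ζ k) := by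
    rw [Finset.mul_sum, Finset.mul_sum, ← Finset.sum_sub_distrib]
    exact Finset.sum_congr rfl fun k _ => by ring
  rw [h1, sl, sl]
  ring

/-- the poles cancel -/
private lemma cpur_diff {ζ : κ → ℂ} {M : κ → Fin 2 → ℕ} {h : Fin 2 → ℂ → ℂ} {a : Fin 2 → ℕ} {z₀ : ℂ} {r ρ : ℝ} (hr : r ≤ ρ)
    (hh : ∀ i, DifferentiableOn ℂ (h i) (ball z₀ ρ)) (hpar : ∀ k, ζ k ∈ ball z₀ r → a 0 * M k 1 = a 1 * M k 0) :
    DifferentiableOn ℂ (fun z => (a 1 : ℂ) * sl ζ M h 0 z - (a 0 : ℂ) * sl ζ M h 1 z) (ball z₀ r) := by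
  have h1 : (fun z => (a 1 : ℂ) * sl ζ M h 0 z - (a 0 : ℂ) * sl ζ M h 1 z) = fun z =>
      (a 1 : ℂ) * deriv (h 0) z - (a 0 : ℂ) * deriv (h 1) z + ∑ k, ((a 1 : ℂ) * M k 0 - (a 0 : ℂ) * M k 1) / (z - ζ k) :=
    funext fun z => cpur_ell ζ M h a z
  rw [h1]
  have h2 : ∀ i, DifferentiableOn ℂ (deriv (h i)) (ball z₀ r) := fun i => ((hh i).deriv isOpen_ball).mono (ball_subset_ball hr)
  refine (((h2 0).const_mul _).sub ((h2 1).const_mul _)).add (DifferentiableOn.fun_sum fun k _ => ?_)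
  by_cases hk : ζ k ∈ ball z₀ r
  · have h3 : ((a 1 : ℂ) * M k 0 - (a 0 : ℂ) * M k 1) = 0 := by
      have h4 : (a 0 : ℂ) * M k 1 = a 1 * M k 0 := by exact_mod_cast hpar k hk
      rw [h4, sub_self]
    simp only [h3, zero_div]
    exact differentiableOn_const 0
  · refine (differentiableOn_const _).div ?_ fun z hz h3 => ?_
    · fun_prop
    · rw [sub_eq_zero] at h3
      rw [← h3] at hk
      exact hk hz

/-- the bound of `ℓ` -/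
private lemma cpur_bound {ζ : κ → ℂ} {M : κ → Fin 2 → ℕ} {h : Fin 2 → ℂ → ℂ} {a : Fin 2 → ℕ} {z₀ : ℂ} {δ ρ C C₁ : ℝ} (hC : 1 ≤ C)
    (hδ : 0 < δ) (hρ : 0 < ρ)
    (haC : ∀ i, (a i : ℝ) ≤ C) (hM : ∀ k i, (M k i : ℝ) ≤ C) (hcard : (Fintype.card κ : ℝ) ≤ C * ρ) {z : ℂ} (hz : z ∈ ball z₀ (δ * ρ / 2))
    (hd : ∀ i, ‖deriv (h i) z‖ ≤ C₁) (hpar : ∀ k, ζ k ∈ ball z₀ (δ * ρ) → a 0 * M k 1 = a 1 * M k 0) :
    ‖(a 1 : ℂ) * sl ζ M h 0 z - (a 0 : ℂ) * sl ζ M h 1 z‖ ≤ 2 * C * C₁ + 4 * C ^ 3 / δ := by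
  have hC0 : 0 ≤ C := by linarith
  rw [cpur_ell]
  have h1 : ∀ i j, ‖(a i : ℂ) * deriv (h j) z‖ ≤ C * C₁ := by
    intro i j
    rw [norm_mul, Complex.norm_natCast]
    exact mul_le_mul (haC i) (hd j) (norm_nonneg _) hC0
  have h2 : ∀ k, ‖((a 1 : ℂ) * M k 0 - (a 0 : ℂ) * M k 1) / (z - ζ k)‖ ≤ 2 * C ^ 2 / (δ * ρ / 2) := by
    intro k
    have hpos : 0 < δ * ρ / 2 := by positivity
    by_cases hk : ζ k ∈ ball z₀ (δ * ρ)
    · have h3 : ((a 1 : ℂ) * M k 0 - (a 0 : ℂ) * M k 1) = 0 := by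
        have h4 : (a 0 : ℂ) * M k 1 = a 1 * M k 0 := by exact_mod_cast hpar k hk
        rw [h4, sub_self]
      rw [h3, zero_div, norm_zero]
      positivity
    · have h3 : δ * ρ / 2 ≤ ‖z - ζ k‖ := by
        rw [mem_ball, not_lt] at hk
        rw [mem_ball] at hz
        have h4 := dist_triangle (ζ k) z z₀
        rw [dist_comm (ζ k) z, dist_eq_norm z (ζ k)] at h4
        linarith
      have h4 : ‖(a 1 : ℂ) * M k 0 - (a 0 : ℂ) * M k 1‖ ≤ 2 * C ^ 2 := by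
        have h5 : ∀ i j, ‖(a i : ℂ) * M k j‖ ≤ C * C := by
          intro i j
          rw [norm_mul, Complex.norm_natCast, Complex.norm_natCast]
          exact mul_le_mul (haC i) (hM k j) (Nat.cast_nonneg _) hC0
        calc ‖(a 1 : ℂ) * M k 0 - (a 0 : ℂ) * M k 1‖ ≤ _ := norm_sub_le _ _
          _ ≤ C * C + C * C := add_le_add (h5 1 0) (h5 0 1)
          _ = 2 * C ^ 2 := by ring
      rw [norm_div]
      exact div_le_div₀ (by positivity) h4 hpos h3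
  have h3 : ‖∑ k, ((a 1 : ℂ) * M k 0 - (a 0 : ℂ) * M k 1) / (z - ζ k)‖ ≤ 4 * C ^ 3 / δ := by
    calc ‖∑ k, ((a 1 : ℂ) * M k 0 - (a 0 : ℂ) * M k 1) / (z - ζ k)‖ ≤ ∑ k, ‖((a 1 : ℂ) * M k 0 - (a 0 : ℂ) * M k 1) / (z - ζ k)‖ := norm_sum_le _ _
      _ ≤ ∑ _k : κ, 2 * C ^ 2 / (δ * ρ / 2) := Finset.sum_le_sum fun k _ => h2 k
      _ = (Fintype.card κ : ℝ) * (2 * C ^ 2 / (δ * ρ / 2)) := by rw [Finset.sum_const, Finset.card_univ, nsmul_eq_mul]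
      _ ≤ C * ρ * (2 * C ^ 2 / (δ * ρ / 2)) := mul_le_mul_of_nonneg_right hcard (by positivity)
      _ = 4 * C ^ 3 / δ := by
        field_simp
        ring
  calc _ ≤ ‖(a 1 : ℂ) * deriv (h 0) z - (a 0 : ℂ) * deriv (h 1) z‖ + ‖∑ k, ((a 1 : ℂ) * M k 0 - (a 0 : ℂ) * M k 1) / (z - ζ k)‖ := norm_add_le _ _
    _ ≤ (C * C₁ + C * C₁) + 4 * C ^ 3 / δ := add_le_add (le_trans (norm_sub_le _ _) (add_le_add (h1 1 0) (h1 0 1))) h3
    _ = _ := by ring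

private lemma cpur_mu {d : ℕ} {P : MvPolynomial (Fin 2) ℂ} (hP : P.IsHomogeneous d) {a μ : Fin 2 → ℕ}
    (ha : ∀ i, 1 ≤ a i) (hpar : a 0 * μ 1 = a 1 * μ 0) :
    MvPolynomial.eval (fun i => (μ i : ℂ)) P = ((μ 0 : ℂ) / a 0) ^ d * MvPolynomial.eval (fun i => (a i : ℂ)) P := by
  have ha0 : (a 0 : ℂ) ≠ 0 := by exact_mod_cast (by have := ha 0; omega : a 0 ≠ 0)
  have h2 : (fun i => (μ i : ℂ)) = fun i => ((μ 0 : ℂ) / a 0) * (a i : ℂ) := by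
    funext i
    fin_cases i
    · change (μ 0 : ℂ) = μ 0 / a 0 * a 0
      rw [div_mul_cancel₀ _ ha0]
    · change (μ 1 : ℂ) = μ 0 / a 0 * a 1
      have h1 : (a 0 : ℂ) * μ 1 = a 1 * μ 0 := by exact_mod_cast hpar
      field_simp
      linear_combination h1
  rw [h2, cpur_hom hP]

/-- the factorizations, with uniform constants -/
private lemma cpur_data {C : ℝ} (hC : 1 ≤ C) {m : ℕ} {P : MvPolynomial (Fin 2) ℂ} (hP : P.IsHomogeneous m) (h0 : P ≠ 0) :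
    ∃ ε V : ℝ, 0 < ε ∧ 1 ≤ V ∧ ∀ a : Fin 2 → ℕ, (∀ i, 1 ≤ a i) → (∀ i, (a i : ℝ) ≤ C) →
      ∃ (e : ℕ) (P' : MvPolynomial (Fin 2) ℂ), e ≤ m ∧ P'.IsHomogeneous (m - e) ∧ P = Lf a ^ e * P' ∧
        MvPolynomial.eval (fun i => (a i : ℂ)) P' ≠ 0 ∧
        (∀ y : Fin 2 → ℂ, (∀ i, ‖y i‖ ≤ C * ε) → ‖MvPolynomial.eval (fun i => (a i : ℂ) + y i) P' - MvPolynomial.eval (fun i => (a i : ℂ)) P'‖ ≤
          ‖MvPolynomial.eval (fun i => (a i : ℂ)) P'‖ / 8) ∧ ‖MvPolynomial.eval (fun i => (a i : ℂ)) P'‖ ≤ V := by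
  have key : ∀ a : Fin 2 → ℕ, ∃ ε V : ℝ, 0 < ε ∧ ((∀ i, 1 ≤ a i) →
      ∃ (e : ℕ) (P' : MvPolynomial (Fin 2) ℂ), e ≤ m ∧ P'.IsHomogeneous (m - e) ∧ P = Lf a ^ e * P' ∧
        MvPolynomial.eval (fun i => (a i : ℂ)) P' ≠ 0 ∧
        (∀ y : Fin 2 → ℂ, (∀ i, ‖y i‖ ≤ ε) → ‖MvPolynomial.eval (fun i => (a i : ℂ) + y i) P' - MvPolynomial.eval (fun i => (a i : ℂ)) P'‖ ≤
          ‖MvPolynomial.eval (fun i => (a i : ℂ)) P'‖ / 8) ∧ ‖MvPolynomial.eval (fun i => (a i : ℂ)) P'‖ ≤ V) := by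
    intro a
    by_cases ha : ∀ i, 1 ≤ a i
    · obtain ⟨e, P', he, hP', hPP, hne⟩ := lin_factor hP h0 a (by have := ha 1; omega)
      obtain ⟨ε, hε, h1⟩ := cpur_near hne
      exact ⟨ε, _, hε, fun _ => ⟨e, P', he, hP', hPP, hne, h1, le_rfl⟩⟩
    · exact ⟨1, 1, one_pos, fun h => absurd h ha⟩
  choose ε V hε hk using key
  have hS : (Fintype.piFinset fun _ : Fin 2 => Finset.range (⌊C⌋₊ + 1)).Nonempty := by
    refine ⟨fun _ => 0, ?_⟩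
    rw [Fintype.mem_piFinset]
    intro i
    rw [Finset.mem_range]
    omega
  obtain ⟨a₁, -, h1⟩ := Finset.exists_min_image _ ε hS
  obtain ⟨a₂, -, h2⟩ := Finset.exists_max_image _ V hS
  have hC0 : 0 < C := by linarith
  refine ⟨ε a₁ / C, max (V a₂) 1, div_pos (hε a₁) hC0, le_max_right _ _, fun a ha haC => ?_⟩
  have haS : a ∈ Fintype.piFinset fun _ : Fin 2 => Finset.range (⌊C⌋₊ + 1) := by
    rw [Fintype.mem_piFinset]
    intro i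
    rw [Finset.mem_range]
    exact Nat.lt_succ_of_le (Nat.le_floor (haC i))
  obtain ⟨e, P', he, hP', hPP, hne, h3, h4⟩ := hk a ha
  refine ⟨e, P', he, hP', hPP, hne, fun y hy => h3 y fun i => (hy i).trans ?_, h4.trans ((h2 a haS).trans (le_max_left _ _))⟩
  rw [mul_div_cancel₀ _ hC0.ne']
  exact h1 a haS

theorem wd_pure {C η : ℝ} (hC : 1 ≤ C) (hη : 0 < η) {m : ℕ} (hm : 1 ≤ m) {P : MvPolynomial (Fin 2) ℂ} (hP : P.IsHomogeneous m) {c : ℝ} (hc : 0 < c) :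
    ∃ K₁ θ₀ : ℝ, 0 < θ₀ ∧ ∀ θ : ℝ, 0 < θ → θ ≤ θ₀ → ∃ ρ₁ : ℝ, ∀ (κ : Type) [Fintype κ] (ζ : κ → ℂ) (s : κ → ℝ) (M : κ → Fin 2 → ℕ) (h : Fin 2 → ℂ → ℂ)
      (z₀ : ℂ) (ρ K : ℝ), Wd ζ s M h z₀ ρ C η K → K₁ ≤ K → ρ₁ ≤ ρ → ∀ q : ℂ, c ≤ ‖q‖ → ‖q‖ ≤ C →
        (∀ z ∈ ball z₀ (ρ / 2), (∀ k, Real.exp (-(θ * ρ)) / 2 ≤ ‖z - ζ k‖) → ‖MvPolynomial.eval (fun i => sl ζ M h i z) P - q‖ ≤ θ) →
          ∀ k, ζ k = z₀ → ∃ b : ℂ, b ≠ 0 ∧ P = MvPolynomial.C b * Lf (M k) ^ m := by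
  obtain ⟨C₁, ρb, hC₁, hρb, hbdd⟩ := wd_bdd hC hη
  obtain ⟨K₁, δ₁, ρd, hδ₁, hδ₁', hdir⟩ := wd_dir hC hη
  refine ⟨max K₁ 2, min (c / 8) (η / 2), lt_min (by positivity) (by positivity), fun θ hθ hθ0 => ?_⟩
  have hθc : θ ≤ c / 8 := hθ0.trans (min_le_left _ _)
  have hθη : θ < η := lt_of_le_of_lt (hθ0.trans (min_le_right _ _)) (by linarith)
  -- the points of the circle
  have hcir : ∀ {κ : Type} {ζ : κ → ℂ} {z₀ z : ℂ} {ρ t : ℝ}, 3 ≤ ρ → Real.exp (-(θ * ρ)) ≤ t → t ≤ Real.exp (-(θ * ρ / 2)) → ‖z - z₀‖ = t →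
      (∀ j, t / 2 ≤ ‖z - ζ j‖) → z ∈ ball z₀ (ρ / 2) ∧ ∀ k, Real.exp (-(θ * ρ)) / 2 ≤ ‖z - ζ k‖ := by
    intro κ ζ z₀ z ρ t hρ ht1 ht2 hz hj
    have hθρ : 0 < θ * ρ := mul_pos hθ (by linarith)
    have ht3 : t ≤ 1 := ht2.trans (Real.exp_le_one_iff.2 (by linarith))
    refine ⟨?_, fun k => le_trans (by linarith) (hj k)⟩
    rw [mem_ball, dist_eq_norm, hz]
    linarith
  by_cases h0 : P = 0
  · obtain ⟨ρp, N₁, hpig⟩ := wd_pig hC hη hθ hθη one_pos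
    refine ⟨max ρp 3, fun κ _ ζ s M h z₀ ρ K W hK hρ q hq hqC hsl k hk => ?_⟩
    exfalso
    have hρ3 : 3 ≤ ρ := (le_max_right _ _).trans hρ
    obtain ⟨t, μ, ht1, ht2, -, -, hci⟩ := hpig κ ζ s M h z₀ ρ K W ((le_max_right _ _).trans hK) ((le_max_left _ _).trans hρ) k
      (by rw [hk]; exact mem_ball_self (by linarith))
    have ht0 : 0 < t := lt_of_lt_of_le (Real.exp_pos _) ht1
    have hz : ‖z₀ + t - z₀‖ = t := by
      rw [add_sub_cancel_left, Complex.norm_real, Real.norm_eq_abs, abs_of_pos ht0]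
    have h1 := hcir hρ3 ht1 ht2 hz (hci (z₀ + t) (by rw [hk]; exact hz)).1
    have h2 := hsl (z₀ + t) h1.1 h1.2
    rw [h0, map_zero, zero_sub, norm_neg] at h2
    linarith
  obtain ⟨ε, V, hε, hV, hdata⟩ := cpur_data hC hP h0
  obtain ⟨ρp, N₁, hpig⟩ := wd_pig hC hη hθ hθη hε
  obtain ⟨N, hN⟩ : ∃ N, N = max N₁ 1 := ⟨_, rfl⟩
  obtain ⟨C₂, hC₂⟩ : ∃ C₂, C₂ = 2 * C * C₁ + 4 * C ^ 3 / δ₁ := ⟨_, rfl⟩
  obtain ⟨D, hD⟩ : ∃ D, D = 2 * C₂ ^ m * V / c := ⟨_, rfl⟩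
  have hC₂1 : 1 ≤ C₂ := by
    have h1 : 1 ≤ C * C₁ := one_le_mul_of_one_le_of_one_le hC hC₁
    have h2 : 0 ≤ 4 * C ^ 3 / δ₁ := by positivity
    have h3 : 2 * C * C₁ = 2 * (C * C₁) := by ring
    rw [hC₂, h3]
    linarith
  have hN1 : 1 ≤ N := by
    rw [hN]
    exact le_max_right _ _
  have hD0 : 0 < D := by
    rw [hD]
    positivity
  refine ⟨max (max ρb ρd) (max ρp (max (3 + 8 / δ₁) (4 / δ₁ * (N * (D + 1))))), fun κ _ ζ s M h z₀ ρ K W hK hρ q hq hqC hsl k hk => ?_⟩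
  have hρb' : ρb ≤ ρ := le_trans (le_trans (le_max_left _ _) (le_max_left _ _)) hρ
  have hρd' : ρd ≤ ρ := le_trans (le_trans (le_max_right _ _) (le_max_left _ _)) hρ
  have hρp' : ρp ≤ ρ := le_trans (le_trans (le_max_left _ _) (le_max_right _ _)) hρ
  have hρ8 : 3 + 8 / δ₁ ≤ ρ := le_trans (le_trans (le_trans (le_max_left _ _) (le_max_right _ _)) (le_max_right _ _)) hρ
  have hρN : 4 / δ₁ * (N * (D + 1)) ≤ ρ := le_trans (le_trans (le_trans (le_max_right _ _) (le_max_right _ _)) (le_max_right _ _)) hρ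
  have h8 : 0 < 8 / δ₁ := by positivity
  have hρ3 : 3 ≤ ρ := by linarith
  have hρ0 : 0 < ρ := by linarith
  have hR2 : 2 ≤ δ₁ * ρ / 4 := by
    have h1 : δ₁ * (8 / δ₁) ≤ δ₁ * ρ := mul_le_mul_of_nonneg_left (by linarith) hδ₁.le
    rw [mul_div_cancel₀ _ hδ₁.ne'] at h1
    linarith
  have hRN : N * (D + 1) ≤ δ₁ * ρ / 4 := by
    have h1 : δ₁ * (4 / δ₁ * (N * (D + 1))) ≤ δ₁ * ρ := mul_le_mul_of_nonneg_left hρN hδ₁.le
    have h2 : δ₁ * (4 / δ₁ * (N * (D + 1))) = 4 * (N * (D + 1)) := by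
      field_simp
    linarith
  obtain ⟨t, μ, ht1, ht2, hμN, hμs, hci⟩ := hpig κ ζ s M h z₀ ρ K W ((le_max_right _ _).trans hK) hρp' k
    (by rw [hk]; exact mem_ball_self (by linarith))
  have ht0 : 0 < t := lt_of_lt_of_le (Real.exp_pos _) ht1
  have hθρ : 0 < θ * ρ := mul_pos hθ hρ0
  have hδρ : 0 < δ₁ * ρ := mul_pos hδ₁ hρ0
  have hδρ' : δ₁ * ρ ≤ 1 / 8 * ρ := mul_le_mul_of_nonneg_right hδ₁' hρ0.le
  have ht3 : t ≤ 1 := ht2.trans (Real.exp_le_one_iff.2 (by linarith))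
  have ha : ∀ i, 1 ≤ M k i := W.one k
  have haC : ∀ i, (M k i : ℝ) ≤ C := W.M_le k
  obtain ⟨e, P', he, hP', hPP, hne, hnear, hPV⟩ := hdata (M k) ha haC
  rcases he.eq_or_lt with he | he
  · subst he
    rw [Nat.sub_self] at hP'
    have h1 : P'.totalDegree = 0 := Nat.le_zero.1 hP'.totalDegree_le
    rw [MvPolynomial.totalDegree_eq_zero_iff_eq_C] at h1
    refine ⟨P'.coeff 0, fun h2 => ?_, ?_⟩
    · rw [h1, h2, map_zero, map_zero] at hne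
      exact hne rfl
    · rw [mul_comm, ← h1]
      exact hPP
  exfalso
  have hpar : ∀ j, ζ j ∈ ball z₀ (δ₁ * ρ) → M k 0 * M j 1 = M k 1 * M j 0 := fun j hj =>
    hdir κ ζ s M h z₀ ρ K W ((le_max_left _ _).trans hK) hρd' k j (by rw [hk]; exact mem_ball_self (by positivity)) hj
  have hμpar : M k 0 * μ 1 = M k 1 * μ 0 := by
    rw [hμs, Finset.mul_sum, Finset.mul_sum]
    refine Finset.sum_congr rfl fun j hj => hpar j ?_
    rw [Finset.mem_filter, hk] at hj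
    rw [mem_ball, dist_eq_norm]
    linarith [hj.2]
  obtain ⟨Pμ, hPμ⟩ : ∃ Pμ, Pμ = MvPolynomial.eval (fun i => (μ i : ℂ)) P' := ⟨_, rfl⟩
  have hPμ' := cpur_mu hP' ha hμpar
  rw [← hPμ] at hPμ'
  have hk0 : (M k 0 : ℂ) ≠ 0 := by exact_mod_cast (by have := ha 0; omega : M k 0 ≠ 0)
  have hμ0 : (μ 0 : ℂ) ≠ 0 := by exact_mod_cast (by have := (hμN 0).1; omega : μ 0 ≠ 0)
  have hPμ0 : Pμ ≠ 0 := by
    rw [hPμ']
    exact mul_ne_zero (pow_ne_zero _ (div_ne_zero hμ0 hk0)) hne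
  have hPμN : ‖Pμ‖ ≤ N ^ (m - e) * V := by
    rw [hPμ', norm_mul, norm_pow, norm_div, Complex.norm_natCast, Complex.norm_natCast]
    have h1 : (μ 0 : ℝ) / M k 0 ≤ N := by
      have h2 : (1 : ℝ) ≤ M k 0 := by exact_mod_cast ha 0
      rw [div_le_iff₀ (by linarith)]
      have h3 : (μ 0 : ℝ) ≤ N := by
        rw [hN]
        exact (hμN 0).2.trans (le_max_left _ _)
      exact le_trans h3 (le_mul_of_one_le_right (by linarith) h2)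
    exact mul_le_mul (pow_le_pow_left₀ (by positivity) h1 _) hPV (norm_nonneg _) (by positivity)
  have hG : DifferentiableOn ℂ (fun z => ((M k 1 : ℂ) * sl ζ M h 0 z - (M k 0 : ℂ) * sl ζ M h 1 z) ^ e) (ball z₀ (2 * (δ₁ * ρ / 4))) := by
    refine ((cpur_diff (r := δ₁ * ρ) ?_ W.hol hpar).mono (ball_subset_ball ?_)).pow e
    · linarith
    · linarith
  have hcau := cpur_cauchy (d := m - e) (Q := q / Pμ) (B := C₂ ^ e) ht0 (by linarith : t < δ₁ * ρ / 4) hG ?_ ?_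
  · have h1 : c * (δ₁ * ρ / 4) ^ (m - e) ≤ 2 * C₂ ^ m * (N ^ (m - e) * V) := by
      have h2 : ‖q‖ = ‖q / Pμ‖ * ‖Pμ‖ := by
        rw [norm_div, div_mul_cancel₀ _ (norm_ne_zero_iff.2 hPμ0)]
      have hRp : 0 < (δ₁ * ρ / 4) ^ (m - e) := by positivity
      calc c * (δ₁ * ρ / 4) ^ (m - e) ≤ ‖q‖ * (δ₁ * ρ / 4) ^ (m - e) := mul_le_mul_of_nonneg_right hq hRp.le
        _ = ‖q / Pμ‖ * (δ₁ * ρ / 4) ^ (m - e) * ‖Pμ‖ := by rw [h2]; ring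
        _ ≤ 2 * C₂ ^ e * ‖Pμ‖ := mul_le_mul_of_nonneg_right hcau (norm_nonneg _)
        _ ≤ 2 * C₂ ^ m * (N ^ (m - e) * V) := by
            refine mul_le_mul ?_ hPμN (norm_nonneg _) (by positivity)
            exact mul_le_mul_of_nonneg_left (pow_le_pow_right₀ hC₂1 he.le) (by norm_num)
    have h2 : N ^ (m - e) * (D + 1) ≤ (δ₁ * ρ / 4) ^ (m - e) := by
      calc N ^ (m - e) * (D + 1) ≤ N ^ (m - e) * (D + 1) ^ (m - e) := by
            refine mul_le_mul_of_nonneg_left ?_ (by positivity)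
            exact le_self_pow₀ (by linarith) (by omega)
        _ = (N * (D + 1)) ^ (m - e) := by rw [mul_pow]
        _ ≤ _ := pow_le_pow_left₀ (by positivity) hRN _
    have h3 : 0 < N ^ (m - e) := by positivity
    have h4 : c * D = 2 * C₂ ^ m * V := by
      rw [hD]
      field_simp
    have h5 : c * (N ^ (m - e) * (D + 1)) ≤ 2 * C₂ ^ m * (N ^ (m - e) * V) := le_trans (mul_le_mul_of_nonneg_left h2 hc.le) h1
    have h6 : c * (N ^ (m - e) * (D + 1)) = N ^ (m - e) * (c * D) + c * N ^ (m - e) := by ring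
    rw [h6, h4] at h5
    have h7 : 0 < c * N ^ (m - e) := mul_pos hc h3
    linarith
  · intro z hz
    have hz' : z ∈ ball z₀ (δ₁ * ρ / 2) := by
      have h1 : 2 * (δ₁ * ρ / 4) = δ₁ * ρ / 2 := by ring
      rwa [h1] at hz
    have h2 := cpur_bound (ζ := ζ) (M := M) (h := h) (a := M k) hC hδ₁ hρ0 haC W.M_le W.card hz'
      (fun i => (hbdd κ ζ s M h z₀ ρ K W ((le_max_right _ _).trans hK) hρb' i z (ball_subset_ball (by linarith) hz')).2.2) hpar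
    rw [norm_pow, hC₂]
    exact pow_le_pow_left₀ (norm_nonneg _) h2 e
  · intro z hz
    have hz0 : z - z₀ ≠ 0 := by
      rw [← norm_pos_iff, hz]
      exact ht0
    have hzk : ‖z - ζ k‖ = t := by
      rw [hk]
      exact hz
    have h1 := hci z hzk
    have h2 := hcir hρ3 ht1 ht2 hz h1.1
    have h3 := hsl z h2.1 h2.2
    have h4 : MvPolynomial.eval (fun i => sl ζ M h i z) P = ((M k 1 : ℂ) * sl ζ M h 0 z - (M k 0 : ℂ) * sl ζ M h 1 z) ^ e *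
        MvPolynomial.eval (fun i => sl ζ M h i z) P' := by
      conv_lhs => rw [hPP]
      rw [map_mul, map_pow, Lf, map_sub, map_mul, map_mul, MvPolynomial.eval_C, MvPolynomial.eval_C, MvPolynomial.eval_X, MvPolynomial.eval_X]
    rw [h4] at h3
    have h5 := cpur_pert hP' ha (haC 0) (hμN 0).1 hμpar hnear hz0 (x := fun i => sl ζ M h i z) (fun i => by
      rw [hz, ← hk]
      exact h1.2 i)
    rw [← hPμ] at h5
    have h6 := cpur_alg (h3.trans (by linarith)) h5 hPμ0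
    rw [hz] at h6
    exact h6

end Pool.Agent.SR3
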