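import Pool.Agent.SR3.CRes
import Pool.Agent.SR3.CPur
import Pool.Agent.SR3.CAff

/-!
# SR3 CMac: the end of the function theory of the wells at a crossing
-/

set_option autoImplicit false

open Metric

noncomputable section

namespace Pool.Agent.SR3

variable {κ : Type} [Fintype κ]

theorem eval_pure (a : Fin 2 → ℕ) (b : ℂ) (m : ℕ) (y : Fin 2 → ℂ) :
    MvPolynomial.eval y (MvPolynomial.C b * Lf a ^ m) = b * ((a 1 : ℂ) * y 0 - (a 0 : ℂ) * y 1) ^ m := by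
  simp [Lf]

/-- a good circle for the larger discs of radius `exp (- θ ρ)` -/
theorem cm_circle {ζ : κ → ℂ} {s : κ → ℝ} {M : κ → Fin 2 → ℕ} {h : Fin 2 → ℂ → ℂ} {z₀ : ℂ} {ρ C η K : ℝ} (W : Wd ζ s M h z₀ ρ C η K)
    {θ δ : ℝ} (hθ : 0 < θ) (hδ : 0 < δ) (hC : 1 ≤ C) (hρ₁ : 2 * C / (θ * δ) < ρ) (z₁ : ℂ) {r₁ r₂ : ℝ} (hr : δ * ρ ≤ r₂ - r₁) :
    ∃ r : ℝ, r₁ ≤ r ∧ r ≤ r₂ ∧ ∀ k, r + Real.exp (-(θ * ρ)) < ‖ζ k - z₁‖ ∨ ‖ζ k - z₁‖ + Real.exp (-(θ * ρ)) < r := by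
  refine good_circle (s := fun _ => Real.exp (-(θ * ρ))) (fun _ => (Real.exp_pos _).le) (lt_of_lt_of_le ?_ hr)
  have h1 : ∑ k : κ, Real.exp (-(θ * ρ)) = (Fintype.card κ : ℝ) * Real.exp (-(θ * ρ)) := by simp
  rw [h1]
  have h2 : Real.exp (-(θ * ρ)) * (θ * ρ) ≤ 1 := by
    have := Real.add_one_le_exp (θ * ρ)
    have h3 : Real.exp (-(θ * ρ)) * Real.exp (θ * ρ) = 1 := by rw [← Real.exp_add]; simp
    nlinarith [Real.exp_pos (-(θ * ρ))]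
  have h4 : (Fintype.card κ : ℝ) * Real.exp (-(θ * ρ)) ≤ C * ρ * Real.exp (-(θ * ρ)) := mul_le_mul_of_nonneg_right W.card (Real.exp_pos _).le
  have h5 : C * ρ * Real.exp (-(θ * ρ)) ≤ C / θ := by
    rw [le_div_iff₀ hθ]
    nlinarith
  have h6 : 2 * C / θ < δ * ρ := by
    rw [div_lt_iff₀ (by positivity)] at hρ₁
    rw [div_lt_iff₀ hθ]
    nlinarith
  have h7 : 2 * C / θ = 2 * (C / θ) := by ring
  linarith

theorem pure_at {C η ε : ℝ} (hC : 1 ≤ C) (hη : 0 < η) (hε : 0 < ε) (hε1 : ε ≤ 1) {m : ℕ} (hm : 1 ≤ m) {P : MvPolynomial (Fin 2) ℂ}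
    (hP : P.IsHomogeneous m) {c : ℝ} (hc : 0 < c) :
    ∃ K₁ θ₀ : ℝ, 0 < θ₀ ∧ ∀ θ : ℝ, 0 < θ → θ ≤ θ₀ → θ ≤ η → ∃ ρ₁ : ℝ, ∀ (κ : Type) [Fintype κ] (ζ : κ → ℂ) (s : κ → ℝ) (M : κ → Fin 2 → ℕ) (h : Fin 2 → ℂ → ℂ)
      (z₀ : ℂ) (ρ K : ℝ), Wd ζ s M h z₀ ρ C η K → K₁ ≤ K → ρ₁ ≤ ρ → ∀ q : ℂ, c ≤ ‖q‖ → ‖q‖ ≤ C →
        (∀ z ∈ ball z₀ ((1 - ε / 2) * ρ), (∀ k, Real.exp (-(θ * ρ)) ≤ ‖z - ζ k‖) → ‖MvPolynomial.eval (fun i => sl ζ M h i z) P - q‖ ≤ θ) →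
          ∀ k, ‖ζ k - z₀‖ ≤ (1 - 5 * ε / 8) * ρ → ∃ b : ℂ, b ≠ 0 ∧ P = MvPolynomial.C b * Lf (M k) ^ m := by
  have hA : (1 : ℝ) ≤ 16 / ε := by rw [le_div_iff₀ hε]; linarith
  have hAC : (1 : ℝ) ≤ 16 / ε * C := by nlinarith
  obtain ⟨K₁, θ₀, hθ₀, H⟩ := wd_pure hAC hη hm hP hc
  refine ⟨max K₁ 2, θ₀, hθ₀, fun θ hθ hθθ₀ hθη => ?_⟩
  obtain ⟨ρ₂, H⟩ := H θ hθ hθθ₀
  refine ⟨1 + |16 * ρ₂ / ε| + 2 * C / (θ * (ε / 16)) + 32 / ε + 2 / θ, ?_⟩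
  intro κ _ ζ s M h z₀ ρ K W hK hρ q hq hqC hH k hk
  have hK1 : K₁ ≤ K := (le_max_left _ _).trans hK
  have hK2 : 2 ≤ K := (le_max_right _ _).trans hK
  have p1 : 0 ≤ |16 * ρ₂ / ε| := abs_nonneg _
  have p2 : 0 < 2 * C / (θ * (ε / 16)) := by positivity
  have p3 : 0 < 32 / ε := by positivity
  have p4 : 0 < 2 / θ := by positivity
  have hρ0 : 0 < ρ := by linarith
  have hρ2 : 16 * ρ₂ / ε ≤ ρ := (le_abs_self _).trans (by linarith)
  obtain ⟨r, hr1, hr2, hr⟩ := cm_circle W hθ (δ := ε / 16) (by positivity) hC (by linarith) (ζ k) (r₁ := ε / 16 * ρ) (r₂ := ε / 8 * ρ) (by linarith)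
  have hερ : 0 < ε * ρ := mul_pos hε hρ0
  have hr0 : 0 < r := by linarith
  have hrρ : r ≤ ρ / 8 := by nlinarith
  have hexpr : ∀ j, s j ≤ Real.exp (-(θ * ρ)) := fun j => (W.s_le j).trans (Real.exp_le_exp.2 (by nlinarith))
  have hb' : ball (ζ k) r ⊆ ball z₀ ((1 - ε / 2) * ρ) := by
    intro z hz
    rw [mem_ball, dist_eq_norm] at hz ⊢
    have : z - z₀ = (z - ζ k) + (ζ k - z₀) := by ring
    rw [this]
    refine (norm_add_le _ _).trans_lt ?_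
    linarith
  have hb : ball (ζ k) r ⊆ ball z₀ ρ := hb'.trans (ball_subset_ball (by linarith))
  have hρA : ρ ≤ 16 / ε * r := by
    have : 16 / ε * (ε / 16 * ρ) = ρ := by field_simp
    have h2 := mul_le_mul_of_nonneg_left hr1 (by positivity : (0 : ℝ) ≤ 16 / ε)
    linarith
  obtain ⟨κ', _, e, h', -, hmem, W', hsg⟩ := wd_restrict W hC hη hK2 hr0 hb hA hρA (by linarith)
    (fun j => (hr j).imp (fun hj => by linarith [hexpr j]) (fun hj => by linarith [hexpr j]))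
  obtain ⟨k', hk'⟩ := (hmem k).1 (mem_ball_self hr0)
  have hexp1 : Real.exp (-(θ * ρ)) ≤ Real.exp (-(θ * r)) / 2 := by
    have h2 : Real.exp (-(θ * r)) = Real.exp (-(θ * ρ)) * Real.exp (θ * (ρ - r)) := by rw [← Real.exp_add]; congr 1; ring
    have h3 : θ * (ρ - r) + 1 ≤ Real.exp (θ * (ρ - r)) := Real.add_one_le_exp _
    have h4 : 2 ≤ θ * ρ := by
      have : 2 / θ ≤ ρ := by linarith
      rw [div_le_iff₀ hθ] at this; linarith
    have h5 : 1 ≤ θ * (ρ - r) := by nlinarith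
    rw [h2]
    nlinarith [Real.exp_pos (-(θ * ρ))]
  have hexp2 : Real.exp (-(θ * ρ)) ≤ r / 2 := by
    have h1 : Real.exp (-(θ * ρ)) ≤ 1 := Real.exp_le_one_iff.2 (by nlinarith)
    have h2 : 32 / ε ≤ ρ := by linarith
    rw [div_le_iff₀ hε] at h2
    nlinarith
  obtain ⟨b, hb0, hbP⟩ := H κ' (ζ ∘ e) (s ∘ e) (M ∘ e) h' (ζ k) r K W' hK1
    (by rw [div_le_iff₀ hε] at hρ2; nlinarith) q hq (hqC.trans (by nlinarith)) (by
      intro z hz hzk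
      have hzr : z ∈ ball (ζ k) r := ball_subset_ball (by linarith) hz
      have hall : ∀ j, Real.exp (-(θ * ρ)) ≤ ‖z - ζ j‖ := by
        intro j
        by_cases hj : ζ j ∈ ball (ζ k) r
        · obtain ⟨j', rfl⟩ := (hmem j).1 hj
          exact hexp1.trans (hzk j')
        · rw [mem_ball, dist_eq_norm, not_lt] at hj
          rw [mem_ball, dist_eq_norm] at hz
          have : ζ j - ζ k = (z - ζ k) - (z - ζ j) := by ring
          have h1 := norm_sub_le (z - ζ k) (z - ζ j)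
          rw [← this] at h1
          linarith
      have hs : ∀ j, s j ≤ ‖z - ζ j‖ := fun j => (hexpr j).trans (hall j)
      have h1 : (fun i => sl (ζ ∘ e) (M ∘ e) h' i z) = fun i => sl ζ M h i z := funext fun i => (hsg i z hzr hs).2
      rw [h1]
      exact hH z (hb' hzr) hall) k' (by simp [hk'])
  exact ⟨b, hb0, by simpa [hk'] using hbP⟩

theorem wd_macro {m : ℕ} (hm : 1 ≤ m) {P : MvPolynomial (Fin 2) ℂ} (hP : P.IsHomogeneous m) {c : ℝ} (hc : 0 < c) : ∃ c₁ : ℝ, 0 < c₁ ∧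
    ∀ C η ε : ℝ, 1 ≤ C → 0 < η → 0 < ε → ∃ K₁ θ₀ : ℝ, 0 < θ₀ ∧ ∀ θ : ℝ, 0 < θ → θ ≤ θ₀ → ∃ ρ₁ : ℝ, ∀ (κ : Type) [Fintype κ] (ζ : κ → ℂ) (s : κ → ℝ)
      (M : κ → Fin 2 → ℕ) (h : Fin 2 → ℂ → ℂ) (z₀ : ℂ) (ρ K : ℝ), Wd ζ s M h z₀ ρ C η K → K₁ ≤ K → ρ₁ ≤ ρ → ∀ q : ℂ, c ≤ ‖q‖ → ‖q‖ ≤ C →
        (∀ z ∈ ball z₀ ((1 - ε / 2) * ρ), (∀ k, Real.exp (-(θ * ρ)) ≤ ‖z - ζ k‖) → ‖MvPolynomial.eval (fun i => sl ζ M h i z) P - q‖ ≤ θ) →
          (∃ k, ζ k = z₀) → ∃ l : ℂ, c₁ ≤ ‖l‖ ∧ ∀ z ∈ ball z₀ ((1 - ε) * ρ), (∀ k, s k ≤ ‖z - ζ k‖) →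
            |(l * (z - z₀)).re| ≤ |sg ζ M h 0 z| + |sg ζ M h 1 z| + ε * ρ := by
  set B : ℝ := ‖MvPolynomial.eval (fun i : Fin 2 => if i = 0 then (1 : ℂ) else -1) P‖ with hB
  have hB0 : 0 ≤ B := norm_nonneg _
  have hc₁ : 0 < min 1 (c / (2 * (B + 1))) := lt_min one_pos (by positivity)
  refine ⟨min 1 (c / (2 * (B + 1))), hc₁, fun C η ε hC hη hε => ?_⟩
  rcases le_or_gt 1 ε with hε1 | hε1
  · refine ⟨0, 1, one_pos, fun θ _ _ => ⟨0, ?_⟩⟩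
    intro κ _ ζ s M h z₀ ρ K W hK hρ q hq hqC hH hk
    refine ⟨((min 1 (c / (2 * (B + 1))) : ℝ) : ℂ), ?_, fun z hz => ?_⟩
    · rw [Complex.norm_real, Real.norm_of_nonneg hc₁.le]
    · exfalso
      rw [mem_ball] at hz
      have h1 : (1 - ε) * ρ ≤ 0 := mul_nonpos_of_nonpos_of_nonneg (by linarith) hρ
      linarith [dist_nonneg (x := z) (y := z₀)]
  obtain ⟨K₁, θ₁, hθ₁, H₁⟩ := pure_at hC hη hε hε1.le hm hP hc
  by_cases hex : ∃ (a : Fin 2 → ℕ) (b : ℂ), b ≠ 0 ∧ (∀ i, 1 ≤ a i) ∧ P = MvPolynomial.C b * Lf a ^ m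
  · obtain ⟨a, b, hb0, ha, hPa⟩ := hex
    have hC2 : (1 : ℝ) ≤ 4 * C := by linarith
    obtain ⟨θ₂, hθ₂, H₂⟩ := wd_aff hC2 hη hm a hb0 hc (θ := ε / 4) (by positivity)
    refine ⟨max K₁ 2, min θ₁ (min θ₂ η), lt_min hθ₁ (lt_min hθ₂ hη), fun θ hθ hθ0 => ?_⟩
    have hθ1 : θ ≤ θ₁ := hθ0.trans (min_le_left _ _)
    have hθ2 : θ ≤ θ₂ := hθ0.trans ((min_le_right _ _).trans (min_le_left _ _))
    have hθη : θ ≤ η := hθ0.trans ((min_le_right _ _).trans (min_le_right _ _))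
    obtain ⟨ρ₂, H₁⟩ := H₁ θ hθ hθ1 hθη
    obtain ⟨ρ₃, H₂⟩ := H₂ θ hθ hθ2
    refine ⟨1 + |ρ₂| + |4 * ρ₃| + 2 * C / (θ * (ε / 8)) + 2 / (θ * ε), ?_⟩
    intro κ _ ζ s M h z₀ ρ K W hK hρ q hq hqC hH hk
    have hK1 : K₁ ≤ K := (le_max_left _ _).trans hK
    have hK2 : 2 ≤ K := (le_max_right _ _).trans hK
    have p0 : 0 ≤ |ρ₂| := abs_nonneg _
    have p1 : 0 ≤ |4 * ρ₃| := abs_nonneg _
    have p2 : 0 < 2 * C / (θ * (ε / 8)) := by positivity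
    have p3 : 0 < 2 / (θ * ε) := by positivity
    have hρ0 : 0 < ρ := by linarith
    have hρ2 : ρ₂ ≤ ρ := (le_abs_self _).trans (by linarith)
    have hρ3 : 4 * ρ₃ ≤ ρ := (le_abs_self _).trans (by linarith)
    have hερ : 0 < ε * ρ := mul_pos hε hρ0
    have hpar : ∀ k, ‖ζ k - z₀‖ ≤ (1 - 5 * ε / 8) * ρ → M k 0 * a 1 = M k 1 * a 0 := by
      intro k hk
      obtain ⟨b', hb', hbP⟩ := H₁ κ ζ s M h z₀ ρ K W hK1 hρ2 q hq hqC hH k hk
      have h1 : MvPolynomial.eval (fun i => ((M k i : ℕ) : ℂ)) P = 0 := by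
        rw [hbP, eval_pure]
        have : (M k 1 : ℂ) * (M k 0 : ℂ) - (M k 0 : ℂ) * (M k 1 : ℂ) = 0 := by ring
        rw [this, zero_pow (by omega), mul_zero]
      rw [hPa, eval_pure] at h1
      have h2 : ((a 1 : ℂ) * (M k 0 : ℂ) - (a 0 : ℂ) * (M k 1 : ℂ)) = 0 := by
        rcases mul_eq_zero.1 h1 with h1 | h1
        · exact absurd h1 hb0
        · exact pow_eq_zero_iff (by omega) |>.1 h1
      have h3 : (M k 0 : ℂ) * (a 1 : ℂ) = (M k 1 : ℂ) * (a 0 : ℂ) := by linear_combination h2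
      exact_mod_cast h3
    obtain ⟨R, hR1, hR2, hR⟩ := cm_circle W hθ (δ := ε / 8) (by positivity) hC (by linarith) z₀ (r₁ := (1 - 3 * ε / 4) * ρ) (r₂ := (1 - 5 * ε / 8) * ρ) (by linarith)
    have hRρ : R ≤ ρ := by nlinarith
    have hR0 : ρ / 4 ≤ R := by nlinarith
    have hexpr : ∀ j, s j ≤ Real.exp (-(θ * ρ)) := fun j => (W.s_le j).trans (Real.exp_le_exp.2 (by nlinarith))
    have hbR : ball z₀ R ⊆ ball z₀ ρ := ball_subset_ball hRρ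
    have hbR' : ball z₀ R ⊆ ball z₀ ((1 - ε / 2) * ρ) := ball_subset_ball (by linarith)
    obtain ⟨κ', _, e, h', -, hmem, W', hsg⟩ := wd_restrict W hC hη hK2 (by linarith) hbR (by norm_num : (1 : ℝ) ≤ 4) (by linarith) hRρ
      (fun j => (hR j).imp (fun hj => by linarith [hexpr j]) (fun hj => by linarith [hexpr j]))
    have hexp1 : Real.exp (-(θ * ρ)) ≤ Real.exp (-(θ * R)) / 2 := by
      have h2 : Real.exp (-(θ * R)) = Real.exp (-(θ * ρ)) * Real.exp (θ * (ρ - R)) := by rw [← Real.exp_add]; congr 1; ring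
      have h3 : θ * (ρ - R) + 1 ≤ Real.exp (θ * (ρ - R)) := Real.add_one_le_exp _
      have h4 : 2 ≤ θ * (ε * ρ) := by
        have : 2 / (θ * ε) ≤ ρ := by linarith
        rw [div_le_iff₀ (by positivity)] at this; linarith
      have h5 : 1 ≤ θ * (ρ - R) := by nlinarith
      rw [h2]
      nlinarith [Real.exp_pos (-(θ * ρ))]
    obtain ⟨l, hl, hz⟩ := H₂ κ' (ζ ∘ e) (s ∘ e) (M ∘ e) h' z₀ R K W' hK2 (by linarith)
      (fun k' => hpar (e k') (by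
        have h1 : ζ (e k') ∈ ball z₀ R := (hmem (e k')).2 ⟨k', rfl⟩
        rw [mem_ball, dist_eq_norm] at h1
        linarith))
      q hq (hqC.trans (by linarith)) (by
        intro z hz hzk
        have hall : ∀ j, Real.exp (-(θ * ρ)) ≤ ‖z - ζ j‖ := by
          intro j
          by_cases hj : ζ j ∈ ball z₀ R
          · obtain ⟨j', rfl⟩ := (hmem j).1 hj
            exact hexp1.trans (hzk j')
          · rw [mem_ball, dist_eq_norm, not_lt] at hj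
            rw [mem_ball, dist_eq_norm] at hz
            have : ζ j - z₀ = (z - z₀) - (z - ζ j) := by ring
            have h1 := norm_sub_le (z - z₀) (z - ζ j)
            rw [← this] at h1
            rcases hR j with h2 | h2
            · linarith
            · have := Real.exp_pos (-(θ * ρ)); linarith
        have hs : ∀ j, s j ≤ ‖z - ζ j‖ := fun j => (hexpr j).trans (hall j)
        rw [(hsg 0 z hz hs).2, (hsg 1 z hz hs).2]
        have h2 := hH z (hbR' hz) hall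
        rwa [hPa, eval_pure] at h2)
      (by
        obtain ⟨k, hk⟩ := hk
        obtain ⟨k', hk'⟩ := (hmem k).1 (by rw [hk]; exact mem_ball_self (by linarith))
        exact ⟨k', by simp [hk', hk]⟩)
    have hσ : (0 : ℝ) < (a 0 : ℝ) + (a 1 : ℝ) := by
      have h1 : (1 : ℝ) ≤ (a 0 : ℝ) := by exact_mod_cast ha 0
      have h2 : (0 : ℝ) ≤ (a 1 : ℝ) := Nat.cast_nonneg _
      linarith
    have hσ1 : (1 : ℝ) ≤ (a 0 : ℝ) + (a 1 : ℝ) := by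
      have h1 : (1 : ℝ) ≤ (a 0 : ℝ) := by exact_mod_cast ha 0
      have h2 : (0 : ℝ) ≤ (a 1 : ℝ) := Nat.cast_nonneg _
      linarith
    set σ : ℝ := (a 0 : ℝ) + (a 1 : ℝ) with hσd
    refine ⟨l / (σ : ℂ), ?_, ?_⟩
    · -- the bound from below
      have hBe : B = ‖b‖ * σ ^ m := by
        rw [hB, hPa, eval_pure]
        simp only [Fin.isValue, ↓reduceIte, mul_one, one_ne_zero, mul_neg, sub_neg_eq_add, norm_mul, norm_pow]
        congr 2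
        have : ((a 1 : ℂ) + (a 0 : ℂ)) = ((σ : ℝ) : ℂ) := by rw [hσd]; push_cast; ring
        rw [this, Complex.norm_real, Real.norm_of_nonneg hσ.le]
      have hnl : ‖l / (σ : ℂ)‖ = ‖l‖ / σ := by rw [norm_div, Complex.norm_real, Real.norm_of_nonneg hσ.le]
      rw [hnl]
      by_contra hlt
      rw [not_le, lt_min_iff] at hlt
      obtain ⟨hl1, hl2⟩ := hlt
      set x : ℝ := ‖l‖ / σ with hx
      have hx0 : 0 ≤ x := by positivity
      have hlx : ‖l‖ = x * σ := by rw [hx]; field_simp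
      have h1 : x ^ m ≤ x := pow_le_of_le_one hx0 hl1.le (by omega)
      have h2 : c ≤ 2 * B * x ^ m := by
        rw [hBe]; rw [hlx, mul_pow] at hl
        linarith
      have h3 : 2 * B * x ^ m ≤ 2 * B * x := mul_le_mul_of_nonneg_left h1 (by positivity)
      rw [lt_div_iff₀ (by positivity)] at hl2
      nlinarith
    · intro z hz' hzs
      have hzR : z ∈ ball z₀ ((1 - ε / 4) * R) := by
        refine ball_subset_ball ?_ hz'
        have h1 : (1 - ε / 4) * ((1 - 3 * ε / 4) * ρ) ≤ (1 - ε / 4) * R := mul_le_mul_of_nonneg_left hR1 (by linarith)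
        have h3 : 0 ≤ ε * ε * ρ := by positivity
        have h4 : (1 - ε / 4) * ((1 - 3 * ε / 4) * ρ) = (1 - ε) * ρ + 3 / 16 * (ε * ε * ρ) := by ring
        linarith
      have hzR' : z ∈ ball z₀ R := ball_subset_ball (by nlinarith) hzR
      have h1 := hz z hzR (fun k' => hzs (e k'))
      rw [(hsg 0 z hzR' hzs).1, (hsg 1 z hzR' hzs).1] at h1
      have h2 : (l / (σ : ℂ) * (z - z₀)).re = (l * (z - z₀)).re / σ := by
        rw [div_mul_eq_mul_div, Complex.div_ofReal_re]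
      rw [h2, abs_div, abs_of_pos hσ, div_le_iff₀ hσ]
      have h3 : |(l * (z - z₀)).re| ≤ |(a 1 : ℝ) * sg ζ M h 0 z - (a 0 : ℝ) * sg ζ M h 1 z| + ε / 4 * R := by
        have := abs_sub_abs_le_abs_sub ((l * (z - z₀)).re) ((a 1 : ℝ) * sg ζ M h 0 z - (a 0 : ℝ) * sg ζ M h 1 z)
        rw [abs_sub_comm ((l * (z - z₀)).re) ((a 1 : ℝ) * sg ζ M h 0 z - (a 0 : ℝ) * sg ζ M h 1 z)] at this
        linarith
      have h4 : |(a 1 : ℝ) * sg ζ M h 0 z - (a 0 : ℝ) * sg ζ M h 1 z| ≤ (a 1 : ℝ) * |sg ζ M h 0 z| + (a 0 : ℝ) * |sg ζ M h 1 z| := by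
        refine (abs_sub _ _).trans ?_
        rw [abs_mul, abs_mul, Nat.abs_cast, Nat.abs_cast]
      have h5 : (0 : ℝ) ≤ (a 0 : ℝ) := Nat.cast_nonneg _
      have h6 : (0 : ℝ) ≤ (a 1 : ℝ) := Nat.cast_nonneg _
      have h7 : (a 1 : ℝ) ≤ σ := by linarith
      have h8 : (a 0 : ℝ) ≤ σ := by linarith
      have h9 : ε / 4 * R ≤ ε * ρ * σ := by
        have h10 : ε / 4 * R ≤ ε * ρ := by nlinarith
        have h12 : ε * ρ ≤ ε * ρ * σ := le_mul_of_one_le_right (by positivity) hσ1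
        linarith
      have h13 := mul_le_mul_of_nonneg_right h7 (abs_nonneg (sg ζ M h 0 z))
      have h14 := mul_le_mul_of_nonneg_right h8 (abs_nonneg (sg ζ M h 1 z))
      nlinarith
  · -- no data
    refine ⟨K₁, min θ₁ η, lt_min hθ₁ hη, fun θ hθ hθ0 => ?_⟩
    obtain ⟨ρ₂, H₁⟩ := H₁ θ hθ (hθ0.trans (min_le_left _ _)) (hθ0.trans (min_le_right _ _))
    refine ⟨max ρ₂ 0, ?_⟩
    intro κ _ ζ s M h z₀ ρ K W hK hρ q hq hqC hH hk
    exfalso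
    obtain ⟨k, hk⟩ := hk
    have hρ0 : 0 ≤ ρ := (le_max_right _ _).trans hρ
    obtain ⟨b, hb, hbP⟩ := H₁ κ ζ s M h z₀ ρ K W hK ((le_max_left _ _).trans hρ) q hq hqC hH k (by
      rw [hk, sub_self, norm_zero]
      exact mul_nonneg (by linarith) hρ0)
    exact hex ⟨M k, b, hb, W.one k, hbP⟩

end Pool.Agent.SR3
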