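import Pool.Agent.SR3.CDefs

/-!
# SR3 CStub: wells at a crossing, function theory (stubs; never import this file in a finished file)

One section = one file `Pool/Agent/SR3/<Section>.lean`, with exactly these statements, in the namespace `Pool.Agent.SR3`.  Write against this file
with `open Stub`; when the real files are on main, replace the import and delete `open Stub`.  Chief: helper62 (note 4698 and the proofs below).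
-/

set_option autoImplicit false

open Metric

noncomputable section

namespace Pool.Agent.SR3

variable {κ : Type} [Fintype κ]

namespace Stub

/-! ## CFac: the factorization.  The zeros of `f` in the closed disc are finitely many (f has no zero on the sphere) and lie in the holes; divide them out
(`MeromorphicOn.extract_zeros_poles`, or induction on the number of zeros), the quotient has no zeros on the disc and is `exp g`.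
Without zeros on `closedBall z₀ ρ` outside the holes and with the holes inside `ball z₀ ρ`, `f` is not identically zero. -/

theorem fac {ζ : κ → ℂ} {s : κ → ℝ} {f : ℂ → ℂ} (hf : Differentiable ℂ f) {z₀ : ℂ} {ρ : ℝ} (hρ : 0 < ρ)
    (hin : ∀ k, closedBall (ζ k) (s k) ⊆ ball z₀ ρ) (hdis : ∀ j k, j ≠ k → Disjoint (closedBall (ζ j) (s j)) (closedBall (ζ k) (s k)))
    (h0 : ∀ z ∈ closedBall z₀ ρ, (∀ k, s k < ‖z - ζ k‖) → f z ≠ 0) :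
    ∃ (n : κ → ℕ) (a : (k : κ) → Fin (n k) → ℂ) (g : ℂ → ℂ), DifferentiableOn ℂ g (ball z₀ ρ) ∧ (∀ k j, a k j ∈ closedBall (ζ k) (s k)) ∧
      ∀ z ∈ ball z₀ ρ, f z = Complex.exp (g z) * ∏ k, ∏ j, (z - a k j) := by
  sorry

/-! ## CErr: the error terms.  `|log |(z - a) / (z - ζ)|| ≤ 2 s / |z - ζ|` and `|1 / (z - a) - 1 / (z - ζ)| ≤ 2 s / |z - ζ| ^ 2` if `|a - ζ| ≤ s`,
`2 s ≤ |z - ζ|` (`- log (1 - x) ≤ 2 x` for `0 ≤ x ≤ 1 / 2`). -/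

theorem fac_log {ζ : κ → ℂ} {s : κ → ℝ} {f g : ℂ → ℂ} {n : κ → ℕ} {a : (k : κ) → Fin (n k) → ℂ} {z₀ : ℂ} {ρ : ℝ} (hs : ∀ k, 0 < s k)
    (ha : ∀ k j, a k j ∈ closedBall (ζ k) (s k)) (hfg : ∀ z ∈ ball z₀ ρ, f z = Complex.exp (g z) * ∏ k, ∏ j, (z - a k j)) :
    ∀ z ∈ ball z₀ ρ, (∀ k, 2 * s k ≤ ‖z - ζ k‖) →
      |Real.log ‖f z‖ - (g z).re - ∑ k, (n k : ℝ) * Real.log ‖z - ζ k‖| ≤ ∑ k, (n k : ℝ) * (2 * s k / ‖z - ζ k‖) := by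
  sorry

theorem fac_deriv {ζ : κ → ℂ} {s : κ → ℝ} {f g : ℂ → ℂ} {n : κ → ℕ} {a : (k : κ) → Fin (n k) → ℂ} {z₀ : ℂ} {ρ : ℝ} (hs : ∀ k, 0 < s k)
    (hg : DifferentiableOn ℂ g (ball z₀ ρ))
    (ha : ∀ k j, a k j ∈ closedBall (ζ k) (s k)) (hfg : ∀ z ∈ ball z₀ ρ, f z = Complex.exp (g z) * ∏ k, ∏ j, (z - a k j)) :
    ∀ z ∈ ball z₀ ρ, (∀ k, 2 * s k ≤ ‖z - ζ k‖) →
      ‖deriv f z / f z - deriv g z - ∑ k, (n k : ℂ) / (z - ζ k)‖ ≤ ∑ k, (n k : ℝ) * (2 * s k / ‖z - ζ k‖ ^ 2) := by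
  sorry

/-! ## CCnt: the number of zeros in a hole.  `f / ∏ (z - a j)` is holomorphic near the closed disc of radius `8 s`; on the sphere `|w - ζ| = 8 s` the product is at
least `(7 s) ^ n`, at the point `z` at most `(3 s) ^ n`: `n log (7 / 3) ≤ B - A`. -/

theorem fac_count {f : ℂ → ℂ} (hf : Differentiable ℂ f) {ζ : ℂ} {s : ℝ} (hs : 0 < s) {n : ℕ} {a : Fin n → ℂ} (ha : ∀ j, a j ∈ closedBall ζ s) {G : ℂ → ℂ}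
    {U : Set ℂ} (hU : IsOpen U) (hsU : closedBall ζ (8 * s) ⊆ U) (hG : DifferentiableOn ℂ G U) (hfG : ∀ z ∈ U, f z = G z * ∏ j, (z - a j))
    {A B : ℝ} (hB : ∀ z, ‖z - ζ‖ = 8 * s → ‖f z‖ ≤ Real.exp B) {z : ℂ} (hz : ‖z - ζ‖ ≤ 2 * s) (hA : Real.exp A ≤ ‖f z‖) :
    (n : ℝ) * Real.log (7 / 3) ≤ B - A := by
  sorry

/-! ## CBdd: bounds.  Let `Hh i = sg i + ∑ M k i log (2 ρ / ‖z - ζ k‖)` (every term `≥ 0`).  `Hh ≥ - C` off the holes, so also in the holes (minimum principle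
on the closed holes, which lie in the ball when they meet `ball z₀ (15 ρ / 16)`).  Choose `r ∈ [ρ / 16, ρ / 8]` such that the circle `‖z - z₀‖ = r` meets no hole
(their diameters have the sum `≤ 2 C ρ exp (- η ρ) < ρ / 16`); the circle average of `log (2 ρ / ‖z - ζ‖)` is at most `log 32`, so
`Hh i z₀ ≤ C ρ + C ρ C log 32`.  Harnack (`SR2.harnack_re`, `SR2.deriv_le_re` in SR2/AHar) for `Hh + C ≥ 0`. -/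

theorem wd_bdd {C η : ℝ} (hC : 1 ≤ C) (hη : 0 < η) : ∃ C₁ ρ₁ : ℝ, 1 ≤ C₁ ∧ 1 ≤ ρ₁ ∧ ∀ (κ : Type) [Fintype κ] (ζ : κ → ℂ) (s : κ → ℝ) (M : κ → Fin 2 → ℕ)
    (h : Fin 2 → ℂ → ℂ) (z₀ : ℂ) (ρ K : ℝ), Wd ζ s M h z₀ ρ C η K → 2 ≤ K → ρ₁ ≤ ρ → ∀ i, ∀ z ∈ ball z₀ (3 * ρ / 4),
      -C ≤ Hh M h ρ i z ∧ Hh M h ρ i z ≤ C₁ * ρ ∧ ‖deriv (h i) z‖ ≤ C₁ := by
  sorry

/-! ## CNum: the number of wells near a well.  At a point `z` of the rim of the hole `k`: `∑ M j i log (2 ρ / ‖z - ζ j‖) = Hh i z - sg i z ≤ C₁ ρ + C`, all terms `≥ 0`. -/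

theorem wd_num {C η : ℝ} (hC : 1 ≤ C) (hη : 0 < η) : ∃ C₁ ρ₁ : ℝ, 1 ≤ C₁ ∧ 1 ≤ ρ₁ ∧ ∀ (κ : Type) [Fintype κ] (ζ : κ → ℂ) (s : κ → ℝ) (M : κ → Fin 2 → ℕ)
    (h : Fin 2 → ℂ → ℂ) (z₀ : ℂ) (ρ K : ℝ), Wd ζ s M h z₀ ρ C η K → 2 ≤ K → ρ₁ ≤ ρ → ∀ k, ζ k ∈ ball z₀ (5 * ρ / 8) → ∀ t : ℝ, s k ≤ t → t ≤ ρ / 8 →
      ((Finset.univ.filter fun j => ‖ζ j - ζ k‖ ≤ t).card : ℝ) * Real.log (ρ / t) ≤ C₁ * ρ := by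
  sorry

/-! ## CDir: all wells near `z₀` have parallel vectors `M k`.
PROOF.  Otherwise take among the non parallel pairs `(j, k)` with `ζ j ∈ ball z₀ (ρ / 2)` the one with the smallest `‖ζ j - ζ k‖ / (ρ / 2 - ‖ζ j - z₀‖)` (at most
`5 δ₁`); call it `(0, 1)`, `R₀ = ‖ζ 0 - ζ 1‖ ≤ 3 δ₁ ρ`.  Every non parallel pair `(j, k)` with `‖ζ j - ζ 0‖ ≤ R₀` has `‖ζ j - ζ k‖ ≥ R₀ / 2`.  So the wells in
`ball (ζ 0) (R₀ / 2)` are parallel to `a = M 0`, those in `ball (ζ 1) (R₀ / 2)` to `b = M 1`.  For a point `z` of the rim of `0`, `|sg i z| ≤ C`: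
`A i := Hh i z - ∑_j M j i log (2 ρ / max ‖z - ζ j‖ R₀) = sg i z + ∑_(‖z - ζ j‖ < R₀) M j i log (R₀ / ‖z - ζ j‖)`; the terms with `R₀ / 4 ≤ ‖z - ζ j‖ < R₀` are at most
`log 4` each, the others are multiples of `a`: `A = α a + O (C + n)`, `α ≥ log (R₀ / s 0)`, `n` = number of wells in `ball (ζ 0) (2 R₀)`.  The same for `z'` on the rim
of `1`: `A' = α' b + O (C + n)`.  `|A - A'| ≤ |Hh z - Hh z'| + ∑_j C |log (max ‖z - ζ j‖ R₀ / max ‖z' - ζ j‖ R₀)| ≤ C₁ R₀ + C' ∑_j min 1 (R₀ / ‖ζ j - ζ 0‖)`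
`≤ C₂ (1 + ρ / log (ρ / R₀))` by `wd_num` (dyadic in `‖ζ j - ζ 0‖ = 2 ^ l R₀`; `R₀ ≤ ρ / log (ρ / R₀)` up to constants).  `a`, `b` are integer vectors bounded by `C`,
not parallel: `|α a - α' b| ≥ c α`.  So `log (R₀ / s 0) ≤ C₃ (1 + ρ / log (ρ / R₀))`.  If `R₀ ≥ exp (- η ρ / 2)`: `η ρ / 2 ≤ C₃ (1 + ρ / log (ρ / R₀))`, so
`R₀ ≥ exp (- C₄) ρ`: excluded by `R₀ ≤ 3 δ₁ ρ`, `δ₁` small.  If `R₀ < exp (- η ρ / 2)`: `log (R₀ / s 0) ≤ C₃ (1 + 2 / η)`: excluded by the separation `K ≥ K₁`. -/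

theorem wd_dir {C η : ℝ} (hC : 1 ≤ C) (hη : 0 < η) : ∃ K₁ δ₁ ρ₁ : ℝ, 0 < δ₁ ∧ δ₁ ≤ 1 / 8 ∧ ∀ (κ : Type) [Fintype κ] (ζ : κ → ℂ) (s : κ → ℝ)
    (M : κ → Fin 2 → ℕ) (h : Fin 2 → ℂ → ℂ) (z₀ : ℂ) (ρ K : ℝ), Wd ζ s M h z₀ ρ C η K → K₁ ≤ K → ρ₁ ≤ ρ → ∀ j k, ζ j ∈ ball z₀ (δ₁ * ρ) →
      ζ k ∈ ball z₀ (δ₁ * ρ) → M j 0 * M k 1 = M j 1 * M k 0 := by
  sorry

/-! ## CPig: a circle of exponentially small radius around a well on which `sl` is almost `μ a / (z - ζ k)`.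
PROOF.  `wd_num`: at most `N₁ = 2 C₁ / θ` wells in `ball (ζ k) (exp (- θ ρ / 2))`.  Pigeonhole: among the `N₁ + 1` circles of radii `t l = A ^ (2 l + 2) * exp (- θ ρ)`
there is one with no well in `t / A ≤ ‖z - ζ k‖ ≤ A t`.  The wells with `‖ζ j - ζ k‖ ≤ t / A` give `μ a / (z - ζ k)` up to `N₁ C 2 / (A t)`, `μ i = ∑ M j i` over them (it
contains `k`); those with `A t ≤ ‖ζ j - ζ k‖ ≤ exp (- θ ρ / 2)` at most `N₁ C 2 / (A t)`; the others at most `C ρ C 2 exp (θ ρ / 2)`, `deriv (h i)` at most `C₁`. -/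

theorem wd_pig {C η : ℝ} (hC : 1 ≤ C) (hη : 0 < η) {θ ε : ℝ} (hθ : 0 < θ) (hθη : θ < η) (hε : 0 < ε) : ∃ ρ₁ N₁ : ℝ, ∀ (κ : Type) [Fintype κ] (ζ : κ → ℂ)
    (s : κ → ℝ) (M : κ → Fin 2 → ℕ) (h : Fin 2 → ℂ → ℂ) (z₀ : ℂ) (ρ K : ℝ), Wd ζ s M h z₀ ρ C η K → 2 ≤ K → ρ₁ ≤ ρ → ∀ k, ζ k ∈ ball z₀ (ρ / 2) →
      ∃ (t : ℝ) (μ : Fin 2 → ℕ), Real.exp (-(θ * ρ)) ≤ t ∧ t ≤ Real.exp (-(θ * ρ / 2)) ∧ (∀ i, 1 ≤ μ i ∧ (μ i : ℝ) ≤ N₁) ∧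
        (μ = fun i => ∑ j ∈ Finset.univ.filter (fun j => ‖ζ j - ζ k‖ < t), M j i) ∧
        ∀ z, ‖z - ζ k‖ = t → (∀ j, t / 2 ≤ ‖z - ζ j‖) ∧ ∀ i, ‖sl ζ M h i z - (μ i : ℂ) / (z - ζ k)‖ ≤ ε / t := by
  sorry

/-! ## CLin: a binary form is a power of the linear form `Lf a` times a form which does not vanish at `a` (induction on `m`: a homogeneous `P` with `P (a) = 0` is
divisible by `Lf a`, because `a 1 ^ m * P = P (a 0 X 1 , a 1 X 1) = 0` modulo `Lf a`). -/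

theorem lin_factor {m : ℕ} {P : MvPolynomial (Fin 2) ℂ} (hP : P.IsHomogeneous m) (h0 : P ≠ 0) (a : Fin 2 → ℕ) (ha : a 1 ≠ 0) :
    ∃ (e : ℕ) (P' : MvPolynomial (Fin 2) ℂ), e ≤ m ∧ P'.IsHomogeneous (m - e) ∧ P = Lf a ^ e * P' ∧ MvPolynomial.eval (fun i => (a i : ℂ)) P' ≠ 0 := by
  sorry

/-! ## CPur: the residue polynomial is a pure power.
PROOF.  Let `a = M k`, `P = L ^ e * P'`, `L = Lf a`, `P' (a) ≠ 0`, `deg P' = m - e`; suppose `e < m`.  `wd_dir`: on `ball z₀ (δ₁ ρ)` all wells are parallel to `a`, so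
`ℓ = a 1 sl 0 - a 0 sl 1` is holomorphic on `ball z₀ (δ₁ ρ / 2)` (the poles cancel; the wells outside `ball z₀ (δ₁ ρ)` give at most `C ρ C 2 / (δ₁ ρ / 2)`) and bounded by `C₂`.
On the circle of `wd_pig` (`θ`, `ε` small): `μ = μ' a`, `sl = μ / (z - z₀) + E`, `|E| ≤ ε / t`, so `P' (sl) = P' (μ) (z - z₀) ^ (- (m - e)) (1 + O (ε))` and
`ℓ ^ e P' (sl) = q + O (θ)`: `ℓ ^ e / (z - z₀) ^ (m - e) = q / P' (μ) (1 + O (ε + θ))`, `|q / P' (μ)| ≥ c₁`.  So the Taylor coefficient of `ℓ ^ e` of order `m - e` at `z₀` is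
at least `c₁ / 2`; by Cauchy on the circle of radius `δ₁ ρ / 4` it is at most `C₂ ^ e (4 / (δ₁ ρ)) ^ (m - e)`: contradiction for large `ρ`.  The bounds are uniform: finitely
many `a`, `μ` (`μ i ≤ N₁`). -/

theorem wd_pure {C η : ℝ} (hC : 1 ≤ C) (hη : 0 < η) {m : ℕ} (hm : 1 ≤ m) {P : MvPolynomial (Fin 2) ℂ} (hP : P.IsHomogeneous m) {c : ℝ} (hc : 0 < c) :
    ∃ K₁ θ₀ : ℝ, 0 < θ₀ ∧ ∀ θ : ℝ, 0 < θ → θ ≤ θ₀ → ∃ ρ₁ : ℝ, ∀ (κ : Type) [Fintype κ] (ζ : κ → ℂ) (s : κ → ℝ) (M : κ → Fin 2 → ℕ) (h : Fin 2 → ℂ → ℂ)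
      (z₀ : ℂ) (ρ K : ℝ), Wd ζ s M h z₀ ρ C η K → K₁ ≤ K → ρ₁ ≤ ρ → ∀ q : ℂ, c ≤ ‖q‖ → ‖q‖ ≤ C →
        (∀ z ∈ ball z₀ (ρ / 2), (∀ k, Real.exp (-(θ * ρ)) / 2 ≤ ‖z - ζ k‖) → ‖MvPolynomial.eval (fun i => sl ζ M h i z) P - q‖ ≤ θ) →
          ∀ k, ζ k = z₀ → ∃ b : ℂ, b ≠ 0 ∧ P = MvPolynomial.C b * Lf (M k) ^ m := by
  sorry

/-! ## CAff: the pure case.
PROOF.  `ℓ = a 1 sl 0 - a 0 sl 1 = a 1 deriv (h 0) - a 0 deriv (h 1)` is holomorphic on the ball, `|b ℓ ^ m - q| ≤ θ'` off the tiny discs, so (maximum principle; choose a circle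
of radius between `(1 - θ) ρ` and `(1 - θ / 2) ρ` which meets no tiny disc) everywhere on `ball z₀ ((1 - θ) ρ)`; connected, so `ℓ` is within `θ''` of ONE root `l` of `b l ^ m = q`.
So `a 1 h 0 - a 0 h 1 = const + l (z - z₀) + O (θ'' ρ)` and `Re const = O (1)`: at a point of the rim of the hole at `z₀`, `|sg i| ≤ C`, and
`a 1 sg 0 - a 0 sg 1 = Re (a 1 h 0 - a 0 h 1)` because `a 1 M k 0 = a 0 M k 1`. -/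

theorem wd_aff {C η : ℝ} (hC : 1 ≤ C) (hη : 0 < η) {m : ℕ} (hm : 1 ≤ m) (a : Fin 2 → ℕ) {b : ℂ} (hb : b ≠ 0) {c : ℝ} (hc : 0 < c) {θ : ℝ} (hθ : 0 < θ) :
    ∃ θ₀ : ℝ, 0 < θ₀ ∧ ∀ θ' : ℝ, 0 < θ' → θ' ≤ θ₀ → ∃ ρ₁ : ℝ, ∀ (κ : Type) [Fintype κ] (ζ : κ → ℂ) (s : κ → ℝ) (M : κ → Fin 2 → ℕ) (h : Fin 2 → ℂ → ℂ)
      (z₀ : ℂ) (ρ K : ℝ), Wd ζ s M h z₀ ρ C η K → 2 ≤ K → ρ₁ ≤ ρ → (∀ k, M k 0 * a 1 = M k 1 * a 0) → ∀ q : ℂ, c ≤ ‖q‖ → ‖q‖ ≤ C →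
        (∀ z ∈ ball z₀ ρ, (∀ k, Real.exp (-(θ' * ρ)) / 2 ≤ ‖z - ζ k‖) → ‖b * ((a 1 : ℂ) * sl ζ M h 0 z - (a 0 : ℂ) * sl ζ M h 1 z) ^ m - q‖ ≤ θ') →
          (∃ k, ζ k = z₀) → ∃ l : ℂ, c ≤ 2 * ‖b‖ * ‖l‖ ^ m ∧ ∀ z ∈ ball z₀ ((1 - θ) * ρ), (∀ k, s k ≤ ‖z - ζ k‖) →
            |(a 1 : ℝ) * sg ζ M h 0 z - (a 0 : ℝ) * sg ζ M h 1 z - (l * (z - z₀)).re| ≤ θ * ρ := by
  sorry

/-! ## CRes: restriction to a smaller disc whose boundary meets no hole.  `h' i = h i + ∑ M k i log (z - ζ k)` over the wells outside (a branch of the logarithm on the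
convex set `ball z₁ ρ₁`); a hole meets the ball iff its centre lies in it. -/

theorem wd_restrict {ζ : κ → ℂ} {s : κ → ℝ} {M : κ → Fin 2 → ℕ} {h : Fin 2 → ℂ → ℂ} {z₀ : ℂ} {ρ C η K : ℝ} (W : Wd ζ s M h z₀ ρ C η K) (hC : 1 ≤ C) (hη : 0 < η)
    (hK : 2 ≤ K) {z₁ : ℂ} {ρ₁ A : ℝ} (hρ₁ : 0 < ρ₁) (hb : ball z₁ ρ₁ ⊆ ball z₀ ρ) (hA : 1 ≤ A) (hρA : ρ ≤ A * ρ₁) (hl : ρ₁ ≤ ρ)
    (hm : ∀ k, ρ₁ + s k < ‖ζ k - z₁‖ ∨ ‖ζ k - z₁‖ + s k < ρ₁) :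
    ∃ (κ' : Type) (_ : Fintype κ') (e : κ' → κ) (h' : Fin 2 → ℂ → ℂ), Function.Injective e ∧ (∀ k, ζ k ∈ ball z₁ ρ₁ ↔ ∃ k', e k' = k) ∧
      Wd (ζ ∘ e) (s ∘ e) (M ∘ e) h' z₁ ρ₁ (A * C) η K ∧ ∀ i, ∀ z ∈ ball z₁ ρ₁, (∀ k, s k ≤ ‖z - ζ k‖) →
        sg (ζ ∘ e) (M ∘ e) h' i z = sg ζ M h i z ∧ sl (ζ ∘ e) (M ∘ e) h' i z = sl ζ M h i z := by
  sorry

/-- a circle which meets no hole -/
theorem good_circle {ζ : κ → ℂ} {s : κ → ℝ} (hs : ∀ k, 0 ≤ s k) {z₁ : ℂ} {r₁ r₂ : ℝ} (h : 2 * ∑ k, s k < r₂ - r₁) :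
    ∃ r : ℝ, r₁ ≤ r ∧ r ≤ r₂ ∧ ∀ k, r + s k < ‖ζ k - z₁‖ ∨ ‖ζ k - z₁‖ + s k < r := by
  sorry

/-! ## CLowA: a point near a well, but not too near.
PROOF.  Let `ζ k` be the well nearest to `z`, `t = ‖z - ζ k‖`, `exp (- θ ρ) ≤ t ≤ δ ρ`, `z'` a point of the rim of the hole `k`.  `sg i z - sg i z' = Hh i z - Hh i z' +
∑_j M j i log (‖z - ζ j‖ / ‖z' - ζ j‖)`; the term `j = k` is `M k i log (t / s k) ≥ (η - θ) ρ`; for the others `‖z - ζ j‖ ≥ t`, `‖z' - ζ j‖ ≤ ‖z - ζ j‖ + 2 t`, so the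
term is at least `- C min (log 3) (2 t / ‖z - ζ j‖)`; by `wd_num` (dyadic, as in `wd_dir`) their sum is at least `- C₂ ρ / log (1 / δ) - C₂ t`; `|Hh i z - Hh i z'| ≤ 2 C₁ t`. -/

theorem wd_lowA {C η : ℝ} (hC : 1 ≤ C) (hη : 0 < η) : ∃ δ c θ ρ₁ : ℝ, 0 < δ ∧ δ ≤ 1 / 8 ∧ 0 < c ∧ 0 < θ ∧ ∀ (κ : Type) [Fintype κ] (ζ : κ → ℂ) (s : κ → ℝ)
    (M : κ → Fin 2 → ℕ) (h : Fin 2 → ℂ → ℂ) (z₀ : ℂ) (ρ K : ℝ), Wd ζ s M h z₀ ρ C η K → 2 ≤ K → ρ₁ ≤ ρ → ∀ z ∈ ball z₀ (ρ / 8),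
      (∀ k, Real.exp (-(θ * ρ)) ≤ ‖z - ζ k‖) → (∃ k, ‖z - ζ k‖ ≤ δ * ρ) → ∀ i, c * ρ ≤ sg ζ M h i z := by
  sorry

/-! ## CLow: every point which is not too near to a well.
PROOF.  Let `z ∈ ball z₀ ((1 - ε) ρ)`.  If a well is at distance at most `δ' ρ`: `wd_lowA` for the restriction to a disc about `z` of radius between `ε ρ / 4` and `ε ρ / 2`
(`good_circle`, `wd_restrict`, constant `4 C / ε`).  If not, go from `z` on the segment to `z₀` (a well) to the first point `z'` at distance `δ' ρ` from a well; before it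
`sg i + C ≥ 0` is harmonic on the discs of radius `min δ' ε ρ` about the points of the segment: Harnack, at most `2 / min δ' ε + 2` steps. -/

theorem wd_low {C η ε : ℝ} (hC : 1 ≤ C) (hη : 0 < η) (hε : 0 < ε) : ∃ c θ ρ₁ : ℝ, 0 < c ∧ 0 < θ ∧ ∀ (κ : Type) [Fintype κ] (ζ : κ → ℂ) (s : κ → ℝ)
    (M : κ → Fin 2 → ℕ) (h : Fin 2 → ℂ → ℂ) (z₀ : ℂ) (ρ K : ℝ), Wd ζ s M h z₀ ρ C η K → 2 ≤ K → ρ₁ ≤ ρ → (∃ k, ζ k = z₀) →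
      ∀ z ∈ ball z₀ ((1 - ε) * ρ), (∀ k, Real.exp (-(θ * ρ)) ≤ ‖z - ζ k‖) → ∀ i, c * ρ ≤ sg ζ M h i z := by
  sorry

/-! ## CMac: the end of the function theory.  `P` is pure: `wd_pure` for the restriction to a disc about every well `ζ k`, `‖ζ k - z₀‖ ≤ (1 - 3 ε / 4) ρ` (radius about
`ε ρ / 8`, `wd_restrict`, `good_circle`): `P = C b * Lf (M k) ^ m`, so the vectors `M k` are parallel; `wd_aff` for the restriction to a disc of radius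
between `(1 - 7 ε / 8) ρ` and `(1 - 3 ε / 4) ρ`; divide by `a 0 + a 1`.  `c₁ = (c / (2 ‖b‖ (a 0 + a 1) ^ m)) ^ (1 / m)` depends only on `P`, `c` (not on the choice of `b`, `a`
with `P = C b * Lf a ^ m`). -/

theorem wd_macro {m : ℕ} (hm : 1 ≤ m) {P : MvPolynomial (Fin 2) ℂ} (hP : P.IsHomogeneous m) {c : ℝ} (hc : 0 < c) : ∃ c₁ : ℝ, 0 < c₁ ∧
    ∀ C η ε : ℝ, 1 ≤ C → 0 < η → 0 < ε → ∃ K₁ θ₀ : ℝ, 0 < θ₀ ∧ ∀ θ : ℝ, 0 < θ → θ ≤ θ₀ → ∃ ρ₁ : ℝ, ∀ (κ : Type) [Fintype κ] (ζ : κ → ℂ) (s : κ → ℝ)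
      (M : κ → Fin 2 → ℕ) (h : Fin 2 → ℂ → ℂ) (z₀ : ℂ) (ρ K : ℝ), Wd ζ s M h z₀ ρ C η K → K₁ ≤ K → ρ₁ ≤ ρ → ∀ q : ℂ, c ≤ ‖q‖ → ‖q‖ ≤ C →
        (∀ z ∈ ball z₀ ((1 - ε / 2) * ρ), (∀ k, Real.exp (-(θ * ρ)) ≤ ‖z - ζ k‖) → ‖MvPolynomial.eval (fun i => sl ζ M h i z) P - q‖ ≤ θ) →
          (∃ k, ζ k = z₀) → ∃ l : ℂ, c₁ ≤ ‖l‖ ∧ ∀ z ∈ ball z₀ ((1 - ε) * ρ), (∀ k, s k ≤ ‖z - ζ k‖) →
            |(l * (z - z₀)).re| ≤ |sg ζ M h 0 z| + |sg ζ M h 1 z| + ε * ρ := by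
  sorry

end Stub

end Pool.Agent.SR3
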