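import Mathlib

/-!
# SR3 HolA: a good radius (helper21)
-/

set_option autoImplicit false

open Topology Filter Metric MeasureTheory

noncomputable section

namespace Pool.Agent.SR3

theorem exists_rad (t : Finset ℂ) (τ : ℂ → ℝ) (w : ℂ) {a b : ℝ} (h0 : ∀ k ∈ t, 0 ≤ τ k) (hs : 2 * ∑ k ∈ t, τ k < b - a) :
    ∃ ρ, a < ρ ∧ ρ < b ∧ ∀ k ∈ t, ∀ ζ, ‖ζ - w‖ = ρ → τ k ≤ ‖ζ - k‖ := by
  by_contra hcon
  push Not at hcon
  have hsub : Set.Ioo a b ⊆ ⋃ k ∈ t, Set.Ioo (‖k - w‖ - τ k) (‖k - w‖ + τ k) := by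
    intro ρ hρ
    obtain ⟨k, hk, ζ, hζ, hlt⟩ := hcon ρ hρ.1 hρ.2
    rw [Set.mem_iUnion₂]
    refine ⟨k, hk, ?_, ?_⟩
    · have h1 : ‖k - w‖ ≤ ‖ζ - w‖ + ‖ζ - k‖ := by
        have : k - w = (ζ - w) - (ζ - k) := by ring
        rw [this]; exact norm_sub_le _ _
      linarith
    · have h1 : ‖ζ - w‖ ≤ ‖k - w‖ + ‖ζ - k‖ := by
        have : ζ - w = (k - w) + (ζ - k) := by ring
        rw [this]; exact norm_add_le _ _
      linarith
  have h1 := measure_mono (μ := volume) hsub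
  have h2 : volume (⋃ k ∈ t, Set.Ioo (‖k - w‖ - τ k) (‖k - w‖ + τ k)) ≤ ∑ k ∈ t, ENNReal.ofReal (2 * τ k) := by
    refine (measure_biUnion_finset_le t _).trans (Finset.sum_le_sum fun k _ => ?_)
    rw [Real.volume_Ioo]
    refine le_of_eq (congrArg _ ?_)
    ring
  rw [← ENNReal.ofReal_sum_of_nonneg (fun k hk => by have := h0 k hk; positivity)] at h2
  rw [Real.volume_Ioo] at h1
  have h3 := h1.trans h2
  rw [ENNReal.ofReal_le_ofReal_iff (Finset.sum_nonneg fun k hk => by have := h0 k hk; positivity), ← Finset.mul_sum] at h3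
  linarith

end Pool.Agent.SR3
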