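import Pool.Agent.SR3.GDefs
import Pool.Agent.SR3.HolA

/-!
# SR3 Circ: circles which avoid the holes, and the winding numbers on the rims

`exists_good_circle`: a circle about `w`, of radius between `r / 2` and `r`, whose points are `Far`; the holes inside lie well inside; the closed disc meets only these.
`wnd_circle`: the winding number of a rim in the original variable.
-/

set_option autoImplicit false

open Topology Filter Metric

noncomputable section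

namespace Pool.Agent.SR3

open Pool.Agent.H36.BP (EN fs wd Sub OrdTwo)
open Pool.Agent.H62.EF (MN pr)
open Pool.Agent.G3 (LLift)

variable {N : ℕ} {G : Geo N}

/-- the radial projection of `a` to a circle -/
theorem exists_radial (w a : ℂ) {ρ : ℝ} (hρ : 0 < ρ) : ∃ ζ, ‖ζ - w‖ = ρ ∧ ‖ζ - a‖ = |ρ - ‖a - w‖| := by
  by_cases h : a = w
  · refine ⟨w + ρ, ?_, ?_⟩
    · rw [add_sub_cancel_left, Complex.norm_real, Real.norm_of_nonneg hρ.le]
    · rw [h, add_sub_cancel_left, sub_self, norm_zero, sub_zero, Complex.norm_real, Real.norm_eq_abs]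
  · have hm : 0 < ‖a - w‖ := norm_pos_iff.2 (sub_ne_zero.2 h)
    refine ⟨w + ((ρ / ‖a - w‖ : ℝ) : ℂ) * (a - w), ?_, ?_⟩
    · rw [add_sub_cancel_left, norm_mul, Complex.norm_real, Real.norm_of_nonneg (by positivity), div_mul_cancel₀ _ hm.ne']
    · have h1 : w + ((ρ / ‖a - w‖ : ℝ) : ℂ) * (a - w) - a = ((ρ / ‖a - w‖ - 1 : ℝ) : ℂ) * (a - w) := by
        push_cast
        ring
      rw [h1, norm_mul, Complex.norm_real, Real.norm_eq_abs]
      have h2 : |ρ / ‖a - w‖ - 1| * ‖a - w‖ = |(ρ / ‖a - w‖ - 1) * ‖a - w‖| := by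
        rw [abs_mul, abs_of_pos hm]
      rw [h2, sub_mul, div_mul_cancel₀ _ hm.ne', one_mul]

/-- a circle which avoids the holes -/
theorem exists_good_circle {t : Finset ℂ} {s : ℂ → ℝ} {w : ℂ} {R r : ℝ} (hr : 0 < r) (hrR : 2 * r ≤ R) (hr1 : r ≤ 1 / 2) (hs : ∀ a ∈ t, 0 < s a)
    (hsm : 4 * ∑ a ∈ t.filter (fun a => ‖a - w‖ < R), √(s a) < r) (hfar : ∀ a ∈ t, R ≤ ‖a - w‖ → ‖a - w‖ < 2 → √(s a) ≤ R / 2)
    (hout : ∀ a ∈ t, R ≤ ‖a - w‖ → s a ≤ ‖a - w‖ / 2) :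
    ∃ ρ, r / 2 < ρ ∧ ρ < r ∧ (∀ ζ, ‖ζ - w‖ = ρ → Far t s ζ) ∧ (∀ a ∈ t, ‖a - w‖ < ρ → ‖a - w‖ + 2 * s a < ρ) ∧
      (∀ ζ ∈ closedBall w ρ, Off (t.filter (fun a => ‖a - w‖ < ρ)) s ζ → Off t s ζ) ∧ ∀ ζ, ‖ζ - w‖ = ρ → Off t s ζ := by
  obtain ⟨ρ, h1, h2, h3⟩ := exists_rad (t.filter (fun a => ‖a - w‖ < R)) (fun a => √(s a)) w (a := r / 2) (b := r) (fun k _ => Real.sqrt_nonneg _) (by linarith)
  have hρ : 0 < ρ := by linarith
  have hle : ∀ a ∈ t, ‖a - w‖ < R → √(s a) ≤ r / 4 := by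
    intro a ha haR
    have h4 : √(s a) ≤ ∑ a ∈ t.filter (fun a => ‖a - w‖ < R), √(s a) :=
      Finset.single_le_sum (f := fun a => √(s a)) (fun a _ => Real.sqrt_nonneg _) (Finset.mem_filter.2 ⟨ha, haR⟩)
    linarith
  -- the radial distance of the near holes
  have hrad : ∀ a ∈ t, ‖a - w‖ < R → √(s a) ≤ |ρ - ‖a - w‖| := by
    intro a ha haR
    obtain ⟨ζ, h4, h5⟩ := exists_radial w a hρ
    rw [← h5]
    exact h3 a (Finset.mem_filter.2 ⟨ha, haR⟩) ζ h4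
  have hsq : ∀ a ∈ t, ‖a - w‖ < R → 2 * s a < √(s a) := by
    intro a ha haR
    have h4 := hle a ha haR
    have h5 : 0 < √(s a) := Real.sqrt_pos.2 (hs a ha)
    have h6 : √(s a) * √(s a) = s a := Real.mul_self_sqrt (hs a ha).le
    nlinarith
  have hin : ∀ a ∈ t, ‖a - w‖ < ρ → ‖a - w‖ + 2 * s a < ρ := by
    intro a ha har
    have h4 := hrad a ha (by linarith)
    rw [abs_of_pos (by linarith)] at h4
    have h5 := hsq a ha (by linarith)
    linarith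
  have hoff : ∀ ζ ∈ closedBall w ρ, Off (t.filter (fun a => ‖a - w‖ < ρ)) s ζ → Off t s ζ := by
    intro ζ hζ ho a ha
    have hζ' : ‖ζ - w‖ ≤ ρ := mem_closedBall_iff_norm.1 hζ
    have htri : ‖a - w‖ ≤ ‖ζ - a‖ + ‖ζ - w‖ := by
      have h4 := norm_sub_le (ζ - w) (ζ - a)
      have h5 : (ζ - w) - (ζ - a) = a - w := by ring
      rw [h5] at h4
      linarith
    rcases lt_or_ge ‖a - w‖ ρ with har | har
    · exact ho a (Finset.mem_filter.2 ⟨ha, har⟩)
    · rcases lt_or_ge ‖a - w‖ R with haR | haR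
      · have h4 := hrad a ha haR
        rw [abs_of_nonpos (by linarith)] at h4
        have h5 := hsq a ha haR
        have h6 := hs a ha
        linarith
      · have h4 := hout a ha haR
        linarith
  refine ⟨ρ, h1, h2, ?_, hin, hoff, ?_⟩
  · intro ζ hζ a ha ha1
    have htri : ‖a - w‖ ≤ ‖ζ - a‖ + ‖ζ - w‖ := by
      have h4 := norm_sub_le (ζ - w) (ζ - a)
      have h5 : (ζ - w) - (ζ - a) = a - w := by ring
      rw [h5] at h4
      linarith
    rcases lt_or_ge ‖a - w‖ R with haR | haR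
    · exact h3 a (Finset.mem_filter.2 ⟨ha, haR⟩) ζ hζ
    · have h4 := hfar a ha haR (by linarith)
      linarith
  · intro ζ hζ
    refine hoff ζ (mem_closedBall_iff_norm.2 hζ.le) fun a ha => ?_
    rw [Finset.mem_filter] at ha
    have h4 := hin a ha.1 ha.2
    have h5 := norm_sub_norm_le (ζ - w) (a - w)
    have h6 : (ζ - w) - (a - w) = ζ - a := by ring
    rw [h6] at h5
    have h7 := hs a ha.1
    linarith

/-- the circles about a point of `U`; `σ` bounds the sum of the radii `√s` of the holes near the point -/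
theorem loc_circle {Y : Finset (EN N)} {B₃ B₄ ε K ε₂ : ℝ} {𝒰 : Ultrafilter ℕ} {U : Set ℂ} {Γ : ℕ → ℂ → EN N} {t : ℕ → Finset ℂ} {s : ℕ → ℂ → ℝ} {y : ℕ → ℂ → EN N}
    (hL : G.Loc Y B₃ B₄ ε K ε₂ 𝒰 U Γ t s y) {z₁ : ℂ} (hz : z₁ ∈ U) : ∃ R : ℝ, 0 < R ∧ ∀ r : ℝ, 0 < r → r ≤ R → ∀ᶠ n in (𝒰 : Filter ℕ),
      ∃ ρ, r / 2 < ρ ∧ ρ < r ∧ (∀ ζ, ‖ζ - z₁‖ = ρ → Far (t n) (s n) ζ) ∧ (∀ a ∈ t n, ‖a - z₁‖ < ρ → ‖a - z₁‖ + 2 * s n a < ρ) ∧
        (∀ ζ ∈ closedBall z₁ ρ, Off ((t n).filter (fun a => ‖a - z₁‖ < ρ)) (s n) ζ → Off (t n) (s n) ζ) ∧ ∀ ζ, ‖ζ - z₁‖ = ρ → Off (t n) (s n) ζ := by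
  obtain ⟨R, hR, hsm⟩ := hL.small z₁ hz
  refine ⟨min (R / 2) (1 / 2), by positivity, fun r hr hrR => ?_⟩
  have h1 : r ≤ R / 2 := hrR.trans (min_le_left _ _)
  have h2 : r ≤ 1 / 2 := hrR.trans (min_le_right _ _)
  filter_upwards [hL.out_sqrt hz hR, hsm.eventually (gt_mem_nhds (show (0 : ℝ) < r / 4 by positivity))] with n h3 h4
  exact exists_good_circle hr (by linarith) h2 (hL.pos n) (by linarith) (fun a ha haR ha2 => ((h3 a ha haR).2 ha2.le).1) fun a ha haR => (h3 a ha haR).1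

/-- the change of variables in a circle integral -/
theorem circle_resc (g : ℂ → ℂ) (a : ℂ) (s : ℝ) : (∮ ζ in C(a, s), g ζ) = ∮ w in C(0, 1), (s : ℂ) * g (a + s * w) := by
  unfold circleIntegral
  refine intervalIntegral.integral_congr fun θ _ => ?_
  simp only [deriv_circleMap, smul_eq_mul]
  have h1 : a + s * circleMap 0 1 θ = circleMap a s θ := by
    unfold circleMap
    push_cast
    ring
  have h2 : circleMap 0 s θ = s * circleMap 0 1 θ := by
    unfold circleMap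
    push_cast
    ring
  rw [h1, h2]
  ring

/-- the winding number of a rim, in the original variable -/
theorem wnd_circle (G : Geo N) (Γ : ℂ → EN N) (y : EN N) (i : G.ι) (l : Fin (G.M + 1)) (a : ℂ) (s : ℝ) :
    (∮ ζ in C(a, s), (logDeriv (fun ζ => (G.E i (Γ ζ)).ofLp l) ζ - G.c i * logDeriv (fun ζ => (inner ℂ y (Γ ζ) : ℂ)) ζ)) =
      G.wnd (fun w => Γ (a + s * w)) y i l 1 := by
  have hd : ∀ (f : ℂ → ℂ) (w : ℂ), logDeriv (fun w => f (a + s * w)) w = s * logDeriv f (a + s * w) := by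
    intro f w
    rw [logDeriv_apply, logDeriv_apply]
    have h1 : deriv (fun w => f (a + s * w)) w = (s : ℂ) • deriv f (a + s * w) := by
      have h2 := deriv_comp_mul_left (s : ℂ) (fun u => f (a + u)) w
      rw [deriv_comp_const_add] at h2
      exact h2
    rw [h1, smul_eq_mul, mul_div_assoc]
  rw [circle_resc]
  unfold Geo.wnd
  congr 1
  funext w
  rw [hd (fun ζ => (G.E i (Γ ζ)).ofLp l) w, hd (fun ζ => (inner ℂ y (Γ ζ) : ℂ)) w]
  ring

end Pool.Agent.SR3
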