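import Mathlib

/-!
# SR3 Jen: Jensen's inequality for the number of zeros
-/

set_option autoImplicit false

open Topology Filter Metric

noncomputable section

namespace Pool.Agent.SR3

/-- one zero is divided out by a Blaschke factor at a time -/
private theorem jen_aux {z₀ : ℂ} {r R C : ℝ} (hr : 0 < r) (hR : r < R) (t : Finset ℂ) : ∀ f : ℂ → ℂ, Differentiable ℂ f →
    (∀ z ∈ sphere z₀ R, ‖f z‖ ≤ C) → (∀ a ∈ t, ‖a - z₀‖ ≤ r ∧ f a = 0) → ‖f z₀‖ * (R / r) ^ t.card ≤ C := by
  have hR0 : 0 < R := hr.trans hR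
  classical
  induction t using Finset.induction_on with
  | empty =>
    intro f hf hb _
    have h1 : ‖f z₀‖ ≤ C := by
      refine Complex.norm_le_of_forall_mem_frontier_norm_le (U := ball z₀ R) isBounded_ball hf.diffContOnCl ?_ ?_
      · intro z hz
        rw [frontier_ball z₀ hR0.ne'] at hz
        exact hb z hz
      · exact subset_closure (mem_ball_self hR0)
    simpa using h1
  | insert a t ha ih =>
    intro f hf hb ht
    have ha1 := ht a (Finset.mem_insert_self a t)
    by_cases h0 : a = z₀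
    · have h2 : f z₀ = 0 := by rw [← h0]; exact ha1.2
      have hC : 0 ≤ C := by
        have h3 := hb (z₀ + R) (by simp [hR0.le])
        exact (norm_nonneg _).trans h3
      rw [h2, norm_zero, zero_mul]
      exact hC
    let f₁ : ℂ → ℂ := fun z => dslope f a z * (((R : ℂ) ^ 2 - (starRingEnd ℂ) (a - z₀) * (z - z₀)) / R)
    have hd : Differentiable ℂ (dslope f a) := by
      intro z
      have h1 : DifferentiableOn ℂ (dslope f a) Set.univ := (Complex.differentiableOn_dslope Filter.univ_mem).2 hf.differentiableOn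
      exact (h1 z (Set.mem_univ z)).differentiableAt Filter.univ_mem
    have hf₁ : Differentiable ℂ f₁ := by
      refine hd.mul ?_
      fun_prop
    have hs : ∀ z, z ≠ a → dslope f a z = f z / (z - a) := by
      intro z hz
      rw [dslope_of_ne f hz, slope_def_field, ha1.2, sub_zero]
    have hb₁ : ∀ z ∈ sphere z₀ R, ‖f₁ z‖ ≤ C := by
      intro z hz
      have hzR : ‖z - z₀‖ = R := by simpa [dist_eq_norm] using hz
      have hza : z ≠ a := by
        rintro rfl
        linarith [ha1.1]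
      have h1 : ‖(R : ℂ) ^ 2 - (starRingEnd ℂ) (a - z₀) * (z - z₀)‖ = R * ‖z - a‖ := by
        have h2 : (R : ℂ) ^ 2 = (starRingEnd ℂ) (z - z₀) * (z - z₀) := by
          rw [mul_comm, Complex.mul_conj, Complex.normSq_eq_norm_sq, hzR]
          push_cast
          ring
        rw [h2, ← sub_mul, ← map_sub, norm_mul, hzR, RCLike.norm_conj, mul_comm]
        congr 2
        ring
      have h3 : 0 < ‖z - a‖ := norm_pos_iff.2 (sub_ne_zero.2 hza)
      have h4 : ‖f₁ z‖ = ‖f z‖ := by
        change ‖dslope f a z * (((R : ℂ) ^ 2 - (starRingEnd ℂ) (a - z₀) * (z - z₀)) / R)‖ = ‖f z‖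
        rw [hs z hza, norm_mul, norm_div, norm_div, h1, Complex.norm_real, Real.norm_of_nonneg hR0.le]
        field_simp
      rw [h4]
      exact hb z hz
    have ht₁ : ∀ b ∈ t, ‖b - z₀‖ ≤ r ∧ f₁ b = 0 := by
      intro b hbt
      have h1 := ht b (Finset.mem_insert_of_mem hbt)
      have h2 : b ≠ a := by
        rintro rfl
        exact ha hbt
      refine ⟨h1.1, ?_⟩
      change dslope f a b * _ = 0
      rw [hs b h2, h1.2, zero_div, zero_mul]
    have h5 := ih f₁ hf₁ hb₁ ht₁
    have h6 : ‖f z₀‖ * (R / r) ≤ ‖f₁ z₀‖ := by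
      have h7 : 0 < ‖z₀ - a‖ := norm_pos_iff.2 (sub_ne_zero.2 (Ne.symm h0))
      have h8 : ‖z₀ - a‖ ≤ r := by
        rw [norm_sub_rev]
        exact ha1.1
      have h9 : ‖f₁ z₀‖ = ‖f z₀‖ * (R / ‖z₀ - a‖) := by
        change ‖dslope f a z₀ * (((R : ℂ) ^ 2 - (starRingEnd ℂ) (a - z₀) * (z₀ - z₀)) / R)‖ = _
        rw [hs z₀ (Ne.symm h0), sub_self, mul_zero, sub_zero, norm_mul, norm_div, norm_div, norm_pow, Complex.norm_real,
          Real.norm_of_nonneg hR0.le]
        field_simp
      rw [h9]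
      exact mul_le_mul_of_nonneg_left (div_le_div_of_nonneg_left hR0.le h7 h8) (norm_nonneg _)
    rw [Finset.card_insert_of_notMem ha, pow_succ', ← mul_assoc]
    exact (mul_le_mul_of_nonneg_right h6 (pow_nonneg (div_nonneg hR0.le hr.le) _)).trans h5

/-- Jensen's inequality for the number of (distinct) zeros in a disc -/
theorem card_zeros_le {f : ℂ → ℂ} {z₀ : ℂ} {r R A : ℝ} (hr : 0 < r) (hR : r < R) (hf : Differentiable ℂ f) (h0 : f z₀ ≠ 0)
    (hb : ∀ z ∈ closedBall z₀ R, ‖f z‖ ≤ Real.exp A) (t : Finset ℂ) (ht : ∀ a ∈ t, ‖a - z₀‖ ≤ r ∧ f a = 0) :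
    (t.card : ℝ) * Real.log (R / r) ≤ A - Real.log ‖f z₀‖ := by
  have h1 := jen_aux hr hR t f hf (fun z hz => hb z (sphere_subset_closedBall hz)) ht
  have h2 : 0 < ‖f z₀‖ := norm_pos_iff.2 h0
  have h3 : 0 < (R / r) ^ t.card := pow_pos (div_pos (hr.trans hR) hr) _
  have h4 := Real.log_le_log (mul_pos h2 h3) h1
  rw [Real.log_exp, Real.log_mul h2.ne' h3.ne', Real.log_pow] at h4
  linarith

end Pool.Agent.SR3
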