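import Pool.Agent.SR3.GDefs
import Pool.Agent.SR3.Jen
import Pool.Agent.SR3.AGrw

/-!
# SR3 Cnt: the number of holes

The zeros of `F l - 2 exp B₃` near the holes; Jensen's inequality (`card_zeros_le`) with a hole as centre, and `growth`.
-/

set_option autoImplicit false

open Topology Filter Metric

noncomputable section

namespace Pool.Agent.SR3

open Pool.Agent.H36.BP (EN fs wd Sub OrdTwo)
open Pool.Agent.H14.PP (IsCone Tan)
open Pool.Agent.SY (Ent)
open Pool.Agent.SDA (EnergyK Near AffOpen Nm nForms)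
open Pool.Agent.H62.EF (MN pr)
open Geo (Gd)

variable {N : ℕ} {G : Geo N} {T : Set (EN N)} {rho : EN N → ℝ} {M : ℕ} {c₀ C δ : ℝ} {g : (ℂ → EN N) → ℂ → ℝ}

private lemma coord_diff {F : ℂ → EN N} (hF : Differentiable ℂ F) (l : Fin (N + 1)) : Differentiable ℂ fun z => (F z).ofLp l :=
  (EuclideanSpace.proj (𝕜 := ℂ) l).differentiable.comp hF

private lemma coord_le (x : EN N) (l : Fin (N + 1)) : ‖x.ofLp l‖ ≤ ‖x‖ := PiLp.norm_apply_le x l

private lemma cnt_aux {F : ℂ → EN N} (hF : Differentiable ℂ F) {a : ℂ} {r R A B : ℝ} (hr : 0 < r) (hR : r < R) (hA : 0 ≤ A) (h0 : ‖F a‖ ≤ Real.exp B)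
    (hb : ∀ z ∈ closedBall a R, ‖F z‖ ≤ Real.exp A) (u : Finset ℂ) (s : ℂ → ℝ) (hsep : ∀ b ∈ u, ∀ c ∈ u, b ≠ c → max (s b) (s c) < ‖b - c‖)
    (hz : ∀ b ∈ u, ∃ (l : Fin (N + 1)) (ζ : ℂ), ‖ζ - b‖ < s b / 2 ∧ ‖ζ - a‖ ≤ r ∧ (F ζ).ofLp l = 2 * (Real.exp B : ℝ)) :
    (u.card : ℝ) * Real.log (R / r) ≤ (N + 1) * (A + 2 * |B| + 2) := by
  classical
  choose! l ζ h1 h2 h3 using hz
  have hinj : ∀ b ∈ u, ∀ c ∈ u, ζ b = ζ c → b = c := by
    intro b hb' c hc h
    by_contra hbc
    have h4 := hsep b hb' c hc hbc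
    have h5 : ‖b - c‖ ≤ ‖ζ b - b‖ + ‖ζ c - c‖ := by
      have h6 : b - c = (ζ c - c) - (ζ b - b) := by rw [h]; ring
      rw [h6]
      exact (norm_sub_le _ _).trans (by rw [add_comm])
    have h7 := h1 b hb'
    have h8 := h1 c hc
    have h9 := le_max_left (s b) (s c)
    have h10 := le_max_right (s b) (s c)
    linarith
  have hexp : Real.exp B ≤ Real.exp (A + |B|) := Real.exp_le_exp.2 (by have := le_abs_self B; linarith)
  have hone : ∀ k : Fin (N + 1), ((u.filter fun b => l b = k).card : ℝ) * Real.log (R / r) ≤ A + 2 * |B| + 2 := by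
    intro k
    have h4 : (u.filter fun b => l b = k).card = ((u.filter fun b => l b = k).image ζ).card := by
      rw [Finset.card_image_of_injOn]
      intro b hb' c hc h
      have hb'' := (Finset.mem_filter.1 (Finset.mem_coe.1 hb')).1
      have hc'' := (Finset.mem_filter.1 (Finset.mem_coe.1 hc)).1
      exact hinj b hb'' c hc'' h
    have h5 : Real.exp B ≤ ‖(F a).ofLp k - 2 * ((Real.exp B : ℝ) : ℂ)‖ := by
      have h6 : ‖(2 * ((Real.exp B : ℝ) : ℂ))‖ = 2 * Real.exp B := by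
        rw [norm_mul, Complex.norm_real, Real.norm_eq_abs, abs_of_pos (Real.exp_pos _)]
        norm_num
      have h7 := norm_sub_norm_le (2 * ((Real.exp B : ℝ) : ℂ)) ((F a).ofLp k)
      rw [h6, norm_sub_rev] at h7
      have h8 := (coord_le (F a) k).trans h0
      linarith
    have h9 : B ≤ Real.log ‖(F a).ofLp k - 2 * ((Real.exp B : ℝ) : ℂ)‖ := by
      rw [Real.le_log_iff_exp_le (lt_of_lt_of_le (Real.exp_pos _) h5)]
      exact h5
    rw [h4]
    have h10 := card_zeros_le (f := fun z => (F z).ofLp k - 2 * ((Real.exp B : ℝ) : ℂ)) (z₀ := a) (r := r) (R := R) (A := A + |B| + 2) hr hR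
      ((coord_diff hF k).sub_const _) (fun h => by
        have h11 : ‖(F a).ofLp k - 2 * ((Real.exp B : ℝ) : ℂ)‖ = 0 := by rw [h, norm_zero]
        have := Real.exp_pos B
        linarith) (fun z hz => by
        have h12 := (coord_le (F z) k).trans (hb z hz)
        have h13 := norm_sub_le ((F z).ofLp k) (2 * ((Real.exp B : ℝ) : ℂ))
        have h6 : ‖(2 * ((Real.exp B : ℝ) : ℂ))‖ = 2 * Real.exp B := by
          rw [norm_mul, Complex.norm_real, Real.norm_eq_abs, abs_of_pos (Real.exp_pos _)]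
          norm_num
        have h14 : Real.exp A ≤ Real.exp (A + |B|) := Real.exp_le_exp.2 (by have := abs_nonneg B; linarith)
        have h15 : Real.exp (A + |B| + 2) = Real.exp (A + |B|) * Real.exp 2 := Real.exp_add _ _
        have h16 : (3 : ℝ) ≤ Real.exp 2 := by
          have := Real.add_one_le_exp (2 : ℝ)
          linarith
        have h17 := mul_le_mul_of_nonneg_left h16 (Real.exp_pos (A + |B|)).le
        rw [h6] at h13
        rw [h15]
        linarith) ((u.filter fun b => l b = k).image ζ) (fun w hw => by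
        obtain ⟨b, hb', rfl⟩ := Finset.mem_image.1 hw
        obtain ⟨hb1, hb2⟩ := Finset.mem_filter.1 hb'
        refine ⟨h2 b hb1, ?_⟩
        have h11 := h3 b hb1
        rw [hb2] at h11
        simp only
        rw [h11, sub_self])
    have h18 := neg_abs_le B
    linarith
  have hsum : u.card = ∑ k : Fin (N + 1), (u.filter fun b => l b = k).card :=
    Finset.card_eq_sum_card_fiberwise (fun b _ => Finset.mem_coe.2 (Finset.mem_univ _))
  rw [hsum, Nat.cast_sum, Finset.sum_mul]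
  refine (Finset.sum_le_sum fun k _ => hone k).trans (le_of_eq ?_)
  rw [Finset.sum_const, Finset.card_univ, Fintype.card_fin, nsmul_eq_mul]
  push_cast
  ring

theorem holes_count (hG : G.Ok) (hM : G.Met T rho M c₀ C δ g) (hQ : G.QN rho) {Y : Finset (EN N)} {B₃ η θ θ' : ℝ} (hη : 0 < η) (h0 : 0 < θ') (h1 : θ' < θ) (h2 : θ < 1) :
    ∃ B₅ : ℝ, 0 < B₅ ∧ ∀ B₄ ε K : ℝ, 20 ≤ K → ∃ R : ℝ, 0 < R ∧ ∀ (q : G.J → ℂ) (F : ℂ → EN N), G.Cl T q F → ∀ z₀ t s y, R ≤ infDist z₀ (Gd rho δ F) →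
      G.Holes Y B₃ B₄ ε K (Real.exp (-(η * infDist z₀ (Gd rho δ F)))) F z₀ (θ * infDist z₀ (Gd rho δ F)) t s y →
      (t.card : ℝ) ≤ B₅ * infDist z₀ (Gd rho δ F) ∧
      ∀ a ∈ t, ‖a - z₀‖ ≤ θ' * infDist z₀ (Gd rho δ F) → ∀ r : ℝ, 0 < r → r < infDist z₀ (Gd rho δ F) →
        (((t.erase a).filter (fun b => ‖b - a‖ ≤ r)).card : ℝ) * Real.log (infDist z₀ (Gd rho δ F) / r) ≤ B₅ * infDist z₀ (Gd rho δ F) := by
  classical
  obtain ⟨B, hB, hgr⟩ := growth hG hM
  refine ⟨(N + 1) * (12 * B + 2 * |B₃| + 2), by positivity, fun B₄ ε K hK => ⟨1, one_pos, fun q F hF z₀ t s y hd hH => ?_⟩⟩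
  obtain ⟨d, hdd⟩ : ∃ d : ℝ, d = infDist z₀ (Gd rho δ F) := ⟨_, rfl⟩
  rw [← hdd] at hd hH ⊢
  have hpos0 : ∀ z, 0 < ‖F z‖ := fun z => norm_pos_iff.2 (ne0 hG (hF.ent.mem z))
  have hbd : ∀ a z : ℂ, ‖a - z₀‖ ≤ d → z ∈ closedBall a (9 * d) → ‖F z‖ ≤ Real.exp (12 * B * d) := by
    intro a z ha hz
    rw [← Real.log_le_iff_le_exp (hpos0 z)]
    refine (hgr q F hF z).trans ?_
    have h3 : infDist z (Gd rho δ F) ≤ infDist z₀ (Gd rho δ F) + dist z z₀ := infDist_le_infDist_add_dist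
    have h4 : dist z z₀ ≤ 9 * d + d := by
      refine (dist_triangle z a z₀).trans (add_le_add (mem_closedBall.1 hz) ?_)
      rw [dist_eq_norm]
      exact ha
    rw [← hdd] at h3
    have h5 : 1 + infDist z (Gd rho δ F) ≤ 12 * d := by linarith
    have := mul_le_mul_of_nonneg_left h5 hB
    linarith
  have hcen : ∀ a ∈ t, ‖a - z₀‖ ≤ d := by
    intro a ha
    have h3 := hH.cen a ha
    rw [mem_closedBall, dist_eq_norm] at h3
    nlinarith
  have hlow : ∀ a ∈ t, ‖F a‖ ≤ Real.exp B₃ := by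
    intro a ha
    have h3 := (hH.rim a ha).low
    simp only [mul_zero, add_zero] at h3
    exact (Real.log_le_iff_le_exp (hpos0 a)).1 h3
  have hs1 : ∀ a ∈ t, 0 < s a ∧ s a ≤ 1 := by
    intro a ha
    refine ⟨(hH.pos a ha).1, (hH.pos a ha).2.trans ?_⟩
    rw [Real.exp_le_one_iff]
    nlinarith
  have hsep : ∀ b ∈ t, ∀ c ∈ t, b ≠ c → 20 * max (s b) (s c) < ‖b - c‖ := by
    intro b hb c hc hbc
    have h3 := hH.sep b hb c hc hbc
    have h4 : 0 < max (s b) (s c) := lt_max_of_lt_left (hs1 b hb).1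
    nlinarith
  have hval : ∀ b ∈ t, ∃ (l : Fin (N + 1)) (ζ : ℂ), ‖ζ - b‖ < s b / 2 ∧ (F ζ).ofLp l = 2 * (Real.exp B₃ : ℝ) := by
    intro b hb
    obtain ⟨l, w, hw, h3⟩ := (hH.rim b hb).val
    refine ⟨l, b + s b * w, ?_, h3⟩
    rw [add_sub_cancel_left, norm_mul, Complex.norm_real, Real.norm_eq_abs, abs_of_pos (hs1 b hb).1]
    have := (hs1 b hb).1
    nlinarith
  have hA : 0 ≤ 12 * B * d := by positivity
  have hN : (0 : ℝ) ≤ N := Nat.cast_nonneg N
  have hfin : ((N : ℝ) + 1) * (12 * B * d + 2 * |B₃| + 2) ≤ (N + 1) * (12 * B + 2 * |B₃| + 2) * d := by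
    have h3 : 12 * B * d + 2 * |B₃| + 2 ≤ (12 * B + 2 * |B₃| + 2) * d := by
      have := abs_nonneg B₃
      nlinarith
    have := mul_le_mul_of_nonneg_left h3 (by linarith : (0 : ℝ) ≤ N + 1)
    linarith
  refine ⟨?_, fun a ha _ r hr hrd => ?_⟩
  · rcases t.eq_empty_or_nonempty with rfl | ⟨a, ha⟩
    · rw [Finset.card_empty, Nat.cast_zero]
      have := abs_nonneg B₃
      positivity
    · have h3 := cnt_aux hF.ent.diff (a := a) (r := 3 * d) (R := 9 * d) (A := 12 * B * d) (B := B₃) (by linarith) (by linarith) hA (hlow a ha)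
        (fun z hz => hbd a z (hcen a ha) hz) t s (fun b hb c hc hbc => by
          have h4 := hsep b hb c hc hbc
          have h5 : 0 < max (s b) (s c) := lt_max_of_lt_left (hs1 b hb).1
          linarith) (fun b hb => by
          obtain ⟨l, ζ, h4, h5⟩ := hval b hb
          refine ⟨l, ζ, h4, ?_, h5⟩
          have h6 : ζ - a = (ζ - b) + (b - z₀) - (a - z₀) := by ring
          rw [h6]
          have h7 := norm_sub_le ((ζ - b) + (b - z₀)) (a - z₀)
          have h8 := norm_add_le (ζ - b) (b - z₀)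
          have h9 := hcen b hb
          have h10 := hcen a ha
          have h11 := (hs1 b hb).2
          linarith)
      have h4 : 9 * d / (3 * d) = 3 := by
        have : d ≠ 0 := by linarith
        field_simp
        norm_num
      rw [h4] at h3
      have h5 : 1 ≤ Real.log 3 := by
        rw [Real.le_log_iff_exp_le (by norm_num)]
        have := Real.exp_one_lt_d9
        linarith
      have h6 : (t.card : ℝ) * 1 ≤ t.card * Real.log 3 := mul_le_mul_of_nonneg_left h5 (Nat.cast_nonneg _)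
      linarith
  · have h3 := cnt_aux hF.ent.diff (a := a) (r := 2 * r) (R := 2 * d) (A := 12 * B * d) (B := B₃) (by linarith) (by linarith) hA (hlow a ha)
      (fun z hz => hbd a z (hcen a ha) (closedBall_subset_closedBall (by linarith) hz)) ((t.erase a).filter (fun b => ‖b - a‖ ≤ r)) s
      (fun b hb c hc hbc => by
        have hb' := Finset.mem_of_mem_erase (Finset.mem_filter.1 hb).1
        have hc' := Finset.mem_of_mem_erase (Finset.mem_filter.1 hc).1
        have h4 := hsep b hb' c hc' hbc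
        have h5 : 0 < max (s b) (s c) := lt_max_of_lt_left (hs1 b hb').1
        linarith) (fun b hb => by
        obtain ⟨hb1, hb2⟩ := Finset.mem_filter.1 hb
        have hba := Finset.ne_of_mem_erase hb1
        have hb' := Finset.mem_of_mem_erase hb1
        obtain ⟨l, ζ, h4, h5⟩ := hval b hb'
        refine ⟨l, ζ, h4, ?_, h5⟩
        have h6 := hsep b hb' a ha hba
        have h7 := le_max_left (s b) (s a)
        have h8 := norm_add_le (ζ - b) (b - a)
        have h9 : ζ - b + (b - a) = ζ - a := by ring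
        rw [h9] at h8
        linarith)
    have h4 : 2 * d / (2 * r) = d / r := by
      rw [mul_div_mul_left _ _ (by norm_num : (2 : ℝ) ≠ 0)]
    rw [h4] at h3
    linarith

end Pool.Agent.SR3
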