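import Pool.Agent.SR3.ARad
import Pool.Agent.SDA.F0
import Pool.Agent.H36.BP.MaxP

/-!
# SR3 DiscE: a logarithmic gain from the scales between `s` and `r`

`v` is subharmonic for the logarithm on the disc with centre `r` and radius `r`, with a bounded error in a neighbourhood of width one of the circle,
`v ≤ exp A`, and `v z ≤ exp (A - c |Im z|)` where `|Im z| ≥ s`.  Then `v 1 ≤ exp (A' - c / 3 log (r / s))`.  Comparison with the real part of
`(c / 3) (z log (z + s) - log (2 r) z + 6 s z / (z + s))`.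
-/

set_option autoImplicit false

open Topology Filter Metric

noncomputable section

namespace Pool.Agent.SR3

open Pool.Agent.H36.BP (Sub Sub.anti Sub.mul Sub.congr Sub.of_holo Sub.exp_sq max_principle)


/-- on the circle `|z - r| = r` -/
private theorem de_circle {r : ℝ} {z : ℂ} (h : ‖z - r‖ = r) : ‖z‖ ^ 2 = 2 * r * z.re := by
  have h1 : ‖z - r‖ ^ 2 = r ^ 2 := by rw [h]
  rw [← Complex.normSq_eq_norm_sq, Complex.normSq_apply] at h1 ⊢
  simp only [Complex.sub_re, Complex.ofReal_re, Complex.sub_im, Complex.ofReal_im, sub_zero] at h1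
  nlinarith

private theorem de_re {r : ℝ} (hr : 0 < r) {z : ℂ} (h : ‖z - r‖ ≤ r) : 0 ≤ z.re := by
  have h1 : |(z - r).re| ≤ r := (Complex.abs_re_le_norm _).trans h
  rw [Complex.sub_re, Complex.ofReal_re] at h1
  have := (abs_le.1 h1).1
  linarith

/-- the first part -/
private theorem de_first (z : ℂ) (s : ℝ) : (z * Complex.log (z + s)).re = z.re * Real.log ‖z + s‖ - z.im * Complex.arg (z + s) := by
  rw [Complex.mul_re, Complex.log_re, Complex.log_im]

/-- the second part -/
private theorem de_second {z : ℂ} {s : ℝ} (hs : 0 < s) (hz : 0 ≤ z.re) :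
    ((s : ℂ) * z / (z + s)).re = s * (z.re * (z.re + s) + z.im ^ 2) / ((z.re + s) ^ 2 + z.im ^ 2) := by
  have h1 : 0 < (z.re + s) ^ 2 + z.im ^ 2 := by positivity
  have h2 : (s : ℂ) * z / (z + s) = ((s : ℂ) * z * (starRingEnd ℂ) (z + s)) * ((Complex.normSq (z + s))⁻¹ : ℝ) := by
    rw [div_eq_mul_inv, Complex.inv_def]
    ring
  have h3 : Complex.normSq (z + s) = (z.re + s) ^ 2 + z.im ^ 2 := by
    rw [Complex.normSq_apply]
    simp
    ring
  rw [h2, h3, Complex.re_mul_ofReal, div_eq_mul_inv]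
  congr 1
  rw [map_add, Complex.conj_ofReal, mul_assoc, Complex.re_ofReal_mul, mul_add, Complex.add_re, Complex.mul_conj, Complex.ofReal_re,
    Complex.re_mul_ofReal, Complex.normSq_apply]
  ring

private theorem de_arg {w : ℂ} (hw : 0 < w.re) : |Complex.arg w| ≤ |w.im| / w.re := by
  have h1 : |Complex.arg w| < Real.pi / 2 := Complex.abs_arg_lt_pi_div_two_iff.2 (Or.inl hw)
  have h2 : |Complex.arg w| ≤ Real.tan |Complex.arg w| := Real.le_tan (abs_nonneg _) h1
  have h3 : Real.tan |Complex.arg w| = |w.im| / w.re := by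
    rcases abs_cases (Complex.arg w) with ⟨h4, h5⟩ | ⟨h4, h5⟩
    · rw [h4, Complex.tan_arg]
      have h6 : 0 ≤ w.im := Complex.arg_nonneg_iff.1 h5
      rw [abs_of_nonneg h6]
    · rw [h4, Real.tan_neg, Complex.tan_arg]
      have h6 : w.im < 0 := Complex.arg_neg_iff.1 h5
      rw [abs_of_neg h6, neg_div]
  rw [← h3]
  exact h2

/-- the bound on the circle -/
private theorem de_bdy1 {r s : ℝ} (hr : 0 < r) (hs : 0 < s) {z : ℂ} (h : ‖z - r‖ = r) :
    -(3 * |z.im|) ≤ (z * Complex.log (z + s)).re - Real.log (2 * r) * z.re := by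
  have h1 := de_circle h
  have h2 : 0 ≤ z.re := de_re hr h.le
  have hzs : ‖z‖ ≤ ‖z + s‖ := by
    rw [Complex.norm_def, Complex.norm_def]
    refine Real.sqrt_le_sqrt ?_
    rw [Complex.normSq_apply, Complex.normSq_apply]
    simp only [Complex.add_re, Complex.ofReal_re, Complex.add_im, Complex.ofReal_im, add_zero]
    nlinarith
  rw [de_first]
  have h3 : |Complex.arg (z + s)| ≤ Real.pi / 2 := Complex.abs_arg_le_pi_div_two_iff.2 (by simp; linarith)
  have h4 : z.im * Complex.arg (z + s) ≤ 2 * |z.im| := by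
    refine (le_abs_self _).trans ?_
    rw [abs_mul, mul_comm]
    refine mul_le_mul_of_nonneg_right (h3.trans ?_) (abs_nonneg _)
    linarith [Real.pi_lt_four]
  rcases eq_or_ne z 0 with h0 | h0
  · rw [h0]; simp
  have hz : 0 < ‖z‖ := norm_pos_iff.2 h0
  have h5 : Real.log (2 * r) - Real.log ‖z‖ ≤ 2 * r / ‖z‖ - 1 := by
    rw [← Real.log_div (by positivity) hz.ne']
    exact Real.log_le_sub_one_of_pos (by positivity)
  have h6 : z.re * (Real.log (2 * r) - Real.log ‖z‖) ≤ z.re * (2 * r / ‖z‖ - 1) := mul_le_mul_of_nonneg_left h5 h2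
  have h7 : z.re * (2 * r / ‖z‖ - 1) = ‖z‖ - z.re := by
    have : z.re * (2 * r / ‖z‖) = ‖z‖ := by
      rw [mul_div_assoc', div_eq_iff hz.ne']
      linarith
    rw [mul_sub, mul_one, this]
  have h8 : ‖z‖ ≤ z.re + |z.im| := by
    have := Complex.norm_le_abs_re_add_abs_im z
    rwa [abs_of_nonneg h2] at this
  have h9 : z.re * Real.log ‖z‖ ≤ z.re * Real.log ‖z + s‖ := mul_le_mul_of_nonneg_left (Real.log_le_log hz hzs) h2
  linarith

/-- the bound on the circle near the real axis -/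
private theorem de_bdy2 {r s : ℝ} (hs : 0 < s) (hsr : 100 * s ≤ r) {z : ℂ} (h : ‖z - r‖ = r) (hz : |z.im| ≤ s) :
    0 ≤ (z * Complex.log (z + s)).re - Real.log (2 * r) * z.re + 6 * ((s : ℂ) * z / (z + s)).re := by
  have hr : 0 < r := by linarith
  have h1 := de_circle h
  have h2 : 0 ≤ z.re := de_re hr h.le
  have hy2 : z.im ^ 2 ≤ s ^ 2 := by
    rw [← sq_abs z.im]
    exact pow_le_pow_left₀ (abs_nonneg _) hz 2
  have h1' : z.re ^ 2 + z.im ^ 2 = 2 * r * z.re := by
    rw [← h1, ← Complex.normSq_eq_norm_sq, Complex.normSq_apply]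
    ring
  have hD : 0 < (z.re + s) ^ 2 + z.im ^ 2 := by positivity
  rw [de_second hs h2]
  rcases le_total z.re r with hx | hx
  · -- near
    have hx1 : z.re * r ≤ z.im ^ 2 := by nlinarith
    have hx2 : z.re ≤ s / 100 := by
      by_contra hc
      push Not at hc
      nlinarith
    have h3 : |Complex.arg (z + s)| ≤ |z.im| / s := by
      have h4 := de_arg (w := z + s) (by simp; linarith)
      refine h4.trans ?_
      simp only [Complex.add_im, Complex.ofReal_im, add_zero, Complex.add_re, Complex.ofReal_re]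
      exact div_le_div_of_nonneg_left (abs_nonneg _) hs (by linarith)
    have h4 : z.im * Complex.arg (z + s) ≤ z.im ^ 2 / s := by
      refine (le_abs_self _).trans ?_
      rw [abs_mul]
      calc |z.im| * |Complex.arg (z + s)| ≤ |z.im| * (|z.im| / s) := mul_le_mul_of_nonneg_left h3 (abs_nonneg _)
        _ = z.im ^ 2 / s := by rw [← sq_abs z.im]; ring
    have h5 : s ≤ ‖z + s‖ := by
      have h6 : |(z + s).re| ≤ ‖z + s‖ := Complex.abs_re_le_norm _
      simp only [Complex.add_re, Complex.ofReal_re] at h6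
      have := le_abs_self (z.re + s)
      linarith
    have h6 : Real.log (2 * r) - Real.log ‖z + s‖ ≤ r / s := by
      have h7 : Real.log s ≤ Real.log ‖z + s‖ := Real.log_le_log hs h5
      have h8 : Real.log (2 * r) - Real.log s = Real.log 2 + Real.log (r / s) := by
        rw [Real.log_mul (by norm_num) hr.ne', Real.log_div hr.ne' hs.ne']
        ring
      have h9 : Real.log (r / s) ≤ r / s - 1 := Real.log_le_sub_one_of_pos (by positivity)
      have h10 : Real.log 2 ≤ 1 := by
        have := Real.log_two_lt_d9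
        linarith
      linarith
    have h7 : z.re * (Real.log (2 * r) - Real.log ‖z + s‖) ≤ z.im ^ 2 / s := by
      calc z.re * (Real.log (2 * r) - Real.log ‖z + s‖) ≤ z.re * (r / s) := mul_le_mul_of_nonneg_left h6 h2
        _ = z.re * r / s := by ring
        _ ≤ z.im ^ 2 / s := div_le_div_of_nonneg_right hx1 hs.le
    have h8 : z.im ^ 2 / s * 2 ≤ 6 * (s * (z.re * (z.re + s) + z.im ^ 2) / ((z.re + s) ^ 2 + z.im ^ 2)) := by
      have h9 : (z.re + s) ^ 2 + z.im ^ 2 ≤ 3 * s ^ 2 := by nlinarith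
      have h10 : z.im ^ 2 / s * 2 = 6 * (s * z.im ^ 2 / (3 * s ^ 2)) := by
        field_simp
        ring
      rw [h10]
      refine mul_le_mul_of_nonneg_left ?_ (by norm_num)
      refine div_le_div₀ (by positivity) ?_ hD h9
      refine mul_le_mul_of_nonneg_left ?_ hs.le
      have : 0 ≤ z.re * (z.re + s) := by positivity
      linarith
    rw [de_first]
    linarith
  · -- far
    have h3 := de_bdy1 hr hs h
    have h4 : s / 2 ≤ s * (z.re * (z.re + s) + z.im ^ 2) / ((z.re + s) ^ 2 + z.im ^ 2) := by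
      rw [div_le_div_iff₀ (by norm_num) hD]
      have h5 : (z.re + s) ^ 2 + z.im ^ 2 ≤ (z.re * (z.re + s) + z.im ^ 2) * 2 := by nlinarith
      nlinarith [mul_le_mul_of_nonneg_left h5 hs.le]
    linarith

theorem disc_gain2 {c k A : ℝ} (hc : 0 < c) (hk : 0 ≤ k) :
    ∃ A' : ℝ, ∀ r s : ℝ, 1 ≤ s → 100 * s ≤ r → ∀ v : ℂ → ℝ, UpperSemicontinuousOn v (closedBall (r : ℂ) r) → (∀ z, 0 ≤ v z) →
      (∀ z ∈ ball (r : ℂ) r, 0 < v z → Sub v z (-k)) → (∀ z ∈ ball (r : ℂ) (r - 1), 0 < v z → Sub v z 0) →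
      (∀ z ∈ closedBall (r : ℂ) r, v z ≤ Real.exp A) → (∀ z ∈ closedBall (r : ℂ) r, s ≤ |z.im| → v z ≤ Real.exp (A - c * |z.im|)) →
      v 1 ≤ Real.exp (A' - c / 3 * Real.log (r / s)) := by
  refine ⟨A + 8 * k + 4 + 2 * c, fun r s hs1' hsr v husc hv0 hs1 hs2 hle hle2 => ?_⟩
  have hs : 0 < s := by linarith
  have hr0 : 0 < r := by linarith
  have hr : 2 < r := by linarith
  -- the comparison function
  obtain ⟨H, hH⟩ : ∃ H : ℂ → ℂ, H = fun z => ((c / 3 : ℝ) : ℂ) * (z * Complex.log (z + s) - (Real.log (2 * r) : ℂ) * z + ((6 : ℝ) : ℂ) * ((s : ℂ) * z / (z + s))) :=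
    ⟨_, rfl⟩
  have hHre : ∀ z, (H z).re = c / 3 * ((z * Complex.log (z + s)).re - Real.log (2 * r) * z.re + 6 * ((s : ℂ) * z / (z + s)).re) := by
    intro z
    rw [hH]
    simp only [Complex.add_re, Complex.re_ofReal_mul, Complex.sub_re]
  have hHan : ∀ z : ℂ, 0 ≤ z.re → AnalyticAt ℂ H z := by
    intro z hz
    have h1 : z + s ∈ Complex.slitPlane := Or.inl (by simp; linarith)
    have h2 : z + s ≠ 0 := Complex.slitPlane_ne_zero h1
    have h3 : AnalyticAt ℂ (fun z : ℂ => z + s) z := analyticAt_id.add analyticAt_const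
    rw [hH]
    exact analyticAt_const.mul (((analyticAt_id.mul (h3.clog h1)).sub (analyticAt_const.mul analyticAt_id)).add
      (analyticAt_const.mul ((analyticAt_const.mul analyticAt_id).div h3 h2)))
  have hHc : ContinuousOn H (closedBall (r : ℂ) r) := by
    intro z hz
    rw [mem_closedBall, dist_eq_norm] at hz
    exact (hHan z (de_re hr0 hz)).continuousAt.continuousWithinAt
  -- the function
  obtain ⟨ε, hε⟩ : ∃ ε : ℝ, ε = 1 / r ^ 2 := ⟨_, rfl⟩
  have hε0 : 0 < ε := by rw [hε]; positivity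
  obtain ⟨f, hf⟩ : ∃ f : ℂ → ℝ, f = fun z => ‖Complex.exp (-H z)‖ * (Real.exp (2 * k * max (‖z - r‖ - (r - 2)) 0 ^ 2) * Real.exp (ε * ‖z‖ ^ 2)) :=
    ⟨_, rfl⟩
  have hf0 : ∀ z, 0 < f z := fun z => by
    rw [hf]
    exact mul_pos (norm_pos_iff.2 (Complex.exp_ne_zero _)) (by positivity)
  have hfe : ∀ z, f z = Real.exp (-(H z).re + 2 * k * max (‖z - r‖ - (r - 2)) 0 ^ 2 + ε * ‖z‖ ^ 2) := fun z => by
    rw [hf]
    show ‖Complex.exp (-H z)‖ * (Real.exp (2 * k * max (‖z - r‖ - (r - 2)) 0 ^ 2) * Real.exp (ε * ‖z‖ ^ 2)) = _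
    rw [Complex.norm_exp, Complex.neg_re, ← Real.exp_add, ← Real.exp_add, add_assoc]
  have hfc : ContinuousOn f (closedBall (r : ℂ) r) := by
    rw [hf]
    refine (hHc.neg.cexp.norm).mul (Continuous.continuousOn ?_)
    fun_prop
  have huscf : UpperSemicontinuousOn (fun z => v z * f z) (closedBall (r : ℂ) r) := by
    intro z hz y hy
    have hy' : v z * f z < y := hy
    have h1 : v z < y / f z := (lt_div_iff₀ (hf0 z)).2 hy'
    obtain ⟨a, ha1, ha2⟩ := exists_between h1
    have h2 : a * f z < y := (lt_div_iff₀ (hf0 z)).1 ha2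
    have h3 : ∀ᶠ w in 𝓝[closedBall (r : ℂ) r] z, a * f w < y :=
      ((continuousWithinAt_const.mul (hfc z hz)).tendsto).eventually (gt_mem_nhds h2)
    filter_upwards [husc z hz a ha1, h3] with w hw1 hw2
    exact (mul_lt_mul_of_pos_right hw1 (hf0 w)).trans hw2
  have key := max_principle (isCompact_closedBall (r : ℂ) r) isOpen_ball ball_subset_closedBall (u := fun z => v z * f z) huscf
    (fun z hz hvz => ?_) (Real.exp_pos (A + 8 * k + 4)).le (fun z hz => ?_) 1 ?_
  · have h1 : f 1 = Real.exp (-(H 1).re + 2 * k * max (‖(1 : ℂ) - r‖ - (r - 2)) 0 ^ 2 + ε * ‖(1 : ℂ)‖ ^ 2) := hfe 1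
    have h2 : Real.exp (-(H 1).re) ≤ f 1 := by
      rw [h1, Real.exp_le_exp]
      have : 0 ≤ 2 * k * max (‖(1 : ℂ) - r‖ - (r - 2)) 0 ^ 2 + ε * ‖(1 : ℂ)‖ ^ 2 := by positivity
      linarith
    have h3 : v 1 * Real.exp (-(H 1).re) ≤ Real.exp (A + 8 * k + 4) := (mul_le_mul_of_nonneg_left h2 (hv0 1)).trans key
    have h4 : (H 1).re ≤ 2 * c - c / 3 * Real.log (r / s) := by
      rw [hHre, de_first, de_second hs (by simp)]
      simp only [Complex.one_re, Complex.one_im, zero_mul, sub_zero, one_mul, mul_one]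
      have h5 : ‖(1 : ℂ) + s‖ = 1 + s := by
        have : (1 : ℂ) + s = ((1 + s : ℝ) : ℂ) := by push_cast; ring
        rw [this, Complex.norm_real, Real.norm_eq_abs, abs_of_pos (by linarith)]
      rw [h5]
      have h6 : Real.log (1 + s) ≤ Real.log (2 * s) := Real.log_le_log (by linarith) (by linarith)
      have h7 : Real.log (2 * s) - Real.log (2 * r) = -Real.log (r / s) := by
        rw [Real.log_mul (by norm_num) hs.ne', Real.log_mul (by norm_num) hr0.ne', Real.log_div hr0.ne' hs.ne']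
        ring
      have h8 : s * (1 + s + 0 ^ 2) / ((1 + s) ^ 2 + 0 ^ 2) ≤ 1 := by
        rw [div_le_one (by positivity)]
        nlinarith
      have h9 : Real.log (1 + s) - Real.log (2 * r) + 6 * (s * (1 + s + 0 ^ 2) / ((1 + s) ^ 2 + 0 ^ 2)) ≤ 6 - Real.log (r / s) := by linarith
      have h10 := mul_le_mul_of_nonneg_left h9 (by positivity : (0 : ℝ) ≤ c / 3)
      linarith
    have h5 : v 1 ≤ Real.exp (A + 8 * k + 4) * Real.exp ((H 1).re) := by
      have h6 : v 1 = v 1 * Real.exp (-(H 1).re) * Real.exp ((H 1).re) := by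
        rw [mul_assoc, ← Real.exp_add, neg_add_cancel, Real.exp_zero, mul_one]
      rw [h6]
      exact mul_le_mul_of_nonneg_right h3 (Real.exp_pos _).le
    refine h5.trans ?_
    rw [← Real.exp_add, Real.exp_le_exp]
    linarith
  · -- the Laplacian
    have hv : 0 < v z := by
      by_contra hcon
      have : v z * f z ≤ 0 := mul_nonpos_of_nonpos_of_nonneg (not_lt.1 hcon) (hf0 z).le
      linarith
    have hzn : ‖z - r‖ < r := by
      rw [mem_ball, dist_eq_norm] at hz
      exact hz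
    have hre : 0 ≤ z.re := de_re hr0 hzn.le
    have h1 : Sub (fun w => ‖Complex.exp (-H w)‖) z 0 := Sub.of_holo ((hHan z hre).neg.cexp) (Complex.exp_ne_zero _)
    have h2 : Sub (fun w => Real.exp (ε * ‖w‖ ^ 2)) z (ε * ‖deriv (fun w : ℂ => w) z‖ ^ 2) := Sub.exp_sq analyticAt_id _
    have h3 : deriv (fun w : ℂ => w) z = 1 := deriv_id z
    rw [h3, norm_one, one_pow, mul_one] at h2
    by_cases hz1 : ‖z - r‖ < r - 1
    · have h4 := hs2 z (by rw [mem_ball, dist_eq_norm]; exact hz1) hv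
      have h5 := sub_rad (2 * k) (r - 2) (by positivity) (r : ℂ) z
      refine ⟨0 + (0 + (0 + ε)), by linarith, ?_⟩
      rw [hf]
      exact h4.mul (h1.mul (h5.mul h2))
    · have h4 := hs1 z hz hv
      have h5 : Sub (fun w => Real.exp (2 * k * max (‖w - r‖ - (r - 2)) 0 ^ 2)) z (2 * k / 2) :=
        sub_rad' (by positivity) (by linarith [not_lt.1 hz1])
      refine ⟨-k + (0 + (2 * k / 2 + ε)), by linarith, ?_⟩
      rw [hf]
      exact h4.mul (h1.mul (h5.mul h2))
  · -- the boundary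
    have hzn : ‖z - r‖ = r := by
      have h1 : z ∈ sphere (r : ℂ) r := by
        rw [← closedBall_sdiff_ball]
        exact hz
      rw [mem_sphere, dist_eq_norm] at h1
      exact h1
    show v z * f z ≤ _
    have h1 : v z ≤ Real.exp (A + (H z).re) := by
      have hre : 0 ≤ z.re := de_re hr0 hzn.le
      rcases le_total s |z.im| with h3 | h3
      · refine (hle2 z hz.1 h3).trans (Real.exp_le_exp.2 ?_)
        rw [hHre]
        have h4 := de_bdy1 hr0 hs hzn
        have h5 : 0 ≤ ((s : ℂ) * z / (z + s)).re := by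
          rw [de_second hs hre]
          positivity
        have h6 : -(3 * |z.im|) ≤ (z * Complex.log (z + s)).re - Real.log (2 * r) * z.re + 6 * ((s : ℂ) * z / (z + s)).re := by linarith
        have h7 := mul_le_mul_of_nonneg_left h6 (by positivity : (0 : ℝ) ≤ c / 3)
        linarith
      · refine (hle z hz.1).trans (Real.exp_le_exp.2 ?_)
        rw [hHre]
        have h4 := mul_nonneg (by positivity : (0 : ℝ) ≤ c / 3) (de_bdy2 hs hsr hzn h3)
        linarith
    refine (mul_le_mul_of_nonneg_right h1 (hf0 z).le).trans ?_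
    rw [hfe, ← Real.exp_add, Real.exp_le_exp, hzn]
    have h3 : max (r - (r - 2)) 0 = 2 := by
      rw [sub_sub_cancel, max_eq_left (by norm_num)]
    rw [h3]
    have h4 : ε * ‖z‖ ^ 2 ≤ 4 := by
      have h5 : ‖z‖ ≤ 2 * r := by
        have h6 : ‖z‖ ≤ ‖z - r‖ + ‖(r : ℂ)‖ := by
          have := norm_add_le (z - r) (r : ℂ)
          rwa [sub_add_cancel] at this
        rw [hzn, Complex.norm_real, Real.norm_eq_abs, abs_of_pos hr0] at h6
        linarith
      have h6 : ‖z‖ ^ 2 ≤ (2 * r) ^ 2 := pow_le_pow_left₀ (norm_nonneg _) h5 2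
      rw [hε, one_div, inv_mul_le_iff₀ (by positivity)]
      linarith
    linarith
  · rw [mem_closedBall, dist_eq_norm]
    have h1 : (1 : ℂ) - r = ((1 - r : ℝ) : ℂ) := by push_cast; ring
    rw [h1, Complex.norm_real, Real.norm_eq_abs, abs_of_neg (by linarith)]
    linarith

end Pool.Agent.SR3
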