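import Pool.Agent.SR3.EDefs

/-!
# SR3 EAff: affine functions, and comparison of two functions `vee` with the same center
-/

set_option autoImplicit false

open Topology Filter Metric Complex InnerProductSpace Laplacian

noncomputable section

namespace Pool.Agent.SR3.BE

/-- MODULE Aff.  An affine function which is small on a disc is small on larger discs. -/
theorem affine_le {k : ℂ} {b e r s : ℝ} {q a : ℂ} (hr : 0 < r) (hs : 0 ≤ s) (h : ∀ z ∈ closedBall q r, |(k * (z - a)).re + b| ≤ e) :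
    ∀ z ∈ closedBall q s, |(k * (z - a)).re + b| ≤ (1 + 2 * s / r) * e := by
  intro z hz
  rw [mem_closedBall, dist_eq_norm] at hz
  have hq := h q (mem_closedBall_self hr.le)
  rcases hs.eq_or_lt with hs0 | hs0
  · have hz0 : z = q := by
      rw [← hs0] at hz
      exact sub_eq_zero.1 (norm_le_zero_iff.1 hz)
    rw [hz0, ← hs0]
    simpa using hq
  · have h1 := h (q + ((r / s : ℝ) : ℂ) * (z - q)) (by
      rw [mem_closedBall, dist_eq_norm, add_sub_cancel_left, norm_mul, Complex.norm_real, Real.norm_of_nonneg (by positivity)]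
      calc r / s * ‖z - q‖ ≤ r / s * s := by gcongr
        _ = r := by field_simp)
    have h2 : (k * (q + ((r / s : ℝ) : ℂ) * (z - q) - a)).re = (k * (q - a)).re + (r / s) * (k * (z - q)).re := by
      have h4 : k * (q + ((r / s : ℝ) : ℂ) * (z - q) - a) = k * (q - a) + ((r / s : ℝ) : ℂ) * (k * (z - q)) := by ring
      rw [h4, Complex.add_re, Complex.re_ofReal_mul]
    have h3 : (k * (z - a)).re = (k * (q - a)).re + (k * (z - q)).re := by
      rw [← Complex.add_re]
      congr 1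
      ring
    rw [h2] at h1
    rw [h3]
    obtain ⟨x, hx⟩ : ∃ x, x = (k * (q - a)).re := ⟨_, rfl⟩
    obtain ⟨y, hy⟩ : ∃ y, y = (k * (z - q)).re := ⟨_, rfl⟩
    rw [← hx, ← hy] at h1
    rw [← hx] at hq
    rw [← hx, ← hy]
    have h5 : |y| ≤ s / r * (2 * e) := by
      have h6 : y = s / r * ((x + r / s * y + b) - (x + b)) := by
        field_simp
        ring
      rw [h6, abs_mul, abs_of_nonneg (by positivity : 0 ≤ s / r)]
      refine mul_le_mul_of_nonneg_left ?_ (by positivity)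
      refine (abs_sub _ _).trans ?_
      linarith
    calc |x + y + b| = |(x + b) + y| := by ring_nf
      _ ≤ |x + b| + |y| := abs_add_le _ _
      _ ≤ e + s / r * (2 * e) := add_le_add hq h5
      _ = (1 + 2 * s / r) * e := by ring

/-- the height of `a + w` -/
theorem ht_base_add (u a w : ℂ) : ht u a (a + w) = (star u * w).re := by
  unfold ht
  rw [add_sub_cancel_left]

/-- MODULE Aff.  Comparison of two functions `vee` with the same center. -/
theorem vee_close {ι : Type} [Fintype ι] {A Bd : ℝ} (hA : 0 < A) : ∃ C : ℝ, 0 < C ∧ ∀ (u u' a : ℂ) (β β' γ γ' : ι → ℝ) (R e : ℝ), ‖u‖ = 1 → ‖u'‖ = 1 →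
    0 < R → 0 ≤ e → (∀ i, 0 ≤ β i ∧ 0 ≤ β' i ∧ 0 ≤ γ i ∧ 0 ≤ γ' i) → (∀ i, β i ≤ Bd ∧ β' i ≤ Bd ∧ γ i ≤ Bd ∧ γ' i ≤ Bd) → A ≤ ∑ i, β i → A ≤ ∑ i, β' i →
    A ≤ ∑ i, γ i → A ≤ ∑ i, γ' i → (∀ z ∈ closedBall a R, ∀ i, |vee u a (β i) (β' i) z - vee u' a (γ i) (γ' i) z| ≤ e) → 0 ≤ (star u * u').re →
    ‖u - u'‖ ≤ C * e / R ∧ ∀ i, |β i - γ i| ≤ C * e / R ∧ |β' i - γ' i| ≤ C * e / R := by
  have hn : (0 : ℝ) ≤ Fintype.card ι := Nat.cast_nonneg _
  refine ⟨1 + (2 + |Bd|) * (Fintype.card ι / A), by positivity, ?_⟩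
  intro u u' a β β' γ γ' R e hu hu' hR he hnn hBd _ _ hγ hγ' hfit hre
  obtain ⟨p, hp⟩ : ∃ p, p = star u * u' := ⟨_, rfl⟩
  have huu : star u * u = 1 := by
    show (starRingEnd ℂ) u * u = 1
    rw [← Complex.normSq_eq_conj_mul_self, Complex.normSq_eq_norm_sq, hu]
    norm_num
  have hpn : ‖p‖ = 1 := by rw [hp, norm_mul, norm_star, hu, hu', one_mul]
  have hps : star u' * u = star p := by rw [hp, star_mul, star_star, mul_comm]
  rw [← hp] at hre
  have hsq : p.re ^ 2 + p.im ^ 2 = 1 := by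
    have h1 := Complex.sq_norm p
    rw [hpn, Complex.normSq_apply] at h1
    nlinarith
  have hc1 : p.re ≤ 1 := by nlinarith [sq_nonneg p.im]
  have hs1 : |p.im| ≤ 1 := by
    rw [abs_le]
    constructor <;> nlinarith [sq_nonneg p.re]
  have hcs : 1 - p.re ≤ |p.im| ^ 2 := by
    rw [sq_abs]
    nlinarith
  -- the point `a + R I u`
  have hsin : A * |p.im| ≤ Fintype.card ι * (e / R) := by
    have hin : a + R * (I * u) ∈ closedBall a R := by
      rw [mem_closedBall, dist_eq_norm, add_sub_cancel_left, norm_mul, norm_mul, Complex.norm_I, hu, Complex.norm_real, Real.norm_of_nonneg hR.le]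
      simp
    have e1 : ht u a (a + R * (I * u)) = 0 := by
      rw [ht_base_add]
      have h2 : star u * (R * (I * u)) = R * I * (star u * u) := by ring
      rw [h2, huu]
      simp
    have e2 : ht u' a (a + R * (I * u)) = R * p.im := by
      rw [ht_base_add]
      have h2 : star u' * (R * (I * u)) = (R : ℂ) * (I * (star u' * u)) := by ring
      rw [h2, hps, Complex.re_ofReal_mul]
      simp
    have h3 := hfit _ hin
    have h4 : ∀ i, vee u a (β i) (β' i) (a + R * (I * u)) = 0 := by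
      intro i
      unfold vee
      rw [e1]
      simp
    rcases le_total 0 p.im with hs | hs
    · have h5 : ∀ i, γ i * |p.im| ≤ e / R := by
        intro i
        have h6 := h3 i
        rw [h4 i, zero_sub, abs_neg] at h6
        unfold vee at h6
        rw [e2, max_eq_left (mul_nonneg hR.le hs), max_eq_right (neg_nonpos.2 (mul_nonneg hR.le hs)), mul_zero, add_zero] at h6
        rw [le_div_iff₀ hR, abs_of_nonneg hs]
        calc γ i * p.im * R = γ i * (R * p.im) := by ring
          _ ≤ |γ i * (R * p.im)| := le_abs_self _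
          _ ≤ e := h6
      calc A * |p.im| ≤ (∑ i, γ i) * |p.im| := mul_le_mul_of_nonneg_right hγ (abs_nonneg _)
        _ = ∑ i, γ i * |p.im| := Finset.sum_mul _ _ _
        _ ≤ ∑ _i : ι, e / R := Finset.sum_le_sum fun i _ => h5 i
        _ = Fintype.card ι * (e / R) := by rw [Finset.sum_const, nsmul_eq_mul, Finset.card_univ]
    · have h5 : ∀ i, γ' i * |p.im| ≤ e / R := by
        intro i
        have h6 := h3 i
        rw [h4 i, zero_sub, abs_neg] at h6
        unfold vee at h6
        have h7 : R * p.im ≤ 0 := mul_nonpos_of_nonneg_of_nonpos hR.le hs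
        rw [e2, max_eq_right h7, max_eq_left (neg_nonneg.2 h7), mul_zero, zero_add] at h6
        rw [le_div_iff₀ hR, abs_of_nonpos hs]
        calc γ' i * -p.im * R = γ' i * -(R * p.im) := by ring
          _ ≤ |γ' i * -(R * p.im)| := le_abs_self _
          _ ≤ e := h6
      calc A * |p.im| ≤ (∑ i, γ' i) * |p.im| := mul_le_mul_of_nonneg_right hγ' (abs_nonneg _)
        _ = ∑ i, γ' i * |p.im| := Finset.sum_mul _ _ _
        _ ≤ ∑ _i : ι, e / R := Finset.sum_le_sum fun i _ => h5 i
        _ = Fintype.card ι * (e / R) := by rw [Finset.sum_const, nsmul_eq_mul, Finset.card_univ]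
  obtain ⟨ε, hε⟩ : ∃ ε, ε = e / R := ⟨_, rfl⟩
  have hε0 : 0 ≤ ε := by
    rw [hε]
    positivity
  obtain ⟨N, hN⟩ : ∃ N : ℝ, N = Fintype.card ι / A := ⟨_, rfl⟩
  have hN0 : 0 ≤ N := by
    rw [hN]
    positivity
  have hs2 : |p.im| ≤ N * ε := by
    rw [hN, hε, div_mul_eq_mul_div, le_div_iff₀ hA]
    linarith [hsin]
  have hcl : 1 - p.re ≤ N * ε := by
    refine hcs.trans (le_trans ?_ hs2)
    rw [sq]
    exact mul_le_of_le_one_left (abs_nonneg _) hs1
  have hCe : (1 + (2 + |Bd|) * (Fintype.card ι / A)) * e / R = (1 + (2 + |Bd|) * N) * ε := by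
    rw [hε, hN]
    ring
  rw [hCe]
  have hB0 := abs_nonneg Bd
  have hval : ∀ (σ : ℝ), σ = 1 ∨ σ = -1 → a + R * ((σ : ℂ) * u) ∈ closedBall a R ∧ ht u a (a + R * ((σ : ℂ) * u)) = R * σ ∧
      ht u' a (a + R * ((σ : ℂ) * u)) = R * (σ * p.re) := by
    intro σ hσ
    have hσn : |σ| = 1 := by rcases hσ with h | h <;> rw [h] <;> norm_num
    refine ⟨?_, ?_, ?_⟩
    · rw [mem_closedBall, dist_eq_norm, add_sub_cancel_left, norm_mul, norm_mul, hu, Complex.norm_real, Complex.norm_real, Real.norm_of_nonneg hR.le,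
        Real.norm_eq_abs, hσn]
      simp
    · rw [ht_base_add]
      have h2 : star u * (R * ((σ : ℂ) * u)) = (R : ℂ) * ((σ : ℂ) * (star u * u)) := by ring
      rw [h2, huu, Complex.re_ofReal_mul, Complex.re_ofReal_mul, Complex.one_re, mul_one]
    · rw [ht_base_add]
      have h2 : star u' * (R * ((σ : ℂ) * u)) = (R : ℂ) * ((σ : ℂ) * (star u' * u)) := by ring
      rw [h2, hps, Complex.re_ofReal_mul, Complex.re_ofReal_mul]
      rfl
  refine ⟨?_, fun i => ⟨?_, ?_⟩⟩
  · -- the normals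
    have h1 : ‖u - u'‖ ^ 2 ≤ 2 * |p.im| ^ 2 := by
      have h2 : u - u' = u * (1 - p) := by
        rw [hp, mul_sub, mul_one, ← mul_assoc, mul_comm u (star u), huu, one_mul]
      rw [h2, norm_mul, hu, one_mul, Complex.sq_norm, Complex.normSq_apply, Complex.sub_re, Complex.sub_im, Complex.one_re, Complex.one_im]
      nlinarith [hcs, hsq]
    have h3 : ‖u - u'‖ ≤ 2 * |p.im| := by
      refine abs_le_of_sq_le_sq' ?_ (by positivity) |>.2
      nlinarith [sq_nonneg |p.im|]
    calc ‖u - u'‖ ≤ 2 * |p.im| := h3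
      _ ≤ 2 * (N * ε) := by linarith
      _ ≤ (1 + (2 + |Bd|) * N) * ε := by
          have : 0 ≤ |Bd| * N * ε := by positivity
          nlinarith
  · obtain ⟨h1, h2, h3⟩ := hval 1 (Or.inl rfl)
    have h4 := hfit _ h1 i
    unfold vee at h4
    have h5 : 0 ≤ R * (1 * p.re) := by positivity
    have h6 : 0 ≤ R * 1 := by positivity
    rw [h2, h3, max_eq_left h5, max_eq_left h6, max_eq_right (neg_nonpos.2 h5), max_eq_right (neg_nonpos.2 h6), mul_zero, mul_zero, add_zero, add_zero] at h4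
    have h7 : |β i - γ i * p.re| ≤ ε := by
      rw [hε, le_div_iff₀ hR]
      have h8 : β i * (R * 1) - γ i * (R * (1 * p.re)) = (β i - γ i * p.re) * R := by ring
      rw [h8, abs_mul, abs_of_pos hR] at h4
      exact h4
    have h8 : β i - γ i = (β i - γ i * p.re) - γ i * (1 - p.re) := by ring
    have h9 : |γ i * (1 - p.re)| ≤ |Bd| * (N * ε) := by
      rw [abs_mul, abs_of_nonneg (hnn i).2.2.1, abs_of_nonneg (sub_nonneg.2 hc1)]
      exact mul_le_mul ((hBd i).2.2.1.trans (le_abs_self _)) hcl (sub_nonneg.2 hc1) hB0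
    rw [h8]
    refine (abs_sub _ _).trans ?_
    have : 0 ≤ N * ε := by positivity
    nlinarith
  · obtain ⟨h1, h2, h3⟩ := hval (-1) (Or.inr rfl)
    have h4 := hfit _ h1 i
    unfold vee at h4
    have h5 : R * (-1 * p.re) ≤ 0 := by nlinarith [mul_nonneg hR.le hre]
    have h6 : R * (-1) ≤ 0 := by linarith
    rw [h2, h3, max_eq_right h5, max_eq_right h6, max_eq_left (neg_nonneg.2 h5), max_eq_left (neg_nonneg.2 h6), mul_zero, mul_zero, zero_add, zero_add] at h4
    have h7 : |β' i - γ' i * p.re| ≤ ε := by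
      rw [hε, le_div_iff₀ hR]
      have h8 : β' i * -(R * -1) - γ' i * -(R * (-1 * p.re)) = (β' i - γ' i * p.re) * R := by ring
      rw [h8, abs_mul, abs_of_pos hR] at h4
      exact h4
    have h8 : β' i - γ' i = (β' i - γ' i * p.re) - γ' i * (1 - p.re) := by ring
    have h9 : |γ' i * (1 - p.re)| ≤ |Bd| * (N * ε) := by
      rw [abs_mul, abs_of_nonneg (hnn i).2.2.2, abs_of_nonneg (sub_nonneg.2 hc1)]
      exact mul_le_mul ((hBd i).2.2.2.trans (le_abs_self _)) hcl (sub_nonneg.2 hc1) hB0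
    rw [h8]
    refine (abs_sub _ _).trans ?_
    have : 0 ≤ N * ε := by positivity
    nlinarith

end Pool.Agent.SR3.BE
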