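import Pool.Agent.SR3.EDefs

/-!
# SR3 EBas: block E, elementary facts (helper21)
-/

set_option autoImplicit false
set_option linter.unusedSectionVars false

open Topology Filter Metric Complex InnerProductSpace Laplacian

noncomputable section

namespace Pool.Agent.SR3.BE

open Pool.Agent.SDR (gc)

variable {X ι : Type} [Fintype ι] {Φ : Fam X ι} {C c R₀ : ℝ}

theorem S_nonneg (hΦ : Hyp Φ C c R₀) (x : X) (z : ℂ) : 0 ≤ Φ.S x z := Finset.sum_nonneg fun i _ => hΦ.nn x i z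

theorem lam_le_S (hΦ : Hyp Φ C c R₀) (x : X) (i : ι) (z : ℂ) : Φ.lam x i z ≤ Φ.S x z :=
  Finset.single_le_sum (f := fun i => Φ.lam x i z) (fun i _ => hΦ.nn x i z) (Finset.mem_univ i)

theorem S_le (hΦ : Hyp Φ C c R₀) (x : X) (z : ℂ) : Φ.S x z ≤ Fintype.card ι * (C * (1 + Φ.d x z)) := by
  unfold Fam.S
  refine (Finset.sum_le_sum fun i _ => hΦ.up x i z).trans (le_of_eq ?_)
  rw [Finset.sum_const, Finset.card_univ, nsmul_eq_mul]

theorem d_nonneg (x : X) (z : ℂ) : 0 ≤ Φ.d x z := infDist_nonneg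

theorem S_pos (hΦ : Hyp Φ C c R₀) {x : X} {z : ℂ} (h : R₀ ≤ Φ.d x z) : 0 < Φ.S x z := by
  refine lt_of_lt_of_le ?_ (hΦ.low x z h)
  have := hΦ.R_ge
  exact mul_pos hΦ.c_pos (by linarith)

theorem S_c2 (hΦ : Hyp Φ C c R₀) {x : X} {z : ℂ} (h : R₀ ≤ Φ.d x z) : ContDiffAt ℝ 2 (Φ.S x) z := by
  have h1 : ContDiffAt ℝ 2 (fun w => ∑ i, Φ.lam x i w) z := ContDiffAt.sum fun i _ => hΦ.c2 x i z h
  exact h1

theorem lap_sum {s : Finset ι} {f : ι → ℂ → ℝ} {z : ℂ} (h : ∀ i ∈ s, ContDiffAt ℝ 2 (f i) z) :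
    Δ (fun w => ∑ i ∈ s, f i w) z = ∑ i ∈ s, Δ (f i) z := by
  classical
  induction s using Finset.induction_on with
  | empty => simp
  | insert i s hi ih =>
    have h1 : ContDiffAt ℝ 2 (f i) z := h i (Finset.mem_insert_self i s)
    have h2 : ContDiffAt ℝ 2 (fun w => ∑ i ∈ s, f i w) z := ContDiffAt.sum fun j hj => h j (Finset.mem_insert_of_mem hj)
    have h3 : (fun w => ∑ i ∈ insert i s, f i w) = f i + fun w => ∑ i ∈ s, f i w := by
      funext w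
      rw [Finset.sum_insert hi]
      rfl
    rw [h3, h1.laplacian_add h2, ih fun j hj => h j (Finset.mem_insert_of_mem hj), Finset.sum_insert hi]

theorem S_lap (hΦ : Hyp Φ C c R₀) {x : X} {z : ℂ} (h : R₀ ≤ Φ.d x z) : |Δ (Φ.S x) z| ≤ Fintype.card ι * C / Φ.d x z ^ 2 := by
  have h1 : Δ (Φ.S x) z = ∑ i, Δ (Φ.lam x i) z := lap_sum fun i _ => hΦ.c2 x i z h
  rw [h1]
  refine (Finset.abs_sum_le_sum_abs _ _).trans ((Finset.sum_le_sum fun i _ => hΦ.lap x i z h).trans (le_of_eq ?_))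
  rw [Finset.sum_const, Finset.card_univ, nsmul_eq_mul, mul_div_assoc]

theorem w_c2 (hΦ : Hyp Φ C c R₀) {x : X} {z : ℂ} (h : R₀ ≤ Φ.d x z) (i : ι) (t : ℝ) : ContDiffAt ℝ 2 (fun w => Φ.lam x i w - t * Φ.S x w) z :=
  (hΦ.c2 x i z h).sub (contDiffAt_const.mul (S_c2 hΦ h))

theorem w_lap (hΦ : Hyp Φ C c R₀) {x : X} {z : ℂ} (h : R₀ ≤ Φ.d x z) (i : ι) {t : ℝ} (ht : |t| ≤ 1) :
    |Δ (fun w => Φ.lam x i w - t * Φ.S x w) z| ≤ (1 + Fintype.card ι) * C / Φ.d x z ^ 2 := by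
  have h1 : (fun w => Φ.lam x i w - t * Φ.S x w) = Φ.lam x i - t • Φ.S x := by
    funext w
    simp
  have h2 : ContDiffAt ℝ 2 (t • Φ.S x) z := contDiffAt_const.smul (S_c2 hΦ h)
  rw [h1, (hΦ.c2 x i z h).laplacian_sub h2, laplacian_smul t (S_c2 hΦ h)]
  have h3 : |t • Δ (Φ.S x) z| ≤ Fintype.card ι * C / Φ.d x z ^ 2 := by
    rw [smul_eq_mul, abs_mul]
    exact (mul_le_of_le_one_left (abs_nonneg _) ht).trans (S_lap hΦ h)
  refine (abs_sub _ _).trans ((add_le_add (hΦ.lap x i z h) h3).trans (le_of_eq ?_))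
  ring

theorem gc_const_mul {f : ℂ → ℝ} {z : ℂ} (hf : DifferentiableAt ℝ f z) (t : ℝ) : gc (fun w => t * f w) z = t * gc f z := by
  unfold gc
  have h : fderiv ℝ (fun w => t * f w) z = t • fderiv ℝ f z := by
    rw [fderiv_const_mul hf]
  rw [h]
  simp
  ring

theorem w_gc (hΦ : Hyp Φ C c R₀) {x : X} {z : ℂ} (h : R₀ ≤ Φ.d x z) (i : ι) (t : ℝ) :
    gc (fun w => Φ.lam x i w - t * Φ.S x w) z = gc (Φ.lam x i) z - t * gc (Φ.S x) z := by
  have h1 : DifferentiableAt ℝ (Φ.lam x i) z := (hΦ.c2 x i z h).differentiableAt two_ne_zero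
  have h2 : DifferentiableAt ℝ (Φ.S x) z := (S_c2 hΦ h).differentiableAt two_ne_zero
  rw [Pool.Agent.SDR.gc_sub h1 (h2.const_mul t), gc_const_mul h2]

theorem quot_nonneg (hΦ : Hyp Φ C c R₀) (x : X) (i : ι) (z : ℂ) : 0 ≤ Φ.lam x i z / Φ.S x z := div_nonneg (hΦ.nn x i z) (S_nonneg hΦ x z)

theorem quot_le_one (hΦ : Hyp Φ C c R₀) (x : X) (i : ι) (z : ℂ) : Φ.lam x i z / Φ.S x z ≤ 1 := div_le_one_of_le₀ (lam_le_S hΦ x i z) (S_nonneg hΦ x z)

theorem abs_quot_le_one (hΦ : Hyp Φ C c R₀) (x : X) (i : ι) (z : ℂ) : |Φ.lam x i z / Φ.S x z| ≤ 1 := by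
  rw [abs_of_nonneg (quot_nonneg hΦ x i z)]
  exact quot_le_one hΦ x i z

theorem quot_sum {x : X} {z : ℂ} (h : 0 < Φ.S x z) : ∑ i, Φ.lam x i z / Φ.S x z = 1 := by
  rw [← Finset.sum_div]
  exact div_self h.ne'

/-- `OscLe` with the trivial bound -/
theorem oscLe_one (hΦ : Hyp Φ C c R₀) (κ r : ℝ) : OscLe Φ κ r 1 := by
  intro x a ha z hz z' hz' hw i
  have h1 := quot_nonneg hΦ x i z
  have h2 := quot_le_one hΦ x i z
  have h3 := quot_nonneg hΦ x i z'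
  have h4 := quot_le_one hΦ x i z'
  rw [abs_le]
  constructor <;> linarith

theorem d_good {x : X} {a : ℂ} (ha : a ∈ Φ.G x) : Φ.d x a = 0 := infDist_zero_of_mem ha

theorem d_le {x : X} {a : ℂ} (ha : a ∈ Φ.G x) (z : ℂ) : Φ.d x z ≤ ‖z - a‖ := by
  rw [← dist_eq_norm]
  exact infDist_le_dist_of_mem ha

theorem d_lip (x : X) (z w : ℂ) : Φ.d x z ≤ Φ.d x w + ‖z - w‖ := by
  rw [← dist_eq_norm]
  exact infDist_le_infDist_add_dist

theorem good_near (hΦ : Hyp Φ C c R₀) {x : X} {z : ℂ} {r : ℝ} (h : Φ.d x z < r) : ∃ a ∈ Φ.G x, ‖z - a‖ < r := by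
  obtain ⟨a, ha, h1⟩ := (infDist_lt_iff (hΦ.ne x)).1 h
  exact ⟨a, ha, by rwa [← dist_eq_norm]⟩

theorem continuous_ht (u a : ℂ) : Continuous (ht u a) := by
  unfold ht
  fun_prop

theorem ht_sub (u a z w : ℂ) : ht u a z - ht u a w = (star u * (z - w)).re := by
  unfold ht
  rw [← Complex.sub_re]
  congr 1
  ring

theorem abs_ht_sub_le {u : ℂ} (hu : ‖u‖ = 1) (a z w : ℂ) : |ht u a z - ht u a w| ≤ ‖z - w‖ := by
  rw [ht_sub]
  refine (Complex.abs_re_le_norm _).trans ?_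
  rw [norm_mul, norm_star, hu, one_mul]

theorem ht_combo (u a z w : ℂ) {s t : ℝ} (h : s + t = 1) : ht u a (s • z + t • w) = s * ht u a z + t * ht u a w := by
  unfold ht
  have h1 : star u * (s • z + t • w - a) = (s : ℂ) * (star u * (z - a)) + (t : ℂ) * (star u * (w - a)) := by
    have h2 : (s : ℂ) + t = 1 := by exact_mod_cast h
    simp only [Complex.real_smul]
    linear_combination (star u * a) * h2
  rw [h1, Complex.add_re, Complex.re_ofReal_mul, Complex.re_ofReal_mul]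

theorem convex_top (u a : ℂ) (R h : ℝ) : Convex ℝ (closedBall a R ∩ {z | h ≤ ht u a z}) := by
  refine (convex_closedBall a R).inter ?_
  intro z hz w hw s t hs ht' hst
  show h ≤ ht u a (s • z + t • w)
  rw [ht_combo u a z w hst]
  have h1 : h ≤ ht u a z := hz
  have h2 : h ≤ ht u a w := hw
  calc h = s * h + t * h := by rw [← add_mul, hst, one_mul]
    _ ≤ _ := add_le_add (mul_le_mul_of_nonneg_left h1 hs) (mul_le_mul_of_nonneg_left h2 ht')

theorem vee_top {u a : ℂ} {β β' : ℝ} {z : ℂ} (h : 0 ≤ ht u a z) : vee u a β β' z = β * ht u a z := by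
  unfold vee
  rw [max_eq_left h, max_eq_right (by linarith), mul_zero, add_zero]

theorem vee_low {u a : ℂ} {β β' : ℝ} {z : ℂ} (h : ht u a z ≤ 0) : vee u a β β' z = β' * (-ht u a z) := by
  unfold vee
  rw [max_eq_right h, max_eq_left (by linarith), mul_zero, zero_add]

theorem vee_sum (u a : ℂ) (β β' : ι → ℝ) (z : ℂ) : ∑ i, vee u a (β i) (β' i) z = vee u a (∑ i, β i) (∑ i, β' i) z := by
  unfold vee
  rw [Finset.sum_add_distrib, Finset.sum_mul, Finset.sum_mul]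

variable {A : ℝ}

theorem Fit.S {x : X} {a : ℂ} {R e : ℝ} {u : ℂ} {β β' : ι → ℝ} (h : Fit Φ x a R e A u β β') {z : ℂ} (hz : z ∈ closedBall a R) :
    |Φ.S x z - vee u a (∑ i, β i) (∑ i, β' i) z| ≤ Fintype.card ι * e := by
  rw [← vee_sum]
  unfold Fam.S
  rw [← Finset.sum_sub_distrib]
  refine (Finset.abs_sum_le_sum_abs _ _).trans ((Finset.sum_le_sum fun i _ => h.fit z hz i).trans (le_of_eq ?_))
  rw [Finset.sum_const, Finset.card_univ, nsmul_eq_mul]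

end Pool.Agent.SR3.BE
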