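import Pool.Agent.SR3.EDefs

/-!
# SR3 EDep: comparison of depth and height in a flat disc (MODULE Dep of block E)

`A |y| - n e ≤ S ≤ n C (1 + d)`; `c d ≤ S ≤ 3 n C |y| + n e` where `R₀ ≤ d`.
-/

set_option autoImplicit false

open Topology Filter Metric Complex InnerProductSpace Laplacian

noncomputable section

namespace Pool.Agent.SR3.BE

variable {X ι : Type} [Fintype ι] {Φ : Fam X ι} {C c R₀ A c₂ C₂ R₂ : ℝ}

/-- MODULE Dep.  The other side. -/
theorem Fit.flip {x : X} {a : ℂ} {R e : ℝ} {u : ℂ} {β β' : ι → ℝ} (h : Fit Φ x a R e A u β β') : Fit Φ x a R e A (-u) β' β := by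
  refine ⟨by rw [norm_neg]; exact h.nu, h.nβ', h.nβ, h.Aβ', h.Aβ, fun z hz i => ?_⟩
  rw [vee_neg]
  exact h.fit z hz i

omit [Fintype ι] in
private theorem d_le {x : X} {a : ℂ} (ha : a ∈ Φ.G x) (z : ℂ) : Φ.d x z ≤ ‖z - a‖ := by
  rw [← dist_eq_norm]
  exact infDist_le_dist_of_mem ha

private theorem rate_aux (hΦ : Hyp Φ C c R₀) {x : X} {a : ℂ} {R e : ℝ} {u : ℂ} {β β' : ι → ℝ} (ha : a ∈ Φ.G x) (hR : 1 ≤ R) (he : e ≤ R)
    (h : Fit Φ x a R e A u β β') (i : ι) : β i ≤ 3 * C := by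
  have hR0 : 0 < R := by linarith
  have hn : ‖(a + R * u) - a‖ = R := by
    rw [add_sub_cancel_left, norm_mul, h.nu, mul_one, Complex.norm_real, Real.norm_eq_abs, abs_of_pos hR0]
  have hz : (a + R * u) ∈ closedBall a R := by
    rw [mem_closedBall, dist_eq_norm, hn]
  have h1 := h.fit _ hz i
  have hy : ht u a (a + R * u) = R := by
    rw [ht_add h.nu]
    have : ht u a a = 0 := by simp [ht]
    rw [this, zero_add]
  have hv : vee u a (β i) (β' i) (a + R * u) = β i * R := by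
    unfold vee
    rw [hy, max_eq_left hR0.le, max_eq_right (by linarith), mul_zero, add_zero]
  rw [hv] at h1
  have h2 := hΦ.up x i (a + R * u)
  have h3 := d_le ha (a + R * u)
  rw [hn] at h3
  have h4 := hΦ.C_ge
  have h5 : β i * R ≤ C * (1 + Φ.d x (a + R * u)) + e := by
    have := neg_le_of_abs_le h1
    linarith
  have h6 : C * (1 + Φ.d x (a + R * u)) ≤ C * (2 * R) := mul_le_mul_of_nonneg_left (by linarith) (by linarith)
  have h7 : β i * R ≤ (3 * C) * R := by nlinarith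
  exact le_of_mul_le_mul_right h7 hR0

/-- MODULE Dep.  Bounds for the rates. -/
theorem Fit.rate_le (hΦ : Hyp Φ C c R₀) {x : X} {a : ℂ} {R e : ℝ} {u : ℂ} {β β' : ι → ℝ} (ha : a ∈ Φ.G x) (hR : 1 ≤ R) (he : e ≤ R)
    (h : Fit Φ x a R e A u β β') (i : ι) : β i ≤ 3 * C ∧ β' i ≤ 3 * C :=
  ⟨rate_aux hΦ ha hR he h i, rate_aux hΦ ha hR he h.flip i⟩

private theorem vee_le {u a : ℂ} {β β' b : ℝ} (h1 : β ≤ b) (h2 : β' ≤ b) (z : ℂ) : vee u a β β' z ≤ b * |ht u a z| := by
  unfold vee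
  rcases le_total 0 (ht u a z) with h | h
  · rw [max_eq_left h, max_eq_right (by linarith), mul_zero, add_zero, abs_of_nonneg h]
    exact mul_le_mul_of_nonneg_right h1 h
  · rw [max_eq_right h, max_eq_left (by linarith), mul_zero, zero_add, abs_of_nonpos h]
    exact mul_le_mul_of_nonneg_right h2 (by linarith)

private theorem sum_vee_ge {x : X} {a : ℂ} {R e : ℝ} {u : ℂ} {β β' : ι → ℝ} (h : Fit Φ x a R e A u β β') (z : ℂ) :
    A * |ht u a z| ≤ ∑ i, vee u a (β i) (β' i) z := by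
  unfold vee
  rw [Finset.sum_add_distrib, ← Finset.sum_mul, ← Finset.sum_mul]
  rcases le_total 0 (ht u a z) with h0 | h0
  · rw [max_eq_left h0, max_eq_right (by linarith), mul_zero, add_zero, abs_of_nonneg h0]
    exact mul_le_mul_of_nonneg_right h.Aβ h0
  · rw [max_eq_right h0, max_eq_left (by linarith), mul_zero, zero_add, abs_of_nonpos h0]
    exact mul_le_mul_of_nonneg_right h.Aβ' (by linarith)

/-- MODULE Dep.  `A |y| - n e ≤ S ≤ n C (1 + d)`; `c d ≤ S ≤ 3 n C |y| + n e` where `R₀ ≤ d` (`β i ≤ 3 C` from the value at `a + R u`). -/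
theorem exists_dep (hΦ : Hyp Φ C c R₀) (hA : 0 < A) : ∃ c₂ C₂ R₂ : ℝ, R₀ ≤ R₂ ∧ Dep Φ A c₂ C₂ R₂ := by
  have hC1 := hΦ.C_ge
  have hc0 := hΦ.c_pos
  have hR1 := hΦ.R_ge
  obtain ⟨n, hn⟩ : ∃ n : ℝ, n = (Fintype.card ι : ℝ) := ⟨_, rfl⟩
  have hn0 : 0 ≤ n := by rw [hn]; exact Nat.cast_nonneg _
  obtain ⟨K, hK⟩ : ∃ K : ℝ, K = n + 1 := ⟨_, rfl⟩
  have hK1 : 1 ≤ K := by linarith
  have hnK : n ≤ K := by linarith
  have hKC : 0 < K * C := by positivity
  obtain ⟨c₂, hc₂⟩ : ∃ c₂ : ℝ, c₂ = min 1 (min (A / (4 * (K * C))) (c / (6 * (K * C)))) := ⟨_, rfl⟩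
  have e1 : c₂ ≤ 1 := by rw [hc₂]; exact min_le_left _ _
  have e2 : c₂ * (4 * (K * C)) ≤ A := by
    have : c₂ ≤ A / (4 * (K * C)) := by rw [hc₂]; exact (min_le_right _ _).trans (min_le_left _ _)
    rwa [le_div_iff₀ (by positivity)] at this
  have e3 : c₂ * (6 * (K * C)) ≤ c := by
    have : c₂ ≤ c / (6 * (K * C)) := by rw [hc₂]; exact (min_le_right _ _).trans (min_le_right _ _)
    rwa [le_div_iff₀ (by positivity)] at this
  have e0 : 0 < c₂ := by rw [hc₂]; positivity
  have hK0 : 0 < K := by linarith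
  have e4 : K * c₂ * 4 ≤ A := by
    have : c₂ * (4 * K) * 1 ≤ c₂ * (4 * K) * C := mul_le_mul_of_nonneg_left hC1 (by positivity)
    linarith
  have e5 : K * c₂ * 6 ≤ c := by
    have : c₂ * (6 * K) * 1 ≤ c₂ * (6 * K) * C := mul_le_mul_of_nonneg_left hC1 (by positivity)
    linarith
  have he0' : ∀ {x : X} {a : ℂ} {R e : ℝ} {u : ℂ} {β β' : ι → ℝ}, Fit Φ x a R e A u β β' → ∀ z ∈ closedBall a R, 0 ≤ e := by
    intro x a R e u β β' h z hz
    rcases isEmpty_or_nonempty ι with hι | ⟨⟨i⟩⟩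
    · have := h.Aβ
      simp at this
      linarith
    · exact (abs_nonneg _).trans (h.fit z hz i)
  -- sums
  have lower : ∀ {x : X} {a : ℂ} {R e : ℝ} {u : ℂ} {β β' : ι → ℝ}, Fit Φ x a R e A u β β' → ∀ z ∈ closedBall a R,
      A * |ht u a z| ≤ n * (C * (1 + Φ.d x z)) + n * e := by
    intro x a R e u β β' h z hz
    have h1 := sum_vee_ge h z
    have h2 : ∑ i, vee u a (β i) (β' i) z ≤ ∑ _i : ι, (C * (1 + Φ.d x z) + e) := by
      refine Finset.sum_le_sum fun i _ => ?_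
      have h3 := neg_le_of_abs_le (h.fit z hz i)
      have h4 := hΦ.up x i z
      linarith
    rw [Finset.sum_const, Finset.card_univ, nsmul_eq_mul, ← hn] at h2
    calc A * |ht u a z| ≤ _ := h1
      _ ≤ n * (C * (1 + Φ.d x z) + e) := h2
      _ = _ := by ring
  have upper : ∀ {x : X} {a : ℂ} {R e : ℝ} {u : ℂ} {β β' : ι → ℝ}, a ∈ Φ.G x → 1 ≤ R → e ≤ R → Fit Φ x a R e A u β β' → ∀ z ∈ closedBall a R,
      R₀ ≤ Φ.d x z → c * Φ.d x z ≤ n * (3 * C) * |ht u a z| + n * e := by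
    intro x a R e u β β' ha hR he h z hz hd
    have h1 := hΦ.low x z hd
    have h2 : Φ.S x z ≤ ∑ _i : ι, (3 * C * |ht u a z| + e) := by
      refine Finset.sum_le_sum fun i _ => ?_
      have h3 := le_of_abs_le (h.fit z hz i)
      have h4 := h.rate_le hΦ ha hR he i
      have h5 := vee_le (u := u) (a := a) h4.1 h4.2 z
      linarith
    rw [Finset.sum_const, Finset.card_univ, nsmul_eq_mul, ← hn] at h2
    calc c * Φ.d x z ≤ _ := h1
      _ ≤ n * (3 * C * |ht u a z| + e) := h2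
      _ = _ := by ring
  refine ⟨c₂, max 1 (4 * (K * C) / c), max R₀ (4 * (K * C) / A), le_max_left _ _, e0, e1, le_max_left _ _, hR1.trans (le_max_left _ _), ?_, ?_⟩
  · intro x a R e u β β' ha hR h z hz hy he
    have hy0 : 0 ≤ |ht u a z| := abs_nonneg _
    have hyR₀ : R₀ ≤ |ht u a z| := (le_max_left _ _).trans hy
    have hyA : 4 * (K * C) ≤ A * |ht u a z| := by
      have := (le_max_right _ _).trans hy
      rw [div_le_iff₀ hA] at this
      linarith
    have hzR : ‖z - a‖ ≤ R := by rwa [mem_closedBall, dist_eq_norm] at hz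
    have hyz : |ht u a z| ≤ ‖z - a‖ := abs_ht_le h.nu a z
    have heR : e ≤ R := he.trans ((mul_le_of_le_one_left hy0 e1).trans (hyz.trans hzR))
    have he0 : 0 ≤ e := he0' h z hz
    have hd0 : 0 ≤ Φ.d x z := infDist_nonneg
    have h3 : n * e ≤ K * (c₂ * |ht u a z|) := mul_le_mul hnK he he0 (by linarith)
    constructor
    · have h1 := lower h z hz
      have h2 : n * e ≤ A * |ht u a z| / 4 := by
        have := mul_le_mul_of_nonneg_right e4 hy0
        linarith
      have h5 : n * (C * (1 + Φ.d x z)) ≤ K * (C * (1 + Φ.d x z)) := mul_le_mul_of_nonneg_right hnK (by positivity)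
      have h7 : A * |ht u a z| / 2 ≤ K * C * Φ.d x z := by linarith
      have h8 := mul_le_mul_of_nonneg_right e2 hy0
      have h9 : c₂ * |ht u a z| * (4 * (K * C)) ≤ Φ.d x z * (4 * (K * C)) := by
        linarith [mul_nonneg hKC.le hd0]
      exact le_of_mul_le_mul_right h9 (by positivity)
    · rcases le_or_gt R₀ (Φ.d x z) with hd | hd
      · have h1 := upper ha hR heR h z hz hd
        have h2 : n * e ≤ K * C * |ht u a z| := by
          have h4 : c₂ * |ht u a z| ≤ C * |ht u a z| := mul_le_mul_of_nonneg_right (by linarith) hy0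
          have := mul_le_mul_of_nonneg_left h4 hK0.le
          linarith
        have h3 : n * (3 * C * |ht u a z|) ≤ K * (3 * C * |ht u a z|) := mul_le_mul_of_nonneg_right hnK (by positivity)
        have h4 : c * Φ.d x z ≤ 4 * (K * C) * |ht u a z| := by linarith
        have h5 : Φ.d x z ≤ 4 * (K * C) / c * |ht u a z| := by
          rw [div_mul_eq_mul_div, le_div_iff₀ hc0]
          linarith
        exact h5.trans (mul_le_mul_of_nonneg_right (le_max_right _ _) hy0)
      · calc Φ.d x z ≤ 1 * |ht u a z| := by linarith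
          _ ≤ _ := mul_le_mul_of_nonneg_right (le_max_left _ _) hy0
  · intro x a R e u β β' ha hR h z hz hd he
    have hy0 : 0 ≤ |ht u a z| := abs_nonneg _
    have hdR₀ : R₀ ≤ Φ.d x z := (le_max_left _ _).trans hd
    have hzR : ‖z - a‖ ≤ R := by rwa [mem_closedBall, dist_eq_norm] at hz
    have hd0 : 0 ≤ Φ.d x z := infDist_nonneg
    have hdz := d_le ha z
    have heR : e ≤ R := he.trans ((mul_le_of_le_one_left hd0 e1).trans (hdz.trans hzR))
    have he0 : 0 ≤ e := he0' h z hz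
    have h1 := upper ha hR heR h z hz hdR₀
    have h2 : n * e ≤ c * Φ.d x z / 6 := by
      have h3 : n * e ≤ K * (c₂ * Φ.d x z) := mul_le_mul hnK he he0 (by linarith)
      have := mul_le_mul_of_nonneg_right e5 hd0
      linarith
    have h3 : n * (3 * C * |ht u a z|) ≤ K * (3 * C * |ht u a z|) := mul_le_mul_of_nonneg_right hnK (by positivity)
    have h4 : 5 / 6 * (c * Φ.d x z) ≤ 3 * (K * C) * |ht u a z| := by linarith
    have h5 := mul_le_mul_of_nonneg_right e3 hd0
    have h6 : c₂ * Φ.d x z * (6 * (K * C)) ≤ |ht u a z| * (6 * (K * C)) := by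
      linarith [mul_nonneg hKC.le hy0]
    exact le_of_mul_le_mul_right h6 (by positivity)

end Pool.Agent.SR3.BE
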