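import Pool.Agent.SR3.EDefs

/-!
# SR3 EHalfB: odd functions on a circle

`odd_approx`: an odd continuous function on the circle of radius `R` is within `ε` of `f = Im (∑ c_k z ^ (k + 1))` with real `c_k`;
`|c_k| R ^ (k + 1) ≤ 2 (M + ε)`.
-/

set_option autoImplicit false

open Topology Filter Metric Complex InnerProductSpace Laplacian

noncomputable section

namespace Pool.Agent.SR3.BE

instance ehb_fact : Fact ((0 : ℝ) < 2 * Real.pi) := ⟨Real.two_pi_pos⟩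

/-- the span of the functions `Im z ^ (k + 1)` -/
def ehbV : Submodule ℝ (ℂ → ℝ) := Submodule.span ℝ (Set.range fun k : ℕ => fun z : ℂ => (z ^ (k + 1)).im)

theorem ehb_gen (k : ℕ) : (fun z : ℂ => (z ^ (k + 1)).im) ∈ ehbV := Submodule.subset_span ⟨k, rfl⟩

theorem ehb_rep {f : ℂ → ℝ} (hf : f ∈ ehbV) : ∃ (N : ℕ) (c : ℕ → ℝ), ∀ z, f z = ∑ k ∈ Finset.range (N + 1), c k * (z ^ (k + 1)).im := by
  obtain ⟨c, hc⟩ := (Finsupp.mem_span_range_iff_exists_finsupp).1 hf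
  refine ⟨c.support.sup id, c, fun z => ?_⟩
  rw [← hc, Finsupp.sum_of_support_subset c (s := Finset.range (c.support.sup id + 1))]
  · simp [Finset.sum_apply]
  · intro k hk
    rw [Finset.mem_range]
    have : id k ≤ c.support.sup id := Finset.le_sup hk
    simp only [id] at this
    omega
  · intro k _
    simp

/-- `g t = (p t - p (-t)) / 2` -/
def ehbOdd (p : AddCircle (2 * Real.pi) → ℂ) (t : AddCircle (2 * Real.pi)) : ℂ := (p t - p (-t)) / 2

theorem ehb_fourier {R : ℝ} (hR : 0 < R) (n : ℤ) : ∃ h ∈ ehbV, ∀ t : AddCircle (2 * Real.pi),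
    ehbOdd (fun t => fourier n t) t = (h (R * (AddCircle.toCircle t : ℂ)) : ℂ) * I := by
  have key : ∀ k : ℕ, ∀ t : AddCircle (2 * Real.pi), ehbOdd (fun t => fourier ((k : ℤ) + 1) t) t =
      (((R ^ (k + 1))⁻¹ * ((R * (AddCircle.toCircle t : ℂ)) ^ (k + 1)).im : ℝ) : ℂ) * I := by
    intro k t
    have e1 : fourier ((k : ℤ) + 1) t = (AddCircle.toCircle t : ℂ) ^ (k + 1) := by
      rw [fourier_apply, AddCircle.toCircle_zsmul]
      push_cast
      norm_cast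
    have e2 : fourier ((k : ℤ) + 1) (-t) = (starRingEnd ℂ) ((AddCircle.toCircle t : ℂ) ^ (k + 1)) := by
      rw [← e1, ← fourier_neg, fourier_apply, fourier_apply, smul_neg, neg_smul]
    show (fourier ((k : ℤ) + 1) t - fourier ((k : ℤ) + 1) (-t)) / 2 = _
    rw [e1, e2, mul_pow, ← Complex.ofReal_pow, Complex.im_ofReal_mul, ← mul_assoc, inv_mul_cancel₀ (by positivity), one_mul, Complex.sub_conj]
    push_cast
    ring
  have hR0 : R ≠ 0 := hR.ne'
  rcases lt_trichotomy n 0 with hn | hn | hn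
  · obtain ⟨k, rfl⟩ : ∃ k : ℕ, n = -((k : ℤ) + 1) := ⟨(-n - 1).toNat, by omega⟩
    refine ⟨(-(R ^ (k + 1))⁻¹) • fun z : ℂ => (z ^ (k + 1)).im, ehbV.smul_mem _ (ehb_gen k), fun t => ?_⟩
    have e1 : ehbOdd (fun t => fourier (-((k : ℤ) + 1)) t) t = - ehbOdd (fun t => fourier ((k : ℤ) + 1) t) t := by
      have e2 : ∀ s : AddCircle (2 * Real.pi), fourier (-((k : ℤ) + 1)) s = fourier ((k : ℤ) + 1) (-s) := by
        intro s
        rw [fourier_apply, fourier_apply, smul_neg, neg_smul]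
      show (fourier (-((k : ℤ) + 1)) t - fourier (-((k : ℤ) + 1)) (-t)) / 2 = -((fourier ((k : ℤ) + 1) t - fourier ((k : ℤ) + 1) (-t)) / 2)
      rw [e2, e2, neg_neg]
      ring
    rw [e1, key]
    simp only [Pi.smul_apply, smul_eq_mul]
    push_cast
    ring
  · refine ⟨0, ehbV.zero_mem, fun t => ?_⟩
    subst hn
    unfold ehbOdd
    simp
  · obtain ⟨k, rfl⟩ : ∃ k : ℕ, n = (k : ℤ) + 1 := ⟨(n - 1).toNat, by omega⟩
    refine ⟨((R ^ (k + 1))⁻¹) • fun z : ℂ => (z ^ (k + 1)).im, ehbV.smul_mem _ (ehb_gen k), fun t => ?_⟩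
    rw [key]
    rfl

/-- odd parts of trigonometric polynomials -/
theorem ehb_span {R : ℝ} (hR : 0 < R) {p : C(AddCircle (2 * Real.pi), ℂ)} (hp : p ∈ Submodule.span ℂ (Set.range (@fourier (2 * Real.pi)))) :
    ∃ h₁ ∈ ehbV, ∃ h₂ ∈ ehbV, ∀ t : AddCircle (2 * Real.pi),
      ehbOdd p t = (h₁ (R * (AddCircle.toCircle t : ℂ)) : ℂ) + (h₂ (R * (AddCircle.toCircle t : ℂ)) : ℂ) * I := by
  induction hp using Submodule.span_induction with
  | mem x hx =>
    obtain ⟨n, rfl⟩ := hx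
    obtain ⟨h, hh, h1⟩ := ehb_fourier hR n
    refine ⟨0, ehbV.zero_mem, h, hh, fun t => ?_⟩
    show ehbOdd (fun t => fourier n t) t = _
    rw [h1, Pi.zero_apply, Complex.ofReal_zero, zero_add]
  | zero =>
    refine ⟨0, ehbV.zero_mem, 0, ehbV.zero_mem, fun t => ?_⟩
    simp [ehbOdd]
  | add x y _ _ hx hy =>
    obtain ⟨h₁, m₁, h₂, m₂, e⟩ := hx
    obtain ⟨h₁', m₁', h₂', m₂', e'⟩ := hy
    refine ⟨h₁ + h₁', ehbV.add_mem m₁ m₁', h₂ + h₂', ehbV.add_mem m₂ m₂', fun t => ?_⟩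
    have e3 : ehbOdd (x + y : C(AddCircle (2 * Real.pi), ℂ)) t = ehbOdd x t + ehbOdd y t := by
      simp only [ehbOdd, ContinuousMap.add_apply]
      ring
    rw [e3, e, e']
    simp only [Pi.add_apply]
    push_cast
    ring
  | smul a x _ hx =>
    obtain ⟨h₁, m₁, h₂, m₂, e⟩ := hx
    refine ⟨a.re • h₁ - a.im • h₂, ehbV.sub_mem (ehbV.smul_mem _ m₁) (ehbV.smul_mem _ m₂), a.im • h₁ + a.re • h₂,
      ehbV.add_mem (ehbV.smul_mem _ m₁) (ehbV.smul_mem _ m₂), fun t => ?_⟩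
    have e3 : ehbOdd (a • x : C(AddCircle (2 * Real.pi), ℂ)) t = a * ehbOdd x t := by
      simp only [ehbOdd, ContinuousMap.smul_apply, smul_eq_mul]
      ring
    rw [e3, e]
    simp only [Pi.add_apply, Pi.sub_apply, Pi.smul_apply, smul_eq_mul]
    push_cast
    have ha : a = (a.re : ℂ) + (a.im : ℂ) * I := (Complex.re_add_im a).symm
    conv_lhs => rw [ha]
    ring_nf
    rw [Complex.I_sq]
    ring

theorem ehb_sphere {z : ℂ} {R : ℝ} (hz : z ∈ sphere (0 : ℂ) R) : ∃ t : AddCircle (2 * Real.pi), z = R * (AddCircle.toCircle t : ℂ) := by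
  refine ⟨((Complex.arg z : ℝ) : AddCircle (2 * Real.pi)), ?_⟩
  rw [AddCircle.toCircle_apply_mk, div_self (by positivity), one_mul, Circle.coe_exp]
  rw [mem_sphere_zero_iff_norm] at hz
  rw [← hz]
  exact (Complex.norm_mul_exp_arg_mul_I z).symm

/-- the approximation -/
theorem ehb_approx {φ : ℂ → ℝ} {R ε : ℝ} (hR : 0 < R) (hε : 0 < ε) (hφ : ContinuousOn φ (sphere 0 R))
    (hodd : ∀ z ∈ sphere (0 : ℂ) R, φ (star z) = - φ z) : ∃ f ∈ ehbV, ∀ z ∈ sphere (0 : ℂ) R, |f z - φ z| ≤ ε := by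
  have hmem : ∀ t : AddCircle (2 * Real.pi), (R * (AddCircle.toCircle t : ℂ) : ℂ) ∈ sphere (0 : ℂ) R := by
    intro t
    rw [mem_sphere_zero_iff_norm, norm_mul, Circle.norm_coe, mul_one, Complex.norm_real, Real.norm_of_nonneg hR.le]
  have hcont : Continuous fun t : AddCircle (2 * Real.pi) => (R * (AddCircle.toCircle t : ℂ) : ℂ) := by
    have := AddCircle.continuous_toCircle (T := 2 * Real.pi)
    fun_prop
  let g : C(AddCircle (2 * Real.pi), ℂ) := ⟨fun t => (φ (R * (AddCircle.toCircle t : ℂ)) : ℂ), by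
    have h1 : Continuous fun t : AddCircle (2 * Real.pi) => φ (R * (AddCircle.toCircle t : ℂ)) := hφ.comp_continuous hcont hmem
    exact Complex.continuous_ofReal.comp h1⟩
  have hg : g ∈ (Submodule.span ℂ (Set.range (@fourier (2 * Real.pi)))).topologicalClosure := by
    rw [span_fourier_closure_eq_top]
    trivial
  have hg' : g ∈ closure ((Submodule.span ℂ (Set.range (@fourier (2 * Real.pi))) : Submodule ℂ C(AddCircle (2 * Real.pi), ℂ)) :
      Set C(AddCircle (2 * Real.pi), ℂ)) := hg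
  obtain ⟨p, hp, hd⟩ := Metric.mem_closure_iff.1 hg' ε hε
  obtain ⟨f, hf, f₂, -, hfp⟩ := ehb_span hR hp
  refine ⟨f, hf, fun z hz => ?_⟩
  obtain ⟨t, rfl⟩ := ehb_sphere hz
  have h1 : ∀ s, ‖g s - p s‖ ≤ ε := by
    intro s
    have h2 := ContinuousMap.dist_apply_le_dist (f := g) (g := p) s
    rw [dist_eq_norm] at h2
    exact h2.trans hd.le
  have h2 : g (-t) = - g t := by
    show ((φ (R * (AddCircle.toCircle (-t) : ℂ)) : ℝ) : ℂ) = - ((φ (R * (AddCircle.toCircle t : ℂ)) : ℝ) : ℂ)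
    have h3 := hodd _ (hmem t)
    have h4 : star (R * (AddCircle.toCircle t : ℂ) : ℂ) = R * (AddCircle.toCircle (-t) : ℂ) := by
      show (starRingEnd ℂ) (R * (AddCircle.toCircle t : ℂ) : ℂ) = _
      rw [AddCircle.toCircle_neg, Circle.coe_inv_eq_conj, map_mul, Complex.conj_ofReal]
    rw [← h4, h3]
    push_cast
    ring
  have h3 : ehbOdd p t - g t = ((p t - g t) - (p (-t) - g (-t))) / 2 := by
    rw [h2]
    unfold ehbOdd
    ring
  have h4 : ‖ehbOdd p t - g t‖ ≤ ε := by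
    rw [h3, norm_div]
    have h5 := norm_sub_le (p t - g t) (p (-t) - g (-t))
    have h6 := h1 t
    have h7 := h1 (-t)
    rw [norm_sub_rev] at h6 h7
    have h8 : ‖(2 : ℂ)‖ = 2 := by norm_num
    rw [h8, div_le_iff₀ two_pos]
    linarith
  have h5 : f (R * (AddCircle.toCircle t : ℂ)) - φ (R * (AddCircle.toCircle t : ℂ)) = (ehbOdd p t - g t).re := by
    rw [hfp t]
    show _ = (_ + _ - ((φ (R * (AddCircle.toCircle t : ℂ)) : ℝ) : ℂ)).re
    simp
  rw [h5]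
  exact (Complex.abs_re_le_norm _).trans h4

/-! ## the coefficients -/

theorem ehb_int_cos {j : ℤ} (hj : j ≠ 0) : ∫ θ in (0 : ℝ)..2 * Real.pi, Real.cos (j * θ) = 0 := by
  have hj' : (j : ℝ) ≠ 0 := Int.cast_ne_zero.2 hj
  rw [intervalIntegral.integral_comp_mul_left (fun x => Real.cos x) hj', integral_cos]
  have h1 : Real.sin ((j : ℝ) * (2 * Real.pi)) = 0 := by
    have := Real.sin_int_mul_pi (2 * j)
    rw [← this]
    congr 1
    push_cast
    ring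
  rw [h1]
  simp

theorem ehb_int_sin (j k : ℕ) : ∫ θ in (0 : ℝ)..2 * Real.pi, Real.sin (((j + 1 : ℕ) : ℝ) * θ) * Real.sin (((k + 1 : ℕ) : ℝ) * θ) =
    if j = k then Real.pi else 0 := by
  have e1 : ∀ θ : ℝ, Real.sin (((j + 1 : ℕ) : ℝ) * θ) * Real.sin (((k + 1 : ℕ) : ℝ) * θ) =
      (1 / 2) * (Real.cos (((j : ℤ) - k : ℤ) * θ) - Real.cos (((j : ℤ) + k + 2 : ℤ) * θ)) := by
    intro θ
    have h1 : ((((j : ℤ) - k : ℤ) : ℝ) * θ) = ((j + 1 : ℕ) : ℝ) * θ - ((k + 1 : ℕ) : ℝ) * θ := by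
      push_cast
      ring
    have h2 : ((((j : ℤ) + k + 2 : ℤ) : ℝ) * θ) = ((j + 1 : ℕ) : ℝ) * θ + ((k + 1 : ℕ) : ℝ) * θ := by
      push_cast
      ring
    rw [h1, h2, Real.cos_sub, Real.cos_add]
    ring
  have hi : ∀ m : ℤ, IntervalIntegrable (fun θ : ℝ => Real.cos (m * θ)) MeasureTheory.volume 0 (2 * Real.pi) := fun m =>
    (Continuous.intervalIntegrable (by fun_prop) _ _)
  rw [intervalIntegral.integral_congr (g := fun θ => (1 / 2) * (Real.cos (((j : ℤ) - k : ℤ) * θ) - Real.cos (((j : ℤ) + k + 2 : ℤ) * θ)))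
    fun θ _ => e1 θ, intervalIntegral.integral_const_mul, intervalIntegral.integral_sub (hi _) (hi _),
    ehb_int_cos (j := (j : ℤ) + k + 2) (by omega)]
  split_ifs with h
  · subst h
    simp
  · rw [ehb_int_cos (j := (j : ℤ) - k) (by omega)]
    simp

/-- the coefficients of `f` -/
theorem ehb_coeff {N : ℕ} {c : ℕ → ℝ} {R B : ℝ} (hR : 0 < R) (hB : ∀ z ∈ sphere (0 : ℂ) R, |∑ k ∈ Finset.range (N + 1), c k * (z ^ (k + 1)).im| ≤ B)
    {k : ℕ} (hk : k ∈ Finset.range (N + 1)) : |c k| * R ^ (k + 1) ≤ 2 * B := by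
  have hpi := Real.pi_pos
  have e0 : ∀ (θ : ℝ) (j : ℕ), (((R : ℂ) * exp (θ * I)) ^ (j + 1)).im = R ^ (j + 1) * Real.sin (((j + 1 : ℕ) : ℝ) * θ) := by
    intro θ j
    rw [mul_pow, ← Complex.exp_nat_mul, ← Complex.ofReal_pow, Complex.im_ofReal_mul]
    have h1 : ((j + 1 : ℕ) : ℂ) * (θ * I) = ((((j + 1 : ℕ) : ℝ) * θ : ℝ) : ℂ) * I := by
      push_cast
      ring
    rw [h1, Complex.exp_ofReal_mul_I_im]
  have e1 : ∫ θ in (0 : ℝ)..2 * Real.pi, (∑ j ∈ Finset.range (N + 1), c j * (((R : ℂ) * exp (θ * I)) ^ (j + 1)).im) * Real.sin (((k + 1 : ℕ) : ℝ) * θ) =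
      c k * R ^ (k + 1) * Real.pi := by
    have e2 : ∀ θ : ℝ, (∑ j ∈ Finset.range (N + 1), c j * (((R : ℂ) * exp (θ * I)) ^ (j + 1)).im) * Real.sin (((k + 1 : ℕ) : ℝ) * θ) =
        ∑ j ∈ Finset.range (N + 1), (c j * R ^ (j + 1)) * (Real.sin (((j + 1 : ℕ) : ℝ) * θ) * Real.sin (((k + 1 : ℕ) : ℝ) * θ)) := by
      intro θ
      rw [Finset.sum_mul]
      refine Finset.sum_congr rfl fun j _ => ?_
      rw [e0]
      ring
    rw [intervalIntegral.integral_congr fun θ _ => e2 θ, intervalIntegral.integral_finsetSum]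
    · simp only [intervalIntegral.integral_const_mul, ehb_int_sin]
      simp only [mul_ite, mul_zero, Finset.sum_ite_eq', if_pos hk]
    · intro j _
      exact Continuous.intervalIntegrable (by fun_prop) _ _
  have e2 : |c k * R ^ (k + 1) * Real.pi| ≤ B * |2 * Real.pi - 0| := by
    rw [← e1, ← Real.norm_eq_abs]
    refine intervalIntegral.norm_integral_le_of_norm_le_const fun θ _ => ?_
    rw [norm_mul, Real.norm_eq_abs, Real.norm_eq_abs]
    have h1 : ((R : ℂ) * exp (θ * I)) ∈ sphere (0 : ℂ) R := by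
      rw [mem_sphere_zero_iff_norm, norm_mul, Complex.norm_exp_ofReal_mul_I, mul_one, Complex.norm_real, Real.norm_of_nonneg hR.le]
    have h2 := hB _ h1
    have h3 := Real.abs_sin_le_one (((k + 1 : ℕ) : ℝ) * θ)
    have h4 : 0 ≤ B := (abs_nonneg _).trans h2
    calc _ ≤ B * 1 := mul_le_mul h2 h3 (abs_nonneg _) h4
      _ = B := mul_one B
  rw [sub_zero, abs_mul, abs_mul, abs_of_pos (by positivity : (0 : ℝ) < R ^ (k + 1)), abs_of_pos hpi, abs_of_pos (by positivity : 0 < 2 * Real.pi)] at e2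
  have e3 : |c k| * R ^ (k + 1) * Real.pi ≤ (2 * B) * Real.pi := by linarith
  exact le_of_mul_le_mul_right e3 hpi

theorem ehb_smooth {f : ℂ → ℝ} (hf : f ∈ ehbV) : ContDiff ℝ 2 f ∧ (∀ z, Δ f z = 0) ∧ ∀ z : ℂ, z.im = 0 → f z = 0 := by
  obtain ⟨N, c, hc⟩ := ehb_rep hf
  have e1 : f = fun z => (∑ k ∈ Finset.range (N + 1), (c k : ℂ) * z ^ (k + 1)).im := by
    funext z
    rw [hc, Complex.im_sum]
    exact Finset.sum_congr rfl fun k _ => (Complex.im_ofReal_mul _ _).symm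
  have h1 : ∀ z, AnalyticAt ℂ (fun z : ℂ => ∑ k ∈ Finset.range (N + 1), (c k : ℂ) * z ^ (k + 1)) z := by
    intro z
    fun_prop
  have h2 : ∀ z, HarmonicAt f z := by
    intro z
    rw [e1]
    exact (h1 z).harmonicAt_im
  refine ⟨contDiff_iff_contDiffAt.2 fun z => (h2 z).1, fun z => (h2 z).2.self_of_nhds, fun z hz => ?_⟩
  rw [hc]
  refine Finset.sum_eq_zero fun k _ => ?_
  have h3 : z = (z.re : ℂ) := Complex.ext (by simp) (by simp [hz])
  rw [h3, ← Complex.ofReal_pow, Complex.ofReal_im, mul_zero]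

theorem odd_approx {φ : ℂ → ℝ} {R M ε : ℝ} (hR : 0 < R) (hM : 0 ≤ M) (hε : 0 < ε) (hφ : ContinuousOn φ (sphere 0 R))
    (hodd : ∀ z ∈ sphere (0 : ℂ) R, φ (star z) = - φ z) (hb : ∀ z ∈ sphere (0 : ℂ) R, |φ z| ≤ M) :
    ∃ (f : ℂ → ℝ) (b : ℝ), ContDiff ℝ 2 f ∧ (∀ z, Δ f z = 0) ∧ (∀ z : ℂ, z.im = 0 → f z = 0) ∧ (∀ z ∈ sphere (0 : ℂ) R, |f z - φ z| ≤ ε) ∧
      |b| ≤ 8 * (M + ε) / R ∧ ∀ z ∈ closedBall (0 : ℂ) (R / 2), |f z - b * z.im| ≤ 16 * (M + ε) * ‖z‖ ^ 2 / R ^ 2 := by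
  obtain ⟨f, hf, hfφ⟩ := ehb_approx hR hε hφ hodd
  obtain ⟨h1, h2, h3⟩ := ehb_smooth hf
  obtain ⟨N, c, hc⟩ := ehb_rep hf
  have hB : ∀ z ∈ sphere (0 : ℂ) R, |∑ k ∈ Finset.range (N + 1), c k * (z ^ (k + 1)).im| ≤ M + ε := by
    intro z hz
    rw [← hc]
    have h4 := hfφ z hz
    have h5 := hb z hz
    calc |f z| = |φ z + (f z - φ z)| := by rw [add_sub_cancel]
      _ ≤ |φ z| + |f z - φ z| := abs_add_le _ _
      _ ≤ M + ε := by linarith
  have hMε : 0 < M + ε := by linarith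
  refine ⟨f, c 0, h1, h2, h3, hfφ, ?_, fun z hz => ?_⟩
  · have h4 := ehb_coeff hR hB (k := 0) (by simp)
    rw [le_div_iff₀ hR]
    simp only [zero_add, pow_one] at h4
    linarith
  · rw [mem_closedBall_zero_iff] at hz
    rw [hc, Finset.sum_range_succ', zero_add, pow_one, add_sub_cancel_right]
    have hzR : ‖z‖ / R ≤ 1 / 2 := by
      rw [div_le_iff₀ hR]
      linarith
    have hzR0 : 0 ≤ ‖z‖ / R := by positivity
    have h4 : ∀ k ∈ Finset.range N, |c (k + 1) * (z ^ (k + 1 + 1)).im| ≤ 2 * (M + ε) * (‖z‖ / R) ^ 2 * (1 / 2) ^ k := by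
      intro k hk
      have h5 := ehb_coeff hR hB (k := k + 1) (by
        rw [Finset.mem_range] at hk ⊢
        omega)
      have h6 : |(z ^ (k + 1 + 1)).im| ≤ ‖z‖ ^ (k + 1 + 1) := (Complex.abs_im_le_norm _).trans (norm_pow _ _).le
      rw [abs_mul]
      calc |c (k + 1)| * |(z ^ (k + 1 + 1)).im| ≤ |c (k + 1)| * ‖z‖ ^ (k + 1 + 1) := mul_le_mul_of_nonneg_left h6 (abs_nonneg _)
        _ = (|c (k + 1)| * R ^ (k + 1 + 1)) * (‖z‖ / R) ^ (k + 1 + 1) := by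
            rw [div_pow, mul_assoc, mul_div_cancel₀ _ (by positivity)]
        _ ≤ (2 * (M + ε)) * (‖z‖ / R) ^ (k + 1 + 1) := mul_le_mul_of_nonneg_right h5 (by positivity)
        _ = 2 * (M + ε) * (‖z‖ / R) ^ 2 * (‖z‖ / R) ^ k := by ring
        _ ≤ 2 * (M + ε) * (‖z‖ / R) ^ 2 * (1 / 2) ^ k := by
            refine mul_le_mul_of_nonneg_left (pow_le_pow_left₀ hzR0 hzR k) (by positivity)
    calc |∑ k ∈ Finset.range N, c (k + 1) * (z ^ (k + 1 + 1)).im| ≤ ∑ k ∈ Finset.range N, |c (k + 1) * (z ^ (k + 1 + 1)).im| := Finset.abs_sum_le_sum_abs _ _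
      _ ≤ ∑ k ∈ Finset.range N, 2 * (M + ε) * (‖z‖ / R) ^ 2 * (1 / 2) ^ k := Finset.sum_le_sum h4
      _ = 2 * (M + ε) * (‖z‖ / R) ^ 2 * ∑ k ∈ Finset.range N, (1 / 2 : ℝ) ^ k := by rw [Finset.mul_sum]
      _ ≤ 2 * (M + ε) * (‖z‖ / R) ^ 2 * 2 := mul_le_mul_of_nonneg_left (sum_geometric_two_le N) (by positivity)
      _ ≤ 16 * (M + ε) * ‖z‖ ^ 2 / R ^ 2 := by
          have h5 : 16 * (M + ε) * ‖z‖ ^ 2 / R ^ 2 = 16 * (M + ε) * (‖z‖ / R) ^ 2 := by
            rw [div_pow]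
            ring
          rw [h5]
          nlinarith [mul_nonneg hMε.le (sq_nonneg (‖z‖ / R))]

end Pool.Agent.SR3.BE
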