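import Pool.Agent.SR3.EHalfA
import Pool.Agent.SR3.EHalfB

/-!
# SR3 EHalf: the half disc lemma
-/

set_option autoImplicit false

open Topology Filter Metric Complex InnerProductSpace Laplacian

noncomputable section

namespace Pool.Agent.SR3.BE


/-- maximum principle, not strict -/
theorem weak_max0 {K : Set ℂ} (hK : IsCompact K) {f : ℂ → ℝ} (hf : ContinuousOn f K)
    (hin : ∀ z ∈ interior K, ContDiffAt ℝ 2 f z ∧ 0 ≤ Δ f z) (hb : ∀ z ∈ K, z ∉ interior K → f z ≤ 0) : ∀ z ∈ K, f z ≤ 0 := by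
  have hcont : Continuous fun z : ℂ => ht 1 0 z * ht 1 0 z := (ht_continuous 1 0).mul (ht_continuous 1 0)
  obtain ⟨B, hB⟩ := hK.bddAbove_image (f := fun z : ℂ => ht 1 0 z * ht 1 0 z) hcont.continuousOn
  have hB' : ∀ z ∈ K, ht 1 0 z * ht 1 0 z ≤ B := fun z hz => hB ⟨z, hz, rfl⟩
  have key : ∀ δ : ℝ, 0 < δ → ∀ z ∈ K, f z + δ * (ht 1 0 z * ht 1 0 z - B) ≤ 0 := by
    intro δ hδ
    refine weak_max hK (hf.add (continuous_const.mul (hcont.sub continuous_const)).continuousOn) ?_ ?_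
    · intro z hz _
      obtain ⟨h1, h2⟩ := hin z hz
      have h3 : ContDiffAt ℝ 2 (fun z => ht 1 0 z) z := (ht_contDiff 1 0).contDiffAt
      have h4 : ContDiffAt ℝ 2 (fun z => ht 1 0 z * ht 1 0 z) z := h3.mul h3
      have h5 : ContDiffAt ℝ 2 (fun z => ht 1 0 z * ht 1 0 z - B) z := h4.sub contDiffAt_const
      have h6 : ContDiffAt ℝ 2 (fun z => δ * (ht 1 0 z * ht 1 0 z - B)) z := contDiffAt_const.mul h5
      refine ⟨h1.add h6, ?_⟩
      rw [H30M.lap_add h1 h6, H30M.lap_const_mul h5, H30M.lap_sub h4 contDiffAt_const, H30M.lap_mul h3 h3, ht_lap, ht_gg (by simp),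
        (harmonicAt_const B (x := z)).2.self_of_nhds]
      simp only [mul_zero, zero_add, mul_one, Pi.zero_apply, sub_zero]
      linarith
    · intro z hz hz'
      have h1 := hb z hz hz'
      have h2 := hB' z hz
      nlinarith
  intro z hz
  have hB0 : 0 ≤ B := (mul_self_nonneg _).trans (hB' z hz)
  refine le_of_forall_pos_le_add fun ε hε => ?_
  have h1 := key (ε / (B + 1)) (by positivity) z hz
  have h2 : ε / (B + 1) * B ≤ ε := by
    rw [div_mul_eq_mul_div, div_le_iff₀ (by positivity)]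
    nlinarith
  have h3 : 0 ≤ ε / (B + 1) * (ht 1 0 z * ht 1 0 z) := by
    have := mul_self_nonneg (ht 1 0 z)
    positivity
  linarith

/-- the half disc -/
def HD (u a : ℂ) (r c : ℝ) : Set ℂ := closedBall a r ∩ {z | c ≤ ht u a z}

theorem HD_compact (u a : ℂ) (r c : ℝ) : IsCompact (HD u a r c) :=
  (isCompact_closedBall a r).inter_right (isClosed_le continuous_const (ht_continuous u a))

theorem HD_bdry {u a z : ℂ} {r c : ℝ} (hz : z ∈ HD u a r c) (hz' : z ∉ interior (HD u a r c)) : dist z a = r ∨ ht u a z = c := by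
  by_contra hcon
  rw [not_or] at hcon
  apply hz'
  have h4 : dist z a < r := lt_of_le_of_ne hz.1 hcon.1
  have h5 : c < ht u a z := lt_of_le_of_ne hz.2 (Ne.symm hcon.2)
  rw [mem_interior]
  exact ⟨ball a r ∩ {z | c < ht u a z}, fun w hw => ⟨ball_subset_closedBall hw.1, (show c < ht u a w from hw.2).le⟩,
    isOpen_ball.inter (isOpen_lt continuous_const (ht_continuous u a)), h4, h5⟩

/-- soft threshold -/
def soft (m t : ℝ) : ℝ := t - max (-m) (min t m)

theorem soft_continuous (m : ℝ) : Continuous (soft m) := by unfold soft; fun_prop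

theorem soft_zero {m t : ℝ} (h : |t| ≤ m) : soft m t = 0 := by
  unfold soft
  have h1 := abs_le.1 h
  rw [min_eq_left h1.2, max_eq_right h1.1, sub_self]

theorem abs_soft_sub {m t : ℝ} (hm : 0 ≤ m) : |t - soft m t| ≤ m := by
  unfold soft
  rw [sub_sub_cancel, abs_le]
  exact ⟨le_max_left _ _, max_le (by linarith) (min_le_right _ _)⟩

theorem abs_soft_le {m t s : ℝ} (hm : 0 ≤ m) (hs : 0 ≤ s) (h : |t| ≤ m + s) : |soft m t| ≤ s := by
  unfold soft
  have h1 := abs_le.1 h
  rw [abs_le]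
  rcases le_total t m with h2 | h2
  · rw [min_eq_left h2]
    rcases le_total (-m) t with h3 | h3
    · rw [max_eq_right h3]
      constructor <;> linarith
    · rw [max_eq_left h3]
      constructor <;> linarith
  · rw [min_eq_right h2, max_eq_right (by linarith)]
    constructor <;> linarith

theorem half_disc_pos {w : ℂ → ℝ} {u a : ℂ} {R h A m M K : ℝ} (hu : ‖u‖ = 1) (hR : 0 < R) (hh : 0 < h) (hhR : h ≤ R / 8) (hA : 0 ≤ A) (hm : 0 ≤ m)
    (hM : 0 < M) (hK : 4 ≤ K) (hc : ∀ z ∈ closedBall a R, h ≤ ht u a z → ContDiffAt ℝ 2 w z)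
    (hl : ∀ z ∈ closedBall a R, h ≤ ht u a z → |Δ w z| ≤ A / ht u a z ^ 2)
    (hb : ∀ z ∈ closedBall a R, ht u a z = h → |w z| ≤ m) (hM' : ∀ z ∈ closedBall a R, h ≤ ht u a z → |w z| ≤ M) :
    ∃ b : ℝ, |b| ≤ 72 * M / R ∧ ∀ z ∈ closedBall a (R / K), h ≤ ht u a z →
      |w z - b * ht u a z| ≤ 72 * (m + M * h / R + A * (1 + Real.log (R / h)) + M / K ^ 2) := by
  have huu : star u * u = 1 := by
    show (starRingEnd ℂ) u * u = 1
    rw [← Complex.normSq_eq_conj_mul_self, Complex.normSq_eq_norm_sq, hu]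
    norm_num
  have hLR : 0 ≤ Real.log (R / h) := Real.log_nonneg (by rw [le_div_iff₀ hh]; linarith)
  -- coordinates
  set ψ : ℂ → ℂ := fun ζ => a - I * u * ζ with hψ
  have hψh : ∀ ζ, ht u a (ψ ζ) = ζ.im := by
    intro ζ
    show (star u * (a - I * u * ζ - a)).re = ζ.im
    have : star u * (a - I * u * ζ - a) = -(I * ζ) * (star u * u) := by ring
    rw [this, huu, mul_one]
    simp
  have hψd : ∀ ζ, dist (ψ ζ) a = ‖ζ‖ := by
    intro ζ
    rw [dist_eq_norm]
    have : ψ ζ - a = -(I * u * ζ) := by rw [hψ]; ring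
    rw [this, norm_neg, norm_mul, norm_mul, Complex.norm_I, hu, one_mul, one_mul]
  set χ : ℂ → ℂ := fun z => I * (star u * (z - a)) with hχ
  have hχi : ∀ z, (χ z).im = ht u a z := by
    intro z
    show (I * (star u * (z - a))).im = (star u * (z - a)).re
    simp
  have hχn : ∀ z, ‖χ z‖ = dist z a := by
    intro z
    rw [hχ, dist_eq_norm]
    simp only [norm_mul, Complex.norm_I, one_mul, norm_star, hu]
  have hψχ : ∀ z, ψ (χ z) = z := by
    intro z
    show a - I * u * (I * (star u * (z - a))) = z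
    have : a - I * u * (I * (star u * (z - a))) = a - (I * I) * (star u * u) * (z - a) := by ring
    rw [this, huu, Complex.I_mul_I]
    ring
  -- the retraction
  set r : ℂ → ℂ := fun ζ => ζ.re + (max ζ.im h : ℝ) * I with hr
  have hri : ∀ ζ, (r ζ).im = max ζ.im h := fun ζ => by rw [hr]; simp
  have hrr : ∀ ζ, (r ζ).re = ζ.re := fun ζ => by rw [hr]; simp
  have hrn : ∀ ζ : ℂ, ‖ζ‖ ≤ R / 2 → ‖r ζ‖ ≤ R := by
    intro ζ hζ
    have h1 : ζ.re ^ 2 + ζ.im ^ 2 ≤ (R / 2) ^ 2 := by
      have : ζ.re ^ 2 + ζ.im ^ 2 = ‖ζ‖ ^ 2 := by rw [← Complex.normSq_eq_norm_sq, Complex.normSq_apply]; ring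
      rw [this]
      exact pow_le_pow_left₀ (norm_nonneg _) hζ 2
    have h2 : (max ζ.im h) ^ 2 ≤ (R / 2) ^ 2 := by
      rcases max_choice ζ.im h with h3 | h3
      · rw [h3]; nlinarith [sq_nonneg ζ.re]
      · rw [h3]; exact pow_le_pow_left₀ hh.le (by linarith) 2
    have h3 : ‖r ζ‖ ^ 2 ≤ R ^ 2 := by
      rw [← Complex.normSq_eq_norm_sq, Complex.normSq_apply, hri, hrr]
      nlinarith [sq_nonneg ζ.im]
    exact (pow_le_pow_iff_left₀ (norm_nonneg _) hR.le two_ne_zero).1 h3
  have hrmem : ∀ ζ : ℂ, ‖ζ‖ ≤ R / 2 → ψ (r ζ) ∈ closedBall a R ∧ h ≤ ht u a (ψ (r ζ)) := by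
    intro ζ hζ
    refine ⟨?_, ?_⟩
    · rw [mem_closedBall, hψd]
      exact hrn ζ hζ
    · rw [hψh, hri]
      exact le_max_right _ _
  have hrid : ∀ ζ : ℂ, h ≤ ζ.im → r ζ = ζ := by
    intro ζ hζ
    apply Complex.ext
    · exact hrr ζ
    · rw [hri, max_eq_left hζ]
  -- the threshold
  set m₂ : ℝ := m + 2 * A * Real.log (R / h) + 4 * M * h / R with hm₂
  have hm₂0 : 0 ≤ m₂ := by positivity
  have hmm₂ : m ≤ m₂ := by
    have h1 : 0 ≤ 2 * A * Real.log (R / h) := by positivity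
    have h2 : 0 ≤ 4 * M * h / R := by positivity
    linarith
  set T : ℂ → ℝ := fun ζ => soft m₂ (w (ψ (r ζ))) with hT
  have hT0 : ∀ ζ : ℂ, ‖ζ‖ ≤ R / 2 → ζ.im ≤ h → T ζ = 0 := by
    intro ζ hζ hi
    apply soft_zero
    refine (hb _ (hrmem ζ hζ).1 ?_).trans hmm₂
    rw [hψh, hri, max_eq_right hi]
  have hTc : ContinuousOn T (closedBall 0 (R / 2)) := by
    apply (soft_continuous m₂).comp_continuousOn
    have h1 : Continuous fun ζ => ψ (r ζ) := by rw [hψ, hr]; fun_prop
    intro ζ hζ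
    have hζ' : ‖ζ‖ ≤ R / 2 := by rw [mem_closedBall, dist_zero_right] at hζ; exact hζ
    have h2 : ContinuousAt w (ψ (r ζ)) := (hc _ (hrmem ζ hζ').1 (hrmem ζ hζ').2).continuousAt
    exact (ContinuousAt.comp (g := w) (f := fun ζ => ψ (r ζ)) h2 h1.continuousAt).continuousWithinAt
  have hTM : ∀ ζ : ℂ, ‖ζ‖ ≤ R / 2 → |T ζ| ≤ M := by
    intro ζ hζ
    apply abs_soft_le hm₂0 hM.le
    have := hM' _ (hrmem ζ hζ).1 (hrmem ζ hζ).2
    linarith
  have hlin := half_lin hu hR hh hA hm hM.le hc hl hb hM'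
  have hTlin : ∀ ζ : ℂ, ‖ζ‖ ≤ R / 2 → h ≤ ζ.im → |T ζ| ≤ 4 * M / R * ζ.im := by
    intro ζ hζ hi
    have hpos : 0 < ζ.im := hh.trans_le hi
    rw [hT]
    simp only [hrid ζ hi]
    apply abs_soft_le hm₂0 (by positivity)
    have h1 := hlin (ψ ζ) (by rw [mem_closedBall, hψd]; exact hζ) (by rw [hψh]; exact hi)
    rw [hψh] at h1
    have h2 : Real.log (ζ.im / h) ≤ Real.log (R / h) := by
      apply Real.log_le_log (by positivity)
      have : ζ.im ≤ R := (le_of_abs_le (Complex.abs_im_le_norm ζ)).trans (by linarith)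
      gcongr
    have h3 : 2 * A * Real.log (ζ.im / h) ≤ 2 * A * Real.log (R / h) := mul_le_mul_of_nonneg_left h2 (by positivity)
    have h4 : 0 ≤ 4 * M * h / R := by positivity
    have h5 : 4 * M * ζ.im / R = 4 * M / R * ζ.im := by ring
    rw [hm₂]
    linarith
  have hstar : ∀ ζ : ℂ, ‖star ζ‖ = ‖ζ‖ := fun ζ => norm_star ζ
  have hsi : ∀ ζ : ℂ, (star ζ).im = -ζ.im := fun ζ => by simp
  set φ : ℂ → ℝ := fun ζ => T ζ - T (star ζ) with hφ
  have hφp : ∀ ζ : ℂ, ‖ζ‖ ≤ R / 2 → 0 ≤ ζ.im → φ ζ = T ζ := by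
    intro ζ hζ hi
    rw [hφ]
    simp only
    rw [hT0 (star ζ) (by rw [hstar]; exact hζ) (by rw [hsi]; linarith), sub_zero]
  have hφn : ∀ ζ : ℂ, ‖ζ‖ ≤ R / 2 → ζ.im ≤ 0 → φ ζ = -T (star ζ) := by
    intro ζ hζ hi
    rw [hφ]
    simp only
    rw [hT0 ζ hζ (by linarith), zero_sub]
  set ε : ℝ := M * h / R with hε
  have hε0 : 0 < ε := by positivity
  have hεM : ε ≤ M / 8 := by
    rw [hε, div_le_iff₀ hR]
    nlinarith
  obtain ⟨f, b, hfc, hfl, hf0, hfφ, hbb, hfb⟩ := odd_approx (φ := φ) (R := R / 2) (M := M) (ε := ε) (by positivity) hM.le hε0 (by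
      have h1 : Continuous fun ζ : ℂ => star ζ := continuous_star
      have h2 : ContinuousOn (fun ζ : ℂ => T (star ζ)) (closedBall 0 (R / 2)) := by
        refine hTc.comp h1.continuousOn fun ζ hζ => ?_
        rw [mem_closedBall, dist_zero_right, hstar]
        rwa [mem_closedBall, dist_zero_right] at hζ
      exact (hTc.sub h2).mono sphere_subset_closedBall) (by
      intro ζ _
      rw [hφ]
      simp only [star_star]
      ring) (by
      intro ζ hζ
      have hζ' : ‖ζ‖ ≤ R / 2 := by rw [mem_sphere, dist_zero_right] at hζ; exact hζ.le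
      rcases le_total 0 ζ.im with hi | hi
      · rw [hφp ζ hζ' hi]; exact hTM ζ hζ'
      · rw [hφn ζ hζ' hi, abs_neg]; exact hTM _ (by rw [hstar]; exact hζ'))
  -- `f` in the original coordinates
  set F : ℂ → ℝ := fun z => f (χ z) with hF
  have hχc : Continuous χ := by rw [hχ]; fun_prop
  have hFh : ∀ z, HarmonicAt F z := by
    intro z
    have h1 : HarmonicOnNhd f (ball (χ z) 1) := fun ζ _ => ⟨hfc.contDiffAt, Eventually.of_forall fun ζ => hfl ζ⟩
    obtain ⟨H, hH, hre⟩ := InnerProductSpace.HarmonicOnNhd.exists_analyticOnNhd_ball_re_eq h1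
    have h2 : AnalyticAt ℂ (fun z => H (χ z)) z := by
      have h3 : AnalyticAt ℂ χ z := by rw [hχ]; fun_prop
      exact AnalyticAt.comp (g := H) (f := χ) (hH (χ z) (mem_ball_self one_pos)) h3
    have h4 : F =ᶠ[𝓝 z] fun z => (H (χ z)).re := by
      have h5 : ∀ᶠ z' in 𝓝 z, χ z' ∈ ball (χ z) 1 := hχc.continuousAt.eventually (ball_mem_nhds _ one_pos)
      filter_upwards [h5] with z' hz'
      exact (hre hz').symm
    exact (harmonicAt_congr_nhds h4).2 h2.harmonicAt_re
  have hFc : ∀ z, ContDiffAt ℝ 2 F z := fun z => (hFh z).1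
  have hFl : ∀ z, Δ F z = 0 := fun z => (hFh z).2.self_of_nhds
  have hlc : ∀ (c : ℝ) (z : ℂ), Δ (fun _ : ℂ => c) z = 0 := fun c z => (harmonicAt_const c (x := z)).2.self_of_nhds
  -- step 1
  have step1 : ∀ s : ℝ, |s| = 1 → ∀ z ∈ HD u a (R / 2) 0, s * F z - (4 * M / R * ht u a z + ε) ≤ 0 := by
    intro s hs
    have c1 : ∀ z, ContDiffAt ℝ 2 (fun z => ht u a z) z := fun z => (ht_contDiff u a).contDiffAt
    have c2 : ∀ z, ContDiffAt ℝ 2 (fun z => 4 * M / R * ht u a z) z := fun z => contDiffAt_const.mul (c1 z)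
    have c3 : ∀ z, ContDiffAt ℝ 2 (fun z => 4 * M / R * ht u a z + ε) z := fun z => (c2 z).add contDiffAt_const
    have c4 : ∀ z, ContDiffAt ℝ 2 (fun z => s * F z) z := fun z => contDiffAt_const.mul (hFc z)
    refine weak_max0 (HD_compact u a _ _) (f := fun z => s * F z - (4 * M / R * ht u a z + ε))
      (fun z _ => ((c4 z).sub (c3 z)).continuousAt.continuousWithinAt) ?_ ?_
    · intro z _
      refine ⟨(c4 z).sub (c3 z), ?_⟩
      rw [H30M.lap_sub (c4 z) (c3 z), H30M.lap_const_mul (hFc z), H30M.lap_add (c2 z) contDiffAt_const, H30M.lap_const_mul (c1 z), hFl, ht_lap, hlc]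
      simp
    · intro z hz hz'
      rcases HD_bdry hz hz' with h1 | h1
      · have hn : ‖χ z‖ = R / 2 := by rw [hχn, h1]
        have h2 := hfφ (χ z) (by rw [mem_sphere, dist_zero_right]; exact hn)
        have hzi : 0 ≤ (χ z).im := by rw [hχi]; exact hz.2
        rw [hφp (χ z) hn.le hzi] at h2
        have h3 : |T (χ z)| ≤ 4 * M / R * ht u a z := by
          rw [← hχi]
          rcases le_total (χ z).im h with h4 | h4
          · rw [hT0 (χ z) hn.le h4, abs_zero]
            positivity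
          · exact hTlin (χ z) hn.le h4
        have h4 : |F z| ≤ 4 * M / R * ht u a z + ε := by
          have : F z = (f (χ z) - T (χ z)) + T (χ z) := by rw [hF]; ring
          rw [this]
          exact (abs_add_le _ _).trans (by linarith)
        have h5 : s * F z ≤ |F z| := by
          calc s * F z ≤ |s * F z| := le_abs_self _
            _ = |F z| := by rw [abs_mul, hs, one_mul]
        linarith
      · have h2 : F z = 0 := hf0 (χ z) (by rw [hχi]; exact h1)
        rw [h2, h1]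
        linarith
  have step1' : ∀ z ∈ HD u a (R / 2) 0, |F z| ≤ 4 * M / R * ht u a z + ε := by
    intro z hz
    rw [abs_le]
    have h1 := step1 1 (by simp) z hz
    have h2 := step1 (-1) (by simp) z hz
    constructor <;> linarith
  -- step 2
  have hsub2 : ∀ z ∈ HD u a (R / 2) h, z ∈ closedBall a R := fun z hz => closedBall_subset_closedBall (by linarith) hz.1
  have step2 : ∀ s : ℝ, |s| = 1 → ∀ z ∈ HD u a (R / 2) h, s * (w z - F z) - (m₂ + ε + 2 * A * (Real.log (ht u a z) - Real.log h)) ≤ 0 := by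
    intro s hs
    have c1 : ∀ z ∈ HD u a (R / 2) h, ContDiffAt ℝ 2 (fun z => Real.log (ht u a z)) z := fun z hz => (log_ht hu (hh.trans_le hz.2)).1
    have c2 : ∀ z ∈ HD u a (R / 2) h, ContDiffAt ℝ 2 (fun z => Real.log (ht u a z) - Real.log h) z := fun z hz => (c1 z hz).sub contDiffAt_const
    have c3 : ∀ z ∈ HD u a (R / 2) h, ContDiffAt ℝ 2 (fun z => 2 * A * (Real.log (ht u a z) - Real.log h)) z := fun z hz => contDiffAt_const.mul (c2 z hz)
    have c4 : ∀ z ∈ HD u a (R / 2) h, ContDiffAt ℝ 2 (fun z => m₂ + ε + 2 * A * (Real.log (ht u a z) - Real.log h)) z := fun z hz =>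
      contDiffAt_const.add (c3 z hz)
    have c5 : ∀ z ∈ HD u a (R / 2) h, ContDiffAt ℝ 2 (fun z => w z - F z) z := fun z hz => (hc z (hsub2 z hz) hz.2).sub (hFc z)
    have c6 : ∀ z ∈ HD u a (R / 2) h, ContDiffAt ℝ 2 (fun z => s * (w z - F z)) z := fun z hz => contDiffAt_const.mul (c5 z hz)
    refine weak_max0 (HD_compact u a _ _) (f := fun z => s * (w z - F z) - (m₂ + ε + 2 * A * (Real.log (ht u a z) - Real.log h)))
      (fun z hz => ((c6 z hz).sub (c4 z hz)).continuousAt.continuousWithinAt) ?_ ?_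
    · intro z hzi
      have hz := interior_subset hzi
      refine ⟨(c6 z hz).sub (c4 z hz), ?_⟩
      rw [H30M.lap_sub (c6 z hz) (c4 z hz), H30M.lap_const_mul (c5 z hz), H30M.lap_sub (hc z (hsub2 z hz) hz.2) (hFc z), H30M.lap_add contDiffAt_const (c3 z hz),
        H30M.lap_const_mul (c2 z hz), H30M.lap_sub (c1 z hz) contDiffAt_const, (log_ht hu (hh.trans_le hz.2)).2, hFl, hlc, hlc]
      have h1 := hl z (hsub2 z hz) hz.2
      have h2 : -(A / ht u a z ^ 2) ≤ s * (Δ w z - 0) := by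
        have h3 : |s * (Δ w z - 0)| ≤ A / ht u a z ^ 2 := by rw [abs_mul, hs, one_mul, sub_zero]; exact h1
        exact neg_le_of_abs_le h3
      have hzp : 0 < ht u a z := hh.trans_le hz.2
      have h4 : 0 ≤ A / ht u a z ^ 2 := by positivity
      have h5 : 2 * A * (-(1 / ht u a z ^ 2) - 0) = -2 * (A / ht u a z ^ 2) := by ring
      rw [h5]
      linarith
    · intro z hz hz'
      have hzp : 0 < ht u a z := hh.trans_le hz.2
      have hlog : 0 ≤ 2 * A * (Real.log (ht u a z) - Real.log h) := by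
        have := sub_nonneg.2 (Real.log_le_log hh hz.2)
        positivity
      have hle : s * (w z - F z) ≤ |w z - F z| := by
        calc s * (w z - F z) ≤ |s * (w z - F z)| := le_abs_self _
          _ = |w z - F z| := by rw [abs_mul, hs, one_mul]
      have hmain : |w z - F z| ≤ m₂ + ε := by
        rcases HD_bdry hz hz' with h1 | h1
        · have hn : ‖χ z‖ = R / 2 := by rw [hχn, h1]
          have h2 := hfφ (χ z) (by rw [mem_sphere, dist_zero_right]; exact hn)
          have hzi : h ≤ (χ z).im := by rw [hχi]; exact hz.2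
          rw [hφp (χ z) hn.le (hh.le.trans hzi)] at h2
          have h3 : T (χ z) = soft m₂ (w z) := by
            rw [hT]
            simp only [hrid (χ z) hzi, hψχ]
          have h4 : |w z - T (χ z)| ≤ m₂ := by rw [h3]; exact abs_soft_sub hm₂0
          have h5 : w z - F z = (w z - T (χ z)) - (f (χ z) - T (χ z)) := by rw [hF]; ring
          rw [h5]
          exact (abs_sub _ _).trans (by linarith)
        · have h2 := hb z (hsub2 z hz) h1
          have h3 := step1' z ⟨hz.1, hzp.le⟩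
          rw [h1] at h3
          have h4 : |w z - F z| ≤ |w z| + |F z| := abs_sub _ _
          have h5 : 0 ≤ 2 * A * Real.log (R / h) := by positivity
          have h6 : 4 * M / R * h = 4 * M * h / R := by ring
          rw [hm₂]
          linarith
      show s * (w z - F z) - _ ≤ 0
      linarith
  -- conclusion
  have hK0 : 0 < K := by linarith
  refine ⟨b, ?_, fun z hz hi => ?_⟩
  · refine hbb.trans ?_
    rw [div_le_div_iff₀ (by positivity) hR]
    nlinarith
  · have hRK : R / K ≤ R / 4 := by gcongr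
    have hz2 : z ∈ HD u a (R / 2) h := ⟨closedBall_subset_closedBall (by linarith) hz, hi⟩
    have hzp : 0 < ht u a z := hh.trans_le hi
    have h1 := step2 1 (by simp) z hz2
    have h2 := step2 (-1) (by simp) z hz2
    have h3 : |w z - F z| ≤ m₂ + ε + 2 * A * (Real.log (ht u a z) - Real.log h) := by
      rw [abs_le]
      constructor <;> linarith
    have hn : ‖χ z‖ ≤ R / K := by rw [hχn]; exact hz
    have h4 := hfb (χ z) (by rw [mem_closedBall, dist_zero_right]; exact hn.trans (by linarith))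
    rw [hχi] at h4
    have h5 : |w z - b * ht u a z| ≤ |w z - F z| + |F z - b * ht u a z| := by
      have : w z - b * ht u a z = (w z - F z) + (F z - b * ht u a z) := by ring
      rw [this]
      exact abs_add_le _ _
    have h6 : Real.log (ht u a z) - Real.log h ≤ Real.log (R / h) := by
      rw [Real.log_div hR.ne' hh.ne']
      have h7 : ht u a z ≤ R := by
        have h8 := (le_of_abs_le (Complex.abs_im_le_norm (χ z)))
        rw [hχi] at h8
        have : R / K ≤ R := hRK.trans (by linarith)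
        linarith
      have := Real.log_le_log hzp h7
      linarith
    have h7 : 2 * A * (Real.log (ht u a z) - Real.log h) ≤ 2 * A * Real.log (R / h) := mul_le_mul_of_nonneg_left h6 (by positivity)
    have h8 : 16 * (M + ε) * ‖χ z‖ ^ 2 / (R / 2) ^ 2 ≤ 72 * (M / K ^ 2) := by
      have h9 : ‖χ z‖ ^ 2 ≤ (R / K) ^ 2 := pow_le_pow_left₀ (norm_nonneg _) hn 2
      have h10 : 16 * (M + ε) * ‖χ z‖ ^ 2 / (R / 2) ^ 2 ≤ 16 * (M + M / 8) * (R / K) ^ 2 / (R / 2) ^ 2 := by gcongr
      refine h10.trans (le_of_eq ?_)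
      field_simp
      ring
    have h9 : |F z - b * ht u a z| ≤ 72 * (M / K ^ 2) := h4.trans h8
    have h10 : m₂ + ε + 2 * A * Real.log (R / h) = m + 4 * (A * Real.log (R / h)) + 5 * (M * h / R) := by
      rw [hm₂, hε]; ring
    have h11 : 0 ≤ A * Real.log (R / h) := by positivity
    have h12 : 0 ≤ M * h / R := by positivity
    have h13 : 0 ≤ M / K ^ 2 := by positivity
    nlinarith

/-- MODULE Half (the half disc lemma). -/
theorem half_disc : ∃ C : ℝ, 0 < C ∧ ∀ (w : ℂ → ℝ) (u a : ℂ) (R h A m M K : ℝ), ‖u‖ = 1 → 0 < R → 0 < h → h ≤ R / 8 → 0 ≤ A → 0 ≤ m → 0 ≤ M →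
    4 ≤ K → (∀ z ∈ closedBall a R, h ≤ ht u a z → ContDiffAt ℝ 2 w z) → (∀ z ∈ closedBall a R, h ≤ ht u a z → |Δ w z| ≤ A / ht u a z ^ 2) →
    (∀ z ∈ closedBall a R, ht u a z = h → |w z| ≤ m) → (∀ z ∈ closedBall a R, h ≤ ht u a z → |w z| ≤ M) →
    ∃ b : ℝ, |b| ≤ C * M / R ∧ ∀ z ∈ closedBall a (R / K), h ≤ ht u a z →
      |w z - b * ht u a z| ≤ C * (m + M * h / R + A * (1 + Real.log (R / h)) + M / K ^ 2) := by
  refine ⟨72, by norm_num, fun w u a R h A m M K hu hR hh hhR hA hm hM hK hc hl hb hM' => ?_⟩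
  rcases hM.lt_or_eq with hM0 | hM0
  · exact half_disc_pos hu hR hh hhR hA hm hM0 hK hc hl hb hM'
  · refine ⟨0, by rw [← hM0]; simp, fun z hz hi => ?_⟩
    have hLR : 0 ≤ Real.log (R / h) := Real.log_nonneg (by rw [le_div_iff₀ hh]; linarith)
    have h1 : z ∈ closedBall a R := by
      refine closedBall_subset_closedBall ?_ hz
      rw [div_le_iff₀ (by linarith)]
      nlinarith
    have h2 := hM' z h1 hi
    rw [← hM0] at h2 ⊢
    rw [zero_mul, sub_zero]
    have : 0 ≤ 72 * (m + 0 * h / R + A * (1 + Real.log (R / h)) + 0 / K ^ 2) := by positivity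
    linarith

end Pool.Agent.SR3.BE
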