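import Pool.Agent.SR3.EDefs

/-!
# SR3 EMax: a weak maximum principle

At an interior maximum the Laplacian is `≤ 0`.
-/

set_option autoImplicit false

open Topology Filter Metric Complex InnerProductSpace Laplacian

noncomputable section

namespace Pool.Agent.SR3.BE

/-- the second derivatives at a local maximum -/
theorem max_line {f : ℂ → ℝ} {z : ℂ} (hf : ContDiffAt ℝ 2 f z) (hm : IsLocalMax f z) (v : ℂ) : iteratedFDeriv ℝ 2 f z ![v, v] ≤ 0 := by
  by_contra hpos
  push Not at hpos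
  obtain ⟨g, hg⟩ : ∃ g : ℝ → ℝ, g = fun t => f (z + t • v) := ⟨_, rfl⟩
  have hline : ∀ t : ℝ, HasDerivAt (fun t : ℝ => z + t • v) v t := fun t => by
    simpa using ((hasDerivAt_id t).smul_const v).const_add z
  have hcont : Tendsto (fun t : ℝ => z + t • v) (𝓝 0) (𝓝 z) := by
    have h : ContinuousAt (fun t : ℝ => z + t • v) 0 := (hline 0).continuousAt
    simpa [ContinuousAt] using h
  have h1 : ∀ᶠ w in 𝓝 z, ContDiffAt ℝ 2 f w := hf.eventually (by simp)
  have hd1 : ∀ᶠ t in 𝓝 (0 : ℝ), HasDerivAt g (fderiv ℝ f (z + t • v) v) t := by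
    filter_upwards [hcont.eventually h1] with t ht
    rw [hg]
    exact (ht.differentiableAt (by norm_num)).hasFDerivAt.comp_hasDerivAt t (hline t)
  have hd : deriv g =ᶠ[𝓝 0] fun t => fderiv ℝ f (z + t • v) v := hd1.mono fun t ht => ht.deriv
  have h2 : DifferentiableAt ℝ (fderiv ℝ f) z := (hf.fderiv_right (m := 1) (by norm_num)).differentiableAt (by norm_num)
  have h3 : HasDerivAt (fun t : ℝ => fderiv ℝ f (z + t • v)) (fderiv ℝ (fderiv ℝ f) z v) 0 := by
    have h4 : HasFDerivAt (fderiv ℝ f) (fderiv ℝ (fderiv ℝ f) z) (z + (0 : ℝ) • v) := by simpa using h2.hasFDerivAt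
    exact h4.comp_hasDerivAt 0 (hline 0)
  have h5 : HasDerivAt (fun t : ℝ => fderiv ℝ f (z + t • v) v) (fderiv ℝ (fderiv ℝ f) z v v) 0 := by
    simpa using h3.clm_apply (hasDerivAt_const (0 : ℝ) v)
  have h6 : deriv (deriv g) 0 = fderiv ℝ (fderiv ℝ f) z v v := (h5.congr_of_eventuallyEq hd).deriv
  rw [iteratedFDeriv_two_apply] at hpos
  have hgm : IsLocalMax g 0 := by
    have h7 := hcont.eventually hm
    filter_upwards [h7] with t ht
    rw [hg]
    simpa using ht
  have hg0 : deriv g 0 = 0 := hgm.deriv_eq_zero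
  have hmin := isLocalMin_of_deriv_deriv_pos (f := g) (x₀ := 0) (by rw [h6]; simpa using hpos) hg0 (hd1.self_of_nhds.continuousAt)
  have hconst : g =ᶠ[𝓝 0] fun _ => g 0 := by
    filter_upwards [hgm, hmin] with t h7 h8 using le_antisymm h7 h8
  have h9 : deriv (deriv g) 0 = 0 := by
    rw [hconst.deriv.deriv_eq]
    simp
  rw [h6] at h9
  simp only [Matrix.cons_val_zero, Matrix.cons_val_one] at hpos
  linarith

/-- At a local maximum the Laplacian is `≤ 0`. -/
theorem laplacian_le_zero {f : ℂ → ℝ} {z : ℂ} (hf : ContDiffAt ℝ 2 f z) (hm : IsLocalMax f z) : Δ f z ≤ 0 := by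
  rw [laplacian_eq_iteratedFDeriv_complexPlane]
  have h1 := max_line hf hm 1
  have h2 := max_line hf hm Complex.I
  linarith

theorem weak_max {K : Set ℂ} (hK : IsCompact K) {f : ℂ → ℝ} (hf : ContinuousOn f K)
    (hpos : ∀ z ∈ interior K, 0 < f z → ContDiffAt ℝ 2 f z ∧ 0 < Δ f z) (hb : ∀ z ∈ K, z ∉ interior K → f z ≤ 0) : ∀ z ∈ K, f z ≤ 0 := by
  intro z hz
  by_contra h
  push Not at h
  obtain ⟨w, hw, hmax⟩ := hK.exists_isMaxOn ⟨z, hz⟩ hf
  have h1 : 0 < f w := lt_of_lt_of_le h (hmax hz)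
  have h2 : w ∈ interior K := by
    by_contra h3
    exact absurd (hb w hw h3) (not_le.2 h1)
  obtain ⟨h3, h4⟩ := hpos w h2 h1
  have h5 : IsLocalMax f w := hmax.isLocalMax (mem_interior_iff_mem_nhds.1 h2)
  exact absurd (laplacian_le_zero h3 h5) (not_le.2 h4)

end Pool.Agent.SR3.BE
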