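import Pool.Agent.SR3.EDefs
import Pool.Agent.SR3.EMax
import Pool.Agent.H30M.Calc

/-!
# SR3 EHalfA: linear bound in a half disc
-/

set_option autoImplicit false

open Topology Filter Metric Complex InnerProductSpace Laplacian

noncomputable section

namespace Pool.Agent.SR3.BE

/-- the height is the real part of an affine function -/
theorem ht_lap (u a z : ℂ) : Δ (fun z => ht u a z) z = 0 := by
  have h1 : AnalyticAt ℂ (fun z : ℂ => star u * (z - a)) z := by fun_prop
  have h2 : HarmonicAt (fun z => ((fun z : ℂ => star u * (z - a)) z).re) z := h1.harmonicAt_re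
  exact h2.2.self_of_nhds

theorem ht_contDiff (u a : ℂ) : ContDiff ℝ 2 (fun z => ht u a z) := by
  unfold ht
  have h1 : ContDiff ℝ 2 (fun z : ℂ => star u * (z - a)) := by fun_prop
  exact reCLM.contDiff.comp h1

theorem ht_continuous (u a : ℂ) : Continuous (fun z => ht u a z) := (ht_contDiff u a).continuous

theorem ht_fderiv (u a z v : ℂ) : fderiv ℝ (fun z => ht u a z) z v = (star u * v).re := by
  have h1 : HasDerivAt (fun z : ℂ => star u * (z - a)) (star u * 1) z := ((hasDerivAt_id z).sub_const a).const_mul (star u)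
  have h2 : HasFDerivAt (fun z => ht u a z) (reCLM.comp ((ContinuousLinearMap.toSpanSingleton ℂ (star u * 1)).restrictScalars ℝ)) z :=
    reCLM.hasFDerivAt.comp z (h1.hasFDerivAt.restrictScalars ℝ)
  rw [h2.fderiv]
  simp [mul_comm]

theorem ht_gg {u : ℂ} (hu : ‖u‖ = 1) (a z : ℂ) : H30M.gg (fun z => ht u a z) (fun z => ht u a z) z = 1 := by
  unfold H30M.gg
  rw [ht_fderiv, ht_fderiv]
  have h1 : Complex.normSq u = 1 := by rw [Complex.normSq_eq_norm_sq, hu]; norm_num
  rw [Complex.normSq_apply] at h1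
  have e1 : (star u * 1).re = u.re := by simp
  have e2 : (star u * I).re = u.im := by
    have : star u = (starRingEnd ℂ) u := rfl
    rw [this]
    simp [Complex.mul_re]
  rw [e1, e2]
  linarith

/-- the logarithm of the height -/
theorem log_ht {u a z : ℂ} (hu : ‖u‖ = 1) (hz : 0 < ht u a z) :
    ContDiffAt ℝ 2 (fun z => Real.log (ht u a z)) z ∧ Δ (fun z => Real.log (ht u a z)) z = -(1 / ht u a z ^ 2) := by
  have h1 : ContDiffAt ℝ 2 Real.log (ht u a z) := Real.contDiffAt_log.2 hz.ne'
  have h2 : ContDiffAt ℝ 2 (fun z => ht u a z) z := (ht_contDiff u a).contDiffAt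
  refine ⟨h1.comp z h2, ?_⟩
  rw [H30M.lap_comp h1 h2, ht_lap, ht_gg hu, mul_zero, zero_add, mul_one]
  have h3 : deriv Real.log =ᶠ[𝓝 (ht u a z)] fun y => y⁻¹ := by
    filter_upwards with y
    exact Real.deriv_log y
  rw [h3.deriv_eq, deriv_inv]
  simp

theorem half_lin_one {w : ℂ → ℝ} {u a : ℂ} {R h A m M : ℝ} (hu : ‖u‖ = 1) (hR : 0 < R) (hh : 0 < h) (hA : 0 ≤ A) (hm : 0 ≤ m) (hM : 0 ≤ M)
    (hc : ∀ z ∈ closedBall a R, h ≤ ht u a z → ContDiffAt ℝ 2 w z)
    (hl : ∀ z ∈ closedBall a R, h ≤ ht u a z → |Δ w z| ≤ A / ht u a z ^ 2)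
    (hb : ∀ z ∈ closedBall a R, ht u a z = h → |w z| ≤ m) (hM' : ∀ z ∈ closedBall a R, h ≤ ht u a z → |w z| ≤ M)
    {z₀ : ℂ} (hz₀ : z₀ ∈ closedBall a (R / 2)) (hy₀ : h ≤ ht u a z₀) {ε : ℝ} (hε : 0 < ε) :
    w z₀ ≤ m + 2 * (A + ε) * Real.log (ht u a z₀ / h) + 4 * M * ht u a z₀ / R := by
  set y₀ : ℝ := ht u a z₀ with hy₀d
  have hy₀p : 0 < y₀ := hh.trans_le hy₀
  have huu : star u * u = 1 := by
    show (starRingEnd ℂ) u * u = 1
    rw [← Complex.normSq_eq_conj_mul_self, Complex.normSq_eq_norm_sq, hu]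
    norm_num
  set p : ℂ := z₀ - y₀ * u with hp
  have hpa : (star u * (p - a)).re = 0 := by
    have : star u * (p - a) = star u * (z₀ - a) - y₀ * (star u * u) := by rw [hp]; ring
    rw [this, huu, mul_one, Complex.sub_re, Complex.ofReal_re]
    show ht u a z₀ - y₀ = 0
    rw [hy₀d, sub_self]
  -- the height with respect to `p`
  have hht : ∀ z, ht u a z = (star u * (z - p)).re := by
    intro z
    have : star u * (z - p) = star u * (z - a) - star u * (p - a) := by ring
    rw [this, Complex.sub_re, hpa, sub_zero]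
    rfl
  have hpR : ‖p - a‖ ≤ R / 2 := by
    have h1 : ‖star u * (p - a)‖ ≤ ‖star u * (z₀ - a)‖ := by
      have e : star u * (p - a) = star u * (z₀ - a) - y₀ := by
        have : star u * (p - a) = star u * (z₀ - a) - y₀ * (star u * u) := by rw [hp]; ring
        rw [this, huu, mul_one]
      have e1 : (star u * (p - a)).im = (star u * (z₀ - a)).im := by rw [e]; simp
      rw [Complex.norm_eq_sqrt_sq_add_sq, Complex.norm_eq_sqrt_sq_add_sq, hpa, e1]
      apply Real.sqrt_le_sqrt
      nlinarith [sq_nonneg (star u * (z₀ - a)).re]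
    rw [norm_mul, norm_mul, norm_star, hu, one_mul, one_mul] at h1
    exact h1.trans (by rw [← dist_eq_norm]; exact hz₀)
  set K : Set ℂ := closedBall p (R / 2) ∩ {z | h ≤ ht u a z} with hK
  have hKsub : ∀ z ∈ K, z ∈ closedBall a R := by
    intro z hz
    rw [mem_closedBall, dist_eq_norm]
    have h1 : ‖z - p‖ ≤ R / 2 := by rw [← dist_eq_norm]; exact hz.1
    calc ‖z - a‖ = ‖(z - p) + (p - a)‖ := by ring_nf
      _ ≤ ‖z - p‖ + ‖p - a‖ := norm_add_le _ _
      _ ≤ R := by linarith
  have hKc : IsCompact K := (isCompact_closedBall p (R / 2)).inter_right (isClosed_le continuous_const (ht_continuous u a))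
  -- the barrier
  set g : ℂ → ℂ := fun z => -(star u * (z - p)) ^ 2 + R * (star u * (z - p)) with hg
  have hgan : ∀ z, AnalyticAt ℂ g z := fun z => by rw [hg]; fun_prop
  have hgre : ∀ z, (g z).re = (star u * (z - p)).im ^ 2 - ht u a z ^ 2 + R * ht u a z := by
    intro z
    rw [hg, hht z]
    simp only [Complex.add_re, Complex.neg_re, Complex.re_ofReal_mul]
    rw [sq, Complex.mul_re]
    ring
  set f : ℂ → ℝ := fun z => w z - ((m + 2 * (A + ε) * (Real.log (ht u a z) - Real.log h)) + (M * (4 / R ^ 2)) * (g z).re) with hf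
  have hgc : ∀ z, ContDiffAt ℝ 2 (fun z => (g z).re) z := fun z => (hgan z).harmonicAt_re.1
  have hglap : ∀ z, Δ (fun z => (g z).re) z = 0 := fun z => (hgan z).harmonicAt_re.2.self_of_nhds
  have hcd : ∀ z ∈ K, ContDiffAt ℝ 2 f z ∧ Δ f z = Δ w z + 2 * (A + ε) / ht u a z ^ 2 := by
    intro z hz
    have hzp : 0 < ht u a z := hh.trans_le hz.2
    obtain ⟨h1, h2⟩ := log_ht hu hzp
    have h3 := hc z (hKsub z hz) hz.2
    have h4 : ContDiffAt ℝ 2 (fun z => Real.log (ht u a z) - Real.log h) z := h1.sub contDiffAt_const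
    have h5 : ContDiffAt ℝ 2 (fun z => 2 * (A + ε) * (Real.log (ht u a z) - Real.log h)) z := contDiffAt_const.mul h4
    have h6 : ContDiffAt ℝ 2 (fun z => m + 2 * (A + ε) * (Real.log (ht u a z) - Real.log h)) z := contDiffAt_const.add h5
    have h7 : ContDiffAt ℝ 2 (fun z => (M * (4 / R ^ 2)) * (g z).re) z := contDiffAt_const.mul (hgc z)
    have hlc : ∀ c : ℝ, Δ (fun _ : ℂ => c) z = 0 := fun c =>
      (harmonicAt_const c (x := z)).2.self_of_nhds
    refine ⟨h3.sub (h6.add h7), ?_⟩
    rw [hf, H30M.lap_sub h3 (h6.add h7), H30M.lap_add h6 h7, H30M.lap_add contDiffAt_const h5, H30M.lap_const_mul h4,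
      H30M.lap_sub h1 contDiffAt_const, H30M.lap_const_mul (hgc z), hglap, h2, hlc, hlc]
    field_simp
    ring
  have key := weak_max hKc (f := f) (fun z hz => (hcd z hz).1.continuousAt.continuousWithinAt) (by
      intro z hz _
      have hzK : z ∈ K := interior_subset hz
      obtain ⟨h1, h2⟩ := hcd z hzK
      refine ⟨h1, ?_⟩
      rw [h2]
      have hzp : 0 < ht u a z := hh.trans_le hzK.2
      have h3 := hl z (hKsub z hzK) hzK.2
      have h4 := neg_le_of_abs_le h3
      have h5 : 0 < ε / ht u a z ^ 2 := by positivity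
      have h6 : 0 ≤ A / ht u a z ^ 2 := by positivity
      have h7 : 2 * (A + ε) / ht u a z ^ 2 = 2 * (A / ht u a z ^ 2) + 2 * (ε / ht u a z ^ 2) := by ring
      rw [h7]
      linarith) (by
      intro z hzK hzI
      have hzp : 0 < ht u a z := hh.trans_le hzK.2
      have hlog : 0 ≤ Real.log (ht u a z) - Real.log h := sub_nonneg.2 (Real.log_le_log hh hzK.2)
      have hn : ‖star u * (z - p)‖ ≤ R / 2 := by
        rw [norm_mul, norm_star, hu, one_mul, ← dist_eq_norm]
        exact hzK.1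
      have hre : ht u a z ≤ R / 2 := by
        rw [hht z]
        exact (Complex.re_le_norm _).trans hn
      have hgnn : 0 ≤ (g z).re := by
        rw [hgre z]
        nlinarith [sq_nonneg (star u * (z - p)).im]
      have hlog2 : 0 ≤ 2 * (A + ε) * (Real.log (ht u a z) - Real.log h) := by positivity
      show w z - _ ≤ 0
      by_cases h1 : ht u a z = h
      · have h2 := le_of_abs_le (hb z (hKsub z hzK) h1)
        have : 0 ≤ (M * (4 / R ^ 2)) * (g z).re := by positivity
        linarith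
      · -- `‖z - p‖ = R / 2`
        have h2 : dist z p = R / 2 := by
          by_contra h3
          apply hzI
          have h4 : dist z p < R / 2 := lt_of_le_of_ne hzK.1 h3
          have h5 : h < ht u a z := lt_of_le_of_ne hzK.2 (Ne.symm h1)
          rw [mem_interior]
          refine ⟨ball p (R / 2) ∩ {z | h < ht u a z}, fun w hw => ⟨ball_subset_closedBall hw.1, (show h < ht u a w from hw.2).le⟩,
            isOpen_ball.inter (isOpen_lt continuous_const (ht_continuous u a)), h4, h5⟩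
        have h6 : (star u * (z - p)).im ^ 2 + ht u a z ^ 2 = (R / 2) ^ 2 := by
          rw [← h2, dist_eq_norm]
          have h7 : ‖z - p‖ = ‖star u * (z - p)‖ := by rw [norm_mul, norm_star, hu, one_mul]
          rw [h7, hht z, ← Complex.normSq_eq_norm_sq, Complex.normSq_apply]
          ring
        have h8 : 1 ≤ (4 / R ^ 2) * (g z).re := by
          rw [hgre z, div_mul_eq_mul_div, le_div_iff₀ (by positivity)]
          nlinarith
        have h9 := le_of_abs_le (hM' z (hKsub z hzK) hzK.2)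
        have h10 : M * 1 ≤ M * ((4 / R ^ 2) * (g z).re) := mul_le_mul_of_nonneg_left h8 hM
        rw [← mul_assoc] at h10
        linarith)
  have hz₀K : z₀ ∈ K ∨ R / 2 < y₀ := by
    by_cases h1 : y₀ ≤ R / 2
    · left
      refine ⟨?_, hy₀⟩
      rw [mem_closedBall, dist_eq_norm]
      have : z₀ - p = y₀ * u := by rw [hp]; ring
      rw [this, norm_mul, hu, mul_one, Complex.norm_real, Real.norm_of_nonneg hy₀p.le]
      exact h1
    · exact Or.inr (not_le.1 h1)
  have hlog : 0 ≤ Real.log (y₀ / h) := Real.log_nonneg (by rw [le_div_iff₀ hh]; linarith)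
  rcases hz₀K with h1 | h1
  · have h2 := key z₀ h1
    have h3 : (g z₀).re = -y₀ ^ 2 + R * y₀ := by
      have : star u * (z₀ - p) = y₀ := by
        have : z₀ - p = y₀ * u := by rw [hp]; ring
        rw [this, mul_comm (y₀ : ℂ), ← mul_assoc, huu, one_mul]
      rw [hgre z₀, this]
      simp only [Complex.ofReal_im]
      rw [← hy₀d]
      ring
    have h4 : f z₀ = w z₀ - ((m + 2 * (A + ε) * (Real.log y₀ - Real.log h)) + (M * (4 / R ^ 2)) * (-y₀ ^ 2 + R * y₀)) := by
      rw [hf]
      simp only [h3]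
      rw [← hy₀d]
    rw [h4] at h2
    rw [Real.log_div hy₀p.ne' hh.ne']
    have h5 : (M * (4 / R ^ 2)) * (-y₀ ^ 2 + R * y₀) ≤ 4 * M * y₀ / R := by
      have h6 : (M * (4 / R ^ 2)) * (-y₀ ^ 2 + R * y₀) = 4 * M * y₀ / R - (M * (4 / R ^ 2)) * y₀ ^ 2 := by
        field_simp
        ring
      rw [h6]
      have : 0 ≤ (M * (4 / R ^ 2)) * y₀ ^ 2 := by positivity
      linarith
    linarith
  · -- trivial case
    have hz₀R : z₀ ∈ closedBall a R := closedBall_subset_closedBall (by linarith) hz₀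
    have h2 := le_of_abs_le (hM' z₀ hz₀R hy₀)
    have h3 : M ≤ 4 * M * y₀ / R := by
      rw [le_div_iff₀ hR]
      nlinarith
    have h4 : 0 ≤ 2 * (A + ε) * Real.log (y₀ / h) := by positivity
    linarith

/-- MODULE HalfA.  Barrier `m + 2 A log (y / h) + M b`, `b z = ((x - x₀)² - y² + R y) / (R / 2)²` on the half disc of radius `R / 2` about the foot `x₀`
of `z`. -/
theorem half_lin {w : ℂ → ℝ} {u a : ℂ} {R h A m M : ℝ} (hu : ‖u‖ = 1) (hR : 0 < R) (hh : 0 < h) (hA : 0 ≤ A) (hm : 0 ≤ m) (hM : 0 ≤ M)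
    (hc : ∀ z ∈ closedBall a R, h ≤ ht u a z → ContDiffAt ℝ 2 w z)
    (hl : ∀ z ∈ closedBall a R, h ≤ ht u a z → |Δ w z| ≤ A / ht u a z ^ 2)
    (hb : ∀ z ∈ closedBall a R, ht u a z = h → |w z| ≤ m) (hM' : ∀ z ∈ closedBall a R, h ≤ ht u a z → |w z| ≤ M) :
    ∀ z ∈ closedBall a (R / 2), h ≤ ht u a z → |w z| ≤ m + 2 * A * Real.log (ht u a z / h) + 4 * M * ht u a z / R := by
  intro z hz hy
  have hlog : 0 ≤ Real.log (ht u a z / h) := Real.log_nonneg (by rw [le_div_iff₀ hh]; linarith)
  -- let `ε → 0`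
  have lim : ∀ v : ℂ → ℝ, (∀ ε : ℝ, 0 < ε → v z ≤ m + 2 * (A + ε) * Real.log (ht u a z / h) + 4 * M * ht u a z / R) →
      v z ≤ m + 2 * A * Real.log (ht u a z / h) + 4 * M * ht u a z / R := by
    intro v hv
    refine le_of_forall_pos_le_add fun δ hδ => ?_
    have h1 := hv (δ / (2 * (Real.log (ht u a z / h) + 1))) (by positivity)
    have h2 : 2 * (A + δ / (2 * (Real.log (ht u a z / h) + 1))) * Real.log (ht u a z / h) ≤
        2 * A * Real.log (ht u a z / h) + δ := by
      have h3 : 2 * (δ / (2 * (Real.log (ht u a z / h) + 1))) * Real.log (ht u a z / h) ≤ δ := by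
        rw [mul_div_assoc', mul_div_mul_left _ _ two_ne_zero, div_mul_eq_mul_div, div_le_iff₀ (by positivity)]
        nlinarith
      linarith
    linarith
  rw [abs_le]
  constructor
  · have h1 := lim (fun z => -w z) fun ε hε => half_lin_one (w := fun z => -w z) hu hR hh hA hm hM (fun z hz hz' => (hc z hz hz').neg)
      (fun z hz hz' => by
        have h2 : Δ (fun z => -w z) z = -Δ w z := by
          have h3 := H30M.lap_const_mul (hc z hz hz') (-1)
          simpa using h3
        rw [h2, abs_neg]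
        exact hl z hz hz')
      (fun z hz hz' => by rw [abs_neg]; exact hb z hz hz') (fun z hz hz' => by rw [abs_neg]; exact hM' z hz hz') hz hy hε
    linarith
  · exact lim w fun ε hε => half_lin_one hu hR hh hA hm hM hc hl hb hM' hz hy hε

end Pool.Agent.SR3.BE
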