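import Pool.Agent.SR3.EDefs

/-!
# SR3 EIter: a halving property with an error `r ^ (-γ)` gives a power decay
-/

set_option autoImplicit false

open Topology Filter Metric

noncomputable section

namespace Pool.Agent.SR3.BE

theorem iter {Q : ℝ → ℝ → Prop} (mono : ∀ r a b, a ≤ b → Q r a → Q r b) {c₁ C₁ R₁ B₀ γ : ℝ} (hc : 0 < c₁) (hc1 : c₁ < 1) (hC : 0 ≤ C₁)
    (hR : 0 < R₁) (hB : 0 < B₀) (hγ : 0 < γ) (h0 : ∀ r, R₁ ≤ r → Q r B₀)
    (hs : ∀ a r₁, 0 ≤ a → a ≤ B₀ → R₁ ≤ r₁ → (∀ r, r₁ ≤ r → Q r a) → ∀ r, r₁ / c₁ ≤ r → Q r (a / 2 + C₁ * r ^ (-γ))) :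
    ∃ α C' R' : ℝ, 0 < α ∧ α ≤ 1 / 2 ∧ 0 < C' ∧ R₁ ≤ R' ∧ ∀ r, R' ≤ r → Q r (C' * r ^ (-α)) := by
  have hlog : Real.log c₁ < 0 := Real.log_neg hc hc1
  have hlog2 : Real.log (3 / 4) < 0 := Real.log_neg (by norm_num) (by norm_num)
  set α : ℝ := min (1 / 2) (min γ (Real.log (3 / 4) / Real.log c₁)) with hα
  have hα0 : 0 < α := lt_min (by norm_num) (lt_min hγ (div_pos_of_neg_of_neg hlog2 hlog))
  have hα1 : α ≤ 1 / 2 := min_le_left _ _
  have hα2 : α ≤ γ := (min_le_right _ _).trans (min_le_left _ _)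
  have hα3 : α ≤ Real.log (3 / 4) / Real.log c₁ := (min_le_right _ _).trans (min_le_right _ _)
  set s : ℝ := c₁ ^ α with hsdef
  have hs0 : 0 < s := Real.rpow_pos_of_pos hc α
  have hs34 : 3 / 4 ≤ s := by
    have h1 : Real.log (3 / 4) ≤ α * Real.log c₁ := by
      rw [le_div_iff_of_neg hlog] at hα3
      exact hα3
    have h2 : Real.log (3 / 4) ≤ Real.log s := by
      rw [hsdef, Real.log_rpow hc]
      exact h1
    exact (Real.log_le_log_iff (by norm_num) hs0).1 h2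
  have hs1 : s ≤ 1 := Real.rpow_le_one hc.le hc1.le hα0.le
  -- the radius
  obtain ⟨R', hR'1, hR'2⟩ : ∃ R' : ℝ, R₁ ≤ R' ∧ C₁ * R' ^ (-γ) ≤ B₀ / 2 := by
    have h1 : Tendsto (fun r : ℝ => C₁ * r ^ (-γ)) atTop (𝓝 (C₁ * 0)) := (tendsto_rpow_neg_atTop hγ).const_mul C₁
    rw [mul_zero] at h1
    have h2 := h1.eventually (gt_mem_nhds (show (0 : ℝ) < B₀ / 2 by positivity))
    obtain ⟨R', h3, h4⟩ := (h2.and (eventually_ge_atTop R₁)).exists
    exact ⟨R', h4, h3.le⟩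
  have hR'0 : 0 < R' := lt_of_lt_of_le hR hR'1
  have key : ∀ n : ℕ, ∀ r, R' / c₁ ^ n ≤ r → Q r (min B₀ (2 * B₀ * s ^ n)) := by
    intro n
    induction n with
    | zero =>
      intro r hr
      rw [pow_zero, div_one] at hr
      rw [pow_zero, mul_one, min_eq_left (by linarith)]
      exact h0 r (hR'1.trans hr)
    | succ n ih =>
      intro r hr
      have hcn : 0 < c₁ ^ n := pow_pos hc n
      have hcn1 : c₁ ^ n ≤ 1 := pow_le_one₀ hc.le hc1.le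
      have hrn : R₁ ≤ R' / c₁ ^ n := by
        rw [le_div_iff₀ hcn]
        nlinarith
      have hr' : R' / c₁ ^ n / c₁ ≤ r := by
        rw [div_div, ← pow_succ]
        exact hr
      have hr0 : 0 < r := lt_of_lt_of_le (by positivity) hr
      have ha0 : 0 ≤ min B₀ (2 * B₀ * s ^ n) := le_min hB.le (by positivity)
      have h1 := hs _ _ ha0 (min_le_left _ _) hrn ih r hr'
      refine mono _ _ _ ?_ h1
      -- the error
      have h2 : C₁ * r ^ (-γ) ≤ B₀ / 2 * s ^ (n + 1) := by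
        have h3 : r ^ (-γ) ≤ (R' / c₁ ^ (n + 1)) ^ (-γ) :=
          Real.rpow_le_rpow_of_nonpos (by positivity) hr (by linarith)
        have h4 : (R' / c₁ ^ (n + 1)) ^ (-γ) = R' ^ (-γ) * (c₁ ^ γ) ^ (n + 1) := by
          rw [Real.div_rpow hR'0.le (by positivity), Real.rpow_neg (by positivity : (0 : ℝ) ≤ c₁ ^ (n + 1)), div_inv_eq_mul]
          congr 1
          rw [← Real.rpow_natCast, ← Real.rpow_mul hc.le, ← Real.rpow_natCast, ← Real.rpow_mul hc.le, mul_comm]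
        have h5 : c₁ ^ γ ≤ s := Real.rpow_le_rpow_of_exponent_ge hc hc1.le hα2
        have h6 : (c₁ ^ γ) ^ (n + 1) ≤ s ^ (n + 1) := pow_le_pow_left₀ (Real.rpow_nonneg hc.le γ) h5 _
        calc C₁ * r ^ (-γ) ≤ C₁ * (R' ^ (-γ) * (c₁ ^ γ) ^ (n + 1)) := by
              rw [← h4]
              exact mul_le_mul_of_nonneg_left h3 hC
          _ = (C₁ * R' ^ (-γ)) * (c₁ ^ γ) ^ (n + 1) := by ring
          _ ≤ B₀ / 2 * s ^ (n + 1) := mul_le_mul hR'2 h6 (by positivity) (by positivity)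
      have hsn1 : s ^ (n + 1) ≤ 1 := pow_le_one₀ hs0.le hs1
      have hsn : s ^ n ≤ 4 / 3 * s ^ (n + 1) := by
        rw [pow_succ]
        have : 0 ≤ s ^ n := by positivity
        nlinarith
      have hsn0 : 0 ≤ s ^ (n + 1) := by positivity
      apply le_min
      · have h7 : min B₀ (2 * B₀ * s ^ n) ≤ B₀ := min_le_left _ _
        have h8 : B₀ / 2 * s ^ (n + 1) ≤ B₀ / 2 * 1 := mul_le_mul_of_nonneg_left hsn1 (by positivity)
        linarith
      · have h7 : min B₀ (2 * B₀ * s ^ n) ≤ 2 * B₀ * s ^ n := min_le_right _ _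
        have h8 : B₀ * s ^ n ≤ B₀ * (4 / 3 * s ^ (n + 1)) := mul_le_mul_of_nonneg_left hsn hB.le
        have h9 : 0 ≤ B₀ * s ^ (n + 1) := by positivity
        linarith
  refine ⟨α, 2 * B₀ * (R' / c₁) ^ α, R', hα0, hα1, by positivity, hR'1, ?_⟩
  intro r hr
  have hr0 : 0 < r := lt_of_lt_of_le hR'0 hr
  have hx : 1 ≤ r / R' := by rw [le_div_iff₀ hR'0, one_mul]; exact hr
  have hy : 1 < 1 / c₁ := by rw [lt_div_iff₀ hc, one_mul]; exact hc1
  obtain ⟨n, hn1, hn2⟩ := exists_nat_pow_near hx hy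
  have hcn : 0 < c₁ ^ n := pow_pos hc n
  have hr1 : R' / c₁ ^ n ≤ r := by
    rw [one_div, inv_pow, le_div_iff₀ hR'0] at hn1
    rw [div_le_iff₀ hcn]
    calc R' = (c₁ ^ n)⁻¹ * R' * c₁ ^ n := by field_simp
      _ ≤ r * c₁ ^ n := mul_le_mul_of_nonneg_right hn1 hcn.le
  refine mono _ _ _ ?_ (key n r hr1)
  refine (min_le_right _ _).trans ?_
  rw [mul_assoc (2 * B₀) _ _]
  apply mul_le_mul_of_nonneg_left _ (by positivity : (0 : ℝ) ≤ 2 * B₀)
  have h1 : s ^ n = (c₁ ^ n) ^ α := by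
    rw [hsdef, ← Real.rpow_natCast, ← Real.rpow_mul hc.le, ← Real.rpow_natCast, ← Real.rpow_mul hc.le, mul_comm]
  have h2 : c₁ ^ n ≤ R' / c₁ / r := by
    rw [one_div, inv_pow, div_lt_iff₀ hR'0, pow_succ] at hn2
    rw [div_div, le_div_iff₀ (by positivity)]
    have h3 : r * (c₁ ^ n * c₁) < R' := by
      calc r * (c₁ ^ n * c₁) < (c₁ ^ n * c₁)⁻¹ * R' * (c₁ ^ n * c₁) := mul_lt_mul_of_pos_right hn2 (by positivity)
        _ = R' := by field_simp
    nlinarith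
  have h3 : (R' / c₁) ^ α * r ^ (-α) = (R' / c₁ / r) ^ α := by
    rw [Real.div_rpow (by positivity) hr0.le, Real.rpow_neg hr0.le]
    exact (div_eq_mul_inv _ _).symm
  rw [h1, h3]
  exact Real.rpow_le_rpow hcn.le h2 hα0.le

end Pool.Agent.SR3.BE
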