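import Pool.Agent.SR3.EBas

/-!
# SR3 ELine: the line of the two affine families
-/

set_option autoImplicit false

open Topology Filter Metric Complex InnerProductSpace Laplacian

noncomputable section

namespace Pool.Agent.SR3.BE

open Pool.Agent.SDR (gc)

variable {X ι : Type} [Fintype ι] {Φ : Fam X ι} {C c R₀ A c₂ C₂ R₂ : ℝ}

private theorem en_flip {x : X} {a : ℂ} {R e : ℝ} {u : ℂ} {β β' : ι → ℝ} (h : Fit Φ x a R e A u β β') : Fit Φ x a R e A (-u) β' β := by
  refine ⟨by rw [norm_neg, h.nu], h.nβ', h.nβ, h.Aβ', h.Aβ, fun z hz i => ?_⟩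
  rw [vee_neg]
  exact h.fit z hz i

/-- the rates are bounded -/
private theorem en_rate (hΦ : Hyp Φ C c R₀) {x : X} {a : ℂ} {R e : ℝ} {u : ℂ} {β β' : ι → ℝ} (ha : a ∈ Φ.G x) (hR : 1 ≤ R) {D : ℝ} (he : e ≤ D * R)
    (h : Fit Φ x a R e A u β β') (i : ι) : β i ≤ 2 * C + D := by
  have hR0 : 0 < R := by linarith
  have hmem : a + R * u ∈ closedBall a R := by
    rw [mem_closedBall, dist_eq_norm, add_sub_cancel_left, norm_mul, h.nu, mul_one, Complex.norm_real, Real.norm_of_nonneg hR0.le]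
  have hht : ht u a (a + R * u) = R := by
    rw [ht_add h.nu]
    have : ht u a a = 0 := by unfold ht; simp
    rw [this, zero_add]
  have h1 := h.fit _ hmem i
  have h2 : vee u a (β i) (β' i) (a + R * u) = β i * R := by
    rw [vee_top (by rw [hht]; exact hR0.le), hht]
  rw [h2] at h1
  have h3 := hΦ.up x i (a + R * u)
  have h4 : Φ.d x (a + R * u) ≤ R := by
    refine (infDist_le_dist_of_mem ha).trans ?_
    exact mem_closedBall.1 hmem
  have h5 : Φ.lam x i (a + R * u) ≤ C * (1 + R) := h3.trans (mul_le_mul_of_nonneg_left (by linarith) (by linarith [hΦ.C_ge]))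
  have h6 := (abs_le.1 h1).1
  have h8 : C * 1 ≤ C * R := mul_le_mul_of_nonneg_left hR (by linarith [hΦ.C_ge])
  have h7 : β i * R ≤ (2 * C + D) * R := by linarith
  exact le_of_mul_le_mul_right h7 hR0

private theorem en_star_mul {u : ℂ} (hu : ‖u‖ = 1) : star u * u = 1 := by
  show (starRingEnd ℂ) u * u = 1
  rw [← Complex.normSq_eq_conj_mul_self, Complex.normSq_eq_norm_sq, hu]
  norm_num

/-- the gradient of an affine function which is small on a disc -/
private theorem en_grad {κ q a : ℂ} {b e r : ℝ} (hr : 0 < r) (h : ∀ z ∈ closedBall q r, |(κ * (z - a)).re + b| ≤ e) : ‖κ‖ ≤ e / r := by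
  have he : 0 ≤ e := (abs_nonneg _).trans (h q (mem_closedBall_self hr.le))
  rcases eq_or_ne κ 0 with rfl | hκ
  · rw [norm_zero]
    positivity
  · have hn : 0 < ‖κ‖ := norm_pos_iff.2 hκ
    set w : ℂ := star κ / ‖κ‖ with hw
    have hwn : ‖w‖ = 1 := by
      rw [hw, norm_div, norm_star, Complex.norm_real, norm_norm, div_self hn.ne']
    have hκw : κ * w = ‖κ‖ := by
      have h1 : κ * star κ = ((‖κ‖ ^ 2 : ℝ) : ℂ) := by
        show κ * (starRingEnd ℂ) κ = _
        rw [Complex.mul_conj, Complex.normSq_eq_norm_sq]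
      rw [hw, mul_div_assoc', h1]
      have h2 : ((‖κ‖ : ℝ) : ℂ) ≠ 0 := by exact_mod_cast hn.ne'
      rw [div_eq_iff h2]
      push_cast
      ring
    have h1 := h (q + r * w) (by
      rw [mem_closedBall, dist_eq_norm, add_sub_cancel_left, norm_mul, hwn, mul_one, Complex.norm_real, Real.norm_of_nonneg hr.le])
    have h2 := h (q - r * w) (by
      rw [mem_closedBall, dist_eq_norm, sub_sub_cancel_left, norm_neg, norm_mul, hwn, mul_one, Complex.norm_real, Real.norm_of_nonneg hr.le])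
    have h3 : (κ * (q + r * w - a)).re = (κ * (q - a)).re + r * ‖κ‖ := by
      have : κ * (q + r * w - a) = κ * (q - a) + r * (κ * w) := by ring
      rw [this, hκw, Complex.add_re, ← Complex.ofReal_mul, Complex.ofReal_re]
    have h4 : (κ * (q - r * w - a)).re = (κ * (q - a)).re - r * ‖κ‖ := by
      have : κ * (q - r * w - a) = κ * (q - a) - r * (κ * w) := by ring
      rw [this, hκw, Complex.sub_re, ← Complex.ofReal_mul, Complex.ofReal_re]
    rw [h3] at h1
    rw [h4] at h2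
    rw [le_div_iff₀ hr]
    have h5 := (abs_le.1 h1).2
    have h6 := (abs_le.1 h2).1
    linarith

/-- the sum of an affine family -/
private theorem en_sum {x : X} {z : ℂ} {E Y : ℝ} {t b : ι → ℝ} (ht1 : ∑ i, t i = 1) (h : ∀ i, |Φ.lam x i z - (t i * Y + b i)| ≤ E) :
    |Φ.S x z - (Y + ∑ i, b i)| ≤ Fintype.card ι * E := by
  have e1 : Y + ∑ i, b i = ∑ i, (t i * Y + b i) := by rw [Finset.sum_add_distrib, ← Finset.sum_mul, ht1, one_mul]
  rw [e1]
  unfold Fam.S
  rw [← Finset.sum_sub_distrib]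
  refine (Finset.abs_sum_le_sum_abs _ _).trans ((Finset.sum_le_sum fun i _ => h i).trans (le_of_eq ?_))
  rw [Finset.sum_const, Finset.card_univ, nsmul_eq_mul]

/-- the slope of an affine family compared with a datum -/
private theorem en_slope {x : X} {a : ℂ} {R E e A' : ℝ} {u u₁ k : ℂ} {β β' t b : ι → ℝ} (hR : 0 < R) (hu : ‖u‖ = 1) (hf : Fit Φ x a (16 * R) e A' u₁ β β')
    (hT : TopAff Φ x a (2 * R) (1 / 16) E u t k b) (hp : 0 ≤ (star u * u₁).re) :
    ‖k - (∑ i, β i : ℝ) * star u₁‖ ≤ 4 * (Fintype.card ι * (E + e)) / R := by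
  set q : ℂ := a + (R / 2 : ℝ) * (u + u₁) with hq
  have hu₁ := hf.nu
  have hr : 0 < R / 4 := by linarith
  have hqa : q - a = (R / 2 : ℝ) * (u + u₁) := by rw [hq, add_sub_cancel_left]
  have hqn : ‖q - a‖ ≤ R := by
    rw [hqa, norm_mul, Complex.norm_real, Real.norm_of_nonneg (by linarith)]
    have := norm_add_le u u₁
    rw [hu, hu₁] at this
    linarith [mul_le_mul_of_nonneg_left this (by linarith : (0 : ℝ) ≤ R / 2)]
  have hh1 : R / 2 ≤ ht u a q := by
    unfold ht
    rw [hqa]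
    have : star u * ((R / 2 : ℝ) * (u + u₁)) = ((R / 2 : ℝ) : ℂ) * (star u * u + star u * u₁) := by ring
    rw [this, Complex.re_ofReal_mul, en_star_mul hu, Complex.add_re, Complex.one_re]
    linarith [mul_nonneg (by linarith : (0 : ℝ) ≤ R / 2) hp]
  have hp' : 0 ≤ (star u₁ * u).re := by
    have : star u₁ * u = star (star u * u₁) := by rw [star_mul, star_star]
    rw [this]
    exact hp
  have hh2 : R / 2 ≤ ht u₁ a q := by
    unfold ht
    rw [hqa]
    have : star u₁ * ((R / 2 : ℝ) * (u + u₁)) = ((R / 2 : ℝ) : ℂ) * (star u₁ * u + star u₁ * u₁) := by ring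
    rw [this, Complex.re_ofReal_mul, en_star_mul hu₁, Complex.add_re, Complex.one_re]
    linarith [mul_nonneg (by linarith : (0 : ℝ) ≤ R / 2) hp']
  have key := en_grad (κ := k - (∑ i, β i : ℝ) * star u₁) (q := q) (a := a) (b := ∑ i, b i) (e := Fintype.card ι * (E + e)) hr fun z hz => by
    have hzq : ‖z - q‖ ≤ R / 4 := by rw [← dist_eq_norm]; exact mem_closedBall.1 hz
    have hza : ‖z - a‖ ≤ 5 * R / 4 := by
      calc ‖z - a‖ = ‖(z - q) + (q - a)‖ := by rw [sub_add_sub_cancel]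
        _ ≤ ‖z - q‖ + ‖q - a‖ := norm_add_le _ _
        _ ≤ 5 * R / 4 := by linarith
    have g1 : R / 4 ≤ ht u a z := by
      have := (abs_le.1 (abs_ht_sub_le hu a z q)).1
      linarith
    have g2 : R / 4 ≤ ht u₁ a z := by
      have := (abs_le.1 (abs_ht_sub_le hu₁ a z q)).1
      linarith
    have f1 := en_sum (x := x) (z := z) hT.2.1 (hT.2.2 z (by rw [mem_closedBall, dist_eq_norm]; linarith) (by linarith))
    have f2 := hf.S (z := z) (by rw [mem_closedBall, dist_eq_norm]; linarith)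
    rw [vee_top (by linarith)] at f2
    have e1 : ((k - (∑ i, β i : ℝ) * star u₁) * (z - a)).re + ∑ i, b i =
        (Φ.S x z - (∑ i, β i) * ht u₁ a z) - (Φ.S x z - ((k * (z - a)).re + ∑ i, b i)) := by
      unfold ht
      have : (k - (∑ i, β i : ℝ) * star u₁) * (z - a) = k * (z - a) - ((∑ i, β i : ℝ) : ℂ) * (star u₁ * (z - a)) := by ring
      rw [this, Complex.sub_re, Complex.re_ofReal_mul]
      ring
    rw [e1]
    refine (abs_sub _ _).trans ?_
    linarith
  refine key.trans (le_of_eq ?_)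
  field_simp

/-- a lower bound for the slope -/
private theorem en_slope_ge {x : X} {a : ℂ} {R E e A' : ℝ} {u u₀ k : ℂ} {β β' t b : ι → ℝ} (hR : 0 < R) (hu : ‖u‖ = 1) (hA' : 0 ≤ A')
    (hf : Fit Φ x a (16 * R) e A' u₀ β β') (hT : TopAff Φ x a (2 * R) (1 / 16) E u t k b) :
    A' - 4 * (Fintype.card ι * (E + e)) / R ≤ ‖k‖ := by
  have key : ∀ (u₁ : ℂ) (γ γ' : ι → ℝ), Fit Φ x a (16 * R) e A' u₁ γ γ' → 0 ≤ (star u * u₁).re → A' - 4 * (Fintype.card ι * (E + e)) / R ≤ ‖k‖ := by
    intro u₁ γ γ' h1 h2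
    have h3 := en_slope hR hu h1 hT h2
    have h4 : ‖((∑ i, γ i : ℝ) : ℂ) * star u₁‖ = ∑ i, γ i := by
      rw [norm_mul, norm_star, h1.nu, mul_one, Complex.norm_real, Real.norm_of_nonneg (hA'.trans h1.Aβ)]
    have h5 := norm_sub_norm_le (((∑ i, γ i : ℝ) : ℂ) * star u₁) k
    rw [h4, norm_sub_rev] at h5
    linarith [h1.Aβ]
  rcases le_total 0 (star u * u₀).re with h | h
  · exact key u₀ β β' hf h
  · refine key (-u₀) β' β (en_flip hf) ?_
    rw [mul_neg, Complex.neg_re]
    linarith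

/-- two complex numbers of equal modulus with large imaginary parts and close real parts -/
private theorem en_close {p q : ℂ} {R τ : ℝ} (hR : 0 < R) (hpq : ‖p‖ = ‖q‖) (hp : R / 2 ≤ p.im) (hq : R / 2 ≤ q.im) (hn : ‖p‖ ≤ R) (hτp : |p.re| ≤ τ)
    (hτq : |q.re| ≤ τ) : ‖p - q‖ ≤ 6 * τ := by
  have h1 : p.re ^ 2 + p.im ^ 2 = q.re ^ 2 + q.im ^ 2 := by
    have e1 := Complex.sq_norm p
    have e2 := Complex.sq_norm q
    rw [Complex.normSq_apply] at e1 e2
    rw [hpq] at e1
    linarith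
  have h2 : |p.re + q.re| ≤ 2 * R := by
    have h3 := Complex.abs_re_le_norm p
    have h4 := Complex.abs_re_le_norm q
    rw [← hpq] at h4
    exact (abs_add_le _ _).trans (by linarith)
  have h3 : |p.re - q.re| ≤ 2 * τ := (abs_sub _ _).trans (by linarith)
  have h4 : (p.im - q.im) * (p.im + q.im) = (q.re - p.re) * (q.re + p.re) := by linarith
  have h5 : |p.im - q.im| * R ≤ 4 * τ * R := by
    have h6 : |p.im - q.im| * (p.im + q.im) = |q.re - p.re| * |q.re + p.re| := by
      rw [← abs_mul, ← h4, abs_mul, abs_of_nonneg (show 0 ≤ p.im + q.im by linarith)]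
    have h7 : |p.im - q.im| * R ≤ |p.im - q.im| * (p.im + q.im) := mul_le_mul_of_nonneg_left (by linarith) (abs_nonneg _)
    have h8 : |q.re - p.re| * |q.re + p.re| ≤ (2 * τ) * (2 * R) := by
      refine mul_le_mul ?_ ?_ (abs_nonneg _) (by linarith [abs_nonneg (p.re)])
      · rw [abs_sub_comm]
        exact h3
      · rw [add_comm]
        exact h2
    linarith
  have h6 : |p.im - q.im| ≤ 4 * τ := le_of_mul_le_mul_right h5 hR
  have h7 := Complex.norm_le_abs_re_add_abs_im (p - q)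
  rw [Complex.sub_re, Complex.sub_im] at h7
  linarith

/-- MODULE Line.  The two affine families of `low_region` give a datum at `(a, R)`: `û = star k / ‖k‖`, rates `t_i ‖k‖`, `t'_i ‖k'‖`.  At `a` and at a good
point `a''` at distance `≥ R / 2` (near `a + (3/4) R I u`) both families are `≤ E + C`; so the lines `Re k (z - a) = 0`, `Re k' (z - a) = 0` agree up to
`C (E + C)`; where the height is negative and the first family fits, `S ≥ 0` shows that the height is small.  The datum with `2 A` (any `u₀`) shows that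
the new rates have sum `≥ A`. -/
theorem line_fit (hΦ : Hyp Φ C c R₀) (hA : 0 < A) (hD : Dep Φ A c₂ C₂ R₂) (hR₂ : R₀ ≤ R₂) :
    ∃ C₇ η₂ R₇ : ℝ, 0 < C₇ ∧ 0 < η₂ ∧ 1 ≤ R₇ ∧ ∀ (x : X) (a : ℂ), a ∈ Φ.G x → ∀ (R E : ℝ), R₇ ≤ R → 0 ≤ E → E ≤ η₂ * R →
      (∃ u₀ β₀ β₀', Fit Φ x a (16 * R) (η₂ * (16 * R)) (2 * A) u₀ β₀ β₀') → ∀ (u : ℂ) (β β' : ι → ℝ),
      Fit Φ x a (16 * R) (η₂ * (16 * R)) A u β β' → ∀ (t t' : ι → ℝ) (k k' : ℂ) (b b' : ι → ℝ), TopAff Φ x a (2 * R) (1 / 16) E u t k b →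
      TopAff Φ x a (2 * R) (1 / 16) E (-u) t' k' b' → (∀ z ∈ closedBall a R,
        ((∀ i, |Φ.lam x i z - (t i * (k * (z - a)).re + b i)| ≤ E) ∨ ∀ i, |Φ.lam x i z - (t' i * (k' * (z - a)).re + b' i)| ≤ E) ∧
        (z ∈ Φ.G x → (∀ i, |Φ.lam x i z - (t i * (k * (z - a)).re + b i)| ≤ E) ∧
          ∀ i, |Φ.lam x i z - (t' i * (k' * (z - a)).re + b' i)| ≤ E)) →
      ∃ u' γ γ', Fit Φ x a R (C₇ * (E + 1)) A u' γ γ' := by
  have hC1 := hΦ.C_ge
  have hc₂ := hD.c_pos
  have hc₂1 := hD.c_le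
  have hR₂1 := hD.R_ge
  set n : ℝ := ((Fintype.card ι : ℕ) : ℝ) with hn
  have hn0 : 0 ≤ n := by positivity
  set K : ℝ := n * (2 * C + 1) + A with hK
  have hK0 : 0 < K := by positivity
  set η₂ : ℝ := min (c₂ / 256) (A / (680 * (n + 1))) with hη₂
  have hη0 : 0 < η₂ := lt_min (by positivity) (by positivity)
  have hη1 : η₂ ≤ c₂ / 256 := min_le_left _ _
  have hη2 : η₂ ≤ A / (680 * (n + 1)) := min_le_right _ _
  have hη3 : η₂ ≤ 1 / 16 := by linarith
  have hηn : 68 * n * η₂ ≤ A / 10 := by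
    have h1 : η₂ * (680 * (n + 1)) ≤ A := by
      rwa [le_div_iff₀ (by positivity)] at hη2
    linarith
  set C₇ : ℝ := (2 + C + 18 * K * n * (1 + C) / A) * (1 + 2 * K * n / A) with hC₇
  refine ⟨C₇, η₂, 16 * R₂ + 1, by positivity, hη0, by linarith, ?_⟩
  intro x a ha R E hR hE0 hE hex u β β' hfit t t' k k' b b' hT hT' hall
  have hR0 : 0 < R := by linarith
  have hR1 : 1 ≤ R := by linarith
  have hu := hfit.nu
  -- slopes
  have hε : 4 * (n * (E + η₂ * (16 * R))) / R ≤ A / 10 := by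
    rw [div_le_iff₀ hR0]
    have h1 : n * E ≤ n * (η₂ * R) := mul_le_mul_of_nonneg_left hE hn0
    have h2 : 68 * n * η₂ * R ≤ A / 10 * R := mul_le_mul_of_nonneg_right hηn hR0.le
    linarith
  have hkB : ‖k - (∑ i, β i : ℝ) * star u‖ ≤ A / 10 := by
    refine (en_slope hR0 hu hfit hT ?_).trans hε
    rw [en_star_mul hu]
    norm_num
  have hk'B : ‖k' - (∑ i, β' i : ℝ) * star (-u)‖ ≤ A / 10 := by
    have hu' : ‖-u‖ = 1 := by rw [norm_neg, hu]
    refine (en_slope hR0 hu' (en_flip hfit) hT' ?_).trans hε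
    rw [en_star_mul hu']
    norm_num
  obtain ⟨u₀, β₀, β₀', hfit₀⟩ := hex
  have hkA : A ≤ ‖k‖ := by
    have := en_slope_ge hR0 hu (by positivity) hfit₀ hT
    linarith
  have hkA' : A ≤ ‖k'‖ := by
    have := en_slope_ge hR0 (u := -u) (by rw [norm_neg, hu]) (by positivity) hfit₀ hT'
    linarith
  set Bs : ℝ := ∑ i, β i with hBs
  set Bs' : ℝ := ∑ i, β' i with hBs'
  have hBA : A ≤ Bs := hfit.Aβ
  have hBA' : A ≤ Bs' := hfit.Aβ'
  have hsn : ∀ s : ℝ, 0 ≤ s → ‖(s : ℂ) * star u‖ = s := fun s hs => by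
    rw [norm_mul, norm_star, hu, mul_one, Complex.norm_real, Real.norm_of_nonneg hs]
  have hkle : ‖k‖ ≤ Bs + A / 10 := by
    have h1 := norm_sub_norm_le k ((Bs : ℂ) * star u)
    rw [hsn Bs (by linarith)] at h1
    linarith
  have hkle' : ‖k'‖ ≤ Bs' + A / 10 := by
    have h1 := norm_sub_norm_le k' ((Bs' : ℂ) * star (-u))
    rw [star_neg, mul_neg, norm_neg, hsn Bs' (by linarith)] at h1
    rw [star_neg, mul_neg] at hk'B
    linarith
  have hR16 : (1 : ℝ) ≤ 16 * R := by linarith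
  have heD : η₂ * (16 * R) ≤ 1 * (16 * R) := mul_le_mul_of_nonneg_right (by linarith) (by linarith)
  have hBK : Bs ≤ n * (2 * C + 1) := by
    rw [hBs]
    refine (Finset.sum_le_sum fun i _ => en_rate hΦ ha hR16 heD hfit i).trans (le_of_eq ?_)
    rw [Finset.sum_const, Finset.card_univ, nsmul_eq_mul]
  have hBK' : Bs' ≤ n * (2 * C + 1) := by
    rw [hBs']
    refine (Finset.sum_le_sum fun i _ => en_rate hΦ ha hR16 heD (en_flip hfit) i).trans (le_of_eq ?_)
    rw [Finset.sum_const, Finset.card_univ, nsmul_eq_mul]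
  have hkK : ‖k‖ ≤ K := by linarith
  have hkK' : ‖k'‖ ≤ K := by linarith
  -- the second good point
  set p : ℂ := a + (3 / 4 * R : ℝ) * (I * u) with hp
  have hpa : p - a = (3 / 4 * R : ℝ) * (I * u) := by rw [hp, add_sub_cancel_left]
  have hpn : ‖p - a‖ = 3 / 4 * R := by
    rw [hpa, norm_mul, norm_mul, Complex.norm_I, hu, Complex.norm_real, Real.norm_of_nonneg (by positivity)]
    ring
  have hsp : star u * (p - a) = ((3 / 4 * R : ℝ) : ℂ) * I := by
    rw [hpa]
    have : star u * (((3 / 4 * R : ℝ) : ℂ) * (I * u)) = ((3 / 4 * R : ℝ) : ℂ) * I * (star u * u) := by ring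
    rw [this, en_star_mul hu, mul_one]
  have hpht : ht u a p = 0 := by
    unfold ht
    rw [hsp, Complex.re_ofReal_mul, Complex.I_re, mul_zero]
  have hdp : Φ.d x p < R / 16 := by
    by_contra hcon
    push Not at hcon
    have h1 := hD.het x a (16 * R) (η₂ * (16 * R)) u β β' ha hR16 hfit p (by
      rw [mem_closedBall, dist_eq_norm, hpn]
      linarith) (by linarith) (by
      have h2 : η₂ * (16 * R) ≤ c₂ / 256 * (16 * R) := mul_le_mul_of_nonneg_right hη1 (by linarith)
      have h3 : c₂ * (R / 16) ≤ c₂ * Φ.d x p := mul_le_mul_of_nonneg_left hcon hc₂.le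
      linarith)
    rw [hpht, abs_zero] at h1
    have h3 : c₂ * (R / 16) ≤ c₂ * Φ.d x p := mul_le_mul_of_nonneg_left hcon hc₂.le
    have h4 : 0 < c₂ * (R / 16) := by positivity
    linarith
  obtain ⟨a', ha', hpa'⟩ := good_near hΦ hdp
  set w : ℂ := a' - a with hw
  have hwv : star u * w = ((3 / 4 * R : ℝ) : ℂ) * I - star u * (p - a') := by
    rw [← hsp, hw]
    ring
  have hvn : ‖star u * (p - a')‖ ≤ R / 16 := by
    rw [norm_mul, norm_star, hu, one_mul]
    exact hpa'.le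
  have hwim : 11 / 16 * R ≤ (star u * w).im := by
    rw [hwv, Complex.sub_im, Complex.im_ofReal_mul, Complex.I_im, mul_one]
    have := (abs_le.1 ((Complex.abs_im_le_norm (star u * (p - a'))).trans hvn)).2
    linarith
  have hwn : ‖w‖ = ‖star u * w‖ := by rw [norm_mul, norm_star, hu, one_mul]
  have hwle : ‖w‖ ≤ 13 / 16 * R := by
    rw [hwn, hwv]
    refine (norm_sub_le _ _).trans ?_
    rw [norm_mul, Complex.norm_I, mul_one, Complex.norm_real, Real.norm_of_nonneg (by positivity)]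
    linarith
  have hwge : 11 / 16 * R ≤ ‖w‖ := by
    rw [hwn]
    exact hwim.trans ((le_abs_self _).trans (Complex.abs_im_le_norm _))
  have hw0 : 0 < ‖w‖ := by linarith
  have ha'mem : a' ∈ closedBall a R := by
    rw [mem_closedBall, dist_eq_norm]
    linarith
  have hamem : a ∈ closedBall a R := mem_closedBall_self hR0.le
  -- values at the good points
  have hgood : ∀ y ∈ Φ.G x, ∀ i, 0 ≤ Φ.lam x i y ∧ Φ.lam x i y ≤ C := by
    intro y hy i
    refine ⟨hΦ.nn x i y, ?_⟩
    have := hΦ.up x i y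
    rw [d_good hy, add_zero, mul_one] at this
    exact this
  have hSgood : ∀ y ∈ Φ.G x, 0 ≤ Φ.S x y ∧ Φ.S x y ≤ n * C := by
    intro y hy
    refine ⟨S_nonneg hΦ x y, ?_⟩
    have := S_le hΦ x y
    rw [d_good hy, add_zero, mul_one] at this
    exact this
  have hba := (hall a hamem).2 ha
  have hba' := (hall a' ha'mem).2 ha'
  have hb1 : ∀ i, |b i| ≤ E + C := by
    intro i
    have h1 := hba.1 i
    rw [sub_self, mul_zero, Complex.zero_re, mul_zero, zero_add] at h1
    have h2 := hgood a ha i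
    rw [abs_le] at h1 ⊢
    constructor <;> linarith
  have hb1' : ∀ i, |b' i| ≤ E + C := by
    intro i
    have h1 := hba.2 i
    rw [sub_self, mul_zero, Complex.zero_re, mul_zero, zero_add] at h1
    have h2 := hgood a ha i
    rw [abs_le] at h1 ⊢
    constructor <;> linarith
  have hre : ∀ (s : ι → ℝ) (q : ι → ℝ) (κ : ℂ), ∑ i, s i = 1 → (∀ i, |Φ.lam x i a - (s i * (κ * (a - a)).re + q i)| ≤ E) →
      (∀ i, |Φ.lam x i a' - (s i * (κ * (a' - a)).re + q i)| ≤ E) → |(κ * w).re| ≤ 2 * n * (E + C) := by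
    intro s q κ hs h1 h2
    have e1 := en_sum hs h1
    have e2 := en_sum hs h2
    rw [sub_self, mul_zero, Complex.zero_re, zero_add] at e1
    have g1 := hSgood a ha
    have g2 := hSgood a' ha'
    rw [abs_le] at e1 e2 ⊢
    constructor <;> linarith
  have hkw := hre t b k hT.2.1 hba.1 hba'.1
  have hkw' := hre t' b' k' hT'.2.1 hba.2 hba'.2
  -- the unit vectors
  have hk0 : 0 < ‖k‖ := by linarith
  have hk0' : 0 < ‖k'‖ := by linarith
  have hkc : ((‖k‖ : ℝ) : ℂ) ≠ 0 := by exact_mod_cast hk0.ne'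
  have hkc' : ((‖k'‖ : ℝ) : ℂ) ≠ 0 := by exact_mod_cast hk0'.ne'
  set κ : ℂ := k / ‖k‖ with hκ
  set κ' : ℂ := k' / ‖k'‖ with hκ'
  have hκk : k = ‖k‖ * κ := by rw [hκ, mul_div_cancel₀ _ hkc]
  have hκk' : k' = ‖k'‖ * κ' := by rw [hκ', mul_div_cancel₀ _ hkc']
  have hκn : ‖κ‖ = 1 := by rw [hκ, norm_div, Complex.norm_real, norm_norm, div_self hk0.ne']
  have hκn' : ‖κ'‖ = 1 := by rw [hκ', norm_div, Complex.norm_real, norm_norm, div_self hk0'.ne']
  set τ₀ : ℝ := 2 * n * (E + C) / A with hτ₀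
  have hτ₀0 : 0 ≤ τ₀ := by positivity
  have hPre : |(κ * w).re| ≤ τ₀ := by
    have e1 : (k * w).re = ‖k‖ * (κ * w).re := by
      conv_lhs => rw [hκk]
      rw [mul_assoc, Complex.re_ofReal_mul]
    rw [e1, abs_mul, abs_of_pos hk0] at hkw
    rw [hτ₀, le_div_iff₀ hA]
    have := mul_le_mul_of_nonneg_right hkA (abs_nonneg (κ * w).re)
    linarith
  have hQre : |(-κ' * w).re| ≤ τ₀ := by
    have e1 : (k' * w).re = ‖k'‖ * (κ' * w).re := by
      conv_lhs => rw [hκk']
      rw [mul_assoc, Complex.re_ofReal_mul]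
    rw [e1, abs_mul, abs_of_pos hk0'] at hkw'
    rw [neg_mul, Complex.neg_re, abs_neg, hτ₀, le_div_iff₀ hA]
    have := mul_le_mul_of_nonneg_right hkA' (abs_nonneg (κ' * w).re)
    linarith
  have hPim : R / 2 ≤ (κ * w).im := by
    have e1 : (k * w).im = ‖k‖ * (κ * w).im := by
      conv_lhs => rw [hκk]
      rw [mul_assoc, Complex.im_ofReal_mul]
    have e2 : k * w = (Bs : ℂ) * (star u * w) + (k - (Bs : ℂ) * star u) * w := by ring
    have e3 : |((k - (Bs : ℂ) * star u) * w).im| ≤ A / 10 * (13 / 16 * R) := by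
      refine (Complex.abs_im_le_norm _).trans ?_
      rw [norm_mul]
      exact mul_le_mul hkB hwle (norm_nonneg _) (by positivity)
    have e4 : Bs * (11 / 16 * R) - A / 10 * (13 / 16 * R) ≤ (k * w).im := by
      rw [e2, Complex.add_im, Complex.im_ofReal_mul]
      have h1 := (abs_le.1 e3).1
      have h2 : Bs * (11 / 16 * R) ≤ Bs * (star u * w).im := mul_le_mul_of_nonneg_left hwim (by linarith)
      linarith
    rw [e1] at e4
    by_contra hcon
    push Not at hcon
    have h3 : ‖k‖ * (κ * w).im ≤ ‖k‖ * (R / 2) := mul_le_mul_of_nonneg_left hcon.le hk0.le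
    have h4 : ‖k‖ * (R / 2) ≤ (Bs + A / 10) * (R / 2) := mul_le_mul_of_nonneg_right hkle (by linarith)
    have h5 : A * R ≤ Bs * R := mul_le_mul_of_nonneg_right hBA hR0.le
    have h6 : 0 < A * R := by positivity
    linarith
  have hQim : R / 2 ≤ (-κ' * w).im := by
    have e1 : (-k' * w).im = ‖k'‖ * (-κ' * w).im := by
      conv_lhs => rw [hκk']
      rw [neg_mul, neg_mul, mul_assoc, Complex.neg_im, Complex.im_ofReal_mul, Complex.neg_im]
      ring
    have e2 : -k' * w = (Bs' : ℂ) * (star u * w) - (k' - (Bs' : ℂ) * star (-u)) * w := by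
      rw [star_neg]
      ring
    have e3 : |((k' - (Bs' : ℂ) * star (-u)) * w).im| ≤ A / 10 * (13 / 16 * R) := by
      refine (Complex.abs_im_le_norm _).trans ?_
      rw [norm_mul]
      exact mul_le_mul hk'B hwle (norm_nonneg _) (by positivity)
    have e4 : Bs' * (11 / 16 * R) - A / 10 * (13 / 16 * R) ≤ (-k' * w).im := by
      rw [e2, Complex.sub_im, Complex.im_ofReal_mul]
      have h1 := (abs_le.1 e3).2
      have h2 : Bs' * (11 / 16 * R) ≤ Bs' * (star u * w).im := mul_le_mul_of_nonneg_left hwim (by linarith)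
      linarith
    rw [e1] at e4
    by_contra hcon
    push Not at hcon
    have h3 : ‖k'‖ * (-κ' * w).im ≤ ‖k'‖ * (R / 2) := mul_le_mul_of_nonneg_left hcon.le hk0'.le
    have h4 : ‖k'‖ * (R / 2) ≤ (Bs' + A / 10) * (R / 2) := mul_le_mul_of_nonneg_right hkle' (by linarith)
    have h5 : A * R ≤ Bs' * R := mul_le_mul_of_nonneg_right hBA' hR0.le
    have h6 : 0 < A * R := by positivity
    linarith
  have hPQ : ‖κ * w - -κ' * w‖ ≤ 6 * τ₀ := by
    refine en_close hR0 ?_ hPim hQim ?_ hPre hQre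
    · rw [norm_mul, norm_mul, norm_neg, hκn, hκn']
    · rw [norm_mul, hκn, one_mul]
      linarith
  set τ : ℝ := 18 * n * (E + C) / A with hτ
  have hτ0 : 0 ≤ τ := by positivity
  have hkk : ∀ z ∈ closedBall a R, |((κ + κ') * (z - a)).re| ≤ τ := by
    intro z hz
    have h1 : ‖κ + κ'‖ * ‖w‖ ≤ 6 * τ₀ := by
      rw [← norm_mul]
      have : (κ + κ') * w = κ * w - -κ' * w := by ring
      rw [this]
      exact hPQ
    have h2 : ‖z - a‖ ≤ R := by rw [← dist_eq_norm]; exact mem_closedBall.1 hz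
    have h3 : ‖κ + κ'‖ * ‖z - a‖ ≤ τ := by
      have h4 : ‖κ + κ'‖ * (11 / 16 * R) ≤ 6 * τ₀ := (mul_le_mul_of_nonneg_left hwge (norm_nonneg _)).trans h1
      have h5 : ‖κ + κ'‖ * ‖z - a‖ ≤ ‖κ + κ'‖ * R := mul_le_mul_of_nonneg_left h2 (norm_nonneg _)
      have h6 : τ = 9 * τ₀ := by
        rw [hτ, hτ₀]
        ring
      have h7 : ‖κ + κ'‖ * R ≤ 9 * τ₀ := by linarith
      linarith
    refine (Complex.abs_re_le_norm _).trans ?_
    rw [norm_mul]
    exact h3
  -- the new datum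
  have hstar : star (star κ) = κ := star_star κ
  have hht : ∀ z, ht (star κ) a z = (κ * (z - a)).re := fun z => by
    unfold ht
    rw [hstar]
  set m₂ : ℝ := 2 * E + C + K * τ with hm₂
  have hm₂0 : 0 ≤ m₂ := by positivity
  have ht1 : ∀ i, t i ≤ 1 := fun i => by
    rw [← hT.2.1]
    exact Finset.single_le_sum (fun i _ => hT.1 i) (Finset.mem_univ i)
  have ht1' : ∀ i, t' i ≤ 1 := fun i => by
    rw [← hT'.2.1]
    exact Finset.single_le_sum (fun i _ => hT'.1 i) (Finset.mem_univ i)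
  have hγK : ∀ i, t i * ‖k‖ ≤ K := fun i => (mul_le_of_le_one_left hk0.le (ht1 i)).trans hkK
  have hγK' : ∀ i, t' i * ‖k'‖ ≤ K := fun i => (mul_le_of_le_one_left hk0'.le (ht1' i)).trans hkK'
  have hγ0 : ∀ i, 0 ≤ t i * ‖k‖ := fun i => mul_nonneg (hT.1 i) hk0.le
  have hγ0' : ∀ i, 0 ≤ t' i * ‖k'‖ := fun i => mul_nonneg (hT'.1 i) hk0'.le
  have hfin : m₂ * (1 + 2 * K * n / A) ≤ C₇ * (E + 1) := by
    have h1 : m₂ ≤ (2 + C + 18 * K * n * (1 + C) / A) * (E + 1) := by
      have h0 : 0 ≤ C * E := mul_nonneg (by linarith) hE0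
      have h2 : E + C ≤ (1 + C) * (E + 1) := by linarith
      have h3 : K * τ ≤ 18 * K * n * (1 + C) / A * (E + 1) := by
        have e1 : K * τ = 18 * K * n / A * (E + C) := by rw [hτ]; ring
        have e2 : 18 * K * n * (1 + C) / A * (E + 1) = 18 * K * n / A * ((1 + C) * (E + 1)) := by ring
        rw [e1, e2]
        exact mul_le_mul_of_nonneg_left h2 (by positivity)
      have h4 : 2 * E + C ≤ (2 + C) * (E + 1) := by linarith
      rw [hm₂]
      linarith
    have h2 : 0 ≤ 1 + 2 * K * n / A := by positivity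
    calc m₂ * (1 + 2 * K * n / A) ≤ ((2 + C + 18 * K * n * (1 + C) / A) * (E + 1)) * (1 + 2 * K * n / A) := mul_le_mul_of_nonneg_right h1 h2
      _ = C₇ * (E + 1) := by rw [hC₇]; ring
  -- the other side
  have hside : ∀ (z : ℂ) (h : ℝ) (s s' : ι → ℝ) (kk : ℝ), A ≤ kk → 0 < h → (∀ i, 0 ≤ s i) → (∀ i, s i ≤ K) → (∀ i, 0 ≤ s' i) → (∀ i, s' i ≤ K) → ∑ i, s i = kk →
      (∀ i, |Φ.lam x i z + s i * h| ≤ m₂) → ∀ i, |Φ.lam x i z - s' i * h| ≤ m₂ * (1 + 2 * K * n / A) := by
    intro z h s s' kk hkk0 hh hs0 hsK hs0' hsK' hsum hlam i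
    have h1 : Φ.S x z + kk * h ≤ n * m₂ := by
      have e1 : Φ.S x z + kk * h = ∑ i, (Φ.lam x i z + s i * h) := by
        rw [Finset.sum_add_distrib, ← Finset.sum_mul, hsum]
        rfl
      rw [e1]
      refine (Finset.sum_le_sum fun i _ => (abs_le.1 (hlam i)).2).trans (le_of_eq ?_)
      rw [Finset.sum_const, Finset.card_univ, nsmul_eq_mul]
    have h2 := S_nonneg hΦ x z
    have h3 : A * h ≤ n * m₂ := by
      have := mul_le_mul_of_nonneg_right hkk0 hh.le
      linarith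
    have h4 : h ≤ n * m₂ / A := by
      rw [le_div_iff₀ hA]
      linarith
    have e2 : Φ.lam x i z - s' i * h = (Φ.lam x i z + s i * h) - (s i + s' i) * h := by ring
    rw [e2]
    refine (abs_sub _ _).trans ?_
    have h5 : |(s i + s' i) * h| ≤ 2 * K * (n * m₂ / A) := by
      rw [abs_of_nonneg (mul_nonneg (add_nonneg (hs0 i) (hs0' i)) hh.le)]
      exact mul_le_mul (by linarith [hsK i, hsK' i]) h4 hh.le (by positivity)
    have h6 : m₂ * (1 + 2 * K * n / A) = m₂ + 2 * K * (n * m₂ / A) := by ring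
    rw [h6]
    exact add_le_add (hlam i) h5
  have hm₂le : m₂ ≤ m₂ * (1 + 2 * K * n / A) := by
    have : 0 ≤ 2 * K * n / A := by positivity
    exact le_mul_of_one_le_right hm₂0 (by linarith)
  refine ⟨star κ, fun i => t i * ‖k‖, fun i => t' i * ‖k'‖, by rw [norm_star, hκn], hγ0, hγ0', ?_, ?_, ?_⟩
  · rw [← Finset.sum_mul, hT.2.1, one_mul]
    exact hkA
  · rw [← Finset.sum_mul, hT'.2.1, one_mul]
    exact hkA'
  · intro z hz i
    refine le_trans ?_ hfin
    set h := ht (star κ) a z with hh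
    have hhz : h = (κ * (z - a)).re := hht z
    rcases (hall z hz).1 with h1 | h1
    · -- the first family
      have h2 : ∀ i, |Φ.lam x i z - t i * ‖k‖ * h| ≤ m₂ := by
        intro i
        have e1 : t i * (k * (z - a)).re = t i * ‖k‖ * h := by
          conv_lhs => rw [hκk]
          rw [mul_assoc, Complex.re_ofReal_mul, hhz]
          ring
        have h3 := h1 i
        rw [e1] at h3
        have h4 := hb1 i
        have e2 : Φ.lam x i z - t i * ‖k‖ * h = (Φ.lam x i z - (t i * ‖k‖ * h + b i)) + b i := by ring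
        rw [e2]
        refine (abs_add_le _ _).trans ?_
        have : 0 ≤ K * τ := by positivity
        rw [hm₂]
        linarith
      rcases le_or_gt 0 h with hs | hs
      · rw [vee_top hs]
        exact (h2 i).trans hm₂le
      · rw [vee_low hs.le]
        refine hside z (-h) (fun i => t i * ‖k‖) (fun i => t' i * ‖k'‖) ‖k‖ hkA (by linarith) hγ0 hγK hγ0' hγK' ?_ ?_ i
        · rw [← Finset.sum_mul, hT.2.1, one_mul]
        · intro i
          have := h2 i
          have e3 : Φ.lam x i z + t i * ‖k‖ * -h = Φ.lam x i z - t i * ‖k‖ * h := by ring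
          rw [e3]
          exact this
    · -- the second family
      have h2 : ∀ i, |Φ.lam x i z + t' i * ‖k'‖ * h| ≤ m₂ := by
        intro i
        have hρ := hkk z hz
        have e1 : t' i * (k' * (z - a)).re = t' i * ‖k'‖ * (-h + ((κ + κ') * (z - a)).re) := by
          conv_lhs => rw [hκk']
          have e4 : (κ + κ') * (z - a) = κ * (z - a) + κ' * (z - a) := by ring
          rw [mul_assoc, Complex.re_ofReal_mul, e4, Complex.add_re, ← hhz]
          ring
        have h3 := h1 i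
        rw [e1] at h3
        have h4 := hb1' i
        have e2 : Φ.lam x i z + t' i * ‖k'‖ * h = (Φ.lam x i z - (t' i * ‖k'‖ * (-h + ((κ + κ') * (z - a)).re) + b' i)) +
            (b' i + t' i * ‖k'‖ * ((κ + κ') * (z - a)).re) := by ring
        rw [e2]
        have h5 : |t' i * ‖k'‖ * ((κ + κ') * (z - a)).re| ≤ K * τ := by
          rw [abs_mul, abs_of_nonneg (hγ0' i)]
          exact mul_le_mul (hγK' i) hρ (abs_nonneg _) hK0.le
        refine (abs_add_le _ _).trans ?_
        have h6 := abs_add_le (b' i) (t' i * ‖k'‖ * ((κ + κ') * (z - a)).re)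
        rw [hm₂]
        linarith
      rcases le_or_gt h 0 with hs | hs
      · rw [vee_low hs]
        have e3 : Φ.lam x i z - t' i * ‖k'‖ * -h = Φ.lam x i z + t' i * ‖k'‖ * h := by ring
        rw [e3]
        exact (h2 i).trans hm₂le
      · rw [vee_top hs.le]
        refine hside z h (fun i => t' i * ‖k'‖) (fun i => t i * ‖k‖) ‖k'‖ hkA' hs hγ0' hγK' hγ0 hγK ?_ h2 i
        rw [← Finset.sum_mul, hT'.2.1, one_mul]

end Pool.Agent.SR3.BE
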