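import Pool.Agent.SR3.EBas

/-!
# SR3 ELow: block E, the two affine families in the low region

`side`: at a good point `a'` with a datum `(u', γ, γ')` of scale `D` which is oriented like `u` the affine functions of the upper half of the big disc are
`γ ht u' a'` up to `9 (e + ε)` at the points at distance `≤ D / 2` of `a'`.
-/

set_option autoImplicit false
set_option linter.unusedSectionVars false

open Topology Filter Metric Complex InnerProductSpace Laplacian

noncomputable section

namespace Pool.Agent.SR3.BE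

open Pool.Agent.SDR (gc)

variable {X ι : Type} [Fintype ι] {Φ : Fam X ι} {C c R₀ A c₂ C₂ R₂ : ℝ}

namespace LowAux

/-- an affine function which is small on a disc is small on larger discs -/
theorem aff_le {k : ℂ} {b e r s : ℝ} {q a : ℂ} (hr : 0 < r) (hs : 0 ≤ s) (h : ∀ z ∈ closedBall q r, |(k * (z - a)).re + b| ≤ e) :
    ∀ z ∈ closedBall q s, |(k * (z - a)).re + b| ≤ (1 + 2 * s / r) * e := by
  intro z hz
  have hq := h q (mem_closedBall_self hr.le)
  have he : 0 ≤ e := (abs_nonneg _).trans hq
  have hzn : ‖z - q‖ ≤ s := by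
    rw [← dist_eq_norm]
    exact mem_closedBall.1 hz
  rcases eq_or_ne (z - q) 0 with h0 | h0
  · have hzq : z = q := sub_eq_zero.1 h0
    rw [hzq]
    refine hq.trans ?_
    have : 0 ≤ 2 * s / r := by positivity
    exact le_mul_of_one_le_left he (by linarith)
  · have hn : 0 < ‖z - q‖ := norm_pos_iff.2 h0
    set w : ℂ := q + ((r / ‖z - q‖ : ℝ) : ℂ) * (z - q) with hw
    have hwm : w ∈ closedBall q r := by
      rw [mem_closedBall, dist_eq_norm, hw, add_sub_cancel_left, norm_mul, Complex.norm_real, Real.norm_of_nonneg (by positivity),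
        div_mul_cancel₀ _ hn.ne']
    have h1 := h w hwm
    have h2 : (k * (z - a)).re + b = ((k * (q - a)).re + b) + ‖z - q‖ / r * (((k * (w - a)).re + b) - ((k * (q - a)).re + b)) := by
      have h3 : k * (w - a) = k * (q - a) + ((r / ‖z - q‖ : ℝ) : ℂ) * (k * (z - q)) := by
        rw [hw]
        ring
      have h4 : k * (z - a) = k * (q - a) + k * (z - q) := by ring
      rw [h3, h4, Complex.add_re, Complex.add_re, Complex.re_ofReal_mul]
      field_simp
      ring
    rw [h2]
    have h5 : |((k * (w - a)).re + b) - ((k * (q - a)).re + b)| ≤ 2 * e := by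
      refine (abs_sub _ _).trans ?_
      linarith
    have h6 : ‖z - q‖ / r ≤ s / r := div_le_div_of_nonneg_right hzn hr.le
    calc _ ≤ |(k * (q - a)).re + b| + |‖z - q‖ / r * (((k * (w - a)).re + b) - ((k * (q - a)).re + b))| := abs_add_le _ _
      _ ≤ e + s / r * (2 * e) := by
          rw [abs_mul, abs_of_nonneg (by positivity : 0 ≤ ‖z - q‖ / r)]
          exact add_le_add hq (mul_le_mul h6 h5 (abs_nonneg _) (by positivity))
      _ = _ := by ring

theorem flip' {x : X} {a : ℂ} {R e : ℝ} {u : ℂ} {β β' : ι → ℝ} (h : Fit Φ x a R e A u β β') : Fit Φ x a R e A (-u) β' β :=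
  ⟨by rw [norm_neg]; exact h.nu, h.nβ', h.nβ, h.Aβ', h.Aβ, fun z hz i => by rw [vee_neg]; exact h.fit z hz i⟩

/-- one side -/
theorem side {x : X} {a a' : ℂ} {R δ e ε D : ℝ} {u u' : ℂ} {γ γ' t b : ι → ℝ} {k : ℂ} (hu : ‖u‖ = 1) (hu' : ‖u'‖ = 1) (hcos : 1 / 2 < (star u * u').re)
    (hht : |ht u a a'| ≤ δ * R) (hD : 0 < D) (h8 : 8 * (δ * R) ≤ D) (hsub : closedBall a' D ⊆ closedBall a (2 * R))
    (hfit : ∀ w ∈ closedBall a' D, ∀ i, |Φ.lam x i w - vee u' a' (γ i) (γ' i) w| ≤ ε) (hT : TopAff Φ x a (2 * R) (δ / 2) e u t k b)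
    {z : ℂ} (hz : ‖z - a'‖ ≤ D / 2) (i : ι) : |t i * (k * (z - a)).re + b i - γ i * ht u' a' z| ≤ 9 * (e + ε) := by
  set q : ℂ := a' + ((D / 2 : ℝ) : ℂ) * u with hq
  have hqn : ‖q - a'‖ = D / 2 := by
    rw [hq, add_sub_cancel_left, norm_mul, Complex.norm_real, hu, mul_one, Real.norm_of_nonneg (by positivity)]
  have hrew : ∀ w, t i * (k * (w - a)).re + b i - γ i * ht u' a' w =
      (((t i : ℂ) * k - (γ i : ℂ) * star u') * (w - a)).re + (b i + γ i * (star u' * (a' - a)).re) := by
    intro w
    unfold ht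
    have h1 : ((t i : ℂ) * k - (γ i : ℂ) * star u') * (w - a) = (t i : ℂ) * (k * (w - a)) - (γ i : ℂ) * (star u' * (w - a)) := by ring
    have h2 : star u' * (w - a') = star u' * (w - a) - star u' * (a' - a) := by ring
    rw [h1, h2, Complex.sub_re, Complex.sub_re, Complex.re_ofReal_mul, Complex.re_ofReal_mul]
    ring
  have hsmall : ∀ w ∈ closedBall q (D / 4),
      |(((t i : ℂ) * k - (γ i : ℂ) * star u') * (w - a)).re + (b i + γ i * (star u' * (a' - a)).re)| ≤ e + ε := by
    intro w hw
    rw [← hrew w]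
    have hwq : ‖w - q‖ ≤ D / 4 := by
      rw [← dist_eq_norm]
      exact mem_closedBall.1 hw
    have hwD : w ∈ closedBall a' D := by
      rw [mem_closedBall, dist_eq_norm]
      calc ‖w - a'‖ = ‖(w - q) + (q - a')‖ := by congr 1; ring
        _ ≤ ‖w - q‖ + ‖q - a'‖ := norm_add_le _ _
        _ ≤ D := by rw [hqn]; linarith
    have hex : ∀ v : ℂ, w - a' = ((D / 2 : ℝ) : ℂ) * u + (w - q) := by
      intro _
      rw [hq]
      ring
    -- the height in the big disc
    have h1 : δ / 2 * (2 * R) ≤ ht u a w := by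
      have h2 : ht u a w = ht u a a' + (star u * (w - a')).re := by
        have := ht_sub u a w a'
        linarith
      have h3 : (star u * (w - a')).re = D / 2 + (star u * (w - q)).re := by
        rw [hex 0, mul_add, Complex.add_re]
        have h4 : star u * (((D / 2 : ℝ) : ℂ) * u) = ((D / 2 : ℝ) : ℂ) * (star u * u) := by ring
        have h5 : star u * u = 1 := by
          show (starRingEnd ℂ) u * u = 1
          rw [← Complex.normSq_eq_conj_mul_self, Complex.normSq_eq_norm_sq, hu]
          norm_num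
        rw [h4, h5, mul_one, Complex.ofReal_re]
      have h6 : |(star u * (w - q)).re| ≤ D / 4 := by
        refine (Complex.abs_re_le_norm _).trans ?_
        rw [norm_mul, norm_star, hu, one_mul]
        exact hwq
      have h7 := (abs_le.1 h6).1
      have h8' := (abs_le.1 hht).1
      rw [h2, h3]
      linarith
    have hA := hT.2.2 w (hsub hwD) h1 i
    -- the height in the small disc
    have h2 : 0 ≤ ht u' a' w := by
      unfold ht
      rw [hex 0, mul_add, Complex.add_re]
      have h4 : star u' * (((D / 2 : ℝ) : ℂ) * u) = ((D / 2 : ℝ) : ℂ) * (star u' * u) := by ring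
      rw [h4, Complex.re_ofReal_mul]
      have h5 : (star u' * u).re = (star u * u').re := by
        have h6 : star u' * u = star (star u * u') := by
          rw [star_mul', star_star, mul_comm]
        rw [h6]
        exact Complex.conj_re _
      have h6 : |(star u' * (w - q)).re| ≤ D / 4 := by
        refine (Complex.abs_re_le_norm _).trans ?_
        rw [norm_mul, norm_star, hu', one_mul]
        exact hwq
      have h7 := (abs_le.1 h6).1
      rw [h5]
      linarith [mul_le_mul_of_nonneg_left hcos.le (by linarith : (0 : ℝ) ≤ D / 2)]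
    have hB := hfit w hwD i
    rw [vee_top h2] at hB
    have h9 : t i * (k * (w - a)).re + b i - γ i * ht u' a' w =
        (Φ.lam x i w - γ i * ht u' a' w) - (Φ.lam x i w - (t i * (k * (w - a)).re + b i)) := by ring
    rw [h9]
    refine (abs_sub _ _).trans ?_
    linarith
  have hzq : z ∈ closedBall q D := by
    rw [mem_closedBall, dist_eq_norm]
    calc ‖z - q‖ = ‖(z - a') - (q - a')‖ := by congr 1; ring
      _ ≤ ‖z - a'‖ + ‖q - a'‖ := norm_sub_le _ _
      _ ≤ D := by rw [hqn]; linarith
  have h10 := aff_le (by positivity) hD.le hsmall z hzq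
  rw [hrew z]
  refine h10.trans (le_of_eq ?_)
  have : 1 + 2 * D / (D / 4) = 9 := by
    field_simp
    norm_num
  rw [this]

end LowAux

open LowAux

/-- MODULE Low. -/
theorem low_region (hΦ : Hyp Φ C c R₀) (hA : 0 < A) (hD : Dep Φ A c₂ C₂ R₂) (hR₂ : R₀ ≤ R₂) :
    ∃ K₃ C₆ δ₀ : ℝ, 1 ≤ K₃ ∧ 0 < C₆ ∧ 0 < δ₀ ∧ δ₀ ≤ 1 / 8 ∧ K₃ * δ₀ ≤ 1 ∧ ∀ δ : ℝ, 0 < δ → δ ≤ δ₀ → ∃ η₁ R₆ : ℝ, 0 < η₁ ∧ 1 ≤ R₆ ∧
      ∀ (x : X) (a : ℂ), a ∈ Φ.G x → ∀ (R e η : ℝ), R₆ ≤ R → 0 ≤ e → 0 ≤ η → η ≤ η₁ →
      (∀ a' ∈ Φ.G x, ∃ u' γ γ', Fit Φ x a' (K₃ * δ * R) (η * (K₃ * δ * R)) A u' γ γ') → ∀ (u : ℂ) (β β' : ι → ℝ),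
      Fit Φ x a (16 * R) (η * (16 * R)) A u β β' → ∀ (t t' : ι → ℝ) (k k' : ℂ) (b b' : ι → ℝ), TopAff Φ x a (2 * R) (δ / 2) e u t k b →
      TopAff Φ x a (2 * R) (δ / 2) e (-u) t' k' b' → ∀ z ∈ closedBall a R,
        ((∀ i, |Φ.lam x i z - (t i * (k * (z - a)).re + b i)| ≤ C₆ * (e + η * δ * R)) ∨
          ∀ i, |Φ.lam x i z - (t' i * (k' * (z - a)).re + b' i)| ≤ C₆ * (e + η * δ * R)) ∧
        (z ∈ Φ.G x → (∀ i, |Φ.lam x i z - (t i * (k * (z - a)).re + b i)| ≤ C₆ * (e + η * δ * R)) ∧
          ∀ i, |Φ.lam x i z - (t' i * (k' * (z - a)).re + b' i)| ≤ C₆ * (e + η * δ * R)) := by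
  have hc₂ := hD.c_pos
  have hc₂1 := hD.c_le
  have hR₂1 := hD.R_ge
  set n : ℝ := (Fintype.card ι : ℝ) with hn
  have hn0 : 0 ≤ n := Nat.cast_nonneg _
  set K₃ : ℝ := 8 / c₂ with hK₃
  have hK8 : 8 ≤ K₃ := by
    rw [hK₃, le_div_iff₀ hc₂]
    linarith
  have hKpos : 0 < K₃ := by linarith
  have hKc : K₃ * c₂ = 8 := by
    rw [hK₃]
    field_simp
  refine ⟨K₃, 10 * K₃, c₂ / 16, by linarith, by positivity, by positivity, by linarith, by linarith, fun δ hδ hδ' => ?_⟩
  have hKδ : K₃ * δ ≤ 1 / 2 := by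
    calc K₃ * δ ≤ K₃ * (c₂ / 16) := by gcongr
      _ = 1 / 2 := by rw [← mul_div_assoc, hKc]; norm_num
  refine ⟨min (c₂ * δ / 16) (A * K₃ * δ / (68 * (n + 1))), max 1 (R₂ / δ), lt_min (by positivity) (by positivity), le_max_left _ _, ?_⟩
  intro x a ha R e η hR he hη hη₁ hdat u β β' hfit t t' k k' b b' hT hT' z hz
  have hR1 : 1 ≤ R := (le_max_left _ _).trans hR
  have hRpos : 0 < R := by linarith
  have hR2 : R₂ ≤ δ * R := by
    have h1 : R₂ / δ ≤ R := (le_max_right _ _).trans hR
    rw [div_le_iff₀ hδ] at h1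
    linarith
  have hη2 : 16 * η ≤ c₂ * δ := by
    have := hη₁.trans (min_le_left _ _)
    linarith
  have hη3 : 68 * (n + 1) * η ≤ A * K₃ * δ := by
    have h1 := hη₁.trans (min_le_right _ _)
    rw [le_div_iff₀ (by positivity)] at h1
    linarith
  set D : ℝ := K₃ * δ * R with hDdef
  have hDpos : 0 < D := by positivity
  have h8 : 8 * (δ * R) ≤ D := by
    rw [hDdef]
    linarith [mul_le_mul_of_nonneg_right hK8 (mul_pos hδ hRpos).le]
  have hDR : D ≤ R / 2 := by
    rw [hDdef]
    linarith [mul_le_mul_of_nonneg_right hKδ hRpos.le]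
  have hδR : 0 < δ * R := by positivity
  have hηR : η * (16 * R) ≤ c₂ * (δ * R) := by linarith [mul_le_mul_of_nonneg_right hη2 hRpos.le]
  have hcδ : c₂ * (δ * R) ≤ δ * R := mul_le_of_le_one_left hδR.le hc₂1
  have hza : ‖z - a‖ ≤ R := by
    rw [← dist_eq_norm]
    exact mem_closedBall.1 hz
  -- good points have a small height
  have hgood : ∀ a' ∈ Φ.G x, a' ∈ closedBall a (16 * R) → |ht u a a'| ≤ δ * R := by
    intro a' ha' hb
    by_contra hcon
    push Not at hcon
    have h1 := (hD.dep x a (16 * R) (η * (16 * R)) u β β' ha (by linarith) hfit a' hb (hR2.trans hcon.le)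
      (hηR.trans (mul_le_mul_of_nonneg_left hcon.le hc₂.le))).1
    rw [d_good ha'] at h1
    linarith [mul_pos hc₂ (hδR.trans hcon)]
  -- the core
  have hcore : ∀ a' ∈ Φ.G x, ‖z - a'‖ ≤ D / 2 → ∃ (u' : ℂ) (γ γ' : ι → ℝ), (∀ i, |Φ.lam x i z - vee u' a' (γ i) (γ' i) z| ≤ η * D) ∧
      (∀ i, |t i * (k * (z - a)).re + b i - γ i * ht u' a' z| ≤ 9 * (e + η * D)) ∧
      ∀ i, |t' i * (k' * (z - a)).re + b' i - γ' i * (-ht u' a' z)| ≤ 9 * (e + η * D) := by
    intro a' ha' hza'
    have ha'a : ‖a' - a‖ ≤ R + D / 2 := by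
      calc ‖a' - a‖ = ‖(z - a) - (z - a')‖ := by congr 1; ring
        _ ≤ ‖z - a‖ + ‖z - a'‖ := norm_sub_le _ _
        _ ≤ _ := by linarith
    have hsub : closedBall a' D ⊆ closedBall a (2 * R) := by
      intro w hw
      rw [mem_closedBall, dist_eq_norm] at hw ⊢
      calc ‖w - a‖ = ‖(w - a') + (a' - a)‖ := by congr 1; ring
        _ ≤ ‖w - a'‖ + ‖a' - a‖ := norm_add_le _ _
        _ ≤ 2 * R := by linarith
    have ha'b : a' ∈ closedBall a (16 * R) := by
      rw [mem_closedBall, dist_eq_norm]
      linarith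
    have hhta := hgood a' ha' ha'b
    obtain ⟨u', γ, γ', hpos, hF⟩ : ∃ (u' : ℂ) (γ γ' : ι → ℝ), 0 ≤ (star u * u').re ∧ Fit Φ x a' D (η * D) A u' γ γ' := by
      obtain ⟨u', γ, γ', hF⟩ := hdat a' ha'
      rcases le_total 0 (star u * u').re with h1 | h1
      · exact ⟨u', γ, γ', h1, hF⟩
      · refine ⟨-u', γ', γ, ?_, flip' hF⟩
        rw [mul_neg, Complex.neg_re]
        linarith
    have hcos : 1 / 2 < (star u * u').re := by
      -- the sine is small
      set w : ℂ := a' + (D : ℂ) * (Complex.I * u') with hw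
      have hwD : w ∈ closedBall a' D := by
        rw [mem_closedBall, dist_eq_norm, hw, add_sub_cancel_left, norm_mul, norm_mul, Complex.norm_I, hF.nu, Complex.norm_real,
          Real.norm_of_nonneg hDpos.le]
        linarith
      have hw16 : w ∈ closedBall a (16 * R) := closedBall_subset_closedBall (by linarith) (hsub hwD)
      have h1 : ht u' a' w = 0 := by
        unfold ht
        rw [hw, add_sub_cancel_left]
        have h2 : star u' * ((D : ℂ) * (Complex.I * u')) = (D : ℂ) * Complex.I * (star u' * u') := by ring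
        have h3 : star u' * u' = 1 := by
          show (starRingEnd ℂ) u' * u' = 1
          rw [← Complex.normSq_eq_conj_mul_self, Complex.normSq_eq_norm_sq, hF.nu]
          norm_num
        rw [h2, h3, mul_one]
        simp
      have h2 := hF.S hwD
      rw [vee_top h1.ge, h1, mul_zero, sub_zero] at h2
      have h3 := hfit.S hw16
      have h4 : A * |ht u a w| ≤ vee u a (∑ i, β i) (∑ i, β' i) w := by
        rcases le_total 0 (ht u a w) with h5 | h5
        · rw [vee_top h5, abs_of_nonneg h5]
          exact mul_le_mul_of_nonneg_right hfit.Aβ h5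
        · rw [vee_low h5, abs_of_nonpos h5]
          exact mul_le_mul_of_nonneg_right hfit.Aβ' (by linarith)
      have h5 : A * |ht u a w| ≤ n * (η * D) + n * (η * (16 * R)) := by
        have h6 := (abs_le.1 h2).2
        have h7 := (abs_le.1 h3).1
        linarith
      have h6 : ht u a w = ht u a a' - D * (star u * u').im := by
        have h7 := ht_sub u a w a'
        rw [hw, add_sub_cancel_left] at h7
        have h8 : star u * ((D : ℂ) * (Complex.I * u')) = (D : ℂ) * (Complex.I * (star u * u')) := by ring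
        rw [h8, Complex.re_ofReal_mul] at h7
        have h9 : (Complex.I * (star u * u')).re = -(star u * u').im := by simp
        rw [h9] at h7
        rw [← hw] at h7
        linarith
      have h7 : D * |(star u * u').im| ≤ |ht u a a'| + |ht u a w| := by
        have h8 : D * (star u * u').im = ht u a a' - ht u a w := by linarith
        calc D * |(star u * u').im| = |D * (star u * u').im| := by rw [abs_mul, abs_of_pos hDpos]
          _ ≤ _ := by rw [h8]; exact abs_sub _ _
      have h8' : A * |ht u a w| ≤ A * (D / 4) := by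
        refine h5.trans ?_
        have h9 : n * (η * D) + n * (η * (16 * R)) ≤ n * η * (17 * R) := by
          have : n * η * D ≤ n * η * R := mul_le_mul_of_nonneg_left (by linarith) (by positivity)
          linarith
        refine h9.trans ?_
        have h10 : 68 * (n * η) ≤ A * K₃ * δ := by linarith
        have h11 : 68 * (n * η) * R ≤ A * K₃ * δ * R := mul_le_mul_of_nonneg_right h10 hRpos.le
        rw [hDdef]
        linarith
      have h9 : |ht u a w| ≤ D / 4 := le_of_mul_le_mul_left h8' hA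
      have h10 : D * |(star u * u').im| ≤ D * (3 / 8) := by linarith
      have h11 : |(star u * u').im| ≤ 3 / 8 := le_of_mul_le_mul_left h10 hDpos
      have h12 : (star u * u').re ^ 2 + (star u * u').im ^ 2 = 1 := by
        have h13 : Complex.normSq (star u * u') = 1 := by
          rw [Complex.normSq_eq_norm_sq, norm_mul, norm_star, hfit.nu, hF.nu]
          norm_num
        rw [Complex.normSq_apply] at h13
        linarith
      have h13 : (star u * u').im ^ 2 ≤ (3 / 8) ^ 2 := by
        rw [← sq_abs (star u * u').im]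
        exact pow_le_pow_left₀ (abs_nonneg _) h11 2
      by_contra hcon
      push Not at hcon
      have h14 := mul_le_mul hcon hcon hpos (by norm_num : (0 : ℝ) ≤ 1 / 2)
      linarith
    refine ⟨u', γ, γ', fun i => hF.fit z ?_ i, fun i => ?_, fun i => ?_⟩
    · rw [mem_closedBall, dist_eq_norm]
      linarith
    · exact side hfit.nu hF.nu hcos hhta hDpos h8 hsub hF.fit hT hza' i
    · have h1 := side (u := -u) (u' := -u') (γ := γ') (γ' := γ) (by rw [norm_neg]; exact hfit.nu) (by rw [norm_neg]; exact hF.nu)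
        (by rw [star_neg, neg_mul_neg]; exact hcos) (by rw [ht_neg, abs_neg]; exact hhta) hDpos h8 hsub (flip' hF).fit hT' hza' i
      rwa [ht_neg] at h1
  have hfin : ∀ {y L : ℝ}, |y - L| ≤ 10 * (e + η * D) → |y - L| ≤ 10 * K₃ * (e + η * δ * R) := by
    intro y L h1
    refine h1.trans ?_
    rw [hDdef]
    have h2 : e ≤ K₃ * e := le_mul_of_one_le_left he (by linarith)
    linarith
  have hηD : 0 ≤ η * D := by positivity
  have hG : z ∈ Φ.G x → (∀ i, |Φ.lam x i z - (t i * (k * (z - a)).re + b i)| ≤ 10 * K₃ * (e + η * δ * R)) ∧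
      ∀ i, |Φ.lam x i z - (t' i * (k' * (z - a)).re + b' i)| ≤ 10 * K₃ * (e + η * δ * R) := by
    intro hzG
    obtain ⟨u', γ, γ', h1, h2, h3⟩ := hcore z hzG (by rw [sub_self, norm_zero]; positivity)
    have h0 : ht u' z z = 0 := by
      unfold ht
      simp
    constructor
    · intro i
      apply hfin
      have h4 := h1 i
      have h5 := h2 i
      rw [vee_top h0.ge, h0, mul_zero, sub_zero] at h4
      rw [h0, mul_zero, sub_zero] at h5
      refine (abs_sub _ _).trans ?_
      linarith
    · intro i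
      apply hfin
      have h4 := h1 i
      have h5 := h3 i
      rw [vee_top h0.ge, h0, mul_zero, sub_zero] at h4
      rw [h0, neg_zero, mul_zero, sub_zero] at h5
      refine (abs_sub _ _).trans ?_
      linarith
  refine ⟨?_, hG⟩
  rcases le_or_gt (δ * R) |ht u a z| with h1 | h1
  · have hz2 : z ∈ closedBall a (2 * R) := closedBall_subset_closedBall (by linarith) hz
    have he' : ∀ {y L : ℝ}, |y - L| ≤ e → |y - L| ≤ 10 * K₃ * (e + η * δ * R) := by
      intro y L h2
      apply hfin
      linarith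
    rcases le_total 0 (ht u a z) with h2 | h2
    · left
      intro i
      rw [abs_of_nonneg h2] at h1
      exact he' (hT.2.2 z hz2 (by linarith) i)
    · right
      intro i
      rw [abs_of_nonpos h2] at h1
      exact he' (hT'.2.2 z hz2 (by rw [ht_neg]; linarith) i)
  · -- near a good point
    have hd : Φ.d x z ≤ D / 8 := by
      by_contra hcon
      push Not at hcon
      have h2 : δ * R < c₂ * Φ.d x z := by
        have h3 : c₂ * (D / 8) < c₂ * Φ.d x z := mul_lt_mul_of_pos_left hcon hc₂
        have h4 : c₂ * (D / 8) = δ * R := by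
          rw [hDdef]
          linear_combination (δ * R / 8) * hKc
        linarith
      have h3 : c₂ * Φ.d x z ≤ Φ.d x z := by
        have := d_nonneg (Φ := Φ) x z
        exact mul_le_of_le_one_left this hc₂1
      have hz16 : z ∈ closedBall a (16 * R) := closedBall_subset_closedBall (by linarith) hz
      have h4 := hD.het x a (16 * R) (η * (16 * R)) u β β' ha (by linarith) hfit z hz16 (by linarith) (by linarith)
      linarith
    obtain ⟨a', ha', hza'⟩ := good_near hΦ (x := x) (z := z) (r := D / 2) (by linarith)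
    obtain ⟨u', γ, γ', h2, h3, h4⟩ := hcore a' ha' hza'.le
    rcases le_total 0 (ht u' a' z) with h5 | h5
    · left
      intro i
      apply hfin
      have h6 := h2 i
      rw [vee_top h5] at h6
      have h7 := h3 i
      have h8' : Φ.lam x i z - (t i * (k * (z - a)).re + b i) =
          (Φ.lam x i z - γ i * ht u' a' z) - (t i * (k * (z - a)).re + b i - γ i * ht u' a' z) := by ring
      rw [h8']
      refine (abs_sub _ _).trans ?_
      linarith
    · right
      intro i
      apply hfin
      have h6 := h2 i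
      rw [vee_low h5] at h6
      have h7 := h4 i
      have h8' : Φ.lam x i z - (t' i * (k' * (z - a)).re + b' i) =
          (Φ.lam x i z - γ' i * (-ht u' a' z)) - (t' i * (k' * (z - a)).re + b' i - γ' i * (-ht u' a' z)) := by ring
      rw [h8']
      refine (abs_sub _ _).trans ?_
      linarith

end Pool.Agent.SR3.BE
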