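import Pool.Agent.SR3.EBas
import Pool.Agent.SR3.EDep
import Pool.Agent.SR3.EHalf
import Pool.Agent.SR3.EChain

/-!
# SR3 EOsc: the oscillation of the quotients decays

`w = lam_i - t S`, `t` the quotient at `a + R u`, `R = K r`, `h = δ R`, `δ = s²`: `|w| ≤ (3 + 2 log (R / y)) B C₃ y ≤ 3 C₃ B R` (`chain`), the half disc lemma,
`S = β_S y + O (n e)`, `S ≥ c κ r` at the two points.
-/

set_option autoImplicit false

open Topology Filter Metric Complex InnerProductSpace Laplacian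

noncomputable section

namespace Pool.Agent.SR3.BE

open Pool.Agent.SDR (gc)

variable {X ι : Type} [Fintype ι] {Φ : Fam X ι} {C c R₀ A c₂ C₂ R₂ : ℝ}

/-- the height has a constant sign on a segment of points of large depth -/
private theorem same_side {u a z z' : ℂ} {m : ℝ} (hm : 0 < m) (h : ∀ w ∈ segment ℝ z z', m ≤ |ht u a w|) (hz : 0 < ht u a z) :
    m ≤ ht u a z ∧ m ≤ ht u a z' := by
  have h1 := h z (left_mem_segment ℝ z z')
  have h2 := h z' (right_mem_segment ℝ z z')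
  rw [abs_of_pos hz] at h1
  refine ⟨h1, ?_⟩
  by_contra hcon
  have h3 : ht u a z' < 0 := by
    by_contra h4
    push Not at h4
    rw [abs_of_nonneg h4] at h2
    exact hcon h2
  have hp : IsPreconnected (segment ℝ z z') := (convex_segment z z').isPreconnected
  have h4 := hp.intermediate_value (right_mem_segment ℝ z z') (left_mem_segment ℝ z z') (continuous_ht u a).continuousOn
  obtain ⟨w, hw, hw0⟩ := h4 ⟨h3.le, hz.le⟩
  have h5 := h w hw
  rw [hw0, abs_zero] at h5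
  linarith

/-- `w / S` is close to `b / β_S` -/
private theorem quot_close {w S b y βS ε₁ ε₂ A S₀ : ℝ} (hA : 0 < A) (hβ : A ≤ βS) (hS₀ : 0 < S₀) (hS : S₀ ≤ S) (h1 : |w - b * y| ≤ ε₁)
    (h2 : |S - βS * y| ≤ ε₂) : |w / S - b / βS| ≤ (ε₁ + |b| * ε₂ / A) / S₀ := by
  have hβp : 0 < βS := hA.trans_le hβ
  have hSp : 0 < S := hS₀.trans_le hS
  have e1 : w / S - b / βS = ((w - b * y) - b * (S - βS * y) / βS) / S := by
    field_simp
    ring
  have hε₁ : 0 ≤ ε₁ := (abs_nonneg _).trans h1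
  have hε₂ : 0 ≤ ε₂ := (abs_nonneg _).trans h2
  have e2 : |b * (S - βS * y) / βS| ≤ |b| * ε₂ / A := by
    rw [abs_div, abs_mul, abs_of_pos hβp]
    exact div_le_div₀ (by positivity) (mul_le_mul_of_nonneg_left h2 (abs_nonneg _)) hA hβ
  have e3 : |(w - b * y) - b * (S - βS * y) / βS| ≤ ε₁ + |b| * ε₂ / A := (abs_sub _ _).trans (add_le_add h1 e2)
  rw [e1, abs_div, abs_of_pos hSp]
  exact div_le_div₀ (by positivity) e3 hS₀ hS

/-- one step, for a given pair of points -/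
private theorem osc_pair (hΦ : Hyp Φ C c R₀) (hA : 0 < A) (hD : Dep Φ A c₂ C₂ R₂) (hR₂ : R₀ ≤ R₂) {H : ℝ} (hH : 0 < H)
    (hHalf : ∀ (w : ℂ → ℝ) (u a : ℂ) (R h A m M K : ℝ), ‖u‖ = 1 → 0 < R → 0 < h → h ≤ R / 8 → 0 ≤ A → 0 ≤ m → 0 ≤ M →
      4 ≤ K → (∀ z ∈ closedBall a R, h ≤ ht u a z → ContDiffAt ℝ 2 w z) → (∀ z ∈ closedBall a R, h ≤ ht u a z → |Δ w z| ≤ A / ht u a z ^ 2) →
      (∀ z ∈ closedBall a R, ht u a z = h → |w z| ≤ m) → (∀ z ∈ closedBall a R, h ≤ ht u a z → |w z| ≤ M) →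
      ∃ b : ℝ, |b| ≤ H * M / R ∧ ∀ z ∈ closedBall a (R / K), h ≤ ht u a z →
        |w z - b * ht u a z| ≤ H * (m + M * h / R + A * (1 + Real.log (R / h)) + M / K ^ 2))
    {x : X} {a : ℂ} (ha : a ∈ Φ.G x) {K δ η B r : ℝ} {u : ℂ} {β β' : ι → ℝ} (hK : 4 ≤ K) (hδ : 0 < δ) (hδ8 : δ ≤ 1 / 8) (hr : 1 ≤ r)
    (hh : R₂ ≤ δ * (K * r)) (hh0 : R₀ ≤ c₂ * (δ * (K * r))) (hη : 0 ≤ η) (hη1 : 4 * η ≤ c₂ * δ) (hB : 0 ≤ B)
    (hO : ∀ r', δ * (K * r) ≤ r' → OscLe Φ (c₂ / (2 * C₂ + 1)) r' B) (hfit : Fit Φ x a (4 * (K * r)) (η * (4 * (K * r))) A u β β')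
    {z z' : ℂ} (hz : z ∈ closedBall a r) (hz' : z' ∈ closedBall a r) (hy : δ * (K * r) ≤ ht u a z) (hy' : δ * (K * r) ≤ ht u a z') {S₀ : ℝ}
    (hS₀ : 0 < S₀) (hS : S₀ ≤ Φ.S x z) (hS' : S₀ ≤ Φ.S x z') (i : ι) :
    |Φ.lam x i z / Φ.S x z - Φ.lam x i z' / Φ.S x z'| ≤
      2 * (H * ((3 + 2 * Real.log (1 / δ)) * B * (Fintype.card ι * C * (1 + C₂)) * (δ * (K * r)) +
        3 * (Fintype.card ι * C * (1 + C₂)) * B * (K * r) * (δ * (K * r)) / (K * r) + (1 + Fintype.card ι) * C / c₂ ^ 2 * (1 + Real.log (1 / δ)) +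
        3 * (Fintype.card ι * C * (1 + C₂)) * B * (K * r) / K ^ 2) +
        H * (3 * (Fintype.card ι * C * (1 + C₂)) * B * (K * r)) / (K * r) * (Fintype.card ι * (η * (4 * (K * r)))) / A) / S₀ := by
  obtain ⟨n, hn⟩ : ∃ n : ℝ, n = Fintype.card ι := ⟨_, rfl⟩
  obtain ⟨R, hRdef⟩ : ∃ R : ℝ, R = K * r := ⟨_, rfl⟩
  obtain ⟨h, hhdef⟩ : ∃ h : ℝ, h = δ * R := ⟨_, rfl⟩
  obtain ⟨C₃, hC₃⟩ : ∃ C₃ : ℝ, C₃ = n * C * (1 + C₂) := ⟨_, rfl⟩
  have hn0 : 0 ≤ n := by rw [hn]; positivity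
  have hC1 := hΦ.C_ge
  have hC2 := hD.C_ge
  have hc2 := hD.c_pos
  have hC₃0 : 0 ≤ C₃ := by rw [hC₃]; positivity
  rw [← hn, ← hC₃]
  rw [← hRdef] at hh hh0 hO hfit hy hy' ⊢
  rw [← hhdef] at hh hh0 hO hy hy' ⊢
  have hR : 1 ≤ R := by rw [hRdef]; exact one_le_mul_of_one_le_of_one_le (by linarith) hr
  have hR0 : 0 < R := by linarith
  have hR21 := hD.R_ge
  have hhp : 0 < h := by linarith
  have hh8 : h ≤ R / 8 := by rw [hhdef]; linarith [mul_le_mul_of_nonneg_right hδ8 hR0.le]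
  have hRh : R / h = 1 / δ := by rw [hhdef]; field_simp
  have hrR : R / K = r := by rw [hRdef]; field_simp
  have heh : η * (4 * R) ≤ c₂ * h := by rw [hhdef]; linarith [mul_le_mul_of_nonneg_right hη1 hR0.le]
  have hlogδ : 0 ≤ Real.log (1 / δ) := Real.log_nonneg (by rw [le_div_iff₀ hδ]; linarith)
  -- the depth
  have hdep : ∀ z'' ∈ closedBall a R, h ≤ ht u a z'' → c₂ * ht u a z'' ≤ Φ.d x z'' ∧ Φ.d x z'' ≤ C₂ * ht u a z'' ∧ R₀ ≤ Φ.d x z'' := by
    intro z'' h1 h2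
    have h3 : |ht u a z''| = ht u a z'' := abs_of_pos (hhp.trans_le h2)
    have h4 := hD.dep x a (4 * R) _ u β β' ha (by linarith) hfit z'' (closedBall_subset_closedBall (by linarith) h1) (by rw [h3]; linarith)
      (by rw [h3]; exact heh.trans (mul_le_mul_of_nonneg_left h2 hc2.le))
    rw [h3] at h4
    exact ⟨h4.1, h4.2, hh0.trans ((mul_le_mul_of_nonneg_left h2 hc2.le).trans h4.1)⟩
  have hSle : ∀ z'' ∈ closedBall a R, h ≤ ht u a z'' → Φ.S x z'' ≤ C₃ * ht u a z'' := by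
    intro z'' h1 h2
    obtain ⟨-, h4, -⟩ := hdep z'' h1 h2
    have h5 : 1 ≤ ht u a z'' := by linarith
    have h6 := S_le hΦ x z''
    rw [← hn] at h6
    refine h6.trans ?_
    rw [hC₃]
    have h7 : 1 + Φ.d x z'' ≤ (1 + C₂) * ht u a z'' := by linarith
    calc n * (C * (1 + Φ.d x z'')) ≤ n * (C * ((1 + C₂) * ht u a z'')) :=
          mul_le_mul_of_nonneg_left (mul_le_mul_of_nonneg_left h7 (by linarith)) hn0
      _ = n * C * (1 + C₂) * ht u a z'' := by ring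
  -- `w`
  obtain ⟨t, htd⟩ : ∃ t : ℝ, t = Φ.lam x i (a + R * u) / Φ.S x (a + R * u) := ⟨_, rfl⟩
  have ht1 : |t| ≤ 1 := by rw [htd]; exact abs_quot_le_one hΦ x i _
  have hyR : ∀ z'' ∈ closedBall a R, ht u a z'' ≤ R := by
    intro z'' h1
    refine (le_abs_self _).trans ((abs_ht_le hfit.nu a z'').trans ?_)
    rwa [mem_closedBall, dist_eq_norm] at h1
  have hw : ∀ z'' ∈ closedBall a R, h ≤ ht u a z'' →
      |Φ.lam x i z'' - t * Φ.S x z''| ≤ (3 + 2 * Real.log (R / ht u a z'')) * B * C₃ * ht u a z'' := by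
    intro z'' h1 h2
    obtain ⟨-, -, h4⟩ := hdep z'' h1 h2
    have h5 := S_pos hΦ h4
    have h6 := chain hΦ hD hR₂ ha hR hfit hh heh hB hO h1 h2 i
    rw [← htd] at h6
    have h7 : Φ.lam x i z'' - t * Φ.S x z'' = (Φ.lam x i z'' / Φ.S x z'' - t) * Φ.S x z'' := by
      field_simp
    have h8 : 0 ≤ (3 + 2 * Real.log (R / ht u a z'')) * B := (abs_nonneg _).trans h6
    rw [h7, abs_mul, abs_of_pos h5]
    calc |Φ.lam x i z'' / Φ.S x z'' - t| * Φ.S x z'' ≤ ((3 + 2 * Real.log (R / ht u a z'')) * B) * (C₃ * ht u a z'') :=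
          mul_le_mul h6 (hSle z'' h1 h2) h5.le h8
      _ = (3 + 2 * Real.log (R / ht u a z'')) * B * C₃ * ht u a z'' := by ring
  have hwM : ∀ z'' ∈ closedBall a R, h ≤ ht u a z'' → |Φ.lam x i z'' - t * Φ.S x z''| ≤ 3 * C₃ * B * R := by
    intro z'' h1 h2
    refine (hw z'' h1 h2).trans ?_
    have h3 : 0 < ht u a z'' := hhp.trans_le h2
    have h4 : Real.log (R / ht u a z'') ≤ R / ht u a z'' - 1 := Real.log_le_sub_one_of_pos (by positivity)
    have h5 : (3 + 2 * Real.log (R / ht u a z'')) * ht u a z'' ≤ 3 * R := by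
      have h6 : (3 + 2 * Real.log (R / ht u a z'')) * ht u a z'' ≤ (3 + 2 * (R / ht u a z'' - 1)) * ht u a z'' :=
        mul_le_mul_of_nonneg_right (by linarith) h3.le
      have h7 : (3 + 2 * (R / ht u a z'' - 1)) * ht u a z'' = ht u a z'' + 2 * R := by
        field_simp
        ring
      have := hyR z'' h1
      linarith
    calc (3 + 2 * Real.log (R / ht u a z'')) * B * C₃ * ht u a z'' = ((3 + 2 * Real.log (R / ht u a z'')) * ht u a z'') * (B * C₃) := by ring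
      _ ≤ (3 * R) * (B * C₃) := mul_le_mul_of_nonneg_right h5 (by positivity)
      _ = 3 * C₃ * B * R := by ring
  have hwm : ∀ z'' ∈ closedBall a R, ht u a z'' = h → |Φ.lam x i z'' - t * Φ.S x z''| ≤ (3 + 2 * Real.log (1 / δ)) * B * C₃ * h := by
    intro z'' h1 h2
    have h3 := hw z'' h1 h2.ge
    rwa [h2, hRh] at h3
  -- the half disc lemma
  obtain ⟨b, hb, hb'⟩ := hHalf (fun z'' => Φ.lam x i z'' - t * Φ.S x z'') u a R h ((1 + n) * C / c₂ ^ 2) ((3 + 2 * Real.log (1 / δ)) * B * C₃ * h)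
    (3 * C₃ * B * R) K hfit.nu hR0 hhp hh8 (by positivity) (by positivity) (by positivity) hK
    (fun z'' h1 h2 => w_c2 hΦ (hdep z'' h1 h2).2.2 i t)
    (fun z'' h1 h2 => by
      obtain ⟨h3, -, h4⟩ := hdep z'' h1 h2
      refine (w_lap hΦ h4 i ht1).trans ?_
      rw [← hn, div_div, ← mul_pow]
      have h5 : 0 < ht u a z'' := hhp.trans_le h2
      exact div_le_div_of_nonneg_left (by positivity) (by positivity) (pow_le_pow_left₀ (by positivity) h3 2))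
    hwm hwM
  rw [hrR, hRh] at hb'
  -- the comparison of the two quotients
  have hcl : closedBall a r ⊆ closedBall a R := closedBall_subset_closedBall (by rw [hRdef]; exact le_mul_of_one_le_left (by linarith) (by linarith))
  have hcl4 : closedBall a R ⊆ closedBall a (4 * R) := closedBall_subset_closedBall (by linarith)
  have key : ∀ z'' ∈ closedBall a r, h ≤ ht u a z'' → S₀ ≤ Φ.S x z'' →
      |Φ.lam x i z'' / Φ.S x z'' - (t + b / ∑ i, β i)| ≤
        (H * ((3 + 2 * Real.log (1 / δ)) * B * C₃ * h + 3 * C₃ * B * R * h / R + (1 + n) * C / c₂ ^ 2 * (1 + Real.log (1 / δ)) + 3 * C₃ * B * R / K ^ 2) +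
          |b| * (n * (η * (4 * R))) / A) / S₀ := by
    intro z'' h1 h2 h3
    have h4 : 0 ≤ ht u a z'' := (hhp.trans_le h2).le
    have h5 := hfit.S (hcl4 (hcl h1))
    rw [vee_top h4, ← hn] at h5
    have h6 := quot_close hA hfit.Aβ hS₀ h3 (hb' z'' h1 h2) h5
    have h7 : 0 < Φ.S x z'' := hS₀.trans_le h3
    have h8 : Φ.lam x i z'' / Φ.S x z'' - (t + b / ∑ i, β i) = (Φ.lam x i z'' - t * Φ.S x z'') / Φ.S x z'' - b / ∑ i, β i := by
      field_simp
      ring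
    rw [h8]
    exact h6
  have k1 := key z hz hy hS
  have k2 := key z' hz' hy' hS'
  have hb2 : |b| * (n * (η * (4 * R))) / A ≤ H * (3 * C₃ * B * R) / R * (n * (η * (4 * R))) / A :=
    div_le_div_of_nonneg_right (mul_le_mul_of_nonneg_right hb (by positivity)) hA.le
  have k3 : |Φ.lam x i z / Φ.S x z - Φ.lam x i z' / Φ.S x z'| ≤
      |Φ.lam x i z / Φ.S x z - (t + b / ∑ i, β i)| + |Φ.lam x i z' / Φ.S x z' - (t + b / ∑ i, β i)| := by
    have := abs_sub (Φ.lam x i z / Φ.S x z - (t + b / ∑ i, β i)) (Φ.lam x i z' / Φ.S x z' - (t + b / ∑ i, β i))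
    rwa [show Φ.lam x i z / Φ.S x z - (t + b / ∑ i, β i) - (Φ.lam x i z' / Φ.S x z' - (t + b / ∑ i, β i)) =
      Φ.lam x i z / Φ.S x z - Φ.lam x i z' / Φ.S x z' by ring] at this
  refine k3.trans ((add_le_add k1 k2).trans ?_)
  rw [← add_div]
  refine div_le_div_of_nonneg_right ?_ hS₀.le
  linarith

theorem osc_step (hΦ : Hyp Φ C c R₀) (hA : 0 < A) (hD : Dep Φ A c₂ C₂ R₂) (hR₂ : R₀ ≤ R₂) (hF : AllFlat Φ A) :
    ∃ c₁ C₁ R₁ : ℝ, 0 < c₁ ∧ c₁ < 1 ∧ 0 ≤ C₁ ∧ 1 ≤ R₁ ∧ ∀ B r₁, 0 ≤ B → R₁ ≤ r₁ → (∀ r, r₁ ≤ r → OscLe Φ (c₂ / (2 * C₂ + 1)) r B) →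
      ∀ r, r₁ / c₁ ≤ r → OscLe Φ (c₂ / (2 * C₂ + 1)) r (B / 2 + C₁ * r ^ (-(1 : ℝ))) := by
  obtain ⟨H, hH, hHalf⟩ := half_disc
  obtain ⟨n, hn⟩ : ∃ n : ℝ, n = Fintype.card ι := ⟨_, rfl⟩
  obtain ⟨κ, hκdef⟩ : ∃ κ : ℝ, κ = c₂ / (2 * C₂ + 1) := ⟨_, rfl⟩
  obtain ⟨C₃, hC₃⟩ : ∃ C₃ : ℝ, C₃ = n * C * (1 + C₂) := ⟨_, rfl⟩
  have hn0 : 0 ≤ n := by rw [hn]; positivity
  have hC1 := hΦ.C_ge
  have hC2 := hD.C_ge
  have hc2 := hD.c_pos
  have hc21 := hD.c_le
  have hc := hΦ.c_pos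
  have hR21 := hD.R_ge
  have hR01 := hΦ.R_ge
  have hC₃0 : 0 ≤ C₃ := by rw [hC₃]; positivity
  have hκ : 0 < κ := by rw [hκdef]; positivity
  have hκ1 : κ ≤ 1 / 3 := by
    rw [hκdef, div_le_iff₀ (by linarith)]
    linarith
  rw [← hκdef]
  -- `K`
  obtain ⟨K, hKdef⟩ : ∃ K : ℝ, K = 4 + 36 * H * C₃ / (c * κ) := ⟨_, rfl⟩
  have hK4 : 4 ≤ K := by rw [hKdef]; have : 0 ≤ 36 * H * C₃ / (c * κ) := by positivity
                         linarith
  have hK0 : 0 < K := by linarith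
  have hK1 : 6 * H * C₃ / (c * κ * K) ≤ 1 / 6 := by
    rw [div_le_iff₀ (by positivity)]
    have h1 : 36 * H * C₃ / (c * κ) ≤ K := by rw [hKdef]; linarith
    rw [div_le_iff₀ (by positivity)] at h1
    linarith
  -- `δ = s²`
  obtain ⟨s, hsdef⟩ : ∃ s : ℝ, s = min (1 / 3) (min (c₂ * κ / K) (c * κ / (120 * K * H * (C₃ + 1)))) := ⟨_, rfl⟩
  have hs0 : 0 < s := by
    rw [hsdef]
    refine lt_min (by norm_num) (lt_min (by positivity) (by positivity))
  have hs1 : s ≤ 1 / 3 := by rw [hsdef]; exact min_le_left _ _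
  have hs2 : s ≤ c₂ * κ / K := by rw [hsdef]; exact (min_le_right _ _).trans (min_le_left _ _)
  have hs3 : s ≤ c * κ / (120 * K * H * (C₃ + 1)) := by rw [hsdef]; exact (min_le_right _ _).trans (min_le_right _ _)
  obtain ⟨δ, hδdef⟩ : ∃ δ : ℝ, δ = s ^ 2 := ⟨_, rfl⟩
  have hδ0 : 0 < δ := by rw [hδdef]; positivity
  have hs13 : s * s ≤ s * (1 / 3) := mul_le_mul_of_nonneg_left hs1 hs0.le
  have hδs : δ ≤ s := by rw [hδdef, pow_two]; linarith
  have hδ8 : δ ≤ 1 / 8 := by rw [hδdef, pow_two]; linarith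
  obtain ⟨L, hL⟩ : ∃ L : ℝ, L = Real.log (1 / δ) := ⟨_, rfl⟩
  have hL0 : 0 ≤ L := by rw [hL]; exact Real.log_nonneg (by rw [le_div_iff₀ hδ0]; linarith)
  have hLδ : L * δ ≤ 2 * s := by
    have h1 : L = 2 * Real.log (1 / s) := by
      rw [hL, hδdef, show (1 : ℝ) / s ^ 2 = (1 / s) ^ 2 by rw [div_pow, one_pow], Real.log_pow]
      norm_num
    have h2 : Real.log (1 / s) ≤ 1 / s - 1 := Real.log_le_sub_one_of_pos (by positivity)
    have h3 : Real.log (1 / s) * s ≤ 1 := by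
      calc Real.log (1 / s) * s ≤ (1 / s - 1) * s := mul_le_mul_of_nonneg_right h2 hs0.le
        _ = 1 - s := by field_simp
        _ ≤ 1 := by linarith
    rw [h1, hδdef]
    calc 2 * Real.log (1 / s) * s ^ 2 = 2 * (Real.log (1 / s) * s) * s := by ring
      _ ≤ 2 * 1 * s := mul_le_mul_of_nonneg_right (mul_le_mul_of_nonneg_left h3 (by norm_num)) hs0.le
      _ = 2 * s := by ring
  -- `η`
  obtain ⟨η, hηdef⟩ : ∃ η : ℝ, η = min (c₂ * κ / (4 * K)) (min (c₂ * δ / 4) (c * κ * A / (144 * K * (n + 1) * H * (C₃ + 1)))) := ⟨_, rfl⟩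
  have hη0 : 0 < η := by
    rw [hηdef]
    refine lt_min (by positivity) (lt_min (by positivity) (by positivity))
  have hη1 : η ≤ c₂ * κ / (4 * K) := by rw [hηdef]; exact min_le_left _ _
  have hη2 : η ≤ c₂ * δ / 4 := by rw [hηdef]; exact (min_le_right _ _).trans (min_le_left _ _)
  have hη3 : η ≤ c * κ * A / (144 * K * (n + 1) * H * (C₃ + 1)) := by rw [hηdef]; exact (min_le_right _ _).trans (min_le_right _ _)
  obtain ⟨Rη, hRη⟩ := hF η hη0
  obtain ⟨R₁, hR₁def⟩ : ∃ R₁ : ℝ, R₁ = max 1 (max Rη (max (R₂ / κ) (R₀ / c₂))) := ⟨_, rfl⟩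
  have hR₁1 : 1 ≤ R₁ := by rw [hR₁def]; exact le_max_left _ _
  have hR₁2 : Rη ≤ R₁ := by rw [hR₁def]; exact (le_max_left _ _).trans (le_max_right _ _)
  have hR₁3 : R₂ / κ ≤ R₁ := by rw [hR₁def]; exact (le_max_left _ _).trans ((le_max_right _ _).trans (le_max_right _ _))
  have hR₁4 : R₀ / c₂ ≤ R₁ := by rw [hR₁def]; exact (le_max_right _ _).trans ((le_max_right _ _).trans (le_max_right _ _))
  have hR₁5 : R₂ ≤ R₁ := by
    refine le_trans ?_ hR₁3
    rw [le_div_iff₀ hκ]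
    exact mul_le_of_le_one_right (by linarith) (by linarith)
  have hc₁ : δ * K < 1 := by
    have h1 : s * K ≤ c₂ * κ := by rwa [le_div_iff₀ hK0] at hs2
    have h2 : δ * K ≤ s * K := mul_le_mul_of_nonneg_right hδs hK0.le
    have h3 : c₂ * κ ≤ 1 * (1 / 3) := mul_le_mul hc21 hκ1 hκ.le zero_le_one
    linarith
  have hc₁0 : 0 < δ * K := by positivity
  refine ⟨δ * K, 2 * H * ((1 + n) * C / c₂ ^ 2) * (1 + L) / (c * κ) , R₁, hc₁0, hc₁, by positivity, hR₁1, ?_⟩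
  intro B r₁ hB hr₁ hO r hr x a ha z hz z' hz' hseg i
  have hcr : r₁ ≤ δ * (K * r) := by
    rw [div_le_iff₀ hc₁0] at hr
    linarith
  have hrr : R₁ ≤ r := by
    have h1 : δ * (K * r) ≤ r := by
      have h2 : 0 ≤ r := by
        by_contra hneg
        push Not at hneg
        have : δ * (K * r) < 0 := by
          have := mul_neg_of_pos_of_neg hc₁0 hneg
          linarith
        linarith
      have h3 : (δ * K) * r ≤ 1 * r := mul_le_mul_of_nonneg_right hc₁.le h2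
      linarith
    linarith
  have hr1 : 1 ≤ r := hR₁1.trans hrr
  have hr0 : 0 < r := by linarith
  have hKr1 : r ≤ K * r := le_mul_of_one_le_left hr0.le (by linarith)
  obtain ⟨u₀, β₀, β₀', hfit₀⟩ := hRη x a ha (4 * (K * r)) (by linarith)
  -- heights on the segment
  have hκr : R₂ ≤ κ * r := by
    have := hR₁3.trans hrr
    rw [div_le_iff₀ hκ] at this
    linarith
  have hball : ∀ w ∈ segment ℝ z z', w ∈ closedBall a r := fun w hw => (convex_closedBall a r).segment_subset hz hz' hw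
  have hcl : closedBall a r ⊆ closedBall a (4 * (K * r)) := closedBall_subset_closedBall (by linarith)
  have hhts : ∀ w ∈ segment ℝ z z', c₂ * (κ * r) ≤ |ht u₀ a w| := by
    intro w hw
    have h1 := hseg w hw
    have h2 : η * (4 * (K * r)) ≤ c₂ * Φ.d x w := by
      have h3 : η * (4 * K) ≤ c₂ * κ := by rwa [le_div_iff₀ (by positivity)] at hη1
      calc η * (4 * (K * r)) = (η * (4 * K)) * r := by ring
        _ ≤ (c₂ * κ) * r := mul_le_mul_of_nonneg_right h3 hr0.le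
        _ = c₂ * (κ * r) := by ring
        _ ≤ c₂ * Φ.d x w := mul_le_mul_of_nonneg_left h1 hc2.le
    have h4 := hD.het x a (4 * (K * r)) _ u₀ β₀ β₀' ha (by linarith) hfit₀ w (hcl (hball w hw)) (hκr.trans h1) h2
    exact (mul_le_mul_of_nonneg_left h1 hc2.le).trans h4
  -- orientation
  obtain ⟨u, β, β', hfit, hht, hpos⟩ : ∃ (u : ℂ) (β β' : ι → ℝ), Fit Φ x a (4 * (K * r)) (η * (4 * (K * r))) A u β β' ∧
      (∀ w ∈ segment ℝ z z', c₂ * (κ * r) ≤ |ht u a w|) ∧ 0 < ht u a z := by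
    have h1 := hhts z (left_mem_segment ℝ z z')
    have h2 : 0 < c₂ * (κ * r) := by positivity
    rcases lt_or_ge 0 (ht u₀ a z) with h3 | h3
    · exact ⟨u₀, β₀, β₀', hfit₀, hhts, h3⟩
    · refine ⟨-u₀, β₀', β₀, hfit₀.flip, ?_, ?_⟩
      · intro w hw
        rw [ht_neg, abs_neg]
        exact hhts w hw
      · rw [ht_neg]
        rcases h3.lt_or_eq with h4 | h4
        · linarith
        · rw [h4, abs_zero] at h1
          linarith
  have hpair := same_side (by positivity : 0 < c₂ * (κ * r)) hht hpos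
  have hδκ : δ * (K * r) ≤ c₂ * (κ * r) := by
    have h1 : s * K ≤ c₂ * κ := by rwa [le_div_iff₀ hK0] at hs2
    have h2 : δ * K ≤ c₂ * κ := (mul_le_mul_of_nonneg_right hδs hK0.le).trans h1
    calc δ * (K * r) = (δ * K) * r := by ring
      _ ≤ (c₂ * κ) * r := mul_le_mul_of_nonneg_right h2 hr0.le
      _ = c₂ * (κ * r) := by ring
  have hSz : ∀ w ∈ segment ℝ z z', c * (κ * r) ≤ Φ.S x w := by
    intro w hw
    have h1 := hseg w hw
    exact (mul_le_mul_of_nonneg_left h1 hc.le).trans (hΦ.low x w (hR₂.trans (hκr.trans h1)))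
  have hmain := osc_pair hΦ hA hD hR₂ hH hHalf ha hK4 hδ0 hδ8 hr1 ((hR₁5.trans hr₁).trans hcr)
    (by
      have h1 : R₀ ≤ c₂ * R₁ := by rw [div_le_iff₀ hc2] at hR₁4; linarith
      exact h1.trans (mul_le_mul_of_nonneg_left (hr₁.trans hcr) hc2.le)) hη0.le (by linarith) hB
    (fun r' hr' => by rw [← hκdef]; exact hO r' (hcr.trans hr')) hfit hz hz' (hδκ.trans hpair.1) (hδκ.trans hpair.2)
    (by positivity : 0 < c * (κ * r)) (hSz z (left_mem_segment ℝ z z')) (hSz z' (right_mem_segment ℝ z z')) i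
  refine hmain.trans ?_
  rw [← hn, ← hC₃, ← hL, Real.rpow_neg_one]
  -- the final inequality
  have hq : 0 < c * κ := by positivity
  have t1 : 2 * K * H * C₃ / (c * κ) * (10 * s) ≤ 1 / 6 := by
    have h1 : s * (120 * K * H * (C₃ + 1)) ≤ c * κ := by rwa [le_div_iff₀ (by positivity)] at hs3
    rw [div_mul_eq_mul_div, div_le_iff₀ hq]
    have h2 : s * (120 * K * H * C₃) ≤ s * (120 * K * H * (C₃ + 1)) :=
      mul_le_mul_of_nonneg_left (mul_le_mul_of_nonneg_left (by linarith) (by positivity)) hs0.le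
    linarith
  have t2 : (6 + 2 * L) * δ ≤ 10 * s := by linarith
  have t3 : 24 * K * n * H * C₃ * η / (c * κ * A) ≤ 1 / 6 := by
    rw [div_le_iff₀ (by positivity)]
    have h1 : η * (144 * K * (n + 1) * H * (C₃ + 1)) ≤ c * κ * A := by rwa [le_div_iff₀ (by positivity)] at hη3
    have h2 : n * C₃ ≤ (n + 1) * (C₃ + 1) := by linarith
    have h3 : η * (144 * K * H) * (n * C₃) ≤ η * (144 * K * H) * ((n + 1) * (C₃ + 1)) := mul_le_mul_of_nonneg_left h2 (by positivity)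
    linarith
  have hKr : 0 < K * r := by positivity
  have e1 : 2 * (H * ((3 + 2 * L) * B * C₃ * (δ * (K * r)) + 3 * C₃ * B * (K * r) * (δ * (K * r)) / (K * r) + (1 + n) * C / c₂ ^ 2 * (1 + L) +
      3 * C₃ * B * (K * r) / K ^ 2) + H * (3 * C₃ * B * (K * r)) / (K * r) * (n * (η * (4 * (K * r)))) / A) / (c * (κ * r)) =
      (2 * K * H * C₃ / (c * κ) * ((6 + 2 * L) * δ) + 6 * H * C₃ / (c * κ * K) + 24 * K * n * H * C₃ * η / (c * κ * A)) * B +
        2 * H * ((1 + n) * C / c₂ ^ 2) * (1 + L) / (c * κ) * r⁻¹ := by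
    field_simp
    ring
  rw [e1]
  have t4 : 2 * K * H * C₃ / (c * κ) * ((6 + 2 * L) * δ) ≤ 1 / 6 := (mul_le_mul_of_nonneg_left t2 (by positivity)).trans t1
  have t5 : (2 * K * H * C₃ / (c * κ) * ((6 + 2 * L) * δ) + 6 * H * C₃ / (c * κ * K) + 24 * K * n * H * C₃ * η / (c * κ * A)) * B ≤ (1 / 2) * B :=
    mul_le_mul_of_nonneg_right (by linarith) hB
  linarith

end Pool.Agent.SR3.BE
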