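import Pool.Agent.SR3.EDefs
import Pool.Agent.SR3.EIter
import Pool.Agent.SR3.EOsc

/-!
# SR3 EOsc2: the oscillation of the quotients decays like a power
-/

set_option autoImplicit false

open Topology Filter Metric

noncomputable section

namespace Pool.Agent.SR3.BE

variable {X ι : Type} [Fintype ι] {Φ : Fam X ι} {C c R₀ A c₂ C₂ R₂ : ℝ}

theorem Osc2.quot_mem (hΦ : Hyp Φ C c R₀) (x : X) (i : ι) (z : ℂ) : 0 ≤ Φ.lam x i z / Φ.S x z ∧ Φ.lam x i z / Φ.S x z ≤ 1 := by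
  have h1 : 0 ≤ Φ.lam x i z := hΦ.nn x i z
  have h2 : Φ.lam x i z ≤ Φ.S x z := Finset.single_le_sum (f := fun i => Φ.lam x i z) (fun i _ => hΦ.nn x i z) (Finset.mem_univ i)
  exact ⟨div_nonneg h1 (h1.trans h2), div_le_one_of_le₀ h2 (h1.trans h2)⟩

theorem osc_pow (hΦ : Hyp Φ C c R₀) (hA : 0 < A) (hD : Dep Φ A c₂ C₂ R₂) (hR₂ : R₀ ≤ R₂) (hF : AllFlat Φ A) :
    ∃ α C' R' : ℝ, 0 < α ∧ α ≤ 1 / 2 ∧ 0 < C' ∧ 1 ≤ R' ∧ ∀ r, R' ≤ r → OscLe Φ (c₂ / (2 * C₂ + 1)) r (C' * r ^ (-α)) := by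
  obtain ⟨c₁, C₁, R₁, h1, h2, h3, h4, h5⟩ := osc_step hΦ hA hD hR₂ hF
  have e0 : ∀ r, R₁ ≤ r → OscLe Φ (c₂ / (2 * C₂ + 1)) r 1 := by
    intro r _ x a _ z _ z' _ _ i
    have e1 := Osc2.quot_mem hΦ x i z
    have e2 := Osc2.quot_mem hΦ x i z'
    rw [abs_le]
    constructor <;> linarith [e1.1, e1.2, e2.1, e2.2]
  obtain ⟨α, C', R', h6, h7, h8, h9, h10⟩ := iter (Q := fun r B => OscLe Φ (c₂ / (2 * C₂ + 1)) r B) (γ := 1) (B₀ := 1)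
    (fun r a b hab h => h.mono hab) h1 h2 h3 (lt_of_lt_of_le one_pos h4) one_pos one_pos e0 fun a r₁ ha _ hr h r hr' => h5 a r₁ ha hr h r hr'
  exact ⟨α, C', R', h6, h7, h8, h4.trans h9, h10⟩

end Pool.Agent.SR3.BE
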