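import Pool.Agent.MQL.FinSDA
import Pool.Agent.MQL.LogA
import Pool.Agent.SR3.Asm

/-!
# SR3 FinSR: the main theorem for one algebraic symmetric differential with logarithmic poles
-/

set_option autoImplicit false

open Topology Filter Metric MvPolynomial

noncomputable section

namespace Pool.Agent.SR3

open Pool.Agent.H36.BP (EN)
open Pool.Agent.H14.PP (Tan)
open Pool.Agent.H62.FC (Homog)
open Pool.Agent.H17LG.Variety (FunField)
open Pool.Agent.AD (SymDiff)
open Pool.Agent.AD.NC (IsSmooth IsOfLogGeneralType)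
open Pool.Agent.SDA (IsHyperbolicOpen)
open Pool.Agent.MQL (exists_R_curve exists_wdiff_alg)

variable {N k M h : ℕ}

/-- **Main theorem** for one symmetric differential with logarithmic poles (`main_log` without a condition on the tangent curves). -/
theorem main_snc (P : Ideal (MvPolynomial (Fin (N + 1)) ℂ)) [P.IsPrime] (hP : Homog P) (hdim : ∃ z : Fin 2 → FunField P, IsTranscendenceBasis ℂ z)
    (hsm : IsSmooth P 2) (H : MvPolynomial (Fin (N + 1)) ℂ) (hH : H.IsHomogeneous h) (h1 : 1 ≤ h) (hHP : H ∉ P)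
    (E : Fin k → Fin (M + 1) → MvPolynomial (Fin (N + 1)) ℂ) (c b : Fin k → ℕ) (hE : ∀ i l, (E i l).IsHomogeneous (c i))
    (hs : Snc P H E b) (hB : NoBdyCurve P E) (hgt : IsOfLogGeneralType P (fun _ : Fin 1 => H) 2)
    {mΩ jΩ r : ℕ} (Ω : Fin r → EN N → EN N → EN N → ℂ) (Q : Fin r → MvPolynomial (Fin (N + 1)) ℂ) (hΩ : LogForms P H mΩ jΩ Ω Q)
    (hcov : LineCover P H Q) {m : ℕ} (hm : 1 ≤ m) (θ : SymDiff (oc P H) m) (hθ : HasLogPoles E c θ) (hθ' : IsAlg θ)
    (h0 : oc P H ⊆ closure {x | x ∈ oc P H ∧ ∃ v, Tan (oc P H) x v ∧ θ.toFun x v ≠ 0}) : IsHyperbolicOpen P (fun _ : Fin 1 => H) := by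
  obtain ⟨z, hz⟩ := id hdim
  obtain ⟨R, d, hR, hRP, h2⟩ := exists_R_curve P hP hdim hsm (fun _ : Fin 1 => H) (fun _ => h) (fun _ => hH) (fun _ => hHP) hgt hm θ
    (exists_wdiff_alg (Pool.Agent.H90.SG.surface_coneE hP hz hsm) hH θ hθ') h0
  exact main_log P hP hdim hsm H hH h1 hHP E c b hE hs hB hgt Ω Q hΩ hcov le_rfl (fun _ : Fin 1 => m) (fun _ => hm) (fun _ => θ)
    (fun _ => hθ) (fun _ => hθ') (.curve R d hR hRP fun f hf hfo hfU hfn ht => h2 f hf hfo hfU hfn (ht 0))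

end Pool.Agent.SR3
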