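import Pool.Agent.SR3.DiscE
import Pool.Agent.SR3.ABd
import Pool.Agent.SR3.ATh
import Pool.Agent.SR3.AGd
import Pool.Agent.SR3.AGrw
import Pool.Agent.SR3.ALam

/-!
# SR3 Five: the end of the case of pure powers

If `log ‖F‖` is at least `(|Re (κ (w - z))| - ε d) / b` on the disc of radius `(1 - ε) d` about `z`, `d` = the distance of `z` to the good points, then `d` is bounded.
The line `{Re (κ (w - z)) = 0}` contains, up to `O (ε d)`, the nearest good point `p`, because of `growth`; so `log ‖F‖ ≥ c s` on the points at distance `s ≥ θ d`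
from the line of a disc which is tangent at `p`, perpendicular to the line; `disc_gain2`.
-/

set_option autoImplicit false

open Topology Filter Metric

noncomputable section

namespace Pool.Agent.SR3

open Pool.Agent.H36.BP (EN fs wd Sub OrdTwo)
open Pool.Agent.SY (Ent)

open Geo (Gd)

variable {N : ℕ} {G : Geo N} {T : Set (EN N)} {rho : EN N → ℝ} {M : ℕ} {c₀ C δ : ℝ} {g : (ℂ → EN N) → ℂ → ℝ}

/-- the points of the small disc far from the real axis are deep in the large disc -/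
private theorem fv_deep {r ε θ : ℝ} (hr : 0 < r) (hε : 0 < ε) (hε1 : ε ≤ 1 / 2) (hrε : 1 ≤ ε * r) (hθ : 5 * ε ≤ 3 * θ ^ 2) {z : ℂ}
    (hz : ‖z - (r / 4 : ℝ)‖ ≤ r / 4) (hy : θ * r ≤ |z.im|) (hθ0 : 0 ≤ θ) : ‖z - ((1 + r : ℝ) : ℂ)‖ ≤ (1 - ε) * r := by
  have h1 : ‖z - (r / 4 : ℝ)‖ ^ 2 ≤ (r / 4) ^ 2 := pow_le_pow_left₀ (norm_nonneg _) hz 2
  rw [← Complex.normSq_eq_norm_sq, Complex.normSq_apply] at h1
  simp only [Complex.sub_re, Complex.ofReal_re, Complex.sub_im, Complex.ofReal_im, sub_zero] at h1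
  have h2 : z.re * z.re + z.im * z.im ≤ r / 2 * z.re := by nlinarith
  have h3 : (θ * r) ^ 2 ≤ z.im ^ 2 := by
    rw [← sq_abs z.im]
    exact pow_le_pow_left₀ (by positivity) hy 2
  have h4 : 0 ≤ z.re := by
    by_contra hc
    push Not at hc
    nlinarith [mul_self_nonneg z.re, mul_self_nonneg z.im]
  have h5 : ‖z - ((1 + r : ℝ) : ℂ)‖ ^ 2 ≤ ((1 - ε) * r) ^ 2 := by
    rw [← Complex.normSq_eq_norm_sq, Complex.normSq_apply]
    simp only [Complex.sub_re, Complex.ofReal_re, Complex.sub_im, Complex.ofReal_im, sub_zero]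
    have h6 : (z.re - (1 + r)) * (z.re - (1 + r)) + z.im * z.im ≤ (1 + r) ^ 2 - 3 / 2 * r * z.re := by nlinarith
    have h7 : 2 * z.im ^ 2 ≤ r * z.re := by nlinarith [mul_self_nonneg z.re]
    have h8 : (1 + r) ^ 2 - 3 * (θ * r) ^ 2 ≤ ((1 - ε) * r) ^ 2 := by
      have h9 : 5 * (ε * r) * r ≤ 3 * (θ * r) ^ 2 := by
        have := mul_le_mul_of_nonneg_right hθ (by positivity : (0 : ℝ) ≤ r ^ 2)
        nlinarith
      have h10 : 2 ≤ r := by nlinarith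
      nlinarith [mul_le_mul_of_nonneg_right hrε hr.le, sq_nonneg (ε * r)]
    nlinarith
  exact le_of_sq_le_sq h5 (by nlinarith) |>.trans le_rfl
where
  le_of_sq_le_sq {a b : ℝ} (h : a ^ 2 ≤ b ^ 2) (hb : 0 ≤ b) : a ≤ b := by
    by_contra hc
    push Not at hc
    nlinarith

/-- the normalised situation -/
private theorem fv_main (hG : G.Ok) (hM : G.Met T rho M c₀ C δ g) {a b : ℝ} (ha : 0 < a) (hb : 0 ≤ b) :
    ∃ ε R : ℝ, 0 < ε ∧ ε < 1 ∧ 0 < R ∧ ∀ r : ℝ, R ≤ r → ∀ (q : G.J → ℂ) (F : ℂ → EN N), G.Cl T q F → (1 : ℂ) ∈ Gd rho δ F →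
      (∀ z ∈ ball ((1 + r : ℝ) : ℂ) r, z ∉ Gd rho δ F) → ∀ κ : ℂ, a ≤ ‖κ‖ →
      (∀ w : ℂ, ‖w - ((1 + r : ℝ) : ℂ)‖ ≤ (1 - ε) * r → |(κ * (w - ((1 + r : ℝ) : ℂ))).re| ≤ b * Real.log ‖F w‖ + ε * r) → False := by
  obtain ⟨B, hB, hgr⟩ := growth hG hM
  obtain ⟨B₀, hB₀, hlow⟩ := log_lower hG
  obtain ⟨C₁, hC₁, hbd⟩ := bound hG hM
  obtain ⟨d₁, C₂, hd₁, hth, hC₂⟩ := thick hG hM hM.pos
  have hc₀ : 0 < c₀ := hM.en.c₀_pos
  obtain ⟨C₅, hC₅⟩ : ∃ C₅, C₅ = 2 * (2 * b * B + 1) := ⟨_, rfl⟩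
  have hC₅0 : 0 < C₅ := by rw [hC₅]; positivity
  obtain ⟨b', hb'⟩ : ∃ b', b' = b + 1 := ⟨_, rfl⟩
  have hb'0 : 0 < b' := by rw [hb']; linarith
  obtain ⟨α, hα⟩ : ∃ α, α = a / (2 * b') := ⟨_, rfl⟩
  have hα0 : 0 < α := by rw [hα]; positivity
  obtain ⟨C₆, hC₆⟩ : ∃ C₆, C₆ = (C₅ + 1 + B₀) / b' := ⟨_, rfl⟩
  have hC₆0 : 0 < C₆ := by rw [hC₆]; positivity
  obtain ⟨A, hA⟩ : ∃ A, A = Real.log C₁ + c₀ * B₀ := ⟨_, rfl⟩
  obtain ⟨c, hc⟩ : ∃ c, c = c₀ * (α / 2) := ⟨_, rfl⟩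
  have hc0 : 0 < c := by rw [hc]; positivity
  obtain ⟨A', hA'⟩ := disc_gain2 (A := A) (k := C * C₁ ^ 2) hc0 (by have := hM.en.C_pos; positivity)
  -- the choice of `θ`
  obtain ⟨θ, hθ0, hθ1, hθ2⟩ : ∃ θ : ℝ, 0 < θ ∧ θ ≤ 1 / 400 ∧ A' - c / 3 * Real.log (1 / (4 * θ)) < Real.log d₁ - c₀ * C₂ := by
    have h1 : Tendsto (fun t : ℝ => c / 3 * Real.log t) atTop atTop := Real.tendsto_log_atTop.const_mul_atTop (by positivity)
    obtain ⟨t, ht1, ht2⟩ := ((h1.eventually_gt_atTop (A' - (Real.log d₁ - c₀ * C₂))).and (eventually_ge_atTop (100 : ℝ))).exists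
    refine ⟨1 / (4 * t), by positivity, ?_, ?_⟩
    · rw [div_le_div_iff₀ (by positivity) (by norm_num)]
      linarith
    · have h2 : 1 / (4 * (1 / (4 * t))) = t := by
        field_simp
      rw [h2]
      linarith
  -- the choice of `ε`
  obtain ⟨ε, hε0, hε1, hε2, hε3, hε4⟩ : ∃ ε : ℝ, 0 < ε ∧ ε ≤ 1 / 2 ∧ 5 * ε ≤ 3 * θ ^ 2 ∧ C₅ * ε ≤ a / 2 ∧ 2 * C₆ * ε ≤ α * θ := by
    refine ⟨min (min (1 / 2) (3 * θ ^ 2 / 5)) (min (a / 2 / C₅) (α * θ / (2 * C₆))), by positivity, (min_le_left _ _).trans (min_le_left _ _), ?_, ?_, ?_⟩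
    · have h1 := (min_le_left (min (1 / 2 : ℝ) (3 * θ ^ 2 / 5)) (min (a / 2 / C₅) (α * θ / (2 * C₆)))).trans (min_le_right _ _)
      rw [le_div_iff₀ (by norm_num)] at h1
      linarith
    · have h1 := (min_le_right (min (1 / 2 : ℝ) (3 * θ ^ 2 / 5)) (min (a / 2 / C₅) (α * θ / (2 * C₆)))).trans (min_le_left _ _)
      rw [le_div_iff₀ hC₅0] at h1
      linarith
    · have h1 := (min_le_right (min (1 / 2 : ℝ) (3 * θ ^ 2 / 5)) (min (a / 2 / C₅) (α * θ / (2 * C₆)))).trans (min_le_right _ _)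
      rw [le_div_iff₀ (by positivity)] at h1
      linarith
  refine ⟨ε, max (1 / ε) (1 / θ), hε0, by linarith, by positivity, fun r hr q F hF hp hfree κ hκ hyp => ?_⟩
  have hr1 : 1 / ε ≤ r := (le_max_left _ _).trans hr
  have hr2 : 1 / θ ≤ r := (le_max_right _ _).trans hr
  have hεr : 1 ≤ ε * r := by
    rw [div_le_iff₀ hε0] at hr1
    linarith
  have hθr : 1 ≤ θ * r := by
    rw [div_le_iff₀ hθ0] at hr2
    linarith
  have hr0 : 0 < r := lt_of_lt_of_le (by positivity) hr1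
  have hne : ∀ z, 0 < ‖F z‖ := fun z => norm_pos_iff.2 (ne0 hG (hF.ent.mem z))
  have hlow' : ∀ z, -B₀ ≤ Real.log ‖F z‖ := fun z => hlow _ (hF.nm z)
  -- the real part of `κ`
  have hκre : |κ.re| ≤ C₅ * ε := by
    have h1 : ((1 + ε * r : ℝ) : ℂ) - ((1 + r : ℝ) : ℂ) = ((-((1 - ε) * r) : ℝ) : ℂ) := by push_cast; ring
    have h2 := hyp ((1 + ε * r : ℝ) : ℂ) (by
      rw [h1, Complex.norm_real, Real.norm_eq_abs, abs_neg, abs_of_nonneg (by nlinarith)])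
    rw [h1, Complex.re_mul_ofReal, abs_mul, abs_neg, abs_of_nonneg (by nlinarith : 0 ≤ (1 - ε) * r)] at h2
    have h3 : Real.log ‖F ((1 + ε * r : ℝ) : ℂ)‖ ≤ B * (2 * (ε * r)) := by
      refine (hgr q F hF _).trans (mul_le_mul_of_nonneg_left ?_ hB)
      have h4 : infDist ((1 + ε * r : ℝ) : ℂ) (Gd rho δ F) ≤ dist ((1 + ε * r : ℝ) : ℂ) 1 := infDist_le_dist_of_mem hp
      have h5 : ((1 + ε * r : ℝ) : ℂ) - 1 = ((ε * r : ℝ) : ℂ) := by push_cast; ring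
      rw [dist_eq_norm, h5, Complex.norm_real, Real.norm_eq_abs, abs_of_pos (by linarith)] at h4
      linarith
    have h4 := mul_le_mul_of_nonneg_left h3 hb
    have h5 : |κ.re| * (r / 2) ≤ |κ.re| * ((1 - ε) * r) := mul_le_mul_of_nonneg_left (by nlinarith) (abs_nonneg _)
    have h6 : |κ.re| * (r / 2) ≤ (2 * b * B + 1) * ε * r := by nlinarith
    have h7 : |κ.re| * (r / 2) ≤ C₅ * ε * (r / 2) := by
      rw [hC₅]
      linarith
    exact le_of_mul_le_mul_right h7 (by positivity)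
  have hκim : a / 2 ≤ |κ.im| := by
    have h1 : a ^ 2 ≤ κ.re ^ 2 + κ.im ^ 2 := by
      have h2 : a ^ 2 ≤ ‖κ‖ ^ 2 := pow_le_pow_left₀ ha.le hκ 2
      rw [← Complex.normSq_eq_norm_sq, Complex.normSq_apply] at h2
      linarith
    have h2 : κ.re ^ 2 ≤ (a / 2) ^ 2 := by
      rw [← sq_abs κ.re]
      exact pow_le_pow_left₀ (abs_nonneg _) (hκre.trans hε3) 2
    by_contra hcon
    push Not at hcon
    have h3 : κ.im ^ 2 < (a / 2) ^ 2 := by
      rw [← sq_abs κ.im]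
      exact pow_lt_pow_left₀ hcon (abs_nonneg _) (by norm_num)
    nlinarith
  -- the growth off the axis
  have hgrow : ∀ w : ℂ, ‖w - ((1 + r : ℝ) : ℂ)‖ ≤ (1 - ε) * r → θ * r ≤ |w.im| → α / 2 * |w.im| ≤ Real.log ‖F w‖ := by
    intro w hw hw2
    have h1 := hyp w hw
    have h2 : (κ * (w - ((1 + r : ℝ) : ℂ))).re = κ.re * (w - ((1 + r : ℝ) : ℂ)).re - κ.im * w.im := by
      rw [Complex.mul_re]
      simp
    have h3 : |κ.re * (w - ((1 + r : ℝ) : ℂ)).re| ≤ C₅ * ε * r := by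
      rw [abs_mul]
      refine mul_le_mul hκre ((Complex.abs_re_le_norm _).trans (hw.trans ?_)) (abs_nonneg _) (by positivity)
      nlinarith
    have h4 : a / 2 * |w.im| ≤ |κ.im * w.im| := by
      rw [abs_mul]
      exact mul_le_mul_of_nonneg_right hκim (abs_nonneg _)
    have h5 : |κ.im * w.im| ≤ |(κ * (w - ((1 + r : ℝ) : ℂ))).re| + |κ.re * (w - ((1 + r : ℝ) : ℂ)).re| := by
      have h6 : κ.im * w.im = κ.re * (w - ((1 + r : ℝ) : ℂ)).re - (κ * (w - ((1 + r : ℝ) : ℂ))).re := by rw [h2]; ring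
      rw [h6]
      refine (abs_sub _ _).trans ?_
      linarith
    have h6 : a / 2 * |w.im| ≤ b' * Real.log ‖F w‖ + (C₅ + 1 + B₀) * (ε * r) := by
      have h7 := hlow' w
      have h8 : B₀ ≤ B₀ * (ε * r) := le_mul_of_one_le_right hB₀ hεr
      rw [hb']
      nlinarith
    have h7 : α * |w.im| ≤ Real.log ‖F w‖ + C₆ * (ε * r) := by
      have e1 : α * |w.im| = a / 2 * |w.im| / b' := by rw [hα]; field_simp
      have e2 : Real.log ‖F w‖ + C₆ * (ε * r) = (b' * Real.log ‖F w‖ + (C₅ + 1 + B₀) * (ε * r)) / b' := by rw [hC₆]; field_simp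
      rw [e1, e2]
      exact div_le_div_of_nonneg_right h6 hb'0.le
    have h8 : C₆ * (ε * r) ≤ α / 2 * (θ * r) := by
      have := mul_le_mul_of_nonneg_right hε4 hr0.le
      nlinarith
    have h9 : α / 2 * (θ * r) ≤ α / 2 * |w.im| := mul_le_mul_of_nonneg_left hw2 (by positivity)
    linarith
  -- the function
  have hg0 : ∀ z, 0 ≤ g F z := hM.en.nonneg F hF.ent
  obtain ⟨v, hv⟩ : ∃ v : ℂ → ℝ, v = fun z => g F z * ‖F z‖ ^ (-c₀) := ⟨_, rfl⟩
  have hv0 : ∀ z, 0 ≤ v z := fun z => by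
    rw [hv]
    exact mul_nonneg (hg0 z) (Real.rpow_nonneg (norm_nonneg _) _)
  have hgv : ∀ z, 0 < v z → 0 < g F z := by
    intro z hz
    rcases (hg0 z).eq_or_lt with h3 | h3
    · rw [hv] at hz
      simp only [← h3, zero_mul, lt_self_iff_false] at hz
    · exact h3
  have hvle : ∀ z, v z ≤ Real.exp (Real.log C₁ - c₀ * Real.log ‖F z‖) := by
    intro z
    rw [hv]
    calc g F z * ‖F z‖ ^ (-c₀) ≤ C₁ * ‖F z‖ ^ (-c₀) :=
          mul_le_mul_of_nonneg_right (hbd q F hF z) (Real.rpow_nonneg (norm_nonneg _) _)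
      _ = Real.exp (Real.log C₁ - c₀ * Real.log ‖F z‖) := by
          rw [sub_eq_add_neg, Real.exp_add, Real.exp_log hC₁, Real.rpow_def_of_pos (hne z)]
          congr 2
          ring
  have key := hA' (r / 4) (θ * r) hθr (by nlinarith) v ?_ hv0 ?_ ?_ ?_ ?_
  · have h2 : d₁ ≤ g F 1 := hth F hF.ent 1 hp (cl_n hF 1).ge
    have hp2 : Real.log ‖F 1‖ ≤ C₂ := hC₂ _ (hF.ent.mem 1) (hF.nm 1) hp
    have h3 : Real.exp (Real.log d₁ - c₀ * C₂) ≤ v 1 := by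
      rw [hv, sub_eq_add_neg, Real.exp_add, Real.exp_log hd₁]
      refine mul_le_mul h2 ?_ (Real.exp_pos _).le (hg0 1)
      rw [Real.rpow_def_of_pos (hne 1), Real.exp_le_exp]
      nlinarith
    have h4 := Real.exp_le_exp.1 (h3.trans key)
    have h5 : r / 4 / (θ * r) = 1 / (4 * θ) := by
      field_simp
    rw [h5] at h4
    linarith
  · rw [hv]
    exact Pool.Agent.SDA.F1_usc (fun z a ha => hM.en.usc F hF.ent z a ha)
      (hF.ent.diff.continuous.norm.rpow_const fun z => Or.inl (hne z).ne') (fun z => Real.rpow_pos_of_pos (hne z) _) _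
  · intro z _ hz
    rw [hv]
    refine (hM.en.sub F hF.ent z (hgv z hz)).anti ?_
    have h2 := hbd q F hF z
    have h3 : g F z ^ 2 ≤ C₁ ^ 2 := pow_le_pow_left₀ (hg0 z) h2 2
    have h4 := mul_le_mul_of_nonneg_left h3 hM.en.C_pos.le
    linarith
  · intro z hz hvz
    rw [hv]
    refine hM.near F hF.ent z ?_ (hgv z hvz)
    have h2 : z ∈ ball ((1 + r : ℝ) : ℂ) r := by
      rw [mem_ball, dist_eq_norm] at hz ⊢
      have h3 : z - ((1 + r : ℝ) : ℂ) = (z - ((r / 4 : ℝ) : ℂ)) - ((1 + 3 * r / 4 : ℝ) : ℂ) := by push_cast; ring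
      rw [h3]
      refine (norm_sub_le _ _).trans_lt ?_
      rw [Complex.norm_real, Real.norm_eq_abs, abs_of_pos (by positivity)]
      linarith
    exact not_le.1 (hfree z h2)
  · intro z _
    refine (hvle z).trans (Real.exp_le_exp.2 ?_)
    have h1 := mul_le_mul_of_nonneg_left (hlow' z) hc₀.le
    rw [hA]
    linarith
  · intro z hz hzim
    refine (hvle z).trans (Real.exp_le_exp.2 ?_)
    rw [mem_closedBall, dist_eq_norm] at hz
    have h1 := hgrow z (fv_deep hr0 hε0 hε1 hεr hε2 hz hzim hθ0.le) hzim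
    have h2 := mul_le_mul_of_nonneg_left h1 hc₀.le
    have h3 : 0 ≤ c₀ * B₀ := by positivity
    rw [hA, hc]
    linarith

/-- **The end of case (5).** -/
theorem case5 (hG : G.Ok) (hM : G.Met T rho M c₀ C δ g) {a b : ℝ} (ha : 0 < a) (hb : 0 ≤ b) :
    ∃ ε R : ℝ, 0 < ε ∧ ε < 1 ∧ 0 < R ∧ ∀ (q : G.J → ℂ) (F : ℂ → EN N), G.Cl T q F → ∀ z, R ≤ infDist z (Gd rho δ F) → ∀ κ : ℂ, a ≤ ‖κ‖ →
      (∀ w, ‖w - z‖ ≤ (1 - ε) * infDist z (Gd rho δ F) → |(κ * (w - z)).re| ≤ b * Real.log ‖F w‖ + ε * infDist z (Gd rho δ F)) → False := by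
  obtain ⟨ε, R, hε0, hε1, hR0, hR⟩ := fv_main hG hM ha hb
  refine ⟨ε, R, hε0, hε1, hR0, fun q F hF z hz κ hκ hyp => ?_⟩
  have hcl : IsClosed (Gd rho δ F) := gd_closed hG hM hF
  obtain ⟨p, hp, hpd⟩ := hcl.exists_infDist_eq_dist (exists_good hG hM hF) z
  obtain ⟨r, hr⟩ : ∃ r, r = dist z p := ⟨_, rfl⟩
  rw [hpd, ← hr] at hz hyp
  rw [← hr] at hpd
  have hr0 : 0 < r := by linarith
  have hrc : (r : ℂ) ≠ 0 := by exact_mod_cast hr0.ne'
  have hrn : ‖z - p‖ = r := by rw [hr, dist_eq_norm]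
  obtain ⟨e, he⟩ : ∃ e : ℂ, e = (z - p) / r := ⟨_, rfl⟩
  have hen : ‖e‖ = 1 := by
    rw [he, norm_div, hrn, Complex.norm_real, Real.norm_eq_abs, abs_of_pos hr0, div_self hr0.ne']
  have her : e * r = z - p := by rw [he, div_mul_cancel₀ _ hrc]
  have hsub : ∀ w : ℂ, e * w + (p - e) - z = e * (w - ((1 + r : ℝ) : ℂ)) := by
    intro w
    push_cast
    linear_combination (1 : ℂ) * her
  refine hR r hz _ _ (cl_comp hG hF hen (p - e)) ?_ ?_ (κ * e) (by rw [norm_mul, hen, mul_one]; exact hκ) ?_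
  · show δ ≤ rho (F (e * 1 + (p - e)))
    have h1 : e * 1 + (p - e) = p := by ring
    rw [h1]
    exact hp
  · intro w hw hw'
    have h1 : e * w + (p - e) ∈ Gd rho δ F := hw'
    have h2 : infDist z (Gd rho δ F) ≤ dist z (e * w + (p - e)) := infDist_le_dist_of_mem h1
    rw [hpd, dist_comm, dist_eq_norm, hsub, norm_mul, hen, one_mul] at h2
    rw [mem_ball, dist_eq_norm] at hw
    linarith
  · intro w hw
    have h1 := hyp (e * w + (p - e)) (by rw [hsub, norm_mul, hen, one_mul]; exact hw)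
    rw [hsub, ← mul_assoc] at h1
    exact h1

end Pool.Agent.SR3
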