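import Pool.Agent.SR3.LiouF
import Pool.Agent.SR3.FamB

/-!
# SR3 Line: Liouville's theorem for blow-downs
-/

set_option autoImplicit false

open Metric Topology Filter MvPolynomial InnerProductSpace

noncomputable section

namespace Pool.Agent.SR3

open Pool.Agent.SDR (gc)

variable {ι J Ty : Type} [Fintype ι]

/-- the growth condition gives lower bounds for the slopes -/
theorem Lin.slopes {u : ℂ} {b : ℝ} {β γ : ι → ℝ} {U : ι → ℂ → ℝ} (h : Lin u b β γ U) {A : ℝ}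
    (hbig : ∀ (w : ℂ) (r : ℝ), 0 < r → ∃ z ∈ closedBall w r, A * r ≤ ∑ i, U i z) : A / 2 ≤ ∑ i, β i ∧ A / 2 ≤ ∑ i, γ i := by
  have hu : star u * u = 1 := by
    have h1 : star u * u = ((‖u‖ ^ 2 : ℝ) : ℂ) := by
      rw [Complex.star_def, mul_comm, Complex.mul_conj, Complex.normSq_eq_norm_sq]
    rw [h1, h.norm]
    simp
  have hdist : ∀ w z : ℂ, |(star u * z).re - (star u * w).re| ≤ ‖z - w‖ := by
    intro w z
    rw [← Complex.sub_re, ← mul_sub]
    refine (Complex.abs_re_le_norm _).trans ?_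
    rw [norm_mul, norm_star, h.norm, one_mul]
  constructor
  · obtain ⟨z, hz, hAz⟩ := hbig (((b + 1 : ℝ) : ℂ) * u) 1 one_pos
    have e1 : (star u * (((b + 1 : ℝ) : ℂ) * u)).re = b + 1 := by
      have : star u * (((b + 1 : ℝ) : ℂ) * u) = ((b + 1 : ℝ) : ℂ) * (star u * u) := by ring
      rw [this, hu, mul_one, Complex.ofReal_re]
    have e2 := hdist (((b + 1 : ℝ) : ℂ) * u) z
    rw [e1] at e2
    rw [mem_closedBall, dist_eq_norm] at hz
    have e3 := abs_le.1 (e2.trans hz)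
    have e4 : ∑ i, U i z = (∑ i, β i) * ((star u * z).re - b) := by
      rw [Finset.sum_mul]
      exact Finset.sum_congr rfl fun i _ => h.up i z (by linarith [e3.1])
    rw [e4, mul_one] at hAz
    have e5 : (0 : ℝ) ≤ ∑ i, β i := Finset.sum_nonneg fun i _ => h.pos i
    have e6 : (∑ i, β i) * ((star u * z).re - b) ≤ (∑ i, β i) * 2 := mul_le_mul_of_nonneg_left (by linarith [e3.2]) e5
    linarith
  · obtain ⟨z, hz, hAz⟩ := hbig (((b - 1 : ℝ) : ℂ) * u) 1 one_pos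
    have e1 : (star u * (((b - 1 : ℝ) : ℂ) * u)).re = b - 1 := by
      have : star u * (((b - 1 : ℝ) : ℂ) * u) = ((b - 1 : ℝ) : ℂ) * (star u * u) := by ring
      rw [this, hu, mul_one, Complex.ofReal_re]
    have e2 := hdist (((b - 1 : ℝ) : ℂ) * u) z
    rw [e1] at e2
    rw [mem_closedBall, dist_eq_norm] at hz
    have e3 := abs_le.1 (e2.trans hz)
    have e4 : ∑ i, U i z = (∑ i, γ i) * (b - (star u * z).re) := by
      rw [Finset.sum_mul]
      exact Finset.sum_congr rfl fun i _ => h.down i z (by linarith [e3.2])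
    rw [e4, mul_one] at hAz
    have e5 : (0 : ℝ) ≤ ∑ i, γ i := Finset.sum_nonneg fun i _ => h.pos' i
    have e6 : (∑ i, γ i) * (b - (star u * z).re) ≤ (∑ i, γ i) * 2 := mul_le_mul_of_nonneg_left (by linarith [e3.1]) e5
    linarith

theorem Bl.line [Finite Ty] {supp : Ty → Finset ι} {P : Ty → J → MvPolynomial ι ℂ} {C A : ℝ} {q : J → ℂ} {U : ι → ℂ → ℝ} (hC : 0 ≤ C)
    (hA : 0 < A) (h : Bl supp P C A q U) (hs : ∀ t, (supp t).card ≤ 2) {m : J → ℕ} (hm : ∀ j, 1 ≤ m j)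
    (hP : ∀ t j, (P t j).IsHomogeneous (m j))
    (hPs : ∀ t j (y y' : ι → ℂ), (∀ i ∈ supp t, y i = y' i) → eval y (P t j) = eval y' (P t j))
    (hq : ∀ j, ‖q j‖ ≤ 1) (hq1 : ∃ j, q j ≠ 0) :
    ∃ (u : ℂ) (b : ℝ) (β γ : ι → ℝ), Lin u b β γ U ∧ A / 2 ≤ ∑ i, β i ∧ A / 2 ≤ ∑ i, γ i := by
  have hN : Nonempty ι := by
    by_contra hE
    rw [not_nonempty_iff] at hE
    obtain ⟨z, -, hz⟩ := h.big 0 1 one_pos
    rw [Finset.univ_eq_empty, Finset.sum_empty] at hz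
    linarith
  obtain ⟨j, hj⟩ := hq1
  obtain ⟨Q, e₁, e₂, hF⟩ := blowFam (J := J) hC hA hs hm hP hPs (j := j) (κ := ‖q j‖) (norm_pos_iff.2 hj)
  obtain ⟨u, b, β, γ, hL⟩ := blow_lin hF (hm j) (by positivity) (U := U) ⟨q, h, rfl, hq⟩
  exact ⟨u, b, β, γ, hL, hL.slopes h.big⟩

end Pool.Agent.SR3
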