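import Pool.Agent.SR3.Bas
import Pool.Agent.SR3.Line



/-!
# SR3 FlatCore: the boundary functions are almost linear at all large scales
-/

set_option autoImplicit false

open Metric Topology Filter MvPolynomial

noncomputable section

namespace Pool.Agent.SR3

open Pool.Agent.H36.BP (EN fs)
open Geo (Gd)

variable {N : ℕ} {G : Geo N} {T : Set (EN N)} {rho : EN N → ℝ} {δ : ℝ}

/-- the values of the forms are at most `1` -/
theorem norm_le_one_of_nq (hG : G.Ok) {q : G.J → ℂ} (hq : G.nq q = 1) (j : G.J) : ‖q j‖ ≤ 1 := by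
  have h1 : ‖q j‖ ^ ((G.m j : ℝ)⁻¹) ≤ 1 := by
    rw [← hq]
    exact Finset.single_le_sum (f := fun j => ‖q j‖ ^ ((G.m j : ℝ)⁻¹)) (fun i _ => by positivity) (Finset.mem_univ j)
  have hm : (0 : ℝ) < (G.m j : ℝ)⁻¹ := by
    have := hG.one_m j
    positivity
  by_contra hcon
  push Not at hcon
  have := Real.one_lt_rpow hcon hm
  linarith

theorem flat_core (hG : G.Ok)
    (hpre : ∃ B A' : ℝ, 0 < B ∧ 0 < A' ∧ ∀ (l : Filter ℕ) (q : ℕ → G.J → ℂ) (F : ℕ → ℂ → EN N) (p : ℕ → ℂ) (R : ℕ → ℝ),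
      (∀ n, G.Cl T (q n) (F n)) → (∀ n, p n ∈ Gd rho δ (F n)) → (∀ n, 0 < R n) → Tendsto R l atTop →
      Pre G.supp G.Pol B A' l (fun n j => (-1) ^ G.m j * q n j) (fun n i z => G.lam i (F n (p n + R n * z)) / R n))
    (hgr : ∃ B : ℝ, 0 ≤ B ∧ ∀ (q : G.J → ℂ) (F : ℂ → EN N), G.Cl T q F → ∀ z, Real.log ‖F z‖ ≤ B * (1 + infDist z (Gd rho δ F))) :
    ∃ A' : ℝ, 0 < A' ∧ ∀ ε : ℝ, 0 < ε → ∃ R₀ : ℝ, 0 < R₀ ∧ ∀ (q : G.J → ℂ) (F : ℂ → EN N), G.Cl T q F → ∀ a ∈ Gd rho δ F, ∀ R : ℝ, R₀ ≤ R →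
      ∃ (u : ℂ) (β β' : G.ι → ℝ), G.Fits F a u β β' (fun _ => ε * R) (closedBall a R) ∧ A' ≤ ∑ i, β i ∧ A' ≤ ∑ i, β' i := by
  classical
  obtain ⟨B, A₁, hB, hA₁, hpre⟩ := hpre
  obtain ⟨B₁, hB₁, hgrow⟩ := hgr
  obtain ⟨B₂, hB₂, hlog⟩ := lam_log hG
  refine ⟨A₁ / 2, by positivity, fun ε hε => ?_⟩
  by_contra hcon
  push Not at hcon
  choose q F hCl p hp R hR hbad using fun n : ℕ => hcon (n + 1) (by positivity)
  set 𝒰 : Ultrafilter ℕ := hyperfilter ℕ with h𝒰
  have hRpos : ∀ n, 0 < R n := fun n => lt_of_lt_of_le (by positivity) (hR n)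
  have hRtop : Tendsto R atTop atTop := by
    apply tendsto_atTop_mono (f := fun n : ℕ => (n : ℝ)) (fun n => by linarith [hR n])
    exact tendsto_natCast_atTop_atTop
  have hRU : Tendsto R (𝒰 : Filter ℕ) atTop := hRtop.mono_left Nat.hyperfilter_le_atTop
  have hP := hpre (𝒰 : Filter ℕ) q F p R hCl hp hRpos hRU
  have hq1 : ∀ n j, ‖(-1) ^ G.m j * q n j‖ ≤ 1 := by
    intro n j
    rw [norm_mul, norm_pow, norm_neg, norm_one, one_pow, one_mul]
    exact norm_le_one_of_nq hG (hCl n).one j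
  obtain ⟨q', V, hV, hq', hVlim, hunif⟩ := hP.limit hB.le hq1
  -- the limit value is not `0`
  have hne : ∃ j, q' j ≠ 0 := by
    by_contra hall
    push Not at hall
    have h1 : Tendsto (fun n => ∑ j, ‖(-1) ^ G.m j * q n j‖ ^ ((G.m j : ℝ)⁻¹)) 𝒰 (𝓝 (∑ j, ‖q' j‖ ^ ((G.m j : ℝ)⁻¹))) := by
      refine tendsto_finsetSum _ fun j _ => ?_
      exact ((hq' j).norm).rpow_const (Or.inr (by positivity))
    have h2 : (fun n => ∑ j, ‖(-1) ^ G.m j * q n j‖ ^ ((G.m j : ℝ)⁻¹)) = fun _ => (1 : ℝ) := by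
      funext n
      rw [← (hCl n).one]
      unfold Geo.nq
      refine Finset.sum_congr rfl fun j _ => ?_
      rw [norm_mul, norm_pow, norm_neg, norm_one, one_pow, one_mul]
    have h3 : ∑ j, ‖q' j‖ ^ ((G.m j : ℝ)⁻¹) = 0 := by
      refine Finset.sum_eq_zero fun j _ => ?_
      rw [hall j, norm_zero]
      apply Real.zero_rpow
      have := hG.one_m j
      positivity
    rw [h2, h3] at h1
    have := tendsto_nhds_unique h1 tendsto_const_nhds
    norm_num at this
  obtain ⟨u, b, β, γ, hL, hβ, hγ⟩ := hV.line hB.le hA₁ hG.supp_card hG.one_m hG.Pol_hom hG.Pol_supp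
    (fun j => le_of_tendsto ((hq' j).norm) (Eventually.of_forall fun n => hq1 n j)) hne
  -- `V` vanishes at `0`
  have hV0 : ∀ i, V i 0 = 0 := by
    intro i
    have h1 : Tendsto (fun n => (max (B₂ * (B₁ + B₂)) 0) / R n) 𝒰 (𝓝 0) := hRU.const_div_atTop _
    apply le_antisymm
    · refine le_of_tendsto_of_tendsto (hVlim i 0) h1 (Eventually.of_forall fun n => ?_)
      show G.lam i (F n (p n + (R n : ℂ) * 0)) / R n ≤ max (B₂ * (B₁ + B₂)) 0 / R n
      rw [mul_zero, add_zero]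
      apply div_le_div_of_nonneg_right _ (hRpos n).le
      have e1 := (hlog (F n (p n)) ((hCl n).ent.mem _) ((hCl n).nm _)).2.1 i
      have e2 := hgrow (q n) (F n) (hCl n) (p n)
      rw [infDist_zero_of_mem (hp n)] at e2
      refine le_trans ?_ (le_max_left _ _)
      refine e1.trans ?_
      apply mul_le_mul_of_nonneg_left _ hB₂.le
      linarith
    · exact hV.nonneg i 0
  have hb : b = 0 := by
    rcases lt_trichotomy b 0 with hb | hb | hb
    · exfalso
      have h1 : ∀ i, β i = 0 := by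
        intro i
        have h2 := hL.up i 0 (by simpa using hb.le)
        rw [hV0 i, mul_zero, Complex.zero_re] at h2
        rcases mul_eq_zero.1 h2.symm with h3 | h3
        · exact h3
        · linarith
      rw [Finset.sum_eq_zero fun i _ => h1 i] at hβ
      linarith
    · exact hb
    · exfalso
      have h1 : ∀ i, γ i = 0 := by
        intro i
        have h2 := hL.down i 0 (by simpa using hb.le)
        rw [hV0 i, mul_zero, Complex.zero_re] at h2
        rcases mul_eq_zero.1 h2.symm with h3 | h3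
        · exact h3
        · linarith
      rw [Finset.sum_eq_zero fun i _ => h1 i] at hγ
      linarith
  obtain ⟨n, hn⟩ := (hunif 1 ε hε).exists
  refine absurd hγ (not_le.2 (hbad n u β γ ⟨hL.norm, fun i => ⟨hL.pos i, hL.pos' i⟩, fun z hz i => ?_⟩ hβ))
  set y : ℂ := (z - p n) / (R n : ℂ) with hy
  have hRc : (R n : ℂ) ≠ 0 := by exact_mod_cast (hRpos n).ne'
  have hzy : p n + (R n : ℂ) * y = z := by rw [hy]; field_simp; ring
  have hyb : y ∈ closedBall (0 : ℂ) 1 := by
    rw [mem_closedBall_zero_iff, hy, norm_div, Complex.norm_real, Real.norm_of_nonneg (hRpos n).le, div_le_one (hRpos n)]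
    rwa [mem_closedBall, dist_eq_norm] at hz
  have h1 := hn i y hyb
  simp only [hzy] at h1
  have hyy : yy u (p n) z = R n * (star u * y).re := by
    unfold yy
    rw [← Complex.re_ofReal_mul]
    congr 1
    rw [hy]
    field_simp
  have hlin : lin u (p n) (β i) (γ i) z = R n * V i y := by
    unfold lin
    rw [hyy]
    rcases le_total 0 (star u * y).re with h2 | h2
    · have h3 := hL.up i y (by rw [hb]; exact h2)
      rw [h3, hb, max_eq_left (mul_nonneg (hRpos n).le h2), max_eq_right (by nlinarith [hRpos n])]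
      ring
    · have h3 := hL.down i y (by rw [hb]; exact h2)
      rw [h3, hb, max_eq_right (mul_nonpos_of_nonneg_of_nonpos (hRpos n).le h2), max_eq_left (by nlinarith [hRpos n])]
      ring
  rw [hlin]
  have e1 : G.lam i (F n z) - R n * V i y = R n * (G.lam i (F n z) / R n - V i y) := by
    have := (hRpos n).ne'
    field_simp
  rw [e1, abs_mul, abs_of_pos (hRpos n), mul_comm ε]
  exact mul_le_mul_of_nonneg_left h1 (hRpos n).le

end Pool.Agent.SR3
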