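import Pool.Agent.SR3.LnDefs
import Pool.Agent.SR3.Bdy
import Pool.Agent.SR3.Snc2

/-!
# SR3 Fld1: local equations of the components

`pd_nhds`: `a = ⟪x, y⟫ / ‖x‖ ^ 2`, `‖y - a • x‖ = wd x y / ‖x‖ = pd x y * ‖y‖`, `a ≠ 0` if `pd x y < 1`.  `snc_oneE`, `snc_twoE`: the chart at `y`.
`snc_locE`: in the chart `vec (E i) (σ t) = co (s i) t • e i t`, `e i 0 ≠ 0`: `l` with `(e i 0) l ≠ 0`; `pd_nhds` and homogeneity.
-/

set_option autoImplicit false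

open Topology Filter Metric MvPolynomial

noncomputable section

namespace Pool.Agent.SR3

open Pool.Agent.H36.BP (EN fs wd)
open Pool.Agent.H17BP (Surface IsChart)
open Pool.Agent.H14.PP (IsCone Tan)
open Pool.Agent.H17EF (coneE)

variable {N k M : ℕ} {P : Ideal (MvPolynomial (Fin (N + 1)) ℂ)} {H : MvPolynomial (Fin (N + 1)) ℂ} {h : ℕ}
  {E : Fin k → Fin (M + 1) → MvPolynomial (Fin (N + 1)) ℂ} {c b : Fin k → ℕ}

theorem pd_nhds {y : EN N} (hy : y ≠ 0) {s : Set (EN N)} (hs : s ∈ 𝓝 y) : ∃ r : ℝ, 0 < r ∧ ∀ x : EN N, x ≠ 0 → pd x y < r → ∃ a : ℂ, a ≠ 0 ∧ a • x ∈ s := by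
  obtain ⟨ε, hε, hb⟩ := Metric.mem_nhds_iff.1 hs
  have hy' : 0 < ‖y‖ := norm_pos_iff.2 hy
  refine ⟨min 1 (ε / ‖y‖), lt_min one_pos (div_pos hε hy'), fun x hx hpd => ?_⟩
  have hx' : 0 < ‖x‖ := norm_pos_iff.2 hx
  obtain ⟨a, ha⟩ : ∃ a : ℂ, a = inner ℂ x y / (‖x‖ : ℂ) ^ 2 := ⟨_, rfl⟩
  have h1 : ‖y - a • x‖ = pd x y * ‖y‖ := by
    have h2 := snc2_wd hx y
    rw [← ha] at h2
    unfold pd
    rw [← h2]
    field_simp
  refine ⟨a, ?_, hb ?_⟩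
  · rintro rfl
    rw [zero_smul, sub_zero] at h1
    have h2 : pd x y < 1 := lt_of_lt_of_le hpd (min_le_left _ _)
    have h3 : pd x y * ‖y‖ < 1 * ‖y‖ := mul_lt_mul_of_pos_right h2 hy'
    rw [← h1, one_mul] at h3
    exact lt_irrefl _ h3
  · rw [mem_ball_iff_norm, norm_sub_rev, h1]
    have h2 : pd x y < ε / ‖y‖ := lt_of_lt_of_le hpd (min_le_right _ _)
    exact (lt_div_iff₀ hy').1 h2

/-- a component through `y` is a coordinate in the chart at `y` -/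
private theorem co_zero {s : Option Bool} {e : ℂ × ℂ → EN M} {v : EN M} (he : e 0 ≠ 0) (hv : v = co s 0 • e 0) (h0 : v = 0) : s ≠ none := by
  rintro rfl
  rw [hv] at h0
  change (1 : ℂ) • e 0 = 0 at h0
  rw [one_smul] at h0
  exact he h0

theorem snc_oneE (hs : Snc P H E b) : ∀ y ∈ coneE P, y ∉ oc P H → ∃ i, vec (E i) y = 0 := by
  intro y hy hyo
  obtain ⟨σ, τ, s, e, u, hch, hσ0, hinj, he, hu, hu0, hH⟩ := hs.chart y hy
  have hHy : eval y.ofLp H = 0 := by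
    by_contra h0
    exact hyo ⟨hy, fun _ => h0⟩
  have h1 := hH.self_of_nhds
  rw [hσ0, hHy] at h1
  have h2 := (mul_eq_zero.1 h1.symm).resolve_left hu0
  obtain ⟨i, -, hi⟩ := Finset.prod_eq_zero_iff.1 h2
  have h3 : co (s i) (0 : ℂ × ℂ) = 0 := eq_zero_of_pow_eq_zero hi
  refine ⟨i, ?_⟩
  have h4 := (he i).2.2.self_of_nhds
  rw [hσ0, h3, zero_smul] at h4
  exact h4

theorem snc_twoE (hs : Snc P H E b) : ∀ y ∈ coneE P, ∀ i i' i'', i ≠ i' → i' ≠ i'' → i ≠ i'' → vec (E i) y = 0 → vec (E i') y = 0 → vec (E i'') y ≠ 0 := by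
  intro y hy i i' i'' h1 h2 h3 e1 e2 e3
  obtain ⟨σ, τ, s, e, u, hch, hσ0, hinj, he, -⟩ := hs.chart y hy
  have hne : ∀ j, vec (E j) y = 0 → s j ≠ none := by
    intro j hj
    have h4 := (he j).2.2.self_of_nhds
    rw [hσ0] at h4
    exact co_zero (he j).2.1 h4 hj
  have n1 := hne i e1
  have n2 := hne i' e2
  have n3 := hne i'' e3
  have d1 : s i ≠ s i' := fun h => h1 (hinj i i' n1 h)
  have d2 : s i' ≠ s i'' := fun h => h2 (hinj i' i'' n2 h)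
  have d3 : s i ≠ s i'' := fun h => h3 (hinj i i'' n1 h)
  revert n1 n2 n3 d1 d2 d3
  generalize s i = a1
  generalize s i' = a2
  generalize s i'' = a3
  revert a1 a2 a3
  decide

theorem snc_locE (hX : Surface (coneE P)) (hc : IsCone (coneE P)) (hE : ∀ i l, (E i l).IsHomogeneous (c i)) (hs : Snc P H E b) :
    ∀ y ∈ coneE P, ∀ i, vec (E i) y = 0 → ∃ (l : Fin (M + 1)) (r a : ℝ), 0 < r ∧ 0 < a ∧ ∀ x ∈ coneE P, pd x y < r → a * ‖vec (E i) x‖ ≤ ‖(vec (E i) x).ofLp l‖ := by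
  intro y hy i _
  obtain ⟨σ, τ, s, e, u, hch, hσ0, hinj, he, hu, hu0, hH⟩ := hs.chart y hy
  have hτy : τ y = 0 := by
    rw [← hσ0]
    exact hch.left.self_of_nhds
  have hτa : AnalyticAt ℂ τ y := by
    rw [← hσ0]
    exact hch.τ_an
  have hτt : Tendsto τ (𝓝 y) (𝓝 0) := by
    have := hτa.continuousAt.tendsto
    rwa [hτy] at this
  have hright := hch.right
  rw [hσ0] at hright
  obtain ⟨l, hl⟩ : ∃ l, (e i 0).ofLp l ≠ 0 := by
    by_contra hcon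
    push Not at hcon
    apply (he i).2.1
    ext l
    exact hcon l
  have hn : 0 < ‖(e i 0).ofLp l‖ := norm_pos_iff.2 hl
  have hn2 : 0 < ‖e i 0‖ := norm_pos_iff.2 (he i).2.1
  obtain ⟨a, ha⟩ : ∃ a : ℝ, a = ‖(e i 0).ofLp l‖ / (2 * ‖e i 0‖) := ⟨_, rfl⟩
  have ha0 : 0 < a := by
    rw [ha]
    positivity
  have hev : ∀ᶠ t in 𝓝 (0 : ℂ × ℂ), a * ‖e i t‖ < ‖(e i t).ofLp l‖ := by
    have hc1 : ContinuousAt (fun t => a * ‖e i t‖) 0 := ((he i).1.continuousAt.norm).const_mul a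
    have hc2 : ContinuousAt (fun t => ‖(e i t).ofLp l‖) 0 := by
      have h1 : ContinuousAt (fun t => (e i t).ofLp l) 0 := by
        have h2 : Continuous fun v : EN M => v.ofLp l := (EuclideanSpace.proj (𝕜 := ℂ) l).continuous
        exact h2.continuousAt.comp (he i).1.continuousAt
      exact h1.norm
    refine hc1.eventually_lt hc2 ?_
    rw [ha]
    have h3 : ‖(e i 0).ofLp l‖ / (2 * ‖e i 0‖) * ‖e i 0‖ = ‖(e i 0).ofLp l‖ / 2 := by
      field_simp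
    rw [h3]
    linarith
  have hmem : {x : EN N | x ∈ coneE P → a * ‖vec (E i) x‖ ≤ ‖(vec (E i) x).ofLp l‖} ∈ 𝓝 y := by
    filter_upwards [hright, hτt.eventually hev, hτt.eventually (he i).2.2] with x h2 h3 h4 hx
    obtain ⟨α, hα, hxα⟩ := h2 hx
    have h5 : vec (E i) x = (α ^ c i * co (s i) (τ x)) • e i (τ x) := by
      conv_lhs => rw [hxα]
      rw [BdyAux.vec_smul (hE i), h4, smul_smul]
    rw [h5, norm_smul]
    have h6 : ((α ^ c i * co (s i) (τ x)) • e i (τ x)).ofLp l = (α ^ c i * co (s i) (τ x)) * (e i (τ x)).ofLp l := rfl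
    rw [h6, norm_mul (α ^ c i * co (s i) (τ x)) ((e i (τ x)).ofLp l)]
    calc a * (‖α ^ c i * co (s i) (τ x)‖ * ‖e i (τ x)‖) = ‖α ^ c i * co (s i) (τ x)‖ * (a * ‖e i (τ x)‖) := by ring
      _ ≤ _ := mul_le_mul_of_nonneg_left h3.le (norm_nonneg _)
  have hy0 : y ≠ 0 := fun h0 => hX.zero (h0 ▸ hy)
  obtain ⟨r, hr, hr2⟩ := pd_nhds hy0 hmem
  refine ⟨l, r, a, hr, ha0, fun x hx hpd => ?_⟩
  have hx0 : x ≠ 0 := fun h0 => hX.zero (h0 ▸ hx)
  obtain ⟨α, hα, hαx⟩ := hr2 x hx0 hpd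
  have h1 := hαx (hc.smul_mem x hx α hα)
  rw [BdyAux.vec_smul (hE i), norm_smul] at h1
  have h2 : (α ^ c i • vec (E i) x).ofLp l = α ^ c i * (vec (E i) x).ofLp l := rfl
  rw [h2, norm_mul] at h1
  have h3 : 0 < ‖α ^ c i‖ := norm_pos_iff.2 (pow_ne_zero _ hα)
  refine le_of_mul_le_mul_left ?_ h3
  calc ‖α ^ c i‖ * (a * ‖vec (E i) x‖) = a * (‖α ^ c i‖ * ‖vec (E i) x‖) := by ring
    _ ≤ _ := h1

end Pool.Agent.SR3
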