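import Pool.Agent.SR3.HDefs2
import Pool.Agent.SR3.Bdy
import Pool.Agent.SR3.Snc2

/-!
# SR3 Fld2: the crossings of the boundary (the fields `cross` and `crE`)

The unit sphere of the cone is compact and near every point of the cone the crossings are multiples of this point; in a chart at a crossing the two
coordinates are bounded by the distances to the two components.
-/

set_option autoImplicit false

open Topology Filter Metric MvPolynomial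

noncomputable section

namespace Pool.Agent.SR3

open Pool.Agent.H36.BP (EN fs wd)
open Pool.Agent.H17BP (Surface IsChart)
open Pool.Agent.H14.PP (IsCone Tan)
open Pool.Agent.H17EF (projVar coneE)

variable {N k M : ℕ} {P : Ideal (MvPolynomial (Fin (N + 1)) ℂ)} {H : MvPolynomial (Fin (N + 1)) ℂ} {h : ℕ}
  {E : Fin k → Fin (M + 1) → MvPolynomial (Fin (N + 1)) ℂ} {c b : Fin k → ℕ}

namespace Fld2

theorem wd_comm (x v : EN N) : wd x v = wd v x := by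
  unfold Pool.Agent.H36.BP.wd
  rw [norm_inner_symm, mul_comm]

theorem pd_smul_left {a : ℂ} (ha : a ≠ 0) (x y : EN N) : pd (a • x) y = pd x y := by
  unfold pd
  rw [wd_comm (a • x) y, Pool.Agent.H36.BP.wd_smul_right, wd_comm y x, norm_smul]
  have h1 : ‖a‖ ≠ 0 := norm_ne_zero_iff.2 ha
  rw [mul_assoc, mul_div_mul_left _ _ h1]

theorem near {y : EN N} (hy : y ≠ 0) {s : Set (EN N)} (hs : s ∈ 𝓝 y) :
    ∃ r : ℝ, 0 < r ∧ ∀ x : EN N, x ≠ 0 → pd x y < r → ∃ a : ℂ, a ≠ 0 ∧ a • x ∈ s := by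
  obtain ⟨ε, hε, hεs⟩ := Metric.mem_nhds_iff.1 hs
  have hy' : 0 < ‖y‖ := norm_pos_iff.2 hy
  refine ⟨min 1 (ε / ‖y‖), lt_min one_pos (div_pos hε hy'), fun x hx hp => ?_⟩
  have hx' : 0 < ‖x‖ := norm_pos_iff.2 hx
  have h1 := snc2_wd hx y
  obtain ⟨a, ha⟩ : ∃ a : ℂ, a = inner ℂ x y / (‖x‖ : ℂ) ^ 2 := ⟨_, rfl⟩
  rw [← ha] at h1
  have h2 : ‖y - a • x‖ = pd x y * ‖y‖ := by
    unfold pd
    rw [← h1]
    field_simp
  have h3 : pd x y < 1 := lt_of_lt_of_le hp (min_le_left _ _)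
  have h4 : pd x y < ε / ‖y‖ := lt_of_lt_of_le hp (min_le_right _ _)
  refine ⟨a, ?_, hεs ?_⟩
  · rintro rfl
    rw [zero_smul, sub_zero] at h2
    have : pd x y = 1 := by
      have h5 : (1 - pd x y) * ‖y‖ = 0 := by linarith
      rcases mul_eq_zero.1 h5 with h6 | h6
      · linarith
      · exact absurd h6 hy'.ne'
    linarith
  · rw [mem_ball, dist_eq_norm, norm_sub_rev, h2]
    exact (lt_div_iff₀ hy').1 h4

/-- two components have different coordinates -/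
theorem co_two {s : Fin k → Option Bool} (hinj : ∀ i i', s i ≠ none → s i = s i' → i = i') {i i' : Fin k} (hii : i ≠ i') {t : ℂ × ℂ} {B : ℝ}
    (hsi : s i ≠ none) (hsi' : s i' ≠ none) (h : ‖co (s i) t‖ ≤ B) (h' : ‖co (s i') t‖ ≤ B) : ‖t‖ ≤ B := by
  have hne : s i ≠ s i' := fun h0 => hii (hinj i i' hsi h0)
  rcases hs : s i with _ | _ | _
  · exact absurd hs hsi
  · rcases hs' : s i' with _ | _ | _
    · exact absurd hs' hsi'
    · exact absurd (hs.trans hs'.symm) hne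
    · rw [hs] at h
      rw [hs'] at h'
      exact max_le h h'
  · rcases hs' : s i' with _ | _ | _
    · exact absurd hs' hsi'
    · rw [hs] at h
      rw [hs'] at h'
      exact max_le h' h
    · exact absurd (hs.trans hs'.symm) hne

theorem co_ne_none {s : Option Bool} {t : ℂ × ℂ} (h : co s t = 0) : s ≠ none := by
  rintro rfl
  exact one_ne_zero h

theorem cross_nhds (hE : ∀ i l, (E i l).IsHomogeneous (c i)) (hs : Snc P H E b) {x : EN N} (hx : x ∈ coneE P) :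
    ∀ᶠ y in 𝓝 x, y ∈ coneE P → ∀ i i', i ≠ i' → vec (E i) y = 0 → vec (E i') y = 0 → ∃ a : ℂ, y = a • x := by
  obtain ⟨τ, s, -, -, hinj, hloc, hpt, -⟩ := BdyAux.local_eqn hE hs hx
  have h1 : ∀ᶠ y in 𝓝 x, ∀ i, y ∈ coneE P → (vec (E i) y = 0 ↔ co (s i) (τ y) = 0) := eventually_all.2 hloc
  filter_upwards [h1, hpt] with y h2 h3 hy i i' hii h4 h5
  have h6 := (h2 i hy).1 h4
  have h7 := (h2 i' hy).1 h5
  refine h3 hy (norm_le_zero_iff.1 ?_)
  refine co_two hinj hii (co_ne_none h6) (co_ne_none h7) ?_ ?_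
  · rw [h6, norm_zero]
  · rw [h7, norm_zero]

end Fld2

open Fld2

theorem snc_cross (hX : Surface (coneE P)) (hc : IsCone (coneE P)) (hE : ∀ i l, (E i l).IsHomogeneous (c i)) (hs : Snc P H E b) :
    ∃ S : Finset (EN N), ∀ y ∈ coneE P, ∀ i i', i ≠ i' → vec (E i) y = 0 → vec (E i') y = 0 → ∃ s ∈ S, ∃ a : ℂ, y = a • s := by
  classical
  have hK : IsCompact (sphere (0 : EN N) 1 ∩ insert 0 (coneE P)) := (isCompact_sphere 0 1).inter_right hc.closed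
  have hKX : ∀ x ∈ sphere (0 : EN N) 1 ∩ insert 0 (coneE P), x ∈ coneE P := by
    rintro x ⟨h1, h2 | h2⟩
    · rw [mem_sphere_zero_iff_norm, h2, norm_zero] at h1
      exact absurd h1 zero_ne_one
    · exact h2
  obtain ⟨S, hS, hcov⟩ := hK.elim_nhds_subcover
    (fun x => {y | y ∈ coneE P → ∀ i i', i ≠ i' → vec (E i) y = 0 → vec (E i') y = 0 → ∃ a : ℂ, y = a • x})
    (fun x hx => cross_nhds hE hs (hKX x hx))
  refine ⟨S, fun y hy i i' hii h1 h2 => ?_⟩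
  have hy0 : y ≠ 0 := fun h0 => hX.zero (h0 ▸ hy)
  have hn : (‖y‖ : ℂ) ≠ 0 := by exact_mod_cast norm_ne_zero_iff.2 hy0
  have hn' : ((‖y‖ : ℂ))⁻¹ ≠ 0 := inv_ne_zero hn
  have hy1 : ((‖y‖ : ℂ))⁻¹ • y ∈ coneE P := hX.smul y hy _ hn'
  have hy2 : ((‖y‖ : ℂ))⁻¹ • y ∈ sphere (0 : EN N) 1 ∩ insert 0 (coneE P) := by
    refine ⟨?_, Or.inr hy1⟩
    rw [mem_sphere_zero_iff_norm, norm_smul, norm_inv, Complex.norm_real, norm_norm]
    exact inv_mul_cancel₀ (norm_ne_zero_iff.2 hy0)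
  have h3 := hcov hy2
  simp only [Set.mem_iUnion, Set.mem_ofPred_eq] at h3
  obtain ⟨s, hsS, h4⟩ := h3
  obtain ⟨a, ha⟩ := h4 hy1 i i' hii (by rw [BdyAux.vec_smul (hE i), h1, smul_zero]) (by rw [BdyAux.vec_smul (hE i'), h2, smul_zero])
  refine ⟨s, hsS, (‖y‖ : ℂ) * a, ?_⟩
  rw [mul_smul, ← ha, smul_smul, mul_inv_cancel₀ hn, one_smul]

theorem snc_crE (hX : Surface (coneE P)) (hc : IsCone (coneE P)) (hH : H.IsHomogeneous h) (hE : ∀ i l, (E i l).IsHomogeneous (c i)) (hs : Snc P H E b) :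
    ∀ y ∈ coneE P, ∀ i i', i ≠ i' → vec (E i) y = 0 → vec (E i') y = 0 → ∃ r C α : ℝ, 0 < r ∧ 0 < α ∧ ∀ x ∈ oc P H, pd x y < r → ∀ u : ℝ,
      u ≤ lamE (E i) (c i) x → u ≤ lamE (E i') (c i') x → pd x y ≤ C * Real.exp (-(α * u)) := by
  intro y hy i i' hii h0 h0'
  have hy0 : y ≠ 0 := fun h1 => hX.zero (h1 ▸ hy)
  have hy' : 0 < ‖y‖ := norm_pos_iff.2 hy0
  obtain ⟨σ, τ, s, e, u, hch, hσ0, hinj, he, -, -, -⟩ := hs.chart y hy
  have hco : ∀ j, vec (E j) y = 0 → s j ≠ none := by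
    intro j hj
    have h1 := (he j).2.2.self_of_nhds
    rw [hσ0, hj] at h1
    exact co_ne_none ((smul_eq_zero.1 h1.symm).resolve_right (he j).2.1)
  have hsi := hco i h0
  have hsi' := hco i' h0'
  -- constants
  have hσc : ContinuousAt σ 0 := hch.σ_an.continuousAt
  have hκ : ∀ j, ∃ κ : ℝ, 0 < κ ∧ ∀ᶠ t in 𝓝 (0 : ℂ × ℂ), κ * ‖σ t‖ ^ c j ≤ ‖e j t‖ := by
    intro j
    have h1 : 0 < ‖e j 0‖ := norm_pos_iff.2 (he j).2.1
    have h2 : 0 < ‖σ 0‖ ^ c j := pow_pos (norm_pos_iff.2 hch.ne) _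
    refine ⟨‖e j 0‖ / (2 * ‖σ 0‖ ^ c j), by positivity, ?_⟩
    have h3 : ContinuousAt (fun t => ‖e j 0‖ / (2 * ‖σ 0‖ ^ c j) * ‖σ t‖ ^ c j) 0 := (hσc.norm.pow _).const_mul _
    have h4 : ContinuousAt (fun t => ‖e j t‖) 0 := (he j).1.continuousAt.norm
    have h5 : ‖e j 0‖ / (2 * ‖σ 0‖ ^ c j) * ‖σ 0‖ ^ c j < ‖e j 0‖ := by
      have : ‖e j 0‖ / (2 * ‖σ 0‖ ^ c j) * ‖σ 0‖ ^ c j = ‖e j 0‖ / 2 := by field_simp
      rw [this]
      linarith
    exact (h3.eventually_lt h4 h5).mono fun t ht => ht.le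
  obtain ⟨κ, hκ0, hκe⟩ := hκ i
  obtain ⟨κ', hκ0', hκe'⟩ := hκ i'
  obtain ⟨L, hL0, hL⟩ := (hch.σ_an.differentiableAt.isBigO_sub).exists_pos
  have hLe := hL.bound
  -- the neighbourhood of `y`
  have hτx : τ y = 0 := by
    rw [← hσ0]
    exact hch.left.self_of_nhds
  have hτa : AnalyticAt ℂ τ y := by
    rw [← hσ0]
    exact hch.τ_an
  have hτt : Tendsto τ (𝓝 y) (𝓝 0) := by
    have := hτa.continuousAt.tendsto
    rwa [hτx] at this
  have hright := hch.right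
  rw [hσ0] at hright
  have hnear := ((((((hright.and (hτt.eventually hκe)).and (hτt.eventually hκe')).and (hτt.eventually hLe)).and
    (hτt.eventually (he i).2.2)).and (hτt.eventually (he i').2.2)))
  obtain ⟨r, hr, hnr⟩ := near hy0 hnear
  refine ⟨r, L / ‖y‖ * max κ⁻¹ κ'⁻¹, 1, hr, one_pos, fun x hx hp v hv hv' => ?_⟩
  have hx1 : x ∈ coneE P := hx.1
  have hx0 : x ≠ 0 := fun h1 => hX.zero (h1 ▸ hx1)
  obtain ⟨a, ha, hax⟩ := hnr x hx0 hp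
  obtain ⟨⟨⟨⟨⟨h1, h2⟩, h2'⟩, h3⟩, h4⟩, h4'⟩ := hax
  obtain ⟨d, hd, hxd⟩ := h1 (hX.smul x hx1 a ha)
  obtain ⟨t, ht⟩ : ∃ t, t = τ (a • x) := ⟨_, rfl⟩
  rw [← ht] at h2 h2' h3 h4 h4' hxd
  obtain ⟨q, hq0, hxq⟩ : ∃ q : ℂ, q ≠ 0 ∧ x = q • σ t := by
    refine ⟨a⁻¹ * d, mul_ne_zero (inv_ne_zero ha) hd, ?_⟩
    rw [mul_smul, ← hxd, smul_smul, inv_mul_cancel₀ ha, one_smul]
  have hσt : σ t ≠ 0 := by
    intro h5
    rw [h5, smul_zero] at hxq
    exact hx0 hxq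
  -- the coordinates are small
  have key : ∀ j (κ : ℝ), 0 < κ → κ * ‖σ t‖ ^ c j ≤ ‖e j t‖ → vec (E j) (σ t) = co (s j) t • e j t → v ≤ lamE (E j) (c j) x →
      ‖co (s j) t‖ ≤ κ⁻¹ * Real.exp (-v) := by
    intro j κ hκ h5 h6 h7
    rcases eq_or_ne (co (s j) t) 0 with h8 | h8
    · rw [h8, norm_zero]
      positivity
    have hσp : 0 < ‖σ t‖ ^ c j := pow_pos (norm_pos_iff.2 hσt) _
    have hqp : 0 < ‖q‖ ^ c j := pow_pos (norm_pos_iff.2 hq0) _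
    have hep : 0 < ‖e j t‖ := lt_of_lt_of_le (mul_pos hκ hσp) h5
    have h9 : ‖vec (E j) x‖ = ‖q‖ ^ c j * (‖co (s j) t‖ * ‖e j t‖) := by
      rw [hxq, BdyAux.vec_smul (hE j), h6, norm_smul, norm_smul, norm_pow]
    have hvp : 0 < ‖vec (E j) x‖ := by
      rw [h9]
      exact mul_pos hqp (mul_pos (norm_pos_iff.2 h8) hep)
    have hxp : 0 < ‖x‖ := norm_pos_iff.2 hx0
    have h10 : ‖vec (E j) x‖ ≤ Real.exp (-v) * ‖x‖ ^ c j := by
      have h11 : ‖x‖ ^ c j = Real.exp (c j * Real.log ‖x‖) := by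
        rw [mul_comm, Real.exp_mul, Real.exp_log hxp, Real.rpow_natCast]
      rw [h11, ← Real.exp_add, ← Real.log_le_iff_le_exp hvp]
      unfold lamE at h7
      linarith
    have h12 : ‖x‖ ^ c j = ‖q‖ ^ c j * ‖σ t‖ ^ c j := by rw [hxq, norm_smul, mul_pow]
    rw [h9, h12] at h10
    have h13 : ‖co (s j) t‖ * ‖e j t‖ ≤ Real.exp (-v) * ‖σ t‖ ^ c j := by
      have : ‖q‖ ^ c j * (‖co (s j) t‖ * ‖e j t‖) ≤ ‖q‖ ^ c j * (Real.exp (-v) * ‖σ t‖ ^ c j) := by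
        calc _ ≤ _ := h10
          _ = _ := by ring
      exact le_of_mul_le_mul_left this hqp
    have h14 : ‖co (s j) t‖ * κ * ‖σ t‖ ^ c j ≤ Real.exp (-v) * ‖σ t‖ ^ c j := by
      calc _ = ‖co (s j) t‖ * (κ * ‖σ t‖ ^ c j) := by ring
        _ ≤ ‖co (s j) t‖ * ‖e j t‖ := mul_le_mul_of_nonneg_left h5 (norm_nonneg _)
        _ ≤ _ := h13
    have h15 := le_of_mul_le_mul_right h14 hσp
    rw [inv_mul_eq_div, le_div_iff₀ hκ]
    exact h15
  have hexp : 0 < Real.exp (-v) := Real.exp_pos _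
  have h5 : ‖t‖ ≤ max κ⁻¹ κ'⁻¹ * Real.exp (-v) := by
    refine co_two hinj hii hsi hsi' ?_ ?_
    · exact (key i κ hκ0 h2 h4 hv).trans (mul_le_mul_of_nonneg_right (le_max_left _ _) hexp.le)
    · exact (key i' κ' hκ0' h2' h4' hv').trans (mul_le_mul_of_nonneg_right (le_max_right _ _) hexp.le)
  -- the distance
  have h6 : pd x y ≤ ‖σ t - σ 0‖ / ‖y‖ := by
    rw [hxq, pd_smul_left hq0]
    unfold pd
    have h7 : wd (σ t) y = wd (σ t) (σ 0 - σ t) := by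
      have h8 := Pool.Agent.H36.BP.wd_inv (σ t) (σ 0 - σ t) 1 1
      rw [one_smul, one_smul, sub_add_cancel, norm_one, one_pow, one_mul, hσ0] at h8
      rw [hσ0]
      exact h8
    have h9 : wd (σ t) y ≤ ‖σ t‖ * ‖σ t - σ 0‖ := by
      rw [h7, norm_sub_rev]
      exact Pool.Agent.H36.BP.wd_le _ _
    have h10 : 0 < ‖σ t‖ := norm_pos_iff.2 hσt
    rw [div_le_div_iff₀ (mul_pos h10 hy') hy']
    calc wd (σ t) y * ‖y‖ ≤ (‖σ t‖ * ‖σ t - σ 0‖) * ‖y‖ := mul_le_mul_of_nonneg_right h9 hy'.le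
      _ = _ := by ring
  rw [sub_zero] at h3
  rw [one_mul]
  calc pd x y ≤ ‖σ t - σ 0‖ / ‖y‖ := h6
    _ ≤ L * (max κ⁻¹ κ'⁻¹ * Real.exp (-v)) / ‖y‖ := by
      refine div_le_div_of_nonneg_right (h3.trans ?_) hy'.le
      exact mul_le_mul_of_nonneg_left h5 hL0.le
    _ = _ := by ring

end Pool.Agent.SR3
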