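import Pool.Agent.SR3.RsDefs

/-!
# SR3 RsB: the local estimate of a logarithmic symmetric differential against its residue polynomial

With `g₁ = gg _ p.1`, `u₁ = t.1 / g₁`: `|g₁| |u₁| ≤ |t|` and `|a k p - a k 0| ≤ A (|g₁| + |g₂|)`, `≤ A |g₁|` for `k = m`, `≤ A |g₂|` for `k = 0`.
-/

set_option autoImplicit false

open Topology Filter Metric MvPolynomial

noncomputable section

namespace Pool.Agent.SR3

variable {k : ℕ}

/-- differences of powers -/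
private theorem pow_sub_pow_le {x y : ℂ} {R : ℝ} (hR : 0 ≤ R) (hx : ‖x‖ ≤ R) (hy : ‖y‖ ≤ R) (n : ℕ) : ‖x ^ n - y ^ n‖ ≤ n * R ^ (n - 1) * ‖x - y‖ := by
  induction n with
  | zero => simp
  | succ n ih =>
    have h1 : x ^ (n + 1) - y ^ (n + 1) = x ^ n * (x - y) + (x ^ n - y ^ n) * y := by ring
    have h2 : ‖x ^ n‖ ≤ R ^ n := by
      rw [norm_pow]
      exact pow_le_pow_left₀ (norm_nonneg _) hx _
    have h3 : ‖(x ^ n - y ^ n) * y‖ ≤ n * R ^ n * ‖x - y‖ := by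
      rw [norm_mul]
      rcases Nat.eq_zero_or_pos n with hn | hn
      · subst hn
        simp
      · have h4 : R ^ n = R ^ (n - 1) * R := by
          rw [← pow_succ, Nat.sub_add_cancel hn]
        calc ‖x ^ n - y ^ n‖ * ‖y‖ ≤ (n * R ^ (n - 1) * ‖x - y‖) * R := by gcongr
          _ = n * R ^ n * ‖x - y‖ := by rw [h4]; ring
    rw [h1]
    calc ‖x ^ n * (x - y) + (x ^ n - y ^ n) * y‖ ≤ R ^ n * ‖x - y‖ + n * R ^ n * ‖x - y‖ := by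
          refine (norm_add_le _ _).trans (add_le_add ?_ h3)
          rw [norm_mul]
          gcongr
      _ = ((n + 1 : ℕ) : ℝ) * R ^ (n + 1 - 1) * ‖x - y‖ := by
          rw [Nat.add_sub_cancel]
          push_cast
          ring

private theorem mon_sub_le {u₁ u₂ l₁ l₂ : ℂ} {R T : ℝ} (hR : 0 ≤ R) (hT : 0 ≤ T) (hu₁ : ‖u₁‖ ≤ R) (hu₂ : ‖u₂‖ ≤ R) (hl₁ : ‖l₁‖ ≤ R) (hl₂ : ‖l₂‖ ≤ R)
    (hd₁ : ‖u₁ - l₁‖ ≤ T) (hd₂ : ‖u₂ - l₂‖ ≤ T) (i j : ℕ) : ‖u₁ ^ i * u₂ ^ j - l₁ ^ i * l₂ ^ j‖ ≤ (i + j) * R ^ (i + j - 1) * T := by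
  have h1 : u₁ ^ i * u₂ ^ j - l₁ ^ i * l₂ ^ j = (u₁ ^ i - l₁ ^ i) * u₂ ^ j + l₁ ^ i * (u₂ ^ j - l₂ ^ j) := by ring
  have h2 : ‖(u₁ ^ i - l₁ ^ i) * u₂ ^ j‖ ≤ i * R ^ (i + j - 1) * T := by
    rcases Nat.eq_zero_or_pos i with hi | hi
    · subst hi
      simp
    · have h3 : R ^ (i + j - 1) = R ^ (i - 1) * R ^ j := by
        rw [← pow_add]
        congr 1
        omega
      rw [norm_mul, norm_pow, h3]
      calc ‖u₁ ^ i - l₁ ^ i‖ * ‖u₂‖ ^ j ≤ (i * R ^ (i - 1) * T) * R ^ j := by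
            refine mul_le_mul ((pow_sub_pow_le hR hu₁ hl₁ i).trans ?_) (pow_le_pow_left₀ (norm_nonneg _) hu₂ _) (by positivity) (by positivity)
            gcongr
        _ = _ := by ring
  have h4 : ‖l₁ ^ i * (u₂ ^ j - l₂ ^ j)‖ ≤ j * R ^ (i + j - 1) * T := by
    rcases Nat.eq_zero_or_pos j with hj | hj
    · subst hj
      simp
    · have h3 : R ^ (i + j - 1) = R ^ i * R ^ (j - 1) := by
        rw [← pow_add]
        congr 1
        omega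
      rw [norm_mul, norm_pow, h3]
      calc ‖l₁‖ ^ i * ‖u₂ ^ j - l₂ ^ j‖ ≤ R ^ i * (j * R ^ (j - 1) * T) := by
            refine mul_le_mul (pow_le_pow_left₀ (norm_nonneg _) hl₁ _) ((pow_sub_pow_le hR hu₂ hl₂ j).trans ?_) (norm_nonneg _) (by positivity)
            gcongr
        _ = _ := by ring
  rw [h1]
  calc ‖(u₁ ^ i - l₁ ^ i) * u₂ ^ j + l₁ ^ i * (u₂ ^ j - l₂ ^ j)‖ ≤ i * R ^ (i + j - 1) * T + j * R ^ (i + j - 1) * T := (norm_add_le _ _).trans (add_le_add h2 h4)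
    _ = (i + j) * R ^ (i + j - 1) * T := by ring

private theorem mon_le {u₁ u₂ : ℂ} {R T g₁ g₂ : ℝ} (hR : 0 ≤ R) (hT : 0 ≤ T) (hu₁ : ‖u₁‖ ≤ R) (hu₂ : ‖u₂‖ ≤ R)
    (h1 : g₁ * ‖u₁‖ ≤ T) (h2 : g₂ * ‖u₂‖ ≤ T) (i j : ℕ) : (1 ≤ i → g₁ * (‖u₁‖ ^ i * ‖u₂‖ ^ j) ≤ T * R ^ (i + j - 1)) ∧
      (1 ≤ j → g₂ * (‖u₁‖ ^ i * ‖u₂‖ ^ j) ≤ T * R ^ (i + j - 1)) := by
  constructor
  · intro hi
    have h3 : R ^ (i + j - 1) = R ^ (i - 1) * R ^ j := by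
      rw [← pow_add]
      congr 1
      omega
    have h4 : ‖u₁‖ ^ i = ‖u₁‖ * ‖u₁‖ ^ (i - 1) := by
      rw [← pow_succ', Nat.sub_add_cancel hi]
    rw [h3, h4]
    calc g₁ * (‖u₁‖ * ‖u₁‖ ^ (i - 1) * ‖u₂‖ ^ j) = (g₁ * ‖u₁‖) * (‖u₁‖ ^ (i - 1) * ‖u₂‖ ^ j) := by ring
      _ ≤ T * (R ^ (i - 1) * R ^ j) := by
        refine mul_le_mul h1 ?_ (by positivity) hT
        exact mul_le_mul (pow_le_pow_left₀ (norm_nonneg _) hu₁ _) (pow_le_pow_left₀ (norm_nonneg _) hu₂ _) (by positivity) (by positivity)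
  · intro hj
    have h3 : R ^ (i + j - 1) = R ^ i * R ^ (j - 1) := by
      rw [← pow_add]
      congr 1
      omega
    have h4 : ‖u₂‖ ^ j = ‖u₂‖ * ‖u₂‖ ^ (j - 1) := by
      rw [← pow_succ', Nat.sub_add_cancel hj]
    rw [h3, h4]
    calc g₂ * (‖u₁‖ ^ i * (‖u₂‖ * ‖u₂‖ ^ (j - 1))) = (g₂ * ‖u₂‖) * (‖u₁‖ ^ i * ‖u₂‖ ^ (j - 1)) := by ring
      _ ≤ T * (R ^ i * R ^ (j - 1)) := by
        refine mul_le_mul h2 ?_ (by positivity) hT
        exact mul_le_mul (pow_le_pow_left₀ (norm_nonneg _) hu₁ _) (pow_le_pow_left₀ (norm_nonneg _) hu₂ _) (by positivity) (by positivity)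

/-- the algebraic part -/
private theorem alg_est {m : ℕ} (hm : 1 ≤ m) {α β : ℕ → ℂ} {A R T : ℝ} {u₁ u₂ l₁ l₂ g₁ g₂ : ℂ} (hA : 0 ≤ A) (hR : 0 ≤ R) (hT : 0 ≤ T)
    (h1 : ∀ k ∈ Finset.range (m + 1), ‖α k - β k‖ ≤ A * (‖g₁‖ + ‖g₂‖)) (h2 : ‖α m - β m‖ ≤ A * ‖g₁‖) (h3 : ‖α 0 - β 0‖ ≤ A * ‖g₂‖)
    (h4 : ∀ k ∈ Finset.range (m + 1), ‖β k‖ ≤ A) (hu₁ : ‖u₁‖ ≤ R) (hu₂ : ‖u₂‖ ≤ R) (hl₁ : ‖l₁‖ ≤ R) (hl₂ : ‖l₂‖ ≤ R)
    (hg₁ : ‖g₁‖ * ‖u₁‖ ≤ T) (hg₂ : ‖g₂‖ * ‖u₂‖ ≤ T) (hd₁ : ‖u₁ - l₁‖ ≤ T) (hd₂ : ‖u₂ - l₂‖ ≤ T) :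
    ‖∑ k ∈ Finset.range (m + 1), α k * u₁ ^ k * u₂ ^ (m - k) - ∑ k ∈ Finset.range (m + 1), β k * l₁ ^ k * l₂ ^ (m - k)‖ ≤
      (m + 1) * ((m + 2) * A * T * R ^ (m - 1)) := by
  rw [← Finset.sum_sub_distrib]
  have hterm : ∀ k ∈ Finset.range (m + 1), ‖α k * u₁ ^ k * u₂ ^ (m - k) - β k * l₁ ^ k * l₂ ^ (m - k)‖ ≤ (m + 2) * A * T * R ^ (m - 1) := by
    intro k hk
    have hkm : k ≤ m := Nat.lt_succ_iff.1 (Finset.mem_range.1 hk)
    have hkk : k + (m - k) = m := by omega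
    have e1 : α k * u₁ ^ k * u₂ ^ (m - k) - β k * l₁ ^ k * l₂ ^ (m - k) =
        (α k - β k) * (u₁ ^ k * u₂ ^ (m - k)) + β k * (u₁ ^ k * u₂ ^ (m - k) - l₁ ^ k * l₂ ^ (m - k)) := by ring
    have e2 : ‖β k * (u₁ ^ k * u₂ ^ (m - k) - l₁ ^ k * l₂ ^ (m - k))‖ ≤ A * (m * R ^ (m - 1) * T) := by
      rw [norm_mul]
      have h5 := mon_sub_le hR hT hu₁ hu₂ hl₁ hl₂ hd₁ hd₂ k (m - k)
      have h6 : ((k : ℝ) + ((m - k : ℕ) : ℝ)) = m := by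
        rw [← Nat.cast_add, hkk]
      rw [h6, hkk] at h5
      exact mul_le_mul (h4 k hk) h5 (norm_nonneg _) hA
    have e3 : ‖(α k - β k) * (u₁ ^ k * u₂ ^ (m - k))‖ ≤ 2 * A * T * R ^ (m - 1) := by
      rw [norm_mul, norm_mul, norm_pow, norm_pow]
      obtain ⟨h5, h6⟩ := mon_le hR hT hu₁ hu₂ hg₁ hg₂ k (m - k)
      rw [hkk] at h5 h6
      have hp : 0 ≤ A * (T * R ^ (m - 1)) := by positivity
      have hq : 0 ≤ ‖u₁‖ ^ k * ‖u₂‖ ^ (m - k) := by positivity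
      by_cases hk0 : k = 0
      · subst hk0
        calc ‖α 0 - β 0‖ * (‖u₁‖ ^ 0 * ‖u₂‖ ^ (m - 0)) ≤ A * ‖g₂‖ * (‖u₁‖ ^ 0 * ‖u₂‖ ^ (m - 0)) := mul_le_mul_of_nonneg_right h3 hq
          _ = A * (‖g₂‖ * (‖u₁‖ ^ 0 * ‖u₂‖ ^ (m - 0))) := by ring
          _ ≤ A * (T * R ^ (m - 1)) := mul_le_mul_of_nonneg_left (h6 (by omega)) hA
          _ ≤ 2 * A * T * R ^ (m - 1) := by linarith
      · by_cases hkm' : k = m
        · subst hkm'
          calc ‖α k - β k‖ * (‖u₁‖ ^ k * ‖u₂‖ ^ (k - k)) ≤ A * ‖g₁‖ * (‖u₁‖ ^ k * ‖u₂‖ ^ (k - k)) := mul_le_mul_of_nonneg_right h2 hq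
            _ = A * (‖g₁‖ * (‖u₁‖ ^ k * ‖u₂‖ ^ (k - k))) := by ring
            _ ≤ A * (T * R ^ (k - 1)) := mul_le_mul_of_nonneg_left (h5 hm) hA
            _ ≤ 2 * A * T * R ^ (k - 1) := by linarith
        · calc ‖α k - β k‖ * (‖u₁‖ ^ k * ‖u₂‖ ^ (m - k)) ≤ A * (‖g₁‖ + ‖g₂‖) * (‖u₁‖ ^ k * ‖u₂‖ ^ (m - k)) := mul_le_mul_of_nonneg_right (h1 k hk) hq
            _ = A * (‖g₁‖ * (‖u₁‖ ^ k * ‖u₂‖ ^ (m - k)) + ‖g₂‖ * (‖u₁‖ ^ k * ‖u₂‖ ^ (m - k))) := by ring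
            _ ≤ A * (T * R ^ (m - 1) + T * R ^ (m - 1)) := mul_le_mul_of_nonneg_left (add_le_add (h5 (by omega)) (h6 (by omega))) hA
            _ = 2 * A * T * R ^ (m - 1) := by ring
    rw [e1]
    calc ‖(α k - β k) * (u₁ ^ k * u₂ ^ (m - k)) + β k * (u₁ ^ k * u₂ ^ (m - k) - l₁ ^ k * l₂ ^ (m - k))‖ ≤ 2 * A * T * R ^ (m - 1) + A * (m * R ^ (m - 1) * T) :=
          (norm_add_le _ _).trans (add_le_add e3 e2)
      _ = (m + 2) * A * T * R ^ (m - 1) := by ring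
  refine (norm_sum_le_of_le _ hterm).trans ?_
  rw [Finset.sum_const, Finset.card_range, nsmul_eq_mul]
  push_cast
  exact le_refl _

/-- the coefficients -/
private theorem coef_est {a : ℕ → ℂ × ℂ → ℂ} (ha : ∀ k, AnalyticAt ℂ (a k) 0) {m : ℕ} {b₁ b₂ : Bool}
    (h1 : b₁ = true → ∀ᶠ s in 𝓝 (0 : ℂ), a m (0, s) = a m 0) (h2 : b₂ = true → ∀ᶠ s in 𝓝 (0 : ℂ), a 0 (s, 0) = a 0 0) :
    ∃ A : ℝ, 0 ≤ A ∧ (∀ k ∈ Finset.range (m + 1), ‖a k 0‖ ≤ A) ∧ ∀ᶠ p in 𝓝 (0 : ℂ × ℂ),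
      (∀ k ∈ Finset.range (m + 1), ‖a k p - a k 0‖ ≤ A * (‖gg b₁ p.1‖ + ‖gg b₂ p.2‖)) ∧ ‖a m p - a m 0‖ ≤ A * ‖gg b₁ p.1‖ ∧
      ‖a 0 p - a 0 0‖ ≤ A * ‖gg b₂ p.2‖ := by
  have hLip : ∀ k, ∃ K : ℝ, 0 ≤ K ∧ ∃ s ∈ 𝓝 (0 : ℂ × ℂ), ∀ p ∈ s, ∀ q ∈ s, ‖a k p - a k q‖ ≤ K * ‖p - q‖ := by
    intro k
    obtain ⟨K, s, hs, h⟩ := (ha k).hasStrictFDerivAt.exists_lipschitzOnWith
    refine ⟨K, K.2, s, hs, fun p hp q hq => ?_⟩
    have := h.dist_le_mul p hp q hq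
    rwa [dist_eq_norm, dist_eq_norm] at this
  choose K hK s hs hKs using hLip
  have hsall : ∀ᶠ p in 𝓝 (0 : ℂ × ℂ), ∀ k ∈ Finset.range (m + 1), p ∈ s k := by
    rw [Filter.eventually_all_finset]
    exact fun k _ => hs k
  obtain ⟨A, hA⟩ : ∃ A, A = ∑ k ∈ Finset.range (m + 1), (K k + ‖a k 0‖) := ⟨_, rfl⟩
  have hA1 : ∀ k ∈ Finset.range (m + 1), K k + ‖a k 0‖ ≤ A := by
    intro k hk
    rw [hA]
    exact Finset.single_le_sum (f := fun k => K k + ‖a k 0‖) (fun i _ => add_nonneg (hK i) (norm_nonneg _)) hk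
  have hA0 : 0 ≤ A := by
    rw [hA]
    exact Finset.sum_nonneg fun k _ => add_nonneg (hK k) (norm_nonneg _)
  have hmem0 : ∀ k, (0 : ℂ × ℂ) ∈ s k := fun k => mem_of_mem_nhds (hs k)
  have hsmall : ∀ᶠ p in 𝓝 (0 : ℂ × ℂ), ‖p‖ < 1 := by
    have h3 : ContinuousAt (fun p : ℂ × ℂ => ‖p‖) 0 := continuous_norm.continuousAt
    exact h3.eventually (gt_mem_nhds (show ‖(0 : ℂ × ℂ)‖ < 1 by rw [norm_zero]; exact one_pos))
  have hgg : ∀ (b : Bool) (z : ℂ), ‖z‖ ≤ 1 → ‖z‖ ≤ ‖gg b z‖ := by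
    intro b z hz
    cases b
    · rw [gg_false, norm_one]
      exact hz
    · rw [gg_true]
  have hmm : m ∈ Finset.range (m + 1) := Finset.self_mem_range_succ m
  have h0m : 0 ∈ Finset.range (m + 1) := Finset.mem_range.2 (Nat.succ_pos m)
  have hpr1 : Tendsto (fun p : ℂ × ℂ => ((0 : ℂ), p.2)) (𝓝 0) (𝓝 0) := by
    have h3 : Continuous fun p : ℂ × ℂ => ((0 : ℂ), p.2) := continuous_const.prodMk continuous_snd
    exact h3.tendsto 0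
  have hpr2 : Tendsto (fun p : ℂ × ℂ => (p.1, (0 : ℂ))) (𝓝 0) (𝓝 0) := by
    have h3 : Continuous fun p : ℂ × ℂ => (p.1, (0 : ℂ)) := continuous_fst.prodMk continuous_const
    exact h3.tendsto 0
  have hsn : Tendsto (fun p : ℂ × ℂ => p.2) (𝓝 0) (𝓝 0) := continuous_snd.tendsto (0 : ℂ × ℂ)
  have hfs : Tendsto (fun p : ℂ × ℂ => p.1) (𝓝 0) (𝓝 0) := continuous_fst.tendsto (0 : ℂ × ℂ)
  have h1' : ∀ᶠ p in 𝓝 (0 : ℂ × ℂ), b₁ = true → a m (0, p.2) = a m 0 := by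
    by_cases hb : b₁ = true
    · filter_upwards [hsn.eventually (h1 hb)] with p hp _
      exact hp
    · exact Eventually.of_forall fun p h => absurd h hb
  have h2' : ∀ᶠ p in 𝓝 (0 : ℂ × ℂ), b₂ = true → a 0 (p.1, 0) = a 0 0 := by
    by_cases hb : b₂ = true
    · filter_upwards [hfs.eventually (h2 hb)] with p hp _
      exact hp
    · exact Eventually.of_forall fun p h => absurd h hb
  refine ⟨A, hA0, fun k hk => (le_add_of_nonneg_left (hK k)).trans (hA1 k hk), ?_⟩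
  filter_upwards [hsall, hsmall, h1', h2', hpr1.eventually hsall, hpr2.eventually hsall] with p hp hp1 hq1 hq2 hp2 hp3
  have hn1 : ‖p.1‖ ≤ 1 := (norm_fst_le p).trans hp1.le
  have hn2 : ‖p.2‖ ≤ 1 := (norm_snd_le p).trans hp1.le
  have hKA : ∀ k ∈ Finset.range (m + 1), K k ≤ A := fun k hk => (le_add_of_nonneg_right (norm_nonneg _)).trans (hA1 k hk)
  have hg1 := hgg b₁ p.1 hn1
  have hg2 := hgg b₂ p.2 hn2
  refine ⟨fun k hk => ?_, ?_, ?_⟩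
  · have h3 := hKs k p (hp k hk) 0 (hmem0 k)
    rw [sub_zero] at h3
    have h4 : ‖p‖ ≤ ‖gg b₁ p.1‖ + ‖gg b₂ p.2‖ := by
      rw [Prod.norm_def]
      exact max_le (hg1.trans (le_add_of_nonneg_right (norm_nonneg _))) (hg2.trans (le_add_of_nonneg_left (norm_nonneg _)))
    calc ‖a k p - a k 0‖ ≤ K k * ‖p‖ := h3
      _ ≤ A * (‖gg b₁ p.1‖ + ‖gg b₂ p.2‖) := mul_le_mul (hKA k hk) h4 (norm_nonneg _) hA0
  · by_cases hb : b₁ = true
    · have h3 := hKs m p (hp m hmm) (0, p.2) (hp2 m hmm)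
      rw [hq1 hb] at h3
      have h4 : ‖p - (0, p.2)‖ = ‖p.1‖ := by
        rw [Prod.norm_def]
        simp
      rw [h4] at h3
      exact h3.trans (mul_le_mul (hKA m hmm) hg1 (norm_nonneg _) hA0)
    · have h3 := hKs m p (hp m hmm) 0 (hmem0 m)
      rw [sub_zero] at h3
      have h4 : gg b₁ p.1 = 1 := by
        rw [Bool.not_eq_true] at hb
        rw [hb, gg_false]
      rw [h4, norm_one]
      exact h3.trans (mul_le_mul (hKA m hmm) hp1.le (norm_nonneg _) hA0)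
  · by_cases hb : b₂ = true
    · have h3 := hKs 0 p (hp 0 h0m) (p.1, 0) (hp3 0 h0m)
      rw [hq2 hb] at h3
      have h4 : ‖p - (p.1, 0)‖ = ‖p.2‖ := by
        rw [Prod.norm_def]
        simp
      rw [h4] at h3
      exact h3.trans (mul_le_mul (hKA 0 h0m) hg2 (norm_nonneg _) hA0)
    · have h3 := hKs 0 p (hp 0 h0m) 0 (hmem0 0)
      rw [sub_zero] at h3
      have h4 : gg b₂ p.2 = 1 := by
        rw [Bool.not_eq_true] at hb
        rw [hb, gg_false]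
      rw [h4, norm_one]
      exact h3.trans (mul_le_mul (hKA 0 h0m) hp1.le (norm_nonneg _) hA0)

/-- the variable which belongs to a component, or `0` -/
private def xx : Option (Fin k) → MvPolynomial (Fin k) ℂ
  | none => 0
  | some i => X i

private theorem xx_hom (o : Option (Fin k)) : (xx o).IsHomogeneous 1 := by
  cases o with
  | none => exact isHomogeneous_zero _ _ _
  | some i => exact isHomogeneous_X _ _

/-- the local estimate -/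
theorem loc_bound {m : ℕ} (hm : 1 ≤ m) {o₁ o₂ : Option (Fin k)} (hne : ∀ i, o₁ = some i → o₂ ≠ some i) (_hone : o₁ = none → o₂ = none)
    {a : ℕ → ℂ × ℂ → ℂ} (ha : ∀ k, AnalyticAt ℂ (a k) 0) (h1 : o₁ ≠ none → ∀ᶠ s in 𝓝 (0 : ℂ), a m (0, s) = a m 0)
    (h2 : o₂ ≠ none → ∀ᶠ s in 𝓝 (0 : ℂ), a 0 (s, 0) = a 0 0) {C : ℝ} (hC : 0 ≤ C) :
    ∃ (Pol : MvPolynomial (Fin k) ℂ) (C' : ℝ), Pol.IsHomogeneous m ∧
      (∀ y y' : Fin k → ℂ, (∀ i, (o₁ = some i ∨ o₂ = some i) → y i = y' i) → eval y Pol = eval y' Pol) ∧ 0 ≤ C' ∧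
      ∀ᶠ p in 𝓝 (0 : ℂ × ℂ), gg o₁.isSome p.1 * gg o₂.isSome p.2 ≠ 0 → ∀ (t : ℂ × ℂ) (ell : Fin k → ℂ) (F L : ℝ), ‖t‖ ≤ C * F → 0 ≤ F →
        F + ∑ i, ‖ell i‖ ≤ L → (∀ i, ‖ell i - uu o₁ o₂ i p t‖ ≤ C * ‖t‖) →
        ‖∑ k ∈ Finset.range (m + 1), a k p * (t.1 / gg o₁.isSome p.1) ^ k * (t.2 / gg o₂.isSome p.2) ^ (m - k) - eval ell Pol‖ ≤
          C' * F * L ^ (m - 1) := by
  obtain ⟨A, hA, hA0, hev⟩ := coef_est (m := m) ha (b₁ := o₁.isSome) (b₂ := o₂.isSome) (fun h => h1 (by rintro rfl; simp at h))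
    (fun h => h2 (by rintro rfl; simp at h))
  have hxx : ∀ (y : Fin k → ℂ), eval y (∑ j ∈ Finset.range (m + 1), MvPolynomial.C (a j 0) * xx o₁ ^ j * xx o₂ ^ (m - j)) =
      ∑ j ∈ Finset.range (m + 1), a j 0 * eval y (xx o₁) ^ j * eval y (xx o₂) ^ (m - j) := by
    intro y
    rw [map_sum]
    refine Finset.sum_congr rfl fun j _ => ?_
    rw [map_mul, map_mul, map_pow, map_pow, eval_C]
  obtain ⟨C₁, hC₁⟩ : ∃ C₁, C₁ = (1 + C) * C := ⟨_, rfl⟩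
  have hC₁0 : 0 ≤ C₁ := by rw [hC₁]; positivity
  refine ⟨∑ j ∈ Finset.range (m + 1), MvPolynomial.C (a j 0) * xx o₁ ^ j * xx o₂ ^ (m - j), (m + 1) * ((m + 2) * A * C₁ * (1 + C₁) ^ (m - 1)), ?_, ?_, by positivity, ?_⟩
  · refine IsHomogeneous.sum _ _ _ fun j hj => ?_
    have hjm : j ≤ m := Nat.lt_succ_iff.1 (Finset.mem_range.1 hj)
    have h3 := ((isHomogeneous_C (Fin k) (a j 0)).mul ((xx_hom o₁).pow j)).mul ((xx_hom o₂).pow (m - j))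
    have h4 : 0 + 1 * j + 1 * (m - j) = m := by omega
    rwa [h4] at h3
  · intro y y' hy
    rw [hxx, hxx]
    have h3 : eval y (xx o₁) = eval y' (xx o₁) := by
      rcases o₁ with _ | i
      · simp [xx]
      · simp only [xx, eval_X]
        exact hy i (Or.inl rfl)
    have h4 : eval y (xx o₂) = eval y' (xx o₂) := by
      rcases o₂ with _ | i
      · simp [xx]
      · simp only [xx, eval_X]
        exact hy i (Or.inr rfl)
    rw [h3, h4]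
  · filter_upwards [hev] with p hp hg t ell F L ht hF hL hu
    obtain ⟨hp1, hp2, hp3⟩ := hp
    have hg₁ := left_ne_zero_of_mul hg
    have hg₂ := right_ne_zero_of_mul hg
    have hsum : 0 ≤ ∑ i, ‖ell i‖ := Finset.sum_nonneg fun i _ => norm_nonneg _
    have hL0 : 0 ≤ L := by linarith
    have hFL : F ≤ L := by linarith
    have hellL : ∀ i, ‖ell i‖ ≤ L := fun i => by
      have := Finset.single_le_sum (f := fun i => ‖ell i‖) (fun i _ => norm_nonneg _) (Finset.mem_univ i)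
      linarith
    have htT : ‖t‖ ≤ C₁ * F := by
      rw [hC₁]
      nlinarith [mul_nonneg hC (mul_nonneg hC hF)]
    have hCt : C * ‖t‖ ≤ C₁ * F := by
      rw [hC₁]
      have h3 : C * ‖t‖ ≤ C * (C * F) := mul_le_mul_of_nonneg_left ht hC
      nlinarith [mul_nonneg hC hF]
    have hd₁ : ‖t.1 / gg o₁.isSome p.1 - eval ell (xx o₁)‖ ≤ C₁ * F := by
      rcases ho₁ : o₁ with _ | i
      · simp only [xx, map_zero, sub_zero, Option.isSome_none, gg_false, div_one]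
        exact (norm_fst_le t).trans htT
      · simp only [xx, eval_X, Option.isSome_some, gg_true]
        have h3 := hu i
        have h4 : uu o₁ o₂ i p t = t.1 / p.1 := by
          have h5 := hne i ho₁
          simp [uu, ho₁, h5]
        rw [h4, norm_sub_rev] at h3
        exact h3.trans hCt
    have hd₂ : ‖t.2 / gg o₂.isSome p.2 - eval ell (xx o₂)‖ ≤ C₁ * F := by
      rcases ho₂ : o₂ with _ | i
      · simp only [xx, map_zero, sub_zero, Option.isSome_none, gg_false, div_one]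
        exact (norm_snd_le t).trans htT
      · simp only [xx, eval_X, Option.isSome_some, gg_true]
        have h3 := hu i
        have h4 : uu o₁ o₂ i p t = t.2 / p.2 := by
          have h5 : ¬ o₁ = some i := fun h => hne i h ho₂
          simp [uu, ho₂, h5]
        rw [h4, norm_sub_rev] at h3
        exact h3.trans hCt
    have hLR : L ≤ (1 + C₁) * L := by nlinarith
    have hl : ∀ o : Option (Fin k), ‖eval ell (xx o)‖ ≤ L := by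
      intro o
      cases o with
      | none => simpa [xx] using hL0
      | some i => simpa [xx] using hellL i
    have hu₁ : ‖t.1 / gg o₁.isSome p.1‖ ≤ (1 + C₁) * L := by
      have h3 := norm_add_le (t.1 / gg o₁.isSome p.1 - eval ell (xx o₁)) (eval ell (xx o₁))
      rw [sub_add_cancel] at h3
      have h4 : C₁ * F ≤ C₁ * L := mul_le_mul_of_nonneg_left hFL hC₁0
      linarith [hl o₁]
    have hu₂ : ‖t.2 / gg o₂.isSome p.2‖ ≤ (1 + C₁) * L := by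
      have h3 := norm_add_le (t.2 / gg o₂.isSome p.2 - eval ell (xx o₂)) (eval ell (xx o₂))
      rw [sub_add_cancel] at h3
      have h4 : C₁ * F ≤ C₁ * L := mul_le_mul_of_nonneg_left hFL hC₁0
      linarith [hl o₂]
    have hq₁ : ‖gg o₁.isSome p.1‖ * ‖t.1 / gg o₁.isSome p.1‖ ≤ C₁ * F := by
      rw [← norm_mul, mul_div_cancel₀ _ hg₁]
      exact (norm_fst_le t).trans htT
    have hq₂ : ‖gg o₂.isSome p.2‖ * ‖t.2 / gg o₂.isSome p.2‖ ≤ C₁ * F := by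
      rw [← norm_mul, mul_div_cancel₀ _ hg₂]
      exact (norm_snd_le t).trans htT
    rw [hxx]
    refine (alg_est hm hA (R := (1 + C₁) * L) (T := C₁ * F) (by positivity) (by positivity) hp1 hp2 hp3 hA0 hu₁ hu₂ ((hl o₁).trans hLR)
      ((hl o₂).trans hLR) hq₁ hq₂ hd₁ hd₂).trans (le_of_eq ?_)
    rw [mul_pow]
    ring

end Pool.Agent.SR3
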