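import Pool.Agent.SR3.RsDefs

/-!
# SR3 RsC3: the distance to the components which do not pass through the centre of the chart
-/

set_option autoImplicit false

open Topology Filter Metric MvPolynomial

noncomputable section

namespace Pool.Agent.SR3

open Pool.Agent.H36.BP (EN fs)
open Pool.Agent.H17BP (Surface IsChart)
open Pool.Agent.H17EF (coneE)

variable {N k M : ℕ}

variable {P : Ideal (MvPolynomial (Fin (N + 1)) ℂ)} {H : MvPolynomial (Fin (N + 1)) ℂ} {E : Fin k → Fin (M + 1) → MvPolynomial (Fin (N + 1)) ℂ}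
  {c : Fin k → ℕ} {σ : ℂ × ℂ → EN N} {τ : EN N → ℂ × ℂ} {o₁ o₂ : Option (Fin k)}

theorem lc_lam (hL : LC P H E σ τ o₁ o₂) :
    ∃ C : ℝ, ∀ᶠ y in 𝓝 (0 : ℂ × ℂ), ∀ i, o₁ ≠ some i → o₂ ≠ some i → lamV (E i) (c i) (σ y) ≤ C := by
  have h1 : ∀ i, ∃ C : ℝ, ∀ᶠ y in 𝓝 (0 : ℂ × ℂ), o₁ ≠ some i → o₂ ≠ some i → lamV (E i) (c i) (σ y) ≤ C := by
    intro i
    obtain ⟨e, he, he0, hev⟩ := hL.eqs i
    have h2 : ContinuousAt (fun y => (c i : ℝ) * Real.log ‖σ y‖ - Real.log ‖e y‖) (0 : ℂ × ℂ) := by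
      refine ContinuousAt.sub (continuousAt_const.mul (hL.chart.σ_an.continuousAt.norm.log ?_)) (he.continuousAt.norm.log ?_)
      · exact norm_ne_zero_iff.2 hL.chart.ne
      · exact norm_ne_zero_iff.2 he0
    refine ⟨((c i : ℝ) * Real.log ‖σ 0‖ - Real.log ‖e 0‖) + 1, ?_⟩
    filter_upwards [hev, h2.eventually_lt continuousAt_const (lt_add_one _)] with y hy1 hy2 ho1 ho2
    unfold lamV
    rw [hy1, decide_eq_false ho1, decide_eq_false ho2, gg_false, gg_false, one_mul, one_smul]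
    exact hy2.le
  choose C hC using h1
  refine ⟨∑ i, |C i|, ?_⟩
  filter_upwards [eventually_all.2 hC] with y hy i ho1 ho2
  calc lamV (E i) (c i) (σ y) ≤ C i := hy i ho1 ho2
    _ ≤ |C i| := le_abs_self _
    _ ≤ ∑ i, |C i| := Finset.single_le_sum (f := fun i => |C i|) (fun i _ => abs_nonneg _) (Finset.mem_univ i)

end Pool.Agent.SR3
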