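import Pool.Agent.SR3.HDefs2

/-!
# SR3 RsdA: the types (`exists_res` from the local statement)

`RLoc C S Pol x`: at the point `x` the differentials are given by the residue polynomials `Pol`.  The types are the charts of a finite cover of the
surface.
-/

set_option autoImplicit false

open Topology Filter Metric MvPolynomial

noncomputable section

namespace Pool.Agent.SR3

open Pool.Agent.H36.BP (EN fs wd fs_inv)
open Pool.Agent.H17BP (Surface IsChart)
open Pool.Agent.H14.PP (IsCone Tan)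
open Pool.Agent.H17EF (projVar coneE)
open Pool.Agent.AD (SymDiff)
open Pool.Agent.SDA (openCone)

variable {N k M : ℕ}

/-! ### invariance -/

private theorem Rsd_cc (c : ℂ) : c * (starRingEnd ℂ) c = ((‖c‖ ^ 2 : ℝ) : ℂ) := by
  rw [Complex.mul_conj, Complex.normSq_eq_norm_sq]

private theorem Rsd_eval {Q : MvPolynomial (Fin (N + 1)) ℂ} {d : ℕ} (hQ : Q.IsHomogeneous d) (c : ℂ) (x : EN N) :
    eval (c • x).ofLp Q = c ^ d * eval x.ofLp Q := by
  change eval (c • x.ofLp) Q = _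
  rw [eval_eq', eval_eq', Finset.mul_sum]
  refine Finset.sum_congr rfl fun m hm => ?_
  have h1 : ∏ i, (c • x.ofLp) i ^ m i = c ^ d * ∏ i, x.ofLp i ^ m i := by
    simp only [Pi.smul_apply, smul_eq_mul, mul_pow, Finset.prod_mul_distrib]
    rw [Finset.prod_pow_eq_pow_sum]
    have h2 := hQ (mem_support_iff.1 hm)
    rw [Finsupp.weight_apply, Finsupp.sum_fintype _ _ (by simp)] at h2
    simp only [Pi.one_apply, smul_eq_mul, mul_one] at h2
    rw [h2]
  rw [h1]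
  ring

theorem vec_smul {F : Fin (M + 1) → MvPolynomial (Fin (N + 1)) ℂ} {d : ℕ} (hF : ∀ l, (F l).IsHomogeneous d) (c : ℂ) (x : EN N) :
    vec F (c • x) = c ^ d • vec F x := by
  unfold vec
  ext l
  simp only [PiLp.smul_apply, smul_eq_mul]
  exact Rsd_eval (hF l) c x

theorem vec_diff (F : Fin (M + 1) → MvPolynomial (Fin (N + 1)) ℂ) : Differentiable ℂ (vec F : EN N → EN M) := by
  unfold vec
  refine (WithLp.linearEquiv 2 ℂ (Fin (M + 1) → ℂ)).symm.toContinuousLinearEquiv.differentiable.comp ?_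
  refine differentiable_pi.2 fun l => ?_
  intro x
  have h1 : DifferentiableAt ℂ (fun y : Fin (N + 1) → ℂ => eval y (F l)) x.ofLp := by
    induction F l using MvPolynomial.induction_on with
    | C a =>
      have h0 : (fun y : Fin (N + 1) → ℂ => eval y (C a)) = fun _ => a := by
        funext y
        exact eval_C a
      rw [h0]
      exact differentiableAt_const _
    | add p q hp hq =>
      have h0 : (fun y : Fin (N + 1) → ℂ => eval y (p + q)) = fun y => eval y p + eval y q := by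
        funext y
        exact map_add _ _ _
      rw [h0]
      exact DifferentiableAt.add hp hq
    | mul_X p i hp =>
      have h0 : (fun y : Fin (N + 1) → ℂ => eval y (p * X i)) = fun y => eval y p * y i := by
        funext y
        rw [map_mul, eval_X]
      rw [h0]
      exact DifferentiableAt.mul hp (differentiableAt_apply i x.ofLp)
  have h2 : DifferentiableAt ℂ (fun y : EN N => y.ofLp) x :=
    (WithLp.linearEquiv 2 ℂ (Fin (N + 1) → ℂ)).toContinuousLinearEquiv.differentiableAt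
  exact h1.comp x h2

theorem dvec_smul {F : Fin (M + 1) → MvPolynomial (Fin (N + 1)) ℂ} {d : ℕ} (hF : ∀ l, (F l).IsHomogeneous d) (c : ℂ) (x v : EN N) :
    fderiv ℂ (vec F) (c • x) (c • v) = c ^ d • fderiv ℂ (vec F) x v := by
  have h1 : HasFDerivAt (fun y : EN N => vec F (c • y)) ((fderiv ℂ (vec F) (c • x)).comp (c • ContinuousLinearMap.id ℂ (EN N))) x := by
    refine HasFDerivAt.comp x ((vec_diff F) (c • x)).hasFDerivAt ?_
    exact (hasFDerivAt_id x).const_smul c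
  have h2 : HasFDerivAt (fun y : EN N => vec F (c • y)) (c ^ d • fderiv ℂ (vec F) x) x := by
    have h3 : (fun y : EN N => vec F (c • y)) = fun y => c ^ d • vec F y := by
      funext y
      exact vec_smul hF c y
    rw [h3]
    exact ((vec_diff F) x).hasFDerivAt.const_smul (c ^ d)
  have h4 := congrArg (fun L : EN N →L[ℂ] EN M => L v) (h1.unique h2)
  simpa using h4

theorem ellE_smul {F : Fin (M + 1) → MvPolynomial (Fin (N + 1)) ℂ} {d : ℕ} (hF : ∀ l, (F l).IsHomogeneous d) {c : ℂ} (hc : c ≠ 0) (x v : EN N) :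
    ellE F d (c • x) (c • v) = ellE F d x v := by
  have key : ∀ {L : ℕ} (a : ℂ) (_ : a ≠ 0) (y w : EN L), inner ℂ (a • y) (a • w) / (‖a • y‖ : ℂ) ^ 2 = inner ℂ y w / (‖y‖ : ℂ) ^ 2 := by
    intro L a ha y w
    rw [inner_smul_left, inner_smul_right, norm_smul]
    have h1 : (‖a‖ : ℂ) ^ 2 ≠ 0 := pow_ne_zero 2 (by exact_mod_cast norm_ne_zero_iff.2 ha)
    have h2 : (starRingEnd ℂ) a * (a * inner ℂ y w) = (‖a‖ : ℂ) ^ 2 * inner ℂ y w := by
      rw [← mul_assoc, mul_comm ((starRingEnd ℂ) a) a, Rsd_cc]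
      push_cast
      ring
    rw [h2, Complex.ofReal_mul, mul_pow, mul_div_mul_left _ _ h1]
  unfold ellE
  rw [vec_smul hF, dvec_smul hF, key (c ^ d) (pow_ne_zero d hc), key c hc]

theorem lamE_smul {F : Fin (M + 1) → MvPolynomial (Fin (N + 1)) ℂ} {d : ℕ} (hF : ∀ l, (F l).IsHomogeneous d) {c : ℂ} (hc : c ≠ 0) {x : EN N}
    (hx : x ≠ 0) (hv : vec F x ≠ 0) : lamE F d (c • x) = lamE F d x := by
  unfold lamE
  rw [vec_smul hF, norm_smul, norm_smul, norm_pow, Real.log_mul (norm_ne_zero_iff.2 hc) (norm_ne_zero_iff.2 hx),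
    Real.log_mul (pow_ne_zero d (norm_ne_zero_iff.2 hc)) (norm_ne_zero_iff.2 hv), Real.log_pow]
  ring

private theorem Rsd_fs {x : EN N} (hx : x ≠ 0) (v : EN N) {c : ℂ} (hc : c ≠ 0) : fs (c • x) (c • v) = fs x v := by
  have h1 := fs_inv hx v hc 0
  rwa [zero_smul, add_zero] at h1

variable {P : Ideal (MvPolynomial (Fin (N + 1)) ℂ)} {H : MvPolynomial (Fin (N + 1)) ℂ} {h : ℕ} {E : Fin k → Fin (M + 1) → MvPolynomial (Fin (N + 1)) ℂ}
  {c b : Fin k → ℕ}

theorem logLen_smul (hE : ∀ i l, (E i l).IsHomogeneous (c i)) {a : ℂ} (ha : a ≠ 0) {x : EN N} (hx : x ≠ 0) (v : EN N) :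
    logLen E c (a • x) (a • v) = logLen E c x v := by
  unfold logLen
  rw [Rsd_fs hx v ha]
  refine congrArg _ (Finset.sum_congr rfl fun i _ => ?_)
  rw [ellE_smul (hE i) ha]

private theorem Rsd_tan {X : Set (EN N)} (hX : ∀ x ∈ X, ∀ c : ℂ, c ≠ 0 → c • x ∈ X) {x v : EN N} (hv : Tan X x v) {a : ℂ} (ha : a ≠ 0) :
    Tan X (a • x) (a • v) := by
  obtain ⟨F, ⟨h1, h2⟩, h3, h4⟩ := hv
  have h1' : AnalyticAt ℂ (a • F) 0 := h1.const_smul
  refine ⟨a • F, ⟨h1', ?_⟩, ?_, ?_⟩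
  · filter_upwards [h2] with z hz
    exact hX _ hz a ha
  · change a • F 0 = _
    rw [h3]
  · rw [← h4]
    exact (h1.differentiableAt.hasDerivAt.const_smul a).deriv

theorem mem_oc {x : EN N} : x ∈ oc P H ↔ x ∈ coneE P ∧ eval x.ofLp H ≠ 0 := by
  constructor
  · rintro ⟨h1, h2⟩
    exact ⟨h1, h2 0⟩
  · rintro ⟨h1, h2⟩
    exact ⟨h1, fun _ => h2⟩

private theorem Rsd_evc (Q : MvPolynomial (Fin (N + 1)) ℂ) : Continuous fun x : EN N => eval x.ofLp Q :=
  (MvPolynomial.continuous_eval Q).comp (PiLp.continuous_ofLp 2 _)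

theorem tan_oc {x v : EN N} (hx : x ∈ oc P H) (hv : Tan (coneE P) x v) : Tan (oc P H) x v := by
  obtain ⟨F, ⟨h1, h2⟩, h3, h4⟩ := hv
  refine ⟨F, ⟨h1, ?_⟩, h3, h4⟩
  have h5 : ContinuousAt (fun z => eval (F z).ofLp H) 0 := (Rsd_evc H).continuousAt.comp h1.continuousAt
  have h6 : eval (F 0).ofLp H ≠ 0 := by
    rw [h3]
    exact (mem_oc.1 hx).2
  filter_upwards [h2, h5.eventually_ne h6] with z hz hz'
  exact mem_oc.2 ⟨hz, hz'⟩

/-- At the point `x` the differentials are given by the residue polynomials `Pol` in the variables in `S`, up to the constant `C`. -/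
def RLoc (E : Fin k → Fin (M + 1) → MvPolynomial (Fin (N + 1)) ℂ) (c : Fin k → ℕ) {s : ℕ} {m : Fin s → ℕ} (θ : ∀ j, SymDiff (oc P H) (m j)) (C : ℝ)
    (S : Finset (Fin k)) (Pol : Fin s → MvPolynomial (Fin k) ℂ) (x : EN N) : Prop :=
  (∀ i, i ∉ S → lamE (E i) (c i) x ≤ C) ∧ ∀ j v, Tan (coneE P) x v →
    ‖(θ j).toFun x v - eval (fun i => ellE (E i) (c i) x v) (Pol j)‖ ≤ C * fs x v * logLen E c x v ^ (m j - 1)

private theorem Rsd_logLen_nonneg (x v : EN N) : 0 ≤ logLen E c x v :=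
  add_nonneg (Pool.Agent.H36.BP.fs_nonneg x v) (Finset.sum_nonneg fun _ _ => norm_nonneg _)

private theorem RLoc.mono {s : ℕ} {m : Fin s → ℕ} {θ : ∀ j, SymDiff (oc P H) (m j)} {C C' : ℝ} {S : Finset (Fin k)} {Pol : Fin s → MvPolynomial (Fin k) ℂ}
    {x : EN N} (hl : RLoc E c θ C S Pol x) (hC : C ≤ C') : RLoc E c θ C' S Pol x := by
  refine ⟨fun i hi => (hl.1 i hi).trans hC, fun j v hv => (hl.2 j v hv).trans ?_⟩
  exact mul_le_mul_of_nonneg_right (mul_le_mul_of_nonneg_right hC (Pool.Agent.H36.BP.fs_nonneg x v)) (pow_nonneg (Rsd_logLen_nonneg x v) _)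

private theorem RLoc.smul (hc : IsCone (coneE P)) (hE : ∀ i l, (E i l).IsHomogeneous (c i))
    (hne : ∀ i, ∀ x ∈ oc P H, vec (E i) x ≠ 0) {s : ℕ}
    {m : Fin s → ℕ} {θ : ∀ j, SymDiff (oc P H) (m j)} {C : ℝ} {S : Finset (Fin k)} {Pol : Fin s → MvPolynomial (Fin k) ℂ}
    {x : EN N} (hx : x ∈ oc P H) {a : ℂ} (ha : a ≠ 0) (hl : RLoc E c θ C S Pol (a • x)) : RLoc E c θ C S Pol x := by
  have hx0 : x ≠ 0 := by
    rintro rfl
    exact hc.zero_notMem (mem_oc.1 hx).1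
  refine ⟨fun i hi => ?_, fun j v hv => ?_⟩
  · rw [← lamE_smul (hE i) ha hx0 (hne i x hx)]
    exact hl.1 i hi
  · have h1 := hl.2 j (a • v) (Rsd_tan hc.smul_mem hv ha)
    rw [(θ j).scale x v (tan_oc hx hv) a ha, Rsd_fs hx0 v ha, logLen_smul hE ha hx0] at h1
    simp only [ellE_smul (hE _) ha] at h1
    exact h1

private theorem Rsd_oc_smul (hc : IsCone (coneE P)) (hH : H.IsHomogeneous h) {x : EN N} (hx : x ∈ oc P H) {a : ℂ} (ha : a ≠ 0) : a • x ∈ oc P H := by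
  refine mem_oc.2 ⟨hc.smul_mem x (mem_oc.1 hx).1 a ha, ?_⟩
  rw [Rsd_eval hH]
  exact mul_ne_zero (pow_ne_zero _ ha) (mem_oc.1 hx).2

private theorem Rsd_sphere (hc : IsCone (coneE P)) : IsCompact {x : EN N | x ∈ coneE P ∧ ‖x‖ = 1} := by
  have h1 : {x : EN N | x ∈ coneE P ∧ ‖x‖ = 1} = insert 0 (coneE P) ∩ sphere (0 : EN N) 1 := by
    ext x
    simp only [Set.mem_ofPred_eq, Set.mem_inter_iff, Set.mem_insert_iff, mem_sphere_zero_iff_norm]
    constructor
    · rintro ⟨h1, h2⟩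
      exact ⟨Or.inr h1, h2⟩
    · rintro ⟨h1 | h1, h2⟩
      · rw [h1, norm_zero] at h2
        exact absurd h2 zero_ne_one
      · exact ⟨h1, h2⟩
  rw [h1, Set.inter_comm]
  exact (isCompact_sphere _ _).inter_right hc.closed

/-- **The types.** -/
theorem exists_res_of_loc (hc : IsCone (coneE P)) (hH : H.IsHomogeneous h)
    (hE : ∀ i l, (E i l).IsHomogeneous (c i)) (hne : ∀ i, ∀ x ∈ oc P H, vec (E i) x ≠ 0)
    {s : ℕ} {m : Fin s → ℕ} (θ : ∀ j, SymDiff (oc P H) (m j))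
    (hloc : ∀ x₀ ∈ coneE P, ∃ (V : Set (EN N)) (C : ℝ) (S : Finset (Fin k)) (Pol : Fin s → MvPolynomial (Fin k) ℂ), IsOpen V ∧ x₀ ∈ V ∧ 0 ≤ C ∧
      S.card ≤ 2 ∧ (∀ j, (Pol j).IsHomogeneous (m j)) ∧
      (∀ j (y y' : Fin k → ℂ), (∀ i ∈ S, y i = y' i) → eval y (Pol j) = eval y' (Pol j)) ∧ ∀ x ∈ V, x ∈ oc P H → RLoc E c θ C S Pol x) :
    ∃ (n : ℕ) (supp : Fin n → Finset (Fin k)) (Pol : Fin n → Fin s → MvPolynomial (Fin k) ℂ) (ty : EN N → Fin n),
      (∀ t, (supp t).card ≤ 2) ∧ (∀ t j, (Pol t j).IsHomogeneous (m j)) ∧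
      (∀ t j (y y' : Fin k → ℂ), (∀ i ∈ supp t, y i = y' i) → eval y (Pol t j) = eval y' (Pol t j)) ∧
      (∃ C : ℝ, 0 ≤ C ∧ ∀ x ∈ oc P H, (∀ i, i ∉ supp (ty x) → lamE (E i) (c i) x ≤ C) ∧ ∀ j v, Tan (coneE P) x v →
        ‖(θ j).toFun x v - eval (fun i => ellE (E i) (c i) x v) (Pol (ty x) j)‖ ≤ C * fs x v * logLen E c x v ^ (m j - 1)) := by
  classical
  choose! V C S Pol hVo hxV hC0 hS hPh hPs hR using hloc
  have hx0 : ∀ x ∈ coneE P, x ≠ 0 := by
    rintro x hx rfl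
    exact hc.zero_notMem hx
  obtain ⟨S1, hS1⟩ : ∃ S1 : Set (EN N), S1 = {x : EN N | x ∈ coneE P ∧ ‖x‖ = 1} := ⟨_, rfl⟩
  have hS1c : IsCompact S1 := by
    rw [hS1]
    exact Rsd_sphere hc
  have hS1m : ∀ x ∈ S1, x ∈ coneE P := by
    rw [hS1]
    exact fun x hx => hx.1
  -- normalisation
  have hnorm : ∀ x ∈ coneE P, ((‖x‖⁻¹ : ℝ) : ℂ) ≠ 0 ∧ ((‖x‖⁻¹ : ℝ) : ℂ) • x ∈ S1 := by
    intro x hx
    have h1 : ‖x‖ ≠ 0 := norm_ne_zero_iff.2 (hx0 x hx)
    have h2 : ((‖x‖⁻¹ : ℝ) : ℂ) ≠ 0 := by exact_mod_cast inv_ne_zero h1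
    refine ⟨h2, ?_⟩
    rw [hS1]
    refine ⟨hc.smul_mem x hx _ h2, ?_⟩
    rw [norm_smul, Complex.norm_real, norm_inv, norm_norm, inv_mul_cancel₀ h1]
  obtain ⟨t, ht, hcov⟩ := hS1c.elim_nhds_subcover V fun x hx => (hVo x (hS1m x hx)).mem_nhds (hxV x (hS1m x hx))
  -- the finite type
  let T : Type := Option {z // z ∈ t}
  let eT : T ≃ Fin (Fintype.card T) := Fintype.equivFin T
  let suppT : T → Finset (Fin k) := fun q => q.elim ∅ fun z => S z.1
  let PolT : T → Fin s → MvPolynomial (Fin k) ℂ := fun q => q.elim (fun _ => 0) fun z => Pol z.1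
  let tyT : EN N → T := fun x => if hx : ∃ z ∈ t, ((‖x‖⁻¹ : ℝ) : ℂ) • x ∈ V z then some ⟨hx.choose, hx.choose_spec.1⟩ else none
  have hrF : ∀ z : {z // z ∈ t}, z.1 ∈ coneE P := fun z => hS1m _ (ht _ z.2)
  have htyx : ∀ x ∈ oc P H, ∃ z : {z // z ∈ t}, tyT x = some z ∧ RLoc E c θ (C z.1) (S z.1) (Pol z.1) x := by
    intro x hx
    obtain ⟨h1, h2⟩ := hnorm x (mem_oc.1 hx).1
    obtain ⟨z, hz, hxz⟩ := Set.mem_iUnion₂.1 (hcov h2)
    have h3 : ∃ z ∈ t, ((‖x‖⁻¹ : ℝ) : ℂ) • x ∈ V z := ⟨z, hz, hxz⟩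
    refine ⟨⟨h3.choose, h3.choose_spec.1⟩, dif_pos h3, ?_⟩
    exact RLoc.smul hc hE hne hx h1 (hR _ (hS1m _ (ht _ h3.choose_spec.1)) _ h3.choose_spec.2 (Rsd_oc_smul hc hH hx h1))
  refine ⟨Fintype.card T, fun q => suppT (eT.symm q), fun q => PolT (eT.symm q), fun x => eT (tyT x), ?_, ?_, ?_, ?_⟩
  · intro q
    rcases ht' : eT.symm q with _ | z
    · simp only [ht', suppT, Option.elim_none, Finset.card_empty, zero_le]
    · simp only [ht', suppT, Option.elim_some]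
      exact hS _ (hrF z)
  · intro q j
    rcases ht' : eT.symm q with _ | z
    · simp only [ht', PolT, Option.elim_none]
      exact isHomogeneous_zero _ _ _
    · simp only [ht', PolT, Option.elim_some]
      exact hPh _ (hrF z) j
  · intro q j y y' hy
    rcases ht' : eT.symm q with _ | z
    · simp only [ht', PolT, Option.elim_none, map_zero]
    · simp only [ht', PolT, Option.elim_some]
      refine hPs _ (hrF z) j y y' ?_
      simpa only [ht', suppT, Option.elim_some] using hy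
  · refine ⟨∑ z : {z // z ∈ t}, C z.1, Finset.sum_nonneg fun z _ => hC0 _ (hrF z), fun x hx => ?_⟩
    obtain ⟨z, h2, h3⟩ := htyx x hx
    have h4 : C z.1 ≤ ∑ z : {z // z ∈ t}, C z.1 :=
      Finset.single_le_sum (f := fun z : {z // z ∈ t} => C z.1) (fun z _ => hC0 _ (hrF z)) (Finset.mem_univ z)
    have h5 := h3.mono h4
    simp only [Equiv.symm_apply_apply, h2, suppT, PolT, Option.elim_some]
    exact h5

end Pool.Agent.SR3
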