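import Pool.Agent.SR3.HDefs

/-!
# SR3 HDefs2: the data of the function theory for a surface with normal crossings (helper41's definitions)
-/

set_option autoImplicit false

open Topology Filter Metric MvPolynomial

noncomputable section

namespace Pool.Agent.SR3

open Pool.Agent.H36.BP (EN fs)
open Pool.Agent.H17EF (projVar coneE)
open Pool.Agent.AD (SymDiff TangentTo)

variable {N k M : ℕ}

/-- The data of the function theory. -/
def geoOf (P : Ideal (MvPolynomial (Fin (N + 1)) ℂ)) (H : MvPolynomial (Fin (N + 1)) ℂ) (h : ℕ) (E : Fin k → Fin (M + 1) → MvPolynomial (Fin (N + 1)) ℂ)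
    (c b : Fin k → ℕ) {s : ℕ} {m : Fin s → ℕ} (θ : ∀ j, SymDiff (oc P H) (m j)) {n : ℕ} (supp : Fin n → Finset (Fin k))
    (Pol : Fin n → Fin s → MvPolynomial (Fin k) ℂ) (ty : EN N → Fin n) (mΩ jΩ : ℕ) {r : ℕ} (Ω : Fin r → EN N → EN N → EN N → ℂ) : Geo N where
  X := coneE P
  K := oc P H
  p := fun x => eval x.ofLp H
  h := h
  ι := Fin k
  fι := inferInstance
  M := M
  E := fun i => vec (E i)
  c := c
  b := b
  J := Fin s
  fJ := inferInstance
  m := m
  w := fun j => (θ j).toFun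
  Ty := Fin n
  fTy := inferInstance
  supp := supp
  Pol := Pol
  ty := ty
  A := Fin r
  fA := inferInstance
  mΩ := mΩ
  jΩ := jΩ
  Ω := Ω

/-- `log` of the inverse distance to the component -/
def lamE (E : Fin (M + 1) → MvPolynomial (Fin (N + 1)) ℂ) (c : ℕ) (x : EN N) : ℝ := c * Real.log ‖x‖ - Real.log ‖vec E x‖

/-- the equations of the first curve `T = Z ∪ D` -/
def eqT (H : MvPolynomial (Fin (N + 1)) ℂ) {t r : ℕ} (R : Fin t → MvPolynomial (Fin (N + 1)) ℂ) (Q : Fin r → MvPolynomial (Fin (N + 1)) ℂ)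
    (a : Fin t × Fin r) (x : EN N) : ℂ := eval x.ofLp (R a.1 * Q a.2 * H)

end Pool.Agent.SR3
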