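import Pool.Agent.SR3.Glo
import Pool.Agent.SR3.HDefs2

/-!
# SR3 Snc1 (module H2 (1), (2)): the logarithm of the equation of the boundary (helper92)
-/

set_option autoImplicit false

open Topology Filter Metric MvPolynomial

noncomputable section

namespace Pool.Agent.SR3

open Pool.Agent.H36.BP (EN fs)
open Pool.Agent.H17BP (Surface IsChart)
open Pool.Agent.H14.PP (IsCone Tan)
open Pool.Agent.H17EF (coneE)

variable {N k M : ℕ} {P : Ideal (MvPolynomial (Fin (N + 1)) ℂ)} {H : MvPolynomial (Fin (N + 1)) ℂ} {h : ℕ}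
  {E : Fin k → Fin (M + 1) → MvPolynomial (Fin (N + 1)) ℂ} {c b : Fin k → ℕ}

theorem snc_ne (hs : Snc P H E b) (i : Fin k) {x : EN N} (hx : x ∈ oc P H) : vec (E i) x ≠ 0 := by
  obtain ⟨σ, τ, s, e, u, hch, h0, hinj, he, hu, hu0, hH⟩ := hs.chart x hx.1
  obtain ⟨-, he0, hE⟩ := he i
  have h1 := hE.self_of_nhds
  have h2 := hH.self_of_nhds
  rw [h0] at h1 h2
  have h3 : eval x.ofLp H ≠ 0 := hx.2 0
  have h4 : co (s i) 0 ≠ 0 := by
    intro h5
    apply h3
    rw [h2, Finset.prod_eq_zero (Finset.mem_univ i), mul_zero]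
    rw [h5, zero_pow (Nat.one_le_iff_ne_zero.1 (hs.pos i))]
  rw [h1]
  exact smul_ne_zero h4 he0

private theorem Snc1_vec_smul {F : Fin (M + 1) → MvPolynomial (Fin (N + 1)) ℂ} {d : ℕ} (hF : ∀ l, (F l).IsHomogeneous d) (a : ℂ) (x : EN N) :
    vec F (a • x) = a ^ d • vec F x := by
  ext l
  exact Pool.Agent.H17.eval_smul_of_isHomogeneous (hF l) a x.ofLp

theorem snc_cmp (hX : Surface (coneE P)) (hc : IsCone (coneE P)) (hH : H.IsHomogeneous h) (hE : ∀ i l, (E i l).IsHomogeneous (c i))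
    (hs : Snc P H E b) :
    ∃ C : ℝ, ∀ x ∈ oc P H, |h * Real.log ‖x‖ - Real.log ‖eval x.ofLp H‖ - ∑ i, b i * lamE (E i) (c i) x| ≤ C := by
  have hKs : ∀ x ∈ oc P H, ∀ a : ℂ, a ≠ 0 → a • x ∈ oc P H := by
    rintro x ⟨h1, h2⟩ a ha
    refine ⟨hX.smul x h1 a ha, fun i => ?_⟩
    have h3 : eval (a • x).ofLp H = a ^ h * eval x.ofLp H := Pool.Agent.H17.eval_smul_of_isHomogeneous hH a x.ofLp
    rw [h3]
    exact mul_ne_zero (pow_ne_zero _ ha) (h2 i)
  suffices hb : ∃ C : ℝ, ∀ x ∈ oc P H, ∀ v, Tan (coneE P) x v →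
      |h * Real.log ‖x‖ - Real.log ‖eval x.ofLp H‖ - ∑ i, b i * lamE (E i) (c i) x| ≤ C by
    obtain ⟨C, hC⟩ := hb
    refine ⟨C, fun x hx => hC x hx 0 ?_⟩
    exact ⟨fun _ => x, ⟨analyticAt_const, Eventually.of_forall fun _ => hx.1⟩, rfl, deriv_const 0 x⟩
  refine global_bound (X := coneE P) (K := oc P H) hX hc (fun x hx => hx.1) hKs
    (Q := fun C x _ => |h * Real.log ‖x‖ - Real.log ‖eval x.ofLp H‖ - ∑ i, b i * lamE (E i) (c i) x| ≤ C)
    (fun C C' x v h1 h2 => h2.trans h1) ?_ ?_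
  · intro C x hx v _ a a' ha h1
    have hx0 : ‖x‖ ≠ 0 := norm_ne_zero_iff.2 fun h2 => hX.zero (h2 ▸ hx.1)
    have ha0 : ‖a‖ ≠ 0 := norm_ne_zero_iff.2 ha
    have hH0 : ‖eval x.ofLp H‖ ≠ 0 := norm_ne_zero_iff.2 (hx.2 0)
    have h3 : eval (a • x).ofLp H = a ^ h * eval x.ofLp H := Pool.Agent.H17.eval_smul_of_isHomogeneous hH a x.ofLp
    have h4 : ∀ i, lamE (E i) (c i) (a • x) = lamE (E i) (c i) x := by
      intro i
      have h5 : ‖vec (E i) x‖ ≠ 0 := norm_ne_zero_iff.2 (snc_ne hs i hx)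
      unfold lamE
      rw [Snc1_vec_smul (hE i), norm_smul, norm_smul, norm_pow, Real.log_mul ha0 hx0, Real.log_mul (pow_ne_zero _ ha0) h5, Real.log_pow]
      ring
    have h6 : (h : ℝ) * Real.log ‖a • x‖ - Real.log ‖eval (a • x).ofLp H‖ - ∑ i, b i * lamE (E i) (c i) (a • x) =
        h * Real.log ‖x‖ - Real.log ‖eval x.ofLp H‖ - ∑ i, b i * lamE (E i) (c i) x := by
      rw [h3, norm_smul, norm_mul, norm_pow, Real.log_mul ha0 hx0, Real.log_mul (pow_ne_zero _ ha0) hH0, Real.log_pow,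
        Finset.sum_congr rfl fun i _ => by rw [h4 i]]
      ring
    show |(h : ℝ) * Real.log ‖a • x‖ - Real.log ‖eval (a • x).ofLp H‖ - ∑ i, b i * lamE (E i) (c i) (a • x)| ≤ C
    rw [h6]
    exact h1
  · intro x hx
    obtain ⟨σ, τ, s, e, u, hch, h0, hinj, he, hu, hu0, hH⟩ := hs.chart x hx
    refine ⟨σ, τ, hch, h0, ?_⟩
    obtain ⟨g, hg⟩ : ∃ g : ℂ × ℂ → ℝ, g = fun y => h * Real.log ‖σ y‖ - Real.log ‖u y‖ - ∑ i, b i * (c i * Real.log ‖σ y‖ - Real.log ‖e i y‖) := ⟨_, rfl⟩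
    have hσc : ContinuousAt (fun y => Real.log ‖σ y‖) 0 := hch.σ_an.continuousAt.norm.log (norm_ne_zero_iff.2 hch.ne)
    have hgc : ContinuousAt g 0 := by
      rw [hg]
      refine ((continuousAt_const.mul hσc).sub (hu.continuousAt.norm.log (norm_ne_zero_iff.2 hu0))).sub ?_
      refine tendsto_finsetSum _ fun i _ => ?_
      exact continuousAt_const.mul ((continuousAt_const.mul hσc).sub ((he i).1.continuousAt.norm.log (norm_ne_zero_iff.2 (he i).2.1)))
    refine ⟨|g 0| + 1, ?_⟩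
    have h1 : ∀ᶠ y in 𝓝 (0 : ℂ × ℂ), |g y| < |g 0| + 1 := hgc.abs.eventually_lt_const (by linarith)
    have h2 : ∀ᶠ y in 𝓝 (0 : ℂ × ℂ), ∀ i, vec (E i) (σ y) = co (s i) y • e i y := by
      rw [eventually_all]
      exact fun i => (he i).2.2
    have h3 : ∀ᶠ y in 𝓝 (0 : ℂ × ℂ), ∀ i, e i y ≠ 0 := by
      rw [eventually_all]
      exact fun i => (he i).1.continuousAt.eventually_ne (he i).2.1
    filter_upwards [h1, h2, h3, hH, hu.continuousAt.eventually_ne hu0] with y h4 h5 h6 h7 h8 hyK v'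
    have h9 : ∀ i, co (s i) y ≠ 0 := by
      intro i h10
      apply snc_ne hs i hyK
      rw [h5 i, h10, zero_smul]
    have h11 : h * Real.log ‖σ y‖ - Real.log ‖eval (σ y).ofLp H‖ - ∑ i, b i * lamE (E i) (c i) (σ y) = g y := by
      have h12 : Real.log ‖eval (σ y).ofLp H‖ = Real.log ‖u y‖ + ∑ i, b i * Real.log ‖co (s i) y‖ := by
        rw [h7, norm_mul, norm_prod, Real.log_mul (norm_ne_zero_iff.2 h8)
          (Finset.prod_ne_zero_iff.2 fun i _ => norm_ne_zero_iff.2 (pow_ne_zero _ (h9 i))),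
          Real.log_prod fun i _ => norm_ne_zero_iff.2 (pow_ne_zero _ (h9 i))]
        congr 1
        exact Finset.sum_congr rfl fun i _ => by rw [norm_pow, Real.log_pow]
      have h13 : ∀ i, lamE (E i) (c i) (σ y) = c i * Real.log ‖σ y‖ - Real.log ‖e i y‖ - Real.log ‖co (s i) y‖ := by
        intro i
        unfold lamE
        rw [h5 i, norm_smul, Real.log_mul (norm_ne_zero_iff.2 (h9 i)) (norm_ne_zero_iff.2 (h6 i))]
        ring
      have h14 : ∑ i, (b i : ℝ) * lamE (E i) (c i) (σ y) =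
          ∑ i, (b i : ℝ) * (c i * Real.log ‖σ y‖ - Real.log ‖e i y‖) - ∑ i, (b i : ℝ) * Real.log ‖co (s i) y‖ := by
        rw [← Finset.sum_sub_distrib]
        refine Finset.sum_congr rfl fun i _ => ?_
        rw [h13 i]
        ring
      rw [hg, h12, h14]
      ring
    rw [h11]
    exact h4.le

end Pool.Agent.SR3
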