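import Pool.Agent.SR3.Fld1
import Pool.Agent.SR3.Rloc
import Pool.Agent.SR3.Snc1
import Pool.Agent.H90.SG.Poly
import Pool.Agent.H62.FC.CurveIdeal

/-!
# SR3 Fld3: the residues in a neighbourhood in the projective space

`res_loc` (SR3/Rloc), moved to a neighbourhood in the projective space by `pd_nhds`: all terms are invariant under `(x, v) ↦ (a x, a v)`.
-/

set_option autoImplicit false

open Topology Filter Metric MvPolynomial

noncomputable section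

namespace Pool.Agent.SR3

open Pool.Agent.H36.BP (EN fs wd fs_inv)
open Pool.Agent.H17BP (Surface IsChart)
open Pool.Agent.H14.PP (IsCone Tan)
open Pool.Agent.H62.FC (Homog)
open Pool.Agent.H17LG.Variety (FunField)
open Pool.Agent.H17EF (projVar coneE)
open Pool.Agent.AD (SymDiff TangentTo)
open Pool.Agent.AD.NC (IsSmooth)

variable {N k M : ℕ} {P : Ideal (MvPolynomial (Fin (N + 1)) ℂ)} {H : MvPolynomial (Fin (N + 1)) ℂ} {h : ℕ}
  {E : Fin k → Fin (M + 1) → MvPolynomial (Fin (N + 1)) ℂ} {c b : Fin k → ℕ}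

private theorem Fld3_fs {x : EN N} (hx : x ≠ 0) (v : EN N) {a : ℂ} (ha : a ≠ 0) : fs (a • x) (a • v) = fs x v := by
  have h1 := fs_inv hx v ha 0
  rwa [zero_smul, add_zero] at h1

private theorem Fld3_tan {X : Set (EN N)} (hX : ∀ x ∈ X, ∀ c : ℂ, c ≠ 0 → c • x ∈ X) {x v : EN N} (hv : Tan X x v) {a : ℂ} (ha : a ≠ 0) :
    Tan X (a • x) (a • v) := by
  obtain ⟨F, ⟨h1, h2⟩, h3, h4⟩ := hv
  have h1' : AnalyticAt ℂ (a • F) 0 := h1.const_smul
  refine ⟨a • F, ⟨h1', ?_⟩, ?_, ?_⟩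
  · filter_upwards [h2] with z hz
    exact hX _ hz a ha
  · change a • F 0 = _
    rw [h3]
  · rw [← h4]
    exact (h1.differentiableAt.hasDerivAt.const_smul a).deriv

private theorem Fld3_eval {Q : MvPolynomial (Fin (N + 1)) ℂ} {d : ℕ} (hQ : Q.IsHomogeneous d) (c : ℂ) (x : EN N) :
    eval (c • x).ofLp Q = c ^ d * eval x.ofLp Q := by
  have h1 := congrFun (congrArg WithLp.ofLp (vec_smul (F := fun _ : Fin (0 + 1) => Q) (fun _ => hQ) c x)) 0
  simpa [vec] using h1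

private theorem Fld3_oc_smul (hc : IsCone (coneE P)) (hH : H.IsHomogeneous h) {x : EN N} (hx : x ∈ oc P H) {a : ℂ} (ha : a ≠ 0) : a • x ∈ oc P H := by
  refine mem_oc.2 ⟨hc.smul_mem x (mem_oc.1 hx).1 a ha, ?_⟩
  rw [Fld3_eval hH]
  exact mul_ne_zero (pow_ne_zero _ ha) (mem_oc.1 hx).2

theorem snc_resL [P.IsPrime] {z : Fin 2 → FunField P} (hP : Homog P) (hz : IsTranscendenceBasis ℂ z) (hsm : IsSmooth P 2)
    (hH : H.IsHomogeneous h) (h1 : 1 ≤ h) (hE : ∀ i l, (E i l).IsHomogeneous (c i)) (hs : Snc P H E b)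
    {s : ℕ} {m : Fin s → ℕ} (hm : ∀ j, 1 ≤ m j) (θ : ∀ j, SymDiff (oc P H) (m j)) (hθ : ∀ j, HasLogPoles E c (θ j)) :
    ∀ y ∈ coneE P, ∃ (Q : Fin s → MvPolynomial (Fin k) ℂ) (r C : ℝ), 0 < r ∧ 0 ≤ C ∧ (∀ j, (Q j).IsHomogeneous (m j)) ∧
      (∀ j (u u' : Fin k → ℂ), (∀ i, vec (E i) y = 0 → u i = u' i) → eval u (Q j) = eval u' (Q j)) ∧
      ∀ x ∈ oc P H, pd x y < r → ∀ j v, Tan (coneE P) x v →
        ‖(θ j).toFun x v - eval (fun i => ellE (E i) (c i) x v) (Q j)‖ ≤ C * fs x v * logLen E c x v ^ (m j - 1) := by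
  have _ := h1
  have hX : Surface (coneE P) := Pool.Agent.H90.SG.surface_coneE hP hz hsm
  have hc : IsCone (coneE P) := Pool.Agent.AD.isCone_coneE hP
  have hx0 : ∀ x ∈ coneE P, x ≠ 0 := by
    rintro x hx rfl
    exact hc.zero_notMem hx
  intro y hy
  obtain ⟨S, Pol, C, hS, -, hPh, hPs, hC, hx⟩ := res_loc hX hc hH hE hs hm θ hθ hy
  obtain ⟨r, hr, hpd⟩ := pd_nhds (hx0 y hy) hx
  refine ⟨Pol, r, C, hr, hC, hPh, fun j u u' hu => hPs j u u' fun i hi => hu i ((hS i).1 hi), fun x hxo hxr j v hv => ?_⟩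
  have hxn : x ≠ 0 := hx0 x (mem_oc.1 hxo).1
  obtain ⟨a, ha, hax⟩ := hpd x hxn hxr
  have h2 := (hax (Fld3_oc_smul hc hH hxo ha)).2 j (a • v) (Fld3_tan hc.smul_mem hv ha)
  rw [(θ j).scale x v (tan_oc hxo hv) a ha, Fld3_fs hxn v ha, logLen_smul hE ha hxn] at h2
  simp only [ellE_smul (hE _) ha] at h2
  exact h2

end Pool.Agent.SR3
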