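import Mathlib

/-!
# SR3 Grd: choice of the holes

`greedy`: a minimal finite subcover; `hofer`: Hofer's lemma for a finite set.
-/

set_option autoImplicit false

open Topology Filter Metric

noncomputable section

namespace Pool.Agent.SR3

theorem greedy {W : Set ℂ} (hW : IsCompact W) {s : ℂ → ℝ} {K : ℝ} (hK : 2 ≤ K) (hs : ∀ z ∈ W, 0 < s z)
    (ha : ∀ z ∈ W, ∀ z' ∈ W, ‖z' - z‖ < s z / 2 ∨ K * s z < ‖z' - z‖) :
    ∃ t : Finset ℂ, (∀ z ∈ t, z ∈ W) ∧ (∀ z ∈ t, ∀ z' ∈ t, z ≠ z' → K * max (s z) (s z') < ‖z - z'‖) ∧ ∀ z ∈ W, ∃ z' ∈ t, ‖z - z'‖ < s z' / 2 := by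
  classical
  obtain ⟨P, hP⟩ : ∃ P : Finset ℂ → Prop, P = fun t => (∀ z ∈ t, z ∈ W) ∧ ∀ z ∈ W, ∃ z' ∈ t, ‖z - z'‖ < s z' / 2 := ⟨_, rfl⟩
  have hex : ∃ t, P t := by
    obtain ⟨t, ht, hcov⟩ := hW.elim_nhds_subcover (fun z => ball z (s z / 2)) fun z hz => ball_mem_nhds z (half_pos (hs z hz))
    refine ⟨t, ?_⟩
    rw [hP]
    refine ⟨ht, fun z hz => ?_⟩
    obtain ⟨z', hz', hzz⟩ := Set.mem_iUnion₂.1 (hcov hz)
    exact ⟨z', hz', by rwa [mem_ball, dist_eq_norm] at hzz⟩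
  obtain ⟨t, ht⟩ := exists_minimal_of_wellFoundedLT P hex
  have htP : P t := ht.prop
  rw [hP] at htP
  obtain ⟨h1, h2⟩ := htP
  -- two points of `t`, the first one with the larger radius
  have key : ∀ z ∈ t, ∀ z' ∈ t, z ≠ z' → s z' ≤ s z → K * s z < ‖z' - z‖ := by
    intro z hz z' hz' hne hle
    rcases ha z (h1 z hz) z' (h1 z' hz') with h | h
    · exfalso
      have hPe : P (t.erase z') := by
        rw [hP]
        refine ⟨fun w hw => h1 w (Finset.mem_of_mem_erase hw), fun w hw => ?_⟩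
        obtain ⟨v, hv, hwv⟩ := h2 w hw
        by_cases hvz : v = z'
        · subst hvz
          refine ⟨z, Finset.mem_erase.2 ⟨hne, hz⟩, ?_⟩
          rcases ha z (h1 z hz) w hw with h' | h'
          · exact h'
          · exfalso
            have h3 : ‖w - z‖ ≤ ‖w - v‖ + ‖v - z‖ := by
              have := norm_add_le (w - v) (v - z)
              rwa [sub_add_sub_cancel] at this
            have h4 := hs z (h1 z hz)
            nlinarith
        · exact ⟨v, Finset.mem_erase.2 ⟨hvz, hv⟩, hwv⟩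
      have h3 := ht.le_of_le hPe (Finset.erase_subset _ _)
      exact Finset.notMem_erase z' t (h3 hz')
    · exact h
  refine ⟨t, h1, fun z hz z' hz' hne => ?_, h2⟩
  rcases le_total (s z') (s z) with h | h
  · rw [max_eq_left h, norm_sub_rev]
    exact key z hz z' hz' hne h
  · rw [max_eq_right h]
    exact key z' hz' z hz (Ne.symm hne) h

/-- Hofer's lemma for a finite set -/
theorem hofer {t : Finset ℂ} {ρ : ℂ → ℝ} (hρ : ∀ a ∈ t, 0 < ρ a) {A : ℝ} (hA : 0 < A) {a : ℂ} (ha : a ∈ t) :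
    ∃ b ∈ t, ‖b - a‖ ≤ 2 * A * ρ a ∧ ρ b ≤ ρ a ∧ ∀ c ∈ t, ‖c - b‖ ≤ A * ρ b → ρ b / 2 ≤ ρ c := by
  classical
  obtain ⟨n, hn⟩ : ∃ n : ℕ, n = (t.filter fun x => ρ x < ρ a).card := ⟨_, rfl⟩
  induction n using Nat.strong_induction_on generalizing a with
  | _ n ih =>
    by_cases h : ∀ c ∈ t, ‖c - a‖ ≤ A * ρ a → ρ a / 2 ≤ ρ c
    · refine ⟨a, ha, ?_, le_rfl, h⟩
      rw [sub_self, norm_zero]
      have := hρ a ha
      positivity
    · push Not at h
      obtain ⟨c, hc, hca, hρc⟩ := h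
      have hac : ρ c < ρ a := by
        have := hρ a ha
        linarith
      have hlt : (t.filter fun x => ρ x < ρ c).card < n := by
        rw [hn]
        refine Finset.card_lt_card ?_
        rw [Finset.ssubset_iff_of_subset]
        · refine ⟨c, Finset.mem_filter.2 ⟨hc, hac⟩, fun h1 => ?_⟩
          exact lt_irrefl _ (Finset.mem_filter.1 h1).2
        · intro x hx
          rw [Finset.mem_filter] at hx ⊢
          exact ⟨hx.1, hx.2.trans hac⟩
      obtain ⟨b, hb, h1, h2, h3⟩ := ih _ hlt hc rfl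
      refine ⟨b, hb, ?_, h2.trans hac.le, h3⟩
      have h4 : ‖b - a‖ ≤ ‖b - c‖ + ‖c - a‖ := by
        have := norm_add_le (b - c) (c - a)
        rwa [sub_add_sub_cancel] at this
      nlinarith

end Pool.Agent.SR3
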