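import Pool.Agent.SR3.Defs
import Pool.Agent.SDA.RDefs
import Pool.Agent.H17EF.Bridge

/-!
# SR HDefs: the definitions of the final statement

`P` is the ideal of a smooth surface `X ⊆ ℙ^N`, `H` a form, `U = X ∖ {H = 0}`; the forms `E i l`, `l ≤ M`, cut out the component `i` of `{H = 0}`.
-/

set_option autoImplicit false

open Topology Filter Metric MvPolynomial

noncomputable section

namespace Pool.Agent.SR3

open Pool.Agent.H36.BP (EN fs)
open Pool.Agent.H17BP (IsChart IsForm NoZeros)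
open Pool.Agent.H36.BPL (PoleLE)
open Pool.Agent.H14.PP (Tan)
open Pool.Agent.H17 (PN VanishesAt HolomorphicInto)
open Pool.Agent.H13.OT (OrderTwo)
open Pool.Agent.H17EF (projVar coneE)
open Pool.Agent.AD (SymDiff TangentTo)
open Pool.Agent.SDA (openCone)

variable {N k M : ℕ}

/-- the vector of the values of forms -/
def vec (E : Fin (M + 1) → MvPolynomial (Fin (N + 1)) ℂ) (x : EN N) : EN M := WithLp.toLp 2 fun l => eval x.ofLp (E l)

/-- the constant `1` and the two coordinates of `ℂ²` -/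
def co : Option Bool → ℂ × ℂ → ℂ
  | none, _ => 1
  | some false, p => p.1
  | some true, p => p.2

/-- The curve `{H = 0}` in the surface of `P` has simple normal crossings, with the components `{E i l = 0 for all l}`, and `H` has a zero of order
`b i` along the component `i`: near every point there are coordinates such that `E i` is `1` or one of the two coordinates, times a vector valued function
without zeros, and `H` is the product of the corresponding powers, times a function without zeros; different components have different coordinates. -/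
structure Snc (P : Ideal (MvPolynomial (Fin (N + 1)) ℂ)) (H : MvPolynomial (Fin (N + 1)) ℂ)
    (E : Fin k → Fin (M + 1) → MvPolynomial (Fin (N + 1)) ℂ) (b : Fin k → ℕ) : Prop where
  pos : ∀ i, 1 ≤ b i
  chart : ∀ x ∈ coneE P, ∃ (σ : ℂ × ℂ → EN N) (τ : EN N → ℂ × ℂ) (s : Fin k → Option Bool) (e : Fin k → ℂ × ℂ → EN M) (u : ℂ × ℂ → ℂ),
    IsChart (coneE P) σ τ ∧ σ 0 = x ∧ (∀ i i', s i ≠ none → s i = s i' → i = i') ∧
    (∀ i, AnalyticAt ℂ (e i) 0 ∧ e i 0 ≠ 0 ∧ ∀ᶠ y in 𝓝 (0 : ℂ × ℂ), vec (E i) (σ y) = co (s i) y • e i y) ∧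
    AnalyticAt ℂ u 0 ∧ u 0 ≠ 0 ∧ ∀ᶠ y in 𝓝 (0 : ℂ × ℂ), eval (σ y).ofLp H = u y * ∏ i, co (s i) y ^ b i

/-- the cone over `U` -/
def oc (P : Ideal (MvPolynomial (Fin (N + 1)) ℂ)) (H : MvPolynomial (Fin (N + 1)) ℂ) : Set (EN N) := openCone P fun _ : Fin 1 => H

/-- `d (log |x| ^ c - log |E|)`, up to the sign -/
def ellE (E : Fin (M + 1) → MvPolynomial (Fin (N + 1)) ℂ) (c : ℕ) (x v : EN N) : ℂ :=
  inner ℂ (vec E x) (fderiv ℂ (vec E) x v) / (‖vec E x‖ : ℂ) ^ 2 - (c : ℂ) * (inner ℂ x v / (‖x‖ : ℂ) ^ 2)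

/-- the logarithmic length -/
def logLen (E : Fin k → Fin (M + 1) → MvPolynomial (Fin (N + 1)) ℂ) (c : Fin k → ℕ) (x v : EN N) : ℝ := fs x v + ∑ i, ‖ellE (E i) (c i) x v‖

/-- The symmetric differential on `U` has at most logarithmic poles. -/
def HasLogPoles {P : Ideal (MvPolynomial (Fin (N + 1)) ℂ)} {H : MvPolynomial (Fin (N + 1)) ℂ}
    (E : Fin k → Fin (M + 1) → MvPolynomial (Fin (N + 1)) ℂ) (c : Fin k → ℕ) {m : ℕ} (θ : SymDiff (oc P H) m) : Prop :=
  ∃ C : ℝ, 0 ≤ C ∧ ∀ x ∈ oc P H, ∀ v, Tan (oc P H) x v → ‖θ.toFun x v‖ ≤ C * logLen E c x v ^ m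

/-- The symmetric differential on `U` is given by a polynomial in the coordinates and their differentials, divided by a power of `H`. -/
def IsAlg {P : Ideal (MvPolynomial (Fin (N + 1)) ℂ)} {H : MvPolynomial (Fin (N + 1)) ℂ} {m : ℕ} (θ : SymDiff (oc P H) m) : Prop :=
  ∃ (W : MvPolynomial (Fin (N + 1) ⊕ Fin (N + 1)) ℂ) (r : ℕ), ∀ x ∈ oc P H, ∀ v, Tan (oc P H) x v →
    θ.toFun x v * eval x.ofLp H ^ r = eval (Sum.elim x.ofLp v.ofLp) W

/-- Sections `Ω a` of `m K_X + (m - 1) D - j H`, `D = {H = 0}`, such that the zeros of `Ω a` in `U` lie in `{Q a = 0}` and the `Q a` have no common zeros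
in `U`. -/
structure LogAmple (P : Ideal (MvPolynomial (Fin (N + 1)) ℂ)) (H : MvPolynomial (Fin (N + 1)) ℂ) (m j : ℕ) {r : ℕ}
    (Ω : Fin r → EN N → EN N → EN N → ℂ) (Q : Fin r → MvPolynomial (Fin (N + 1)) ℂ) : Prop where
  one_m : 1 ≤ m
  one_j : 1 ≤ j
  form : ∀ a, IsForm (oc P H) m j (Ω a)
  pole : ∀ a, PoleLE (coneE P) (oc P H) (m - 1) (Ω a)
  hom : ∃ D, ∀ a, (Q a).IsHomogeneous D
  noZeros : ∀ a, NoZeros (oc P H) {x | eval x.ofLp (Q a) = 0} (Ω a)
  cover : ∀ x ∈ oc P H, ∃ a, eval x.ofLp (Q a) ≠ 0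

/-- The curve `{R l = 0 for all l}` contains the nonconstant entire curves of order two in `U` which are tangent to the `θ j`, and the `θ j` vanish on its
tangent vectors, with finitely many exceptions. -/
structure NullCurve {P : Ideal (MvPolynomial (Fin (N + 1)) ℂ)} {H : MvPolynomial (Fin (N + 1)) ℂ} {s : ℕ} {m : Fin s → ℕ}
    (θ : ∀ j, SymDiff (oc P H) (m j)) {t : ℕ} (R : Fin t → MvPolynomial (Fin (N + 1)) ℂ) : Prop where
  hom : ∃ D, ∀ l, (R l).IsHomogeneous D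
  ne : ∃ l, R l ∉ P
  null : ∀ f : ℂ → PN N, HolomorphicInto f Set.univ → OrderTwo f → (∀ z, f z ∈ projVar P ∧ ¬ VanishesAt H (f z)) → (∃ z w, f z ≠ f w) →
    (∀ j, TangentTo (θ j) f) → ∀ l z, VanishesAt (R l) (f z)
  tan : ∃ S : Finset (PN N), ∀ x ∈ oc P H, ∀ hx : x.ofLp ≠ 0, Projectivization.mk ℂ x.ofLp hx ∉ S → (∀ l, eval x.ofLp (R l) = 0) →
    ∀ v, Tan (oc P H) x v → (∀ l, fderiv ℂ (fun y : EN N => eval y.ofLp (R l)) x v = 0) → ∀ j, (θ j).toFun x v = 0

/-- Every entire curve in a component of the boundary which does not meet the others is constant. -/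
def NoBdyCurve (P : Ideal (MvPolynomial (Fin (N + 1)) ℂ)) (E : Fin k → Fin (M + 1) → MvPolynomial (Fin (N + 1)) ℂ) : Prop :=
  ∀ (i : Fin k) (f : ℂ → PN N), HolomorphicInto f Set.univ → (∀ z, f z ∈ projVar P ∧ ∀ l, VanishesAt (E i l) (f z)) →
    (∀ i', i' ≠ i → ∀ z, ∃ l, ¬ VanishesAt (E i' l) (f z)) → ∀ z w, f z = f w

/-- `U` contains no affine line: a polynomial map from `ℂ` to `{H = 1}` is constant. -/
def NoLine (P : Ideal (MvPolynomial (Fin (N + 1)) ℂ)) (H : MvPolynomial (Fin (N + 1)) ℂ) : Prop :=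
  ∀ F : Fin (N + 1) → Polynomial ℂ, (∀ z : ℂ, (∀ Q ∈ P, eval (fun l => (F l).eval z) Q = 0) ∧ eval (fun l => (F l).eval z) H = 1) →
    ∀ l, (F l).natDegree = 0

end Pool.Agent.SR3
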