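import Mathlib

/-!
# SDR2, block D: half planes

`S ≥ 0` continuous on `ℂ`.  A component of `{S > 0}` on whose boundary an affine function vanishes is a half plane; if all components are half planes
and `{S = 0}` is nonempty without interior, then `{S = 0}` is a line.
-/

set_option autoImplicit false

open Topology Filter Complex

noncomputable section

namespace Pool.Agent.SR3

/-- the open half plane `{w | 0 < re (a w) + b}` -/
def HP (a : ℂ) (b : ℝ) : Set ℂ := {w | 0 < (a * w).re + b}

lemma HP_convex (a : ℂ) (b : ℝ) : Convex ℝ (HP a b) := by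
  intro x hx y hy s t hs ht hst
  simp only [HP, Set.mem_ofPred_eq] at hx hy ⊢
  have h1 : (a * (s • x + t • y)).re + b = s * ((a * x).re + b) + t * ((a * y).re + b) := by
    simp only [Complex.real_smul, mul_add, Complex.add_re]
    have e1 : (a * (↑s * x)).re = s * (a * x).re := by
      rw [show a * (↑s * x) = ↑s * (a * x) by ring, Complex.re_ofReal_mul]
    have e2 : (a * (↑t * y)).re = t * (a * y).re := by
      rw [show a * (↑t * y) = ↑t * (a * y) by ring, Complex.re_ofReal_mul]
    rw [e1, e2]
    linear_combination -(b * hst) 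
  rw [h1]
  rcases hs.eq_or_lt with h | h
  · have : t = 1 := by linarith
    subst this; subst h; simpa using hy
  · have := mul_pos h hx
    have := mul_nonneg ht hy.le
    linarith

lemma HP_open (a : ℂ) (b : ℝ) : IsOpen (HP a b) := by
  apply isOpen_lt continuous_const
  fun_prop

variable {S : ℂ → ℝ}

/-- the component of `{S > 0}` -/
def Comp (S : ℂ → ℝ) (z : ℂ) : Set ℂ := connectedComponentIn {w | 0 < S w} z

lemma Comp_open (hS : Continuous S) (z : ℂ) : IsOpen (Comp S z) := (isOpen_lt continuous_const hS).connectedComponentIn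

lemma Comp_preconnected (z : ℂ) : IsPreconnected (Comp S z) := isPreconnected_connectedComponentIn

lemma mem_Comp {z : ℂ} (h : 0 < S z) : z ∈ Comp S z := mem_connectedComponentIn h

lemma Comp_pos {z w : ℂ} (h : w ∈ Comp S z) : 0 < S w := connectedComponentIn_subset {w | 0 < S w} z h

/-- on the boundary of a component `S = 0` -/
lemma eq_zero_of_mem_closure (hS : Continuous S) (h0 : ∀ z, 0 ≤ S z) {z w : ℂ} (h1 : w ∈ closure (Comp S z)) (h2 : w ∉ Comp S z) : S w = 0 := by
  by_contra hne
  have hw : 0 < S w := lt_of_le_of_ne (h0 w) (Ne.symm hne)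
  have hop : IsOpen (Comp S w) := Comp_open hS w
  obtain ⟨y, hy1, hy2⟩ := mem_closure_iff.1 h1 (Comp S w) hop (mem_Comp hw)
  have e1 : Comp S z = Comp S y := connectedComponentIn_eq hy2
  have e2 : Comp S w = Comp S y := connectedComponentIn_eq hy1
  exact h2 (by rw [e1, ← e2]; exact mem_Comp hw)

/-- **A component on which an affine function is positive, and on whose boundary it vanishes, is a half plane.** -/
theorem Comp_eq_HP (hS : Continuous S) (h0 : ∀ z, 0 ≤ S z) {z : ℂ} (hz : 0 < S z) {U : ℂ → ℝ} (hU : Continuous U) (hU0 : ∀ w, S w = 0 → U w = 0) {a : ℂ} {b : ℝ}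
    (hUp : ∀ w ∈ Comp S z, 0 < U w) (he : ∀ w ∈ Comp S z, U w = (a * w).re + b) : Comp S z = HP a b := by
  have hsub : Comp S z ⊆ HP a b := fun w hw => by
    simp only [HP, Set.mem_ofPred_eq]
    rw [← he w hw]
    exact hUp w hw
  refine Set.Subset.antisymm hsub ?_
  have hcl : ∀ w ∈ closure (Comp S z), U w = (a * w).re + b := by
    intro w hw
    have hc : IsClosed {w : ℂ | U w = (a * w).re + b} := isClosed_eq hU (by fun_prop)
    exact closure_minimal (fun w hw => he w hw) hc hw
  have hpre : IsPreconnected (HP a b) := (HP_convex a b).isPreconnected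
  refine IsPreconnected.subset_left_of_subset_union (v := (closure (Comp S z))ᶜ) (Comp_open hS z) isClosed_closure.isOpen_compl ?_ ?_ ?_ hpre
  · exact Set.disjoint_left.2 fun w hw hw' => hw' (subset_closure hw)
  · intro w hw
    by_cases h1 : w ∈ Comp S z
    · exact Or.inl h1
    · right
      intro h2
      have h3 := eq_zero_of_mem_closure hS h0 h2 h1
      have h4 := hcl w h2
      rw [hU0 w h3] at h4
      simp only [HP, Set.mem_ofPred_eq] at hw
      linarith
  · exact ⟨z, hsub (mem_Comp hz), mem_Comp hz⟩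

/-- A half plane `{re (c w) + d > 0}` inside the complement of `{re (a w) + b > 0}` is parallel to it. -/
lemma parallel {a c : ℂ} {b d : ℝ} (ha : a ≠ 0) (hc : c ≠ 0) (hdis : ∀ w, w ∈ HP c d → w ∉ HP a b) : ∃ t : ℝ, 0 < t ∧ c = -(t • a) ∧ d ≤ -(t * b) := by
  -- directions `v` with `re (c v) > 0` have `re (a v) ≤ 0`
  have key : ∀ v : ℂ, 0 < (c * v).re → (a * v).re ≤ 0 := by
    intro v hv
    by_contra hcon
    push Not at hcon
    -- large multiple
    obtain ⟨n, hn⟩ := exists_nat_gt (max (-d / (c * v).re) (-b / (a * v).re))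
    have h1 : -d / (c * v).re < n := lt_of_le_of_lt (le_max_left _ _) hn
    have h2 : -b / (a * v).re < n := lt_of_le_of_lt (le_max_right _ _) hn
    rw [div_lt_iff₀ hv] at h1
    rw [div_lt_iff₀ hcon] at h2
    refine hdis ((n : ℝ) • v) ?_ ?_
    · simp only [HP, Set.mem_ofPred_eq, Complex.real_smul]
      rw [show c * (((n : ℝ) : ℂ) * v) = ((n : ℝ) : ℂ) * (c * v) by ring, Complex.re_ofReal_mul]
      linarith
    · simp only [HP, Set.mem_ofPred_eq, Complex.real_smul]
      rw [show a * (((n : ℝ) : ℂ) * v) = ((n : ℝ) : ℂ) * (a * v) by ring, Complex.re_ofReal_mul]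
      linarith
  -- `a / c` is a real number
  have hq : ∀ v : ℂ, 0 < v.re → (a / c * v).re ≤ 0 := by
    intro v hv
    have := key (v / c) (by rwa [mul_div_cancel₀ _ hc])
    rwa [show a * (v / c) = a / c * v by ring] at this
  set q := a / c with hqdef
  have hq0 : q ≠ 0 := div_ne_zero ha hc
  have him : q.im = 0 := by
    by_contra him
    -- `v = 1 + i s` with `re (q v) = q.re - q.im s`
    have := hq ⟨1, (q.re - 1) / q.im⟩ (by simp)
    simp only [Complex.mul_re, mul_one] at this
    rw [mul_div_cancel₀ _ him] at this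
    linarith
  have hre : q.re ≤ 0 := by
    have := hq 1 (by simp)
    simpa using this
  have hre' : q.re < 0 := by
    refine lt_of_le_of_ne hre fun h => hq0 ?_
    exact Complex.ext h him
  have hqr : q = (q.re : ℂ) := Complex.ext (by simp) (by simp [him])
  refine ⟨-(q.re)⁻¹, by rw [neg_pos]; exact inv_lt_zero.2 hre', ?_, ?_⟩
  · have h1 : a = q * c := by rw [hqdef]; field_simp
    rw [h1, Complex.real_smul, hqr]
    push_cast
    have h2 : ((q.re : ℝ) : ℂ) ≠ 0 := by
      intro h; rw [Complex.ofReal_eq_zero] at h; linarith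
    simp only [Complex.ofReal_re]
    field_simp
  · -- the boundary line of the second is not inside the first
    have h1 : a = (q.re : ℂ) * c := by rw [← hqr, hqdef]; field_simp
    by_contra hcon
    push Not at hcon
    -- a point with `re (c w) = -d + ε`
    have hpos : 0 < d + -(q.re)⁻¹ * b := by linarith
    set s : ℝ := -(d + -(q.re)⁻¹ * b) / 2 + -(q.re)⁻¹ * b with hs
    -- want `re (c w) = s`, `s + d > 0`, `q.re * s + b > 0`
    have hw : (c * ((s : ℂ) / c)).re = s := by rw [mul_div_cancel₀ _ hc]; simp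
    refine hdis ((s : ℂ) / c) ?_ ?_
    · simp only [HP, Set.mem_ofPred_eq]
      rw [hw]
      linarith
    · simp only [HP, Set.mem_ofPred_eq]
      rw [h1, mul_assoc, Complex.re_ofReal_mul, hw]
      have h3 : q.re * s + b = -q.re * ((d + -(q.re)⁻¹ * b) / 2) := by
        have hr0 : q.re ≠ 0 := hre'.ne
        rw [hs]; field_simp; ring
      rw [h3]
      have := mul_pos (neg_pos.2 hre') (half_pos hpos)
      linarith

/-- **If all components of `{S > 0}` are half planes and `{S = 0}` is nonempty without interior, then `{S = 0}` is a line.** -/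
theorem line_of_half_planes (hS : Continuous S) (h0 : ∀ z, 0 ≤ S z) (hne : ∃ z, S z = 0) (hint : ∀ z r, 0 < r → ∃ w, dist w z < r ∧ 0 < S w)
    (hcomp : ∀ z, 0 < S z → ∃ (a : ℂ) (b : ℝ), a ≠ 0 ∧ Comp S z = HP a b) :
    ∃ (u : ℂ) (b : ℝ), ‖u‖ = 1 ∧ ∀ z, S z = 0 ↔ (u * z).re + b = 0 := by
  obtain ⟨z0, hz0⟩ := hne
  obtain ⟨z1, -, hz1⟩ := hint 0 1 one_pos
  obtain ⟨a, b, ha, hab⟩ := hcomp z1 hz1
  -- a point of the open complement of the closed half plane
  have hz2 : ∃ z2, (a * z2).re + b < 0 ∧ 0 < S z2 := by
    set p : ℂ := ((-b - 1 : ℝ) : ℂ) / a with hp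
    have h1 : (a * p).re + b = -1 := by
      rw [hp, mul_div_cancel₀ _ ha, Complex.ofReal_re]; ring
    have hop : IsOpen {w : ℂ | (a * w).re + b < 0} := isOpen_lt (by fun_prop) continuous_const
    obtain ⟨r, hr, hball⟩ := Metric.isOpen_iff.1 hop p (by show (a * p).re + b < 0; rw [h1]; norm_num)
    obtain ⟨w, hw1, hw2⟩ := hint p r hr
    exact ⟨w, hball hw1, hw2⟩
  obtain ⟨z2, hz2, hz2p⟩ := hz2
  obtain ⟨c, d, hc, hcd⟩ := hcomp z2 hz2p
  have hnot : z2 ∉ HP a b := by simp only [HP, Set.mem_ofPred_eq]; linarith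
  have hdis : ∀ w, w ∈ HP c d → w ∉ HP a b := by
    intro w hw hw'
    rw [← hcd] at hw
    rw [← hab] at hw' hnot
    have e1 : Comp S z2 = Comp S w := connectedComponentIn_eq hw
    have e2 : Comp S z1 = Comp S w := connectedComponentIn_eq hw'
    exact hnot (by rw [e2, ← e1]; exact mem_Comp hz2p)
  obtain ⟨t, ht, hct, hdt⟩ := parallel ha hc hdis
  -- no strip between them
  have hcre : ∀ w : ℂ, (c * w).re = -(t * (a * w).re) := by
    intro w
    rw [hct, Complex.real_smul, neg_mul, Complex.neg_re, mul_assoc, Complex.re_ofReal_mul]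
  have hdt' : d = -(t * b) := by
    refine le_antisymm hdt ?_
    by_contra hcon
    push Not at hcon
    -- a point strictly between, with `S > 0`
    set m : ℝ := (d / t - b) / 2 with hm
    have h1 : d / t < -b := by rw [div_lt_iff₀ ht]; linarith
    set p : ℂ := ((m : ℝ) : ℂ) / a with hp
    have hpm : (a * p).re = m := by rw [hp, mul_div_cancel₀ _ ha, Complex.ofReal_re]
    have hop : IsOpen ({w : ℂ | (a * w).re + b < 0} ∩ {w : ℂ | (c * w).re + d < 0}) :=
      (isOpen_lt (by fun_prop) continuous_const).inter (isOpen_lt (by fun_prop) continuous_const)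
    have hmem : p ∈ {w : ℂ | (a * w).re + b < 0} ∩ {w : ℂ | (c * w).re + d < 0} := by
      constructor
      · show (a * p).re + b < 0
        rw [hpm, hm]; linarith
      · show (c * p).re + d < 0
        rw [hcre, hpm]
        have : d / t < m := by rw [hm]; linarith
        rw [div_lt_iff₀ ht] at this
        linarith
    obtain ⟨r, hr, hball⟩ := Metric.isOpen_iff.1 hop p hmem
    obtain ⟨w, hw1, hw2⟩ := hint p r hr
    obtain ⟨hwa, hwc⟩ := hball hw1
    simp only [Set.mem_ofPred_eq] at hwa hwc
    obtain ⟨e, f, he, hef⟩ := hcomp w hw2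
    -- the third component is parallel to both and opposite to both
    have hd1 : ∀ v, v ∈ HP e f → v ∉ HP a b := by
      intro v hv hv'
      rw [← hef] at hv
      rw [← hab] at hv'
      have e1 : Comp S w = Comp S v := connectedComponentIn_eq hv
      have e2 : Comp S z1 = Comp S v := connectedComponentIn_eq hv'
      have h5 : w ∈ HP a b := by rw [← hab, e2, ← e1]; exact mem_Comp hw2
      simp only [HP, Set.mem_ofPred_eq] at h5
      linarith
    have hd2 : ∀ v, v ∈ HP e f → v ∉ HP c d := by
      intro v hv hv'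
      rw [← hef] at hv
      rw [← hcd] at hv'
      have e1 : Comp S w = Comp S v := connectedComponentIn_eq hv
      have e2 : Comp S z2 = Comp S v := connectedComponentIn_eq hv'
      have h5 : w ∈ HP c d := by rw [← hcd, e2, ← e1]; exact mem_Comp hw2
      simp only [HP, Set.mem_ofPred_eq] at h5
      linarith
    obtain ⟨t1, ht1, he1, -⟩ := parallel ha he hd1
    obtain ⟨t2, ht2, he2, -⟩ := parallel hc he hd2
    rw [hct] at he2
    rw [he1] at he2
    simp only [Complex.real_smul] at he2
    have h6 : (t1 : ℂ) * a = -((t2 * t : ℝ) : ℂ) * a := by push_cast; linear_combination -he2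
    have h7 := mul_right_cancel₀ ha h6
    have h8 : t1 = -(t2 * t) := by exact_mod_cast h7
    have := mul_pos ht2 ht
    linarith
  -- conclusion
  refine ⟨((‖a‖⁻¹ : ℝ) : ℂ) * a, ‖a‖⁻¹ * b, ?_, ?_⟩
  · rw [norm_mul, Complex.norm_real, norm_inv, norm_norm, inv_mul_cancel₀ (norm_ne_zero_iff.2 ha)]
  · intro z
    have hn : 0 < ‖a‖⁻¹ := inv_pos.2 (norm_pos_iff.2 ha)
    rw [mul_assoc, Complex.re_ofReal_mul, ← mul_add, mul_eq_zero, or_iff_right hn.ne']
    constructor
    · intro hz
      rcases lt_trichotomy ((a * z).re + b) 0 with h | h | h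
      · exfalso
        have : z ∈ Comp S z2 := by
          rw [hcd]; simp only [HP, Set.mem_ofPred_eq]
          rw [hcre, hdt']
          have := mul_pos ht (neg_pos.2 h)
          linarith
        have := Comp_pos this
        linarith
      · exact h
      · exfalso
        have : z ∈ Comp S z1 := by rw [hab]; exact h
        have := Comp_pos this
        linarith
    · intro hz
      by_contra hne
      have hzp : 0 < S z := lt_of_le_of_ne (h0 z) (Ne.symm hne)
      -- `S > 0` near `z`: then `z1` and `z` are in the same component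
      have hop := Comp_open hS z
      obtain ⟨r, hr, hball⟩ := Metric.isOpen_iff.1 hop z (mem_Comp hzp)
      -- a point of the ball in `HP a b`
      have hna : 0 < ‖a‖ := norm_pos_iff.2 ha
      have hv : ∃ v, dist v z < r ∧ v ∈ HP a b := by
        refine ⟨z + ((r / 2 / ‖a‖ : ℝ) : ℂ) * (starRingEnd ℂ a), ?_, ?_⟩
        · rw [dist_eq_norm, add_sub_cancel_left, norm_mul, Complex.norm_real, RCLike.norm_conj, Real.norm_of_nonneg (by positivity),
            div_mul_cancel₀ _ hna.ne']
          linarith
        · simp only [HP, Set.mem_ofPred_eq]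
          rw [mul_add, Complex.add_re, show a * (((r / 2 / ‖a‖ : ℝ) : ℂ) * (starRingEnd ℂ a)) = ((r / 2 / ‖a‖ : ℝ) : ℂ) * (a * starRingEnd ℂ a) by ring,
            Complex.mul_conj, ← Complex.ofReal_mul, Complex.ofReal_re]
          have h9 : 0 < Complex.normSq a := Complex.normSq_pos.2 ha
          have : 0 < r / 2 / ‖a‖ * Complex.normSq a := by positivity
          linarith
      obtain ⟨v, hv1, hv2⟩ := hv
      have h3 : v ∈ Comp S z := hball hv1
      have h4 : v ∈ Comp S z1 := by rw [hab]; exact hv2
      have e1 : Comp S z = Comp S v := connectedComponentIn_eq h3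
      have e2 : Comp S z1 = Comp S v := connectedComponentIn_eq h4
      have h5 : z ∈ HP a b := by rw [← hab, e2, ← e1]; exact mem_Comp hzp
      simp only [HP, Set.mem_ofPred_eq] at h5
      linarith

end Pool.Agent.SR3
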