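import Pool.Agent.SR3.DDefs
import Pool.Agent.EG.LE.Har

/-!
# SR3 Har: harmonic functions in the plane
-/

set_option autoImplicit false

open Metric Topology Filter InnerProductSpace

noncomputable section

namespace Pool.Agent.SR3

open Pool.Agent.SDR (gc)

theorem norm_gc_le_lip {u : ℂ → ℝ} {w : ℂ} {C : ℝ} (hC : 0 ≤ C) (h : ∀ᶠ z in 𝓝 w, |u z - u w| ≤ C * ‖z - w‖) : ‖gc u w‖ ≤ 2 * C := by
  have h1 : ‖fderiv ℝ u w‖ ≤ C := norm_fderiv_le_of_lip' ℝ hC h
  have h2 : ‖fderiv ℝ u w 1‖ ≤ C := by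
    refine (ContinuousLinearMap.le_opNorm _ _).trans ?_
    rw [norm_one, mul_one]
    exact h1
  have h3 : ‖fderiv ℝ u w Complex.I‖ ≤ C := by
    refine (ContinuousLinearMap.le_opNorm _ _).trans ?_
    rw [Complex.norm_I, mul_one]
    exact h1
  unfold gc
  refine (norm_sub_le _ _).trans ?_
  rw [norm_mul, Complex.norm_I, one_mul, Complex.norm_real, Complex.norm_real]
  linarith

theorem harmonicAt_of_re {u : ℂ → ℝ} {g : ℂ → ℂ} {w : ℂ} (hg : AnalyticAt ℂ g w) (h : ∀ᶠ z in 𝓝 w, u z = (g z).re) : HarmonicAt u w := by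
  have h' : u =ᶠ[𝓝 w] fun z => (g z).re := h
  rw [harmonicAt_congr_nhds h']
  exact hg.harmonicAt_re

theorem harnack {u : ℂ → ℝ} {w : ℂ} {r : ℝ} (hr : 0 < r) (hu : ∀ z ∈ ball w r, HarmonicAt u z) (h0 : ∀ z ∈ ball w r, 0 ≤ u z) :
    ∀ z ∈ closedBall w (r / 2), u z ≤ 3 * u w := by
  obtain ⟨g, hg, hre⟩ := InnerProductSpace.HarmonicOnNhd.exists_analyticOnNhd_ball_re_eq (f := u) (z := w) (R := r) hu
  have hw : w ∈ ball w r := mem_ball_self hr
  intro z hz
  have hz' : z ∈ ball w r := closedBall_subset_ball (by linarith) hz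
  rw [mem_closedBall, dist_eq_norm] at hz
  apply le_of_forall_pos_le_add
  intro ε hε
  set H : ℂ → ℂ := fun y => g y + ((ε / 2 : ℝ) : ℂ) - Complex.I * ((g w).im : ℂ) with hH
  have hHd : DifferentiableOn ℂ H (ball w r) := by
    intro y hy
    exact (((hg y hy).differentiableAt.add_const _).sub_const _).differentiableWithinAt
  have hHre : ∀ y ∈ ball w r, (H y).re = u y + ε / 2 := by
    intro y hy
    have e1 : (g y).re = u y := hre hy
    simp [hH, e1]
  have hHpos : ∀ y ∈ ball w r, 0 < (H y).re := by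
    intro y hy
    rw [hHre y hy]
    have := h0 y hy
    linarith
  have hHw : (H w).im = 0 := by simp [hH]
  have hne : ∀ y ∈ ball w r, H y ≠ 0 := fun y hy h1 => by
    have := hHpos y hy
    rw [h1] at this
    simp at this
  have hinv : ∀ y ∈ ball w r, 0 < ((H y)⁻¹).re := by
    intro y hy
    rw [Complex.inv_re]
    exact div_pos (hHpos y hy) (Complex.normSq_pos.2 (hne y hy))
  have h1 := Pool.Agent.EG.LE.harnack hr (H := fun y => (H y)⁻¹) (hHd.inv hne) hinv hz'
  have e1 : ((H w)⁻¹).re = (H w).re⁻¹ := by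
    rw [Complex.inv_re, Complex.normSq_apply, hHw]
    have := (hHpos w hw).ne'
    field_simp
    ring
  have e2 : ((H z)⁻¹).re ≤ (H z).re⁻¹ := by
    rw [Complex.inv_re, Complex.normSq_apply, inv_eq_one_div]
    have h2 := hHpos z hz'
    rw [div_le_div_iff₀ (by nlinarith [mul_self_nonneg (H z).im]) h2]
    nlinarith [mul_self_nonneg (H z).im]
  have e3 : (1 : ℝ) / 3 ≤ (r - ‖z - w‖) / (r + ‖z - w‖) := by
    rw [div_le_div_iff₀ (by norm_num) (by positivity)]
    linarith
  have h2 : (H w).re⁻¹ * (1 / 3) ≤ (H z).re⁻¹ := by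
    refine le_trans ?_ (h1.trans e2)
    rw [e1]
    exact mul_le_mul_of_nonneg_left e3 (inv_nonneg.2 (hHpos w hw).le)
  rw [hHre w hw, hHre z hz'] at h2
  have p1 : 0 < u w + ε / 2 := by have := h0 w hw; linarith
  have p2 : 0 < u z + ε / 2 := by have := h0 z hz'; linarith
  rw [inv_eq_one_div, inv_eq_one_div, div_mul_div_comm, one_mul, div_le_div_iff₀ (by positivity) p2] at h2
  linarith

/-- a nonnegative harmonic function on the plane is constant -/
theorem const_of_nonneg {u : ℂ → ℝ} (hu : ∀ z, HarmonicAt u z) (h0 : ∀ z, 0 ≤ u z) : ∀ z, u z = u 0 := by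
  have h1 : HarmonicOnNhd u Set.univ := fun z _ => hu z
  obtain ⟨g, hg, hre⟩ := InnerProductSpace.HarmonicOnNhd.exists_analyticOnNhd_univ_re_eq h1
  have hre' : ∀ z, (g z).re = u z := fun z => congrFun hre z
  have hgd : Differentiable ℂ g := fun z => (hg z (Set.mem_univ z)).differentiableAt
  have hd : Differentiable ℂ (fun z => Complex.exp (-g z)) := hgd.neg.cexp
  have hb : Bornology.IsBounded (Set.range fun z => Complex.exp (-g z)) := by
    rw [isBounded_iff_forall_norm_le]
    refine ⟨1, ?_⟩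
    rintro _ ⟨z, rfl⟩
    rw [Complex.norm_exp, Complex.neg_re, hre' z]
    exact Real.exp_le_one_iff.2 (by linarith [h0 z])
  intro z
  have h2 := hd.apply_eq_apply_of_bounded hb z 0
  have h3 := congrArg norm h2
  rw [Complex.norm_exp, Complex.norm_exp, Complex.neg_re, Complex.neg_re, hre', hre'] at h3
  have := Real.exp_injective h3
  linarith

end Pool.Agent.SR3
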