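import Mathlib
import Pool.Agent.SR3.GDefs

/-!
# SR3 HolB: extension over the holes (Laurent splitting) and the residue form

`lau f a s ζ = -(2 π i)⁻¹ ∮ (ξ - ζ)⁻¹ f ξ` over `C(a, s)` is holomorphic off the circle; `f - lau` extends over the disc.
-/

set_option autoImplicit false

open Topology Filter Metric MeasureTheory

noncomputable section

namespace Pool.Agent.SR3

variable {E : Type} [NormedAddCommGroup E] [NormedSpace ℂ E] [CompleteSpace E]

omit [CompleteSpace E] in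
/-- the Cauchy integral is holomorphic off the circle -/
private theorem cint_diff {f : ℂ → E} {a : ℂ} {s : ℝ} (hs : 0 < s) (hf : ContinuousOn f (sphere a s)) {x : ℂ} (hx : ‖x - a‖ ≠ s) :
    DifferentiableAt ℂ (fun x => ∮ ξ in C(a, s), (ξ - x)⁻¹ • f ξ) x := by
  set δ : ℝ := |‖x - a‖ - s| with hδd
  have hδ : 0 < δ := abs_pos.2 (sub_ne_zero.2 hx)
  have hcm : ∀ θ : ℝ, circleMap a s θ ∈ sphere a s := fun θ => circleMap_mem_sphere a hs.le θ
  have hfar : ∀ y ∈ ball x (δ / 2), ∀ θ : ℝ, δ / 2 ≤ ‖circleMap a s θ - y‖ := by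
    intro y hy θ
    have h1 : ‖y - x‖ < δ / 2 := by simpa [dist_eq_norm] using hy
    have h2 : ‖circleMap a s θ - a‖ = s := by simpa [dist_eq_norm] using hcm θ
    have h3 : δ ≤ ‖circleMap a s θ - x‖ := by
      have := abs_norm_sub_norm_le (x - a) (circleMap a s θ - a)
      rw [h2, sub_sub_sub_cancel_right, norm_sub_rev x (circleMap a s θ)] at this
      exact this
    have h4 : ‖circleMap a s θ - x‖ ≤ ‖circleMap a s θ - y‖ + ‖y - x‖ := by
      have := norm_add_le (circleMap a s θ - y) (y - x)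
      rwa [sub_add_sub_cancel] at this
    linarith
  have hne : ∀ y ∈ ball x (δ / 2), ∀ θ : ℝ, circleMap a s θ - y ≠ 0 := by
    intro y hy θ h0
    have := hfar y hy θ
    rw [h0, norm_zero] at this
    linarith
  have hfc : Continuous fun θ : ℝ => f (circleMap a s θ) := hf.comp_continuous (continuous_circleMap a s) hcm
  obtain ⟨C, hC⟩ := (isCompact_sphere a s).exists_bound_of_continuousOn hf
  have hC0 : 0 ≤ C := (norm_nonneg _).trans (hC _ (hcm 0))
  have hdc : Continuous fun θ : ℝ => deriv (circleMap a s) θ := by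
    have : (fun θ : ℝ => deriv (circleMap a s) θ) = fun θ => circleMap 0 s θ * Complex.I := by
      funext θ
      exact deriv_circleMap a s θ
    rw [this]
    exact (continuous_circleMap 0 s).mul continuous_const
  have hdn : ∀ θ : ℝ, ‖deriv (circleMap a s) θ‖ = s := by
    intro θ
    rw [deriv_circleMap, norm_mul, Complex.norm_I, mul_one, circleMap_zero, norm_mul, Complex.norm_exp_ofReal_mul_I, mul_one, Complex.norm_real,
      Real.norm_eq_abs, abs_of_pos hs]
  have hFc : ∀ y ∈ ball x (δ / 2), Continuous fun θ : ℝ => deriv (circleMap a s) θ • ((circleMap a s θ - y)⁻¹ • f (circleMap a s θ)) := by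
    intro y hy
    exact hdc.smul ((((continuous_circleMap a s).sub continuous_const).inv₀ (hne y hy)).smul hfc)
  have hFc' : Continuous fun θ : ℝ => deriv (circleMap a s) θ • (((circleMap a s θ - x) ^ 2)⁻¹ • f (circleMap a s θ)) := by
    refine hdc.smul (((((continuous_circleMap a s).sub continuous_const).pow 2).inv₀ fun θ => ?_).smul hfc)
    exact pow_ne_zero 2 (hne x (mem_ball_self (by positivity)) θ)
  have hx0 : x ∈ ball x (δ / 2) := mem_ball_self (by positivity)
  have key := intervalIntegral.hasDerivAt_integral_of_dominated_loc_of_deriv_le (μ := volume) (a := 0) (b := 2 * Real.pi) (x₀ := x)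
    (F := fun y θ => deriv (circleMap a s) θ • ((circleMap a s θ - y)⁻¹ • f (circleMap a s θ)))
    (F' := fun y θ => deriv (circleMap a s) θ • (((circleMap a s θ - y) ^ 2)⁻¹ • f (circleMap a s θ))) (s := ball x (δ / 2))
    (bound := fun _ => s * (((δ / 2) ^ 2)⁻¹ * C)) (ball_mem_nhds x (by positivity))
    (by filter_upwards [ball_mem_nhds x (show 0 < δ / 2 by positivity)] with y hy using (hFc y hy).aestronglyMeasurable)
    ((hFc x hx0).intervalIntegrable _ _) hFc'.aestronglyMeasurable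
    (by
      refine Eventually.of_forall fun θ _ y hy => ?_
      rw [norm_smul, norm_smul, norm_inv, norm_pow, hdn]
      refine mul_le_mul_of_nonneg_left (mul_le_mul ?_ (hC _ (hcm θ)) (norm_nonneg _) (by positivity)) hs.le
      exact inv_anti₀ (by positivity) (pow_le_pow_left₀ (by positivity) (hfar y hy θ) 2))
    intervalIntegrable_const
    (by
      refine Eventually.of_forall fun θ _ y hy => ?_
      have h1 : HasDerivAt (fun y : ℂ => circleMap a s θ - y) (-1) y := by simpa using (hasDerivAt_id y).const_sub (circleMap a s θ)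
      have h2 : HasDerivAt (fun y : ℂ => (circleMap a s θ - y)⁻¹) (((circleMap a s θ - y) ^ 2)⁻¹) y := by
        have h3 := h1.inv (hne y hy θ)
        have e1 : -(-1 : ℂ) / (circleMap a s θ - y) ^ 2 = ((circleMap a s θ - y) ^ 2)⁻¹ := by rw [neg_neg, one_div]
        rw [e1] at h3
        exact h3
      exact (h2.smul_const (f (circleMap a s θ))).const_smul (deriv (circleMap a s) θ))
  exact key.2.differentiableAt

/-- Cauchy's formula on an annulus -/
private theorem ann_cauchy {f : ℂ → E} {a : ℂ} {r d : ℝ} (hr : 0 < r) (hf : ∀ z, r ≤ ‖z - a‖ → ‖z - a‖ ≤ d → DifferentiableAt ℂ f z) {x : ℂ}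
    (h1 : r < ‖x - a‖) (h2 : ‖x - a‖ < d) :
    (∮ z in C(a, d), (z - x)⁻¹ • f z) - (∮ z in C(a, r), (z - x)⁻¹ • f z) = (2 * Real.pi * Complex.I : ℂ) • f x := by
  have hrd : r < d := h1.trans h2
  have hsplit : ∀ R : ℝ, r ≤ R → R ≤ d → ‖x - a‖ ≠ R →
      (∮ z in C(a, R), dslope f x z) = (∮ z in C(a, R), (z - x)⁻¹ • f z) - (∮ z in C(a, R), (z - x)⁻¹) • f x := by
    intro R hR0 hRd hxR
    have hR : 0 ≤ R := hr.le.trans hR0
    have hz : ∀ z ∈ sphere a R, DifferentiableAt ℂ f z ∧ z - x ≠ 0 := by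
      intro z hz
      have hzn : ‖z - a‖ = R := by simpa [dist_eq_norm] using hz
      refine ⟨hf z (by rw [hzn]; exact hR0) (by rw [hzn]; exact hRd), fun h0 => ?_⟩
      rw [sub_eq_zero] at h0
      rw [h0] at hzn
      exact hxR hzn
    have hinv : ContinuousOn (fun z : ℂ => (z - x)⁻¹) (sphere a R) := ContinuousOn.inv₀ (by fun_prop) fun z hz' => (hz z hz').2
    have e1 : (∮ z in C(a, R), dslope f x z) = ∮ z in C(a, R), ((z - x)⁻¹ • f z - (z - x)⁻¹ • f x) := by
      refine circleIntegral.integral_congr hR fun z hz' => ?_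
      have h3 : z ≠ x := sub_ne_zero.1 (hz z hz').2
      rw [dslope_of_ne _ h3, slope_def_module, smul_sub]
    rw [e1, circleIntegral.integral_sub, circleIntegral.integral_smul_const]
    · refine ContinuousOn.circleIntegrable hR (hinv.smul fun z hz' => (hz z hz').1.continuousAt.continuousWithinAt)
    · exact ContinuousOn.circleIntegrable hR (hinv.smul continuousOn_const)
  have hin : (∮ z in C(a, d), (z - x)⁻¹) = 2 * Real.pi * Complex.I :=
    circleIntegral.integral_sub_inv_of_mem_ball (by simpa [dist_eq_norm] using h2)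
  have hout : (∮ z in C(a, r), (z - x)⁻¹) = 0 := by
    have hne : ∀ z ∈ closedBall a r, z - x ≠ 0 := by
      intro z hz h0
      have hzn : ‖z - a‖ ≤ r := by simpa [dist_eq_norm] using hz
      rw [sub_eq_zero] at h0
      rw [h0] at hzn
      linarith
    refine Complex.circleIntegral_eq_zero_of_differentiable_on_off_countable hr.le Set.countable_empty
      (ContinuousOn.inv₀ (by fun_prop) hne) fun z hz => ?_
    exact DifferentiableAt.inv (by fun_prop) (hne z (ball_subset_closedBall hz.1))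
  have key : (∮ z in C(a, d), dslope f x z) = ∮ z in C(a, r), dslope f x z := by
    refine Complex.circleIntegral_eq_of_differentiable_on_annulus_off_countable hr hrd.le (Set.countable_singleton x) ?_ ?_
    · intro z hz
      have hz1 : ‖z - a‖ ≤ d := by simpa [dist_eq_norm] using hz.1
      have hz2 : r ≤ ‖z - a‖ := by simpa [dist_eq_norm] using hz.2
      refine ContinuousAt.continuousWithinAt ?_
      by_cases hzx : z = x
      · rw [hzx]
        exact continuousAt_dslope_same.2 (hf x h1.le h2.le)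
      · exact (continuousAt_dslope_of_ne hzx).2 (hf z hz2 hz1).continuousAt
    · intro z hz
      have hz1 : ‖z - a‖ < d := by simpa [dist_eq_norm] using hz.1.1
      have hz2 : r < ‖z - a‖ := by simpa [dist_eq_norm] using hz.1.2
      exact (differentiableAt_dslope_of_ne hz.2).2 (hf z hz2.le hz1.le)
  rw [hsplit d hrd.le le_rfl (ne_of_lt h2), hsplit r le_rfl hrd.le (ne_of_gt h1), hin, hout, zero_smul, sub_zero] at key
  rw [← key]
  abel

/-- the outer part of the Laurent splitting -/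
private def lau (f : ℂ → E) (a : ℂ) (s : ℝ) (ζ : ℂ) : E := -((2 * Real.pi * Complex.I : ℂ)⁻¹ • ∮ ξ in C(a, s), (ξ - ζ)⁻¹ • f ξ)

omit [CompleteSpace E] in
private theorem lau_diff {f : ℂ → E} {a : ℂ} {s : ℝ} (hs : 0 < s) (hf : ∀ ζ, ‖ζ - a‖ = s → DifferentiableAt ℂ f ζ) {x : ℂ} (hx : s < ‖x - a‖) :
    DifferentiableAt ℂ (lau f a s) x := by
  have hc : ContinuousOn f (sphere a s) := fun z hz =>
    (hf z (by simpa [dist_eq_norm] using hz)).continuousAt.continuousWithinAt
  exact ((cint_diff hs hc hx.ne').const_smul _).neg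

omit [CompleteSpace E] in
private theorem lau_bound {f : ℂ → E} {a : ℂ} {s μ : ℝ} (hs : 0 < s) (hf : ∀ ζ, ‖ζ - a‖ = s → ‖f ζ‖ ≤ μ) {x : ℂ} (hx : 2 * s ≤ ‖x - a‖) :
    ‖lau f a s x‖ ≤ 2 * μ * (s / ‖x - a‖) := by
  have hμ : 0 ≤ μ := (norm_nonneg _).trans (hf (a + s) (by simp [abs_of_pos hs]))
  have hx0 : 0 < ‖x - a‖ := by linarith
  unfold lau
  rw [norm_neg]
  have h1 := circleIntegral.norm_two_pi_i_inv_smul_integral_le_of_norm_le_const (c := a) (R := s) (C := (‖x - a‖ - s)⁻¹ * μ)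
    (f := fun ξ => (ξ - x)⁻¹ • f ξ) hs.le (by
      intro z hz
      have hzn : ‖z - a‖ = s := by simpa [dist_eq_norm] using hz
      rw [norm_smul, norm_inv]
      refine mul_le_mul (inv_anti₀ (by linarith) ?_) (hf z hzn) (norm_nonneg _) (inv_nonneg.2 (by linarith))
      have h3 := norm_sub_norm_le (x - a) (z - a)
      rw [hzn, sub_sub_sub_cancel_right, norm_sub_rev x z] at h3
      exact h3)
  refine h1.trans ?_
  have h4 : (‖x - a‖ - s)⁻¹ ≤ 2 / ‖x - a‖ := by
    rw [inv_eq_one_div, div_le_div_iff₀ (by linarith) hx0]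
    linarith
  calc s * ((‖x - a‖ - s)⁻¹ * μ) ≤ s * (2 / ‖x - a‖ * μ) := by
        refine mul_le_mul_of_nonneg_left (mul_le_mul_of_nonneg_right h4 hμ) hs.le
    _ = 2 * μ * (s / ‖x - a‖) := by ring

/-- the splitting over all holes -/
private theorem split {f : ℂ → E} {V : Set ℂ} (t : Finset ℂ) (s : ℂ → ℝ)
    (hs : ∀ a ∈ t, 0 < s a) (hsep : ∀ a ∈ t, ∀ b ∈ t, a ≠ b → 4 * max (s a) (s b) < ‖a - b‖) (hf : ∀ ζ ∈ V, Off t s ζ → DifferentiableAt ℂ f ζ)
    (hμ : ∀ a ∈ t, ∀ ζ, s a ≤ ‖ζ - a‖ → ‖ζ - a‖ ≤ 2 * s a → DifferentiableAt ℂ f ζ) :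
    ∃ g : ℂ → E, (∀ ζ ∈ V, DifferentiableAt ℂ g ζ) ∧ ∀ ζ, Off t (fun a => 2 * s a) ζ → g ζ = f ζ - ∑ a ∈ t, lau f a (s a) ζ := by
  classical
  -- the inner part
  set k : ℂ → ℂ → E := fun a ζ => (2 * Real.pi * Complex.I : ℂ)⁻¹ • ∮ ξ in C(a, 2 * s a), (ξ - ζ)⁻¹ • f ξ with hkd
  have hpi : (2 * Real.pi * Complex.I : ℂ) ≠ 0 := Complex.two_pi_I_ne_zero
  have hkh : ∀ a ∈ t, ∀ ζ, s a < ‖ζ - a‖ → ‖ζ - a‖ < 2 * s a → f ζ = k a ζ + lau f a (s a) ζ := by
    intro a ha ζ h1 h2
    have h3 := ann_cauchy (hs a ha) (hμ a ha) h1 h2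
    have h4 : k a ζ + lau f a (s a) ζ = (2 * Real.pi * Complex.I : ℂ)⁻¹ •
        ((∮ z in C(a, 2 * s a), (z - ζ)⁻¹ • f z) - (∮ z in C(a, s a), (z - ζ)⁻¹ • f z)) := by
      rw [smul_sub]
      simp only [hkd, lau]
      abel
    rw [h4, h3, smul_smul, inv_mul_cancel₀ hpi, one_smul]
  have hother : ∀ a ∈ t, ∀ b ∈ t, a ≠ b → ∀ ζ, ‖ζ - a‖ < 2 * s a → 2 * s b < ‖ζ - b‖ := by
    intro a ha b hb hab ζ hζ
    have h1 := hsep a ha b hb hab
    have h2 : ‖a - b‖ ≤ ‖ζ - a‖ + ‖ζ - b‖ := by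
      have := norm_add_le (a - ζ) (ζ - b)
      rwa [sub_add_sub_cancel, norm_sub_rev a ζ] at this
    have h3 := le_max_left (s a) (s b)
    have h4 := le_max_right (s a) (s b)
    linarith
  set g : ℂ → E := fun ζ => if h : ∃ a ∈ t, ‖ζ - a‖ < 2 * s a then k h.choose ζ - ∑ b ∈ t.erase h.choose, lau f b (s b) ζ
    else f ζ - ∑ b ∈ t, lau f b (s b) ζ with hgd
  have hg1 : ∀ a ∈ t, ∀ ζ, ‖ζ - a‖ < 2 * s a → g ζ = k a ζ - ∑ b ∈ t.erase a, lau f b (s b) ζ := by
    intro a ha ζ hζ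
    have hex : ∃ a ∈ t, ‖ζ - a‖ < 2 * s a := ⟨a, ha, hζ⟩
    have hch := hex.choose_spec
    have heq : hex.choose = a := by
      by_contra hne
      exact absurd (hother a ha _ hch.1 (Ne.symm hne) ζ hζ) (not_lt.2 hch.2.le)
    simp only [hgd]
    rw [dif_pos hex, heq]
  have hg2 : ∀ ζ, (∀ a ∈ t, s a < ‖ζ - a‖) → g ζ = f ζ - ∑ b ∈ t, lau f b (s b) ζ := by
    intro ζ hζ
    by_cases hex : ∃ a ∈ t, ‖ζ - a‖ < 2 * s a
    · obtain ⟨a, ha, h2⟩ := hex
      rw [hg1 a ha ζ h2, hkh a ha ζ (hζ a ha) h2, ← Finset.add_sum_erase t _ ha]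
      abel
    · simp only [hgd]
      rw [dif_neg hex]
  have hsph : ∀ a ∈ t, ∀ ζ, ‖ζ - a‖ = s a → DifferentiableAt ℂ f ζ := fun a ha ζ h => hμ a ha ζ h.ge (by rw [h]; linarith [hs a ha])
  refine ⟨g, fun ζ hζ => ?_, fun ζ hζ => ?_⟩
  · by_cases hex : ∃ a ∈ t, ‖ζ - a‖ < 2 * s a
    · obtain ⟨a, ha, h2⟩ := hex
      have hev : (fun z => k a z - ∑ b ∈ t.erase a, lau f b (s b) z) =ᶠ[𝓝 ζ] g := by
        have : ball a (2 * s a) ∈ 𝓝 ζ := isOpen_ball.mem_nhds (by simpa [dist_eq_norm] using h2)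
        filter_upwards [this] with z hz
        exact (hg1 a ha z (by simpa [dist_eq_norm] using hz)).symm
      refine DifferentiableAt.congr_of_eventuallyEq ?_ hev.symm
      have hkdiff : DifferentiableAt ℂ (k a) ζ := by
        have hc : ContinuousOn f (sphere a (2 * s a)) := fun z hz => by
          have hzn : ‖z - a‖ = 2 * s a := by simpa [dist_eq_norm] using hz
          exact (hμ a ha z (by rw [hzn]; linarith [hs a ha]) hzn.le).continuousAt.continuousWithinAt
        exact (cint_diff (by linarith [hs a ha]) hc h2.ne).const_smul _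
      refine hkdiff.sub (DifferentiableAt.fun_sum fun b hb => ?_)
      have hb' := Finset.mem_erase.1 hb
      have h5 := hother a ha b hb'.2 (Ne.symm hb'.1) ζ h2
      exact lau_diff (hs b hb'.2) (hsph b hb'.2) (by linarith [hs b hb'.2])
    · push Not at hex
      have hstr : ∀ a ∈ t, s a < ‖ζ - a‖ := fun a ha => by linarith [hex a ha, hs a ha]
      have hopen : {z : ℂ | ∀ a ∈ t, s a < ‖z - a‖} ∈ 𝓝 ζ := by
        have : IsOpen {z : ℂ | ∀ a ∈ t, s a < ‖z - a‖} := by
          have e1 : {z : ℂ | ∀ a ∈ t, s a < ‖z - a‖} = ⋂ a ∈ t, {z : ℂ | s a < ‖z - a‖} := by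
            ext z
            simp
          rw [e1]
          exact isOpen_biInter_finset fun a _ => isOpen_lt continuous_const (by fun_prop)
        exact this.mem_nhds hstr
      have hev : (fun z => f z - ∑ b ∈ t, lau f b (s b) z) =ᶠ[𝓝 ζ] g := by
        filter_upwards [hopen] with z hz
        exact (hg2 z hz).symm
      refine DifferentiableAt.congr_of_eventuallyEq ?_ hev.symm
      exact (hf ζ hζ fun a ha => (hstr a ha).le).sub (DifferentiableAt.fun_sum fun b hb => lau_diff (hs b hb) (hsph b hb) (hstr b hb))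
  · exact hg2 ζ fun a ha => by
      have h1 : 2 * s a ≤ ‖ζ - a‖ := hζ a ha
      linarith [hs a ha]

theorem ext_holes {E : Type} [NormedAddCommGroup E] [NormedSpace ℂ E] [CompleteSpace E] {f : ℂ → E} {U : Set ℂ} (hU : IsOpen U) (t : Finset ℂ) (s : ℂ → ℝ)
    (hs : ∀ a ∈ t, 0 < s a) (hsep : ∀ a ∈ t, ∀ b ∈ t, a ≠ b → 4 * max (s a) (s b) < ‖a - b‖) (hf : ∀ ζ ∈ U, Off t s ζ → DifferentiableAt ℂ f ζ) {μ : ℝ}
    (hμ : ∀ a ∈ t, ∀ ζ, s a ≤ ‖ζ - a‖ → ‖ζ - a‖ ≤ 2 * s a → DifferentiableAt ℂ f ζ ∧ ‖f ζ‖ ≤ μ) :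
    ∃ g : ℂ → E, DifferentiableOn ℂ g U ∧ ∀ ζ ∈ U, Off t (fun a => 2 * s a) ζ → ‖g ζ - f ζ‖ ≤ 2 * μ * ∑ a ∈ t, s a / ‖ζ - a‖ := by
  obtain ⟨g, hg, hg'⟩ := split t s hs hsep hf fun a ha ζ h1 h2 => (hμ a ha ζ h1 h2).1
  refine ⟨g, fun ζ hζ => (hg ζ hζ).differentiableWithinAt, fun ζ _ hoff => ?_⟩
  rw [hg' ζ hoff, sub_sub_cancel_left, norm_neg, Finset.mul_sum]
  refine (norm_sum_le _ _).trans (Finset.sum_le_sum fun a ha => ?_)
  exact lau_bound (hs a ha) (fun z hz => (hμ a ha z hz.ge (by rw [hz]; linarith [hs a ha])).2) (hoff a ha)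

/-- Fubini for the Cauchy kernel -/
private theorem circle_fub {f : ℂ → E} {a w : ℂ} {s ρ : ℝ} (hs : 0 < s) (hρ : 0 < ρ) (hin : ‖a - w‖ + s < ρ) (hf : ContinuousOn f (sphere a s)) :
    (∮ ζ in C(w, ρ), ∮ ξ in C(a, s), (ξ - ζ)⁻¹ • f ξ) = -((2 * Real.pi * Complex.I : ℂ) • ∮ ξ in C(a, s), f ξ) := by
  have hcm : ∀ θ : ℝ, circleMap a s θ ∈ sphere a s := fun θ => circleMap_mem_sphere a hs.le θ
  have hcw : ∀ θ : ℝ, circleMap w ρ θ ∈ sphere w ρ := fun θ => circleMap_mem_sphere w hρ.le θ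
  have hmem : ∀ φ : ℝ, circleMap a s φ ∈ ball w ρ := by
    intro φ
    have h1 : ‖circleMap a s φ - a‖ = s := by simpa [dist_eq_norm] using hcm φ
    rw [mem_ball, dist_eq_norm]
    have h2 := norm_add_le (circleMap a s φ - a) (a - w)
    rw [sub_add_sub_cancel, h1] at h2
    linarith
  have hne : ∀ φ θ : ℝ, circleMap a s φ - circleMap w ρ θ ≠ 0 := by
    intro φ θ h0
    have h1 : dist (circleMap w ρ θ) w = ρ := hcw θ
    have h2 : dist (circleMap a s φ) w < ρ := hmem φ
    rw [sub_eq_zero.1 h0] at h2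
    linarith
  have hfc : Continuous fun θ : ℝ => f (circleMap a s θ) := hf.comp_continuous (continuous_circleMap a s) hcm
  have hdc : ∀ (c : ℂ) (R : ℝ), Continuous fun θ : ℝ => deriv (circleMap c R) θ := by
    intro c R
    have : (fun θ : ℝ => deriv (circleMap c R) θ) = fun θ => circleMap 0 R θ * Complex.I := by
      funext θ
      exact deriv_circleMap c R θ
    rw [this]
    exact (continuous_circleMap 0 R).mul continuous_const
  have hcont : Continuous (Function.uncurry fun θ φ : ℝ => deriv (circleMap w ρ) θ • (deriv (circleMap a s) φ •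
      ((circleMap a s φ - circleMap w ρ θ)⁻¹ • f (circleMap a s φ)))) := by
    refine ((hdc w ρ).comp continuous_fst).smul (((hdc a s).comp continuous_snd).smul (Continuous.smul ?_ (hfc.comp continuous_snd)))
    exact Continuous.inv₀ (((continuous_circleMap a s).comp continuous_snd).sub ((continuous_circleMap w ρ).comp continuous_fst)) fun p => hne p.2 p.1
  have h1 : (∮ ζ in C(w, ρ), ∮ ξ in C(a, s), (ξ - ζ)⁻¹ • f ξ) = ∫ θ in (0 : ℝ)..2 * Real.pi, ∫ φ in (0 : ℝ)..2 * Real.pi,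
      deriv (circleMap w ρ) θ • (deriv (circleMap a s) φ • ((circleMap a s φ - circleMap w ρ θ)⁻¹ • f (circleMap a s φ))) := by
    unfold circleIntegral
    refine intervalIntegral.integral_congr fun θ _ => ?_
    simp only
    rw [← intervalIntegral.integral_smul]
  have h2 : ((2 * Real.pi * Complex.I : ℂ) • ∮ ξ in C(a, s), f ξ) = ∫ φ in (0 : ℝ)..2 * Real.pi, (2 * Real.pi * Complex.I : ℂ) •
      (deriv (circleMap a s) φ • f (circleMap a s φ)) := by
    unfold circleIntegral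
    rw [← intervalIntegral.integral_smul]
  rw [h1, intervalIntegral_intervalIntegral_swap, h2, ← intervalIntegral.integral_neg]
  · refine intervalIntegral.integral_congr fun φ _ => ?_
    have h3 : (∮ ζ in C(w, ρ), (ζ - circleMap a s φ)⁻¹) = 2 * Real.pi * Complex.I := circleIntegral.integral_sub_inv_of_mem_ball (hmem φ)
    have h4 : (∫ θ in (0 : ℝ)..2 * Real.pi, deriv (circleMap w ρ) θ • (deriv (circleMap a s) φ •
        ((circleMap a s φ - circleMap w ρ θ)⁻¹ • f (circleMap a s φ)))) =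
        (∫ θ in (0 : ℝ)..2 * Real.pi, deriv (circleMap w ρ) θ • (circleMap w ρ θ - circleMap a s φ)⁻¹) •
          (-(deriv (circleMap a s) φ • f (circleMap a s φ))) := by
      rw [← intervalIntegral.integral_smul_const]
      refine intervalIntegral.integral_congr fun θ _ => ?_
      rw [← neg_sub (circleMap w ρ θ) (circleMap a s φ), inv_neg, neg_smul, smul_neg, smul_neg, smul_neg, smul_assoc, smul_comm (deriv (circleMap a s) φ)]
    rw [h4]
    unfold circleIntegral at h3
    rw [h3, smul_neg]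
  · exact (hcont.continuousOn.integrableOn_compact (isCompact_uIcc.prod isCompact_uIcc)).mono_set (Set.prod_mono Set.uIoc_subset_uIcc Set.uIoc_subset_uIcc)

/-- the residue form -/
theorem circle_sum {E : Type} [NormedAddCommGroup E] [NormedSpace ℂ E] [CompleteSpace E] {f : ℂ → E} {w : ℂ} {ρ : ℝ} (hρ : 0 < ρ) (t : Finset ℂ) (s : ℂ → ℝ)
    (hs : ∀ a ∈ t, 0 < s a) (hsep : ∀ a ∈ t, ∀ b ∈ t, a ≠ b → 4 * max (s a) (s b) < ‖a - b‖) (hin : ∀ a ∈ t, ‖a - w‖ + 2 * s a < ρ)
    (hf : ∀ ζ ∈ closedBall w ρ, Off t s ζ → DifferentiableAt ℂ f ζ) :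
    (∮ ζ in C(w, ρ), f ζ) = ∑ a ∈ t, ∮ ζ in C(a, s a), f ζ := by
  have hann : ∀ a ∈ t, ∀ ζ, s a ≤ ‖ζ - a‖ → ‖ζ - a‖ ≤ 2 * s a → DifferentiableAt ℂ f ζ := by
    intro a ha ζ h1 h2
    refine hf ζ ?_ fun b hb => ?_
    · rw [mem_closedBall, dist_eq_norm]
      have h3 := norm_add_le (ζ - a) (a - w)
      rw [sub_add_sub_cancel] at h3
      linarith [hin a ha]
    · by_cases hab : a = b
      · rw [← hab]
        exact h1
      · have h3 := hsep a ha b hb hab
        have h4 : ‖a - b‖ ≤ ‖ζ - a‖ + ‖ζ - b‖ := by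
          have := norm_add_le (a - ζ) (ζ - b)
          rwa [sub_add_sub_cancel, norm_sub_rev a ζ] at this
        have h5 := le_max_left (s a) (s b)
        have h6 := le_max_right (s a) (s b)
        have h7 := hs b hb
        linarith
  obtain ⟨g, hg, hg'⟩ := split t s hs hsep hf hann
  have hfar : ∀ z ∈ sphere w ρ, ∀ a ∈ t, 2 * s a < ‖z - a‖ := by
    intro z hz a ha
    have hzn : ‖z - w‖ = ρ := by simpa [dist_eq_norm] using hz
    have h3 := norm_add_le (z - a) (a - w)
    rw [sub_add_sub_cancel, hzn] at h3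
    linarith [hin a ha]
  have hc : ∀ a ∈ t, ContinuousOn f (sphere a (s a)) := by
    intro a ha z hz
    have hzn : ‖z - a‖ = s a := by simpa [dist_eq_norm] using hz
    exact (hann a ha z hzn.ge (by rw [hzn]; linarith [hs a ha])).continuousAt.continuousWithinAt
  have hlau : ∀ a ∈ t, ContinuousOn (lau f a (s a)) (sphere w ρ) := by
    intro a ha z hz
    refine (lau_diff (hs a ha) (fun ζ h => hann a ha ζ h.ge (by rw [h]; linarith [hs a ha])) ?_).continuousAt.continuousWithinAt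
    linarith [hfar z hz a ha, hs a ha]
  have hgc : ContinuousOn g (sphere w ρ) := fun z hz => (hg z (sphere_subset_closedBall hz)).continuousAt.continuousWithinAt
  have h0 : (∮ z in C(w, ρ), g z) = 0 :=
    Complex.circleIntegral_eq_zero_of_differentiable_on_off_countable hρ.le Set.countable_empty
      (fun z hz => (hg z hz).continuousAt.continuousWithinAt) fun z hz => hg z (ball_subset_closedBall hz.1)
  have h1 : (∮ z in C(w, ρ), f z) = ∮ z in C(w, ρ), (g z + ∑ a ∈ t, lau f a (s a) z) := by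
    refine circleIntegral.integral_congr hρ.le fun z hz => ?_
    show f z = g z + ∑ a ∈ t, lau f a (s a) z
    rw [hg' z fun a ha => (hfar z hz a ha).le]
    abel
  rw [h1, circleIntegral.integral_add (hgc.circleIntegrable hρ.le)
    ((continuousOn_finsetSum t fun a ha => hlau a ha).circleIntegrable hρ.le), h0, zero_add,
    circleIntegral.integral_fun_sum fun a ha => (hlau a ha).circleIntegrable hρ.le]
  refine Finset.sum_congr rfl fun a ha => ?_
  have h2 : (∮ ζ in C(w, ρ), lau f a (s a) ζ) = -((2 * Real.pi * Complex.I : ℂ)⁻¹ • ∮ ζ in C(w, ρ), ∮ ξ in C(a, s a), (ξ - ζ)⁻¹ • f ξ) := by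
    have e1 : (fun ζ => lau f a (s a) ζ) = fun ζ => (-(2 * Real.pi * Complex.I : ℂ)⁻¹) • ∮ ξ in C(a, s a), (ξ - ζ)⁻¹ • f ξ := by
      funext ζ
      simp only [lau]
      rw [neg_smul]
    rw [e1, circleIntegral.integral_smul, neg_smul]
  rw [h2, circle_fub (hs a ha) hρ (by linarith [hin a ha, hs a ha]) (hc a ha), smul_neg, neg_neg, smul_smul, inv_mul_cancel₀ Complex.two_pi_I_ne_zero, one_smul]

end Pool.Agent.SR3
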