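import Pool.Agent.SR3.HolA
import Pool.Agent.SR3.HolB

/-!
# SR3 HolC: extension of a bounded function over small holes, the bounded form

From `ext_holes` (on `ball w (3 r / 8)`, with the holes `‖a - w‖ < r / 2`, `μ = B`), `exists_rad` on `(r / 4, 3 r / 8)` with `τ = √ s`, and the maximum principle.
-/

set_option autoImplicit false

open Topology Filter Metric

noncomputable section

namespace Pool.Agent.SR3



theorem ext_bdd {E : Type} [NormedAddCommGroup E] [NormedSpace ℂ E] [CompleteSpace E] {f : ℂ → E} {w : ℂ} {r B : ℝ} (hr : 0 < r) (hr1 : r ≤ 1 / 2)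
    (t : Finset ℂ) (s : ℂ → ℝ) (hs : ∀ a ∈ t, 0 < s a) (hsep : ∀ a ∈ t, ∀ b ∈ t, a ≠ b → 4 * max (s a) (s b) < ‖a - b‖)
    (hout : ∀ a ∈ t, r ≤ ‖a - w‖ → s a ≤ ‖a - w‖ / 2) (hsm : 32 * ∑ a ∈ t.filter (fun a => ‖a - w‖ < r), √(s a) ≤ r)
    (hf : ∀ ζ ∈ ball w r, Off t s ζ → DifferentiableAt ℂ f ζ ∧ ‖f ζ‖ ≤ B) :
    ∃ g : ℂ → E, DifferentiableOn ℂ g (ball w (r / 4)) ∧ (∀ ζ ∈ ball w (r / 4), ‖g ζ‖ ≤ 2 * B) ∧
      ∀ ζ ∈ ball w (r / 4), Far t s ζ → ‖g ζ - f ζ‖ ≤ 2 * B * ∑ a ∈ t.filter (fun a => ‖a - w‖ < r), √(s a) := by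
  classical
  -- the holes near `w` are small
  have hsq : ∀ a ∈ t, ‖a - w‖ < r → √(s a) ≤ r / 32 := by
    intro a ha h
    have h1 : √(s a) ≤ ∑ a ∈ t.filter (fun a => ‖a - w‖ < r), √(s a) :=
      Finset.single_le_sum (f := fun a => √(s a)) (fun _ _ => Real.sqrt_nonneg _) (Finset.mem_filter.2 ⟨ha, h⟩)
    linarith
  have hss : ∀ a ∈ t, s a = √(s a) * √(s a) := fun a ha => (Real.mul_self_sqrt (hs a ha).le).symm
  have hsa : ∀ a ∈ t, ‖a - w‖ < r → s a ≤ r / 64 ∧ 2 * s a ≤ √(s a) := by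
    intro a ha h
    have h1 := hsq a ha h
    have h2 := Real.sqrt_nonneg (s a)
    have h3 := hss a ha
    constructor <;> nlinarith
  -- the other holes do not meet the ball of radius `3 r / 8`
  have hfar : ∀ a ∈ t, ¬ ‖a - w‖ < r / 2 → ∀ ζ, ‖ζ - w‖ < 3 * r / 8 → s a ≤ ‖ζ - a‖ := by
    intro a ha h ζ hζ
    have h1 : ‖a - w‖ ≤ ‖ζ - a‖ + ‖ζ - w‖ := by
      have h2 : a - w = (ζ - w) - (ζ - a) := by ring
      rw [h2]
      exact (norm_sub_le _ _).trans (by linarith)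
    rcases lt_or_ge ‖a - w‖ r with h2 | h2
    · have := (hsa a ha h2).1
      linarith
    · have := hout a ha h2
      linarith
  set t₂ : Finset ℂ := t.filter (fun a => ‖a - w‖ < r / 2) with ht₂
  have hmem : ∀ a ∈ t₂, a ∈ t ∧ ‖a - w‖ < r / 2 := fun a ha => Finset.mem_filter.1 ha
  have hsub : t₂ ⊆ t.filter (fun a => ‖a - w‖ < r) := fun a ha =>
    Finset.mem_filter.2 ⟨(hmem a ha).1, by have := (hmem a ha).2; linarith⟩
  have hsum : ∑ a ∈ t₂, √(s a) ≤ ∑ a ∈ t.filter (fun a => ‖a - w‖ < r), √(s a) :=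
    Finset.sum_le_sum_of_subset_of_nonneg hsub fun _ _ _ => Real.sqrt_nonneg _
  -- points which avoid the discs of the radii `√ s`
  have hoff : ∀ ζ, ‖ζ - w‖ < 3 * r / 8 → (∀ a ∈ t₂, √(s a) ≤ ‖ζ - a‖) → Off t s ζ := by
    intro ζ hζ h a ha
    by_cases h1 : ‖a - w‖ < r / 2
    · have h2 := h a (Finset.mem_filter.2 ⟨ha, h1⟩)
      have h3 := (hsa a ha (by linarith)).2
      have h4 := hs a ha
      linarith
    · exact hfar a ha h1 ζ hζ
  obtain ⟨ρ, hρ1, hρ2, hρ⟩ := exists_rad t₂ (fun a => √(s a)) w (a := r / 4) (b := 3 * r / 8) (fun _ _ => Real.sqrt_nonneg _) (by linarith)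
  have hB : 0 ≤ B := by
    have h1 : ‖(w + (ρ : ℂ)) - w‖ = ρ := by
      rw [add_sub_cancel_left, Complex.norm_real, Real.norm_eq_abs, abs_of_pos (by linarith)]
    have h2 := hf (w + ρ) (by rw [mem_ball, dist_eq_norm, h1]; linarith) (hoff _ (by rw [h1]; linarith) fun a ha => hρ a ha _ h1)
    exact (norm_nonneg _).trans h2.2
  obtain ⟨g, hg1, hg2⟩ := ext_holes (f := f) (U := ball w (3 * r / 8)) isOpen_ball t₂ s (fun a ha => hs a (hmem a ha).1)
    (fun a ha b hb hab => hsep a (hmem a ha).1 b (hmem b hb).1 hab)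
    (fun ζ hζ h => by
      rw [mem_ball, dist_eq_norm] at hζ
      refine (hf ζ (by rw [mem_ball, dist_eq_norm]; linarith) fun a ha => ?_).1
      by_cases h1 : ‖a - w‖ < r / 2
      · exact h a (Finset.mem_filter.2 ⟨ha, h1⟩)
      · exact hfar a ha h1 ζ hζ)
    (μ := B) (fun a ha ζ h1 h2 => by
      obtain ⟨ha1, ha2⟩ := hmem a ha
      have h3 := (hsa a ha1 (by linarith)).1
      refine hf ζ ?_ fun b hb => ?_
      · rw [mem_ball, dist_eq_norm]
        have h4 : ζ - w = (ζ - a) + (a - w) := by ring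
        rw [h4]
        have := norm_add_le (ζ - a) (a - w)
        linarith
      · by_cases hab : a = b
        · rw [← hab]
          exact h1
        · have h4 := hsep a ha1 b hb hab
          have h5 : ‖a - b‖ ≤ ‖ζ - b‖ + ‖ζ - a‖ := by
            have h6 : a - b = (ζ - b) - (ζ - a) := by ring
            rw [h6]
            exact norm_sub_le _ _
          have h6 := le_max_left (s a) (s b)
          have h7 := le_max_right (s a) (s b)
          have h8 := hs b hb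
          linarith)
  -- the comparison with `f`
  have hcmp : ∀ ζ, ‖ζ - w‖ < 3 * r / 8 → (∀ a ∈ t₂, √(s a) ≤ ‖ζ - a‖) →
      ‖g ζ - f ζ‖ ≤ 2 * B * ∑ a ∈ t.filter (fun a => ‖a - w‖ < r), √(s a) := by
    intro ζ hζ h
    refine (hg2 ζ (by rwa [mem_ball, dist_eq_norm]) fun a ha => ?_).trans ?_
    · have h1 := h a ha
      have h2 := (hsa a (hmem a ha).1 (by have := (hmem a ha).2; linarith)).2
      linarith
    · refine mul_le_mul_of_nonneg_left (le_trans (Finset.sum_le_sum fun a ha => ?_) hsum) (by linarith)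
      have h1 := h a ha
      have h2 := hss a (hmem a ha).1
      have h3 : 0 < √(s a) := Real.sqrt_pos.2 (hs a (hmem a ha).1)
      rw [div_le_iff₀ (by linarith)]
      calc s a = √(s a) * √(s a) := h2
        _ ≤ √(s a) * ‖ζ - a‖ := mul_le_mul_of_nonneg_left h1 h3.le
  refine ⟨g, hg1.mono (ball_subset_ball (by linarith)), fun ζ hζ => ?_, fun ζ hζ h => ?_⟩
  · have hd : DiffContOnCl ℂ g (ball w ρ) := by
      refine DifferentiableOn.diffContOnCl (hg1.mono ?_)
      rw [closure_ball w (by linarith : ρ ≠ 0)]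
      exact closedBall_subset_ball hρ2
    refine Complex.norm_le_of_forall_mem_frontier_norm_le isBounded_ball hd (fun ξ hξ => ?_) (subset_closure (ball_subset_ball hρ1.le hζ))
    rw [frontier_ball w (by linarith : ρ ≠ 0), mem_sphere, dist_eq_norm] at hξ
    have h1 : ∀ a ∈ t₂, √(s a) ≤ ‖ξ - a‖ := fun a ha => hρ a ha ξ hξ
    have h2 := hcmp ξ (by rw [hξ]; exact hρ2) h1
    have h3 := (hf ξ (by rw [mem_ball, dist_eq_norm, hξ]; linarith) (hoff ξ (by rw [hξ]; exact hρ2) h1)).2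
    have h4 : g ξ = (g ξ - f ξ) + f ξ := by abel
    have h5 : 2 * B * ∑ a ∈ t.filter (fun a => ‖a - w‖ < r), √(s a) ≤ 2 * B * (1 / 64) :=
      mul_le_mul_of_nonneg_left (by linarith) (by linarith)
    rw [h4]
    have := norm_add_le (g ξ - f ξ) (f ξ)
    linarith
  · rw [mem_ball, dist_eq_norm] at hζ
    refine hcmp ζ (by linarith) fun a ha => h a (hmem a ha).1 ?_
    have h1 : ζ - a = (ζ - w) - (a - w) := by ring
    rw [h1]
    have := norm_sub_le (ζ - w) (a - w)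
    have := (hmem a ha).2
    linarith

end Pool.Agent.SR3
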