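import Pool.Agent.SR3.HolA
import Pool.Agent.SR3.HolC
import Pool.Agent.H17.Montel

/-!
# SR3 HolD: limits of curves in the projective space with holes

At `z ∈ U` the curves `F n / ⟪u n, F n⟫`, `‖u n‖ = 1`, extend over the small discs (`ext_bdd`); Montel's theorem gives a local limit `g z` with `⟪u, g z⟫ = 1`.  It is
characterised by: `pr (F n (v n)) → pr (g z w)` for every sequence `v n → w` of points far from the discs; so the local limits fit together.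
-/

set_option autoImplicit false

open Topology Filter Metric

noncomputable section

namespace Pool.Agent.SR3

open Pool.Agent.H36.BP (EN fs wd Sub OrdTwo)
open Pool.Agent.H62.EF (MN pr)
open Pool.Agent.G3 (LLift)



variable {N : ℕ}

/-- points far from small discs, near a given point -/
private theorem holD_seq (𝒰 : Ultrafilter ℕ) (T : ℕ → Finset ℂ) (s : ℕ → ℂ → ℝ) (hs : ∀ n, ∀ a ∈ T n, 0 < s n a)
    (h : Tendsto (fun n => ∑ a ∈ T n, √(s n a)) (𝒰 : Filter ℕ) (𝓝 0)) (w : ℂ) :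
    ∃ v : ℕ → ℂ, Tendsto v (𝒰 : Filter ℕ) (𝓝 w) ∧ ∀ n, ∀ a ∈ T n, √(s n a) ≤ ‖v n - a‖ := by
  have h1 : ∀ n, ∃ v : ℂ, ‖v - w‖ ≤ 3 * ∑ a ∈ T n, √(s n a) ∧ ∀ a ∈ T n, √(s n a) ≤ ‖v - a‖ := by
    intro n
    rcases (T n).eq_empty_or_nonempty with h0 | h0
    · exact ⟨w, by simp [h0], by simp [h0]⟩
    · have hpos : 0 < ∑ a ∈ T n, √(s n a) := Finset.sum_pos (fun a ha => Real.sqrt_pos.2 (hs n a ha)) h0
      obtain ⟨ρ, hρ1, hρ2, hρ3⟩ := exists_rad (T n) (fun a => √(s n a)) w (a := 0) (b := 3 * ∑ a ∈ T n, √(s n a))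
        (fun k _ => Real.sqrt_nonneg _) (by linarith)
      refine ⟨w + ρ, ?_, fun a ha => hρ3 a ha (w + ρ) (by simp [abs_of_pos hρ1])⟩
      rw [add_sub_cancel_left, Complex.norm_real, Real.norm_of_nonneg hρ1.le]
      exact hρ2.le
  choose v hv1 hv2 using h1
  refine ⟨v, ?_, hv2⟩
  rw [tendsto_iff_norm_sub_tendsto_zero]
  exact squeeze_zero (fun n => norm_nonneg _) hv1 (by simpa using h.const_mul 3)

/-- the local limit -/
private theorem holD_loc (𝒰 : Ultrafilter ℕ) (F : ℕ → ℂ → EN N) (t : ℕ → Finset ℂ) (s : ℕ → ℂ → ℝ)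
    (hs : ∀ n, ∀ a ∈ t n, 0 < s n a) (hsep : ∀ n, ∀ a ∈ t n, ∀ b ∈ t n, a ≠ b → 4 * max (s n a) (s n b) < ‖a - b‖) (z : ℂ)
    {r₁ : ℝ} (hr₁ : 0 < r₁) (hout : ∀ᶠ n in (𝒰 : Filter ℕ), ∀ a ∈ t n, r₁ ≤ ‖a - z‖ → s n a ≤ ‖a - z‖ / 2)
    (hsm : Tendsto (fun n => ∑ a ∈ (t n).filter (fun a => ‖a - z‖ < r₁), √(s n a)) (𝒰 : Filter ℕ) (𝓝 0))
    {r₂ : ℝ} (hr₂ : 0 < r₂) (hloc : ∀ᶠ n in (𝒰 : Filter ℕ), ∃ x : EN N, ∀ w ∈ ball z r₂, Off (t n) (s n) w →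
      DifferentiableAt ℂ (F n) w ∧ ‖x‖ * ‖F n w‖ < 2 * ‖(inner ℂ x (F n w) : ℂ)‖) :
    ∃ (ρ : ℝ) (g : ℂ → EN N), 0 < ρ ∧ DifferentiableOn ℂ g (ball z ρ) ∧ (∀ w ∈ ball z ρ, g w ≠ 0) ∧
      ∀ w ∈ ball z ρ, ∀ v : ℕ → ℂ, Tendsto v (𝒰 : Filter ℕ) (𝓝 w) →
        (∀ᶠ n in (𝒰 : Filter ℕ), Far ((t n).filter (fun a => ‖a - z‖ < r₁)) (s n) (v n)) →
        Tendsto (fun n => pr (F n (v n))) (𝒰 : Filter ℕ) (𝓝 (pr (g w))) := by
  classical
  obtain ⟨r, hr⟩ : ∃ r, r = min (min r₁ r₂) 1 / 2 := ⟨_, rfl⟩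
  have hr0 : 0 < r := by rw [hr]; positivity
  have hrr₁ : r ≤ r₁ / 2 := by rw [hr]; gcongr; exact (min_le_left _ _).trans (min_le_left _ _)
  have hrr₂ : r ≤ r₂ / 2 := by rw [hr]; gcongr; exact (min_le_left _ _).trans (min_le_right _ _)
  have hrr : r ≤ 1 / 2 := by rw [hr]; gcongr; exact min_le_right _ _
  obtain ⟨T, hT⟩ : ∃ T : ℕ → Finset ℂ, T = fun n => (t n).filter (fun a => ‖a - z‖ < r₁) := ⟨_, rfl⟩
  have hTt : ∀ n, ∀ a ∈ T n, a ∈ t n := fun n a ha => by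
    rw [hT] at ha
    exact (Finset.mem_filter.1 ha).1
  have hsm' : Tendsto (fun n => ∑ a ∈ T n, √(s n a)) (𝒰 : Filter ℕ) (𝓝 0) := by rw [hT]; exact hsm
  -- good indices
  have hE : ∀ᶠ n in (𝒰 : Filter ℕ), (∑ a ∈ T n, √(s n a) < r / 32) ∧ (∀ a ∈ t n, r₁ ≤ ‖a - z‖ → s n a ≤ ‖a - z‖ / 2) ∧
      ∃ x : EN N, ∀ w ∈ ball z r₂, Off (t n) (s n) w → DifferentiableAt ℂ (F n) w ∧ ‖x‖ * ‖F n w‖ < 2 * ‖(inner ℂ x (F n w) : ℂ)‖ := by
    have h1 : ∀ᶠ n in (𝒰 : Filter ℕ), ∑ a ∈ T n, √(s n a) < r / 32 := hsm'.eventually (gt_mem_nhds (by positivity))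
    filter_upwards [h1, hout, hloc] with n a b c
    exact ⟨a, b, c⟩
  have hsq : ∀ n, ∑ a ∈ T n, √(s n a) < r / 32 → ∀ a ∈ T n, √(s n a) < r / 32 := by
    intro n hn a ha
    exact (Finset.single_le_sum (f := fun a => √(s n a)) (fun b _ => Real.sqrt_nonneg _) ha).trans_lt hn
  have hsle : ∀ n, ∑ a ∈ T n, √(s n a) < r / 32 → ∀ a ∈ T n, s n a ≤ √(s n a) * (r / 32) := by
    intro n hn a ha
    have h1 := hsq n hn a ha
    have h2 := Real.mul_self_sqrt (hs n a (hTt n a ha)).le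
    nlinarith [Real.sqrt_nonneg (s n a)]
  have hoff : ∀ n, (∀ a ∈ t n, r₁ ≤ ‖a - z‖ → s n a ≤ ‖a - z‖ / 2) → ∀ w ∈ ball z r, Off (T n) (s n) w → Off (t n) (s n) w := by
    intro n hn w hw ho a ha
    by_cases h1 : ‖a - z‖ < r₁
    · exact ho a (by rw [hT]; exact Finset.mem_filter.2 ⟨ha, h1⟩)
    · push Not at h1
      have h2 := hn a ha h1
      rw [mem_ball, dist_eq_norm] at hw
      have h3 : ‖a - z‖ ≤ ‖w - a‖ + ‖w - z‖ := by
        calc ‖a - z‖ = ‖(w - z) - (w - a)‖ := by congr 1; ring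
          _ ≤ ‖w - z‖ + ‖w - a‖ := norm_sub_le _ _
          _ = _ := add_comm _ _
      linarith
  have hfo : ∀ n, ∑ a ∈ T n, √(s n a) < r / 32 → ∀ w ∈ ball z r, Far (T n) (s n) w → Off (T n) (s n) w := by
    intro n hn w hw hf a ha
    have h1 := hsle n hn a ha
    have h2 := Real.sqrt_nonneg (s n a)
    by_cases h3 : ‖w - a‖ < 1
    · have h4 := hf a ha h3
      nlinarith
    · push Not at h3
      have h4 := hsq n hn a ha
      nlinarith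
  -- unit vectors
  have hu : ∀ n, ∃ u : EN N, ‖u‖ = 1 ∧ (((∑ a ∈ T n, √(s n a) < r / 32) ∧ (∀ a ∈ t n, r₁ ≤ ‖a - z‖ → s n a ≤ ‖a - z‖ / 2) ∧
      ∃ x : EN N, ∀ w ∈ ball z r₂, Off (t n) (s n) w → DifferentiableAt ℂ (F n) w ∧ ‖x‖ * ‖F n w‖ < 2 * ‖(inner ℂ x (F n w) : ℂ)‖) →
      ∀ w ∈ ball z r, Off (T n) (s n) w → DifferentiableAt ℂ (F n) w ∧ ‖F n w‖ < 2 * ‖(inner ℂ u (F n w) : ℂ)‖) := by
    intro n
    by_cases hn : (∑ a ∈ T n, √(s n a) < r / 32) ∧ (∀ a ∈ t n, r₁ ≤ ‖a - z‖ → s n a ≤ ‖a - z‖ / 2) ∧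
      ∃ x : EN N, ∀ w ∈ ball z r₂, Off (t n) (s n) w → DifferentiableAt ℂ (F n) w ∧ ‖x‖ * ‖F n w‖ < 2 * ‖(inner ℂ x (F n w) : ℂ)‖
    · obtain ⟨h1, h2, x, hx⟩ := hn
      obtain ⟨ρ, hρ1, hρ2, hρ3⟩ := exists_rad (T n) (fun a => √(s n a)) z (a := 0) (b := r)
        (fun k _ => Real.sqrt_nonneg _) (by linarith)
      have hw : z + ρ ∈ ball z r := by
        rw [mem_ball, dist_eq_norm, add_sub_cancel_left, Complex.norm_real, Real.norm_of_nonneg hρ1.le]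
        exact hρ2
      have hw2 : z + ρ ∈ ball z r₂ := ball_subset_ball (by linarith) hw
      have ho : Off (t n) (s n) (z + ρ) := hoff n h2 _ hw (hfo n h1 _ hw fun a ha _ => hρ3 a ha _ (by simp [abs_of_pos hρ1]))
      have hx0 : x ≠ 0 := by
        rintro rfl
        have := (hx _ hw2 ho).2
        simp at this
      have hxn : (0 : ℝ) < ‖x‖ := norm_pos_iff.2 hx0
      refine ⟨(((‖x‖⁻¹ : ℝ)) : ℂ) • x, ?_, fun _ w hw ho => ?_⟩
      · rw [norm_smul, Complex.norm_real, norm_inv, norm_norm]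
        exact inv_mul_cancel₀ hxn.ne'
      · obtain ⟨h3, h4⟩ := hx w (ball_subset_ball (by linarith) hw) (hoff n h2 w hw ho)
        refine ⟨h3, ?_⟩
        rw [inner_smul_left, norm_mul, Complex.conj_ofReal, Complex.norm_real, norm_inv, norm_norm]
        calc ‖F n w‖ = ‖x‖⁻¹ * (‖x‖ * ‖F n w‖) := by field_simp
          _ < ‖x‖⁻¹ * (2 * ‖(inner ℂ x (F n w) : ℂ)‖) := mul_lt_mul_of_pos_left h4 (inv_pos.2 hxn)
          _ = _ := by ring
    · obtain ⟨u, hu⟩ := exists_norm_eq (EN N) (zero_le_one (α := ℝ))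
      exact ⟨u, hu, fun h => absurd h hn⟩
  choose u hu1 hu2 using hu
  obtain ⟨f, hf⟩ : ∃ f : ℕ → ℂ → EN N, f = fun n w => (inner ℂ (u n) (F n w) : ℂ)⁻¹ • F n w := ⟨_, rfl⟩
  -- extensions
  have hg : ∀ n, ∃ g : ℂ → EN N, (((∑ a ∈ T n, √(s n a) < r / 32) ∧ (∀ a ∈ t n, r₁ ≤ ‖a - z‖ → s n a ≤ ‖a - z‖ / 2) ∧
      ∃ x : EN N, ∀ w ∈ ball z r₂, Off (t n) (s n) w → DifferentiableAt ℂ (F n) w ∧ ‖x‖ * ‖F n w‖ < 2 * ‖(inner ℂ x (F n w) : ℂ)‖) →
      DifferentiableOn ℂ g (ball z (r / 4)) ∧ (∀ ζ ∈ ball z (r / 4), ‖g ζ‖ ≤ 4) ∧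
        ∀ ζ ∈ ball z (r / 4), Far (T n) (s n) ζ → ‖g ζ - f n ζ‖ ≤ 4 * ∑ a ∈ T n, √(s n a)) := by
    intro n
    by_cases hn : (∑ a ∈ T n, √(s n a) < r / 32) ∧ (∀ a ∈ t n, r₁ ≤ ‖a - z‖ → s n a ≤ ‖a - z‖ / 2) ∧
      ∃ x : EN N, ∀ w ∈ ball z r₂, Off (t n) (s n) w → DifferentiableAt ℂ (F n) w ∧ ‖x‖ * ‖F n w‖ < 2 * ‖(inner ℂ x (F n w) : ℂ)‖
    · have h1 := hn.1
      have hle : ∑ a ∈ (T n).filter (fun a => ‖a - z‖ < r), √(s n a) ≤ ∑ a ∈ T n, √(s n a) :=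
        Finset.sum_le_sum_of_subset_of_nonneg (Finset.filter_subset _ _) fun _ _ _ => Real.sqrt_nonneg _
      obtain ⟨g, hg1, hg2, hg3⟩ := ext_bdd (f := f n) (w := z) (r := r) (B := 2) hr0 hrr (T n) (s n) (fun a ha => hs n a (hTt n a ha))
        (fun a ha b hb hab => hsep n a (hTt n a ha) b (hTt n b hb) hab)
        (fun a ha h => by
          have h2 := hsle n h1 a ha
          have h3 := hsq n h1 a ha
          nlinarith [Real.sqrt_nonneg (s n a)])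
        (by linarith)
        (fun ζ hζ ho => by
          obtain ⟨h4, h5⟩ := hu2 n hn ζ hζ ho
          have h6 : (inner ℂ (u n) (F n ζ) : ℂ) ≠ 0 := by
            intro h0
            rw [h0, norm_zero, mul_zero] at h5
            exact absurd h5 (not_lt.2 (norm_nonneg _))
          constructor
          · rw [hf]
            have h7 : DifferentiableAt ℂ (fun w => (inner ℂ (u n) (F n w) : ℂ)) ζ :=
              ((innerSL ℂ (u n)).differentiableAt).comp ζ h4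
            exact (h7.inv h6).smul h4
          · rw [hf]
            show ‖(inner ℂ (u n) (F n ζ) : ℂ)⁻¹ • F n ζ‖ ≤ 2
            rw [norm_smul, norm_inv]
            have h8 : 0 < ‖(inner ℂ (u n) (F n ζ) : ℂ)‖ := norm_pos_iff.2 h6
            calc ‖(inner ℂ (u n) (F n ζ) : ℂ)‖⁻¹ * ‖F n ζ‖ ≤ ‖(inner ℂ (u n) (F n ζ) : ℂ)‖⁻¹ * (2 * ‖(inner ℂ (u n) (F n ζ) : ℂ)‖) := by gcongr
              _ = 2 := by field_simp)
      refine ⟨g, fun _ => ⟨hg1, fun ζ hζ => (hg2 ζ hζ).trans (by norm_num), fun ζ hζ hF => (hg3 ζ hζ hF).trans ?_⟩⟩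
      nlinarith
    · exact ⟨0, fun h => absurd h hn⟩
  choose g hg using hg
  obtain ⟨h, hh1, hh2⟩ := Pool.Agent.H17.montel_ultrafilter 𝒰 (F := g) (a := z) (r := r / 4) (B := 4)
    (by filter_upwards [hE] with n hn; exact (hg n hn).1) (by filter_upwards [hE] with n hn; exact (hg n hn).2.1)
  obtain ⟨u₀, -, hu₀⟩ := (isCompact_sphere (0 : EN N) 1).ultrafilter_le_nhds (𝒰.map u) (by
    rw [Ultrafilter.coe_map, le_principal_iff, mem_map]
    exact Eventually.of_forall fun n => by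
      show u n ∈ sphere (0 : EN N) 1
      rw [mem_sphere_zero_iff_norm]
      exact hu1 n)
  have hu₀' : Tendsto u (𝒰 : Filter ℕ) (𝓝 u₀) := hu₀
  -- convergence of the normalised curves at far points
  have hconv : ∀ w ∈ ball z (r / 4), ∀ v : ℕ → ℂ, Tendsto v (𝒰 : Filter ℕ) (𝓝 w) → (∀ᶠ n in (𝒰 : Filter ℕ), Far (T n) (s n) (v n)) →
      Tendsto (fun n => f n (v n)) (𝒰 : Filter ℕ) (𝓝 (h w)) := by
    intro w hw v hv hfar
    have hvb : ∀ᶠ n in (𝒰 : Filter ℕ), v n ∈ ball z (r / 4) := hv.eventually (isOpen_ball.mem_nhds hw)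
    have h1 : Tendsto (fun n => g n (v n)) (𝒰 : Filter ℕ) (𝓝 (h w)) :=
      hh2.tendsto_comp (hh1.continuousOn w hw) hw (tendsto_nhdsWithin_iff.2 ⟨hv, hvb⟩)
    have h2 : Tendsto (fun n => g n (v n) - f n (v n)) (𝒰 : Filter ℕ) (𝓝 0) := by
      refine squeeze_zero_norm' (a := fun n => 4 * ∑ a ∈ T n, √(s n a)) ?_ (by simpa using hsm'.const_mul 4)
      filter_upwards [hE, hvb, hfar] with n hn hb hF
      exact (hg n hn).2.2 _ hb hF
    have h3 := h1.sub h2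
    simpa using h3
  have hin : ∀ w ∈ ball z (r / 4), (inner ℂ u₀ (h w) : ℂ) = 1 := by
    intro w hw
    obtain ⟨v, hv1, hv2⟩ := holD_seq 𝒰 T s (fun n a ha => hs n a (hTt n a ha)) hsm' w
    have hvb : ∀ᶠ n in (𝒰 : Filter ℕ), v n ∈ ball z (r / 4) := hv1.eventually (isOpen_ball.mem_nhds hw)
    have h1 := hconv w hw v hv1 (Eventually.of_forall fun n a ha _ => hv2 n a ha)
    have h2 : Tendsto (fun n => (inner ℂ (u n) (f n (v n)) : ℂ)) (𝒰 : Filter ℕ) (𝓝 (inner ℂ u₀ (h w))) := hu₀'.inner h1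
    refine tendsto_nhds_unique h2 (tendsto_const_nhds.congr' ?_)
    filter_upwards [hE, hvb] with n hn hb
    have hb' : v n ∈ ball z r := ball_subset_ball (by linarith) hb
    have h5 := (hu2 n hn (v n) hb' (hfo n hn.1 _ hb' fun a ha _ => hv2 n a ha)).2
    have h6 : (inner ℂ (u n) (F n (v n)) : ℂ) ≠ 0 := by
      intro h0
      rw [h0, norm_zero, mul_zero] at h5
      exact absurd h5 (not_lt.2 (norm_nonneg _))
    rw [hf]
    show (1 : ℂ) = inner ℂ (u n) ((inner ℂ (u n) (F n (v n)) : ℂ)⁻¹ • F n (v n))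
    rw [inner_smul_right, inv_mul_cancel₀ h6]
  have hne : ∀ w ∈ ball z (r / 4), h w ≠ 0 := by
    intro w hw h0
    have := hin w hw
    rw [h0, inner_zero_right] at this
    exact zero_ne_one this
  refine ⟨r / 4, h, by positivity, hh1, hne, fun w hw v hv hfar => ?_⟩
  have hfar' : ∀ᶠ n in (𝒰 : Filter ℕ), Far (T n) (s n) (v n) := by rw [hT]; exact hfar
  have hvb : ∀ᶠ n in (𝒰 : Filter ℕ), v n ∈ ball z (r / 4) := hv.eventually (isOpen_ball.mem_nhds hw)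
  have h1 : Tendsto (fun n => pr (f n (v n))) (𝒰 : Filter ℕ) (𝓝 (pr (h w))) :=
    (Pool.Agent.H62.EF.continuousAt_pr (hne w hw)).tendsto.comp (hconv w hw v hv hfar')
  refine h1.congr' ?_
  filter_upwards [hE, hvb, hfar'] with n hn hb hF
  have hb' : v n ∈ ball z r := ball_subset_ball (by linarith) hb
  have h5 := (hu2 n hn (v n) hb' (hfo n hn.1 _ hb' hF)).2
  have h6 : (inner ℂ (u n) (F n (v n)) : ℂ) ≠ 0 := by
    intro h0
    rw [h0, norm_zero, mul_zero] at h5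
    exact absurd h5 (not_lt.2 (norm_nonneg _))
  rw [hf]
  exact Pool.Agent.H62.EF.pr_smul _ (inv_ne_zero h6)

/-- MODULE HolD (repaired: the same radius in both parts of `hsm`) -/
theorem ult_holes (𝒰 : Ultrafilter ℕ) {U : Set ℂ} (hU : IsOpen U) (F : ℕ → ℂ → EN N) (t : ℕ → Finset ℂ) (s : ℕ → ℂ → ℝ)
    (hs : ∀ n, ∀ a ∈ t n, 0 < s n a) (hsep : ∀ n, ∀ a ∈ t n, ∀ b ∈ t n, a ≠ b → 4 * max (s n a) (s n b) < ‖a - b‖)
    (hsm : ∀ z ∈ U, ∃ r : ℝ, 0 < r ∧ (∀ᶠ n in (𝒰 : Filter ℕ), ∀ a ∈ t n, r ≤ ‖a - z‖ → s n a ≤ ‖a - z‖ / 2) ∧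
      Tendsto (fun n => ∑ a ∈ (t n).filter (fun a => ‖a - z‖ < r), √(s n a)) (𝒰 : Filter ℕ) (𝓝 0))
    (hloc : ∀ z ∈ U, ∃ r : ℝ, 0 < r ∧ ∀ᶠ n in (𝒰 : Filter ℕ), ∃ x : EN N, ∀ w ∈ ball z r, Off (t n) (s n) w →
      DifferentiableAt ℂ (F n) w ∧ ‖x‖ * ‖F n w‖ < 2 * ‖(inner ℂ x (F n w) : ℂ)‖) :
    ∃ f : ℂ → MN N, Geo.LimOf 𝒰 U F t s f := by
  classical
  have key : ∀ z ∈ U, ∃ (r ρ : ℝ) (g : ℂ → EN N), Tendsto (fun n => ∑ a ∈ (t n).filter (fun a => ‖a - z‖ < r), √(s n a)) (𝒰 : Filter ℕ) (𝓝 0) ∧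
      0 < ρ ∧ ball z ρ ⊆ U ∧ DifferentiableOn ℂ g (ball z ρ) ∧ (∀ w ∈ ball z ρ, g w ≠ 0) ∧
      ∀ w ∈ ball z ρ, ∀ v : ℕ → ℂ, Tendsto v (𝒰 : Filter ℕ) (𝓝 w) →
        (∀ᶠ n in (𝒰 : Filter ℕ), Far ((t n).filter (fun a => ‖a - z‖ < r)) (s n) (v n)) →
        Tendsto (fun n => pr (F n (v n))) (𝒰 : Filter ℕ) (𝓝 (pr (g w))) := by
    intro z hz
    obtain ⟨r₁, hr₁, h1, h2⟩ := hsm z hz
    obtain ⟨r₂, hr₂, h3⟩ := hloc z hz
    obtain ⟨ρ, g, hρ, hg1, hg2, hg3⟩ := holD_loc 𝒰 F t s hs hsep z hr₁ h1 h2 hr₂ h3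
    obtain ⟨ρ', hρ', hU'⟩ := Metric.isOpen_iff.1 hU z hz
    have hb : ball z (min ρ ρ') ⊆ ball z ρ := ball_subset_ball (min_le_left _ _)
    exact ⟨r₁, min ρ ρ', g, h2, lt_min hρ hρ', (ball_subset_ball (min_le_right _ _)).trans hU', hg1.mono hb,
      fun w hw => hg2 w (hb hw), fun w hw => hg3 w (hb hw)⟩
  choose! R ρ g hsum hρ hbU hd h0 hlim using key
  -- the local limits fit together
  have hfg : ∀ z ∈ U, ∀ w ∈ ball z (ρ z), pr (g w w) = pr (g z w) := by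
    intro z hz w hw
    have hwU := hbU z hz hw
    obtain ⟨v, hv1, hv2⟩ := holD_seq 𝒰 (fun n => (t n).filter (fun a => ‖a - z‖ < R z) ∪ (t n).filter (fun a => ‖a - w‖ < R w)) s
      (fun n a ha => by
        rcases Finset.mem_union.1 ha with h | h
        · exact hs n a (Finset.mem_filter.1 h).1
        · exact hs n a (Finset.mem_filter.1 h).1)
      (by
        refine squeeze_zero (fun n => Finset.sum_nonneg fun _ _ => Real.sqrt_nonneg _) (fun n => ?_) (by simpa using (hsum z hz).add (hsum w hwU))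
        have h1 := Finset.sum_union_inter (s₁ := (t n).filter (fun a => ‖a - z‖ < R z)) (s₂ := (t n).filter (fun a => ‖a - w‖ < R w))
          (f := fun a => √(s n a))
        have h2 : 0 ≤ ∑ a ∈ (t n).filter (fun a => ‖a - z‖ < R z) ∩ (t n).filter (fun a => ‖a - w‖ < R w), √(s n a) :=
          Finset.sum_nonneg fun _ _ => Real.sqrt_nonneg _
        linarith) w
    have h1 := hlim z hz w hw v hv1 (Eventually.of_forall fun n a ha _ => hv2 n a (Finset.mem_union_left _ ha))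
    have h2 := hlim w hwU w (mem_ball_self (hρ w hwU)) v hv1 (Eventually.of_forall fun n a ha _ => hv2 n a (Finset.mem_union_right _ ha))
    exact tendsto_nhds_unique h2 h1
  refine ⟨fun z => pr (g z z), ⟨fun z hz => ?_, fun L hL hLc ε hε => ?_⟩⟩
  · refine ⟨g z, (hd z hz).analyticAt (ball_mem_nhds z (hρ z hz)), ?_⟩
    filter_upwards [ball_mem_nhds z (hρ z hz)] with w hw
    exact ⟨h0 z hz w hw, hfg z hz w hw⟩
  · by_contra hcon
    rw [← Ultrafilter.eventually_not] at hcon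
    have h1 : ∀ᶠ n in (𝒰 : Filter ℕ), ∃ z ∈ L, Far (t n) (s n) z ∧ ε ≤ dist (pr (F n z)) (pr (g z z)) := by
      filter_upwards [hcon] with n hn
      push Not at hn
      exact hn
    have h2 : ∀ n, ∃ z : ℂ, (∃ z ∈ L, Far (t n) (s n) z ∧ ε ≤ dist (pr (F n z)) (pr (g z z))) →
        z ∈ L ∧ Far (t n) (s n) z ∧ ε ≤ dist (pr (F n z)) (pr (g z z)) := by
      intro n
      by_cases h : ∃ z ∈ L, Far (t n) (s n) z ∧ ε ≤ dist (pr (F n z)) (pr (g z z))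
      · obtain ⟨z, hz⟩ := h
        exact ⟨z, fun _ => hz⟩
      · exact ⟨0, fun h' => absurd h' h⟩
    choose v hv using h2
    have hv' : ∀ᶠ n in (𝒰 : Filter ℕ), v n ∈ L ∧ Far (t n) (s n) (v n) ∧ ε ≤ dist (pr (F n (v n))) (pr (g (v n) (v n))) := by
      filter_upwards [h1] with n hn
      exact hv n hn
    obtain ⟨z, hzL, hz⟩ := hLc.ultrafilter_le_nhds (𝒰.map v) (by
      rw [Ultrafilter.coe_map, le_principal_iff, mem_map]
      filter_upwards [hv'] with n hn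
      exact hn.1)
    have hz' : Tendsto v (𝒰 : Filter ℕ) (𝓝 z) := hz
    have hzU := hL hzL
    have h3 := hlim z hzU z (mem_ball_self (hρ z hzU)) v hz' (by
      filter_upwards [hv'] with n hn a ha h
      exact hn.2.1 a (Finset.mem_filter.1 ha).1 h)
    have h4 : Tendsto (fun n => pr (g (v n) (v n))) (𝒰 : Filter ℕ) (𝓝 (pr (g z z))) := by
      have h5 : ContinuousAt (g z) z := ((hd z hzU).differentiableAt (ball_mem_nhds z (hρ z hzU))).continuousAt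
      have h6 : Tendsto (fun n => pr (g z (v n))) (𝒰 : Filter ℕ) (𝓝 (pr (g z z))) :=
        ((Pool.Agent.H62.EF.continuousAt_pr (h0 z hzU z (mem_ball_self (hρ z hzU)))).tendsto.comp h5.tendsto).comp hz'
      refine h6.congr' ?_
      filter_upwards [hz'.eventually (ball_mem_nhds z (hρ z hzU))] with n hn
      exact (hfg z hzU _ hn).symm
    have h5 := h3.dist h4
    rw [dist_self] at h5
    have h6 : ∀ᶠ n in (𝒰 : Filter ℕ), dist (pr (F n (v n))) (pr (g (v n) (v n))) < ε := h5.eventually (gt_mem_nhds hε)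
    obtain ⟨n, hn1, hn2⟩ := (h6.and hv').exists
    exact absurd hn1 (not_lt.2 hn2.2.2)

end Pool.Agent.SR3
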