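import Pool.Agent.SR3.RimB
import Pool.Agent.SR3.Grd

/-!
# SR3 HolE: the holes in the disc of radius `θ d`, `θ < 1`

PROOF.  `W := {z ∈ closedBall z₀ (θ d) : log ‖F z‖ ≤ B₃}` is compact, `infDist z ≥ (1 - θ) d` on `W`.  `exists_rim` gives `s z`, `y z` for `z ∈ W`; if `z' ∈ W` and
`s z / 2 ≤ ‖z' - z‖ ≤ K s z` then `B₃ < log ‖F z'‖` (`Rim.ann`), a contradiction; `greedy`.
-/

set_option autoImplicit false

open Topology Filter Metric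

noncomputable section

namespace Pool.Agent.SR3

open Pool.Agent.H36.BP (EN fs wd Sub OrdTwo)
open Pool.Agent.H14.PP (IsCone Tan)
open Pool.Agent.SY (Ent)
open Pool.Agent.SDA (EnergyK Near AffOpen Nm nForms)
open Pool.Agent.H62.EF (MN pr)
open Pool.Agent.G3 (LLift)
open Geo (Gd)

variable {N : ℕ} {G : Geo N} {T : Set (EN N)} {rho : EN N → ℝ} {M : ℕ} {c₀ C δ : ℝ} {g : (ℂ → EN N) → ℂ → ℝ}

theorem exists_holes (hG : G.Ok) (hM : G.Met T rho M c₀ C δ g) (hQ : G.QN rho) {Y : Finset (EN N)} (hY : G.Ends Y) : ∃ ε₁ : ℝ, 0 < ε₁ ∧ ∀ B₃ θ : ℝ, 0 < θ → θ < 1 → ∃ η : ℝ, 0 < η ∧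
    ∀ ε : ℝ, 0 < ε → ε ≤ ε₁ → ∀ K : ℝ, 2 ≤ K → ∃ B₄ R : ℝ, 0 < R ∧ ∀ (q : G.J → ℂ) (F : ℂ → EN N), G.Cl T q F → ∀ z₀, R ≤ infDist z₀ (Gd rho δ F) →
      ∃ (t : Finset ℂ) (s : ℂ → ℝ) (y : ℂ → EN N),
        G.Holes Y B₃ B₄ ε K (Real.exp (-(η * infDist z₀ (Gd rho δ F)))) F z₀ (θ * infDist z₀ (Gd rho δ F)) t s y := by
  obtain ⟨ε₁, hε₁, h⟩ := exists_rim hG hM hQ hY
  refine ⟨ε₁, hε₁, fun B₃ θ hθ0 hθ1 => ?_⟩
  obtain ⟨η, hη, h⟩ := h B₃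
  have h1θ : 0 < 1 - θ := by linarith
  refine ⟨η * (1 - θ), mul_pos hη h1θ, fun ε hε hεε K hK => ?_⟩
  obtain ⟨B₄, R, hR, h⟩ := h ε hε hεε K
  refine ⟨B₄, R / (1 - θ), div_pos hR h1θ, fun q F hF z₀ hz₀ => ?_⟩
  set d : ℝ := infDist z₀ (Gd rho δ F) with hd
  set W : Set ℂ := {z | z ∈ closedBall z₀ (θ * d) ∧ Real.log ‖F z‖ ≤ B₃} with hW
  have hne : ∀ z, ‖F z‖ ≠ 0 := fun z => norm_ne_zero_iff.2 (ne0 hG (hF.ent.mem z))
  have hcont : Continuous fun z => Real.log ‖F z‖ := (hF.ent.diff.continuous.norm).log hne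
  have hWc : IsCompact W := (isCompact_closedBall z₀ (θ * d)).inter_right (isClosed_le hcont continuous_const)
  have hdist : ∀ z ∈ W, (1 - θ) * d ≤ infDist z (Gd rho δ F) := by
    intro z hz
    have h1 : d ≤ infDist z (Gd rho δ F) + dist z₀ z := infDist_le_infDist_add_dist
    have h2 : dist z z₀ ≤ θ * d := mem_closedBall.1 hz.1
    rw [dist_comm] at h2
    linarith
  have hRd : R ≤ (1 - θ) * d := by
    have := (div_le_iff₀ h1θ).1 hz₀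
    linarith
  have hex : ∀ z : ℂ, ∃ (s : ℝ) (y : EN N), z ∈ W → 0 < s ∧ s ≤ Real.exp (-(η * infDist z (Gd rho δ F))) ∧ G.Rim Y B₃ B₄ ε K (fun w => F (z + s * w)) y := by
    intro z
    by_cases hz : z ∈ W
    · obtain ⟨s, y, h1, h2, h3⟩ := h q F hF z (hRd.trans (hdist z hz)) hz.2
      exact ⟨s, y, fun _ => ⟨h1, h2, h3⟩⟩
    · exact ⟨0, 0, fun h => absurd h hz⟩
  choose s y hsy using hex
  have hann : ∀ z ∈ W, ∀ z' ∈ W, ‖z' - z‖ < s z / 2 ∨ K * s z < ‖z' - z‖ := by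
    intro z hz z' hz'
    by_contra hcon
    push Not at hcon
    obtain ⟨h1, h2⟩ := hcon
    obtain ⟨hs, -, hrim⟩ := hsy z hz
    have hsc : (s z : ℂ) ≠ 0 := by exact_mod_cast hs.ne'
    have hn : ‖(z' - z) / (s z : ℂ)‖ = ‖z' - z‖ / s z := by
      rw [norm_div, Complex.norm_real, Real.norm_of_nonneg hs.le]
    have h3 := (hrim.ann ((z' - z) / (s z : ℂ)) (by rw [hn, le_div_iff₀ hs]; linarith) (by rw [hn, div_le_iff₀ hs]; exact h2)).1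
    have h4 : z + (s z : ℂ) * ((z' - z) / (s z : ℂ)) = z' := by
      rw [mul_div_cancel₀ _ hsc]
      ring
    rw [h4] at h3
    exact absurd hz'.2 (not_le.2 h3)
  obtain ⟨t, ht, hsep, hcov⟩ := greedy hWc hK (fun z hz => (hsy z hz).1) hann
  refine ⟨t, s, y, ?_, ?_, hsep, ?_, ?_⟩
  · exact fun a ha => (ht a ha).1
  · intro a ha
    refine ⟨(hsy a (ht a ha)).1, (hsy a (ht a ha)).2.1.trans (Real.exp_le_exp.2 ?_)⟩
    have h1 := hdist a (ht a ha)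
    have h2 := mul_le_mul_of_nonneg_left h1 hη.le
    nlinarith
  · exact fun z hz hl => hcov z ⟨hz, hl⟩
  · exact fun a ha => (hsy a (ht a ha)).2.2

end Pool.Agent.SR3
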