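import Pool.Agent.SR3.GDefs

/-!
# SR3 Win: contour integrals of logarithmic derivatives

* `circle_close`: Rouché; `log (f / g)` is a primitive of the difference on the circle.
* `circle_zero`: `f = (z - w) ^ k * G`, `G` without zeros on the closed disc.
* `circle_poly`: induction on the degree.
-/

set_option autoImplicit false

open Topology Filter Metric

noncomputable section

namespace Pool.Agent.SR3

private theorem win_int {f : ℂ → ℂ} {w : ℂ} {ρ : ℝ} (hρ : 0 < ρ) (hf : ∀ z ∈ sphere w ρ, AnalyticAt ℂ f z) (h0 : ∀ z ∈ sphere w ρ, f z ≠ 0) :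
    CircleIntegrable (fun z => logDeriv f z) w ρ := by
  refine ContinuousOn.circleIntegrable hρ.le fun z hz => ?_
  have h1 : ContinuousAt (fun z => deriv f z / f z) z := (hf z hz).deriv.continuousAt.div (hf z hz).continuousAt (h0 z hz)
  exact h1.continuousWithinAt

theorem circle_close {f g : ℂ → ℂ} {w : ℂ} {ρ : ℝ} (hρ : 0 < ρ) (hf : ∀ z ∈ sphere w ρ, AnalyticAt ℂ f z) (hg : ∀ z ∈ sphere w ρ, AnalyticAt ℂ g z)
    (h : ∀ z ∈ sphere w ρ, ‖f z - g z‖ < ‖g z‖) : (∮ z in C(w, ρ), logDeriv f z) = ∮ z in C(w, ρ), logDeriv g z := by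
  have hg0 : ∀ z ∈ sphere w ρ, g z ≠ 0 := fun z hz h1 => by
    have h2 := h z hz
    rw [h1, norm_zero] at h2
    exact absurd h2 (not_lt.2 (norm_nonneg _))
  have hf0 : ∀ z ∈ sphere w ρ, f z ≠ 0 := fun z hz h1 => by
    have h2 := h z hz
    rw [h1, zero_sub, norm_neg] at h2
    exact lt_irrefl _ h2
  have h1 : (∮ z in C(w, ρ), (logDeriv f z - logDeriv g z)) = 0 := by
    refine circleIntegral.integral_eq_zero_of_hasDerivWithinAt (f := fun z => Complex.log (f z / g z)) hρ.le fun z hz => ?_
    have hdf := (hf z hz).differentiableAt.hasDerivAt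
    have hdg := (hg z hz).differentiableAt.hasDerivAt
    have hq := hdf.div hdg (hg0 z hz)
    have hslit : f z / g z ∈ Complex.slitPlane := by
      have h3 : ‖f z / g z - 1‖ < 1 := by
        have h4 : f z / g z - 1 = (f z - g z) / g z := by
          rw [sub_div, div_self (hg0 z hz)]
        rw [h4, norm_div, div_lt_one (norm_pos_iff.2 (hg0 z hz))]
        exact h z hz
      have h5 := Complex.mem_slitPlane_of_norm_lt_one h3
      rwa [add_sub_cancel] at h5
    have h6 := HasDerivAt.clog hq hslit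
    refine HasDerivAt.hasDerivWithinAt (HasDerivAt.congr_deriv h6 ?_)
    have e1 := hf0 z hz
    have e2 := hg0 z hz
    show _ = deriv f z / f z - deriv g z / g z
    have e3 : (f / g) z = f z / g z := rfl
    try rw [e3]
    field_simp
  rw [circleIntegral.integral_sub (win_int hρ hf hf0) (win_int hρ hg hg0)] at h1
  exact sub_eq_zero.1 h1

/-- an isolated zero in the centre -/
theorem circle_zero {f : ℂ → ℂ} {w : ℂ} {ρ : ℝ} (hρ : 0 < ρ) (hf : ∀ z ∈ closedBall w ρ, AnalyticAt ℂ f z) (h0 : f w = 0)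
    (h1 : ∀ z ∈ closedBall w ρ, z ≠ w → f z ≠ 0) : ∃ k : ℕ, 1 ≤ k ∧ (∮ z in C(w, ρ), logDeriv f z) = 2 * Real.pi * Complex.I * k := by
  classical
  have hw : w ∈ closedBall w ρ := mem_closedBall_self hρ.le
  have hne : ¬ ∀ᶠ z in 𝓝 w, f z = 0 := by
    intro h2
    have h3 : ∀ᶠ z in 𝓝[≠] w, f z = 0 := h2.filter_mono nhdsWithin_le_nhds
    have h4 : ∀ᶠ z in 𝓝[≠] w, z ∈ closedBall w ρ := nhdsWithin_le_nhds (closedBall_mem_nhds w hρ)
    have h5 : ∀ᶠ z in 𝓝[≠] w, z ≠ w := self_mem_nhdsWithin
    obtain ⟨z, ⟨e1, e2⟩, e3⟩ := ((h3.and h4).and h5).exists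
    exact h1 z e2 e3 e1
  obtain ⟨k, g₀, hg₀, hg0, hev⟩ := (hf w hw).exists_eventuallyEq_pow_smul_nonzero_iff.2 hne
  have hk : 1 ≤ k := by
    rcases Nat.eq_zero_or_pos k with h2 | h2
    · exfalso
      have h3 := hev.self_of_nhds
      rw [h2, pow_zero, one_smul, h0] at h3
      exact hg0 h3.symm
    · exact h2
  refine ⟨k, hk, ?_⟩
  set G : ℂ → ℂ := fun z => if z = w then g₀ w else f z / (z - w) ^ k with hG
  have hGw : G =ᶠ[𝓝 w] g₀ := by
    filter_upwards [hev] with z hz
    by_cases hzw : z = w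
    · rw [hG]; simp only [hzw, if_true]
    · have e1 : (z - w) ^ k ≠ 0 := pow_ne_zero _ (sub_ne_zero.2 hzw)
      show (if z = w then g₀ w else f z / (z - w) ^ k) = g₀ z
      rw [if_neg hzw, hz, smul_eq_mul, mul_div_cancel_left₀ _ e1]
  have hGz : ∀ z, z ≠ w → G =ᶠ[𝓝 z] fun z => f z / (z - w) ^ k := by
    intro z hz
    filter_upwards [isOpen_ne.mem_nhds hz] with u hu
    exact if_neg hu
  have hGa : ∀ z ∈ closedBall w ρ, AnalyticAt ℂ G z := by
    intro z hz
    by_cases hzw : z = w
    · rw [hzw]; exact hg₀.congr hGw.symm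
    · refine AnalyticAt.congr ?_ (hGz z hzw).symm
      exact (hf z hz).div ((analyticAt_id.sub analyticAt_const).pow k) (pow_ne_zero _ (sub_ne_zero.2 hzw))
  have hG0 : ∀ z ∈ closedBall w ρ, G z ≠ 0 := by
    intro z hz
    by_cases hzw : z = w
    · have : G z = g₀ w := if_pos hzw
      rw [this]; exact hg0
    · have : G z = f z / (z - w) ^ k := if_neg hzw
      rw [this]
      exact div_ne_zero (h1 z hz hzw) (pow_ne_zero _ (sub_ne_zero.2 hzw))
  have hsph : ∀ z ∈ sphere w ρ, logDeriv f z = (k : ℂ) * (z - w)⁻¹ + logDeriv G z := by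
    intro z hz
    have hzw : z ≠ w := ne_of_mem_sphere hz hρ.ne'
    have hzw' : z - w ≠ 0 := sub_ne_zero.2 hzw
    have hzc : z ∈ closedBall w ρ := sphere_subset_closedBall hz
    have e1 : f =ᶠ[𝓝 z] fun u => (u - w) ^ k * G u := by
      filter_upwards [hGz z hzw, isOpen_ne.mem_nhds hzw] with u hu hu'
      rw [hu, mul_div_cancel₀]
      exact pow_ne_zero _ (sub_ne_zero.2 hu')
    rw [(logDeriv_congr_nhds e1).self_of_nhds]
    have e2 : DifferentiableAt ℂ (fun u : ℂ => (u - w) ^ k) z := by fun_prop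
    rw [logDeriv_mul (f := fun u : ℂ => (u - w) ^ k) (g := G) z (pow_ne_zero k hzw') (hG0 z hzc) e2 (hGa z hzc).differentiableAt]
    congr 1
    have e3 : DifferentiableAt ℂ (fun u : ℂ => u - w) z := by fun_prop
    rw [logDeriv_fun_pow e3 k]
    congr 1
    rw [logDeriv_apply]
    have e4 : deriv (fun u : ℂ => u - w) z = 1 := by simp
    rw [e4, one_div]
  have hint1 : CircleIntegrable (fun z : ℂ => (k : ℂ) * (z - w)⁻¹) w ρ := by
    refine ContinuousOn.circleIntegrable hρ.le fun z hz => ?_
    have hzw' : z - w ≠ 0 := sub_ne_zero.2 (ne_of_mem_sphere hz hρ.ne')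
    have : ContinuousAt (fun z : ℂ => (k : ℂ) * (z - w)⁻¹) z := continuousAt_const.mul ((continuousAt_id.sub continuousAt_const).inv₀ hzw')
    exact this.continuousWithinAt
  have hint2 : CircleIntegrable (fun z => logDeriv G z) w ρ :=
    win_int hρ (fun z hz => hGa z (sphere_subset_closedBall hz)) fun z hz => hG0 z (sphere_subset_closedBall hz)
  rw [circleIntegral.integral_congr hρ.le hsph, circleIntegral.integral_add hint1 hint2]
  have hz2 : (∮ z in C(w, ρ), logDeriv G z) = 0 := by
    have ha : ∀ z ∈ closedBall w ρ, AnalyticAt ℂ (fun z => logDeriv G z) z := fun z hz =>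
      ((hGa z hz).deriv.div (hGa z hz) (hG0 z hz) : AnalyticAt ℂ (fun z => deriv G z / G z) z)
    exact Complex.circleIntegral_eq_zero_of_differentiable_on_off_countable hρ.le Set.countable_empty
      (fun z hz => (ha z hz).continuousAt.continuousWithinAt) fun z hz => (ha z (ball_subset_closedBall hz.1)).differentiableAt
  rw [hz2, add_zero, circleIntegral.integral_const_mul, circleIntegral.integral_sub_inv_of_mem_ball (mem_ball_self hρ)]
  ring

/-- polynomials with all zeros in the disc -/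
theorem circle_poly {p : Polynomial ℂ} (hp : p ≠ 0) {ρ : ℝ} (hρ : 0 < ρ) (h : ∀ z, p.eval z = 0 → ‖z‖ < ρ) :
    (∮ z in C(0, ρ), logDeriv (fun z => p.eval z) z) = 2 * Real.pi * Complex.I * p.natDegree := by
  induction hn : p.natDegree generalizing p with
  | zero =>
    obtain ⟨a, ha⟩ : ∃ a, p = Polynomial.C a := ⟨_, Polynomial.eq_C_of_natDegree_eq_zero hn⟩
    have h1 : (fun z => p.eval z) = fun _ : ℂ => a := by
      funext z
      rw [ha, Polynomial.eval_C]
    have h2 : (fun z : ℂ => logDeriv (fun _ : ℂ => a) z) = fun _ => 0 := by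
      funext z
      rw [logDeriv_const]
      rfl
    rw [h1, h2, Nat.cast_zero, mul_zero]
    have h3 := circleIntegral.integral_const_mul (0 : ℂ) (fun _ => (0 : ℂ)) 0 ρ
    simpa using h3
  | succ n ih =>
    have hdeg : p.degree ≠ 0 := by
      intro h2
      have h3 : p.natDegree = 0 := Polynomial.natDegree_eq_of_degree_eq_some h2
      rw [hn] at h3
      exact Nat.succ_ne_zero n h3
    obtain ⟨r, hr⟩ := IsAlgClosed.exists_root p hdeg
    have hr' : p.eval r = 0 := hr
    obtain ⟨q, hq⟩ := Polynomial.dvd_iff_isRoot.2 hr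
    have hq0 : q ≠ 0 := by
      rintro rfl
      exact hp (by rw [hq, mul_zero])
    have hqn : q.natDegree = n := by
      have h2 : p.natDegree = (Polynomial.X - Polynomial.C r).natDegree + q.natDegree := by
        rw [hq]
        exact Polynomial.natDegree_mul (Polynomial.X_sub_C_ne_zero r) hq0
      rw [Polynomial.natDegree_X_sub_C, hn] at h2
      omega
    have hqz : ∀ z, q.eval z = 0 → ‖z‖ < ρ := fun z hz => h z (by rw [hq, Polynomial.eval_mul, hz, mul_zero])
    have ih' := ih hq0 hqz hqn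
    have hrb : r ∈ ball (0 : ℂ) ρ := mem_ball_zero_iff.2 (h r hr')
    have hqs : ∀ z ∈ sphere (0 : ℂ) ρ, q.eval z ≠ 0 := by
      intro z hz h2
      have h3 := hqz z h2
      rw [mem_sphere_zero_iff_norm] at hz
      exact h3.ne hz
    have hrs : ∀ z ∈ sphere (0 : ℂ) ρ, z - r ≠ 0 := by
      intro z hz h2
      rw [sub_eq_zero] at h2
      rw [h2, mem_sphere_zero_iff_norm] at hz
      exact (h r hr').ne hz
    have hqd : ∀ z, AnalyticAt ℂ (fun z => q.eval z) z := fun z => q.differentiable.analyticAt z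
    have hsph : ∀ z ∈ sphere (0 : ℂ) ρ, logDeriv (fun z => p.eval z) z = (z - r)⁻¹ + logDeriv (fun z => q.eval z) z := by
      intro z hz
      have e1 : (fun z => p.eval z) = fun z => (z - r) * q.eval z := by
        funext u
        rw [hq, Polynomial.eval_mul, Polynomial.eval_sub, Polynomial.eval_X, Polynomial.eval_C]
      have e2 : DifferentiableAt ℂ (fun u : ℂ => u - r) z := by fun_prop
      rw [e1, logDeriv_mul (f := fun u : ℂ => u - r) (g := fun u => q.eval u) z (hrs z hz) (hqs z hz) e2 (hqd z).differentiableAt]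
      congr 1
      rw [logDeriv_apply]
      have e4 : deriv (fun u : ℂ => u - r) z = 1 := by simp
      rw [e4, one_div]
    have hint1 : CircleIntegrable (fun z : ℂ => (z - r)⁻¹) 0 ρ := by
      refine ContinuousOn.circleIntegrable hρ.le fun z hz => ?_
      have : ContinuousAt (fun z : ℂ => (z - r)⁻¹) z := (continuousAt_id.sub continuousAt_const).inv₀ (hrs z hz)
      exact this.continuousWithinAt
    have hint2 : CircleIntegrable (fun z => logDeriv (fun z => q.eval z) z) 0 ρ := win_int hρ (fun z _ => hqd z) hqs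
    rw [circleIntegral.integral_congr hρ.le hsph, circleIntegral.integral_add hint1 hint2, circleIntegral.integral_sub_inv_of_mem_ball hrb, ih']
    push_cast
    ring

end Pool.Agent.SR3
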