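import Pool.Agent.SR3.LinL
import Pool.Agent.SR3.Win
import Pool.Agent.SR3.ALam
import Pool.Agent.SY.NBa

/-!
# SR3 HolP: near holes are parallel

Along an affine line the local equations `(E i φ) l / ⟪y, φ⟫ ^ c i` of the components through the end `y` are rational functions with zeros at infinity, of
orders `p i l`; so the quotients of their powers with the same order at infinity are close to a constant near the end.  There are finitely many lines, so this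
holds for all lines at all points at distance at most `ε₁` from the ends.  So the winding numbers on the rims of two near holes are proportional to `p`.
-/

set_option autoImplicit false

open Topology Filter Metric

noncomputable section

namespace Pool.Agent.SR3

open Pool.Agent.H36.BP (EN fs wd Sub OrdTwo)
open Pool.Agent.H62.EF (MN pr)
open Geo (Gd)

variable {N : ℕ} {G : Geo N} {T : Set (EN N)} {rho : EN N → ℝ} {M : ℕ} {c₀ C δ : ℝ} {g : (ℂ → EN N) → ℂ → ℝ}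

namespace HolP

/-! ### Polynomials near infinity -/

/-- a polynomial divided by its leading power tends to the leading coefficient -/
theorem poly_lead (P : Polynomial ℂ) : Tendsto (fun u : ℂ => P.eval u / u ^ P.natDegree) (cocompact ℂ) (𝓝 P.leadingCoeff) := by
  have h1 : Tendsto (fun u : ℂ => u⁻¹) (cocompact ℂ) (𝓝 0) := by
    rw [← Metric.cobounded_eq_cocompact]
    exact tendsto_inv₀_cobounded
  have h2 : Tendsto (fun u : ℂ => P.reverse.eval u⁻¹) (cocompact ℂ) (𝓝 (P.reverse.eval 0)) :=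
    (P.reverse.continuous.tendsto 0).comp h1
  have h3 : P.reverse.eval 0 = P.leadingCoeff := by
    rw [← Polynomial.coeff_zero_eq_eval_zero, Polynomial.coeff_zero_reverse]
  rw [h3] at h2
  refine h2.congr' ?_
  have h4 : ∀ᶠ u : ℂ in cocompact ℂ, u ≠ 0 := by
    have := (isCompact_singleton (x := (0 : ℂ))).compl_mem_cocompact
    filter_upwards [this] with u hu using hu
  filter_upwards [h4] with u hu
  have hpw : u ^ P.natDegree ≠ 0 := pow_ne_zero _ hu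
  let _ : Invertible u := invertibleOfNonzero hu
  have h5 := Polynomial.eval₂_reverse_mul_pow (RingHom.id ℂ) u P
  rw [invOf_eq_inv] at h5
  rw [eq_div_iff hpw]
  exact h5

theorem ne_zero_ev : ∀ᶠ u : ℂ in cocompact ℂ, u ≠ 0 := by
  have := (isCompact_singleton (x := (0 : ℂ))).compl_mem_cocompact
  filter_upwards [this] with u hu using hu

theorem one_le_ev : ∀ᶠ u : ℂ in cocompact ℂ, 1 ≤ ‖u‖ := by
  have := (isCompact_closedBall (0 : ℂ) 1).compl_mem_cocompact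
  filter_upwards [this] with u hu
  rw [Set.mem_compl_iff, mem_closedBall_zero_iff, not_le] at hu
  exact hu.le

/-- the degrees -/
theorem deg_lt {F D : Polynomial ℂ} {c : ℕ} (hF : F ≠ 0) (hD : D ≠ 0)
    (h : Tendsto (fun u : ℂ => F.eval u / D.eval u ^ c) (cocompact ℂ) (𝓝 0)) : F.natDegree < c * D.natDegree := by
  by_contra hlt
  rw [not_lt] at hlt
  obtain ⟨k, hk⟩ := Nat.exists_eq_add_of_le hlt
  have hF1 : F.leadingCoeff ≠ 0 := Polynomial.leadingCoeff_ne_zero.2 hF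
  have hD1 : D.leadingCoeff ≠ 0 := Polynomial.leadingCoeff_ne_zero.2 hD
  have h1 : Tendsto (fun u : ℂ => (F.eval u / u ^ F.natDegree) / (D.eval u / u ^ D.natDegree) ^ c) (cocompact ℂ)
      (𝓝 (F.leadingCoeff / D.leadingCoeff ^ c)) := (poly_lead F).div ((poly_lead D).pow c) (pow_ne_zero _ hD1)
  have h2 : Tendsto (fun u : ℂ => (F.eval u / u ^ F.natDegree) / (D.eval u / u ^ D.natDegree) ^ c) (cocompact ℂ) (𝓝 0) := by
    rw [tendsto_zero_iff_norm_tendsto_zero] at h ⊢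
    refine squeeze_zero' (Eventually.of_forall fun u => norm_nonneg _) ?_ h
    filter_upwards [one_le_ev, ne_zero_ev] with u hu hu0
    have h3 : (F.eval u / u ^ F.natDegree) / (D.eval u / u ^ D.natDegree) ^ c = (F.eval u / D.eval u ^ c) / u ^ k := by
      rw [hk, pow_add, div_pow, ← pow_mul, mul_comm D.natDegree c]
      by_cases hD0 : D.eval u = 0
      · by_cases hc : c = 0
        · subst hc
          simp
        · rw [hD0, zero_pow hc]
          simp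
      · field_simp
    rw [h3, norm_div, norm_pow]
    exact div_le_self (norm_nonneg _) (one_le_pow₀ hu)
  have h4 := tendsto_nhds_unique h1 h2
  rw [div_eq_zero_iff] at h4
  rcases h4 with h4 | h4
  · exact hF1 h4
  · exact pow_ne_zero _ hD1 h4

/-- two polynomials of the same degree are proportional near infinity -/
theorem ratio {P Q : Polynomial ℂ} (hP : P ≠ 0) (hQ : Q ≠ 0) (h : P.natDegree = Q.natDegree) :
    ∀ᶠ u : ℂ in cocompact ℂ, ‖P.eval u - P.leadingCoeff / Q.leadingCoeff * Q.eval u‖ < ‖P.leadingCoeff / Q.leadingCoeff * Q.eval u‖ := by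
  have hP1 : P.leadingCoeff ≠ 0 := Polynomial.leadingCoeff_ne_zero.2 hP
  have hQ1 : Q.leadingCoeff ≠ 0 := Polynomial.leadingCoeff_ne_zero.2 hQ
  have hc : P.leadingCoeff / Q.leadingCoeff ≠ 0 := div_ne_zero hP1 hQ1
  have h1 : Tendsto (fun u : ℂ => (P.eval u / u ^ P.natDegree) / (Q.eval u / u ^ Q.natDegree)) (cocompact ℂ)
      (𝓝 (P.leadingCoeff / Q.leadingCoeff)) := (poly_lead P).div (poly_lead Q) hQ1
  have h2 : ∀ᶠ u : ℂ in cocompact ℂ, Q.eval u / u ^ Q.natDegree ≠ 0 := (poly_lead Q).eventually_ne hQ1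
  have h3 : ∀ᶠ u : ℂ in cocompact ℂ, ‖(P.eval u / u ^ P.natDegree) / (Q.eval u / u ^ Q.natDegree) - P.leadingCoeff / Q.leadingCoeff‖ <
      ‖P.leadingCoeff / Q.leadingCoeff‖ := by
    have := (tendsto_iff_norm_sub_tendsto_zero.1 h1).eventually (gt_mem_nhds (norm_pos_iff.2 hc))
    exact this
  filter_upwards [h2, h3, ne_zero_ev] with u hu1 hu2 hu0
  have hpw : u ^ Q.natDegree ≠ 0 := pow_ne_zero _ hu0
  have hQu : Q.eval u ≠ 0 := by
    intro h0
    rw [h0, zero_div] at hu1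
    exact hu1 rfl
  have h4 : (P.eval u / u ^ P.natDegree) / (Q.eval u / u ^ Q.natDegree) = P.eval u / Q.eval u := by
    rw [h]
    field_simp
  rw [h4] at hu2
  have h5 : P.eval u - P.leadingCoeff / Q.leadingCoeff * Q.eval u = (P.eval u / Q.eval u - P.leadingCoeff / Q.leadingCoeff) * Q.eval u := by
    rw [sub_mul, div_mul_cancel₀ _ hQu]
  rw [h5, norm_mul, norm_mul]
  exact mul_lt_mul_of_pos_right hu2 (norm_pos_iff.2 hQu)

/-- a homogeneous function along a line is a polynomial -/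
theorem poly_comp (hG : G.Ok) {φ : ℂ → EN N} (hφ : G.Line φ) {f : EN N → ℂ} {d : ℕ} (hf : Differentiable ℂ f) {B : ℝ}
    (hB : ∀ x : EN N, ‖x‖ ≠ 0 → ‖f x‖ ≤ B * ‖x‖ ^ d) (hB0 : 0 ≤ B) : ∃ P : Polynomial ℂ, ∀ u, f (φ u) = P.eval u := by
  obtain ⟨C, k, hC⟩ := hφ.pol
  refine Pool.Agent.SY.exists_poly_of_growth (k * d) (fun u => f (φ u)) (B * C ^ d) (hf.comp hφ.diff) fun z => ?_
  have h0 : ‖φ z‖ ≠ 0 := norm_ne_zero_iff.2 (ne0 hG (hφ.mem z))
  calc ‖f (φ z)‖ ≤ B * ‖φ z‖ ^ d := hB _ h0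
    _ ≤ B * (C * (1 + ‖z‖) ^ k) ^ d := by
        have := pow_le_pow_left₀ (norm_nonneg _) (hC z) d
        exact mul_le_mul_of_nonneg_left this hB0
    _ = B * C ^ d * (1 + ‖z‖) ^ (k * d) := by rw [mul_pow, ← pow_mul, mul_assoc]

/-- the two monomials in the local equations which have the same order at the end of a line are almost proportional, with the factor `c` -/
def Wn (G : Geo N) (y : EN N) (i i' : G.ι) (l l' : Fin (G.M + 1)) (a a' : ℕ) (c : ℂ) (x : EN N) : Prop :=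
  ‖(G.E i x).ofLp l ^ a' * (inner ℂ y x : ℂ) ^ (G.c i' * a) - c * ((G.E i' x).ofLp l' ^ a * (inner ℂ y x : ℂ) ^ (G.c i * a'))‖ <
    ‖c * ((G.E i' x).ofLp l' ^ a * (inner ℂ y x : ℂ) ^ (G.c i * a'))‖

theorem contE (hG : G.Ok) (i : G.ι) : Continuous (G.E i) := continuous_iff_continuousAt.2 fun x => (hG.anE i x).continuousAt

theorem diffE (hG : G.Ok) (i : G.ι) (l : Fin (G.M + 1)) : Differentiable ℂ fun x : EN N => (G.E i x).ofLp l := fun x =>
  ((EuclideanSpace.proj (𝕜 := ℂ) l).differentiable.differentiableAt).comp x (hG.anE i x).differentiableAt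

/-- the orders of the local equations at the end of a line -/
theorem line_data (hG : G.Ok) {Y : Finset (EN N)} (hY : G.Ends Y) {φ : ℂ → EN N} (hφ : G.Line φ) :
    ∃ y₀ ∈ Y, ∃ (p : G.ι → Fin (G.M + 1) → ℕ) (c : G.ι → G.ι → Fin (G.M + 1) → Fin (G.M + 1) → ℂ),
      ∀ᶠ u in cocompact ℂ, (∀ y ∈ Y, y ≠ y₀ → dist (pr y₀) (pr y) / 2 < dist (pr (φ u)) (pr y)) ∧
        ∀ i i' l l', (∃ ε > 0, G.LocEq ε y₀ i l) → (∃ ε > 0, G.LocEq ε y₀ i' l') → G.E i y₀ = 0 → G.E i' y₀ = 0 →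
          0 < p i l ∧ 0 < p i' l' ∧ Wn G y₀ i i' l l' (p i l) (p i' l') (c i i' l l') (φ u) := by
  obtain ⟨-, -, y₀, hy₀, hend⟩ := line_end hG hY hφ
  have hy₀K := hY.mem y₀ hy₀
  have hy0 : y₀ ≠ 0 := fun h => hG.cone.zero_notMem (h ▸ hy₀K.1)
  have hs0 : ((‖y₀‖ ^ 2 : ℝ) : ℂ) ≠ 0 := by
    have : (‖y₀‖ ^ 2 : ℝ) ≠ 0 := pow_ne_zero 2 (norm_ne_zero_iff.2 hy0)
    exact_mod_cast this
  -- the denominator
  obtain ⟨D, hD⟩ : ∃ D : Polynomial ℂ, ∀ u, (inner ℂ y₀ (φ u) : ℂ) = D.eval u :=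
    poly_comp hG hφ (f := fun x => inner ℂ y₀ x) (d := 1) (B := ‖y₀‖) ((innerSL ℂ y₀).differentiable)
      (fun x _ => by rw [pow_one]; exact norm_inner_le_norm _ _) (norm_nonneg _)
  -- the numerators
  have hFex : ∀ (i : G.ι) (l : Fin (G.M + 1)), ∃ F : Polynomial ℂ, ∀ u, (G.E i (φ u)).ofLp l = F.eval u := by
    intro i l
    obtain ⟨B, hB1, hB⟩ := ALam_hom (contE hG i) fun t x => by rw [hG.smulE]
    refine poly_comp hG hφ (f := fun x => (G.E i x).ofLp l) (d := G.c i) (B := B) (diffE hG i l) ?_ (by linarith)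
    intro x hx
    exact (PiLp.norm_apply_le _ l).trans (hB x hx)
  choose F hF using hFex
  have hdist : ∀ ε : ℝ, 0 < ε → ∀ᶠ u in cocompact ℂ, dist (pr (φ u)) (pr y₀) < ε := fun ε hε => (Metric.tendsto_nhds.1 hend) ε hε
  have hDne : ∀ᶠ u in cocompact ℂ, D.eval u ≠ 0 := by
    obtain ⟨δ', hδ, h⟩ := Pool.Agent.H62.EF.nm_close hy0 one_pos
    filter_upwards [hdist δ' hδ] with u hu
    rw [← hD]
    exact (h (φ u) (ne0 hG (hφ.mem u)) hu).1
  have hD0 : D ≠ 0 := by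
    intro h
    obtain ⟨u, hu⟩ := hDne.exists
    rw [h, Polynomial.eval_zero] at hu
    exact hu rfl
  have hnm : Tendsto (fun u => Pool.Agent.H62.EF.nm y₀ (φ u)) (cocompact ℂ) (𝓝 y₀) := by
    rw [Metric.tendsto_nhds]
    intro ε hε
    obtain ⟨δ', hδ, h⟩ := Pool.Agent.H62.EF.nm_close hy0 hε
    filter_upwards [hdist δ' hδ] with u hu
    rw [dist_eq_norm]
    exact (h (φ u) (ne0 hG (hφ.mem u)) hu).2
  have hlim : ∀ i l, G.E i y₀ = 0 → Tendsto (fun u => (F i l).eval u / D.eval u ^ G.c i) (cocompact ℂ) (𝓝 0) := by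
    intro i l hi
    have h1 : Tendsto (fun u => (G.E i (Pool.Agent.H62.EF.nm y₀ (φ u))).ofLp l) (cocompact ℂ) (𝓝 ((G.E i y₀).ofLp l)) :=
      ((EuclideanSpace.proj (𝕜 := ℂ) l).continuous.tendsto _).comp (((contE hG i).tendsto _).comp hnm)
    have h2 : (G.E i y₀).ofLp l = 0 := by rw [hi]; rfl
    rw [h2] at h1
    have h3 := h1.const_mul ((((‖y₀‖ ^ 2 : ℝ) : ℂ) ^ G.c i)⁻¹)
    rw [mul_zero] at h3
    refine h3.congr' ?_
    filter_upwards [hDne] with u hu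
    have h4 : (G.E i (Pool.Agent.H62.EF.nm y₀ (φ u))).ofLp l = (((‖y₀‖ ^ 2 : ℝ) : ℂ) / D.eval u) ^ G.c i * (F i l).eval u := by
      unfold Pool.Agent.H62.EF.nm
      rw [hG.smulE, ← hF, ← hD]
      rfl
    rw [h4, div_pow]
    have h5 := pow_ne_zero (G.c i) hs0
    have h6 := pow_ne_zero (G.c i) hu
    field_simp
  have hFne : ∀ i l, (∃ ε > 0, G.LocEq ε y₀ i l) → F i l ≠ 0 := by
    rintro i l ⟨ε, hε, cc, hcc, hloc⟩ h
    obtain ⟨u, hu⟩ := (hdist ε hε).exists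
    have h1 := hloc (φ u) (KX hG (hφ.mem u)) hu
    rw [hF, h, Polynomial.eval_zero, norm_zero] at h1
    have h2 := norm_pos_iff.2 (hG.neE i (φ u) (hφ.mem u))
    have := mul_pos hcc h2
    linarith
  refine ⟨y₀, hy₀, fun i l => G.c i * D.natDegree - (F i l).natDegree, fun i i' l l' =>
    (F i l ^ (G.c i' * D.natDegree - (F i' l').natDegree) * D ^ (G.c i' * (G.c i * D.natDegree - (F i l).natDegree))).leadingCoeff /
      (F i' l' ^ (G.c i * D.natDegree - (F i l).natDegree) * D ^ (G.c i * (G.c i' * D.natDegree - (F i' l').natDegree))).leadingCoeff, ?_⟩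
  refine Eventually.and ?_ ?_
  · rw [Filter.eventually_all_finset]
    intro y hy
    rw [Filter.eventually_imp_distrib_left]
    intro hne
    have hpos : 0 < dist (pr y₀) (pr y) := dist_pos.2 fun h => hne (hY.inj y hy y₀ hy₀ h.symm)
    exact (hend.dist tendsto_const_nhds).eventually (lt_mem_nhds (half_lt_self hpos))
  · refine eventually_all.2 fun i => eventually_all.2 fun i' => eventually_all.2 fun l => eventually_all.2 fun l' => ?_
    rw [Filter.eventually_imp_distrib_left]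
    intro h1
    rw [Filter.eventually_imp_distrib_left]
    intro h2
    rw [Filter.eventually_imp_distrib_left]
    intro h3
    rw [Filter.eventually_imp_distrib_left]
    intro h4
    have hF1 := hFne i l h1
    have hF2 := hFne i' l' h2
    have hd1 := deg_lt hF1 hD0 (hlim i l h3)
    have hd2 := deg_lt hF2 hD0 (hlim i' l' h4)
    obtain ⟨a, ha⟩ := Nat.exists_eq_add_of_le hd1.le
    obtain ⟨a', ha'⟩ := Nat.exists_eq_add_of_le hd2.le
    have ea : G.c i * D.natDegree - (F i l).natDegree = a := by omega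
    have ea' : G.c i' * D.natDegree - (F i' l').natDegree = a' := by omega
    beta_reduce
    rw [ea, ea']
    have h0 : 0 < a := by omega
    have h0' : 0 < a' := by omega
    have hN1 : F i l ^ a' * D ^ (G.c i' * a) ≠ 0 := mul_ne_zero (pow_ne_zero _ hF1) (pow_ne_zero _ hD0)
    have hN2 : F i' l' ^ a * D ^ (G.c i * a') ≠ 0 := mul_ne_zero (pow_ne_zero _ hF2) (pow_ne_zero _ hD0)
    have hdeg : (F i l ^ a' * D ^ (G.c i' * a)).natDegree = (F i' l' ^ a * D ^ (G.c i * a')).natDegree := by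
      rw [Polynomial.natDegree_mul (pow_ne_zero _ hF1) (pow_ne_zero _ hD0), Polynomial.natDegree_mul (pow_ne_zero _ hF2) (pow_ne_zero _ hD0),
        Polynomial.natDegree_pow, Polynomial.natDegree_pow, Polynomial.natDegree_pow, Polynomial.natDegree_pow]
      calc a' * (F i l).natDegree + G.c i' * a * D.natDegree = a' * (F i l).natDegree + a * (G.c i' * D.natDegree) := by ring
        _ = a' * (F i l).natDegree + a * ((F i' l').natDegree + a') := by rw [ha']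
        _ = a * (F i' l').natDegree + a' * ((F i l).natDegree + a) := by ring
        _ = a * (F i' l').natDegree + a' * (G.c i * D.natDegree) := by rw [ha]
        _ = a * (F i' l').natDegree + G.c i * a' * D.natDegree := by ring
    filter_upwards [ratio hN1 hN2 hdeg] with u hu
    refine ⟨h0, h0', ?_⟩
    unfold Wn
    rw [hF, hF, hD]
    simp only [Polynomial.eval_mul, Polynomial.eval_pow] at hu
    exact hu

/-- near a point of the boundary there are only points of a line near infinity -/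
theorem near_inf (hG : G.Ok) {φ : ℂ → EN N} (hφ : G.Line φ) {y : EN N} (hy : y ∈ G.X ∧ y ∉ G.K) {Q : ℂ → Prop} (hQ : ∀ᶠ u in cocompact ℂ, Q u) :
    ∃ ε : ℝ, 0 < ε ∧ ∀ u, dist (pr (φ u)) (pr y) ≤ ε → Q u := by
  obtain ⟨C, hC, hCQ⟩ := mem_cocompact.1 hQ
  have hy0 : y ≠ 0 := fun h => hG.cone.zero_notMem (h ▸ hy.1)
  have hpos : ∀ u, 0 < dist (pr (φ u)) (pr y) := by
    intro u
    refine dist_pos.2 fun h => ?_
    obtain ⟨c, hc, he⟩ := (Pool.Agent.H62.EF.pr_eq_iff (ne0 hG (hφ.mem u)) hy0).1 h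
    refine hy.2 ?_
    have h1 : y = c⁻¹ • φ u := by rw [he, smul_smul, inv_mul_cancel₀ hc, one_smul]
    rw [h1]
    exact smul_mem hG (hφ.mem u) (inv_ne_zero hc)
  have hcont : Continuous fun u => dist (pr (φ u)) (pr y) := by
    refine continuous_iff_continuousAt.2 fun u => ?_
    have h1 : ContinuousAt (fun u => pr (φ u)) u :=
      ContinuousAt.comp (f := φ) (g := pr) (Pool.Agent.H62.EF.continuousAt_pr (ne0 hG (hφ.mem u))) (hφ.diff.continuous.continuousAt)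
    exact h1.dist continuousAt_const
  rcases C.eq_empty_or_nonempty with he | hne
  · refine ⟨1, one_pos, fun u _ => hCQ ?_⟩
    rw [he]
    exact fun h => h
  · obtain ⟨u₀, _, hu₀⟩ := hC.exists_isMinOn hne hcont.continuousOn
    refine ⟨dist (pr (φ u₀)) (pr y) / 2, half_pos (hpos u₀), fun u hu => hCQ fun huC => ?_⟩
    have h1 : dist (pr (φ u₀)) (pr y) ≤ dist (pr (φ u)) (pr y) := hu₀ huC
    have h2 := hpos u₀
    linarith

theorem fin_eps {α : Type} (s : Finset α) {Q : α → ℝ → Prop} (h : ∀ a ∈ s, ∃ ε : ℝ, 0 < ε ∧ ∀ ε' ≤ ε, Q a ε') :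
    ∃ ε : ℝ, 0 < ε ∧ ∀ ε' ≤ ε, ∀ a ∈ s, Q a ε' := by
  induction s using Finset.cons_induction with
  | empty => exact ⟨1, one_pos, fun _ _ a ha => absurd ha (Finset.notMem_empty a)⟩
  | cons b s hb ih =>
    obtain ⟨ε, hε, h1⟩ := ih fun a ha => h a (Finset.mem_cons_of_mem ha)
    obtain ⟨ε', hε', h2⟩ := h b (Finset.mem_cons_self b s)
    refine ⟨min ε ε', lt_min hε hε', fun ε'' h'' a ha => ?_⟩
    rcases Finset.mem_cons.1 ha with rfl | ha
    · exact h2 _ (h''.trans (min_le_right _ _))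
    · exact h1 _ (h''.trans (min_le_left _ _)) a ha

/-- uniformly for all lines -/
theorem ends_unif (hG : G.Ok) {Y : Finset (EN N)} (hY : G.Ends Y) : ∃ ε₁ : ℝ, 0 < ε₁ ∧ ∀ φ, G.Line φ →
    ∃ y₀ ∈ Y, ∃ (p : G.ι → Fin (G.M + 1) → ℕ) (c : G.ι → G.ι → Fin (G.M + 1) → Fin (G.M + 1) → ℂ),
      ∀ u, ∀ y ∈ Y, dist (pr (φ u)) (pr y) ≤ ε₁ → y = y₀ ∧
        ∀ i i' l l', (∃ ε > 0, G.LocEq ε y₀ i l) → (∃ ε > 0, G.LocEq ε y₀ i' l') → G.E i y₀ = 0 → G.E i' y₀ = 0 →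
          0 < p i l ∧ 0 < p i' l' ∧ Wn G y₀ i i' l l' (p i l) (p i' l') (c i i' l l') (φ u) := by
  obtain ⟨n, Φ, hΦ, hlin⟩ := hG.lines
  choose yk hyk p c hev using fun k => line_data hG hY (hΦ k)
  have h1 : ∀ k ∈ (Finset.univ : Finset (Fin n)), ∃ ε : ℝ, 0 < ε ∧ ∀ ε' ≤ ε, ∀ y ∈ Y, ∀ u, dist (pr (Φ k u)) (pr y) ≤ ε' → y = yk k ∧
      ∀ i i' l l', (∃ ε > 0, G.LocEq ε (yk k) i l) → (∃ ε > 0, G.LocEq ε (yk k) i' l') → G.E i (yk k) = 0 → G.E i' (yk k) = 0 →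
          0 < p k i l ∧ 0 < p k i' l' ∧ Wn G (yk k) i i' l l' (p k i l) (p k i' l') (c k i i' l l') (Φ k u) := by
    intro k _
    refine fin_eps Y fun y hy => ?_
    obtain ⟨ε, hε, h⟩ := near_inf hG (hΦ k) (hY.mem y hy) (hev k)
    by_cases hyy : y = yk k
    · refine ⟨ε, hε, fun ε' hε' u hu => ⟨hyy, ?_⟩⟩
      exact (h u (hu.trans hε')).2
    · have hpos : 0 < dist (pr (yk k)) (pr y) := dist_pos.2 fun h => hyy (hY.inj y hy (yk k) (hyk k) h.symm)
      refine ⟨min ε (dist (pr (yk k)) (pr y) / 2), lt_min hε (half_pos hpos), fun ε' hε' u hu => ?_⟩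
      have h2 := (h u (hu.trans (hε'.trans (min_le_left _ _)))).1 y hy hyy
      have h3 := hu.trans (hε'.trans (min_le_right _ _))
      exact absurd h3 (not_le.2 h2)
  obtain ⟨ε, hε, h⟩ := fin_eps _ h1
  refine ⟨ε, hε, fun φ hφ => ?_⟩
  obtain ⟨k, hk⟩ := hlin φ hφ
  refine ⟨yk k, hyk k, p k, c k, fun u y hy hu => ?_⟩
  obtain ⟨w, hw⟩ := hk u
  rw [hw] at hu ⊢
  exact h ε le_rfl k (Finset.mem_univ k) y hy w hu

/-- the winding numbers of the two local equations -/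
theorem wnd_rel (hG : G.Ok) {Γ : ℂ → EN N} (hΓ : Differentiable ℂ Γ) {y : EN N} {i i' : G.ι} {l l' : Fin (G.M + 1)} {a a' : ℕ} {c : ℂ}
    (ha : 0 < a) (ha' : 0 < a') (h : ∀ w ∈ sphere (0 : ℂ) 1, Wn G y i i' l l' a a' c (Γ w)) :
    (a' : ℂ) * G.wnd Γ y i l 1 = a * G.wnd Γ y i' l' 1 := by
  have hci : ∀ i, 0 < G.c i := fun i => by have := hG.c_ge i; omega
  obtain ⟨f, hf⟩ : ∃ f : ℂ → ℂ, f = fun w => (G.E i (Γ w)).ofLp l := ⟨_, rfl⟩
  obtain ⟨f', hf'⟩ : ∃ f : ℂ → ℂ, f = fun w => (G.E i' (Γ w)).ofLp l' := ⟨_, rfl⟩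
  obtain ⟨k, hk⟩ : ∃ k : ℂ → ℂ, k = fun w => (inner ℂ y (Γ w) : ℂ) := ⟨_, rfl⟩
  have hfd : Differentiable ℂ f := by rw [hf]; exact (diffE hG i l).comp hΓ
  have hfd' : Differentiable ℂ f' := by rw [hf']; exact (diffE hG i' l').comp hΓ
  have hkd : Differentiable ℂ k := by rw [hk]; exact ((innerSL ℂ y).differentiable).comp hΓ
  have hW : ∀ w ∈ sphere (0 : ℂ) 1, ‖f w ^ a' * k w ^ (G.c i' * a) - c * (f' w ^ a * k w ^ (G.c i * a'))‖ < ‖c * (f' w ^ a * k w ^ (G.c i * a'))‖ := by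
    intro w hw
    have := h w hw
    unfold Wn at this
    rw [hf, hf', hk]
    exact this
  have hne : ∀ w ∈ sphere (0 : ℂ) 1, c ≠ 0 ∧ f w ≠ 0 ∧ f' w ≠ 0 ∧ k w ≠ 0 := by
    intro w hw
    have h1 := hW w hw
    have h2 : c * (f' w ^ a * k w ^ (G.c i * a')) ≠ 0 := norm_pos_iff.1 ((norm_nonneg _).trans_lt h1)
    have h3 : f w ^ a' * k w ^ (G.c i' * a) ≠ 0 := by
      intro h0
      rw [h0, zero_sub, norm_neg] at h1
      exact lt_irrefl _ h1
    refine ⟨left_ne_zero_of_mul h2, ?_, ?_, ?_⟩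
    · exact fun h0 => left_ne_zero_of_mul h3 (by rw [h0, zero_pow ha'.ne'])
    · exact fun h0 => left_ne_zero_of_mul (right_ne_zero_of_mul h2) (by rw [h0, zero_pow ha.ne'])
    · exact fun h0 => right_ne_zero_of_mul (right_ne_zero_of_mul h2) (by rw [h0, zero_pow (Nat.mul_pos (hci i) ha').ne'])
  have hc : c ≠ 0 := (hne 1 (by simp)).1
  have key : (∮ z in C((0 : ℂ), 1), logDeriv (fun w => f w ^ a' * k w ^ (G.c i' * a)) z) =
      ∮ z in C((0 : ℂ), 1), logDeriv (fun w => c * (f' w ^ a * k w ^ (G.c i * a'))) z := by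
    refine circle_close one_pos (fun z _ => ?_) (fun z _ => ?_) hW
    · exact ((hfd.pow a').mul (hkd.pow (G.c i' * a))).analyticAt z
    · exact (((hfd'.pow a).mul (hkd.pow (G.c i * a'))).const_mul c).analyticAt z
  have hci1 : ∀ {q : ℂ → ℂ}, Differentiable ℂ q → (∀ w ∈ sphere (0 : ℂ) 1, q w ≠ 0) → CircleIntegrable (logDeriv q) 0 1 := by
    intro q hq hq0
    refine ContinuousOn.circleIntegrable zero_le_one ?_
    unfold logDeriv
    exact (hq.deriv.continuous.continuousOn).div hq.continuous.continuousOn hq0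
  have hcf := hci1 hfd fun w hw => (hne w hw).2.1
  have hcf' := hci1 hfd' fun w hw => (hne w hw).2.2.1
  have hck := hci1 hkd fun w hw => (hne w hw).2.2.2
  have hmul : ∀ (q : ℂ → ℂ), Differentiable ℂ q → (∀ w ∈ sphere (0 : ℂ) 1, q w ≠ 0) → ∀ (m m' : ℕ) (e : ℂ), e ≠ 0 →
      (∮ z in C((0 : ℂ), 1), logDeriv (fun w => e * (q w ^ m * k w ^ m')) z) =
        m * (∮ z in C((0 : ℂ), 1), logDeriv q z) + m' * ∮ z in C((0 : ℂ), 1), logDeriv k z := by
    intro q hq hq0 m m' e he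
    have h1 : (∮ z in C((0 : ℂ), 1), logDeriv (fun w => e * (q w ^ m * k w ^ m')) z) = ∮ z in C((0 : ℂ), 1), (m • logDeriv q z + m' • logDeriv k z) := by
      refine circleIntegral.integral_congr zero_le_one fun z hz => ?_
      have hk0 := (hne z hz).2.2.2
      have hqz := hq0 z hz
      have e1 : logDeriv (fun w => e * (q w ^ m * k w ^ m')) z = logDeriv (fun w => q w ^ m * k w ^ m') z := by
        have := logDeriv_const_mul (𝕜 := ℂ) (𝕜' := ℂ) (f := fun w => q w ^ m * k w ^ m') z e he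
        exact this
      have e2 : logDeriv (fun w => q w ^ m * k w ^ m') z = logDeriv (fun w => q w ^ m) z + logDeriv (fun w => k w ^ m') z :=
        logDeriv_mul z (pow_ne_zero _ hqz) (pow_ne_zero _ hk0) ((hq.pow m).differentiableAt) ((hkd.pow m').differentiableAt)
      have e3 : logDeriv (fun w => q w ^ m) z = m * logDeriv q z := logDeriv_fun_pow (hq z) m
      have e4 : logDeriv (fun w => k w ^ m') z = m' * logDeriv k z := logDeriv_fun_pow (hkd z) m'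
      rw [e1, e2, e3, e4, nsmul_eq_mul, nsmul_eq_mul]
    rw [h1]
    have h2 := hci1 hq hq0
    simp only [nsmul_eq_mul]
    rw [circleIntegral.integral_add, circleIntegral.integral_const_mul, circleIntegral.integral_const_mul]
    · exact h2.const_fun_smul (a := (m : ℂ))
    · exact hck.const_fun_smul (a := (m' : ℂ))
  have h1 := hmul f hfd (fun w hw => (hne w hw).2.1) a' (G.c i' * a) 1 one_ne_zero
  have h2 := hmul f' hfd' (fun w hw => (hne w hw).2.2.1) a (G.c i * a') c hc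
  simp only [one_mul] at h1
  rw [h1, h2] at key
  have hw : ∀ (j : G.ι) (m : Fin (G.M + 1)) (q : ℂ → ℂ), (q = fun w => (G.E j (Γ w)).ofLp m) → CircleIntegrable (logDeriv q) 0 1 →
      G.wnd Γ y j m 1 = (∮ z in C((0 : ℂ), 1), logDeriv q z) - G.c j * ∮ z in C((0 : ℂ), 1), logDeriv k z := by
    intro j m q hq hqi
    unfold Geo.wnd
    rw [circleIntegral.integral_sub, circleIntegral.integral_const_mul, hq, hk]
    · rw [← hq]
      exact hqi
    · rw [← hk]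
      exact hck.const_fun_smul (a := (G.c j : ℂ))
  rw [hw i l f hf hcf, hw i' l' f' hf' hcf']
  push_cast at key
  linear_combination key

/-- limits along an ultrafilter -/
theorem lim_open {𝒰 : Ultrafilter ℕ} {Γ : ℕ → ℂ → EN N} {φ : ℂ → EN N} (hc : Continuous φ) (h : TendstoLocallyUniformlyOn Γ φ (𝒰 : Filter ℕ) Set.univ)
    {β σ : ℕ → ℂ} {β₀ σ₀ : ℂ} (hβ : Tendsto β (𝒰 : Filter ℕ) (𝓝 β₀)) (hσ : Tendsto σ (𝒰 : Filter ℕ) (𝓝 σ₀)) {W : Set (EN N)} (hW : IsOpen W)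
    {S : Set ℂ} (hS : IsCompact S) (hin : ∀ w ∈ S, φ (β₀ + σ₀ * w) ∈ W) : ∀ᶠ n in (𝒰 : Filter ℕ), ∀ w ∈ S, Γ n (β n + σ n * w) ∈ W := by
  by_contra hne
  rw [← Ultrafilter.eventually_not] at hne
  have h1 : ∀ᶠ n in (𝒰 : Filter ℕ), ∃ w, w ∈ S ∧ Γ n (β n + σ n * w) ∉ W := by
    filter_upwards [hne] with n hn
    by_contra h2
    refine hn fun w hw => ?_
    by_contra h3
    exact h2 ⟨w, hw, h3⟩
  obtain ⟨w, hw⟩ := h1.choice
  obtain ⟨w₀, hw₀, hlim⟩ := hS.ultrafilter_le_nhds (𝒰.map w) (by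
    rw [Filter.le_principal_iff]
    exact hw.mono fun n hn => hn.1)
  have h2 : Tendsto w (𝒰 : Filter ℕ) (𝓝 w₀) := hlim
  have h3 : Tendsto (fun n => β n + σ n * w n) (𝒰 : Filter ℕ) (𝓝 (β₀ + σ₀ * w₀)) := hβ.add (hσ.mul h2)
  have h4 : Tendsto (fun n => Γ n (β n + σ n * w n)) (𝒰 : Filter ℕ) (𝓝 (φ (β₀ + σ₀ * w₀))) := by
    refine h.tendsto_comp hc.continuousWithinAt (Set.mem_univ _) ?_
    rw [nhdsWithin_univ]
    exact h3
  obtain ⟨n, hn1, hn2⟩ := ((h4.eventually (hW.mem_nhds (hin w₀ hw₀))).and hw).exists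
  exact hn2.2 hn1

theorem open_Wn (hG : G.Ok) (y : EN N) (i i' : G.ι) (l l' : Fin (G.M + 1)) (a a' : ℕ) (c : ℂ) : IsOpen {x | Wn G y i i' l l' a a' c x} := by
  unfold Wn
  have h1 : Continuous fun x : EN N => (G.E i x).ofLp l := (diffE hG i l).continuous
  have h2 : Continuous fun x : EN N => (G.E i' x).ofLp l' := (diffE hG i' l').continuous
  have h3 : Continuous fun x : EN N => (inner ℂ y x : ℂ) := (innerSL ℂ y).continuous
  have h4 : Continuous fun x : EN N => c * ((G.E i' x).ofLp l' ^ a * (inner ℂ y x : ℂ) ^ (G.c i * a')) := continuous_const.mul ((h2.pow a).mul (h3.pow _))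
  exact isOpen_lt (((h1.pow a').mul (h3.pow _)).sub h4).norm h4.norm

/-- the relation of the winding numbers at a sequence of holes of comparable size and distance -/
theorem key (hG : G.Ok) {Y : Finset (EN N)} {ε ε₁ : ℝ} (hε : 0 < ε) (hεε₁ : ε ≤ ε₁) {φ : ℂ → EN N} (hφ : G.Line φ) {y₀ : EN N}
    {p : G.ι → Fin (G.M + 1) → ℕ} {c : G.ι → G.ι → Fin (G.M + 1) → Fin (G.M + 1) → ℂ}
    (hend : ∀ u, ∀ y ∈ Y, dist (pr (φ u)) (pr y) ≤ ε₁ → y = y₀ ∧
        ∀ i i' l l', (∃ ε > 0, G.LocEq ε y₀ i l) → (∃ ε > 0, G.LocEq ε y₀ i' l') → G.E i y₀ = 0 → G.E i' y₀ = 0 →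
          0 < p i l ∧ 0 < p i' l' ∧ Wn G y₀ i i' l l' (p i l) (p i' l') (c i i' l l') (φ u))
    {𝒰 : Ultrafilter ℕ} {F : ℕ → ℂ → EN N} (hF : ∀ n, Differentiable ℂ (F n)) {e₀ e : ℕ → ℂ} {r s : ℕ → ℝ} (hr : ∀ n, 0 < r n)
    (h : TendstoLocallyUniformlyOn (fun n w => F n (e₀ n + r n * w)) φ (𝒰 : Filter ℕ) Set.univ)
    {K' : ℝ} (hs : ∀ n, 0 < s n ∧ s n ≤ r n) (he : ∀ n, ‖e n - e₀ n‖ ≤ K' * r n) {y : ℕ → EN N} (hy : ∀ n, y n ∈ Y)
    (hclose : ∀ n w, ‖w‖ = 1 → dist (pr (F n (e n + s n * w))) (pr (y n)) < ε) :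
    ∀ᶠ n in (𝒰 : Filter ℕ), y n = y₀ ∧ ∀ i i' l l', G.LocEq ε y₀ i l → G.LocEq ε y₀ i' l' → G.E i y₀ = 0 → G.E i' y₀ = 0 →
      0 < p i l ∧ 0 < p i' l' ∧ (p i' l' : ℂ) * G.wnd (fun w => F n (e n + s n * w)) y₀ i l 1 = p i l * G.wnd (fun w => F n (e n + s n * w)) y₀ i' l' 1 := by
  -- limits of the centres and radii
  obtain ⟨β, hβ⟩ : ∃ β : ℕ → ℂ, β = fun n => (e n - e₀ n) / r n := ⟨_, rfl⟩
  obtain ⟨σ, hσ⟩ : ∃ σ : ℕ → ℂ, σ = fun n => ((s n / r n : ℝ) : ℂ) := ⟨_, rfl⟩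
  have hβb : ∀ n, β n ∈ closedBall (0 : ℂ) K' := by
    intro n
    rw [mem_closedBall_zero_iff, hβ, norm_div, Complex.norm_real, Real.norm_of_nonneg (hr n).le, div_le_iff₀ (hr n)]
    exact he n
  have hσb : ∀ n, σ n ∈ closedBall (0 : ℂ) 1 := by
    intro n
    rw [mem_closedBall_zero_iff, hσ, Complex.norm_real, Real.norm_of_nonneg (div_nonneg (hs n).1.le (hr n).le), div_le_iff₀ (hr n), one_mul]
    exact (hs n).2
  obtain ⟨β₀, -, hβ0⟩ := (isCompact_closedBall (0 : ℂ) K').ultrafilter_le_nhds (𝒰.map β) (by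
    rw [Filter.le_principal_iff, Ultrafilter.coe_map, Filter.mem_map]
    exact Filter.univ_mem' hβb)
  obtain ⟨σ₀, -, hσ0⟩ := (isCompact_closedBall (0 : ℂ) 1).ultrafilter_le_nhds (𝒰.map σ) (by
    rw [Filter.le_principal_iff, Ultrafilter.coe_map, Filter.mem_map]
    exact Filter.univ_mem' hσb)
  have hβl : Tendsto β (𝒰 : Filter ℕ) (𝓝 β₀) := hβ0
  have hσl : Tendsto σ (𝒰 : Filter ℕ) (𝓝 σ₀) := hσ0
  have heq : ∀ n w, F n (e₀ n + r n * (β n + σ n * w)) = F n (e n + s n * w) := by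
    intro n w
    congr 1
    have hr0 : (r n : ℂ) ≠ 0 := by exact_mod_cast (hr n).ne'
    rw [hβ, hσ]
    push_cast
    field_simp
    ring
  obtain ⟨y', hy'Y, hy'⟩ := (Ultrafilter.eventually_exists_mem_iff (f := 𝒰) (P := fun y' n => y n = y') (Finset.finite_toSet Y)).1
    (Eventually.of_forall fun n => ⟨y n, hy n, rfl⟩)
  -- the limits of the rims
  have hlimw : ∀ w : ℂ, ‖w‖ = 1 → dist (pr (φ (β₀ + σ₀ * w))) (pr y') ≤ ε₁ := by
    intro w hw
    have h1 : Tendsto (fun n => F n (e n + s n * w)) (𝒰 : Filter ℕ) (𝓝 (φ (β₀ + σ₀ * w))) := by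
      have h2 := h.tendsto_comp (g := fun n => β n + σ n * w) (hφ.diff.continuous.continuousWithinAt (x := β₀ + σ₀ * w)) (Set.mem_univ _) (by
        rw [nhdsWithin_univ]
        exact hβl.add (hσl.mul_const w))
      exact h2.congr fun n => heq n w
    have h2 : Tendsto (fun n => dist (pr (F n (e n + s n * w))) (pr y')) (𝒰 : Filter ℕ) (𝓝 (dist (pr (φ (β₀ + σ₀ * w))) (pr y'))) :=
      ((Pool.Agent.H62.EF.continuousAt_pr (ne0 hG (hφ.mem _))).tendsto.comp h1).dist tendsto_const_nhds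
    refine le_of_tendsto h2 ?_
    filter_upwards [hy'] with n hn
    have := hclose n w hw
    rw [hn] at this
    linarith
  have hyy : y' = y₀ := (hend (β₀ + σ₀ * 1) y' hy'Y (hlimw 1 norm_one)).1
  have hall : ∀ᶠ n in (𝒰 : Filter ℕ), ∀ i i' l l', G.LocEq ε y₀ i l → G.LocEq ε y₀ i' l' → G.E i y₀ = 0 → G.E i' y₀ = 0 →
      0 < p i l ∧ 0 < p i' l' ∧ (p i' l' : ℂ) * G.wnd (fun w => F n (e n + s n * w)) y₀ i l 1 = p i l * G.wnd (fun w => F n (e n + s n * w)) y₀ i' l' 1 := by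
    refine eventually_all.2 fun i => eventually_all.2 fun i' => eventually_all.2 fun l => eventually_all.2 fun l' => ?_
    rw [Filter.eventually_imp_distrib_left]
    intro h1
    rw [Filter.eventually_imp_distrib_left]
    intro h2
    rw [Filter.eventually_imp_distrib_left]
    intro h3
    rw [Filter.eventually_imp_distrib_left]
    intro h4
    have hW : ∀ w : ℂ, ‖w‖ = 1 → _ := fun w hw => (hend (β₀ + σ₀ * w) y' hy'Y (hlimw w hw)).2 i i' l l' ⟨ε, hε, h1⟩ ⟨ε, hε, h2⟩ h3 h4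
    have hev := lim_open hφ.diff.continuous h hβl hσl (open_Wn hG y₀ i i' l l' (p i l) (p i' l') (c i i' l l')) (isCompact_sphere (0 : ℂ) 1)
      fun w hw => (hW w (mem_sphere_zero_iff_norm.1 hw)).2.2
    have hp := hW 1 norm_one
    filter_upwards [hev] with n hn
    refine ⟨hp.1, hp.2.1, ?_⟩
    refine wnd_rel hG ?_ hp.1 hp.2.1 (c := c i i' l l') fun w hw => ?_
    · exact (hF n).comp ((differentiable_const _).add ((differentiable_const _).mul differentiable_id))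
    · have h5 := hn w hw
      rw [heq] at h5
      exact h5
  filter_upwards [hy', hall] with n hn1 hn2
  exact ⟨hn1.trans hyy, hn2⟩

end HolP

/-- near holes are parallel -/
theorem holes_par (hG : G.Ok) (hM : G.Met T rho M c₀ C δ g) (hQ : G.QN rho) (hB : G.Bdry) {Y : Finset (EN N)} (hY : G.Ends Y) : ∃ ε₁ : ℝ, 0 < ε₁ ∧
    ∀ B₃ η θ θ' : ℝ, 0 < η → 0 < θ' → θ' < θ → θ < 1 → ∀ ε : ℝ, 0 < ε → ε ≤ ε₁ → ∀ K B₄ K' : ℝ, 20 ≤ K → ∃ R : ℝ, 0 < R ∧
    ∀ (q : G.J → ℂ) (F : ℂ → EN N), G.Cl T q F → ∀ z₀ t s y, R ≤ infDist z₀ (Gd rho δ F) →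
      G.Holes Y B₃ B₄ ε K (Real.exp (-(η * infDist z₀ (Gd rho δ F)))) F z₀ (θ * infDist z₀ (Gd rho δ F)) t s y →
      ∀ a ∈ t, ∀ b ∈ t, ‖a - z₀‖ ≤ θ' * infDist z₀ (Gd rho δ F) → ‖a - b‖ ≤ K' * max (s a) (s b) → y a = y b ∧
        ∀ i i' l l', G.LocEq ε (y a) i l → G.LocEq ε (y a) i' l' → G.E i (y a) = 0 → G.E i' (y a) = 0 →
          G.wnd (fun w => F (a + s a * w)) (y a) i l 1 * G.wnd (fun w => F (b + s b * w)) (y b) i' l' 1 =
            G.wnd (fun w => F (a + s a * w)) (y a) i' l' 1 * G.wnd (fun w => F (b + s b * w)) (y b) i l 1 := by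
  have _ := hB
  obtain ⟨ε₁, hε₁, hA⟩ := HolP.ends_unif hG hY
  refine ⟨ε₁, hε₁, ?_⟩
  intro B₃ η θ θ' hη hθ' hθθ' hθ ε hε hεε₁ K B₄ K' hK
  by_contra hcon
  have hseq : ∀ n : ℕ, ∃ (q : G.J → ℂ) (F : ℂ → EN N) (z₀ : ℂ) (t : Finset ℂ) (s : ℂ → ℝ) (y : ℂ → EN N) (a b : ℂ), G.Cl T q F ∧
      (n : ℝ) + 1 ≤ infDist z₀ (Gd rho δ F) ∧
      G.Holes Y B₃ B₄ ε K (Real.exp (-(η * infDist z₀ (Gd rho δ F)))) F z₀ (θ * infDist z₀ (Gd rho δ F)) t s y ∧ a ∈ t ∧ b ∈ t ∧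
      ‖a - b‖ ≤ K' * max (s a) (s b) ∧ ¬ (y a = y b ∧
        ∀ i i' l l', G.LocEq ε (y a) i l → G.LocEq ε (y a) i' l' → G.E i (y a) = 0 → G.E i' (y a) = 0 →
          G.wnd (fun w => F (a + s a * w)) (y a) i l 1 * G.wnd (fun w => F (b + s b * w)) (y b) i' l' 1 =
            G.wnd (fun w => F (a + s a * w)) (y a) i' l' 1 * G.wnd (fun w => F (b + s b * w)) (y b) i l 1) := by
    intro n
    by_contra h'
    refine hcon ⟨(n : ℝ) + 1, by positivity, ?_⟩
    intro q F hF z₀ t s y hR hH a ha b hb _ h2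
    by_contra h3
    exact h' ⟨q, F, z₀, t, s, y, a, b, hF, hR, hH, ha, hb, h2, h3⟩
  choose q F z₀ t s y a b hF hR hH ha hb hab hno using hseq
  have hd0 : ∀ n, 0 < infDist (z₀ n) (Gd rho δ (F n)) := fun n => by
    have := hR n
    have h2 : (0 : ℝ) ≤ n := Nat.cast_nonneg n
    linarith
  -- the larger hole
  have hlarge : ∀ n, ∃ e₀ : ℂ, e₀ ∈ t n ∧ s n (a n) ≤ s n e₀ ∧ s n (b n) ≤ s n e₀ ∧ ‖a n - e₀‖ ≤ |K'| * s n e₀ ∧ ‖b n - e₀‖ ≤ |K'| * s n e₀ := by
    intro n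
    have hsa := ((hH n).pos (a n) (ha n)).1
    have hsb := ((hH n).pos (b n) (hb n)).1
    rcases le_total (s n (a n)) (s n (b n)) with h1 | h1
    · refine ⟨b n, hb n, h1, le_rfl, ?_, ?_⟩
      · have h2 := hab n
        rw [max_eq_right h1] at h2
        exact h2.trans (mul_le_mul_of_nonneg_right (le_abs_self K') hsb.le)
      · rw [sub_self, norm_zero]
        positivity
    · refine ⟨a n, ha n, le_rfl, h1, ?_, ?_⟩
      · rw [sub_self, norm_zero]
        positivity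
      · have h2 := hab n
        rw [max_eq_left h1] at h2
        rw [norm_sub_rev]
        exact h2.trans (mul_le_mul_of_nonneg_right (le_abs_self K') hsa.le)
  choose e₀ he₀ hsa hsb hda hdb using hlarge
  obtain ⟨𝒰, h𝒰⟩ : ∃ 𝒰 : Ultrafilter ℕ, (𝒰 : Filter ℕ) ≤ atTop := ⟨Ultrafilter.of atTop, Ultrafilter.of_le _⟩
  have hcen : ∀ n, dist (e₀ n) (z₀ n) ≤ θ * infDist (z₀ n) (Gd rho δ (F n)) := fun n => mem_closedBall.1 ((hH n).cen (e₀ n) (he₀ n))
  have hlow : ∀ n, (1 - θ) * infDist (z₀ n) (Gd rho δ (F n)) ≤ infDist (e₀ n) (Gd rho δ (F n)) := by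
    intro n
    have h1 := infDist_le_infDist_add_dist (s := Gd rho δ (F n)) (x := z₀ n) (y := e₀ n)
    rw [dist_comm] at h1
    linarith [hcen n]
  have hupp : ∀ n, infDist (e₀ n) (Gd rho δ (F n)) ≤ 2 * infDist (z₀ n) (Gd rho δ (F n)) := by
    intro n
    have h1 := infDist_le_infDist_add_dist (s := Gd rho δ (F n)) (x := e₀ n) (y := z₀ n)
    nlinarith [hcen n, hd0 n]
  have htend : Tendsto (fun n => infDist (e₀ n) (Gd rho δ (F n))) (𝒰 : Filter ℕ) atTop := by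
    have h1 : Tendsto (fun n : ℕ => (1 - θ) * (n : ℝ)) (𝒰 : Filter ℕ) atTop :=
      (tendsto_natCast_atTop_atTop.mono_left h𝒰).const_mul_atTop (by linarith)
    refine tendsto_atTop_mono (fun n => ?_) h1
    refine le_trans ?_ (hlow n)
    have h2 := hR n
    nlinarith
  obtain ⟨φ, hφ, hconv⟩ := line_limit hG hM hQ (B := B₄) (B' := B₃) (η := η / 2) (by linarith) 𝒰 h𝒰 q F e₀ (fun n => s n (e₀ n)) hF htend
    (Eventually.of_forall fun n => by
      obtain ⟨h1, h2⟩ := (hH n).pos (e₀ n) (he₀ n)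
      refine ⟨h1, h2.trans (Real.exp_le_exp.2 (neg_le_neg ?_))⟩
      have := hupp n
      nlinarith)
    (Eventually.of_forall fun n w hw => ((hH n).rim (e₀ n) (he₀ n)).bdd w (by linarith))
    (Eventually.of_forall fun n => ⟨0, by simp, ((hH n).rim (e₀ n) (he₀ n)).low⟩)
    (Eventually.of_forall fun n => by
      obtain ⟨w, hw, h1⟩ := ((hH n).rim (e₀ n) (he₀ n)).up
      exact ⟨w, by linarith, h1⟩)
  obtain ⟨y₀, -, p, c, hend⟩ := hA φ hφ
  have hrun : ∀ e : ℕ → ℂ, (∀ n, e n ∈ t n) → (∀ n, s n (e n) ≤ s n (e₀ n)) → (∀ n, ‖e n - e₀ n‖ ≤ |K'| * s n (e₀ n)) →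
      ∀ᶠ n in (𝒰 : Filter ℕ), y n (e n) = y₀ ∧ ∀ i i' l l', G.LocEq ε y₀ i l → G.LocEq ε y₀ i' l' → G.E i y₀ = 0 → G.E i' y₀ = 0 →
      0 < p i l ∧ 0 < p i' l' ∧ (p i' l' : ℂ) * G.wnd (fun w => F n (e n + s n (e n) * w)) y₀ i l 1 =
        p i l * G.wnd (fun w => F n (e n + s n (e n) * w)) y₀ i' l' 1 := by
    intro e he hse hde
    refine HolP.key hG hε hεε₁ hφ hend (fun n => (hF n).ent.diff) (fun n => ((hH n).pos _ (he₀ n)).1) hconv
      (s := fun n => s n (e n)) (fun n => ⟨((hH n).pos _ (he n)).1, hse n⟩) hde (y := fun n => y n (e n)) (fun n => ((hH n).rim _ (he n)).mem)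
      fun n w hw => ?_
    exact (((hH n).rim _ (he n)).ann w (by rw [hw]; norm_num) (by rw [hw]; linarith)).2
  obtain ⟨n, ⟨hn1, hn2⟩, hn3, hn4⟩ := ((hrun a ha hsa hda).and (hrun b hb hsb hdb)).exists
  refine hno n ⟨hn1.trans hn3.symm, ?_⟩
  rw [hn1, hn3]
  intro i i' l l' h1 h2 h3 h4
  obtain ⟨hp, hp', e1⟩ := hn2 i i' l l' h1 h2 h3 h4
  obtain ⟨-, -, e2⟩ := hn4 i i' l l' h1 h2 h3 h4
  have hp0 : (p i l : ℂ) ≠ 0 := by exact_mod_cast hp.ne'
  have hp0' : (p i' l' : ℂ) ≠ 0 := by exact_mod_cast hp'.ne'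
  refine mul_left_cancel₀ (mul_ne_zero hp0 hp0') ?_
  linear_combination (p i l : ℂ) * G.wnd (fun w => F n (b n + s n (b n) * w)) y₀ i' l' 1 * e1 - (p i l : ℂ) * G.wnd (fun w => F n (a n + s n (a n) * w)) y₀ i' l' 1 * e2

end Pool.Agent.SR3
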