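import Pool.Agent.SR3.LDefs
import Pool.Agent.SR3.ALam

/-!
# SR3 LCrs: the local data at a crossing
-/

set_option autoImplicit false

open Topology Filter Metric

noncomputable section

namespace Pool.Agent.SR3

open Pool.Agent.H36.BP (EN fs wd Sub OrdTwo wd_sq wd_nonneg fs_inv fs_nonneg)
open Pool.Agent.H14.PP (IsCone Tan)
open Pool.Agent.SY (Ent)
open Pool.Agent.H62.EF (MN pr dist_pr)
open Geo (Gd)

variable {N : ℕ} {G : Geo N}

namespace LCrs

/-- the derivative of a homogeneous function -/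
theorem fderiv_smul' (hG : G.Ok) (i : G.ι) (x : EN N) (t : ℂ) :
    ‖t‖ * ‖fderiv ℂ (G.E i) (t • x)‖ = ‖t‖ ^ G.c i * ‖fderiv ℂ (G.E i) x‖ := by
  have h1 : HasFDerivAt (G.E i) (fderiv ℂ (G.E i) (t • x)) (t • x) := (hG.anE i (t • x)).differentiableAt.hasFDerivAt
  have h2 : HasFDerivAt (fun z : EN N => t • z) (t • ContinuousLinearMap.id ℂ (EN N)) x := (hasFDerivAt_id x).const_smul t
  have h3 := h1.comp x h2
  have h4 : (G.E i ∘ fun z : EN N => t • z) = fun z => t ^ G.c i • G.E i z := funext fun z => hG.smulE i t z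
  rw [h4] at h3
  have h5 : HasFDerivAt (fun z => t ^ G.c i • G.E i z) (t ^ G.c i • fderiv ℂ (G.E i) x) x := by
    exact HasFDerivAt.const_smul (hG.anE i x).differentiableAt.hasFDerivAt (t ^ G.c i)
  have h6 := h3.unique h5
  rw [ContinuousLinearMap.comp_smul, ContinuousLinearMap.comp_id] at h6
  rw [← norm_smul, h6, norm_smul, norm_pow]

/-- the bound of `ell` by the Fubini-Study length -/
theorem ell_le (hG : G.Ok) (i : G.ι) {x : EN N} (hx : x ∈ G.K) (v : EN N) :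
    ‖G.ell i x v‖ ≤ ‖fderiv ℂ (G.E i) x‖ * ‖x‖ / ‖G.E i x‖ * fs x v := by
  have hx0 : x ≠ 0 := ne0 hG hx
  have hxn : 0 < ‖x‖ := norm_pos_iff.2 hx0
  have hxc : (‖x‖ : ℂ) ≠ 0 := by exact_mod_cast hxn.ne'
  set a : ℂ := inner ℂ x v / (‖x‖ : ℂ) ^ 2 with ha
  set v' : EN N := v - a • x with hv'
  have hort : inner ℂ x v' = (0 : ℂ) := by
    rw [hv', inner_sub_right, inner_smul_right, inner_self_eq_norm_sq_to_K, ha]
    simp only [Complex.coe_algebraMap]
    rw [div_mul_cancel₀ _ (pow_ne_zero 2 hxc), sub_self]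
  have hfs : fs x v = ‖v'‖ / ‖x‖ := by
    have h2 : fs x v = fs x v' := by
      have h3 := fs_inv hx0 v' (c := 1) one_ne_zero a
      rw [one_smul, one_smul] at h3
      rw [← h3, hv']
      congr 1
      abel
    rw [h2]
    have h3 : wd x v' = ‖x‖ * ‖v'‖ := by
      have h4 := wd_sq x v'
      rw [hort, norm_zero] at h4
      have h5 : wd x v' ^ 2 = (‖x‖ * ‖v'‖) ^ 2 := by rw [h4]; ring
      exact (pow_left_inj₀ (wd_nonneg _ _) (by positivity) two_ne_zero).1 h5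
    unfold fs
    rw [h3]
    field_simp
  have h2 : G.ell i x v = G.ell i x v' := by
    have h3 : v = v' + a • x := by rw [hv']; abel
    conv_lhs => rw [h3]
    rw [ALam_ell_add, ell_smul hG, ALam_ell_self hG i hx, mul_zero, add_zero]
  have hE : 0 < ‖G.E i x‖ := norm_pos_iff.2 (hG.neE i x hx)
  have h3 : G.ell i x v' = inner ℂ (G.E i x) (fderiv ℂ (G.E i) x v') / (‖G.E i x‖ : ℂ) ^ 2 := by
    unfold Geo.ell
    rw [hort, zero_div, mul_zero, sub_zero]
  have h4 : ‖G.ell i x v'‖ ≤ ‖fderiv ℂ (G.E i) x‖ / ‖G.E i x‖ * ‖v'‖ := by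
    rw [h3, norm_div, norm_pow, Complex.norm_real, norm_norm, div_le_iff₀ (by positivity)]
    calc ‖inner ℂ (G.E i x) (fderiv ℂ (G.E i) x v')‖ ≤ ‖G.E i x‖ * ‖fderiv ℂ (G.E i) x v'‖ := norm_inner_le_norm _ _
      _ ≤ ‖G.E i x‖ * (‖fderiv ℂ (G.E i) x‖ * ‖v'‖) := by
        exact mul_le_mul_of_nonneg_left ((fderiv ℂ (G.E i) x).le_opNorm v') hE.le
      _ = _ := by field_simp
  rw [h2, hfs]
  calc ‖G.ell i x v'‖ ≤ ‖fderiv ℂ (G.E i) x‖ / ‖G.E i x‖ * ‖v'‖ := h4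
    _ = ‖fderiv ℂ (G.E i) x‖ * ‖x‖ / ‖G.E i x‖ * (‖v'‖ / ‖x‖) := by field_simp

/-- a multiple of `x` is close to `y` -/
theorem exists_mul {x y : EN N} (hx : x ≠ 0) (hy : y ≠ 0) (h : dist (pr x) (pr y) < 1) :
    ∃ t : ℂ, t ≠ 0 ∧ ‖t • x - y‖ ≤ ‖y‖ * dist (pr x) (pr y) := by
  have hxn : 0 < ‖x‖ := norm_pos_iff.2 hx
  have hyn : 0 < ‖y‖ := norm_pos_iff.2 hy
  have hxc : (‖x‖ : ℂ) ≠ 0 := by exact_mod_cast hxn.ne'
  have hd := dist_pr hx hy
  have hw0 : 0 ≤ wd x y / (‖x‖ * ‖y‖) := div_nonneg (wd_nonneg _ _) (by positivity)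
  have hpd : wd x y / (‖x‖ * ‖y‖) ≤ dist (pr x) (pr y) := by
    rw [hd]
    exact le_mul_of_one_le_left hw0 (by rw [Real.one_le_sqrt]; norm_num)
  have hwle : wd x y ≤ ‖x‖ * ‖y‖ * dist (pr x) (pr y) := by
    rwa [div_le_iff₀ (by positivity), mul_comm] at hpd
  have hnn : ‖inner ℂ x y‖ ^ 2 = ‖x‖ ^ 2 * ‖y‖ ^ 2 - wd x y ^ 2 := by rw [wd_sq]; ring
  set t : ℂ := inner ℂ x y / (‖x‖ : ℂ) ^ 2 with ht
  have htn : ‖t‖ = ‖inner ℂ x y‖ / ‖x‖ ^ 2 := by rw [ht, norm_div, norm_pow, Complex.norm_real, norm_norm]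
  have hmul : wd x y ^ 2 ≤ (‖x‖ * ‖y‖ * dist (pr x) (pr y)) ^ 2 := pow_le_pow_left₀ (wd_nonneg _ _) hwle 2
  refine ⟨t, ?_, ?_⟩
  · intro h0
    have h1 : inner ℂ x y = (0 : ℂ) := by
      rw [ht, div_eq_zero_iff] at h0
      rcases h0 with h0 | h0
      · exact h0
      · exact absurd h0 (pow_ne_zero 2 hxc)
    rw [h1, norm_zero] at hnn
    have h2 : 0 < ‖x‖ * ‖y‖ := by positivity
    have h3 : ‖x‖ * ‖y‖ * dist (pr x) (pr y) < ‖x‖ * ‖y‖ := by nlinarith
    have h4 : (‖x‖ * ‖y‖ * dist (pr x) (pr y)) ^ 2 < (‖x‖ * ‖y‖) ^ 2 := pow_lt_pow_left₀ h3 (by positivity) two_ne_zero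
    nlinarith
  · have h1 : ‖t • x - y‖ ^ 2 = wd x y ^ 2 / ‖x‖ ^ 2 := by
      have e1 : ‖t • x - y‖ ^ 2 = ‖y‖ ^ 2 - ‖inner ℂ x y‖ ^ 2 / ‖x‖ ^ 2 := by
        rw [norm_sub_sq (𝕜 := ℂ), norm_smul, htn, inner_smul_left]
        have e2 : (starRingEnd ℂ) t * inner ℂ x y = ((‖inner ℂ x y‖ ^ 2 / ‖x‖ ^ 2 : ℝ) : ℂ) := by
          rw [ht, map_div₀, map_pow, Complex.conj_ofReal, div_mul_eq_mul_div, Complex.conj_mul']
          push_cast
          rfl
        rw [e2]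
        simp only [RCLike.re_to_complex, Complex.ofReal_re]
        field_simp
        ring
      rw [e1, hnn]
      field_simp
      ring
    have h2 : ‖t • x - y‖ ^ 2 ≤ (‖y‖ * dist (pr x) (pr y)) ^ 2 := by
      rw [h1, div_le_iff₀ (by positivity)]
      calc wd x y ^ 2 ≤ (‖x‖ * ‖y‖ * dist (pr x) (pr y)) ^ 2 := hmul
        _ = _ := by ring
    exact (pow_le_pow_iff_left₀ (norm_nonneg _) (by positivity) two_ne_zero).1 h2

/-- a component which does not pass through `y` -/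
theorem oth_le (hG : G.Ok) {y : EN N} (hy : y ≠ 0) (i : G.ι) (hi : G.E i y ≠ 0) :
    ∃ r A : ℝ, 0 < r ∧ 0 ≤ A ∧ ∀ x ∈ G.K, dist (pr x) (pr y) < r → ∀ v, ‖G.ell i x v‖ ≤ A * fs x v := by
  have hyn : 0 < ‖y‖ := norm_pos_iff.2 hy
  have hEn : ‖G.E i y‖ ≠ 0 := norm_ne_zero_iff.2 hi
  have hc : ContinuousAt (fun x : EN N => ‖fderiv ℂ (G.E i) x‖ * ‖x‖ / ‖G.E i x‖) y :=
    (((hG.anE i y).fderiv.continuousAt.norm).mul continuousAt_id.norm).div ((hG.anE i y).continuousAt.norm) hEn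
  set A : ℝ := ‖fderiv ℂ (G.E i) y‖ * ‖y‖ / ‖G.E i y‖ with hA
  have h1 : ∀ᶠ x in 𝓝 y, ‖fderiv ℂ (G.E i) x‖ * ‖x‖ / ‖G.E i x‖ < A + 1 := hc.eventually_lt continuousAt_const (by simp [hA])
  obtain ⟨ε, hε, h1⟩ := Metric.eventually_nhds_iff.1 h1
  have hA0 : 0 ≤ A := by positivity
  refine ⟨min 1 (ε / ‖y‖), A + 1, lt_min one_pos (by positivity), by linarith, fun x hx hd v => ?_⟩
  have hx0 : x ≠ 0 := ne0 hG hx
  obtain ⟨t, ht, htx⟩ := exists_mul hx0 hy (hd.trans_le (min_le_left _ _))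
  have h2 : dist (t • x) y < ε := by
    rw [dist_eq_norm]
    refine htx.trans_lt ?_
    have := hd.trans_le (min_le_right _ _)
    rwa [lt_div_iff₀ hyn, mul_comm] at this
  have h3 := h1 h2
  have htn : 0 < ‖t‖ := norm_pos_iff.2 ht
  have hE : 0 < ‖G.E i x‖ := norm_pos_iff.2 (hG.neE i x hx)
  have h4 : ‖fderiv ℂ (G.E i) (t • x)‖ * ‖t • x‖ / ‖G.E i (t • x)‖ = ‖fderiv ℂ (G.E i) x‖ * ‖x‖ / ‖G.E i x‖ := by
    rw [hG.smulE, norm_smul, norm_smul, norm_pow]
    have h5 := fderiv_smul' hG i x t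
    have h6 : ‖fderiv ℂ (G.E i) (t • x)‖ * (‖t‖ * ‖x‖) = ‖t‖ ^ G.c i * (‖fderiv ℂ (G.E i) x‖ * ‖x‖) := by
      rw [← mul_assoc, mul_comm _ ‖t‖, h5]; ring
    rw [h6, mul_div_mul_left _ _ (pow_ne_zero _ htn.ne')]
  rw [h4] at h3
  exact (ell_le hG i hx v).trans (mul_le_mul_of_nonneg_right h3.le (fs_nonneg x v))

/-- the renaming of the variables -/
def rn (i : Fin 2 → G.ι) (Q : MvPolynomial G.ι ℂ) : MvPolynomial (Fin 2) ℂ := by
  classical
  exact MvPolynomial.aeval (fun i' => if i' = i 0 then MvPolynomial.X 0 else if i' = i 1 then MvPolynomial.X 1 else 0) Q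

theorem rn_hom (i : Fin 2 → G.ι) {Q : MvPolynomial G.ι ℂ} {m : ℕ} (hQ : Q.IsHomogeneous m) : (rn i Q).IsHomogeneous m := by
  classical
  have := hQ.aeval (R := ℂ) (S := ℂ) (τ := Fin 2)
    (fun i' => if i' = i 0 then MvPolynomial.X 0 else if i' = i 1 then MvPolynomial.X 1 else 0) (n := 1) (fun i' => by
      split_ifs
      · exact MvPolynomial.isHomogeneous_X _ _
      · exact MvPolynomial.isHomogeneous_X _ _
      · exact MvPolynomial.isHomogeneous_zero _ _ _)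
  rw [one_mul] at this
  exact this

theorem rn_eval (i : Fin 2 → G.ι) (Q : MvPolynomial G.ι ℂ) (u : Fin 2 → ℂ) :
    MvPolynomial.eval u (rn i Q) = MvPolynomial.eval (fun i' => by classical exact if i' = i 0 then u 0 else if i' = i 1 then u 1 else 0) Q := by
  classical
  induction Q using MvPolynomial.induction_on with
  | C a => simp [rn]
  | add p q hp hq =>
    have : rn i (p + q) = rn i p + rn i q := by simp [rn]
    rw [this, map_add, map_add, hp, hq]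
  | mul_X p n hp =>
    have : rn i (p * MvPolynomial.X n) = rn i p * (if n = i 0 then MvPolynomial.X 0 else if n = i 1 then MvPolynomial.X 1 else 0) := by simp [rn]
    rw [this, map_mul, map_mul, hp]
    congr 1
    rw [MvPolynomial.eval_X]
    split_ifs <;> simp

end LCrs

open LCrs

theorem crs_of (hG : G.Ok) {y : EN N} (hy : y ∈ G.X) {i : Fin 2 → G.ι} (hi : i 0 ≠ i 1) (h0 : ∀ a, G.E (i a) y = 0) : ∃ l P r C α, G.Crs y i l P r C α := by
  classical
  have hy0 : y ≠ 0 := fun h => hG.cone.zero_notMem (h ▸ hy)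
  have hyK : y ∉ G.K := fun h => hG.neE (i 0) y h (h0 0)
  have hXne : ∀ x ∈ G.X, x ≠ 0 := fun x hx h => hG.cone.zero_notMem (h ▸ hx)
  have hKX : ∀ x ∈ G.K, x ∈ G.X := fun x hx => ((hG.aff.mem x).1 hx).1
  have hpd : ∀ x ∈ G.X, dist (pr x) (pr y) = Real.sqrt 2 * pd x y := fun x hx => dist_pr (hXne x hx) hy0
  have hpd0 : ∀ x : EN N, 0 ≤ pd x y := fun x => div_nonneg (wd_nonneg _ _) (by positivity)
  have hpd' : ∀ x ∈ G.X, pd x y ≤ dist (pr x) (pr y) := fun x hx => by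
    rw [hpd x hx]
    exact le_mul_of_one_le_left (hpd0 x) (by rw [Real.one_le_sqrt]; norm_num)
  -- the local equations
  have hloc := fun a => hG.locE y hy (i a) (h0 a)
  choose l r₁ c₁ hr₁ hc₁ hloc using hloc
  -- the residues
  obtain ⟨Q, r₂, C₂, hr₂, hC₂, hQh, hQd, hQ⟩ := hG.resL y hy hyK
  -- the rate
  obtain ⟨r₃, C₃, α, hr₃, hα, hcr⟩ := hG.crE y hy (i 0) (i 1) hi (h0 0) (h0 1)
  -- the other components
  have hoth : ∀ i', ∃ r A : ℝ, 0 < r ∧ 0 ≤ A ∧ ∀ x ∈ G.K, dist (pr x) (pr y) < r → ∀ v, i' ≠ i 0 → i' ≠ i 1 → ‖G.ell i' x v‖ ≤ A * fs x v := by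
    intro i'
    by_cases h1 : i' = i 0
    · exact ⟨1, 0, one_pos, le_rfl, fun x _ _ v h => absurd h1 h⟩
    by_cases h2 : i' = i 1
    · exact ⟨1, 0, one_pos, le_rfl, fun x _ _ v _ h => absurd h2 h⟩
    obtain ⟨r, A, hr, hA, h⟩ := oth_le hG hy0 i' (hG.twoE y hy (i 0) (i 1) i' hi (Ne.symm h2) (Ne.symm h1) (h0 0) (h0 1))
    exact ⟨r, A, hr, hA, fun x hx hd v _ _ => h x hx hd v⟩
  choose r₄ A hr₄ hA hoth using hoth
  have hne : (Finset.univ : Finset G.ι).Nonempty := ⟨i 0, Finset.mem_univ _⟩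
  set r₅ : ℝ := Finset.univ.inf' hne r₄ with hr₅
  have hr₅0 : 0 < r₅ := by rw [hr₅, Finset.lt_inf'_iff]; exact fun i' _ => hr₄ i'
  have hr₅le : ∀ i', r₅ ≤ r₄ i' := fun i' => Finset.inf'_le _ (Finset.mem_univ i')
  set r : ℝ := min (1 / 2) (min (min (r₁ 0) (r₁ 1)) (min r₂ (min r₃ r₅))) with hr
  have hr0 : 0 < r := lt_min (by norm_num) (lt_min (lt_min (hr₁ 0) (hr₁ 1)) (lt_min hr₂ (lt_min hr₃ hr₅0)))
  have q1 : r ≤ 1 / 2 := min_le_left _ _
  have q2 : ∀ a, r ≤ r₁ a := by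
    intro a
    have h1 : r ≤ min (r₁ 0) (r₁ 1) := (min_le_right _ _).trans (min_le_left _ _)
    fin_cases a
    · exact h1.trans (min_le_left _ _)
    · exact h1.trans (min_le_right _ _)
  have q3 : r ≤ r₂ := (min_le_right _ _).trans ((min_le_right _ _).trans (min_le_left _ _))
  have q4 : r ≤ r₃ := (min_le_right _ _).trans ((min_le_right _ _).trans ((min_le_right _ _).trans (min_le_left _ _)))
  have q5 : r ≤ r₅ := (min_le_right _ _).trans ((min_le_right _ _).trans ((min_le_right _ _).trans (min_le_right _ _)))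
  have hSA : 0 ≤ ∑ i', A i' := Finset.sum_nonneg fun i' _ => hA i'
  refine ⟨l, fun j => rn i (Q j), r, 1 + C₂ + Real.sqrt 2 * |C₃| + ∑ i', A i', α, ?_⟩
  have hs2 : 0 ≤ Real.sqrt 2 * |C₃| := by positivity
  exact
  { ne := hy0
    r_pos := hr0
    r_le := q1
    C_ge := by linarith
    α_pos := hα
    hom := fun j => rn_hom i (hQh j)
    loc := fun a => ⟨c₁ a, hc₁ a, fun x hx hd => hloc a x hx (((hpd' x hx).trans_lt hd).trans_le (q2 a))⟩
    oth := by
      intro x hx hd v _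
      have hf := fs_nonneg x v
      have h1 : ∑ i', ‖G.ell i' x v‖ ≤ ∑ i', ((if i' = i 0 then ‖G.ell (i 0) x v‖ else 0) + (if i' = i 1 then ‖G.ell (i 1) x v‖ else 0) + A i' * fs x v) := by
        refine Finset.sum_le_sum fun i' _ => ?_
        have h2 : 0 ≤ A i' * fs x v := mul_nonneg (hA i') hf
        by_cases h3 : i' = i 0
        · subst h3
          have h4 : 0 ≤ (if i 0 = i 1 then ‖G.ell (i 1) x v‖ else 0) := by split_ifs <;> positivity
          rw [if_pos rfl]; linarith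
        by_cases h5 : i' = i 1
        · subst h5
          rw [if_neg h3, if_pos rfl]; linarith
        rw [if_neg h3, if_neg h5]
        have := hoth i' x hx (hd.trans_le (q5.trans (hr₅le i'))) v h3 h5
        linarith
      rw [Finset.sum_add_distrib, Finset.sum_add_distrib, Finset.sum_ite_eq', Finset.sum_ite_eq', if_pos (Finset.mem_univ _), if_pos (Finset.mem_univ _),
        ← Finset.sum_mul] at h1
      unfold Geo.L
      have h6 : 0 ≤ ‖G.ell (i 0) x v‖ := norm_nonneg _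
      have h7 : 0 ≤ ‖G.ell (i 1) x v‖ := norm_nonneg _
      have h8 : 0 ≤ C₂ + Real.sqrt 2 * |C₃| := by positivity
      nlinarith [mul_nonneg h8 hf, mul_nonneg h8 h6, mul_nonneg h8 h7, mul_nonneg hSA h6, mul_nonneg hSA h7]
    rate := by
      intro x hx hd u hu
      have h1 := hcr x hx (((hpd' x (hKX x hx)).trans_lt hd).trans_le q4) u (hu 0) (hu 1)
      rw [hpd x (hKX x hx)]
      have h2 : Real.sqrt 2 * pd x y ≤ Real.sqrt 2 * (C₃ * Real.exp (-(α * u))) := mul_le_mul_of_nonneg_left h1 (Real.sqrt_nonneg _)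
      have h3 : Real.sqrt 2 * (C₃ * Real.exp (-(α * u))) ≤ (Real.sqrt 2 * |C₃|) * Real.exp (-(α * u)) := by
        rw [← mul_assoc]
        exact mul_le_mul_of_nonneg_right (mul_le_mul_of_nonneg_left (le_abs_self _) (Real.sqrt_nonneg _)) (Real.exp_pos _).le
      refine h2.trans (h3.trans (mul_le_mul_of_nonneg_right (by linarith) (Real.exp_pos _).le))
    res := by
      intro x hx hd j v hv
      have h1 := hQ x hx (((hpd' x (hKX x hx)).trans_lt hd).trans_le q3) j v hv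
      have h2 : MvPolynomial.eval (fun a => G.ell (i a) x v) (rn i (Q j)) = MvPolynomial.eval (fun i' => G.ell i' x v) (Q j) := by
        rw [rn_eval]
        refine hQd j _ _ fun i' hi' => ?_
        by_cases h3 : i' = i 0
        · subst h3; simp
        by_cases h4 : i' = i 1
        · subst h4; simp [h3]
        exact absurd hi' (hG.twoE y hy (i 0) (i 1) i' hi (Ne.symm h4) (Ne.symm h3) (h0 0) (h0 1))
      rw [h2]
      refine h1.trans ?_
      have hf := fs_nonneg x v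
      have hL : 0 ≤ G.L x v := add_nonneg hf (Finset.sum_nonneg fun _ _ => norm_nonneg _)
      exact mul_le_mul_of_nonneg_right (mul_le_mul_of_nonneg_right (by linarith) hf) (pow_nonneg hL _) }

end Pool.Agent.SR3
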