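import Pool.Agent.SR3.LDefs

/-!
# SR3 LHlA: from `Holes` to `Hl`

`κ` = the holes `b ∈ t` with `‖b - a‖ < ρ`.  `yy b = yy a` for them: at a point `b + s b w`, `‖w‖ = 1` (which is `Off`) the curve is `ε₂`-near `yy a` and `ε`-near
`yy b`.  `near`: `hst` outside the holes, `Rim.ann` for `1 / 2 ≤ ‖w‖ ≤ 1`.  `wind`, `one`, `M_le`: `Rim.wind`.  `sepN`: `hpar`.
-/

set_option autoImplicit false

open Topology Filter Metric

noncomputable section

namespace Pool.Agent.SR3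

open Pool.Agent.H36.BP (EN fs wd Sub OrdTwo)
open Pool.Agent.H14.PP (IsCone Tan)
open Pool.Agent.SY (Ent)
open Pool.Agent.H62.EF (MN pr)
open Geo (Gd)

variable {N : ℕ} {G : Geo N} {T : Set (EN N)} {rho : EN N → ℝ} {M' : ℕ} {c₀ C₀ δ : ℝ} {g : (ℂ → EN N) → ℂ → ℝ}
variable {y : EN N} {i : Fin 2 → G.ι} {l : Fin 2 → Fin (G.M + 1)} {P : G.J → MvPolynomial (Fin 2) ℂ} {r C α : ℝ}

theorem hl_of (hG : G.Ok) {Y : Finset (EN N)} (hY : G.Ends Y) {B₃ B₄ B₅ ε ε₂ r η τ : ℝ} (hε : ε ≤ r) (hε2 : ε₂ ≤ r) (hεp : 0 < ε)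
    (hsepY : ∀ y ∈ Y, ∀ y' ∈ Y, dist (pr y) (pr y') < ε + ε₂ → pr y = pr y') (hη : 0 < η) (hτ : 0 < τ) (hτ1 : τ ≤ 1 / 8) {i : Fin 2 → G.ι}
    {l : Fin 2 → Fin (G.M + 1)} {F : ℂ → EN N} {z : ℂ} {d K : ℝ} {t : Finset ℂ} {s : ℂ → ℝ} {yy : ℂ → EN N} (hd : 8 / τ ≤ d) (hd' : Real.exp (-(η * d)) ≤ 1)
    (hF : Differentiable ℂ F) (hK : ∀ w, F w ∈ G.K) (hnm : ∀ w, G.p (F w) = 1)
    (hH : G.Holes Y B₃ B₄ ε 20 (Real.exp (-(η * d))) F z ((1 - τ / 4) * d) t s yy) {a : ℂ} (ha : a ∈ t) (haz : ‖z - a‖ < s a / 2)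
    (hi : ∀ e, G.E (i e) (yy a) = 0) (hl : ∀ e, G.LocEq r (yy a) (i e) (l e))
    (hst : ∀ w, ‖w - z‖ ≤ (1 - τ / 2) * d → Off t s w → dist (pr (F w)) (pr (yy a)) < ε₂)
    (hcard : (t.card : ℝ) ≤ B₅ * d)
    (hcnt : ∀ b ∈ t, ‖b - z‖ ≤ (1 - τ / 2) * d → ∀ r' : ℝ, 0 < r' → r' < d →
      (((t.erase b).filter (fun b' => ‖b' - b‖ ≤ r')).card : ℝ) * Real.log (d / r') ≤ B₅ * d)
    (hpar : ∀ b ∈ t, ∀ b' ∈ t, ‖b - z‖ ≤ (1 - τ / 2) * d → ‖b - b'‖ ≤ K * max (s b) (s b') →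
      G.wnd (fun w => F (b + s b * w)) (yy b) (i 0) (l 0) 1 * G.wnd (fun w => F (b' + s b' * w)) (yy b') (i 1) (l 1) 1 =
        G.wnd (fun w => F (b + s b * w)) (yy b) (i 1) (l 1) 1 * G.wnd (fun w => F (b' + s b' * w)) (yy b') (i 0) (l 0) 1)
    {B₆ : ℝ} (hgr : ∀ w, ‖w - z‖ ≤ d → Real.log ‖F w‖ ≤ B₆ * d) {ρ : ℝ} (hρ1 : (1 - 2 * τ) * d < ρ) (hρ2 : ρ < (1 - τ) * d)
    (hρ : ∀ b ∈ t, ‖b - a‖ + 4 * s b < ρ ∨ ρ + 4 * s b < ‖b - a‖) {B : ℝ} (hB4 : B₄ ≤ B) (hB5 : 2 * |B₅| ≤ B) (hB6 : 2 * |B₆| ≤ B) :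
    ∃ (κ : Type) (_ : Fintype κ) (ζ : κ → ℂ) (s' : κ → ℝ) (M : κ → Fin 2 → ℕ), G.Hl (yy a) i l r F ζ s' M a ρ B η K ∧ ∃ k, ζ k = a := by
  classical
  -- numbers
  have hd0 : 0 < d := lt_of_lt_of_le (by positivity) hd
  have hτd : 8 ≤ τ * d := by
    have h1 := (div_le_iff₀ hτ).1 hd
    rwa [mul_comm] at h1
  have hτ1d : τ * d ≤ d / 8 := by nlinarith
  have hρd : ρ < d := by nlinarith
  have hρ3 : 3 / 4 * d ≤ ρ := by nlinarith
  have hρ0 : 0 < ρ := by linarith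
  have hs1 : ∀ b ∈ t, 0 < s b ∧ s b ≤ 1 := fun b hb => ⟨(hH.pos b hb).1, (hH.pos b hb).2.trans hd'⟩
  have hsa := hs1 a ha
  have hwz : ∀ w, ‖w - z‖ ≤ ‖w - a‖ + 1 := by
    intro w
    have h1 : w - z = (w - a) - (z - a) := by ring
    rw [h1]
    refine (norm_sub_le _ _).trans ?_
    linarith
  have hB5' : B₅ * d ≤ B * ρ := by
    have h1 : B₅ * d ≤ |B₅| * d := mul_le_mul_of_nonneg_right (le_abs_self _) hd0.le
    have h2 : 2 * |B₅| * ρ ≤ B * ρ := mul_le_mul_of_nonneg_right hB5 hρ0.le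
    have h3 := abs_nonneg B₅
    nlinarith
  have hB6' : B₆ * d ≤ B * ρ := by
    have h1 : B₆ * d ≤ |B₆| * d := mul_le_mul_of_nonneg_right (le_abs_self _) hd0.le
    have h2 : 2 * |B₆| * ρ ≤ B * ρ := mul_le_mul_of_nonneg_right hB6 hρ0.le
    have h3 := abs_nonneg B₆
    nlinarith
  have hsep' : ∀ b ∈ t, ∀ b' ∈ t, b ≠ b' → 20 * s b < ‖b - b'‖ ∧ 20 * s b' < ‖b - b'‖ := by
    intro b hb b' hb' hne
    have h1 := hH.sep b hb b' hb' hne
    have h2 := le_max_left (s b) (s b')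
    have h3 := le_max_right (s b) (s b')
    constructor <;> linarith
  have hbz : ∀ b, ‖b - a‖ < ρ → ‖b - z‖ ≤ (1 - τ / 2) * d := fun b hb => by
    have h1 := hwz b
    nlinarith
  -- the annulus of a hole
  have hann : ∀ b ∈ t, ∀ w, s b / 2 ≤ ‖w - b‖ → ‖w - b‖ ≤ 20 * s b → dist (pr (F w)) (pr (yy b)) < ε := by
    intro b hb w h1 h2
    have hsb := (hs1 b hb).1
    have e : b + (s b : ℂ) * ((w - b) / s b) = w := by
      rw [mul_div_cancel₀ _ (Complex.ofReal_ne_zero.2 hsb.ne')]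
      ring
    have hn : ‖(w - b) / (s b : ℂ)‖ = ‖w - b‖ / s b := by rw [norm_div, Complex.norm_real, Real.norm_of_nonneg hsb.le]
    have h3 := ((hH.rim b hb).ann ((w - b) / s b) (by rw [hn, le_div_iff₀ hsb]; linarith) (by rw [hn, div_le_iff₀ hsb]; exact h2)).2
    rw [e] at h3
    exact h3
  -- all ends are the same
  have hyy : ∀ b ∈ t, ‖b - a‖ < ρ → yy b = yy a := by
    intro b hb hba
    have hsb := hs1 b hb
    have hn : ‖(b + (s b : ℂ)) - b‖ = s b := by rw [add_sub_cancel_left, Complex.norm_real, Real.norm_of_nonneg hsb.1.le]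
    have hoff : Off t s (b + (s b : ℂ)) := by
      intro b' hb'
      by_cases h1 : b' = b
      · rw [h1, hn]
      · have h2 := hsep' b hb b' hb' fun h => h1 h.symm
        have h3 : ‖b - b'‖ ≤ ‖(b + (s b : ℂ)) - b'‖ + ‖(b + (s b : ℂ)) - b‖ := by
          have h4 : b - b' = ((b + (s b : ℂ)) - b') - ((b + (s b : ℂ)) - b) := by ring
          rw [h4]
          exact norm_sub_le _ _
        rw [hn] at h3
        have h5 := (hs1 b' hb').1
        by_cases h6 : s b ≤ s b'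
        · linarith
        · linarith
    have h1 := hann b hb (b + (s b : ℂ)) (by rw [hn]; linarith) (by rw [hn]; linarith)
    have h2 := hst (b + (s b : ℂ)) (by
      have h3 := hwz (b + (s b : ℂ))
      have h4 : ‖(b + (s b : ℂ)) - a‖ ≤ ‖b - a‖ + s b := by
        have h5 : (b + (s b : ℂ)) - a = (b - a) + ((b + (s b : ℂ)) - b) := by ring
        rw [h5]
        refine (norm_add_le _ _).trans ?_
        rw [hn]
      nlinarith) hoff
    refine hY.inj _ (hH.rim b hb).mem _ (hH.rim a ha).mem (hsepY _ (hH.rim b hb).mem _ (hH.rim a ha).mem ?_)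
    rw [dist_comm] at h1
    exact (dist_triangle _ _ _).trans_lt (add_lt_add h1 h2)
  -- the index set
  have hloc : ∀ b ∈ t, ‖b - a‖ < ρ → ∀ e, G.LocEq ε (yy b) (i e) (l e) := by
    intro b hb hba e
    obtain ⟨c, hc, h1⟩ := hl e
    rw [hyy b hb hba]
    exact ⟨c, hc, fun x hx hxy => h1 x hx (hxy.trans_le hε)⟩
  choose! M hM using fun (b : ℂ) (hb : b ∈ t) (hba : ‖b - a‖ < ρ) (e : Fin 2) => (hH.rim b hb).wind (i e) (l e) (hloc b hb hba e)
  have hwnd : ∀ b ∈ t, ‖b - a‖ < ρ → ∀ e, G.wnd (fun w => F (b + s b * w)) (yy b) (i e) (l e) 1 = -(2 * Real.pi * Complex.I * M b e) :=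
    fun b hb hba e => (hM b hb hba e).2.2 1 le_rfl one_le_two
  have hpiI : (2 * Real.pi * Complex.I : ℂ) ≠ 0 := Complex.two_pi_I_ne_zero
  refine ⟨{b // b ∈ t ∧ ‖b - a‖ < ρ}, (Fintype.ofFinset (t.filter fun b => ‖b - a‖ < ρ) fun b => by rw [Finset.mem_filter]; rfl), fun b => b, fun b => s b,
    fun b => M b, ?_, ⟨a, ha, by rw [sub_self, norm_zero]; exact hρ0⟩, rfl⟩
  let _ : Fintype {b // b ∈ t ∧ ‖b - a‖ < ρ} := Fintype.ofFinset (t.filter fun b => ‖b - a‖ < ρ) fun b => by rw [Finset.mem_filter]; rfl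
  refine ⟨hF, hK, hnm, fun k => (hs1 k k.2.1).1, fun k => (hH.pos k k.2.1).2.trans (Real.exp_le_exp.2 (neg_le_neg (mul_le_mul_of_nonneg_left hρd.le hη.le))),
    fun k => ?_, fun j k hjk => ?_, fun j k hjk => ?_, ?_, fun k t' ht' ht'ρ => ?_, fun w hw hwk => ?_, fun k w hw => ?_, fun w hw => ?_,
    fun k e => (hM k k.2.1 k.2.2 e).2.1 (by rw [hyy k k.2.1 k.2.2]; exact hi e), fun k e => (hM k k.2.1 k.2.2 e).1.trans hB4, fun k e => ?_⟩
  · -- inb
    rcases hρ k k.2.1 with h1 | h1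
    · exact h1
    · have h2 := k.2.2
      have h3 := (hs1 k k.2.1).1
      exfalso
      linarith
  · -- sep
    exact (hsep' j j.2.1 k k.2.1 fun h => hjk (Subtype.ext h)).1.le
  · -- sepN
    by_contra hcon
    push Not at hcon
    apply hjk
    have hK0 : 0 ≤ K := by
      by_contra h1
      have h2 : K * s j ≤ 0 := mul_nonpos_of_nonpos_of_nonneg (not_le.1 h1).le (hs1 j j.2.1).1.le
      exact absurd (hcon.trans_le h2) (not_lt.2 (norm_nonneg _))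
    have h1 := hpar j j.2.1 k k.2.1 (hbz j j.2.2) (hcon.le.trans (mul_le_mul_of_nonneg_left (le_max_left _ _) hK0))
    rw [hwnd j j.2.1 j.2.2, hwnd k k.2.1 k.2.2, hwnd j j.2.1 j.2.2, hwnd k k.2.1 k.2.2] at h1
    have h2 : ((M j 0 * M k 1 : ℕ) : ℂ) = ((M j 1 * M k 0 : ℕ) : ℂ) := by
      apply mul_left_cancel₀ (pow_ne_zero 2 hpiI)
      push_cast
      linear_combination h1
    exact_mod_cast h2
  · -- card
    refine le_trans ?_ (hcard.trans hB5')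
    have h1 : Fintype.card {b // b ∈ t ∧ ‖b - a‖ < ρ} ≤ t.card :=
      (Fintype.card_le_of_injective (fun b : {b // b ∈ t ∧ ‖b - a‖ < ρ} => (⟨b, b.2.1⟩ : t)) fun b b' h => Subtype.ext (congrArg (fun x : t => (x : ℂ)) h)).trans (Fintype.card_coe t).le
    exact_mod_cast h1
  · -- cnt
    have h1 := hcnt k k.2.1 (hbz k k.2.2) t' ht' (ht'ρ.trans hρd)
    refine le_trans ?_ (h1.trans hB5')
    refine mul_le_mul ?_ (Real.log_le_log (div_pos hρ0 ht') (div_le_div_of_nonneg_right hρd.le ht'.le)) (Real.log_nonneg ((one_le_div ht').2 ht'ρ.le))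
      (Nat.cast_nonneg _)
    have h2 : (Finset.univ.filter fun j : {b // b ∈ t ∧ ‖b - a‖ < ρ} => 0 < ‖(j : ℂ) - k‖ ∧ ‖(j : ℂ) - k‖ ≤ t').card ≤
        ((t.erase (k : ℂ)).filter (fun b' => ‖b' - (k : ℂ)‖ ≤ t')).card := by
      refine Finset.card_le_card_of_injOn (fun j => (j : ℂ)) (fun j hj => ?_) fun j _ j' _ h => Subtype.ext h
      have h3 := (Finset.mem_filter.1 hj).2
      refine Finset.mem_filter.2 ⟨Finset.mem_erase.2 ⟨fun h => ?_, j.2.1⟩, h3.2⟩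
      have h4 := h3.1
      have h5 : (j : ℂ) = k := h
      rw [h5, sub_self, norm_zero] at h4
      exact lt_irrefl _ h4
    exact_mod_cast h2
  · -- near
    by_cases hoff : Off t s w
    · refine (hst w ?_ hoff).trans_le hε2
      have h1 := hwz w
      nlinarith
    · obtain ⟨b, hb, hwb⟩ : ∃ b ∈ t, ‖w - b‖ < s b := by
        unfold Off at hoff
        push Not at hoff
        exact hoff
      have h1 : ‖b - a‖ < s b + ρ := by
        have h2 : b - a = (w - a) - (w - b) := by ring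
        rw [h2]
        refine (norm_sub_le _ _).trans_lt ?_
        linarith
      have hba : ‖b - a‖ < ρ := by
        have h3 := (hs1 b hb).1
        rcases hρ b hb with h2 | h2
        · linarith
        · exfalso
          linarith
      have h2 : s b / 2 ≤ ‖w - b‖ := hwk ⟨b, hb, hba⟩
      have h3 := hann b hb w h2 (by have := (hs1 b hb).1; linarith)
      rw [hyy b hb hba] at h3
      exact h3.trans_le hε
  · -- bdd
    have hsb := (hs1 k k.2.1).1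
    have e : (k : ℂ) + (s k : ℂ) * ((w - k) / s k) = w := by
      rw [mul_div_cancel₀ _ (Complex.ofReal_ne_zero.2 hsb.ne')]
      ring
    have hn : ‖(w - k) / (s k : ℂ)‖ = ‖w - k‖ / s k := by rw [norm_div, Complex.norm_real, Real.norm_of_nonneg hsb.le]
    have h3 := (hH.rim k k.2.1).bdd ((w - k) / s k) (by rw [hn, div_le_iff₀ hsb]; exact hw.trans (mul_le_mul_of_nonneg_right (by norm_num) hsb.le))
    rw [e] at h3
    exact h3.trans hB4
  · -- upp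
    refine (hgr w ?_).trans hB6'
    have h1 := hwz w
    nlinarith
  · -- wind
    rw [← hyy k k.2.1 k.2.2]
    exact hwnd k k.2.1 k.2.2 e

end Pool.Agent.SR3
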