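import Pool.Agent.SR3.LDefs

/-!
# SR3 LRad: a radius for the disc

The sum of the radii is at most `B d exp (- η d)`: the intervals of the bad radii do not cover `((1 - 2 τ) d, (1 - τ) d)`.
-/

set_option autoImplicit false

open Topology Filter Metric

noncomputable section

namespace Pool.Agent.SR3

private theorem rad_aux (t : Finset ℂ) (σ : ℂ → ℝ) (w : ℂ) {a b : ℝ} (h0 : ∀ k ∈ t, 0 ≤ σ k) (hs : 2 * ∑ k ∈ t, σ k < b - a) :
    ∃ ρ, a < ρ ∧ ρ < b ∧ ∀ k ∈ t, ‖k - w‖ + σ k ≤ ρ ∨ ρ + σ k ≤ ‖k - w‖ := by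
  by_contra hcon
  push Not at hcon
  have h1 : Set.Ioo a b ⊆ ⋃ k ∈ t, Set.Ioo (‖k - w‖ - σ k) (‖k - w‖ + σ k) := by
    intro ρ hρ
    obtain ⟨k, hk, h2, h3⟩ := hcon ρ hρ.1 hρ.2
    exact Set.mem_iUnion₂.2 ⟨k, hk, by linarith, h2⟩
  have h2 := (MeasureTheory.measure_mono (μ := MeasureTheory.volume) h1).trans (MeasureTheory.measure_biUnion_finset_le _ _)
  rw [Real.volume_Ioo] at h2
  have h3 : ∀ k, MeasureTheory.volume (Set.Ioo (‖k - w‖ - σ k) (‖k - w‖ + σ k)) = ENNReal.ofReal (2 * σ k) := fun k => by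
    rw [Real.volume_Ioo]
    congr 1
    ring
  rw [Finset.sum_congr rfl fun k _ => h3 k, ← ENNReal.ofReal_sum_of_nonneg fun k hk => mul_nonneg zero_le_two (h0 k hk), ← Finset.mul_sum] at h2
  have h4 : 0 ≤ 2 * ∑ k ∈ t, σ k := mul_nonneg zero_le_two (Finset.sum_nonneg h0)
  exact absurd ((ENNReal.ofReal_le_ofReal_iff h4).1 h2) (not_le.2 hs)

theorem hl_rad {B η τ : ℝ} (hη : 0 < η) (hτ : 0 < τ) : ∃ R : ℝ, ∀ (t : Finset ℂ) (s : ℂ → ℝ) (a : ℂ) (d : ℝ), R ≤ d → (t.card : ℝ) ≤ B * d →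
    (∀ b ∈ t, 0 < s b ∧ s b ≤ Real.exp (-(η * d))) → ∃ ρ : ℝ, (1 - 2 * τ) * d < ρ ∧ ρ < (1 - τ) * d ∧
      ∀ b ∈ t, ‖b - a‖ + 4 * s b < ρ ∨ ρ + 4 * s b < ‖b - a‖ := by
  have hB1 : 0 < 20 * (|B| + 1) := by positivity
  refine ⟨max 1 (Real.log (20 * (|B| + 1) / τ) / η), fun t s a d hR hcard hs => ?_⟩
  have hd : 1 ≤ d := (le_max_left _ _).trans hR
  have hd0 : 0 < d := by linarith
  have h1 : Real.log (20 * (|B| + 1) / τ) ≤ η * d := by
    have h2 := (le_max_right _ _).trans hR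
    rw [div_le_iff₀ hη] at h2
    linarith
  have h2 : Real.exp (-(η * d)) ≤ τ / (20 * (|B| + 1)) := by
    rw [Real.exp_neg, ← inv_div, inv_le_inv₀ (Real.exp_pos _) (by positivity)]
    rw [← Real.log_le_iff_le_exp (by positivity)]
    exact h1
  have h3 : 2 * ∑ b ∈ t, 5 * s b < (1 - τ) * d - (1 - 2 * τ) * d := by
    have h4 : ∑ b ∈ t, 5 * s b ≤ ∑ _b ∈ t, 5 * (τ / (20 * (|B| + 1))) := Finset.sum_le_sum fun b hb =>
      mul_le_mul_of_nonneg_left ((hs b hb).2.trans h2) (by norm_num)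
    rw [Finset.sum_const, nsmul_eq_mul] at h4
    have h5 : (t.card : ℝ) ≤ |B| * d := hcard.trans (mul_le_mul_of_nonneg_right (le_abs_self _) hd0.le)
    have h6 : (t.card : ℝ) * (5 * (τ / (20 * (|B| + 1)))) ≤ |B| * d * (5 * (τ / (20 * (|B| + 1)))) :=
      mul_le_mul_of_nonneg_right h5 (by positivity)
    have h7 : |B| * d * (5 * (τ / (20 * (|B| + 1)))) = τ * d * (|B| / (|B| + 1)) / 4 := by
      field_simp
      ring
    have h8 : |B| / (|B| + 1) ≤ 1 := (div_le_one (by positivity)).2 (by linarith)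
    have h9 : τ * d * (|B| / (|B| + 1)) ≤ τ * d := mul_le_of_le_one_right (by positivity) h8
    have h10 : 0 < τ * d := by positivity
    nlinarith
  obtain ⟨ρ, h4, h5, h6⟩ := rad_aux t (fun b => 5 * s b) a (fun b hb => by have := (hs b hb).1; positivity) h3
  refine ⟨ρ, h4, h5, fun b hb => ?_⟩
  have h8 := (hs b hb).1
  rcases h6 b hb with h7 | h7
  · left
    linarith
  · right
    linarith

end Pool.Agent.SR3
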