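import Pool.Agent.SR3.HolD

/-!
# SR3 LimA: existence of the limit (helper39, for helper92)

The charts for `ult_holes` are given by the ends `y a`, or by `Γ n z` where the speed is bounded.
-/

set_option autoImplicit false

open Topology Filter Metric

noncomputable section

namespace Pool.Agent.SR3

open Pool.Agent.H36.BP (EN fs wd Sub OrdTwo)
open Pool.Agent.H62.EF (MN pr norm_inner_sq pr_lipschitz)

variable {N : ℕ} {G : Geo N}

private theorem half_of_dist {x y : EN N} (hx : x ≠ 0) (hy : y ≠ 0) (h : dist (pr y) (pr x) < 1) : ‖x‖ * ‖y‖ < 2 * ‖(inner ℂ x y : ℂ)‖ := by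
  have h0 : 0 < ‖x‖ := norm_pos_iff.mpr hx
  have h0' : 0 < ‖y‖ := norm_pos_iff.mpr hy
  have h1 := norm_inner_sq hx hy
  have h2 : dist (pr x) (pr y) < 1 := by rwa [dist_comm]
  have h3 : dist (pr x) (pr y) ^ 2 < 1 := by
    have h4 : 0 ≤ dist (pr x) (pr y) := dist_nonneg
    nlinarith
  have h5 : 0 < ‖x‖ * ‖y‖ := mul_pos h0 h0'
  have h6 : (‖x‖ * ‖y‖) ^ 2 < (2 * ‖(inner ℂ x y : ℂ)‖) ^ 2 := by
    rw [mul_pow 2, h1]
    have h7 : 0 < ‖x‖ ^ 2 * ‖y‖ ^ 2 := by positivity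
    nlinarith
  exact lt_of_pow_lt_pow_left₀ 2 (by positivity) h6

theorem exists_limH (hG : G.Ok) {Y : Finset (EN N)} (hY : G.Ends Y) : ∃ ε₁ : ℝ, 0 < ε₁ ∧ ∀ B₃ B₄ ε K ε₂ : ℝ, 20 ≤ K → ε₂ ≤ ε₁ → ∀ 𝒰 U Γ t s y,
    G.Loc Y B₃ B₄ ε K ε₂ 𝒰 U Γ t s y → ∃ f : ℂ → MN N, Geo.LimOf 𝒰 U Γ t s f := by
  refine ⟨1, one_pos, fun B₃ B₄ ε K ε₂ hK hε 𝒰 U Γ t s y h => ?_⟩
  have hX : ∀ x ∈ G.X, x ≠ 0 := fun x hx h0 => hG.cone.zero_notMem (h0 ▸ hx)
  have hK0 : ∀ x ∈ G.K, x ≠ 0 := fun x hx => hX x ((hG.aff.mem x).1 hx).1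
  refine ult_holes 𝒰 h.opn Γ t s h.pos (fun n a ha b hb hab => ?_) (fun z hz => ?_) (fun z hz => ?_)
  · have h1 := h.sep n a ha b hb hab
    have h2 : 0 < max (s n a) (s n b) := lt_max_of_lt_left (h.pos n a ha)
    nlinarith
  · obtain ⟨r, hr, hs⟩ := h.small z hz
    exact ⟨r, hr, h.out_all hz hr, hs⟩
  · obtain ⟨r, hr, hev⟩ := h.loc z hz
    refine ⟨r / 4, by positivity, ?_⟩
    filter_upwards [hev] with n hn
    have hd : ∀ w, DifferentiableAt ℂ (Γ n) w := fun w => (h.crv n).1 w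
    have hne : ∀ w, Γ n w ≠ 0 := fun w => hK0 _ ((h.crv n).2.1 w)
    have hsub : ball z (r / 4) ⊆ ball z r := ball_subset_ball (by linarith)
    rcases hn with ⟨a, ha, h1⟩ | ⟨-, h1⟩
    · refine ⟨y n a, fun w hw ho => ⟨hd w, ?_⟩⟩
      have h2 : y n a ≠ 0 := hX _ (hY.mem _ (h.rim n a ha).mem).1
      exact half_of_dist h2 (hne w) (lt_of_lt_of_le (h1 w (hsub hw) ho) hε)
    · refine ⟨Γ n z, fun w hw _ => ⟨hd w, half_of_dist (hne z) (hne w) ?_⟩⟩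
      have h2 := pr_lipschitz (isOpen_ball (x := z) (ε := r)) (convex_ball z r) (h.crv n).1.differentiableOn (fun w _ => hne w) h1 w (hsub hw) z
        (mem_ball_self hr)
      have h3 : ‖w - z‖ < r / 4 := by rwa [mem_ball, dist_eq_norm] at hw
      refine lt_of_le_of_lt h2 ?_
      have h4 : 2 * (1 / r) * ‖w - z‖ < 2 * (1 / r) * (r / 4) := mul_lt_mul_of_pos_left h3 (by positivity)
      have h5 : 2 * (1 / r) * (r / 4) = 1 / 2 := by
        field_simp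
        norm_num
      linarith

end Pool.Agent.SR3
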