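import Pool.Agent.SR3.GDefs
import Pool.Agent.SR3.HolA

/-!
# SR3 LimB: the limit is in the boundary

If `p` is not identically zero on a local lift at a limit point `z₁` of holes, the lifts are bounded on a circle outside the holes, hence in the disc, so
equicontinuous, against `Rim.low` and `Rim.up`.
-/

set_option autoImplicit false

open Topology Filter Metric

noncomputable section

namespace Pool.Agent.SR3

open Pool.Agent.H36.BP (EN fs wd Sub OrdTwo)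
open Pool.Agent.H14.PP (IsCone Tan)
open Pool.Agent.SY (Ent)
open Pool.Agent.H62.EF (MN pr pr_smul pr_eq_iff continuousAt_pr isCompact_pr)
open Pool.Agent.G3 (LLift)

variable {N : ℕ} {G : Geo N}

namespace LimB

/-- a form without zeros on a compact set of the projective space is bounded below near it -/
theorem low {p : EN N → ℂ} {h : ℕ} (hpc : Continuous p) (hps : ∀ (c : ℂ) (x : EN N), p (c • x) = c ^ h * p x) {A : Set (MN N)} (hA : IsCompact A)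
    (h0 : ∀ x : EN N, x ≠ 0 → pr x ∈ A → p x ≠ 0) : ∃ δ C : ℝ, 0 < δ ∧ 0 < C ∧ ∀ x : EN N, x ≠ 0 → ∀ P ∈ A, dist (pr x) P < δ → ‖x‖ ^ h ≤ C * ‖p x‖ := by
  obtain ⟨Z, hZ⟩ : ∃ Z : ℕ → Set (EN N), Z = fun (k : ℕ) => sphere 0 1 ∩ {x | ‖p x‖ ≤ 1 / ((k : ℝ) + 1)} := ⟨_, rfl⟩
  have hZc : ∀ k, IsCompact (pr '' Z k) := by
    intro k
    have h1 : IsCompact (Z k) := by
      rw [hZ]
      exact (isCompact_sphere 0 1).inter_right (isClosed_le hpc.norm continuous_const)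
    refine h1.image_of_continuousOn fun x hx => (continuousAt_pr ?_).continuousWithinAt
    rw [hZ] at hx
    rintro rfl
    have := hx.1
    rw [mem_sphere_zero_iff_norm, norm_zero] at this
    exact zero_ne_one this
  have hcov : A ⊆ ⋃ k, (pr '' Z k)ᶜ := by
    intro P hP
    rw [Set.mem_iUnion]
    by_contra hcon
    push Not at hcon
    have h1 : ∀ k, P ∈ pr '' Z k := fun k => not_not.1 (hcon k)
    obtain ⟨x₀, hx₀, hxP⟩ := h1 0
    rw [hZ] at hx₀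
    have hn0 : ‖x₀‖ = 1 := mem_sphere_zero_iff_norm.1 hx₀.1
    have hx0 : x₀ ≠ 0 := by
      rintro rfl
      rw [norm_zero] at hn0
      exact zero_ne_one hn0
    have hp0 : 0 < ‖p x₀‖ := norm_pos_iff.2 (h0 x₀ hx0 (hxP ▸ hP))
    obtain ⟨k, hk⟩ := exists_nat_one_div_lt hp0
    obtain ⟨x, hx, hxP'⟩ := h1 k
    rw [hZ] at hx
    have hn : ‖x‖ = 1 := mem_sphere_zero_iff_norm.1 hx.1
    have hx' : x ≠ 0 := by
      rintro rfl
      rw [norm_zero] at hn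
      exact zero_ne_one hn
    obtain ⟨c, hc, rfl⟩ := (pr_eq_iff hx' hx0).1 (hxP'.trans hxP.symm)
    have hc1 : ‖c‖ = 1 := by
      rw [norm_smul, hn0, mul_one] at hn
      exact hn
    have h2 : ‖p (c • x₀)‖ ≤ 1 / ((k : ℝ) + 1) := hx.2
    rw [hps, norm_mul, norm_pow, hc1, one_pow, one_mul] at h2
    linarith
  have hdir : Directed (· ⊆ ·) fun k => (pr '' Z k)ᶜ := by
    refine (monotone_nat_of_le_succ fun k => ?_).directed_le
    refine Set.compl_subset_compl.2 (Set.image_mono fun x hx => ?_)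
    rw [hZ] at hx ⊢
    have h1 : ‖p x‖ ≤ 1 / (((k + 1 : ℕ) : ℝ) + 1) := hx.2
    have h2 : 1 / (((k + 1 : ℕ) : ℝ) + 1) ≤ 1 / ((k : ℝ) + 1) := by
      push_cast
      exact one_div_le_one_div_of_le (by positivity) (by linarith)
    exact ⟨hx.1, h1.trans h2⟩
  obtain ⟨k, hk⟩ := hA.elim_directed_cover _ (fun k => (hZc k).isClosed.isOpen_compl) hcov hdir
  obtain ⟨δ, hδ, hδs⟩ := hA.exists_thickening_subset_open (hZc k).isClosed.isOpen_compl hk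
  refine ⟨δ, (k : ℝ) + 1, hδ, by positivity, fun x hx P hP hd => ?_⟩
  have hx0 : 0 < ‖x‖ := norm_pos_iff.2 hx
  have hc : ((‖x‖⁻¹ : ℝ) : ℂ) ≠ 0 := by exact_mod_cast (inv_pos.2 hx0).ne'
  have h1 : pr x ∈ (pr '' Z k)ᶜ := hδs (mem_thickening_iff.2 ⟨P, hP, hd⟩)
  have h2 : ¬ ‖p (((‖x‖⁻¹ : ℝ) : ℂ) • x)‖ ≤ 1 / ((k : ℝ) + 1) := by
    intro h3
    refine h1 ⟨((‖x‖⁻¹ : ℝ) : ℂ) • x, ?_, pr_smul x hc⟩
    rw [hZ]
    refine ⟨?_, h3⟩
    rw [mem_sphere_zero_iff_norm, norm_smul, Complex.norm_real, norm_inv, norm_norm]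
    exact inv_mul_cancel₀ hx0.ne'
  rw [not_le, hps, norm_mul, norm_pow, Complex.norm_real, norm_inv, norm_norm, inv_pow, inv_mul_eq_div, lt_div_iff₀ (by positivity), one_div,
    inv_mul_lt_iff₀ (by positivity)] at h2
  exact h2.le

/-- the class of a zero of `p` -/
def Bd (G : Geo N) (P : MN N) : Prop := ∀ x : EN N, x ≠ 0 → P = pr x → G.p x = 0

theorem bd_iff (hG : G.Ok) {P : MN N} {x : EN N} (hx : x ≠ 0) (h : P = pr x) : Bd G P ↔ G.p x = 0 := by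
  constructor
  · exact fun h1 => h1 x hx h
  · intro h1 x' hx' h2
    obtain ⟨c, -, rfl⟩ := (pr_eq_iff hx' hx).1 (h2.symm.trans h)
    have h3 : G.p (c • x) = c ^ G.h * G.p x := hG.aff.smul () c x
    rw [h3, h1, mul_zero]

theorem dich (hG : G.Ok) {f : ℂ → MN N} {z : ℂ} (hz : LLift f z) : (∀ᶠ w in 𝓝 z, Bd G (f w)) ∨ ∀ᶠ w in 𝓝[≠] z, ¬ Bd G (f w) := by
  obtain ⟨Φ, hΦ, hev⟩ := hz
  have hp : AnalyticAt ℂ (fun w => G.p (Φ w)) z := AnalyticAt.comp (g := G.p) (f := Φ) (hG.aff.an () (Φ z)) hΦ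
  rcases hp.eventually_eq_zero_or_eventually_ne_zero with h | h
  · left
    filter_upwards [h, hev] with w h1 h2
    exact (bd_iff hG h2.1 h2.2).2 h1
  · right
    filter_upwards [h, hev.filter_mono nhdsWithin_le_nhds] with w h1 h2 h3
    exact h1 ((bd_iff hG h2.1 h2.2).1 h3)

theorem lift_cont {f : ℂ → MN N} {z : ℂ} (hz : LLift f z) : ContinuousAt f z := by
  obtain ⟨Φ, hΦ, hev⟩ := hz
  have h1 : ContinuousAt (fun w => pr (Φ w)) z := ContinuousAt.comp (g := pr) (f := Φ) (continuousAt_pr hev.self_of_nhds.1) hΦ.continuousAt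
  exact h1.congr (hev.mono fun w hw => hw.2.symm)

variable {Y : Finset (EN N)} {B₃ B₄ ε K ε₂ : ℝ} {𝒰 : Ultrafilter ℕ} {U : Set ℂ} {Γ : ℕ → ℂ → EN N} {t : ℕ → Finset ℂ} {s : ℕ → ℂ → ℝ} {y : ℕ → ℂ → EN N}

/-- circles outside the holes -/
theorem circ (hL : G.Loc Y B₃ B₄ ε K ε₂ 𝒰 U Γ t s y)
    {z : ℂ} (hz : z ∈ U) : ∃ r₁ : ℝ, 0 < r₁ ∧ ∀ a b : ℝ, 0 ≤ a → a < b → b ≤ r₁ → ∀ᶠ n in (𝒰 : Filter ℕ), ∃ ρ, a < ρ ∧ ρ < b ∧
      ∀ ζ, ‖ζ - z‖ = ρ → Far (t n) (s n) ζ := by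
  obtain ⟨r, hr, hsum⟩ := hL.small z hz
  refine ⟨r / 2, by positivity, fun a b ha hab hb => ?_⟩
  have e1 := hsum.eventually_lt_const (show (0 : ℝ) < (b - a) / 2 by linarith)
  have e2 := hL.tiny_at z (2 + r) ((r / 2) ^ 2) (by positivity)
  filter_upwards [e1, e2] with n h1 h2
  obtain ⟨ρ, hρ1, hρ2, hρ⟩ := exists_rad ((t n).filter fun a => ‖a - z‖ < r) (fun a => √(s n a)) z (fun _ _ => Real.sqrt_nonneg _)
    (show 2 * ∑ k ∈ (t n).filter (fun a => ‖a - z‖ < r), √(s n k) < b - a by linarith)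
  refine ⟨ρ, hρ1, hρ2, fun ζ hζ k hk hk1 => ?_⟩
  by_cases h : ‖k - z‖ < r
  · exact hρ k (Finset.mem_filter.2 ⟨hk, h⟩) ζ hζ
  · rw [not_lt] at h
    have h3 : ‖k - z‖ ≤ ρ + ‖ζ - k‖ := by
      have h4 := norm_sub_le (ζ - z) (ζ - k)
      rwa [hζ, sub_sub_sub_cancel_left] at h4
    have h4 := h2 k hk (by linarith)
    have h5 : √(s n k) ≤ r / 2 := Real.sqrt_le_iff.2 ⟨by positivity, h4⟩
    linarith

/-- the limit is in the surface -/
theorem mem_X (hG : G.Ok) (hL : G.Loc Y B₃ B₄ ε K ε₂ 𝒰 U Γ t s y)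
   
    {f : ℂ → MN N} (hf : Geo.LimOf 𝒰 U Γ t s f) {z : ℂ} (hz : z ∈ U) {x : EN N} (hx : x ≠ 0) (hfx : f z = pr x) : x ∈ G.X := by
  have hc : IsCompact (pr '' G.X) := isCompact_pr hG.cone
  have h1 : f z ∈ closure (pr '' G.X) := by
    rw [Metric.mem_closure_iff]
    intro ε' hε'
    obtain ⟨r₁, hr₁, hcirc⟩ := circ hL hz
    obtain ⟨r₂, hr₂, hU₂⟩ := Metric.isOpen_iff.1 hL.opn z hz
    obtain ⟨r₃, hr₃, hf₃⟩ := Metric.continuousAt_iff.1 (lift_cont (hf.lift z hz)) (ε' / 2) (by positivity)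
    obtain ⟨R, hR0, hR1, hR2, hR3⟩ : ∃ R : ℝ, 0 < R ∧ R ≤ r₁ ∧ R < r₂ ∧ R < r₃ := by
      refine ⟨min r₁ (min r₂ r₃) / 2, by positivity, ?_, ?_, ?_⟩
      · have h2 : min r₁ (min r₂ r₃) ≤ r₁ := min_le_left _ _
        linarith
      · have h2 : min r₁ (min r₂ r₃) ≤ r₂ := (min_le_right _ _).trans (min_le_left _ _)
        linarith
      · have h2 : min r₁ (min r₂ r₃) ≤ r₃ := (min_le_right _ _).trans (min_le_right _ _)
        linarith
    have h2 := hf.lim (closedBall z R) ((closedBall_subset_ball hR2).trans hU₂) (isCompact_closedBall z R) (ε' / 2) (by positivity)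
    obtain ⟨n, ⟨ρ, hρ0, hρ1, hρ⟩, h3⟩ := ((hcirc 0 R le_rfl hR0 hR1).and h2).exists
    have hζ : ‖z + (ρ : ℂ) - z‖ = ρ := by rw [add_sub_cancel_left, Complex.norm_real, Real.norm_of_nonneg hρ0.le]
    have h4 := h3 (z + ρ) (by rw [mem_closedBall, dist_eq_norm, hζ]; exact hρ1.le) (hρ _ hζ)
    have h5 : dist (f (z + ρ)) (f z) < ε' / 2 := hf₃ (by rw [dist_eq_norm, hζ]; linarith)
    refine ⟨pr (Γ n (z + ρ)), ⟨_, ((hG.aff.mem _).1 ((hL.crv n).2.1 (z + ρ))).1, rfl⟩, ?_⟩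
    have h6 := dist_triangle (f z) (f (z + ρ)) (pr (Γ n (z + ρ)))
    rw [dist_comm (f z) (f (z + ρ)), dist_comm (f (z + ρ)) (pr (Γ n (z + ρ)))] at h6
    linarith
  obtain ⟨x', hx', hxe⟩ := hc.isClosed.closure_subset h1
  have hx'0 : x' ≠ 0 := fun h => hG.cone.zero_notMem (h ▸ hx')
  obtain ⟨c, hc0, rfl⟩ := (pr_eq_iff hx hx'0).1 (hfx.symm.trans hxe.symm)
  exact hG.cone.smul_mem x' hx' c hc0

end LimB

open LimB in
theorem lim_bdry (hG : G.Ok) {Y : Finset (EN N)} {B₃ B₄ ε K ε₂ : ℝ} (hK : 20 ≤ K) {𝒰 : Ultrafilter ℕ} {U : Set ℂ} {Γ t s y}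
    (hL : G.Loc Y B₃ B₄ ε K ε₂ 𝒰 U Γ t s y)
    {f : ℂ → MN N} (hf : Geo.LimOf 𝒰 U Γ t s f) {z₁ : ℂ} (hz : z₁ ∈ U)
    (hh : ∀ r : ℝ, 0 < r → ∀ᶠ n in (𝒰 : Filter ℕ), ∃ a ∈ t n, ‖a - z₁‖ < r) : ∀ z ∈ U, ∀ x : EN N, x ≠ 0 → f z = pr x → x ∈ G.X ∧ x ∉ G.K := by
  have hP : IsOpen {z | ∀ᶠ w in 𝓝 z, Bd G (f w)} := isOpen_setOfPred_eventually_nhds
  have hQ : IsOpen {z | ∀ᶠ w in 𝓝[≠] z, ¬ Bd G (f w)} := by
    rw [isOpen_iff_mem_nhds]
    intro z hz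
    have h1 := eventually_nhdsWithin_iff.1 hz
    filter_upwards [eventually_eventually_nhds.2 h1] with z' h2
    by_cases h3 : z' = z
    · rw [h3]
      exact hz
    · have h4 : ∀ᶠ w in 𝓝 z', w ≠ z := isOpen_ne.mem_nhds h3
      show ∀ᶠ w in 𝓝[≠] z', ¬ Bd G (f w)
      refine Filter.Eventually.filter_mono nhdsWithin_le_nhds ?_
      filter_upwards [h2, h4] with w h5 h6
      exact h5 h6
  have hdis : Disjoint {z | ∀ᶠ w in 𝓝 z, Bd G (f w)} {z | ∀ᶠ w in 𝓝[≠] z, ¬ Bd G (f w)} := by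
    rw [Set.disjoint_left]
    intro z h1 h2
    have h3 : ∀ᶠ w in 𝓝[≠] z, Bd G (f w) := Filter.Eventually.filter_mono nhdsWithin_le_nhds h1
    obtain ⟨w, h4, h5⟩ := (h3.and h2).exists
    exact h5 h4
  rcases hL.conn.subset_or_subset hP hQ hdis fun z hz => dich hG (hf.lift z hz) with h | h
  · intro z hz x hx hfx
    refine ⟨mem_X hG hL hf hz hx hfx, fun hxK => ?_⟩
    have h1 : Bd G (f z) := mem_of_mem_nhds (show {w | Bd G (f w)} ∈ 𝓝 z from h hz)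
    exact ((hG.aff.mem x).1 hxK).2 () (h1 x hx hfx)
  · exfalso
    have h1 : ∀ᶠ w in 𝓝 z₁, w ∈ ({z₁} : Set ℂ)ᶜ → ¬ Bd G (f w) := eventually_nhdsWithin_iff.1 (h hz)
    obtain ⟨r₀, hr₀, h2⟩ := Metric.eventually_nhds_iff_ball.1 h1
    obtain ⟨r₁, hr₁, hcirc⟩ := circ hL hz
    obtain ⟨r₂, hr₂, hU₂⟩ := Metric.isOpen_iff.1 hL.opn z₁ hz
    obtain ⟨R, hR0, hR1, hR2, hR3⟩ : ∃ R : ℝ, 0 < R ∧ R ≤ r₁ ∧ R < r₂ ∧ R < r₀ := by
      refine ⟨min r₁ (min r₂ r₀) / 2, by positivity, ?_, ?_, ?_⟩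
      · have h2 : min r₁ (min r₂ r₀) ≤ r₁ := min_le_left _ _
        linarith
      · have h2 : min r₁ (min r₂ r₀) ≤ r₂ := (min_le_right _ _).trans (min_le_left _ _)
        linarith
      · have h2 : min r₁ (min r₂ r₀) ≤ r₀ := (min_le_right _ _).trans (min_le_right _ _)
        linarith
    have hRU : closedBall z₁ R ⊆ U := (closedBall_subset_ball hR2).trans hU₂
    obtain ⟨A, hA⟩ : ∃ A : Set ℂ, A = closedBall z₁ R ∩ {w | R / 2 ≤ ‖w - z₁‖} := ⟨_, rfl⟩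
    have hAc : IsCompact A := by
      rw [hA]
      exact (isCompact_closedBall z₁ R).inter_right (isClosed_le continuous_const (continuous_id.sub continuous_const).norm)
    have hfA : IsCompact (f '' A) := hAc.image_of_continuousOn fun w hw =>
      (lift_cont (hf.lift w (hRU (hA ▸ hw).1))).continuousWithinAt
    have hpc : Continuous G.p := continuous_iff_continuousAt.2 fun x => (hG.aff.an () x).continuousAt
    obtain ⟨δ, C, hδ, hC, hlow⟩ := low (h := G.h) hpc (fun c x => hG.aff.smul () c x) hfA (by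
      rintro x hx ⟨w, hw, hwx⟩ hpx
      rw [hA] at hw
      have h3 : w ≠ z₁ := by
        rintro rfl
        have h4 : R / 2 ≤ ‖w - w‖ := hw.2
        rw [sub_self, norm_zero] at h4
        linarith
      refine h2 w (closedBall_subset_ball hR3 hw.1) h3 ((bd_iff hG hx hwx).2 hpx))
    have hh1 : 1 ≤ G.h := hG.aff.pos ()
    obtain ⟨C₂, hC₂⟩ : ∃ C₂ : ℝ, C₂ = max 1 C := ⟨_, rfl⟩
    have hC₂0 : 0 < C₂ := by rw [hC₂]; positivity
    obtain ⟨Δ, hΔ⟩ : ∃ Δ : ℝ, Δ = Real.exp (B₃ + 1) - Real.exp B₃ := ⟨_, rfl⟩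
    have hΔ0 : 0 < Δ := by
      rw [hΔ]
      exact sub_pos.2 (Real.exp_lt_exp.2 (by linarith))
    obtain ⟨τ, hτ0, hτ1, hτ2⟩ : ∃ τ : ℝ, 0 < τ ∧ τ ≤ R / 8 ∧ C₂ / (R / 4) * τ ≤ Δ := by
      refine ⟨min (R / 8) (Δ / (C₂ / (R / 4))), by positivity, min_le_left _ _, ?_⟩
      calc C₂ / (R / 4) * min (R / 8) (Δ / (C₂ / (R / 4))) ≤ C₂ / (R / 4) * (Δ / (C₂ / (R / 4))) :=
            mul_le_mul_of_nonneg_left (min_le_right _ _) (by positivity)
        _ = Δ := by field_simp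
    obtain ⟨n, ⟨⟨⟨ρ, hρ1, hρ2, hρ⟩, h3⟩, h4⟩, a, ha, haz⟩ := ((((hcirc (R / 2) R (by positivity) (by linarith) hR1).and
      (hf.lim (closedBall z₁ R) hRU (isCompact_closedBall z₁ R) δ hδ)).and (hL.tiny_at z₁ R τ hτ0)).and (hh (R / 8) (by positivity))).exists
    have hρ0 : 0 < ρ := by linarith
    have hdiff := (hL.crv n).1
    -- the bound on the circle
    have h5 : ∀ ζ, ‖ζ - z₁‖ = ρ → ‖Γ n ζ‖ ≤ C₂ := by
      intro ζ hζ
      have hmem : ζ ∈ closedBall z₁ R := by rw [mem_closedBall, dist_eq_norm, hζ]; exact hρ2.le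
      have h6 := h3 ζ hmem (hρ ζ hζ)
      have hne : Γ n ζ ≠ 0 := fun h0 => hG.cone.zero_notMem (h0 ▸ ((hG.aff.mem _).1 ((hL.crv n).2.1 ζ)).1)
      have h7 := hlow _ hne (f ζ) ⟨ζ, by rw [hA]; exact ⟨hmem, by show R / 2 ≤ ‖ζ - z₁‖; rw [hζ]; exact hρ1.le⟩, rfl⟩ h6
      rw [(hL.crv n).2.2 ζ, norm_one, mul_one] at h7
      by_cases h8 : ‖Γ n ζ‖ ≤ 1
      · rw [hC₂]
        exact h8.trans (le_max_left _ _)
      · rw [not_le] at h8
        have h9 : ‖Γ n ζ‖ ^ 1 ≤ ‖Γ n ζ‖ ^ G.h := pow_le_pow_right₀ h8.le hh1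
        rw [pow_one] at h9
        rw [hC₂]
        exact (h9.trans h7).trans (le_max_right _ _)
    have h6 : ∀ w ∈ ball z₁ (R / 2), ‖Γ n w‖ ≤ C₂ := by
      intro w hw
      refine Complex.norm_le_of_forall_mem_frontier_norm_le (U := ball z₁ ρ) isBounded_ball hdiff.diffContOnCl (fun ζ hζ => ?_)
        (subset_closure (ball_subset_ball hρ1.le hw))
      rw [frontier_ball z₁ hρ0.ne', mem_sphere, dist_eq_norm] at hζ
      exact h5 ζ hζ
    have h7 : ∀ w ∈ ball z₁ (R / 4), ‖deriv (Γ n) w‖ ≤ C₂ / (R / 4) := by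
      intro w hw
      refine Complex.norm_deriv_le_of_forall_mem_sphere_norm_le (by positivity) hdiff.diffContOnCl fun ζ hζ => h6 ζ ?_
      rw [mem_sphere] at hζ
      rw [mem_ball] at hw ⊢
      have := dist_triangle ζ w z₁
      linarith
    have hsa := h4 a ha (by linarith)
    have hs0 := hL.pos n a ha
    have hrim := hL.rim n a ha
    obtain ⟨w, hw, hup⟩ := hrim.up
    have hlo := hrim.low
    simp only [mul_zero, add_zero] at hlo
    have hne : ∀ ζ, 0 < ‖Γ n ζ‖ := fun ζ => norm_pos_iff.2 fun h0 => hG.cone.zero_notMem (h0 ▸ ((hG.aff.mem _).1 ((hL.crv n).2.1 ζ)).1)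
    have h8 := (Real.log_le_iff_le_exp (hne a)).1 hlo
    have h9 := (Real.le_log_iff_exp_le (hne _)).1 hup
    have h10 : ‖(s n a : ℂ) * w‖ ≤ s n a / 2 := by
      rw [norm_mul, Complex.norm_real, Real.norm_of_nonneg hs0.le]
      have := mul_le_mul_of_nonneg_left hw.le hs0.le
      linarith
    have ha4 : a ∈ ball z₁ (R / 4) := by
      rw [mem_ball, dist_eq_norm]
      linarith
    have hb4 : a + s n a * w ∈ ball z₁ (R / 4) := by
      rw [mem_ball, dist_eq_norm]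
      have h11 := norm_add_le (a - z₁) (s n a * w)
      rw [show a + s n a * w - z₁ = a - z₁ + s n a * w by ring]
      linarith
    have h11 := (convex_ball z₁ (R / 4)).norm_image_sub_le_of_norm_deriv_le (fun ζ _ => hdiff.differentiableAt) h7 ha4 hb4
    rw [add_sub_cancel_left] at h11
    have h12 : C₂ / (R / 4) * ‖(s n a : ℂ) * w‖ ≤ C₂ / (R / 4) * (τ / 2) := mul_le_mul_of_nonneg_left (by linarith) (by positivity)
    have h13 := norm_sub_norm_le (Γ n (a + s n a * w)) (Γ n a)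
    rw [hΔ] at hτ2 hΔ0
    linarith

end Pool.Agent.SR3
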