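import Pool.Agent.SR3.GDefs
import Pool.Agent.H62.EF.PrA

/-!
# SR3 LimCEnd: a limit which is in two components of the boundary near a point is constant

`E i` and `E i'` vanish on the limit near `z₁`: it has finitely many values there (`Bdry.two`), so it is constant near `z₁`; the identity theorem for the lifts.
-/

set_option autoImplicit false

open Topology Filter Metric

noncomputable section

namespace Pool.Agent.SR3

open Pool.Agent.H36.BP (EN fs wd Sub OrdTwo)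
open Pool.Agent.H62.EF (MN pr continuousAt_pr pr_eq_iff)
open Pool.Agent.G3 (LLift)

variable {N : ℕ}

theorem LLift.continuousAt {f : ℂ → MN N} {z : ℂ} (h : LLift f z) : ContinuousAt f z := by
  obtain ⟨Φ, hΦ, he⟩ := h
  have h1 : ContinuousAt (fun w => pr (Φ w)) z := ContinuousAt.comp (g := pr) (continuousAt_pr he.self_of_nhds.1) hΦ.continuousAt
  refine h1.congr ?_
  filter_upwards [he] with w hw
  exact hw.2.symm

/-- the identity theorem for curves in the projective space and constants -/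
theorem llift_const {U : Set ℂ} (hc : IsPreconnected U) {f : ℂ → MN N} (hl : ∀ z ∈ U, LLift f z) {z₁ : ℂ} (hz : z₁ ∈ U)
    (h : ∀ᶠ w in 𝓝 z₁, f w = f z₁) : ∀ z ∈ U, f z = f z₁ := by
  obtain ⟨Φ₁, -, he₁⟩ := hl z₁ hz
  obtain ⟨hx₁, hfx₁⟩ := he₁.self_of_nhds
  set x₁ : EN N := Φ₁ z₁ with hx₁'
  set A : Set ℂ := {z | ∀ᶠ w in 𝓝 z, f w = f z₁} with hA
  have hAo : IsOpen A := by
    rw [isOpen_iff_mem_nhds]
    intro z hzA
    exact eventually_eventually_nhds.2 hzA
  have hAc : ∀ z ∈ U, z ∈ closure A → z ∈ A := by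
    intro z hzU hzA
    obtain ⟨Φ, hΦ, he⟩ := hl z hzU
    -- the coordinates of the wedge product with `x₁`
    have h1 : ∀ l m : Fin (N + 1), AnalyticAt ℂ (fun w => Φ w l * x₁ m - Φ w m * x₁ l) z := by
      intro l m
      have h2 : ∀ l : Fin (N + 1), AnalyticAt ℂ (fun w => Φ w l) z := fun l =>
        ((EuclideanSpace.proj l : EN N →L[ℂ] ℂ).analyticAt _).comp hΦ
      exact ((h2 l).mul analyticAt_const).sub ((h2 m).mul analyticAt_const)
    have h3 : ∃ᶠ w in 𝓝[≠] z, f w = f z₁ := by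
      have h4 : ∃ᶠ w in 𝓝 z, w ∈ A := mem_closure_iff_frequently.1 hzA
      intro hcon
      rw [eventually_nhdsWithin_iff] at hcon
      have h5 : ∀ᶠ w in 𝓝 z, w ∉ A := by
        filter_upwards [eventually_eventually_nhds.2 hcon] with w hw hwA
        have h6 : ∀ᶠ v in 𝓝[≠] w, v ≠ z := by
          by_cases hwz : w = z
          · subst hwz
            exact eventually_mem_nhdsWithin
          · exact (nhdsWithin_le_nhds) (isOpen_ne.mem_nhds hwz)
        have h7 : ∀ᶠ v in 𝓝[≠] w, False := by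
          filter_upwards [h6, nhdsWithin_le_nhds hw, nhdsWithin_le_nhds hwA] with v hv1 hv2 hv3
          exact hv2 hv1 hv3
        exact h7.exists.elim fun _ h => h
      exact h4 h5
    have h8 : ∀ l m : Fin (N + 1), ∀ᶠ w in 𝓝 z, Φ w l * x₁ m - Φ w m * x₁ l = 0 := by
      intro l m
      refine (h1 l m).frequently_zero_iff_eventually_zero.1 ?_
      refine (h3.and_eventually (nhdsWithin_le_nhds he)).mono fun w hw => ?_
      obtain ⟨hw1, hw2, hw3⟩ := hw
      obtain ⟨c, -, hc⟩ := (pr_eq_iff hw2 hx₁).1 (by rw [← hw3, hw1, hfx₁])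
      rw [hc]
      simp only [PiLp.smul_apply, smul_eq_mul]
      ring
    have h9 : ∀ᶠ w in 𝓝 z, ∀ l m : Fin (N + 1), Φ w l * x₁ m - Φ w m * x₁ l = 0 :=
      eventually_all.2 fun l => eventually_all.2 fun m => h8 l m
    obtain ⟨m, hm⟩ : ∃ m, x₁ m ≠ 0 := by
      by_contra hcon
      push Not at hcon
      exact hx₁ (PiLp.ext hcon)
    change ∀ᶠ w in 𝓝 z, f w = f z₁
    filter_upwards [he, h9] with w hw1 hw2
    rw [hw1.2, hfx₁, pr_eq_iff hw1.1 hx₁]
    have h10 : ∀ l, Φ w l = Φ w m / x₁ m * x₁ l := by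
      intro l
      have := hw2 l m
      field_simp
      linear_combination this
    refine ⟨Φ w m / x₁ m, fun h0 => hw1.1 (PiLp.ext fun l => ?_), PiLp.ext fun l => ?_⟩
    · rw [h10 l, h0, zero_mul]
      rfl
    · rw [h10 l]
      rfl
  have hsub : U ⊆ A := hc.subset_of_closure_inter_subset hAo ⟨z₁, hz, h⟩ fun z hz => hAc z hz.2 hz.1
  exact fun z hzU => (hsub hzU : ∀ᶠ w in 𝓝 z, f w = f z₁).self_of_nhds

/-- the limit is constant if it is in two components of the boundary near one point -/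
theorem lim_two {G : Geo N} (hB : G.Bdry) {U : Set ℂ} (hU : IsOpen U) (hc : IsPreconnected U) {f : ℂ → MN N} (hl : ∀ z ∈ U, LLift f z)
    (hb : ∀ z ∈ U, ∀ x : EN N, x ≠ 0 → f z = pr x → x ∈ G.X ∧ x ∉ G.K) {z₁ : ℂ} (hz : z₁ ∈ U) {i i' : G.ι} (hi : i ≠ i')
    (h : ∀ᶠ z in 𝓝 z₁, ∀ x : EN N, x ≠ 0 → f z = pr x → G.E i x = 0 ∧ G.E i' x = 0) : ∀ z ∈ U, f z = f z₁ := by
  refine llift_const hc hl hz ?_
  set S : Set (MN N) := {P : MN N | ∃ y ∈ G.X, y ∉ G.K ∧ G.E i y = 0 ∧ G.E i' y = 0 ∧ P = pr y} with hS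
  have hfin : S.Finite := hB.two i i' hi
  have h1 : ∀ᶠ z in 𝓝 z₁, f z ∈ S := by
    obtain ⟨Φ, -, he⟩ := hl z₁ hz
    filter_upwards [h, he, hU.mem_nhds hz] with z hz1 hz2 hz3
    obtain ⟨h4, h5⟩ := hz1 (Φ z) hz2.1 hz2.2
    obtain ⟨h6, h7⟩ := hb z hz3 (Φ z) hz2.1 hz2.2
    exact ⟨Φ z, h6, h7, h4, h5, hz2.2⟩
  have h2 : IsClosed (S \ {f z₁}) := (hfin.subset Set.sdiff_subset).isClosed
  have h3 : ∀ᶠ z in 𝓝 z₁, f z ∉ S \ {f z₁} :=
    (LLift.continuousAt (hl z₁ hz)).eventually (h2.isOpen_compl.mem_nhds fun h4 => h4.2 rfl)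
  filter_upwards [h1, h3] with z hz1 hz2
  by_contra hne
  exact hz2 ⟨hz1, hne⟩

end Pool.Agent.SR3
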