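import Pool.Agent.SR3.LimE
import Pool.Agent.SR3.LimCEnd

/-!
# SR3 LimC: a limit which meets a crossing is constant

If `f z₁ = pr x` with `E j x = 0` and the local equation of the component `j` is not identically zero on the lift near `z₁`, then it has an isolated zero there,
so the winding number of the limit on a small circle is positive (`circle_zero`); the curves `Γ n` have the same winding number (`circle_close`, the circle avoids
the holes), but it is the sum of the winding numbers of the rims, which are nonpositive (`circle_sum`, `Rim.wind`).  So both components contain the limit near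
`z₁`: `lim_two`.
-/

set_option autoImplicit false

open Topology Filter Metric

noncomputable section

namespace Pool.Agent.SR3

open Pool.Agent.H36.BP (EN fs wd Sub OrdTwo)
open Pool.Agent.H62.EF (MN pr nm_close near_of_pr)
open Pool.Agent.G3 (LLift)

variable {N : ℕ} {G : Geo N}

/-- the local equation is almost constant near the points of a compact part of a curve, uniformly -/
theorem eqf_unif (hG : G.Ok) {v : EN N} {j : G.ι} {l : Fin (G.M + 1)} {Φ : ℂ → EN N} {A : Set ℂ} (hA : IsCompact A)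
    (h : ∀ z ∈ A, ContinuousAt Φ z ∧ Φ z ≠ 0 ∧ eqf (G := G) v j l (Φ z) ≠ 0 ∧ (inner ℂ v (Φ z) : ℂ) ≠ 0) :
    ∃ δ : ℝ, 0 < δ ∧ ∀ z ∈ A, ∀ x : EN N, x ≠ 0 → dist (pr x) (pr (Φ z)) < δ →
      ‖eqf (G := G) v j l x - eqf (G := G) v j l (Φ z)‖ < ‖eqf (G := G) v j l (Φ z)‖ := by
  refine hA.induction_on (p := fun S => ∃ δ : ℝ, 0 < δ ∧ ∀ z ∈ S, ∀ x : EN N, x ≠ 0 → dist (pr x) (pr (Φ z)) < δ →
    ‖eqf (G := G) v j l x - eqf (G := G) v j l (Φ z)‖ < ‖eqf (G := G) v j l (Φ z)‖) ?_ ?_ ?_ ?_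
  · exact ⟨1, one_pos, fun z hz => absurd hz (Set.notMem_empty z)⟩
  · rintro S S' hSS ⟨δ, hδ, h1⟩
    exact ⟨δ, hδ, fun z hz => h1 z (hSS hz)⟩
  · rintro S S' ⟨δ, hδ, h1⟩ ⟨δ', hδ', h2⟩
    refine ⟨min δ δ', lt_min hδ hδ', fun z hz x hx hd => ?_⟩
    rcases hz with hz | hz
    · exact h1 z hz x hx (hd.trans_le (min_le_left _ _))
    · exact h2 z hz x hx (hd.trans_le (min_le_right _ _))
  · intro z₀ hz₀
    obtain ⟨hc, h0, he, hv⟩ := h z₀ hz₀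
    obtain ⟨e₀, he₀⟩ : ∃ e₀ : ℂ, e₀ = eqf (G := G) v j l (Φ z₀) := ⟨_, rfl⟩
    have hn0 : 0 < ‖e₀‖ := by
      rw [he₀]
      exact norm_pos_iff.2 he
    have hcc : ContinuousAt (fun x => ‖eqf (G := G) v j l x - e₀‖) (Φ z₀) := ((analyticAt_eqf hG j l hv).continuousAt.sub continuousAt_const).norm
    have h1 : {x : EN N | ‖eqf (G := G) v j l x - e₀‖ < ‖e₀‖ / 4} ∈ 𝓝 (Φ z₀) := by
      refine hcc.eventually_lt continuousAt_const ?_
      rw [← he₀, sub_self, norm_zero]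
      positivity
    obtain ⟨δ, hδ, h2⟩ := near_of_pr h0 h1
    have h3 : ∀ᶠ z in 𝓝 z₀, ‖eqf (G := G) v j l (Φ z) - e₀‖ < ‖e₀‖ / 4 := hc.eventually h1
    have h4 : ContinuousAt (fun z => pr (Φ z)) z₀ := ContinuousAt.comp (f := Φ) (g := pr) (Pool.Agent.H62.EF.continuousAt_pr h0) hc
    have h5 : ∀ᶠ z in 𝓝 z₀, dist (pr (Φ z)) (pr (Φ z₀)) < δ / 2 := h4.eventually (ball_mem_nhds _ (by positivity))
    refine ⟨{z | ‖eqf (G := G) v j l (Φ z) - e₀‖ < ‖e₀‖ / 4 ∧ dist (pr (Φ z)) (pr (Φ z₀)) < δ / 2}, mem_nhdsWithin_of_mem_nhds (h3.and h5), δ / 2,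
      by positivity, ?_⟩
    rintro z ⟨h6, h7⟩ x hx hd
    obtain ⟨c, hc0, h8⟩ := h2 x hx (by
      have := dist_triangle (pr x) (pr (Φ z)) (pr (Φ z₀))
      linarith)
    rw [Set.mem_ofPred_eq, eqf_smul hG v j l x hc0] at h8
    have h9 : ‖eqf (G := G) v j l x - eqf (G := G) v j l (Φ z)‖ ≤ ‖eqf (G := G) v j l x - e₀‖ + ‖eqf (G := G) v j l (Φ z) - e₀‖ := by
      have h10 := norm_sub_le (eqf (G := G) v j l x - e₀) (eqf (G := G) v j l (Φ z) - e₀)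
      rwa [sub_sub_sub_cancel_right] at h10
    have h11 : ‖e₀‖ ≤ ‖eqf (G := G) v j l (Φ z)‖ + ‖eqf (G := G) v j l (Φ z) - e₀‖ := by
      have h12 := norm_sub_le (eqf (G := G) v j l (Φ z)) (eqf (G := G) v j l (Φ z) - e₀)
      rwa [sub_sub_cancel] at h12
    linarith

/-- the winding numbers of the limit and of the rims -/
theorem LimC_core (hG : G.Ok) {Y : Finset (EN N)} {B₃ B₄ ε K ε₂ : ℝ} (hK : 20 ≤ K) {𝒰 : Ultrafilter ℕ} {U : Set ℂ} {Γ : ℕ → ℂ → EN N} {t : ℕ → Finset ℂ}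
    {s : ℕ → ℂ → ℝ} {y : ℕ → ℂ → EN N} (hL : G.Loc Y B₃ B₄ ε K ε₂ 𝒰 U Γ t s y) {f : ℂ → MN N} (hf : Geo.LimOf 𝒰 U Γ t s f) {z₁ : ℂ} (hz₁ : z₁ ∈ U)
    {Φ : ℂ → EN N} (hΦ : AnalyticAt ℂ Φ z₁) (hΦe : ∀ᶠ w in 𝓝 z₁, Φ w ≠ 0 ∧ f w = pr (Φ w)) {j : G.ι} {l : Fin (G.M + 1)} {v : EN N}
    (hv : (inner ℂ v (Φ z₁) : ℂ) ≠ 0) (h0 : (G.E j (Φ z₁)).ofLp l = 0) (hne : ∀ᶠ z in 𝓝[≠] z₁, (G.E j (Φ z)).ofLp l ≠ 0) {r₁ : ℝ} (hr₁ : 0 < r₁)
    (hst : ∀ᶠ n in (𝒰 : Filter ℕ), (∀ w ∈ ball z₁ r₁, Off (t n) (s n) w → (G.E j (Γ n w)).ofLp l ≠ 0 ∧ (inner ℂ v (Γ n w) : ℂ) ≠ 0) ∧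
      ∀ b ∈ t n, ‖b - z₁‖ < r₁ → ∃ k : ℕ,
        (∮ ζ in C(b, s n b), (logDeriv (fun ζ => (G.E j (Γ n ζ)).ofLp l) ζ - G.c j * logDeriv (fun ζ => (inner ℂ v (Γ n ζ) : ℂ)) ζ)) =
          -(2 * Real.pi * Complex.I * k)) : False := by
  have hX0 : ∀ x ∈ G.X, x ≠ 0 := fun x hx h => hG.cone.zero_notMem (h ▸ hx)
  have hKX : ∀ x ∈ G.K, x ∈ G.X := fun x hx => ((hG.aff.mem x).1 hx).1
  -- a closed disc for the lift
  have h1 : ∀ᶠ z in 𝓝 z₁, AnalyticAt ℂ Φ z := hΦ.eventually_analyticAt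
  have h2 : ∀ᶠ z in 𝓝 z₁, (inner ℂ v (Φ z) : ℂ) ≠ 0 := by
    have h3 : ContinuousAt (fun z => (inner ℂ v (Φ z) : ℂ)) z₁ := (((innerSL ℂ v).analyticAt (Φ z₁)).comp hΦ).continuousAt
    exact h3.eventually_ne hv
  have h3 : ∀ᶠ z in 𝓝 z₁, z ≠ z₁ → (G.E j (Φ z)).ofLp l ≠ 0 := eventually_nhdsWithin_iff.1 hne
  obtain ⟨r₂, hr₂, h4⟩ := Metric.eventually_nhds_iff.1 (((h1.and h2).and (h3.and hΦe)).and (hL.opn.mem_nhds hz₁))
  obtain ⟨R₀, hR₀, hcirc⟩ := loc_circle hL hz₁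
  obtain ⟨r, hrdef⟩ : ∃ r : ℝ, r = min (r₂ / 2) (min R₀ (r₁ / 2)) := ⟨_, rfl⟩
  have hr : 0 < r := by
    rw [hrdef]
    positivity
  have hrr₂ : r < r₂ := by
    have : r ≤ r₂ / 2 := by
      rw [hrdef]
      exact min_le_left _ _
    linarith
  have hrR : r ≤ R₀ := by
    rw [hrdef]
    exact (min_le_right _ _).trans (min_le_left _ _)
  have hrr₁ : r < r₁ := by
    have : r ≤ r₁ / 2 := by
      rw [hrdef]
      exact (min_le_right _ _).trans (min_le_right _ _)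
    linarith
  have hin : ∀ z, ‖z - z₁‖ ≤ r → ((AnalyticAt ℂ Φ z ∧ (inner ℂ v (Φ z) : ℂ) ≠ 0) ∧ ((z ≠ z₁ → (G.E j (Φ z)).ofLp l ≠ 0) ∧ (Φ z ≠ 0 ∧ f z = pr (Φ z)))) ∧ z ∈ U :=
    fun z hz => h4 (by rw [dist_eq_norm]; linarith)
  -- the local equation of the lift
  have hq : ∀ z, ‖z - z₁‖ ≤ r → AnalyticAt ℂ (fun z => eqf (G := G) v j l (Φ z)) z := fun z hz =>
    (analyticAt_eqf hG j l (hin z hz).1.1.2).comp (hin z hz).1.1.1
  have hq0 : eqf (G := G) v j l (Φ z₁) = 0 := by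
    unfold eqf
    rw [h0, zero_div]
  have hq1 : ∀ z, ‖z - z₁‖ ≤ r → z ≠ z₁ → eqf (G := G) v j l (Φ z) ≠ 0 := fun z hz hzz =>
    div_ne_zero ((hin z hz).1.2.1 hzz) (pow_ne_zero _ (hin z hz).1.1.2)
  -- uniformly on the annulus
  have hA : IsCompact (closedBall z₁ r \ ball z₁ (r / 2)) := (isCompact_closedBall z₁ r).diff isOpen_ball
  obtain ⟨δ, hδ, h5⟩ := eqf_unif hG (v := v) (j := j) (l := l) (Φ := Φ) hA (fun z hz => by
    have h6 : ‖z - z₁‖ ≤ r := mem_closedBall_iff_norm.1 hz.1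
    have h7 : z ≠ z₁ := by
      rintro rfl
      exact hz.2 (mem_ball_self (by positivity))
    exact ⟨(hin z h6).1.1.1.continuousAt, (hin z h6).1.2.2.1, hq1 z h6 h7, (hin z h6).1.1.2⟩)
  have hsub : closedBall z₁ r ⊆ U := fun z hz => (hin z (mem_closedBall_iff_norm.1 hz)).2
  obtain ⟨n, h6, ⟨h7, h8⟩, ρ, hρ1, hρ2, h9, h10, h11, h12⟩ :=
    ((hf.lim _ hsub (isCompact_closedBall _ _) δ hδ).and (hst.and (hcirc r hr hrR))).exists
  have hρ : 0 < ρ := by linarith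
  obtain ⟨hΓ, hΓK, -⟩ := hL.crv n
  have hΓ0 : ∀ z, Γ n z ≠ 0 := fun z => hX0 _ (hKX _ (hΓK z))
  have hsph : ∀ ζ ∈ sphere z₁ ρ, ‖ζ - z₁‖ = ρ := fun ζ hζ => mem_sphere_iff_norm.1 hζ
  have hoff : ∀ ζ ∈ closedBall z₁ ρ, Off (t n) (s n) ζ → (G.E j (Γ n ζ)).ofLp l ≠ 0 ∧ (inner ℂ v (Γ n ζ) : ℂ) ≠ 0 := by
    intro ζ hζ ho
    refine h7 ζ ?_ ho
    rw [mem_ball]
    rw [mem_closedBall] at hζ
    linarith
  have hoffs : ∀ ζ ∈ sphere z₁ ρ, (G.E j (Γ n ζ)).ofLp l ≠ 0 ∧ (inner ℂ v (Γ n ζ) : ℂ) ≠ 0 := fun ζ hζ =>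
    hoff ζ (sphere_subset_closedBall hζ) (h12 ζ (hsph ζ hζ))
  -- the winding number of the limit
  obtain ⟨k, hk1, hk2⟩ := circle_zero (f := fun z => eqf (G := G) v j l (Φ z)) (w := z₁) hρ
    (fun z hz => hq z ((mem_closedBall_iff_norm.1 hz).trans hρ2.le)) hq0 (fun z hz hzz => hq1 z ((mem_closedBall_iff_norm.1 hz).trans hρ2.le) hzz)
  have h13 : (∮ ζ in C(z₁, ρ), logDeriv (fun ζ => eqf (G := G) v j l (Γ n ζ)) ζ) = ∮ ζ in C(z₁, ρ), logDeriv (fun ζ => eqf (G := G) v j l (Φ ζ)) ζ := by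
    refine circle_close hρ (fun ζ hζ => (logDeriv_eqf hG hΓ j l (hoffs ζ hζ).1 (hoffs ζ hζ).2).1) (fun ζ hζ => hq ζ (by rw [hsph ζ hζ]; exact hρ2.le)) ?_
    intro ζ hζ
    have h14 : ‖ζ - z₁‖ ≤ r := by
      rw [hsph ζ hζ]
      exact hρ2.le
    have h15 := h6 ζ (mem_closedBall_iff_norm.2 h14) (h9 ζ (hsph ζ hζ))
    rw [(hin ζ h14).1.2.2.2] at h15
    refine h5 ζ ⟨mem_closedBall_iff_norm.2 h14, fun h16 => ?_⟩ (Γ n ζ) (hΓ0 ζ) h15
    rw [mem_ball_iff_norm, hsph ζ hζ] at h16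
    linarith
  have hI : (∮ ζ in C(z₁, ρ), (logDeriv (fun ζ => (G.E j (Γ n ζ)).ofLp l) ζ - G.c j * logDeriv (fun ζ => (inner ℂ v (Γ n ζ) : ℂ)) ζ)) =
      2 * Real.pi * Complex.I * k := by
    rw [← hk2, ← h13]
    refine circleIntegral.integral_congr hρ.le fun ζ hζ => ?_
    exact (logDeriv_eqf hG hΓ j l (hoffs ζ hζ).1 (hoffs ζ hζ).2).2.symm
  -- the winding numbers of the rims
  have hsum := circle_sum (f := fun ζ => logDeriv (fun ζ => (G.E j (Γ n ζ)).ofLp l) ζ - G.c j * logDeriv (fun ζ => (inner ℂ v (Γ n ζ) : ℂ)) ζ) (w := z₁) hρ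
    ((t n).filter (fun a => ‖a - z₁‖ < ρ)) (s n) (fun a ha => hL.pos n a (Finset.mem_filter.1 ha).1)
    (fun a ha b hb hab => by
      have h10 := hL.sep n a (Finset.mem_filter.1 ha).1 b (Finset.mem_filter.1 hb).1 hab
      have h11 : 0 < max (s n a) (s n b) := lt_max_of_lt_left (hL.pos n a (Finset.mem_filter.1 ha).1)
      nlinarith)
    (fun a ha => h10 a (Finset.mem_filter.1 ha).1 (Finset.mem_filter.1 ha).2)
    (fun ζ hζ ho => diff_lf hG hΓ j l (hoff ζ hζ (h11 ζ hζ ho)).1 (hoff ζ hζ (h11 ζ hζ ho)).2)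
  rw [hI] at hsum
  have hk : ∀ a ∈ (t n).filter (fun a => ‖a - z₁‖ < ρ), ∃ k : ℕ,
      (∮ ζ in C(a, s n a), (logDeriv (fun ζ => (G.E j (Γ n ζ)).ofLp l) ζ - G.c j * logDeriv (fun ζ => (inner ℂ v (Γ n ζ) : ℂ)) ζ)) = -(2 * Real.pi * Complex.I * k) := by
    intro a ha
    obtain ⟨ha1, ha2⟩ := Finset.mem_filter.1 ha
    exact h8 a ha1 (by linarith)
  choose! k' hk' using hk
  rw [Finset.sum_congr rfl hk', Finset.sum_neg_distrib, ← Finset.mul_sum] at hsum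
  have h14 : (2 * Real.pi * Complex.I * ((k + ∑ a ∈ (t n).filter (fun a => ‖a - z₁‖ < ρ), k' a : ℕ) : ℂ)) = 0 := by
    push_cast
    rw [mul_add, hsum]
    ring
  have h15 : (2 * Real.pi * Complex.I : ℂ) ≠ 0 := by
    simp [Real.pi_ne_zero]
  rcases mul_eq_zero.1 h14 with h16 | h16
  · exact h15 h16
  · have : (k + ∑ a ∈ (t n).filter (fun a => ‖a - z₁‖ < ρ), k' a) = 0 := by exact_mod_cast h16
    omega

/-- a radius for the local equations at the crossings -/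
theorem exists_crsEps (hB : G.Bdry) : ∃ ε₁ : ℝ, 0 < ε₁ ∧ ∀ i i', i ≠ i' → ∀ x ∈ G.X, x ∉ G.K → G.E i x = 0 → G.E i' x = 0 → ∃ l, G.LocEq (4 * ε₁) x i l := by
  have hev : ∀ d : ℝ, 0 < d → ∀ᶠ ε in 𝓝[>] (0 : ℝ), 4 * ε ≤ d := by
    intro d hd
    filter_upwards [Ioo_mem_nhdsGT (show (0 : ℝ) < d / 4 by positivity)] with ε hε
    have := hε.2
    linarith
  have h1 : ∀ᶠ ε in 𝓝[>] (0 : ℝ), ∀ i i', i ≠ i' → ∀ x ∈ G.X, x ∉ G.K → G.E i x = 0 → G.E i' x = 0 → ∃ l, G.LocEq (4 * ε) x i l := by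
    refine Filter.eventually_all.2 fun i => Filter.eventually_all.2 fun i' => ?_
    by_cases h : i = i'
    · exact Eventually.of_forall fun ε hn => absurd h hn
    · have h5 : ∀ᶠ ε in 𝓝[>] (0 : ℝ), ∀ P ∈ {P : MN N | ∃ y ∈ G.X, y ∉ G.K ∧ G.E i y = 0 ∧ G.E i' y = 0 ∧ P = pr y},
          ∃ (l : Fin (G.M + 1)) (c : ℝ), 0 < c ∧ ∀ x ∈ G.X, dist (pr x) P < 4 * ε → c * ‖G.E i x‖ ≤ ‖(G.E i x).ofLp l‖ := by
        refine (Filter.eventually_all_finite (hB.two i i' h)).2 ?_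
        rintro P ⟨y, hy, hyK, hyi, -, rfl⟩
        obtain ⟨l, r, c, hr, hc, h3⟩ := hB.loc y hy hyK i hyi
        filter_upwards [hev _ hr] with ε hε
        exact ⟨l, c, hc, fun x hx hd => h3 x hx (hd.trans_le hε)⟩
      filter_upwards [h5] with ε hε _ x hx hxK hi hi'
      obtain ⟨l, c, hc, h6⟩ := hε (pr x) ⟨x, hx, hxK, hi, hi', rfl⟩
      exact ⟨l, c, hc, h6⟩
  obtain ⟨ε, h2, h3⟩ := (h1.and self_mem_nhdsWithin).exists
  exact ⟨ε, h3, h2⟩

theorem lim_cross (hG : G.Ok) (hB : G.Bdry) {Y : Finset (EN N)} (hY : G.Ends Y) : ∃ ε₁ : ℝ, 0 < ε₁ ∧ ∀ B₃ B₄ ε K ε₂ : ℝ, 20 ≤ K → 0 < ε → 2 * ε ≤ ε₂ →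
    ε₂ ≤ ε₁ → ∀ 𝒰 U Γ t s y, G.Loc Y B₃ B₄ ε K ε₂ 𝒰 U Γ t s y → ∀ f, Geo.LimOf 𝒰 U Γ t s f →
    (∀ z ∈ U, ∀ x : EN N, x ≠ 0 → f z = pr x → x ∈ G.X ∧ x ∉ G.K) → ∀ z₁ ∈ U, ∀ (x : EN N) (i i' : G.ι), x ≠ 0 → f z₁ = pr x → i ≠ i' → G.E i x = 0 →
      G.E i' x = 0 → ∀ z ∈ U, f z = f z₁ := by
  obtain ⟨ε₀, hE⟩ := exists_limEps hG hB hY
  obtain ⟨ε₃, hε₃, hC⟩ := exists_crsEps hB
  refine ⟨min ε₀ ε₃, lt_min hE.pos hε₃, fun B₃ B₄ ε K ε₂ hK hε h2 h1 𝒰 U Γ t s y hL f hf hbd z₁ hz₁ x i i' hx hfx hii hi hi' => ?_⟩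
  have h1a : ε₂ ≤ ε₀ := h1.trans (min_le_left _ _)
  have h1b : ε₂ ≤ ε₃ := h1.trans (min_le_right _ _)
  have hX0 : ∀ x ∈ G.X, x ≠ 0 := fun x hx h => hG.cone.zero_notMem (h ▸ hx)
  have hKX : ∀ x ∈ G.K, x ∈ G.X := fun x hx => ((hG.aff.mem x).1 hx).1
  have hε₂ : 0 < ε₂ := by linarith
  -- the lift at `z₁`
  obtain ⟨Φ, hΦ, hΦe⟩ := hf.lift z₁ hz₁
  obtain ⟨hx₁, hfx₁⟩ := hΦe.self_of_nhds
  set x₁ := Φ z₁ with hx₁def
  obtain ⟨hx₁X, hx₁K⟩ := hbd z₁ hz₁ x₁ hx₁ hfx₁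
  obtain ⟨c₁, hc₁, hxc⟩ := (Pool.Agent.H62.EF.pr_eq_iff hx₁ hx).1 (hfx₁.symm.trans hfx)
  have hzero : ∀ j, G.E j x = 0 → G.E j x₁ = 0 := fun j hj => by rw [hxc, hG.smulE, hj, smul_zero]
  have hfc : ContinuousAt f z₁ := LLift.continuousAt (hf.lift z₁ hz₁)
  -- the lift is in `X`
  have hΦX : ∀ᶠ z in 𝓝 z₁, Φ z ∈ G.X := by
    filter_upwards [hΦe, hL.opn.mem_nhds hz₁] with z h3 h4
    exact (hbd z h4 (Φ z) h3.1 h3.2).1
  -- the component `j` contains the limit near `z₁`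
  have key : ∀ j j' : G.ι, j ≠ j' → G.E j x₁ = 0 → G.E j' x₁ = 0 → ∀ᶠ z in 𝓝 z₁, G.E j (Φ z) = 0 := by
    intro j j' hjj hj hj'
    obtain ⟨l, c, hc, hle⟩ := hC j j' hjj x₁ hx₁X hx₁K hj hj'
    have hnum : ∀ x ∈ G.X, G.E j x ≠ 0 → dist (pr x) (pr x₁) < 4 * ε₃ → (G.E j x).ofLp l ≠ 0 := by
      intro x hx h0 hd h3
      have h4 := hle x hx hd
      rw [h3, norm_zero] at h4
      have h5 : 0 < c * ‖G.E j x‖ := mul_pos hc (norm_pos_iff.2 h0)
      linarith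
    have han : AnalyticAt ℂ (fun z => (G.E j (Φ z)).ofLp l) z₁ := (analyticAt_numE hG j l (Φ z₁)).comp hΦ
    have hnear : ∀ᶠ z in 𝓝 z₁, dist (pr (Φ z)) (pr x₁) < 4 * ε₃ := by
      have h3 : ∀ᶠ z in 𝓝 z₁, dist (f z) (f z₁) < 4 * ε₃ := hfc.eventually (ball_mem_nhds _ (by positivity))
      filter_upwards [h3, hΦe] with z h4 h5
      rw [h5.2, hfx₁] at h4
      exact h4
    rcases han.eventually_eq_zero_or_eventually_ne_zero with hz | hne
    · filter_upwards [hz, hΦX, hnear] with z h3 h4 h5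
      by_contra h6
      exact hnum _ h4 h6 h5 h3
    · exfalso
      have h00 : (G.E j (Φ z₁)).ofLp l = 0 := by
        rw [← hx₁def, hj]
        rfl
      obtain ⟨r₁, hr₁, hloc⟩ := hL.loc z₁ hz₁
      -- the two cases
      have hcase : (∃ v ∈ Y, ∀ᶠ n in (𝒰 : Filter ℕ), ∀ w ∈ ball z₁ r₁, Off (t n) (s n) w → dist (pr (Γ n w)) (pr v) < ε₂) ∨
          ∀ᶠ n in (𝒰 : Filter ℕ), (∀ a ∈ t n, r₁ ≤ ‖a - z₁‖) ∧ ∀ w ∈ ball z₁ r₁, fs (Γ n w) (deriv (Γ n) w) ≤ 1 / r₁ := by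
        rcases Ultrafilter.eventually_or.1 hloc with h3 | h3
        · left
          have h4 : ∀ᶠ n in (𝒰 : Filter ℕ), ∃ v ∈ (Y : Set (EN N)), ∀ w ∈ ball z₁ r₁, Off (t n) (s n) w → dist (pr (Γ n w)) (pr v) < ε₂ := by
            filter_upwards [h3] with n h5
            obtain ⟨a, ha, h6⟩ := h5
            exact ⟨y n a, (hL.rim n a ha).mem, h6⟩
          exact (Ultrafilter.eventually_exists_mem_iff Y.finite_toSet).1 h4
        · exact Or.inr h3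
      obtain ⟨R₀, hR₀, hcirc⟩ := loc_circle hL hz₁
      obtain ⟨r₂, hr₂, hr₂U⟩ := Metric.isOpen_iff.1 hL.opn z₁ hz₁
      rcases hcase with ⟨v, hvY, h3⟩ | h3
      · -- near an end
        have hst : ∀ᶠ n in (𝒰 : Filter ℕ), ∀ b ∈ t n, ‖b - z₁‖ < r₁ / 2 → y n b = v := by
          filter_upwards [h3, hL.tiny_at z₁ r₁ (r₁ / 4) (by positivity)] with n h6 h5 b hb hbr
          refine end_eq hE hK h2 h1a (hL.pos n) (hL.sep n) (hL.rim n) hvY h6 hb ?_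
          have := h5 b hb (by linarith)
          linarith
        -- `f z₁` is near `v`
        have hnv : dist (pr x₁) (pr v) < 2 * ε₂ := by
          obtain ⟨r₃, hr₃, h4⟩ := Metric.continuousAt_iff.1 hfc (ε₂ / 2) (by positivity)
          obtain ⟨r, hrdef⟩ : ∃ r : ℝ, r = min (min (r₃ / 2) (r₂ / 2)) (min R₀ (r₁ / 2)) := ⟨_, rfl⟩
          have hr : 0 < r := by
            rw [hrdef]
            positivity
          have hrr₃ : r ≤ r₃ / 2 := by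
            rw [hrdef]
            exact (min_le_left _ _).trans (min_le_left _ _)
          have hrr₂ : r ≤ r₂ / 2 := by
            rw [hrdef]
            exact (min_le_left _ _).trans (min_le_right _ _)
          have hrR : r ≤ R₀ := by
            rw [hrdef]
            exact (min_le_right _ _).trans (min_le_left _ _)
          have hrr₁ : r ≤ r₁ / 2 := by
            rw [hrdef]
            exact (min_le_right _ _).trans (min_le_right _ _)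
          have hsub : closedBall z₁ r ⊆ U := by
            intro z hz
            refine hr₂U ?_
            rw [mem_closedBall] at hz
            rw [mem_ball]
            linarith
          obtain ⟨n, h5, h6, ρ, hρ1, hρ2, h7, -, -, h8⟩ :=
            ((hf.lim _ hsub (isCompact_closedBall _ _) (ε₂ / 2) (by positivity)).and (h3.and (hcirc r hr hrR))).exists
          have hρ : 0 < ρ := by linarith
          have h9 : ‖(z₁ + ρ) - z₁‖ = ρ := by rw [add_sub_cancel_left, Complex.norm_real, Real.norm_of_nonneg hρ.le]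
          have h10 := h5 (z₁ + ρ) (mem_closedBall_iff_norm.2 (by rw [h9]; exact hρ2.le)) (h7 _ h9)
          have h11 := h6 (z₁ + ρ) (by rw [mem_ball_iff_norm, h9]; linarith) (h8 _ h9)
          have h12 : dist (f (z₁ + ρ)) (f z₁) < ε₂ / 2 := h4 (by rw [dist_eq_norm, h9]; linarith)
          rw [hfx₁] at h12
          have h13 : dist (pr x₁) (pr v) ≤ dist (pr (Γ n (z₁ + ρ))) (pr x₁) + dist (pr (Γ n (z₁ + ρ))) (pr v) := dist_triangle_left _ _ _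
          have h14 := dist_triangle (pr (Γ n (z₁ + ρ))) (f (z₁ + ρ)) (pr x₁)
          linarith
        have hinn : (inner ℂ v x₁ : ℂ) ≠ 0 := hE.inn v hvY x₁ hx₁ (by linarith)
        refine LimC_core hG hK hL hf hz₁ hΦ hΦe hinn h00 hne (r₁ := r₁ / 2) (by positivity) ?_
        filter_upwards [h3, hst] with n h6 h7
        obtain ⟨hΓ, hΓK, -⟩ := hL.crv n
        refine ⟨fun w hw ho => ?_, fun b hb hbr => ?_⟩
        · have hw' : w ∈ ball z₁ r₁ := by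
            rw [mem_ball] at hw ⊢
            linarith
          have hd := h6 w hw' ho
          have hd2 : dist (pr (Γ n w)) (pr x₁) < 4 * ε₃ := by
            have := dist_triangle_right (pr (Γ n w)) (pr x₁) (pr v)
            linarith
          exact ⟨hnum _ (hKX _ (hΓK w)) (hG.neE j _ (hΓK w)) hd2, hE.inn v hvY _ (hX0 _ (hKX _ (hΓK w))) (by linarith [hE.pos])⟩
        · have hyb := h7 b hb hbr
          have hloc2 : G.LocEq ε v j l := ⟨c, hc, fun x hx hd => hle x hx (by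
            have := dist_triangle_right (pr x) (pr x₁) (pr v)
            linarith)⟩
          obtain ⟨k, -, -, hk2⟩ := (hL.rim n b hb).wind j l (by rw [hyb]; exact hloc2)
          rw [hyb] at hk2
          exact ⟨k, by rw [wnd_circle]; exact hk2 1 le_rfl (by norm_num)⟩
      · -- no holes
        obtain ⟨δ, hδ, hδe⟩ := nm_close hx₁ one_pos
        obtain ⟨η, hη⟩ : ∃ η : ℝ, η = min δ (4 * ε₃) := ⟨_, rfl⟩
        have hη0 : 0 < η := by
          rw [hη]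
          positivity
        have hinn : (inner ℂ x₁ (Φ z₁) : ℂ) ≠ 0 := by
          rw [← hx₁def]
          exact inner_self_ne_zero.2 hx₁
        refine LimC_core hG hK hL hf hz₁ hΦ hΦe hinn h00 hne (r₁ := min r₁ (r₁ * η / 4)) (by positivity) ?_
        have hsub : {z₁} ⊆ U := Set.singleton_subset_iff.2 hz₁
        filter_upwards [h3, hf.lim _ hsub isCompact_singleton (η / 2) (by positivity), hL.out_sqrt hz₁ hr₁] with n h6 h7 h8
        obtain ⟨hΓ, hΓK, -⟩ := hL.crv n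
        have hfar : Far (t n) (s n) z₁ := by
          intro a ha ha1
          rw [norm_sub_rev] at ha1
          have h9 := (h8 a ha (h6.1 a ha)).2 (by linarith)
          rw [norm_sub_rev]
          have h10 := norm_nonneg (a - z₁)
          linarith [h9.2]
        have h9 := h7 z₁ (Set.mem_singleton z₁) hfar
        rw [hfx₁] at h9
        refine ⟨fun w hw ho => ?_, fun b hb hbr => ?_⟩
        · rw [mem_ball] at hw
          have hw1 : dist w z₁ < r₁ := hw.trans_le (min_le_left _ _)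
          have hw2 : dist w z₁ < r₁ * η / 4 := hw.trans_le (min_le_right _ _)
          have h10 := Pool.Agent.H62.EF.pr_lipschitz isOpen_ball (convex_ball z₁ r₁) (hΓ.differentiableOn) (fun z _ => hX0 _ (hKX _ (hΓK z))) h6.2 w
            (mem_ball.2 hw1) z₁ (mem_ball_self hr₁)
          rw [← dist_eq_norm] at h10
          have h11 : 2 * (1 / r₁) * dist w z₁ < η / 2 := by
            calc 2 * (1 / r₁) * dist w z₁ < 2 * (1 / r₁) * (r₁ * η / 4) := mul_lt_mul_of_pos_left hw2 (by positivity)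
              _ = η / 2 := by field_simp; ring
          have h12 : dist (pr (Γ n w)) (pr x₁) < η := by
            have := dist_triangle (pr (Γ n w)) (pr (Γ n z₁)) (pr x₁)
            linarith
          refine ⟨hnum _ (hKX _ (hΓK w)) (hG.neE j _ (hΓK w)) (h12.trans_le (by rw [hη]; exact min_le_right _ _)), ?_⟩
          exact (hδe _ (hX0 _ (hKX _ (hΓK w))) (h12.trans_le (by rw [hη]; exact min_le_left _ _))).1
        · have := h6.1 b hb
          have h10 : min r₁ (r₁ * η / 4) ≤ r₁ := min_le_left _ _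
          linarith
  refine lim_two hB hL.opn hL.conn hf.lift hbd hz₁ hii ?_
  filter_upwards [key i i' hii (hzero i hi) (hzero i' hi'), key i' i hii.symm (hzero i' hi') (hzero i hi), hΦe] with z h3 h4 h5 w hw hfw
  obtain ⟨c, -, hcw⟩ := (Pool.Agent.H62.EF.pr_eq_iff hw h5.1).1 (hfw.symm.trans h5.2)
  rw [hcw, hG.smulE, hG.smulE, h3, h4, smul_zero, smul_zero]
  exact ⟨rfl, rfl⟩

end Pool.Agent.SR3
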