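import Pool.Agent.SR3.Circ
import Pool.Agent.SR3.HolB
import Pool.Agent.SR3.Win

/-!
# SR3 LimE: the limit at an accumulation point of holes with an end at a crossing

`eqf v i l`: the local equation `(E i x) l / ⟪v, x⟫ ^ c i`, a function of the point of the projective space.  If holes with the end `v` accumulate at `z₁`, then all
holes near `z₁` have the end `v`, the curve is near `v` off the holes.  If `E i` is not zero at `f z₁`, then `eqf` is almost constant on a circle about `z₁` which avoids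
the holes: winding number `0`, against `circle_sum` and `Rim.wind`.
-/

set_option autoImplicit false

open Topology Filter Metric

noncomputable section

namespace Pool.Agent.SR3

open Pool.Agent.H36.BP (EN fs wd Sub OrdTwo)
open Pool.Agent.H62.EF (MN pr nm_close near_of_pr)
open Pool.Agent.G3 (LLift)

variable {N : ℕ} {G : Geo N}

/-- the local equation as a function of the point of the projective space -/
def eqf (v : EN N) (i : G.ι) (l : Fin (G.M + 1)) (x : EN N) : ℂ := (G.E i x).ofLp l / (inner ℂ v x) ^ G.c i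

theorem eqf_smul (hG : G.Ok) (v : EN N) (i : G.ι) (l : Fin (G.M + 1)) (x : EN N) {c : ℂ} (hc : c ≠ 0) : eqf v i l (c • x) = eqf v i l x := by
  unfold eqf
  rw [hG.smulE, inner_smul_right, mul_pow]
  show c ^ G.c i * (G.E i x).ofLp l / _ = _
  exact mul_div_mul_left _ _ (pow_ne_zero _ hc)

theorem analyticAt_numE (hG : G.Ok) (i : G.ι) (l : Fin (G.M + 1)) (x : EN N) : AnalyticAt ℂ (fun x => (G.E i x).ofLp l) x :=
  ((EuclideanSpace.proj (𝕜 := ℂ) l : EN G.M →L[ℂ] ℂ).analyticAt _).comp (hG.anE i x)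

theorem analyticAt_eqf (hG : G.Ok) {v : EN N} (i : G.ι) (l : Fin (G.M + 1)) {x : EN N} (hv : (inner ℂ v x : ℂ) ≠ 0) : AnalyticAt ℂ (fun x => eqf (G := G) v i l x) x :=
  (analyticAt_numE hG i l x).div (((innerSL ℂ v).analyticAt x).pow _) (pow_ne_zero _ hv)

/-- near a point where the local equation is not zero it is almost constant -/
theorem eqf_near (hG : G.Ok) {v x₁ : EN N} (hx₁ : x₁ ≠ 0) {i : G.ι} {l : Fin (G.M + 1)} (h0 : eqf (G := G) v i l x₁ ≠ 0) (hv : (inner ℂ v x₁ : ℂ) ≠ 0) :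
    ∃ δ : ℝ, 0 < δ ∧ ∀ x : EN N, x ≠ 0 → dist (pr x) (pr x₁) < δ → ‖eqf (G := G) v i l x - eqf (G := G) v i l x₁‖ < ‖eqf (G := G) v i l x₁‖ := by
  have hc : ContinuousAt (fun x => ‖eqf (G := G) v i l x - eqf (G := G) v i l x₁‖) x₁ := ((analyticAt_eqf hG i l hv).continuousAt.sub continuousAt_const).norm
  have h1 : {x : EN N | ‖eqf (G := G) v i l x - eqf (G := G) v i l x₁‖ < ‖eqf (G := G) v i l x₁‖} ∈ 𝓝 x₁ := by
    refine hc.eventually_lt continuousAt_const ?_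
    rw [sub_self, norm_zero]
    exact norm_pos_iff.2 h0
  obtain ⟨δ, hδ, h2⟩ := near_of_pr hx₁ h1
  refine ⟨δ, hδ, fun x hx hd => ?_⟩
  obtain ⟨c, hc0, h3⟩ := h2 x hx hd
  rw [Set.mem_ofPred_eq, eqf_smul hG v i l x hc0] at h3
  exact h3

/-- the logarithmic derivative of the local equation along a curve -/
theorem logDeriv_eqf (hG : G.Ok) {Γ : ℂ → EN N} (hΓ : Differentiable ℂ Γ) {v : EN N} (i : G.ι) (l : Fin (G.M + 1)) {ζ : ℂ} (h0 : (G.E i (Γ ζ)).ofLp l ≠ 0)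
    (hv : (inner ℂ v (Γ ζ) : ℂ) ≠ 0) : AnalyticAt ℂ (fun ζ => eqf (G := G) v i l (Γ ζ)) ζ ∧
      logDeriv (fun ζ => eqf (G := G) v i l (Γ ζ)) ζ = logDeriv (fun ζ => (G.E i (Γ ζ)).ofLp l) ζ - G.c i * logDeriv (fun ζ => (inner ℂ v (Γ ζ) : ℂ)) ζ := by
  have hΓa : AnalyticAt ℂ Γ ζ := hΓ.analyticAt ζ
  have hn : AnalyticAt ℂ (fun ζ => (G.E i (Γ ζ)).ofLp l) ζ := (analyticAt_numE hG i l (Γ ζ)).comp hΓa
  have hd : AnalyticAt ℂ (fun ζ => (inner ℂ v (Γ ζ) : ℂ)) ζ := ((innerSL ℂ v).analyticAt (Γ ζ)).comp hΓa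
  refine ⟨hn.div (hd.pow _) (pow_ne_zero _ hv), ?_⟩
  have h1 := logDeriv_div (f := fun ζ => (G.E i (Γ ζ)).ofLp l) (g := fun ζ => (inner ℂ v (Γ ζ) : ℂ) ^ G.c i) ζ h0 (pow_ne_zero _ hv) hn.differentiableAt
    (hd.pow _).differentiableAt
  have h2 : logDeriv (fun ζ => (inner ℂ v (Γ ζ) : ℂ) ^ G.c i) ζ = G.c i * logDeriv (fun ζ => (inner ℂ v (Γ ζ) : ℂ)) ζ := logDeriv_fun_pow hd.differentiableAt _
  rw [h2] at h1
  exact h1

/-- the logarithmic derivative of the local equation is holomorphic -/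
theorem diff_lf (hG : G.Ok) {Γ : ℂ → EN N} (hΓ : Differentiable ℂ Γ) {v : EN N} (i : G.ι) (l : Fin (G.M + 1)) {ζ : ℂ} (h0 : (G.E i (Γ ζ)).ofLp l ≠ 0)
    (hv : (inner ℂ v (Γ ζ) : ℂ) ≠ 0) :
    DifferentiableAt ℂ (fun ζ => logDeriv (fun ζ => (G.E i (Γ ζ)).ofLp l) ζ - G.c i * logDeriv (fun ζ => (inner ℂ v (Γ ζ) : ℂ)) ζ) ζ := by
  have hΓa : AnalyticAt ℂ Γ ζ := hΓ.analyticAt ζ
  have hn : AnalyticAt ℂ (fun ζ => (G.E i (Γ ζ)).ofLp l) ζ := (analyticAt_numE hG i l (Γ ζ)).comp hΓa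
  have hd : AnalyticAt ℂ (fun ζ => (inner ℂ v (Γ ζ) : ℂ)) ζ := ((innerSL ℂ v).analyticAt (Γ ζ)).comp hΓa
  have h1 : AnalyticAt ℂ (logDeriv (fun ζ => (G.E i (Γ ζ)).ofLp l)) ζ := hn.deriv.div hn h0
  have h2 : AnalyticAt ℂ (logDeriv (fun ζ => (inner ℂ v (Γ ζ) : ℂ))) ζ := hd.deriv.div hd hv
  exact (h1.sub (analyticAt_const.mul h2)).differentiableAt

/-- the radius `ε₁` -/
structure LimEps (G : Geo N) (Y : Finset (EN N)) (ε₁ : ℝ) : Prop where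
  pos : 0 < ε₁
  sep : ∀ y ∈ Y, ∀ y' ∈ Y, y ≠ y' → 2 * ε₁ ≤ dist (pr y) (pr y')
  loc : ∀ y ∈ Y, ∀ i, G.E i y = 0 → ∃ l, G.LocEq (2 * ε₁) y i l
  inn : ∀ y ∈ Y, ∀ x : EN N, x ≠ 0 → dist (pr x) (pr y) < 2 * ε₁ → (inner ℂ y x : ℂ) ≠ 0
  two : ∀ y ∈ Y, ∀ i i', i ≠ i' → ∀ x ∈ G.X, x ∉ G.K → G.E i x = 0 → G.E i' x = 0 → dist (pr x) (pr y) < 2 * ε₁ → pr x = pr y

theorem exists_limEps (hG : G.Ok) (hB : G.Bdry) {Y : Finset (EN N)} (hY : G.Ends Y) : ∃ ε₁, LimEps G Y ε₁ := by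
  have hev : ∀ d : ℝ, 0 < d → ∀ᶠ ε in 𝓝[>] (0 : ℝ), 2 * ε ≤ d := by
    intro d hd
    filter_upwards [Ioo_mem_nhdsGT (show (0 : ℝ) < d / 2 by positivity)] with ε hε
    have := hε.2
    linarith
  have hX0 : ∀ x ∈ G.X, x ≠ 0 := fun x hx h => hG.cone.zero_notMem (h ▸ hx)
  have h1 : ∀ᶠ ε in 𝓝[>] (0 : ℝ), ∀ y ∈ Y, ∀ y' ∈ Y, y ≠ y' → 2 * ε ≤ dist (pr y) (pr y') := by
    refine (Filter.eventually_all_finset Y).2 fun y hy => (Filter.eventually_all_finset Y).2 fun y' hy' => ?_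
    by_cases h : y = y'
    · exact Eventually.of_forall fun ε hn => absurd h hn
    · have h2 : 0 < dist (pr y) (pr y') := dist_pos.2 fun h3 => h (hY.inj y hy y' hy' h3)
      filter_upwards [hev _ h2] with ε hε _
      exact hε
  have h2 : ∀ᶠ ε in 𝓝[>] (0 : ℝ), ∀ y ∈ Y, ∀ i, G.E i y = 0 → ∃ l, G.LocEq (2 * ε) y i l := by
    refine (Filter.eventually_all_finset Y).2 fun y hy => Filter.eventually_all.2 fun i => ?_
    by_cases h : G.E i y = 0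
    · obtain ⟨l, r, c, hr, hc, h3⟩ := hB.loc y (hY.mem y hy).1 (hY.mem y hy).2 i h
      filter_upwards [hev _ hr] with ε hε _
      exact ⟨l, c, hc, fun x hx hd => h3 x hx (hd.trans_le hε)⟩
    · exact Eventually.of_forall fun ε hn => absurd hn h
  have h3 : ∀ᶠ ε in 𝓝[>] (0 : ℝ), ∀ y ∈ Y, ∀ x : EN N, x ≠ 0 → dist (pr x) (pr y) < 2 * ε → (inner ℂ y x : ℂ) ≠ 0 := by
    refine (Filter.eventually_all_finset Y).2 fun y hy => ?_
    obtain ⟨δ, hδ, h4⟩ := nm_close (hX0 y (hY.mem y hy).1) one_pos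
    filter_upwards [hev _ hδ] with ε hε x hx hd
    exact (h4 x hx (hd.trans_le hε)).1
  have h4 : ∀ᶠ ε in 𝓝[>] (0 : ℝ), ∀ y ∈ Y, ∀ i i', i ≠ i' → ∀ x ∈ G.X, x ∉ G.K → G.E i x = 0 → G.E i' x = 0 → dist (pr x) (pr y) < 2 * ε → pr x = pr y := by
    refine (Filter.eventually_all_finset Y).2 fun y hy => Filter.eventually_all.2 fun i => Filter.eventually_all.2 fun i' => ?_
    by_cases h : i = i'
    · exact Eventually.of_forall fun ε hn => absurd h hn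
    · have h5 : ∀ᶠ ε in 𝓝[>] (0 : ℝ), ∀ P ∈ {P : MN N | ∃ y ∈ G.X, y ∉ G.K ∧ G.E i y = 0 ∧ G.E i' y = 0 ∧ P = pr y}, P ≠ pr y → 2 * ε ≤ dist P (pr y) := by
        refine (Filter.eventually_all_finite (hB.two i i' h)).2 fun P _ => ?_
        by_cases h6 : P = pr y
        · exact Eventually.of_forall fun ε hn => absurd h6 hn
        · filter_upwards [hev _ (dist_pos.2 h6)] with ε hε _
          exact hε
      filter_upwards [h5] with ε hε _ x hx hxK hi hi' hd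
      by_contra hne
      exact absurd hd (not_lt.2 (hε (pr x) ⟨x, hx, hxK, hi, hi', rfl⟩ hne))
  obtain ⟨ε, ⟨⟨⟨⟨h5, h6⟩, h7⟩, h8⟩, h9⟩⟩ := ((((h1.and h2).and h3).and h4).and self_mem_nhdsWithin).exists
  exact ⟨ε, h9, h5, h6, h7, h8⟩

/-- a hole near `z₁` has the same end -/
theorem end_eq {Y : Finset (EN N)} {ε₁ : ℝ} (hE : LimEps G Y ε₁) {B₃ B₄ ε K ε₂ : ℝ} (hK : 20 ≤ K) (h2 : 2 * ε ≤ ε₂) (h1 : ε₂ ≤ ε₁) {Γ : ℂ → EN N} {t : Finset ℂ} {s : ℂ → ℝ}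
    {y : ℂ → EN N} (hpos : ∀ a ∈ t, 0 < s a) (hsep : ∀ a ∈ t, ∀ b ∈ t, a ≠ b → K * max (s a) (s b) < ‖a - b‖)
    (hrim : ∀ a ∈ t, G.Rim Y B₃ B₄ ε K (fun w => Γ (a + s a * w)) (y a)) {z₁ : ℂ} {r : ℝ} {u : EN N} (hu : u ∈ Y)
    (hst : ∀ w ∈ ball z₁ r, Off t s w → dist (pr (Γ w)) (pr u) < ε₂) {b : ℂ} (hb : b ∈ t) (hbr : ‖b - z₁‖ + s b < r) : y b = u := by
  by_contra hne
  have h3 := hE.sep (y b) (hrim b hb).mem u hu hne
  have hsb := hpos b hb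
  have h4 : b + s b ∈ ball z₁ r := by
    rw [mem_ball_iff_norm]
    calc ‖b + s b - z₁‖ = ‖(b - z₁) + s b‖ := by ring_nf
      _ ≤ ‖b - z₁‖ + ‖(s b : ℂ)‖ := norm_add_le _ _
      _ = ‖b - z₁‖ + s b := by rw [Complex.norm_real, Real.norm_of_nonneg hsb.le]
      _ < r := hbr
  have h5 : Off t s (b + s b) := by
    intro a ha
    by_cases hab : a = b
    · rw [hab, add_sub_cancel_left, Complex.norm_real, Real.norm_of_nonneg hsb.le]
    · have h6 := hsep a ha b hb hab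
      have h7 := le_max_left (s a) (s b)
      have h8 := le_max_right (s a) (s b)
      have h9 : ‖a - b‖ ≤ ‖b + s b - a‖ + s b := by
        calc ‖a - b‖ = ‖(s b : ℂ) - (b + s b - a)‖ := by ring_nf
          _ ≤ ‖(s b : ℂ)‖ + ‖b + s b - a‖ := norm_sub_le _ _
          _ = ‖b + s b - a‖ + s b := by rw [Complex.norm_real, Real.norm_of_nonneg hsb.le, add_comm]
      nlinarith
  have h6 := hst _ h4 h5
  have h7 := ((hrim b hb).ann 1 (by rw [norm_one]; norm_num) (by rw [norm_one]; linarith)).2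
  simp only [mul_one] at h7
  have h8 : dist (pr (y b)) (pr u) ≤ dist (pr (Γ (b + s b))) (pr (y b)) + dist (pr (Γ (b + s b))) (pr u) := dist_triangle_left _ _ _
  have h9 : 0 < ε := dist_nonneg.trans_lt h7
  linarith

theorem lim_end (hG : G.Ok) (hB : G.Bdry) {Y : Finset (EN N)} (hY : G.Ends Y) : ∃ ε₁ : ℝ, 0 < ε₁ ∧ ∀ B₃ B₄ ε K ε₂ : ℝ, 20 ≤ K → 0 < ε → 2 * ε ≤ ε₂ →
    ε₂ ≤ ε₁ → ∀ 𝒰 U Γ t s y, G.Loc Y B₃ B₄ ε K ε₂ 𝒰 U Γ t s y → ∀ f, Geo.LimOf 𝒰 U Γ t s f →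
    (∀ z ∈ U, ∀ x : EN N, x ≠ 0 → f z = pr x → x ∈ G.X ∧ x ∉ G.K) → ∀ z₁ ∈ U, ∀ (v : EN N) (i i' : G.ι), v ∈ Y → i ≠ i' → G.E i v = 0 → G.E i' v = 0 →
      (∀ r : ℝ, 0 < r → ∀ᶠ n in (𝒰 : Filter ℕ), ∃ a ∈ t n, ‖a - z₁‖ < r ∧ y n a = v) → f z₁ = pr v := by
  obtain ⟨ε₁, hE⟩ := exists_limEps hG hB hY
  refine ⟨ε₁, hE.pos, fun B₃ B₄ ε K ε₂ hK hε h2 h1 𝒰 U Γ t s y hL f hf hbd z₁ hz₁ v i i' hv hii hi hi' hacc => ?_⟩
  have hX0 : ∀ x ∈ G.X, x ≠ 0 := fun x hx h => hG.cone.zero_notMem (h ▸ hx)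
  have hKX : ∀ x ∈ G.K, x ∈ G.X := fun x hx => ((hG.aff.mem x).1 hx).1
  have hε₂ : 0 < ε₂ := by linarith
  -- the lift at `z₁`
  obtain ⟨Φ, hΦ, hΦe⟩ := hf.lift z₁ hz₁
  obtain ⟨hx₁, hfx⟩ := hΦe.self_of_nhds
  set x₁ := Φ z₁ with hx₁def
  obtain ⟨hx₁X, hx₁K⟩ := hbd z₁ hz₁ x₁ hx₁ hfx
  have hfc : ContinuousAt f z₁ := by
    have h3 : ContinuousAt (fun w => pr (Φ w)) z₁ := ContinuousAt.comp (f := Φ) (g := pr) (Pool.Agent.H62.EF.continuousAt_pr hx₁) hΦ.continuousAt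
    exact h3.congr (hΦe.mono fun w hw => hw.2.symm)
  -- the control near `z₁`
  obtain ⟨r₁, hr₁, hloc⟩ := hL.loc z₁ hz₁
  have hst : ∀ᶠ n in (𝒰 : Filter ℕ), (∀ w ∈ ball z₁ r₁, Off (t n) (s n) w → dist (pr (Γ n w)) (pr v) < ε₂) ∧ ∀ b ∈ t n, ‖b - z₁‖ < r₁ / 2 → y n b = v := by
    filter_upwards [hloc, hacc (r₁ / 2) (by positivity), hL.tiny_at z₁ r₁ (r₁ / 4) (by positivity)] with n h3 h4 h5
    obtain ⟨a', ha', har', hav⟩ := h4
    rcases h3 with ⟨a, ha, h6⟩ | ⟨h6, -⟩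
    · have h7 : ∀ b ∈ t n, ‖b - z₁‖ < r₁ / 2 → y n b = y n a := fun b hb hbr =>
        end_eq hE hK h2 h1 (hL.pos n) (hL.sep n) (hL.rim n) (hL.rim n a ha).mem h6 hb (by
          have := h5 b hb (by linarith)
          linarith)
      have h8 : y n a = v := by rw [← h7 a' ha' har', hav]
      rw [h8] at h6
      exact ⟨h6, fun b hb hbr => by rw [h7 b hb hbr, h8]⟩
    · have := h6 a' ha'
      linarith
  -- a compact neighbourhood
  obtain ⟨r₂, hr₂, hr₂U⟩ := Metric.isOpen_iff.1 hL.opn z₁ hz₁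
  obtain ⟨R₀, hR₀, hcirc⟩ := loc_circle hL hz₁
  have hlim : ∀ δ : ℝ, 0 < δ → ∃ r : ℝ, 0 < r ∧ r ≤ R₀ ∧ r < r₁ / 2 ∧ ∀ᶠ n in (𝒰 : Filter ℕ), ∀ z, ‖z - z₁‖ ≤ r → Far (t n) (s n) z → dist (pr (Γ n z)) (pr x₁) < δ := by
    intro δ hδ
    obtain ⟨r₃, hr₃, h3⟩ := Metric.continuousAt_iff.1 hfc (δ / 2) (by positivity)
    refine ⟨min (min (r₃ / 2) (r₂ / 2)) (min R₀ (r₁ / 4)), by positivity, (min_le_right _ _).trans (min_le_left _ _),
      ((min_le_right _ _).trans (min_le_right _ _)).trans_lt (by linarith), ?_⟩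
    have hsub : closedBall z₁ (min (min (r₃ / 2) (r₂ / 2)) (min R₀ (r₁ / 4))) ⊆ U := by
      intro z hz
      refine hr₂U ?_
      rw [mem_closedBall] at hz
      rw [mem_ball]
      have := ((min_le_left _ _).trans (min_le_right _ _) : min (min (r₃ / 2) (r₂ / 2)) (min R₀ (r₁ / 4)) ≤ r₂ / 2)
      linarith
    filter_upwards [hf.lim _ hsub (isCompact_closedBall _ _) (δ / 2) (by positivity)] with n h4 z hz hfar
    have h5 := h4 z (mem_closedBall_iff_norm.2 hz) hfar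
    have h6 : dist (f z) (f z₁) < δ / 2 := by
      refine h3 ?_
      rw [dist_eq_norm]
      have := ((min_le_left _ _).trans (min_le_left _ _) : min (min (r₃ / 2) (r₂ / 2)) (min R₀ (r₁ / 4)) ≤ r₃ / 2)
      linarith
    rw [hfx] at h6
    have h7 := dist_triangle (pr (Γ n z)) (f z) (pr x₁)
    linarith
  -- `f z₁` is near `v`
  have hnear : dist (pr x₁) (pr v) < 2 * ε₁ := by
    obtain ⟨r, hr, hrR, hr1, h3⟩ := hlim ε₂ hε₂
    obtain ⟨n, h4, ⟨h5, -⟩, ρ, hρ1, hρ2, h6, -, -, h7⟩ := (h3.and (hst.and (hcirc r hr hrR))).exists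
    have hρ : 0 < ρ := by linarith
    have h8 : ‖(z₁ + ρ) - z₁‖ = ρ := by rw [add_sub_cancel_left, Complex.norm_real, Real.norm_of_nonneg hρ.le]
    have h9 := h4 (z₁ + ρ) (by rw [h8]; exact hρ2.le) (h6 _ h8)
    have h10 := h5 (z₁ + ρ) (by rw [mem_ball_iff_norm, h8]; linarith) (h7 _ h8)
    have h11 : dist (pr x₁) (pr v) ≤ dist (pr (Γ n (z₁ + ρ))) (pr x₁) + dist (pr (Γ n (z₁ + ρ))) (pr v) := dist_triangle_left _ _ _
    linarith
  have hinn : (inner ℂ v x₁ : ℂ) ≠ 0 := hE.inn v hv x₁ hx₁ hnear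
  -- the main argument
  have core : ∀ j : G.ι, G.E j v = 0 → G.E j x₁ = 0 := by
    intro j hj
    by_contra hne
    obtain ⟨l, c, hc, hle⟩ := hE.loc v hv j hj
    have hnum : ∀ x ∈ G.X, G.E j x ≠ 0 → dist (pr x) (pr v) < 2 * ε₁ → (G.E j x).ofLp l ≠ 0 := by
      intro x hx h0 hd h3
      have h4 := hle x hx hd
      rw [h3, norm_zero] at h4
      have h5 : 0 < c * ‖G.E j x‖ := mul_pos hc (norm_pos_iff.2 h0)
      linarith
    have h0 : eqf (G := G) v j l x₁ ≠ 0 := div_ne_zero (hnum x₁ hx₁X hne hnear) (pow_ne_zero _ hinn)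
    obtain ⟨δ, hδ, hδe⟩ := eqf_near hG hx₁ h0 hinn
    obtain ⟨r, hr, hrR, hr1, h3⟩ := hlim δ hδ
    obtain ⟨n, h4, ⟨h5, h5'⟩, ⟨ρ, hρ1, hρ2, h6, h7, h8, h9⟩, a', ha', har', -⟩ :=
      (h3.and (hst.and ((hcirc r hr hrR).and (hacc (r / 2) (by positivity))))).exists
    have hρ : 0 < ρ := by linarith
    obtain ⟨hΓ, hΓK, -⟩ := hL.crv n
    have hΓ0 : ∀ z, Γ n z ≠ 0 := fun z => hX0 _ (hKX _ (hΓK z))
    -- off the holes
    have hoff : ∀ ζ ∈ closedBall z₁ ρ, Off (t n) (s n) ζ → (G.E j (Γ n ζ)).ofLp l ≠ 0 ∧ (inner ℂ v (Γ n ζ) : ℂ) ≠ 0 := by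
      intro ζ hζ ho
      have hb : ζ ∈ ball z₁ r₁ := by
        rw [mem_ball]
        rw [mem_closedBall] at hζ
        linarith
      have hd : dist (pr (Γ n ζ)) (pr v) < 2 * ε₁ := (h5 ζ hb ho).trans (by linarith [hE.pos])
      exact ⟨hnum _ (hKX _ (hΓK ζ)) (hG.neE j _ (hΓK ζ)) hd, hE.inn v hv _ (hΓ0 ζ) hd⟩
    have hsph : ∀ ζ ∈ sphere z₁ ρ, ‖ζ - z₁‖ = ρ := fun ζ hζ => mem_sphere_iff_norm.1 hζ
    have hcb : ∀ ζ ∈ sphere z₁ ρ, ζ ∈ closedBall z₁ ρ := fun ζ hζ => sphere_subset_closedBall hζ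
    -- the integral on the circle is zero
    have hI0 : (∮ ζ in C(z₁, ρ), (logDeriv (fun ζ => (G.E j (Γ n ζ)).ofLp l) ζ - G.c j * logDeriv (fun ζ => (inner ℂ v (Γ n ζ) : ℂ)) ζ)) = 0 := by
      have h10 : (∮ ζ in C(z₁, ρ), logDeriv (fun ζ => eqf (G := G) v j l (Γ n ζ)) ζ) = ∮ ζ in C(z₁, ρ), logDeriv (fun _ : ℂ => eqf (G := G) v j l x₁) ζ :=
        circle_close hρ (fun ζ hζ => (logDeriv_eqf hG hΓ j l (hoff ζ (hcb ζ hζ) (h9 ζ (hsph ζ hζ))).1 (hoff ζ (hcb ζ hζ) (h9 ζ (hsph ζ hζ))).2).1)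
          (fun ζ _ => analyticAt_const) fun ζ hζ => hδe _ (hΓ0 ζ) (h4 ζ (by rw [hsph ζ hζ]; exact hρ2.le) (h6 ζ (hsph ζ hζ)))
      have h11 : (∮ ζ in C(z₁, ρ), logDeriv (fun _ : ℂ => eqf (G := G) v j l x₁) ζ) = 0 := by
        rw [logDeriv_const]
        simp [circleIntegral]
      rw [← h11, ← h10]
      refine circleIntegral.integral_congr hρ.le fun ζ hζ => ?_
      exact (logDeriv_eqf hG hΓ j l (hoff ζ (hcb ζ hζ) (h9 ζ (hsph ζ hζ))).1 (hoff ζ (hcb ζ hζ) (h9 ζ (hsph ζ hζ))).2).2.symm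
    -- the sum over the holes
    have hsum := circle_sum (f := fun ζ => logDeriv (fun ζ => (G.E j (Γ n ζ)).ofLp l) ζ - G.c j * logDeriv (fun ζ => (inner ℂ v (Γ n ζ) : ℂ)) ζ) (w := z₁) hρ
      ((t n).filter (fun a => ‖a - z₁‖ < ρ)) (s n) (fun a ha => hL.pos n a (Finset.mem_filter.1 ha).1)
      (fun a ha b hb hab => by
        have h10 := hL.sep n a (Finset.mem_filter.1 ha).1 b (Finset.mem_filter.1 hb).1 hab
        have h11 : 0 < max (s n a) (s n b) := lt_max_of_lt_left (hL.pos n a (Finset.mem_filter.1 ha).1)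
        nlinarith)
      (fun a ha => h7 a (Finset.mem_filter.1 ha).1 (Finset.mem_filter.1 ha).2)
      (fun ζ hζ ho => diff_lf hG hΓ j l (hoff ζ hζ (h8 ζ hζ ho)).1 (hoff ζ hζ (h8 ζ hζ ho)).2)
    rw [hI0] at hsum
    have hloc2 : G.LocEq ε v j l := ⟨c, hc, fun x hx hd => hle x hx (hd.trans (by linarith [hE.pos]))⟩
    have hk : ∀ a ∈ (t n).filter (fun a => ‖a - z₁‖ < ρ), ∃ k : ℕ, 1 ≤ k ∧
        (∮ ζ in C(a, s n a), (logDeriv (fun ζ => (G.E j (Γ n ζ)).ofLp l) ζ - G.c j * logDeriv (fun ζ => (inner ℂ v (Γ n ζ) : ℂ)) ζ)) = -(2 * Real.pi * Complex.I * k) := by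
      intro a ha
      obtain ⟨ha1, ha2⟩ := Finset.mem_filter.1 ha
      have hya : y n a = v := h5' a ha1 (by linarith)
      obtain ⟨k, -, hk1, hk2⟩ := (hL.rim n a ha1).wind j l (by rw [hya]; exact hloc2)
      rw [hya] at hk1 hk2
      exact ⟨k, hk1 hj, by rw [wnd_circle]; exact hk2 1 le_rfl (by norm_num)⟩
    choose! k hk1 hk2 using hk
    rw [Finset.sum_congr rfl hk2, Finset.sum_neg_distrib, ← Finset.mul_sum] at hsum
    have ha'f : a' ∈ (t n).filter (fun a => ‖a - z₁‖ < ρ) := Finset.mem_filter.2 ⟨ha', by linarith⟩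
    have hK1 : 1 ≤ ∑ a ∈ (t n).filter (fun a => ‖a - z₁‖ < ρ), k a := (hk1 a' ha'f).trans (Finset.single_le_sum (f := k) (fun a _ => Nat.zero_le _) ha'f)
    have h12 : (2 * Real.pi * Complex.I * ((∑ a ∈ (t n).filter (fun a => ‖a - z₁‖ < ρ), k a : ℕ) : ℂ)) = 0 := by
      push_cast
      exact neg_eq_zero.1 hsum.symm
    have h13 : (2 * Real.pi * Complex.I : ℂ) ≠ 0 := by
      simp [Real.pi_ne_zero]
    rcases mul_eq_zero.1 h12 with h14 | h14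
    · exact h13 h14
    · have : (∑ a ∈ (t n).filter (fun a => ‖a - z₁‖ < ρ), k a) = 0 := by exact_mod_cast h14
      omega
  rw [hfx]
  exact hE.two v hv i i' hii x₁ hx₁X hx₁K (core i hi) (core i' hi') hnear

end Pool.Agent.SR3
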