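import Pool.Agent.SR3.LinL
import Pool.Agent.SR3.AJmp
import Pool.Agent.SR3.AZal
import Pool.Agent.SR3.APl
import Pool.Agent.SR3.AGap
import Pool.Agent.SR3.ABas
import Pool.Agent.H36.BP.Brody

/-!
# SR3 Spd: the speed off the wells

As in `ASpd`: Zalcman's rescaling in the disc of radius `r` gives a limit curve.  Its lifts tend to infinity: if not, at a rescaled point where the lift
stays bounded there is a well of radius `ρ`, whose limit is an affine line (`line_limit`), which has a point with `log < B₀` (`line_low`); so the well is not much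
smaller than `r`, and the speed is bounded at the scale `ρ`, against the choice of the scale of the limit curve.  So the limit curve is in the boundary and it is not
constant, against `h1`.
-/

set_option autoImplicit false

open Topology Filter Metric

noncomputable section

namespace Pool.Agent.SR3

open Pool.Agent.H36.BP (EN fs wd Sub OrdTwo)
open Pool.Agent.H14.PP (IsCone Tan)
open Pool.Agent.SY (Ent)
open Pool.Agent.SDA (EnergyK Near AffOpen Nm nForms)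
open Pool.Agent.H62.EF (MN pr)
open Pool.Agent.G3 (LLift)
open Geo (Gd)

variable {N : ℕ} {G : Geo N} {T : Set (EN N)} {rho : EN N → ℝ} {M : ℕ} {c₀ C δ : ℝ} {g : (ℂ → EN N) → ℂ → ℝ}

/-- the limits of multiples of vectors of the cone -/
private theorem Spd_mem (hG : G.Ok) {l : Filter ℕ} [l.NeBot] {x : ℕ → EN N} {y : EN N} (hx : ∀ᶠ k in l, x k ∈ G.X) (hy : Tendsto x l (𝓝 y))
    (h0 : y ≠ 0) : y ∈ G.X := by
  have h1 : closure G.X ⊆ insert 0 G.X := closure_minimal (Set.subset_insert 0 G.X) hG.cone.closed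
  exact (Set.mem_insert_iff.1 (h1 (mem_closure_of_tendsto hy hx))).resolve_left h0

private theorem Spd_fs {x v : EN N} (hx : x ≠ 0) {l : Filter ℕ} {y w : ℕ → EN N} (hy : Tendsto y l (𝓝 x)) (hw : Tendsto w l (𝓝 v)) :
    Tendsto (fun k => fs (y k) (w k)) l (𝓝 (fs x v)) := by
  have h0 : Tendsto (fun p : EN N × EN N => wd p.1 p.2) (𝓝 (x, v)) (𝓝 (wd x v)) := (Pool.Agent.H36.BP.wd_cont (N := N)).tendsto (x, v)
  have h1 : Tendsto (fun k => wd (y k) (w k)) l (𝓝 (wd x v)) := Tendsto.comp (f := fun k => (y k, w k)) h0 (hy.prodMk_nhds hw)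
  have h2 : Tendsto (fun k => ‖y k‖ ^ 2) l (𝓝 (‖x‖ ^ 2)) := hy.norm.pow 2
  show Tendsto (fun k => wd (y k) (w k) / ‖y k‖ ^ 2) l (𝓝 (wd x v / ‖x‖ ^ 2))
  exact h1.div h2 (pow_ne_zero 2 (norm_ne_zero_iff.2 hx))

/-- the distance of a point of a well to the first point where the curve is large -/
private theorem Spd_exit {F : ℂ → EN N} (hFd : Differentiable ℂ F) (hF0 : ∀ w, F w ≠ 0) {z : ℂ} {B s₀ : ℝ} (hB : Real.log ‖F z‖ ≤ B)
    (hex : ∃ w, ‖w - z‖ ≤ s₀ ∧ B + 1 < Real.log ‖F w‖) : ∃ r : ℝ, (0 < r ∧ r ≤ s₀) ∧ (∀ w : ℂ, ‖w‖ ≤ 1 → Real.log ‖F (z + r * w)‖ ≤ B + 1) ∧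
      ∃ w : ℂ, ‖w‖ ≤ 1 ∧ B + 1 ≤ Real.log ‖F (z + r * w)‖ := by
  obtain ⟨w₀, hw₀, hw₀B⟩ := hex
  have hcont : Continuous fun w => Real.log ‖F w‖ := hFd.continuous.norm.log fun w => norm_ne_zero_iff.2 (hF0 w)
  have hAc : IsCompact (closedBall z s₀ ∩ {w | B + 1 ≤ Real.log ‖F w‖}) :=
    (isCompact_closedBall z s₀).inter_right (isClosed_le continuous_const hcont)
  obtain ⟨w₁, ⟨hw₁s, hw₁B⟩, hmin⟩ := hAc.exists_isMinOn ⟨w₀, by rw [mem_closedBall, dist_eq_norm]; exact hw₀, hw₀B.le⟩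
    ((continuous_id.sub continuous_const).norm.continuousOn (f := fun w : ℂ => ‖id w - z‖))
  set r : ℝ := ‖w₁ - z‖ with hr
  have hrs : r ≤ s₀ := by rwa [mem_closedBall, dist_eq_norm] at hw₁s
  have hr0 : 0 < r := by
    rw [hr, norm_pos_iff, sub_ne_zero]
    rintro rfl
    have h1 : B + 1 ≤ Real.log ‖F w₁‖ := hw₁B
    linarith
  have hlt : ∀ w ∈ ball z r, Real.log ‖F w‖ ≤ B + 1 := by
    intro w hw
    by_contra hcon
    push Not at hcon
    rw [mem_ball, dist_eq_norm] at hw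
    have h1 : r ≤ ‖id w - z‖ := hmin ⟨by rw [mem_closedBall, dist_eq_norm]; exact hw.le.trans hrs, hcon.le⟩
    exact absurd hw (not_lt.2 h1)
  have hle : ∀ w ∈ closedBall z r, Real.log ‖F w‖ ≤ B + 1 := by
    intro w hw
    rw [← closure_ball z hr0.ne'] at hw
    exact closure_minimal (fun y hy => hlt y hy) (isClosed_le hcont continuous_const) hw
  have hrn : ‖(r : ℂ)‖ = r := by rw [Complex.norm_real, Real.norm_of_nonneg hr0.le]
  refine ⟨r, ⟨hr0, hrs⟩, fun w hw => hle _ ?_, ⟨(w₁ - z) / r, ?_, ?_⟩⟩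
  · rw [mem_closedBall, dist_eq_norm, add_sub_cancel_left, norm_mul, hrn]
    exact mul_le_of_le_one_right hr0.le hw
  · rw [norm_div, hrn, ← hr, div_self hr0.ne']
  · have e : z + (r : ℂ) * ((w₁ - z) / r) = w₁ := by
      have : (r : ℂ) ≠ 0 := Complex.ofReal_ne_zero.2 hr0.ne'
      field_simp
      ring
    rw [e]
    exact hw₁B

/-- At the scale of a well the speed is bounded, and the well is not much smaller than a disc which contains it and where the curve is large. -/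
private theorem Spd_well (hG : G.Ok) (hM : G.Met T rho M c₀ C δ g) (hQ : G.QN rho) {B₀ B₃ : ℝ} (hB₀ : ∀ φ, G.Line φ → ∃ z, Real.log ‖φ z‖ < B₀)
    (hB₃ : B₀ ≤ B₃) (𝒰 : Ultrafilter ℕ) (h𝒰 : (𝒰 : Filter ℕ) ≤ atTop) {q : ℕ → G.J → ℂ} {F : ℕ → ℂ → EN N} (hF : ∀ n, G.Cl T (q n) (F n))
    {z ζ b : ℕ → ℂ} {r a : ℕ → ℝ} (hr : ∀ n, 0 < r n) (hlow : ∀ n, ∀ w ∈ ball (z n) (r n), B₃ < Real.log ‖F n w‖) (ha : ∀ n, 0 < a n)
    (han : ∀ n : ℕ, a n * ((n : ℝ) + 1) ≤ r n / 8) (hab : ∀ n, a n * fs (F n (b n)) (deriv (F n) (b n)) = 1) {w : ℂ} (hζ : ∀ n, ζ n = a n * w + b n)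
    (hζz : ∀ᶠ n in (𝒰 : Filter ℕ), ‖ζ n - z n‖ ≤ r n / 2) (hd : Tendsto (fun n => infDist (ζ n) (Gd rho δ (F n))) (𝒰 : Filter ℕ) atTop) {B : ℝ}
    (hB : ∀ᶠ n in (𝒰 : Filter ℕ), Real.log ‖F n (ζ n)‖ ≤ B) : False := by
  have S : Base G T rho M c₀ C δ g := ⟨hG, hM, hQ⟩
  obtain ⟨η, R₁, hη, hR₁, hjump⟩ := jump S B
  have hF0 : ∀ n w, F n w ≠ 0 := fun n w => ne0 hG ((hF n).ent.mem w)
  have h1 : ∀ n, ∃ s : ℝ, R₁ ≤ infDist (ζ n) (Gd rho δ (F n)) → Real.log ‖F n (ζ n)‖ ≤ B →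
      (0 < s ∧ s ≤ Real.exp (-(η * infDist (ζ n) (Gd rho δ (F n))))) ∧ (∀ w : ℂ, ‖w‖ ≤ 1 → Real.log ‖F n (ζ n + s * w)‖ ≤ B + 1) ∧
        ∃ w : ℂ, ‖w‖ ≤ 1 ∧ B + 1 ≤ Real.log ‖F n (ζ n + s * w)‖ := fun n => by
    by_cases h : R₁ ≤ infDist (ζ n) (Gd rho δ (F n)) ∧ Real.log ‖F n (ζ n)‖ ≤ B
    · obtain ⟨s, hs⟩ := Spd_exit (hF n).ent.diff (hF0 n) h.2 (hjump (q n) (F n) (hF n) (ζ n) h.1 h.2)
      exact ⟨s, fun _ _ => hs⟩
    · exact ⟨0, fun h1 h2 => absurd ⟨h1, h2⟩ h⟩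
  choose ρ hρ using h1
  have hρ' := (hd.eventually_ge_atTop R₁).and hB
  obtain ⟨φ, hφ, hlim⟩ := line_limit hG hM hQ (B := B + 1) (B' := B) hη 𝒰 h𝒰 q F ζ ρ hF hd
    (hρ'.mono fun n hn => (hρ n hn.1 hn.2).1) (hρ'.mono fun n hn => (hρ n hn.1 hn.2).2.1)
    (hρ'.mono fun n hn => ⟨0, by simp, by simpa using hn.2⟩) (hρ'.mono fun n hn => (hρ n hn.1 hn.2).2.2)
  obtain ⟨z₁, hz₁⟩ := hB₀ φ hφ
  have hφ0 : ∀ w, φ w ≠ 0 := fun w => ne0 hG (hφ.mem w)
  -- the well is not much smaller than the disc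
  have h2 : ∀ᶠ n in (𝒰 : Filter ℕ), r n / 2 ≤ ρ n * ‖z₁‖ := by
    have h3 : Tendsto (fun n => Real.log ‖F n (ζ n + ρ n * z₁)‖) (𝒰 : Filter ℕ) (𝓝 (Real.log ‖φ z₁‖)) :=
      ((hlim.tendsto_at (Set.mem_univ z₁)).norm).log (norm_ne_zero_iff.2 (hφ0 z₁))
    filter_upwards [h3.eventually (gt_mem_nhds (hz₁.trans_le hB₃)), hζz, hρ'] with n h4 h5 h6
    have h7 : ζ n + ρ n * z₁ ∉ ball (z n) (r n) := fun h => absurd h4 (not_lt.2 (hlow n _ h).le)
    rw [mem_ball, dist_eq_norm, not_lt] at h7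
    have h8 : ‖ζ n + ρ n * z₁ - z n‖ ≤ ‖ζ n - z n‖ + ρ n * ‖z₁‖ := by
      calc ‖ζ n + ρ n * z₁ - z n‖ = ‖(ζ n - z n) + ρ n * z₁‖ := by congr 1; ring
        _ ≤ ‖ζ n - z n‖ + ‖(ρ n : ℂ) * z₁‖ := norm_add_le _ _
        _ = ‖ζ n - z n‖ + ρ n * ‖z₁‖ := by
          rw [norm_mul, Complex.norm_real, Real.norm_of_nonneg (hρ n h6.1 h6.2).1.1.le]
    linarith
  -- the scale of the limit curve is smaller than the scale of the well
  have h3 : ∀ᶠ n : ℕ in (𝒰 : Filter ℕ), a n / ρ n * ((n : ℝ) + 1) ≤ ‖z₁‖ := by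
    filter_upwards [h2, hρ'] with n h4 h5
    have h6 : 0 < ρ n := (hρ n h5.1 h5.2).1.1
    have h7 := han n
    rw [div_mul_eq_mul_div, div_le_iff₀ h6]
    have h8 := hr n
    linarith
  have hinv : Tendsto (fun n : ℕ => ‖z₁‖ / ((n : ℝ) + 1)) (𝒰 : Filter ℕ) (𝓝 0) :=
    (tendsto_const_div_atTop_nhds_zero_nat (‖z₁‖)).comp (tendsto_add_atTop_nat 1) |>.congr (fun n => by simp) |>.mono_left h𝒰
  have h4 : Tendsto (fun n => a n / ρ n) (𝒰 : Filter ℕ) (𝓝 0) := by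
    refine squeeze_zero' (hρ'.mono fun n hn => (div_pos (ha n) (hρ n hn.1 hn.2).1.1).le) (h3.mono fun n hn => ?_) hinv
    rw [le_div_iff₀ (by positivity)]
    exact hn
  obtain ⟨v, hv⟩ : ∃ v : ℕ → ℂ, v = fun n => -(((a n / ρ n : ℝ) : ℂ) * w) := ⟨_, rfl⟩
  have hv0 : Tendsto v (𝒰 : Filter ℕ) (𝓝 0) := by
    rw [hv]
    have h5 : Tendsto (fun n => ((a n / ρ n : ℝ) : ℂ)) (𝒰 : Filter ℕ) (𝓝 ((0 : ℝ) : ℂ)) := (Complex.continuous_ofReal.tendsto 0).comp h4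
    have h6 := (h5.mul_const w).neg
    simpa using h6
  have hb : ∀ᶠ n in (𝒰 : Filter ℕ), ζ n + ρ n * v n = b n := by
    filter_upwards [hρ'] with n h5
    have h6 : (ρ n : ℂ) ≠ 0 := Complex.ofReal_ne_zero.2 (hρ n h5.1 h5.2).1.1.ne'
    rw [hv, hζ]
    show (a n : ℂ) * w + b n + ρ n * -(((a n / ρ n : ℝ) : ℂ) * w) = b n
    push_cast
    field_simp
    ring
  -- the speed
  obtain ⟨Φ, hΦ⟩ : ∃ Φ : ℕ → ℂ → EN N, Φ = fun n w => F n (ζ n + ρ n * w) := ⟨_, rfl⟩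
  have hΦd : ∀ n, Differentiable ℂ (Φ n) := fun n => by
    rw [hΦ]
    exact (hF n).ent.diff.comp (by fun_prop)
  have hΦ' : ∀ n w, deriv (Φ n) w = (ρ n : ℂ) • deriv (F n) (ζ n + ρ n * w) := fun n w => by
    have e : Φ n = fun w => F n ((ρ n : ℂ) * w + ζ n) := by
      rw [hΦ]
      funext w
      show F n (ζ n + ρ n * w) = _
      rw [add_comm]
    rw [e, deriv_aff (hF n).ent.diff, add_comm (ζ n)]
  rw [← hΦ] at hlim
  have hφc : Continuous φ := hφ.diff.continuous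
  have h5 : Tendsto (fun n => Φ n (v n)) (𝒰 : Filter ℕ) (𝓝 (φ 0)) :=
    hlim.tendsto_comp hφc.continuousWithinAt (Set.mem_univ 0) (by rwa [nhdsWithin_univ])
  have hlim' : TendstoLocallyUniformlyOn (deriv ∘ Φ) (deriv φ) 𝒰 Set.univ :=
    hlim.deriv (Eventually.of_forall fun n => (hΦd n).differentiableOn) isOpen_univ
  have hφc' : Continuous (deriv φ) := (hφ.diff.contDiff (n := 1)).continuous_deriv le_rfl
  have h6 : Tendsto (fun n => deriv (Φ n) (v n)) (𝒰 : Filter ℕ) (𝓝 (deriv φ 0)) :=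
    hlim'.tendsto_comp hφc'.continuousWithinAt (Set.mem_univ 0) (by rwa [nhdsWithin_univ])
  have h7 : Tendsto (fun n => fs (Φ n (v n)) (deriv (Φ n) (v n))) (𝒰 : Filter ℕ) (𝓝 (fs (φ 0) (deriv φ 0))) := Spd_fs (hφ0 0) h5 h6
  have h8 : ∀ᶠ n in (𝒰 : Filter ℕ), fs (Φ n (v n)) (deriv (Φ n) (v n)) = ρ n / a n := by
    filter_upwards [hb, hρ'] with n h9 h10
    rw [hΦ', h9, Pool.Agent.H36.BP.fs_smul_right, Complex.norm_real, Real.norm_of_nonneg (hρ n h10.1 h10.2).1.1.le]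
    have e : Φ n (v n) = F n (b n) := by
      rw [← h9, hΦ]
    rw [e, eq_div_iff (ha n).ne', mul_assoc, mul_comm _ (a n), hab, mul_one]
  -- contradiction
  have h9 : Tendsto (fun n => ρ n / a n * (a n / ρ n)) (𝒰 : Filter ℕ) (𝓝 (fs (φ 0) (deriv φ 0) * 0)) := (h7.congr' h8).mul h4
  have h10 : Tendsto (fun n => ρ n / a n * (a n / ρ n)) (𝒰 : Filter ℕ) (𝓝 1) := by
    refine tendsto_const_nhds.congr' ?_
    filter_upwards [hρ'] with n h11
    have h12 := (hρ n h11.1 h11.2).1.1.ne'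
    have h13 := (ha n).ne'
    field_simp
  have h11 := tendsto_nhds_unique h9 h10
  rw [mul_zero] at h11
  exact zero_ne_one h11

theorem speedW (hG : G.Ok) (hM : G.Met T rho M c₀ C δ g) (hQ : G.QN rho) {Y : Finset (EN N)} (hY : G.Ends Y) : ∃ B₀ : ℝ, ∀ B₃ : ℝ, B₀ ≤ B₃ → ∃ B R : ℝ, 0 < B ∧ 0 < R ∧
    ∀ (q : G.J → ℂ) (F : ℂ → EN N), G.Cl T q F → ∀ (z : ℂ) (r : ℝ), R ≤ infDist z (Gd rho δ F) → 0 < r → r ≤ infDist z (Gd rho δ F) →
      (∀ w ∈ ball z r, B₃ < Real.log ‖F w‖) → fs (F z) (deriv F z) ≤ B / r := by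
  obtain ⟨B₀, hB₀⟩ := line_low hG hY
  refine ⟨B₀, fun B₃ hB₃ => ?_⟩
  by_contra hcon
  push Not at hcon
  have h1 : ∀ k : ℕ, ∃ (q : G.J → ℂ) (F : ℂ → EN N) (z : ℂ) (r : ℝ), G.Cl T q F ∧ (k : ℝ) + 1 ≤ infDist z (Gd rho δ F) ∧ 0 < r ∧
      r ≤ infDist z (Gd rho δ F) ∧ (∀ w ∈ ball z r, B₃ < Real.log ‖F w‖) ∧ 32 * ((k : ℝ) + 1) / r < fs (F z) (deriv F z) := fun k => by
    obtain ⟨q, F, hF, z, r, h2, h3, h4, h5, h6⟩ := hcon (32 * ((k : ℝ) + 1)) ((k : ℝ) + 1) (by positivity) (by positivity)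
    exact ⟨q, F, z, r, hF, h2, h3, h4, h5, h6⟩
  choose q F z r hF hz hr hrd hlow hfs using h1
  obtain ⟨d, hd⟩ : ∃ d : ℕ → ℝ, ∀ k, d k = infDist (z k) (Gd rho δ (F k)) := ⟨_, fun _ => rfl⟩
  simp only [← hd] at hz hrd
  have hk0 : ∀ k : ℕ, (0 : ℝ) ≤ (k : ℝ) := fun k => Nat.cast_nonneg k
  have h2 : ∀ k : ℕ, 8 * ((k : ℝ) + 1) < r k / 2 * fs (F k (z k)) (deriv (F k) (z k)) := fun k => by
    have h3 := hfs k
    rw [div_lt_iff₀ (hr k)] at h3
    have := hk0 k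
    linarith
  choose a b ha hb hak hab hle using fun k => zalcman (hF k).ent.diff (fun w => ne0 hG ((hF k).ent.mem w)) (half_pos (hr k))
    (by linarith [hk0 k] : (1 : ℝ) ≤ (k : ℝ) + 1) (h2 k)
  have hac : ∀ k, ((a k : ℝ) : ℂ) ≠ 0 := fun k => by exact_mod_cast (ha k).ne'
  obtain ⟨E, hE⟩ : ∃ E : ℕ → ℂ → EN N, E = fun k w => F k ((a k : ℂ) * w + b k) := ⟨_, rfl⟩
  have hEnt : ∀ k, Ent G.K T (E k) := fun k => by
    rw [hE]
    exact ent_comp (hF k).ent (hac k) (b k)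
  have hEp : ∀ k w, G.p (E k w) = 1 := fun k w => by
    rw [hE]
    exact (hF k).nm _
  have hEfs : ∀ k w, fs (E k w) (deriv (E k) w) = a k * fs (F k (b k + a k * w)) (deriv (F k) (b k + a k * w)) := fun k w => by
    rw [hE]
    show fs (F k ((a k : ℂ) * w + b k)) (deriv (fun w => F k ((a k : ℂ) * w + b k)) w) = _
    rw [deriv_aff (hF k).ent.diff, Pool.Agent.H36.BP.fs_smul_right, Complex.norm_real, Real.norm_of_nonneg (ha k).le, add_comm]
  have hE0 : ∀ k, fs (E k 0) (deriv (E k) 0) = 1 := fun k => by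
    rw [hEfs, mul_zero, add_zero, hab]
  obtain ⟨𝒰, h𝒰⟩ : ∃ 𝒰 : Ultrafilter ℕ, 𝒰 = hyperfilter ℕ := ⟨_, rfl⟩
  have hle' : (𝒰 : Filter ℕ) ≤ atTop := by rw [h𝒰]; exact Nat.hyperfilter_le_atTop
  have hbig : ∀ R : ℝ, ∀ᶠ k : ℕ in (𝒰 : Filter ℕ), R ≤ k := fun R => by
    obtain ⟨n, hn⟩ := exists_nat_ge R
    filter_upwards [hle' (eventually_ge_atTop n)] with k hk
    exact hn.trans (by exact_mod_cast hk)
  obtain ⟨H, hHd, hH0, hloc⟩ := proj_limit 𝒰 (F := E) (fun k => (hEnt k).diff) (fun k w => ne0 hG ((hEnt k).mem w)) (A := 2) (fun R => by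
    filter_upwards [hbig R] with k hk w hw
    rw [hEfs]
    refine hle k w ?_
    rw [mem_ball_zero_iff] at hw ⊢
    linarith)
  -- the limit is in the cone
  have hconv : ∀ w, ∃ u : ℕ → ℂ, (∀ᶠ k in (𝒰 : Filter ℕ), u k ≠ 0) ∧ Tendsto (fun k => u k • E k w) 𝒰 (𝓝 (H w)) := fun w => by
    obtain ⟨r, hr, u, hu, hc⟩ := hloc w
    refine ⟨fun k => u k w, ?_, hc.tendsto_at (mem_ball_self hr)⟩
    filter_upwards [hu] with k hk
    exact hk.2 w (mem_ball_self hr)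
  have hHX : ∀ w, H w ∈ G.X := fun w => by
    obtain ⟨u, hu, hc⟩ := hconv w
    refine Spd_mem hG ?_ hc (hH0 w)
    filter_upwards [hu] with k hk
    exact KX hG (smul_mem hG ((hEnt k).mem w) hk)
  -- the lifts tend to infinity
  have hinf : ∀ (w : ℂ) (B : ℝ), ∀ᶠ k in (𝒰 : Filter ℕ), B ≤ ‖E k w‖ := fun w B => by
    by_contra hcon2
    rw [← Ultrafilter.eventually_not] at hcon2
    have h6 : ∀ᶠ k in (𝒰 : Filter ℕ), ‖((a k : ℂ) * w + b k) - z k‖ ≤ r k / 2 := by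
      filter_upwards [hbig ‖w‖] with k hk1
      have h7 : ‖(a k : ℂ) * w‖ ≤ r k / 2 / 4 := by
        rw [norm_mul, Complex.norm_real, Real.norm_of_nonneg (ha k).le]
        refine le_trans ?_ (hak k)
        exact mul_le_mul_of_nonneg_left (by linarith) (ha k).le
      have h8 := hb k
      calc ‖(a k : ℂ) * w + b k - z k‖ = ‖(a k : ℂ) * w + (b k - z k)‖ := by rw [add_sub_assoc]
        _ ≤ ‖(a k : ℂ) * w‖ + ‖b k - z k‖ := norm_add_le _ _
        _ ≤ r k / 2 := by linarith [hr k]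
    refine Spd_well hG hM hQ hB₀ hB₃ 𝒰 hle' hF (ζ := fun k => (a k : ℂ) * w + b k) hr hlow ha (fun k => ?_) hab (fun _ => rfl) h6 ?_
      (B := Real.log (max B 1)) ?_
    · have := hak k
      linarith
    · have h7 : ∀ᶠ k : ℕ in (𝒰 : Filter ℕ), (k : ℝ) / 2 ≤ infDist ((a k : ℂ) * w + b k) (Gd rho δ (F k)) := by
        filter_upwards [h6] with k hk
        have h5 : d k ≤ infDist ((a k : ℂ) * w + b k) (Gd rho δ (F k)) + dist (z k) ((a k : ℂ) * w + b k) := by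
          rw [hd]
          exact infDist_le_infDist_add_dist
        rw [dist_comm, dist_eq_norm] at h5
        have h8 := hz k
        have h9 := hrd k
        linarith
      refine tendsto_atTop_mono' _ h7 ?_
      exact ((tendsto_natCast_atTop_atTop (R := ℝ)).atTop_div_const (by norm_num)).mono_left hle'
    · filter_upwards [hcon2] with k hk
      have hk' : ‖E k w‖ < B := not_le.1 hk
      have hpos : 0 < ‖E k w‖ := norm_pos_iff.2 (ne0 hG ((hEnt k).mem w))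
      have h3 : Real.log ‖E k w‖ ≤ Real.log (max B 1) := Real.log_le_log hpos (hk'.le.trans (le_max_left _ _))
      rw [hE] at h3
      exact h3
  have hHK : ∀ w, H w ∉ G.K := fun w hw => by
    obtain ⟨u, hu, hc⟩ := hconv w
    have hpc : Continuous G.p := continuous_iff_continuousAt.2 fun x => (hG.aff.an () x).continuousAt
    have h3 : Tendsto (fun k => ‖u k‖ ^ G.h) 𝒰 (𝓝 ‖G.p (H w)‖) := by
      have h4 := ((hpc.tendsto (H w)).comp hc).norm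
      refine h4.congr fun k => ?_
      show ‖G.p (u k • E k w)‖ = _
      rw [p_smul hG, hEp, mul_one, norm_pow]
    have h5 : Tendsto (fun k => ‖u k‖) 𝒰 (𝓝 0) := by
      rw [Metric.tendsto_nhds]
      intro ε hε
      have h6 : ∀ᶠ k in (𝒰 : Filter ℕ), ‖u k • E k w‖ < ‖H w‖ + 1 := hc.norm.eventually (gt_mem_nhds (by linarith))
      filter_upwards [h6, hinf w ((‖H w‖ + 1) / ε)] with k hk1 hk2
      rw [dist_zero_right, norm_norm]
      rw [norm_smul] at hk1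
      by_contra hcon3
      push Not at hcon3
      rw [div_le_iff₀ hε] at hk2
      have h7 : ‖E k w‖ * ε ≤ ‖E k w‖ * ‖u k‖ := mul_le_mul_of_nonneg_left hcon3 (norm_nonneg _)
      linarith
    have h8 : Tendsto (fun k => ‖u k‖ ^ G.h) 𝒰 (𝓝 (0 ^ G.h)) := h5.pow G.h
    have h9 : 1 ≤ G.h := hG.aff.pos ()
    rw [zero_pow (by omega)] at h8
    have h10 := tendsto_nhds_unique h3 h8
    exact p_ne hG hw (norm_eq_zero.1 h10)
  have hline := hG.h1 𝒰 hle' E H (fun k => (hEnt k).diff) (fun k w => (hEnt k).mem w) hHd (fun w => ⟨hHX w, hHK w⟩) (fun w _ => hloc w)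
  obtain ⟨c, hc⟩ := Pool.Agent.H36.BP.Brody_deriv_line (hHd 0) fun w => hline w 0
  have hfs0 : fs (H 0) (deriv H 0) = 0 := by
    unfold fs
    rw [(Pool.Agent.H36.BP.wd_eq_zero (hH0 0)).2 ⟨c, hc⟩, zero_div]
  obtain ⟨r', hr', u, hu, hcv⟩ := hloc 0
  have hm : (0 : ℂ) ∈ ball (0 : ℂ) r' := mem_ball_self hr'
  have hd1 : Tendsto (fun k => deriv (fun w => u k w • E k w) 0) 𝒰 (𝓝 (deriv H 0)) := by
    have h3 : TendstoLocallyUniformlyOn (deriv ∘ fun k w => u k w • E k w) (deriv H) 𝒰 (ball 0 r') :=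
      hcv.deriv (by
        filter_upwards [hu] with k hk
        exact hk.1.smul (hEnt k).diff.differentiableOn) isOpen_ball
    exact h3.tendsto_at hm
  have hlim := Spd_fs (hH0 0) (hcv.tendsto_at hm) hd1
  have hone : Tendsto (fun k => fs (u k 0 • E k 0) (deriv (fun w => u k w • E k w) 0)) 𝒰 (𝓝 1) := by
    refine tendsto_const_nhds.congr' ?_
    filter_upwards [hu] with k hk
    have hud : DifferentiableAt ℂ (u k) 0 := hk.1.differentiableAt (isOpen_ball.mem_nhds hm)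
    have h3 : deriv (fun w => u k w • E k w) 0 = u k 0 • deriv (E k) 0 + deriv (u k) 0 • E k 0 :=
      (hud.hasDerivAt.smul ((hEnt k).diff 0).hasDerivAt).deriv
    rw [h3, Pool.Agent.H36.BP.fs_inv (ne0 hG ((hEnt k).mem 0)) _ (hk.2 0 hm), hE0]
  have := tendsto_nhds_unique hlim hone
  rw [hfs0] at this
  exact zero_ne_one this

end Pool.Agent.SR3
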