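import Pool.Agent.SR3.LinL
import Pool.Agent.SR3.ABas

/-!
# SR3 PreB: the holes are relatively small
-/

set_option autoImplicit false

open Topology Filter Metric

noncomputable section

namespace Pool.Agent.SR3

open Pool.Agent.H36.BP (EN fs wd Sub OrdTwo)
open Pool.Agent.H14.PP (IsCone Tan)
open Pool.Agent.SY (Ent)
open Pool.Agent.SDA (EnergyK Near AffOpen Nm nForms)
open Pool.Agent.H62.EF (MN pr continuousAt_pr)
open Geo (Gd)

variable {N : ℕ} {G : Geo N} {T : Set (EN N)} {rho : EN N → ℝ} {M : ℕ} {c₀ C δ : ℝ} {g : (ℂ → EN N) → ℂ → ℝ}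

/-- the points of `Y` are separated -/
private theorem PreB_sep {Y : Finset (EN N)} (hY : G.Ends Y) : ∃ ε₁ : ℝ, 0 < ε₁ ∧ ∀ y ∈ Y, ∀ y' ∈ Y, dist (pr y) (pr y') < 2 * ε₁ → y = y' := by
  have h1 : ∀ᶠ ε in 𝓝[>] (0 : ℝ), ∀ p ∈ Y ×ˢ Y, dist (pr p.1) (pr p.2) < 2 * ε → p.1 = p.2 := by
    refine (Finset.eventually_all _).2 fun p hp => ?_
    obtain ⟨hp1, hp2⟩ := Finset.mem_product.1 hp
    by_cases h : p.1 = p.2
    · exact Eventually.of_forall fun _ _ => h
    · have h2 : 0 < dist (pr p.1) (pr p.2) := dist_pos.2 fun h3 => h (hY.inj _ hp1 _ hp2 h3)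
      have h3 : ∀ᶠ ε in 𝓝[>] (0 : ℝ), ε < dist (pr p.1) (pr p.2) / 2 :=
        mem_nhdsWithin_of_mem_nhds (Iio_mem_nhds (by linarith))
      filter_upwards [h3] with ε hε h4
      linarith
  obtain ⟨ε, hε, hε0⟩ := (h1.and self_mem_nhdsWithin).exists
  exact ⟨ε, hε0, fun y hy y' hy' h => hε (y, y') (Finset.mk_mem_product hy hy') h⟩

private theorem PreB_B5 {Y : Finset (EN N)} {B₃ B₄ ε K ε₂ η B₅ : ℝ} {q F t s y a ρ d A}
    (h : G.Pre T rho δ Y B₃ B₄ ε K ε₂ η B₅ q F t s y a ρ d A) : 0 ≤ B₅ := by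
  obtain ⟨h1, h2, h3, h4⟩ := h.dA 1
  have hd : 0 < d 1 := lt_of_lt_of_le (by norm_num) h2
  have h5 := h.cnt 1 (d 1 / 2) (by linarith) (by linarith)
  have h6 : d 1 / (d 1 / 2) = 2 := by field_simp
  rw [h6] at h5
  have h8 : 0 < Real.log 2 := Real.log_pos (by norm_num)
  exact nonneg_of_mul_nonneg_left (le_trans (by positivity) h5) hd

theorem pre_small (hG : G.Ok) (hM : G.Met T rho M c₀ C δ g) (hQ : G.QN rho) {Y : Finset (EN N)} (hY : G.Ends Y) : ∃ ε₁ : ℝ, 0 < ε₁ ∧ ∀ ε₂ : ℝ, 0 < ε₂ → ε₂ ≤ ε₁ → ∃ B₀ : ℝ,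
    ∀ B₃ B₄ ε K η B₅ : ℝ, B₀ ≤ B₃ → 0 < ε → 20 ≤ K → 0 < η → ∀ q F t s y a ρ d A, G.Pre T rho δ Y B₃ B₄ ε K ε₂ η B₅ q F t s y a ρ d A →
      ∀ (𝒰 : Ultrafilter ℕ), (𝒰 : Filter ℕ) ≤ atTop → ∀ R τ : ℝ, 0 < τ → ∀ᶠ n in (𝒰 : Filter ℕ), ∀ b ∈ t n, ‖b - a n‖ ≤ R * ρ n → s n b ≤ τ * ρ n := by
  classical
  obtain ⟨ε₁, hε₁, hsepY⟩ := PreB_sep hY
  refine ⟨ε₁, hε₁, fun ε₂ hε₂ hε₂₁ => ?_⟩
  obtain ⟨B₀, hB₀⟩ := hY.near (ε₂ / 2) (half_pos hε₂)
  refine ⟨B₀, fun B₃ B₄ ε K η B₅ hB₃ hε hK hη q F t s y a ρ d A h 𝒰 h𝒰 R τ hτ => ?_⟩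
  have hB₅ := PreB_B5 h
  by_contra hcon
  rw [← Ultrafilter.eventually_not] at hcon
  -- the large holes
  set b : ℕ → ℂ := fun n => if hb : ∃ b ∈ t n, ‖b - a n‖ ≤ R * ρ n ∧ τ * ρ n < s n b then hb.choose else a n with hb
  have hbev : ∀ᶠ n in (𝒰 : Filter ℕ), b n ∈ t n ∧ ‖b n - a n‖ ≤ R * ρ n ∧ τ * ρ n < s n (b n) := by
    filter_upwards [hcon] with n hn
    have h1 : ∃ b ∈ t n, ‖b - a n‖ ≤ R * ρ n ∧ τ * ρ n < s n b := by
      by_contra h2
      push Not at h2
      exact hn h2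
    have h2 : b n = h1.choose := by simp only [hb, dif_pos h1]
    rw [h2]
    exact ⟨h1.choose_spec.1, h1.choose_spec.2.1, h1.choose_spec.2.2⟩
  choose z hz1 hz2 hz3 using h.exit
  have hge : ∀ k : ℝ, ∀ᶠ n : ℕ in (𝒰 : Filter ℕ), k ≤ (n : ℝ) := fun k => h𝒰 (tendsto_natCast_atTop_atTop.eventually_ge_atTop k)
  -- the distance to the good points
  have hinf : ∀ᶠ n in (𝒰 : Filter ℕ), d n ≤ infDist (b n) (Gd rho δ (F n)) ∧ infDist (b n) (Gd rho δ (F n)) ≤ (B₅ + 1) * d n := by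
    filter_upwards [hbev, hge R, hge 1] with n hn hR h1
    obtain ⟨hρ, hd, hA, hAρ⟩ := h.dA n
    have h2 : ‖b n - a n‖ ≤ A n * ρ n := hn.2.1.trans (mul_le_mul_of_nonneg_right (hR.trans hA) hρ.le)
    refine ⟨h.dd n _ h2, ?_⟩
    have h3 : infDist (b n) (Gd rho δ (F n)) ≤ infDist (a n) (Gd rho δ (F n)) + dist (b n) (a n) := infDist_le_infDist_add_dist
    rw [dist_eq_norm] at h3
    have h4 := h.du n
    linarith
  have hrim : ∀ᶠ n in (𝒰 : Filter ℕ), G.Rim Y B₃ B₄ ε K (fun w => F n (b n + s n (b n) * w)) (y n (b n)) := by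
    filter_upwards [hbev] with n hn
    exact h.rim n _ hn.1
  obtain ⟨φ, hφ, hlim⟩ := line_limit (B := B₄) (B' := B₃) (η := η / (B₅ + 1)) hG hM hQ (by positivity) 𝒰 h𝒰 q F b (fun n => s n (b n)) h.cl
    (by
      refine tendsto_atTop.2 fun k => ?_
      filter_upwards [hinf, hge k] with n hn hk
      exact hk.trans ((h.dA n).2.1.trans hn.1))
    (by
      filter_upwards [hbev, hinf] with n hn hi
      obtain ⟨h1, h2⟩ := h.pos n _ hn.1
      refine ⟨h1, h2.trans (Real.exp_le_exp.2 (neg_le_neg ?_))⟩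
      rw [div_mul_eq_mul_div, div_le_iff₀ (by linarith)]
      nlinarith [hi.2])
    (by
      filter_upwards [hrim] with n hn w hw
      exact hn.bdd w (hw.trans (by linarith)))
    (by
      filter_upwards [hrim] with n hn
      exact ⟨0, by simp, hn.low⟩)
    (by
      filter_upwards [hrim] with n hn
      obtain ⟨w, hw, hw2⟩ := hn.up
      exact ⟨w, by linarith, hw2⟩)
  -- the exit point in the scale of the hole
  set w : ℕ → ℂ := fun n => (z n - b n) / s n (b n) with hw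
  have hwb : ∀ᶠ n in (𝒰 : Filter ℕ), w n ∈ closedBall (0 : ℂ) ((1 + R) / τ) := by
    filter_upwards [hbev] with n hn
    obtain ⟨hρ, -⟩ := h.dA n
    have h1 := (h.pos n _ hn.1).1
    rw [mem_closedBall_zero_iff, hw, norm_div, Complex.norm_real, Real.norm_of_nonneg h1.le, div_le_div_iff₀ h1 hτ]
    have h2 : ‖z n - b n‖ ≤ (1 + R) * ρ n := by
      have h3 : z n - b n = (z n - a n) - (b n - a n) := by ring
      rw [h3]
      refine (norm_sub_le _ _).trans ?_
      rw [hz1 n]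
      linarith [hn.2.1]
    have h3 : 0 ≤ 1 + R := by
      have h4 := (norm_nonneg _).trans h2
      exact nonneg_of_mul_nonneg_left h4 hρ
    calc ‖z n - b n‖ * τ ≤ (1 + R) * ρ n * τ := mul_le_mul_of_nonneg_right h2 hτ.le
      _ = (1 + R) * (τ * ρ n) := by ring
      _ ≤ (1 + R) * s n (b n) := mul_le_mul_of_nonneg_left hn.2.2.le h3
  obtain ⟨w₀, -, hw₀⟩ := (isCompact_closedBall (0 : ℂ) ((1 + R) / τ)).ultrafilter_le_nhds' (𝒰.map w) hwb
  have hwt : Tendsto w (𝒰 : Filter ℕ) (𝓝 w₀) := hw₀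
  have hlim2 : Tendsto (fun n => F n (b n + s n (b n) * w n)) (𝒰 : Filter ℕ) (𝓝 (φ w₀)) := by
    refine hlim.tendsto_comp (x := w₀) (g := w) hφ.diff.continuous.continuousWithinAt (Set.mem_univ _) ?_
    rw [nhdsWithin_univ]
    exact hwt
  have hlim3 : Tendsto (fun n => F n (z n)) (𝒰 : Filter ℕ) (𝓝 (φ w₀)) := by
    refine hlim2.congr' ?_
    filter_upwards [hbev] with n hn
    have h1 : (s n (b n) : ℂ) ≠ 0 := by
      have := (h.pos n _ hn.1).1
      exact_mod_cast this.ne'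
    have h2 : b n + s n (b n) * w n = z n := by
      rw [hw]
      field_simp
      ring
    rw [h2]
  have hφ0 : φ w₀ ≠ 0 := ne0 hG (hφ.mem w₀)
  -- the value is large
  have hbig : B₃ ≤ Real.log ‖φ w₀‖ := by
    have h1 : Tendsto (fun n => Real.log ‖F n (z n)‖) (𝒰 : Filter ℕ) (𝓝 (Real.log ‖φ w₀‖)) :=
      (Real.continuousAt_log (norm_ne_zero_iff.2 hφ0)).tendsto.comp hlim3.norm
    refine ge_of_tendsto h1 ?_
    filter_upwards [hge 1] with n hn
    obtain ⟨hρ, -, hA, -⟩ := h.dA n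
    by_contra h2
    push Not at h2
    have h3 : ‖z n - a n‖ ≤ A n * ρ n := by
      rw [hz1 n]
      nlinarith
    obtain ⟨c, hc, hc2⟩ := h.cov n (z n) h3 h2.le
    have h4 := hz2 n c hc
    have h5 := (h.pos n c hc).1
    linarith
  obtain ⟨y', hy', hy'2⟩ := hB₀ φ hφ w₀ (hB₃.trans hbig)
  -- the end of the hole `a n` is constant along the ultrafilter
  obtain ⟨y'', hy'', hy''2⟩ : ∃ y'' ∈ Y, ∀ᶠ n in (𝒰 : Filter ℕ), y n (a n) = y'' := by
    have h1 : ∀ᶠ n in (𝒰 : Filter ℕ), ∃ y'' ∈ Y, y n (a n) = y'' := by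
      refine Eventually.of_forall fun n => ⟨_, (h.rim n _ (h.mem n)).mem, rfl⟩
    exact (Ultrafilter.eventually_exists_mem_iff Y.finite_toSet).1 h1
  have hdist : dist (pr (φ w₀)) (pr y'') = ε₂ := by
    have h1 : Tendsto (fun n => dist (pr (F n (z n))) (pr y'')) (𝒰 : Filter ℕ) (𝓝 (dist (pr (φ w₀)) (pr y''))) :=
      ((continuousAt_pr hφ0).tendsto.comp hlim3).dist tendsto_const_nhds
    have h2 : Tendsto (fun n => dist (pr (F n (z n))) (pr y'')) (𝒰 : Filter ℕ) (𝓝 ε₂) := by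
      refine tendsto_const_nhds.congr' ?_
      filter_upwards [hy''2] with n hn
      rw [← hn, hz3 n]
    exact tendsto_nhds_unique h1 h2
  have h3 : y' = y'' := by
    refine hsepY y' hy' y'' hy'' ?_
    have h4 := dist_triangle (pr y') (pr (φ w₀)) (pr y'')
    rw [dist_comm (pr y') (pr (φ w₀))] at h4
    linarith
  rw [← h3] at hdist
  linarith

/-- the number of holes in a disc around `a n`, and the size of the exponentials -/
private theorem PreB_card {Y : Finset (EN N)} {B₃ B₄ ε K ε₂ η B₅ : ℝ} {q F t s y a ρ d A}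
    (h : G.Pre T rho δ Y B₃ B₄ ε K ε₂ η B₅ q F t s y a ρ d A) (n : ℕ) {r L : ℝ} (hr : 0 < r) (hL : 0 < L)
    (hrL : r * Real.exp L ≤ d n) : ((((t n).erase (a n)).filter (fun b => ‖b - a n‖ ≤ r)).card : ℝ) ≤ B₅ * d n / L := by
  have h1 : r < d n := lt_of_lt_of_le (by nlinarith [Real.add_one_lt_exp hL.ne']) hrL
  have h2 := h.cnt n r hr h1
  have hd : 0 < d n := hr.trans h1
  have h3 : L ≤ Real.log (d n / r) := by
    rw [Real.le_log_iff_exp_le (by positivity), le_div_iff₀ hr]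
    linarith
  rw [le_div_iff₀ hL]
  exact (mul_le_mul_of_nonneg_left h3 (Nat.cast_nonneg _)).trans h2

private theorem PreB_exp {c x : ℝ} (hc : 0 < c) (hx : 0 < x) : x * Real.exp (-(c * x)) ≤ 2 / (c ^ 2 * x) := by
  have h1 := Real.quadratic_le_exp_of_nonneg (x := c * x) (by positivity)
  have h2 : 0 < c * x := by positivity
  have h3 : (c * x) ^ 2 / 2 ≤ Real.exp (c * x) := by linarith
  rw [Real.exp_neg, ← div_eq_mul_inv, div_le_div_iff₀ (Real.exp_pos _) (by positivity)]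
  calc x * (c ^ 2 * x) = 2 * ((c * x) ^ 2 / 2) := by ring
    _ ≤ 2 * Real.exp (c * x) := by linarith

theorem pre_sum {Y : Finset (EN N)} {B₃ B₄ ε K ε₂ η B₅ : ℝ} (hK : 20 ≤ K) (hη : 0 < η) {q F t s y a ρ d A} (h : G.Pre T rho δ Y B₃ B₄ ε K ε₂ η B₅ q F t s y a ρ d A)
    (𝒰 : Ultrafilter ℕ) (h𝒰 : (𝒰 : Filter ℕ) ≤ atTop)
    (hs : ∀ R τ : ℝ, 0 < τ → ∀ᶠ n in (𝒰 : Filter ℕ), ∀ b ∈ t n, ‖b - a n‖ ≤ R * ρ n → s n b ≤ τ * ρ n) :
    (∀ R : ℝ, Tendsto (fun n => ∑ b ∈ (t n).filter (fun b => ‖b - a n‖ ≤ R * ρ n), √(s n b / ρ n)) (𝒰 : Filter ℕ) (𝓝 0)) ∧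
      ∀ᶠ n in (𝒰 : Filter ℕ), ∑ b ∈ ((t n).erase (a n)).filter (fun b => ‖b - a n‖ < ρ n), s n b / ‖b - a n‖ ≤ B₅ / η + 1 := by
  classical
  have hB₅ := PreB_B5 h
  have hge : ∀ k : ℝ, ∀ᶠ n : ℕ in (𝒰 : Filter ℕ), k ≤ (n : ℝ) := fun k => h𝒰 (tendsto_natCast_atTop_atTop.eventually_ge_atTop k)
  constructor
  · intro R
    rw [Metric.tendsto_nhds]
    intro e he
    set R' : ℝ := max R 1 with hR'
    have hR'1 : 1 ≤ R' := le_max_right _ _
    set x : ℝ := min (e / 4) (e * η / (16 * (B₅ + 1))) with hx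
    have hx0 : 0 < x := lt_min (by positivity) (by positivity)
    have hx1 : x ≤ e / 4 := min_le_left _ _
    have hx2 : x ≤ e * η / (16 * (B₅ + 1)) := min_le_right _ _
    filter_upwards [hs R' (x ^ 2) (by positivity), hge 1, hge (R' * Real.exp 1), hge (64 * B₅ / (η ^ 2 * e) + 1)] with n hn h1 hnR hne
    obtain ⟨hρ, hd, hA, hAρ⟩ := h.dA n
    have hd0 : 0 < d n := lt_of_lt_of_le (by linarith) hd
    have hsum0 : ∀ b ∈ (t n).filter (fun b => ‖b - a n‖ ≤ R * ρ n), 0 ≤ √(s n b / ρ n) := fun b _ => Real.sqrt_nonneg _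
    rw [dist_zero_right, Real.norm_of_nonneg (Finset.sum_nonneg hsum0)]
    have hRd : R' * ρ n * Real.exp 1 ≤ d n := by
      calc R' * ρ n * Real.exp 1 = R' * Real.exp 1 * ρ n := by ring
        _ ≤ A n * ρ n := mul_le_mul_of_nonneg_right (hnR.trans hA) hρ.le
        _ ≤ d n := hAρ
    -- the terms
    have hterm : ∀ b ∈ t n, ‖b - a n‖ ≤ R' * ρ n → √(s n b / ρ n) ≤ x := by
      intro b hb1 hb2
      refine Real.sqrt_le_iff.2 ⟨hx0.le, ?_⟩
      rw [div_le_iff₀ hρ]
      exact hn b hb1 hb2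
    have hR'ρ : 0 < R' * ρ n := by positivity
    have hterma : √(s n (a n) / ρ n) ≤ x := hterm _ (h.mem n) (by rw [sub_self, norm_zero]; exact hR'ρ.le)
    set V : Finset ℂ := ((t n).erase (a n)).filter (fun b => ‖b - a n‖ ≤ R' * ρ n) with hV
    have hsub : (t n).filter (fun b => ‖b - a n‖ ≤ R * ρ n) ⊆ insert (a n) V := by
      intro b hb
      obtain ⟨hb1, hb2⟩ := Finset.mem_filter.1 hb
      by_cases hba : b = a n
      · rw [hba]
        exact Finset.mem_insert_self _ _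
      · refine Finset.mem_insert_of_mem (Finset.mem_filter.2 ⟨Finset.mem_erase.2 ⟨hba, hb1⟩, ?_⟩)
        exact hb2.trans (mul_le_mul_of_nonneg_right (le_max_left _ _) hρ.le)
    have hle : ∑ b ∈ (t n).filter (fun b => ‖b - a n‖ ≤ R * ρ n), √(s n b / ρ n) ≤ √(s n (a n) / ρ n) + ∑ b ∈ V, √(s n b / ρ n) := by
      refine (Finset.sum_le_sum_of_subset_of_nonneg hsub fun b _ _ => Real.sqrt_nonneg _).trans ?_
      rw [Finset.sum_insert (by
        rw [hV]
        intro hc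
        exact (Finset.mem_erase.1 (Finset.mem_filter.1 hc).1).1 rfl)]
    refine lt_of_le_of_lt hle ?_
    rcases le_or_gt (Real.exp (-(η / 2 * d n))) (ρ n) with hc | hc
    · -- large scale
      have hN := PreB_card h n (r := R' * ρ n) (L := 1) hR'ρ one_pos hRd
      rw [div_one] at hN
      have hterm' : ∀ b ∈ V, √(s n b / ρ n) ≤ Real.exp (-(η / 4 * d n)) := by
        intro b hb
        have hb1 := h.pos n b (Finset.mem_erase.1 (Finset.mem_filter.1 hb).1).2
        refine Real.sqrt_le_iff.2 ⟨(Real.exp_pos _).le, ?_⟩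
        rw [div_le_iff₀ hρ, ← Real.exp_nat_mul]
        calc s n b ≤ Real.exp (-(η * d n)) := hb1.2
          _ = Real.exp (((2 : ℕ) : ℝ) * -(η / 4 * d n)) * Real.exp (-(η / 2 * d n)) := by
            rw [← Real.exp_add]
            congr 1
            push_cast
            ring
          _ ≤ Real.exp (((2 : ℕ) : ℝ) * -(η / 4 * d n)) * ρ n := mul_le_mul_of_nonneg_left hc (Real.exp_pos _).le
      have hV1 : ∑ b ∈ V, √(s n b / ρ n) ≤ e / 2 := by
        refine (Finset.sum_le_card_nsmul _ _ _ hterm').trans ?_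
        rw [nsmul_eq_mul]
        calc (V.card : ℝ) * Real.exp (-(η / 4 * d n))
            ≤ B₅ * d n * Real.exp (-(η / 4 * d n)) := mul_le_mul_of_nonneg_right hN (Real.exp_pos _).le
          _ = B₅ * (d n * Real.exp (-(η / 4 * d n))) := by ring
          _ ≤ B₅ * (2 / ((η / 4) ^ 2 * d n)) := mul_le_mul_of_nonneg_left (PreB_exp (by positivity) hd0) hB₅
          _ ≤ e / 2 := by
            have h2 : 64 * B₅ / (η ^ 2 * e) ≤ d n := le_trans (by linarith) (hne.trans hd)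
            rw [div_le_iff₀ (by positivity)] at h2
            have h3 : B₅ * (2 / ((η / 4) ^ 2 * d n)) = 32 * B₅ / (η ^ 2 * d n) := by
              field_simp
              ring
            rw [h3, div_le_iff₀ (by positivity)]
            nlinarith
      linarith
    · -- small scale
      have hN := PreB_card h n (r := R' * ρ n) (L := η / 4 * d n) hR'ρ (by positivity) (by
        have h2 : R' ≤ d n := by
          have h3 : R' ≤ R' * Real.exp 1 := le_mul_of_one_le_right (by linarith) (Real.one_le_exp zero_le_one)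
          exact h3.trans (hnR.trans hd)
        calc R' * ρ n * Real.exp (η / 4 * d n) ≤ d n * Real.exp (-(η / 2 * d n)) * Real.exp (η / 4 * d n) := by
              gcongr
          _ = d n * Real.exp (-(η / 4 * d n)) := by
              rw [mul_assoc, ← Real.exp_add]
              congr 2
              ring
          _ ≤ d n * 1 := by
              refine mul_le_mul_of_nonneg_left (Real.exp_le_one_iff.2 ?_) hd0.le
              have : 0 ≤ η / 4 * d n := by positivity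
              linarith
          _ = d n := mul_one _)
      have hN2 : (V.card : ℝ) ≤ 4 * B₅ / η := by
        refine hN.trans (le_of_eq ?_)
        field_simp
      have hV1 : ∑ b ∈ V, √(s n b / ρ n) ≤ e / 4 := by
        refine (Finset.sum_le_card_nsmul V _ x fun b hb => ?_).trans ?_
        · exact hterm b (Finset.mem_erase.1 (Finset.mem_filter.1 hb).1).2 (Finset.mem_filter.1 hb).2
        · rw [nsmul_eq_mul]
          calc (V.card : ℝ) * x ≤ 4 * B₅ / η * x := mul_le_mul_of_nonneg_right hN2 hx0.le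
            _ ≤ 4 * B₅ / η * (e * η / (16 * (B₅ + 1))) := mul_le_mul_of_nonneg_left hx2 (by positivity)
            _ = e / 4 * (B₅ / (B₅ + 1)) := by
              field_simp
              ring
            _ ≤ e / 4 * 1 := by
              refine mul_le_mul_of_nonneg_left ?_ (by positivity)
              rw [div_le_one (by positivity)]
              linarith
            _ = e / 4 := mul_one _
      linarith
  · filter_upwards [hge 3, hge (8 * B₅ / η ^ 2)] with n h3 hnB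
    obtain ⟨hρ, hd, hA, hAρ⟩ := h.dA n
    have hd0 : 0 < d n := lt_of_lt_of_le (by linarith) hd
    set r₁ : ℝ := Real.exp (-(η / 2 * d n)) with hr₁
    have hr₁0 : 0 < r₁ := Real.exp_pos _
    have hN1 := PreB_card h n (r := r₁) (L := η / 2 * d n) hr₁0 (by positivity) (by
      rw [hr₁, ← Real.exp_add, neg_add_cancel, Real.exp_zero]
      linarith)
    have hN1' : ((((t n).erase (a n)).filter (fun b => ‖b - a n‖ ≤ r₁)).card : ℝ) ≤ 2 * B₅ / η := by
      refine hN1.trans (le_of_eq ?_)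
      field_simp
    have hN2 := PreB_card h n (r := ρ n) (L := 1) hρ one_pos (by
      have h4 : Real.exp 1 ≤ 3 := by linarith [Real.exp_one_lt_d9]
      nlinarith)
    rw [div_one] at hN2
    -- the terms
    have hterm : ∀ b ∈ ((t n).erase (a n)).filter (fun b => ‖b - a n‖ < ρ n),
        s n b / ‖b - a n‖ ≤ (if ‖b - a n‖ ≤ r₁ then (1 / 20 : ℝ) else 0) + r₁ := by
      intro b hb
      obtain ⟨hb1, hb2⟩ := Finset.mem_filter.1 hb
      obtain ⟨hne, hbt⟩ := Finset.mem_erase.1 hb1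
      have hsep := h.sep n b hbt (a n) (h.mem n) hne
      obtain ⟨hp1, hp2⟩ := h.pos n b hbt
      have hpos : 0 < ‖b - a n‖ := norm_pos_iff.2 (sub_ne_zero.2 hne)
      split_ifs with hif
      · have h5 : s n b / ‖b - a n‖ ≤ 1 / 20 := by
          rw [div_le_div_iff₀ hpos (by norm_num)]
          have h6 : s n b ≤ max (s n b) (s n (a n)) := le_max_left _ _
          nlinarith
        linarith
      · push Not at hif
        rw [zero_add, div_le_iff₀ hpos]
        calc s n b ≤ Real.exp (-(η * d n)) := hp2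
          _ = r₁ * r₁ := by
            rw [hr₁, ← Real.exp_add]
            congr 1
            ring
          _ ≤ r₁ * ‖b - a n‖ := mul_le_mul_of_nonneg_left hif.le hr₁0.le
    refine (Finset.sum_le_sum hterm).trans ?_
    rw [Finset.sum_add_distrib, Finset.sum_ite, Finset.sum_const_zero, add_zero, Finset.sum_const, Finset.sum_const, nsmul_eq_mul, nsmul_eq_mul]
    have hc1 : (((((t n).erase (a n)).filter (fun b => ‖b - a n‖ < ρ n)).filter (fun b => ‖b - a n‖ ≤ r₁)).card : ℝ) ≤ 2 * B₅ / η := by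
      refine le_trans ?_ hN1'
      have : ((((t n).erase (a n)).filter (fun b => ‖b - a n‖ < ρ n)).filter (fun b => ‖b - a n‖ ≤ r₁)).card ≤
          (((t n).erase (a n)).filter (fun b => ‖b - a n‖ ≤ r₁)).card := by
        refine Finset.card_le_card fun b hb => ?_
        obtain ⟨hb1, hb2⟩ := Finset.mem_filter.1 hb
        exact Finset.mem_filter.2 ⟨(Finset.mem_filter.1 hb1).1, hb2⟩
      exact_mod_cast this
    have hc2 : ((((t n).erase (a n)).filter (fun b => ‖b - a n‖ < ρ n)).card : ℝ) ≤ B₅ * d n := by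
      refine le_trans ?_ hN2
      have : (((t n).erase (a n)).filter (fun b => ‖b - a n‖ < ρ n)).card ≤ (((t n).erase (a n)).filter (fun b => ‖b - a n‖ ≤ ρ n)).card := by
        refine Finset.card_le_card fun b hb => ?_
        obtain ⟨hb1, hb2⟩ := Finset.mem_filter.1 hb
        exact Finset.mem_filter.2 ⟨hb1, hb2.le⟩
      exact_mod_cast this
    have h7 : B₅ * d n * r₁ ≤ 1 := by
      calc B₅ * d n * r₁ = B₅ * (d n * Real.exp (-(η / 2 * d n))) := by rw [hr₁]; ring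
        _ ≤ B₅ * (2 / ((η / 2) ^ 2 * d n)) := mul_le_mul_of_nonneg_left (PreB_exp (by positivity) hd0) hB₅
        _ ≤ 1 := by
          have h8 : 8 * B₅ / η ^ 2 ≤ d n := hnB.trans hd
          rw [div_le_iff₀ (by positivity)] at h8
          have h9 : B₅ * (2 / ((η / 2) ^ 2 * d n)) = 8 * B₅ / (η ^ 2 * d n) := by
            field_simp
            ring
          rw [h9, div_le_one (by positivity)]
          linarith
    have h8 : 0 ≤ B₅ / η := by positivity
    have h9 : 2 * B₅ / η = 2 * (B₅ / η) := by ring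
    have h10 := mul_le_mul_of_nonneg_right hc2 hr₁0.le
    rw [h9] at hc1
    linarith

end Pool.Agent.SR3
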