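import Pool.Agent.SR3.Spd
import Pool.Agent.SR3.PreB
import Pool.Agent.SR3.ABas

/-!
# SR3 PreC: rescaling at a minimal exit radius (assembly of `speedW`, `pre_small`, `pre_sum`)
-/

set_option autoImplicit false

open Topology Filter Metric

noncomputable section

namespace Pool.Agent.SR3

open Pool.Agent.H36.BP (EN fs wd Sub OrdTwo)
open Pool.Agent.H14.PP (IsCone Tan)
open Pool.Agent.SY (Ent)
open Pool.Agent.SDA (EnergyK Near AffOpen Nm nForms)
open Pool.Agent.H62.EF (MN pr)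
open Pool.Agent.G3 (LLift)
open Geo (Gd)

variable {N : ℕ} {G : Geo N} {T : Set (EN N)} {rho : EN N → ℝ} {M : ℕ} {c₀ C δ : ℝ} {g : (ℂ → EN N) → ℂ → ℝ}

/-- the points of `Y` are separated -/
private theorem PreC_sep {Y : Finset (EN N)} (hY : G.Ends Y) : ∃ ε₁ : ℝ, 0 < ε₁ ∧ ∀ y ∈ Y, ∀ y' ∈ Y, dist (pr y) (pr y') < 2 * ε₁ → y = y' := by
  have h1 : ∀ᶠ ε in 𝓝[>] (0 : ℝ), ∀ p ∈ Y ×ˢ Y, dist (pr p.1) (pr p.2) < 2 * ε → p.1 = p.2 := by
    refine (Finset.eventually_all _).2 fun p hp => ?_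
    obtain ⟨hp1, hp2⟩ := Finset.mem_product.1 hp
    by_cases h : p.1 = p.2
    · exact Eventually.of_forall fun _ _ => h
    · have h2 : 0 < dist (pr p.1) (pr p.2) := dist_pos.2 fun h3 => h (hY.inj _ hp1 _ hp2 h3)
      have h3 : ∀ᶠ ε in 𝓝[>] (0 : ℝ), ε < dist (pr p.1) (pr p.2) / 2 :=
        mem_nhdsWithin_of_mem_nhds (Iio_mem_nhds (by linarith))
      filter_upwards [h3] with ε hε h4
      linarith
  obtain ⟨ε, hε, hε0⟩ := (h1.and self_mem_nhdsWithin).exists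
  exact ⟨ε, hε0, fun y hy y' hy' h => hε (y, y') (Finset.mk_mem_product hy hy') h⟩

/-- the rescaled holes -/
private def PreC_t (t : Finset ℂ) (a : ℂ) (ρ : ℝ) : Finset ℂ := by
  classical exact t.image (fun b => (b - a) / ρ)

private theorem PreC_mem {t : Finset ℂ} {a : ℂ} {ρ : ℝ} (hρ : 0 < ρ) {w : ℂ} : w ∈ PreC_t t a ρ ↔ a + ρ * w ∈ t := by
  classical
  have hρ' : (ρ : ℂ) ≠ 0 := Complex.ofReal_ne_zero.2 hρ.ne'
  unfold PreC_t
  rw [Finset.mem_image]
  constructor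
  · rintro ⟨b, hb, rfl⟩
    rwa [mul_div_cancel₀ _ hρ', add_sub_cancel]
  · intro h
    refine ⟨_, h, ?_⟩
    rw [add_sub_cancel_left, mul_div_cancel_left₀ _ hρ']

private theorem PreC_nm {a z : ℂ} {ρ : ℝ} (hρ : 0 < ρ) (b : ℂ) : ‖(a + ρ * z) - (a + ρ * b)‖ = ρ * ‖z - b‖ := by
  rw [add_sub_add_left_eq_sub, ← mul_sub, norm_mul, Complex.norm_real, Real.norm_of_nonneg hρ.le]

private theorem PreC_nm0 {a z : ℂ} {ρ : ℝ} (hρ : 0 < ρ) : ‖(a + ρ * z) - a‖ = ρ * ‖z‖ := by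
  rw [add_sub_cancel_left, norm_mul, Complex.norm_real, Real.norm_of_nonneg hρ.le]

private theorem PreC_off {t : Finset ℂ} {s : ℂ → ℝ} {a : ℂ} {ρ : ℝ} (hρ : 0 < ρ) {z : ℂ}
    (h : Off (PreC_t t a ρ) (fun w => s (a + ρ * w) / ρ) z) : Off t s (a + ρ * z) := by
  intro b hb
  have hρ' : (ρ : ℂ) ≠ 0 := Complex.ofReal_ne_zero.2 hρ.ne'
  have e : a + ρ * ((b - a) / ρ) = b := by rw [mul_div_cancel₀ _ hρ', add_sub_cancel]
  have h1 := h ((b - a) / ρ) ((PreC_mem hρ).2 (by rw [e]; exact hb))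
  have h2 := PreC_nm (a := a) (z := z) hρ ((b - a) / ρ)
  rw [e] at h2
  simp only [e] at h1
  rw [h2]
  rwa [div_le_iff₀' hρ] at h1

private theorem PreC_off' {t : Finset ℂ} {s : ℂ → ℝ} {a : ℂ} {ρ : ℝ} (hρ : 0 < ρ) {z : ℂ} (h : Off t s (a + ρ * z)) :
    Off (PreC_t t a ρ) (fun w => s (a + ρ * w) / ρ) z := by
  intro w hw
  have h1 := h _ ((PreC_mem hρ).1 hw)
  rw [PreC_nm hρ] at h1
  show s (a + ρ * w) / ρ ≤ ‖z - w‖
  rwa [div_le_iff₀' hρ]

theorem exists_resc (hG : G.Ok) (hM : G.Met T rho M c₀ C δ g) (hQ : G.QN rho) {Y : Finset (EN N)} (hY : G.Ends Y) : ∃ ε₁ : ℝ, 0 < ε₁ ∧ ∀ ε₂ : ℝ, 0 < ε₂ → ε₂ ≤ ε₁ → ∃ B₀ : ℝ,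
    ∀ B₃ B₄ ε K η B₅ : ℝ, B₀ ≤ B₃ → 0 < ε → 2 * ε ≤ ε₂ → 20 ≤ K → 0 < η → ∀ q F t s y a ρ d A, G.Pre T rho δ Y B₃ B₄ ε K ε₂ η B₅ q F t s y a ρ d A →
      ∃ (𝒰 : Ultrafilter ℕ) (Γ : ℕ → ℂ → EN N) (t' : ℕ → Finset ℂ) (s' : ℕ → ℂ → ℝ) (y' : ℕ → ℂ → EN N),
        G.Res Y B₃ B₄ ε K ε₂ (B₅ / η + 1) 𝒰 Γ t' s' y' := by
  classical
  obtain ⟨e₁, he₁, hsep⟩ := PreC_sep hY
  obtain ⟨e₂, he₂, hsm⟩ := pre_small hG hM hQ hY
  obtain ⟨B₁, hspd⟩ := speedW hG hM hQ hY
  refine ⟨min e₁ e₂, lt_min he₁ he₂, fun ε₂ hε₂ hle => ?_⟩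
  obtain ⟨B₂, hsm⟩ := hsm ε₂ hε₂ (hle.trans (min_le_right _ _))
  refine ⟨max B₁ B₂, fun B₃ B₄ ε K η B₅ hB hε hεε hK hη q F t s y a ρ d A hP => ?_⟩
  have h𝒰 : ((hyperfilter ℕ : Ultrafilter ℕ) : Filter ℕ) ≤ atTop := Nat.hyperfilter_le_atTop
  set 𝒰 : Ultrafilter ℕ := hyperfilter ℕ with h𝒰d
  have hsm' : ∀ R τ : ℝ, 0 < τ → ∀ᶠ n in (𝒰 : Filter ℕ), ∀ b ∈ t n, ‖b - a n‖ ≤ R * ρ n → s n b ≤ τ * ρ n :=
    hsm B₃ B₄ ε K η B₅ ((le_max_right _ _).trans hB) hε hK hη q F t s y a ρ d A hP 𝒰 h𝒰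
  obtain ⟨hsum1, hsum2⟩ := pre_sum hK hη hP 𝒰 h𝒰 hsm'
  obtain ⟨B, R₀, hB0, hR0, hspd⟩ := hspd B₃ ((le_max_left _ _).trans hB)
  have hρ : ∀ n, 0 < ρ n := fun n => (hP.dA n).1
  have hge : ∀ k : ℝ, ∀ᶠ n : ℕ in (𝒰 : Filter ℕ), k ≤ (n : ℝ) := fun k => h𝒰 (tendsto_natCast_atTop_atTop.eventually_ge_atTop k)
  have hA : ∀ k : ℝ, ∀ᶠ n : ℕ in (𝒰 : Filter ℕ), k ≤ A n := fun k => (hge k).mono fun n hn => hn.trans (hP.dA n).2.2.1
  -- the data
  set Γ : ℕ → ℂ → EN N := fun n z => F n (a n + ρ n * z) with hΓ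
  set t' : ℕ → Finset ℂ := fun n => PreC_t (t n) (a n) (ρ n) with ht'
  set s' : ℕ → ℂ → ℝ := fun n w => s n (a n + ρ n * w) / ρ n with hs'
  set y' : ℕ → ℂ → EN N := fun n w => y n (a n + ρ n * w) with hy'
  have hmem : ∀ n w, w ∈ t' n ↔ a n + ρ n * w ∈ t n := fun n w => PreC_mem (hρ n)
  have hpos : ∀ n, ∀ b ∈ t' n, 0 < s' n b := fun n b hb => div_pos (hP.pos n _ ((hmem n b).1 hb)).1 (hρ n)
  have hsepn : ∀ n, ∀ b ∈ t' n, ∀ b' ∈ t' n, b ≠ b' → K * max (s' n b) (s' n b') < ‖b - b'‖ := by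
    intro n b hb b' hb' hne
    have h1 := hP.sep n _ ((hmem n b).1 hb) _ ((hmem n b').1 hb') (fun h => hne (by
      have h2 := add_left_cancel h
      exact mul_left_cancel₀ (Complex.ofReal_ne_zero.2 (hρ n).ne') h2))
    rw [PreC_nm (hρ n)] at h1
    have h3 : max (s' n b) (s' n b') = max (s n (a n + ρ n * b)) (s n (a n + ρ n * b')) / ρ n := by
      simp only [hs']
      exact (max_div_div_right (hρ n).le _ _)
    rw [h3, ← mul_div_assoc, div_lt_iff₀' (hρ n)]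
    exact h1
  have hrim : ∀ n, ∀ b ∈ t' n, G.Rim Y B₃ B₄ ε K (fun w => Γ n (b + s' n b * w)) (y' n b) := by
    intro n b hb
    have h1 := hP.rim n _ ((hmem n b).1 hb)
    have e : (fun w : ℂ => Γ n (b + s' n b * w)) = fun w => F n ((a n + ρ n * b) + s n (a n + ρ n * b) * w) := by
      funext w
      simp only [hΓ, hs']
      congr 1
      have hρ' : (ρ n : ℂ) ≠ 0 := Complex.ofReal_ne_zero.2 (hρ n).ne'
      push_cast
      field_simp
      ring
    rw [e]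
    exact h1
  have hzero : ∀ n, (0 : ℂ) ∈ t' n := fun n => (hmem n 0).2 (by rw [mul_zero, add_zero]; exact hP.mem n)
  have htiny : ∀ R τ : ℝ, 0 < τ → ∀ᶠ n in (𝒰 : Filter ℕ), ∀ b ∈ t' n, ‖b‖ ≤ R → s' n b ≤ τ := by
    intro R τ hτ
    filter_upwards [hsm' R τ hτ] with n hn b hb hbR
    have h1 := hn _ ((hmem n b).1 hb) (by
      rw [PreC_nm0 (hρ n), mul_comm]
      exact mul_le_mul_of_nonneg_right hbR (hρ n).le)
    show s n (a n + ρ n * b) / ρ n ≤ τ
    rwa [div_le_iff₀ (hρ n)]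
  have hstay : ∀ n z, ‖z‖ < 1 → Off (t' n) (s' n) z → dist (pr (Γ n z)) (pr (y' n 0)) < ε₂ := by
    intro n z hz ho
    have h1 := hP.stay n (a n + ρ n * z) (by
      rw [PreC_nm0 (hρ n)]
      nlinarith [hρ n]) (PreC_off (hρ n) ho)
    simp only [hΓ, hy']
    rw [mul_zero, add_zero]
    exact h1
  have hcov : ∀ n z, ‖z‖ ≤ A n → Real.log ‖Γ n z‖ ≤ B₃ → ∃ b ∈ t' n, ‖z - b‖ < s' n b / 2 := by
    intro n z hz hl
    obtain ⟨b, hb, hzb⟩ := hP.cov n (a n + ρ n * z) (by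
      rw [PreC_nm0 (hρ n), mul_comm]
      exact mul_le_mul_of_nonneg_right hz (hρ n).le) hl
    have hρ' : (ρ n : ℂ) ≠ 0 := Complex.ofReal_ne_zero.2 (hρ n).ne'
    have e : a n + ρ n * ((b - a n) / ρ n) = b := by rw [mul_div_cancel₀ _ hρ', add_sub_cancel]
    refine ⟨(b - a n) / ρ n, (hmem n _).2 (by rw [e]; exact hb), ?_⟩
    have h2 := PreC_nm (a := a n) (z := z) (hρ n) ((b - a n) / ρ n)
    rw [e] at h2
    rw [h2] at hzb
    show ‖z - (b - a n) / ρ n‖ < s n (a n + ρ n * ((b - a n) / ρ n)) / ρ n / 2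
    rw [e, div_div, mul_comm (ρ n) 2, ← div_div, lt_div_iff₀' (hρ n)]
    exact hzb
  have hhof : ∀ n, ∀ b ∈ t' n, ‖b‖ ≤ A n → ∀ z, ‖z - b‖ < 1 / 2 → Off (t' n) (s' n) z → dist (pr (Γ n z)) (pr (y' n b)) < ε₂ := by
    intro n b hb hbA z hz ho
    refine hP.hof n _ ((hmem n b).1 hb) (by
      rw [PreC_nm0 (hρ n), mul_comm]
      exact mul_le_mul_of_nonneg_right hbA (hρ n).le) _ ?_ (PreC_off (hρ n) ho)
    rw [PreC_nm (hρ n)]
    nlinarith [hρ n]
  have hent : ∀ n, Differentiable ℂ (F n) := fun n => (hP.cl n).ent.diff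
  have hlin : ∀ n, Differentiable ℂ (fun z : ℂ => a n + ρ n * z) := fun n => (differentiable_const _).add ((differentiable_const _).mul differentiable_id)
  refine ⟨𝒰, Γ, t', s', y', ?_, hzero, hstay, ?_, ?_, ?_⟩
  · refine ⟨isOpen_univ, isPreconnected_univ, fun n => ⟨(hent n).comp (hlin n), fun z => (hP.cl n).ent.mem _, fun z => (hP.cl n).nm _⟩, hpos, hsepn, hrim, ?_, ?_,
      htiny, ?_, ?_⟩
    · -- cov
      intro z _
      refine ⟨1, one_pos, ?_⟩
      filter_upwards [hA (‖z‖ + 1)] with n hn w hw hl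
      refine hcov n w ?_ hl
      have h1 : ‖w - z‖ < 1 := mem_ball_iff_norm.1 hw
      calc ‖w‖ = ‖(w - z) + z‖ := by rw [sub_add_cancel]
        _ ≤ ‖w - z‖ + ‖z‖ := norm_add_le _ _
        _ ≤ A n := by linarith
    · -- out
      intro z _
      refine ⟨‖z‖ + 1, by positivity, ?_⟩
      filter_upwards [htiny 0 (1 / 2) (by norm_num)] with n hn b hb hbz
      by_cases h0 : b = 0
      · subst h0
        have h1 := hn 0 hb (by rw [norm_zero])
        have h2 := norm_nonneg z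
        linarith
      · have h1 := hsepn n b hb 0 (hzero n) h0
        rw [sub_zero] at h1
        have h2 : s' n b ≤ max (s' n b) (s' n 0) := le_max_left _ _
        have h3 := hpos n b hb
        have h4 : 20 * s' n b < ‖b‖ := by nlinarith
        have h5 : ‖b‖ ≤ ‖b - z‖ + ‖z‖ := by
          calc ‖b‖ = ‖(b - z) + z‖ := by rw [sub_add_cancel]
            _ ≤ ‖b - z‖ + ‖z‖ := norm_add_le _ _
        linarith
    · -- small
      intro z _
      refine ⟨1, one_pos, ?_⟩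
      refine squeeze_zero (fun n => Finset.sum_nonneg fun b _ => Real.sqrt_nonneg _) (fun n => ?_) (hsum1 (‖z‖ + 1))
      have h1 : ∑ b ∈ (t' n).filter (fun b => ‖b - z‖ < 1), √(s' n b) =
          ∑ b ∈ ((t' n).filter (fun b => ‖b - z‖ < 1)).image (fun b => a n + ρ n * b), √(s n b / ρ n) := by
        rw [Finset.sum_image]
        intro b _ b' _ hbb
        exact mul_left_cancel₀ (Complex.ofReal_ne_zero.2 (hρ n).ne') (add_left_cancel hbb)
      rw [h1]
      refine Finset.sum_le_sum_of_subset_of_nonneg ?_ fun _ _ _ => Real.sqrt_nonneg _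
      intro b hb
      obtain ⟨b', hb', rfl⟩ := Finset.mem_image.1 hb
      obtain ⟨hb1, hb2⟩ := Finset.mem_filter.1 hb'
      refine Finset.mem_filter.2 ⟨(hmem n b').1 hb1, ?_⟩
      rw [PreC_nm0 (hρ n), mul_comm]
      refine mul_le_mul_of_nonneg_right ?_ (hρ n).le
      calc ‖b'‖ = ‖(b' - z) + z‖ := by rw [sub_add_cancel]
        _ ≤ ‖b' - z‖ + ‖z‖ := norm_add_le _ _
        _ ≤ ‖z‖ + 1 := by linarith
    · -- loc
      intro z _
      have hr0 : 0 < min (1 / 8 : ℝ) (1 / (16 * B)) := lt_min (by norm_num) (by positivity)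
      refine ⟨min (1 / 8) (1 / (16 * B)), hr0, ?_⟩
      have hr1 : min (1 / 8 : ℝ) (1 / (16 * B)) ≤ 1 / 8 := min_le_left _ _
      have hr2 : min (1 / 8 : ℝ) (1 / (16 * B)) ≤ 1 / (16 * B) := min_le_right _ _
      generalize min (1 / 8 : ℝ) (1 / (16 * B)) = r at hr0 hr1 hr2 ⊢
      filter_upwards [hA (2 * ‖z‖ + 2), hge R₀, hge 1, htiny (2 * ‖z‖ + 2) (1 / 16) (by norm_num)] with n hn hnR hn1 hnt
      by_cases hc : ∃ b ∈ t' n, ‖b - z‖ < 1 / 4
      · left
        obtain ⟨b, hb, hbz⟩ := hc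
        refine ⟨b, hb, fun w hw ho => hhof n b hb ?_ w ?_ ho⟩
        · have h1 := norm_nonneg z
          calc ‖b‖ = ‖(b - z) + z‖ := by rw [sub_add_cancel]
            _ ≤ ‖b - z‖ + ‖z‖ := norm_add_le _ _
            _ ≤ A n := by linarith
        · have h1 : ‖w - z‖ < r := mem_ball_iff_norm.1 hw
          calc ‖w - b‖ = ‖(w - z) - (b - z)‖ := by rw [sub_sub_sub_cancel_right]
            _ ≤ ‖w - z‖ + ‖b - z‖ := norm_sub_le _ _
            _ < 1 / 2 := by linarith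
      · right
        push Not at hc
        refine ⟨fun b hb => by linarith [hc b hb], fun w hw => ?_⟩
        have hw1 : ‖w - z‖ < r := mem_ball_iff_norm.1 hw
        have hz0 := norm_nonneg z
        have hwn : ‖w‖ ≤ ‖z‖ + 1 / 8 := by
          calc ‖w‖ = ‖(w - z) + z‖ := by rw [sub_add_cancel]
            _ ≤ ‖w - z‖ + ‖z‖ := norm_add_le _ _
            _ ≤ ‖z‖ + 1 / 8 := by linarith
        -- no low points near w
        have hlow : ∀ v : ℂ, ‖v - w‖ < 1 / 16 → B₃ < Real.log ‖Γ n v‖ := by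
          intro v hv
          by_contra hcon
          have hvn : ‖v‖ ≤ ‖z‖ + 1 := by
            calc ‖v‖ = ‖(v - w) + w‖ := by rw [sub_add_cancel]
              _ ≤ ‖v - w‖ + ‖w‖ := norm_add_le _ _
              _ ≤ ‖z‖ + 1 := by linarith
          obtain ⟨b, hb, hvb⟩ := hcov n v (by linarith) (not_lt.1 hcon)
          have hbn : ‖b‖ ≤ 2 * ‖z‖ + 2 := by
            by_cases h0 : b = 0
            · rw [h0, norm_zero]
              positivity
            · have h1 := hsepn n b hb 0 (hzero n) h0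
              rw [sub_zero] at h1
              have h2 : s' n b ≤ max (s' n b) (s' n 0) := le_max_left _ _
              have h3 := hpos n b hb
              have h4 : 20 * s' n b < ‖b‖ := by nlinarith
              have h5 : ‖b‖ ≤ ‖v - b‖ + ‖v‖ := by
                calc ‖b‖ = ‖v - (v - b)‖ := by rw [sub_sub_cancel]
                  _ ≤ ‖v‖ + ‖v - b‖ := norm_sub_le _ _
                  _ = ‖v - b‖ + ‖v‖ := add_comm _ _
              linarith
          have hsb := hnt b hb hbn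
          have h6 : ‖b - z‖ ≤ ‖v - b‖ + ‖v - w‖ + ‖w - z‖ := by
            calc ‖b - z‖ = ‖(v - w) + (w - z) - (v - b)‖ := by congr 1; ring
              _ ≤ ‖(v - w) + (w - z)‖ + ‖v - b‖ := norm_sub_le _ _
              _ ≤ ‖v - w‖ + ‖w - z‖ + ‖v - b‖ := by gcongr; exact norm_add_le _ _
              _ = ‖v - b‖ + ‖v - w‖ + ‖w - z‖ := by ring
          have h7 := hc b hb
          linarith
        -- the speed
        have hA2 := hP.dA n
        have hdz : d n ≤ infDist (a n + ρ n * w) (Gd rho δ (F n)) := by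
          refine hP.dd n _ ?_
          rw [PreC_nm0 (hρ n), mul_comm]
          refine mul_le_mul_of_nonneg_right ?_ (hρ n).le
          linarith
        have hAρ : ρ n ≤ d n := by
          refine le_trans ?_ hA2.2.2.2
          have h1 : (1 : ℝ) ≤ A n := by linarith
          nlinarith [hρ n]
        have h8 := hspd (q n) (F n) (hP.cl n) (a n + ρ n * w) (ρ n / 16) (hnR.trans (hA2.2.1.trans hdz)) (by linarith [hρ n]) (by linarith [hρ n]) (by
          intro v hv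
          have hρ' : (ρ n : ℂ) ≠ 0 := Complex.ofReal_ne_zero.2 (hρ n).ne'
          have e : a n + ρ n * ((v - a n) / ρ n) = v := by rw [mul_div_cancel₀ _ hρ', add_sub_cancel]
          have h9 := hlow ((v - a n) / ρ n) (by
            have h10 := PreC_nm (a := a n) (z := (v - a n) / ρ n) (hρ n) w
            rw [e] at h10
            have h11 : ‖v - (a n + ρ n * w)‖ < ρ n / 16 := mem_ball_iff_norm.1 hv
            rw [h10] at h11
            have h12 := hρ n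
            have h13 : ρ n * ‖(v - a n) / ρ n - w‖ < ρ n * (1 / 16) := by linarith
            exact lt_of_mul_lt_mul_left h13 h12.le)
          simp only [hΓ] at h9
          rwa [e] at h9)
        have e1 : Γ n = fun v => F n (ρ n * v + a n) := by
          funext v
          simp only [hΓ]
          rw [add_comm]
        have e2 : deriv (Γ n) w = (ρ n : ℂ) • deriv (F n) (a n + ρ n * w) := by
          rw [e1, deriv_aff (hent n), add_comm ((ρ n : ℂ) * w) (a n)]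
        show fs (Γ n w) (deriv (Γ n) w) ≤ 1 / r
        rw [e2, Pool.Agent.H36.BP.fs_smul_right, Complex.norm_real, Real.norm_of_nonneg (hρ n).le]
        have h14 : ρ n * fs (Γ n w) (deriv (F n) (a n + ρ n * w)) ≤ ρ n * (B / (ρ n / 16)) := mul_le_mul_of_nonneg_left h8 (hρ n).le
        have h15 : ρ n * (B / (ρ n / 16)) = 16 * B := by
          have := (hρ n).ne'
          field_simp
        rw [h15] at h14
        refine h14.trans ?_
        rw [le_div_iff₀ hr0]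
        rw [le_div_iff₀ (by positivity)] at hr2
        linarith
  · -- exit
    intro n
    obtain ⟨z, hz, ho, hd⟩ := hP.exit n
    have hρ' : (ρ n : ℂ) ≠ 0 := Complex.ofReal_ne_zero.2 (hρ n).ne'
    have e : a n + ρ n * ((z - a n) / ρ n) = z := by rw [mul_div_cancel₀ _ hρ', add_sub_cancel]
    refine ⟨(z - a n) / ρ n, ?_, PreC_off' (hρ n) (by rw [e]; exact ho), ?_⟩
    · rw [norm_div, hz, Complex.norm_real, Real.norm_of_nonneg (hρ n).le, div_self (hρ n).ne']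
    · simp only [hΓ, hy']
      rw [e, mul_zero, add_zero]
      exact hd
  · -- exitFar
    filter_upwards [hA (5 / 4)] with n hn z hz ho hd b hb
    by_contra hcon
    push Not at hcon
    have hbn : ‖b‖ ≤ 5 / 4 := by
      calc ‖b‖ = ‖z - (z - b)‖ := by rw [sub_sub_cancel]
        _ ≤ ‖z‖ + ‖z - b‖ := norm_sub_le _ _
        _ ≤ 5 / 4 := by linarith
    have h1 := hhof n b hb (hbn.trans hn) z (by linarith) ho
    have h2 : y' n b = y' n 0 := by
      refine hsep _ (hrim n b hb).mem _ (hrim n 0 (hzero n)).mem ?_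
      calc dist (pr (y' n b)) (pr (y' n 0)) ≤ dist (pr (y' n b)) (pr (Γ n z)) + dist (pr (Γ n z)) (pr (y' n 0)) := dist_triangle _ _ _
        _ < ε₂ + ε₂ := by rw [dist_comm (pr (y' n b)), hd]; linarith
        _ ≤ 2 * e₁ := by linarith [hle.trans (min_le_left _ _)]
    rw [h2, hd] at h1
    exact lt_irrefl _ h1
  · -- cnt
    filter_upwards [hsum2] with n hn
    refine le_trans (le_of_eq ?_) hn
    have h1 : ((t n).erase (a n)).filter (fun b => ‖b - a n‖ < ρ n) =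
        (((t' n).erase 0).filter (fun b => ‖b‖ < 1)).image (fun b => a n + ρ n * b) := by
      have hρ' : (ρ n : ℂ) ≠ 0 := Complex.ofReal_ne_zero.2 (hρ n).ne'
      ext b
      constructor
      · intro hb
        obtain ⟨hb1, hb2⟩ := Finset.mem_filter.1 hb
        obtain ⟨hb3, hb4⟩ := Finset.mem_erase.1 hb1
        have e : a n + ρ n * ((b - a n) / ρ n) = b := by rw [mul_div_cancel₀ _ hρ', add_sub_cancel]
        refine Finset.mem_image.2 ⟨(b - a n) / ρ n, Finset.mem_filter.2 ⟨Finset.mem_erase.2 ⟨?_, (hmem n _).2 (by rw [e]; exact hb4)⟩, ?_⟩, e⟩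
        · exact div_ne_zero (sub_ne_zero.2 hb3) hρ'
        · rw [norm_div, Complex.norm_real, Real.norm_of_nonneg (hρ n).le, div_lt_one (hρ n)]
          exact hb2
      · intro hb
        obtain ⟨b', hb', rfl⟩ := Finset.mem_image.1 hb
        obtain ⟨hb1, hb2⟩ := Finset.mem_filter.1 hb'
        obtain ⟨hb3, hb4⟩ := Finset.mem_erase.1 hb1
        refine Finset.mem_filter.2 ⟨Finset.mem_erase.2 ⟨fun h => hb3 ?_, (hmem n b').1 hb4⟩, ?_⟩
        · have h2 : (ρ n : ℂ) * b' = 0 := by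
            have h3 : a n + ρ n * b' = a n + 0 := by rw [add_zero]; exact h
            exact add_left_cancel h3
          exact (mul_eq_zero.1 h2).resolve_left hρ'
        · rw [PreC_nm0 (hρ n)]
          nlinarith [hρ n]
    rw [h1, Finset.sum_image]
    · refine Finset.sum_congr rfl fun b _ => ?_
      rw [PreC_nm0 (hρ n)]
      simp only [hs']
      rw [div_div]
    · intro b _ b' _ hbb
      exact mul_left_cancel₀ (Complex.ofReal_ne_zero.2 (hρ n).ne') (add_left_cancel hbb)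

end Pool.Agent.SR3
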