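import Pool.Agent.SR3.LimC
import Pool.Agent.G3.P.Ent

/-!
# SR3 LimD: on the plane the limit is constant
-/

set_option autoImplicit false

open Topology Filter Metric

noncomputable section

namespace Pool.Agent.SR3

open Pool.Agent.H36.BP (EN fs wd Sub OrdTwo)
open Pool.Agent.H62.EF (MN pr)
open Pool.Agent.G3 (LLift)

variable {N : ℕ} {G : Geo N}


/-- one of finitely many analytic functions without isolated zeros vanishes everywhere -/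
private theorem exists_zero {ι : Type} [Fintype ι] {E : Type} [NormedAddCommGroup E] [NormedSpace ℂ E] {f : ι → ℂ → E}
    (hf : ∀ i z, AnalyticAt ℂ (f i) z) (h : ∀ z, ∃ i, f i z = 0) : ∃ i, ∀ z, f i z = 0 := by
  have h1 : ∃ i, ∃ᶠ z in 𝓝[≠] (0 : ℂ), f i z = 0 := by
    by_contra hc
    push Not at hc
    have h2 : ∀ i, ∀ᶠ z in 𝓝[≠] (0 : ℂ), f i z ≠ 0 := fun i => by simpa [Filter.Frequently] using hc i
    obtain ⟨z, hz⟩ := (eventually_all.2 h2).exists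
    obtain ⟨i, hi⟩ := h z
    exact hz i hi
  obtain ⟨i, hi⟩ := h1
  refine ⟨i, fun z => ?_⟩
  have h3 : AnalyticOnNhd ℂ (f i) Set.univ := fun z _ => hf i z
  exact h3.eqOn_zero_of_preconnected_of_frequently_eq_zero isPreconnected_univ (Set.mem_univ 0) hi (Set.mem_univ z)

theorem lim_const (hG : G.Ok) (hB : G.Bdry) {Y : Finset (EN N)} (hY : G.Ends Y) : ∃ ε₁ : ℝ, 0 < ε₁ ∧ ∀ B₃ B₄ ε K ε₂ : ℝ, 20 ≤ K → 0 < ε → 2 * ε ≤ ε₂ →
    ε₂ ≤ ε₁ → ∀ 𝒰 Γ t s y, G.Loc Y B₃ B₄ ε K ε₂ 𝒰 Set.univ Γ t s y → ∀ f, Geo.LimOf 𝒰 Set.univ Γ t s f →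
    (∀ z, ∀ x : EN N, x ≠ 0 → f z = pr x → x ∈ G.X ∧ x ∉ G.K) → ∀ z z', f z = f z' := by
  obtain ⟨ε₁, h0, h1⟩ := lim_cross hG hB hY
  refine ⟨ε₁, h0, fun B₃ B₄ ε K ε₂ hK hε h2 h3 𝒰 Γ t s y hL f hf hX => ?_⟩
  obtain ⟨H, hH, hHe⟩ := G3.entire_lift fun z => hf.lift z (Set.mem_univ z)
  have hHX : ∀ z, H z ∈ G.X ∧ H z ∉ G.K := fun z => hX z _ (hHe z).1 (hHe z).2
  obtain ⟨i, hi⟩ := exists_zero (f := fun i z => G.E i (H z)) (fun i z => (hG.anE i _).comp (hH.analyticAt z)) fun z => hB.zero _ (hHX z).1 (hHX z).2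
  by_cases hc : ∃ z₁, ∃ i', i' ≠ i ∧ G.E i' (H z₁) = 0
  · obtain ⟨z₁, i', hi', hz₁⟩ := hc
    have h4 := h1 B₃ B₄ ε K ε₂ hK hε h2 h3 𝒰 Set.univ Γ t s y hL f hf (fun z _ => hX z) z₁ (Set.mem_univ _) (H z₁) i i' (hHe z₁).1 (hHe z₁).2 hi'.symm (hi z₁) hz₁
    exact fun z z' => (h4 z (Set.mem_univ z)).trans (h4 z' (Set.mem_univ z')).symm
  · push Not at hc
    intro z z'
    rw [(hHe z).2, (hHe z').2]
    exact hB.one H hH hHX i hi (fun i' h z => hc z i' h) z z'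

end Pool.Agent.SR3
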