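import Pool.Agent.SR3.HolA
import Pool.Agent.SR3.HolB
import Pool.Agent.SR3.LimA
import Pool.Agent.SR3.LimB
import Pool.Agent.SR3.LimD
import Pool.Agent.G3.C.EDefs

/-!
# SR3 ResF: the rescaled sequences do not exist

`f = c`, `dist c (pr y) = ε₂`; `ext_holes` for `Γ / ⟪u, Γ⟫ - u`, `u = y / ‖y‖` (norm `< ε` at the rims), at the point `2 s 0`; on a circle which meets no hole this
function is close to its value at `c`, of norm at least `ε₂ / 2`.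
-/

set_option autoImplicit false

open Topology Filter Metric

noncomputable section

namespace Pool.Agent.SR3

open Pool.Agent.H36.BP (EN fs wd)
open Pool.Agent.H62.EF (MN pr)
open Pool.Agent.G3 (LLift)
open Pool.Agent.G3.C (nv nd nv_pr nd_pr_ne nv_continuousAt)

variable {N : ℕ} {G : Geo N}

/-! ## the chart -/

private theorem rf_id {v x : EN N} (hv : ‖v‖ = 1) (h : inner ℂ v x ≠ (0 : ℂ)) :
    dist (pr x) (pr v) ^ 2 * (1 + ‖(inner ℂ v x : ℂ)⁻¹ • x - v‖ ^ 2) = 2 * ‖(inner ℂ v x : ℂ)⁻¹ • x - v‖ ^ 2 := by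
  have hv0 : v ≠ 0 := by
    rintro rfl
    rw [norm_zero] at hv
    exact zero_ne_one hv
  have h1 : inner ℂ v ((inner ℂ v x : ℂ)⁻¹ • x) = (1 : ℂ) := by
    rw [inner_smul_right, inv_mul_cancel₀ h]
  have hp : pr ((inner ℂ v x : ℂ)⁻¹ • x) = pr x := Pool.Agent.H62.EF.pr_smul x (inv_ne_zero h)
  generalize (inner ℂ v x : ℂ)⁻¹ • x = x₁ at h1 hp ⊢
  have hx0 : x₁ ≠ 0 := by
    intro h0
    rw [h0, inner_zero_right] at h1
    exact zero_ne_one h1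
  have h2 := Pool.Agent.H62.EF.norm_inner_sq hv0 hx0
  rw [h1, hv, norm_one, one_pow, one_mul, hp, dist_comm] at h2
  have h3 : ‖x₁ - v‖ ^ 2 = ‖x₁‖ ^ 2 - 1 := by
    rw [norm_sub_rev, norm_sub_sq (𝕜 := ℂ), h1, hv, RCLike.re_to_complex, Complex.one_re]
    ring
  rw [h3]
  nlinarith [h2]

private theorem rf_chart {v x : EN N} (hv : ‖v‖ = 1) (hx : x ≠ 0) (hd : dist (pr x) (pr v) ≤ 1) :
    inner ℂ v x ≠ (0 : ℂ) ∧ ‖(inner ℂ v x : ℂ)⁻¹ • x - v‖ ≤ dist (pr x) (pr v) := by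
  have hv0 : v ≠ 0 := by
    rintro rfl
    rw [norm_zero] at hv
    exact zero_ne_one hv
  have hd0 : 0 ≤ dist (pr x) (pr v) := dist_nonneg
  have h0 : inner ℂ v x ≠ (0 : ℂ) := by
    intro h
    have h2 := Pool.Agent.H62.EF.norm_inner_sq hv0 hx
    rw [h, hv, norm_zero, dist_comm] at h2
    have hx0 : 0 < ‖x‖ ^ 2 := by positivity
    have h3 : dist (pr x) (pr v) ^ 2 ≤ 1 := by nlinarith
    nlinarith
  refine ⟨h0, ?_⟩
  have h1 := rf_id hv h0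
  have h2 : 0 ≤ ‖(inner ℂ v x : ℂ)⁻¹ • x - v‖ := norm_nonneg _
  have h3 : dist (pr x) (pr v) ^ 2 ≤ 1 := by nlinarith
  refine le_of_sq_le_sq ?_ hd0
  nlinarith [mul_nonneg (sub_nonneg.2 h3) (pow_two_nonneg ‖(inner ℂ v x : ℂ)⁻¹ • x - v‖)]

private theorem rf_far {v x : EN N} (hv : ‖v‖ = 1) (h : inner ℂ v x ≠ (0 : ℂ)) : dist (pr x) (pr v) ≤ 2 * ‖(inner ℂ v x : ℂ)⁻¹ • x - v‖ := by
  have h1 := rf_id hv h
  have h2 : 0 ≤ ‖(inner ℂ v x : ℂ)⁻¹ • x - v‖ := norm_nonneg _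
  refine le_of_sq_le_sq ?_ (by positivity)
  nlinarith [mul_nonneg (pow_two_nonneg (dist (pr x) (pr v))) (pow_two_nonneg ‖(inner ℂ v x : ℂ)⁻¹ • x - v‖)]

/-! ## finite sets -/

private theorem rf_pos {α : Type*} (S : Finset α) (f : α → ℝ) (h : ∀ a ∈ S, 0 < f a) : ∃ r : ℝ, 0 < r ∧ ∀ a ∈ S, r ≤ f a := by
  rcases S.eq_empty_or_nonempty with rfl | hS
  · exact ⟨1, one_pos, fun a ha => absurd ha (Finset.notMem_empty a)⟩
  · obtain ⟨p, hp, hmin⟩ := S.exists_min_image f hS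
    exact ⟨f p, h p hp, hmin⟩

private theorem rf_sep' {α β : Type*} [DecidableEq α] [MetricSpace β] (Y : Finset α) (f : α → β) (hY : ∀ y ∈ Y, ∀ y' ∈ Y, f y = f y' → y = y') :
    ∃ r : ℝ, 0 < r ∧ ∀ y ∈ Y, ∀ y' ∈ Y, dist (f y) (f y') < r → y = y' := by
  obtain ⟨r, hr, h⟩ := rf_pos ((Y ×ˢ Y).filter fun p => p.1 ≠ p.2) (fun p => dist (f p.1) (f p.2)) (by
    intro p hp
    rw [Finset.mem_filter, Finset.mem_product] at hp
    exact dist_pos.2 fun h1 => hp.2 (hY _ hp.1.1 _ hp.1.2 h1))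
  refine ⟨r, hr, fun y hy y' hy' hlt => ?_⟩
  by_contra hne
  have h1 : (y, y') ∈ (Y ×ˢ Y).filter fun p => p.1 ≠ p.2 := by
    rw [Finset.mem_filter, Finset.mem_product]
    exact ⟨⟨hy, hy'⟩, hne⟩
  exact absurd hlt (not_lt.2 (h _ h1))

private theorem rf_cover {α : Type*} {l : Filter α} {t : α → Finset ℂ} {φ : α → ℂ → ℝ} (h0 : ∀ n a, 0 ≤ φ n a)
    (h : ∀ z : ℂ, ∃ r : ℝ, 0 < r ∧ Tendsto (fun n => ∑ a ∈ (t n).filter (fun a => ‖a - z‖ < r), φ n a) l (𝓝 0)) (R : ℝ) {τ : ℝ} (hτ : 0 < τ) :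
    ∀ᶠ n in l, ∑ a ∈ (t n).filter (fun a => ‖a‖ ≤ R), φ n a < τ := by
  choose r hr hlim using h
  obtain ⟨I, -, hI⟩ := (isCompact_closedBall (0 : ℂ) R).elim_nhds_subcover (fun z => ball z (r z)) fun z _ => ball_mem_nhds z (hr z)
  have h1 : Tendsto (fun n => ∑ z ∈ I, ∑ a ∈ (t n).filter (fun a => ‖a - z‖ < r z), φ n a) l (𝓝 0) := by
    have h2 := tendsto_finsetSum I fun z _ => hlim z
    rwa [Finset.sum_const_zero] at h2
  filter_upwards [h1.eventually (gt_mem_nhds hτ)] with n hn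
  refine lt_of_le_of_lt ?_ hn
  have h3 : ∑ z ∈ I, ∑ a ∈ (t n).filter (fun a => ‖a - z‖ < r z), φ n a = ∑ a ∈ t n, ∑ z ∈ I, if ‖a - z‖ < r z then φ n a else 0 := by
    rw [Finset.sum_comm]
    exact Finset.sum_congr rfl fun z _ => Finset.sum_filter _ _
  rw [h3, Finset.sum_filter]
  refine Finset.sum_le_sum fun a _ => ?_
  have h4 : ∀ z ∈ I, 0 ≤ if ‖a - z‖ < r z then φ n a else 0 := fun z _ => by
    split_ifs
    · exact h0 n a
    · exact le_rfl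
  split_ifs with ha
  · obtain ⟨z, hz, haz⟩ := Set.mem_iUnion₂.1 (hI (mem_closedBall_zero_iff.2 ha))
    have h5 := Finset.single_le_sum h4 hz
    rw [mem_ball, dist_eq_norm] at haz
    rw [if_pos haz] at h5
    exact h5
  · exact Finset.sum_nonneg h4

private theorem rf_const {α : Type*} {𝒰 : Ultrafilter ℕ} {Y : Finset α} {y : ℕ → α} (h : ∀ n, y n ∈ Y) : ∃ v ∈ Y, ∀ᶠ n in (𝒰 : Filter ℕ), y n = v := by
  have h1 : (Y : Set α) ∈ (𝒰.map y : Filter α) := by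
    rw [Ultrafilter.coe_map, Filter.mem_map]
    exact Filter.univ_mem' h
  obtain ⟨v, hv, he⟩ := Ultrafilter.eq_pure_of_finite_mem Y.finite_toSet h1
  refine ⟨v, hv, ?_⟩
  have h2 : ({v} : Set α) ∈ (𝒰.map y : Filter α) := by
    rw [show ((𝒰.map y : Ultrafilter α) : Filter α) = ((pure v : Ultrafilter α) : Filter α) from congrArg _ he]
    exact Set.mem_singleton v
  exact h2

/-! ## the estimate -/

private theorem rf_core {E : Type} [NormedAddCommGroup E] [NormedSpace ℂ E] [CompleteSpace E] {f : ℂ → E} (t : Finset ℂ) (s : ℂ → ℝ) {μ η θ : ℝ} {c : E}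
    (hμ0 : 0 ≤ μ) (hs : ∀ a ∈ t, 0 < s a) (hsep : ∀ a ∈ t, ∀ b ∈ t, a ≠ b → 20 * max (s a) (s b) < ‖a - b‖) (h0 : (0 : ℂ) ∈ t)
    (hf : ∀ ζ : ℂ, ‖ζ‖ < 3 / 4 → Off t s ζ → DifferentiableAt ℂ f ζ)
    (hμ : ∀ a ∈ t, ∀ ζ, s a ≤ ‖ζ - a‖ → ‖ζ - a‖ ≤ 2 * s a → DifferentiableAt ℂ f ζ ∧ ‖f ζ‖ ≤ μ) (hσ : ∑ a ∈ t, √(s a) < 1 / 16)
    (hc : ∀ ζ : ℂ, 1 / 2 < ‖ζ‖ → ‖ζ‖ < 3 / 4 → (∀ a ∈ t, √(s a) ≤ ‖ζ - a‖) → ‖f ζ - c‖ ≤ η) (hθ : ∑ a ∈ t.erase 0, s a / ‖a‖ ≤ θ) :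
    ‖c‖ ≤ η + μ / 8 + 2 * μ * (1 / 2 + 2 * θ) + μ := by
  have hsq : ∀ a ∈ t, √(s a) < 1 / 16 := fun a ha =>
    lt_of_le_of_lt (Finset.single_le_sum (f := fun a => √(s a)) (fun b _ => Real.sqrt_nonneg _) ha) hσ
  have hss : ∀ a ∈ t, s a = √(s a) * √(s a) := fun a ha => (Real.mul_self_sqrt (hs a ha).le).symm
  have hsq0 : ∀ a ∈ t, 0 < √(s a) := fun a ha => Real.sqrt_pos.2 (hs a ha)
  have hsep4 : ∀ a ∈ t, ∀ b ∈ t, a ≠ b → 4 * max (s a) (s b) < ‖a - b‖ := fun a ha b hb hab => by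
    have h1 := hsep a ha b hb hab
    have h2 : 0 < max (s a) (s b) := lt_of_lt_of_le (hs a ha) (le_max_left _ _)
    linarith
  obtain ⟨g, hg, hgf⟩ := ext_holes (E := E) (f := f) (U := ball 0 (3 / 4)) isOpen_ball t s hs hsep4
    (fun ζ hζ hO => hf ζ (mem_ball_zero_iff.1 hζ) hO) hμ
  obtain ⟨ρ, hρ1, hρ2, hρ⟩ := exists_rad t (fun a => √(s a)) 0 (a := 1 / 2) (b := 3 / 4) (fun a _ => Real.sqrt_nonneg _) (by linarith)
  -- the circle
  have hcirc : ∀ ζ : ℂ, ‖ζ‖ = ρ → ‖g ζ - c‖ ≤ η + μ / 8 := by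
    intro ζ hζ
    have h1 : ∀ a ∈ t, √(s a) ≤ ‖ζ - a‖ := fun a ha => hρ a ha ζ (by rwa [sub_zero])
    have h2 : Off t (fun a => 2 * s a) ζ := by
      intro a ha
      have h3 := hss a ha
      have h4 := h1 a ha
      have h5 := hsq a ha
      have h6 := hsq0 a ha
      show 2 * s a ≤ ‖ζ - a‖
      nlinarith
    have h3 := hgf ζ (mem_ball_zero_iff.2 (by rw [hζ]; exact hρ2)) h2
    have h4 : ∑ a ∈ t, s a / ‖ζ - a‖ ≤ ∑ a ∈ t, √(s a) := by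
      refine Finset.sum_le_sum fun a ha => ?_
      have h5 := hsq0 a ha
      rw [div_le_iff₀ (lt_of_lt_of_le h5 (h1 a ha))]
      calc s a = √(s a) * √(s a) := hss a ha
        _ ≤ √(s a) * ‖ζ - a‖ := mul_le_mul_of_nonneg_left (h1 a ha) h5.le
    have h5 := hc ζ (by rw [hζ]; exact hρ1) (by rw [hζ]; exact hρ2) h1
    have h6 : ‖g ζ - c‖ ≤ ‖g ζ - f ζ‖ + ‖f ζ - c‖ := by
      rw [← sub_add_sub_cancel (g ζ) (f ζ) c]
      exact norm_add_le _ _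
    have h7 : 2 * μ * ∑ a ∈ t, s a / ‖ζ - a‖ ≤ 2 * μ * (1 / 16) := mul_le_mul_of_nonneg_left (by linarith) (by linarith)
    linarith
  -- the maximum principle
  have hmax : ∀ ζ : ℂ, ‖ζ‖ ≤ ρ → ‖g ζ - c‖ ≤ η + μ / 8 := by
    intro ζ hζ
    have hρ0 : 0 < ρ := by linarith
    have h1 : DiffContOnCl ℂ (fun ζ => g ζ - c) (ball 0 ρ) := by
      refine DifferentiableOn.diffContOnCl ?_
      rw [closure_ball _ hρ0.ne']
      exact (hg.mono (closedBall_subset_ball hρ2)).sub_const c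
    refine Complex.norm_le_of_forall_mem_frontier_norm_le isBounded_ball h1 (fun z hz => ?_) (z := ζ) ?_
    · rw [frontier_ball _ hρ0.ne'] at hz
      exact hcirc z (mem_sphere_zero_iff_norm.1 hz)
    · rw [closure_ball _ hρ0.ne', mem_closedBall_zero_iff]
      exact hζ
  -- the point `2 s 0`
  obtain ⟨ζ, hζ⟩ : ∃ ζ : ℂ, ζ = ((2 * s 0 : ℝ) : ℂ) := ⟨_, rfl⟩
  have hs0 := hs 0 h0
  have hn : ‖ζ‖ = 2 * s 0 := by
    rw [hζ, Complex.norm_real, Real.norm_of_nonneg (by linarith)]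
  have hsm : s 0 < 1 / 16 := by
    have h3 := hss 0 h0
    have h5 := hsq 0 h0
    have h6 := hsq0 0 h0
    nlinarith
  have hdist : ∀ a ∈ t, a ≠ 0 → 9 / 10 * ‖a‖ ≤ ‖ζ - a‖ ∧ 2 * s a ≤ ‖ζ - a‖ ∧ 0 < ‖a‖ := by
    intro a ha ha0
    have h1 := hsep a ha 0 h0 ha0
    rw [sub_zero] at h1
    have h2 : s a ≤ max (s a) (s 0) := le_max_left _ _
    have h3 : s 0 ≤ max (s a) (s 0) := le_max_right _ _
    have h4 : ‖a‖ - ‖ζ‖ ≤ ‖ζ - a‖ := by
      rw [norm_sub_rev]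
      exact norm_sub_norm_le a ζ
    have h5 := hs a ha
    refine ⟨?_, ?_, ?_⟩
    · linarith
    · linarith
    · linarith
  have hO : Off t (fun a => 2 * s a) ζ := by
    intro a ha
    show 2 * s a ≤ ‖ζ - a‖
    rcases eq_or_ne a 0 with rfl | ha0
    · rw [sub_zero, hn]
    · exact (hdist a ha ha0).2.1
  have h1 := hgf ζ (mem_ball_zero_iff.2 (by rw [hn]; linarith)) hO
  have h2 := (hμ 0 h0 ζ (by rw [sub_zero, hn]; linarith) (by rw [sub_zero, hn])).2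
  have h3 := hmax ζ (by rw [hn]; linarith)
  have h4 : ∑ a ∈ t, s a / ‖ζ - a‖ ≤ 1 / 2 + 2 * θ := by
    rw [← Finset.add_sum_erase t _ h0]
    have h5 : s 0 / ‖ζ - 0‖ = 1 / 2 := by
      rw [sub_zero, hn]
      field_simp
    have h6 : ∑ a ∈ t.erase 0, s a / ‖ζ - a‖ ≤ ∑ a ∈ t.erase 0, 2 * (s a / ‖a‖) := by
      refine Finset.sum_le_sum fun a ha => ?_
      obtain ⟨ha0, ha⟩ := Finset.mem_erase.1 ha
      obtain ⟨h7, -, h8⟩ := hdist a ha ha0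
      have h9 := hs a ha
      rw [div_le_iff₀ (by linarith)]
      have h10 : s a = s a / ‖a‖ * ‖a‖ := by
        rw [div_mul_cancel₀ _ h8.ne']
      have h11 : 0 < s a / ‖a‖ := div_pos h9 h8
      nlinarith
    rw [← Finset.mul_sum] at h6
    linarith
  have h5 : 2 * μ * ∑ a ∈ t, s a / ‖ζ - a‖ ≤ 2 * μ * (1 / 2 + 2 * θ) := mul_le_mul_of_nonneg_left h4 (by linarith)
  have h6 : ‖c‖ ≤ ‖g ζ - c‖ + ‖g ζ - f ζ‖ + ‖f ζ‖ := by
    have h7 : c = -(g ζ - c) + (g ζ - f ζ) + f ζ := by abel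
    calc ‖c‖ = ‖-(g ζ - c) + (g ζ - f ζ) + f ζ‖ := by rw [← h7]
      _ ≤ ‖-(g ζ - c)‖ + ‖g ζ - f ζ‖ + ‖f ζ‖ := norm_add₃_le
      _ = _ := by rw [norm_neg]
  linarith

/-! ## the theorem -/

theorem res_false (hG : G.Ok) (hB : G.Bdry) {Y : Finset (EN N)} (hY : G.Ends Y) : ∃ ε₁ : ℝ, 0 < ε₁ ∧ ∀ ε₂ θ : ℝ, 0 < ε₂ → ε₂ ≤ ε₁ → 0 ≤ θ → ∃ ε₀ : ℝ, 0 < ε₀ ∧
    ∀ B₃ B₄ ε K : ℝ, 0 < ε → ε ≤ ε₀ → 20 ≤ K → ∀ 𝒰 Γ t s y, ¬ G.Res Y B₃ B₄ ε K ε₂ θ 𝒰 Γ t s y := by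
  classical
  obtain ⟨εa, hεa, hlim⟩ := exists_limH hG hY
  obtain ⟨εb, hεb, hcst⟩ := lim_const hG hB hY
  obtain ⟨r, hr, hsepY⟩ := rf_sep' Y (pr : EN N → MN N) hY.inj
  refine ⟨min (min εa εb) (min (1 / 2) (r / 4)), lt_min (lt_min hεa hεb) (lt_min (by norm_num) (by linarith)), fun ε₂ θ hε₂ hle hθ => ?_⟩
  have hla : ε₂ ≤ εa := hle.trans ((min_le_left _ _).trans (min_le_left _ _))
  have hlb : ε₂ ≤ εb := hle.trans ((min_le_left _ _).trans (min_le_right _ _))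
  have hlc : ε₂ ≤ 1 / 2 := hle.trans ((min_le_right _ _).trans (min_le_left _ _))
  have hld : ε₂ ≤ r / 4 := hle.trans ((min_le_right _ _).trans (min_le_right _ _))
  have hθ1 : 0 < 1 + θ := by linarith
  refine ⟨ε₂ / (16 * (1 + θ)), by positivity, fun B₃ B₄ ε K hε hεle hK 𝒰 Γ t s y h => ?_⟩
  have hεθ : ε * (16 * (1 + θ)) ≤ ε₂ := (le_div_iff₀ (by positivity)).1 hεle
  have hε16 : 16 * ε ≤ ε₂ := by nlinarith
  have hL := h.loc
  -- the limit is constant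
  obtain ⟨f, hf⟩ := hlim B₃ B₄ ε K ε₂ hK hla 𝒰 Set.univ Γ t s y hL
  have hbd := lim_bdry hG hK hL hf (z₁ := 0) trivial fun r' hr' => Eventually.of_forall fun n => ⟨0, h.zero n, by rw [sub_zero, norm_zero]; exact hr'⟩
  have hc := hcst B₃ B₄ ε K ε₂ hK hε (by linarith) hlb 𝒰 Γ t s y hL f hf fun z => hbd z trivial
  obtain ⟨Φ, -, hΦ⟩ := hf.lift 0 trivial
  obtain ⟨hx0, hfx⟩ := hΦ.self_of_nhds
  generalize Φ 0 = x at hx0 hfx
  have hfz : ∀ z, f z = pr x := fun z => (hc z 0).trans hfx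
  -- the end is constant
  obtain ⟨v, hvY, hyv⟩ := rf_const (𝒰 := 𝒰) (Y := Y) (y := fun n => y n 0) fun n => (h.loc.rim n 0 (h.zero n)).mem
  have hv0 : v ≠ 0 := fun h0 => hG.cone.zero_notMem (h0 ▸ (hY.mem v hvY).1)
  have hvn : ‖v‖ ≠ 0 := norm_ne_zero_iff.2 hv0
  obtain ⟨u, hu1, hu⟩ : ∃ u : EN N, ‖u‖ = 1 ∧ pr u = pr v := by
    have h1 : (((‖v‖⁻¹ : ℝ)) : ℂ) ≠ 0 := by exact_mod_cast inv_ne_zero hvn
    refine ⟨(((‖v‖⁻¹ : ℝ)) : ℂ) • v, ?_, Pool.Agent.H62.EF.pr_smul v h1⟩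
    rw [norm_smul, Complex.norm_real, norm_inv, norm_norm]
    exact inv_mul_cancel₀ hvn
  -- smallness
  have hsum := fun R : ℝ => rf_cover (l := (𝒰 : Filter ℕ)) (t := t) (φ := fun n a => √(s n a)) (fun _ _ => Real.sqrt_nonneg _)
    (fun z => h.loc.small z trivial) R (τ := 1 / 16) (by norm_num)
  have hsq : ∀ R : ℝ, ∀ᶠ n in (𝒰 : Filter ℕ), ∀ a ∈ t n, ‖a‖ ≤ R → √(s n a) < 1 / 16 := by
    intro R
    filter_upwards [hsum R] with n hn a ha haR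
    refine lt_of_le_of_lt ?_ hn
    exact Finset.single_le_sum (f := fun a => √(s n a)) (fun b _ => Real.sqrt_nonneg _) (Finset.mem_filter.2 ⟨ha, haR⟩)
  -- the distance
  have hdist : dist (pr x) (pr u) = ε₂ := by
    have h1 : ∀ η : ℝ, 0 < η → |dist (pr x) (pr u) - ε₂| ≤ η := by
      intro η hη
      have h2 := hf.lim (closedBall 0 1) (Set.subset_univ _) (isCompact_closedBall _ _) η hη
      obtain ⟨n, hn1, hn2, hn3, hn4⟩ := (hyv.and (h2.and ((hsq 2).and h.exitFar))).exists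
      obtain ⟨z, hz, hO, hd⟩ := h.exit n
      have h3 := hn4 z hz hO hd
      have h4 : Far (t n) (s n) z := by
        intro a ha haz
        have h5 : ‖a‖ ≤ 2 := by
          have h6 : ‖a‖ ≤ ‖z‖ + ‖z - a‖ := by
            calc ‖a‖ = ‖z - (z - a)‖ := by rw [sub_sub_cancel]
              _ ≤ _ := norm_sub_le _ _
          linarith
        have h6 := hn3 a ha h5
        have h7 := h3 a ha
        linarith
      have h5 := hn2 z (mem_closedBall_zero_iff.2 hz.le) h4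
      rw [hfz z] at h5
      rw [hn1, ← hu] at hd
      rw [← hd]
      refine (abs_dist_sub_le (pr x) (pr (Γ n z)) (pr u)).trans ?_
      rw [dist_comm]
      exact h5.le
    have h2 : |dist (pr x) (pr u) - ε₂| ≤ 0 := le_of_forall_pos_le_add fun η hη => by rw [zero_add]; exact h1 η hη
    linarith [abs_nonpos_iff.1 h2]
  have hxu := rf_chart hu1 hx0 (by rw [hdist]; linarith)
  have hfar := rf_far hu1 hxu.1
  rw [hdist] at hfar
  -- continuity of the chart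
  have hnv : ContinuousAt (nv u) (pr x) := nv_continuousAt ((nd_pr_ne hx0).2 hxu.1)
  obtain ⟨ε', hε', hcont⟩ := Metric.continuousAt_iff.1 hnv (ε₂ / 16) (by linarith)
  -- a good index
  obtain ⟨r₀, hr₀, hout⟩ := h.loc.out 0 trivial
  obtain ⟨R, hR2, hRr⟩ : ∃ R : ℝ, 2 ≤ R ∧ r₀ ≤ R := ⟨max 2 r₀, le_max_left _ _, le_max_right _ _⟩
  obtain ⟨n, hn1, hn2, hn3, hn4, hn5, hn6⟩ := (hyv.and ((hf.lim (closedBall 0 1) (Set.subset_univ _) (isCompact_closedBall _ _) ε' hε').and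
    ((hsum R).and ((hsq R).and (hout.and h.cnt))))).exists
  have hpos := h.loc.pos n
  have hsep := h.loc.sep n
  have hcrv := h.loc.crv n
  have hsep20 : ∀ a ∈ t n, ∀ b ∈ t n, a ≠ b → 20 * max (s n a) (s n b) < ‖a - b‖ := by
    intro a ha b hb hab
    have h1 := hsep a ha b hb hab
    have h2 : 0 < max (s n a) (s n b) := lt_of_lt_of_le (hpos a ha) (le_max_left _ _)
    nlinarith
  have hss : ∀ a ∈ t n, ‖a‖ ≤ R → s n a < 1 / 16 := by
    intro a ha haR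
    have h1 := hn4 a ha haR
    have h2 := (Real.mul_self_sqrt (hpos a ha).le).symm
    have h3 := Real.sqrt_nonneg (s n a)
    nlinarith
  -- in the disc
  have hstay : ∀ ζ : ℂ, ‖ζ‖ < 1 → Off (t n) (s n) ζ → inner ℂ u (Γ n ζ) ≠ (0 : ℂ) ∧ dist (pr (Γ n ζ)) (pr v) < ε₂ := by
    intro ζ hζ hO
    have h1 := h.stay n ζ hζ hO
    rw [hn1] at h1
    have hΓ0 : Γ n ζ ≠ 0 := fun h0 => hG.cone.zero_notMem (h0 ▸ ((hG.aff.mem _).1 (hcrv.2.1 ζ)).1)
    exact ⟨(rf_chart hu1 hΓ0 (by rw [hu]; linarith)).1, h1⟩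
  have hoff : ∀ ζ : ℂ, ‖ζ‖ < 3 / 4 → Off ((t n).filter fun a => ‖a‖ < 1) (s n) ζ → Off (t n) (s n) ζ := by
    intro ζ hζ hO a ha
    by_cases ha1 : ‖a‖ < 1
    · exact hO a (Finset.mem_filter.2 ⟨ha, ha1⟩)
    · rw [not_lt] at ha1
      have h1 : ‖a‖ - ‖ζ‖ ≤ ‖ζ - a‖ := by
        rw [norm_sub_rev]
        exact norm_sub_norm_le a ζ
      by_cases haR : ‖a‖ ≤ R
      · have h2 := hss a ha haR
        linarith
      · rw [not_le] at haR
        have h2 := hn5 a ha (by rw [sub_zero]; linarith)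
        rw [sub_zero] at h2
        linarith
  have hdiff : ∀ ζ : ℂ, inner ℂ u (Γ n ζ) ≠ (0 : ℂ) → DifferentiableAt ℂ (fun ζ => (inner ℂ u (Γ n ζ) : ℂ)⁻¹ • Γ n ζ - u) ζ := by
    intro ζ hζ
    have h1 : DifferentiableAt ℂ (Γ n) ζ := hcrv.1 ζ
    have h2 : DifferentiableAt ℂ (fun ζ => (inner ℂ u (Γ n ζ) : ℂ)) ζ := ((innerSL ℂ u).differentiableAt).comp ζ h1
    exact ((h2.inv hζ).smul h1).sub_const u
  have hends : ∀ a ∈ t n, ‖a‖ < 1 → y n a = v := by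
    intro a ha ha1
    rcases eq_or_ne a 0 with rfl | ha0
    · exact hn1
    have hna : 0 < ‖a‖ := norm_pos_iff.2 ha0
    have hsa := hpos a ha
    have h1 := hsep20 a ha 0 (h.zero n) ha0
    rw [sub_zero] at h1
    have h2 : s n a ≤ max (s n a) (s n 0) := le_max_left _ _
    obtain ⟨w, hw⟩ : ∃ w : ℂ, w = ((-(3 / 2) / ‖a‖ : ℝ) : ℂ) * a := ⟨_, rfl⟩
    have hwn : ‖w‖ = 3 / 2 := by
      rw [hw, norm_mul, Complex.norm_real, norm_div, norm_norm, norm_neg, Real.norm_of_nonneg (by norm_num)]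
      field_simp
    have hζ : ‖a + s n a * w‖ < 1 := by
      have h3 : a + s n a * w = ((1 - 3 / 2 * s n a / ‖a‖ : ℝ) : ℂ) * a := by
        rw [hw]
        push_cast
        ring
      rw [h3, norm_mul, Complex.norm_real]
      have h4 : 0 < 3 / 2 * s n a / ‖a‖ := by positivity
      have h5 : 3 / 2 * s n a / ‖a‖ < 1 := by
        rw [div_lt_one hna]
        linarith
      rw [Real.norm_of_nonneg (by linarith)]
      nlinarith
    have hO : Off (t n) (s n) (a + s n a * w) := by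
      intro b hb
      rcases eq_or_ne b a with rfl | hba
      · rw [add_sub_cancel_left, norm_mul, hwn, Complex.norm_real, Real.norm_of_nonneg hsa.le]
        linarith
      · have h3 := hsep20 b hb a ha hba
        have h4 : s n b ≤ max (s n b) (s n a) := le_max_left _ _
        have h5 : s n a ≤ max (s n b) (s n a) := le_max_right _ _
        have h6 : ‖b - a‖ ≤ ‖a + s n a * w - b‖ + ‖(s n a : ℂ) * w‖ := by
          calc ‖b - a‖ = ‖(a + s n a * w - b) - s n a * w‖ := by rw [norm_sub_rev]; congr 1; ring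
            _ ≤ _ := norm_sub_le _ _
        rw [norm_mul, hwn, Complex.norm_real, Real.norm_of_nonneg hsa.le] at h6
        have h7 := hpos b hb
        linarith
    have h3 := (hstay _ hζ hO).2
    have h4 := ((h.loc.rim n a ha).ann w (by rw [hwn]; norm_num) (by rw [hwn]; linarith)).2
    refine hsepY _ (h.loc.rim n a ha).mem _ hvY ?_
    have h5 := dist_triangle_left (pr (y n a)) (pr v) (pr (Γ n (a + s n a * w)))
    linarith
  have hrim : ∀ a ∈ t n, ‖a‖ < 1 → ∀ ζ : ℂ, s n a ≤ ‖ζ - a‖ → ‖ζ - a‖ ≤ 2 * s n a →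
      inner ℂ u (Γ n ζ) ≠ (0 : ℂ) ∧ ‖(inner ℂ u (Γ n ζ) : ℂ)⁻¹ • Γ n ζ - u‖ ≤ ε := by
    intro a ha ha1 ζ h1 h2
    have hsa := hpos a ha
    have hsc : ((s n a : ℝ) : ℂ) ≠ 0 := by exact_mod_cast hsa.ne'
    have h3 : ζ = a + s n a * ((ζ - a) / s n a) := by
      rw [mul_div_cancel₀ _ hsc]
      ring
    have h4 : ‖(ζ - a) / (s n a : ℂ)‖ = ‖ζ - a‖ / s n a := by
      rw [norm_div, Complex.norm_real, Real.norm_of_nonneg hsa.le]
    have h5 := ((h.loc.rim n a ha).ann ((ζ - a) / s n a) (by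
      rw [h4, le_div_iff₀ hsa]
      linarith) (by
      rw [h4, div_le_iff₀ hsa]
      nlinarith)).2
    rw [← h3, hends a ha ha1, ← hu] at h5
    have hΓ0 : Γ n ζ ≠ 0 := fun h0 => hG.cone.zero_notMem (h0 ▸ ((hG.aff.mem _).1 (hcrv.2.1 ζ)).1)
    obtain ⟨h6, h7⟩ := rf_chart hu1 hΓ0 (by linarith)
    exact ⟨h6, h7.trans h5.le⟩
  -- the estimate
  have hfin := rf_core (f := fun ζ => (inner ℂ u (Γ n ζ) : ℂ)⁻¹ • Γ n ζ - u) ((t n).filter fun a => ‖a‖ < 1) (s n) (μ := ε) (η := ε₂ / 16) (θ := θ)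
    (c := (inner ℂ u x : ℂ)⁻¹ • x - u) hε.le (fun a ha => hpos a (Finset.mem_filter.1 ha).1)
    (fun a ha b hb hab => hsep20 a (Finset.mem_filter.1 ha).1 b (Finset.mem_filter.1 hb).1 hab)
    (Finset.mem_filter.2 ⟨h.zero n, by rw [norm_zero]; exact one_pos⟩)
    (fun ζ hζ hO => hdiff ζ (hstay ζ (by linarith) (hoff ζ hζ hO)).1)
    (fun a ha ζ h1 h2 => by
      obtain ⟨ha, ha1⟩ := Finset.mem_filter.1 ha
      obtain ⟨h3, h4⟩ := hrim a ha ha1 ζ h1 h2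
      exact ⟨hdiff ζ h3, h4⟩)
    (by
      refine lt_of_le_of_lt (Finset.sum_le_sum_of_subset_of_nonneg (fun a ha => ?_) fun a _ _ => Real.sqrt_nonneg _) hn3
      obtain ⟨ha, ha1⟩ := Finset.mem_filter.1 ha
      exact Finset.mem_filter.2 ⟨ha, by linarith⟩)
    (fun ζ h1 h2 h3 => by
      have hO : Off (t n) (s n) ζ := by
        refine hoff ζ h2 fun a ha => ?_
        have h4 := h3 a ha
        obtain ⟨ha, ha1⟩ := Finset.mem_filter.1 ha
        have h5 := hn4 a ha (by linarith)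
        have h6 := (Real.mul_self_sqrt (hpos a ha).le).symm
        have h7 := Real.sqrt_nonneg (s n a)
        nlinarith
      have hF : Far (t n) (s n) ζ := by
        intro a ha haζ
        by_cases ha1 : ‖a‖ < 1
        · exact h3 a (Finset.mem_filter.2 ⟨ha, ha1⟩)
        · rw [not_lt] at ha1
          have h4 : ‖a‖ - ‖ζ‖ ≤ ‖ζ - a‖ := by
            rw [norm_sub_rev]
            exact norm_sub_norm_le a ζ
          have h5 := hn4 a ha (by linarith)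
          linarith
      have h4 := hn2 ζ (mem_closedBall_zero_iff.2 (by linarith)) hF
      rw [hfz ζ] at h4
      have h5 := hcont h4
      rw [nv_pr (hstay ζ (by linarith) hO).1, nv_pr hxu.1, dist_eq_norm] at h5
      rw [sub_sub_sub_cancel_right]
      exact h5.le)
    (by
      refine le_trans (le_of_eq ?_) hn6
      refine Finset.sum_congr ?_ fun _ _ => rfl
      ext a
      simp only [Finset.mem_erase, Finset.mem_filter]
      tauto)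
  have h1 : 2 * ε * (1 / 2 + 2 * θ) = ε + 4 * (ε * θ) := by ring
  have h2 : ε * (16 * (1 + θ)) = 16 * ε + 16 * (ε * θ) := by ring
  rw [h1] at hfin
  rw [h2] at hεθ
  have h3 : 0 ≤ ε * θ := mul_nonneg hε.le hθ
  linarith

end Pool.Agent.SR3
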