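import Pool.Agent.SR3.PreA
import Pool.Agent.SR3.PreC
import Pool.Agent.SR3.ResF

/-!
# SR3 Stay: the curve stays near the end of a hole, up to a distance proportional to `infDist z₀ (Gd rho δ F)`

PROOF.  If not, there is a sequence of counterexamples with `κ = 1 / (n + 1)`; `exists_pre`, `exists_resc`, `res_false`.
-/

set_option autoImplicit false

open Topology Filter Metric

noncomputable section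

namespace Pool.Agent.SR3

open Pool.Agent.H36.BP (EN fs wd Sub OrdTwo)
open Pool.Agent.H14.PP (IsCone Tan)
open Pool.Agent.SY (Ent)
open Pool.Agent.SDA (EnergyK Near AffOpen Nm nForms)
open Pool.Agent.H62.EF (MN pr)
open Pool.Agent.G3 (LLift)
open Geo (Gd)

variable {N : ℕ} {G : Geo N} {T : Set (EN N)} {rho : EN N → ℝ} {M : ℕ} {c₀ C δ : ℝ} {g : (ℂ → EN N) → ℂ → ℝ}

theorem stay (hG : G.Ok) (hM : G.Met T rho M c₀ C δ g) (hQ : G.QN rho) (hB : G.Bdry) {Y : Finset (EN N)} (hY : G.Ends Y) : ∃ ε₁ : ℝ, 0 < ε₁ ∧ ∀ ε₂ : ℝ, 0 < ε₂ → ε₂ ≤ ε₁ → ∃ B₀ : ℝ,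
    ∀ B₃ : ℝ, B₀ ≤ B₃ → ∀ η θ θ' : ℝ, 0 < η → 0 < θ' → θ' < θ → θ < 1 → ∃ ε₀ : ℝ, 0 < ε₀ ∧ ∀ ε : ℝ, 0 < ε → ε ≤ ε₀ → ∀ K B₄ : ℝ, 20 ≤ K → ∃ κ R : ℝ, 0 < κ ∧ 0 < R ∧
    ∀ (q : G.J → ℂ) (F : ℂ → EN N), G.Cl T q F → ∀ z₀ t s y, R ≤ infDist z₀ (Gd rho δ F) →
      G.Holes Y B₃ B₄ ε K (Real.exp (-(η * infDist z₀ (Gd rho δ F)))) F z₀ (θ * infDist z₀ (Gd rho δ F)) t s y →
      ∀ a ∈ t, ‖a - z₀‖ ≤ θ' * infDist z₀ (Gd rho δ F) → ∀ z, ‖z - a‖ ≤ κ * infDist z₀ (Gd rho δ F) → Off t s z → dist (pr (F z)) (pr (y a)) < ε₂ := by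
  obtain ⟨ε₁, hε₁, h1⟩ := exists_pre hG hM hQ hY
  obtain ⟨ε₁', hε₁', h2⟩ := exists_resc hG hM hQ hY
  obtain ⟨ε₁'', hε₁'', h3⟩ := res_false hG hB hY
  refine ⟨min ε₁ (min ε₁' ε₁''), lt_min hε₁ (lt_min hε₁' hε₁''), fun ε₂ hε₂ hle => ?_⟩
  have hle1 : ε₂ ≤ ε₁ := hle.trans (min_le_left _ _)
  have hle2 : ε₂ ≤ ε₁' := hle.trans ((min_le_right _ _).trans (min_le_left _ _))
  have hle3 : ε₂ ≤ ε₁'' := hle.trans ((min_le_right _ _).trans (min_le_right _ _))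
  obtain ⟨B₀, h2⟩ := h2 ε₂ hε₂ hle2
  refine ⟨B₀, fun B₃ hB₃ η θ θ' hη hθ' hθθ hθ => ?_⟩
  obtain ⟨B₅, hB₅, h1⟩ := h1 ε₂ hε₂ hle1 B₃ η θ θ' hη hθ' hθθ hθ
  obtain ⟨ε₀, hε₀, h3⟩ := h3 ε₂ (B₅ / η + 1) hε₂ hle3 (by positivity)
  refine ⟨min ε₀ (ε₂ / 2), lt_min hε₀ (by positivity), fun ε hε hεε K B₄ hK => ?_⟩
  have hε0 : ε ≤ ε₀ := hεε.trans (min_le_left _ _)
  have hε2 : 2 * ε ≤ ε₂ := by
    have := hεε.trans (min_le_right _ _)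
    linarith
  by_contra hcon
  have hseq : ∀ n : ℕ, ∃ (q : G.J → ℂ) (F : ℂ → EN N) (z₀ : ℂ) (t : Finset ℂ) (s : ℂ → ℝ) (y : ℂ → EN N) (a z : ℂ), G.Cl T q F ∧ (n : ℝ) ≤ infDist z₀ (Gd rho δ F) ∧
        G.Holes Y B₃ B₄ ε K (Real.exp (-(η * infDist z₀ (Gd rho δ F)))) F z₀ (θ * infDist z₀ (Gd rho δ F)) t s y ∧ a ∈ t ∧
        ‖a - z₀‖ ≤ θ' * infDist z₀ (Gd rho δ F) ∧ ‖z - a‖ ≤ infDist z₀ (Gd rho δ F) / (n + 1) ∧ Off t s z ∧ ε₂ ≤ dist (pr (F z)) (pr (y a)) := by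
    intro n
    have hn : (0 : ℝ) < (n : ℝ) + 1 := by positivity
    by_contra hc
    refine hcon ⟨1 / ((n : ℝ) + 1), (n : ℝ) + 1, by positivity, hn, fun q F hF z₀ t s y hR hH a ha hab z hz hoff => ?_⟩
    by_contra hd
    refine hc ⟨q, F, z₀, t, s, y, a, z, hF, ?_, hH, ha, hab, ?_, hoff, not_lt.1 hd⟩
    · linarith
    · rw [one_div, inv_mul_eq_div] at hz
      exact hz
  obtain ⟨q, F, t, s, y, a, ρ, d, A, hpre⟩ := h1 B₄ ε K hε hε2 hK hseq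
  obtain ⟨𝒰, Γ, t', s', y', hres⟩ := h2 B₃ B₄ ε K η B₅ hB₃ hε hε2 hK hη q F t s y a ρ d A hpre
  exact h3 B₃ B₄ ε K hε hε0 hK 𝒰 Γ t' s' y' hres

end Pool.Agent.SR3
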