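import Pool.Agent.SR3.HolA
import Pool.Agent.SR3.Cnt
import Pool.Agent.SR3.Spd
import Pool.Agent.SR3.Stay
import Pool.Agent.SR3.LimA
import Pool.Agent.SR3.LimB
import Pool.Agent.SR3.LimC
import Pool.Agent.SR3.LimE
import Pool.Agent.H36.BP.WdA

/-!
# SR3 Mac: the macroscopic limit

An end at a crossing stays there on the whole disc of radius `θ' d`: rescale by `d` (`macro_loc`), `U` a disc.
-/

set_option autoImplicit false

open Topology Filter Metric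

noncomputable section

namespace Pool.Agent.SR3

open Pool.Agent.H36.BP (EN fs wd Sub OrdTwo)
open Pool.Agent.H14.PP (IsCone Tan)
open Pool.Agent.SY (Ent)
open Pool.Agent.SDA (EnergyK Near AffOpen Nm nForms)
open Pool.Agent.H62.EF (MN pr)
open Pool.Agent.G3 (LLift)
open Geo (Gd)

variable {N : ℕ} {G : Geo N} {T : Set (EN N)} {rho : EN N → ℝ} {M : ℕ} {c₀ C δ : ℝ} {g : (ℂ → EN N) → ℂ → ℝ}

/-! ### rescaling -/

private def cz (z₀ : ℂ) (d : ℝ) (w : ℂ) : ℂ := z₀ + d * w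

private def ct (z₀ : ℂ) (d : ℝ) (t : Finset ℂ) : Finset ℂ := t.image fun a => (a - z₀) / d

private def cs (z₀ : ℂ) (d : ℝ) (s : ℂ → ℝ) : ℂ → ℝ := fun a => s (cz z₀ d a) / d

private theorem cz_inv {z₀ : ℂ} {d : ℝ} (hd : 0 < d) (a : ℂ) : cz z₀ d ((a - z₀) / d) = a := by
  have h : (d : ℂ) ≠ 0 := by exact_mod_cast hd.ne'
  unfold cz
  field_simp
  ring

private theorem cz_sub (z₀ : ℂ) (d : ℝ) (a b : ℂ) : cz z₀ d a - cz z₀ d b = d * (a - b) := by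
  unfold cz
  ring

private theorem norm_cz {z₀ : ℂ} {d : ℝ} (hd : 0 < d) (a b : ℂ) : ‖cz z₀ d a - cz z₀ d b‖ = d * ‖a - b‖ := by
  rw [cz_sub, norm_mul, Complex.norm_real, Real.norm_of_nonneg hd.le]

private theorem norm_cz0 {z₀ : ℂ} {d : ℝ} (hd : 0 < d) (a : ℂ) : ‖cz z₀ d a - z₀‖ = d * ‖a‖ := by
  have h := norm_cz (z₀ := z₀) hd a 0
  rwa [sub_zero, show cz z₀ d 0 = z₀ by unfold cz; ring] at h

private theorem mem_ct {z₀ : ℂ} {d : ℝ} (hd : 0 < d) {t : Finset ℂ} {a : ℂ} : a ∈ ct z₀ d t ↔ cz z₀ d a ∈ t := by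
  have h : (d : ℂ) ≠ 0 := by exact_mod_cast hd.ne'
  unfold ct
  rw [Finset.mem_image]
  constructor
  · rintro ⟨b, hb, rfl⟩
    rwa [cz_inv hd]
  · intro ha
    refine ⟨_, ha, ?_⟩
    unfold cz
    field_simp
    ring

private theorem off_ct {z₀ : ℂ} {d : ℝ} (hd : 0 < d) {t : Finset ℂ} {s : ℂ → ℝ} {w : ℂ} : Off (ct z₀ d t) (cs z₀ d s) w ↔ Off t s (cz z₀ d w) := by
  constructor
  · intro h b hb
    have h1 := h ((b - z₀) / d) ((mem_ct hd).2 (by rwa [cz_inv hd]))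
    unfold cs at h1
    rw [cz_inv hd, div_le_iff₀ hd, mul_comm, ← norm_cz (z₀ := z₀) hd, cz_inv hd] at h1
    exact h1
  · intro h a ha
    have h1 := h _ ((mem_ct hd).1 ha)
    rw [norm_cz hd] at h1
    unfold cs
    rw [div_le_iff₀ hd, mul_comm]
    exact h1

private theorem fs_cz {F : ℂ → EN N} (hF : Differentiable ℂ F) {z₀ : ℂ} {d : ℝ} (hd : 0 < d) (w : ℂ) :
    fs (F (cz z₀ d w)) (deriv (fun w => F (cz z₀ d w)) w) = d * fs (F (cz z₀ d w)) (deriv F (cz z₀ d w)) := by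
  have h1 : HasDerivAt (fun w => cz z₀ d w) (d : ℂ) w := by
    have h2 := ((hasDerivAt_id w).const_mul (d : ℂ)).const_add z₀
    rw [mul_one] at h2
    exact h2
  have h2 : deriv (fun w => F (cz z₀ d w)) w = (d : ℂ) • deriv F (cz z₀ d w) := ((hF (cz z₀ d w)).hasDerivAt.scomp w h1).deriv
  rw [h2]
  unfold fs
  rw [Pool.Agent.H36.BP.wd_smul_right, Complex.norm_real, Real.norm_of_nonneg hd.le, mul_div_assoc]

/-- the sum of the square roots of the radii -/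
private theorem sum_ct {z₀ : ℂ} {d : ℝ} (hd : 1 ≤ d) {t : Finset ℂ} {s : ℂ → ℝ} {B₅ S : ℝ} (hS : 0 ≤ S) (hcard : (t.card : ℝ) ≤ B₅ * d) (hs : ∀ a ∈ t, s a ≤ S) :
    ∑ a ∈ ct z₀ d t, √(cs z₀ d s a) ≤ B₅ * d * √S := by
  have hd0 : 0 < d := lt_of_lt_of_le one_pos hd
  have h1 : ∀ a ∈ ct z₀ d t, √(cs z₀ d s a) ≤ √S := by
    intro a ha
    refine Real.sqrt_le_sqrt ?_
    have h2 := hs _ ((mem_ct hd0).1 ha)
    unfold cs
    rw [div_le_iff₀ hd0]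
    nlinarith
  refine (Finset.sum_le_card_nsmul _ _ _ h1).trans ?_
  rw [nsmul_eq_mul]
  refine mul_le_mul_of_nonneg_right (le_trans ?_ hcard) (Real.sqrt_nonneg S)
  exact_mod_cast Finset.card_image_le

private theorem tendsto_sm {𝒰 : Ultrafilter ℕ} {d : ℕ → ℝ} (hd : Tendsto d (𝒰 : Filter ℕ) atTop) {B₅ η : ℝ} (hη : 0 < η) :
    Tendsto (fun n => B₅ * d n * √(Real.exp (-(η * d n)))) (𝒰 : Filter ℕ) (𝓝 0) := by
  have h1 : Tendsto (fun n => η / 2 * d n) (𝒰 : Filter ℕ) atTop := hd.const_mul_atTop (by positivity)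
  have h2 := (Real.tendsto_pow_mul_exp_neg_atTop_nhds_zero 1).comp h1
  have h3 := h2.const_mul (B₅ * (2 / η))
  rw [mul_zero] at h3
  refine h3.congr fun n => ?_
  have h4 : √(Real.exp (-(η * d n))) = Real.exp (-(η / 2 * d n)) := by
    rw [← Real.exp_half]
    congr 1
    ring
  simp only [Function.comp_apply, pow_one]
  rw [h4]
  field_simp

/-- the rescaled sequences are under control -/
private theorem macro_loc {Y : Finset (EN N)} {B₃ B₄ ε K ε₂ η θ θ₁ B₅ κ Rs Bv Rv Rc : ℝ} (hη : 0 < η) (h01 : 0 < θ₁) (h1θ : θ₁ < θ) (hθ1 : θ < 1) (hκ : 0 < κ) (hBv : 0 < Bv)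
    (HS : ∀ (q : G.J → ℂ) (F : ℂ → EN N), G.Cl T q F → ∀ z₀ t s y, Rs ≤ infDist z₀ (Gd rho δ F) →
      G.Holes Y B₃ B₄ ε K (Real.exp (-(η * infDist z₀ (Gd rho δ F)))) F z₀ (θ * infDist z₀ (Gd rho δ F)) t s y →
      ∀ a ∈ t, ‖a - z₀‖ ≤ θ₁ * infDist z₀ (Gd rho δ F) → ∀ z, ‖z - a‖ ≤ κ * infDist z₀ (Gd rho δ F) → Off t s z → dist (pr (F z)) (pr (y a)) < ε₂)
    (HV : ∀ (q : G.J → ℂ) (F : ℂ → EN N), G.Cl T q F → ∀ (z : ℂ) (r : ℝ), Rv ≤ infDist z (Gd rho δ F) → 0 < r → r ≤ infDist z (Gd rho δ F) →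
      (∀ w ∈ ball z r, B₃ < Real.log ‖F w‖) → fs (F z) (deriv F z) ≤ Bv / r)
    (HC : ∀ (q : G.J → ℂ) (F : ℂ → EN N), G.Cl T q F → ∀ z₀ t s y, Rc ≤ infDist z₀ (Gd rho δ F) →
      G.Holes Y B₃ B₄ ε K (Real.exp (-(η * infDist z₀ (Gd rho δ F)))) F z₀ (θ * infDist z₀ (Gd rho δ F)) t s y →
      (t.card : ℝ) ≤ B₅ * infDist z₀ (Gd rho δ F))
    {𝒰 : Ultrafilter ℕ} {q : ℕ → G.J → ℂ} {F : ℕ → ℂ → EN N} {z₀ : ℕ → ℂ} {t : ℕ → Finset ℂ} {s : ℕ → ℂ → ℝ} {y : ℕ → ℂ → EN N} {d : ℕ → ℝ}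
    (hF : ∀ n, G.Cl T (q n) (F n)) (hd : ∀ n, d n = infDist (z₀ n) (Gd rho δ (F n))) (hd1 : ∀ n, 1 ≤ d n) (hdt : Tendsto d (𝒰 : Filter ℕ) atTop)
    (hH : ∀ n, G.Holes Y B₃ B₄ ε K (Real.exp (-(η * d n))) (F n) (z₀ n) (θ * d n) (t n) (s n) (y n)) :
    G.Loc Y B₃ B₄ ε K ε₂ 𝒰 (ball 0 θ₁) (fun n w => F n (cz (z₀ n) (d n) w)) (fun n => ct (z₀ n) (d n) (t n)) (fun n => cs (z₀ n) (d n) (s n))
      (fun n a => y n (cz (z₀ n) (d n) a)) := by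
  have hd0 : ∀ n, 0 < d n := fun n => lt_of_lt_of_le one_pos (hd1 n)
  -- the radii
  have hcs : ∀ n, ∀ a ∈ ct (z₀ n) (d n) (t n), cs (z₀ n) (d n) (s n) a ≤ 1 / d n := by
    intro n a ha
    have h1 := ((hH n).pos _ ((mem_ct (hd0 n)).1 ha)).2
    have h2 : Real.exp (-(η * d n)) ≤ 1 := Real.exp_le_one_iff.2 (neg_nonpos.2 (mul_nonneg hη.le (hd0 n).le))
    exact div_le_div_of_nonneg_right (h1.trans h2) (hd0 n).le
  have hcov : ∀ n w, ‖w‖ ≤ θ → Real.log ‖F n (cz (z₀ n) (d n) w)‖ ≤ B₃ → ∃ a ∈ ct (z₀ n) (d n) (t n), ‖w - a‖ < cs (z₀ n) (d n) (s n) a / 2 := by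
    intro n w hw hl
    have h1 : cz (z₀ n) (d n) w ∈ closedBall (z₀ n) (θ * d n) := by
      rw [mem_closedBall, dist_eq_norm, norm_cz0 (hd0 n), mul_comm]
      exact mul_le_mul_of_nonneg_right hw (hd0 n).le
    obtain ⟨b, hb, hb'⟩ := (hH n).cov _ h1 hl
    refine ⟨(b - z₀ n) / d n, (mem_ct (hd0 n)).2 (by rwa [cz_inv (hd0 n)]), ?_⟩
    have h2 := norm_cz (z₀ := z₀ n) (hd0 n) w ((b - z₀ n) / d n)
    rw [cz_inv (hd0 n)] at h2
    unfold cs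
    rw [cz_inv (hd0 n), div_div, mul_comm, ← div_div, lt_div_iff₀ (hd0 n), mul_comm, ← h2]
    exact hb'
  refine ⟨isOpen_ball, (convex_ball 0 θ₁).isPreconnected, ?_, ?_, ?_, ?_, ?_, ?_, ?_, ?_, ?_⟩
  · intro n
    refine ⟨(hF n).ent.diff.comp ?_, fun z => (hF n).ent.mem _, fun z => (hF n).nm _⟩
    unfold cz
    fun_prop
  · intro n a ha
    exact div_pos ((hH n).pos _ ((mem_ct (hd0 n)).1 ha)).1 (hd0 n)
  · intro n a ha b hb hab
    have h1 := (hH n).sep _ ((mem_ct (hd0 n)).1 ha) _ ((mem_ct (hd0 n)).1 hb) fun h => hab ?_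
    · rw [norm_cz (hd0 n)] at h1
      unfold cs
      rw [max_div_div_right (hd0 n).le, ← mul_div_assoc, div_lt_iff₀ (hd0 n), mul_comm (‖a - b‖)]
      exact h1
    · have h2 := cz_sub (z₀ n) (d n) a b
      rw [h, sub_self] at h2
      have h3 : (d n : ℂ) ≠ 0 := by exact_mod_cast (hd0 n).ne'
      exact sub_eq_zero.1 ((mul_eq_zero.1 h2.symm).resolve_left h3)
  · intro n a ha
    have h1 := (hH n).rim _ ((mem_ct (hd0 n)).1 ha)
    have h2 : (fun w : ℂ => F n (cz (z₀ n) (d n) (a + cs (z₀ n) (d n) (s n) a * w))) =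
        fun w => F n (cz (z₀ n) (d n) a + s n (cz (z₀ n) (d n) a) * w) := by
      funext w
      congr 1
      have h3 : (d n : ℂ) ≠ 0 := by exact_mod_cast (hd0 n).ne'
      unfold cs
      push_cast
      conv_lhs => unfold cz
      conv_rhs => rw [show cz (z₀ n) (d n) a + s n (cz (z₀ n) (d n) a) * w = z₀ n + d n * a + s n (cz (z₀ n) (d n) a) * w from rfl]
      change z₀ n + d n * (a + (s n (cz (z₀ n) (d n) a) : ℂ) / d n * w) = _
      field_simp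
      ring
    rw [h2]
    exact h1
  · intro z hz
    rw [mem_ball_zero_iff] at hz
    refine ⟨θ₁ - ‖z‖, sub_pos.2 hz, Eventually.of_forall fun n w hw hl => hcov n w ?_ hl⟩
    rw [mem_ball, dist_eq_norm] at hw
    have h1 : ‖w‖ ≤ ‖z‖ + ‖w - z‖ := by
      have := norm_add_le z (w - z)
      rwa [add_sub_cancel] at this
    linarith
  · intro z _
    refine ⟨1, one_pos, ?_⟩
    filter_upwards [hdt.eventually_ge_atTop 2] with n hn a ha h1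
    have h2 := hcs n a ha
    have h3 : 1 / d n ≤ 1 / 2 := one_div_le_one_div_of_le two_pos hn
    linarith
  · intro R τ hτ
    filter_upwards [hdt.eventually_ge_atTop (1 / τ)] with n hn a ha _
    refine (hcs n a ha).trans ?_
    rw [div_le_iff₀ hτ] at hn
    rw [div_le_iff₀ (hd0 n), mul_comm]
    exact hn
  · intro z _
    refine ⟨1, one_pos, ?_⟩
    refine squeeze_zero' (Eventually.of_forall fun n => Finset.sum_nonneg fun a _ => Real.sqrt_nonneg _) ?_ (tendsto_sm (B₅ := B₅) hdt hη)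
    filter_upwards [hdt.eventually_ge_atTop Rc] with n hn
    refine (Finset.sum_le_sum_of_subset_of_nonneg (Finset.filter_subset _ _) fun a _ _ => Real.sqrt_nonneg _).trans ?_
    refine sum_ct (hd1 n) (Real.exp_pos _).le ?_ fun a ha => ((hH n).pos a ha).2
    have h1 := HC (q n) (F n) (hF n) (z₀ n) (t n) (s n) (y n) (by rwa [← hd n]) (by rw [← hd n]; exact hH n)
    rwa [← hd n] at h1
  · intro z hz
    rw [mem_ball_zero_iff] at hz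
    obtain ⟨r₀, hr₀, hr₁, hr₂, hr₃⟩ : ∃ r₀ : ℝ, 0 < r₀ ∧ 2 * r₀ ≤ κ ∧ ‖z‖ + r₀ ≤ θ₁ ∧ r₀ ≤ 1 - θ₁ := by
      refine ⟨min (κ / 2) (min (θ₁ - ‖z‖) (1 - θ₁)), lt_min (by positivity) (lt_min (by linarith) (by linarith)), ?_, ?_, ?_⟩
      · have := min_le_left (κ / 2) (min (θ₁ - ‖z‖) (1 - θ₁))
        linarith
      · have := (min_le_right (κ / 2) (min (θ₁ - ‖z‖) (1 - θ₁))).trans (min_le_left _ _)
        linarith
      · exact (min_le_right (κ / 2) (min (θ₁ - ‖z‖) (1 - θ₁))).trans (min_le_right _ _)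
    have hrr : 0 < min (r₀ / 4) (r₀ / (4 * Bv)) := lt_min (by positivity) (by positivity)
    have hr4 : min (r₀ / 4) (r₀ / (4 * Bv)) ≤ r₀ / 4 := min_le_left _ _
    refine ⟨min (r₀ / 4) (r₀ / (4 * Bv)), hrr, ?_⟩
    filter_upwards [hdt.eventually_ge_atTop Rs, hdt.eventually_ge_atTop (Rv / (1 - θ₁)), hdt.eventually_ge_atTop (1 / r₀)] with n hn1 hn2 hn3
    by_cases hc : ∃ a ∈ ct (z₀ n) (d n) (t n), ‖a - z‖ < r₀
    · obtain ⟨a, ha, haz⟩ := hc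
      refine Or.inl ⟨a, ha, fun w hw hoff => ?_⟩
      have h1 : ‖a‖ ≤ θ₁ := by
        have := norm_add_le z (a - z)
        rw [add_sub_cancel] at this
        linarith
      have h2 : ‖w - a‖ ≤ κ := by
        rw [mem_ball, dist_eq_norm] at hw
        have := norm_sub_le_norm_sub_add_norm_sub w z a
        rw [norm_sub_rev z a] at this
        linarith
      refine HS (q n) (F n) (hF n) (z₀ n) (t n) (s n) (y n) (by rwa [← hd n]) (by rw [← hd n]; exact hH n) _ ((mem_ct (hd0 n)).1 ha) ?_ _ ?_ ((off_ct (hd0 n)).1 hoff)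
      · rw [← hd n, norm_cz0 (hd0 n), mul_comm]
        exact mul_le_mul_of_nonneg_right h1 (hd0 n).le
      · rw [← hd n, norm_cz (hd0 n), mul_comm]
        exact mul_le_mul_of_nonneg_right h2 (hd0 n).le
    · push Not at hc
      refine Or.inr ⟨fun a ha => (by linarith [hc a ha] : min (r₀ / 4) (r₀ / (4 * Bv)) ≤ ‖a - z‖), fun w hw => ?_⟩
      rw [mem_ball, dist_eq_norm] at hw
      have hw1 : ‖w‖ ≤ θ₁ := by
        have := norm_add_le z (w - z)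
        rw [add_sub_cancel] at this
        linarith
      have h1 : d n * (1 - θ₁) ≤ infDist (cz (z₀ n) (d n) w) (Gd rho δ (F n)) := by
        have h2 : infDist (z₀ n) (Gd rho δ (F n)) ≤ infDist (cz (z₀ n) (d n) w) (Gd rho δ (F n)) + dist (z₀ n) (cz (z₀ n) (d n) w) := infDist_le_infDist_add_dist
        rw [← hd n, dist_comm, dist_eq_norm, norm_cz0 (hd0 n)] at h2
        nlinarith [hd0 n]
      have h3 : Rv ≤ infDist (cz (z₀ n) (d n) w) (Gd rho δ (F n)) := by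
        refine le_trans ?_ h1
        rwa [div_le_iff₀ (by linarith)] at hn2
      have h4 := HV (q n) (F n) (hF n) (cz (z₀ n) (d n) w) (d n * (r₀ / 4)) h3 (mul_pos (hd0 n) (by positivity))
        (le_trans (mul_le_mul_of_nonneg_left (by linarith) (hd0 n).le) h1) ?_
      · rw [fs_cz (hF n).ent.diff (hd0 n)]
        calc d n * fs (F n (cz (z₀ n) (d n) w)) (deriv (F n) (cz (z₀ n) (d n) w)) ≤ d n * (Bv / (d n * (r₀ / 4))) := mul_le_mul_of_nonneg_left h4 (hd0 n).le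
          _ = 4 * Bv / r₀ := by
            have := (hd0 n).ne'
            field_simp
          _ = 1 / (r₀ / (4 * Bv)) := by rw [one_div_div]
          _ ≤ 1 / min (r₀ / 4) (r₀ / (4 * Bv)) := one_div_le_one_div_of_le hrr (min_le_right _ _)
      · intro ζ hζ
        by_contra hcon
        push Not at hcon
        rw [mem_ball, dist_eq_norm] at hζ
        have h5 : ‖ζ - cz (z₀ n) (d n) w‖ = d n * ‖(ζ - z₀ n) / d n - w‖ := by
          rw [← norm_cz (z₀ := z₀ n) (hd0 n), cz_inv (hd0 n)]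
        rw [h5] at hζ
        have h6 : ‖(ζ - z₀ n) / d n - w‖ < r₀ / 4 := lt_of_mul_lt_mul_left hζ (hd0 n).le
        have h7 : ‖(ζ - z₀ n) / d n - z‖ < r₀ / 2 := by
          have := norm_sub_le_norm_sub_add_norm_sub ((ζ - z₀ n) / d n) w z
          linarith
        have h8 : ‖(ζ - z₀ n) / d n‖ ≤ θ := by
          have := norm_add_le z ((ζ - z₀ n) / d n - z)
          rw [add_sub_cancel] at this
          linarith
        obtain ⟨a, ha, ha'⟩ := hcov n ((ζ - z₀ n) / d n) h8 (by rwa [cz_inv (hd0 n)])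
        have h9 := hcs n a ha
        have h10 : 1 / d n ≤ r₀ := by
          rw [div_le_iff₀ hr₀] at hn3
          rw [div_le_iff₀ (hd0 n), mul_comm]
          exact hn3
        have h11 := hc a ha
        have h12 := norm_sub_le_norm_sub_add_norm_sub a ((ζ - z₀ n) / d n) z
        rw [norm_sub_rev a ((ζ - z₀ n) / d n)] at h12
        linarith

private theorem exists_sep (Y : Finset (EN N)) (h : ∀ y ∈ Y, ∀ y' ∈ Y, pr y = pr y' → y = y') :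
    ∃ e : ℝ, 0 < e ∧ ∀ y ∈ Y, ∀ y' ∈ Y, dist (pr y) (pr y') < 2 * e → y = y' := by
  classical
  have h1 : ∃ e : ℝ, 0 < e ∧ ∀ p ∈ (Y ×ˢ Y).filter (fun p => p.1 ≠ p.2), 2 * e ≤ dist (pr p.1) (pr p.2) := by
    rcases ((Y ×ˢ Y).filter (fun p => p.1 ≠ p.2)).eq_empty_or_nonempty with h0 | h0
    · exact ⟨1, one_pos, fun p hp => absurd hp (by rw [h0]; exact Finset.notMem_empty p)⟩
    · obtain ⟨p, hp, hmin⟩ := Finset.exists_min_image _ (fun p : EN N × EN N => dist (pr p.1) (pr p.2)) h0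
      rw [Finset.mem_filter, Finset.mem_product] at hp
      have h2 : 0 < dist (pr p.1) (pr p.2) := dist_pos.2 fun h3 => hp.2 (h _ hp.1.1 _ hp.1.2 h3)
      refine ⟨dist (pr p.1) (pr p.2) / 2, by positivity, fun p' hp' => ?_⟩
      have := hmin p' hp'
      linarith
  obtain ⟨e, he, h1⟩ := h1
  refine ⟨e, he, fun y hy y' hy' hlt => ?_⟩
  by_contra hne
  exact absurd hlt (not_lt.2 (h1 (y, y') (Finset.mem_filter.2 ⟨Finset.mem_product.2 ⟨hy, hy'⟩, hne⟩)))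

theorem macro_stay (hG : G.Ok) (hM : G.Met T rho M c₀ C δ g) (hQ : G.QN rho) (hB : G.Bdry) {Y : Finset (EN N)} (hY : G.Ends Y) : ∃ ε₁ : ℝ, 0 < ε₁ ∧ ∀ ε₂ : ℝ, 0 < ε₂ → ε₂ ≤ ε₁ → ∃ B₀ : ℝ,
    ∀ B₃ : ℝ, B₀ ≤ B₃ → ∀ η θ θ' : ℝ, 0 < η → 0 < θ' → θ' < θ → θ < 1 → ∃ ε₀ : ℝ, 0 < ε₀ ∧ ∀ ε : ℝ, 0 < ε → ε ≤ ε₀ → ∀ K B₄ : ℝ, 20 ≤ K → ∃ R : ℝ, 0 < R ∧
    ∀ (q : G.J → ℂ) (F : ℂ → EN N), G.Cl T q F → ∀ z₀ t s y, R ≤ infDist z₀ (Gd rho δ F) →
      G.Holes Y B₃ B₄ ε K (Real.exp (-(η * infDist z₀ (Gd rho δ F)))) F z₀ (θ * infDist z₀ (Gd rho δ F)) t s y →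
      ∀ a ∈ t, ‖a - z₀‖ ≤ 1 → ∀ i i' : G.ι, i ≠ i' → G.E i (y a) = 0 → G.E i' (y a) = 0 →
      ∀ z, ‖z - z₀‖ ≤ θ' * infDist z₀ (Gd rho δ F) → Off t s z → dist (pr (F z)) (pr (y a)) < ε₂ := by
  obtain ⟨e1, he1, H1⟩ := stay hG hM hQ hB hY
  obtain ⟨Bs, HS⟩ := speedW hG hM hQ hY
  obtain ⟨e2, he2, H2⟩ := exists_limH hG hY
  obtain ⟨e3, he3, H3⟩ := lim_cross hG hB hY
  obtain ⟨e4, he4, H4⟩ := lim_end hG hB hY
  obtain ⟨e5, he5, H5⟩ := exists_sep Y hY.inj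
  refine ⟨min e1 (min e2 (min e3 (min e4 e5))), lt_min he1 (lt_min he2 (lt_min he3 (lt_min he4 he5))), fun ε₂ h0 h1 => ?_⟩
  rw [le_min_iff, le_min_iff, le_min_iff, le_min_iff] at h1
  obtain ⟨h11, h12, h13, h14, h15⟩ := h1
  obtain ⟨B1, H1⟩ := H1 ε₂ h0 h11
  refine ⟨max B1 Bs, fun B₃ hB₃ η θ θ' hη hθ' hθ hθ1 => ?_⟩
  rw [max_le_iff] at hB₃
  obtain ⟨θ₁, hθa, hθb⟩ : ∃ θ₁, θ' < θ₁ ∧ θ₁ < θ := exists_between hθ
  obtain ⟨ε₀, hε₀, H1⟩ := H1 B₃ hB₃.1 η θ θ₁ hη (hθ'.trans hθa) hθb hθ1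
  obtain ⟨Bv, Rv, hBv, hRv, HV⟩ := HS B₃ hB₃.2
  obtain ⟨B₅, hB₅, HC⟩ := holes_count hG hM hQ (Y := Y) (B₃ := B₃) hη (hθ'.trans hθa) hθb hθ1
  refine ⟨min ε₀ (ε₂ / 2), lt_min hε₀ (by positivity), fun ε he he' K B₄ hK => ?_⟩
  rw [le_min_iff] at he'
  have h2e : 2 * ε ≤ ε₂ := by linarith [he'.2]
  obtain ⟨κ, Rs, hκ, hRs, H1⟩ := H1 ε he he'.1 K B₄ hK
  obtain ⟨Rc, hRc, HC⟩ := HC B₄ ε K hK
  by_contra hcon
  push Not at hcon
  have hseq : ∀ n : ℕ, _ := fun n => hcon (n + 1) (by positivity)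
  choose q F hF z₀ t s y hR hH a ha haz i i' hii hi hi' z hz hzO hzd using hseq
  obtain ⟨d, hd⟩ : ∃ d : ℕ → ℝ, ∀ n, d n = infDist (z₀ n) (Gd rho δ (F n)) := ⟨_, fun _ => rfl⟩
  simp only [← hd] at hR hH hz
  have hd1 : ∀ n, 1 ≤ d n := fun n => le_trans (by linarith [Nat.cast_nonneg (α := ℝ) n]) (hR n)
  have hd0 : ∀ n, 0 < d n := fun n => lt_of_lt_of_le one_pos (hd1 n)
  obtain ⟨𝒰, h𝒰⟩ : ∃ 𝒰 : Ultrafilter ℕ, (𝒰 : Filter ℕ) ≤ atTop := ⟨hyperfilter ℕ, Nat.hyperfilter_le_atTop⟩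
  have hdt : Tendsto d (𝒰 : Filter ℕ) atTop := by
    refine tendsto_atTop_mono (fun n => (hR n)) ?_
    exact (tendsto_natCast_atTop_atTop.atTop_add tendsto_const_nhds).mono_left h𝒰
  have hL := macro_loc (Y := Y) (ε₂ := ε₂) hη (hθ'.trans hθa) hθb hθ1 hκ hBv H1 HV (fun q F hF z₀ t s y h1 h2 => (HC q F hF z₀ t s y h1 h2).1) (𝒰 := 𝒰) hF hd hd1 hdt hH
  obtain ⟨f, hf⟩ := H2 B₃ B₄ ε K ε₂ hK h12 𝒰 _ _ _ _ _ hL
  -- the constant end
  obtain ⟨v, hv, hvy⟩ : ∃ v ∈ (Y : Set (EN N)), ∀ᶠ n in (𝒰 : Filter ℕ), y n (a n) = v :=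
    (Ultrafilter.eventually_exists_mem_iff Y.finite_toSet).1 (Eventually.of_forall fun n => ⟨_, ((hH n).rim _ (ha n)).mem, rfl⟩)
  obtain ⟨j, hj⟩ : ∃ j : G.ι × G.ι, ∀ᶠ n in (𝒰 : Filter ℕ), (i n, i' n) = j :=
    Ultrafilter.eventually_exists_iff.1 (Eventually.of_forall fun n => ⟨_, rfl⟩)
  obtain ⟨n₁, hn₁, hn₁'⟩ := (hvy.and hj).exists
  have hjj : j.1 ≠ j.2 := by
    rw [← hn₁']
    exact hii n₁
  have hEj : G.E j.1 v = 0 := by
    rw [← hn₁', ← hn₁]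
    exact hi n₁
  have hEj' : G.E j.2 v = 0 := by
    rw [← hn₁', ← hn₁]
    exact hi' n₁
  have hv0 : v ≠ 0 := by
    rintro rfl
    exact hG.cone.zero_notMem (hY.mem _ hv).1
  have hmem : ∀ n, (a n - z₀ n) / d n ∈ ct (z₀ n) (d n) (t n) := fun n => (mem_ct (hd0 n)).2 (by rw [cz_inv (hd0 n)]; exact ha n)
  have hend : ∀ r : ℝ, 0 < r → ∀ᶠ n in (𝒰 : Filter ℕ), ∃ b ∈ ct (z₀ n) (d n) (t n), ‖b - 0‖ < r ∧ y n (cz (z₀ n) (d n) b) = v := by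
    intro r hr
    filter_upwards [hvy, hdt.eventually_gt_atTop (1 / r)] with n h1 h2
    refine ⟨(a n - z₀ n) / d n, hmem n, ?_, by rw [cz_inv (hd0 n)]; exact h1⟩
    rw [sub_zero, norm_div, Complex.norm_real, Real.norm_of_nonneg (hd0 n).le, div_lt_iff₀ (hd0 n)]
    rw [div_lt_iff₀ hr] at h2
    exact lt_of_le_of_lt (haz n) (by linarith)
  have h0U : (0 : ℂ) ∈ ball (0 : ℂ) θ₁ := mem_ball_self (hθ'.trans hθa)
  have hbd := lim_bdry hG hK hL hf h0U fun r hr => (hend r hr).mono fun n ⟨b, hb, hb', _⟩ => ⟨b, hb, hb'⟩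
  have hf0 := H4 B₃ B₄ ε K ε₂ hK he h2e h14 𝒰 _ _ _ _ _ hL f hf hbd 0 h0U v j.1 j.2 hv hjj hEj hEj' hend
  have hfc : ∀ w ∈ ball (0 : ℂ) θ₁, f w = pr v := fun w hw =>
    (H3 B₃ B₄ ε K ε₂ hK he h2e h13 𝒰 _ _ _ _ _ hL f hf hbd 0 h0U v j.1 j.2 hv0 hf0 hjj hEj hEj' w hw).trans hf0
  -- the bad points
  obtain ⟨θ₂, hθc, hθd⟩ : ∃ θ₂, θ' < θ₂ ∧ θ₂ < θ₁ := exists_between hθa
  have hLU : closedBall (0 : ℂ) θ₂ ⊆ ball 0 θ₁ := closedBall_subset_ball hθd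
  have hlim := hf.lim _ hLU (isCompact_closedBall 0 θ₂) ε₂ h0
  obtain ⟨σ, hσ, hσ1, hσ2, hσ3⟩ : ∃ σ : ℝ, 0 < σ ∧ 2 * σ ≤ κ ∧ 4 * σ ≤ θ₂ - θ' ∧ σ ≤ 1 := by
    refine ⟨min (κ / 2) (min ((θ₂ - θ') / 4) 1), lt_min (by positivity) (lt_min (by linarith) one_pos), ?_, ?_, ?_⟩
    · have := min_le_left (κ / 2) (min ((θ₂ - θ') / 4) 1)
      linarith
    · have := (min_le_right (κ / 2) (min ((θ₂ - θ') / 4) 1)).trans (min_le_left _ _)
      linarith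
    · exact (min_le_right (κ / 2) (min ((θ₂ - θ') / 4) 1)).trans (min_le_right _ _)
  have hsum : ∀ᶠ n in (𝒰 : Filter ℕ), ∑ b ∈ ct (z₀ n) (d n) (t n), √(cs (z₀ n) (d n) (s n) b) < σ := by
    filter_upwards [hdt.eventually_ge_atTop Rc, (tendsto_sm (B₅ := B₅) hdt hη).eventually_lt_const hσ] with n hn1 hn2
    refine lt_of_le_of_lt (sum_ct (hd1 n) (Real.exp_pos _).le ?_ fun b hb => ((hH n).pos b hb).2) hn2
    have h1 := (HC (q n) (F n) (hF n) (z₀ n) (t n) (s n) (y n) (by rwa [← hd n]) (by rw [← hd n]; exact hH n)).1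
    rwa [← hd n] at h1
  obtain ⟨n, hvn, hRn, hlimn, hsumn⟩ := (hvy.and ((hdt.eventually_ge_atTop Rs).and (hlim.and hsum))).exists
  have hsq : ∀ b ∈ ct (z₀ n) (d n) (t n), √(cs (z₀ n) (d n) (s n) b) < σ := fun b hb =>
    lt_of_le_of_lt (Finset.single_le_sum (f := fun b => √(cs (z₀ n) (d n) (s n) b)) (fun b _ => Real.sqrt_nonneg _) hb) hsumn
  have hHS : ∀ b ∈ ct (z₀ n) (d n) (t n), ‖b‖ ≤ θ₁ → ∀ w, ‖w - b‖ ≤ κ → Off (ct (z₀ n) (d n) (t n)) (cs (z₀ n) (d n) (s n)) w →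
      dist (pr (F n (cz (z₀ n) (d n) w))) (pr (y n (cz (z₀ n) (d n) b))) < ε₂ := by
    intro b hb hb1 w hw hoff
    refine H1 (q n) (F n) (hF n) (z₀ n) (t n) (s n) (y n) (by rwa [← hd n]) (by rw [← hd n]; exact hH n) _ ((mem_ct (hd0 n)).1 hb) ?_ _ ?_ ((off_ct (hd0 n)).1 hoff)
    · rw [← hd n, norm_cz0 (hd0 n), mul_comm]
      exact mul_le_mul_of_nonneg_right hb1 (hd0 n).le
    · rw [← hd n, norm_cz (hd0 n), mul_comm]
      exact mul_le_mul_of_nonneg_right hw (hd0 n).le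
  obtain ⟨w, hw⟩ : ∃ w, w = (z n - z₀ n) / d n := ⟨_, rfl⟩
  have hzw : cz (z₀ n) (d n) w = z n := by rw [hw, cz_inv (hd0 n)]
  have hw1 : ‖w‖ ≤ θ' := by
    rw [hw, norm_div, Complex.norm_real, Real.norm_of_nonneg (hd0 n).le, div_le_iff₀ (hd0 n)]
    exact hz n
  have hwO : Off (ct (z₀ n) (d n) (t n)) (cs (z₀ n) (d n) (s n)) w := (off_ct (hd0 n)).2 (by rw [hzw]; exact hzO n)
  have hbad : ε₂ ≤ dist (pr (F n (cz (z₀ n) (d n) w))) (pr v) := by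
    rw [hzw, ← hvn]
    exact hzd n
  by_cases hfar : Far (ct (z₀ n) (d n) (t n)) (cs (z₀ n) (d n) (s n)) w
  · have h1 := hlimn w (mem_closedBall_zero_iff.2 (hw1.trans hθc.le)) hfar
    rw [hfc w (mem_ball_zero_iff.2 (lt_of_le_of_lt hw1 hθa))] at h1
    exact absurd h1 (not_lt.2 hbad)
  · unfold Far at hfar
    push Not at hfar
    obtain ⟨b, hb, -, hwb⟩ := hfar
    have hwb' : ‖w - b‖ < σ := hwb.trans (hsq b hb)
    have hb1 : ‖b‖ ≤ θ' + σ := by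
      have := norm_sub_norm_le b w
      rw [norm_sub_rev b w] at this
      linarith
    obtain ⟨ρ, hρ0, hρ1, hρ⟩ := exists_rad (ct (z₀ n) (d n) (t n)) (fun k => √(cs (z₀ n) (d n) (s n) k)) b (a := 0) (b := 2 * σ) (fun k _ => Real.sqrt_nonneg _)
      (by rw [sub_zero]; linarith)
    have hζb : ‖b + ρ - b‖ = ρ := by
      rw [add_sub_cancel_left, Complex.norm_real, Real.norm_of_nonneg hρ0.le]
    have hζ : ‖b + ρ‖ ≤ θ₂ := by
      have := norm_add_le b (ρ : ℂ)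
      rw [Complex.norm_real, Real.norm_of_nonneg hρ0.le] at this
      linarith
    have hζF : Far (ct (z₀ n) (d n) (t n)) (cs (z₀ n) (d n) (s n)) (b + ρ) := fun k hk _ => hρ k hk _ hζb
    have hζO : Off (ct (z₀ n) (d n) (t n)) (cs (z₀ n) (d n) (s n)) (b + ρ) := by
      intro k hk
      refine le_trans ?_ (hρ k hk _ hζb)
      have h1 : 0 ≤ cs (z₀ n) (d n) (s n) k := (div_pos ((hH n).pos _ ((mem_ct (hd0 n)).1 hk)).1 (hd0 n)).le
      have h2 := hsq k hk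
      have h3 := Real.sq_sqrt h1
      have h4 := Real.sqrt_nonneg (cs (z₀ n) (d n) (s n) k)
      change cs (z₀ n) (d n) (s n) k ≤ √(cs (z₀ n) (d n) (s n) k)
      nlinarith
    have h1 := hlimn (b + ρ) (mem_closedBall_zero_iff.2 hζ) hζF
    rw [hfc _ (hLU (mem_closedBall_zero_iff.2 hζ))] at h1
    have h2 := hHS b hb (by linarith) (b + ρ) (by rw [hζb]; linarith) hζO
    have h3 : y n (cz (z₀ n) (d n) b) = v := by
      refine H5 _ ((hH n).rim _ ((mem_ct (hd0 n)).1 hb)).mem _ hv ?_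
      have h4 := dist_triangle_left (pr (y n (cz (z₀ n) (d n) b))) (pr v) (pr (F n (cz (z₀ n) (d n) (b + ρ))))
      linarith
    have h4 := hHS b hb (by linarith) w (by linarith) hwO
    rw [h3] at h4
    exact absurd h4 (not_lt.2 hbad)

end Pool.Agent.SR3
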