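import Pool.Agent.SR3.Stay
import Pool.Agent.SR3.PtZ
import Pool.Agent.SR3.ABas
import Pool.Agent.SR3.ALam

/-!
# SR3 Smo: the wells end at crossings

Otherwise `stay` for `a`, `exists_pt` in `closedBall a (κ d)`; the point is in no hole (`Rim.bdd`, `n_le_L`, `L_le_fs`); all
`|q j| ≤ C fs L ^ (m j - 1)` tend to `0`, against `nq q = 1`.
-/

set_option autoImplicit false

open Topology Filter Metric

noncomputable section

namespace Pool.Agent.SR3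

open Pool.Agent.H36.BP (EN fs wd Sub OrdTwo)
open Pool.Agent.H14.PP (IsCone Tan)
open Pool.Agent.SY (Ent)
open Pool.Agent.SDA (EnergyK Near AffOpen Nm nForms)
open Pool.Agent.H62.EF (MN pr)
open Pool.Agent.G3 (LLift)
open Geo (Gd)

variable {N : ℕ} {G : Geo N} {T : Set (EN N)} {rho : EN N → ℝ} {M : ℕ} {c₀ C δ : ℝ} {g : (ℂ → EN N) → ℂ → ℝ}

/-- a positive lower bound on a finite set -/
private theorem Smo_min (Y : Finset (EN N)) (r : EN N → ℝ) (hr : ∀ y, 0 < r y) : ∃ r₀ : ℝ, 0 < r₀ ∧ ∀ y ∈ Y, r₀ ≤ r y := by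
  classical
  induction Y using Finset.induction_on with
  | empty => exact ⟨1, one_pos, fun y hy => absurd hy (Finset.notMem_empty y)⟩
  | insert a s _ ih =>
    obtain ⟨r₀, h0, h1⟩ := ih
    refine ⟨min r₀ (r a), lt_min h0 (hr a), fun y hy => ?_⟩
    rcases Finset.mem_insert.1 hy with h | h
    · rw [h]
      exact min_le_right _ _
    · exact (min_le_left _ _).trans (h1 y h)

/-- an upper bound on a finite set -/
private theorem Smo_max (Y : Finset (EN N)) (b : EN N → ℝ) : ∃ b₀ : ℝ, 0 < b₀ ∧ ∀ y ∈ Y, b y ≤ b₀ := by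
  classical
  induction Y using Finset.induction_on with
  | empty => exact ⟨1, one_pos, fun y hy => absurd hy (Finset.notMem_empty y)⟩
  | insert a s _ ih =>
    obtain ⟨r₀, h0, h1⟩ := ih
    refine ⟨max r₀ (b a), lt_of_lt_of_le h0 (le_max_left _ _), fun y hy => ?_⟩
    rcases Finset.mem_insert.1 hy with h | h
    · rw [h]
      exact le_max_right _ _
    · exact (h1 y h).trans (le_max_left _ _)

/-- the length of small values -/
private theorem Smo_small (hG : G.Ok) (B L₁ : ℝ) : ∃ τ₀ : ℝ, 0 < τ₀ ∧ ∀ τ : ℝ, 0 ≤ τ → τ < τ₀ →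
    ∑ j : G.J, (B * τ * L₁ ^ (G.m j - 1)) ^ ((G.m j : ℝ)⁻¹) < 1 := by
  have hc : ContinuousAt (fun τ : ℝ => ∑ j : G.J, (B * τ * L₁ ^ (G.m j - 1)) ^ ((G.m j : ℝ)⁻¹)) 0 := by
    refine tendsto_finset_sum _ fun j _ => ?_
    have h1 : ContinuousAt (fun τ : ℝ => B * τ * L₁ ^ (G.m j - 1)) 0 := by fun_prop
    exact h1.rpow_const (Or.inr (inv_nonneg.2 (Nat.cast_nonneg _)))
  have h0 : ∑ j : G.J, (B * 0 * L₁ ^ (G.m j - 1)) ^ ((G.m j : ℝ)⁻¹) = 0 := by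
    refine Finset.sum_eq_zero fun j _ => ?_
    have hm : (G.m j : ℝ) ≠ 0 := by
      have := hG.one_m j
      exact_mod_cast (by omega : G.m j ≠ 0)
    rw [mul_zero, zero_mul, Real.zero_rpow (inv_ne_zero hm)]
  have h1 : ∀ᶠ τ : ℝ in 𝓝 0, ∑ j : G.J, (B * τ * L₁ ^ (G.m j - 1)) ^ ((G.m j : ℝ)⁻¹) < 1 := by
    refine hc.eventually_lt continuousAt_const ?_
    rw [h0]
    exact one_pos
  obtain ⟨τ₀, h2, h3⟩ := Metric.eventually_nhds_iff.1 h1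
  refine ⟨τ₀, h2, fun τ ha hb => h3 ?_⟩
  rw [Real.dist_eq, sub_zero, abs_of_nonneg ha]
  exact hb

theorem smooth_end (hG : G.Ok) (hM : G.Met T rho M c₀ C δ g) (hQ : G.QN rho) (hB : G.Bdry) {Y : Finset (EN N)} (hY : G.Ends Y)
    (hn : ∀ y ∈ Y, (∀ i i' : G.ι, i ≠ i' → G.E i y = 0 → G.E i' y ≠ 0) → ∃ (r B : ℝ), 0 < r ∧ ∀ x ∈ G.K, dist (pr x) (pr y) < r → ∀ v, Tan G.X x v →
      ∀ j, ‖G.w j x v‖ ≤ B * fs x v * G.L x v ^ (G.m j - 1)) : ∃ B₀ : ℝ, ∀ B₃ : ℝ, B₀ ≤ B₃ → ∀ η θ θ' : ℝ, 0 < η → 0 < θ' → θ' < θ → θ < 1 →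
    ∃ ε₀ : ℝ, 0 < ε₀ ∧ ∀ ε : ℝ, 0 < ε → ε ≤ ε₀ → ∀ K B₄ : ℝ, 20 ≤ K → ∃ R : ℝ, 0 < R ∧
    ∀ (q : G.J → ℂ) (F : ℂ → EN N), G.Cl T q F → ∀ z₀ t s y, R ≤ infDist z₀ (Gd rho δ F) →
      G.Holes Y B₃ B₄ ε K (Real.exp (-(η * infDist z₀ (Gd rho δ F)))) F z₀ (θ * infDist z₀ (Gd rho δ F)) t s y →
      ∀ a ∈ t, ‖a - z₀‖ ≤ θ' * infDist z₀ (Gd rho δ F) → ∃ i i' : G.ι, i ≠ i' ∧ G.E i (y a) = 0 ∧ G.E i' (y a) = 0 := by
  -- the constants for the ends at smooth points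
  have hn' : ∀ y : EN N, ∃ r B : ℝ, 0 < r ∧ (y ∈ Y → (∀ i i' : G.ι, i ≠ i' → G.E i y = 0 → G.E i' y ≠ 0) → ∀ x ∈ G.K, dist (pr x) (pr y) < r →
      ∀ v, Tan G.X x v → ∀ j, ‖G.w j x v‖ ≤ B * fs x v * G.L x v ^ (G.m j - 1)) := by
    intro y
    by_cases h1 : y ∈ Y
    · by_cases h2 : ∀ i i' : G.ι, i ≠ i' → G.E i y = 0 → G.E i' y ≠ 0
      · obtain ⟨r, B, hr, h⟩ := hn y h1 h2
        exact ⟨r, B, hr, fun _ _ => h⟩
      · exact ⟨1, 0, one_pos, fun _ h => absurd h h2⟩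
    · exact ⟨1, 0, one_pos, fun h => absurd h h1⟩
  choose ry By hry hn1 using hn'
  obtain ⟨r₀, hr₀, hrle⟩ := Smo_min Y ry hry
  obtain ⟨Bm, hBm, hBle⟩ := Smo_max Y By
  obtain ⟨ε₁, hε₁, hst⟩ := stay hG hM hQ hB hY
  obtain ⟨B₀, hB₀⟩ := hst (min ε₁ r₀) (lt_min hε₁ hr₀) (min_le_left _ _)
  refine ⟨B₀, fun B₃ hB₃ η θ θ' hη hθ' hθθ hθ1 => ?_⟩
  obtain ⟨ε₀, hε₀, hst2⟩ := hB₀ B₃ hB₃ η θ θ' hη hθ' hθθ hθ1
  refine ⟨ε₀, hε₀, fun ε hε hεε K B₄ hK => ?_⟩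
  obtain ⟨κ, R₁, hκ, hR₁, hst3⟩ := hst2 ε hε hεε K B₄ hK
  obtain ⟨Bp, hBp, hpt⟩ := exists_pt hG hM
  obtain ⟨B1, hB1, hn2⟩ := n_le_L hG
  obtain ⟨A, hA, hL⟩ := L_le_fs hG (Real.exp B₄)
  have hθ2 : 0 < 1 - θ' := by linarith
  obtain ⟨κ', hκ'⟩ : ∃ κ' : ℝ, κ' = min κ (1 - θ') := ⟨_, rfl⟩
  have hκ'0 : 0 < κ' := by
    rw [hκ']
    exact lt_min hκ hθ2
  have hκ'1 : κ' ≤ κ := by
    rw [hκ']
    exact min_le_left _ _
  have hκ'2 : κ' ≤ 1 - θ' := by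
    rw [hκ']
    exact min_le_right _ _
  obtain ⟨B', hB'⟩ : ∃ B' : ℝ, B' = Bp * (2 / κ') ^ 2 := ⟨_, rfl⟩
  have hB'0 : 0 < B' := by
    rw [hB']
    positivity
  obtain ⟨L₁, hL₁⟩ : ∃ L₁ : ℝ, L₁ = √B' + (Fintype.card G.ι : ℝ) * √B' := ⟨_, rfl⟩
  obtain ⟨τ₀, hτ₀, hsm⟩ := Smo_small hG Bm L₁
  obtain ⟨τ₁, hτ₁⟩ : ∃ τ₁ : ℝ, τ₁ = min τ₀ (1 / (2 * (B1 * A))) := ⟨_, rfl⟩
  have hτ₁0 : 0 < τ₁ := by
    rw [hτ₁]
    exact lt_min hτ₀ (by positivity)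
  refine ⟨max R₁ ((B' / τ₁ ^ 2 + 2) / (1 - θ')), lt_of_lt_of_le hR₁ (le_max_left _ _), ?_⟩
  intro q F hF z₀ t s y hR hH a ha haz
  by_contra hcon
  obtain ⟨d, hd⟩ : ∃ d : ℝ, d = infDist z₀ (Gd rho δ F) := ⟨_, rfl⟩
  obtain ⟨e, he⟩ : ∃ e : ℝ, e = infDist a (Gd rho δ F) := ⟨_, rfl⟩
  have hstay := hst3 q F hF z₀ t s y ((le_max_left _ _).trans hR) hH a ha haz
  have hRd : (B' / τ₁ ^ 2 + 2) / (1 - θ') ≤ d := by
    rw [hd]
    exact (le_max_right _ _).trans hR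
  have hRd2 : B' / τ₁ ^ 2 + 2 ≤ (1 - θ') * d := by
    rw [div_le_iff₀ hθ2] at hRd
    linarith
  have hq0 : 0 < B' / τ₁ ^ 2 := by positivity
  have hd0 : 0 < d := by
    by_contra h
    have h1 : (1 - θ') * d ≤ 0 := mul_nonpos_of_nonneg_of_nonpos hθ2.le (not_lt.1 h)
    linarith
  rw [← hd] at haz hstay
  -- the distance at the centre of the hole
  have he1 : (1 - θ') * d ≤ e := by
    have h1 : infDist z₀ (Gd rho δ F) ≤ infDist a (Gd rho δ F) + dist z₀ a := infDist_le_infDist_add_dist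
    rw [← hd, ← he, dist_comm, dist_eq_norm] at h1
    linarith
  have he2 : e ≤ 2 * d := by
    have h1 : infDist a (Gd rho δ F) ≤ infDist z₀ (Gd rho δ F) + dist a z₀ := infDist_le_infDist_add_dist
    rw [← hd, ← he, dist_eq_norm] at h1
    have h2 : θ' * d ≤ 1 * d := mul_le_mul_of_nonneg_right (by linarith) hd0.le
    linarith
  have he3 : 1 ≤ e := by linarith
  have hr : κ' * d ≤ e := (mul_le_mul_of_nonneg_right hκ'2 hd0.le).trans he1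
  obtain ⟨z', hz1, hz2⟩ := hpt q F hF a (κ' * d) (by rw [← he]; exact he3) (by positivity) (by rw [← he]; exact hr)
  rw [← he] at hz2
  have hKz : F z' ∈ G.K := hF.ent.mem z'
  have htan : Tan G.X (F z') (deriv F z') := tan hG hF.ent.diff hF.ent.mem z'
  have hfs0 : 0 ≤ fs (F z') (deriv F z') := Pool.Agent.H36.BP.fs_nonneg _ _
  have hq1 : (e / (κ' * d)) ^ 2 ≤ (2 / κ') ^ 2 := by
    have h1 : e / (κ' * d) ≤ 2 / κ' := by
      rw [div_le_div_iff₀ (by positivity) hκ'0]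
      nlinarith
    exact pow_le_pow_left₀ (by positivity) h1 2
  have hsum : ∑ i, ‖G.ell i (F z') (deriv F z')‖ ^ 2 + e * fs (F z') (deriv F z') ^ 2 ≤ B' := by
    refine hz2.trans ?_
    rw [hB']
    exact mul_le_mul_of_nonneg_left hq1 hBp.le
  have hs0 : 0 ≤ ∑ i, ‖G.ell i (F z') (deriv F z')‖ ^ 2 := Finset.sum_nonneg fun i _ => by positivity
  have hfs1 : fs (F z') (deriv F z') ^ 2 ≤ B' / e := by
    rw [le_div_iff₀ (by linarith)]
    linarith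
  have hfs2 : fs (F z') (deriv F z') ≤ √B' := by
    refine Real.le_sqrt_of_sq_le (hfs1.trans ?_)
    exact div_le_self hB'0.le he3
  have hell : ∀ i, ‖G.ell i (F z') (deriv F z')‖ ≤ √B' := by
    intro i
    refine Real.le_sqrt_of_sq_le ?_
    have h1 : ‖G.ell i (F z') (deriv F z')‖ ^ 2 ≤ ∑ i, ‖G.ell i (F z') (deriv F z')‖ ^ 2 :=
      Finset.single_le_sum (f := fun i => ‖G.ell i (F z') (deriv F z')‖ ^ 2) (fun _ _ => by positivity) (Finset.mem_univ i)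
    have h2 : 0 ≤ e * fs (F z') (deriv F z') ^ 2 := by positivity
    linarith
  have hL1 : G.L (F z') (deriv F z') ≤ L₁ := by
    unfold Geo.L
    rw [hL₁]
    have h1 : ∑ i, ‖G.ell i (F z') (deriv F z')‖ ≤ ∑ _i : G.ι, √B' := Finset.sum_le_sum fun i _ => hell i
    rw [Finset.sum_const, Finset.card_univ, nsmul_eq_mul] at h1
    linarith
  have hfs3 : fs (F z') (deriv F z') < τ₁ := by
    have h1 : B' / e < τ₁ ^ 2 := by
      rw [div_lt_iff₀ (by linarith)]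
      have h2 : B' / τ₁ ^ 2 < e := by linarith
      rw [div_lt_iff₀ (by positivity)] at h2
      linarith
    exact lt_of_pow_lt_pow_left₀ 2 hτ₁0.le (lt_of_le_of_lt hfs1 h1)
  by_cases hoff : Off t s z'
  · -- outside the holes
    have h1 := hstay z' (hz1.trans (mul_le_mul_of_nonneg_right hκ'1 hd0.le)) hoff
    have hyY : y a ∈ Y := (hH.rim a ha).mem
    have hsmooth : ∀ i i' : G.ι, i ≠ i' → G.E i (y a) = 0 → G.E i' (y a) ≠ 0 := fun i i' h2 h3 h4 => hcon ⟨i, i', h2, h3, h4⟩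
    have h2 : dist (pr (F z')) (pr (y a)) < ry (y a) := lt_of_lt_of_le h1 ((min_le_right _ _).trans (hrle _ hyY))
    have h3 := hn1 (y a) hyY hsmooth (F z') hKz h2 (deriv F z') htan
    have h4 : G.nq q ≤ ∑ j : G.J, (Bm * fs (F z') (deriv F z') * L₁ ^ (G.m j - 1)) ^ ((G.m j : ℝ)⁻¹) := by
      unfold Geo.nq
      refine Finset.sum_le_sum fun j _ => Real.rpow_le_rpow (norm_nonneg _) ?_ (inv_nonneg.2 (Nat.cast_nonneg _))
      rw [← hF.val j z']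
      refine (h3 j).trans ?_
      have hL0 := L_nonneg (G := G) (F z') (deriv F z')
      have h5 : G.L (F z') (deriv F z') ^ (G.m j - 1) ≤ L₁ ^ (G.m j - 1) := pow_le_pow_left₀ hL0 hL1 _
      have h6 : By (y a) * fs (F z') (deriv F z') ≤ Bm * fs (F z') (deriv F z') := mul_le_mul_of_nonneg_right (hBle _ hyY) hfs0
      exact mul_le_mul h6 h5 (pow_nonneg hL0 _) (mul_nonneg hBm.le hfs0)
    have h7 := hsm (fs (F z') (deriv F z')) hfs0 (lt_of_lt_of_le hfs3 (by rw [hτ₁]; exact min_le_left _ _))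
    rw [hF.one] at h4
    linarith
  · -- in a hole
    have h1 : ∃ b ∈ t, ‖z' - b‖ < s b := by
      unfold Off at hoff
      push Not at hoff
      exact hoff
    obtain ⟨b, hb, hzb⟩ := h1
    have hsb : 0 < s b := (hH.pos b hb).1
    have h2 := (hH.rim b hb).bdd ((z' - b) / (s b : ℂ)) (by
      rw [norm_div, Complex.norm_real, Real.norm_of_nonneg hsb.le]
      have h3 : ‖z' - b‖ / s b ≤ 1 := (div_le_one hsb).2 hzb.le
      linarith)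
    have h3 : b + (s b : ℂ) * ((z' - b) / (s b : ℂ)) = z' := by
      have h4 : (s b : ℂ) ≠ 0 := by exact_mod_cast hsb.ne'
      rw [mul_div_cancel₀ _ h4]
      ring
    simp only [h3] at h2
    have h4 : ‖F z'‖ ≤ Real.exp B₄ := by
      have h5 : 0 < ‖F z'‖ := norm_pos_iff.2 (ne0 hG hKz)
      exact (Real.log_le_iff_le_exp h5).1 h2
    have h5 := hL (F z') hKz (hF.nm z') h4 (deriv F z')
    have h6 := hn2 (F z') hKz (deriv F z') htan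
    rw [cl_n hF z'] at h6
    have h7 : fs (F z') (deriv F z') < 1 / (2 * (B1 * A)) := lt_of_lt_of_le hfs3 (by rw [hτ₁]; exact min_le_right _ _)
    rw [lt_div_iff₀ (by positivity)] at h7
    have h8 : B1 * G.L (F z') (deriv F z') ≤ B1 * (A * fs (F z') (deriv F z')) := mul_le_mul_of_nonneg_left h5 hB1.le
    have h9 : B1 * (A * fs (F z') (deriv F z')) = fs (F z') (deriv F z') * (2 * (B1 * A)) / 2 := by ring
    linarith

end Pool.Agent.SR3
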