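import Pool.Agent.SR3.AGrw
import Pool.Agent.SR3.LRad
import Pool.Agent.SR3.LHlA
import Pool.Agent.SR3.HolE
import Pool.Agent.SR3.Cnt
import Pool.Agent.SR3.Mac
import Pool.Agent.SR3.Smo
import Pool.Agent.SR3.HolP

/-!
# SR3 LHlB: the holes near a well, in the neighbourhood of a crossing

`hl_ex`: a point where the lift is bounded, far from the good points, lies in a hole; its end is a crossing, the curve stays near this crossing in the disc of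
radius `(1 - τ) d`, outside the holes.
-/

set_option autoImplicit false

open Topology Filter Metric

noncomputable section

namespace Pool.Agent.SR3

open Pool.Agent.H36.BP (EN fs wd Sub OrdTwo)
open Pool.Agent.H14.PP (IsCone Tan)
open Pool.Agent.SY (Ent)
open Pool.Agent.H62.EF (MN pr)
open Geo (Gd)

variable {N : ℕ} {G : Geo N} {T : Set (EN N)} {rho : EN N → ℝ} {M' : ℕ} {c₀ C₀ δ : ℝ} {g : (ℂ → EN N) → ℂ → ℝ}

namespace LHlB

theorem lower_fin {α : Type*} (S : Finset α) {f : α → ℝ} (hf : ∀ x ∈ S, 0 < f x) : ∃ r : ℝ, 0 < r ∧ ∀ x ∈ S, r ≤ f x := by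
  rcases S.eq_empty_or_nonempty with h | h
  · exact ⟨1, one_pos, fun x hx => by rw [h] at hx; simp at hx⟩
  · obtain ⟨p, hp, hmin⟩ := Finset.exists_min_image S f h
    exact ⟨f p, hf p hp, hmin⟩

theorem sep_fin (Y : Finset (EN N)) : ∃ σ : ℝ, 0 < σ ∧ ∀ y ∈ Y, ∀ y' ∈ Y, dist (pr y) (pr y') < σ → pr y = pr y' := by
  classical
  obtain ⟨σ, hσ, h⟩ := lower_fin ((Y ×ˢ Y).filter (fun p => pr p.1 ≠ pr p.2)) (f := fun p : EN N × EN N => dist (pr p.1) (pr p.2))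
    fun p hp => dist_pos.2 (Finset.mem_filter.1 hp).2
  refine ⟨σ, hσ, fun y hy y' hy' hd => ?_⟩
  by_contra hne
  exact absurd hd (not_lt.2 (h (y, y') (Finset.mem_filter.2 ⟨Finset.mk_mem_product hy hy', hne⟩)))

theorem locEq_mono {y : EN N} {i : G.ι} {l : Fin (G.M + 1)} {r r' : ℝ} (h : G.LocEq r y i l) (hr : r' ≤ r) : G.LocEq r' y i l := by
  obtain ⟨c, hc, h⟩ := h
  exact ⟨c, hc, fun x hx hd => h x hx (hd.trans_le hr)⟩

/-- the holes near `z` have the end of the hole `a` -/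
theorem same_end {Y : Finset (EN N)} (hY : G.Ends Y) {B₃ B₄ ε ε₂ S R R' : ℝ} {F : ℂ → EN N} {z : ℂ} {t : Finset ℂ} {s : ℂ → ℝ} {yy : ℂ → EN N}
    (hH : G.Holes Y B₃ B₄ ε 20 S F z R t s yy) (hS : S ≤ R') {a : ℂ} (ha : a ∈ t)
    (hsep : ∀ y ∈ Y, ∀ y' ∈ Y, dist (pr y) (pr y') < ε + ε₂ → pr y = pr y')
    (hst : ∀ w, ‖w - z‖ ≤ R' → Off t s w → dist (pr (F w)) (pr (yy a)) < ε₂) {b : ℂ} (hb : b ∈ t) (hbz : ‖b - z‖ ≤ R') : yy b = yy a := by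
  obtain ⟨hs0, hsS⟩ := hH.pos b hb
  -- a point on the rim
  obtain ⟨u, hu, hur⟩ : ∃ u : ℂ, ‖u‖ = 1 ∧ ‖b + s b * u - z‖ ≤ R' := by
    by_cases h0 : b = z
    · refine ⟨1, norm_one, ?_⟩
      rw [h0, mul_one, add_sub_cancel_left, Complex.norm_real, Real.norm_of_nonneg (by rw [← h0]; exact hs0.le), ← h0]
      exact hsS.trans hS
    · have h1 : 0 < ‖b - z‖ := norm_pos_iff.2 (sub_ne_zero.2 h0)
      have h1c : ((‖b - z‖ : ℝ) : ℂ) ≠ 0 := by exact_mod_cast h1.ne'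
      refine ⟨-((b - z) / (‖b - z‖ : ℝ)), ?_, ?_⟩
      · rw [norm_neg, norm_div, Complex.norm_real, norm_norm, div_self h1.ne']
      · have h2 : b + s b * -((b - z) / (‖b - z‖ : ℝ)) - z = ((1 - s b / ‖b - z‖ : ℝ) : ℂ) * (b - z) := by
          push_cast
          field_simp
          ring
        rw [h2, norm_mul, Complex.norm_real, Real.norm_eq_abs]
        have h3 : |1 - s b / ‖b - z‖| * ‖b - z‖ = |‖b - z‖ - s b| := by
          rw [← abs_of_pos h1, ← abs_mul, abs_of_pos h1]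
          congr 1
          field_simp
        rw [h3, abs_le]
        constructor
        · linarith [hsS.trans hS]
        · linarith
  have hoff : Off t s (b + s b * u) := by
    intro c hc
    have h4 : ‖b + s b * u - b‖ = s b := by
      rw [add_sub_cancel_left, norm_mul, hu, mul_one, Complex.norm_real, Real.norm_of_nonneg hs0.le]
    by_cases h : c = b
    · rw [h, h4]
    · have h5 := hH.sep b hb c hc (Ne.symm h)
      have h6 : ‖b - c‖ ≤ ‖b + s b * u - c‖ + ‖b + s b * u - b‖ := by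
        rw [show b - c = (b + s b * u - c) - (b + s b * u - b) by ring]
        exact norm_sub_le _ _
      rw [h4] at h6
      have h7 := le_max_left (s b) (s c)
      have h8 := le_max_right (s b) (s c)
      linarith
  have h1 := hst _ hur hoff
  have h2 := ((hH.rim b hb).ann u (by rw [hu]; norm_num) (by rw [hu]; norm_num)).2
  refine hY.inj _ (hH.rim b hb).mem _ (hH.rim a ha).mem (hsep _ (hH.rim b hb).mem _ (hH.rim a ha).mem ?_)
  calc dist (pr (yy b)) (pr (yy a)) ≤ dist (pr (F (b + s b * u))) (pr (yy b)) + dist (pr (F (b + s b * u))) (pr (yy a)) := dist_triangle_left _ _ _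
    _ < ε + ε₂ := add_lt_add h2 h1

end LHlB

open LHlB

theorem hl_ex (hG : G.Ok) (hM : G.Met T rho M' c₀ C₀ δ g) (hQ : G.QN rho) (hB : G.Bdry) {Y : Finset (EN N)} (hY : G.Ends Y)
    (hn : G.Smooth Y) {l : EN N → (Fin 2 → G.ι) → Fin 2 → Fin (G.M + 1)} {r : EN N → (Fin 2 → G.ι) → ℝ} (hr : ∀ y i, 0 < r y i)
    (hl : ∀ y ∈ Y, ∀ i : Fin 2 → G.ι, i 0 ≠ i 1 → (∀ a, G.E (i a) y = 0) → ∀ a, G.LocEq (r y i) y (i a) (l y i a)) (B₀ : ℝ) {τ : ℝ} (hτ : 0 < τ) :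
    ∃ B η : ℝ, 1 ≤ B ∧ 0 < η ∧ ∀ K : ℝ, ∃ R : ℝ, ∀ (q : G.J → ℂ) (F : ℂ → EN N), G.Cl T q F → ∀ z, R ≤ infDist z (Gd rho δ F) → Real.log ‖F z‖ ≤ B₀ →
      ∃ y ∈ Y, ∃ i : Fin 2 → G.ι, i 0 ≠ i 1 ∧ (∀ a, G.E (i a) y = 0) ∧ ∃ (κ : Type) (_ : Fintype κ) (ζ : κ → ℂ) (s : κ → ℝ) (M : κ → Fin 2 → ℕ) (z₀ : ℂ) (ρ : ℝ),
        G.Hl y i (l y i) (r y i) F ζ s M z₀ ρ B η K ∧ (∃ k, ζ k = z₀) ∧ ‖z₀ - z‖ ≤ 1 ∧ (1 - τ) * infDist z (Gd rho δ F) ≤ ρ ∧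
        ρ ≤ infDist z (Gd rho δ F) := by
  classical
  -- the constants
  obtain ⟨σ, hσ, hsepσ⟩ := sep_fin Y
  obtain ⟨r₀, hr₀, hr₀'⟩ := lower_fin (Y ×ˢ (Finset.univ : Finset (Fin 2 → G.ι))) (f := fun p => r p.1 p.2) fun p _ => hr p.1 p.2
  obtain ⟨εm, hεm, hm⟩ := macro_stay hG hM hQ hB hY
  obtain ⟨ε₂, hε₂⟩ : ∃ ε₂ : ℝ, ε₂ = min εm (min r₀ (σ / 2)) := ⟨_, rfl⟩
  have hε₂0 : 0 < ε₂ := by rw [hε₂]; exact lt_min hεm (lt_min hr₀ (half_pos hσ))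
  have hε₂m : ε₂ ≤ εm := by rw [hε₂]; exact min_le_left _ _
  have hε₂r : ε₂ ≤ r₀ := by rw [hε₂]; exact (min_le_right _ _).trans (min_le_left _ _)
  have hε₂σ : ε₂ ≤ σ / 2 := by rw [hε₂]; exact (min_le_right _ _).trans (min_le_right _ _)
  obtain ⟨Bm, hm⟩ := hm ε₂ hε₂0 hε₂m
  obtain ⟨Bs, hs⟩ := smooth_end hG hM hQ hB hY hn
  obtain ⟨B₃, hB₃⟩ : ∃ B₃ : ℝ, B₃ = max B₀ (max Bm Bs) := ⟨_, rfl⟩
  have hB₃0 : B₀ ≤ B₃ := by rw [hB₃]; exact le_max_left _ _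
  have hB₃m : Bm ≤ B₃ := by rw [hB₃]; exact (le_max_left _ _).trans (le_max_right _ _)
  have hB₃s : Bs ≤ B₃ := by rw [hB₃]; exact (le_max_right _ _).trans (le_max_right _ _)
  obtain ⟨τ₁, hτ₁⟩ : ∃ τ₁ : ℝ, τ₁ = min (τ / 2) (1 / 8) := ⟨_, rfl⟩
  have hτ0 : 0 < τ₁ := by rw [hτ₁]; exact lt_min (half_pos hτ) (by norm_num)
  have hτ8 : τ₁ ≤ 1 / 8 := by rw [hτ₁]; exact min_le_right _ _
  have hττ : τ₁ ≤ τ / 2 := by rw [hτ₁]; exact min_le_left _ _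
  have ht0 : (0 : ℝ) < 1 - τ₁ / 2 := by linarith
  have ht1 : 1 - τ₁ / 2 < 1 - τ₁ / 4 := by linarith
  have ht2 : 1 - τ₁ / 4 < 1 := by linarith
  obtain ⟨εh, hεh, hh⟩ := exists_holes hG hM hQ hY
  obtain ⟨η, hη, hh⟩ := hh B₃ (1 - τ₁ / 4) (ht0.trans ht1) ht2
  obtain ⟨εm', hεm', hm⟩ := hm B₃ hB₃m η (1 - τ₁ / 4) (1 - τ₁ / 2) hη ht0 ht1 ht2
  obtain ⟨εs, hεs, hs⟩ := hs B₃ hB₃s η (1 - τ₁ / 4) (1 - τ₁ / 2) hη ht0 ht1 ht2
  obtain ⟨εp, hεp, hp⟩ := holes_par hG hM hQ hB hY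
  obtain ⟨ε, hε⟩ : ∃ ε : ℝ, ε = min εh (min εm' (min εs (min εp (min r₀ (σ / 2))))) := ⟨_, rfl⟩
  have hε0 : 0 < ε := by rw [hε]; exact lt_min hεh (lt_min hεm' (lt_min hεs (lt_min hεp (lt_min hr₀ (half_pos hσ)))))
  have hεh' : ε ≤ εh := by rw [hε]; exact min_le_left _ _
  have hεm'' : ε ≤ εm' := by rw [hε]; exact (min_le_right _ _).trans (min_le_left _ _)
  have hεs' : ε ≤ εs := by rw [hε]; exact (min_le_right _ _).trans ((min_le_right _ _).trans (min_le_left _ _))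
  have hεp' : ε ≤ εp := by rw [hε]; exact (min_le_right _ _).trans ((min_le_right _ _).trans ((min_le_right _ _).trans (min_le_left _ _)))
  have hεr : ε ≤ r₀ := by
    rw [hε]; exact (min_le_right _ _).trans ((min_le_right _ _).trans ((min_le_right _ _).trans ((min_le_right _ _).trans (min_le_left _ _))))
  have hεσ : ε ≤ σ / 2 := by
    rw [hε]; exact (min_le_right _ _).trans ((min_le_right _ _).trans ((min_le_right _ _).trans ((min_le_right _ _).trans (min_le_right _ _))))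
  obtain ⟨B₄, R₁, hR₁, hh⟩ := hh ε hε0 hεh' 20 (by norm_num)
  obtain ⟨R₂, hR₂, hm⟩ := hm ε hε0 hεm'' 20 B₄ le_rfl
  obtain ⟨R₃, hR₃, hs⟩ := hs ε hε0 hεs' 20 B₄ le_rfl
  obtain ⟨B₅, hB₅, hc⟩ := holes_count (Y := Y) (B₃ := B₃) hG hM hQ hη ht0 ht1 ht2
  obtain ⟨R₄, hR₄, hc⟩ := hc B₄ ε 20 le_rfl
  obtain ⟨R₅, hrad⟩ := hl_rad (B := B₅) hη hτ0
  obtain ⟨Bg, hBg, hg⟩ := growth hG hM
  obtain ⟨B, hBdef⟩ : ∃ B : ℝ, B = max 1 (max B₄ (max (2 * |B₅|) (2 * |3 * Bg|))) := ⟨_, rfl⟩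
  refine ⟨B, η, by rw [hBdef]; exact le_max_left _ _, hη, fun K => ?_⟩
  obtain ⟨R₆, hR₆, hp⟩ := hp B₃ η (1 - τ₁ / 4) (1 - τ₁ / 2) hη ht0 ht1 ht2 ε hε0 hεp' 20 B₄ K le_rfl
  refine ⟨max R₁ (max R₂ (max R₃ (max R₄ (max R₅ (max R₆ (8 / τ₁)))))), fun q F hF z hz hzB => ?_⟩
  obtain ⟨d, hd⟩ : ∃ d : ℝ, d = infDist z (Gd rho δ F) := ⟨_, rfl⟩
  have hd1 : R₁ ≤ infDist z (Gd rho δ F) := (le_max_left _ _).trans hz
  have hz2 := (le_max_right _ _).trans hz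
  have hd2 : R₂ ≤ infDist z (Gd rho δ F) := (le_max_left _ _).trans hz2
  have hz3 := (le_max_right _ _).trans hz2
  have hd3 : R₃ ≤ infDist z (Gd rho δ F) := (le_max_left _ _).trans hz3
  have hz4 := (le_max_right _ _).trans hz3
  have hd4 : R₄ ≤ infDist z (Gd rho δ F) := (le_max_left _ _).trans hz4
  have hz5 := (le_max_right _ _).trans hz4
  have hd5 : R₅ ≤ infDist z (Gd rho δ F) := (le_max_left _ _).trans hz5
  have hz6 := (le_max_right _ _).trans hz5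
  have hd6 : R₆ ≤ infDist z (Gd rho δ F) := (le_max_left _ _).trans hz6
  have hd7 : 8 / τ₁ ≤ infDist z (Gd rho δ F) := (le_max_right _ _).trans hz6
  obtain ⟨t, s, yy, hH⟩ := hh q F hF z hd1
  have hm := hm q F hF z t s yy hd2 hH
  have hs := hs q F hF z t s yy hd3 hH
  have hc := hc q F hF z t s yy hd4 hH
  have hp := hp q F hF z t s yy hd6 hH
  rw [← hd] at hd7 hH hm hs hc hp hd5 ⊢
  have hd64 : 64 ≤ d := by
    have h1 : (64 : ℝ) ≤ 8 / τ₁ := by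
      rw [le_div_iff₀ hτ0]
      linarith
    exact h1.trans hd7
  have hd0 : 0 < d := by linarith
  have hexp : Real.exp (-(η * d)) ≤ 1 := by
    rw [Real.exp_le_one_iff]
    have : 0 ≤ η * d := by positivity
    linarith
  have hdt : 1 ≤ (1 - τ₁ / 2) * d := by nlinarith
  -- the hole of the well
  obtain ⟨a, ha, haz⟩ := hH.cov z (mem_closedBall_self (by nlinarith)) (hzB.trans hB₃0)
  have hsa := hH.pos a ha
  have haz' : ‖a - z‖ ≤ 1 := by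
    rw [norm_sub_rev]
    have := hsa.2.trans hexp
    linarith
  obtain ⟨i₀, i₁, hi01, hi0, hi1⟩ := hs a ha (haz'.trans hdt)
  obtain ⟨i, hi⟩ : ∃ i : Fin 2 → G.ι, i = ![i₀, i₁] := ⟨_, rfl⟩
  have hie0 : i 0 = i₀ := by rw [hi]; rfl
  have hie1 : i 1 = i₁ := by rw [hi]; rfl
  have hine : i 0 ≠ i 1 := by rw [hie0, hie1]; exact hi01
  have hiE : ∀ e, G.E (i e) (yy a) = 0 := by
    intro e
    fin_cases e
    · show G.E (i 0) (yy a) = 0
      rw [hie0]; exact hi0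
    · show G.E (i 1) (yy a) = 0
      rw [hie1]; exact hi1
  have hyY : yy a ∈ Y := (hH.rim a ha).mem
  have hst := hm a ha haz' i₀ i₁ hi01 hi0 hi1
  have hrr : r₀ ≤ r (yy a) i := hr₀' (yy a, i) (Finset.mk_mem_product hyY (Finset.mem_univ _))
  have hlo := hl (yy a) hyY i hine hiE
  have hsepY : ∀ y ∈ Y, ∀ y' ∈ Y, dist (pr y) (pr y') < ε + ε₂ → pr y = pr y' := fun y hy y' hy' h =>
    hsepσ y hy y' hy' (h.trans_le (by linarith))
  have hsame : ∀ b ∈ t, ‖b - z‖ ≤ (1 - τ₁ / 2) * d → yy b = yy a := fun b hb hbz =>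
    same_end hY hH (hexp.trans hdt) ha hsepY hst hb hbz
  have hgr : ∀ w, ‖w - z‖ ≤ d → Real.log ‖F w‖ ≤ 3 * Bg * d := by
    intro w hw
    have h1 := hg q F hF w
    have h2 : infDist w (Gd rho δ F) ≤ infDist z (Gd rho δ F) + dist w z := infDist_le_infDist_add_dist
    rw [← hd, dist_eq_norm] at h2
    have h3 : 1 + infDist w (Gd rho δ F) ≤ 3 * d := by linarith
    calc Real.log ‖F w‖ ≤ Bg * (1 + infDist w (Gd rho δ F)) := h1
      _ ≤ Bg * (3 * d) := mul_le_mul_of_nonneg_left h3 hBg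
      _ = _ := by ring
  obtain ⟨ρ, hρ1, hρ2, hρ⟩ := hrad t s a d hd5 hc.1 hH.pos
  have hpar : ∀ b ∈ t, ∀ b' ∈ t, ‖b - z‖ ≤ (1 - τ₁ / 2) * d → ‖b - b'‖ ≤ K * max (s b) (s b') →
      G.wnd (fun w => F (b + s b * w)) (yy b) (i 0) (l (yy a) i 0) 1 * G.wnd (fun w => F (b' + s b' * w)) (yy b') (i 1) (l (yy a) i 1) 1 =
        G.wnd (fun w => F (b + s b * w)) (yy b) (i 1) (l (yy a) i 1) 1 * G.wnd (fun w => F (b' + s b' * w)) (yy b') (i 0) (l (yy a) i 0) 1 := by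
    intro b hb b' hb' hbz hbb
    have hbe := hsame b hb hbz
    refine (hp b hb b' hb' hbz hbb).2 (i 0) (i 1) (l (yy a) i 0) (l (yy a) i 1) ?_ ?_ ?_ ?_
    · rw [hbe]; exact locEq_mono (hlo 0) (hεr.trans hrr)
    · rw [hbe]; exact locEq_mono (hlo 1) (hεr.trans hrr)
    · rw [hbe]; exact hiE 0
    · rw [hbe]; exact hiE 1
  have hcnt : ∀ b ∈ t, ‖b - z‖ ≤ (1 - τ₁ / 2) * d → ∀ r' : ℝ, 0 < r' → r' < d →
      (((t.erase b).filter (fun b' => ‖b' - b‖ ≤ r')).card : ℝ) * Real.log (d / r') ≤ B₅ * d := fun b hb hbz r' h0 h1 =>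
    hc.2 b hb hbz r' h0 h1
  obtain ⟨κ, fκ, ζ, s', M, hHl, hk⟩ := hl_of hG hY (hεr.trans hrr) (hε₂r.trans hrr) hε0 hsepY hη hτ0 hτ8 hd7 hexp hF.ent.diff hF.ent.mem hF.nm hH ha haz
    hiE hlo hst hc.1 hcnt hpar hgr hρ1 hρ2 hρ (B := B) (by rw [hBdef]; exact (le_max_left _ _).trans (le_max_right _ _))
    (by rw [hBdef]; exact (le_max_left _ _).trans ((le_max_right _ _).trans (le_max_right _ _)))
    (by rw [hBdef]; exact (le_max_right _ _).trans ((le_max_right _ _).trans (le_max_right _ _)))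
  refine ⟨yy a, hyY, i, hine, hiE, κ, fκ, ζ, s', M, a, ρ, hHl, hk, haz', ?_, ?_⟩
  · have h1 : (1 - τ) * d ≤ (1 - 2 * τ₁) * d := mul_le_mul_of_nonneg_right (by linarith) hd0.le
    linarith
  · have h1 : (1 - τ₁) * d ≤ d := by nlinarith
    linarith

end Pool.Agent.SR3
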