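import Mathlib

/-!
# SR3 LPol: homogeneous polynomials in two variables are Lipschitz on bounded sets
-/

set_option autoImplicit false

noncomputable section

namespace Pool.Agent.SR3

private theorem pow_sub_le {a b : ℂ} {R e : ℝ} (hR : 1 ≤ R) (ha : ‖a‖ ≤ R) (hb : ‖b‖ ≤ R) (he : ‖a - b‖ ≤ e) (n : ℕ) :
    ‖a ^ n - b ^ n‖ ≤ n * R ^ n * e := by
  have hR0 : 0 ≤ R := zero_le_one.trans hR
  have he0 : 0 ≤ e := (norm_nonneg _).trans he
  induction n with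
  | zero => simp
  | succ n ih =>
    have h1 : a ^ (n + 1) - b ^ (n + 1) = a ^ n * (a - b) + (a ^ n - b ^ n) * b := by ring
    have h2 : ‖a ^ n * (a - b)‖ ≤ R ^ (n + 1) * e := by
      rw [norm_mul, norm_pow]
      refine mul_le_mul ?_ he (norm_nonneg _) (by positivity)
      exact (pow_le_pow_left₀ (norm_nonneg _) ha n).trans (pow_le_pow_right₀ hR (Nat.le_succ n))
    have h3 : ‖(a ^ n - b ^ n) * b‖ ≤ n * R ^ (n + 1) * e := by
      rw [norm_mul]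
      calc ‖a ^ n - b ^ n‖ * ‖b‖ ≤ (n * R ^ n * e) * R := mul_le_mul ih hb (norm_nonneg _) (by positivity)
        _ = n * R ^ (n + 1) * e := by ring
    rw [h1]
    refine (norm_add_le _ _).trans ((add_le_add h2 h3).trans (le_of_eq ?_))
    push_cast
    ring

private theorem deg_eq {m : ℕ} {P : MvPolynomial (Fin 2) ℂ} (hP : P.IsHomogeneous m) {d : Fin 2 →₀ ℕ} (hd : d ∈ P.support) :
    d 0 + d 1 = m := by
  have h1 := hP (MvPolynomial.mem_support_iff.1 hd)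
  rw [Finsupp.weight_apply, Finsupp.sum_fintype _ _ (by simp)] at h1
  simpa [Fin.sum_univ_two] using h1

theorem crs_lip {m : ℕ} {P : MvPolynomial (Fin 2) ℂ} (hP : P.IsHomogeneous m) : ∃ C : ℝ, 0 ≤ C ∧ ∀ (u v : Fin 2 → ℂ) (R e : ℝ), 1 ≤ R → (∀ a, ‖u a‖ ≤ R) →
    (∀ a, ‖v a‖ ≤ R) → (∀ a, ‖u a - v a‖ ≤ e) → ‖MvPolynomial.eval u P - MvPolynomial.eval v P‖ ≤ C * R ^ m * e := by
  refine ⟨∑ d ∈ P.support, ‖P.coeff d‖ * m, Finset.sum_nonneg fun d _ => by positivity, fun u v R e hR hu hv he => ?_⟩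
  have hR0 : 0 ≤ R := zero_le_one.trans hR
  have he0 : 0 ≤ e := (norm_nonneg _).trans (he 0)
  rw [MvPolynomial.eval_eq', MvPolynomial.eval_eq', ← Finset.sum_sub_distrib, Finset.sum_mul, Finset.sum_mul]
  refine (norm_sum_le _ _).trans (Finset.sum_le_sum fun d hd => ?_)
  have hm := deg_eq hP hd
  rw [← mul_sub, norm_mul, Fin.prod_univ_two, Fin.prod_univ_two]
  have h0 := pow_sub_le hR (hu 0) (hv 0) (he 0) (d 0)
  have h1 := pow_sub_le hR (hu 1) (hv 1) (he 1) (d 1)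
  have h2 : u 0 ^ d 0 * u 1 ^ d 1 - v 0 ^ d 0 * v 1 ^ d 1 = u 0 ^ d 0 * (u 1 ^ d 1 - v 1 ^ d 1) + (u 0 ^ d 0 - v 0 ^ d 0) * v 1 ^ d 1 := by ring
  have h3 : ‖u 0 ^ d 0 * (u 1 ^ d 1 - v 1 ^ d 1)‖ ≤ R ^ d 0 * (d 1 * R ^ d 1 * e) := by
    rw [norm_mul, norm_pow]
    exact mul_le_mul (pow_le_pow_left₀ (norm_nonneg _) (hu 0) _) h1 (norm_nonneg _) (by positivity)
  have h4 : ‖(u 0 ^ d 0 - v 0 ^ d 0) * v 1 ^ d 1‖ ≤ (d 0 * R ^ d 0 * e) * R ^ d 1 := by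
    rw [norm_mul, norm_pow]
    exact mul_le_mul h0 (pow_le_pow_left₀ (norm_nonneg _) (hv 1) _) (by positivity) (by positivity)
  have h5 : ‖u 0 ^ d 0 * u 1 ^ d 1 - v 0 ^ d 0 * v 1 ^ d 1‖ ≤ m * R ^ m * e := by
    rw [h2]
    refine (norm_add_le _ _).trans ((add_le_add h3 h4).trans (le_of_eq ?_))
    rw [← hm]
    push_cast
    ring
  calc ‖MvPolynomial.coeff d P‖ * ‖u 0 ^ d 0 * u 1 ^ d 1 - v 0 ^ d 0 * v 1 ^ d 1‖ ≤ ‖MvPolynomial.coeff d P‖ * (m * R ^ m * e) :=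
        mul_le_mul_of_nonneg_left h5 (norm_nonneg _)
    _ = ‖MvPolynomial.coeff d P‖ * m * R ^ m * e := by ring

theorem crs_neg {m : ℕ} {P : MvPolynomial (Fin 2) ℂ} (hP : P.IsHomogeneous m) (u : Fin 2 → ℂ) :
    MvPolynomial.eval (fun a => -u a) P = (-1) ^ m * MvPolynomial.eval u P := by
  rw [MvPolynomial.eval_eq', MvPolynomial.eval_eq', Finset.mul_sum]
  refine Finset.sum_congr rfl fun d hd => ?_
  have hm := deg_eq hP hd
  rw [Fin.prod_univ_two, Fin.prod_univ_two, neg_pow (u 0), neg_pow (u 1), ← hm, pow_add]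
  ring

end Pool.Agent.SR3
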