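import Pool.Agent.SR3.LResA
import Pool.Agent.SR3.LPol

/-!
# SR3 LRes: the residue relation

PROOF.  From `hl_off`: off the wells `fs ≤ exp (- β ρ)`, `‖sl‖ ≤ X = exp (2 θ ρ)`, `‖ell + sl‖ ≤ exp (- β ρ)`; so `‖ell‖ ≤ 2 X`, `L ≤ 5 C X` (`Crs.oth`);
`Crs.res`: `‖q - P (ell)‖ ≤ C (5 C) ^ m X ^ m exp (- β ρ)`; `crs_lip`: `‖P (ell) - P (- sl)‖ ≤ D 2 ^ m X ^ m exp (- β ρ)`; `crs_neg`; `4 (m + 1) θ ≤ β`.
-/

set_option autoImplicit false

open Topology Filter Metric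

noncomputable section

namespace Pool.Agent.SR3

open Pool.Agent.H36.BP (EN fs wd Sub OrdTwo)
open Pool.Agent.H14.PP (IsCone Tan)
open Pool.Agent.SY (Ent)
open Pool.Agent.H62.EF (MN pr)

open Pool.Agent.SR3.Geo (Gd)

variable {N : ℕ} {G : Geo N} {T : Set (EN N)} {rho : EN N → ℝ} {M' : ℕ} {c₀ C₀ δ : ℝ} {g : (ℂ → EN N) → ℂ → ℝ}
variable {y : EN N} {i : Fin 2 → G.ι} {l : Fin 2 → Fin (G.M + 1)} {P : G.J → MvPolynomial (Fin 2) ℂ} {r C α : ℝ}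

theorem hl_res (hG : G.Ok) (hc : G.Crs y i l P r C α) {B η ε C' : ℝ} (hB : 1 ≤ B) (hη : 0 < η) (hε : 0 < ε) (hC' : 1 ≤ C') : ∃ θ₀ : ℝ, 0 < θ₀ ∧
    ∀ θ : ℝ, 0 < θ → θ ≤ θ₀ → ∃ ρ₁ : ℝ, ∀ (F : ℂ → EN N) (κ : Type) [Fintype κ] (ζ : κ → ℂ) (s : κ → ℝ) (M : κ → Fin 2 → ℕ) (h : Fin 2 → ℂ → ℂ) (z₀ : ℂ)
      (ρ K : ℝ), G.Hl y i l r F ζ s M z₀ ρ B η K → G.Cmp i F ζ s M h z₀ ρ C' η K → 2 ≤ K → ρ₁ ≤ ρ → (∃ k, ζ k = z₀) → ∀ q : G.J → ℂ,
        (∀ j z, G.w j (F z) (deriv F z) = q j) → ∀ j, ∀ z ∈ ball z₀ ((1 - ε) * ρ), (∀ k, Real.exp (-(θ * ρ)) ≤ ‖z - ζ k‖) →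
          ‖MvPolynomial.eval (fun a => sl ζ M h a z) (P j) - (-1) ^ G.m j * q j‖ ≤ θ := by
  classical
  obtain ⟨θ₁, β, hθ₁, hβ, hoff⟩ := hl_off hG hc hB hη hε hC'
  choose D hD0 hD using fun j => crs_lip (hc.hom j)
  obtain ⟨m, hm⟩ : ∃ m : ℕ, ∀ j, G.m j ≤ m := ⟨∑ j, G.m j, fun j => Finset.single_le_sum (fun _ _ => Nat.zero_le _) (Finset.mem_univ j)⟩
  have hC1 : 1 ≤ C := hc.C_ge
  -- the constant
  obtain ⟨A, hA⟩ : ∃ A : ℝ, A = (∑ j, D j) * 2 ^ m + C * (5 * C) ^ m := ⟨_, rfl⟩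
  have hDs : 0 ≤ ∑ j, D j := Finset.sum_nonneg fun j _ => hD0 j
  have hA0 : 0 < A := by
    rw [hA]
    positivity
  refine ⟨min θ₁ (β / (4 * (m + 1))), lt_min hθ₁ (by positivity), fun θ hθ hθ0 => ?_⟩
  obtain ⟨ρ₁, hρ₁⟩ := hoff θ hθ (hθ0.trans (min_le_left _ _))
  have hθβ : θ * (4 * (m + 1)) ≤ β := by
    have h1 := hθ0.trans (min_le_right _ _)
    rwa [le_div_iff₀ (by positivity)] at h1
  -- the exponential
  obtain ⟨ρ₂, hρ₂⟩ : ∃ ρ₂ : ℝ, ∀ ρ, ρ₂ ≤ ρ → A * Real.exp (-(β / 2 * ρ)) ≤ θ := by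
    refine ⟨2 / β * (A / θ), fun ρ hρ => ?_⟩
    have h1 : A / θ ≤ β / 2 * ρ := by
      have h2 := mul_le_mul_of_nonneg_left hρ (by positivity : 0 ≤ β / 2)
      have h3 : β / 2 * (2 / β * (A / θ)) = A / θ := by
        field_simp
      rwa [h3] at h2
    have h2 : A / θ ≤ Real.exp (β / 2 * ρ) := by
      linarith [Real.add_one_le_exp (β / 2 * ρ)]
    rw [Real.exp_neg, ← div_eq_mul_inv, div_le_iff₀ (Real.exp_pos _)]
    rwa [div_le_iff₀ hθ, mul_comm] at h2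
  refine ⟨max (max ρ₁ ρ₂) 0, fun F κ _ ζ s M h z₀ ρ K hl hcmp hK hρ hk q hq j z hz hzk => ?_⟩
  have hρ1 : ρ₁ ≤ ρ := le_trans (le_trans (le_max_left _ _) (le_max_left _ _)) hρ
  have hρ2 : ρ₂ ≤ ρ := le_trans (le_trans (le_max_right _ _) (le_max_left _ _)) hρ
  have hρ0 : 0 ≤ ρ := le_trans (le_max_right _ _) hρ
  obtain ⟨hdist, hfs, hsl⟩ := hρ₁ F κ ζ s M h z₀ ρ K hl hcmp hK hρ1 hk z hz hzk
  have htan : Tan G.X (F z) (deriv F z) := tan hG hl.diff hl.mem z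
  -- sizes
  obtain ⟨X, hX⟩ : ∃ X, X = Real.exp (2 * θ * ρ) := ⟨_, rfl⟩
  obtain ⟨b, hb⟩ : ∃ b, b = Real.exp (-(β * ρ)) := ⟨_, rfl⟩
  rw [← hb] at hfs
  have hsl1 : ∀ a, ‖sl ζ M h a z‖ ≤ X := fun a => by
    rw [hX]
    exact (hsl a).1
  have hsl2 : ∀ a, ‖G.ell (i a) (F z) (deriv F z) + sl ζ M h a z‖ ≤ b := fun a => by
    rw [hb]
    exact (hsl a).2
  have hX1 : 1 ≤ X := by
    rw [hX]
    exact Real.one_le_exp (by positivity)
  have hb0 : 0 < b := by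
    rw [hb]
    exact Real.exp_pos _
  have hb1 : b ≤ 1 := by
    rw [hb]
    exact Real.exp_le_one_iff.2 (by have := mul_nonneg hβ.le hρ0; linarith)
  have hell : ∀ a, ‖G.ell (i a) (F z) (deriv F z)‖ ≤ 2 * X := by
    intro a
    have h1 : G.ell (i a) (F z) (deriv F z) = (G.ell (i a) (F z) (deriv F z) + sl ζ M h a z) - sl ζ M h a z := by ring
    rw [h1]
    exact (norm_sub_le _ _).trans (by linarith [hsl1 a, hsl2 a])
  have hL : G.L (F z) (deriv F z) ≤ 5 * C * X := by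
    have h1 := hc.oth (F z) (hl.mem z) hdist (deriv F z) htan
    have h2 : fs (F z) (deriv F z) + ‖G.ell (i 0) (F z) (deriv F z)‖ + ‖G.ell (i 1) (F z) (deriv F z)‖ ≤ 5 * X := by
      linarith [hell 0, hell 1]
    calc _ ≤ _ := h1
      _ ≤ C * (5 * X) := mul_le_mul_of_nonneg_left h2 (by linarith)
      _ = 5 * C * X := by ring
  have hL0 : 0 ≤ G.L (F z) (deriv F z) := L_nonneg _ _
  have hres := hc.res (F z) (hl.mem z) hdist j (deriv F z) htan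
  rw [hq j z] at hres
  have hm1 : G.m j - 1 ≤ m := (Nat.sub_le _ _).trans (hm j)
  have hXm : ∀ n : ℕ, n ≤ m → X ^ n ≤ X ^ m := fun n hn => pow_le_pow_right₀ hX1 hn
  have h1 : C * fs (F z) (deriv F z) * G.L (F z) (deriv F z) ^ (G.m j - 1) ≤ C * (5 * C) ^ m * (X ^ m * b) := by
    have h2 : G.L (F z) (deriv F z) ^ (G.m j - 1) ≤ (5 * C * X) ^ m := by
      calc _ ≤ (5 * C * X) ^ (G.m j - 1) := pow_le_pow_left₀ hL0 hL _
        _ ≤ (5 * C * X) ^ m := pow_le_pow_right₀ (by nlinarith) hm1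
    calc C * fs (F z) (deriv F z) * G.L (F z) (deriv F z) ^ (G.m j - 1) ≤ C * b * (5 * C * X) ^ m := by
          refine mul_le_mul ?_ h2 (pow_nonneg hL0 _) (by positivity)
          exact mul_le_mul_of_nonneg_left hfs (by linarith)
      _ = C * (5 * C) ^ m * (X ^ m * b) := by
          rw [mul_pow (5 * C) X]
          ring
  have h2 := hD j (fun a => G.ell (i a) (F z) (deriv F z)) (fun a => -sl ζ M h a z) (2 * X) b (by linarith) hell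
    (fun a => by rw [norm_neg]; linarith [hsl1 a]) (fun a => by rw [sub_neg_eq_add]; exact hsl2 a)
  have h3 : D j * (2 * X) ^ G.m j * b ≤ (∑ j, D j) * 2 ^ m * (X ^ m * b) := by
    have h4 : (2 * X) ^ G.m j ≤ 2 ^ m * X ^ m := by
      rw [← mul_pow]
      exact pow_le_pow_right₀ (by linarith) (hm j)
    have h5 : D j ≤ ∑ j, D j := Finset.single_le_sum (fun j _ => hD0 j) (Finset.mem_univ j)
    calc D j * (2 * X) ^ G.m j * b ≤ (∑ j, D j) * (2 ^ m * X ^ m) * b :=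
          mul_le_mul_of_nonneg_right (mul_le_mul h5 h4 (by positivity) hDs) hb0.le
      _ = _ := by ring
  have h4 : X ^ m * b ≤ Real.exp (-(β / 2 * ρ)) := by
    rw [hX, hb, ← Real.exp_nat_mul, ← Real.exp_add, Real.exp_le_exp]
    have h5 : θ * (4 * (m + 1)) * ρ ≤ β * ρ := mul_le_mul_of_nonneg_right hθβ hρ0
    have h6 : 0 ≤ θ * ρ := mul_nonneg hθ.le hρ0
    nlinarith
  have h5 : MvPolynomial.eval (fun a => sl ζ M h a z) (P j) - (-1) ^ G.m j * q j =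
      (-1) ^ G.m j * (MvPolynomial.eval (fun a => -sl ζ M h a z) (P j) - q j) := by
    rw [crs_neg (hc.hom j), mul_sub, ← mul_assoc, ← mul_pow]
    norm_num
  rw [h5, norm_mul, norm_pow, norm_neg, norm_one, one_pow, one_mul]
  have h6 : MvPolynomial.eval (fun a => -sl ζ M h a z) (P j) - q j =
      -((q j - MvPolynomial.eval (fun a => G.ell (i a) (F z) (deriv F z)) (P j)) +
        (MvPolynomial.eval (fun a => G.ell (i a) (F z) (deriv F z)) (P j) - MvPolynomial.eval (fun a => -sl ζ M h a z) (P j))) := by ring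
  rw [h6, norm_neg]
  calc _ ≤ ‖q j - MvPolynomial.eval (fun a => G.ell (i a) (F z) (deriv F z)) (P j)‖ +
        ‖MvPolynomial.eval (fun a => G.ell (i a) (F z) (deriv F z)) (P j) - MvPolynomial.eval (fun a => -sl ζ M h a z) (P j)‖ := norm_add_le _ _
    _ ≤ C * (5 * C) ^ m * (X ^ m * b) + (∑ j, D j) * 2 ^ m * (X ^ m * b) := add_le_add (hres.trans h1) (h2.trans h3)
    _ = A * (X ^ m * b) := by rw [hA]; ring
    _ ≤ A * Real.exp (-(β / 2 * ρ)) := mul_le_mul_of_nonneg_left h4 hA0.le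
    _ ≤ θ := hρ₂ ρ hρ2

end Pool.Agent.SR3
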