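import Pool.Agent.SR3.LSmo
import Pool.Agent.SR3.LCrs
import Pool.Agent.SR3.LMac
import Pool.Agent.SR3.LHlB
import Pool.Agent.SR3.Five
import Pool.Agent.SR3.Bdr

/-!
# SR3 LAsm: the gap

`ends_smooth`, `bdry_of`, `crs_of`; `case5` with `a` = the minimum of the `c₁` of `hl_macro` over the crossings in `Y`, `b = 2 h`, centre `z₀`; then `hl_ex` with
`τ = ε / 4`, then `hl_macro` with `ε / 4`, `B`, `η`.
-/

set_option autoImplicit false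

open Topology Filter Metric

noncomputable section

namespace Pool.Agent.SR3

open Pool.Agent.H36.BP (EN fs wd Sub OrdTwo)
open Pool.Agent.H14.PP (IsCone Tan)
open Pool.Agent.SY (Ent)
open Pool.Agent.H62.EF (MN pr)
open Geo (Gd)

variable {N : ℕ} {G : Geo N} {T : Set (EN N)} {rho : EN N → ℝ} {M' : ℕ} {c₀ C₀ δ : ℝ} {g : (ℂ → EN N) → ℂ → ℝ}

namespace LAsm

theorem exists_le {β : Type*} (s : Finset β) (f : β → ℝ) (hf : ∀ x, 0 < f x) : ∃ a : ℝ, 0 < a ∧ ∀ x ∈ s, a ≤ f x := by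
  classical
  induction s using Finset.induction_on with
  | empty => exact ⟨1, one_pos, by simp⟩
  | insert x s hx ih =>
    obtain ⟨a, ha, h⟩ := ih
    refine ⟨min a (f x), lt_min ha (hf x), fun y hy => ?_⟩
    rcases Finset.mem_insert.1 hy with rfl | hy
    · exact min_le_right _ _
    · exact (min_le_left _ _).trans (h y hy)

theorem exists_ge {β : Type*} (s : Finset β) (f : β → ℝ) : ∃ a : ℝ, ∀ x ∈ s, f x ≤ a :=
  ⟨∑ x ∈ s, |f x|, fun x hx => (le_abs_self _).trans (Finset.single_le_sum (f := fun x => |f x|) (fun _ _ => abs_nonneg _) hx)⟩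

/-- the conclusion of `hl_macro` for given constants -/
def Mac (G : Geo N) (y : EN N) (i : Fin 2 → G.ι) (l : Fin 2 → Fin (G.M + 1)) (r c₁ B η ε K₁ ρ₁ : ℝ) : Prop :=
  ∀ (q : G.J → ℂ) (F : ℂ → EN N) (κ : Type) [Fintype κ] (ζ : κ → ℂ) (s : κ → ℝ) (M : κ → Fin 2 → ℕ) (z₀ : ℂ) (ρ K : ℝ), G.nq q = 1 →
    (∀ j z, G.w j (F z) (deriv F z) = q j) → G.Hl y i l r F ζ s M z₀ ρ B η K → K₁ ≤ K → ρ₁ ≤ ρ → (∃ k, ζ k = z₀) → ∃ u : ℂ, c₁ ≤ ‖u‖ ∧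
      ∀ z, ‖z - z₀‖ ≤ (1 - ε) * ρ → |(u * (z - z₀)).re| ≤ 2 * G.h * Real.log ‖F z‖ + ε * ρ

/-- a crossing in `Y` -/
def Cr (G : Geo N) (Y : Finset (EN N)) (y : EN N) (i : Fin 2 → G.ι) : Prop := y ∈ Y ∧ i 0 ≠ i 1 ∧ ∀ a, G.E (i a) y = 0

end LAsm

open LAsm

theorem gapL (hG : G.Ok) (hM : G.Met T rho M' c₀ C₀ δ g) (hQ : G.QN rho) (B : ℝ) :
    ∃ R : ℝ, ∀ (q : G.J → ℂ) (F : ℂ → EN N), G.Cl T q F → ∀ z, Real.log ‖F z‖ ≤ B → infDist z (Gd rho δ F) ≤ R := by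
  classical
  by_cases hK : G.K.Nonempty
  swap
  · exact ⟨0, fun q F hF => absurd ⟨F 0, hF.ent.mem 0⟩ hK⟩
  have hBd := bdry_of hG hK
  obtain ⟨Y, hY, hn⟩ := ends_smooth hG
  -- the local data at the crossings
  have hex : ∀ (y : EN N) (i : Fin 2 → G.ι), ∃ (l : Fin 2 → Fin (G.M + 1)) (r c₁ : ℝ), 0 < r ∧ 0 < c₁ ∧
      (Cr G Y y i → (∀ a, G.LocEq r y (i a) (l a)) ∧ ∀ B η ε : ℝ, 1 ≤ B → 0 < η → 0 < ε → ∃ K₁ ρ₁ : ℝ, Mac G y i l r c₁ B η ε K₁ ρ₁) := by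
    intro y i
    by_cases hc : Cr G Y y i
    · obtain ⟨l, P, r, C, α, hcr⟩ := crs_of hG (hY.mem y hc.1).1 hc.2.1 hc.2.2
      obtain ⟨c₁, hc₁, h⟩ := hl_macro hG hcr
      exact ⟨l, r, c₁, hcr.r_pos, hc₁, fun _ => ⟨hcr.loc, fun B η ε hB hη hε => h B η ε hB hη hε⟩⟩
    · exact ⟨fun _ => 0, 1, 1, one_pos, one_pos, fun h => absurd h hc⟩
  choose l r c₁ hr hc₁ hloc using hex
  obtain ⟨a, ha, hac⟩ := exists_le (Y ×ˢ (Finset.univ : Finset (Fin 2 → G.ι))) (fun p => c₁ p.1 p.2) fun p => hc₁ _ _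
  obtain ⟨ε, R₁, hε, hε1, hR₁, h5⟩ := case5 hG hM ha (b := 2 * (G.h : ℝ)) (by positivity)
  obtain ⟨B', η, hB', hη, hex⟩ := hl_ex hG hM hQ hBd hY hn hr (fun y hy i hi h0 => (hloc y i ⟨hy, hi, h0⟩).1) B (τ := ε / 4) (by positivity)
  have hm : ∀ (y : EN N) (i : Fin 2 → G.ι), ∃ K₁ ρ₁ : ℝ, Cr G Y y i → Mac G y i (l y i) (r y i) (c₁ y i) B' η (ε / 4) K₁ ρ₁ := by
    intro y i
    by_cases hc : Cr G Y y i
    · obtain ⟨K₁, ρ₁, h⟩ := (hloc y i hc).2 B' η (ε / 4) hB' hη (by positivity)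
      exact ⟨K₁, ρ₁, fun _ => h⟩
    · exact ⟨0, 0, fun h => absurd h hc⟩
  choose K₁ ρ₁ hm using hm
  obtain ⟨K, hKm⟩ := exists_ge (Y ×ˢ (Finset.univ : Finset (Fin 2 → G.ι))) (fun p => K₁ p.1 p.2)
  obtain ⟨ρm, hρm⟩ := exists_ge (Y ×ˢ (Finset.univ : Finset (Fin 2 → G.ι))) (fun p => ρ₁ p.1 p.2)
  obtain ⟨R₂, hR₂⟩ := hex K
  refine ⟨max (max (R₁ + 1) R₂) (max (2 * ρm) (2 / ε + 2)), fun q F hF z hz => ?_⟩
  by_contra hcon
  push Not at hcon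
  obtain ⟨d, hd⟩ : ∃ d, d = infDist z (Gd rho δ F) := ⟨_, rfl⟩
  rw [← hd] at hcon
  have h1 : R₁ + 1 < d := ((le_max_left _ _).trans (le_max_left _ _)).trans_lt hcon
  have h2 : R₂ < d := ((le_max_right _ _).trans (le_max_left _ _)).trans_lt hcon
  have h3 : 2 * ρm < d := ((le_max_left _ _).trans (le_max_right _ _)).trans_lt hcon
  have h4 : 2 / ε + 2 < d := ((le_max_right _ _).trans (le_max_right _ _)).trans_lt hcon
  obtain ⟨y, hy, i, hi, h0, κ, _, ζ, s, M, z₀, ρ, hHl, hk, hzz, hρ1, hρ2⟩ := hR₂ q F hF z (by rw [← hd]; exact h2.le) hz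
  rw [← hd] at hρ1 hρ2
  have hcr : Cr G Y y i := ⟨hy, hi, h0⟩
  have hmem : (y, i) ∈ Y ×ˢ (Finset.univ : Finset (Fin 2 → G.ι)) := Finset.mem_product.2 ⟨hy, Finset.mem_univ _⟩
  have hd0 : 0 < d := by
    have : 0 < 2 / ε := by positivity
    linarith
  have hρd : d / 2 ≤ ρ := by nlinarith
  have hρ0 : 0 < ρ := by linarith
  obtain ⟨u, hu, huw⟩ := hm y i hcr q F κ ζ s M z₀ ρ K hF.one hF.val hHl (hKm _ hmem) ((hρm _ hmem).trans (by linarith)) hk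
  have hdist : dist z z₀ ≤ 1 := by
    rw [dist_comm, dist_eq_norm]
    exact hzz
  have hd1 : d ≤ infDist z₀ (Gd rho δ F) + 1 := by
    have h5 : infDist z (Gd rho δ F) ≤ infDist z₀ (Gd rho δ F) + dist z z₀ := infDist_le_infDist_add_dist
    rw [← hd] at h5
    linarith
  have hd2 : infDist z₀ (Gd rho δ F) ≤ d + 1 := by
    have h5 : infDist z₀ (Gd rho δ F) ≤ infDist z (Gd rho δ F) + dist z₀ z := infDist_le_infDist_add_dist
    rw [← hd, dist_comm] at h5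
    linarith
  have hεd : 2 < ε * d := by
    have h6 : ε * (2 / ε) = 2 := by field_simp
    nlinarith
  refine h5 q F hF z₀ (by linarith) u ((hac _ hmem).trans hu) fun w hw => ?_
  refine (huw w (hw.trans ?_)).trans ?_
  · -- `(1 - ε) (d + 1) ≤ (1 - ε / 4) ρ`
    have h7 : (1 - ε) * infDist z₀ (Gd rho δ F) ≤ (1 - ε) * (d + 1) := mul_le_mul_of_nonneg_left hd2 (by linarith)
    have h8 : (1 - ε / 4) * ((1 - ε / 4) * d) ≤ (1 - ε / 4) * ρ := mul_le_mul_of_nonneg_left hρ1 (by linarith)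
    nlinarith [sq_nonneg ε]
  · have h9 : ε / 4 * ρ ≤ ε / 4 * d := mul_le_mul_of_nonneg_left hρ2 (by positivity)
    have h10 : ε * (d - 1) ≤ ε * infDist z₀ (Gd rho δ F) := mul_le_mul_of_nonneg_left (by linarith) hε.le
    nlinarith

end Pool.Agent.SR3
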