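import Pool.Agent.SR3.LDefs
import Pool.Agent.H62.EF.PrA

/-!
# SR3 LCau: the Cauchy estimate

`g = F / ⟪y, F⟫ - y / ‖y‖ ^ 2` is orthogonal to `y`, `‖g‖ = wd y F / (|⟪y, F⟫| ‖y‖) ≤ τ / ‖y‖`; `fs F F' = fs (F / ⟪y, F⟫) g' ≤ ‖g'‖ ‖y‖`.
-/

set_option autoImplicit false

open Topology Filter Metric

noncomputable section

namespace Pool.Agent.SR3

open Pool.Agent.H36.BP (EN fs wd fs_inv wd_le)
open Pool.Agent.H62.EF (MN pr norm_inner_sq)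

variable {N : ℕ}

/-- the size of `x / ⟪y, x⟫ - y / ‖y‖ ^ 2` -/
private theorem norm_sub_le_of_dist {x y : EN N} (hx : x ≠ 0) (hy : y ≠ 0) {τ : ℝ} (hτ : τ ≤ 1 / 2) (h : dist (pr x) (pr y) ≤ τ) :
    (inner ℂ y x : ℂ) ≠ 0 ∧ ‖(inner ℂ y x : ℂ)⁻¹ • x - ((‖y‖ ^ 2 : ℝ) : ℂ)⁻¹ • y‖ ≤ τ / ‖y‖ := by
  have hx' : 0 < ‖x‖ := norm_pos_iff.2 hx
  have hy' : 0 < ‖y‖ := norm_pos_iff.2 hy
  set d : ℝ := dist (pr x) (pr y) with hd
  have hd0 : 0 ≤ d := dist_nonneg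
  have hd2 : d ^ 2 ≤ 1 / 4 := by nlinarith
  have h1 : ‖(inner ℂ y x : ℂ)‖ ^ 2 = ‖y‖ ^ 2 * ‖x‖ ^ 2 * (1 - d ^ 2 / 2) := by
    have := norm_inner_sq hy hx
    rwa [dist_comm, ← hd] at this
  have h2 : 0 < ‖(inner ℂ y x : ℂ)‖ ^ 2 := by
    rw [h1]
    have : 0 < 1 - d ^ 2 / 2 := by linarith
    positivity
  have hq : (inner ℂ y x : ℂ) ≠ 0 := by
    intro h3
    rw [h3, norm_zero] at h2
    norm_num at h2
  refine ⟨hq, ?_⟩
  set q : ℂ := inner ℂ y x with hqd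
  set u : EN N := q⁻¹ • x with hu
  set c : EN N := ((‖y‖ ^ 2 : ℝ) : ℂ)⁻¹ • y with hc
  have hyy : (inner ℂ y y : ℂ) = ((‖y‖ ^ 2 : ℝ) : ℂ) := by
    rw [inner_self_eq_norm_sq_to_K]
    push_cast
    rfl
  have hn0 : ((‖y‖ ^ 2 : ℝ) : ℂ) ≠ 0 := by
    exact_mod_cast (pow_pos hy' 2).ne'
  have h3 : (inner ℂ y (u - c) : ℂ) = 0 := by
    rw [inner_sub_right, hu, hc, inner_smul_right, inner_smul_right, ← hqd, hyy, inv_mul_cancel₀ hq, inv_mul_cancel₀ hn0, sub_self]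
  have h4 : (inner ℂ c (u - c) : ℂ) = 0 := by
    rw [hc, inner_smul_left, h3, mul_zero]
  have h5 : ‖u‖ ^ 2 = ‖c‖ ^ 2 + ‖u - c‖ ^ 2 := by
    have h6 := norm_add_sq_eq_norm_sq_add_norm_sq_of_inner_eq_zero c (u - c) h4
    rw [add_sub_cancel] at h6
    rw [pow_two, pow_two, pow_two]
    exact h6
  have h6 : ‖u‖ ^ 2 = ‖x‖ ^ 2 / ‖q‖ ^ 2 := by
    rw [hu, norm_smul, norm_inv, mul_pow, inv_pow]
    field_simp
  have h7 : ‖c‖ ^ 2 = 1 / ‖y‖ ^ 2 := by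
    rw [hc, norm_smul, norm_inv, Complex.norm_real, Real.norm_eq_abs, abs_of_pos (pow_pos hy' 2), mul_pow]
    field_simp
  have h8 : ‖u - c‖ ^ 2 ≤ (τ / ‖y‖) ^ 2 := by
    have h9 : ‖u - c‖ ^ 2 = ‖x‖ ^ 2 / ‖q‖ ^ 2 - 1 / ‖y‖ ^ 2 := by
      rw [← h6, ← h7, h5]
      ring
    have h10 : 0 < 1 - d ^ 2 / 2 := by linarith
    have h11 : ‖x‖ ^ 2 / ‖q‖ ^ 2 - 1 / ‖y‖ ^ 2 = (d ^ 2 / 2 / (1 - d ^ 2 / 2)) / ‖y‖ ^ 2 := by
      obtain ⟨e, he⟩ : ∃ e, e = 1 - d ^ 2 / 2 := ⟨_, rfl⟩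
      have he0 : e ≠ 0 := by rw [he]; exact h10.ne'
      have he1 : d ^ 2 / 2 = 1 - e := by rw [he]; ring
      rw [h1, ← he, he1]
      field_simp
    rw [h9, h11, div_pow]
    refine div_le_div_of_nonneg_right ?_ (by positivity)
    rw [div_le_iff₀ h10]
    nlinarith [mul_nonneg hd0 hd0]
  exact (pow_le_pow_iff_left₀ (norm_nonneg _) (div_nonneg (hd0.trans h) hy'.le) two_ne_zero).1 h8

theorem crs_cauchy {y : EN N} (hy : y ≠ 0) {F : ℂ → EN N} (hF : Differentiable ℂ F) (h0 : ∀ z, F z ≠ 0) {z : ℂ} {t τ : ℝ} (ht : 0 < t) (hτ : τ ≤ 1 / 2)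
    (h : ∀ w, ‖w - z‖ ≤ t → dist (pr (F w)) (pr y) ≤ τ) : fs (F z) (deriv F z) ≤ 4 * τ / t := by
  have hy' : 0 < ‖y‖ := norm_pos_iff.2 hy
  have hτ0 : 0 ≤ τ := dist_nonneg.trans (h z (by rw [sub_self, norm_zero]; exact ht.le))
  have hq : ∀ w, ‖w - z‖ ≤ t → (inner ℂ y (F w) : ℂ) ≠ 0 := fun w hw => (norm_sub_le_of_dist (h0 w) hy hτ (h w hw)).1
  have hqd : Differentiable ℂ fun w => (inner ℂ y (F w) : ℂ) := (innerSL ℂ y).differentiable.comp hF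
  set g : ℂ → EN N := fun w => (inner ℂ y (F w) : ℂ)⁻¹ • F w - ((‖y‖ ^ 2 : ℝ) : ℂ)⁻¹ • y with hg
  have hgd : ∀ w, ‖w - z‖ ≤ t → HasDerivAt g ((inner ℂ y (F w) : ℂ)⁻¹ • deriv F w + deriv (fun w => (inner ℂ y (F w) : ℂ)⁻¹) w • F w) w := by
    intro w hw
    have h1 : DifferentiableAt ℂ (fun w => (inner ℂ y (F w) : ℂ)⁻¹) w := (hqd w).inv (hq w hw)
    exact (h1.hasDerivAt.smul (hF w).hasDerivAt).sub_const _
  have h1 : DiffContOnCl ℂ g (ball z t) := by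
    refine DifferentiableOn.diffContOnCl ?_
    rw [closure_ball z ht.ne']
    intro w hw
    exact (hgd w (by rwa [mem_closedBall, dist_eq_norm] at hw)).differentiableAt.differentiableWithinAt
  have h2 : ‖deriv g z‖ ≤ τ / ‖y‖ / t := by
    refine Complex.norm_deriv_le_of_forall_mem_sphere_norm_le ht h1 fun w hw => ?_
    have hw' : ‖w - z‖ ≤ t := by
      rw [mem_sphere_iff_norm] at hw
      exact hw.le
    exact (norm_sub_le_of_dist (h0 w) hy hτ (h w hw')).2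
  have hz : ‖z - z‖ ≤ t := by rw [sub_self, norm_zero]; exact ht.le
  have h3 := (hgd z hz).deriv
  have h4 := fs_inv (h0 z) (deriv F z) (inv_ne_zero (hq z hz)) (deriv (fun w => (inner ℂ y (F w) : ℂ)⁻¹) z)
  rw [← h3] at h4
  rw [← h4]
  set u : EN N := (inner ℂ y (F z) : ℂ)⁻¹ • F z with hu
  have h5 : 1 ≤ ‖y‖ * ‖u‖ := by
    have h6 : (inner ℂ y u : ℂ) = 1 := by
      rw [hu, inner_smul_right, inv_mul_cancel₀ (hq z hz)]
    have h7 := norm_inner_le_norm (𝕜 := ℂ) y u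
    rwa [h6, norm_one] at h7
  have hu0 : 0 < ‖u‖ := by
    by_contra h6
    have h7 : ‖u‖ = 0 := le_antisymm (not_lt.1 h6) (norm_nonneg _)
    rw [h7, mul_zero] at h5
    linarith
  have h6 : fs u (deriv g z) ≤ ‖deriv g z‖ / ‖u‖ := by
    rw [Pool.Agent.H36.BP.fs, div_le_div_iff₀ (by positivity) hu0]
    have := wd_le u (deriv g z)
    nlinarith
  have h7 : ‖deriv g z‖ / ‖u‖ ≤ ‖deriv g z‖ * ‖y‖ := by
    rw [div_le_iff₀ hu0]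
    have := mul_le_mul_of_nonneg_left h5 (norm_nonneg (deriv g z))
    nlinarith
  have h8 : ‖deriv g z‖ * ‖y‖ ≤ τ / t := by
    have := mul_le_mul_of_nonneg_right h2 hy'.le
    calc ‖deriv g z‖ * ‖y‖ ≤ τ / ‖y‖ / t * ‖y‖ := this
      _ = τ / t := by field_simp
  have h9 : τ / t ≤ 4 * τ / t := div_le_div_of_nonneg_right (by linarith) ht.le
  exact h6.trans (h7.trans (h8.trans h9))

end Pool.Agent.SR3
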