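import Pool.Agent.SR3.GDefs
import Pool.Agent.SR3.CDefs

/-!
# SR3 LDefs: definitions for the crossings of the boundary

The local data at a crossing `y`, the holes of a curve near `y`, and the comparison of the curve with the function theory of `CDefs`.
-/

set_option autoImplicit false

open Topology Filter Metric

noncomputable section

namespace Pool.Agent.SR3.Geo

open Pool.Agent.H36.BP (EN fs wd Sub OrdTwo)
open Pool.Agent.H14.PP (IsCone Tan)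
open Pool.Agent.H62.EF (MN pr)

variable {N : ℕ} (G : Geo N)

/-- the components `i 0`, `i 1` cross at `y`; `E (i a) = 0` has the local equation with the index `l a`; `P j` is the residue of `w j`; data valid at
the points `x` with `dist (pr x) (pr y) < r` -/
structure Crs (y : EN N) (i : Fin 2 → G.ι) (l : Fin 2 → Fin (G.M + 1)) (P : G.J → MvPolynomial (Fin 2) ℂ) (r C α : ℝ) : Prop where
  ne : y ≠ 0
  r_pos : 0 < r
  r_le : r ≤ 1 / 2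
  C_ge : 1 ≤ C
  α_pos : 0 < α
  hom : ∀ j, (P j).IsHomogeneous (G.m j)
  loc : ∀ a, G.LocEq r y (i a) (l a)
  oth : ∀ x ∈ G.K, dist (pr x) (pr y) < r → ∀ v, Tan G.X x v → G.L x v ≤ C * (fs x v + ‖G.ell (i 0) x v‖ + ‖G.ell (i 1) x v‖)
  rate : ∀ x ∈ G.K, dist (pr x) (pr y) < r → ∀ u : ℝ, (∀ a, u ≤ G.lam (i a) x) → dist (pr x) (pr y) ≤ C * Real.exp (-(α * u))
  res : ∀ x ∈ G.K, dist (pr x) (pr y) < r → ∀ j v, Tan G.X x v →
    ‖G.w j x v - MvPolynomial.eval (fun a => G.ell (i a) x v) (P j)‖ ≤ C * fs x v * G.L x v ^ (G.m j - 1)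

/-- Holes of the curve `F` in the disc `ball z₀ ρ`, with the centres `ζ k` and the radii `s k`; outside the discs of radius `s k / 2` the curve is near the
crossing `y`; `M k a` is the number of poles minus the number of zeros of the local equation of the component `i a` in the hole `k`. -/
structure Hl (y : EN N) (i : Fin 2 → G.ι) (l : Fin 2 → Fin (G.M + 1)) (r : ℝ) (F : ℂ → EN N) {κ : Type} [Fintype κ] (ζ : κ → ℂ) (s : κ → ℝ)
    (M : κ → Fin 2 → ℕ) (z₀ : ℂ) (ρ B η K : ℝ) : Prop where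
  diff : Differentiable ℂ F
  mem : ∀ z, F z ∈ G.K
  nm : ∀ z, G.p (F z) = 1
  s_pos : ∀ k, 0 < s k
  s_le : ∀ k, s k ≤ Real.exp (-(η * ρ))
  inb : ∀ k, ‖ζ k - z₀‖ + 4 * s k < ρ
  sep : ∀ j k, j ≠ k → 20 * s j ≤ ‖ζ j - ζ k‖
  sepN : ∀ j k, M j 0 * M k 1 ≠ M j 1 * M k 0 → K * s j ≤ ‖ζ j - ζ k‖
  card : (Fintype.card κ : ℝ) ≤ B * ρ
  cnt : ∀ k t, 0 < t → t < ρ → ((Finset.univ.filter fun j => 0 < ‖ζ j - ζ k‖ ∧ ‖ζ j - ζ k‖ ≤ t).card : ℝ) * Real.log (ρ / t) ≤ B * ρ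
  near : ∀ z, ‖z - z₀‖ ≤ ρ → (∀ k, s k / 2 ≤ ‖z - ζ k‖) → dist (pr (F z)) (pr y) < r
  bdd : ∀ k z, ‖z - ζ k‖ ≤ 4 * s k → Real.log ‖F z‖ ≤ B
  upp : ∀ z, ‖z - z₀‖ ≤ ρ → Real.log ‖F z‖ ≤ B * ρ
  one : ∀ k a, 1 ≤ M k a
  M_le : ∀ k a, (M k a : ℝ) ≤ B
  wind : ∀ k a, G.wnd (fun w => F (ζ k + s k * w)) y (i a) (l a) 1 = -(2 * Real.pi * Complex.I * M k a)

/-- Comparison of the curve with the function theory: `sg a` is `lam (i a)` along the curve, `sl a` is `- ell (i a)`. -/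
structure Cmp (i : Fin 2 → G.ι) (F : ℂ → EN N) {κ : Type} [Fintype κ] (ζ : κ → ℂ) (s : κ → ℝ) (M : κ → Fin 2 → ℕ) (h : Fin 2 → ℂ → ℂ) (z₀ : ℂ)
    (ρ C η K : ℝ) : Prop where
  wd : Wd ζ s M h z₀ ρ C η K
  lam : ∀ a, ∀ z ∈ ball z₀ ρ, (∀ k, s k ≤ ‖z - ζ k‖) → |G.lam (i a) (F z) - sg ζ M h a z| ≤ C
  ell : ∀ a, ∀ z ∈ ball z₀ ρ, (∀ k, s k ≤ ‖z - ζ k‖) →
    ‖G.ell (i a) (F z) (deriv F z) + sl ζ M h a z‖ ≤ C * (fs (F z) (deriv F z) + ∑ k, s k / ‖z - ζ k‖ ^ 2)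

/-- the hypothesis on the residues at the smooth points of the boundary -/
def Smooth (Y : Finset (EN N)) : Prop := ∀ y ∈ Y, (∀ i i' : G.ι, i ≠ i' → G.E i y = 0 → G.E i' y ≠ 0) → ∃ (r B : ℝ), 0 < r ∧ ∀ x ∈ G.K,
  dist (pr x) (pr y) < r → ∀ v, Tan G.X x v → ∀ j, ‖G.w j x v‖ ≤ B * fs x v * G.L x v ^ (G.m j - 1)

end Pool.Agent.SR3.Geo
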