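import Pool.Agent.SR3.LDefs

/-!
# SR3 LWnd: winding numbers

`wnd_scale`: change of variables.  `circle_fac`: `logDeriv f = g' + ∑ 1 / (z - b)`, Cauchy.
-/

set_option autoImplicit false

open Topology Filter Metric

noncomputable section

namespace Pool.Agent.SR3

open Pool.Agent.H36.BP (EN fs wd Sub OrdTwo)
open Pool.Agent.H14.PP (IsCone Tan)
open Pool.Agent.SY (Ent)
open Pool.Agent.H62.EF (MN pr)
open Geo (Gd)

variable {N : ℕ} {G : Geo N}

private theorem logDeriv_affine (f : ℂ → ℂ) (ζ s w : ℂ) : logDeriv (fun u => f (ζ + s * u)) w = s * logDeriv f (ζ + s * w) := by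
  rw [logDeriv_apply, logDeriv_apply, deriv_comp_mul_left s (fun u => f (ζ + u)) w, deriv_comp_const_add, smul_eq_mul, mul_div_assoc]

private theorem circle_scale (h : ℂ → ℂ) (ζ : ℂ) (s : ℝ) : (∮ w in C(0, 1), (s : ℂ) * h (ζ + s * w)) = ∮ z in C(ζ, s), h z := by
  unfold circleIntegral
  refine intervalIntegral.integral_congr fun θ _ => ?_
  have e : circleMap ζ s θ = ζ + s * circleMap 0 1 θ := by simp [circleMap]
  simp only [deriv_circleMap, smul_eq_mul]
  rw [e, show circleMap 0 s θ = s * circleMap 0 1 θ by simp [circleMap]]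
  ring

theorem wnd_scale {F : ℂ → EN N} (hF : Differentiable ℂ F) (y : EN N) (i : G.ι) (l : Fin (G.M + 1)) (ζ : ℂ) {s : ℝ} (hs : 0 < s) :
    G.wnd (fun w => F (ζ + s * w)) y i l 1 =
      ∮ z in C(ζ, s), (logDeriv (fun w => (G.E i (F w)).ofLp l) z - G.c i * logDeriv (fun w => (inner ℂ y (F w) : ℂ)) z) := by
  unfold Geo.wnd
  refine Eq.trans ?_ (circle_scale (fun z => logDeriv (fun w => (G.E i (F w)).ofLp l) z - G.c i * logDeriv (fun w => (inner ℂ y (F w) : ℂ)) z) ζ s)
  congr 1
  funext w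
  rw [logDeriv_affine (fun w => (G.E i (F w)).ofLp l) ζ s w, logDeriv_affine (fun w => (inner ℂ y (F w) : ℂ)) ζ s w]
  ring

theorem circle_fac {κ : Type} [Fintype κ] {ζ : κ → ℂ} {s : κ → ℝ} {f g : ℂ → ℂ} {n : κ → ℕ} {b : (k : κ) → Fin (n k) → ℂ} {z₀ : ℂ} {ρ : ℝ} (hs : ∀ k, 0 < s k)
    (hg : DifferentiableOn ℂ g (ball z₀ ρ)) (hb : ∀ k j, b k j ∈ closedBall (ζ k) (s k / 2)) (hfg : ∀ z ∈ ball z₀ ρ, f z = Complex.exp (g z) * ∏ k, ∏ j, (z - b k j))
    (k : κ) (hk : ‖ζ k - z₀‖ + s k < ρ) (hsep : ∀ j, j ≠ k → s k + s j < ‖ζ j - ζ k‖) :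
    (∮ z in C(ζ k, s k), logDeriv f z) = 2 * Real.pi * Complex.I * n k := by
  classical
  have hsub : closedBall (ζ k) (s k) ⊆ ball z₀ ρ := by
    intro z hz
    rw [mem_closedBall] at hz
    rw [mem_ball]
    have h1 := dist_triangle z (ζ k) z₀
    rw [dist_eq_norm (ζ k) z₀] at h1
    linarith
  -- the zeros in the other holes are outside of the closed disc
  have hout : ∀ j, j ≠ k → ∀ m, ∀ z ∈ closedBall (ζ k) (s k), z - b j m ≠ 0 := by
    intro j hj m z hz h0
    rw [mem_closedBall] at hz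
    have h1 := hb j m
    rw [mem_closedBall] at h1
    have h2 := hsep j hj
    rw [← dist_eq_norm] at h2
    have h3 := dist_triangle (ζ j) (b j m) (ζ k)
    rw [dist_comm (ζ j) (b j m), ← sub_eq_zero.1 h0] at h3
    have h4 := hs j
    rw [← sub_eq_zero.1 h0] at h1
    linarith
  have hin : ∀ m, b k m ∈ ball (ζ k) (s k) := fun m => by
    have h1 := hb k m
    rw [mem_closedBall] at h1
    have h2 := hs k
    rw [mem_ball]
    linarith
  have hsph : ∀ z ∈ sphere (ζ k) (s k), ∀ j m, z - b j m ≠ 0 := by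
    intro z hz j m
    by_cases hj : j = k
    · subst hj
      intro h0
      have h1 := hin m
      rw [← sub_eq_zero.1 h0, mem_ball] at h1
      rw [mem_sphere] at hz
      linarith
    · exact hout j hj m z (sphere_subset_closedBall hz)
  have e1 : ∀ z ∈ sphere (ζ k) (s k), logDeriv f z = deriv g z + ∑ j, ∑ m, (z - b j m)⁻¹ := by
    intro z hz
    have hzb : z ∈ ball z₀ ρ := hsub (sphere_subset_closedBall hz)
    have hgz : DifferentiableAt ℂ g z := hg.differentiableAt (isOpen_ball.mem_nhds hzb)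
    have hne := hsph z hz
    have hev : f =ᶠ[𝓝 z] fun w => Complex.exp (g w) * ∏ j, ∏ m, (w - b j m) := Filter.eventually_of_mem (isOpen_ball.mem_nhds hzb) hfg
    have h1 : logDeriv f z = logDeriv (fun w => Complex.exp (g w) * ∏ j, ∏ m, (w - b j m)) z := by
      rw [logDeriv_apply, logDeriv_apply, hev.deriv_eq, hfg z hzb]
    rw [h1, logDeriv_mul (f := fun w => Complex.exp (g w)) (g := fun w => ∏ j, ∏ m, (w - b j m)) z (Complex.exp_ne_zero _)
      (Finset.prod_ne_zero_iff.2 fun j _ => Finset.prod_ne_zero_iff.2 fun m _ => hne j m) hgz.cexp (by fun_prop)]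
    congr 1
    · rw [logDeriv_apply, deriv_cexp hgz, mul_div_cancel_left₀ _ (Complex.exp_ne_zero _)]
    · rw [logDeriv_prod (fun j _ => Finset.prod_ne_zero_iff.2 fun m _ => hne j m) (fun j _ => by fun_prop)]
      refine Finset.sum_congr rfl fun j _ => ?_
      rw [logDeriv_prod (fun m _ => hne j m) (fun m _ => by fun_prop)]
      refine Finset.sum_congr rfl fun m _ => ?_
      rw [logDeriv_apply, deriv_sub_const, deriv_id'', one_div]
  rw [circleIntegral.integral_congr (hs k).le e1]
  have hdg : ContinuousOn (deriv g) (sphere (ζ k) (s k)) :=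
    ((hg.deriv isOpen_ball).continuousOn).mono (sphere_subset_closedBall.trans hsub)
  have hcont : ∀ j m, ContinuousOn (fun z => (z - b j m)⁻¹) (sphere (ζ k) (s k)) := fun j m =>
    (continuousOn_id.sub continuousOn_const).inv₀ fun z hz => hsph z hz j m
  have hci : ∀ j m, CircleIntegrable (fun z => (z - b j m)⁻¹) (ζ k) (s k) := fun j m => (hcont j m).circleIntegrable (hs k).le
  rw [circleIntegral.integral_add (hdg.circleIntegrable (hs k).le)
    ((continuousOn_finsetSum _ fun j _ => continuousOn_finsetSum _ fun m _ => hcont j m).circleIntegrable (hs k).le)]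
  have hz1 : (∮ z in C(ζ k, s k), deriv g z) = 0 := circleIntegral.integral_eq_zero_of_hasDerivWithinAt (hs k).le fun z hz =>
    (hg.differentiableAt (isOpen_ball.mem_nhds (hsub (sphere_subset_closedBall hz)))).hasDerivAt.hasDerivWithinAt
  have hz2 : ∀ j, (∮ z in C(ζ k, s k), ∑ m, (z - b j m)⁻¹) = ∑ m, ∮ z in C(ζ k, s k), (z - b j m)⁻¹ := fun j =>
    circleIntegral.integral_fun_sum fun m _ => hci j m
  have hz3 : (∮ z in C(ζ k, s k), ∑ j, ∑ m, (z - b j m)⁻¹) = ∑ j, ∑ m, ∮ z in C(ζ k, s k), (z - b j m)⁻¹ := by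
    rw [circleIntegral.integral_fun_sum fun j _ => (continuousOn_finsetSum _ fun m _ => hcont j m).circleIntegrable (hs k).le]
    exact Finset.sum_congr rfl fun j _ => hz2 j
  rw [hz1, hz3, zero_add, Finset.sum_eq_single k]
  · rw [Finset.sum_congr rfl fun m _ => circleIntegral.integral_sub_inv_of_mem_ball (hin m), Finset.sum_const, Finset.card_univ, Fintype.card_fin, nsmul_eq_mul]
    ring
  · intro j _ hj
    refine Finset.sum_eq_zero fun m _ => ?_
    refine Complex.circleIntegral_eq_zero_of_differentiable_on_off_countable (hs k).le Set.countable_empty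
      ((continuousOn_id.sub continuousOn_const).inv₀ fun z hz => hout j hj m z hz) fun z hz => ?_
    exact (differentiableAt_id.sub_const _).inv (hout j hj m z (ball_subset_closedBall hz.1))
  · intro h
    exact absurd (Finset.mem_univ k) h

end Pool.Agent.SR3
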