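import Pool.Agent.SR3.LZer
import Pool.Agent.SR3.LWnd

/-!
# SR3 LFac: the factorization along the holes and the winding numbers
-/

set_option autoImplicit false

open Topology Filter Metric

noncomputable section

namespace Pool.Agent.SR3

open Pool.Agent.H36.BP (EN fs wd Sub OrdTwo)
open Pool.Agent.H14.PP (IsCone Tan)
open Pool.Agent.SY (Ent)
open Pool.Agent.H62.EF (MN pr)
open Geo (Gd)

variable {N : ℕ} {G : Geo N} {T : Set (EN N)} {rho : EN N → ℝ} {M' : ℕ} {c₀ C₀ δ : ℝ} {g : (ℂ → EN N) → ℂ → ℝ}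
variable {y : EN N} {i : Fin 2 → G.ι} {l : Fin 2 → Fin (G.M + 1)} {P : G.J → MvPolynomial (Fin 2) ℂ} {r C α : ℝ}

namespace LFac

/-- the logarithmic derivative of a factorized function is integrable on the sphere of a hole -/
theorem integrable {κ : Type} [Fintype κ] {ζ : κ → ℂ} {s : κ → ℝ} {f g : ℂ → ℂ} {n : κ → ℕ} {b : (k : κ) → Fin (n k) → ℂ} {z₀ : ℂ} {ρ : ℝ} (hs : ∀ k, 0 < s k)
    (hg : DifferentiableOn ℂ g (ball z₀ ρ)) (hb : ∀ k j, b k j ∈ closedBall (ζ k) (s k / 2)) (hfg : ∀ z ∈ ball z₀ ρ, f z = Complex.exp (g z) * ∏ k, ∏ j, (z - b k j))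
    (k : κ) (hk : ‖ζ k - z₀‖ + s k < ρ) (hsep : ∀ j, j ≠ k → s k + s j < ‖ζ j - ζ k‖) :
    CircleIntegrable (logDeriv f) (ζ k) (s k) := by
  have hsph : ∀ z ∈ sphere (ζ k) |s k|, z ∈ ball z₀ ρ := by
    intro z hz
    rw [mem_sphere, dist_eq_norm, abs_of_pos (hs k)] at hz
    rw [mem_ball, dist_eq_norm]
    calc ‖z - z₀‖ = ‖(z - ζ k) + (ζ k - z₀)‖ := by congr 1; ring
      _ ≤ ‖z - ζ k‖ + ‖ζ k - z₀‖ := norm_add_le _ _
      _ < ρ := by rw [hz]; linarith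
  have hd : DifferentiableOn ℂ f (ball z₀ ρ) := by
    have h1 : DifferentiableOn ℂ (fun z => Complex.exp (g z) * ∏ k, ∏ j, (z - b k j)) (ball z₀ ρ) := by
      refine hg.cexp.mul ?_
      fun_prop
    exact h1.congr hfg
  have hd' : ContinuousOn (deriv f) (ball z₀ ρ) := (hd.deriv isOpen_ball).continuousOn
  have h0 : ∀ z ∈ sphere (ζ k) |s k|, f z ≠ 0 := by
    intro z hz
    rw [hfg z (hsph z hz)]
    rw [mem_sphere, dist_eq_norm, abs_of_pos (hs k)] at hz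
    refine mul_ne_zero (Complex.exp_ne_zero _) (Finset.prod_ne_zero_iff.mpr fun k' _ => Finset.prod_ne_zero_iff.mpr fun j _ => ?_)
    intro hcon
    have hz' : z = b k' j := sub_eq_zero.mp hcon
    have hbj := hb k' j
    rw [← hz', mem_closedBall, dist_eq_norm] at hbj
    by_cases hkk : k' = k
    · subst hkk
      rw [hz] at hbj
      have := hs k'
      linarith
    · have h1 := hsep k' hkk
      have h2 : ‖ζ k' - ζ k‖ ≤ ‖z - ζ k‖ + ‖z - ζ k'‖ := by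
        calc ‖ζ k' - ζ k‖ = ‖(z - ζ k) - (z - ζ k')‖ := by congr 1; ring
          _ ≤ _ := norm_sub_le _ _
      have := hs k'
      rw [hz] at h2
      linarith
  refine ContinuousOn.circleIntegrable' ?_
  intro z hz
  have hz' := hsph z hz
  have h1 : ContinuousAt (deriv f) z := (hd' z hz').continuousAt (isOpen_ball.mem_nhds hz')
  have h2 : ContinuousAt f z := (hd z hz').continuousWithinAt.continuousAt (isOpen_ball.mem_nhds hz')
  exact (h1.div h2 (h0 z hz)).continuousWithinAt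

end LFac

theorem hl_fac (hG : G.Ok) (hc : G.Crs y i l P r C α) {B η : ℝ} (hB : 1 ≤ B) (hη : 0 < η) : ∃ n₁ : ℝ, 0 ≤ n₁ ∧ ∀ (F : ℂ → EN N) (κ : Type) [Fintype κ]
    (ζ : κ → ℂ) (s : κ → ℝ) (M : κ → Fin 2 → ℕ) (z₀ : ℂ) (ρ K : ℝ), G.Hl y i l r F ζ s M z₀ ρ B η K → 0 < ρ → ∀ a, ∃ (n n' : κ → ℕ)
      (b : (k : κ) → Fin (n k) → ℂ) (b' : (k : κ) → Fin (n' k) → ℂ) (g g' : ℂ → ℂ), DifferentiableOn ℂ g (ball z₀ ρ) ∧ DifferentiableOn ℂ g' (ball z₀ ρ) ∧
      (∀ k j, b k j ∈ closedBall (ζ k) (s k / 2)) ∧ (∀ k j, b' k j ∈ closedBall (ζ k) (s k / 2)) ∧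
      (∀ z ∈ ball z₀ ρ, (inner ℂ y (F z) : ℂ) = Complex.exp (g z) * ∏ k, ∏ j, (z - b k j)) ∧
      (∀ z ∈ ball z₀ ρ, (G.E (i a) (F z)).ofLp (l a) = Complex.exp (g' z) * ∏ k, ∏ j, (z - b' k j)) ∧
      ∀ k, (n k : ℝ) ≤ n₁ ∧ (n' k : ℝ) ≤ n₁ ∧ (G.c (i a) : ℂ) * n k - n' k = M k a := by
  obtain ⟨n₁, hn₁, Hz⟩ := hl_zer hG hc hB hη
  refine ⟨n₁, hn₁, fun F κ _ ζ s M z₀ ρ K H hρ a => ?_⟩
  obtain ⟨n, n', b, b', g, g', hg, hg', hb, hb', h1, h2, h3⟩ := Hz F κ ζ s M z₀ ρ K H hρ a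
  refine ⟨n, n', b, b', g, g', hg, hg', hb, hb', h1, h2, fun k => ⟨(h3 k).1, (h3 k).2, ?_⟩⟩
  have hs := H.s_pos
  have hk : ‖ζ k - z₀‖ + s k < ρ := by
    have := H.inb k
    have := hs k
    linarith
  have hsep : ∀ j, j ≠ k → s k + s j < ‖ζ j - ζ k‖ := by
    intro j hj
    have a1 := H.sep j k hj
    have a2 := H.sep k j (Ne.symm hj)
    rw [norm_sub_rev] at a2
    have := hs k
    have := hs j
    linarith
  have e1 := wnd_scale H.diff y (i a) (l a) (ζ k) (hs k)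
  rw [H.wind k a] at e1
  have c1 := circle_fac hs hg hb h1 k hk hsep
  have c2 := circle_fac hs hg' hb' h2 k hk hsep
  have i1 := LFac.integrable hs hg hb h1 k hk hsep
  have i2 := LFac.integrable hs hg' hb' h2 k hk hsep
  have i3 : CircleIntegrable (fun z => (G.c (i a) : ℂ) * logDeriv (fun w => (inner ℂ y (F w) : ℂ)) z) (ζ k) (s k) := by
    have := i1.const_fun_smul (a := (G.c (i a) : ℂ))
    simpa only [smul_eq_mul] using this
  have e2 : (∮ z in C(ζ k, s k), (logDeriv (fun w => (G.E (i a) (F w)).ofLp (l a)) z - G.c (i a) * logDeriv (fun w => (inner ℂ y (F w) : ℂ)) z)) =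
      (∮ z in C(ζ k, s k), logDeriv (fun w => (G.E (i a) (F w)).ofLp (l a)) z) - G.c (i a) * ∮ z in C(ζ k, s k), logDeriv (fun w => (inner ℂ y (F w) : ℂ)) z := by
    rw [circleIntegral.integral_sub i2 i3, circleIntegral.integral_const_mul]
  rw [e2, c1, c2] at e1
  have hpi : (2 * Real.pi * Complex.I : ℂ) ≠ 0 := Complex.two_pi_I_ne_zero
  have e3 : (2 * Real.pi * Complex.I : ℂ) * ((G.c (i a) : ℂ) * n k - n' k) = (2 * Real.pi * Complex.I : ℂ) * M k a := by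
    linear_combination e1
  exact mul_left_cancel₀ hpi e3

end Pool.Agent.SR3
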