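import Pool.Agent.SR3.LDefs
import Pool.Agent.SR3.ALam

/-!
# SR3 LMacA: lemmas for LMac (the point of the rim of a hole on a line; the bound of `lam`)
-/

set_option autoImplicit false

open Topology Filter Metric

noncomputable section

namespace Pool.Agent.SR3

open Pool.Agent.H36.BP (EN fs wd Sub OrdTwo)
open Pool.Agent.H14.PP (IsCone Tan)
open Pool.Agent.H62.EF (MN pr)

namespace LMac

/-- a point of the rim on the line through `z` on which `Re (u w)` is constant -/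
theorem exists_rim_pt {z ζ u : ℂ} {s : ℝ} (hz : ‖z - ζ‖ < s) : ∃ z' : ℂ, ‖z' - ζ‖ = s ∧ (u * (z' - z)).re = 0 := by
  have hs : 0 < s := (norm_nonneg _).trans_lt hz
  obtain ⟨d, hd, hud⟩ : ∃ d : ℂ, ‖d‖ = 1 ∧ (u * d).re = 0 := by
    by_cases hu : u = 0
    · exact ⟨1, norm_one, by simp [hu]⟩
    · have hu' : ‖u‖ ≠ 0 := norm_ne_zero_iff.2 hu
      refine ⟨Complex.I * (starRingEnd ℂ) u / (‖u‖ : ℂ), ?_, ?_⟩
      · rw [norm_div, norm_mul, Complex.norm_I, one_mul, RCLike.norm_conj, Complex.norm_real, norm_norm, div_self hu']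
      · have h1 : u * (Complex.I * (starRingEnd ℂ) u / (‖u‖ : ℂ)) = Complex.I * ((‖u‖ : ℝ) : ℂ) := by
          have h2 : u * (starRingEnd ℂ) u = ((‖u‖ : ℝ) : ℂ) ^ 2 := by
            rw [Complex.mul_conj, Complex.normSq_eq_norm_sq]
            push_cast
            ring
          have h3 : ((‖u‖ : ℝ) : ℂ) ≠ 0 := by exact_mod_cast hu'
          calc u * (Complex.I * (starRingEnd ℂ) u / (‖u‖ : ℂ)) = Complex.I * (u * (starRingEnd ℂ) u) / (‖u‖ : ℂ) := by ring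
            _ = Complex.I * (((‖u‖ : ℝ) : ℂ) ^ 2) / (‖u‖ : ℂ) := by rw [h2]
            _ = _ := by field_simp
        rw [h1]
        simp
  have hc : Continuous fun t : ℝ => ‖z + (t : ℂ) * d - ζ‖ := by fun_prop
  have h0 : ‖z + ((0 : ℝ) : ℂ) * d - ζ‖ ≤ s := by simpa using hz.le
  have h1 : s ≤ ‖z + ((2 * s : ℝ) : ℂ) * d - ζ‖ := by
    have h2 : ‖((2 * s : ℝ) : ℂ) * d‖ = 2 * s := by
      rw [norm_mul, hd, mul_one, Complex.norm_real, Real.norm_of_nonneg (by positivity)]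
    have h3 : ((2 * s : ℝ) : ℂ) * d = (z + ((2 * s : ℝ) : ℂ) * d - ζ) - (z - ζ) := by ring
    have h4 := norm_sub_le (z + ((2 * s : ℝ) : ℂ) * d - ζ) (z - ζ)
    rw [← h3, h2] at h4
    linarith
  obtain ⟨t, -, ht⟩ := intermediate_value_Icc (by positivity : (0 : ℝ) ≤ 2 * s) hc.continuousOn ⟨h0, h1⟩
  refine ⟨z + (t : ℂ) * d, ht, ?_⟩
  have h5 : u * (z + (t : ℂ) * d - z) = (t : ℂ) * (u * d) := by ring
  rw [h5, Complex.re_ofReal_mul, hud, mul_zero]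

variable {N : ℕ} {G : Geo N}

/-- `|lam i|` is at most `h log ‖x‖` -/
theorem abs_lam_le (hG : G.Ok) : ∃ C : ℝ, 0 ≤ C ∧ ∀ i, ∀ x ∈ G.K, G.p x = 1 → |G.lam i x| ≤ G.h * Real.log ‖x‖ + C := by
  obtain ⟨B, hB0, hB⟩ := lam_lowerA hG
  obtain ⟨B', hB'0, hB'⟩ := lam_upperA hG
  obtain ⟨B₁, hB₁0, hB₁⟩ := log_lower hG
  refine ⟨B + B' + G.h * B₁, by positivity, fun i x hx hp => ?_⟩
  have h1 := hB i x hx
  have h2 := (hB' x hx hp).1 i
  have h3 := hB₁ x hp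
  have h4 : 0 ≤ (G.h : ℝ) * (Real.log ‖x‖ + B₁) := mul_nonneg (Nat.cast_nonneg _) (by linarith)
  have h5 : 0 ≤ (G.h : ℝ) * B₁ := mul_nonneg (Nat.cast_nonneg _) hB₁0
  rw [abs_le]
  constructor
  · nlinarith
  · linarith

/-- a point of the rim of a hole is outside all holes -/
theorem rim_off {κ : Type} {ζ : κ → ℂ} {s : κ → ℝ} (hs : ∀ k, 0 < s k) (hsep : ∀ j k, j ≠ k → 20 * s j ≤ ‖ζ j - ζ k‖) {k : κ} {z : ℂ}
    (hz : ‖z - ζ k‖ = s k) (j : κ) : s j ≤ ‖z - ζ j‖ := by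
  by_cases hjk : j = k
  · rw [hjk, hz]
  · have h1 := hsep j k hjk
    have h2 := hsep k j (fun h => hjk h.symm)
    have h3 : ‖ζ k - ζ j‖ ≤ ‖ζ k - z‖ + ‖z - ζ j‖ := norm_sub_le_norm_sub_add_norm_sub (ζ k) z (ζ j)
    rw [norm_sub_rev (ζ k) z, hz] at h3
    rw [norm_sub_rev (ζ j) (ζ k)] at h1
    linarith [hs j, hs k]

/-- one of the values is large, all are at most one -/
theorem exists_q (hG : G.Ok) {q : G.J → ℂ} (hq : G.nq q = 1) :
    (∃ j, ((Fintype.card G.J : ℝ)⁻¹) ^ G.m j ≤ ‖q j‖) ∧ ∀ j, ‖q j‖ ≤ 1 := by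
  have hq' : ∑ j, ‖q j‖ ^ ((G.m j : ℝ)⁻¹) = 1 := hq
  have hnn : ∀ j, 0 ≤ ‖q j‖ ^ ((G.m j : ℝ)⁻¹) := fun j => Real.rpow_nonneg (norm_nonneg _) _
  have hm0 : ∀ j, G.m j ≠ 0 := fun j => by
    have := hG.one_m j
    omega
  have hpw : ∀ j, (‖q j‖ ^ ((G.m j : ℝ)⁻¹)) ^ G.m j = ‖q j‖ := fun j => Real.rpow_inv_natCast_pow (norm_nonneg _) (hm0 j)
  constructor
  · by_contra hcon
    push Not at hcon
    have := hG.neJ
    have hcard : (0 : ℝ) < Fintype.card G.J := by exact_mod_cast Fintype.card_pos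
    have h1 : ∀ j, ‖q j‖ ^ ((G.m j : ℝ)⁻¹) < (Fintype.card G.J : ℝ)⁻¹ := by
      intro j
      by_contra h2
      rw [not_lt] at h2
      have h3 := pow_le_pow_left₀ (inv_nonneg.2 hcard.le) h2 (G.m j)
      rw [hpw] at h3
      exact absurd h3 (not_le.2 (hcon j))
    have h2 : ∑ j, ‖q j‖ ^ ((G.m j : ℝ)⁻¹) < ∑ _j : G.J, (Fintype.card G.J : ℝ)⁻¹ :=
      Finset.sum_lt_sum_of_nonempty Finset.univ_nonempty fun j _ => h1 j
    rw [hq', Finset.sum_const, Finset.card_univ, nsmul_eq_mul, mul_inv_cancel₀ hcard.ne'] at h2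
    exact lt_irrefl _ h2
  · intro j
    have h1 : ‖q j‖ ^ ((G.m j : ℝ)⁻¹) ≤ 1 := by
      rw [← hq']
      exact Finset.single_le_sum (f := fun j => ‖q j‖ ^ ((G.m j : ℝ)⁻¹)) (fun j _ => hnn j) (Finset.mem_univ j)
    rw [← hpw j]
    exact pow_le_one₀ (hnn j) h1

end LMac

end Pool.Agent.SR3
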