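import Mathlib

/-!
# SR3 LMacH: an estimate off the holes extends to the points in the holes
-/

set_option autoImplicit false

open Metric

noncomputable section

namespace Pool.Agent.SR3

/-- a unit vector `w` with `Re (u w) = 0` -/
theorem exists_dir_re (u : ℂ) : ∃ w : ℂ, ‖w‖ = 1 ∧ (u * w).re = 0 := by
  by_cases hu : u = 0
  · exact ⟨1, by simp, by simp [hu]⟩
  · have hn : 0 < ‖u‖ := norm_pos_iff.2 hu
    refine ⟨Complex.I * (starRingEnd ℂ u / (‖u‖ : ℂ)), ?_, ?_⟩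
    · rw [norm_mul, Complex.norm_I, one_mul, norm_div, Complex.norm_conj, Complex.norm_real, Real.norm_of_nonneg hn.le, div_self hn.ne']
    · have h1 : u * (Complex.I * (starRingEnd ℂ u / (‖u‖ : ℂ))) = Complex.I * ((‖u‖ : ℝ) : ℂ) := by
        have h2 : u * starRingEnd ℂ u = ((‖u‖ : ℝ) : ℂ) ^ 2 := Complex.mul_conj' u
        have h3 : ((‖u‖ : ℝ) : ℂ) ≠ 0 := by exact_mod_cast hn.ne'
        field_simp
        linear_combination h2
      rw [h1]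
      simp

/-- a point `z` in the disc: there is a point of the circle on the line through `z` with direction `w` -/
theorem exists_rim_pt {ζ z w : ℂ} {s : ℝ} (hw : ‖w‖ = 1) (hz : ‖z - ζ‖ < s) : ∃ t : ℝ, 0 ≤ t ∧ t ≤ 2 * s ∧ ‖z + t * w - ζ‖ = s := by
  have hs : 0 < s := (norm_nonneg _).trans_lt hz
  have hc : ContinuousOn (fun t : ℝ => ‖z + t * w - ζ‖) (Set.Icc 0 (2 * s)) := by fun_prop
  have h2 : s ≤ ‖z + ((2 * s : ℝ) : ℂ) * w - ζ‖ := by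
    have h3 : ‖((2 * s : ℝ) : ℂ) * w‖ = 2 * s := by
      rw [norm_mul, hw, mul_one, Complex.norm_real, Real.norm_of_nonneg (by positivity)]
    have h4 : ‖((2 * s : ℝ) : ℂ) * w‖ ≤ ‖z + ((2 * s : ℝ) : ℂ) * w - ζ‖ + ‖z - ζ‖ := by
      calc ‖((2 * s : ℝ) : ℂ) * w‖ = ‖(z + ((2 * s : ℝ) : ℂ) * w - ζ) - (z - ζ)‖ := by congr 1; ring
        _ ≤ _ := norm_sub_le _ _
    linarith
  have h5 := intermediate_value_Icc (by positivity : (0 : ℝ) ≤ 2 * s) hc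
  obtain ⟨t, ht, hts⟩ := h5 (show s ∈ Set.Icc _ _ from ⟨by simpa using hz.le, h2⟩)
  exact ⟨t, ht.1, ht.2, hts⟩

theorem mac_hole {κ : Type} {ζ : κ → ℂ} {s : κ → ℝ} {z₀ u : ℂ} {R e B B₁ : ℝ} {φ : ℂ → ℝ} (hs : ∀ k, 0 < s k)
    (hsep : ∀ j k, j ≠ k → 2 * s j ≤ ‖ζ j - ζ k‖) (hbd : ∀ k z, ‖z - ζ k‖ = s k → φ z ≤ B) (hlo : ∀ z, -B₁ ≤ φ z) (hB : 0 ≤ B + B₁)
    (h : ∀ z, ‖z - z₀‖ ≤ R → (∀ k, s k ≤ ‖z - ζ k‖) → |(u * (z - z₀)).re| ≤ φ z + e) (z : ℂ) (hz : ∀ k, ‖z - z₀‖ + 2 * s k ≤ R) (hzR : ‖z - z₀‖ ≤ R) :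
    |(u * (z - z₀)).re| ≤ φ z + (B + B₁ + e) := by
  by_cases hh : ∀ k, s k ≤ ‖z - ζ k‖
  · have := h z hzR hh
    linarith
  · push Not at hh
    obtain ⟨k, hk⟩ := hh
    obtain ⟨w, hw, hw0⟩ := exists_dir_re u
    obtain ⟨t, ht0, ht2, hts⟩ := exists_rim_pt hw hk
    have h1 : ‖z + t * w - z₀‖ ≤ R := by
      calc ‖z + t * w - z₀‖ = ‖(z - z₀) + t * w‖ := by congr 1; ring
        _ ≤ ‖z - z₀‖ + ‖(t : ℂ) * w‖ := norm_add_le _ _
        _ = ‖z - z₀‖ + t := by rw [norm_mul, hw, mul_one, Complex.norm_real, Real.norm_of_nonneg ht0]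
        _ ≤ R := by linarith [hz k]
    have h2 : ∀ j, s j ≤ ‖z + t * w - ζ j‖ := by
      intro j
      by_cases hj : j = k
      · rw [hj, hts]
      · have h3 : ‖ζ k - ζ j‖ ≤ ‖z + t * w - ζ j‖ + ‖z + t * w - ζ k‖ := by
          calc ‖ζ k - ζ j‖ = ‖(z + t * w - ζ j) - (z + t * w - ζ k)‖ := by congr 1; ring
            _ ≤ _ := norm_sub_le _ _
        have h4 := hsep j k hj
        have h5 := hsep k j (Ne.symm hj)
        rw [norm_sub_rev] at h4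
        rw [hts] at h3
        linarith
    have h3 := h _ h1 h2
    have h4 := hbd k _ hts
    have h5 := hlo z
    have h6 : (u * (z + t * w - z₀)).re = (u * (z - z₀)).re := by
      have : u * (z + t * w - z₀) = u * (z - z₀) + (t : ℂ) * (u * w) := by ring
      rw [this, Complex.add_re, Complex.re_ofReal_mul, hw0, mul_zero, add_zero]
    rw [h6] at h3
    linarith

end Pool.Agent.SR3
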