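import Pool.Agent.SR3.CDefs
import Pool.Agent.SR3.AHar

/-!
# SR3 LSl: a bound for `sl`

On `ball z t` the function `f = h a + ∑ M k a log (1 + (w - z) / (z - ζ k))` is holomorphic, `Re f + const = sg a ≥ - C`, `f' = sl a`: `deriv_le_re`.
-/

set_option autoImplicit false

open Topology Filter Metric

noncomputable section

namespace Pool.Agent.SR3

theorem sl_le {κ : Type} [Fintype κ] {ζ : κ → ℂ} {s : κ → ℝ} {M : κ → Fin 2 → ℕ} {h : Fin 2 → ℂ → ℂ} {z₀ : ℂ} {ρ C η K : ℝ} (W : Wd ζ s M h z₀ ρ C η K)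
    (hC : 1 ≤ C) (hρ : 1 ≤ ρ) {z : ℂ} {t : ℝ} (ht : 0 < t) (hb : ball z t ⊆ ball z₀ ρ) (hz : ∀ k, s k + t ≤ ‖z - ζ k‖) (a : Fin 2) :
    ‖sl ζ M h a z‖ ≤ 4 * C * ρ / t := by
  have hzb : z ∈ ball z₀ ρ := hb (mem_ball_self ht)
  have hpos : ∀ k, 0 < ‖z - ζ k‖ := fun k => by
    have h1 := W.s_pos k
    have h2 := hz k
    linarith
  have hne : ∀ k, z - ζ k ≠ 0 := fun k => norm_pos_iff.1 (hpos k)
  have hdist : ∀ w ∈ ball z t, ∀ k, s k ≤ ‖w - ζ k‖ := by
    intro w hw k
    rw [mem_ball_iff_norm] at hw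
    have h1 : ‖z - ζ k‖ ≤ ‖w - ζ k‖ + ‖w - z‖ := by
      have h2 : z - ζ k = (w - ζ k) - (w - z) := by ring
      rw [h2]
      exact norm_sub_le _ _
    have h3 := hz k
    linarith
  have hslit : ∀ w ∈ ball z t, ∀ k, (w - ζ k) / (z - ζ k) ∈ Complex.slitPlane := by
    intro w hw k
    have h1 : (w - ζ k) / (z - ζ k) = 1 + (w - z) / (z - ζ k) := by
      field_simp [hne k]
      ring
    rw [h1]
    refine Complex.mem_slitPlane_of_norm_lt_one ?_
    rw [norm_div, div_lt_one (hpos k)]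
    rw [mem_ball_iff_norm] at hw
    have h2 := hz k
    have h3 := W.s_pos k
    linarith
  obtain ⟨f, hf⟩ : ∃ f : ℂ → ℂ, f = fun w => h a w + ∑ k, (M k a : ℂ) * Complex.log ((w - ζ k) / (z - ζ k)) +
      ((∑ k, (M k a : ℝ) * Real.log ‖z - ζ k‖ + C : ℝ) : ℂ) := ⟨_, rfl⟩
  have hd : ∀ w ∈ ball z t, HasDerivAt f (deriv (h a) w + ∑ k, (M k a : ℂ) / (w - ζ k)) w := by
    intro w hw
    rw [hf]
    have h1 : HasDerivAt (h a) (deriv (h a) w) w :=
      ((W.hol a).differentiableAt (isOpen_ball.mem_nhds (hb hw))).hasDerivAt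
    refine HasDerivAt.add_const _ (h1.add ?_)
    refine HasDerivAt.fun_sum fun k _ => ?_
    have h2 : HasDerivAt (fun w => (w - ζ k) / (z - ζ k)) (1 / (z - ζ k)) w :=
      ((hasDerivAt_id w).sub_const (ζ k)).div_const _
    have h3 := (h2.clog (hslit w hw k)).const_mul (M k a : ℂ)
    have hwk : w - ζ k ≠ 0 := by
      intro h4
      have h5 := hdist w hw k
      have h6 := W.s_pos k
      rw [h4, norm_zero] at h5
      linarith
    have h4 : (M k a : ℂ) * (1 / (z - ζ k) / ((w - ζ k) / (z - ζ k))) = (M k a : ℂ) / (w - ζ k) := by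
      field_simp [hne k, hwk]
    rwa [h4] at h3
  have hre : ∀ w, (f w).re = sg ζ M h a w + C + ∑ k, (M k a : ℝ) *
      ((Complex.log ((w - ζ k) / (z - ζ k))).re + Real.log ‖z - ζ k‖ - Real.log ‖w - ζ k‖) := by
    intro w
    rw [hf]
    simp only [Complex.add_re, Complex.re_sum, Complex.ofReal_re, sg]
    have h1 : ∀ k, ((M k a : ℂ) * Complex.log ((w - ζ k) / (z - ζ k))).re = (M k a : ℝ) * (Complex.log ((w - ζ k) / (z - ζ k))).re := by
      intro k
      rw [Complex.mul_re]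
      simp
    simp only [h1]
    simp only [mul_sub, mul_add, Finset.sum_sub_distrib, Finset.sum_add_distrib]
    ring
  have hre' : ∀ w ∈ ball z t, (f w).re = sg ζ M h a w + C := by
    intro w hw
    rw [hre w]
    have h1 : ∀ k, (M k a : ℝ) * ((Complex.log ((w - ζ k) / (z - ζ k))).re + Real.log ‖z - ζ k‖ - Real.log ‖w - ζ k‖) = 0 := by
      intro k
      have hwk : 0 < ‖w - ζ k‖ := lt_of_lt_of_le (W.s_pos k) (hdist w hw k)
      rw [Complex.log_re, norm_div, Real.log_div hwk.ne' (hpos k).ne']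
      ring
    simp only [h1, Finset.sum_const_zero, add_zero]
  have hsl : deriv f z = sl ζ M h a z := (hd z (mem_ball_self ht)).deriv
  have hdo : DifferentiableOn ℂ f (ball z t) := fun w hw => (hd w hw).differentiableAt.differentiableWithinAt
  have h0 : ∀ w ∈ ball z t, 0 ≤ (f w).re := by
    intro w hw
    rw [hre' w hw]
    have h1 := W.low a w (hb hw) (hdist w hw)
    linarith
  have h1 := deriv_le_re ht hdo h0
  rw [hsl, hre' z (mem_ball_self ht)] at h1
  refine h1.trans ?_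
  have h2 := W.upp a z hzb (hdist z (mem_ball_self ht))
  refine div_le_div_of_nonneg_right ?_ ht.le
  nlinarith

end Pool.Agent.SR3
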