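import Pool.Agent.SR3.LDefs
import Pool.Agent.SR3.CLow
import Pool.Agent.SR3.LCau
import Pool.Agent.SR3.LSl
import Pool.Agent.SR3.ABas

/-!
# SR3 LResA: the curve off the wells

At the distance `exp (- θ ρ)` from the wells the curve is exponentially near to the crossing, so its Fubini-Study length is exponentially small;
the bounds for `sl` and for `ell + sl`.
-/

set_option autoImplicit false

open Topology Filter Metric

noncomputable section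

namespace Pool.Agent.SR3

open Pool.Agent.H36.BP (EN fs wd Sub OrdTwo)
open Pool.Agent.H14.PP (IsCone Tan)
open Pool.Agent.H62.EF (MN pr)

variable {N : ℕ} {G : Geo N}
variable {y : EN N} {i : Fin 2 → G.ι} {l : Fin 2 → Fin (G.M + 1)} {P : G.J → MvPolynomial (Fin 2) ℂ} {r C α : ℝ}

/-- exponential growth -/
theorem lres_exp (A : ℝ) {b : ℝ} (hb : 0 < b) : ∃ R : ℝ, 1 ≤ R ∧ ∀ ρ : ℝ, R ≤ ρ → A * ρ ≤ Real.exp (b * ρ) := by
  refine ⟨max 1 (2 * |A| / b ^ 2), le_max_left _ _, fun ρ hρ => ?_⟩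
  have h1 : 1 ≤ ρ := (le_max_left _ _).trans hρ
  have h2 : 2 * |A| / b ^ 2 ≤ ρ := (le_max_right _ _).trans hρ
  have hb2 : 0 < b ^ 2 := by positivity
  rw [div_le_iff₀ hb2] at h2
  have h3 : 1 + b * ρ + (b * ρ) ^ 2 / 2 ≤ Real.exp (b * ρ) := Real.quadratic_le_exp_of_nonneg (by positivity)
  have h4 : A ≤ |A| := le_abs_self A
  have h5 : A * ρ ≤ |A| * ρ := mul_le_mul_of_nonneg_right h4 (by linarith)
  have h6 : |A| * ρ ≤ (ρ * b ^ 2 / 2) * ρ := mul_le_mul_of_nonneg_right (by linarith) (by linarith)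
  have h7 : 0 < b * ρ := by positivity
  nlinarith

theorem lres_exp' (A : ℝ) {b : ℝ} (hb : 0 < b) : ∃ R : ℝ, 1 ≤ R ∧ ∀ ρ : ℝ, R ≤ ρ → A ≤ Real.exp (b * ρ) := by
  obtain ⟨R, hR, h⟩ := lres_exp |A| hb
  refine ⟨R, hR, fun ρ hρ => ?_⟩
  have h1 := h ρ hρ
  have h2 : |A| * 1 ≤ |A| * ρ := mul_le_mul_of_nonneg_left (hR.trans hρ) (abs_nonneg A)
  have h3 : A ≤ |A| := le_abs_self A
  linarith

theorem hl_off (hG : G.Ok) (hc : G.Crs y i l P r C α) {B η ε C' : ℝ} (_hB : 1 ≤ B) (hη : 0 < η) (hε : 0 < ε) (hC' : 1 ≤ C') : ∃ θ₀ β : ℝ, 0 < θ₀ ∧ 0 < β ∧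
    ∀ θ : ℝ, 0 < θ → θ ≤ θ₀ → ∃ ρ₁ : ℝ, ∀ (F : ℂ → EN N) (κ : Type) [Fintype κ] (ζ : κ → ℂ) (s : κ → ℝ) (M : κ → Fin 2 → ℕ) (h : Fin 2 → ℂ → ℂ) (z₀ : ℂ)
      (ρ K : ℝ), G.Hl y i l r F ζ s M z₀ ρ B η K → G.Cmp i F ζ s M h z₀ ρ C' η K → 2 ≤ K → ρ₁ ≤ ρ → (∃ k, ζ k = z₀) → ∀ z ∈ ball z₀ ((1 - ε) * ρ),
        (∀ k, Real.exp (-(θ * ρ)) ≤ ‖z - ζ k‖) → dist (pr (F z)) (pr y) < r ∧ fs (F z) (deriv F z) ≤ Real.exp (-(β * ρ)) ∧
          ∀ a, ‖sl ζ M h a z‖ ≤ Real.exp (2 * θ * ρ) ∧ ‖G.ell (i a) (F z) (deriv F z) + sl ζ M h a z‖ ≤ Real.exp (-(β * ρ)) := by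
  obtain ⟨c, θ₁, ρa, hc0, hθ₁, hlow⟩ := wd_low (C := C') (η := η) (ε := ε / 2) hC' hη (by linarith)
  have hα := hc.α_pos
  have hCC := hc.C_ge
  have hac : 0 < α * c := mul_pos hα hc0
  have hEα : 0 < Real.exp (α * C') := Real.exp_pos _
  obtain ⟨R1, hR1, e1⟩ := lres_exp' (1 / ε) (b := 1) one_pos
  obtain ⟨R3, hR3, e3⟩ := lres_exp' 2 (b := θ₁ / 2) (by linarith)
  obtain ⟨R4, hR4, e4⟩ := lres_exp' 2 (b := η / 2) (by linarith)
  obtain ⟨R6, hR6, e6⟩ := lres_exp' (8 * C * Real.exp (α * C')) (b := 3 / 8 * (α * c)) (by positivity)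
  obtain ⟨R8, hR8, e8⟩ := lres_exp' (2 * C') (b := α * c / 4) (by positivity)
  obtain ⟨R9, hR9, e9⟩ := lres_exp (2 * C' * B) (b := η / 4) (by positivity)
  refine ⟨min (θ₁ / 2) (min (η / 4) (α * c / 8)), min (α * c / 4) (η / 4), by positivity, by positivity, fun θ hθ hθ0 => ?_⟩
  have hθ1 : θ ≤ θ₁ / 2 := hθ0.trans (min_le_left _ _)
  have hθ2 : θ ≤ η / 4 := hθ0.trans ((min_le_right _ _).trans (min_le_left _ _))
  have hθ3 : θ ≤ α * c / 8 := hθ0.trans ((min_le_right _ _).trans (min_le_right _ _))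
  have hβ1 : min (α * c / 4) (η / 4) ≤ α * c / 4 := min_le_left _ _
  have hβ2 : min (α * c / 4) (η / 4) ≤ η / 4 := min_le_right _ _
  obtain ⟨R7, hR7, e7⟩ := lres_exp (8 * C') hθ
  refine ⟨max ρa (max (1 / ε) (max R3 (max R4 (max R6 (max R7 (max R8 R9)))))), ?_⟩
  intro F κ _ ζ s M h z₀ ρ K hH hCmp hK hρ hk z hz hzk
  simp only [max_le_iff] at hρ
  obtain ⟨hρa, hρε, hρ3, hρ4, hρ6, hρ7, hρ8, hρ9⟩ := hρ
  have e3 := e3 ρ hρ3
  have e4 := e4 ρ hρ4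
  have e6 := e6 ρ hρ6
  have e7 := e7 ρ hρ7
  have e8 := e8 ρ hρ8
  have e9 := e9 ρ hρ9
  have hρ1 : 1 ≤ ρ := hR3.trans hρ3
  have hρ0 : 0 < ρ := by linarith
  have hθρ : 0 < θ * ρ := mul_pos hθ hρ0
  have hηρ : 0 < η * ρ := mul_pos hη hρ0
  have hacρ : 0 < α * c * ρ := mul_pos hac hρ0
  have m1 : θ * ρ ≤ θ₁ / 2 * ρ := mul_le_mul_of_nonneg_right hθ1 hρ0.le
  have m2 : θ * ρ ≤ η / 4 * ρ := mul_le_mul_of_nonneg_right hθ2 hρ0.le
  have m3 : θ * ρ ≤ α * c / 8 * ρ := mul_le_mul_of_nonneg_right hθ3 hρ0.le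
  have m4 := mul_le_mul_of_nonneg_right hβ1 hρ0.le
  have m5 := mul_le_mul_of_nonneg_right hβ2 hρ0.le
  have hερ : 1 ≤ ε * ρ := by
    rw [div_le_iff₀ hε] at hρε
    linarith
  -- the radius
  set t : ℝ := Real.exp (-(θ * ρ)) / 2 with ht
  have hEθ : 0 < Real.exp (-(θ * ρ)) := Real.exp_pos _
  have hEθ1 : Real.exp (-(θ * ρ)) ≤ 1 := Real.exp_le_one_iff.2 (by linarith)
  have ht0 : 0 < t := by rw [ht]; linarith
  have ht1 : t ≤ 1 / 2 := by rw [ht]; linarith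
  have hθθ₁ : Real.exp (-(θ₁ * ρ)) ≤ t := by
    have h1 : Real.exp (-(θ₁ * ρ)) * 2 ≤ Real.exp (-(θ₁ * ρ)) * Real.exp (θ₁ / 2 * ρ) := mul_le_mul_of_nonneg_left e3 (Real.exp_pos _).le
    rw [← Real.exp_add] at h1
    have h2 : Real.exp (-(θ₁ * ρ) + θ₁ / 2 * ρ) ≤ Real.exp (-(θ * ρ)) := Real.exp_le_exp.2 (by linarith)
    rw [ht]; linarith
  have hθη : Real.exp (-(η * ρ)) ≤ t := by
    have h1 : Real.exp (-(η * ρ)) * 2 ≤ Real.exp (-(η * ρ)) * Real.exp (η / 2 * ρ) := mul_le_mul_of_nonneg_left e4 (Real.exp_pos _).le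
    rw [← Real.exp_add] at h1
    have h2 : Real.exp (-(η * ρ) + η / 2 * ρ) ≤ Real.exp (-(θ * ρ)) := Real.exp_le_exp.2 (by linarith)
    rw [ht]; linarith
  have hskt : ∀ k, s k ≤ t := fun k => (hH.s_le k).trans hθη
  rw [mem_ball, dist_eq_norm] at hz
  -- the points near `z`
  have hw0 : ∀ w : ℂ, ‖w - z‖ ≤ t → ‖w - z₀‖ < (1 - ε / 2) * ρ := fun w hw => by
    have h1 : ‖w - z₀‖ ≤ ‖w - z‖ + ‖z - z₀‖ := by
      calc ‖w - z₀‖ = ‖(w - z) + (z - z₀)‖ := by ring_nf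
        _ ≤ _ := norm_add_le _ _
    have h2 : (1 - ε / 2) * ρ = (1 - ε) * ρ + ε * ρ / 2 := by ring
    linarith
  have hwρ : ∀ w : ℂ, ‖w - z‖ ≤ t → ‖w - z₀‖ < ρ := fun w hw => by
    have h1 := hw0 w hw
    have h2 : (1 - ε / 2) * ρ = ρ - ε * ρ / 2 := by ring
    linarith
  have hwk : ∀ w : ℂ, ‖w - z‖ ≤ t → ∀ k, t ≤ ‖w - ζ k‖ := fun w hw k => by
    have h1 : ‖z - ζ k‖ ≤ ‖w - z‖ + ‖w - ζ k‖ := by
      calc ‖z - ζ k‖ = ‖(w - ζ k) - (w - z)‖ := by ring_nf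
        _ ≤ ‖w - ζ k‖ + ‖w - z‖ := norm_sub_le _ _
        _ = _ := add_comm _ _
    have h2 := hzk k
    have h3 : Real.exp (-(θ * ρ)) = 2 * t := by rw [ht]; ring
    linarith
  have hwr : ∀ w : ℂ, ‖w - z‖ ≤ t → dist (pr (F w)) (pr y) < r := fun w hw =>
    hH.near w (hwρ w hw).le fun k => by
      have h1 := hwk w hw k
      have h2 := hskt k
      have h3 := hH.s_pos k
      linarith
  set τ : ℝ := C * Real.exp (-(α * (c * ρ - C'))) with hτ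
  have hwτ : ∀ w : ℂ, ‖w - z‖ ≤ t → dist (pr (F w)) (pr y) ≤ τ := fun w hw => by
    refine hc.rate (F w) (hH.mem w) (hwr w hw) (c * ρ - C') fun a => ?_
    have hwb : w ∈ ball z₀ ρ := by rw [mem_ball, dist_eq_norm]; exact hwρ w hw
    have hsk : ∀ k, s k ≤ ‖w - ζ k‖ := fun k => (hskt k).trans (hwk w hw k)
    have h1 := hCmp.lam a w hwb hsk
    have h2 := hlow κ ζ s M h z₀ ρ K hCmp.wd hK hρa hk w (by rw [mem_ball, dist_eq_norm]; exact hw0 w hw)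
      (fun k => hθθ₁.trans (hwk w hw k)) a
    have h3 := (abs_le.1 h1).1
    linarith
  -- the length
  have hτe : 8 * τ ≤ Real.exp (-(5 / 8 * (α * c) * ρ)) := by
    have h1 : Real.exp (-(α * (c * ρ - C'))) = Real.exp (α * C') * Real.exp (-(α * c * ρ)) := by
      rw [← Real.exp_add]; ring_nf
    have h2 : 8 * τ = 8 * C * Real.exp (α * C') * Real.exp (-(α * c * ρ)) := by rw [hτ, h1]; ring
    rw [h2]
    calc 8 * C * Real.exp (α * C') * Real.exp (-(α * c * ρ)) ≤ Real.exp (3 / 8 * (α * c) * ρ) * Real.exp (-(α * c * ρ)) :=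
          mul_le_mul_of_nonneg_right e6 (Real.exp_pos _).le
      _ = Real.exp (-(5 / 8 * (α * c) * ρ)) := by rw [← Real.exp_add]; ring_nf
  have hτ2 : τ ≤ 1 / 2 := by
    have h1 : Real.exp (-(5 / 8 * (α * c) * ρ)) ≤ 1 := Real.exp_le_one_iff.2 (by linarith)
    linarith
  have hfs := crs_cauchy hc.ne hH.diff (fun w => ne0 hG (hH.mem w)) ht0 hτ2 hwτ
  have hfs' : fs (F z) (deriv F z) ≤ Real.exp (-(α * c / 2 * ρ)) := by
    have h1 : 4 * τ / t = 8 * τ * Real.exp (θ * ρ) := by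
      have h2 : Real.exp (θ * ρ) * Real.exp (-(θ * ρ)) = 1 := by rw [← Real.exp_add]; simp
      rw [ht, div_eq_iff (by positivity)]
      calc 4 * τ = 4 * τ * 1 := by ring
        _ = 4 * τ * (Real.exp (θ * ρ) * Real.exp (-(θ * ρ))) := by rw [h2]
        _ = _ := by ring
    rw [h1] at hfs
    refine hfs.trans ?_
    calc 8 * τ * Real.exp (θ * ρ) ≤ Real.exp (-(5 / 8 * (α * c) * ρ)) * Real.exp (θ * ρ) := mul_le_mul_of_nonneg_right hτe (Real.exp_pos _).le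
      _ = Real.exp (-(5 / 8 * (α * c) * ρ) + θ * ρ) := by rw [Real.exp_add]
      _ ≤ Real.exp (-(α * c / 2 * ρ)) := Real.exp_le_exp.2 (by linarith)
  have hβle1 : Real.exp (-(α * c / 4 * ρ)) ≤ Real.exp (-(min (α * c / 4) (η / 4) * ρ)) :=
    Real.exp_le_exp.2 (by linarith)
  have hβle2 : Real.exp (-(η / 4 * ρ)) ≤ Real.exp (-(min (α * c / 4) (η / 4) * ρ)) :=
    Real.exp_le_exp.2 (by linarith)
  have hz0 : ‖z - z‖ ≤ t := by simp [ht0.le]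
  refine ⟨hwr z hz0, hfs'.trans (le_trans (Real.exp_le_exp.2 (by linarith)) hβle1), fun a => ⟨?_, ?_⟩⟩
  · -- the bound for `sl`
    have h1 := sl_le hCmp.wd hC' hρ1 (z := z) (t := t) ht0 ?_ ?_ a
    · refine h1.trans ?_
      have h2 : 4 * C' * ρ / t = 8 * C' * ρ * Real.exp (θ * ρ) := by
        have h2 : Real.exp (θ * ρ) * Real.exp (-(θ * ρ)) = 1 := by rw [← Real.exp_add]; simp
        rw [ht, div_eq_iff (by positivity)]
        calc 4 * C' * ρ = 4 * C' * ρ * 1 := by ring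
          _ = 4 * C' * ρ * (Real.exp (θ * ρ) * Real.exp (-(θ * ρ))) := by rw [h2]
          _ = _ := by ring
      rw [h2]
      calc 8 * C' * ρ * Real.exp (θ * ρ) ≤ Real.exp (θ * ρ) * Real.exp (θ * ρ) := mul_le_mul_of_nonneg_right e7 (Real.exp_pos _).le
        _ = Real.exp (2 * θ * ρ) := by rw [← Real.exp_add]; ring_nf
    · intro w hw
      rw [mem_ball, dist_eq_norm] at hw ⊢
      exact hwρ w hw.le
    · intro k
      have h2 := hskt k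
      have h3 := hzk k
      have h4 : Real.exp (-(θ * ρ)) = 2 * t := by rw [ht]; ring
      linarith
  · have hzb : z ∈ ball z₀ ρ := by rw [mem_ball, dist_eq_norm]; exact hwρ z hz0
    have hsk : ∀ k, s k ≤ ‖z - ζ k‖ := fun k => (hskt k).trans (hwk z hz0 k)
    have h1 := hCmp.ell a z hzb hsk
    refine h1.trans ?_
    -- the sum
    have h2 : ∑ k, s k / ‖z - ζ k‖ ^ 2 ≤ B * ρ * Real.exp (-(η / 2 * ρ)) := by
      have h3 : ∀ k ∈ (Finset.univ : Finset κ), s k / ‖z - ζ k‖ ^ 2 ≤ Real.exp (-(η / 2 * ρ)) := fun k _ => by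
        have h4 := hzk k
        have h5 : 0 < ‖z - ζ k‖ := hEθ.trans_le h4
        rw [div_le_iff₀ (by positivity)]
        have h6 : Real.exp (-(θ * ρ)) ^ 2 ≤ ‖z - ζ k‖ ^ 2 := pow_le_pow_left₀ hEθ.le h4 2
        have h7 : Real.exp (-(η * ρ)) ≤ Real.exp (-(η / 2 * ρ)) * Real.exp (-(θ * ρ)) ^ 2 := by
          rw [pow_two, ← Real.exp_add, ← Real.exp_add]
          exact Real.exp_le_exp.2 (by linarith)
        calc s k ≤ Real.exp (-(η * ρ)) := hH.s_le k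
          _ ≤ Real.exp (-(η / 2 * ρ)) * Real.exp (-(θ * ρ)) ^ 2 := h7
          _ ≤ _ := mul_le_mul_of_nonneg_left h6 (Real.exp_pos _).le
      calc ∑ k, s k / ‖z - ζ k‖ ^ 2 ≤ ∑ _k : κ, Real.exp (-(η / 2 * ρ)) := Finset.sum_le_sum h3
        _ = (Fintype.card κ : ℝ) * Real.exp (-(η / 2 * ρ)) := by
          rw [Finset.sum_const, nsmul_eq_mul, Finset.card_univ]
        _ ≤ _ := mul_le_mul_of_nonneg_right hH.card (Real.exp_pos _).le
    have h8 : C' * Real.exp (-(α * c / 2 * ρ)) ≤ Real.exp (-(α * c / 4 * ρ)) / 2 := by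
      have h9 : 2 * C' * Real.exp (-(α * c / 2 * ρ)) ≤ Real.exp (α * c / 4 * ρ) * Real.exp (-(α * c / 2 * ρ)) :=
        mul_le_mul_of_nonneg_right e8 (Real.exp_pos _).le
      rw [← Real.exp_add] at h9
      have h10 : α * c / 4 * ρ + -(α * c / 2 * ρ) = -(α * c / 4 * ρ) := by ring
      rw [h10] at h9
      linarith
    have h11 : C' * (B * ρ * Real.exp (-(η / 2 * ρ))) ≤ Real.exp (-(η / 4 * ρ)) / 2 := by
      have h9 : 2 * C' * B * ρ * Real.exp (-(η / 2 * ρ)) ≤ Real.exp (η / 4 * ρ) * Real.exp (-(η / 2 * ρ)) :=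
        mul_le_mul_of_nonneg_right e9 (Real.exp_pos _).le
      rw [← Real.exp_add] at h9
      have h10 : η / 4 * ρ + -(η / 2 * ρ) = -(η / 4 * ρ) := by ring
      rw [h10] at h9
      have h12 : C' * (B * ρ * Real.exp (-(η / 2 * ρ))) = 2 * C' * B * ρ * Real.exp (-(η / 2 * ρ)) / 2 := by ring
      linarith
    calc C' * (fs (F z) (deriv F z) + ∑ k, s k / ‖z - ζ k‖ ^ 2)
        ≤ C' * (Real.exp (-(α * c / 2 * ρ)) + B * ρ * Real.exp (-(η / 2 * ρ))) :=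
          mul_le_mul_of_nonneg_left (add_le_add hfs' h2) (by linarith)
      _ = C' * Real.exp (-(α * c / 2 * ρ)) + C' * (B * ρ * Real.exp (-(η / 2 * ρ))) := by ring
      _ ≤ Real.exp (-(α * c / 4 * ρ)) / 2 + Real.exp (-(η / 4 * ρ)) / 2 := add_le_add h8 h11
      _ ≤ _ := by linarith

end Pool.Agent.SR3
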