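import Pool.Agent.SR3.LDefs
import Pool.Agent.SR3.ClN
import Pool.Agent.SR3.HpPol
import Pool.Agent.SY.NBa
import Pool.Agent.H14.PP.CurveBasic

/-!
# SR3 LSmo: the ends of the lines; at a smooth end the forms have no residue

For a vector `V ≠ 0` of polynomials of degree `D`: `z ⟪V, V'⟫ / ‖V‖ ^ 2 → D`.  So `z ell i (F, F') → D i - c i D`, `‖z‖ fs (F, F') → 0`; and `D i ≠ c i D` if the component
`i` contains the end of the line `F`.  Then `z ^ m w j (F, F')` tends to the value of the residue polynomial at this vector, so the entire function `w j (F, F')` tends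
to `0`, is `0`, and the residue polynomial, a form in one variable, is zero.
-/

set_option autoImplicit false

open Topology Filter Metric

noncomputable section

namespace Pool.Agent.SR3

open Pool.Agent.H36.BP (EN fs wd Sub OrdTwo)
open Pool.Agent.H14.PP (IsCone Tan)
open Pool.Agent.SY (Ent)
open Pool.Agent.H62.EF (MN pr)
open Geo (Gd)

variable {N : ℕ} {G : Geo N}

namespace LSmo

theorem tinv : Tendsto (fun z : ℂ => z⁻¹) (cocompact ℂ) (𝓝 0) := by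
  rw [← Metric.cobounded_eq_cocompact]
  exact tendsto_inv₀_cobounded

theorem ev_ne : ∀ᶠ z : ℂ in cocompact ℂ, z ≠ 0 := by
  have h1 : {(0 : ℂ)}ᶜ ∈ cocompact ℂ := isCompact_singleton.compl_mem_cocompact
  filter_upwards [h1] with z hz
  exact hz

theorem poly_lim (p : Polynomial ℂ) {d : ℕ} (hd : p.natDegree ≤ d) :
    Tendsto (fun z : ℂ => (z ^ d)⁻¹ * p.eval z) (cocompact ℂ) (𝓝 (p.coeff d)) := by
  have h1 : Tendsto (fun z : ℂ => (Polynomial.reflect d p).eval z⁻¹) (cocompact ℂ) (𝓝 ((Polynomial.reflect d p).eval 0)) :=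
    ((Polynomial.reflect d p).continuous.tendsto 0).comp tinv
  have h3 : (Polynomial.reflect d p).eval 0 = p.coeff d := by
    rw [← Polynomial.coeff_zero_eq_eval_zero, Polynomial.coeff_reflect, Polynomial.revAt_le (Nat.zero_le d), Nat.sub_zero]
  rw [h3] at h1
  refine h1.congr' ?_
  filter_upwards [ev_ne] with z hz
  let := invertibleOfNonzero hz
  have h5 := Polynomial.eval₂_reflect_mul_pow (RingHom.id ℂ) z d p hd
  rw [invOf_eq_inv] at h5
  change (Polynomial.reflect d p).eval z⁻¹ * z ^ d = p.eval z at h5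
  rw [← h5, mul_comm, mul_assoc, mul_inv_cancel₀ (pow_ne_zero d hz), mul_one]

/-- the leading term of a vector of polynomials -/
theorem lead {M : ℕ} {V : ℂ → EN M} (hV : Differentiable ℂ V) {C : ℝ} {k : ℕ} (hC : ∀ z, ‖V z‖ ≤ C * (1 + ‖z‖) ^ k) (h0 : ∃ z, V z ≠ 0) :
    ∃ (D : ℕ) (v : EN M), v ≠ 0 ∧ Tendsto (fun z : ℂ => (z ^ D)⁻¹ • V z) (cocompact ℂ) (𝓝 v) ∧
      Tendsto (fun z : ℂ => (z ^ D)⁻¹ • (z • deriv V z)) (cocompact ℂ) (𝓝 ((D : ℂ) • v)) ∧ ((∃ z z', V z ≠ V z') → 1 ≤ D) := by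
  have hp : ∀ i : Fin (M + 1), ∃ p : Polynomial ℂ, ∀ z, V z i = p.eval z := by
    intro i
    refine Pool.Agent.SY.exists_poly_of_growth k (fun z => V z i) C ?_ ?_
    · exact (EuclideanSpace.proj (𝕜 := ℂ) i).differentiable.comp hV
    · intro z
      exact (PiLp.norm_apply_le (V z) i).trans (hC z)
  choose p hp using hp
  obtain ⟨D, hD⟩ : ∃ D : ℕ, D = Finset.univ.sup fun l => (p l).natDegree := ⟨_, rfl⟩
  have hle : ∀ l, (p l).natDegree ≤ D := fun l => by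
    rw [hD]
    exact Finset.le_sup (f := fun l => (p l).natDegree) (Finset.mem_univ l)
  obtain ⟨l₀, -, hl₀⟩ : ∃ l₀ ∈ (Finset.univ : Finset (Fin (M + 1))), D = (p l₀).natDegree := by
    rw [hD]
    exact Finset.exists_mem_eq_sup _ Finset.univ_nonempty _
  have hconst : D = 0 → ∀ z l, V z l = (p l).coeff 0 := by
    intro h0 z l
    have h1 : (p l).natDegree = 0 := Nat.le_zero.mp (h0 ▸ hle l)
    rw [hp l z, Polynomial.eq_C_of_natDegree_eq_zero h1, Polynomial.eval_C, Polynomial.coeff_C_zero]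
  obtain ⟨v, hv⟩ : ∃ v : EN M, v = WithLp.toLp 2 fun l => (p l).coeff D := ⟨_, rfl⟩
  have hv0 : v ≠ 0 := by
    intro h
    have h1 : ∀ l, (p l).coeff D = 0 := fun l => by
      have := congrArg (fun x : EN M => x l) h
      rw [hv] at this
      exact this
    have h2 : p l₀ = 0 := by
      have := h1 l₀
      rw [hl₀] at this
      exact Polynomial.leadingCoeff_eq_zero.1 this
    have h3 : D = 0 := by rw [hl₀, h2, Polynomial.natDegree_zero]
    obtain ⟨z, hz⟩ := h0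
    apply hz
    ext l
    rw [hconst h3 z l]
    have := h1 l
    rw [h3] at this
    exact this
  have hlimv : ∀ (q : Fin (M + 1) → Polynomial ℂ) (W : ℂ → EN M) (c : ℂ), (∀ l, (q l).natDegree ≤ D) → (∀ z l, W z l = (q l).eval z) →
      (∀ l, (q l).coeff D = c * (p l).coeff D) → Tendsto (fun z : ℂ => (z ^ D)⁻¹ • W z) (cocompact ℂ) (𝓝 (c • v)) := by
    intro q W c hq hW hc
    have h1 : Tendsto (fun z : ℂ => fun l => (z ^ D)⁻¹ * (q l).eval z) (cocompact ℂ) (𝓝 fun l => (q l).coeff D) :=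
      tendsto_pi_nhds.2 fun l => poly_lim (q l) (hq l)
    have h2 := ((PiLp.continuous_toLp 2 (fun _ : Fin (M + 1) => ℂ)).tendsto (fun l => (q l).coeff D)).comp h1
    have h3 : (WithLp.toLp 2 (fun l => (q l).coeff D) : EN M) = c • v := by
      ext l
      rw [hv]
      exact hc l
    rw [h3] at h2
    refine h2.congr fun z => ?_
    ext l
    show (z ^ D)⁻¹ * (q l).eval z = (z ^ D)⁻¹ * W z l
    rw [hW]
  refine ⟨D, v, hv0, ?_, ?_, ?_⟩
  · have h1 := hlimv p V 1 hle (fun z l => hp l z) (fun l => (one_mul _).symm)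
    rwa [one_smul] at h1
  · refine hlimv (fun l => Polynomial.X * Polynomial.derivative (p l)) (fun z => z • deriv V z) D ?_ ?_ ?_
    · intro l
      rw [Polynomial.natDegree_le_iff_coeff_eq_zero]
      intro n hn
      obtain ⟨m, rfl⟩ : ∃ m, n = m + 1 := ⟨n - 1, by omega⟩
      rw [Polynomial.coeff_X_mul, Polynomial.coeff_derivative, Polynomial.coeff_eq_zero_of_natDegree_lt ((hle l).trans_lt hn), zero_mul]
    · intro z l
      have h1 : HasDerivAt (fun z => V z l) ((deriv V z) l) z :=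
        (EuclideanSpace.proj (𝕜 := ℂ) l).hasFDerivAt.comp_hasDerivAt z (hV z).hasDerivAt
      have h2 : HasDerivAt (fun z => V z l) ((Polynomial.derivative (p l)).eval z) z := by
        have h3 : (fun z => V z l) = fun z => (p l).eval z := funext fun z => hp l z
        rw [h3]
        exact (p l).hasDerivAt z
      show z * (deriv V z) l = (Polynomial.X * Polynomial.derivative (p l)).eval z
      rw [h1.unique h2, Polynomial.eval_mul, Polynomial.eval_X]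
    · intro l
      show (Polynomial.X * Polynomial.derivative (p l)).coeff D = D * (p l).coeff D
      rcases Nat.eq_zero_or_pos D with h | h
      · rw [h]
        simp
      · obtain ⟨m, hm⟩ : ∃ m, D = m + 1 := ⟨D - 1, by omega⟩
        rw [hm, Polynomial.coeff_X_mul, Polynomial.coeff_derivative]
        push_cast
        ring
  · rintro ⟨z, z', hzz⟩
    by_contra hD0
    apply hzz
    ext l
    rw [hconst (by omega) z l, hconst (by omega) z' l]

theorem lead_inner {M : ℕ} {V : ℂ → EN M} {D : ℕ} {v : EN M} (hv : v ≠ 0) (h1 : Tendsto (fun z : ℂ => (z ^ D)⁻¹ • V z) (cocompact ℂ) (𝓝 v))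
    (h2 : Tendsto (fun z : ℂ => (z ^ D)⁻¹ • (z • deriv V z)) (cocompact ℂ) (𝓝 ((D : ℂ) • v))) :
    Tendsto (fun z : ℂ => z * (inner ℂ (V z) (deriv V z) / (‖V z‖ : ℂ) ^ 2)) (cocompact ℂ) (𝓝 (D : ℂ)) := by
  have hv' : (‖v‖ : ℂ) ≠ 0 := by exact_mod_cast norm_ne_zero_iff.2 hv
  have h3 : Tendsto (fun z : ℂ => (inner ℂ ((z ^ D)⁻¹ • V z) ((z ^ D)⁻¹ • (z • deriv V z)) : ℂ) / (‖(z ^ D)⁻¹ • V z‖ : ℂ) ^ 2) (cocompact ℂ)
      (𝓝 ((inner ℂ v ((D : ℂ) • v) : ℂ) / (‖v‖ : ℂ) ^ 2)) :=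
    (h1.inner h2).div (((Complex.continuous_ofReal.tendsto _).comp h1.norm).pow 2) (pow_ne_zero 2 hv')
  have h4 : (inner ℂ v ((D : ℂ) • v) : ℂ) / (‖v‖ : ℂ) ^ 2 = D := by
    rw [inner_smul_right, inner_self_eq_norm_sq_to_K]
    exact mul_div_cancel_right₀ _ (pow_ne_zero 2 hv')
  rw [h4] at h3
  refine h3.congr' ?_
  filter_upwards [ev_ne] with z hz
  have hc : (z ^ D)⁻¹ ≠ 0 := inv_ne_zero (pow_ne_zero D hz)
  generalize (z ^ D)⁻¹ = c at hc
  have hc1 : (starRingEnd ℂ) c * c = (‖c‖ : ℂ) ^ 2 := Complex.conj_mul' c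
  have hc2 : (‖c‖ : ℂ) ^ 2 ≠ 0 := pow_ne_zero 2 (by exact_mod_cast norm_ne_zero_iff.2 hc)
  rw [inner_smul_left, inner_smul_right, inner_smul_right, norm_smul, Complex.ofReal_mul, mul_pow, ← mul_div_assoc,
    ← mul_div_mul_left (z * inner ℂ (V z) (deriv V z)) ((‖V z‖ : ℂ) ^ 2) hc2]
  congr 1
  rw [← hc1]
  ring

theorem lead_fs {F : ℂ → EN N} (h0 : ∀ z, F z ≠ 0) {D : ℕ} {v : EN N} (hv : v ≠ 0) (h1 : Tendsto (fun z : ℂ => (z ^ D)⁻¹ • F z) (cocompact ℂ) (𝓝 v))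
    (h2 : Tendsto (fun z : ℂ => (z ^ D)⁻¹ • (z • deriv F z)) (cocompact ℂ) (𝓝 ((D : ℂ) • v))) :
    Tendsto (fun z : ℂ => ‖z‖ * fs (F z) (deriv F z)) (cocompact ℂ) (𝓝 0) := by
  have h3 : Tendsto (fun z : ℂ => ‖(z ^ D)⁻¹ • (z • deriv F z) - (D : ℂ) • ((z ^ D)⁻¹ • F z)‖ / ‖(z ^ D)⁻¹ • F z‖) (cocompact ℂ)
      (𝓝 (‖(D : ℂ) • v - (D : ℂ) • v‖ / ‖v‖)) :=
    ((h2.sub (h1.const_smul (D : ℂ))).norm).div h1.norm (norm_ne_zero_iff.2 hv)
  rw [sub_self, norm_zero, zero_div] at h3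
  have hfs : ∀ x w : EN N, 0 ≤ fs x w := fun x w => div_nonneg (Real.sqrt_nonneg _) (by positivity)
  refine squeeze_zero' (Eventually.of_forall fun z => mul_nonneg (norm_nonneg _) (hfs _ _)) ?_ h3
  filter_upwards [ev_ne] with z hz
  have hc : (z ^ D)⁻¹ ≠ 0 := inv_ne_zero (pow_ne_zero D hz)
  have h4 := Pool.Agent.H36.BP.fs_inv (h0 z) (z • deriv F z) hc (-(D : ℂ) * (z ^ D)⁻¹)
  rw [Pool.Agent.H36.BP.fs_smul_right] at h4
  rw [← h4]
  refine (Pool.Agent.H14.PP.fs_le (smul_ne_zero hc (h0 z)) _).trans (le_of_eq ?_)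
  congr 2
  rw [neg_mul, neg_smul, ← sub_eq_add_neg, mul_smul]

theorem growthE (hG : G.Ok) {F : ℂ → EN N} (hF : G.Line F) (i : G.ι) : ∃ (C : ℝ) (k : ℕ), ∀ z, ‖G.E i (F z)‖ ≤ C * (1 + ‖z‖) ^ k := by
  obtain ⟨C, k, hC⟩ := hF.pol
  obtain ⟨B, hB⟩ := (isCompact_sphere (0 : EN N) 1).exists_bound_of_continuousOn
    (f := G.E i) (fun x _ => (hG.anE i x).continuousAt.continuousWithinAt)
  refine ⟨|B| * C ^ G.c i, k * G.c i, fun z => ?_⟩
  have h0 : F z ≠ 0 := ne0 hG (hF.mem z)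
  have hn : ‖F z‖ ≠ 0 := norm_ne_zero_iff.2 h0
  have h1 : F z = (‖F z‖ : ℂ) • ((‖F z‖ : ℂ)⁻¹ • F z) := by
    rw [smul_smul, mul_inv_cancel₀ (by exact_mod_cast hn), one_smul]
  have h2 : ‖(‖F z‖ : ℂ)⁻¹ • F z‖ = 1 := by
    rw [norm_smul, norm_inv, Complex.norm_real, norm_norm, inv_mul_cancel₀ hn]
  have h3 : ‖G.E i (F z)‖ = ‖F z‖ ^ G.c i * ‖G.E i ((‖F z‖ : ℂ)⁻¹ • F z)‖ := by
    conv_lhs => rw [h1]
    rw [hG.smulE, norm_smul, norm_pow, Complex.norm_real, norm_norm]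
  rw [h3]
  have h4 : ‖G.E i ((‖F z‖ : ℂ)⁻¹ • F z)‖ ≤ |B| := (hB _ (mem_sphere_zero_iff_norm.2 h2)).trans (le_abs_self B)
  have h5 : ‖F z‖ ^ G.c i ≤ (C * (1 + ‖z‖) ^ k) ^ G.c i := pow_le_pow_left₀ (norm_nonneg _) (hC z) _
  have h6 : (C * (1 + ‖z‖) ^ k) ^ G.c i = C ^ G.c i * (1 + ‖z‖) ^ (k * G.c i) := by
    rw [mul_pow, ← pow_mul]
  rw [h6] at h5
  calc ‖F z‖ ^ G.c i * ‖G.E i ((‖F z‖ : ℂ)⁻¹ • F z)‖ ≤ (C ^ G.c i * (1 + ‖z‖) ^ (k * G.c i)) * |B| :=
        mul_le_mul h5 h4 (norm_nonneg _) ((pow_nonneg (norm_nonneg _) _).trans h5)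
    _ = |B| * C ^ G.c i * (1 + ‖z‖) ^ (k * G.c i) := by ring

theorem ell_lim (hG : G.Ok) {F : ℂ → EN N} (hF : G.Line F) {D : ℕ} {v : EN N} (hv : v ≠ 0)
    (h1 : Tendsto (fun z : ℂ => (z ^ D)⁻¹ • F z) (cocompact ℂ) (𝓝 v))
    (h2 : Tendsto (fun z : ℂ => (z ^ D)⁻¹ • (z • deriv F z)) (cocompact ℂ) (𝓝 ((D : ℂ) • v))) (i : G.ι) :
    ∃ M : ℂ, Tendsto (fun z : ℂ => z * G.ell i (F z) (deriv F z)) (cocompact ℂ) (𝓝 M) ∧ (G.E i v = 0 → M ≠ 0) := by
  obtain ⟨C, k, hC⟩ := growthE hG hF i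
  have hVd : Differentiable ℂ fun z => G.E i (F z) := fun z => (hG.anE i (F z)).differentiableAt.comp z (hF.diff z)
  obtain ⟨D', v', hv', h1', h2', -⟩ := lead hVd hC ⟨0, hG.neE i _ (hF.mem 0)⟩
  have hder : ∀ z, deriv (fun z => G.E i (F z)) z = fderiv ℂ (G.E i) (F z) (deriv F z) := fun z =>
    ((hG.anE i (F z)).differentiableAt.hasFDerivAt.comp_hasDerivAt z (hF.diff z).hasDerivAt).deriv
  refine ⟨(D' : ℂ) - G.c i * D, ?_, ?_⟩
  · have h3 := (lead_inner hv' h1' h2').sub ((lead_inner hv h1 h2).const_mul (G.c i : ℂ))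
    refine h3.congr fun z => ?_
    rw [hder]
    unfold Geo.ell
    ring
  · intro hE h0
    have h4 : D' = D * G.c i := by
      have h5 : (D' : ℂ) = ((G.c i * D : ℕ) : ℂ) := by
        push_cast
        exact sub_eq_zero.1 h0
      rw [mul_comm]
      exact_mod_cast h5
    apply hv'
    have h5 : Tendsto (fun z : ℂ => G.E i ((z ^ D)⁻¹ • F z)) (cocompact ℂ) (𝓝 0) := by
      rw [← hE]
      exact (hG.anE i v).continuousAt.tendsto.comp h1
    refine tendsto_nhds_unique h1' (h5.congr fun z => ?_)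
    rw [hG.smulE, h4, pow_mul, inv_pow]

theorem pd_lt {x y : EN N} (hx : x ≠ 0) (hy : y ≠ 0) {r : ℝ} (h : dist (pr x) (pr y) < r) : pd x y < r := by
  have h1 : 0 ≤ pd x y := div_nonneg (Real.sqrt_nonneg _) (by positivity)
  have h2 : dist (pr x) (pr y) = Real.sqrt 2 * pd x y := Pool.Agent.H62.EF.dist_pr hx hy
  have h3 : 1 ≤ Real.sqrt 2 := by
    rw [Real.one_le_sqrt]
    norm_num
  rw [h2] at h
  nlinarith

/-- the end of a line -/
theorem line_smooth (hG : G.Ok) {F : ℂ → EN N} (hF : G.Line F) : ∃ v : EN N, v ∈ G.X ∧ v ∉ G.K ∧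
    Tendsto (fun w => pr (F w)) (cocompact ℂ) (𝓝 (pr v)) ∧ ((∀ i i' : G.ι, i ≠ i' → G.E i v = 0 → G.E i' v ≠ 0) → ∃ (r B : ℝ), 0 < r ∧ ∀ x ∈ G.K,
      dist (pr x) (pr v) < r → ∀ w, Tan G.X x w → ∀ j, ‖G.w j x w‖ ≤ B * fs x w * G.L x w ^ (G.m j - 1)) := by
  obtain ⟨C₀, k₀, hC₀⟩ := hF.pol
  have hF0 : ∀ z, F z ≠ 0 := fun z => ne0 hG (hF.mem z)
  obtain ⟨D, v, hv, h1, h2, hD⟩ := lead hF.diff hC₀ ⟨0, hF0 0⟩
  have hD1 : 1 ≤ D := hD hF.ne
  have hX : ∀ᶠ z : ℂ in cocompact ℂ, (z ^ D)⁻¹ • F z ∈ G.X := by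
    filter_upwards [ev_ne] with z hz
    exact hG.surf.smul _ (KX hG (hF.mem z)) _ (inv_ne_zero (pow_ne_zero _ hz))
  have hvX : v ∈ G.X := hG.surf.closed v (mem_closure_of_tendsto h1 hX) hv
  have hpv : G.p v = 0 := by
    have h3 : Tendsto (fun z : ℂ => G.p ((z ^ D)⁻¹ • F z)) (cocompact ℂ) (𝓝 (G.p v)) := (hG.aff.an () v).continuousAt.tendsto.comp h1
    have h4 : Tendsto (fun z : ℂ => G.p ((z ^ D)⁻¹ • F z)) (cocompact ℂ) (𝓝 0) := by
      have h5 := tinv.pow (D * G.h)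
      have hh : 1 ≤ G.h := hG.aff.pos ()
      rw [zero_pow (Nat.mul_ne_zero (by omega) (by omega))] at h5
      refine h5.congr fun z => ?_
      rw [p_smul hG, hF.nm z, mul_one, ← inv_pow, ← pow_mul]
    exact tendsto_nhds_unique h3 h4
  have hvK : v ∉ G.K := fun hK => p_ne hG hK hpv
  have hpr : Tendsto (fun w => pr (F w)) (cocompact ℂ) (𝓝 (pr v)) := by
    have h3 := (Pool.Agent.H62.EF.continuousAt_pr hv).tendsto.comp h1
    refine h3.congr' ?_
    filter_upwards [ev_ne] with z hz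
    exact Pool.Agent.H62.EF.pr_smul _ (inv_ne_zero (pow_ne_zero _ hz))
  refine ⟨v, hvX, hvK, hpr, fun hs => ?_⟩
  obtain ⟨i₀, hi₀⟩ := hG.oneE v hvX hvK
  obtain ⟨Q, r, C, hr, hC, hQh, hQs, hQ⟩ := hG.resL v hvX hvK
  choose M hM hM0 using ell_lim hG hF hv h1 h2
  have hfs := lead_fs hF0 hv h1 h2
  have hL : Tendsto (fun z : ℂ => ‖z‖ * G.L (F z) (deriv F z)) (cocompact ℂ) (𝓝 (0 + ∑ i, ‖M i‖)) := by
    have h3 := hfs.add (tendsto_finsetSum (Finset.univ : Finset G.ι) fun i _ => (hM i).norm)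
    refine h3.congr fun z => ?_
    unfold Geo.L
    rw [mul_add, Finset.mul_sum]
    congr 1
    refine Finset.sum_congr rfl fun i _ => ?_
    rw [norm_mul]
  have hnear : ∀ᶠ z : ℂ in cocompact ℂ, pd (F z) v < r := by
    filter_upwards [(Metric.tendsto_nhds.1 hpr) r hr] with z hz
    exact pd_lt (hF0 z) hv hz
  have hzero : ∀ j, MvPolynomial.eval M (Q j) = 0 := by
    intro j
    have hm1 := hG.one_m j
    have h3 : Tendsto (fun z : ℂ => MvPolynomial.eval (fun i => z * G.ell i (F z) (deriv F z)) (Q j)) (cocompact ℂ) (𝓝 (MvPolynomial.eval M (Q j))) :=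
      ((MvPolynomial.continuous_eval (Q j)).tendsto M).comp (tendsto_pi_nhds.2 hM)
    have h4 : Tendsto (fun z : ℂ => z ^ G.m j * G.w j (F z) (deriv F z) - MvPolynomial.eval (fun i => z * G.ell i (F z) (deriv F z)) (Q j)) (cocompact ℂ) (𝓝 0) := by
      have h5 : Tendsto (fun z : ℂ => C * (‖z‖ * fs (F z) (deriv F z)) * (‖z‖ * G.L (F z) (deriv F z)) ^ (G.m j - 1)) (cocompact ℂ)
          (𝓝 (C * 0 * (0 + ∑ i, ‖M i‖) ^ (G.m j - 1))) := (hfs.const_mul C).mul (hL.pow _)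
      rw [mul_zero, zero_mul] at h5
      refine squeeze_zero_norm' ?_ h5
      filter_upwards [hnear] with z hz
      rw [eval_smul_of_hom (hQh j), ← mul_sub, norm_mul, norm_pow]
      have h6 := hQ (F z) (hF.mem z) hz j (deriv F z) (tan hG hF.diff hF.mem z)
      calc ‖z‖ ^ G.m j * ‖G.w j (F z) (deriv F z) - MvPolynomial.eval (fun i => G.ell i (F z) (deriv F z)) (Q j)‖
          ≤ ‖z‖ ^ G.m j * (C * fs (F z) (deriv F z) * G.L (F z) (deriv F z) ^ (G.m j - 1)) := mul_le_mul_of_nonneg_left h6 (by positivity)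
        _ = C * (‖z‖ * fs (F z) (deriv F z)) * (‖z‖ * G.L (F z) (deriv F z)) ^ (G.m j - 1) := by
          have h7 : ‖z‖ ^ G.m j = ‖z‖ * ‖z‖ ^ (G.m j - 1) := by
            rw [← pow_succ']
            congr 1
            omega
          rw [h7, mul_pow]
          ring
    have h5 : Tendsto (fun z : ℂ => z ^ G.m j * G.w j (F z) (deriv F z)) (cocompact ℂ) (𝓝 (MvPolynomial.eval M (Q j))) := by
      have h6 := h4.add h3
      rw [zero_add] at h6
      refine h6.congr fun z => ?_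
      ring
    have h6 : Tendsto (fun z : ℂ => G.w j (F z) (deriv F z)) (cocompact ℂ) (𝓝 0) := by
      have h7 := (tinv.pow (G.m j)).mul h5
      rw [zero_pow (by omega), zero_mul] at h7
      refine h7.congr' ?_
      filter_upwards [ev_ne] with z hz
      rw [← mul_assoc, inv_pow, inv_mul_cancel₀ (pow_ne_zero _ hz), one_mul]
    have h7 := (ClN_hol hG hF.diff hF.mem j).eq_const_of_tendsto_cocompact h6
    have h8 : ∀ z, G.w j (F z) (deriv F z) = 0 := fun z => congrFun h7 z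
    refine tendsto_nhds_unique h5 ?_
    refine (tendsto_const_nhds (x := (0 : ℂ))).congr fun z => ?_
    rw [h8 z, mul_zero]
  have hQ0 : ∀ j u, MvPolynomial.eval u (Q j) = 0 := by
    intro j u
    have h3 : MvPolynomial.eval u (Q j) = MvPolynomial.eval (fun i => u i₀ / M i₀ * M i) (Q j) := by
      refine hQs j _ _ fun i hi => ?_
      have h4 : i = i₀ := by
        by_contra hne
        exact hs i₀ i (fun h => hne h.symm) hi₀ hi
      rw [h4, div_mul_cancel₀ _ (hM0 i₀ hi₀)]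
    rw [h3, eval_smul_of_hom (hQh j), hzero j, mul_zero]
  refine ⟨r, C, hr, fun x hx hd w hw j => ?_⟩
  have h3 := hQ x hx (pd_lt (ne0 hG hx) hv hd) j w hw
  rwa [hQ0, sub_zero] at h3

end LSmo

open LSmo in
theorem ends_smooth (hG : G.Ok) : ∃ Y : Finset (EN N), G.Ends Y ∧ G.Smooth Y := by
  classical
  obtain ⟨n, Φ, hΦ, hall⟩ := hG.lines
  choose v hvX hvK hv hvs using fun k => line_smooth hG (hΦ k)
  have hr : ∀ P : MN N, ∃ y : EN N, (∃ k, pr (v k) = P) → (∃ k, y = v k) ∧ pr y = P := by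
    intro P
    by_cases h : ∃ k, pr (v k) = P
    · obtain ⟨k, hk⟩ := h
      exact ⟨v k, fun _ => ⟨⟨k, rfl⟩, hk⟩⟩
    · exact ⟨0, fun h' => absurd h' h⟩
  choose f hf using hr
  refine ⟨Finset.univ.image fun k => f (pr (v k)), ⟨?_, ?_, ?_⟩, ?_⟩
  · intro y hy
    obtain ⟨k, -, rfl⟩ := Finset.mem_image.1 hy
    obtain ⟨⟨j, hj⟩, -⟩ := hf (pr (v k)) ⟨k, rfl⟩
    rw [hj]
    exact ⟨hvX j, hvK j⟩
  · intro y hy y' hy' h
    obtain ⟨k, -, rfl⟩ := Finset.mem_image.1 hy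
    obtain ⟨k', -, rfl⟩ := Finset.mem_image.1 hy'
    rw [(hf (pr (v k)) ⟨k, rfl⟩).2, (hf (pr (v k')) ⟨k', rfl⟩).2] at h
    rw [h]
  · intro ε hε
    have h1 : ∀ k, ∃ B : ℝ, ∀ w, B ≤ Real.log ‖Φ k w‖ → dist (pr (Φ k w)) (pr (v k)) < ε := by
      intro k
      have h2 : ∀ᶠ w in cocompact ℂ, dist (pr (Φ k w)) (pr (v k)) < ε := (Metric.tendsto_nhds.mp (hv k)) ε hε
      obtain ⟨W, hW, hWs⟩ := mem_cocompact.mp h2
      obtain ⟨B, hB⟩ := hW.exists_bound_of_continuousOn (hΦ k).diff.continuous.continuousOn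
      refine ⟨Real.log (max B 1) + 1, fun w hw => ?_⟩
      by_contra hlt
      have hwW : w ∈ W := by
        by_contra hn
        exact hlt (hWs hn)
      have h3 : Real.log ‖Φ k w‖ ≤ Real.log (max B 1) :=
        Real.log_le_log (norm_pos_iff.mpr (ne0 hG ((hΦ k).mem w))) ((hB w hwW).trans (le_max_left _ _))
      linarith
    choose B hB using h1
    obtain ⟨B₀, hB₀⟩ := (Set.finite_range B).bddAbove
    refine ⟨B₀, fun φ hφ z hz => ?_⟩
    obtain ⟨k, hk⟩ := hall φ hφ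
    obtain ⟨w, hw⟩ := hk z
    refine ⟨f (pr (v k)), Finset.mem_image.mpr ⟨k, Finset.mem_univ k, rfl⟩, ?_⟩
    rw [(hf (pr (v k)) ⟨k, rfl⟩).2, hw]
    rw [hw] at hz
    exact hB k w ((hB₀ ⟨k, rfl⟩).trans hz)
  · intro y hy hs
    obtain ⟨k, -, rfl⟩ := Finset.mem_image.1 hy
    obtain ⟨⟨j, hj⟩, -⟩ := hf (pr (v k)) ⟨k, rfl⟩
    rw [hj] at hs ⊢
    exact hvs j hs

end Pool.Agent.SR3
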