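import Pool.Agent.SR3.LDefs

/-!
# SR3 LStub: the crossings of the boundary (helper62, note 4698 (3) - (5); stubs, never import this file in a finished file)

One section = one file `Pool/Agent/SR3/<Section>.lean`, with exactly these statements, in the namespace `Pool.Agent.SR3`; all over `Pool.Agent.SR3.Geo`.  Write
against this file, `CStub` and `StubG` with `open Stub`; when the real files are on main, replace the imports.  All imports from block A are `Pool.Agent.SR3.*`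
(ABas, ALam, AGrd, AGrw, AHar, ...), never `Pool.Agent.SR2.*`, never `GapD`, ASpd, ALbd, ALow, AStc.
-/

set_option autoImplicit false

open Topology Filter Metric

noncomputable section

namespace Pool.Agent.SR3

open Pool.Agent.H36.BP (EN fs wd Sub OrdTwo)
open Pool.Agent.H14.PP (IsCone Tan)
open Pool.Agent.SY (Ent)
open Pool.Agent.H62.EF (MN pr)
open Geo (Gd)

variable {N : ℕ} {G : Geo N} {T : Set (EN N)} {rho : EN N → ℝ} {M' : ℕ} {c₀ C₀ δ : ℝ} {g : (ℂ → EN N) → ℂ → ℝ}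
variable {y : EN N} {i : Fin 2 → G.ι} {l : Fin 2 → Fin (G.M + 1)} {P : G.J → MvPolynomial (Fin 2) ℂ} {r C α : ℝ}

namespace Stub

/-! ## LNear: the points near the crossing.  `H62.EF.norm_inner_sq` (H62/EF/PrA).  `crs_lam`: `lam i x = c log ‖x‖ - log ‖E x‖`.  `crs_ell`: for `u l ≠ 0`,
`c ‖u‖ ≤ |u l|`: `|⟪u, u'⟫ / ‖u‖ ^ 2 - u' l / u l| ≤ fs u u' / c` (write `u' = λ u + v`, `v ⟂ u`, `‖v‖ = wd u u' / ‖u‖`); the same for the linear form `⟪y, ·⟫`; `fsE`. -/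

theorem crs_inner {x y : EN N} (hx : x ≠ 0) (hy : y ≠ 0) (h : dist (pr x) (pr y) ≤ 1 / 2) : ‖x‖ * ‖y‖ ≤ 2 * ‖(inner ℂ y x : ℂ)‖ := by
  sorry

theorem crs_lam (hG : G.Ok) (hc : G.Crs y i l P r C α) : ∃ C' : ℝ, ∀ x ∈ G.K, dist (pr x) (pr y) < r → ∀ a,
    |G.lam (i a) x - (G.c (i a) * Real.log ‖(inner ℂ y x : ℂ)‖ - Real.log ‖(G.E (i a) x).ofLp (l a)‖)| ≤ C' := by
  sorry

theorem crs_ell (hG : G.Ok) (hc : G.Crs y i l P r C α) : ∃ C' : ℝ, ∀ F : ℂ → EN N, Differentiable ℂ F → (∀ z, F z ∈ G.K) → ∀ z, dist (pr (F z)) (pr y) < r →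
    ∀ a, ‖G.ell (i a) (F z) (deriv F z) -
      (logDeriv (fun w => (G.E (i a) (F w)).ofLp (l a)) z - G.c (i a) * logDeriv (fun w => (inner ℂ y (F w) : ℂ)) z)‖ ≤ C' * fs (F z) (deriv F z) := by
  sorry

/-! ## LCau: the Cauchy estimate.  `g = F / ⟪y, F⟫ - y / ‖y‖ ^ 2` is orthogonal to `y`, `‖g‖ = wd y F / (|⟪y, F⟫| ‖y‖) ≤ 2 τ / ‖y‖`;
`fs F F' = fs (y / ‖y‖ ^ 2 + g) g' ≤ ‖g'‖ ‖y‖` (`fs_inv`, `wd_le`). -/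

theorem crs_cauchy {y : EN N} (hy : y ≠ 0) {F : ℂ → EN N} (hF : Differentiable ℂ F) (h0 : ∀ z, F z ≠ 0) {z : ℂ} {t τ : ℝ} (ht : 0 < t) (hτ : τ ≤ 1 / 2)
    (h : ∀ w, ‖w - z‖ ≤ t → dist (pr (F w)) (pr y) ≤ τ) : fs (F z) (deriv F z) ≤ 4 * τ / t := by
  sorry

/-! ## LSum: the error terms.  The `k` with `‖z - ζ k‖ ≥ exp (- η ρ / 2)` give at most `B ρ exp (- η ρ / 2)`.  If `k₀` is one of the others, all the others are in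
`closedBall (ζ k₀) (2 exp (- η ρ / 2))`: at most `4 B / η` of them, each term is at most `1`. -/

theorem hl_sum {B η : ℝ} (hB : 1 ≤ B) (hη : 0 < η) : ∃ C' ρ₁ : ℝ, ∀ (κ : Type) [Fintype κ] (ζ : κ → ℂ) (s : κ → ℝ) (ρ : ℝ), ρ₁ ≤ ρ →
    (∀ k, 0 < s k ∧ s k ≤ Real.exp (-(η * ρ))) → Function.Injective ζ → (Fintype.card κ : ℝ) ≤ B * ρ →
    (∀ k t, 0 < t → t < ρ → ((Finset.univ.filter fun j => 0 < ‖ζ j - ζ k‖ ∧ ‖ζ j - ζ k‖ ≤ t).card : ℝ) * Real.log (ρ / t) ≤ B * ρ) →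
    ∀ z, (∀ k, s k ≤ ‖z - ζ k‖) → ∑ k, s k / ‖z - ζ k‖ ≤ C' := by
  sorry

/-! ## LWnd: winding numbers.  `wnd_scale`: change of variables.  `circle_fac`: `logDeriv f = g' + ∑ 1 / (z - b)`, Cauchy. -/

theorem wnd_scale {F : ℂ → EN N} (hF : Differentiable ℂ F) (y : EN N) (i : G.ι) (l : Fin (G.M + 1)) (ζ : ℂ) {s : ℝ} (hs : 0 < s) :
    G.wnd (fun w => F (ζ + s * w)) y i l 1 =
      ∮ z in C(ζ, s), (logDeriv (fun w => (G.E i (F w)).ofLp l) z - G.c i * logDeriv (fun w => (inner ℂ y (F w) : ℂ)) z) := by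
  sorry

theorem circle_fac {κ : Type} [Fintype κ] {ζ : κ → ℂ} {s : κ → ℝ} {f g : ℂ → ℂ} {n : κ → ℕ} {b : (k : κ) → Fin (n k) → ℂ} {z₀ : ℂ} {ρ : ℝ} (hs : ∀ k, 0 < s k)
    (hg : DifferentiableOn ℂ g (ball z₀ ρ)) (hb : ∀ k j, b k j ∈ closedBall (ζ k) (s k / 2)) (hfg : ∀ z ∈ ball z₀ ρ, f z = Complex.exp (g z) * ∏ k, ∏ j, (z - b k j))
    (k : κ) (hk : ‖ζ k - z₀‖ + s k < ρ) (hsep : ∀ j, j ≠ k → s k + s j < ‖ζ j - ζ k‖) :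
    (∮ z in C(ζ k, s k), logDeriv f z) = 2 * Real.pi * Complex.I * n k := by
  sorry

/-! ## LZer: factorization along the holes: `fac` (radii `s k / 2`), `fac_count` (radius `s k / 2`, so the sphere has the radius `4 s k`; a point `z` of the rim
`‖z - ζ k‖ = s k`).  At the rim: `|⟪y, F⟫| ≥ ‖y‖ ‖F‖ / 2`, `log ‖F‖ ≥ - B₁` (`log_lower`); `|E l| ≥ c ‖E‖`, `log ‖E i x‖ = c i log ‖x‖ - lam i x ≥ - B₂`
(`lam_upperA`, `c_ge`). -/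

theorem hl_zer (hG : G.Ok) (hc : G.Crs y i l P r C α) {B η : ℝ} (hB : 1 ≤ B) (hη : 0 < η) : ∃ n₁ : ℝ, 0 ≤ n₁ ∧ ∀ (F : ℂ → EN N) (κ : Type) [Fintype κ]
    (ζ : κ → ℂ) (s : κ → ℝ) (M : κ → Fin 2 → ℕ) (z₀ : ℂ) (ρ K : ℝ), G.Hl y i l r F ζ s M z₀ ρ B η K → 0 < ρ → ∀ a, ∃ (n n' : κ → ℕ)
      (b : (k : κ) → Fin (n k) → ℂ) (b' : (k : κ) → Fin (n' k) → ℂ) (g g' : ℂ → ℂ), DifferentiableOn ℂ g (ball z₀ ρ) ∧ DifferentiableOn ℂ g' (ball z₀ ρ) ∧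
      (∀ k j, b k j ∈ closedBall (ζ k) (s k / 2)) ∧ (∀ k j, b' k j ∈ closedBall (ζ k) (s k / 2)) ∧
      (∀ z ∈ ball z₀ ρ, (inner ℂ y (F z) : ℂ) = Complex.exp (g z) * ∏ k, ∏ j, (z - b k j)) ∧
      (∀ z ∈ ball z₀ ρ, (G.E (i a) (F z)).ofLp (l a) = Complex.exp (g' z) * ∏ k, ∏ j, (z - b' k j)) ∧ ∀ k, (n k : ℝ) ≤ n₁ ∧ (n' k : ℝ) ≤ n₁ := by
  sorry

/-! ## LFac: `hl_zer` and the winding numbers (`wnd_scale`, `circle_fac`, `Hl.wind`) -/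

theorem hl_fac (hG : G.Ok) (hc : G.Crs y i l P r C α) {B η : ℝ} (hB : 1 ≤ B) (hη : 0 < η) : ∃ n₁ : ℝ, 0 ≤ n₁ ∧ ∀ (F : ℂ → EN N) (κ : Type) [Fintype κ]
    (ζ : κ → ℂ) (s : κ → ℝ) (M : κ → Fin 2 → ℕ) (z₀ : ℂ) (ρ K : ℝ), G.Hl y i l r F ζ s M z₀ ρ B η K → 0 < ρ → ∀ a, ∃ (n n' : κ → ℕ)
      (b : (k : κ) → Fin (n k) → ℂ) (b' : (k : κ) → Fin (n' k) → ℂ) (g g' : ℂ → ℂ), DifferentiableOn ℂ g (ball z₀ ρ) ∧ DifferentiableOn ℂ g' (ball z₀ ρ) ∧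
      (∀ k j, b k j ∈ closedBall (ζ k) (s k / 2)) ∧ (∀ k j, b' k j ∈ closedBall (ζ k) (s k / 2)) ∧
      (∀ z ∈ ball z₀ ρ, (inner ℂ y (F z) : ℂ) = Complex.exp (g z) * ∏ k, ∏ j, (z - b k j)) ∧
      (∀ z ∈ ball z₀ ρ, (G.E (i a) (F z)).ofLp (l a) = Complex.exp (g' z) * ∏ k, ∏ j, (z - b' k j)) ∧
      ∀ k, (n k : ℝ) ≤ n₁ ∧ (n' k : ℝ) ≤ n₁ ∧ (G.c (i a) : ℂ) * n k - n' k = M k a := by
  sorry

/-! ## LWd: the comparison.  `h a = c (i a) g - g'`; `fac_log`, `fac_deriv` with the radii `s k / 2` (errors `n₁ s k / ‖z - ζ k‖`), `hl_sum`, `crs_lam`, `crs_ell`;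
`low`: `lam_lowerA`; `upp`, `rim`: `lam_upperA`, `Hl.upp`, `Hl.bdd`. -/

theorem hl_wd (hG : G.Ok) (hc : G.Crs y i l P r C α) {B η : ℝ} (hB : 1 ≤ B) (hη : 0 < η) : ∃ C' ρ₁ : ℝ, 1 ≤ C' ∧ ∀ (F : ℂ → EN N) (κ : Type) [Fintype κ]
    (ζ : κ → ℂ) (s : κ → ℝ) (M : κ → Fin 2 → ℕ) (z₀ : ℂ) (ρ K : ℝ), G.Hl y i l r F ζ s M z₀ ρ B η K → ρ₁ ≤ ρ → ∃ h, G.Cmp i F ζ s M h z₀ ρ C' η K := by
  sorry

/-! ## LSl: a bound for `sl`.  On `ball z t` the function `f = h a + ∑ M k a log (1 + (w - z) / (z - ζ k))` is holomorphic, `Re f + const = sg a ≥ - C`, `f' = sl a`: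
`SR3/AHar` (`deriv_le_re`). -/

theorem sl_le {κ : Type} [Fintype κ] {ζ : κ → ℂ} {s : κ → ℝ} {M : κ → Fin 2 → ℕ} {h : Fin 2 → ℂ → ℂ} {z₀ : ℂ} {ρ C η K : ℝ} (W : Wd ζ s M h z₀ ρ C η K)
    (hC : 1 ≤ C) (hρ : 1 ≤ ρ) {z : ℂ} {t : ℝ} (ht : 0 < t) (hb : ball z t ⊆ ball z₀ ρ) (hz : ∀ k, s k + t ≤ ‖z - ζ k‖) (a : Fin 2) :
    ‖sl ζ M h a z‖ ≤ 4 * C * ρ / t := by
  sorry

/-! ## LPol: polynomials are Lipschitz on bounded sets (sum over the monomials; `MvPolynomial.induction_on` or `P.support`) -/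

theorem crs_lip {m : ℕ} {P : MvPolynomial (Fin 2) ℂ} (hP : P.IsHomogeneous m) : ∃ C : ℝ, 0 ≤ C ∧ ∀ (u v : Fin 2 → ℂ) (R e : ℝ), 1 ≤ R → (∀ a, ‖u a‖ ≤ R) →
    (∀ a, ‖v a‖ ≤ R) → (∀ a, ‖u a - v a‖ ≤ e) → ‖MvPolynomial.eval u P - MvPolynomial.eval v P‖ ≤ C * R ^ m * e := by
  sorry

theorem crs_neg {m : ℕ} {P : MvPolynomial (Fin 2) ℂ} (hP : P.IsHomogeneous m) (u : Fin 2 → ℂ) :
    MvPolynomial.eval (fun a => -u a) P = (-1) ^ m * MvPolynomial.eval u P := by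
  sorry

/-! ## LRes: the residue relation.  `wd_low` for `ε / 2`: `lam (i a) ≥ c ρ - C'` at the distance `exp (- θ₁ ρ)` from the wells, in `ball z₀ ((1 - ε / 2) ρ)`.  For
`θ ≤ θ₁ / 2`, `η / 2`, on `closedBall z t`, `t = exp (- θ ρ) / 2`: `dist (pr F) (pr y) ≤ C exp (- α (c ρ - C'))`; `crs_cauchy`: `fs F F' ≤ exp (- α c ρ / 2)` for
`θ ≤ α c / 4`.  `sl_le`: `‖sl‖ ≤ exp (2 θ ρ)`, `Cmp.ell`: `‖ell + sl‖ ≤ exp (- β ρ)`, `Crs.oth`: `L ≤ exp (3 θ ρ)`; `Crs.res`, `crs_lip`, `crs_neg`; `θ` small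
against `α c / m`, `η / m` for all `m = m j`. -/

theorem hl_res (hG : G.Ok) (hc : G.Crs y i l P r C α) {B η ε C' : ℝ} (hB : 1 ≤ B) (hη : 0 < η) (hε : 0 < ε) (hC' : 1 ≤ C') : ∃ θ₀ : ℝ, 0 < θ₀ ∧
    ∀ θ : ℝ, 0 < θ → θ ≤ θ₀ → ∃ ρ₁ : ℝ, ∀ (F : ℂ → EN N) (κ : Type) [Fintype κ] (ζ : κ → ℂ) (s : κ → ℝ) (M : κ → Fin 2 → ℕ) (h : Fin 2 → ℂ → ℂ) (z₀ : ℂ)
      (ρ K : ℝ), G.Hl y i l r F ζ s M z₀ ρ B η K → G.Cmp i F ζ s M h z₀ ρ C' η K → 2 ≤ K → ρ₁ ≤ ρ → (∃ k, ζ k = z₀) → ∀ q : G.J → ℂ,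
        (∀ j z, G.w j (F z) (deriv F z) = q j) → ∀ j, ∀ z ∈ ball z₀ ((1 - ε) * ρ), (∀ k, Real.exp (-(θ * ρ)) ≤ ‖z - ζ k‖) →
          ‖MvPolynomial.eval (fun a => sl ζ M h a z) (P j) - (-1) ^ G.m j * q j‖ ≤ θ := by
  sorry

/-! ## LMac: the end of the local theory.  `nq q = 1`: some `j` has `‖q j‖ ≥ (1 / |J|) ^ m j`, and `‖q j‖ ≤ 1`; `wd_macro` for `P j`, `(-1) ^ m j q j`; `hl_wd`,
`hl_res`; `|sg a| ≤ |lam (i a)| + C'`, `lam_lowerA`, `lam_upperA`.  In the holes (`‖z - ζ k‖ < s k`): take `z'` on the rim with `Re (l (z' - z)) = 0` (the line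
through `z` orthogonal to the direction of `conj l`); there `log ‖F‖ ≤ B`, and `log ‖F z‖ ≥ - B₁` (`log_lower`). -/

theorem hl_macro (hG : G.Ok) (hc : G.Crs y i l P r C α) : ∃ c₁ : ℝ, 0 < c₁ ∧ ∀ B η ε : ℝ, 1 ≤ B → 0 < η → 0 < ε → ∃ K₁ ρ₁ : ℝ, ∀ (q : G.J → ℂ)
    (F : ℂ → EN N) (κ : Type) [Fintype κ] (ζ : κ → ℂ) (s : κ → ℝ) (M : κ → Fin 2 → ℕ) (z₀ : ℂ) (ρ K : ℝ), G.nq q = 1 →
      (∀ j z, G.w j (F z) (deriv F z) = q j) → G.Hl y i l r F ζ s M z₀ ρ B η K → K₁ ≤ K → ρ₁ ≤ ρ → (∃ k, ζ k = z₀) → ∃ u : ℂ, c₁ ≤ ‖u‖ ∧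
        ∀ z, ‖z - z₀‖ ≤ (1 - ε) * ρ → |(u * (z - z₀)).re| ≤ 2 * G.h * Real.log ‖F z‖ + ε * ρ := by
  sorry

/-! ## LRad: a radius for the disc.  The sum of the radii is at most `B d exp (- η d)`; `exists_rad` with `τ = 5 s`, or as `good_circle`. -/

theorem hl_rad {B η τ : ℝ} (hη : 0 < η) (hτ : 0 < τ) : ∃ R : ℝ, ∀ (t : Finset ℂ) (s : ℂ → ℝ) (a : ℂ) (d : ℝ), R ≤ d → (t.card : ℝ) ≤ B * d →
    (∀ b ∈ t, 0 < s b ∧ s b ≤ Real.exp (-(η * d))) → ∃ ρ : ℝ, (1 - 2 * τ) * d < ρ ∧ ρ < (1 - τ) * d ∧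
      ∀ b ∈ t, ‖b - a‖ + 4 * s b < ρ ∨ ρ + 4 * s b < ‖b - a‖ := by
  sorry

/-! ## LHlA: from `Holes` to `Hl`: `κ` = the holes `b ∈ t` with `‖b - a‖ < ρ`.  `y b = y a` for them: at a point `b + s b w`, `‖w‖ = 1` (which is `Off`) the curve is
`ε₂`-near `y a` and `ε`-near `y b`, `Ends.inj` and `hsepY`.  `near`: `hst` outside the holes, `Rim.ann` for `1 / 2 ≤ ‖w‖ ≤ 1`.  `wind`, `one`, `M_le`: `Rim.wind`.  `sepN`: `hpar`. -/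

theorem hl_of (hG : G.Ok) {Y : Finset (EN N)} (hY : G.Ends Y) {B₃ B₄ B₅ ε ε₂ r η τ : ℝ} (hε : ε ≤ r) (hε2 : ε₂ ≤ r) (hεp : 0 < ε)
    (hsepY : ∀ y ∈ Y, ∀ y' ∈ Y, dist (pr y) (pr y') < ε + ε₂ → pr y = pr y') (hη : 0 < η) (hτ : 0 < τ) (hτ1 : τ ≤ 1 / 8) {i : Fin 2 → G.ι}
    {l : Fin 2 → Fin (G.M + 1)} {F : ℂ → EN N} {z : ℂ} {d K : ℝ} {t : Finset ℂ} {s : ℂ → ℝ} {yy : ℂ → EN N} (hd : 8 / τ ≤ d) (hd' : Real.exp (-(η * d)) ≤ 1)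
    (hF : Differentiable ℂ F) (hK : ∀ w, F w ∈ G.K) (hnm : ∀ w, G.p (F w) = 1)
    (hH : G.Holes Y B₃ B₄ ε 20 (Real.exp (-(η * d))) F z ((1 - τ / 4) * d) t s yy) {a : ℂ} (ha : a ∈ t) (haz : ‖z - a‖ < s a / 2)
    (hi : ∀ e, G.E (i e) (yy a) = 0) (hl : ∀ e, G.LocEq r (yy a) (i e) (l e))
    (hst : ∀ w, ‖w - z‖ ≤ (1 - τ / 2) * d → Off t s w → dist (pr (F w)) (pr (yy a)) < ε₂)
    (hcard : (t.card : ℝ) ≤ B₅ * d)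
    (hcnt : ∀ b ∈ t, ‖b - z‖ ≤ (1 - τ / 2) * d → ∀ r' : ℝ, 0 < r' → r' < d →
      (((t.erase b).filter (fun b' => ‖b' - b‖ ≤ r')).card : ℝ) * Real.log (d / r') ≤ B₅ * d)
    (hpar : ∀ b ∈ t, ∀ b' ∈ t, ‖b - z‖ ≤ (1 - τ / 2) * d → ‖b - b'‖ ≤ K * max (s b) (s b') →
      G.wnd (fun w => F (b + s b * w)) (yy b) (i 0) (l 0) 1 * G.wnd (fun w => F (b' + s b' * w)) (yy b') (i 1) (l 1) 1 =
        G.wnd (fun w => F (b + s b * w)) (yy b) (i 1) (l 1) 1 * G.wnd (fun w => F (b' + s b' * w)) (yy b') (i 0) (l 0) 1)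
    {B₆ : ℝ} (hgr : ∀ w, ‖w - z‖ ≤ d → Real.log ‖F w‖ ≤ B₆ * d) {ρ : ℝ} (hρ1 : (1 - 2 * τ) * d < ρ) (hρ2 : ρ < (1 - τ) * d)
    (hρ : ∀ b ∈ t, ‖b - a‖ + 4 * s b < ρ ∨ ρ + 4 * s b < ‖b - a‖) {B : ℝ} (hB4 : B₄ ≤ B) (hB5 : 2 * |B₅| ≤ B) (hB6 : 2 * |B₆| ≤ B) :
    ∃ (κ : Type) (_ : Fintype κ) (ζ : κ → ℂ) (s' : κ → ℝ) (M : κ → Fin 2 → ℕ), G.Hl (yy a) i l r F ζ s' M a ρ B η K ∧ ∃ k, ζ k = a := by
  sorry

/-! ## LHlB: the holes near a well: `exists_holes`, `smooth_end`, `macro_stay`, `holes_count`, `holes_par`, `growth` (SR3/AGrw), `hl_rad`, `hl_of`; `τ` small.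
`LocEq` for a smaller `ε`. -/

theorem hl_ex (hG : G.Ok) (hM : G.Met T rho M' c₀ C₀ δ g) (hQ : G.QN rho) (hB : G.Bdry) {Y : Finset (EN N)} (hY : G.Ends Y)
    (hn : G.Smooth Y) {l : EN N → (Fin 2 → G.ι) → Fin 2 → Fin (G.M + 1)} {r : EN N → (Fin 2 → G.ι) → ℝ} (hr : ∀ y i, 0 < r y i)
    (hl : ∀ y ∈ Y, ∀ i : Fin 2 → G.ι, i 0 ≠ i 1 → (∀ a, G.E (i a) y = 0) → ∀ a, G.LocEq (r y i) y (i a) (l y i a)) (B₀ : ℝ) {τ : ℝ} (hτ : 0 < τ) :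
    ∃ B η : ℝ, 1 ≤ B ∧ 0 < η ∧ ∀ K : ℝ, ∃ R : ℝ, ∀ (q : G.J → ℂ) (F : ℂ → EN N), G.Cl T q F → ∀ z, R ≤ infDist z (Gd rho δ F) → Real.log ‖F z‖ ≤ B₀ →
      ∃ y ∈ Y, ∃ i : Fin 2 → G.ι, i 0 ≠ i 1 ∧ (∀ a, G.E (i a) y = 0) ∧ ∃ (κ : Type) (_ : Fintype κ) (ζ : κ → ℂ) (s : κ → ℝ) (M : κ → Fin 2 → ℕ) (z₀ : ℂ) (ρ : ℝ),
        G.Hl y i (l y i) (r y i) F ζ s M z₀ ρ B η K ∧ (∃ k, ζ k = z₀) ∧ ‖z₀ - z‖ ≤ 1 ∧ (1 - τ) * infDist z (Gd rho δ F) ≤ ρ ∧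
        ρ ≤ infDist z (Gd rho δ F) := by
  sorry

/-! ## LSmo: the ends of the lines.  `exists_ends`, `line_end` (StubG); keep only the points of `Y` which are ends of lines (`Ends.near` stays true because of `Ok.lines`:
far out on `Φ k` the curve is near its own end).  At a smooth end `y` of the line `F`, `Q j = a X_i ^ m j` (`Ok.resL`, `oneE`).  Along `F` (polynomials): `fs (F, F') = O (|z| ^ (-2))`,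
`ell i (F, F') z → - M`, `M ≥ 1` an integer (minus the order at infinity of the local equation `(E i F) l / ⟪y, F⟫ ^ c i`; `crs_ell` works for one component), so the entire
function `w j (F, F')` tends to `0`, is `0`, and `a M ^ m j = 0`. -/

theorem ends_smooth (hG : G.Ok) : ∃ Y : Finset (EN N), G.Ends Y ∧ G.Smooth Y := by
  sorry

/-! ## LCrs: the local data at a crossing.  `loc`: `Ok.locE` (for `dist (pr x) (pr y)` in place of `pd x y`: `H62.EF.dist_pr`, factor `√2`).  `oth`: only `i 0`, `i 1` vanish at `y` (`twoE`);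
the other components satisfy `‖ell i' x v‖ ≤ C fs x v` near `y`: both sides are invariant under `(x, v) ↦ (c x, c v + a x)` (`ALam_ell_self`, `fs_inv`), so take `‖x‖ = 1`, `v ⟂ x`;
compactness (`anE`).  `rate`: `Ok.crE`.  `res`: `Ok.resL`; `P j` = `Q j` with the variables `i 0`, `i 1` renamed to `0`, `1` and the others replaced by `0`. -/

theorem crs_of (hG : G.Ok) {y : EN N} (hy : y ∈ G.X) {i : Fin 2 → G.ι} (hi : i 0 ≠ i 1) (h0 : ∀ a, G.E (i a) y = 0) : ∃ l P r C α, G.Crs y i l P r C α := by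
  sorry

/-! ## LAsm: the gap.  `ends_smooth`, `bdry_of`, `crs_of`; `case5` (SR3/Five) with `a` = the minimum of the `c₁` of `hl_macro` over the crossings in `Y`, `b = 2 h`, centre `z₀`;
then `hl_ex` with `τ = ε / 4`, then `hl_macro` with `ε / 4`, `B`, `η`. -/

theorem gapL (hG : G.Ok) (hM : G.Met T rho M' c₀ C₀ δ g) (hQ : G.QN rho) (B : ℝ) :
    ∃ R : ℝ, ∀ (q : G.J → ℂ) (F : ℂ → EN N), G.Cl T q F → ∀ z, Real.log ‖F z‖ ≤ B → infDist z (Gd rho δ F) ≤ R := by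
  sorry

end Stub

end Pool.Agent.SR3
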