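import Mathlib

/-!
# SR3 LSum: the error terms at the holes
-/

set_option autoImplicit false

open Topology Filter Metric

noncomputable section

namespace Pool.Agent.SR3

theorem hl_sum {B η : ℝ} (hB : 1 ≤ B) (hη : 0 < η) : ∃ C' ρ₁ : ℝ, ∀ (κ : Type) [Fintype κ] (ζ : κ → ℂ) (s : κ → ℝ) (ρ : ℝ), ρ₁ ≤ ρ →
    (∀ k, 0 < s k ∧ s k ≤ Real.exp (-(η * ρ))) → Function.Injective ζ → (Fintype.card κ : ℝ) ≤ B * ρ →
    (∀ k t, 0 < t → t < ρ → ((Finset.univ.filter fun j => 0 < ‖ζ j - ζ k‖ ∧ ‖ζ j - ζ k‖ ≤ t).card : ℝ) * Real.log (ρ / t) ≤ B * ρ) →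
    ∀ z, (∀ k, s k ≤ ‖z - ζ k‖) → ∑ k, s k / ‖z - ζ k‖ ≤ C' := by
  classical
  refine ⟨(1 + 2 * B / η) + 2 * B / η, 3, fun κ _ ζ s ρ hρ hs hinj hcard hcnt z hz => ?_⟩
  have hρ0 : 0 < ρ := by linarith
  have hx0 : 0 < η * ρ / 2 := by positivity
  set δ : ℝ := Real.exp (-(η * ρ / 2)) with hδ
  have hδ0 : 0 < δ := Real.exp_pos _
  have hδ1 : δ ≤ 1 := Real.exp_le_one_iff.2 (by linarith)
  have hδ2 : Real.exp (-(η * ρ)) = δ * δ := by
    rw [hδ, ← Real.exp_add]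
    congr 1
    ring
  have hterm1 : ∀ k, s k / ‖z - ζ k‖ ≤ 1 := fun k => div_le_one_of_le₀ (hz k) (norm_nonneg _)
  have hx1 : η * ρ / 2 * δ ≤ 1 := by
    have h1 : η * ρ / 2 ≤ Real.exp (η * ρ / 2) := by linarith [Real.add_one_le_exp (η * ρ / 2)]
    calc η * ρ / 2 * δ ≤ Real.exp (η * ρ / 2) * δ := by gcongr
      _ = 1 := by rw [hδ, ← Real.exp_add, add_neg_cancel, Real.exp_zero]
  rw [← Finset.sum_filter_add_sum_filter_not Finset.univ (fun k => ‖z - ζ k‖ < δ)]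
  refine add_le_add ?_ ?_
  · rcases (Finset.univ.filter fun k => ‖z - ζ k‖ < δ).eq_empty_or_nonempty with h0 | ⟨k₀, hk₀⟩
    · rw [h0, Finset.sum_empty]
      positivity
    · have hk1 : ‖z - ζ k₀‖ < δ := (Finset.mem_filter.1 hk₀).2
      have hsub : (Finset.univ.filter fun k => ‖z - ζ k‖ < δ) ⊆
          insert k₀ (Finset.univ.filter fun j => 0 < ‖ζ j - ζ k₀‖ ∧ ‖ζ j - ζ k₀‖ ≤ 2 * δ) := by
        intro k hk
        rw [Finset.mem_insert]
        by_cases hkk : k = k₀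
        · exact Or.inl hkk
        · refine Or.inr (Finset.mem_filter.2 ⟨Finset.mem_univ _, ?_, ?_⟩)
          · exact norm_pos_iff.2 (sub_ne_zero.2 fun h => hkk (hinj h))
          · have h1 := (Finset.mem_filter.1 hk).2
            calc ‖ζ k - ζ k₀‖ = ‖(z - ζ k₀) - (z - ζ k)‖ := by congr 1; ring
              _ ≤ ‖z - ζ k₀‖ + ‖z - ζ k‖ := norm_sub_le _ _
              _ ≤ 2 * δ := by linarith
      have hlog : η * ρ / 2 ≤ Real.log (ρ / (2 * δ)) := by
        rw [Real.le_log_iff_exp_le (by positivity), le_div_iff₀ (by positivity)]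
        have h1 : Real.exp (η * ρ / 2) * δ = 1 := by rw [hδ, ← Real.exp_add, add_neg_cancel, Real.exp_zero]
        nlinarith
      have hn := hcnt k₀ (2 * δ) (by positivity) (by linarith)
      set n : ℝ := ((Finset.univ.filter fun j => 0 < ‖ζ j - ζ k₀‖ ∧ ‖ζ j - ζ k₀‖ ≤ 2 * δ).card : ℝ) with hndef
      have hn0 : 0 ≤ n := Nat.cast_nonneg _
      have hn1 : n ≤ 2 * B / η := by
        rw [le_div_iff₀ hη]
        have h1 : n * (η * ρ / 2) ≤ B * ρ := (mul_le_mul_of_nonneg_left hlog hn0).trans hn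
        have h2 : (n * η) * ρ ≤ (2 * B) * ρ := by linarith
        exact le_of_mul_le_mul_right h2 hρ0
      calc ∑ k ∈ Finset.univ.filter (fun k => ‖z - ζ k‖ < δ), s k / ‖z - ζ k‖
          ≤ ∑ k ∈ Finset.univ.filter (fun k => ‖z - ζ k‖ < δ), (1 : ℝ) := Finset.sum_le_sum fun k _ => hterm1 k
        _ = ((Finset.univ.filter (fun k => ‖z - ζ k‖ < δ)).card : ℝ) := by rw [Finset.sum_const, nsmul_eq_mul, mul_one]
        _ ≤ ((insert k₀ (Finset.univ.filter fun j => 0 < ‖ζ j - ζ k₀‖ ∧ ‖ζ j - ζ k₀‖ ≤ 2 * δ)).card : ℝ) := by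
            exact_mod_cast Finset.card_le_card hsub
        _ ≤ n + 1 := by
            rw [hndef]
            exact_mod_cast Finset.card_insert_le _ _
        _ ≤ 1 + 2 * B / η := by linarith
  · calc ∑ k ∈ Finset.univ.filter (fun k => ¬ ‖z - ζ k‖ < δ), s k / ‖z - ζ k‖
        ≤ ∑ k ∈ Finset.univ.filter (fun k => ¬ ‖z - ζ k‖ < δ), δ := by
          refine Finset.sum_le_sum fun k hk => ?_
          have h := not_lt.1 (Finset.mem_filter.1 hk).2
          rw [div_le_iff₀ (hδ0.trans_le h)]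
          calc s k ≤ δ * δ := (hs k).2.trans_eq hδ2
            _ ≤ δ * ‖z - ζ k‖ := by gcongr
      _ = ((Finset.univ.filter (fun k => ¬ ‖z - ζ k‖ < δ)).card : ℝ) * δ := by rw [Finset.sum_const, nsmul_eq_mul]
      _ ≤ (B * ρ) * δ := by
          refine mul_le_mul_of_nonneg_right (le_trans ?_ hcard) hδ0.le
          exact_mod_cast Finset.card_le_univ _
      _ ≤ 2 * B / η := by
          rw [le_div_iff₀ hη]
          have h1 : B * (η * ρ / 2 * δ) ≤ B * 1 := by gcongr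
          linarith

end Pool.Agent.SR3
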