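import Pool.Agent.SR3.LNear
import Pool.Agent.SR3.LSum
import Pool.Agent.SR3.LFac
import Pool.Agent.SR3.CErr
import Pool.Agent.SR3.ALam

/-!
# SR3 LWd: comparison of the curve with the function theory of `CDefs`

`h a = c (i a) g - g'` with the factorizations of `hl_fac`; `fac_log`, `fac_deriv` with the radii `s k / 2`; `hl_sum`, `crs_lam`, `crs_ell`.
-/

set_option autoImplicit false

open Topology Filter Metric

noncomputable section

namespace Pool.Agent.SR3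

open Pool.Agent.H36.BP (EN fs wd Sub OrdTwo)
open Pool.Agent.H14.PP (IsCone Tan)
open Pool.Agent.SY (Ent)
open Pool.Agent.H62.EF (MN pr)
open Geo (Gd)

variable {N : ℕ} {G : Geo N} {T : Set (EN N)} {rho : EN N → ℝ} {M' : ℕ} {c₀ C₀ δ : ℝ} {g : (ℂ → EN N) → ℂ → ℝ}
variable {y : EN N} {i : Fin 2 → G.ι} {l : Fin 2 → Fin (G.M + 1)} {P : G.J → MvPolynomial (Fin 2) ℂ} {r C α : ℝ}

namespace LWd

/-- the ell half -/
theorem ell_half (hG : G.Ok) (hc : G.Crs y i l P r C α) : ∃ C' : ℝ, 0 ≤ C' ∧ ∀ (F : ℂ → EN N) (κ : Type) [Fintype κ] (ζ : κ → ℂ) (s : κ → ℝ)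
    (M : κ → Fin 2 → ℕ) (z₀ : ℂ) (ρ B η K n₁ : ℝ), G.Hl y i l r F ζ s M z₀ ρ B η K → ∀ (a : Fin 2) (n n' : κ → ℕ) (b : (k : κ) → Fin (n k) → ℂ)
      (b' : (k : κ) → Fin (n' k) → ℂ) (g g' : ℂ → ℂ), DifferentiableOn ℂ g (ball z₀ ρ) → DifferentiableOn ℂ g' (ball z₀ ρ) →
      (∀ k j, b k j ∈ closedBall (ζ k) (s k / 2)) → (∀ k j, b' k j ∈ closedBall (ζ k) (s k / 2)) →
      (∀ z ∈ ball z₀ ρ, (inner ℂ y (F z) : ℂ) = Complex.exp (g z) * ∏ k, ∏ j, (z - b k j)) →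
      (∀ z ∈ ball z₀ ρ, (G.E (i a) (F z)).ofLp (l a) = Complex.exp (g' z) * ∏ k, ∏ j, (z - b' k j)) →
      (∀ k, (n k : ℝ) ≤ n₁ ∧ (n' k : ℝ) ≤ n₁ ∧ (G.c (i a) : ℂ) * n k - n' k = M k a) → ∀ z ∈ ball z₀ ρ, (∀ k, s k ≤ ‖z - ζ k‖) →
        ‖G.ell (i a) (F z) (deriv F z) + ((G.c (i a) : ℂ) * deriv g z - deriv g' z + ∑ k, (M k a : ℂ) / (z - ζ k))‖ ≤
          C' * fs (F z) (deriv F z) + (G.c (i a) + 1) * n₁ * ∑ k, s k / ‖z - ζ k‖ ^ 2 := by
  obtain ⟨C', hC'⟩ := crs_ell hG hc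
  refine ⟨|C'|, abs_nonneg _, fun F κ _ ζ s M z₀ ρ B η K n₁ hH a n n' b b' g g' hg hg' hb hb' hf hf' hn z hz hzs => ?_⟩
  have hs2 : ∀ k, 0 < s k / 2 := fun k => by
    have := hH.s_pos k
    positivity
  have hz2 : ∀ k, 2 * (s k / 2) ≤ ‖z - ζ k‖ := fun k => by
    have := hzs k
    linarith
  have hzn : dist (pr (F z)) (pr y) < r := hH.near z (by
    have := mem_ball_iff_norm.mp hz
    exact this.le) fun k => by
      have h1 := hzs k
      have h2 := hH.s_pos k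
      linarith
  have h1 := hC' F hH.diff hH.mem z hzn a
  have h2 := fac_deriv hs2 hg hb hf z hz hz2
  have h3 := fac_deriv hs2 hg' hb' hf' z hz hz2
  have hfs : 0 ≤ fs (F z) (deriv F z) := Pool.Agent.H36.BP.fs_nonneg _ _
  have hsum : ∀ m : κ → ℕ, (∀ k, (m k : ℝ) ≤ n₁) → ∑ k, (m k : ℝ) * (2 * (s k / 2) / ‖z - ζ k‖ ^ 2) ≤ n₁ * ∑ k, s k / ‖z - ζ k‖ ^ 2 := by
    intro m hm
    rw [Finset.mul_sum]
    refine Finset.sum_le_sum fun k _ => ?_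
    have h4 : 2 * (s k / 2) / ‖z - ζ k‖ ^ 2 = s k / ‖z - ζ k‖ ^ 2 := by ring
    rw [h4]
    have h5 : 0 ≤ s k / ‖z - ζ k‖ ^ 2 := div_nonneg (hH.s_pos k).le (by positivity)
    exact mul_le_mul_of_nonneg_right (hm k) h5
  have h2' := h2.trans (hsum n fun k => (hn k).1)
  have h3' := h3.trans (hsum n' fun k => (hn k).2.1)
  set LE : ℂ := logDeriv (fun w => (G.E (i a) (F w)).ofLp (l a)) z with hLE
  set LI : ℂ := logDeriv (fun w => (inner ℂ y (F w) : ℂ)) z with hLI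
  have hLE' : LE = deriv (fun w => (G.E (i a) (F w)).ofLp (l a)) z / (G.E (i a) (F z)).ofLp (l a) := logDeriv_apply _ _
  have hLI' : LI = deriv (fun w => (inner ℂ y (F w) : ℂ)) z / (inner ℂ y (F z) : ℂ) := logDeriv_apply _ _
  rw [← hLI'] at h2'
  rw [← hLE'] at h3'
  have hM : ∑ k, (M k a : ℂ) / (z - ζ k) = (G.c (i a) : ℂ) * ∑ k, (n k : ℂ) / (z - ζ k) - ∑ k, (n' k : ℂ) / (z - ζ k) := by
    rw [Finset.mul_sum, ← Finset.sum_sub_distrib]
    refine Finset.sum_congr rfl fun k _ => ?_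
    rw [← (hn k).2.2]
    ring
  have key : G.ell (i a) (F z) (deriv F z) + ((G.c (i a) : ℂ) * deriv g z - deriv g' z + ∑ k, (M k a : ℂ) / (z - ζ k)) =
      (G.ell (i a) (F z) (deriv F z) - (LE - G.c (i a) * LI)) + (LE - deriv g' z - ∑ k, (n' k : ℂ) / (z - ζ k)) -
        (G.c (i a) : ℂ) * (LI - deriv g z - ∑ k, (n k : ℂ) / (z - ζ k)) := by
    rw [hM]
    ring
  rw [key]
  set S : ℝ := ∑ k, s k / ‖z - ζ k‖ ^ 2 with hS
  calc ‖(G.ell (i a) (F z) (deriv F z) - (LE - G.c (i a) * LI)) + (LE - deriv g' z - ∑ k, (n' k : ℂ) / (z - ζ k)) -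
        (G.c (i a) : ℂ) * (LI - deriv g z - ∑ k, (n k : ℂ) / (z - ζ k))‖
      ≤ ‖G.ell (i a) (F z) (deriv F z) - (LE - G.c (i a) * LI)‖ + ‖LE - deriv g' z - ∑ k, (n' k : ℂ) / (z - ζ k)‖ +
        ‖(G.c (i a) : ℂ) * (LI - deriv g z - ∑ k, (n k : ℂ) / (z - ζ k))‖ :=
        (norm_sub_le _ _).trans (add_le_add (norm_add_le _ _) le_rfl)
    _ ≤ |C'| * fs (F z) (deriv F z) + n₁ * S + G.c (i a) * (n₁ * S) := by
        refine add_le_add (add_le_add (h1.trans (mul_le_mul_of_nonneg_right (le_abs_self _) hfs)) h3') ?_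
        rw [norm_mul, Complex.norm_natCast]
        exact mul_le_mul_of_nonneg_left h2' (Nat.cast_nonneg _)
    _ = |C'| * fs (F z) (deriv F z) + (G.c (i a) + 1) * n₁ * S := by ring

/-- the lam half -/
theorem lam_half (hG : G.Ok) (hc : G.Crs y i l P r C α) : ∃ C' : ℝ, 0 ≤ C' ∧ ∀ (F : ℂ → EN N) (κ : Type) [Fintype κ] (ζ : κ → ℂ) (s : κ → ℝ)
    (M : κ → Fin 2 → ℕ) (z₀ : ℂ) (ρ B η K n₁ : ℝ), G.Hl y i l r F ζ s M z₀ ρ B η K → ∀ (a : Fin 2) (n n' : κ → ℕ) (b : (k : κ) → Fin (n k) → ℂ)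
      (b' : (k : κ) → Fin (n' k) → ℂ) (g g' : ℂ → ℂ),
      (∀ k j, b k j ∈ closedBall (ζ k) (s k / 2)) → (∀ k j, b' k j ∈ closedBall (ζ k) (s k / 2)) →
      (∀ z ∈ ball z₀ ρ, (inner ℂ y (F z) : ℂ) = Complex.exp (g z) * ∏ k, ∏ j, (z - b k j)) →
      (∀ z ∈ ball z₀ ρ, (G.E (i a) (F z)).ofLp (l a) = Complex.exp (g' z) * ∏ k, ∏ j, (z - b' k j)) →
      (∀ k, (n k : ℝ) ≤ n₁ ∧ (n' k : ℝ) ≤ n₁ ∧ (G.c (i a) : ℂ) * n k - n' k = M k a) → ∀ z ∈ ball z₀ ρ, (∀ k, s k ≤ ‖z - ζ k‖) →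
        |G.lam (i a) (F z) - (((G.c (i a) : ℂ) * g z - g' z).re + ∑ k, (M k a : ℝ) * Real.log ‖z - ζ k‖)| ≤
          C' + (G.c (i a) + 1) * n₁ * ∑ k, s k / ‖z - ζ k‖ := by
  obtain ⟨C', hC'⟩ := crs_lam hG hc
  refine ⟨|C'|, abs_nonneg _, fun F κ _ ζ s M z₀ ρ B η K n₁ hH a n n' b b' g g' hb hb' hf hf' hn z hz hzs => ?_⟩
  have hs2 : ∀ k, 0 < s k / 2 := fun k => by
    have := hH.s_pos k
    positivity
  have hz2 : ∀ k, 2 * (s k / 2) ≤ ‖z - ζ k‖ := fun k => by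
    have := hzs k
    linarith
  have hzn : dist (pr (F z)) (pr y) < r := hH.near z (by
    have := mem_ball_iff_norm.mp hz
    exact this.le) fun k => by
      have h1 := hzs k
      have h2 := hH.s_pos k
      linarith
  have h1 := hC' (F z) (hH.mem z) hzn a
  have h2 := fac_log hs2 hb hf z hz hz2
  have h3 := fac_log hs2 hb' hf' z hz hz2
  have hsum : ∀ m : κ → ℕ, (∀ k, (m k : ℝ) ≤ n₁) → ∑ k, (m k : ℝ) * (2 * (s k / 2) / ‖z - ζ k‖) ≤ n₁ * ∑ k, s k / ‖z - ζ k‖ := by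
    intro m hm
    rw [Finset.mul_sum]
    refine Finset.sum_le_sum fun k _ => ?_
    have h4 : 2 * (s k / 2) / ‖z - ζ k‖ = s k / ‖z - ζ k‖ := by ring
    rw [h4]
    have h5 : 0 ≤ s k / ‖z - ζ k‖ := div_nonneg (hH.s_pos k).le (norm_nonneg _)
    exact mul_le_mul_of_nonneg_right (hm k) h5
  have h2' := h2.trans (hsum n fun k => (hn k).1)
  have h3' := h3.trans (hsum n' fun k => (hn k).2.1)
  have hMr : ∀ k, (M k a : ℝ) = (G.c (i a) : ℝ) * n k - n' k := by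
    intro k
    have h4 := (hn k).2.2
    have h5 := congrArg Complex.re h4
    simp at h5
    linarith
  have hM : ∑ k, (M k a : ℝ) * Real.log ‖z - ζ k‖ = (G.c (i a) : ℝ) * ∑ k, (n k : ℝ) * Real.log ‖z - ζ k‖ - ∑ k, (n' k : ℝ) * Real.log ‖z - ζ k‖ := by
    rw [Finset.mul_sum, ← Finset.sum_sub_distrib]
    refine Finset.sum_congr rfl fun k _ => ?_
    rw [hMr k]
    ring
  have hre : ((G.c (i a) : ℂ) * g z - g' z).re = (G.c (i a) : ℝ) * (g z).re - (g' z).re := by simp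
  set S : ℝ := ∑ k, s k / ‖z - ζ k‖ with hS
  set LI : ℝ := Real.log ‖(inner ℂ y (F z) : ℂ)‖ with hLI
  set LE : ℝ := Real.log ‖(G.E (i a) (F z)).ofLp (l a)‖ with hLE
  have hc0 : (0 : ℝ) ≤ G.c (i a) := Nat.cast_nonneg _
  rw [hre, hM]
  rw [abs_le] at h1 h2' h3' ⊢
  obtain ⟨h11, h12⟩ := h1
  obtain ⟨h21, h22⟩ := h2'
  obtain ⟨h31, h32⟩ := h3'
  have hC1 := le_abs_self C'
  have hC2 := neg_abs_le C'
  have m1 := mul_le_mul_of_nonneg_left h21 hc0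
  have m2 := mul_le_mul_of_nonneg_left h22 hc0
  constructor <;> nlinarith

end LWd

theorem hl_wd (hG : G.Ok) (hc : G.Crs y i l P r C α) {B η : ℝ} (hB : 1 ≤ B) (hη : 0 < η) : ∃ C' ρ₁ : ℝ, 1 ≤ C' ∧ ∀ (F : ℂ → EN N) (κ : Type) [Fintype κ]
    (ζ : κ → ℂ) (s : κ → ℝ) (M : κ → Fin 2 → ℕ) (z₀ : ℂ) (ρ K : ℝ), G.Hl y i l r F ζ s M z₀ ρ B η K → ρ₁ ≤ ρ → ∃ h, G.Cmp i F ζ s M h z₀ ρ C' η K := by
  obtain ⟨C₁, hC₁, hell⟩ := LWd.ell_half hG hc
  obtain ⟨C₂, hC₂, hlam⟩ := LWd.lam_half hG hc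
  obtain ⟨n₁, hn₁, hfac⟩ := hl_fac hG hc hB hη
  obtain ⟨C₃, ρ₃, hsum⟩ := hl_sum hB hη
  obtain ⟨B₁, hB₁, hlow⟩ := lam_lowerA hG
  obtain ⟨B₂, hB₂, hupp⟩ := lam_upperA hG
  -- a bound for the degrees `c (i a)`
  set cc : ℝ := (G.c (i 0) : ℝ) + G.c (i 1) + 1 with hcc
  have hcca : ∀ a : Fin 2, (G.c (i a) : ℝ) + 1 ≤ cc := by
    intro a
    have h0 : (0 : ℝ) ≤ G.c (i 0) := Nat.cast_nonneg _
    have h1 : (0 : ℝ) ≤ G.c (i 1) := Nat.cast_nonneg _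
    fin_cases a
    · show (G.c (i 0) : ℝ) + 1 ≤ cc
      linarith
    · show (G.c (i 1) : ℝ) + 1 ≤ cc
      linarith
  have hcc0 : 0 ≤ cc := by
    have h0 : (0 : ℝ) ≤ G.c (i 0) := Nat.cast_nonneg _
    have h1 : (0 : ℝ) ≤ G.c (i 1) := Nat.cast_nonneg _
    positivity
  set D : ℝ := C₂ + cc * n₁ * |C₃| with hD
  have hD0 : 0 ≤ D := by positivity
  have hh0 : (0 : ℝ) ≤ G.h := Nat.cast_nonneg _
  set C' : ℝ := 1 + D + C₁ + cc * n₁ + B + B₁ + B₂ + G.h * B with hC'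
  have hhB : 0 ≤ (G.h : ℝ) * B := by positivity
  have hcn : 0 ≤ cc * n₁ := by positivity
  refine ⟨C', max ρ₃ 1, by linarith, fun F κ _ ζ s M z₀ ρ K hH hρ => ?_⟩
  have hρ3 : ρ₃ ≤ ρ := (le_max_left _ _).trans hρ
  have hρ1 : 1 ≤ ρ := (le_max_right _ _).trans hρ
  have hρ0 : 0 < ρ := by linarith
  choose n n' b b' g g' hg hg' hb hb' hf hf' hn using hfac F κ ζ s M z₀ ρ K hH hρ0
  -- `ζ` is injective
  have hinj : Function.Injective ζ := by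
    intro j k hjk
    by_contra hne
    have h1 := hH.sep j k hne
    rw [hjk, sub_self, norm_zero] at h1
    have h2 := hH.s_pos j
    linarith
  have hsumz : ∀ z, (∀ k, s k ≤ ‖z - ζ k‖) → ∑ k, s k / ‖z - ζ k‖ ≤ |C₃| := fun z hz =>
    (hsum κ ζ s ρ hρ3 (fun k => ⟨hH.s_pos k, hH.s_le k⟩) hinj hH.card hH.cnt z hz).trans (le_abs_self _)
  set h : Fin 2 → ℂ → ℂ := fun a z => (G.c (i a) : ℂ) * g a z - g' a z with hh
  have hhol : ∀ a, DifferentiableOn ℂ (h a) (ball z₀ ρ) := fun a => ((hg a).const_mul _).sub (hg' a)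
  have hlam' : ∀ a, ∀ z ∈ ball z₀ ρ, (∀ k, s k ≤ ‖z - ζ k‖) → |G.lam (i a) (F z) - sg ζ M h a z| ≤ D := by
    intro a z hz hzs
    have h1 := hlam F κ ζ s M z₀ ρ B η K n₁ hH a (n a) (n' a) (b a) (b' a) (g a) (g' a) (hb a) (hb' a) (hf a) (hf' a) (hn a) z hz hzs
    refine h1.trans ?_
    have h2 := hsumz z hzs
    have h3 : 0 ≤ ∑ k, s k / ‖z - ζ k‖ := Finset.sum_nonneg fun k _ => div_nonneg (hH.s_pos k).le (norm_nonneg _)
    have h4 : ((G.c (i a) : ℝ) + 1) * n₁ * ∑ k, s k / ‖z - ζ k‖ ≤ cc * n₁ * |C₃| := by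
      have h5 := hcca a
      gcongr
    rw [hD]
    linarith
  refine ⟨h, ?_, ?_, ?_⟩
  · refine ⟨hhol, fun k => ?_, hH.one, fun k a => ?_, hH.s_pos, hH.s_le, fun j k hjk => ?_, hH.sepN, ?_, fun a z hz hzs => ?_, fun a z hz hzs => ?_, fun k a z hz hzk => ?_⟩
    · have h1 := hH.inb k
      have h2 := hH.s_pos k
      rw [mem_ball_iff_norm]
      linarith
    · have := hH.M_le k a
      linarith
    · have h1 := hH.sep j k hjk
      have h2 := hH.s_pos j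
      linarith
    · refine hH.card.trans (mul_le_mul_of_nonneg_right ?_ hρ0.le)
      linarith
    · have h1 := hlow (i a) (F z) (hH.mem z)
      have h2 := (abs_le.mp (hlam' a z hz hzs)).2
      linarith
    · have h1 := (hupp (F z) (hH.mem z) (hH.nm z)).1 (i a)
      have h2 := (abs_le.mp (hlam' a z hz hzs)).1
      have h3 := hH.upp z (by
        have := mem_ball_iff_norm.mp hz
        exact this.le)
      have h4 : (G.h : ℝ) * Real.log ‖F z‖ ≤ G.h * (B * ρ) := mul_le_mul_of_nonneg_left h3 hh0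
      have h5 : D ≤ D * ρ := le_mul_of_one_le_right hD0 hρ1
      have h6 : B₂ ≤ B₂ * ρ := le_mul_of_one_le_right hB₂ hρ1
      have h7 : (D + B₂ + G.h * B) * ρ ≤ C' * ρ := mul_le_mul_of_nonneg_right (by linarith) hρ0.le
      nlinarith
    · -- rim
      have hsk := hH.s_pos k
      have hzs : ∀ j, s j ≤ ‖z - ζ j‖ := by
        intro j
        by_cases hjk : j = k
        · rw [hjk, hzk]
        · have h1 := hH.sep j k hjk
          have h1' := hH.sep k j (Ne.symm hjk)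
          have h2 := hH.s_pos j
          have h3 : ‖ζ j - ζ k‖ ≤ ‖z - ζ j‖ + ‖z - ζ k‖ := by
            have : ζ j - ζ k = -(z - ζ j) + (z - ζ k) := by ring
            rw [this]
            refine (norm_add_le _ _).trans ?_
            rw [norm_neg]
          have h4 : ‖ζ k - ζ j‖ = ‖ζ j - ζ k‖ := norm_sub_rev _ _
          rw [hzk] at h3
          linarith
      have h1 := (hupp (F z) (hH.mem z) (hH.nm z)).1 (i a)
      have h2 := (abs_le.mp (hlam' a z hz hzs)).1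
      have h3 := hH.bdd k z (by rw [hzk]; linarith)
      have h4 : (G.h : ℝ) * Real.log ‖F z‖ ≤ G.h * B := mul_le_mul_of_nonneg_left h3 hh0
      linarith
  · intro a z hz hzs
    exact (hlam' a z hz hzs).trans (by linarith)
  · intro a z hz hzs
    have h1 := hell F κ ζ s M z₀ ρ B η K n₁ hH a (n a) (n' a) (b a) (b' a) (g a) (g' a) (hg a) (hg' a) (hb a) (hb' a) (hf a) (hf' a) (hn a) z hz hzs
    have hda : deriv (h a) z = (G.c (i a) : ℂ) * deriv (g a) z - deriv (g' a) z := by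
      have hgd := (hg a).differentiableAt (isOpen_ball.mem_nhds hz)
      have hgd' := (hg' a).differentiableAt (isOpen_ball.mem_nhds hz)
      rw [hh]
      show deriv (fun z => (G.c (i a) : ℂ) * g a z - g' a z) z = _
      rw [deriv_fun_sub (hgd.const_mul _) hgd', deriv_const_mul_field]
    have h2 : sl ζ M h a z = (G.c (i a) : ℂ) * deriv (g a) z - deriv (g' a) z + ∑ k, (M k a : ℂ) / (z - ζ k) := by
      rw [sl, hda]
    rw [h2]
    refine h1.trans ?_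
    have hfs : 0 ≤ fs (F z) (deriv F z) := Pool.Agent.H36.BP.fs_nonneg _ _
    have hS : 0 ≤ ∑ k, s k / ‖z - ζ k‖ ^ 2 := Finset.sum_nonneg fun k _ => div_nonneg (hH.s_pos k).le (by positivity)
    rw [mul_add]
    refine add_le_add (mul_le_mul_of_nonneg_right (by linarith) hfs) (mul_le_mul_of_nonneg_right ?_ hS)
    have h3 := mul_le_mul_of_nonneg_right (hcca a) hn₁
    linarith

end Pool.Agent.SR3
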