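import Pool.Agent.SR3.LDefs
import Pool.Agent.SR3.ALam

/-!
# SR3 LZerE: bounds for the local equation at a crossing, for LZer

`|E l| ≥ c ‖E‖`, `log ‖E i x‖ = c i log ‖x‖ - lam i x ≥ (c i - h) log ‖x‖ - B ≥ - B₂` (`lam_upperA`, `log_lower`, `c_ge`); above `ALam_hom`.
-/

set_option autoImplicit false

open Topology Filter Metric

noncomputable section

namespace Pool.Agent.SR3

open Pool.Agent.H36.BP (EN fs wd Sub OrdTwo)
open Pool.Agent.H14.PP (IsCone Tan)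
open Pool.Agent.SY (Ent)
open Pool.Agent.H62.EF (MN pr)
open Geo (Gd)

variable {N : ℕ} {G : Geo N}
variable {y : EN N} {i : Fin 2 → G.ι} {l : Fin 2 → Fin (G.M + 1)} {P : G.J → MvPolynomial (Fin 2) ℂ} {r C α : ℝ}

/-- the local equation is bounded from below at the points near the crossing -/
theorem zerE_low (hG : G.Ok) (hc : G.Crs y i l P r C α) : ∃ A : ℝ, 0 ≤ A ∧ ∀ x ∈ G.K, G.p x = 1 → dist (pr x) (pr y) < r → ∀ a,
    Real.exp (-A) ≤ ‖(G.E (i a) x).ofLp (l a)‖ := by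
  obtain ⟨B₁, hB₁, hlow⟩ := log_lower hG
  obtain ⟨B₂, hB₂, hupp⟩ := lam_upperA hG
  have hloc : ∀ a, ∃ c : ℝ, 0 < c ∧ ∀ x ∈ G.X, dist (pr x) (pr y) < r → c * ‖G.E (i a) x‖ ≤ ‖(G.E (i a) x).ofLp (l a)‖ := fun a => hc.loc a
  choose c hc0 hc1 using hloc
  refine ⟨∑ a, (|Real.log (c a)| + G.c (i a) * B₁ + B₂), Finset.sum_nonneg fun a _ => by positivity, fun x hx hp hd a => ?_⟩
  have hE : 0 < ‖G.E (i a) x‖ := norm_pos_iff.2 (hG.neE _ x hx)
  have h1 : -(G.c (i a) * B₁ + B₂) ≤ Real.log ‖G.E (i a) x‖ := by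
    have h2 := (hupp x hx hp).1 (i a)
    have h3 : Real.log ‖G.E (i a) x‖ = G.c (i a) * Real.log ‖x‖ - G.lam (i a) x := by
      unfold Geo.lam
      ring
    have h4 : ((G.h : ℝ) + 1) ≤ G.c (i a) := by exact_mod_cast hG.c_ge (i a)
    have h5 := hlow x hp
    have h6 : (0 : ℝ) ≤ G.h := Nat.cast_nonneg _
    rw [h3]
    nlinarith
  have h7 : |Real.log (c a)| + G.c (i a) * B₁ + B₂ ≤ ∑ a, (|Real.log (c a)| + G.c (i a) * B₁ + B₂) :=
    Finset.single_le_sum (f := fun a => |Real.log (c a)| + G.c (i a) * B₁ + B₂) (fun a _ => by positivity) (Finset.mem_univ a)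
  refine le_trans ?_ (hc1 a x (KX hG hx) hd)
  have h8 : c a * ‖G.E (i a) x‖ = Real.exp (Real.log (c a) + Real.log ‖G.E (i a) x‖) := by
    rw [Real.exp_add, Real.exp_log (hc0 a), Real.exp_log hE]
  rw [h8, Real.exp_le_exp]
  have h9 := neg_abs_le (Real.log (c a))
  linarith

/-- the components of `E i` are bounded on bounded sets -/
theorem zerE_upp (hG : G.Ok) (B : ℝ) : ∃ A : ℝ, 0 ≤ A ∧ ∀ x ∈ G.K, Real.log ‖x‖ ≤ B → ∀ i l, ‖(G.E i x).ofLp l‖ ≤ Real.exp A := by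
  have h1 : ∀ i : G.ι, ∃ B : ℝ, 1 ≤ B ∧ ∀ x : EN N, ‖x‖ ≠ 0 → ‖G.E i x‖ ≤ B * ‖x‖ ^ G.c i := fun i =>
    ALam_hom (continuous_iff_continuousAt.2 fun x => (hG.anE i x).continuousAt) fun t x => hG.smulE i t x
  choose b hb1 hb using h1
  refine ⟨∑ i, (Real.log (b i) + G.c i * |B|), Finset.sum_nonneg fun i _ => add_nonneg (Real.log_nonneg (hb1 i)) (by positivity), fun x hx hB i l => ?_⟩
  have hx0 : 0 < ‖x‖ := norm_pos_iff.2 (ne0 hG hx)
  have h2 : ‖(G.E i x).ofLp l‖ ≤ ‖G.E i x‖ := PiLp.norm_apply_le _ l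
  have h3 := hb i x hx0.ne'
  have h4 : Real.log (b i) + G.c i * |B| ≤ ∑ i, (Real.log (b i) + G.c i * |B|) :=
    Finset.single_le_sum (f := fun i => Real.log (b i) + G.c i * |B|) (fun i _ => add_nonneg (Real.log_nonneg (hb1 i)) (by positivity)) (Finset.mem_univ i)
  refine (h2.trans h3).trans ?_
  have hb0 : 0 < b i := by linarith [hb1 i]
  have h5 : b i * ‖x‖ ^ G.c i = Real.exp (Real.log (b i) + G.c i * Real.log ‖x‖) := by
    rw [Real.exp_add, Real.exp_log hb0, ← Real.log_pow, Real.exp_log (pow_pos hx0 _)]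
  rw [h5, Real.exp_le_exp]
  have h6 : (G.c i : ℝ) * Real.log ‖x‖ ≤ G.c i * |B| := mul_le_mul_of_nonneg_left (hB.trans (le_abs_self B)) (Nat.cast_nonneg _)
  linarith

/-- the linear form `⟪y, x⟫` is bounded from above on bounded sets -/
theorem zerI_upp {y : EN N} (hy : y ≠ 0) (B : ℝ) {x : EN N} (hx : x ≠ 0) (h : Real.log ‖x‖ ≤ B) : ‖(inner ℂ y x : ℂ)‖ ≤ Real.exp (Real.log ‖y‖ + B) := by
  have hx0 : 0 < ‖x‖ := norm_pos_iff.2 hx
  have hy0 : 0 < ‖y‖ := norm_pos_iff.2 hy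
  rw [Real.exp_add, Real.exp_log hy0]
  exact (norm_inner_le_norm y x).trans (mul_le_mul_of_nonneg_left ((Real.log_le_iff_le_exp hx0).1 h) hy0.le)

end Pool.Agent.SR3
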