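import Pool.Agent.SR3.GDefs

/-!
# SR3 LimCa: local equations as functions on the projective space

`hh v i l x = (E i x) l / ⟪v, x⟫ ^ c i` depends only on the point `pr x`, and is continuous there.
-/

set_option autoImplicit false

open Topology Filter Metric

noncomputable section

namespace Pool.Agent.SR3

open Pool.Agent.H36.BP (EN fs wd Sub OrdTwo)
open Pool.Agent.H62.EF (MN pr nm nm_close norm_inner_sq continuousAt_pr pr_smul dist_pr)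
open Pool.Agent.G3 (LLift)

variable {N : ℕ} {G : Geo N}

/-- the local equation divided by the power of a linear form -/
def Geo.hh (G : Geo N) (v : EN N) (i : G.ι) (l : Fin (G.M + 1)) (x : EN N) : ℂ := (G.E i x).ofLp l / (inner ℂ v x : ℂ) ^ G.c i

theorem hh_smul (hG : G.Ok) (v : EN N) (i : G.ι) (l : Fin (G.M + 1)) (x : EN N) {c : ℂ} (hc : c ≠ 0) : G.hh v i l (c • x) = G.hh v i l x := by
  unfold Geo.hh
  rw [hG.smulE, inner_smul_right, mul_pow, PiLp.smul_apply, smul_eq_mul]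
  exact mul_div_mul_left _ _ (pow_ne_zero _ hc)

theorem inner_ne_of_dist {x v : EN N} (hx : x ≠ 0) (hv : v ≠ 0) (h : dist (pr x) (pr v) < 1) : (inner ℂ v x : ℂ) ≠ 0 := by
  intro h0
  have h1 := norm_inner_sq hv hx
  rw [h0, norm_zero, dist_comm] at h1
  have h2 : 0 < ‖v‖ := norm_pos_iff.2 hv
  have h3 : 0 < ‖x‖ := norm_pos_iff.2 hx
  have h4 : 0 ≤ dist (pr x) (pr v) := dist_nonneg
  have h5 : 0 < ‖v‖ ^ 2 * ‖x‖ ^ 2 * (1 - dist (pr x) (pr v) ^ 2 / 2) := by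
    refine mul_pos (by positivity) ?_
    nlinarith
  rw [← h1] at h5
  norm_num at h5

/-- continuity in the projective space -/
theorem hh_close (hG : G.Ok) (v : EN N) (i : G.ι) (l : Fin (G.M + 1)) {x₀ : EN N} (hx₀ : x₀ ≠ 0) (h0 : (inner ℂ v x₀ : ℂ) ≠ 0) {η : ℝ} (hη : 0 < η) :
    ∃ δ : ℝ, 0 < δ ∧ ∀ x : EN N, x ≠ 0 → dist (pr x) (pr x₀) < δ → ‖G.hh v i l x - G.hh v i l x₀‖ < η := by
  have h1 : ContinuousAt (G.hh v i l) x₀ := by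
    unfold Geo.hh
    refine ContinuousAt.div ?_ ?_ (pow_ne_zero _ h0)
    · exact (PiLp.continuous_apply 2 _ l).continuousAt.comp (hG.anE i x₀).continuousAt
    · exact ((continuous_const.inner continuous_id).continuousAt).pow _
  have h2 : ∀ᶠ x in 𝓝 x₀, ‖G.hh v i l x - G.hh v i l x₀‖ < η := by
    have h3 := Metric.tendsto_nhds.1 h1 η hη
    filter_upwards [h3] with x hx
    rwa [dist_eq_norm] at hx
  obtain ⟨ε, hε, hb⟩ := Metric.eventually_nhds_iff.1 h2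
  obtain ⟨δ, hδ, h⟩ := nm_close hx₀ hε
  refine ⟨δ, hδ, fun x hx hd => ?_⟩
  obtain ⟨h4, h5⟩ := h x hx hd
  have h6 : G.hh v i l (nm x₀ x) = G.hh v i l x := by
    unfold Pool.Agent.H62.EF.nm
    refine hh_smul hG v i l x (div_ne_zero ?_ h4)
    have h7 : ‖x₀‖ ≠ 0 := norm_ne_zero_iff.2 hx₀
    exact_mod_cast pow_ne_zero 2 h7
  rw [← h6]
  exact hb (by rw [dist_eq_norm]; exact h5)

/-- the points where a component is not zero -/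
theorem E_ne_near (hG : G.Ok) (i : G.ι) {y : EN N} (hy : y ≠ 0) (h0 : G.E i y ≠ 0) :
    ∃ δ : ℝ, 0 < δ ∧ ∀ x : EN N, x ≠ 0 → dist (pr x) (pr y) < δ → G.E i x ≠ 0 := by
  have h1 : ContinuousAt (G.E i) y := (hG.anE i y).continuousAt
  obtain ⟨ε, hε, hb⟩ := Metric.eventually_nhds_iff.1 (h1.eventually_ne h0)
  obtain ⟨δ, hδ, h⟩ := nm_close hy hε
  refine ⟨δ, hδ, fun x hx hd h2 => ?_⟩
  obtain ⟨h4, h5⟩ := h x hx hd
  refine hb (y := nm y x) (by rw [dist_eq_norm]; exact h5) ?_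
  unfold Pool.Agent.H62.EF.nm
  rw [hG.smulE, h2, smul_zero]

theorem locEq_mono {ε ε' : ℝ} (h : ε ≤ ε') {y : EN N} {i : G.ι} {l : Fin (G.M + 1)} (hl : G.LocEq ε' y i l) : G.LocEq ε y i l := by
  obtain ⟨c, hc, h1⟩ := hl
  exact ⟨c, hc, fun x hx hd => h1 x hx (lt_of_lt_of_le hd h)⟩

/-- near a point of the boundary -/
theorem bd_near (hG : G.Ok) (hB : G.Bdry) {y : EN N} (hy : y ∈ G.X) (hyK : y ∉ G.K) :
    ∃ κ : ℝ, 0 < κ ∧ κ ≤ 1 ∧ ∀ i : G.ι, (∀ x : EN N, x ≠ 0 → dist (pr x) (pr y) < κ → G.E i x = 0 → G.E i y = 0) ∧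
      (G.E i y = 0 → ∃ l, G.LocEq κ y i l) := by
  have hy0 : y ≠ 0 := fun h => hG.cone.zero_notMem (h ▸ hy)
  have key : ∀ i : G.ι, ∃ κ : ℝ, 0 < κ ∧ (∀ x : EN N, x ≠ 0 → dist (pr x) (pr y) < κ → G.E i x = 0 → G.E i y = 0) ∧
      (G.E i y = 0 → ∃ l, G.LocEq κ y i l) := by
    intro i
    by_cases h0 : G.E i y = 0
    · obtain ⟨l, r, c, hr, hc, h1⟩ := hB.loc y hy hyK i h0
      exact ⟨r, hr, fun _ _ _ _ => h0, fun _ => ⟨l, c, hc, h1⟩⟩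
    · obtain ⟨δ, hδ, h1⟩ := E_ne_near hG i hy0 h0
      exact ⟨δ, hδ, fun x hx hd h2 => absurd h2 (h1 x hx hd), fun h2 => absurd h2 h0⟩
  choose κ hκ h1 h2 using key
  obtain ⟨m, hm, hm2⟩ : ∃ m : ℝ, 0 < m ∧ ∀ i, m ≤ κ i := by
    rcases isEmpty_or_nonempty G.ι with he | hne
    · exact ⟨1, one_pos, fun i => he.elim i⟩
    · obtain ⟨i₀, hi₀⟩ := Finite.exists_min κ
      exact ⟨κ i₀, hκ i₀, hi₀⟩
  refine ⟨min m 1, lt_min hm one_pos, min_le_right _ _, fun i => ⟨fun x hx hd => h1 i x hx ?_, fun h0 => ?_⟩⟩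
  · exact lt_of_lt_of_le hd ((min_le_left _ _).trans (hm2 i))
  · obtain ⟨l, hl⟩ := h2 i h0
    exact ⟨l, locEq_mono ((min_le_left _ _).trans (hm2 i)) hl⟩

theorem fin_min {α : Type} (Y : Finset α) (p : α → ℝ → Prop) (hp : ∀ a m m', m ≤ m' → p a m' → p a m) (h : ∀ a ∈ Y, ∃ m : ℝ, 0 < m ∧ p a m) :
    ∃ m : ℝ, 0 < m ∧ ∀ a ∈ Y, p a m := by
  induction Y using Finset.cons_induction with
  | empty => exact ⟨1, one_pos, fun a ha => absurd ha (Finset.notMem_empty a)⟩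
  | cons a s ha ih =>
    obtain ⟨m, hm, h1⟩ := h a (Finset.mem_cons_self a s)
    obtain ⟨m', hm', h2⟩ := ih (fun b hb => h b (Finset.mem_cons_of_mem hb))
    refine ⟨min m m', lt_min hm hm', fun b hb => ?_⟩
    rcases Finset.mem_cons.1 hb with rfl | hb
    · exact hp _ _ _ (min_le_left _ _) h1
    · exact hp _ _ _ (min_le_right _ _) (h2 b hb)

/-- the size `ε₁` -/
theorem exists_eps (hG : G.Ok) (hB : G.Bdry) {Y : Finset (EN N)} (hY : G.Ends Y) :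
    ∃ ε₁ : ℝ, 0 < ε₁ ∧ ε₁ ≤ 1 / 3 ∧ ∀ y ∈ Y, (∀ i : G.ι, (∀ x : EN N, x ≠ 0 → dist (pr x) (pr y) < 3 * ε₁ → G.E i x = 0 → G.E i y = 0) ∧
      (G.E i y = 0 → ∃ l, G.LocEq (3 * ε₁) y i l)) ∧ ∀ y' ∈ Y, dist (pr y) (pr y') < 3 * ε₁ → y = y' := by
  obtain ⟨m, hm, h⟩ := fin_min Y (fun y m => (∀ i : G.ι, (∀ x : EN N, x ≠ 0 → dist (pr x) (pr y) < m → G.E i x = 0 → G.E i y = 0) ∧
      (G.E i y = 0 → ∃ l, G.LocEq m y i l)) ∧ ∀ y' ∈ Y, dist (pr y) (pr y') < m → y = y') (by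
    intro y m m' hm h
    refine ⟨fun i => ⟨fun x hx hd => (h.1 i).1 x hx (lt_of_lt_of_le hd hm), fun h0 => ?_⟩, fun y' hy' hd => h.2 y' hy' (lt_of_lt_of_le hd hm)⟩
    obtain ⟨l, hl⟩ := (h.1 i).2 h0
    exact ⟨l, locEq_mono hm hl⟩) (by
    intro y hy
    obtain ⟨κ, hκ, -, h1⟩ := bd_near hG hB (hY.mem y hy).1 (hY.mem y hy).2
    obtain ⟨m', hm', h2⟩ := fin_min Y (fun y' m => dist (pr y) (pr y') < m → y = y') (fun y' m m' hm h hd => h (lt_of_lt_of_le hd hm)) (by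
      intro y' hy'
      by_cases h3 : pr y = pr y'
      · exact ⟨1, one_pos, fun _ => hY.inj y hy y' hy' h3⟩
      · exact ⟨dist (pr y) (pr y'), dist_pos.2 h3, fun h4 => absurd h4 (lt_irrefl _)⟩)
    refine ⟨min κ m', lt_min hκ hm', fun i => ⟨fun x hx hd => (h1 i).1 x hx (lt_of_lt_of_le hd (min_le_left _ _)), fun h0 => ?_⟩,
      fun y' hy' hd => h2 y' hy' (lt_of_lt_of_le hd (min_le_right _ _))⟩
    obtain ⟨l, hl⟩ := (h1 i).2 h0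
    exact ⟨l, locEq_mono (min_le_left _ _) hl⟩)
  refine ⟨min m 1 / 3, by positivity, by linarith [min_le_right m (1 : ℝ)], fun y hy => ?_⟩
  have e0 : 3 * (min m 1 / 3) = min m 1 := by ring
  rw [e0]
  have e1 : min m 1 ≤ m := min_le_left _ _
  refine ⟨fun i => ⟨fun x hx hd => ((h y hy).1 i).1 x hx (lt_of_lt_of_le hd e1), fun h0 => ?_⟩, fun y' hy' hd => (h y hy).2 y' hy' (lt_of_lt_of_le hd e1)⟩
  obtain ⟨l, hl⟩ := ((h y hy).1 i).2 h0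
  exact ⟨l, locEq_mono e1 hl⟩

/-- uniformly on a compact set -/
theorem hh_unif (hG : G.Ok) (v : EN N) (i : G.ι) (l : Fin (G.M + 1)) {A : Set ℂ} (hA : IsCompact A) {Φ : ℂ → EN N} (hΦ : ContinuousOn Φ A)
    (h0 : ∀ ζ ∈ A, Φ ζ ≠ 0) (h1 : ∀ ζ ∈ A, (inner ℂ v (Φ ζ) : ℂ) ≠ 0) (h2 : ∀ ζ ∈ A, G.hh v i l (Φ ζ) ≠ 0) :
    ∃ δ : ℝ, 0 < δ ∧ ∀ ζ ∈ A, ∀ x : EN N, x ≠ 0 → dist (pr x) (pr (Φ ζ)) < δ → ‖G.hh v i l x - G.hh v i l (Φ ζ)‖ < ‖G.hh v i l (Φ ζ)‖ := by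
  refine hA.induction_on (p := fun s => ∃ δ : ℝ, 0 < δ ∧ ∀ ζ ∈ s, ∀ x : EN N, x ≠ 0 → dist (pr x) (pr (Φ ζ)) < δ →
    ‖G.hh v i l x - G.hh v i l (Φ ζ)‖ < ‖G.hh v i l (Φ ζ)‖) ?_ ?_ ?_ ?_
  · exact ⟨1, one_pos, fun ζ hζ => absurd hζ (Set.notMem_empty ζ)⟩
  · intro s s' hs h
    obtain ⟨δ, hδ, h⟩ := h
    exact ⟨δ, hδ, fun ζ hζ => h ζ (hs hζ)⟩
  · intro s s' hs hs'
    obtain ⟨δ, hδ, h⟩ := hs
    obtain ⟨δ', hδ', h'⟩ := hs'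
    refine ⟨min δ δ', lt_min hδ hδ', fun ζ hζ x hx hd => ?_⟩
    rcases hζ with hζ | hζ
    · exact h ζ hζ x hx (lt_of_lt_of_le hd (min_le_left _ _))
    · exact h' ζ hζ x hx (lt_of_lt_of_le hd (min_le_right _ _))
  · intro ζ₀ hζ₀
    have hpos : 0 < ‖G.hh v i l (Φ ζ₀)‖ := norm_pos_iff.2 (h2 ζ₀ hζ₀)
    obtain ⟨δ, hδ, h⟩ := hh_close hG v i l (h0 ζ₀ hζ₀) (h1 ζ₀ hζ₀) (show 0 < ‖G.hh v i l (Φ ζ₀)‖ / 3 by positivity)
    have hc : ContinuousWithinAt (fun ζ => pr (Φ ζ)) A ζ₀ := (continuousAt_pr (h0 ζ₀ hζ₀)).comp_continuousWithinAt (hΦ ζ₀ hζ₀)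
    have he : ∀ᶠ ζ in 𝓝[A] ζ₀, dist (pr (Φ ζ)) (pr (Φ ζ₀)) < δ / 2 := Metric.tendsto_nhds.1 hc _ (by positivity)
    refine ⟨{ζ | ζ ∈ A ∧ dist (pr (Φ ζ)) (pr (Φ ζ₀)) < δ / 2}, ?_, δ / 2, by positivity, fun ζ hζ x hx hd => ?_⟩
    · filter_upwards [he, self_mem_nhdsWithin] with ζ hζ hζA
      exact ⟨hζA, hζ⟩
    · have e1 := h (Φ ζ) (h0 ζ hζ.1) (by linarith [hζ.2])
      have e2 := h x hx (by linarith [hζ.2, dist_triangle (pr x) (pr (Φ ζ)) (pr (Φ ζ₀))])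
      have e3 : ‖G.hh v i l x - G.hh v i l (Φ ζ)‖ ≤ ‖G.hh v i l x - G.hh v i l (Φ ζ₀)‖ + ‖G.hh v i l (Φ ζ) - G.hh v i l (Φ ζ₀)‖ := by
        have e4 : G.hh v i l x - G.hh v i l (Φ ζ) = (G.hh v i l x - G.hh v i l (Φ ζ₀)) - (G.hh v i l (Φ ζ) - G.hh v i l (Φ ζ₀)) := by ring
        rw [e4]
        exact norm_sub_le _ _
      have e5 : ‖G.hh v i l (Φ ζ₀)‖ ≤ ‖G.hh v i l (Φ ζ)‖ + ‖G.hh v i l (Φ ζ) - G.hh v i l (Φ ζ₀)‖ := by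
        have e6 : G.hh v i l (Φ ζ₀) = G.hh v i l (Φ ζ) - (G.hh v i l (Φ ζ) - G.hh v i l (Φ ζ₀)) := by ring
        calc ‖G.hh v i l (Φ ζ₀)‖ = ‖G.hh v i l (Φ ζ) - (G.hh v i l (Φ ζ) - G.hh v i l (Φ ζ₀))‖ := by rw [← e6]
          _ ≤ _ := norm_sub_le _ _
      linarith

end Pool.Agent.SR3
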