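import Pool.Agent.SR3.Circ
import Pool.Agent.SR3.LimCa

/-!
# SR3 LimCb: the two cases at a point where the limit meets a crossing
-/

set_option autoImplicit false

open Topology Filter Metric

noncomputable section

namespace Pool.Agent.SR3

open Pool.Agent.H36.BP (EN fs wd Sub OrdTwo)
open Pool.Agent.H62.EF (MN pr nm nm_close norm_inner_sq continuousAt_pr pr_smul dist_pr)
open Pool.Agent.G3 (LLift)

variable {N : ℕ} {G : Geo N} {Y : Finset (EN N)} {B₃ B₄ ε K ε₂ : ℝ} {𝒰 : Ultrafilter ℕ} {U : Set ℂ} {Γ : ℕ → ℂ → EN N} {t : ℕ → Finset ℂ} {s : ℕ → ℂ → ℝ}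
  {y : ℕ → ℂ → EN N} {f : ℂ → MN N}

theorem llift_cont {f : ℂ → MN N} {z : ℂ} (h : LLift f z) : ContinuousAt f z := by
  obtain ⟨Φ, h1, h2⟩ := h
  have h3 : ContinuousAt (fun w => pr (Φ w)) z := (continuousAt_pr h2.self_of_nhds.1).comp h1.continuousAt
  refine h3.congr ?_
  filter_upwards [h2] with w hw
  exact hw.2.symm

/-- a closed condition which holds for the curves outside the holes holds for the limit -/
theorem lim_closed (hL : G.Loc Y B₃ B₄ ε K ε₂ 𝒰 U Γ t s y) (hf : Geo.LimOf 𝒰 U Γ t s f) {z₁ : ℂ} {r κ : ℝ} {P : MN N}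
    (hn : ∀ᶠ n in (𝒰 : Filter ℕ), ∀ w ∈ ball z₁ r, Off (t n) (s n) w → dist (pr (Γ n w)) P < κ) : ∀ w ∈ ball z₁ r, w ∈ U → dist (f w) P ≤ κ := by
  intro w hw hwU
  refine le_of_forall_pos_le_add fun η hη => ?_
  have hc := llift_cont (hf.lift w hwU)
  have h1 : ∀ᶠ ζ in 𝓝 w, dist (f ζ) (f w) < η / 2 ∧ ζ ∈ ball z₁ r ∧ ζ ∈ U := by
    filter_upwards [(Metric.tendsto_nhds.1 hc) (η / 2) (by positivity), isOpen_ball.mem_nhds hw, hL.opn.mem_nhds hwU] with ζ e1 e2 e3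
    exact ⟨e1, e2, e3⟩
  obtain ⟨δ, hδ, h2⟩ := Metric.eventually_nhds_iff.1 h1
  obtain ⟨R, hR, h3⟩ := loc_circle hL hwU
  obtain ⟨r', hr'⟩ : ∃ r', r' = min R (δ / 2) := ⟨_, rfl⟩
  have hr'0 : 0 < r' := by rw [hr']; positivity
  have h4 : r' ≤ R := by rw [hr']; exact min_le_left _ _
  have h5 : r' ≤ δ / 2 := by rw [hr']; exact min_le_right _ _
  have hsub : ∀ ζ ∈ closedBall w r', dist (f ζ) (f w) < η / 2 ∧ ζ ∈ ball z₁ r ∧ ζ ∈ U := by
    intro ζ hζ
    refine h2 ?_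
    have := mem_closedBall.1 hζ
    linarith
  have h6 := hf.lim (closedBall w r') (fun ζ hζ => (hsub ζ hζ).2.2) (isCompact_closedBall w r') (η / 2) (by positivity)
  obtain ⟨n, h7, h8, ρ, h9, h10, h11, -, -, h12⟩ := (hn.and (h6.and (h3 r' hr'0 h4))).exists
  obtain ⟨ζ, h13, -⟩ := exists_radial w w (show 0 < ρ by linarith)
  have hζ : ζ ∈ closedBall w r' := by rw [mem_closedBall, dist_eq_norm, h13]; exact h10.le
  have e1 := h7 ζ (hsub ζ hζ).2.1 (h12 ζ h13)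
  have e2 := h8 ζ hζ (h11 ζ h13)
  have e3 := (hsub ζ hζ).1
  have e4 : dist (f w) P ≤ dist (f w) (f ζ) + dist (f ζ) (pr (Γ n ζ)) + dist (pr (Γ n ζ)) P := by
    have := dist_triangle (f w) (f ζ) P
    have := dist_triangle (f ζ) (pr (Γ n ζ)) P
    linarith
  rw [dist_comm (f w) (f ζ), dist_comm (f ζ) (pr (Γ n ζ))] at e4
  linarith

/-- the point `a + s a` of a rim is outside the discs -/
theorem rim_off (hL : G.Loc Y B₃ B₄ ε K ε₂ 𝒰 U Γ t s y) (hK : 20 ≤ K) {n : ℕ} {a : ℂ} (ha : a ∈ t n) : Off (t n) (s n) (a + s n a) := by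
  intro b hb
  by_cases hab : a = b
  · rw [← hab, add_sub_cancel_left, Complex.norm_real, Real.norm_of_nonneg (hL.pos n a ha).le]
  · have h1 := hL.sep n a ha b hb hab
    have h2 : s n a ≤ max (s n a) (s n b) := le_max_left _ _
    have h3 : s n b ≤ max (s n a) (s n b) := le_max_right _ _
    have h4 := hL.pos n a ha
    have h5 : ‖a - b‖ ≤ ‖a + s n a - b‖ + ‖((s n a : ℝ) : ℂ)‖ := by
      have h6 : a - b = (a + s n a - b) - ((s n a : ℝ) : ℂ) := by ring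
      calc ‖a - b‖ = ‖(a + s n a - b) - ((s n a : ℝ) : ℂ)‖ := by rw [← h6]
        _ ≤ _ := norm_sub_le _ _
    rw [Complex.norm_real, Real.norm_of_nonneg h4.le] at h5
    nlinarith

/-- the two cases: near `z₁` all the holes have the same end `v`, and the curve is near `v`; or there are no holes -/
theorem cross_cases {ε₁ : ℝ} (h3 : ∀ v ∈ Y, ∀ v' ∈ Y, dist (pr v) (pr v') < 3 * ε₁ → v = v') (hK : 20 ≤ K) (hε : 0 < ε)
    (hε2 : 2 * ε ≤ ε₂) (hε₂ : ε₂ ≤ ε₁) (hL : G.Loc Y B₃ B₄ ε K ε₂ 𝒰 U Γ t s y) (hf : Geo.LimOf 𝒰 U Γ t s f) {z₁ : ℂ} (hz₁ : z₁ ∈ U) :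
    (∃ v ∈ Y, dist (f z₁) (pr v) ≤ ε₂ ∧ ∃ r : ℝ, 0 < r ∧ (∀ᶠ n in (𝒰 : Filter ℕ), ∀ w ∈ ball z₁ r, Off (t n) (s n) w → dist (pr (Γ n w)) (pr v) < ε₂) ∧
      ∀ᶠ n in (𝒰 : Filter ℕ), ∀ a ∈ t n, ‖a - z₁‖ < r → y n a = v) ∨
    ∀ κ : ℝ, 0 < κ → ∃ r : ℝ, 0 < r ∧ (∀ᶠ n in (𝒰 : Filter ℕ), ∀ w ∈ ball z₁ r, Off (t n) (s n) w → dist (pr (Γ n w)) (f z₁) < κ) ∧
      ∀ᶠ n in (𝒰 : Filter ℕ), ∀ a ∈ t n, r ≤ ‖a - z₁‖ := by
  obtain ⟨r, hr, h⟩ := hL.loc z₁ hz₁
  rcases Ultrafilter.eventually_or.1 h with hA | hB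
  · left
    have h4 : ∀ᶠ n in (𝒰 : Filter ℕ), ∃ v ∈ (Y : Set (EN N)), ∀ w ∈ ball z₁ r, Off (t n) (s n) w → dist (pr (Γ n w)) (pr v) < ε₂ := by
      filter_upwards [hA] with n hn
      obtain ⟨a, ha, h5⟩ := hn
      exact ⟨y n a, (hL.rim n a ha).mem, h5⟩
    obtain ⟨v, hv, h5⟩ := (Ultrafilter.eventually_exists_mem_iff Y.finite_toSet).1 h4
    refine ⟨v, hv, lim_closed hL hf h5 z₁ (mem_ball_self hr) hz₁, r / 2, by positivity, ?_, ?_⟩
    · filter_upwards [h5] with n hn w hw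
      exact hn w (ball_subset_ball (by linarith) hw)
    · filter_upwards [h5, hL.tiny_at z₁ (r / 2) (r / 4) (by positivity)] with n hn hn2 a ha har
      have e1 := hn2 a ha har.le
      have e2 := hL.pos n a ha
      have hmem : a + s n a ∈ ball z₁ r := by
        rw [mem_ball, dist_eq_norm]
        have e3 : a + s n a - z₁ = (a - z₁) + ((s n a : ℝ) : ℂ) := by ring
        rw [e3]
        refine lt_of_le_of_lt (norm_add_le _ _) ?_
        rw [Complex.norm_real, Real.norm_of_nonneg e2.le]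
        linarith
      have e4 := hn _ hmem (rim_off hL hK ha)
      have e5 := ((hL.rim n a ha).ann 1 (by rw [norm_one]; norm_num) (by rw [norm_one]; linarith)).2
      rw [mul_one] at e5
      refine (h3 v hv (y n a) (hL.rim n a ha).mem ?_).symm
      have e6 := dist_triangle (pr v) (pr (Γ n (a + s n a))) (pr (y n a))
      rw [dist_comm (pr v) (pr (Γ n (a + s n a)))] at e6
      linarith
  · right
    intro κ hκ
    have hc := llift_cont (hf.lift z₁ hz₁)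
    have h1 : ∀ᶠ ζ in 𝓝 z₁, dist (f ζ) (f z₁) < κ / 2 ∧ ζ ∈ U := by
      filter_upwards [(Metric.tendsto_nhds.1 hc) (κ / 2) (by positivity), hL.opn.mem_nhds hz₁] with ζ e1 e2
      exact ⟨e1, e2⟩
    obtain ⟨δ, hδ, h2⟩ := Metric.eventually_nhds_iff.1 h1
    obtain ⟨r', hr'⟩ : ∃ r', r' = min (min (r / 2) (δ / 2)) (1 / 2) := ⟨_, rfl⟩
    have hr'0 : 0 < r' := by rw [hr']; positivity
    have e1 : r' ≤ r / 2 := by rw [hr']; exact (min_le_left _ _).trans (min_le_left _ _)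
    have e2 : r' ≤ δ / 2 := by rw [hr']; exact (min_le_left _ _).trans (min_le_right _ _)
    have e3 : r' ≤ 1 / 2 := by rw [hr']; exact min_le_right _ _
    have hsub : ∀ ζ ∈ closedBall z₁ r', dist (f ζ) (f z₁) < κ / 2 ∧ ζ ∈ U := by
      intro ζ hζ
      refine h2 ?_
      have := mem_closedBall.1 hζ
      linarith
    have h6 := hf.lim (closedBall z₁ r') (fun ζ hζ => (hsub ζ hζ).2) (isCompact_closedBall z₁ r') (κ / 2) (by positivity)
    refine ⟨r', hr'0, ?_, ?_⟩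
    · filter_upwards [hB, h6, hL.out_sqrt hz₁ hr] with n h7 h8 h9 w hw _
      have hw' : w ∈ closedBall z₁ r' := ball_subset_closedBall hw
      have hfar : Far (t n) (s n) w := by
        intro a ha haw
        have e4 := h7.1 a ha
        have e5 : ‖a - z₁‖ ≤ ‖w - a‖ + ‖w - z₁‖ := by
          have e6 : a - z₁ = (w - z₁) - (w - a) := by ring
          rw [e6]
          refine (norm_sub_le _ _).trans ?_
          linarith
        have e7 : ‖w - z₁‖ < r' := by rwa [mem_ball, dist_eq_norm] at hw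
        have e8 := ((h9 a ha e4).2 (by linarith)).1
        linarith
      have e9 := h8 w hw' hfar
      have e10 := (hsub w hw').1
      exact lt_of_le_of_lt (dist_triangle _ (f w) _) (by linarith)
    · filter_upwards [hB] with n h7 a ha
      have := h7.1 a ha
      linarith

end Pool.Agent.SR3
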