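import Pool.Agent.SR3.LimCEnd

/-!
# SR3 LimCe: the end of LimC, in the form of helper2
-/

set_option autoImplicit false

open Topology Filter Metric

noncomputable section

namespace Pool.Agent.SR3

open Pool.Agent.H36.BP (EN fs wd Sub OrdTwo)
open Pool.Agent.H62.EF (MN pr)
open Pool.Agent.G3 (LLift)

variable {N : ℕ} {G : Geo N}

theorem cross_near (hB : G.Bdry) {f : ℂ → MN N} {z₁ : ℂ} (hl : LLift f z₁) {i i' : G.ι} (hne : i ≠ i')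
    (h : ∀ᶠ w in 𝓝 z₁, ∀ x : EN N, x ≠ 0 → f w = pr x → x ∈ G.X ∧ x ∉ G.K ∧ G.E i x = 0 ∧ G.E i' x = 0) : ∀ᶠ w in 𝓝 z₁, f w = f z₁ := by
  set S : Set (MN N) := {P : MN N | ∃ y ∈ G.X, y ∉ G.K ∧ G.E i y = 0 ∧ G.E i' y = 0 ∧ P = pr y} with hS
  have hfin : S.Finite := hB.two i i' hne
  have h1 : ∀ᶠ z in 𝓝 z₁, f z ∈ S := by
    obtain ⟨Φ, -, he⟩ := hl
    filter_upwards [h, he] with z hz1 hz2
    obtain ⟨h4, h5, h6, h7⟩ := hz1 (Φ z) hz2.1 hz2.2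
    exact ⟨Φ z, h4, h5, h6, h7, hz2.2⟩
  have h2 : IsClosed (S \ {f z₁}) := (hfin.subset Set.sdiff_subset).isClosed
  have h3 : ∀ᶠ z in 𝓝 z₁, f z ∉ S \ {f z₁} :=
    (LLift.continuousAt hl).eventually (h2.isOpen_compl.mem_nhds fun h4 => h4.2 rfl)
  filter_upwards [h1, h3] with z hz1 hz2
  by_contra hne'
  exact hz2 ⟨hz1, hne'⟩

theorem cross_spread {U : Set ℂ} (_hU : IsOpen U) (hc : IsPreconnected U) {f : ℂ → MN N} (hl : ∀ z ∈ U, LLift f z) {z₁ : ℂ} (hz₁ : z₁ ∈ U)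
    (h : ∀ z ∈ U, f z = f z₁ → ∀ᶠ w in 𝓝 z, f w = f z₁) : ∀ z ∈ U, f z = f z₁ :=
  llift_const hc hl hz₁ (h z₁ hz₁ rfl)

end Pool.Agent.SR3
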