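import Pool.Agent.SR3.HDefs
import Pool.Agent.SY.NBa

/-!
# SR3 Lin: an entire curve of polynomial growth in the affine surface `{H = 1}` is constant, if there is no affine line
-/

set_option autoImplicit false

open Topology Filter Metric MvPolynomial

noncomputable section

namespace Pool.Agent.SR3

open Pool.Agent.H36.BP (EN)
open Pool.Agent.H62.FC (Homog)

variable {N : ℕ} {P : Ideal (MvPolynomial (Fin (N + 1)) ℂ)} {H : MvPolynomial (Fin (N + 1)) ℂ}

/-- MODULE H8 (Lin.lean): a curve of polynomial growth is polynomial -/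
theorem na_of (_hP : Homog P) (hL : NoLine P H) (F : ℂ → EN N) (hF : Differentiable ℂ F) (hK : ∀ z, F z ∈ oc P H) (h1 : ∀ z, eval (F z).ofLp H = 1)
    (hg : ∃ (C : ℝ) (k : ℕ), ∀ z, ‖F z‖ ≤ C * (1 + ‖z‖) ^ k) (z z' : ℂ) : F z = F z' := by
  obtain ⟨C, k, hg⟩ := hg
  have key : ∀ l : Fin (N + 1), ∃ p : Polynomial ℂ, ∀ z, (F z).ofLp l = p.eval z := fun l =>
    Pool.Agent.SY.exists_poly_of_growth k (fun z => (F z).ofLp l) C ((EuclideanSpace.proj (𝕜 := ℂ) l).differentiable.comp hF)
      fun z => (PiLp.norm_apply_le (F z) l).trans (hg z)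
  choose p hp using key
  have h2 : ∀ z : ℂ, (fun l => (p l).eval z) = (F z).ofLp := fun z => funext fun l => (hp l z).symm
  have h3 : ∀ l, (p l).natDegree = 0 := by
    refine hL p fun z => ⟨fun Q hQ => ?_, ?_⟩
    · rw [h2 z]
      exact (hK z).1.2 Q hQ
    · rw [h2 z]
      exact h1 z
  ext l
  rw [hp l z, hp l z', Polynomial.eq_C_of_natDegree_eq_zero (h3 l), Polynomial.eval_C, Polynomial.eval_C]

end Pool.Agent.SR3
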