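import Pool.Agent.SR3.GDefs
import Pool.Agent.SR3.AGap
import Pool.Agent.SY.NBa
import Pool.Agent.H62.EF.PrA
import Pool.Agent.G3.R.Nv

/-!
# SR3 LinL: limits at exponentially small scales, and affine lines

`line_limit`: three circles between the radius `r` and half the distance to the good points, with `growth`, as in `gap_one`; `gap_montel`.
`line_low`: a line is not contained in a small neighbourhood of the ends (Liouville).  `line_end`: lines are polynomial curves with an end in `Y`.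
-/

set_option autoImplicit false

open Topology Filter Metric

noncomputable section

namespace Pool.Agent.SR3

open Pool.Agent.H36.BP (EN fs wd Sub OrdTwo)
open Pool.Agent.H14.PP (IsCone Tan)
open Pool.Agent.SY (Ent)
open Pool.Agent.SDA (EnergyK Near AffOpen Nm nForms)
open Pool.Agent.H62.EF (MN pr)
open Pool.Agent.G3 (LLift)
open Geo (Gd)

variable {N : ℕ} {G : Geo N} {T : Set (EN N)} {rho : EN N → ℝ} {M : ℕ} {c₀ C δ : ℝ} {g : (ℂ → EN N) → ℂ → ℝ}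

/-- three circles for one curve -/
private theorem one_curve {F : ℂ → EN N} (hFd : Differentiable ℂ F) (hF0 : ∀ w, F w ≠ 0) {z : ℂ} {d r η B A : ℝ} (hη : 0 < η) (hA : 0 ≤ A)
    (hd3 : 3 ≤ d) (hr0 : 0 < r) (hrs : r ≤ Real.exp (-(η * d))) (hb : ∀ w : ℂ, ‖w‖ ≤ 1 → Real.log ‖F (z + r * w)‖ ≤ B)
    (hg : ∀ y, ‖y - z‖ = d / 2 → Real.log ‖F y‖ ≤ A * (1 + (d + d / 2))) :
    ∀ w : ℂ, 1 ≤ ‖w‖ → ‖w‖ ≤ d / 2 → ‖F (z + r * w)‖ ≤ Real.exp (|B| + 2 * A / η * Real.log ‖w‖) := by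
  intro w hw1 hw2
  have hs1 : r ≤ 1 := by
    refine hrs.trans ?_
    rw [Real.exp_le_one_iff]
    have : 0 ≤ η * d := by positivity
    linarith
  have hrn : ‖(r : ℂ)‖ = r := by rw [Complex.norm_real, Real.norm_of_nonneg hr0.le]
  have hrc : (r : ℂ) ≠ 0 := Complex.ofReal_ne_zero.2 hr0.ne'
  have hw0 : 0 < ‖w‖ := by linarith
  have hrd : r < d / 2 := by linarith
  set m₂ : ℝ := A * (1 + (d + d / 2)) with hm₂
  have hm₂0 : 0 ≤ m₂ := by positivity
  have h1 : ∀ y, ‖y - z‖ = r → ‖F y‖ ≤ Real.exp B := fun y hy => by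
    rw [← Real.log_le_iff_le_exp (norm_pos_iff.2 (hF0 y))]
    have h3 := hb ((y - z) / r) (by rw [norm_div, hrn, hy, div_self hr0.ne'])
    have e : z + (r : ℂ) * ((y - z) / r) = y := by
      field_simp
      ring
    rwa [e] at h3
  have h2 : ∀ y, ‖y - z‖ = d / 2 → ‖F y‖ ≤ Real.exp m₂ := fun y hy => by
    rw [← Real.log_le_iff_le_exp (norm_pos_iff.2 (hF0 y))]
    exact hg y hy
  have hy : ‖z + (r : ℂ) * w - z‖ = r * ‖w‖ := by rw [add_sub_cancel_left, norm_mul, hrn]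
  have hyr : r ≤ ‖z + (r : ℂ) * w - z‖ := by
    rw [hy]
    exact le_mul_of_one_le_right hr0.le hw1
  have hyd : ‖z + (r : ℂ) * w - z‖ ≤ d / 2 := by
    rw [hy]
    exact (mul_le_of_le_one_left hw0.le hs1).trans hw2
  refine (three_circles hFd hr0 hrd h1 h2 _ hyr hyd).trans (Real.exp_le_exp.2 ?_)
  rw [hy, Real.log_mul hr0.ne' hw0.ne']
  set Λ : ℝ := Real.log (d / 2) - Real.log r with hΛ
  have hΛd : η * d ≤ Λ := by
    have h3 : Real.log r ≤ -(η * d) := by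
      rw [← Real.log_exp (-(η * d))]
      exact Real.log_le_log hr0 hrs
    have h4 : 0 ≤ Real.log (d / 2) := Real.log_nonneg (by linarith)
    linarith
  have hηd : 0 < η * d := by positivity
  have hΛ0 : 0 < Λ := lt_of_lt_of_le hηd hΛd
  set t : ℝ := Real.log ‖w‖ with ht
  have ht0 : 0 ≤ t := Real.log_nonneg hw1
  have htΛ : t ≤ Λ := by
    have h3 := Real.log_le_log (by positivity) (hy ▸ hyd)
    rw [Real.log_mul hr0.ne' hw0.ne'] at h3
    linarith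
  have e1 : (Real.log (d / 2) - (Real.log r + t)) * B + (Real.log r + t - Real.log r) * m₂ = (Λ - t) * B + t * m₂ := by
    rw [hΛ]
    ring
  rw [e1, div_le_iff₀ hΛ0]
  have h5 : (Λ - t) * B ≤ Λ * |B| := by
    calc (Λ - t) * B ≤ (Λ - t) * |B| := mul_le_mul_of_nonneg_left (le_abs_self _) (by linarith)
      _ ≤ Λ * |B| := mul_le_mul_of_nonneg_right (by linarith) (abs_nonneg _)
  have h6 : m₂ ≤ 2 * A / η * Λ := by
    have h7 : m₂ ≤ 2 * A / η * (η * d) := by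
      have e2 : 2 * A / η * (η * d) = A * (2 * d) := by
        field_simp
      rw [e2, hm₂]
      exact mul_le_mul_of_nonneg_left (by linarith) hA
    exact h7.trans (mul_le_mul_of_nonneg_left hΛd (by positivity))
  have h8 := mul_le_mul_of_nonneg_left h6 ht0
  calc (Λ - t) * B + t * m₂ ≤ Λ * |B| + t * (2 * A / η * Λ) := add_le_add h5 h8
    _ = (|B| + 2 * A / η * t) * Λ := by ring

/-- polynomial growth from the exponential form -/
private theorem pow_growth {H : ℂ → EN N} {b C' : ℝ} (hH : ∀ w, ‖H w‖ ≤ Real.exp (b + C' * Real.log (1 + ‖w‖))) :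
    ∃ (A : ℝ) (k : ℕ), ∀ w, ‖H w‖ ≤ A * (1 + ‖w‖) ^ k := by
  refine ⟨Real.exp b, ⌈C'⌉₊, fun w => (hH w).trans ?_⟩
  have hp : (1 : ℝ) ≤ 1 + ‖w‖ := by linarith [norm_nonneg w]
  have hp0 : (0 : ℝ) < 1 + ‖w‖ := by linarith
  rw [Real.exp_add]
  refine mul_le_mul_of_nonneg_left ?_ (Real.exp_pos _).le
  have e : (1 + ‖w‖) ^ ⌈C'⌉₊ = Real.exp (⌈C'⌉₊ * Real.log (1 + ‖w‖)) := by
    rw [mul_comm, Real.exp_mul, Real.exp_log hp0, Real.rpow_natCast]
  rw [e]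
  exact Real.exp_le_exp.2 (mul_le_mul_of_nonneg_right (Nat.le_ceil C') (Real.log_nonneg hp))

theorem line_limit (hG : G.Ok) (hM : G.Met T rho M c₀ C δ g) (hQ : G.QN rho) {B B' η : ℝ} (hη : 0 < η) (𝒰 : Ultrafilter ℕ) (h𝒰 : (𝒰 : Filter ℕ) ≤ atTop) (q : ℕ → G.J → ℂ)
    (F : ℕ → ℂ → EN N) (z : ℕ → ℂ) (r : ℕ → ℝ) (hF : ∀ n, G.Cl T (q n) (F n))
    (hd : Tendsto (fun n => infDist (z n) (Gd rho δ (F n))) (𝒰 : Filter ℕ) atTop)
    (hr : ∀ᶠ n in (𝒰 : Filter ℕ), 0 < r n ∧ r n ≤ Real.exp (-(η * infDist (z n) (Gd rho δ (F n)))))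
    (hb : ∀ᶠ n in (𝒰 : Filter ℕ), ∀ w : ℂ, ‖w‖ ≤ 1 → Real.log ‖F n (z n + r n * w)‖ ≤ B)
    (hlo : ∀ᶠ n in (𝒰 : Filter ℕ), ∃ w : ℂ, ‖w‖ ≤ 1 ∧ Real.log ‖F n (z n + r n * w)‖ ≤ B')
    (hup : ∀ᶠ n in (𝒰 : Filter ℕ), ∃ w : ℂ, ‖w‖ ≤ 1 ∧ B' + 1 ≤ Real.log ‖F n (z n + r n * w)‖) :
    ∃ φ : ℂ → EN N, G.Line φ ∧ TendstoLocallyUniformlyOn (fun n w => F n (z n + r n * w)) φ (𝒰 : Filter ℕ) Set.univ := by
  obtain ⟨A, hA, hgr⟩ := growth hG hM
  obtain ⟨C', hC'e⟩ : ∃ C' : ℝ, C' = 2 * A / η := ⟨_, rfl⟩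
  have hC' : 0 ≤ C' := by
    rw [hC'e]
    positivity
  set Φ : ℕ → ℂ → EN N := fun n w => F n (z n + r n * w) with hΦ
  have hFd : ∀ n, Differentiable ℂ (F n) := fun n => (hF n).ent.diff
  have hF0 : ∀ n w, F n w ≠ 0 := fun n w => ne0 hG ((hF n).ent.mem w)
  have hΦd : ∀ n, Differentiable ℂ (Φ n) := fun n => (hFd n).comp ((differentiable_const _).add ((differentiable_const _).mul differentiable_id))
  have hbd : ∀ᶠ n in (𝒰 : Filter ℕ), ∀ w : ℂ, ‖w‖ ≤ infDist (z n) (Gd rho δ (F n)) / 2 → ‖Φ n w‖ ≤ Real.exp (|B| + C' * Real.log (1 + ‖w‖)) := by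
    filter_upwards [hd.eventually_ge_atTop 3, hr, hb] with n hn3 hrn hbn w hw
    rcases le_total ‖w‖ 1 with h | h
    · have h3 : ‖Φ n w‖ ≤ Real.exp B := by
        rw [← Real.log_le_iff_le_exp (norm_pos_iff.2 (hF0 n _))]
        exact hbn w h
      refine h3.trans (Real.exp_le_exp.2 ?_)
      have h4 : 0 ≤ Real.log (1 + ‖w‖) := Real.log_nonneg (by linarith [norm_nonneg w])
      have h5 := le_abs_self B
      have h6 := mul_nonneg hC' h4
      linarith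
    · refine (one_curve (hFd n) (hF0 n) hη hA hn3 hrn.1 hrn.2 hbn (fun y hy => ?_) w h hw).trans (Real.exp_le_exp.2 ?_)
      · refine (hgr (q n) (F n) (hF n) y).trans (mul_le_mul_of_nonneg_left ?_ hA)
        have h3 : infDist y (Gd rho δ (F n)) ≤ infDist (z n) (Gd rho δ (F n)) + dist y (z n) := infDist_le_infDist_add_dist
        rw [dist_eq_norm, hy] at h3
        linarith
      · have h3 : Real.log ‖w‖ ≤ Real.log (1 + ‖w‖) := Real.log_le_log (by linarith) (by linarith)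
        have h4 := mul_le_mul_of_nonneg_left h3 hC'
        rw [← hC'e]
        linarith
  obtain ⟨H, hHd, hHc⟩ := gap_montel 𝒰 hΦd (b := fun R => Real.exp (|B| + C' * Real.log (1 + R))) (by
    intro R
    filter_upwards [hbd, hd.eventually_ge_atTop (2 * R)] with k hk hkR w hw
    rw [mem_ball_zero_iff] at hw
    refine (hk w (by linarith)).trans (Real.exp_le_exp.2 ?_)
    have h3 : Real.log (1 + ‖w‖) ≤ Real.log (1 + R) := Real.log_le_log (by linarith [norm_nonneg w]) (by linarith)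
    have := mul_le_mul_of_nonneg_left h3 hC'
    linarith)
  have hHt : ∀ w, Tendsto (fun k => Φ k w) (𝒰 : Filter ℕ) (𝓝 (H w)) := fun w => hHc.tendsto_at (Set.mem_univ w)
  have hHK : ∀ w, H w ∈ G.K ∧ G.p (H w) = 1 := fun w =>
    mem_lim hG (Eventually.of_forall fun k => ⟨(hF k).ent.mem _, (hF k).nm _⟩) (hHt w)
  have hHb : ∀ w, ‖H w‖ ≤ Real.exp (|B| + C' * Real.log (1 + ‖w‖)) := by
    intro w
    refine le_of_tendsto (hHt w).norm ?_
    filter_upwards [hbd, hd.eventually_ge_atTop (2 * ‖w‖)] with k hk hkR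
    exact hk w (by linarith)
  -- limits of points in the unit disc
  have hlim : ∀ w₁ : ℕ → ℂ, (∀ᶠ n in (𝒰 : Filter ℕ), ‖w₁ n‖ ≤ 1) → ∃ y, Tendsto (fun k => Φ k (w₁ k)) (𝒰 : Filter ℕ) (𝓝 (H y)) := by
    intro w₁ hw₁
    obtain ⟨y, -, hy⟩ := (isCompact_closedBall (0 : ℂ) 1).ultrafilter_le_nhds (𝒰.map w₁) (by
      rw [le_principal_iff]
      show ∀ᶠ n in (𝒰 : Filter ℕ), w₁ n ∈ closedBall (0 : ℂ) 1
      filter_upwards [hw₁] with n hn
      rwa [mem_closedBall_zero_iff])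
    have hyt : Tendsto w₁ (𝒰 : Filter ℕ) (𝓝 y) := hy
    exact ⟨y, hHc.tendsto_comp hHd.continuous.continuousWithinAt (Set.mem_univ y) (by rw [nhdsWithin_univ]; exact hyt)⟩
  have hlo' : ∀ n, ∃ w : ℂ, (∃ w : ℂ, ‖w‖ ≤ 1 ∧ Real.log ‖F n (z n + r n * w)‖ ≤ B') → ‖w‖ ≤ 1 ∧ Real.log ‖F n (z n + r n * w)‖ ≤ B' := by
    intro n
    by_cases h : ∃ w : ℂ, ‖w‖ ≤ 1 ∧ Real.log ‖F n (z n + r n * w)‖ ≤ B'
    · obtain ⟨w, hw⟩ := h
      exact ⟨w, fun _ => hw⟩
    · exact ⟨0, fun h' => absurd h' h⟩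
  have hup' : ∀ n, ∃ w : ℂ, (∃ w : ℂ, ‖w‖ ≤ 1 ∧ B' + 1 ≤ Real.log ‖F n (z n + r n * w)‖) → ‖w‖ ≤ 1 ∧ B' + 1 ≤ Real.log ‖F n (z n + r n * w)‖ := by
    intro n
    by_cases h : ∃ w : ℂ, ‖w‖ ≤ 1 ∧ B' + 1 ≤ Real.log ‖F n (z n + r n * w)‖
    · obtain ⟨w, hw⟩ := h
      exact ⟨w, fun _ => hw⟩
    · exact ⟨0, fun h' => absurd h' h⟩
  choose wl hwl using hlo'
  choose wu hwu using hup'
  have hwl' : ∀ᶠ n in (𝒰 : Filter ℕ), ‖wl n‖ ≤ 1 ∧ Real.log ‖F n (z n + r n * wl n)‖ ≤ B' := hlo.mono fun n hn => hwl n hn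
  have hwu' : ∀ᶠ n in (𝒰 : Filter ℕ), ‖wu n‖ ≤ 1 ∧ B' + 1 ≤ Real.log ‖F n (z n + r n * wu n)‖ := hup.mono fun n hn => hwu n hn
  obtain ⟨yl, hyl⟩ := hlim wl (hwl'.mono fun n hn => hn.1)
  obtain ⟨yu, hyu⟩ := hlim wu (hwu'.mono fun n hn => hn.1)
  have hl : ‖H yl‖ ≤ Real.exp B' := by
    refine le_of_tendsto hyl.norm ?_
    filter_upwards [hwl'] with k hk
    rw [← Real.log_le_iff_le_exp (norm_pos_iff.2 (hF0 k _))]
    exact hk.2
  have hu : Real.exp (B' + 1) ≤ ‖H yu‖ := by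
    refine ge_of_tendsto hyu.norm ?_
    filter_upwards [hwu'] with k hk
    rw [← Real.le_log_iff_exp_le (norm_pos_iff.2 (hF0 k _))]
    exact hk.2
  refine ⟨H, ⟨hHd, fun w => (hHK w).1, fun w => (hHK w).2, pow_growth hHb, yl, yu, fun he => ?_⟩, hHc⟩
  rw [he] at hl
  have h9 : Real.exp (B' + 1) ≤ Real.exp B' := hu.trans hl
  rw [Real.exp_le_exp] at h9
  linarith

/-- a line is polynomial -/
private theorem line_poly {φ : ℂ → EN N} (hφ : G.Line φ) : ∃ P : Fin (N + 1) → Polynomial ℂ, ∀ z l, (φ z).ofLp l = (P l).eval z := by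
  obtain ⟨A, k, hg⟩ := hφ.pol
  have key : ∀ l : Fin (N + 1), ∃ p : Polynomial ℂ, ∀ z, (φ z).ofLp l = p.eval z := fun l =>
    Pool.Agent.SY.exists_poly_of_growth k (fun z => (φ z).ofLp l) A ((EuclideanSpace.proj (𝕜 := ℂ) l).differentiable.comp hφ.diff)
      fun z => (PiLp.norm_apply_le (φ z) l).trans (hg z)
  choose p hp using key
  exact ⟨p, fun z l => hp l z⟩

/-- A line is not contained in a small neighbourhood of `Y`: `φ / ⟪y, φ⟫` would be bounded (Liouville). -/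
theorem line_low (hG : G.Ok) {Y : Finset (EN N)} (hY : G.Ends Y) : ∃ B₀ : ℝ, ∀ φ, G.Line φ → ∃ z, Real.log ‖φ z‖ < B₀ := by
  have hY0 : ∀ y ∈ Y, y ≠ 0 := fun y hy h => hG.cone.zero_notMem (h ▸ (hY.mem y hy).1)
  -- the ends are separated
  obtain ⟨ε₁, hε₁, hsep⟩ : ∃ ε₁ : ℝ, 0 < ε₁ ∧ ∀ y ∈ Y, ∀ y' ∈ Y, y ≠ y' → 2 * ε₁ ≤ dist (pr y) (pr y') := by
    rcases (Y ×ˢ Y).filter (fun p => p.1 ≠ p.2) |>.eq_empty_or_nonempty with h | h
    · refine ⟨1, one_pos, fun y hy y' hy' hne => ?_⟩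
      have h1 : (y, y') ∈ (Y ×ˢ Y).filter (fun p => p.1 ≠ p.2) := by
        rw [Finset.mem_filter, Finset.mem_product]
        exact ⟨⟨hy, hy'⟩, hne⟩
      rw [h] at h1
      exact absurd h1 (Finset.notMem_empty _)
    · obtain ⟨p, hp, hmin⟩ := Finset.exists_min_image _ (fun p : EN N × EN N => dist (pr p.1) (pr p.2)) h
      rw [Finset.mem_filter, Finset.mem_product] at hp
      refine ⟨dist (pr p.1) (pr p.2) / 2, ?_, fun y hy y' hy' hne => ?_⟩
      · have h1 : 0 < dist (pr p.1) (pr p.2) := dist_pos.2 fun he => hp.2 (hY.inj _ hp.1.1 _ hp.1.2 he)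
        linarith
      · have h1 := hmin (y, y') (by rw [Finset.mem_filter, Finset.mem_product]; exact ⟨⟨hy, hy'⟩, hne⟩)
        simp only at h1
        linarith
  obtain ⟨B₀, hB₀⟩ := hY.near (min ε₁ 1) (lt_min hε₁ one_pos)
  refine ⟨B₀, fun φ hφ => ?_⟩
  by_contra hcon
  push Not at hcon
  have hφ0 : ∀ z, φ z ≠ 0 := fun z => ne0 hG (hφ.mem z)
  have hprc : Continuous fun z => pr (φ z) := continuous_iff_continuousAt.2 fun z =>
    ContinuousAt.comp (g := pr) (Pool.Agent.H62.EF.continuousAt_pr (hφ0 z)) hφ.diff.continuous.continuousAt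
  have hcov : ∀ z, ∃ y ∈ Y, dist (pr (φ z)) (pr y) < min ε₁ 1 := fun z => hB₀ φ hφ z (hcon z)
  obtain ⟨y, hy, hy0⟩ := hcov 0
  -- one end for all points
  have hall : ∀ z, dist (pr (φ z)) (pr y) < min ε₁ 1 := by
    have hopen : ∀ y' : EN N, IsOpen {z | dist (pr (φ z)) (pr y') < min ε₁ 1} := fun y' =>
      isOpen_lt (hprc.dist continuous_const) continuous_const
    have hcl : IsClosed {z | dist (pr (φ z)) (pr y) < min ε₁ 1} := by
      rw [← isOpen_compl_iff]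
      have e : {z | dist (pr (φ z)) (pr y) < min ε₁ 1}ᶜ = ⋃ y' ∈ {y' | y' ∈ Y ∧ y' ≠ y}, {z | dist (pr (φ z)) (pr y') < min ε₁ 1} := by
        ext z
        simp only [Set.mem_compl_iff, Set.mem_ofPred_eq, Set.mem_iUnion, exists_prop]
        constructor
        · intro h
          obtain ⟨y', hy', hz⟩ := hcov z
          refine ⟨y', ⟨hy', ?_⟩, hz⟩
          rintro rfl
          exact h hz
        · rintro ⟨y', ⟨hy', hne⟩, hz⟩ h
          have h1 := hsep y' hy' y hy hne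
          have h2 : dist (pr y') (pr y) ≤ dist (pr (φ z)) (pr y') + dist (pr (φ z)) (pr y) := dist_triangle_left _ _ _
          have h3 : min ε₁ 1 ≤ ε₁ := min_le_left _ _
          linarith
      rw [e]
      exact isOpen_biUnion fun y' _ => hopen y'
    have huniv := IsClopen.eq_univ ⟨hcl, hopen y⟩ ⟨0, hy0⟩
    intro z
    have hz : z ∈ {z | dist (pr (φ z)) (pr y) < min ε₁ 1} := by
      rw [huniv]
      exact Set.mem_univ z
    exact hz
  have hyn : 0 < ‖y‖ := norm_pos_iff.2 (hY0 y hy)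
  have hin : ∀ z, ‖y‖ ^ 2 * ‖φ z‖ ^ 2 / 2 ≤ ‖(inner ℂ y (φ z) : ℂ)‖ ^ 2 := by
    intro z
    rw [Pool.Agent.H62.EF.norm_inner_sq (hY0 y hy) (hφ0 z)]
    have h1 : dist (pr y) (pr (φ z)) < 1 := by
      rw [dist_comm]
      exact (hall z).trans_le (min_le_right _ _)
    have h2 : dist (pr y) (pr (φ z)) ^ 2 ≤ 1 := pow_le_one₀ dist_nonneg h1.le
    have h3 : 0 ≤ ‖y‖ ^ 2 * ‖φ z‖ ^ 2 := by positivity
    have h4 : ‖y‖ ^ 2 * ‖φ z‖ ^ 2 * (1 / 2) ≤ ‖y‖ ^ 2 * ‖φ z‖ ^ 2 * (1 - dist (pr y) (pr (φ z)) ^ 2 / 2) :=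
      mul_le_mul_of_nonneg_left (by linarith) h3
    linarith
  have hne : ∀ z, (inner ℂ y (φ z) : ℂ) ≠ 0 := by
    intro z h0
    have h1 := hin z
    rw [h0, norm_zero] at h1
    have h2 : 0 < ‖φ z‖ := norm_pos_iff.2 (hφ0 z)
    have h3 : 0 < ‖y‖ ^ 2 * ‖φ z‖ ^ 2 / 2 := by positivity
    norm_num at h1
    linarith
  -- the inner product is a polynomial without zeros
  obtain ⟨A, k, hg⟩ := hφ.pol
  obtain ⟨P, hP⟩ := Pool.Agent.SY.exists_poly_of_growth k (fun z => (inner ℂ y (φ z) : ℂ)) (‖y‖ * A)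
    ((innerSL ℂ y).differentiable.comp hφ.diff) (fun z => by
      refine (norm_inner_le_norm _ _).trans ?_
      rw [mul_assoc]
      exact mul_le_mul_of_nonneg_left (hg z) hyn.le)
  have hdeg : ¬ 0 < P.degree := by
    intro h
    obtain ⟨z, hz⟩ := Complex.exists_root h
    exact hne z ((hP z).trans hz)
  have hPc : P = Polynomial.C (P.coeff 0) := Polynomial.eq_C_of_degree_le_zero (not_lt.1 hdeg)
  have hbd : ∀ z, ‖φ z‖ ≤ 2 * ‖P.coeff 0‖ / ‖y‖ := by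
    intro z
    have h1 := hin z
    have h2 : (inner ℂ y (φ z) : ℂ) = P.coeff 0 := by
      have h3 : (inner ℂ y (φ z) : ℂ) = P.eval z := hP z
      rw [h3, hPc, Polynomial.eval_C, Polynomial.coeff_C_zero]
    rw [h2] at h1
    rw [le_div_iff₀ hyn]
    refine abs_le_of_sq_le_sq' ?_ (by positivity) |>.2
    nlinarith [sq_nonneg ‖P.coeff 0‖]
  obtain ⟨z, w, hzw⟩ := hφ.ne
  refine hzw (hφ.diff.apply_eq_apply_of_bounded ?_ z w)
  rw [isBounded_iff_subset_closedBall (0 : EN N)]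
  refine ⟨2 * ‖P.coeff 0‖ / ‖y‖, ?_⟩
  rintro x ⟨z, rfl⟩
  rw [mem_closedBall_zero_iff]
  exact hbd z

theorem line_end (hG : G.Ok) {Y : Finset (EN N)} (hY : G.Ends Y) {φ : ℂ → EN N} (hφ : G.Line φ) :
    (∃ P : Fin (N + 1) → Polynomial ℂ, ∀ z l, (φ z).ofLp l = (P l).eval z) ∧ Tendsto (fun w => ‖φ w‖) (cocompact ℂ) atTop ∧
      ∃ y ∈ Y, Tendsto (fun w => pr (φ w)) (cocompact ℂ) (𝓝 (pr y)) := by
  obtain ⟨P, hP⟩ := line_poly hφ
  have hφ0 : ∀ z, φ z ≠ 0 := fun z => ne0 hG (hφ.mem z)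
  -- the coordinate of largest degree
  obtain ⟨l₀, -, hl₀⟩ := Finset.exists_max_image (Finset.univ : Finset (Fin (N + 1))) (fun l => (P l).natDegree) Finset.univ_nonempty
  obtain ⟨k, hk⟩ : ∃ k : ℕ, k = (P l₀).natDegree := ⟨_, rfl⟩
  have hkl : ∀ l, (P l).natDegree ≤ k := fun l => hk ▸ hl₀ l (Finset.mem_univ l)
  have hk1 : 1 ≤ k := by
    by_contra hk0
    have hk0' : k = 0 := by omega
    obtain ⟨z, w, hzw⟩ := hφ.ne
    refine hzw ?_
    ext l
    have h1 : (P l).natDegree = 0 := Nat.le_zero.1 (hk0' ▸ hkl l)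
    rw [hP z l, hP w l, Polynomial.eq_C_of_natDegree_eq_zero h1, Polynomial.eval_C, Polynomial.eval_C]
  have hnorm : Tendsto (fun w => ‖φ w‖) (cocompact ℂ) atTop := by
    have h1 : Tendsto (fun w : ℂ => ‖(P l₀).eval w‖) (cocompact ℂ) atTop :=
      Polynomial.tendsto_norm_atTop (P l₀) (Polynomial.natDegree_pos_iff_degree_pos.1 (by omega)) (tendsto_norm_cocompact_atTop)
    refine tendsto_atTop_mono (fun w => ?_) h1
    rw [← hP w l₀]
    exact PiLp.norm_apply_le (φ w) l₀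
  -- the leading vector
  set v : ℂ → EN N := fun ζ => WithLp.toLp 2 fun l => (Polynomial.reflect k (P l)).eval ζ with hv
  have hvc : Continuous v := (PiLp.continuous_toLp 2 _).comp (continuous_pi fun l => (Polynomial.reflect k (P l)).continuous)
  have hv0 : v 0 ≠ 0 := by
    intro h
    have h1 : (v 0).ofLp l₀ = 0 := by
      rw [h]
      rfl
    have h2 : (v 0).ofLp l₀ = (P l₀).leadingCoeff := by
      show (Polynomial.reflect k (P l₀)).eval 0 = _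
      rw [← Polynomial.coeff_zero_eq_eval_zero, Polynomial.coeff_reflect, Polynomial.revAt_le (Nat.zero_le _), Nat.sub_zero, hk]
      rfl
    rw [h1] at h2
    have h3 : P l₀ = 0 := Polynomial.leadingCoeff_eq_zero.1 h2.symm
    rw [h3, Polynomial.natDegree_zero] at hk
    omega
  have hvw : ∀ w : ℂ, w ≠ 0 → pr (φ w) = pr (v w⁻¹) := by
    intro w hw
    have h1 : φ w = (w ^ k) • v w⁻¹ := by
      ext l
      rw [hP w l, PiLp.smul_apply, smul_eq_mul]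
      show (P l).eval w = w ^ k * (Polynomial.reflect k (P l)).eval w⁻¹
      have : Invertible w := invertibleOfNonzero hw
      have h2 := Polynomial.eval₂_reflect_mul_pow (RingHom.id ℂ) w k (P l) (hkl l)
      rw [invOf_eq_inv] at h2
      rw [Polynomial.eval, Polynomial.eval, ← h2, mul_comm]
    rw [h1, Pool.Agent.H62.EF.pr_smul _ (pow_ne_zero k hw)]
  have hlim : Tendsto (fun w => pr (φ w)) (cocompact ℂ) (𝓝 (pr (v 0))) := by
    have h1 : Tendsto (fun w : ℂ => w⁻¹) (cocompact ℂ) (𝓝 0) := by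
      rw [← Metric.cobounded_eq_cocompact]
      exact tendsto_inv₀_cobounded
    have h2 : Tendsto (fun w : ℂ => pr (v w⁻¹)) (cocompact ℂ) (𝓝 (pr (v 0))) :=
      Tendsto.comp (g := pr) (Pool.Agent.H62.EF.continuousAt_pr hv0) ((hvc.tendsto 0).comp h1)
    refine h2.congr' ?_
    have h3 : ∀ᶠ w : ℂ in cocompact ℂ, w ≠ 0 := by
      filter_upwards [(tendsto_norm_cocompact_atTop).eventually_gt_atTop 0] with w hw
      exact norm_pos_iff.1 hw
    filter_upwards [h3] with w hw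
    exact (hvw w hw).symm
  have hmem : pr (v 0) ∈ closure (pr '' (Y : Set (EN N))) := by
    rw [Metric.mem_closure_iff]
    intro ε hε
    obtain ⟨B, hB⟩ := hY.near (ε / 2) (by positivity)
    have h1 : ∀ᶠ w in cocompact ℂ, Real.exp B ≤ ‖φ w‖ := hnorm.eventually_ge_atTop _
    have h2 : ∀ᶠ w in cocompact ℂ, dist (pr (φ w)) (pr (v 0)) < ε / 2 := Metric.tendsto_nhds.1 hlim _ (by positivity)
    obtain ⟨w, hw1, hw2⟩ := (h1.and h2).exists
    rw [← Real.le_log_iff_exp_le (norm_pos_iff.2 (hφ0 w))] at hw1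
    obtain ⟨y, hy, hyd⟩ := hB φ hφ w hw1
    refine ⟨pr y, ⟨y, hy, rfl⟩, ?_⟩
    have h3 := dist_triangle_left (pr (v 0)) (pr y) (pr (φ w))
    linarith
  rw [(Y.finite_toSet.image pr).isClosed.closure_eq] at hmem
  obtain ⟨y, hy, hyv⟩ := hmem
  exact ⟨⟨P, hP⟩, hnorm, y, hy, hyv ▸ hlim⟩

end Pool.Agent.SR3
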