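import Pool.Agent.SDR.Liou
import Pool.Agent.SR3.OpenMap
import Pool.Agent.SR3.DDefs

/-!
# SR3 LiouA: the values of the ratio of the gradients

Where two functions of a blow-down are positive, the ratio of their gradients is in `[0, ∞)`: the set of the other values is open, relatively closed and stays
away from the roots of the form.
-/

set_option autoImplicit false

open Metric Topology Filter Complex InnerProductSpace

noncomputable section

namespace Pool.Agent.SR3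

open Pool.Agent.SDR (gc hp tot comp Blow BlowFam hp_smul hp_zero continuous_hp gc_sub gc_congr norm_gc_le analyticAt_gc)

theorem LiouA.gc_scale {u : ℂ → ℝ} {a w : ℂ} {r : ℝ} (hr : 0 < r) (hu : DifferentiableAt ℝ u (a + r * w)) :
    gc (fun w => u (a + r * w) / r) w = gc u (a + r * w) := by
  have h1 : HasFDerivAt (fun w : ℂ => a + (r : ℂ) * w) ((r : ℝ) • ContinuousLinearMap.id ℝ ℂ) w := by
    have h2 : HasFDerivAt (fun w : ℂ => a + r • w) ((r : ℝ) • ContinuousLinearMap.id ℝ ℂ) w :=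
      ((hasFDerivAt_id (𝕜 := ℝ) w).const_smul r).const_add a
    simpa only [Complex.real_smul] using h2
  have h3 : HasFDerivAt (fun w => u (a + r * w)) ((fderiv ℝ u (a + r * w)).comp ((r : ℝ) • ContinuousLinearMap.id ℝ ℂ)) w :=
    hu.hasFDerivAt.comp w h1
  have h4 : HasFDerivAt (fun w => u (a + r * w) / r) (r⁻¹ • ((fderiv ℝ u (a + r * w)).comp ((r : ℝ) • ContinuousLinearMap.id ℝ ℂ))) w := by
    have := h3.const_smul r⁻¹
    refine this.congr_of_eventuallyEq (Eventually.of_forall fun x => ?_)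
    show u (a + r * x) / r = r⁻¹ • u (a + r * x)
    rw [smul_eq_mul, div_eq_inv_mul]
  have h5 : ∀ v : ℂ, fderiv ℝ (fun w => u (a + r * w) / r) w v = fderiv ℝ u (a + r * w) v := by
    intro v
    rw [h4.fderiv]
    show r⁻¹ * fderiv ℝ u (a + r * w) (r • v) = _
    rw [map_smul, smul_eq_mul, ← mul_assoc, inv_mul_cancel₀ hr.ne', one_mul]
  unfold gc
  rw [h5, h5]

/-- convergence of the gradients -/
theorem LiouA.gc_lim {u : ℕ → ℂ → ℝ} {v : ℂ → ℝ} {w : ℂ} {r : ℝ} (hr : 0 < r) (hu : ∀ᶠ n in atTop, HarmonicOnNhd (u n) (ball w r))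
    (hv : HarmonicOnNhd v (ball w r)) (h : ∀ ε : ℝ, 0 < ε → ∀ᶠ n in atTop, ∀ z ∈ ball w r, |u n z - v z| ≤ ε) :
    Tendsto (fun n => gc (u n) w) atTop (𝓝 (gc v w)) := by
  rw [Metric.tendsto_nhds]
  intro ε hε
  have hε' : 0 < ε * r / 32 := by positivity
  filter_upwards [hu, h _ hε'] with n hn1 hn2
  have hw : w ∈ ball w r := mem_ball_self hr
  have h1 : HarmonicOnNhd (fun z => u n z - v z) (ball w r) := fun z hz => (hn1 z hz).sub (hv z hz)
  have h2 := norm_gc_le hr hε' h1 hn2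
  rw [gc_sub (SDR.HarmonicAt.differentiableAt' (hn1 w hw)) (SDR.HarmonicAt.differentiableAt' (hv w hw))] at h2
  rw [dist_eq_norm]
  refine lt_of_le_of_lt h2 ?_
  have : 16 * (ε * r / 32) / r = ε / 2 := by field_simp; norm_num
  rw [this]
  linarith

variable {ι : Type} [Fintype ι] {Cr : Type} {Q : Cr → ℕ → ℂ} {m : ℕ} {e₁ e₂ : Cr → ι} {c C : ℝ}

/-- the data at a point -/
structure LiouA.At (Q : Cr → ℕ → ℂ) (m : ℕ) (e₁ e₂ : Cr → ι) (ν : Cr) (U : ι → ℂ → ℝ) (z : ℂ) : Prop where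
  pos : 0 < tot U z
  zero : ∀ i, i ≠ e₁ ν → i ≠ e₂ ν → U i z = 0
  eq : ∀ᶠ w in 𝓝 z, ‖hp (Q ν) m (gc (U (e₁ ν)) w) (gc (U (e₂ ν)) w)‖ = 1
  pos₁ : 0 < U (e₁ ν) z
  pos₂ : 0 < U (e₂ ν) z
  ne : gc (U (e₁ ν)) z ≠ 0

theorem LiouA.At.nhds {U : ι → ℂ → ℝ} {z : ℂ} {ν : Cr} (hU : Blow Q m e₁ e₂ c C U) (h : At Q m e₁ e₂ ν U z) :
    ∀ᶠ w in 𝓝 z, At Q m e₁ e₂ ν U w := by
  have hz : z ∈ comp U z := hU.mem_comp h.pos
  have ha : AnalyticAt ℂ (gc (U (e₁ ν))) z := hU.analytic_gc hz _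
  filter_upwards [(hU.isOpen_comp z).mem_nhds hz, eventually_eventually_nhds.2 h.eq, ha.continuousAt.eventually_ne h.ne,
    (hU.cont (e₁ ν)).continuousAt.eventually (lt_mem_nhds h.pos₁), (hU.cont (e₂ ν)).continuousAt.eventually (lt_mem_nhds h.pos₂)] with w h1 h2 h3 h4 h5
  refine ⟨hU.pos_of_comp h1, ?_, h2, h4, h5, h3⟩
  intro i hi1 hi2
  rcases hU.zero_or_pos z i with h6 | h6
  · exact h6 w h1
  · exact absurd (h.zero i hi1 hi2) (h6 z hz).ne'

/-- the set of the values -/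
def LiouA.RR (Q : Cr → ℕ → ℂ) (m : ℕ) (e₁ e₂ : Cr → ι) (ν : Cr) (𝓤 : Set (ι → ℂ → ℝ)) : Set ℂ :=
  {x | x ∈ Cut ∧ ∃ U ∈ 𝓤, ∃ z, At Q m e₁ e₂ ν U z ∧ gc (U (e₂ ν)) z = x * gc (U (e₁ ν)) z}

theorem LiouA.isOpen_RR {𝓤 : Set (ι → ℂ → ℝ)} (h : BlowFam Q m e₁ e₂ c C 𝓤) (hm : 1 ≤ m) (ν : Cr) : IsOpen (RR Q m e₁ e₂ ν 𝓤) := by
  rw [isOpen_iff_mem_nhds]
  rintro x ⟨hx, U, hU, z, hz, hxe⟩
  have hB := h.blow U hU
  have hzc : z ∈ comp U z := hB.mem_comp hz.pos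
  have a1 : AnalyticAt ℂ (gc (U (e₁ ν))) z := hB.analytic_gc hzc _
  have a2 : AnalyticAt ℂ (gc (U (e₂ ν))) z := hB.analytic_gc hzc _
  have a3 : AnalyticAt ℂ (fun w => gc (U (e₂ ν)) w / gc (U (e₁ ν)) w) z := a2.div a1 hz.ne
  have hx' : gc (U (e₂ ν)) z / gc (U (e₁ ν)) z = x := by rw [hxe, mul_div_assoc, div_self hz.ne, mul_one]
  rcases a3.eventually_constant_or_nhds_le_map_nhds with hc | hc
  · exfalso
    have ht : ∀ᶠ w in 𝓝 z, gc (U (e₂ ν)) w = x * gc (U (e₁ ν)) w := by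
      filter_upwards [hc, a1.continuousAt.eventually_ne hz.ne] with w hw1 hw2
      rw [hx'] at hw1
      rw [← hw1, div_mul_cancel₀ _ hw2]
    obtain ⟨κ, b, s, -, hxs, hs, -⟩ := hB.half_of_ratio hm hz.pos hz.eq hz.pos₁ ht
    rw [mem_Cut, hxs, ofReal_re, ofReal_im] at hx
    rcases hx with hx | hx
    · linarith
    · exact hx rfl
  · rw [hx'] at hc
    apply hc
    rw [mem_map]
    have h1 : Tendsto (fun w => gc (U (e₂ ν)) w / gc (U (e₁ ν)) w) (𝓝 z) (𝓝 x) := by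
      rw [← hx']
      exact a3.continuousAt
    filter_upwards [hz.nhds hB, h1.eventually (Cut_open.mem_nhds hx)] with w hw1 hw2
    exact ⟨hw2, U, hU, w, hw1, (div_mul_cancel₀ _ hw1.ne).symm⟩

/-- normalisation: the value is attained at `0`, and the ball of radius `1` is free of zeros, with a zero on the boundary -/
theorem LiouA.normalise {𝓤 : Set (ι → ℂ → ℝ)} (h : BlowFam Q m e₁ e₂ c C 𝓤) {ν : Cr} {x : ℂ} (hx : x ∈ RR Q m e₁ e₂ ν 𝓤) :
    ∃ V ∈ 𝓤, (∀ w ∈ ball (0 : ℂ) 1, 0 < tot V w) ∧ (∃ z, ‖z‖ ≤ 1 ∧ tot V z = 0) ∧ (∀ i, i ≠ e₁ ν → i ≠ e₂ ν → V i 0 = 0) ∧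
      (∀ w ∈ ball (0 : ℂ) 1, ‖hp (Q ν) m (gc (V (e₁ ν)) w) (gc (V (e₂ ν)) w)‖ = 1) ∧ gc (V (e₂ ν)) 0 = x * gc (V (e₁ ν)) 0 := by
  obtain ⟨-, U, hU, z, hz, hxe⟩ := hx
  have hB := h.blow U hU
  set Z : Set ℂ := {z | tot U z = 0} with hZ
  have hZc : IsClosed Z := isClosed_eq hB.cont_tot continuous_const
  have hZn : Z.Nonempty := hB.zero
  obtain ⟨ζ, hζ, hd⟩ := hZc.exists_infDist_eq_dist hZn z
  set r : ℝ := infDist z Z with hr
  have hr0 : 0 < r := by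
    rw [← hZc.notMem_iff_infDist_pos hZn]
    intro h0
    have : tot U z = 0 := h0
    exact hz.pos.ne' this
  have hfree : ∀ w ∈ ball z r, 0 < tot U w := by
    intro w hw
    refine lt_of_le_of_ne (hB.tot_nonneg w) fun h0 => ?_
    have h1 : infDist z Z ≤ dist z w := infDist_le_dist_of_mem h0.symm
    rw [mem_ball, dist_comm] at hw
    linarith
  set V : ι → ℂ → ℝ := fun i w => U i (z + r * w) / r with hV
  have hVU : V ∈ 𝓤 := h.trans U hU z r hr0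
  have htot : ∀ w, tot V w = tot U (z + r * w) / r := by
    intro w
    unfold tot
    rw [Finset.sum_div]
  have hball : ∀ w ∈ ball (0 : ℂ) 1, z + r * w ∈ ball z r := by
    intro w hw
    rw [mem_ball, dist_eq_norm, add_sub_cancel_left, norm_mul, norm_real, Real.norm_of_nonneg hr0.le]
    rw [mem_ball, dist_zero_right] at hw
    nlinarith
  have hcomp : ball z r ⊆ comp U z :=
    IsPreconnected.subset_connectedComponentIn (convex_ball z r).isPreconnected (mem_ball_self hr0) hfree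
  have hgc : ∀ i, ∀ w ∈ ball (0 : ℂ) 1, gc (V i) w = gc (U i) (z + r * w) := by
    intro i w hw
    exact gc_scale hr0 (SDR.HarmonicAt.differentiableAt' (hB.harm _ (hfree _ (hball w hw)) i))
  have h0 : (0 : ℂ) ∈ ball (0 : ℂ) 1 := mem_ball_self one_pos
  refine ⟨V, hVU, ?_, ?_, ?_, ?_, ?_⟩
  · intro w hw
    rw [htot]
    exact div_pos (hfree _ (hball w hw)) hr0
  · refine ⟨(ζ - z) / r, ?_, ?_⟩
    · rw [norm_div, norm_real, Real.norm_of_nonneg hr0.le, ← dist_eq_norm, dist_comm, ← hd, div_self hr0.ne']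
    · rw [htot]
      have hr1 : (r : ℂ) ≠ 0 := by exact_mod_cast hr0.ne'
      have e : z + r * ((ζ - z) / r) = ζ := by field_simp; ring
      rw [e]
      have : tot U ζ = 0 := hζ
      rw [this, zero_div]
  · intro i h1 h2
    show U i (z + r * 0) / r = 0
    rw [mul_zero, add_zero, hz.zero i h1 h2, zero_div]
  · intro w hw
    rw [hgc _ w hw, hgc _ w hw]
    exact hB.norm_hp (hB.mem_comp hz.pos) hz.eq _ (hcomp (hball w hw))
  · rw [hgc _ 0 h0, hgc _ 0 h0, mul_zero, add_zero]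
    exact hxe

theorem LiouA.closed_RR {𝓤 : Set (ι → ℂ → ℝ)} (h : BlowFam Q m e₁ e₂ c C 𝓤) (hm : 1 ≤ m) (hc : 0 < c) (ν : Cr) :
    ∀ x ∈ closure (RR Q m e₁ e₂ ν 𝓤), x ∈ Cut → x ∈ RR Q m e₁ e₂ ν 𝓤 := by
  intro x hx hxC
  obtain ⟨y, hy, hyx⟩ := mem_closure_iff_seq_limit.1 hx
  choose V hV hVpos hVzero hVtyp hVeq hVr using fun n => normalise h (hy n)
  obtain ⟨φ, W, hφ, hW, hlim⟩ := h.cpt V hV hVzero
  have hB := h.blow W hW
  have hBn : ∀ n, Blow Q m e₁ e₂ c C (V n) := fun n => h.blow _ (hV n)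
  have hpt : ∀ i w, Tendsto (fun n => V (φ n) i w) atTop (𝓝 (W i w)) := fun i w =>
    ((tendstoLocallyUniformly_iff_forall_isCompact.1 (hlim i)) {w} isCompact_singleton).tendsto_at (Set.mem_singleton w)
  have hptt : ∀ w, Tendsto (fun n => tot (V (φ n)) w) atTop (𝓝 (tot W w)) := fun w => tendsto_finsetSum _ fun i _ => hpt i w
  -- the limit is positive on the ball
  have hWpos : ∀ w ∈ ball (0 : ℂ) 1, 0 < tot W w := by
    intro w hw
    have hw' : 0 < 1 - ‖w‖ := by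
      rw [mem_ball, dist_zero_right] at hw
      linarith
    have h1 : ∀ n, c * (1 - ‖w‖) ≤ tot (V (φ n)) w := by
      intro n
      apply (hBn _).low w _ hw'
      intro v hv
      apply hVpos
      rw [mem_ball, dist_zero_right]
      rw [mem_ball, dist_eq_norm] at hv
      have := norm_le_norm_add_norm_sub' v w
      linarith
    have h2 := ge_of_tendsto' (hptt w) h1
    have : 0 < c * (1 - ‖w‖) := by positivity
    linarith
  have hWh : ∀ i, HarmonicOnNhd (W i) (ball 0 1) := fun i w hw => hB.harm w (hWpos w hw) i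
  have hVh : ∀ n i, HarmonicOnNhd (V n i) (ball 0 1) := fun n i w hw => (hBn n).harm w (hVpos n w hw) i
  -- convergence of the gradients
  have hgc : ∀ i, ∀ w ∈ ball (0 : ℂ) 1, Tendsto (fun n => gc (V (φ n) i) w) atTop (𝓝 (gc (W i) w)) := by
    intro i w hw
    rw [mem_ball, dist_zero_right] at hw
    set r : ℝ := (1 - ‖w‖) / 2 with hr
    have hr0 : 0 < r := by rw [hr]; linarith
    have hsub : ball w r ⊆ ball (0 : ℂ) 1 := by
      intro v hv
      rw [mem_ball, dist_zero_right]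
      rw [mem_ball, dist_eq_norm] at hv
      have := norm_le_norm_add_norm_sub' v w
      rw [hr] at hv
      linarith
    apply gc_lim hr0 (Eventually.of_forall fun n v hv => hVh _ i v (hsub hv)) (fun v hv => hWh i v (hsub hv))
    intro ε hε
    have h1 : TendstoUniformlyOn (fun n => V (φ n) i) (W i) atTop (closedBall w r) :=
      (tendstoLocallyUniformly_iff_forall_isCompact.1 (hlim i)) _ (isCompact_closedBall w r)
    filter_upwards [Metric.tendstoUniformlyOn_iff.1 h1 ε hε] with n hn z hz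
    have := hn z (ball_subset_closedBall hz)
    rw [dist_comm, Real.dist_eq] at this
    exact this.le
  have h0 : (0 : ℂ) ∈ ball (0 : ℂ) 1 := mem_ball_self one_pos
  have heq : ∀ w ∈ ball (0 : ℂ) 1, ‖hp (Q ν) m (gc (W (e₁ ν)) w) (gc (W (e₂ ν)) w)‖ = 1 := by
    intro w hw
    have h1 : Tendsto (fun n => ‖hp (Q ν) m (gc (V (φ n) (e₁ ν)) w) (gc (V (φ n) (e₂ ν)) w)‖) atTop
        (𝓝 ‖hp (Q ν) m (gc (W (e₁ ν)) w) (gc (W (e₂ ν)) w)‖) := by
      have h2 := ((continuous_hp (Q ν) m).tendsto (gc (W (e₁ ν)) w, gc (W (e₂ ν)) w)).comp ((hgc (e₁ ν) w hw).prodMk_nhds (hgc (e₂ ν) w hw))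
      exact h2.norm
    refine tendsto_nhds_unique h1 ?_
    have h2 : (fun n => ‖hp (Q ν) m (gc (V (φ n) (e₁ ν)) w) (gc (V (φ n) (e₂ ν)) w)‖) = fun _ => 1 := funext fun n => hVeq (φ n) w hw
    rw [h2]
    exact tendsto_const_nhds
  have hratio : gc (W (e₂ ν)) 0 = x * gc (W (e₁ ν)) 0 := by
    have h1 : Tendsto (fun n => gc (V (φ n) (e₂ ν)) 0) atTop (𝓝 (x * gc (W (e₁ ν)) 0)) := by
      have h2 : (fun n => gc (V (φ n) (e₂ ν)) 0) = fun n => y (φ n) * gc (V (φ n) (e₁ ν)) 0 := funext fun n => hVr (φ n)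
      rw [h2]
      exact (hyx.comp hφ.tendsto_atTop).mul (hgc _ 0 h0)
    exact tendsto_nhds_unique (hgc _ 0 h0) h1
  have hne : gc (W (e₁ ν)) 0 ≠ 0 := by
    intro h1
    have h2 := heq 0 h0
    rw [hratio, h1, mul_zero, hp_zero _ hm, norm_zero] at h2
    exact zero_ne_one h2
  have hW0 : 0 < tot W 0 := hWpos 0 h0
  have hzc : (0 : ℂ) ∈ comp W 0 := hB.mem_comp hW0
  -- a function which vanishes on the component has gradient zero
  have hgz : ∀ i, (∀ z ∈ comp W 0, W i z = 0) → gc (W i) 0 = 0 := by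
    intro i hi
    have h1 : W i =ᶠ[𝓝 0] fun _ => (0 : ℝ) := by
      filter_upwards [(hB.isOpen_comp 0).mem_nhds hzc] with w hw
      exact hi w hw
    rw [gc_congr h1]
    unfold gc
    simp
  have hp1 : 0 < W (e₁ ν) 0 := by
    rcases hB.zero_or_pos 0 (e₁ ν) with h1 | h1
    · exact absurd (hgz _ h1) hne
    · exact h1 0 hzc
  have hp2 : 0 < W (e₂ ν) 0 := by
    rcases hB.zero_or_pos 0 (e₂ ν) with h1 | h1
    · exfalso
      rw [hgz _ h1] at hratio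
      have h2 : x = 0 := by
        rcases mul_eq_zero.1 hratio.symm with h3 | h3
        · exact h3
        · exact absurd h3 hne
      rw [mem_Cut, h2] at hxC
      simp at hxC
    · exact h1 0 hzc
  refine ⟨hxC, W, hW, 0, ⟨hW0, ?_, ?_, hp1, hp2, hne⟩, hratio⟩
  · intro i hi1 hi2
    refine tendsto_nhds_unique (hpt i 0) ?_
    have h2 : (fun n => V (φ n) i 0) = fun _ => 0 := funext fun n => hVtyp (φ n) i hi1 hi2
    rw [h2]
    exact tendsto_const_nhds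
  · filter_upwards [ball_mem_nhds (0 : ℂ) one_pos] with w hw
    exact heq w hw

theorem LiouA.RR_empty {𝓤 : Set (ι → ℂ → ℝ)} (h : BlowFam Q m e₁ e₂ c C 𝓤) (hm : 1 ≤ m) (hc : 0 < c) (ν : Cr) : RR Q m e₁ e₂ ν 𝓤 = ∅ := by
  set f : Polynomial ℂ := ∑ l ∈ Finset.range (m + 1), Polynomial.C (Q ν l) * Polynomial.X ^ l with hf
  have hfe : ∀ x, f.eval x = hp (Q ν) m 1 x := by
    intro x
    rw [hf, Polynomial.eval_finsetSum]
    unfold hp
    apply Finset.sum_congr rfl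
    intro l _
    simp
  refine eq_empty_of_open_closed (C := C) (C' := C) (f := f) (fun x hx => hx.1) (isOpen_RR h hm ν) (closed_RR h hm hc ν) hm ?_
  rintro x ⟨-, U, hU, z, hz, hxe⟩
  have hB := h.blow U hU
  refine ⟨‖gc (U (e₁ ν)) z‖, norm_nonneg _, hB.bd z hz.pos _, ?_, ?_⟩
  · rw [mul_comm, ← norm_mul, ← hxe]
    exact hB.bd z hz.pos _
  · have h1 := hz.eq.self_of_nhds
    rw [hxe] at h1
    have e : hp (Q ν) m (gc (U (e₁ ν)) z) (x * gc (U (e₁ ν)) z) = gc (U (e₁ ν)) z ^ m * hp (Q ν) m 1 x := by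
      rw [← hp_smul, mul_one, mul_comm x]
    rw [e, norm_mul, norm_pow, mul_comm] at h1
    rw [hfe]
    exact h1

/-- **The ratio of the gradients is in `[0, ∞)`.** -/
theorem ratio_notMem_Cut {𝓤 : Set (ι → ℂ → ℝ)} (h : BlowFam Q m e₁ e₂ c C 𝓤) (hm : 1 ≤ m) (hc : 0 < c) {U : ι → ℂ → ℝ} (hU : U ∈ 𝓤) {z : ℂ} {ν : Cr}
    (hz : 0 < tot U z) (h0 : ∀ i, i ≠ e₁ ν → i ≠ e₂ ν → U i z = 0)
    (hk : ∀ᶠ w in 𝓝 z, ‖hp (Q ν) m (gc (U (e₁ ν)) w) (gc (U (e₂ ν)) w)‖ = 1) (h1 : 0 < U (e₁ ν) z) (h2 : 0 < U (e₂ ν) z)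
    (hne : gc (U (e₁ ν)) z ≠ 0) : gc (U (e₂ ν)) z / gc (U (e₁ ν)) z ∉ Cut := by
  intro hcut
  have : gc (U (e₂ ν)) z / gc (U (e₁ ν)) z ∈ LiouA.RR Q m e₁ e₂ ν 𝓤 :=
    ⟨hcut, U, hU, z, ⟨hz, h0, hk, h1, h2, hne⟩, (div_mul_cancel₀ _ hne).symm⟩
  rw [LiouA.RR_empty h hm hc ν] at this
  exact this

end Pool.Agent.SR3
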