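import Pool.Agent.SDR.Liou
import Pool.Agent.SR3.OpenMap
import Pool.Agent.SR3.HalfPl
import Pool.Agent.SR3.DDefs

/-!
# SR3 LiouB: from real ratios to lines
-/

set_option autoImplicit false

open Metric Topology Filter MvPolynomial InnerProductSpace

noncomputable section

namespace Pool.Agent.SR3

open Pool.Agent.SDR (gc hp tot Blow BlowFam comp analyticAt_gc)

variable {ι : Type} [Fintype ι] {Cr : Type} {Q : Cr → ℕ → ℂ} {m : ℕ} {e₁ e₂ : Cr → ι} {c C : ℝ} {U : ι → ℂ → ℝ}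

/-- the polynomial with the variables exchanged -/
def rev (Q : Cr → ℕ → ℂ) (m : ℕ) (ν : Cr) (l : ℕ) : ℂ := Q ν (m - l)

theorem hp_rev (Q : Cr → ℕ → ℂ) (m : ℕ) (ν : Cr) (x y : ℂ) : hp (rev Q m ν) m y x = hp (Q ν) m x y := by
  unfold hp rev
  rw [← Finset.sum_range_reflect]
  apply Finset.sum_congr rfl
  intro l hl
  have hl' : l ≤ m := Nat.lt_succ_iff.1 (Finset.mem_range.1 hl)
  have e1 : m + 1 - 1 - l = m - l := by omega
  have e2 : m - (m - l) = l := by omega
  rw [e1, e2]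
  ring

theorem Blow.swap (h : Blow Q m e₁ e₂ c C U) : Blow (rev Q m) m e₂ e₁ c C U where
  cont := h.cont
  nonneg := h.nonneg
  zero := h.zero
  thin := h.thin
  low := h.low
  harm := h.harm
  bd := h.bd
  type := fun z hz => by
    obtain ⟨ν, h1, h2⟩ := h.type z hz
    refine ⟨ν, fun i h3 h4 => h1 i h4 h3, ?_⟩
    filter_upwards [h2] with w hw
    rw [hp_rev]
    exact hw

/-- every component is a half plane, on which the functions are multiples of one affine function -/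
theorem comp_half (h : Blow Q m e₁ e₂ c C U) (hm : 1 ≤ m)
    (hr : ∀ (z : ℂ) (ν : Cr), 0 < tot U z → (∀ i, i ≠ e₁ ν → i ≠ e₂ ν → U i z = 0) →
      (∀ᶠ w in 𝓝 z, ‖hp (Q ν) m (gc (U (e₁ ν)) w) (gc (U (e₂ ν)) w)‖ = 1) → 0 < U (e₁ ν) z → 0 < U (e₂ ν) z →
      gc (U (e₁ ν)) z ≠ 0 → gc (U (e₂ ν)) z / gc (U (e₁ ν)) z ∉ Cut) {z₀ : ℂ} (hz₀ : 0 < tot U z₀) :
    ∃ (κ : ℂ) (b : ℝ) (β : ι → ℝ), κ ≠ 0 ∧ comp U z₀ = HP κ b ∧ (∀ i, 0 ≤ β i) ∧ ∀ i, ∀ z ∈ comp U z₀, U i z = β i * ((κ * z).re + b) := by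
  classical
  obtain ⟨ν, h1, h2⟩ := h.type z₀ hz₀
  have hmem : z₀ ∈ comp U z₀ := h.mem_comp hz₀
  -- the others vanish on the component
  have h3 : ∀ i, i ≠ e₁ ν → i ≠ e₂ ν → ∀ z ∈ comp U z₀, U i z = 0 := by
    intro i hi1 hi2
    rcases h.zero_or_pos z₀ i with h4 | h4
    · exact h4
    · have := h4 z₀ hmem
      rw [h1 i hi1 hi2] at this
      exact absurd this (lt_irrefl _)
  -- a function which vanishes on the component has gradient zero
  have hg0 : ∀ i, (∀ z ∈ comp U z₀, U i z = 0) → ∀ z ∈ comp U z₀, gc (U i) z = 0 := by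
    intro i hi z hz
    have h5 : U i =ᶠ[𝓝 z] fun _ => (0 : ℝ) := by
      filter_upwards [(h.isOpen_comp z₀).eventually_mem hz] with w hw
      exact hi w hw
    rw [Pool.Agent.SDR.gc_congr h5]
    unfold gc
    simp
  -- conclusion from `half_of_ratio`
  have fin : ∀ (i j : ι) (κ : ℂ) (b s : ℝ), κ ≠ 0 → 0 ≤ s → comp U z₀ = {z | 0 < (κ * z).re + b} → (∀ k, k ≠ i → k ≠ j → ∀ z ∈ comp U z₀, U k z = 0) →
      (∀ z ∈ comp U z₀, U i z = (κ * z).re + b) → (∀ z ∈ comp U z₀, U j z = s * ((κ * z).re + b)) →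
      ∃ (κ : ℂ) (b : ℝ) (β : ι → ℝ), κ ≠ 0 ∧ comp U z₀ = HP κ b ∧ (∀ i, 0 ≤ β i) ∧ ∀ i, ∀ z ∈ comp U z₀, U i z = β i * ((κ * z).re + b) := by
    intro i j κ b s hκ hs hcomp hk hi hj
    refine ⟨κ, b, fun k => if k = i then 1 else if k = j then s else 0, hκ, hcomp, fun k => ?_, fun k z hz => ?_⟩
    · show 0 ≤ (if k = i then (1 : ℝ) else if k = j then s else 0)
      split_ifs
      · exact zero_le_one
      · exact hs
      · exact le_rfl
    · by_cases hki : k = i
      · subst hki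
        simp [hi z hz]
      · by_cases hkj : k = j
        · subst hkj
          simp [hki, hj z hz]
        · simp [hki, hkj, hk k hki hkj z hz]
  rcases h.zero_or_pos z₀ (e₁ ν) with hz1 | hp1
  · -- `U (e₁ ν) = 0`
    have hp2 : 0 < U (e₂ ν) z₀ := by
      rcases h.zero_or_pos z₀ (e₂ ν) with hz2 | hp2
      · exfalso
        have : tot U z₀ = 0 := by
          unfold tot
          apply Finset.sum_eq_zero
          intro i _
          by_cases hi1 : i = e₁ ν
          · rw [hi1]; exact hz1 z₀ hmem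
          · by_cases hi2 : i = e₂ ν
            · rw [hi2]; exact hz2 z₀ hmem
            · exact h1 i hi1 hi2
        linarith
      · exact hp2 z₀ hmem
    have h6 : ∀ᶠ w in 𝓝 z₀, ‖hp (rev Q m ν) m (gc (U (e₂ ν)) w) (gc (U (e₁ ν)) w)‖ = 1 := by
      filter_upwards [h2] with w hw
      rw [hp_rev]
      exact hw
    have h7 : ∀ᶠ w in 𝓝 z₀, gc (U (e₁ ν)) w = 0 * gc (U (e₂ ν)) w := by
      filter_upwards [(h.isOpen_comp z₀).eventually_mem hmem] with w hw
      rw [zero_mul]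
      exact hg0 _ hz1 w hw
    obtain ⟨κ, b, s, hκ, -, hs, hcomp, hU2, hU1⟩ := (Blow.swap h).half_of_ratio hm hz₀ h6 hp2 h7
    exact fin (e₂ ν) (e₁ ν) κ b s hκ hs hcomp (fun k hk1 hk2 => h3 k hk2 hk1) hU2 hU1
  · have h1' : 0 < U (e₁ ν) z₀ := hp1 z₀ hmem
    have key : ∃ t : ℂ, ∀ᶠ w in 𝓝 z₀, gc (U (e₂ ν)) w = t * gc (U (e₁ ν)) w := by
      rcases h.zero_or_pos z₀ (e₂ ν) with hz2 | hp2
      · refine ⟨0, ?_⟩
        filter_upwards [(h.isOpen_comp z₀).eventually_mem hmem] with w hw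
        rw [zero_mul]
        exact hg0 _ hz2 w hw
      · -- the gradient of `U (e₁ ν)` is not zero everywhere
        have hex : ∃ z₁ ∈ comp U z₀, gc (U (e₁ ν)) z₁ ≠ 0 := by
          by_contra hcon
          push Not at hcon
          obtain ⟨z₂, hz₂, hz₂'⟩ := h.exists_boundary hz₀
          have hH : HarmonicOnNhd (U (e₁ ν)) (comp U z₀) := fun z hz => h.harm z (h.pos_of_comp hz) _
          have ha := Pool.Agent.SDR.affine_of_gc (h.isOpen_comp z₀) (Blow.pre_comp U z₀) hH hcon hmem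
          have hcl : IsClosed {z | U (e₁ ν) z = U (e₁ ν) z₀} := isClosed_eq (h.cont _) continuous_const
          have h8 : U (e₁ ν) z₂ = U (e₁ ν) z₀ := by
            refine hcl.closure_subset_iff.2 (fun w hw => ?_) hz₂
            show U (e₁ ν) w = U (e₁ ν) z₀
            rw [ha w hw, zero_mul, Complex.zero_re, add_zero]
          rw [h.eq_zero (h.zero_of_boundary hz₂ hz₂')] at h8
          linarith
        obtain ⟨z₁, hz₁, hne⟩ := hex
        have hn := h.norm_hp hmem h2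
        obtain ⟨t, -, ht⟩ := exists_ratio (h.isOpen_comp z₀) (Blow.pre_comp U z₀) (g₁ := gc (U (e₁ ν))) (g₂ := gc (U (e₂ ν)))
          (fun z hz => (h.analytic_gc hz _).differentiableAt.differentiableWithinAt)
          (fun z hz => (h.analytic_gc hz _).differentiableAt.differentiableWithinAt) hz₁ hne (by
            intro z hz hz'
            refine hr z ν (h.pos_of_comp hz) (fun i hi1 hi2 => h3 i hi1 hi2 z hz) ?_ (hp1 z hz) (hp2 z hz) hz'
            filter_upwards [(h.isOpen_comp z₀).eventually_mem hz] with w hw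
            exact hn w hw)
        refine ⟨t, ?_⟩
        filter_upwards [(h.isOpen_comp z₀).eventually_mem hmem] with w hw
        exact ht w hw
    obtain ⟨t, ht⟩ := key
    obtain ⟨κ, b, s, hκ, -, hs, hcomp, hU1, hU2⟩ := h.half_of_ratio hm hz₀ h2 h1' ht
    exact fin (e₁ ν) (e₂ ν) κ b s hκ hs hcomp h3 hU1 hU2

/-- Two half planes which are equal. -/
theorem HP_eq {κ u : ℂ} {b b' : ℝ} (hκ : κ ≠ 0) (hu : u ≠ 0) (h : HP κ b = HP u b') : ∃ t : ℝ, 0 < t ∧ ∀ z, (κ * z).re + b = t * ((u * z).re + b') := by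
  have hneg : ∀ (a : ℂ) (d : ℝ) (w : ℂ), w ∈ HP (-a) (-d) → w ∉ HP a d := by
    intro a d w hw hw'
    simp only [HP, Set.mem_ofPred_eq, neg_mul, Complex.neg_re] at hw hw'
    linarith
  obtain ⟨t, ht, h1, h2⟩ := parallel (a := -u) (b := -b') (c := κ) (d := b) (neg_ne_zero.2 hu) hκ (fun w hw hw' => by
    rw [h] at hw
    exact hneg u b' w hw' hw)
  obtain ⟨t', ht', h3, h4⟩ := parallel (a := -κ) (b := -b) (c := u) (d := b') (neg_ne_zero.2 hκ) hu (fun w hw hw' => by
    rw [← h] at hw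
    exact hneg κ b w hw' hw)
  have e1 : κ = (t : ℂ) * u := by rw [h1, Complex.real_smul]; ring
  have e2 : u = (t' : ℂ) * κ := by rw [h3, Complex.real_smul]; ring
  have e3 : t' * t = 1 := by
    have h5 : (t : ℂ) * (t' : ℂ) * κ = 1 * κ := by
      rw [mul_assoc, ← e2, ← e1, one_mul]
    have h6 := mul_right_cancel₀ hκ h5
    have h7 : ((t * t' : ℝ) : ℂ) = ((1 : ℝ) : ℂ) := by push_cast; exact h6
    have h8 : t * t' = 1 := by exact_mod_cast h7
    linarith
  refine ⟨t, ht, fun z => ?_⟩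
  have e4 : b = t * b' := by
    have h5 : b ≤ t * b' := by linarith
    have h6 : t * b' ≤ t * (t' * b) := mul_le_mul_of_nonneg_left (by linarith) ht.le
    have h7 : t * (t' * b) = b := by rw [← mul_assoc, mul_comm t, e3, one_mul]
    linarith
  rw [e4, e1, mul_assoc, Complex.re_ofReal_mul]
  ring

/-- **From real ratios to a line.** -/
theorem blow_lin_of_ratio (h : Blow Q m e₁ e₂ c C U) (hm : 1 ≤ m)
    (hr : ∀ (z : ℂ) (ν : Cr), 0 < tot U z → (∀ i, i ≠ e₁ ν → i ≠ e₂ ν → U i z = 0) →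
      (∀ᶠ w in 𝓝 z, ‖hp (Q ν) m (gc (U (e₁ ν)) w) (gc (U (e₂ ν)) w)‖ = 1) → 0 < U (e₁ ν) z → 0 < U (e₂ ν) z →
      gc (U (e₁ ν)) z ≠ 0 → gc (U (e₂ ν)) z / gc (U (e₁ ν)) z ∉ Cut) :
    ∃ (u : ℂ) (b : ℝ) (β γ : ι → ℝ), Lin u b β γ U := by
  have hcomp := fun z hz => comp_half h hm hr (z₀ := z) hz
  obtain ⟨u, b, hu1, hu⟩ := line_of_half_planes h.cont_tot h.tot_nonneg h.zero (by
      intro z r hr
      by_contra hcon
      push Not at hcon
      have h1 : z ∈ interior {z | tot U z = 0} := by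
        rw [mem_interior]
        refine ⟨ball z r, fun w hw => ?_, isOpen_ball, mem_ball_self hr⟩
        exact le_antisymm (hcon w hw) (h.tot_nonneg w)
      rw [h.thin] at h1
      exact h1) (by
      intro z hz
      obtain ⟨κ, b, β, hκ, hc, -⟩ := hcomp z hz
      exact ⟨κ, b, hκ, hc⟩)
  have hu0 : u ≠ 0 := by
    intro h0
    rw [h0, norm_zero] at hu1
    exact zero_ne_one hu1
  -- one side
  have side : ∀ (v : ℂ) (d : ℝ), v ≠ 0 → (∀ z, tot U z = 0 ↔ (v * z).re + d = 0) → ∃ β : ι → ℝ, (∀ i, 0 ≤ β i) ∧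
      ∀ i z, 0 ≤ (v * z).re + d → U i z = β i * ((v * z).re + d) := by
    intro v d hv hvd
    -- a point of the side
    set p : ℂ := ((-d + 1 : ℝ) : ℂ) / v with hp
    have hp1 : (v * p).re + d = 1 := by rw [hp, mul_div_cancel₀ _ hv, Complex.ofReal_re]; ring
    have hpm : p ∈ HP v d := by simp only [HP, Set.mem_ofPred_eq]; rw [hp1]; exact one_pos
    have hpos : ∀ z, (v * z).re + d ≠ 0 → 0 < tot U z := fun z hz => lt_of_le_of_ne (h.tot_nonneg z) fun h0 => hz ((hvd z).1 h0.symm)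
    have hpp : 0 < tot U p := hpos p (by rw [hp1]; exact one_ne_zero)
    obtain ⟨κ, b', β, hκ, hc, hβ, hUβ⟩ := hcomp p hpp
    have heq : HP κ b' = HP v d := by
      rw [← hc]
      apply Set.Subset.antisymm
      · refine IsPreconnected.subset_left_of_subset_union (v := HP (-v) (-d)) (HP_open v d) (HP_open _ _) ?_ ?_ ⟨p, h.mem_comp hpp, hpm⟩ (Blow.pre_comp U p)
        · rw [Set.disjoint_left]
          intro w hw hw'
          simp only [HP, Set.mem_ofPred_eq, neg_mul, Complex.neg_re] at hw hw'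
          linarith
        · intro w hw
          have h1 : (v * w).re + d ≠ 0 := fun h0 => by
            have := h.pos_of_comp hw
            rw [(hvd w).2 h0] at this
            exact lt_irrefl _ this
          rcases lt_or_gt_of_ne h1 with h2 | h2
          · right
            simp only [HP, Set.mem_ofPred_eq, neg_mul, Complex.neg_re]
            linarith
          · exact Or.inl h2
      · refine IsPreconnected.subset_connectedComponentIn (HP_convex v d).isPreconnected hpm fun w hw => ?_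
        have hw' : 0 < (v * w).re + d := hw
        exact hpos w hw'.ne'
    obtain ⟨t, ht, hk⟩ := HP_eq hκ hv heq
    refine ⟨fun i => β i * t, fun i => mul_nonneg (hβ i) ht.le, fun i z hz => ?_⟩
    rcases hz.lt_or_eq with h2 | h2
    · have h3 : z ∈ comp U p := by rw [hc, heq]; exact h2
      rw [hUβ i z h3, hk z]
      ring
    · rw [← h2, mul_zero]
      exact h.eq_zero ((hvd z).2 h2.symm) i
  obtain ⟨β, hβ, hUβ⟩ := side u b hu0 hu
  obtain ⟨γ, hγ, hUγ⟩ := side (-u) (-b) (neg_ne_zero.2 hu0) (by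
    intro z
    rw [hu z, neg_mul, Complex.neg_re]
    constructor
    · intro h0; linarith
    · intro h0; linarith)
  refine ⟨(starRingEnd ℂ) u, -b, β, γ, ?_, hβ, hγ, ?_, ?_⟩
  · rw [RCLike.norm_conj]; exact hu1
  · intro i z hz
    replace hz : -b ≤ ((starRingEnd ℂ) ((starRingEnd ℂ) u) * z).re := hz
    show U i z = β i * (((starRingEnd ℂ) ((starRingEnd ℂ) u) * z).re - -b)
    rw [Complex.conj_conj] at hz ⊢
    rw [hUβ i z (by linarith)]
    ring
  · intro i z hz
    replace hz : ((starRingEnd ℂ) ((starRingEnd ℂ) u) * z).re ≤ -b := hz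
    show U i z = γ i * (-b - ((starRingEnd ℂ) ((starRingEnd ℂ) u) * z).re)
    rw [Complex.conj_conj] at hz ⊢
    have h1 : 0 ≤ (-u * z).re + -b := by rw [neg_mul, Complex.neg_re]; linarith
    rw [hUγ i z h1, neg_mul, Complex.neg_re]
    ring

end Pool.Agent.SR3
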