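import Pool.Agent.SR3.LnDefs

/-!
# SR3 LnA: the image of a polynomial curve is closed

The map `φ : MvPolynomial ι ℂ → ℂ[X]`, `X l ↦ F l`, is integral (`X` is a zero of `F l (Y) - X l`, monic up to a unit, for `F l` not constant); let `q` be a zero of the kernel: the maximal ideal of
`q` contains the kernel, lying over gives a maximal ideal of `ℂ[X]` over it, which has a zero `w`.
-/

set_option autoImplicit false

open MvPolynomial

noncomputable section

namespace Pool.Agent.SR3

private theorem eval_aeval {n : ℕ} (F : Fin n → Polynomial ℂ) (g : MvPolynomial (Fin n) ℂ) (z : ℂ) :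
    (aeval F g : Polynomial ℂ).eval z = eval (pev F z) g := by
  induction g using MvPolynomial.induction_on with
  | C a =>
    rw [algHom_C, eval_C]
    exact Polynomial.eval_C
  | add p q hp hq => rw [map_add, map_add, Polynomial.eval_add, hp, hq]
  | mul_X p i hp =>
    rw [map_mul, map_mul, Polynomial.eval_mul, hp, aeval_X, eval_X]
    rfl

private theorem integral_of {n : ℕ} (F : Fin n → Polynomial ℂ) (hF : ∃ l, 1 ≤ (F l).natDegree) :
    (aeval F : MvPolynomial (Fin n) ℂ →ₐ[ℂ] Polynomial ℂ).toRingHom.IsIntegral := by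
  obtain ⟨l, hl⟩ := hF
  set φ : MvPolynomial (Fin n) ℂ →+* Polynomial ℂ := (aeval F : MvPolynomial (Fin n) ℂ →ₐ[ℂ] Polynomial ℂ).toRingHom with hφ
  have hφC : ∀ a : ℂ, φ (C a) = Polynomial.C a := fun a => (algHom_C (aeval F) a)
  have hφX : φ (X l) = F l := aeval_X F l
  have hF0 : F l ≠ 0 := by
    intro h
    rw [h, Polynomial.natDegree_zero] at hl
    omega
  have hlc : (F l).leadingCoeff ≠ 0 := Polynomial.leadingCoeff_ne_zero.mpr hF0
  -- `X` is integral
  have hX : φ.IsIntegralElem Polynomial.X := by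
    set G : Polynomial ℂ := Polynomial.C ((F l).leadingCoeff)⁻¹ * F l with hG
    have hGm : G.Monic := by
      rw [Polynomial.Monic, hG, Polynomial.leadingCoeff_mul, Polynomial.leadingCoeff_C, inv_mul_cancel₀ hlc]
    have hGd : 1 ≤ G.natDegree := by
      rw [hG, Polynomial.natDegree_C_mul (inv_ne_zero hlc)]
      exact hl
    refine ⟨G.map C - Polynomial.C (C ((F l).leadingCoeff)⁻¹ * X l), ?_, ?_⟩
    · refine (hGm.map C).sub_of_left ?_
      refine lt_of_le_of_lt Polynomial.degree_C_le ?_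
      rw [Polynomial.degree_eq_natDegree (hGm.map C).ne_zero, hGm.natDegree_map C]
      exact_mod_cast hGd
    · rw [Polynomial.eval₂_sub, Polynomial.eval₂_C, Polynomial.eval₂_map, map_mul, hφC, hφX]
      have h1 : (φ.comp C : ℂ →+* Polynomial ℂ) = Polynomial.C := RingHom.ext hφC
      rw [h1, Polynomial.eval₂_C_X, hG, sub_self]
  intro f
  let _ : Algebra (MvPolynomial (Fin n) ℂ) (Polynomial ℂ) := φ.toAlgebra
  have hXi : (Polynomial.X : Polynomial ℂ) ∈ integralClosure (MvPolynomial (Fin n) ℂ) (Polynomial ℂ) := hX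
  have hmem : f ∈ integralClosure (MvPolynomial (Fin n) ℂ) (Polynomial ℂ) := by
    induction f using Polynomial.induction_on' with
    | add p q hp hq => exact add_mem hp hq
    | monomial m a =>
      rw [← Polynomial.C_mul_X_pow_eq_monomial, ← hφC a]
      exact mul_mem (Subalgebra.algebraMap_mem _ (C a)) (pow_mem hXi m)
  exact hmem

theorem line_image {n : ℕ} {F : Fin n → Polynomial ℂ} (hF : ∃ l, 1 ≤ (F l).natDegree) {q : Fin n → ℂ}
    (hq : ∀ g : MvPolynomial (Fin n) ℂ, (∀ z, eval (pev F z) g = 0) → eval q g = 0) : ∃ w, q = pev F w := by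
  set φ : MvPolynomial (Fin n) ℂ →+* Polynomial ℂ := (aeval F : MvPolynomial (Fin n) ℂ →ₐ[ℂ] Polynomial ℂ).toRingHom with hφ
  let _ : Algebra (MvPolynomial (Fin n) ℂ) (Polynomial ℂ) := φ.toAlgebra
  have : Algebra.IsIntegral (MvPolynomial (Fin n) ℂ) (Polynomial ℂ) := ⟨integral_of F hF⟩
  have hsurj : Function.Surjective (eval q : MvPolynomial (Fin n) ℂ →+* ℂ) := fun a => ⟨C a, eval_C a⟩
  have hmax : (RingHom.ker (eval q : MvPolynomial (Fin n) ℂ →+* ℂ)).IsMaximal := RingHom.ker_isMaximal_of_surjective _ hsurj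
  have hker : RingHom.ker (algebraMap (MvPolynomial (Fin n) ℂ) (Polynomial ℂ)) ≤ RingHom.ker (eval q : MvPolynomial (Fin n) ℂ →+* ℂ) := by
    intro g hg
    rw [RingHom.mem_ker] at hg ⊢
    have hg' : (aeval F g : Polynomial ℂ) = 0 := hg
    refine hq g fun z => ?_
    rw [← eval_aeval, hg', Polynomial.eval_zero]
  obtain ⟨Q, hQ, hQc⟩ := Ideal.exists_ideal_over_maximal_of_isIntegral (RingHom.ker (eval q : MvPolynomial (Fin n) ℂ →+* ℂ)) hker
  -- a common zero of `Q`
  obtain ⟨w, hw⟩ : ∃ w : ℂ, ∀ f ∈ Q, f.eval w = 0 := by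
    obtain ⟨g, hg⟩ : ∃ g, Q = Ideal.span {g} := ⟨_, (Submodule.IsPrincipal.span_singleton_generator Q).symm⟩
    have hgd : g.degree ≠ 0 := by
      intro h
      apply hQ.ne_top
      rw [hg, Ideal.span_singleton_eq_top, Polynomial.isUnit_iff_degree_eq_zero]
      exact h
    obtain ⟨w, hw⟩ := IsAlgClosed.exists_root g hgd
    refine ⟨w, fun f hf => ?_⟩
    rw [hg, Ideal.mem_span_singleton] at hf
    obtain ⟨r, rfl⟩ := hf
    rw [Polynomial.eval_mul, hw, zero_mul]
  refine ⟨w, ?_⟩
  funext l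
  have h1 : (X l - C (q l) : MvPolynomial (Fin n) ℂ) ∈ Q.comap (algebraMap (MvPolynomial (Fin n) ℂ) (Polynomial ℂ)) := by
    rw [hQc, RingHom.mem_ker, map_sub, eval_X, eval_C, sub_self]
  have h2 := hw _ (Ideal.mem_comap.mp h1)
  have h3 : (aeval F (X l - C (q l)) : Polynomial ℂ).eval w = 0 := h2
  rw [eval_aeval, map_sub, eval_X, eval_C, sub_eq_zero] at h3
  exact h3.symm

end Pool.Agent.SR3
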