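import Pool.Agent.SR3.LnA

/-!
# SR3 LnB: two lines with the same forms

`pev F' z` lies on the image of some `ζ F`, `ζ` an `h`-th root of `1`: otherwise there is a polynomial which vanishes on all `ζ F` and not at `pev F' z`; its components of degree `a` modulo `h`
vanish on `F`, and become forms if they are multiplied by powers of `H`.  One `ζ` is enough for all `z`, since the other sets of parameters are finite.
-/

set_option autoImplicit false

open Topology Filter Metric MvPolynomial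

noncomputable section

namespace Pool.Agent.SR3

variable {N : ℕ} {P : Ideal (MvPolynomial (Fin (N + 1)) ℂ)} {H : MvPolynomial (Fin (N + 1)) ℂ} {h : ℕ}

private theorem LnB_eval {n : ℕ} (F : Fin n → Polynomial ℂ) (g : MvPolynomial (Fin n) ℂ) (z : ℂ) : (aeval F g : Polynomial ℂ).eval z = eval (pev F z) g := by
  induction g using MvPolynomial.induction_on with
  | C a =>
    rw [aeval_C, eval_C, Polynomial.algebraMap_eq, Polynomial.eval_C]
  | add p q hp hq =>
    rw [map_add, map_add, Polynomial.eval_add, hp, hq]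
  | mul_X p i hp =>
    rw [map_mul, map_mul, Polynomial.eval_mul, hp, aeval_X, eval_X]
    rfl

/-- the multiple of a curve -/
private def LnB_sm (ζ : ℂ) {n : ℕ} (F : Fin n → Polynomial ℂ) : Fin n → Polynomial ℂ := fun l => Polynomial.C ζ * F l

private theorem LnB_pev (ζ : ℂ) {n : ℕ} (F : Fin n → Polynomial ℂ) (z : ℂ) : pev (LnB_sm ζ F) z = ζ • pev F z := by
  funext l
  show (Polynomial.C ζ * F l).eval z = ζ * (F l).eval z
  rw [Polynomial.eval_mul, Polynomial.eval_C]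

private theorem LnB_deg {ζ : ℂ} (hζ : ζ ≠ 0) {n : ℕ} {F : Fin n → Polynomial ℂ} (hF : ∃ l, 1 ≤ (F l).natDegree) : ∃ l, 1 ≤ (LnB_sm ζ F l).natDegree := by
  obtain ⟨l, hl⟩ := hF
  refine ⟨l, ?_⟩
  show 1 ≤ (Polynomial.C ζ * F l).natDegree
  rwa [Polynomial.natDegree_C_mul hζ]

/-- a point which is not on the image is separated by a polynomial -/
private theorem LnB_sep {ζ : ℂ} (hζ : ζ ≠ 0) {n : ℕ} {F : Fin n → Polynomial ℂ} (hF : ∃ l, 1 ≤ (F l).natDegree) {q : Fin n → ℂ} (hq : ∀ w, q ≠ ζ • pev F w) :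
    ∃ g : MvPolynomial (Fin n) ℂ, (∀ z, eval (ζ • pev F z) g = 0) ∧ eval q g ≠ 0 := by
  by_contra hcon
  push Not at hcon
  obtain ⟨w, hw⟩ := line_image (LnB_deg hζ hF) (q := q) fun g hg => hcon g fun z => by
    rw [← LnB_pev]
    exact hg z
  exact hq w (by rw [hw, LnB_pev])

private theorem LnB_eval_smul {n : ℕ} {p : MvPolynomial (Fin n) ℂ} {d : ℕ} (hp : p.IsHomogeneous d) (ζ : ℂ) (x : Fin n → ℂ) : eval (ζ • x) p = ζ ^ d * eval x p := by
  rw [eval_eq, eval_eq, Finset.mul_sum]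
  refine Finset.sum_congr rfl fun m hm => ?_
  have hdeg : (∑ i ∈ m.support, m i) = d := by
    have := hp (mem_support_iff.1 hm)
    rw [Finsupp.weight_apply] at this
    simpa [Finsupp.sum] using this
  have h3 : (∏ i ∈ m.support, (ζ • x) i ^ m i) = ζ ^ d * ∏ i ∈ m.support, x i ^ m i := by
    rw [← hdeg, ← Finset.prod_pow_eq_pow_sum, ← Finset.prod_mul_distrib]
    refine Finset.prod_congr rfl fun i _ => ?_
    rw [Pi.smul_apply, smul_eq_mul, mul_pow]
  rw [h3]
  ring

/-- **Separation by a form.** -/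
private theorem LnB_form (hH : H.IsHomogeneous h) (h1 : 1 ≤ h) {F : Fin (N + 1) → Polynomial ℂ} (hF : PLine P H F) {q : Fin (N + 1) → ℂ} (hqH : eval q H = 1)
    (hq : ∀ ζ : ℂ, ζ ^ h = 1 → ∀ w, q ≠ ζ • pev F w) :
    ∃ (n : ℕ) (g : MvPolynomial (Fin (N + 1)) ℂ), g.IsHomogeneous n ∧ (∀ z, eval (pev F z) g = 0) ∧ eval q g ≠ 0 := by
  classical
  have h0 : 0 < h := h1
  have hmem : ∀ ζ : ℂ, ζ ∈ Polynomial.nthRootsFinset h (1 : ℂ) ↔ ζ ^ h = 1 := fun ζ => Polynomial.mem_nthRootsFinset h0 (1 : ℂ)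
  have hne : ∀ ζ : ℂ, ζ ^ h = 1 → ζ ≠ 0 := by
    rintro ζ hζ rfl
    rw [zero_pow h0.ne'] at hζ
    exact zero_ne_one hζ
  have hsep : ∀ ζ : ℂ, ζ ^ h = 1 → ∃ g : MvPolynomial (Fin (N + 1)) ℂ, (∀ z, eval (ζ • pev F z) g = 0) ∧ eval q g ≠ 0 := fun ζ hζ =>
    LnB_sep (hne ζ hζ) hF.ne (hq ζ hζ)
  choose! γ hγ1 hγ2 using hsep
  obtain ⟨g, hg⟩ : ∃ g, g = ∏ ζ ∈ Polynomial.nthRootsFinset h (1 : ℂ), γ ζ := ⟨_, rfl⟩
  have hg1 : ∀ ζ : ℂ, ζ ^ h = 1 → ∀ z, eval (ζ • pev F z) g = 0 := by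
    intro ζ hζ z
    rw [hg, map_prod]
    exact Finset.prod_eq_zero ((hmem ζ).2 hζ) (hγ1 ζ hζ z)
  have hg2 : eval q g ≠ 0 := by
    rw [hg, map_prod]
    exact Finset.prod_ne_zero_iff.2 fun ζ hζ => hγ2 ζ ((hmem ζ).1 hζ)
  obtain ⟨T, hT⟩ : ∃ T, T = g.totalDegree + 1 := ⟨_, rfl⟩
  have hcomp : ∀ x : Fin (N + 1) → ℂ, eval x g = ∑ n ∈ Finset.range T, eval x (homogeneousComponent n g) := by
    intro x
    rw [hT, ← map_sum, sum_homogeneousComponent]
  have hcompz : ∀ (ζ : ℂ) (x : Fin (N + 1) → ℂ), eval (ζ • x) g = ∑ n ∈ Finset.range T, ζ ^ n * eval x (homogeneousComponent n g) := by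
    intro ζ x
    rw [hcomp]
    exact Finset.sum_congr rfl fun n _ => LnB_eval_smul (homogeneousComponent_isHomogeneous n g) ζ x
  have hfib : ∀ u : ℕ → ℂ, ∑ n ∈ Finset.range T, u n = ∑ a ∈ Finset.range h, ∑ n ∈ Finset.range T with n % h = a, u n := fun u =>
    (Finset.sum_fiberwise_of_maps_to (fun n _ => Finset.mem_range.2 (Nat.mod_lt n h0)) u).symm
  -- the components modulo `h` vanish on `F`
  have hzero : ∀ z, ∀ a ∈ Finset.range h, ∑ n ∈ Finset.range T with n % h = a, eval (pev F z) (homogeneousComponent n g) = 0 := by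
    intro z
    obtain ⟨cf, hcf⟩ : ∃ cf : ℕ → ℂ, cf = fun a => ∑ n ∈ Finset.range T with n % h = a, eval (pev F z) (homogeneousComponent n g) := ⟨_, rfl⟩
    obtain ⟨p, hp⟩ : ∃ p : Polynomial ℂ, p = ∑ a ∈ Finset.range h, Polynomial.C (cf a) * Polynomial.X ^ a := ⟨_, rfl⟩
    have hcard : (Polynomial.nthRootsFinset h (1 : ℂ)).card = h := (Complex.isPrimitiveRoot_exp h h0.ne').card_nthRootsFinset
    have hp0 : p = 0 := by
      refine Polynomial.eq_zero_of_degree_lt_of_eval_finset_eq_zero (Polynomial.nthRootsFinset h (1 : ℂ)) ?_ fun ζ hζ => ?_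
      · rw [hcard, Polynomial.degree_lt_iff_coeff_zero]
        intro m hm
        rw [hp, Polynomial.finsetSum_coeff]
        simp only [Polynomial.coeff_C_mul, Polynomial.coeff_X_pow, mul_ite, mul_one, mul_zero]
        rw [Finset.sum_ite_eq, if_neg]
        rw [Finset.mem_range]
        omega
      · have hζ' := (hmem ζ).1 hζ
        rw [hp, Polynomial.eval_finsetSum]
        have e1 : ∀ a ∈ Finset.range h, Polynomial.eval ζ (Polynomial.C (cf a) * Polynomial.X ^ a) = ∑ n ∈ Finset.range T with n % h = a, ζ ^ n * eval (pev F z) (homogeneousComponent n g) := by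
          intro a _
          rw [Polynomial.eval_mul, Polynomial.eval_C, Polynomial.eval_pow, Polynomial.eval_X, hcf, Finset.sum_mul]
          refine Finset.sum_congr rfl fun n hn => ?_
          have e2 : ζ ^ n = ζ ^ a := by
            conv_lhs => rw [← Nat.div_add_mod n h, pow_add, pow_mul, hζ', one_pow, one_mul, (Finset.mem_filter.1 hn).2]
          rw [e2]
          ring
        rw [Finset.sum_congr rfl e1, ← hfib, ← hcompz]
        exact hg1 ζ hζ' z
    intro a ha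
    have e3 : p.coeff a = cf a := by
      rw [hp, Polynomial.finsetSum_coeff]
      simp only [Polynomial.coeff_C_mul, Polynomial.coeff_X_pow, mul_ite, mul_one, mul_zero]
      rw [Finset.sum_ite_eq, if_pos ha]
    rw [hp0, Polynomial.coeff_zero, hcf] at e3
    exact e3.symm
  -- one of them is not `0` at `q`
  obtain ⟨a, ha, hqa⟩ : ∃ a ∈ Finset.range h, ∑ n ∈ Finset.range T with n % h = a, eval q (homogeneousComponent n g) ≠ 0 := by
    by_contra hcon
    push Not at hcon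
    apply hg2
    rw [hcomp, hfib]
    exact Finset.sum_eq_zero hcon
  refine ⟨a + h * T, ∑ n ∈ Finset.range T with n % h = a, homogeneousComponent n g * H ^ ((a + h * T - n) / h), ?_, fun z => ?_, ?_⟩
  · refine IsHomogeneous.sum _ _ _ fun n hn => ?_
    obtain ⟨hn1, hn2⟩ := Finset.mem_filter.1 hn
    have e4 : n + h * ((a + h * T - n) / h) = a + h * T := by
      have e5 : n ≤ h * T := (Finset.mem_range.1 hn1).le.trans (Nat.le_mul_of_pos_left T h0)
      have e6 : h ∣ a + h * T - n := by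
        obtain ⟨t, ht⟩ : ∃ t, n = a + h * t := ⟨n / h, by
          have := Nat.mod_add_div n h
          omega⟩
        subst ht
        refine ⟨T - t, ?_⟩
        rw [Nat.mul_sub]
        omega
      rw [Nat.mul_div_cancel' e6]
      omega
    have e8 := (homogeneousComponent_isHomogeneous n g).mul (hH.pow ((a + h * T - n) / h))
    rwa [e4] at e8
  · rw [map_sum, ← hzero z a ha]
    refine Finset.sum_congr rfl fun n _ => ?_
    rw [map_mul, map_pow, hF.one z, one_pow, mul_one]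
  · rw [map_sum]
    have e7 : ∑ n ∈ Finset.range T with n % h = a, eval q (homogeneousComponent n g * H ^ ((a + h * T - n) / h)) = ∑ n ∈ Finset.range T with n % h = a, eval q (homogeneousComponent n g) :=
      Finset.sum_congr rfl fun n _ => by rw [map_mul, map_pow, hqH, one_pow, mul_one]
    rw [e7]
    exact hqa

theorem line_two (hH : H.IsHomogeneous h) (h1 : 1 ≤ h) {F F' : Fin (N + 1) → Polynomial ℂ} (hF : PLine P H F) (hF' : PLine P H F')
    (hle : ∀ (n : ℕ) (g : MvPolynomial (Fin (N + 1)) ℂ), g.IsHomogeneous n → (∀ z, eval (pev F z) g = 0) → ∀ z, eval (pev F' z) g = 0) :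
    ∃ ζ : ℂ, ζ ^ h = 1 ∧ ∀ z, ∃ w, pev F' z = ζ • pev F w := by
  classical
  have h0 : 0 < h := h1
  have hmem : ∀ ζ : ℂ, ζ ∈ Polynomial.nthRootsFinset h (1 : ℂ) ↔ ζ ^ h = 1 := fun ζ => Polynomial.mem_nthRootsFinset h0 (1 : ℂ)
  have hne : ∀ ζ : ℂ, ζ ^ h = 1 → ζ ≠ 0 := by
    rintro ζ hζ rfl
    rw [zero_pow h0.ne'] at hζ
    exact zero_ne_one hζ
  have hA : ∀ z, ∃ ζ : ℂ, ζ ^ h = 1 ∧ ∃ w, pev F' z = ζ • pev F w := by
    intro z
    by_contra hcon
    push Not at hcon
    obtain ⟨n, g, hg, hg1, hg2⟩ := LnB_form hH h1 hF (hF'.one z) hcon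
    exact hg2 (hle n g hg hg1 z)
  by_contra hcon
  push Not at hcon
  -- the sets of parameters are finite
  have hfin : ∀ ζ : ℂ, ζ ^ h = 1 → {z | ∃ w, pev F' z = ζ • pev F w}.Finite := by
    intro ζ hζ
    obtain ⟨z₀, hz₀⟩ := hcon ζ hζ
    obtain ⟨g, hg1, hg2⟩ := LnB_sep (hne ζ hζ) hF.ne hz₀
    have hp : (aeval F' g : Polynomial ℂ) ≠ 0 := by
      intro h2
      apply hg2
      rw [← LnB_eval, h2, Polynomial.eval_zero]
    refine (Polynomial.finite_setOfPred_isRoot hp).subset ?_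
    rintro z ⟨w, hw⟩
    show (aeval F' g : Polynomial ℂ).eval z = 0
    rw [LnB_eval, hw]
    exact hg1 w
  have huniv : (Set.univ : Set ℂ) ⊆ ⋃ ζ ∈ Polynomial.nthRootsFinset h (1 : ℂ), {z | ∃ w, pev F' z = ζ • pev F w} := by
    intro z _
    obtain ⟨ζ, hζ, hw⟩ := hA z
    exact Set.mem_biUnion ((hmem ζ).2 hζ) hw
  have h3 : (⋃ ζ ∈ Polynomial.nthRootsFinset h (1 : ℂ), {z | ∃ w, pev F' z = ζ • pev F w}).Finite :=
    Set.Finite.biUnion (Finset.finite_toSet _) fun ζ hζ => hfin ζ ((hmem ζ).1 hζ)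
  exact Set.infinite_univ (h3.subset huniv)

end Pool.Agent.SR3
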