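import Pool.Agent.SR3.LnB
import Pool.Agent.SR3.NC.Cur

/-!
# SR3 LnC: finitely many affine lines
-/

set_option autoImplicit false

open Topology Filter Metric MvPolynomial

noncomputable section

namespace Pool.Agent.SR3

open Pool.Agent.SR3.NC
open Pool.Agent.H17 (PN VanishesAt HolomorphicInto)
open Pool.Agent.H62.FC (Homog)
open Pool.Agent.H17LG.Variety (FunField)
open Pool.Agent.H17EF (projVar mk_mem_projVar)
open Pool.Agent.H17BP (mapIdeal mem_mapIdeal_form vanishesAt_mk eval_smul_form)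

variable {N : ℕ} {P : Ideal (MvPolynomial (Fin (N + 1)) ℂ)} {H : MvPolynomial (Fin (N + 1)) ℂ} {h : ℕ}

namespace LnC

theorem pev_ne (hH : H.IsHomogeneous h) (h1 : 1 ≤ h) {F : Fin (N + 1) → Polynomial ℂ} (hF : PLine P H F) (z : ℂ) : pev F z ≠ 0 := by
  intro h0
  have h2 := hF.one z
  have h3 : eval ((0 : ℂ) • (0 : Fin (N + 1) → ℂ)) H = 0 := by
    rw [eval_smul_form hH, zero_pow (by omega), zero_mul]
  rw [h0] at h2
  rw [zero_smul, h2] at h3
  exact one_ne_zero h3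

/-- the curve of a line -/
def cu (hH : H.IsHomogeneous h) (h1 : 1 ≤ h) {F : Fin (N + 1) → Polynomial ℂ} (hF : PLine P H F) (z : ℂ) : PN N :=
  Projectivization.mk ℂ (pev F z) (pev_ne hH h1 hF z)

theorem an_pev (F : Fin (N + 1) → Polynomial ℂ) (z : ℂ) : AnalyticAt ℂ (fun w => pev F w) z := by
  have h1 : Differentiable ℂ fun w => pev F w := differentiable_pi.2 fun l => (F l).differentiable
  exact h1.analyticAt z

theorem cu_in (hP : Homog P) (hH : H.IsHomogeneous h) (h1 : 1 ≤ h) {R : MvPolynomial (Fin (N + 1)) ℂ} {d : ℕ} (hR : R.IsHomogeneous d)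
    {F : Fin (N + 1) → Polynomial ℂ} (hF : PLine P H F) (hL : ∀ z, eval (pev F z) R = 0) : CurveIn P R (cu hH h1 hF) := by
  refine ⟨fun z _ => ⟨fun w => pev F w, an_pev F z, Filter.Eventually.of_forall fun w => ⟨pev_ne hH h1 hF w, rfl⟩⟩, ?_, fun z => ?_, fun z => ?_⟩
  · by_contra hcon
    push Not at hcon
    obtain ⟨l, hl⟩ := hF.ne
    have h2 : ∀ z, (F l).eval z ^ h = (F l).eval 0 ^ h := by
      intro z
      obtain ⟨a, ha⟩ := (Projectivization.mk_eq_mk_iff' ℂ _ _ (pev_ne hH h1 hF z) (pev_ne hH h1 hF 0)).1 (hcon z 0)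
      have h3 := hF.one z
      rw [← ha, eval_smul_form hH, hF.one 0, mul_one] at h3
      have h4 : (F l).eval z = a * (F l).eval 0 := (congrFun ha l).symm
      rw [h4, mul_pow, h3, one_mul]
    have h5 : F l ^ h = Polynomial.C ((F l).eval 0 ^ h) := by
      apply Polynomial.funext
      intro z
      rw [Polynomial.eval_pow, Polynomial.eval_C, h2 z]
    have h6 := congrArg Polynomial.natDegree h5
    rw [Polynomial.natDegree_pow, Polynomial.natDegree_C] at h6
    rcases Nat.mul_eq_zero.1 h6 with h7 | h7 <;> omega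
  · exact (mk_mem_projVar hP _).2 ⟨pev_ne hH h1 hF z, hF.mem z⟩
  · exact (vanishesAt_mk hR _).2 (hL z)

/-- multiples by roots of unity -/
theorem smul_line (hP : Homog P) (hH : H.IsHomogeneous h) (h1 : 1 ≤ h) {F : Fin (N + 1) → Polynomial ℂ} (hF : PLine P H F) {ζ : ℂ} (hζ : ζ ^ h = 1) :
    PLine P H (fun l => Polynomial.C ζ * F l) ∧ ∀ z, pev (fun l => Polynomial.C ζ * F l) z = ζ • pev F z := by
  have h0 : ζ ≠ 0 := by
    rintro rfl
    rw [zero_pow (by omega)] at hζ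
    exact zero_ne_one hζ
  have h2 : ∀ z, pev (fun l => Polynomial.C ζ * F l) z = ζ • pev F z := by
    intro z
    funext l
    simp [pev]
  refine ⟨⟨fun z Q hQ => ?_, fun z => ?_, ?_⟩, h2⟩
  · rw [h2, ← MvPolynomial.sum_homogeneousComponent Q, map_sum]
    refine Finset.sum_eq_zero fun i _ => ?_
    rw [eval_smul_form (homogeneousComponent_isHomogeneous i Q), hF.mem z _ (hP Q hQ i), mul_zero]
  · rw [h2, eval_smul_form hH, hF.one z, mul_one, hζ]
  · obtain ⟨l, hl⟩ := hF.ne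
    exact ⟨l, by rwa [Polynomial.natDegree_C_mul h0]⟩

end LnC

open LnC

theorem lines_fin [P.IsPrime] (hP : Homog P) (hz : ∃ z : Fin 2 → FunField P, IsTranscendenceBasis ℂ z) (hH : H.IsHomogeneous h) (h1 : 1 ≤ h)
    {R : MvPolynomial (Fin (N + 1)) ℂ} {d : ℕ} (hR : R.IsHomogeneous d) (hRP : R ∉ P) (hL : ∀ F, PLine P H F → ∀ z, eval (pev F z) R = 0) :
    ∃ (n : ℕ) (Φ : Fin n → Fin (N + 1) → Polynomial ℂ), (∀ i, PLine P H (Φ i)) ∧ ∀ F, PLine P H F → ∃ i, ∀ z, ∃ w, pev F z = pev (Φ i) w := by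
  classical
  set T : Set (Ideal (MvPolynomial (Fin (N + 1)) ℂ)) := {J | ∃ (F : Fin (N + 1) → Polynomial ℂ) (hF : PLine P H F), J = mapIdeal (cu hH h1 hF) Set.univ} with hTdef
  have hT : T.Finite := by
    refine (finite_curves hP hz hR hRP).subset ?_
    rintro J ⟨F, hF, rfl⟩
    exact ⟨_, cu_in hP hH h1 hR hF (hL F hF), rfl⟩
  have hch : ∀ J : T, ∃ (F : Fin (N + 1) → Polynomial ℂ) (hF : PLine P H F), J.1 = mapIdeal (cu hH h1 hF) Set.univ := fun J => J.2
  choose G hG hGJ using hch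
  set Z : Finset ℂ := (Polynomial.nthRoots h (1 : ℂ)).toFinset with hZdef
  have hZ : ∀ ζ, ζ ∈ Z ↔ ζ ^ h = 1 := by
    intro ζ
    rw [hZdef, Multiset.mem_toFinset, Polynomial.mem_nthRoots (by omega)]
  have hTF : Fintype T := hT.fintype
  set e : (T × Z) ≃ Fin (Fintype.card (T × Z)) := Fintype.equivFin _ with he
  refine ⟨Fintype.card (T × Z), fun i l => Polynomial.C ((e.symm i).2 : ℂ) * G (e.symm i).1 l, fun i => ?_, fun F hF => ?_⟩
  · exact (smul_line hP hH h1 (hG (e.symm i).1) ((hZ _).1 (e.symm i).2.2)).1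
  · set J : T := ⟨mapIdeal (cu hH h1 hF) Set.univ, F, hF, rfl⟩ with hJ
    have hle : ∀ (n : ℕ) (g : MvPolynomial (Fin (N + 1)) ℂ), g.IsHomogeneous n → (∀ z, eval (pev (G J) z) g = 0) → ∀ z, eval (pev F z) g = 0 := by
      intro n g hg hgG z
      have h2 : g ∈ J.1 := by
        rw [hGJ J]
        exact (mem_mapIdeal_form hg).2 fun z _ => (vanishesAt_mk hg _).2 (hgG z)
      exact (vanishesAt_mk hg _).1 ((mem_mapIdeal_form hg).1 h2 z (Set.mem_univ z))
    obtain ⟨ζ, hζ, hw⟩ := line_two hH h1 (hG J) hF hle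
    refine ⟨e (J, ⟨ζ, (hZ ζ).2 hζ⟩), fun z => ?_⟩
    obtain ⟨w, hw⟩ := hw z
    refine ⟨w, ?_⟩
    rw [hw]
    have h3 := (smul_line hP hH h1 (hG J) hζ).2 w
    rw [← h3]
    simp only [Equiv.symm_apply_apply]

end Pool.Agent.SR3
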