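import Pool.Agent.SR3.HDefs2

/-!
# SR3 LnDefs: affine lines, in terms of polynomials
-/

set_option autoImplicit false

open Topology Filter Metric MvPolynomial

noncomputable section

namespace Pool.Agent.SR3

open Pool.Agent.H36.BP (EN)

variable {N : ℕ}

/-- the point with the parameter `z` of a polynomial curve -/
def pev {ι : Type} (F : ι → Polynomial ℂ) (z : ℂ) : ι → ℂ := fun l => (F l).eval z

/-- `F` is an affine line in `{H = 1}` -/
structure PLine (P : Ideal (MvPolynomial (Fin (N + 1)) ℂ)) (H : MvPolynomial (Fin (N + 1)) ℂ) (F : Fin (N + 1) → Polynomial ℂ) : Prop where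
  mem : ∀ z, ∀ Q ∈ P, eval (pev F z) Q = 0
  one : ∀ z, eval (pev F z) H = 1
  ne : ∃ l, 1 ≤ (F l).natDegree

end Pool.Agent.SR3
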