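import Pool.Agent.SR3.LnC
import Pool.Agent.SR3.LnN
import Pool.Agent.SY.NBa

/-!
# SR3 LnF: up to the parameter there are only finitely many affine lines (the field `lines` of `Geo.Ok`)
-/

set_option autoImplicit false

open Topology Filter Metric MvPolynomial

noncomputable section

namespace Pool.Agent.SR3

open Pool.Agent.H36.BP (EN fs wd)
open Pool.Agent.H17BP (Surface IsChart)
open Pool.Agent.H14.PP (IsCone Tan)
open Pool.Agent.H17 (PN VanishesAt HolomorphicInto)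
open Pool.Agent.H62.FC (Homog)
open Pool.Agent.H17LG.Variety (FunField)
open Pool.Agent.H17EF (projVar coneE)
open Pool.Agent.AD (SymDiff TangentTo)
open Pool.Agent.AD.NC (IsSmooth)

variable {N k M : ℕ} {P : Ideal (MvPolynomial (Fin (N + 1)) ℂ)} {H : MvPolynomial (Fin (N + 1)) ℂ} {h : ℕ}
  {E : Fin k → Fin (M + 1) → MvPolynomial (Fin (N + 1)) ℂ} {c b : Fin k → ℕ}

namespace LnFAux

/-- a polynomial has polynomial growth -/
theorem poly_growth (p : Polynomial ℂ) : ∃ C : ℝ, 0 ≤ C ∧ ∀ (n : ℕ), p.natDegree ≤ n → ∀ z, ‖p.eval z‖ ≤ C * (1 + ‖z‖) ^ n := by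
  refine ⟨∑ i ∈ Finset.range (p.natDegree + 1), ‖p.coeff i‖, Finset.sum_nonneg fun _ _ => norm_nonneg _, fun n hn z => ?_⟩
  rw [Polynomial.eval_eq_sum_range, Finset.sum_mul]
  refine (norm_sum_le _ _).trans (Finset.sum_le_sum fun i hi => ?_)
  rw [norm_mul, norm_pow]
  refine mul_le_mul_of_nonneg_left ?_ (norm_nonneg _)
  have h1 : (1 : ℝ) ≤ 1 + ‖z‖ := by linarith [norm_nonneg z]
  calc ‖z‖ ^ i ≤ (1 + ‖z‖) ^ i := pow_le_pow_left₀ (norm_nonneg _) (by linarith) _
    _ ≤ (1 + ‖z‖) ^ n := pow_le_pow_right₀ h1 ((Nat.lt_succ_iff.1 (Finset.mem_range.1 hi)).trans hn)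

/-- a vector of polynomials has polynomial growth -/
theorem vec_growth {ι : Type} [Fintype ι] (p : ι → Polynomial ℂ) :
    ∃ (C : ℝ) (n : ℕ), ∀ z, ‖(WithLp.toLp 2 (pev p z) : EuclideanSpace ℂ ι)‖ ≤ C * (1 + ‖z‖) ^ n := by
  choose C hC0 hC using fun l => poly_growth (p l)
  refine ⟨∑ l, C l, ∑ l, (p l).natDegree, fun z => ?_⟩
  have h1 : ‖(WithLp.toLp 2 (pev p z) : EuclideanSpace ℂ ι)‖ ≤ ∑ l, ‖(p l).eval z‖ := by
    rw [EuclideanSpace.norm_eq]
    refine Real.sqrt_le_iff.2 ⟨Finset.sum_nonneg fun _ _ => norm_nonneg _, ?_⟩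
    exact Finset.sum_sq_le_sq_sum_of_nonneg fun l _ => norm_nonneg _
  refine h1.trans ?_
  rw [Finset.sum_mul]
  exact Finset.sum_le_sum fun l _ => hC l _ (Finset.single_le_sum (f := fun l => (p l).natDegree) (fun _ _ => Nat.zero_le _) (Finset.mem_univ l)) z

/-- a vector of polynomials is an entire curve -/
theorem vec_diff {ι : Type} [Fintype ι] (p : ι → Polynomial ℂ) :
    Differentiable ℂ fun z => (WithLp.toLp 2 (pev p z) : EuclideanSpace ℂ ι) := by
  have h1 : Differentiable ℂ fun z => pev p z := differentiable_pi.2 fun l => (p l).differentiable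
  exact (PiLp.continuousLinearEquiv 2 ℂ (fun _ : ι => ℂ)).symm.differentiable.comp h1

end LnFAux

open LnFAux

theorem lines_geo [P.IsPrime] {z : Fin 2 → FunField P} (hP : Homog P) (hz : IsTranscendenceBasis ℂ z) (hH : H.IsHomogeneous h) (h1 : 1 ≤ h)
    (hs : Snc P H E b) {s : ℕ} {m : Fin s → ℕ} (hm : ∀ j, 1 ≤ m j) (θ : ∀ j, SymDiff (oc P H) (m j)) (hθ : ∀ j, HasLogPoles E c (θ j))
    {t : ℕ} {R : Fin t → MvPolynomial (Fin (N + 1)) ℂ} (hN : NullCurve θ R) {n : ℕ} (supp : Fin n → Finset (Fin k))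
    (Pol : Fin n → Fin s → MvPolynomial (Fin k) ℂ) (ty : EN N → Fin n) {mΩ jΩ r : ℕ} (Ω : Fin r → EN N → EN N → EN N → ℂ) :
    ∃ (a : ℕ) (Φ : Fin a → ℂ → EN N), (∀ i, (geoOf P H h E c b θ supp Pol ty mΩ jΩ Ω).Line (Φ i)) ∧
      ∀ F, (geoOf P H h E c b θ supp Pol ty mΩ jΩ Ω).Line F → ∃ i, ∀ z, ∃ w, F z = Φ i w := by
  obtain ⟨D, hD⟩ := hN.hom
  obtain ⟨l₀, hl₀⟩ := hN.ne
  obtain ⟨a, Φ, hΦ, hall⟩ := lines_fin hP ⟨z, hz⟩ hH h1 (hD l₀) hl₀ fun F hF w => line_R hP hH h1 hs hm θ hθ hN hF l₀ w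
  -- polynomial lines are lines
  have key1 : ∀ p, PLine P H p → (geoOf P H h E c b θ supp Pol ty mΩ jΩ Ω).Line fun z => WithLp.toLp 2 (pev p z) := by
    intro p hp
    refine ⟨vec_diff p, fun w => ?_, fun w => hp.one w, ?_, ?_⟩
    · show WithLp.toLp 2 (pev p w) ∈ oc P H
      refine ⟨⟨fun h0 => ?_, fun Q hQ => hp.mem w Q hQ⟩, fun _ => ?_⟩
      · have h2 : pev p w = 0 := h0
        have h3 := hp.one w
        rw [h2, MvPolynomial.eval_zero, MvPolynomial.constantCoeff_eq, hH.coeff_eq_zero (by simp; omega)] at h3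
        exact zero_ne_one h3
      · show eval (pev p w) H ≠ 0
        rw [hp.one w]
        exact one_ne_zero
    · exact vec_growth p
    · obtain ⟨l, hl⟩ := hp.ne
      by_contra hcon
      push Not at hcon
      have h2 : ∀ w, (p l).eval w = (p l).eval 0 := fun w => by
        have h3 := congrArg (fun x : EN N => x.ofLp l) (hcon w 0)
        exact h3
      have h3 : p l = Polynomial.C ((p l).eval 0) := Polynomial.funext fun w => by rw [h2 w, Polynomial.eval_C]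
      rw [h3, Polynomial.natDegree_C] at hl
      omega
  -- lines are polynomial
  have key2 : ∀ F, (geoOf P H h E c b θ supp Pol ty mΩ jΩ Ω).Line F → ∃ p, PLine P H p ∧ ∀ w, F w = WithLp.toLp 2 (pev p w) := by
    intro F hF
    obtain ⟨C, e, hg⟩ := hF.pol
    have key : ∀ l : Fin (N + 1), ∃ p : Polynomial ℂ, ∀ w, (F w).ofLp l = p.eval w := fun l =>
      Pool.Agent.SY.exists_poly_of_growth e (fun w => (F w).ofLp l) C ((EuclideanSpace.proj (𝕜 := ℂ) l).differentiable.comp hF.diff)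
        fun w => (PiLp.norm_apply_le (F w) l).trans (hg w)
    choose p hp using key
    have h2 : ∀ w : ℂ, pev p w = (F w).ofLp := fun w => funext fun l => (hp l w).symm
    have h3 : ∀ w, F w = WithLp.toLp 2 (pev p w) := fun w => by rw [h2 w]
    refine ⟨p, ⟨fun w Q hQ => ?_, fun w => ?_, ?_⟩, h3⟩
    · rw [h2 w]
      exact (hF.mem w).1.2 Q hQ
    · rw [h2 w]
      exact hF.nm w
    · by_contra hcon
      push Not at hcon
      obtain ⟨w, w', hw⟩ := hF.ne
      apply hw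
      rw [h3 w, h3 w']
      congr 1
      funext l
      show (p l).eval w = (p l).eval w'
      have h4 : (p l).natDegree = 0 := by have := hcon l; omega
      rw [Polynomial.eq_C_of_natDegree_eq_zero h4, Polynomial.eval_C, Polynomial.eval_C]
  refine ⟨a, fun i w => WithLp.toLp 2 (pev (Φ i) w), fun i => key1 (Φ i) (hΦ i), fun F hF => ?_⟩
  obtain ⟨p, hp, hFp⟩ := key2 F hF
  obtain ⟨i, hi⟩ := hall p hp
  refine ⟨i, fun w => ?_⟩
  obtain ⟨w', hw'⟩ := hi w
  exact ⟨w', by rw [hFp w, hw']⟩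

end Pool.Agent.SR3
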