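import Pool.Agent.SDA.Defs
import Pool.Agent.H36.BP.SubC

/-!
# SR3 MMax: the maximum of finitely many metrics

If `g a` is a metric along the curves which do not lie in `T a`, for the indices `a` of a finite set, then the maximum of the `g a` (`0` where the curve
lies in `T a`) is a metric along the curves which do not lie in the intersection of the `T a`.
-/

set_option autoImplicit false

open Topology Filter Metric

noncomputable section

namespace Pool.Agent.SR3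

open Pool.Agent.H36.BP (EN fs wd Sub)
open Pool.Agent.H17BP (Pr)
open Pool.Agent.H14.PP (IsCone)
open Pool.Agent.SY (Ent)
open Pool.Agent.SDA (EnergyK Near)

variable {N : ℕ} {X K : Set (EN N)}

/-- A metric along the entire curves in `K` which do not lie in `T`; without error where `rho < δ`. -/
structure MetD (X K T : Set (EN N)) (rho : EN N → ℝ) (M : ℕ) (c₀ C δ : ℝ) (g : (ℂ → EN N) → ℂ → ℝ) : Prop where
  en : EnergyK X K T (fun x => ‖x‖) rho M c₀ C g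
  one_M : 1 ≤ M
  pos : 0 < δ
  near : Near K T (fun x => ‖x‖) rho c₀ g δ
  TX : T ⊆ X
  Ts : ∀ x ∈ T, ∀ c : ℂ, c ≠ 0 → c • x ∈ T
  KT : ∀ x ∈ X, x ∉ K → x ∈ T
  rho0 : ∀ x ∈ X, 0 ≤ rho x
  rhoT : ∀ x ∈ X, (rho x = 0 ↔ x ∈ T)
  rhoc : ContinuousOn rho X
  rhos : ∀ x ∈ X, ∀ c : ℂ, c ≠ 0 → rho (c • x) = rho x
  Ti : ∀ F : ℂ → EN N, Differentiable ℂ F → (∀ z, F z ∈ X) → (∃ z, F z ∉ T) → ∀ z₀, ∀ᶠ z in 𝓝[≠] z₀, F z ∉ T

/-! ## the maximum of a finite family -/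

variable {A : Type} [Fintype A] [Nonempty A]

/-- the maximum of a finite family -/
def mx (f : A → ℝ) : ℝ := Finset.univ.sup' Finset.univ_nonempty f

theorem le_mx (f : A → ℝ) (a : A) : f a ≤ mx f := Finset.le_sup' f (Finset.mem_univ a)

theorem exists_mx (f : A → ℝ) : ∃ a, mx f = f a := by
  obtain ⟨a, -, ha⟩ := Finset.exists_mem_eq_sup' (s := (Finset.univ : Finset A)) Finset.univ_nonempty f
  exact ⟨a, ha⟩

theorem mx_lt {f : A → ℝ} {c : ℝ} : mx f < c ↔ ∀ a, f a < c := by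
  unfold mx
  rw [Finset.sup'_lt_iff]
  exact ⟨fun h a => h a (Finset.mem_univ a), fun h a _ => h a⟩

theorem mx_le {f : A → ℝ} {c : ℝ} : mx f ≤ c ↔ ∀ a, f a ≤ c := by
  unfold mx
  rw [Finset.sup'_le_iff]
  exact ⟨fun h a => h a (Finset.mem_univ a), fun h a _ => h a⟩

theorem mx_mul {f : A → ℝ} {c : ℝ} (hc : 0 ≤ c) : mx (fun a => c * f a) = c * mx f := by
  apply le_antisymm
  · exact mx_le.2 fun a => mul_le_mul_of_nonneg_left (le_mx f a) hc
  · obtain ⟨a, ha⟩ := exists_mx f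
    rw [ha]
    exact le_mx (fun a => c * f a) a

/-! ## bounded functions on cones -/

theorem MMax_bound (hX : IsCone X) {rho : EN N → ℝ} (hc : ContinuousOn rho X) (hs : ∀ x ∈ X, ∀ c : ℂ, c ≠ 0 → rho (c • x) = rho x) :
    ∃ B : ℝ, ∀ x ∈ X, rho x ≤ B := by
  have h1 : IsClosed (X ∩ sphere (0 : EN N) 1) := by
    have h : X ∩ sphere (0 : EN N) 1 = insert 0 X ∩ sphere (0 : EN N) 1 := by
      ext x
      constructor
      · rintro ⟨h1, h2⟩
        exact ⟨Set.mem_insert_of_mem _ h1, h2⟩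
      · rintro ⟨h1, h2⟩
        rcases h1 with h1 | h1
        · rw [h1, mem_sphere_iff_norm, sub_zero, norm_zero] at h2
          norm_num at h2
        · exact ⟨h1, h2⟩
    rw [h]
    exact hX.closed.inter isClosed_sphere
  have h2 : IsCompact (X ∩ sphere (0 : EN N) 1) := (isCompact_sphere (0 : EN N) 1).of_isClosed_subset h1 Set.inter_subset_right
  obtain ⟨B, hB⟩ := h2.exists_bound_of_continuousOn (hc.mono Set.inter_subset_left)
  refine ⟨B, fun x hx => ?_⟩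
  have h0 : x ≠ 0 := fun h => hX.zero_notMem (h ▸ hx)
  have h1 : ((‖x‖ : ℂ))⁻¹ ≠ 0 := inv_ne_zero (by exact_mod_cast norm_ne_zero_iff.2 h0)
  have h2 := hB (((‖x‖ : ℂ))⁻¹ • x) ⟨hX.smul_mem x hx _ h1, by
    rw [mem_sphere_iff_norm, sub_zero, norm_smul, norm_inv, Complex.norm_real, norm_norm, inv_mul_cancel₀ (norm_ne_zero_iff.2 h0)]⟩
  rw [hs x hx _ h1] at h2
  exact (le_abs_self _).trans h2

/-! ## the metric -/

open Classical in
/-- the metric, `0` on the curves in `T` -/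
def ext0 (T : Set (EN N)) (g : (ℂ → EN N) → ℂ → ℝ) (F : ℂ → EN N) (z : ℂ) : ℝ := if ∃ w, F w ∉ T then g F z else 0

variable {T : A → Set (EN N)} {rho : A → EN N → ℝ} {M : A → ℕ} {c₀ C δ : A → ℝ} {g : A → (ℂ → EN N) → ℂ → ℝ}

theorem ext0_pos {T : Set (EN N)} {g : (ℂ → EN N) → ℂ → ℝ} {F : ℂ → EN N} (h : ∃ w, F w ∉ T) (z : ℂ) : ext0 T g F z = g F z := by
  unfold ext0
  rw [if_pos h]

theorem ext0_neg {T : Set (EN N)} {g : (ℂ → EN N) → ℂ → ℝ} {F : ℂ → EN N} (h : ¬ ∃ w, F w ∉ T) (z : ℂ) : ext0 T g F z = 0 := by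
  unfold ext0
  rw [if_neg h]

/-- the maximum of the metrics -/
def gmx (T : A → Set (EN N)) (g : A → (ℂ → EN N) → ℂ → ℝ) (F : ℂ → EN N) (z : ℂ) : ℝ := mx fun a => ext0 (T a) (g a) F z

omit [Fintype A] [Nonempty A] in
theorem gmx_nonneg (h : ∀ a, MetD X K (T a) (rho a) (M a) (c₀ a) (C a) (δ a) (g a)) {F : ℂ → EN N} (hF : Differentiable ℂ F)
    (hK : ∀ z, F z ∈ K) (a : A) (z : ℂ) : 0 ≤ ext0 (T a) (g a) F z := by
  by_cases ho : ∃ w, F w ∉ T a
  · rw [ext0_pos ho]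
    exact (h a).en.nonneg F ⟨hF, hK, ho⟩ z
  · rw [ext0_neg ho]

/-- the metric with a smaller constant `c₀` -/
theorem MMax_sub {u : ℂ → ℝ} {F : ℂ → EN N} {z : ℂ} {c c₁ d : ℝ} (hF : AnalyticAt ℂ F z) (h0 : F z ≠ 0) (hc : c ≤ c₁)
    (h : Sub (fun w => u w * ‖F w‖ ^ (-c₁)) z d) : Sub (fun w => u w * ‖F w‖ ^ (-c)) z d := by
  have h1 := (h.mul (Pool.Agent.H36.BP.Sub.norm_rpow hF h0 (c₁ - c))).anti (d := d) (by
    have : 0 ≤ (c₁ - c) * fs (F z) (deriv F z) ^ 2 / 2 := div_nonneg (mul_nonneg (sub_nonneg.2 hc) (sq_nonneg _)) (by norm_num)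
    linarith)
  have hne : ∀ᶠ w in 𝓝 z, F w ≠ 0 := hF.continuousAt.eventually_ne h0
  refine h1.congr (hne.mono fun w hw => ?_)
  have hn : 0 < ‖F w‖ := norm_pos_iff.2 hw
  rw [mul_assoc, ← Real.rpow_add hn]
  congr 2
  ring

omit [Nonempty A] in
/-- a choice of the index along an ultrafilter -/
theorem MMax_index {𝒰 : Ultrafilter ℕ} {P : A → ℕ → Prop} (h : ∀ n, ∃ a, P a n) : ∃ a, ∀ᶠ n in (𝒰 : Filter ℕ), P a n := by
  by_contra hne
  have h1 : ∀ a, ∀ᶠ n in (𝒰 : Filter ℕ), ¬ P a n := fun a => Ultrafilter.eventually_not.2 fun h2 => hne ⟨a, h2⟩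
  obtain ⟨n, hn⟩ := (eventually_all.2 h1).exists
  obtain ⟨a, ha⟩ := h n
  exact hn a ha

theorem MMax_mono {l l' : Filter ℕ} (hl : l' ≤ l) {F : ℕ → ℂ → EN N} {H : ℂ → EN N} {s : Set ℂ} (h : TendstoLocallyUniformlyOn F H l s) :
    TendstoLocallyUniformlyOn F H l' s := by
  intro u hu x hx
  obtain ⟨t, ht, h1⟩ := h u hu x hx
  exact ⟨t, ht, h1.filter_mono hl⟩

/-- **The maximum of finitely many metrics.** -/
theorem MetD.max (hX : IsCone X) (hKX : K ⊆ X) (h : ∀ a, MetD X K (T a) (rho a) (M a) (c₀ a) (C a) (δ a) (g a)) :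
    ∃ (M' : ℕ) (c' C' δ' : ℝ), MetD X K (⋂ a, T a) (fun x => mx fun a => rho a x) M' c' C' δ' (gmx T g) := by
  classical
  obtain ⟨a₀⟩ : Nonempty A := inferInstance
  -- the constants
  choose B hB using fun a => MMax_bound hX (h a).rhoc (h a).rhos
  set B' : ℝ := 1 + ∑ a, |B a| with hB'
  have hB1 : 1 ≤ B' := le_add_of_nonneg_right (Finset.sum_nonneg fun a _ => abs_nonneg _)
  have hBB : ∀ a, ∀ x ∈ X, rho a x ≤ B' := by
    intro a x hx
    have h1 : |B a| ≤ ∑ a, |B a| := Finset.single_le_sum (f := fun a => |B a|) (fun i _ => abs_nonneg _) (Finset.mem_univ a)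
    have h2 := hB a x hx
    have h3 := le_abs_self (B a)
    linarith
  set M' : ℕ := Finset.univ.sup M with hM'
  have hMM : ∀ a, M a ≤ M' := fun a => Finset.le_sup (Finset.mem_univ a)
  set c' : ℝ := Finset.univ.inf' Finset.univ_nonempty c₀ with hc'
  have hcc : ∀ a, c' ≤ c₀ a := fun a => Finset.inf'_le _ (Finset.mem_univ a)
  have hc0 : 0 < c' := by
    rw [hc', Finset.lt_inf'_iff]
    exact fun a _ => (h a).en.c₀_pos
  set δ' : ℝ := Finset.univ.inf' Finset.univ_nonempty δ with hδ'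
  have hdd : ∀ a, δ' ≤ δ a := fun a => Finset.inf'_le _ (Finset.mem_univ a)
  have hd0 : 0 < δ' := by
    rw [hδ', Finset.lt_inf'_iff]
    exact fun a _ => (h a).pos
  set C' : ℝ := B' ^ M' * ∑ a, C a with hC'
  have hBM : 1 ≤ B' ^ M' := one_le_pow₀ hB1
  have hCa : ∀ a, C a ≤ ∑ a, C a := fun a => Finset.single_le_sum (f := C) (fun i _ => (h i).en.C_pos.le) (Finset.mem_univ a)
  have hCs : 0 < ∑ a, C a := lt_of_lt_of_le (h a₀).en.C_pos (hCa a₀)
  have hCC : ∀ a, C a ≤ C' := fun a => (hCa a).trans (le_mul_of_one_le_left hCs.le hBM)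
  have hC0 : 0 < C' := lt_of_lt_of_le (h a₀).en.C_pos (hCC a₀)
  -- the functions
  have hout : ∀ {F : ℂ → EN N}, (∃ z, F z ∉ ⋂ a, T a) → ∃ a z, F z ∉ T a := by
    rintro F ⟨z, hz⟩
    rw [Set.mem_iInter] at hz
    push Not at hz
    obtain ⟨a, ha⟩ := hz
    exact ⟨a, z, ha⟩
  have hent : ∀ {F : ℂ → EN N}, Ent K (⋂ a, T a) F → ∀ {a}, (∃ w, F w ∉ T a) → Ent K (T a) F := fun hF _ ho => ⟨hF.diff, hF.mem, ho⟩
  have hpos : ∀ {F : ℂ → EN N} {z : ℂ} {a}, 0 < ext0 (T a) (g a) F z → ∃ w, F w ∉ T a := by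
    intro F z a hp
    by_contra hn
    rw [ext0_neg hn] at hp
    exact lt_irrefl _ hp
  have hSub : ∀ {F : ℂ → EN N}, Ent K (⋂ a, T a) F → ∀ {z : ℂ} {a} {d d' : ℝ}, gmx T g F z = ext0 (T a) (g a) F z → (∃ w, F w ∉ T a) →
      Sub (fun w => g a F w * ‖F w‖ ^ (-(c₀ a))) z d → d' ≤ d → Sub (fun w => gmx T g F w * ‖F w‖ ^ (-c')) z d' := by
    intro F hF z a d d' ha ho hS hd
    have h0 : F z ≠ 0 := fun h0 => hX.zero_notMem (h0 ▸ hKX (hF.mem z))
    have h1 := (MMax_sub (hF.diff.analyticAt z) h0 (hcc a) hS).anti hd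
    refine h1.mono ?_ (Eventually.of_forall fun w => ?_)
    · show g a F z * ‖F z‖ ^ (-c') = gmx T g F z * ‖F z‖ ^ (-c')
      rw [ha, ext0_pos ho]
    · show g a F w * ‖F w‖ ^ (-c') ≤ gmx T g F w * ‖F w‖ ^ (-c')
      refine mul_le_mul_of_nonneg_right ?_ (Real.rpow_nonneg (norm_nonneg _) _)
      rw [← ext0_pos ho w (g := g a)]
      exact le_mx (fun a => ext0 (T a) (g a) F w) a
  have hlim : ∀ (l : Filter ℕ), l.NeBot → ∀ (r A' ε : ℝ), 0 < r → 0 < ε → ∀ (F : ℕ → ℂ → EN N) (H : ℂ → EN N),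
      (∀ᶠ n in l, Ent K (⋂ a, T a) (F n)) → (∀ᶠ n in l, ∀ z ∈ ball (0 : ℂ) r, gmx T g (F n) z ≤ A') → (∀ᶠ n in l, ε ≤ gmx T g (F n) 0) →
      (∃ h : ℕ → ℂ → ℂ, (∀ᶠ n in l, DifferentiableOn ℂ (h n) (ball 0 r) ∧ ∀ z ∈ ball (0 : ℂ) r, h n z ≠ 0) ∧
        TendstoLocallyUniformlyOn (fun n z => h n z • F n z) H l (ball 0 r)) →
      ∃ (𝒰 : Ultrafilter ℕ) (a : A), (∀ᶠ n in (𝒰 : Filter ℕ), Ent K (T a) (F n)) ∧
        (∀ᶠ n in (𝒰 : Filter ℕ), ∀ z ∈ ball (0 : ℂ) r, g a (F n) z ≤ A') ∧ (∀ᶠ n in (𝒰 : Filter ℕ), ε ≤ g a (F n) 0) ∧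
        (∃ h : ℕ → ℂ → ℂ, (∀ᶠ n in (𝒰 : Filter ℕ), DifferentiableOn ℂ (h n) (ball 0 r) ∧ ∀ z ∈ ball (0 : ℂ) r, h n z ≠ 0) ∧
          TendstoLocallyUniformlyOn (fun n z => h n z • F n z) H (𝒰 : Filter ℕ) (ball 0 r)) := by
    intro l hl r A' ε hr hε F H hF hA hB ⟨u, hu, hc⟩
    have := hl
    have hle : ((Ultrafilter.of l : Ultrafilter ℕ) : Filter ℕ) ≤ l := Ultrafilter.of_le l
    obtain ⟨a, ha⟩ := MMax_index (𝒰 := Ultrafilter.of l) (P := fun a n => gmx T g (F n) 0 = ext0 (T a) (g a) (F n) 0)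
      fun n => exists_mx fun a => ext0 (T a) (g a) (F n) 0
    have h1 : ∀ᶠ n in ((Ultrafilter.of l : Ultrafilter ℕ) : Filter ℕ), ∃ w, F n w ∉ T a := by
      filter_upwards [ha, hB.filter_mono hle] with n h1 h2
      rw [h1] at h2
      exact hpos (lt_of_lt_of_le hε h2)
    refine ⟨Ultrafilter.of l, a, ?_, ?_, ?_, u, hu.filter_mono hle, MMax_mono hle hc⟩
    · filter_upwards [h1, hF.filter_mono hle] with n h2 h3 using hent h3 h2
    · filter_upwards [h1, hA.filter_mono hle] with n h2 h3 z hz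
      rw [← ext0_pos h2 z (g := g a)]
      exact (le_mx (fun a => ext0 (T a) (g a) (F n) z) a).trans (h3 z hz)
    · filter_upwards [h1, ha, hB.filter_mono hle] with n h2 h3 h4
      rw [h3, ext0_pos h2] at h4
      exact h4
  have hnear : Near K (⋂ a, T a) (fun x => ‖x‖) (fun x => mx fun a => rho a x) c' (gmx T g) δ' := by
    intro F hF z hz hg
    obtain ⟨a, ha⟩ := exists_mx fun a => ext0 (T a) (g a) F z
    have ha' : gmx T g F z = ext0 (T a) (g a) F z := ha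
    have hp : 0 < ext0 (T a) (g a) F z := ha' ▸ hg
    have ho := hpos hp
    rw [ext0_pos ho] at hp
    have h1 : rho a (F z) < δ a := lt_of_lt_of_le (lt_of_le_of_lt (le_mx (fun a => rho a (F z)) a) hz) (hdd a)
    exact hSub hF ha' ho ((h a).near F (hent hF ho) z h1 hp) le_rfl
  refine ⟨M', c', C', δ', ⟨⟨hc0, hC0, ?_, ?_, ?_, ?_, ?_, ?_, ?_⟩, ⟨δ', hd0, hnear⟩, ?_⟩, ?_, hd0, hnear, ?_, ?_, ?_, ?_, ?_, ?_, ?_, ?_⟩
  · intro F hF z
    exact (gmx_nonneg h hF.diff hF.mem a₀ z).trans (le_mx (fun a => ext0 (T a) (g a) F z) a₀)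
  · intro F hF z t ht
    have h1 := mx_lt.1 ht
    have h2 : ∀ a, ∀ᶠ w in 𝓝 z, ext0 (T a) (g a) F w < t := by
      intro a
      have h3 := h1 a
      by_cases ho : ∃ w, F w ∉ T a
      · rw [ext0_pos ho] at h3
        filter_upwards [(h a).en.usc F (hent hF ho) z t h3] with w hw
        rw [ext0_pos ho]
        exact hw
      · rw [ext0_neg ho] at h3
        exact Eventually.of_forall fun w => by rw [ext0_neg ho]; exact h3
    filter_upwards [eventually_all.2 h2] with w hw using mx_lt.2 hw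
  · intro F hF a b ha z
    show mx (fun c => ext0 (T c) (g c) (fun w => F (a * w + b)) z) = ‖a‖ * mx fun c => ext0 (T c) (g c) F (a * z + b)
    rw [← mx_mul (norm_nonneg a)]
    congr 1
    funext c
    by_cases ho : ∃ w, F w ∉ T c
    · have ho' : ∃ w, (fun w => F (a * w + b)) w ∉ T c := by
        obtain ⟨w, hw⟩ := ho
        refine ⟨(w - b) / a, ?_⟩
        show F (a * ((w - b) / a) + b) ∉ T c
        rw [mul_div_cancel₀ _ ha, sub_add_cancel]
        exact hw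
      rw [ext0_pos ho, ext0_pos ho']
      exact (h c).en.aff F (hent hF ho) a b ha z
    · have ho' : ¬ ∃ w, (fun w => F (a * w + b)) w ∉ T c := fun ⟨w, hw⟩ => ho ⟨_, hw⟩
      rw [ext0_neg ho, ext0_neg ho', mul_zero]
  · intro F hF u hu h0 z
    show mx (fun c => ext0 (T c) (g c) (fun w => u w • F w) z) = mx fun c => ext0 (T c) (g c) F z
    congr 1
    funext c
    by_cases ho : ∃ w, F w ∉ T c
    · have ho' : ∃ w, (fun w => u w • F w) w ∉ T c := by
        obtain ⟨w, hw⟩ := ho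
        refine ⟨w, fun h1 => hw ?_⟩
        have h2 := (h c).Ts _ h1 (u w)⁻¹ (inv_ne_zero (h0 w))
        rwa [smul_smul, inv_mul_cancel₀ (h0 w), one_smul] at h2
      rw [ext0_pos ho, ext0_pos ho']
      exact (h c).en.unit F (hent hF ho) u hu h0 z
    · have ho' : ¬ ∃ w, (fun w => u w • F w) w ∉ T c := by
        rintro ⟨w, hw⟩
        refine ho ⟨w, fun h1 => hw ((h c).Ts _ h1 _ (h0 w))⟩
      rw [ext0_neg ho, ext0_neg ho']
  · intro F hF z hg
    obtain ⟨a, ha⟩ := exists_mx fun a => ext0 (T a) (g a) F z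
    have ha' : gmx T g F z = ext0 (T a) (g a) F z := ha
    have hp : 0 < ext0 (T a) (g a) F z := ha' ▸ hg
    have ho := hpos hp
    rw [ext0_pos ho] at hp ha'
    refine hSub hF (by rw [ha', ext0_pos ho]) ho ((h a).en.sub F (hent hF ho) z hp) ?_
    rw [ha']
    exact neg_le_neg (mul_le_mul_of_nonneg_right (hCC a) (sq_nonneg _))
  · intro F hF z
    have hg0 : 0 ≤ gmx T g F z := (gmx_nonneg h hF.diff hF.mem a₀ z).trans (le_mx (fun a => ext0 (T a) (g a) F z) a₀)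
    obtain ⟨a, ha⟩ := exists_mx fun a => rho a (F z)
    show ∃ t : ℂ, (mx fun a => rho a (F z)) ^ M' * ‖deriv F z - t • F z‖ ≤ C' * ‖F z‖ * gmx T g F z
    rw [ha]
    have hr0 := (h a).rho0 (F z) (hKX (hF.mem z))
    by_cases ho : ∃ w, F w ∉ T a
    · obtain ⟨t, ht⟩ := (h a).en.lower F (hent hF ho) z
      refine ⟨t, ?_⟩
      have h1 : rho a (F z) ^ M' ≤ B' ^ M' * rho a (F z) ^ M a := by
        obtain ⟨k, hk⟩ := Nat.exists_eq_add_of_le (hMM a)
        rw [hk, pow_add, mul_comm (rho a (F z) ^ M a)]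
        refine mul_le_mul_of_nonneg_right ?_ (pow_nonneg hr0 _)
        calc rho a (F z) ^ k ≤ B' ^ k := pow_le_pow_left₀ hr0 (hBB a _ (hKX (hF.mem z))) k
          _ ≤ B' ^ (M a + k) := pow_le_pow_right₀ hB1 (Nat.le_add_left _ _)
      have h2 : g a F z ≤ gmx T g F z := by
        rw [← ext0_pos ho z (g := g a)]
        exact le_mx (fun a => ext0 (T a) (g a) F z) a
      have h3 : 0 ≤ g a F z := (h a).en.nonneg F (hent hF ho) z
      calc rho a (F z) ^ M' * ‖deriv F z - t • F z‖ ≤ B' ^ M' * rho a (F z) ^ M a * ‖deriv F z - t • F z‖ :=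
            mul_le_mul_of_nonneg_right h1 (norm_nonneg _)
        _ = B' ^ M' * (rho a (F z) ^ M a * ‖deriv F z - t • F z‖) := by ring
        _ ≤ B' ^ M' * (C a * ‖F z‖ * g a F z) := mul_le_mul_of_nonneg_left ht (by positivity)
        _ ≤ B' ^ M' * ((∑ a, C a) * ‖F z‖ * gmx T g F z) := by
            have := hCa a
            gcongr
        _ = C' * ‖F z‖ * gmx T g F z := by rw [hC']; ring
    · have h1 : rho a (F z) = 0 := ((h a).rhoT (F z) (hKX (hF.mem z))).2 (not_not.1 (not_exists.1 ho z))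
      refine ⟨0, ?_⟩
      rw [h1, zero_pow (by have := (h a).one_M; have := hMM a; omega), zero_mul]
      positivity
  · intro l hl r A' ε hr hε F H hF hA hB hc hH
    obtain ⟨𝒰, a, h1, h2, h3, h4⟩ := hlim l hl r A' ε hr hε F H hF hA hB hc
    obtain ⟨⟨z, hz, hzT⟩, h6⟩ := (h a).en.lim 𝒰 inferInstance r A' ε hr hε F H h1 h2 h3 h4 hH
    exact ⟨⟨z, hz, fun h7 => hzT (Set.mem_iInter.1 h7 a)⟩, h6⟩
  · intro l hl r A' ε hr hε F H hF hA hB hc hH
    obtain ⟨𝒰, a, h1, h2, h3, h4⟩ := hlim l hl r A' ε hr hε F H hF hA hB hc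
    exact (h a).en.bdy 𝒰 inferInstance r A' ε hr hε F H h1 h2 h3 h4 hH
  · exact (h a₀).one_M.trans (hMM a₀)
  · exact fun x hx => (h a₀).TX (Set.mem_iInter.1 hx a₀)
  · exact fun x hx c hc => Set.mem_iInter.2 fun a => (h a).Ts x (Set.mem_iInter.1 hx a) c hc
  · exact fun x hx hxK => Set.mem_iInter.2 fun a => (h a).KT x hx hxK
  · exact fun x hx => ((h a₀).rho0 x hx).trans (le_mx (fun a => rho a x) a₀)
  · intro x hx
    constructor
    · intro h1
      refine Set.mem_iInter.2 fun a => ((h a).rhoT x hx).1 (le_antisymm ?_ ((h a).rho0 x hx))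
      rw [← h1]
      exact le_mx (fun a => rho a x) a
    · intro h1
      show mx (fun a => rho a x) = 0
      obtain ⟨a, ha⟩ := exists_mx fun a => rho a x
      rw [ha]
      exact ((h a).rhoT x hx).2 (Set.mem_iInter.1 h1 a)
  · exact ContinuousOn.finset_sup'_apply _ fun a _ => (h a).rhoc
  · intro x hx c hc
    show mx (fun a => rho a (c • x)) = mx fun a => rho a x
    congr 1
    funext a
    exact (h a).rhos x hx c hc
  · intro F hF hFX ho z₀
    obtain ⟨a, z, hz⟩ := hout ho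
    filter_upwards [(h a).Ti F hF hFX ⟨z, hz⟩ z₀] with w hw h1 using hw (Set.mem_iInter.1 h1 a)

end Pool.Agent.SR3
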