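import Pool.Agent.SDA.E1
import Pool.Agent.SDA.EP
import Pool.Agent.SR3.MMax
import Pool.Agent.H90.SG.Poly
import Pool.Agent.SY.F1G

/-!
# SR3 MetF: the metric which is given by sections of `m (K_X + D) - j H`
-/

set_option autoImplicit false

open Topology Filter Metric MvPolynomial

noncomputable section

namespace Pool.Agent.SR3

open Pool.Agent.H36.BP (EN fs Sub isCone_transport)
open Pool.Agent.H14.PP (IsCone)
open Pool.Agent.H17BP (Surface IsForm NoZeros IsChart)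
open Pool.Agent.H62.FC (Homog)
open Pool.Agent.H17LG.Variety (FunField)
open Pool.Agent.H17EF (coneE LE)
open Pool.Agent.H13.SM (conTan cone)
open Pool.Agent.H22.WL (evF evF_diff evF_smul)
open Pool.Agent.H36.BPL (OpenPart PoleLE coneK affProper_coneK isForm_pow_mul eval_prod_ne)
open Pool.Agent.SDA (openCone ModelL enU_of_model energyK_of_enU E1_an EnergyK)

variable {N k : ℕ} {P : Ideal (MvPolynomial (Fin (N + 1)) ℂ)} {H : Fin k → MvPolynomial (Fin (N + 1)) ℂ} {e : Fin k → ℕ}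

/-- the open part -/
theorem openPart_openCone (hX : ∀ x ∈ coneE P, ∀ c : ℂ, c ≠ 0 → c • x ∈ coneE P) (hH : ∀ i, (H i).IsHomogeneous (e i)) :
    OpenPart (coneE P) (openCone P H) where
  sub _ hx := hx.1
  smul x hx c hc := by
    refine ⟨hX x hx.1 c hc, fun i => ?_⟩
    have h1 := evF_smul (hH i) c x
    unfold evF at h1
    rw [h1]
    exact mul_ne_zero (pow_ne_zero _ hc) (hx.2 i)
  eqn x _ := ⟨fun y => eval y.ofLp (∏ i, H i), E1_an _ x, Filter.Eventually.of_forall fun y hy => by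
    constructor
    · intro h
      by_contra h2
      exact h ⟨hy, eval_prod_ne.1 h2⟩
    · intro h h2
      exact eval_prod_ne.2 h2.2 h⟩

/-- **The metric** which is given by a section `Ω` of `m (K_X + D) - j H` without zeros outside the curve `T = {Q = 0}`, which contains `D`. -/
theorem metD_form [P.IsPrime] {z : Fin 2 → FunField P} (hP : Homog P) (hz : IsTranscendenceBasis ℂ z)
    (hsm : ∀ y : Fin (N + 1) → ℂ, y ≠ 0 → (∀ Q ∈ P, eval y Q = 0) → Module.finrank ℂ (conTan P y) ≤ 3)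
    (hH : ∀ i, (H i).IsHomogeneous (e i)) {m j : ℕ} (hm : 1 ≤ m) (hj : 1 ≤ j) {Ω : EN N → EN N → EN N → ℂ}
    (hΩ : IsForm (openCone P H) m j Ω) (hpole : PoleLE (coneE P) (openCone P H) m Ω) {Q : MvPolynomial (Fin (N + 1)) ℂ} {D : ℕ} (hD : 1 ≤ D)
    (hQ : Q.IsHomogeneous D) (hQP : Q ∉ P) (hHQ : ∀ (i : Fin k), ∀ x ∈ coneE P, eval x.ofLp (H i) = 0 → eval x.ofLp Q = 0)
    (hnz : NoZeros (openCone P H) {x | x ∈ coneE P ∧ eval x.ofLp Q = 0} Ω) :
    ∃ (M : ℕ) (c₀ C δ : ℝ) (g : (ℂ → EN N) → ℂ → ℝ),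
      MetD (coneE P) (openCone P H) {x | x ∈ coneE P ∧ eval x.ofLp Q = 0} (fun x => ‖eval x.ofLp Q‖ / ‖x‖ ^ D) M c₀ C δ g := by
  have hS : Surface (coneE P) := Pool.Agent.H90.SG.surface_coneE hP hz hsm
  have hS₀ : Surface (cone P) := Pool.Agent.H13.SM.surface_cone hP hz fun y hy => hsm y hy.1 hy.2
  have hX : IsCone (coneE P) := isCone_transport (LE N) hS₀
  have hopn := openPart_openCone hX.smul_mem hH
  have hnot : ∀ x ∈ coneE P, x ∉ openCone P H → eval x.ofLp (∏ i, H i) = 0 := by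
    intro x hx hxK
    by_contra h
    exact hxK ⟨hx, eval_prod_ne.1 h⟩
  have hKT : ∀ x ∈ coneE P, x ∉ openCone P H → x ∈ {x | x ∈ coneE P ∧ eval x.ofLp Q = 0} := by
    intro x hx hxK
    refine ⟨hx, ?_⟩
    by_contra h
    exact hxK ⟨hx, fun i hi => h (hHQ i x hx hi)⟩
  have hprod : (∏ i, H i).IsHomogeneous (∑ i, e i) := IsHomogeneous.prod _ _ _ fun i _ => hH i
  have hd0 : ∑ i, e i + 1 ≤ j * (∑ i, e i + 1) := Nat.le_mul_of_pos_left _ hj
  have hd : ∑ i, e i ≤ j * (∑ i, e i + 1) := by omega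
  have hd' : 1 ≤ j * (∑ i, e i + 1) - ∑ i, e i := by omega
  have hmodel : ModelL (coneE P) (openCone P H) {x | x ∈ coneE P ∧ eval x.ofLp Q = 0} (m * (∑ i, e i + 1)) (j * (∑ i, e i + 1) - ∑ i, e i)
      (fun x v w => eval x.ofLp (∏ i, H i) * Ω x v w ^ (∑ i, e i + 1)) (fun (_ : Unit) (x : EN N) => eval x.ofLp Q) D :=
    { surf := hS
      opn := hopn
      aff := ⟨_, _, Pool.Agent.H36.BPL.affProper_transport (LE N) (affProper_coneK (P := P) hH)⟩
      sub := hKT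
      one_m := Nat.mul_pos hm (Nat.succ_pos _)
      one_j := hd'
      form := isForm_pow_mul hd hΩ (H := fun x : EN N => eval x.ofLp (∏ i, H i)) (fun x => E1_an _ x) (fun c x => evF_smul hprod c x) hopn.smul
      noZeros := fun x hx hxT v hv w hw hi => mul_ne_zero (eval_prod_ne.2 hx.2) (pow_ne_zero _ (hnz x hx hxT v hv w hw hi))
      pole := PoleLE.pow_mul hm (Nat.succ_pos _) hpole (H := fun x : EN N => eval x.ofLp (∏ i, H i)) (fun x => E1_an _ x) hnot
      eqs := Pool.Agent.H90.SG.eqs_coneE hD hQ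
      thin := fun σ τ h => (Pool.Agent.H90.SG.thin_coneE hP hz hsm hQ hQP h).mono fun p hp hpB => hp hpB.2 }
  obtain ⟨M, c₀, C, δ₀, g, hM, E⟩ := enU_of_model hmodel (ContinuousLinearEquiv.refl ℂ (EN N))
  have hrho : Pool.Agent.H14.KB.rhoS (fun (_ : Unit) (x : EN N) => eval x.ofLp Q) D = fun x => ‖eval x.ofLp Q‖ / ‖x‖ ^ D := by
    funext x
    unfold Pool.Agent.H14.KB.rhoS
    rw [pi_norm_const]
  rw [hrho] at E
  have EK : EnergyK (coneE P) (openCone P H) {x | x ∈ coneE P ∧ eval x.ofLp Q = 0} (fun x => ‖x‖) (fun x => ‖eval x.ofLp Q‖ / ‖x‖ ^ D) M c₀ C g :=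
    energyK_of_enU hX hopn.sub hopn.smul hKT (Pool.Agent.H36.BPL.affProper_transport (LE N) (affProper_coneK (P := P) hH)) E
  obtain ⟨δ, hδ, hnear⟩ := EK.near
  refine ⟨M, c₀, C, δ, g, ?_⟩
  obtain ⟨T, hT⟩ : ∃ T : Set (EN N), T = {x | x ∈ coneE P ∧ eval x.ofLp Q = 0} := ⟨_, rfl⟩
  rw [← hT] at EK hnear hKT ⊢
  have hxne : ∀ x ∈ coneE P, ‖x‖ ≠ 0 := fun x hx => norm_ne_zero_iff.2 fun h => hX.zero_notMem (h ▸ hx)
  have hmemT : ∀ x, x ∈ T ↔ x ∈ coneE P ∧ eval x.ofLp Q = 0 := fun x => by rw [hT]; rfl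
  refine
    { en := EK
      one_M := hM
      pos := hδ
      near := hnear
      TX := fun x hx => ((hmemT x).1 hx).1
      Ts := ?_
      KT := hKT
      rho0 := fun x _ => by positivity
      rhoT := ?_
      rhoc := ?_
      rhos := ?_
      Ti := ?_ }
  · intro x hx c hc
    rw [hmemT] at hx ⊢
    refine ⟨hX.smul_mem x hx.1 c hc, ?_⟩
    have h1 := evF_smul hQ c x
    unfold evF at h1
    rw [h1, hx.2, mul_zero]
  · intro x hx
    rw [hmemT]
    have h2 : ‖x‖ ^ D ≠ 0 := pow_ne_zero _ (hxne x hx)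
    constructor
    · intro h
      rw [div_eq_zero_iff] at h
      rcases h with h | h
      · exact ⟨hx, norm_eq_zero.1 h⟩
      · exact absurd h h2
    · rintro ⟨-, h⟩
      simp only [h, norm_zero, zero_div]
  · refine ContinuousOn.div ?_ (continuous_norm.pow D).continuousOn fun x hx => pow_ne_zero _ (hxne x hx)
    exact (evF_diff Q).continuous.norm.continuousOn
  · intro x _ c hc
    have h1 := evF_smul hQ c x
    unfold evF at h1
    simp only
    rw [h1, norm_mul, norm_pow, norm_smul, mul_pow]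
    exact mul_div_mul_left _ _ (pow_ne_zero _ (norm_ne_zero_iff.2 hc))
  · intro F hF hFX hne z₀
    have h1 : Differentiable ℂ fun z => evF Q (F z) := (evF_diff Q).comp hF
    have h2 : AnalyticAt ℂ (fun z => evF Q (F z)) z₀ := h1.analyticAt z₀
    rcases h2.eventually_eq_zero_or_eventually_ne_zero with h3 | h3
    · exfalso
      have h4 : AnalyticOnNhd ℂ (fun z => evF Q (F z)) Set.univ := fun z _ => h1.analyticAt z
      have h5 := h4.eqOn_zero_of_preconnected_of_eventuallyEq_zero isPreconnected_univ (Set.mem_univ z₀) h3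
      obtain ⟨z, hz⟩ := hne
      apply hz
      rw [hmemT]
      exact ⟨hFX z, h5 (Set.mem_univ z)⟩
    · filter_upwards [h3] with z hz hzT
      rw [hmemT] at hzT
      exact hz hzT.2

/-- **The metric of a family.**  `Ω a` are sections of `m (K_X + D) - j H`, `Ω a` without zeros outside the curve `{Q a = 0}`; `R b` are forms.  There
is a metric for the set `T` of the points of `X` where all `R b * Q a` vanish. -/
theorem exists_metD [P.IsPrime] {z : Fin 2 → FunField P} (hP : Homog P) (hz : IsTranscendenceBasis ℂ z)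
    (hsm : ∀ y : Fin (N + 1) → ℂ, y ≠ 0 → (∀ Q ∈ P, eval y Q = 0) → Module.finrank ℂ (conTan P y) ≤ 3)
    (hH : ∀ i, (H i).IsHomogeneous (e i)) {m j : ℕ} (hm : 1 ≤ m) (hj : 1 ≤ j) {A : Type} [Fintype A] [Nonempty A]
    {Ω : A → EN N → EN N → EN N → ℂ} (hΩ : ∀ a, IsForm (openCone P H) m j (Ω a)) (hpole : ∀ a, PoleLE (coneE P) (openCone P H) m (Ω a))
    {Q : A → MvPolynomial (Fin (N + 1)) ℂ} {D : A → ℕ} (hD : ∀ a, 1 ≤ D a) (hQ : ∀ a, (Q a).IsHomogeneous (D a)) (hQP : ∀ a, Q a ∉ P)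
    (hHQ : ∀ a (i : Fin k), ∀ x ∈ coneE P, eval x.ofLp (H i) = 0 → eval x.ofLp (Q a) = 0)
    (hnz : ∀ a, NoZeros (openCone P H) {x | x ∈ coneE P ∧ eval x.ofLp (Q a) = 0} (Ω a)) :
    ∃ (M : ℕ) (c₀ C δ : ℝ) (g : (ℂ → EN N) → ℂ → ℝ),
      MetD (coneE P) (openCone P H) {x | x ∈ coneE P ∧ ∀ a, eval x.ofLp (Q a) = 0} (fun x => mx fun a => ‖eval x.ofLp (Q a)‖ / ‖x‖ ^ D a)
        M c₀ C δ g := by
  have hS₀ : Surface (cone P) := Pool.Agent.H13.SM.surface_cone hP hz fun y hy => hsm y hy.1 hy.2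
  have hX : IsCone (coneE P) := isCone_transport (LE N) hS₀
  choose M c₀ C δ g h using fun a => metD_form hP hz hsm hH hm hj (hΩ a) (hpole a) (hD a) (hQ a) (hQP a) (hHQ a) (hnz a)
  obtain ⟨M', c', C', δ', h'⟩ := MetD.max hX (fun x hx => hx.1) h
  have hT : (⋂ a, {x : EN N | x ∈ coneE P ∧ eval x.ofLp (Q a) = 0}) = {x | x ∈ coneE P ∧ ∀ a, eval x.ofLp (Q a) = 0} := by
    ext x
    simp only [Set.mem_iInter, Set.mem_ofPred_eq]
    exact ⟨fun h => ⟨(h (Classical.arbitrary A)).1, fun a => (h a).2⟩, fun h a => ⟨h.1, h.2 a⟩⟩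
  rw [hT] at h'
  exact ⟨M', c', C', δ', _, h'⟩

end Pool.Agent.SR3
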