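import Pool.Agent.SR3.MetF
import Pool.Agent.SR3.HDefs3
import Pool.Agent.AD.T.NCDefs

/-!
# SR3 MetG: the first metric, for the curve of the null curves and the boundary
-/

set_option autoImplicit false

open Topology Filter Metric MvPolynomial

noncomputable section

namespace Pool.Agent.SR3

open Pool.Agent.H36.BP (EN fs Sub)
open Pool.Agent.H17BP (Surface IsForm NoZeros IsChart)
open Pool.Agent.H14.KB (rhoS)
open Pool.Agent.H14.PP (IsCone)
open Pool.Agent.H62.FC (Homog)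
open Pool.Agent.H17LG.Variety (FunField)
open Pool.Agent.H17EF (coneE projVar LE)
open Pool.Agent.H13.SM (cone)
open Pool.Agent.AD.NC (IsSmooth)
open Pool.Agent.SDA (openCone EnergyK Near)

variable {N : ℕ} {P : Ideal (MvPolynomial (Fin (N + 1)) ℂ)} {H : MvPolynomial (Fin (N + 1)) ℂ} {h : ℕ}

/-- only the values of `rho` on `X` matter -/
theorem MetD.congr {X K T : Set (EN N)} {rho rho' : EN N → ℝ} {M : ℕ} {c₀ C δ : ℝ} {g : (ℂ → EN N) → ℂ → ℝ} (hX : IsCone X) (hKX : K ⊆ X)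
    (h : MetD X K T rho M c₀ C δ g) (he : ∀ x ∈ X, rho x = rho' x) : MetD X K T rho' M c₀ C δ g := by
  have hn : Near K T (fun x => ‖x‖) rho' c₀ g δ := fun F hF z hz hg => h.near F hF z (by rwa [he _ (hKX (hF.mem z))]) hg
  exact
    { en :=
        { c₀_pos := h.en.c₀_pos
          C_pos := h.en.C_pos
          nonneg := h.en.nonneg
          usc := h.en.usc
          aff := h.en.aff
          unit := h.en.unit
          sub := h.en.sub
          lower := fun F hF z => by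
            rw [← he _ (hKX (hF.mem z))]
            exact h.en.lower F hF z
          lim := h.en.lim
          near := ⟨δ, h.pos, hn⟩
          bdy := h.en.bdy }
      one_M := h.one_M
      pos := h.pos
      near := hn
      TX := h.TX
      Ts := h.Ts
      KT := h.KT
      rho0 := fun x hx => by rw [← he x hx]; exact h.rho0 x hx
      rhoT := fun x hx => by rw [← he x hx]; exact h.rhoT x hx
      rhoc := h.rhoc.congr fun x hx => (he x hx).symm
      rhos := fun x hx c hc => by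
        rw [← he x hx, ← he _ (hX.smul_mem x hx c hc)]
        exact h.rhos x hx c hc
      Ti := h.Ti }

/-- **The first metric.** -/
theorem exists_metD_family [P.IsPrime] {z : Fin 2 → FunField P} (hP : Homog P) (hz : IsTranscendenceBasis ℂ z) (hsm : IsSmooth P 2)
    (hH : H.IsHomogeneous h) (h1 : 1 ≤ h) (hHP : H ∉ P) {mΩ jΩ r t D₁ D₂ : ℕ} {Ω : Fin r → EN N → EN N → EN N → ℂ}
    {Q : Fin r → MvPolynomial (Fin (N + 1)) ℂ} (hΩ : LogForms P H mΩ jΩ Ω Q) (hQ : ∀ a, (Q a).IsHomogeneous D₂)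
    {R : Fin t → MvPolynomial (Fin (N + 1)) ℂ} (hR : ∀ l, (R l).IsHomogeneous D₁) (hRP : ∃ l, R l ∉ P) (hcov : ZeroCover P H Q R) :
    ∃ (M' : ℕ) (c₀ C δ : ℝ) (g : (ℂ → EN N) → ℂ → ℝ),
      MetD (coneE P) (oc P H) {x | x ∈ coneE P ∧ ∀ a, eqT H R Q a x = 0} (rhoS (eqT H R Q) (D₁ + D₂ + h)) M' c₀ C δ g := by
  classical
  have hPp : P.IsPrime := inferInstance
  have hS₀ : Surface (cone P) := Pool.Agent.H13.SM.surface_cone hP hz fun y hy => hsm y hy.1 hy.2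
  have hX : IsCone (coneE P) := Pool.Agent.H36.BP.isCone_transport (LE N) hS₀
  have hzero : ∀ {W : MvPolynomial (Fin (N + 1)) ℂ}, W ∈ P → ∀ x ∈ coneE P, eval x.ofLp W = 0 := fun hW x hx => hx.2 _ hW
  -- the indices
  obtain ⟨l, hl⟩ := hRP
  have hne : ∃ a, Q a ∉ P := by
    obtain ⟨i, hi⟩ := Pool.Agent.H92.GT.Proj.exists_coordFun_ne_zero P z hz
    have hRH : R l * H ∉ P := fun h2 => (hPp.mem_or_mem h2).elim hl hHP
    obtain ⟨y, hy, hyH⟩ := Pool.Agent.H17EF.exists_point hP ⟨i, Pool.Agent.H17R.coordFun_ne_zero_iff.1 hi⟩ hRH ((hR l).mul hH)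
    have hyc : y.rep ∈ cone P := (Pool.Agent.H17EF.mk_mem_projVar hP y.rep_nonzero).1 (by rwa [Projectivization.mk_rep])
    have hyR : eval y.rep (R l) * eval y.rep H ≠ 0 := by
      rw [← map_mul]
      exact hyH
    have hyE : (WithLp.toLp 2 y.rep : EN N) ∈ oc P H := ⟨hyc, fun _ => right_ne_zero_of_mul hyR⟩
    by_contra hcon
    push Not at hcon
    exact left_ne_zero_of_mul hyR (hcov _ hyE (fun a => hzero (hcon a) _ hyE.1) l)
  obtain ⟨a₀, ha₀⟩ := hne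
  have hmul : ∀ {a b c : MvPolynomial (Fin (N + 1)) ℂ}, a ∉ P → b ∉ P → c ∉ P → a * b * c ∉ P := by
    intro a b c ha hb hc hm
    rcases hPp.mem_or_mem hm with hm | hm
    · rcases hPp.mem_or_mem hm with hm | hm
      · exact ha hm
      · exact hb hm
    · exact hc hm
  set A : Type := {a : Fin t × Fin r // R a.1 * Q a.2 * H ∉ P} with hA
  have : Nonempty A := ⟨⟨(l, a₀), hmul hl ha₀ hHP⟩⟩
  have hprod : ∀ x : EN N, ∀ a : Fin t × Fin r, eval x.ofLp (R a.1 * Q a.2 * H) = eval x.ofLp (R a.1) * eval x.ofLp (Q a.2) * eval x.ofLp H :=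
    fun x a => by rw [map_mul, map_mul]
  obtain ⟨M', c₀, C, δ, g, E⟩ := exists_metD (P := P) (H := fun _ : Fin 1 => H) (e := fun _ => h) hP hz hsm (fun _ => hH) hΩ.one_m hΩ.one_j
    (A := A) (Ω := fun a => Ω a.1.2) (fun a => hΩ.form a.1.2) (fun a => (hΩ.pole a.1.2).mono (Nat.sub_le _ _))
    (Q := fun a => R a.1.1 * Q a.1.2 * H) (D := fun _ => D₁ + D₂ + h) (fun _ => by omega)
    (fun a => ((hR a.1.1).mul (hQ a.1.2)).mul hH) (fun a => a.2)
    (fun a _ x _ hx => by rw [hprod, hx, mul_zero])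
    (fun a x hx hxT v hv w hw hi => hΩ.noZeros a.1.2 x hx (fun h0 => hxT ⟨hx.1, by
      have h0' : eval x.ofLp (Q a.1.2) = 0 := h0
      rw [hprod, h0', mul_zero, zero_mul]⟩) v hv w hw hi)
  have hT : {x : EN N | x ∈ coneE P ∧ ∀ a : A, eval x.ofLp (R a.1.1 * Q a.1.2 * H) = 0} = {x | x ∈ coneE P ∧ ∀ a, eqT H R Q a x = 0} := by
    ext x
    constructor
    · rintro ⟨hx, h2⟩
      refine ⟨hx, fun a => ?_⟩
      by_cases ha : R a.1 * Q a.2 * H ∈ P
      · exact hzero ha x hx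
      · exact h2 ⟨a, ha⟩
    · rintro ⟨hx, h2⟩
      exact ⟨hx, fun a => h2 a.1⟩
  rw [hT] at E
  refine ⟨M', c₀, C, δ, g, E.congr hX (fun x hx => hx.1) fun x hx => ?_⟩
  have hx0 : 0 < ‖x‖ ^ (D₁ + D₂ + h) := pow_pos (norm_pos_iff.2 fun h0 => hX.zero_notMem (h0 ▸ hx)) _
  unfold rhoS
  apply le_antisymm
  · refine mx_le.2 fun a => ?_
    refine div_le_div_of_nonneg_right ?_ hx0.le
    exact norm_le_pi_norm (fun i => eqT H R Q i x) a.1
  · rw [div_le_iff₀ hx0]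
    have hnn : 0 ≤ mx fun a : A => ‖eval x.ofLp (R a.1.1 * Q a.1.2 * H)‖ / ‖x‖ ^ (D₁ + D₂ + h) :=
      (div_nonneg (norm_nonneg _) hx0.le).trans (le_mx (fun a : A => ‖eval x.ofLp (R a.1.1 * Q a.1.2 * H)‖ / ‖x‖ ^ (D₁ + D₂ + h)) (Classical.arbitrary A))
    rw [pi_norm_le_iff_of_nonneg (mul_nonneg hnn hx0.le)]
    intro a
    by_cases ha : R a.1 * Q a.2 * H ∈ P
    · have h0 : eqT H R Q a x = 0 := hzero ha x hx
      rw [h0, norm_zero]
      exact mul_nonneg hnn hx0.le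
    · rw [← div_le_iff₀ hx0]
      exact le_mx (fun a : A => ‖eval x.ofLp (R a.1.1 * Q a.1.2 * H)‖ / ‖x‖ ^ (D₁ + D₂ + h)) ⟨a, ha⟩

/-- MODULE H6: the maximum of the metrics of the curves `{R l * Q a * H = 0}` -/
theorem exists_metric_family [P.IsPrime] {z : Fin 2 → FunField P} (hP : Homog P) (hz : IsTranscendenceBasis ℂ z) (hsm : IsSmooth P 2)
    (hH : H.IsHomogeneous h) (h1 : 1 ≤ h) (hHP : H ∉ P) {mΩ jΩ r t D₁ D₂ : ℕ} {Ω : Fin r → EN N → EN N → EN N → ℂ}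
    {Q : Fin r → MvPolynomial (Fin (N + 1)) ℂ} (hΩ : LogForms P H mΩ jΩ Ω Q) (hQ : ∀ a, (Q a).IsHomogeneous D₂)
    {R : Fin t → MvPolynomial (Fin (N + 1)) ℂ} (hR : ∀ l, (R l).IsHomogeneous D₁) (hRP : ∃ l, R l ∉ P) (hcov : ZeroCover P H Q R) :
    ∃ (M' : ℕ) (c₀ C δ : ℝ) (g : (ℂ → EN N) → ℂ → ℝ), 0 < δ ∧
      EnergyK (coneE P) (oc P H) {x | x ∈ coneE P ∧ ∀ a, eqT H R Q a x = 0} (fun x => ‖x‖) (rhoS (eqT H R Q) (D₁ + D₂ + h)) M' c₀ C g ∧
      Near (oc P H) {x | x ∈ coneE P ∧ ∀ a, eqT H R Q a x = 0} (fun x => ‖x‖) (rhoS (eqT H R Q) (D₁ + D₂ + h)) c₀ g δ := by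
  obtain ⟨M', c₀, C, δ, g, E⟩ := exists_metD_family hP hz hsm hH h1 hHP hΩ hQ hR hRP hcov
  exact ⟨M', c₀, C, δ, g, E.pos, E.en, E.near⟩

end Pool.Agent.SR3
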