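import Pool.Agent.SDR.Qn
import Pool.Agent.SR3.HDefs2
import Pool.Agent.H14.KB.Kob
import Pool.Agent.AD.P.Bridge
import Pool.Agent.H90.SG.Poly
import Pool.Agent.H90.SG.CoNe

/-!
# SR3 Qnl: the curve `Z` is null in a quantitative sense (MODULE H5)

`SDR.disc_null` for the polynomial of `θ j` and the family of the generators of `P` and the `R l`.
-/

set_option autoImplicit false

open Topology Filter Metric MvPolynomial

noncomputable section

namespace Pool.Agent.SR3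

open Pool.Agent.H36.BP (EN fs wd wd_sq wd_le fs_nonneg)
open Pool.Agent.H17BP (Surface IsChart IsForm NoZeros)
open Pool.Agent.H14.PP (IsCone Tan CurveAt)
open Pool.Agent.H14.KB (rhoS)
open Pool.Agent.H17 (PN VanishesAt HolomorphicInto)
open Pool.Agent.H62.FC (Homog)
open Pool.Agent.H17LG.Variety (FunField)
open Pool.Agent.H17EF (projVar coneE LE)
open Pool.Agent.H13.SM (conTan cone Inv_hasFDerivAt_eval)
open Pool.Agent.AD (SymDiff TangentTo)
open Pool.Agent.AD.NC (IsSmooth)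
open Pool.Agent.SDA (openCone)
open Pool.Agent.SDR (pv disc_null)

variable {N k M : ℕ} {P : Ideal (MvPolynomial (Fin (N + 1)) ℂ)}

/-- the Zariski tangent vectors of the cone of a smooth surface are tangent vectors -/
theorem tan_of_conTan [P.IsPrime] {z : Fin 2 → FunField P} (hP : Homog P) (hz : IsTranscendenceBasis ℂ z) (hsm : IsSmooth P 2) {x v : EN N}
    (hx : x ∈ coneE P) (hv : (LE N).symm v ∈ conTan P ((LE N).symm x)) : Tan (coneE P) x v := by
  have hX : Surface (coneE P) := Pool.Agent.H90.SG.surface_coneE hP hz hsm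
  obtain ⟨σ, τ, hσ, hσ0⟩ := hX.chart x hx
  have hli := (Pool.Agent.H90.SG.linInd_chart hσ).self_of_nhds
  -- curves
  have hcurve : ∀ (a : ℂ) (w : ℂ × ℂ), Tan (coneE P) x (fderiv ℂ σ 0 w + a • x) := by
    intro a w
    have hg : HasDerivAt (fun z : ℂ => z • w) w 0 := by
      simpa using (hasDerivAt_id (0 : ℂ)).smul_const w
    have hσd : HasFDerivAt σ (fderiv ℂ σ 0) ((0 : ℂ) • w) := by
      rw [zero_smul]; exact hσ.σ_an.differentiableAt.hasFDerivAt
    have h1 : HasDerivAt (fun z : ℂ => σ (z • w)) (fderiv ℂ σ 0 w) 0 := hσd.comp_hasDerivAt (0 : ℂ) hg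
    have h2 : HasDerivAt (fun z : ℂ => 1 + a * z) a 0 := by
      simpa using ((hasDerivAt_id (0 : ℂ)).const_mul a).const_add 1
    have h3 := h2.smul h1
    refine ⟨fun z => (1 + a * z) • σ (z • w), ⟨?_, ?_⟩, ?_, ?_⟩
    · have e1 : AnalyticAt ℂ (fun z : ℂ => z • w) 0 := (analyticAt_id).smul analyticAt_const
      have e2 : AnalyticAt ℂ σ ((fun z : ℂ => z • w) 0) := by simpa using hσ.σ_an
      exact (analyticAt_const.add (analyticAt_const.mul analyticAt_id)).smul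
        (AnalyticAt.comp (g := σ) (f := fun z : ℂ => z • w) e2 e1)
    · have c1 : Tendsto (fun z : ℂ => z • w) (𝓝 0) (𝓝 0) := by
        have : Continuous fun z : ℂ => z • w := by fun_prop
        simpa using this.tendsto 0
      have c2 : ∀ᶠ z : ℂ in 𝓝 0, (1 + a * z) ≠ 0 := by
        have : ContinuousAt (fun z : ℂ => 1 + a * z) 0 := by fun_prop
        exact this.eventually_ne (by simp)
      filter_upwards [c1.eventually hσ.σ_mem, c2] with z hz1 hz2
      exact hX.smul _ hz1 _ hz2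
    · simp [hσ0]
    · have h4 : deriv (fun z => (1 + a * z) • σ (z • w)) 0 = (1 + a * 0) • (fderiv ℂ σ 0) w + a • σ ((0 : ℂ) • w) := h3.deriv
      rw [h4]
      simp [hσ0]
  -- the span
  have hmem : ∀ u : EN N, Tan (coneE P) x u → (LE N).symm u ∈ conTan P ((LE N).symm x) := fun u hu => Pool.Agent.AD.P.conTan_of_tan hu
  have hdim : Module.finrank ℂ (conTan P ((LE N).symm x)) ≤ 3 := hsm _ hx.1 hx.2
  set L : EN N →ₗ[ℂ] (Fin (N + 1) → ℂ) := ((LE N).symm : EN N →L[ℂ] (Fin (N + 1) → ℂ)).toLinearMap with hL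
  have hLi : Function.Injective L := (LE N).symm.injective
  set b : Fin 3 → (Fin (N + 1) → ℂ) := L ∘ ![σ 0, fderiv ℂ σ 0 (1, 0), fderiv ℂ σ 0 (0, 1)] with hb
  have hbli : LinearIndependent ℂ b := hli.map' L (LinearMap.ker_eq_bot.2 hLi)
  have hb0 : b 0 = (LE N).symm x := by
    change (LE N).symm (σ 0) = _
    rw [hσ0]
  have hb1 : b 1 = (LE N).symm (fderiv ℂ σ 0 (1, 0)) := rfl
  have hb2 : b 2 = (LE N).symm (fderiv ℂ σ 0 (0, 1)) := rfl
  have hbmem : ∀ i, b i ∈ conTan P ((LE N).symm x) := by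
    rw [Fin.forall_fin_succ, Fin.forall_fin_succ, Fin.forall_fin_succ]
    refine ⟨?_, ?_, ?_, fun i => i.elim0⟩
    · have := hmem _ (hcurve 1 0)
      simp only [map_zero, zero_add, one_smul] at this
      rw [hb0]; exact this
    · have := hmem _ (hcurve 0 (1, 0))
      simp only [zero_smul, add_zero] at this
      exact this
    · have := hmem _ (hcurve 0 (0, 1))
      simp only [zero_smul, add_zero] at this
      exact this
  have hspan : Submodule.span ℂ (Set.range b) = conTan P ((LE N).symm x) := by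
    apply Submodule.eq_of_le_of_finrank_le
    · rw [Submodule.span_le]
      rintro _ ⟨i, rfl⟩
      exact hbmem i
    · rw [finrank_span_eq_card hbli]
      simpa using hdim
  rw [← hspan, Submodule.mem_span_range_iff_exists_fun] at hv
  obtain ⟨c, hc⟩ := hv
  have h1 : v = fderiv ℂ σ 0 (c 1, c 2) + c 0 • x := by
    apply (LE N).symm.injective
    rw [← hc, Fin.sum_univ_three]
    have e1 : ((c 1, c 2) : ℂ × ℂ) = c 1 • (1, 0) + c 2 • (0, 1) := by simp
    rw [e1, hb0, hb1, hb2]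
    simp only [map_add, map_smul]
    abel
  rw [h1]
  exact hcurve _ _

private theorem tan_comb {X : Set (EN N)} (hX : ∀ x ∈ X, ∀ c : ℂ, c ≠ 0 → c • x ∈ X) {x v : EN N} (h : Tan X x v) (t a : ℂ) :
    Tan X x (t • v + a • x) := by
  obtain ⟨F, ⟨hF, hFX⟩, h0, h1⟩ := h
  have g1 : HasDerivAt (fun z : ℂ => t * z) t 0 := by simpa using (hasDerivAt_id (0 : ℂ)).const_mul t
  have g2 : HasDerivAt F v (t * 0) := by rw [mul_zero, ← h1]; exact hF.differentiableAt.hasDerivAt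
  have g3 : HasDerivAt (fun z : ℂ => F (t * z)) (t • v) 0 := HasDerivAt.scomp (0 : ℂ) g2 g1
  have g4 : HasDerivAt (fun z : ℂ => 1 + a * z) a 0 := by
    simpa using ((hasDerivAt_id (0 : ℂ)).const_mul a).const_add 1
  have g5 := g4.smul g3
  refine ⟨fun z => (1 + a * z) • F (t * z), ⟨?_, ?_⟩, ?_, ?_⟩
  · have e1 : AnalyticAt ℂ (fun z : ℂ => t * z) 0 := analyticAt_const.mul analyticAt_id
    have e2 : AnalyticAt ℂ F ((fun z : ℂ => t * z) 0) := by simpa using hF
    exact (analyticAt_const.add (analyticAt_const.mul analyticAt_id)).smul (AnalyticAt.comp (g := F) (f := fun z : ℂ => t * z) e2 e1)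
  · have c1 : Tendsto (fun z : ℂ => t * z) (𝓝 0) (𝓝 0) := by
      have : Continuous fun z : ℂ => t * z := by fun_prop
      simpa using this.tendsto 0
    have c2 : ∀ᶠ z : ℂ in 𝓝 0, (1 + a * z) ≠ 0 := by
      have : ContinuousAt (fun z : ℂ => 1 + a * z) 0 := by fun_prop
      exact this.eventually_ne (by simp)
    filter_upwards [c1.eventually hFX, c2] with z hz1 hz2
    exact hX _ hz1 _ hz2
  · simp [h0]
  · have h4 : deriv (fun z => (1 + a * z) • F (t * z)) 0 = (1 + a * 0) • (t • v) + a • F (t * 0) := g5.deriv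
    rw [h4]
    simp [h0]

private theorem fderiv_eval (Q : MvPolynomial (Fin (N + 1)) ℂ) (x v : EN N) :
    fderiv ℂ (fun y : EN N => eval y.ofLp Q) x v = ∑ i, v i * eval x.ofLp (pderiv i Q) := by
  have h1 : HasFDerivAt (fun y : EN N => y.ofLp) ((LE N).symm : EN N →L[ℂ] (Fin (N + 1) → ℂ)) x :=
    ((LE N).symm : EN N →L[ℂ] (Fin (N + 1) → ℂ)).hasFDerivAt
  have h2 := (Inv_hasFDerivAt_eval Q x.ofLp).comp x h1
  have h3 : HasFDerivAt (fun y : EN N => eval y.ofLp Q)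
      ((∑ i, eval x.ofLp (pderiv i Q) • (ContinuousLinearMap.proj i : (Fin (N + 1) → ℂ) →L[ℂ] ℂ)).comp
        ((LE N).symm : EN N →L[ℂ] (Fin (N + 1) → ℂ))) x := h2
  rw [h3.fderiv]
  have e : ((LE N).symm : EN N →L[ℂ] (Fin (N + 1) → ℂ)) v = v.ofLp := rfl
  rw [ContinuousLinearMap.comp_apply, e]
  simp only [sum_apply, FunLike.coe_smul, Pi.smul_apply, ContinuousLinearMap.proj_apply, smul_eq_mul]
  exact Finset.sum_congr rfl fun i _ => mul_comm _ _

private theorem cont_eval (Q : MvPolynomial (Fin (N + 1)) ℂ) : Continuous fun y : EN N => eval y.ofLp Q :=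
  (MvPolynomial.continuous_eval Q).comp (LE N).symm.continuous

private theorem oc_smul {H : MvPolynomial (Fin (N + 1)) ℂ} {h : ℕ} (hH : H.IsHomogeneous h) (hX : Surface (coneE P)) :
    ∀ x ∈ oc P H, ∀ c : ℂ, c ≠ 0 → c • x ∈ oc P H := by
  intro x hx c hc
  refine ⟨hX.smul x hx.1 c hc, fun i => ?_⟩
  have h1 := hx.2 i
  have h2 : eval (c • x).ofLp H = c ^ h * eval x.ofLp H := Pool.Agent.AD.P.eval_smul_of_homog hH c x.ofLp
  rw [h2]
  exact mul_ne_zero (pow_ne_zero _ hc) h1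

/-- an algebraic symmetric differential on a compact part -/
private theorem sym_le {H : MvPolynomial (Fin (N + 1)) ℂ} {h : ℕ} (hH : H.IsHomogeneous h) (hX : Surface (coneE P)) {m : ℕ} (hm : 1 ≤ m)
    (θ : SymDiff (oc P H) m) {W : MvPolynomial (Fin (N + 1) ⊕ Fin (N + 1)) ℂ} {r : ℕ}
    (hW : ∀ x ∈ oc P H, ∀ v, Tan (oc P H) x v → θ.toFun x v * eval x.ofLp H ^ r = eval (Sum.elim x.ofLp v.ofLp) W) (B : ℝ) :
    ∃ A : ℝ, 0 ≤ A ∧ ∀ x ∈ oc P H, eval x.ofLp H = 1 → ‖x‖ ≤ B → ∀ v, Tan (oc P H) x v → ‖v‖ ≤ B → ‖θ.toFun x v‖ ≤ A * fs x v := by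
  have hK : IsCompact (closedBall (0 : EN N) B ×ˢ closedBall (0 : EN N) 1) := (isCompact_closedBall _ _).prod (isCompact_closedBall _ _)
  have hc : Continuous fun p : EN N × EN N => eval (Sum.elim p.1.ofLp p.2.ofLp) W := by
    refine (MvPolynomial.continuous_eval W).comp (continuous_pi fun i => ?_)
    rcases i with i | i
    · exact (continuous_apply i).comp ((LE N).symm.continuous.comp continuous_fst)
    · exact (continuous_apply i).comp ((LE N).symm.continuous.comp continuous_snd)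
  obtain ⟨A₁, hA₁⟩ := hK.exists_bound_of_continuousOn hc.continuousOn
  refine ⟨|A₁| * |B| ^ (m - 1) * |B|, by positivity, fun x hx hHx hxB v hv hvB => ?_⟩
  have hoc := oc_smul hH hX
  have hx0 : x ≠ 0 := fun h0 => hx.1.1 (by rw [h0]; rfl)
  have hxn : 0 < ‖x‖ := norm_pos_iff.2 hx0
  have hB0 : 0 ≤ B := hxn.le.trans hxB
  set c : ℂ := inner ℂ x v / (‖x‖ : ℂ) ^ 2 with hcdef
  set v' : EN N := v + (-c) • x with hv'
  have horth : inner ℂ x v' = (0 : ℂ) := by
    have hxx : (inner ℂ x x : ℂ) = (‖x‖ : ℂ) ^ 2 := inner_self_eq_norm_sq_to_K x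
    have : ((‖x‖ : ℂ)) ^ 2 ≠ 0 := pow_ne_zero _ (by exact_mod_cast hxn.ne')
    rw [hv', inner_add_right, inner_smul_right, hxx, hcdef, neg_mul, div_mul_cancel₀ _ this, add_neg_cancel]
  have hwd : wd x v = ‖x‖ * ‖v'‖ := by
    have h1 : wd x v = wd x v' := by
      have h := Pool.Agent.H36.BP.wd_inv x v 1 (-c)
      rw [one_smul, one_smul, norm_one] at h
      rw [hv', h]; ring
    have h2 := wd_sq x v'
    rw [horth, norm_zero] at h2
    rw [h1]
    have h3 : wd x v' ^ 2 = (‖x‖ * ‖v'‖) ^ 2 := by rw [h2]; ring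
    exact (pow_left_inj₀ (Pool.Agent.H36.BP.wd_nonneg _ _) (by positivity) two_ne_zero).mp h3
  have hv'n : ‖v'‖ = fs x v * ‖x‖ := by
    unfold fs
    rw [hwd]
    field_simp
  have hv'le : ‖v'‖ ≤ |B| := by
    have h1 : ‖x‖ * ‖v'‖ ≤ ‖x‖ * ‖v‖ := by rw [← hwd]; exact wd_le _ _
    exact (le_of_mul_le_mul_left h1 hxn).trans (hvB.trans (le_abs_self _))
  have hT' : Tan (oc P H) x v' := by
    have := tan_comb hoc hv 1 (-c)
    rwa [one_smul] at this
  have hθ' : θ.toFun x v = θ.toFun x v' := (θ.add_smul x v hv (-c)).symm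
  rcases eq_or_ne v' 0 with h0 | h0
  · have h1 : θ.toFun x v' = 0 := by
      have h2 := θ.smul x v' hT' 0
      rw [zero_smul, zero_pow (by omega), zero_mul] at h2
      rw [h0]; exact h2
    rw [hθ', h1, norm_zero]
    exact mul_nonneg (by positivity) (fs_nonneg _ _)
  · have hv'pos : 0 < ‖v'‖ := norm_pos_iff.2 h0
    set u : EN N := ((‖v'‖ : ℂ)⁻¹) • v' with hu
    have hun : ‖u‖ = 1 := by
      rw [hu, norm_smul, norm_inv, Complex.norm_real, norm_norm, inv_mul_cancel₀ hv'pos.ne']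
    have hTu : Tan (oc P H) x u := by
      have := tan_comb hoc hT' ((‖v'‖ : ℂ)⁻¹) 0
      rwa [zero_smul, add_zero] at this
    have hvu : v' = (‖v'‖ : ℂ) • u := by
      rw [hu, smul_smul, mul_inv_cancel₀ (by exact_mod_cast hv'pos.ne'), one_smul]
    have h1 : θ.toFun x v' = (‖v'‖ : ℂ) ^ m * θ.toFun x u := by
      conv_lhs => rw [hvu]
      exact θ.smul x u hTu _
    have h2 : ‖θ.toFun x u‖ ≤ |A₁| := by
      have h3 := hW x hx u hTu
      rw [hHx, one_pow, mul_one] at h3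
      rw [h3]
      exact (hA₁ (x, u) ⟨by simpa using hxB, by simp [hun]⟩).trans (le_abs_self _)
    rw [hθ', h1, norm_mul, norm_pow, Complex.norm_real, norm_norm]
    calc ‖v'‖ ^ m * ‖θ.toFun x u‖ = ‖v'‖ ^ (m - 1) * ‖v'‖ * ‖θ.toFun x u‖ := by
          rw [← pow_succ, Nat.sub_add_cancel hm]
      _ ≤ |B| ^ (m - 1) * (fs x v * |B|) * |A₁| := by
          have h5 : ‖v'‖ ≤ fs x v * |B| := by
            rw [hv'n]
            exact mul_le_mul_of_nonneg_left (hxB.trans (le_abs_self _)) (fs_nonneg _ _)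
          have h6 : ‖v'‖ ^ (m - 1) ≤ |B| ^ (m - 1) := pow_le_pow_left₀ (norm_nonneg _) hv'le _
          have h7 := fs_nonneg x v
          exact mul_le_mul (mul_le_mul h6 h5 (norm_nonneg _) (by positivity)) h2 (norm_nonneg _) (by positivity)
      _ = |A₁| * |B| ^ (m - 1) * |B| * fs x v := by ring

/-- the ideal of the polynomials which vanish at `x` with their derivative in the direction of `v` -/
private theorem gen_all {G : Finset (MvPolynomial (Fin (N + 1)) ℂ)} (hG : Ideal.span (G : Set (MvPolynomial (Fin (N + 1)) ℂ)) = P)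
    {x v : Fin (N + 1) → ℂ} (h1 : ∀ Q ∈ G, eval x Q = 0) (h2 : ∀ Q ∈ G, ∑ i, v i * eval x (pderiv i Q) = 0) :
    (∀ Q ∈ P, eval x Q = 0) ∧ ∀ Q ∈ P, ∑ i, v i * eval x (pderiv i Q) = 0 := by
  have key : ∀ Q ∈ P, eval x Q = 0 ∧ ∑ i, v i * eval x (pderiv i Q) = 0 := by
    intro Q hQ
    rw [← hG] at hQ
    induction hQ using Submodule.span_induction with
    | mem Q hQ => exact ⟨h1 Q hQ, h2 Q hQ⟩
    | zero => simp
    | add p q _ _ hp hq =>
      refine ⟨by rw [map_add, hp.1, hq.1, add_zero], ?_⟩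
      simp only [map_add, mul_add, Finset.sum_add_distrib, hp.2, hq.2, add_zero]
    | smul a p _ hp =>
      refine ⟨by rw [smul_eq_mul, map_mul, hp.1, mul_zero], ?_⟩
      simp only [smul_eq_mul, Derivation.leibniz, map_add, map_mul, hp.1, zero_mul, add_zero]
      have : ∑ i, v i * (eval x a * eval x (pderiv i p)) = eval x a * ∑ i, v i * eval x (pderiv i p) := by
        rw [Finset.mul_sum]
        exact Finset.sum_congr rfl fun i _ => by ring
      rw [this, hp.2, mul_zero]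
  exact ⟨fun Q hQ => (key Q hQ).1, fun Q hQ => (key Q hQ).2⟩

/-- MODULE H5: the curve `Z` is null in a quantitative sense -/
theorem exists_qn [P.IsPrime] {z : Fin 2 → FunField P} (hP : Homog P) (hz : IsTranscendenceBasis ℂ z) (hsm : IsSmooth P 2)
    {H : MvPolynomial (Fin (N + 1)) ℂ} {h : ℕ}
    (hH : H.IsHomogeneous h) (h1 : 1 ≤ h) {s : ℕ} {m : Fin s → ℕ}
    (hm : ∀ j, 1 ≤ m j) (θ : ∀ j, SymDiff (oc P H) (m j)) (hθ : ∀ j, IsAlg (θ j)) {mΩ jΩ r t : ℕ} {Ω : Fin r → EN N → EN N → EN N → ℂ}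
    {Q : Fin r → MvPolynomial (Fin (N + 1)) ℂ} (hΩ : LogAmple P H mΩ jΩ Ω Q) {R : Fin t → MvPolynomial (Fin (N + 1)) ℂ} (hR : NullCurve θ R)
    (D : ℕ) (B : ℝ) :
    ∃ C α : ℝ, 0 ≤ C ∧ 0 < α ∧ ∀ (φ : ℂ → EN N) (q : Fin s → ℂ) (ε : ℝ), 0 < ε → ε ≤ 1 → DifferentiableOn ℂ φ (ball 0 1) →
      (∀ z ∈ ball (0 : ℂ) 1, φ z ∈ oc P H ∧ eval (φ z).ofLp H = 1 ∧ ‖φ z‖ ≤ B ∧
        rhoS (eqT H R Q) D (φ z) ≤ ε) →
      (∀ j, ∀ z ∈ ball (0 : ℂ) 1, (θ j).toFun (φ z) (deriv φ z) = q j) → ∑ j, ‖q j‖ ^ ((m j : ℝ)⁻¹) ≤ C * ε ^ α := by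
  classical
  have hX : Surface (coneE P) := Pool.Agent.H90.SG.surface_coneE hP hz hsm
  have hoc := oc_smul (P := P) hH hX
  -- the compact set
  set Kc : Set (EN N) := {x | ‖x‖ ≤ B ∧ x ∈ oc P H ∧ eval x.ofLp H = 1} with hKc
  have hKcc : IsCompact Kc := by
    have e : Kc = closedBall (0 : EN N) B ∩ ({x | ∀ Q ∈ P, eval x.ofLp Q = 0} ∩ {x | eval x.ofLp H = 1}) := by
      ext x
      simp only [hKc, Set.mem_ofPred_eq, Set.mem_inter_iff, mem_closedBall_zero_iff]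
      constructor
      · rintro ⟨a1, a2, a3⟩
        exact ⟨a1, a2.1.2, a3⟩
      · rintro ⟨a1, a2, a3⟩
        refine ⟨a1, ⟨⟨?_, a2⟩, fun _ => by rw [a3]; exact one_ne_zero⟩, a3⟩
        intro h0
        have h0' : x.ofLp = 0 := h0
        rw [h0'] at a3
        have : eval (0 : Fin (N + 1) → ℂ) H = 0 := by
          have := Pool.Agent.AD.P.eval_smul_of_homog hH (0 : ℂ) (0 : Fin (N + 1) → ℂ)
          rw [zero_smul, zero_pow (by omega), zero_mul] at this
          exact this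
        rw [this] at a3
        exact zero_ne_one a3
    rw [e]
    refine (isCompact_closedBall _ _).inter_right (IsClosed.inter ?_ ?_)
    · have : {x : EN N | ∀ Q ∈ P, eval x.ofLp Q = 0} = ⋂ Q ∈ P, {x | eval x.ofLp Q = 0} := by ext x; simp
      rw [this]
      exact isClosed_biInter fun Q _ => isClosed_eq (cont_eval Q) continuous_const
    · exact isClosed_eq (cont_eval H) continuous_const
  rcases Set.eq_empty_or_nonempty Kc with hemp | hKne
  · refine ⟨0, 1, le_refl _, one_pos, fun φ q ε hε hε1 hφ hφK hq => ?_⟩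
    obtain ⟨a1, a2, a3, -⟩ := hφK 0 (mem_ball_self one_pos)
    have : φ 0 ∈ Kc := ⟨a3, a1, a2⟩
    rw [hemp] at this
    exact this.elim
  -- the lower bound of the norm
  obtain ⟨x₀, hx₀, hx₀m⟩ := hKcc.exists_isMinOn hKne continuous_norm.continuousOn
  have hne : ∀ x ∈ Kc, x ≠ 0 := fun x hx h0 => hx.2.1.1.1 (by rw [h0]; rfl)
  have hx₀0 : 0 < ‖x₀‖ := norm_pos_iff.2 (hne x₀ hx₀)
  have hB0 : 0 < B := hx₀0.trans_le hx₀.1
  -- the lower bound of the `Q a`
  have hQc : Continuous fun x : EN N => ∑ a, ‖eval x.ofLp (Q a)‖ := continuous_finsetSum _ fun a _ => (cont_eval (Q a)).norm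
  obtain ⟨x₁, hx₁, hx₁m⟩ := hKcc.exists_isMinOn hKne hQc.continuousOn
  set c₁ : ℝ := ∑ a, ‖eval x₁.ofLp (Q a)‖ with hc₁
  have hc₁0 : 0 < c₁ := by
    obtain ⟨a, ha⟩ := hΩ.cover x₁ hx₁.2.1
    exact Finset.sum_pos' (fun _ _ => norm_nonneg _) ⟨a, Finset.mem_univ _, norm_pos_iff.2 ha⟩
  set C₂ : ℝ := (r + 1) * B ^ D / c₁ with hC₂
  have hC₂0 : 0 < C₂ := by rw [hC₂]; positivity
  -- the generators of `P`
  obtain ⟨G, hG⟩ : P.FG := IsNoetherian.noetherian P
  have hG' : Ideal.span (G : Set (MvPolynomial (Fin (N + 1)) ℂ)) = P := hG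
  -- the points
  obtain ⟨S, hS⟩ := hR.tan
  set S' : Finset (EN N) := S.image fun p => WithLp.toLp 2 p.rep with hS'
  have hS0 : ∀ p ∈ S', p ≠ 0 := by
    intro p hp h0
    rw [hS', Finset.mem_image] at hp
    obtain ⟨p', -, rfl⟩ := hp
    exact p'.rep_nonzero (congrArg WithLp.ofLp h0)
  have hS'' : ∀ x : EN N, (∀ p ∈ S', ∀ c : ℂ, x ≠ c • p) → ∀ hx : x.ofLp ≠ 0, Projectivization.mk ℂ x.ofLp hx ∉ S := by
    intro x hxp hx hmem
    obtain ⟨a, ha⟩ := Projectivization.exists_smul_eq_mk_rep ℂ x.ofLp hx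
    refine hxp (WithLp.toLp 2 (Projectivization.mk ℂ x.ofLp hx).rep) (Finset.mem_image_of_mem _ hmem) ((a⁻¹ : ℂˣ) : ℂ) ?_
    apply WithLp.ofLp_injective
    rw [← ha]
    change x.ofLp = ((a⁻¹ : ℂˣ) : ℂ) • ((a : ℂ) • x.ofLp)
    rw [smul_smul, ← Units.val_mul, inv_mul_cancel, Units.val_one, one_smul]
  -- one form
  have hone : ∀ j, ∃ C α : ℝ, 0 ≤ C ∧ 0 < α ∧ ∀ (φ : ℂ → EN N) (q : ℂ) (ε : ℝ), 0 < ε → ε ≤ 1 → DifferentiableOn ℂ φ (ball 0 1) →
      (∀ z ∈ ball (0 : ℂ) 1, φ z ∈ oc P H ∧ eval (φ z).ofLp H = 1 ∧ ‖φ z‖ ≤ B ∧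
        rhoS (eqT H R Q) D (φ z) ≤ ε) →
      (∀ z ∈ ball (0 : ℂ) 1, (θ j).toFun (φ z) (deriv φ z) = q) → ‖q‖ ≤ C * ε ^ α := by
    intro j
    obtain ⟨W, e, hW⟩ := hθ j
    obtain ⟨A, hA0, hA⟩ := sym_le hH hX (hm j) (θ j) hW (2 * B)
    obtain ⟨C, α, hC0, hα0, hmain⟩ := disc_null (κ := {g // g ∈ G} ⊕ Fin t) (Sum.elim (fun g => g.1) fun l => MvPolynomial.C ((C₂ : ℂ)⁻¹) * R l) H W S' hS0 (by
      intro x v hHx hRx hdRx hxS
      have g1 : ∀ Q ∈ G, eval x.ofLp Q = 0 := fun Q hQ => hRx (Sum.inl ⟨Q, hQ⟩)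
      have g2 : ∀ Q ∈ G, ∑ i, v.ofLp i * eval x.ofLp (pderiv i Q) = 0 := fun Q hQ => hdRx (Sum.inl ⟨Q, hQ⟩)
      obtain ⟨g3, g4⟩ := gen_all hG' g1 g2
      have hC₂c : (C₂ : ℂ) ≠ 0 := by exact_mod_cast hC₂0.ne'
      have hx0 : x.ofLp ≠ 0 := by
        intro h0
        rw [h0] at hHx
        have : eval (0 : Fin (N + 1) → ℂ) H = 0 := by
          have := Pool.Agent.AD.P.eval_smul_of_homog hH (0 : ℂ) (0 : Fin (N + 1) → ℂ)
          rw [zero_smul, zero_pow (by omega), zero_mul] at this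
          exact this
        exact hHx this
      have hxc : x ∈ coneE P := ⟨hx0, g3⟩
      have hxo : x ∈ oc P H := ⟨hxc, fun _ => hHx⟩
      have hT : Tan (coneE P) x v := tan_of_conTan hP hz hsm hxc g4
      have hTo : Tan (oc P H) x v := by
        obtain ⟨F, ⟨hF, hFX⟩, h0, h1'⟩ := hT
        refine ⟨F, ⟨hF, ?_⟩, h0, h1'⟩
        have hc : ContinuousAt (fun z => eval (F z).ofLp H) 0 := (cont_eval H).continuousAt.comp hF.continuousAt
        filter_upwards [hFX, hc.eventually_ne (by rw [h0]; exact hHx)] with z hz1 hz2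
        exact ⟨hz1, fun _ => hz2⟩
      have g5 : ∀ l, eval x.ofLp (R l) = 0 := by
        intro l
        have := hRx (Sum.inr l)
        simp only [Sum.elim_inr, map_mul, eval_C, mul_eq_zero, inv_eq_zero, hC₂c, false_or] at this
        exact this
      have g6 : ∀ l, fderiv ℂ (fun y : EN N => eval y.ofLp (R l)) x v = 0 := by
        intro l
        rw [fderiv_eval]
        have h2 := hdRx (Sum.inr l)
        simp only [Sum.elim_inr, pderiv_C_mul, map_mul, eval_C] at h2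
        have h3 : ∑ i, v.ofLp i * ((C₂ : ℂ)⁻¹ * eval x.ofLp (pderiv i (R l))) = (C₂ : ℂ)⁻¹ * ∑ i, v.ofLp i * eval x.ofLp (pderiv i (R l)) := by
          rw [Finset.mul_sum]
          exact Finset.sum_congr rfl fun i _ => by ring
        rw [h3, mul_eq_zero, inv_eq_zero] at h2
        exact h2.resolve_left hC₂c
      have g7 := hS x hxo hx0 (hS'' x hxS hx0) g5 v hTo g6 j
      have g8 := hW x hxo v hTo
      rw [g7, zero_mul] at g8
      exact g8.symm) (min ‖x₀‖ 1) (max (2 * B) (max 1 A)) (lt_min hx₀0 one_pos)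
    refine ⟨C, α, hC0, hα0, fun φ q ε hε hε1 hφ hφK hq => ?_⟩
    have hφd : ∀ w ∈ ball (0 : ℂ) 1, DifferentiableAt ℂ φ w := fun w hw => (hφ w hw).differentiableAt (isOpen_ball.mem_nhds hw)
    have hT : ∀ w ∈ ball (0 : ℂ) 1, Tan (oc P H) (φ w) (deriv φ w) := by
      intro w hw
      have hw' : ∀ᶠ y in 𝓝 w, y ∈ ball (0 : ℂ) 1 := isOpen_ball.mem_nhds hw
      have han : AnalyticAt ℂ φ w := hφ.analyticAt (isOpen_ball.mem_nhds hw)
      have htr : Tendsto (fun y : ℂ => w + y) (𝓝 0) (𝓝 w) := by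
        have : Continuous fun y : ℂ => w + y := by fun_prop
        simpa using this.tendsto 0
      refine ⟨fun y => φ (w + y), ⟨?_, ?_⟩, by simp, ?_⟩
      · have e2 : AnalyticAt ℂ φ ((fun y : ℂ => w + y) 0) := by simpa using han
        exact AnalyticAt.comp (g := φ) (f := fun y : ℂ => w + y) e2 (analyticAt_const.add analyticAt_id)
      · filter_upwards [htr.eventually hw'] with y hy
        exact (hφK _ hy).1
      · rw [deriv_comp_const_add]
        simp
    have hKφ : ∀ w ∈ ball (0 : ℂ) 1, φ w ∈ Kc := fun w hw => ⟨(hφK w hw).2.2.1, (hφK w hw).1, (hφK w hw).2.1⟩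
    have hd0 : ‖deriv φ 0‖ ≤ 2 * B := by
      have := Complex.norm_deriv_le_of_forall_mem_sphere_norm_le (c := 0) (R := 1 / 2) (C := B) (f := φ) (by norm_num)
        (DifferentiableOn.diffContOnCl fun w hw => (hφd w (by
          rw [closure_ball _ (by norm_num)] at hw
          rw [mem_closedBall_zero_iff] at hw
          rw [mem_ball_zero_iff]; linarith)).differentiableWithinAt) (fun w hw => (hφK w (by
            rw [mem_sphere_zero_iff_norm] at hw
            rw [mem_ball_zero_iff, hw]; norm_num)).2.2.1)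
      calc ‖deriv φ 0‖ ≤ B / (1 / 2) := this
        _ = 2 * B := by ring
    have h00 : (0 : ℂ) ∈ ball (0 : ℂ) 1 := mem_ball_self one_pos
    refine hmain ε hε hε1 φ ‖q‖ hφ (fun w hw => ⟨?_, ?_, ?_, ?_⟩) (fun w hw => ?_) ?_
    · exact (min_le_left _ _).trans (hx₀m (hKφ w hw))
    · exact ((hφK w hw).2.2.1.trans (by linarith)).trans (le_max_left _ _)
    · rw [(hφK w hw).2.1, norm_one]; exact min_le_right _ _
    · rintro (g | l)
      · simp only [Sum.elim_inl]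
        have hgP : g.1 ∈ P := by rw [← hG']; exact Ideal.subset_span g.2
        have k0 : eval (φ w).ofLp g.1 = 0 := (hφK w hw).1.1.2 g.1 hgP
        rw [k0, norm_zero]
        exact hε.le
      · simp only [Sum.elim_inr, map_mul, eval_C, norm_mul, norm_inv, Complex.norm_real, Real.norm_eq_abs, abs_of_pos hC₂0]
        have k1 := (hφK w hw).2.2.2
        have k2 : 0 < ‖φ w‖ := norm_pos_iff.2 (hne _ (hKφ w hw))
        have k3 : c₁ ≤ ∑ a, ‖eval (φ w).ofLp (Q a)‖ := hx₁m (hKφ w hw)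
        have k4 : ∀ a, ‖eval (φ w).ofLp (R l)‖ * ‖eval (φ w).ofLp (Q a)‖ ≤ ε * B ^ D := by
          intro a
          have k5 : ‖eval (φ w).ofLp (R l * Q a * H)‖ ≤ ‖fun a : Fin t × Fin r => eval (φ w).ofLp (R a.1 * Q a.2 * H)‖ :=
            norm_le_pi_norm (fun a : Fin t × Fin r => eval (φ w).ofLp (R a.1 * Q a.2 * H)) (l, a)
          have k6 : ‖fun a : Fin t × Fin r => eval (φ w).ofLp (R a.1 * Q a.2 * H)‖ ≤ ε * ‖φ w‖ ^ D := by
            unfold rhoS eqT at k1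
            rwa [div_le_iff₀ (by positivity)] at k1
          rw [map_mul, map_mul, (hφK w hw).2.1, mul_one, norm_mul] at k5
          refine k5.trans (k6.trans ?_)
          have := (hφK w hw).2.2.1
          gcongr
        have k7 : ‖eval (φ w).ofLp (R l)‖ * c₁ ≤ r * (ε * B ^ D) := by
          calc ‖eval (φ w).ofLp (R l)‖ * c₁ ≤ ‖eval (φ w).ofLp (R l)‖ * ∑ a, ‖eval (φ w).ofLp (Q a)‖ := mul_le_mul_of_nonneg_left k3 (norm_nonneg _)
            _ = ∑ a, ‖eval (φ w).ofLp (R l)‖ * ‖eval (φ w).ofLp (Q a)‖ := Finset.mul_sum _ _ _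
            _ ≤ ∑ _a : Fin r, ε * B ^ D := Finset.sum_le_sum fun a _ => k4 a
            _ = r * (ε * B ^ D) := by simp
        have k8 : ‖eval (φ w).ofLp (R l)‖ ≤ C₂ * ε := by
          rw [hC₂, div_mul_eq_mul_div, le_div_iff₀ hc₁0]
          refine k7.trans ?_
          have : 0 ≤ ε * B ^ D := by positivity
          nlinarith
        rw [inv_mul_le_iff₀ hC₂0]
        exact k8
    · have hw1 : w ∈ ball (0 : ℂ) 1 := by rw [mem_ball_zero_iff] at hw ⊢; linarith
      have k1 := hW (φ w) (hφK w hw1).1 _ (hT w hw1)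
      rw [(hφK w hw1).2.1, one_pow, mul_one, hq w hw1] at k1
      have k2 : pv W (φ w) (deriv φ w) = q := k1.symm
      rw [k2]
      exact le_mul_of_one_le_left (norm_nonneg _) ((le_max_left _ _).trans (le_max_right _ _))
    · have k1 := hA (φ 0) (hφK 0 h00).1 (hφK 0 h00).2.1 ((hφK 0 h00).2.2.1.trans (by linarith)) _ (hT 0 h00) hd0
      rw [hq 0 h00] at k1
      exact k1.trans (mul_le_mul_of_nonneg_right ((le_max_right _ _).trans (le_max_right _ _)) (fs_nonneg _ _))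
  choose C α hC0 hα0 hmain using hone
  -- the common exponent
  set β : ℝ := (∑ j, (m j : ℝ) / α j + 1)⁻¹ with hβ
  have hsum0 : 0 ≤ ∑ j, (m j : ℝ) / α j := Finset.sum_nonneg fun j _ => div_nonneg (Nat.cast_nonneg _) (hα0 j).le
  have hβ0 : 0 < β := by rw [hβ]; positivity
  have hβj : ∀ j, β ≤ α j * (m j : ℝ)⁻¹ := by
    intro j
    have hmj : (0 : ℝ) < m j := by exact_mod_cast hm j
    have k1 : (m j : ℝ) / α j ≤ ∑ j, (m j : ℝ) / α j + 1 := by
      have := Finset.single_le_sum (f := fun j => (m j : ℝ) / α j) (fun j _ => div_nonneg (Nat.cast_nonneg _) (hα0 j).le) (Finset.mem_univ j)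
      linarith
    have k2 : α j * (m j : ℝ)⁻¹ = ((m j : ℝ) / α j)⁻¹ := by rw [inv_div]; rfl
    rw [k2, hβ]
    exact inv_anti₀ (div_pos hmj (hα0 j)) k1
  refine ⟨∑ j, C j ^ ((m j : ℝ)⁻¹), β, Finset.sum_nonneg fun j _ => Real.rpow_nonneg (hC0 j) _, hβ0, fun φ q ε hε hε1 hφ hφK hq => ?_⟩
  rw [Finset.sum_mul]
  refine Finset.sum_le_sum fun j _ => ?_
  have k1 := hmain j φ (q j) ε hε hε1 hφ hφK (hq j)
  calc ‖q j‖ ^ ((m j : ℝ)⁻¹) ≤ (C j * ε ^ α j) ^ ((m j : ℝ)⁻¹) := Real.rpow_le_rpow (norm_nonneg _) k1 (by positivity)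
    _ = C j ^ ((m j : ℝ)⁻¹) * ε ^ (α j * (m j : ℝ)⁻¹) := by
        rw [Real.mul_rpow (hC0 j) (Real.rpow_nonneg hε.le _), ← Real.rpow_mul hε.le]
    _ ≤ C j ^ ((m j : ℝ)⁻¹) * ε ^ β :=
        mul_le_mul_of_nonneg_left (Real.rpow_le_rpow_of_exponent_ge hε hε1 (hβj j)) (Real.rpow_nonneg (hC0 j) _)

end Pool.Agent.SR3
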