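import Pool.Agent.SR3.HDefs
import Pool.Agent.H17BP.MapIdeal

/-!
# SR3 NcDefs: the ideal of the null curves
-/

set_option autoImplicit false

open Topology Filter Metric MvPolynomial

noncomputable section

namespace Pool.Agent.SR3

open Pool.Agent.H36.BP (EN)
open Pool.Agent.H17 (PN VanishesAt HolomorphicInto)
open Pool.Agent.H13.OT (OrderTwo)
open Pool.Agent.H17EF (projVar)
open Pool.Agent.AD (SymDiff TangentTo)
open Pool.Agent.H17BP (mapIdeal)

variable {N : ℕ}

/-- the derivative of a polynomial in the direction of a polynomial vector field -/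
def fld (a : Fin (N + 1) → MvPolynomial (Fin (N + 1)) ℂ) (G : MvPolynomial (Fin (N + 1)) ℂ) : MvPolynomial (Fin (N + 1)) ℂ := ∑ l, a l * pderiv l G

/-- the null curves of order two -/
def NullC {P : Ideal (MvPolynomial (Fin (N + 1)) ℂ)} {H : MvPolynomial (Fin (N + 1)) ℂ} {s : ℕ} {m : Fin s → ℕ}
    (θ : ∀ j, SymDiff (oc P H) (m j)) : Set (ℂ → PN N) :=
  {f | HolomorphicInto f Set.univ ∧ OrderTwo f ∧ (∀ z, f z ∈ projVar P ∧ ¬ VanishesAt H (f z)) ∧ (∃ z w, f z ≠ f w) ∧ ∀ j, TangentTo (θ j) f}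

/-- the ideal of the null curves -/
def nullId {P : Ideal (MvPolynomial (Fin (N + 1)) ℂ)} {H : MvPolynomial (Fin (N + 1)) ℂ} {s : ℕ} {m : Fin s → ℕ}
    (θ : ∀ j, SymDiff (oc P H) (m j)) : Ideal (MvPolynomial (Fin (N + 1)) ℂ) :=
  ⨅ f ∈ NullC θ, mapIdeal f Set.univ

end Pool.Agent.SR3
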