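import Pool.Agent.SR3.ABas
import Pool.Agent.SR3.ALam
import Pool.Agent.SR3.AGrd
import Pool.Agent.SR3.ASq
import Pool.Agent.SDA.La
import Pool.Agent.SDA.Oo
import Pool.Agent.SDA.Q1
import Pool.Agent.SY.NBa

/-!
# SR3 PolZ: along a curve of order two the forms are polynomials
-/

set_option autoImplicit false

open Topology Filter Metric

noncomputable section

namespace Pool.Agent.SR3

open Pool.Agent.H36.BP (EN fs wd Sub OrdTwo)
open Pool.Agent.H14.PP (IsCone Tan)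
open Pool.Agent.SY (Ent)
open Pool.Agent.SDA (EnergyK Near AffOpen Nm nForms Tame)
open Geo (Gd)

variable {N : ℕ} {G : Geo N}

/-- the forms are holomorphic along holomorphic curves -/
theorem w_hol (hG : G.Ok) (j : G.J) {F : ℂ → EN N} (hF : Differentiable ℂ F) (hK : ∀ z, F z ∈ G.K) :
    Differentiable ℂ fun z => G.w j (F z) (deriv F z) := by
  intro z
  set φ : (Fin 1 → ℂ) → EN N := fun y => F (y 0) with hφ
  have h1 : ∀ y : Fin 1 → ℂ, HasFDerivAt φ ((ContinuousLinearMap.toSpanSingleton ℂ (deriv F (y 0))).comp (ContinuousLinearMap.proj (R := ℂ) (φ := fun _ : Fin 1 => ℂ) 0)) y := by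
    intro y
    have h2 : HasFDerivAt F (ContinuousLinearMap.toSpanSingleton ℂ (deriv F (y 0))) (y 0) := (hF (y 0)).hasDerivAt.hasFDerivAt
    have h3 : HasFDerivAt (fun y : Fin 1 → ℂ => y 0) (ContinuousLinearMap.proj (R := ℂ) (φ := fun _ : Fin 1 => ℂ) 0) y :=
      (ContinuousLinearMap.proj (R := ℂ) (φ := fun _ : Fin 1 => ℂ) 0).hasFDerivAt
    exact h2.comp y h3
  have hφa : AnalyticAt ℂ φ (fun _ => z) := by
    have h3 : AnalyticAt ℂ (fun y : Fin 1 → ℂ => y 0) (fun _ => z) := (ContinuousLinearMap.proj (R := ℂ) (φ := fun _ : Fin 1 => ℂ) 0).analyticAt _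
    exact AnalyticAt.fun_comp (g := F) (hF.analyticAt z) h3
  have h4 := hG.w_an j 1 φ (fun _ => z) (fun _ => 1) hφa (Eventually.of_forall fun y => hK _)
  have h5 : AnalyticAt ℂ (fun w : ℂ => ((fun _ => w, fun _ => 1) : (Fin 1 → ℂ) × (Fin 1 → ℂ))) z :=
    (analyticAt_pi_iff.2 fun _ => analyticAt_id).prod analyticAt_const
  have h6 : AnalyticAt ℂ (fun w : ℂ => G.w j (φ fun _ => w) (fderiv ℂ φ (fun _ => w) fun _ => 1)) z :=
    AnalyticAt.comp_of_eq (f := fun w : ℂ => ((fun _ => w, fun _ => 1) : (Fin 1 → ℂ) × (Fin 1 → ℂ))) h4 h5 rfl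
  have h7 : (fun w : ℂ => G.w j (φ fun _ => w) (fderiv ℂ φ (fun _ => w) fun _ => 1)) = fun w => G.w j (F w) (deriv F w) := by
    funext w
    rw [(h1 fun _ => w).fderiv]
    simp [φ]
  rw [← h7]
  exact h6.differentiableAt

/-- MODULE Z3 (PolZ.lean; compare `SDA/Q2.lean`, and `lprime` of block A for the subharmonic function) -/
theorem exists_poly (hG : G.Ok) {F : ℂ → EN N} (hF : Differentiable ℂ F) (hK : ∀ z, F z ∈ G.K) (hN : ∀ z, G.p (F z) = 1) (ho : OrdTwo F) (j : G.J) :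
    ∃ p : Polynomial ℂ, ∀ z, G.w j (F z) (deriv F z) = p.eval z := by
  classical
  obtain ⟨A, hA, hgr⟩ := Pool.Agent.SDA.growth_of_ordTwo hG.cone hG.aff hF hK (nm_iff.2 hN) ho
  obtain ⟨B₁, hB₁, hlo⟩ := lam_lowerA hG
  obtain ⟨B₂, hB₂, hup⟩ := lam_upperA hG
  obtain ⟨B₃, hB₃, hsubl⟩ := lam_sub hG
  obtain ⟨B₄, hB₄, hlog⟩ := log_lower hG
  obtain ⟨C, hC, hwl⟩ := hG.w_log
  have hm := hG.one_m j
  have hm0 : (0 : ℝ) < G.m j := by exact_mod_cast hm
  set m : ℕ := G.m j with hmd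
  set q : ℂ → ℂ := fun z => G.w j (F z) (deriv F z) with hqd
  have hq : Differentiable ℂ q := w_hol hG j hF hK
  have hF0 : ∀ z, F z ≠ 0 := fun z => ne0 hG (hK z)
  set k : ℝ := (Fintype.card G.ι : ℝ) with hk
  have hk0 : 0 ≤ k := Nat.cast_nonneg _
  set κ : ℝ := B₁ + 1 with hκ
  set h : ℝ := (G.h : ℝ) with hh
  have hh0 : 0 ≤ h := Nat.cast_nonneg _
  set S : ℝ := κ + 5 * h * A + B₂ with hS
  have hS0 : 0 ≤ S := by positivity
  set D : ℝ := 4 * k * B₃ * S + 2 with hD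
  have hD0 : 0 ≤ D := by positivity
  set C' : ℝ := C ^ ((1 : ℝ) / m) with hC'
  have hC'0 : 0 ≤ C' := by positivity
  set a : ℝ := 1 / ((C' ^ 2 + 1) * (2 + 4 * k)) with ha
  have ha0 : 0 < a := by positivity
  set u : G.ι → ℂ → ℝ := fun i z => κ + G.lam i (F z) with hu
  have hu1 : ∀ i z, 1 ≤ u i z := fun i z => by
    have := hlo i (F z) (hK z)
    simp only [hu, hκ]
    linarith
  have hug : ∀ i z, HasFDerivAt (u i) (reL (-G.ell i (F z) (deriv F z))) z := fun i z =>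
    (lam_grad hG i (hF.analyticAt z) (hK z)).const_add κ
  have huc : ∀ i, Continuous (u i) := fun i => continuous_iff_continuousAt.2 fun z => (hug i z).continuousAt
  set B' : ℝ := k * S ^ 2 + D * (5 * A + B₄) with hB'
  have hB'0 : 0 ≤ B' := by positivity
  set E : ℝ := max 1 (4 * B' / a) with hE
  have hE1 : 1 ≤ E := le_max_left _ _
  have hbound : ∀ z, ‖q z‖ ^ ((2 : ℝ) / m) ≤ E * (1 + ‖z‖) ^ 2 := by
    intro z₀
    set r : ℝ := 1 + ‖z₀‖ with hr
    have hr1 : 1 ≤ r := by rw [hr]; linarith [norm_nonneg z₀]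
    have hr0 : 0 < r := by linarith
    have hr2 : 1 ≤ r ^ 2 := one_le_pow₀ hr1
    have hr24 : r ^ 2 ≤ r ^ 4 := pow_le_pow_right₀ hr1 (by norm_num)
    have hlogF : ∀ z ∈ closedBall z₀ r, Real.log ‖F z‖ ≤ 5 * A * r ^ 2 := by
      intro z hz
      rw [mem_closedBall, dist_eq_norm] at hz
      have h2 : ‖z‖ ≤ 2 * r := by
        have h3 : ‖z‖ ≤ ‖z - z₀‖ + ‖z₀‖ := by simpa using norm_add_le (z - z₀) z₀
        rw [hr] at hz ⊢
        linarith
      have h6 : ‖z‖ ^ 2 ≤ (2 * r) ^ 2 := pow_le_pow_left₀ (norm_nonneg _) h2 2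
      have h7 : A * (1 + ‖z‖ ^ 2) ≤ A * (5 * r ^ 2) := mul_le_mul_of_nonneg_left (by nlinarith) hA
      linarith [hgr z]
    have hule : ∀ z ∈ closedBall z₀ r, ∀ i, u i z ≤ S * r ^ 2 := by
      intro z hz i
      have h1 := (hup (F z) (hK z) (hN z)).1 i
      have h2 : h * Real.log ‖F z‖ ≤ h * (5 * A * r ^ 2) := mul_le_mul_of_nonneg_left (hlogF z hz) hh0
      have h3 : (κ + B₂) * 1 ≤ (κ + B₂) * r ^ 2 := mul_le_mul_of_nonneg_left hr2 (by positivity)
      simp only [hu, hS]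
      nlinarith
    set R : ℝ := D * r ^ 2 with hR
    have hR0 : 0 ≤ R := by positivity
    set φ : ℂ → ℝ := fun z => ∑ i, (u i z) ^ 2 + R * (Real.log ‖F z‖ + B₄) with hφ
    have hφc : Continuous φ := by
      refine (continuous_finsetSum _ fun i _ => (huc i).pow 2).add (continuous_const.mul ((Continuous.log hF.continuous.norm fun z => norm_ne_zero_iff.mpr (hF0 z)).add continuous_const))
    have hsub : ∀ z ∈ ball z₀ r, Sub (fun w => Real.exp (φ w)) z (a * ‖q z‖ ^ ((2 : ℝ) / m)) := by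
      intro z hz
      have hz' : z ∈ closedBall z₀ r := ball_subset_closedBall hz
      have htan := tan hG hF hK z
      set f : ℝ := fs (F z) (deriv F z) with hf
      have hf0 : 0 ≤ f := Pool.Agent.H36.BP.fs_nonneg _ _
      have h1 : ∀ i, Sub (fun w => Real.exp ((u i w) ^ 2)) z (1 / 2 * ‖G.ell i (F z) (deriv F z)‖ ^ 2 + 2 * (-(B₃ * f ^ 2)) * u i z) := by
        intro i
        have h2 := hsubl i 1 F z (hF.analyticAt z) (Eventually.of_forall hK)
        rw [abs_one, one_mul] at h2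
        have h3 : Sub (fun w => Real.exp (u i w)) z (-(B₃ * f ^ 2)) := by
          refine (h2.const_mul (Real.exp_pos κ)).congr (Eventually.of_forall fun w => ?_)
          show Real.exp κ * Real.exp (1 * G.lam i (F w)) = Real.exp (κ + G.lam i (F w))
          rw [← Real.exp_add, one_mul]
        have h4 := sub_sq h3 (hug i z) (lt_of_lt_of_le one_pos (hu1 i z))
        rwa [norm_neg] at h4
      have h2 := Pool.Agent.SDA.La.sub_sum Finset.univ (fun i _ => h1 i)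
      have h3 : Sub (fun w => Real.exp (R * (Real.log ‖F w‖ + B₄))) z (R * f ^ 2 / 2) := by
        refine ((Pool.Agent.H36.BP.Sub.norm_rpow (hF.analyticAt z) (hF0 z) R).const_mul (Real.exp_pos (R * B₄))).congr (Eventually.of_forall fun w => ?_)
        show Real.exp (R * B₄) * ‖F w‖ ^ R = _
        rw [Real.rpow_def_of_pos (norm_pos_iff.2 (hF0 w)), ← Real.exp_add]
        congr 1
        ring
      have h4 : Sub (fun w => Real.exp (φ w)) z (∑ i, (1 / 2 * ‖G.ell i (F z) (deriv F z)‖ ^ 2 + 2 * (-(B₃ * f ^ 2)) * u i z) + R * f ^ 2 / 2) := by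
        refine (h2.mul h3).congr (Eventually.of_forall fun w => ?_)
        show Real.exp _ * Real.exp _ = Real.exp (φ w)
        rw [← Real.exp_add]
      refine h4.anti ?_
      -- the lower bound
      set Q₂ : ℝ := ∑ i, ‖G.ell i (F z) (deriv F z)‖ ^ 2 with hQ₂
      have hQ₂0 : 0 ≤ Q₂ := Finset.sum_nonneg fun i _ => by positivity
      set e : ℝ := ∑ i, ‖G.ell i (F z) (deriv F z)‖ with he
      have he0 : 0 ≤ e := Finset.sum_nonneg fun i _ => norm_nonneg _
      have h5 : e ^ 2 ≤ k * Q₂ := by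
        have := sq_sum_le_card_mul_sum_sq (s := (Finset.univ : Finset G.ι)) (f := fun i => ‖G.ell i (F z) (deriv F z)‖)
        simpa [hk, he, hQ₂] using this
      have h6 : ∑ i, (1 / 2 * ‖G.ell i (F z) (deriv F z)‖ ^ 2 + 2 * (-(B₃ * f ^ 2)) * u i z) = 1 / 2 * Q₂ - 2 * B₃ * f ^ 2 * ∑ i, u i z := by
        rw [hQ₂, Finset.sum_add_distrib, Finset.mul_sum, Finset.mul_sum, ← sub_eq_zero]
        have : ∑ i, 2 * (-(B₃ * f ^ 2)) * u i z = -∑ i, 2 * B₃ * f ^ 2 * u i z := by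
          rw [← Finset.sum_neg_distrib]
          exact Finset.sum_congr rfl fun i _ => by ring
        rw [this]
        ring
      have h7 : ∑ i, u i z ≤ k * (S * r ^ 2) := by
        have := Finset.sum_le_sum (s := Finset.univ) fun i _ => hule z hz' i
        simpa [hk, Finset.sum_const, nsmul_eq_mul] using this
      have h8 : 2 * B₃ * f ^ 2 * ∑ i, u i z ≤ 2 * B₃ * f ^ 2 * (k * (S * r ^ 2)) := mul_le_mul_of_nonneg_left h7 (by positivity)
      have h9 : 1 / 2 * Q₂ + f ^ 2 ≤ ∑ i, (1 / 2 * ‖G.ell i (F z) (deriv F z)‖ ^ 2 + 2 * (-(B₃ * f ^ 2)) * u i z) + R * f ^ 2 / 2 := by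
        rw [h6, hR, hD]
        have h10 : f ^ 2 * 1 ≤ f ^ 2 * r ^ 2 := mul_le_mul_of_nonneg_left hr2 (sq_nonneg f)
        have h11 : (4 * k * B₃ * S + 2) * r ^ 2 * f ^ 2 / 2 = 2 * B₃ * f ^ 2 * (k * (S * r ^ 2)) + f ^ 2 * r ^ 2 := by ring
        rw [h11]
        linarith
      refine le_trans ?_ h9
      -- the form
      have hL : G.L (F z) (deriv F z) = f + e := rfl
      have hL0 : 0 ≤ f + e := add_nonneg hf0 he0
      set t : ℝ := ‖q z‖ ^ ((1 : ℝ) / m) with ht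
      have ht0 : 0 ≤ t := by positivity
      have h12 : t ≤ C' * (f + e) := by
        have h13 := hwl j (F z) (hK z) _ htan
        rw [hL] at h13
        have h14 := Real.rpow_le_rpow (norm_nonneg _) h13 (by positivity : (0 : ℝ) ≤ (1 : ℝ) / m)
        rw [Real.mul_rpow hC (pow_nonneg hL0 _), ← Real.rpow_natCast, ← Real.rpow_mul hL0, mul_one_div_cancel hm0.ne', Real.rpow_one] at h14
        exact h14
      have h15 : ‖q z‖ ^ ((2 : ℝ) / m) = t ^ 2 := by
        rw [ht, ← Real.rpow_natCast, ← Real.rpow_mul (norm_nonneg _)]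
        congr 1
        push_cast
        ring
      have h16 : t ^ 2 ≤ (C' * (f + e)) ^ 2 := pow_le_pow_left₀ ht0 h12 2
      have h17 : (f + e) ^ 2 ≤ (2 + 4 * k) * (1 / 2 * Q₂ + f ^ 2) := by
        have h18 : (f + e) ^ 2 ≤ 2 * f ^ 2 + 2 * e ^ 2 := by nlinarith [sq_nonneg (f - e)]
        nlinarith [mul_nonneg hk0 (sq_nonneg f)]
      have h19 : t ^ 2 ≤ ((C' ^ 2 + 1) * (2 + 4 * k)) * (1 / 2 * Q₂ + f ^ 2) := by
        have h20 : C' ^ 2 * (f + e) ^ 2 ≤ (C' ^ 2 + 1) * (f + e) ^ 2 := mul_le_mul_of_nonneg_right (by linarith) (sq_nonneg _)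
        have h21 : (C' ^ 2 + 1) * (f + e) ^ 2 ≤ (C' ^ 2 + 1) * ((2 + 4 * k) * (1 / 2 * Q₂ + f ^ 2)) :=
          mul_le_mul_of_nonneg_left h17 (by positivity)
        rw [mul_pow] at h16
        linarith
      rw [h15, ha, one_div, inv_mul_le_iff₀ (by positivity)]
      exact h19
    have h1 := Pool.Agent.SDA.mean_bound hq hm hr0 ha0 (z₀ := z₀) (φ := φ) (B := B' * r ^ 4) hφc.continuousOn hsub (by
      intro z hz
      have hl := hlog (F z) (hN z)
      refine ⟨add_nonneg (Finset.sum_nonneg fun i _ => sq_nonneg _) (mul_nonneg hR0 (by linarith)), ?_⟩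
      have h2 : ∑ i, (u i z) ^ 2 ≤ k * (S * r ^ 2) ^ 2 := by
        have := Finset.sum_le_sum (s := Finset.univ) fun i _ => pow_le_pow_left₀ (zero_le_one.trans (hu1 i z)) (hule z hz i) 2
        simpa [hk, Finset.sum_const, nsmul_eq_mul] using this
      have h3 : R * (Real.log ‖F z‖ + B₄) ≤ R * (5 * A * r ^ 2 + B₄ * r ^ 2) := by
        refine mul_le_mul_of_nonneg_left (add_le_add (hlogF z hz) ?_) hR0
        nlinarith
      calc φ z ≤ k * (S * r ^ 2) ^ 2 + R * (5 * A * r ^ 2 + B₄ * r ^ 2) := add_le_add h2 h3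
        _ = B' * r ^ 4 := by rw [hB', hR]; ring)
    refine h1.trans ?_
    have h13 : 4 * (B' * r ^ 4) / (a * r ^ 2) = 4 * B' / a * r ^ 2 := by
      field_simp
    rw [h13]
    exact mul_le_mul_of_nonneg_right (le_max_right _ _) (by positivity)
  refine Pool.Agent.SY.exists_poly_of_growth (2 * m) q (E ^ m) hq fun z => ?_
  have hY1 : 1 ≤ E * (1 + ‖z‖) ^ 2 := one_le_mul_of_one_le_of_one_le hE1 (one_le_pow₀ (by linarith [norm_nonneg z]))
  have h1 : ‖q z‖ = (‖q z‖ ^ ((2 : ℝ) / m)) ^ ((m : ℝ) / 2) := by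
    rw [← Real.rpow_mul (norm_nonneg _)]
    have : (2 : ℝ) / m * (m / 2) = 1 := by field_simp
    rw [this, Real.rpow_one]
  rw [h1]
  calc (‖q z‖ ^ ((2 : ℝ) / m)) ^ ((m : ℝ) / 2) ≤ (E * (1 + ‖z‖) ^ 2) ^ ((m : ℝ) / 2) :=
        Real.rpow_le_rpow (by positivity) (hbound z) (by positivity)
    _ ≤ (E * (1 + ‖z‖) ^ 2) ^ (m : ℝ) := Real.rpow_le_rpow_of_exponent_le hY1 (by linarith)
    _ = E ^ m * (1 + ‖z‖) ^ (2 * m) := by
        rw [Real.rpow_natCast, mul_pow, ← pow_mul]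

end Pool.Agent.SR3
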