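import Pool.Agent.SR3.Cnt
import Pool.Agent.SR3.Grd
import Pool.Agent.SR3.ABas

/-!
# SR3 PreA: exit radii and Hofer's lemma
-/

set_option autoImplicit false

open Topology Filter Metric

noncomputable section

namespace Pool.Agent.SR3

open Pool.Agent.H36.BP (EN fs wd Sub OrdTwo)
open Pool.Agent.H14.PP (IsCone Tan)
open Pool.Agent.SY (Ent)
open Pool.Agent.SDA (EnergyK Near AffOpen Nm nForms)
open Pool.Agent.H62.EF (MN pr continuousAt_pr)
open Pool.Agent.G3 (LLift)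
open Geo (Gd)

namespace PreA

variable {𝕄 : Type} [MetricSpace 𝕄]

/-- the exit set of the hole `a` -/
def Ex (f : ℂ → 𝕄) (t : Finset ℂ) (s : ℂ → ℝ) (c : ℂ → 𝕄) (ε₂ D : ℝ) (a : ℂ) : Set ℂ :=
  {z | Off t s z ∧ ε₂ ≤ dist (f z) (c a)} ∪ {z | D ≤ ‖z - a‖}

/-- the exit radius -/
def rad (f : ℂ → 𝕄) (t : Finset ℂ) (s : ℂ → ℝ) (c : ℂ → 𝕄) (ε₂ D : ℝ) (a : ℂ) : ℝ := infDist a (Ex f t s c ε₂ D a)

theorem off_closed (t : Finset ℂ) (s : ℂ → ℝ) : IsClosed {z | Off t s z} := by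
  have h : {z | Off t s z} = ⋂ a ∈ t, {z | s a ≤ ‖z - a‖} := by
    ext z
    simp [Off]
  rw [h]
  exact isClosed_biInter fun a _ => isClosed_le continuous_const (by fun_prop)

variable {f : ℂ → 𝕄} {t : Finset ℂ} {s : ℂ → ℝ} {c : ℂ → 𝕄} {ε₂ D : ℝ}

theorem ex_closed (hf : Continuous f) (a : ℂ) : IsClosed (Ex f t s c ε₂ D a) := by
  refine IsClosed.union ?_ (isClosed_le continuous_const (by fun_prop))
  exact (off_closed t s).inter (isClosed_le continuous_const (hf.dist continuous_const))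

theorem ex_nonempty (hD : 0 < D) (a : ℂ) : (Ex f t s c ε₂ D a).Nonempty := by
  refine ⟨a + D, Or.inr ?_⟩
  show D ≤ ‖a + (D : ℂ) - a‖
  rw [add_sub_cancel_left, Complex.norm_real, Real.norm_of_nonneg hD.le]

theorem rad_pos (hD : 0 < D) {a : ℂ} (ha : a ∈ t) (hs : 0 < s a) : 0 < rad f t s c ε₂ D a := by
  refine lt_of_lt_of_le (lt_min hs hD) ((le_infDist (ex_nonempty hD a)).2 ?_)
  intro z hz
  rw [dist_comm, dist_eq_norm]
  rcases hz with hz | hz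
  · exact le_trans (min_le_left _ _) (hz.1 a ha)
  · exact le_trans (min_le_right _ _) hz

theorem rad_stay {a z : ℂ} (h : ‖z - a‖ < rad f t s c ε₂ D a) (hz : Off t s z) : dist (f z) (c a) < ε₂ := by
  by_contra hc
  have h1 : z ∈ Ex f t s c ε₂ D a := Or.inl ⟨hz, not_lt.1 hc⟩
  have h2 := infDist_le_dist_of_mem (x := a) h1
  rw [dist_comm, dist_eq_norm] at h2
  exact absurd h (not_lt.2 h2)

theorem rad_le {a z : ℂ} (hz : Off t s z) (h : ε₂ ≤ dist (f z) (c a)) : rad f t s c ε₂ D a ≤ ‖z - a‖ := by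
  have h1 : z ∈ Ex f t s c ε₂ D a := Or.inl ⟨hz, h⟩
  have h2 := infDist_le_dist_of_mem (x := a) h1
  rw [dist_comm, dist_eq_norm] at h2
  exact h2

theorem rad_exit (hf : Continuous f) (hD : 0 < D) {K ε ε₁ : ℝ} (hK : 20 ≤ K) (hεε : ε < ε₂) (hε₁ : ε + ε₂ ≤ 2 * ε₁)
    (hs : ∀ b ∈ t, 0 < s b) (hsep : ∀ b ∈ t, ∀ b' ∈ t, b ≠ b' → K * max (s b) (s b') < ‖b - b'‖)
    (hrim : ∀ b ∈ t, ∀ z, s b / 2 ≤ ‖z - b‖ → ‖z - b‖ ≤ K * s b → dist (f z) (c b) < ε)
    (hc : ∀ b ∈ t, ∀ b' ∈ t, dist (c b) (c b') < 2 * ε₁ → c b = c b') {a : ℂ} (ha : a ∈ t) (hr : rad f t s c ε₂ D a < D) :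
    ∃ z, ‖z - a‖ = rad f t s c ε₂ D a ∧ Off t s z ∧ dist (f z) (c a) = ε₂ := by
  obtain ⟨z, hz, hzd⟩ := (ex_closed (f := f) (t := t) (s := s) (c := c) (ε₂ := ε₂) (D := D) hf a).exists_infDist_eq_dist (ex_nonempty hD a) a
  have hza : ‖z - a‖ = rad f t s c ε₂ D a := by
    rw [← dist_eq_norm, dist_comm]
    exact hzd.symm
  rcases hz with hz | hz
  swap
  · exact absurd (le_trans hz hza.le) (not_le.2 hr)
  have hr0 : 0 < rad f t s c ε₂ D a := rad_pos hD ha (hs a ha)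
  refine ⟨z, hza, hz.1, le_antisymm ?_ hz.2⟩
  -- `z` is not on a rim
  have hst : ∀ b ∈ t, s b < ‖z - b‖ := by
    intro b hb
    refine lt_of_le_of_ne (hz.1 b hb) fun he => ?_
    have hsb := hs b hb
    have hzb : dist (f z) (c b) < ε := hrim b hb z (by rw [← he]; linarith) (by rw [← he]; nlinarith)
    by_cases hba : b = a
    · rw [hba] at hzb
      linarith [hz.2]
    · have h1 := hsep b hb a ha hba
      have h2 : s b ≤ max (s b) (s a) := le_max_left _ _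
      have hL : 20 * s b < ‖b - a‖ := by nlinarith
      have hL0 : 0 < ‖b - a‖ := by linarith
      obtain ⟨p, hp⟩ : ∃ p : ℂ, p = b + ((2 * s b / ‖b - a‖ : ℝ) : ℂ) * (a - b) := ⟨_, rfl⟩
      have hpb : ‖p - b‖ = 2 * s b := by
        rw [hp, add_sub_cancel_left, norm_mul, Complex.norm_real, Real.norm_of_nonneg (by positivity), norm_sub_rev a b]
        field_simp
      have hpa : ‖p - a‖ = ‖b - a‖ - 2 * s b := by
        have h3 : p - a = ((1 - 2 * s b / ‖b - a‖ : ℝ) : ℂ) * (b - a) := by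
          rw [hp]
          push_cast
          ring
        have h4 : 0 ≤ 1 - 2 * s b / ‖b - a‖ := by
          rw [sub_nonneg, div_le_one hL0]
          linarith
        rw [h3, norm_mul, Complex.norm_real, Real.norm_of_nonneg h4]
        field_simp
      have hlt : ‖p - a‖ < rad f t s c ε₂ D a := by
        have h5 : ‖b - a‖ ≤ ‖z - b‖ + ‖z - a‖ := by
          have h6 := norm_sub_le_norm_sub_add_norm_sub b z a
          rw [norm_sub_rev b z] at h6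
          exact h6
        rw [← hza, hpa]
        linarith
      have hpo : Off t s p := by
        intro k hk
        by_cases hkb : k = b
        · rw [hkb, hpb]
          linarith
        · have h7 := hsep b hb k hk (Ne.symm hkb)
          have h8 : s b ≤ max (s b) (s k) := le_max_left _ _
          have h9 : s k ≤ max (s b) (s k) := le_max_right _ _
          have h10 : ‖b - k‖ ≤ ‖p - b‖ + ‖p - k‖ := by
            have h6 := norm_sub_le_norm_sub_add_norm_sub b p k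
            rw [norm_sub_rev b p] at h6
            exact h6
          nlinarith
      have h11 : dist (f p) (c a) < ε₂ := rad_stay hlt hpo
      have h12 : dist (f p) (c b) < ε := hrim b hb p (by rw [hpb]; linarith) (by rw [hpb]; nlinarith)
      have h13 : dist (c b) (c a) < 2 * ε₁ := by
        have h14 := dist_triangle_left (c b) (c a) (f p)
        linarith
      rw [hc b hb a ha h13] at hzb
      linarith [hz.2]
  -- `z` is a limit of points inside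
  have hlim : Tendsto (fun τ : ℝ => z + (τ : ℂ) * (a - z)) (𝓝[>] 0) (𝓝 z) := by
    have h1 : Tendsto (fun τ : ℝ => z + (τ : ℂ) * (a - z)) (𝓝 0) (𝓝 (z + ((0 : ℝ) : ℂ) * (a - z))) := by
      have h2 : Continuous fun τ : ℝ => z + (τ : ℂ) * (a - z) := by fun_prop
      exact h2.tendsto 0
    rw [Complex.ofReal_zero, zero_mul, add_zero] at h1
    exact h1.mono_left nhdsWithin_le_nhds
  have hev : ∀ᶠ τ : ℝ in 𝓝[>] (0 : ℝ), dist (f (z + (τ : ℂ) * (a - z))) (c a) ≤ ε₂ := by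
    have h1 : ∀ᶠ τ : ℝ in 𝓝[>] (0 : ℝ), ∀ b ∈ t, s b < ‖z + (τ : ℂ) * (a - z) - b‖ := by
      refine (Filter.eventually_all_finset t).2 fun b hb => ?_
      exact ((hlim.sub_const b).norm).eventually (lt_mem_nhds (hst b hb))
    have h2 : ∀ᶠ τ : ℝ in 𝓝[>] (0 : ℝ), τ ∈ Set.Ioo (0 : ℝ) 1 := Ioo_mem_nhdsGT zero_lt_one
    filter_upwards [h1, h2] with τ hτ hτ2
    refine (rad_stay (D := D) ?_ fun b hb => (hτ b hb).le).le
    have h3 : z + (τ : ℂ) * (a - z) - a = ((1 - τ : ℝ) : ℂ) * (z - a) := by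
      push_cast
      ring
    rw [h3, norm_mul, Complex.norm_real, Real.norm_of_nonneg (by linarith [hτ2.2]), hza]
    nlinarith [hτ2.1]
  exact le_of_tendsto (((hf.tendsto z).comp hlim).dist tendsto_const_nhds) hev

end PreA

variable {N : ℕ} {G : Geo N} {T : Set (EN N)} {rho : EN N → ℝ} {M : ℕ} {c₀ C δ : ℝ} {g : (ℂ → EN N) → ℂ → ℝ}

/-- the ends are separated -/
theorem PreA.sepY {Y : Finset (EN N)} (hY : G.Ends Y) : ∃ ε₁ : ℝ, 0 < ε₁ ∧ ∀ y ∈ Y, ∀ y' ∈ Y, dist (pr y) (pr y') < 2 * ε₁ → y = y' := by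
  classical
  have h : ∀ P : Finset (EN N × EN N), (∀ p ∈ P, p.1 ∈ Y ∧ p.2 ∈ Y) → ∃ ε₁ : ℝ, 0 < ε₁ ∧ ∀ p ∈ P, dist (pr p.1) (pr p.2) < 2 * ε₁ → p.1 = p.2 := by
    intro P
    induction P using Finset.induction_on with
    | empty => exact fun _ => ⟨1, one_pos, by simp⟩
    | insert p P hp ih =>
      intro hP
      obtain ⟨e, he, h1⟩ := ih fun p' hp' => hP p' (Finset.mem_insert_of_mem hp')
      by_cases h2 : p.1 = p.2
      · refine ⟨e, he, fun p' hp' h3 => ?_⟩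
        rcases Finset.mem_insert.1 hp' with h4 | h4
        · rw [h4]
          exact h2
        · exact h1 p' h4 h3
      · have h3 : 0 < dist (pr p.1) (pr p.2) := by
          rw [dist_pos]
          intro h4
          exact h2 (hY.inj _ (hP p (Finset.mem_insert_self _ _)).1 _ (hP p (Finset.mem_insert_self _ _)).2 h4)
        refine ⟨min e (dist (pr p.1) (pr p.2) / 2), lt_min he (by linarith), fun p' hp' h5 => ?_⟩
        rcases Finset.mem_insert.1 hp' with h4 | h4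
        · rw [h4] at h5
          have h6 := min_le_right e (dist (pr p.1) (pr p.2) / 2)
          linarith
        · have h6 := min_le_left e (dist (pr p.1) (pr p.2) / 2)
          exact h1 p' h4 (by linarith)
  obtain ⟨e, he, h1⟩ := h (Y ×ˢ Y) fun p hp => Finset.mem_product.1 hp
  exact ⟨e, he, fun y hy y' hy' h2 => h1 (y, y') (Finset.mem_product.2 ⟨hy, hy'⟩) h2⟩

theorem exists_pre (hG : G.Ok) (hM : G.Met T rho M c₀ C δ g) (hQ : G.QN rho) {Y : Finset (EN N)} (hY : G.Ends Y) : ∃ ε₁ : ℝ, 0 < ε₁ ∧ ∀ ε₂ : ℝ, 0 < ε₂ → ε₂ ≤ ε₁ →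
    ∀ B₃ η θ θ' : ℝ, 0 < η → 0 < θ' → θ' < θ → θ < 1 → ∃ B₅ : ℝ, 0 < B₅ ∧ ∀ B₄ ε K : ℝ, 0 < ε → 2 * ε ≤ ε₂ → 20 ≤ K →
      (∀ n : ℕ, ∃ (q : G.J → ℂ) (F : ℂ → EN N) (z₀ : ℂ) (t : Finset ℂ) (s : ℂ → ℝ) (y : ℂ → EN N) (a z : ℂ), G.Cl T q F ∧ (n : ℝ) ≤ infDist z₀ (Gd rho δ F) ∧
        G.Holes Y B₃ B₄ ε K (Real.exp (-(η * infDist z₀ (Gd rho δ F)))) F z₀ (θ * infDist z₀ (Gd rho δ F)) t s y ∧ a ∈ t ∧
        ‖a - z₀‖ ≤ θ' * infDist z₀ (Gd rho δ F) ∧ ‖z - a‖ ≤ infDist z₀ (Gd rho δ F) / (n + 1) ∧ Off t s z ∧ ε₂ ≤ dist (pr (F z)) (pr (y a))) →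
      ∃ q F t s y a ρ d A, G.Pre T rho δ Y B₃ B₄ ε K ε₂ η B₅ q F t s y a ρ d A := by
  obtain ⟨ε₁, hε₁, hsepY⟩ := PreA.sepY hY
  refine ⟨ε₁, hε₁, fun ε₂ h0 h1 B₃ η θ θ' hη hθ' hθθ hθ1 => ?_⟩
  obtain ⟨B, hB, hcount⟩ := holes_count hG hM hQ (Y := Y) (B₃ := B₃) (η := η) (θ := θ) (θ' := (θ + θ') / 2) hη (by linarith) (by linarith) hθ1
  have hθ0 : 0 < 1 - θ := by linarith
  refine ⟨(B + 2) / (1 - θ), by positivity, fun B₄ ε K hε hεε hK hseq => ?_⟩
  obtain ⟨R, hR, hcount⟩ := hcount B₄ ε K hK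
  obtain ⟨κ, hκ0, hκ1, hκ2⟩ : ∃ κ : ℝ, 0 < κ ∧ κ ≤ 1 - θ ∧ 4 * κ ≤ θ - θ' :=
    ⟨min (1 - θ) ((θ - θ') / 4), lt_min hθ0 (by linarith), min_le_left _ _, by linarith [min_le_right (1 - θ) ((θ - θ') / 4)]⟩
  have key : ∀ n : ℕ, ∃ (q : G.J → ℂ) (F : ℂ → EN N) (t : Finset ℂ) (s : ℂ → ℝ) (y : ℂ → EN N) (a : ℂ) (ρ d A : ℝ),
      G.Cl T q F ∧ (0 < ρ ∧ (n : ℝ) ≤ d ∧ (n : ℝ) ≤ A ∧ A * ρ ≤ d) ∧ (∀ z, ‖z - a‖ ≤ A * ρ → d ≤ infDist z (Gd rho δ F)) ∧
      infDist a (Gd rho δ F) ≤ (B + 2) / (1 - θ) * d ∧ a ∈ t ∧ (∀ b ∈ t, 0 < s b ∧ s b ≤ Real.exp (-(η * d))) ∧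
      (∀ b ∈ t, ∀ b' ∈ t, b ≠ b' → K * max (s b) (s b') < ‖b - b'‖) ∧
      (∀ z, ‖z - a‖ ≤ A * ρ → Real.log ‖F z‖ ≤ B₃ → ∃ b ∈ t, ‖z - b‖ < s b / 2) ∧
      (∀ b ∈ t, G.Rim Y B₃ B₄ ε K (fun w => F (b + s b * w)) (y b)) ∧
      (∀ r, 0 < r → r < d → (((t.erase a).filter (fun b => ‖b - a‖ ≤ r)).card : ℝ) * Real.log (d / r) ≤ (B + 2) / (1 - θ) * d) ∧
      (∀ z, ‖z - a‖ < ρ → Off t s z → dist (pr (F z)) (pr (y a)) < ε₂) ∧
      (∃ z, ‖z - a‖ = ρ ∧ Off t s z ∧ dist (pr (F z)) (pr (y a)) = ε₂) ∧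
      (∀ b ∈ t, ‖b - a‖ ≤ A * ρ → ∀ z, ‖z - b‖ < ρ / 2 → Off t s z → dist (pr (F z)) (pr (y b)) < ε₂) := by
    intro n
    obtain ⟨m, hm⟩ := exists_nat_ge (max R ((n + 1) / κ))
    have hmR : R ≤ m := le_trans (le_max_left _ _) hm
    have hmn : (n + 1 : ℝ) ≤ κ * m := by
      have h2 := le_trans (le_max_right R ((n + 1) / κ)) hm
      rw [div_le_iff₀ hκ0] at h2
      linarith
    obtain ⟨q, F, z₀, t, s, y, a₀, z₁, hF, hD, hH, ha₀, ha₀z, hz₁, hz₁o, hz₁d⟩ := hseq m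
    obtain ⟨D, hDe⟩ : ∃ D, D = infDist z₀ (Gd rho δ F) := ⟨_, rfl⟩
    have hcnt := hcount q F hF z₀ t s y
    rw [← hDe] at hD hH ha₀z hz₁ hcnt
    have hn0 : (0 : ℝ) ≤ n := Nat.cast_nonneg n
    have hm0 : (0 : ℝ) < m := by
      by_contra hc
      have h2 : κ * (m : ℝ) ≤ 0 := mul_nonpos_of_nonneg_of_nonpos hκ0.le (not_lt.1 hc)
      linarith
    have hD0 : 0 < D := lt_of_lt_of_le hm0 hD
    have hf : Continuous fun z => pr (F z) := by
      rw [continuous_iff_continuousAt]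
      intro z
      exact (continuousAt_pr (ne0 hG (hF.ent.mem z))).comp (f := F) hF.ent.diff.continuous.continuousAt
    have hs : ∀ b ∈ t, 0 < s b := fun b hb => (hH.pos b hb).1
    have hrim : ∀ b ∈ t, ∀ z, s b / 2 ≤ ‖z - b‖ → ‖z - b‖ ≤ K * s b → dist (pr (F z)) (pr (y b)) < ε := by
      intro b hb z hz1 hz2
      have hsb := hs b hb
      have hsb' : (s b : ℂ) ≠ 0 := Complex.ofReal_ne_zero.2 hsb.ne'
      have h2 := (hH.rim b hb).ann ((z - b) / s b)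
      rw [norm_div, Complex.norm_real, Real.norm_of_nonneg hsb.le, le_div_iff₀ hsb, div_le_iff₀ hsb] at h2
      have h3 := (h2 (by linarith) hz2).2
      have h4 : b + (s b : ℂ) * ((z - b) / s b) = z := by
        field_simp
        ring
      simp only [h4] at h3
      exact h3
    have hc : ∀ b ∈ t, ∀ b' ∈ t, dist (pr (y b)) (pr (y b')) < 2 * ε₁ → pr (y b) = pr (y b') := by
      intro b hb b' hb' h2
      rw [hsepY _ (hH.rim b hb).mem _ (hH.rim b' hb').mem h2]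
    obtain ⟨ρ, hρ⟩ : ∃ ρ : ℂ → ℝ, ρ = PreA.rad (fun z => pr (F z)) t s (fun b => pr (y b)) ε₂ D := ⟨_, rfl⟩
    have hρ0 : ∀ b ∈ t, 0 < ρ b := fun b hb => by
      rw [hρ]
      exact PreA.rad_pos hD0 hb (hs b hb)
    have hA : (0 : ℝ) < n + 1 := by linarith
    obtain ⟨a, ha, haa, hρa, hho⟩ := hofer hρ0 hA ha₀
    have hρ1 : ρ a₀ ≤ D / (m + 1) := by
      refine le_trans ?_ hz₁
      rw [hρ]
      exact PreA.rad_le hz₁o hz₁d
    have hAρ0 : (n + 1) * ρ a₀ ≤ κ * D := by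
      have h2 : (0 : ℝ) < m + 1 := by linarith
      rw [le_div_iff₀ h2] at hρ1
      have h3 : 0 < ρ a₀ := hρ0 a₀ ha₀
      nlinarith
    have hAρ : (n + 1) * ρ a ≤ κ * D := le_trans (mul_le_mul_of_nonneg_left hρa hA.le) hAρ0
    have hκD : κ * D ≤ (1 - θ) * D := mul_le_mul_of_nonneg_right hκ1 hD0.le
    have hκD4 : 4 * (κ * D) ≤ (θ - θ') * D := by nlinarith
    have haz : ‖a - z₀‖ ≤ θ' * D + 2 * (κ * D) := by
      have h2 := norm_sub_le_norm_sub_add_norm_sub a a₀ z₀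
      linarith
    have hzz : ∀ z, ‖z - a‖ ≤ (n + 1) * ρ a → ‖z - z₀‖ ≤ θ * D := by
      intro z hz
      have h2 := norm_sub_le_norm_sub_add_norm_sub z a z₀
      linarith [mul_pos hκ0 hD0]
    have haz2 : ‖a - z₀‖ ≤ (θ + θ') / 2 * D := by linarith
    have hρa0 : 0 < ρ a := hρ0 a ha
    have hρD : ρ a < D := by
      have h2 : ρ a ≤ (n + 1) * ρ a := by nlinarith
      have h3 : κ * D < D := by nlinarith
      linarith
    have hdD : (1 - θ) * D ≤ D := by nlinarith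
    refine ⟨q, F, t, s, y, a, ρ a, (1 - θ) * D, n + 1, hF, ⟨hρa0, ?_, by linarith, le_trans hAρ hκD⟩, ?_, ?_, ha, ?_, hH.sep, ?_, hH.rim, ?_, ?_, ?_, ?_⟩
    · have h2 : κ * (m : ℝ) ≤ (1 - θ) * D := mul_le_mul hκ1 hD hm0.le hθ0.le
      linarith
    · intro z hz
      have h2 := infDist_le_infDist_add_dist (s := Gd rho δ F) (x := z₀) (y := z)
      rw [← hDe, dist_comm, dist_eq_norm] at h2
      linarith [hzz z hz]
    · have h2 := infDist_le_infDist_add_dist (s := Gd rho δ F) (x := a) (y := z₀)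
      rw [← hDe, dist_eq_norm] at h2
      have h3 : (B + 2) / (1 - θ) * ((1 - θ) * D) = (B + 2) * D := by
        field_simp
      rw [h3]
      nlinarith
    · intro b hb
      refine ⟨hs b hb, le_trans (hH.pos b hb).2 (Real.exp_le_exp.2 ?_)⟩
      nlinarith
    · intro z hz hl
      exact hH.cov z (by rw [mem_closedBall, dist_eq_norm]; exact hzz z hz) hl
    · intro r hr hrd
      have h2 := (hcnt (le_trans hmR hD) hH).2 a ha haz2 r hr (by linarith)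
      have h3 : (B + 2) / (1 - θ) * ((1 - θ) * D) = (B + 2) * D := by
        field_simp
      rw [h3]
      have h4 : Real.log ((1 - θ) * D / r) ≤ Real.log (D / r) :=
        Real.log_le_log (div_pos (by positivity) hr) (div_le_div_of_nonneg_right hdD hr.le)
      have h5 := mul_le_mul_of_nonneg_left h4 (Nat.cast_nonneg (α := ℝ) ((t.erase a).filter (fun b => ‖b - a‖ ≤ r)).card)
      linarith
    · intro z hz ho
      rw [hρ] at hz
      exact PreA.rad_stay hz ho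
    · rw [hρ] at hρD ⊢
      exact PreA.rad_exit hf hD0 hK (by linarith) (by linarith) hs hH.sep hrim hc ha hρD
    · intro b hb hba z hz ho
      have h2 := hho b hb hba
      have h3 : ‖z - b‖ < ρ b := lt_of_lt_of_le hz h2
      rw [hρ] at h3
      exact PreA.rad_stay h3 ho
  choose q F t s y a ρ d A h using key
  exact ⟨q, F, t, s, y, a, ρ, d, A, ⟨fun n => (h n).1, fun n => (h n).2.1, fun n => (h n).2.2.1, fun n => (h n).2.2.2.1, fun n => (h n).2.2.2.2.1,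
    fun n => (h n).2.2.2.2.2.1, fun n => (h n).2.2.2.2.2.2.1, fun n => (h n).2.2.2.2.2.2.2.1, fun n => (h n).2.2.2.2.2.2.2.2.1,
    fun n => (h n).2.2.2.2.2.2.2.2.2.1, fun n => (h n).2.2.2.2.2.2.2.2.2.2.1, fun n => (h n).2.2.2.2.2.2.2.2.2.2.2.1,
    fun n => (h n).2.2.2.2.2.2.2.2.2.2.2.2⟩⟩

end Pool.Agent.SR3
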