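import Pool.Agent.SR3.RimA
import Pool.Agent.SR3.LinL
import Pool.Agent.SR3.AJmp

/-!
# SR3 RimB: every well is in a hole

If `log ‖F z‖ ≤ B₃` and the distance `d` of `z` to the good points is large, let `r` be the distance of `z` to the set where `log ‖F‖ ≥ B₃ + 1`: `r ≤ exp (-η₀ d)`
(`jump`).  If the statement is false for `η = η₀ / 2`, there is a sequence of counterexamples with `B₄ = n`, `d ≥ n`; along an ultrafilter the curves
`F (z + r w)` tend to a line (`line_limit`), and `rim_of_line` gives a hole with the radius `κ r`, `κ` independent of `n`.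
-/

set_option autoImplicit false

open Topology Filter Metric

noncomputable section

namespace Pool.Agent.SR3

open Pool.Agent.H36.BP (EN fs wd Sub OrdTwo)
open Pool.Agent.H14.PP (IsCone Tan)
open Pool.Agent.SY (Ent)
open Pool.Agent.SDA (EnergyK Near AffOpen Nm nForms)
open Pool.Agent.H62.EF (MN pr)
open Pool.Agent.G3 (LLift)
open Geo (Gd)

variable {N : ℕ} {G : Geo N} {T : Set (EN N)} {rho : EN N → ℝ} {M : ℕ} {c₀ C δ : ℝ} {g : (ℂ → EN N) → ℂ → ℝ}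

/-- the radius of a well -/
theorem rimb_scale (hG : G.Ok) (hM : G.Met T rho M c₀ C δ g) (hQ : G.QN rho) (B : ℝ) :
    ∃ η R : ℝ, 0 < η ∧ 0 < R ∧ ∀ (q : G.J → ℂ) (F : ℂ → EN N), G.Cl T q F → ∀ z, R ≤ infDist z (Gd rho δ F) → Real.log ‖F z‖ ≤ B →
      ∃ r : ℝ, 0 < r ∧ r ≤ Real.exp (-(η * infDist z (Gd rho δ F))) ∧ (∀ w : ℂ, ‖w‖ ≤ 1 → Real.log ‖F (z + r * w)‖ ≤ B + 1) ∧
        ∃ w : ℂ, ‖w‖ ≤ 1 ∧ B + 1 ≤ Real.log ‖F (z + r * w)‖ := by
  obtain ⟨η, R, hη, hR, hjump⟩ := jump (⟨hG, hM, hQ⟩ : Base G T rho M c₀ C δ g) B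
  refine ⟨η, R, hη, hR, fun q F hF z hz hB => ?_⟩
  obtain ⟨w₀, hw₀, hw₀B⟩ := hjump q F hF z hz hB
  have hFd := hF.ent.diff
  have hF0 : ∀ w, F w ≠ 0 := fun w => ne0 hG (hF.ent.mem w)
  have hcont : Continuous fun w => Real.log ‖F w‖ := hFd.continuous.norm.log fun w => norm_ne_zero_iff.2 (hF0 w)
  obtain ⟨s₀, hs₀⟩ : ∃ s₀ : ℝ, s₀ = Real.exp (-(η * infDist z (Gd rho δ F))) := ⟨_, rfl⟩
  rw [← hs₀] at hw₀ ⊢
  have hAc : IsCompact (closedBall z s₀ ∩ {w | B + 1 ≤ Real.log ‖F w‖}) :=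
    (isCompact_closedBall z s₀).inter_right (isClosed_le continuous_const hcont)
  obtain ⟨w₁, ⟨hw₁s, hw₁B⟩, hmin⟩ := hAc.exists_isMinOn ⟨w₀, by rw [mem_closedBall, dist_eq_norm]; exact hw₀, hw₀B.le⟩
    ((continuous_id.sub continuous_const).norm.continuousOn (f := fun w : ℂ => ‖id w - z‖))
  obtain ⟨r, hr⟩ : ∃ r : ℝ, r = ‖w₁ - z‖ := ⟨_, rfl⟩
  have hrs : r ≤ s₀ := by rwa [mem_closedBall, dist_eq_norm, ← hr] at hw₁s
  have hr0 : 0 < r := by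
    rw [hr, norm_pos_iff, sub_ne_zero]
    rintro rfl
    have h1 : B + 1 ≤ Real.log ‖F w₁‖ := hw₁B
    linarith
  have hlt : ∀ w ∈ ball z r, Real.log ‖F w‖ ≤ B + 1 := by
    intro w hw
    by_contra hcon
    push Not at hcon
    rw [mem_ball, dist_eq_norm] at hw
    have h1 : ‖id w₁ - z‖ ≤ ‖id w - z‖ := hmin ⟨by rw [mem_closedBall, dist_eq_norm]; exact hw.le.trans hrs, hcon.le⟩
    have h2 : r ≤ ‖w - z‖ := by
      rw [hr]
      exact h1
    exact absurd hw (not_lt.2 h2)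
  have hle : ∀ w ∈ closedBall z r, Real.log ‖F w‖ ≤ B + 1 := by
    intro w hw
    rw [← closure_ball z hr0.ne'] at hw
    exact closure_minimal (fun y hy => hlt y hy) (isClosed_le hcont continuous_const) hw
  have hrn : ‖(r : ℂ)‖ = r := by rw [Complex.norm_real, Real.norm_of_nonneg hr0.le]
  refine ⟨r, hr0, hrs, fun w hw => hle _ ?_, ⟨(w₁ - z) / r, ?_, ?_⟩⟩
  · rw [mem_closedBall, dist_eq_norm, add_sub_cancel_left, norm_mul, hrn]
    exact mul_le_of_le_one_right hr0.le hw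
  · rw [norm_div, hrn, ← hr, div_self hr0.ne']
  · have e : z + (r : ℂ) * ((w₁ - z) / r) = w₁ := by
      have : (r : ℂ) ≠ 0 := Complex.ofReal_ne_zero.2 hr0.ne'
      field_simp
      ring
    rw [e]
    exact hw₁B

theorem exists_rim (hG : G.Ok) (hM : G.Met T rho M c₀ C δ g) (hQ : G.QN rho) {Y : Finset (EN N)} (hY : G.Ends Y) : ∃ ε₁ : ℝ, 0 < ε₁ ∧ ∀ B₃ : ℝ, ∃ η : ℝ, 0 < η ∧
    ∀ ε : ℝ, 0 < ε → ε ≤ ε₁ → ∀ K : ℝ, ∃ B₄ R : ℝ, 0 < R ∧ ∀ (q : G.J → ℂ) (F : ℂ → EN N), G.Cl T q F → ∀ z, R ≤ infDist z (Gd rho δ F) →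
      Real.log ‖F z‖ ≤ B₃ → ∃ (s : ℝ) (y : EN N), 0 < s ∧ s ≤ Real.exp (-(η * infDist z (Gd rho δ F))) ∧ G.Rim Y B₃ B₄ ε K (fun w => F (z + s * w)) y := by
  obtain ⟨ε₁, hε₁, hrim⟩ := rim_of_line hG hY
  refine ⟨ε₁, hε₁, fun B₃ => ?_⟩
  obtain ⟨η, R₀, hη, hR₀, hsc⟩ := rimb_scale hG hM hQ B₃
  refine ⟨η / 2, half_pos hη, fun ε hε hεε K => ?_⟩
  by_contra hcon
  push Not at hcon
  have hseq : ∀ n : ℕ, ∃ (q : G.J → ℂ) (F : ℂ → EN N) (z : ℂ) (r : ℝ), G.Cl T q F ∧ (n : ℝ) ≤ infDist z (Gd rho δ F) ∧ Real.log ‖F z‖ ≤ B₃ ∧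
      (∀ (s : ℝ) (y : EN N), 0 < s → s ≤ Real.exp (-(η / 2 * infDist z (Gd rho δ F))) → ¬ G.Rim Y B₃ n ε K (fun w => F (z + s * w)) y) ∧
      0 < r ∧ r ≤ Real.exp (-(η * infDist z (Gd rho δ F))) ∧ (∀ w : ℂ, ‖w‖ ≤ 1 → Real.log ‖F (z + r * w)‖ ≤ B₃ + 1) ∧
        ∃ w : ℂ, ‖w‖ ≤ 1 ∧ B₃ + 1 ≤ Real.log ‖F (z + r * w)‖ := by
    intro n
    obtain ⟨q, F, hF, z, hz, hB, hno⟩ := hcon n (max R₀ n) (lt_max_of_lt_left hR₀)
    obtain ⟨r, hr, hr1, h1, h2⟩ := hsc q F hF z ((le_max_left _ _).trans hz) hB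
    exact ⟨q, F, z, r, hF, (le_max_right _ _).trans hz, hB, hno, hr, hr1, h1, h2⟩
  choose q F z r hF hz hB hno hr hr1 h1 h2 using hseq
  obtain ⟨𝒰, h𝒰⟩ : ∃ 𝒰 : Ultrafilter ℕ, (𝒰 : Filter ℕ) ≤ atTop := Ultrafilter.exists_le atTop
  have hd : Tendsto (fun n => infDist (z n) (Gd rho δ (F n))) (𝒰 : Filter ℕ) atTop :=
    tendsto_atTop_mono hz ((tendsto_natCast_atTop_atTop (R := ℝ)).mono_left h𝒰)
  obtain ⟨φ, hφ, hlim⟩ := line_limit hG hM hQ (B := B₃ + 1) (B' := B₃) hη 𝒰 h𝒰 q F z r hF hd (Eventually.of_forall fun n => ⟨hr n, hr1 n⟩)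
    (Eventually.of_forall h1) (Eventually.of_forall fun n => ⟨0, by simp, by simpa using hB n⟩) (Eventually.of_forall h2)
  have hΓd : ∀ n, Differentiable ℂ fun w => F n (z n + r n * w) := fun n =>
    (hF n).ent.diff.comp ((differentiable_const _).add ((differentiable_const _).mul differentiable_id))
  obtain ⟨κ, B₆, y, hκ, hev⟩ := hrim ε hε hεε B₃ K 𝒰 (fun n w => F n (z n + r n * w)) φ
    (fun n => ⟨hΓd n, fun w => (hF n).ent.mem _, fun w => (hF n).nm _, by simpa using hB n⟩) hφ hlim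
  -- the bound on the disc of radius `K`
  have hκ0 : 0 < κ := by linarith
  have hφc : Continuous φ := hφ.diff.continuous
  obtain ⟨A, hA⟩ := (isCompact_closedBall (0 : ℂ) (κ * K)).exists_bound_of_continuousOn hφc.continuousOn
  have hunif := (tendstoLocallyUniformlyOn_iff_forall_isCompact isOpen_univ).1 hlim (closedBall (0 : ℂ) (κ * K)) (Set.subset_univ _)
    (isCompact_closedBall (0 : ℂ) (κ * K))
  rw [Metric.tendstoUniformlyOn_iff] at hunif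
  have hn1 : ∀ᶠ n : ℕ in (𝒰 : Filter ℕ), B₆ ≤ n := h𝒰 ((tendsto_natCast_atTop_atTop (R := ℝ)).eventually_ge_atTop B₆)
  have hn2 : ∀ᶠ n : ℕ in (𝒰 : Filter ℕ), Real.log (A + 1) ≤ n := h𝒰 ((tendsto_natCast_atTop_atTop (R := ℝ)).eventually_ge_atTop _)
  have hn3 : ∀ᶠ n : ℕ in (𝒰 : Filter ℕ), 2 / η * Real.log κ ≤ infDist (z n) (Gd rho δ (F n)) := hd.eventually_ge_atTop _
  obtain ⟨n, hn, hu, hn1, hn2, hn3⟩ := (hev.and ((hunif 1 one_pos).and (hn1.and (hn2.and hn3)))).exists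
  have hbd : ∀ w : ℂ, ‖w‖ ≤ K → Real.log ‖F n (z n + r n * (κ * w))‖ ≤ n := by
    intro w hw
    have hmem : (κ : ℂ) * w ∈ closedBall (0 : ℂ) (κ * K) := by
      rw [mem_closedBall_zero_iff, norm_mul, Complex.norm_real, Real.norm_of_nonneg hκ0.le]
      exact mul_le_mul_of_nonneg_left hw hκ0.le
    have h3 := hu _ hmem
    have h4 := hA _ hmem
    rw [dist_comm, dist_eq_norm] at h3
    have h5 : ‖F n (z n + r n * (κ * w))‖ ≤ A + 1 := by
      have h6 : ‖F n (z n + r n * (κ * w))‖ ≤ ‖F n (z n + r n * (κ * w)) - φ (κ * w)‖ + ‖φ (κ * w)‖ := by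
        have := norm_add_le (F n (z n + r n * (κ * w)) - φ (κ * w)) (φ (κ * w))
        rwa [sub_add_cancel] at this
      linarith
    exact (Real.log_le_log (norm_pos_iff.2 (ne0 hG ((hF n).ent.mem _))) h5).trans hn2
  have hR := hn n hn1 hbd
  refine hno n (κ * r n) y (mul_pos hκ0 (hr n)) ?_ ?_
  · -- the radius
    have h3 : κ ≤ Real.exp (η / 2 * infDist (z n) (Gd rho δ (F n))) := by
      rw [← Real.log_le_iff_le_exp hκ0]
      have h4 := mul_le_mul_of_nonneg_left hn3 (half_pos hη).le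
      have h5 : η / 2 * (2 / η * Real.log κ) = Real.log κ := by
        field_simp
      rwa [h5] at h4
    calc κ * r n ≤ Real.exp (η / 2 * infDist (z n) (Gd rho δ (F n))) * Real.exp (-(η * infDist (z n) (Gd rho δ (F n)))) :=
          mul_le_mul h3 (hr1 n) (hr n).le (Real.exp_pos _).le
      _ = Real.exp (-(η / 2 * infDist (z n) (Gd rho δ (F n)))) := by
          rw [← Real.exp_add]
          congr 1
          ring
  · have e : (fun w : ℂ => F n (z n + ((κ * r n : ℝ) : ℂ) * w)) = fun w => F n (z n + r n * (κ * w)) := by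
      funext w
      congr 1
      push_cast
      ring
    rw [e]
    exact hR

end Pool.Agent.SR3
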