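import Pool.Agent.SR3.RsDefs

/-!
# SR3 RsC1: adapted charts at the points of a surface with a boundary with normal crossings

If only the second coordinate is used, the two coordinates of the chart are exchanged.
-/

set_option autoImplicit false

open Topology Filter Metric MvPolynomial

noncomputable section

namespace Pool.Agent.SR3

open Pool.Agent.H36.BP (EN fs)
open Pool.Agent.H17BP (Surface IsChart)
open Pool.Agent.H17EF (coneE)

variable {N k M : ℕ}

variable {P : Ideal (MvPolynomial (Fin (N + 1)) ℂ)} {H : MvPolynomial (Fin (N + 1)) ℂ} {E : Fin k → Fin (M + 1) → MvPolynomial (Fin (N + 1)) ℂ}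
  {b : Fin k → ℕ}

/-- exchange of the coordinates -/
private theorem chart_swap {X : Set (EN N)} {σ : ℂ × ℂ → EN N} {τ : EN N → ℂ × ℂ} (h : IsChart X σ τ) :
    IsChart X (fun y => σ (y.2, y.1)) (fun x => ((τ x).2, (τ x).1)) := by
  have h0 : ((0 : ℂ × ℂ).2, (0 : ℂ × ℂ).1) = 0 := rfl
  have hsw : Tendsto (fun y : ℂ × ℂ => (y.2, y.1)) (𝓝 0) (𝓝 0) := by
    have h1 : Continuous fun y : ℂ × ℂ => (y.2, y.1) := continuous_snd.prodMk continuous_fst
    have h2 := h1.tendsto 0
    rwa [h0] at h2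
  have hsa : AnalyticAt ℂ (fun y : ℂ × ℂ => (y.2, y.1)) 0 := analyticAt_snd.prod analyticAt_fst
  refine ⟨?_, hsw.eventually h.σ_mem, ?_, ?_, ?_, ?_, ?_⟩
  · exact AnalyticAt.comp (g := σ) (f := fun y : ℂ × ℂ => (y.2, y.1)) (by rw [h0]; exact h.σ_an) hsa
  · show σ ((0 : ℂ × ℂ).2, (0 : ℂ × ℂ).1) ≠ 0
    rw [h0]
    exact h.ne
  · show AnalyticAt ℂ (fun x => ((τ x).2, (τ x).1)) (σ ((0 : ℂ × ℂ).2, (0 : ℂ × ℂ).1))
    rw [h0]
    have h3 : AnalyticAt ℂ (fun x => (τ x).2) (σ 0) := AnalyticAt.comp (g := fun y : ℂ × ℂ => y.2) analyticAt_snd h.τ_an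
    have h4 : AnalyticAt ℂ (fun x => (τ x).1) (σ 0) := AnalyticAt.comp (g := fun y : ℂ × ℂ => y.1) analyticAt_fst h.τ_an
    exact h3.prod h4
  · filter_upwards [hsw.eventually h.left] with y hy
    rw [hy]
  · show ∀ᶠ y in 𝓝 (σ ((0 : ℂ × ℂ).2, (0 : ℂ × ℂ).1)), _
    rw [h0]
    exact h.right
  · show ∀ᶠ p in 𝓝 (σ ((0 : ℂ × ℂ).2, (0 : ℂ × ℂ).1), (1 : ℂ)), _
    rw [h0]
    filter_upwards [h.inv] with p hp
    rw [hp]

/-- the case where the names of the components are given -/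
private theorem lc_of (hpos : ∀ i, 1 ≤ b i) {σ : ℂ × ℂ → EN N} {τ : EN N → ℂ × ℂ} {s : Fin k → Option Bool} {e : Fin k → ℂ × ℂ → EN M} {u : ℂ × ℂ → ℂ}
    (hσ : IsChart (coneE P) σ τ) (he : ∀ i, AnalyticAt ℂ (e i) 0 ∧ e i 0 ≠ 0 ∧ ∀ᶠ y in 𝓝 (0 : ℂ × ℂ), vec (E i) (σ y) = co (s i) y • e i y)
    (hu : AnalyticAt ℂ u 0) (hu0 : u 0 ≠ 0) (hH : ∀ᶠ y in 𝓝 (0 : ℂ × ℂ), eval (σ y).ofLp H = u y * ∏ i, co (s i) y ^ b i)
    {o₁ o₂ : Option (Fin k)} (h1 : ∀ i, o₁ = some i ↔ s i = some false) (h2 : ∀ i, o₂ = some i ↔ s i = some true) (h3 : o₁ = none → o₂ = none) :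
    LC P H E σ τ o₁ o₂ := by
  classical
  refine ⟨hσ, ?_, h3, ?_, ?_⟩
  · intro i hi hi'
    rw [h1] at hi
    rw [h2, hi] at hi'
    simp at hi'
  · intro i
    obtain ⟨ha, hb, hc⟩ := he i
    refine ⟨e i, ha, hb, ?_⟩
    filter_upwards [hc] with y hy
    rw [hy]
    congr 1
    rcases hs : s i with _ | (_ | _)
    · have ho1 : ¬ o₁ = some i := by rw [h1, hs]; simp
      have ho2 : ¬ o₂ = some i := by rw [h2, hs]; simp
      simp [ho1, ho2, gg, co]
    · have ho1 : o₁ = some i := by rw [h1, hs]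
      have ho2 : ¬ o₂ = some i := by rw [h2, hs]; simp
      simp [ho1, ho2, gg, co]
    · have ho1 : ¬ o₁ = some i := by rw [h1, hs]; simp
      have ho2 : o₂ = some i := by rw [h2, hs]
      simp [ho1, ho2, gg, co]
  · filter_upwards [hσ.σ_mem, hH, hu.continuousAt.eventually_ne hu0] with y hy1 hy2 hy3
    have h4 : σ y ∈ oc P H ↔ ∀ i, co (s i) y ≠ 0 := by
      constructor
      · intro h5 i h6
        have h7 := h5.2 0
        rw [hy2] at h7
        apply h7
        rw [Finset.prod_eq_zero (Finset.mem_univ i), mul_zero]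
        rw [h6, zero_pow]
        have := hpos i
        omega
      · intro h5
        refine ⟨hy1, fun _ => ?_⟩
        rw [hy2]
        exact mul_ne_zero hy3 (Finset.prod_ne_zero_iff.2 fun i _ => pow_ne_zero _ (h5 i))
    rw [h4]
    constructor
    · intro h5
      refine mul_ne_zero ?_ ?_
      · rcases ho : o₁ with _ | i
        · simp [gg]
        · have h6 := h5 i
          rw [(h1 i).1 ho] at h6
          simpa [gg, co] using h6
      · rcases ho : o₂ with _ | i
        · simp [gg]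
        · have h6 := h5 i
          rw [(h2 i).1 ho] at h6
          simpa [gg, co] using h6
    · intro h5 i
      rcases hs : s i with _ | (_ | _)
      · simp [co]
      · have h6 := left_ne_zero_of_mul h5
        rw [(h1 i).2 hs] at h6
        simpa [gg, co] using h6
      · have h6 := right_ne_zero_of_mul h5
        rw [(h2 i).2 hs] at h6
        simpa [gg, co] using h6

/-- the name of the component which belongs to a coordinate -/
private theorem exists_name {s : Fin k → Option Bool} (hs : ∀ i i', s i ≠ none → s i = s i' → i = i') (c : Bool) :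
    ∃ o : Option (Fin k), ∀ i, o = some i ↔ s i = some c := by
  by_cases h : ∃ i, s i = some c
  · obtain ⟨i, hi⟩ := h
    refine ⟨some i, fun i' => ⟨fun h => ?_, fun h => ?_⟩⟩
    · rw [Option.some.injEq] at h
      rw [← h, hi]
    · rw [hs i i' (by rw [hi]; simp) (by rw [hi, h])]
  · push Not at h
    exact ⟨none, fun i => ⟨fun h' => by simp at h', fun h' => absurd h' (h i)⟩⟩

/-- adapted charts -/
theorem exists_lc (hs : Snc P H E b) {x : EN N} (hx : x ∈ coneE P) : ∃ σ τ o₁ o₂, LC P H E σ τ o₁ o₂ ∧ σ 0 = x := by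
  classical
  obtain ⟨σ, τ, s, e, u, hσ, h0, hinj, he, hu, hu0, hH⟩ := hs.chart x hx
  obtain ⟨o₁, ho₁⟩ := exists_name hinj false
  obtain ⟨o₂, ho₂⟩ := exists_name hinj true
  by_cases hcase : o₁ = none → o₂ = none
  · exact ⟨σ, τ, o₁, o₂, lc_of hs.pos hσ he hu hu0 hH ho₁ ho₂ hcase, h0⟩
  · push Not at hcase
    -- exchange the coordinates
    have hsw : Tendsto (fun y : ℂ × ℂ => (y.2, y.1)) (𝓝 0) (𝓝 0) := by
      have h1 : Continuous fun y : ℂ × ℂ => (y.2, y.1) := continuous_snd.prodMk continuous_fst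
      exact h1.tendsto 0
    have hsa : AnalyticAt ℂ (fun y : ℂ × ℂ => (y.2, y.1)) 0 := analyticAt_snd.prod analyticAt_fst
    have hco : ∀ (i : Fin k) (y : ℂ × ℂ), co (s i) (y.2, y.1) = co ((s i).map not) y := by
      intro i y
      rcases s i with _ | (_ | _) <;> rfl
    refine ⟨fun y => σ (y.2, y.1), fun x => ((τ x).2, (τ x).1), o₂, o₁, ?_, h0⟩
    refine lc_of (s := fun i => (s i).map not) (e := fun i y => e i (y.2, y.1)) (u := fun y => u (y.2, y.1)) hs.pos (chart_swap hσ) ?_ ?_ hu0 ?_ ?_ ?_ ?_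
    · intro i
      obtain ⟨ha, hb, hc⟩ := he i
      refine ⟨AnalyticAt.comp (g := e i) (f := fun y : ℂ × ℂ => (y.2, y.1)) ha hsa, hb, ?_⟩
      filter_upwards [hsw.eventually hc] with y hy
      rw [hy, hco]
    · exact AnalyticAt.comp (g := u) (f := fun y : ℂ × ℂ => (y.2, y.1)) hu hsa
    · filter_upwards [hsw.eventually hH] with y hy
      rw [hy]
      simp only [hco]
    · intro i
      rw [ho₂]
      rcases s i with _ | (_ | _) <;> simp
    · intro i
      rw [ho₁]
      rcases s i with _ | (_ | _) <;> simp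
    · intro h
      exact absurd h hcase.2

end Pool.Agent.SR3
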