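import Pool.Agent.SR3.HDefs
import Pool.Agent.SR3.ResA

/-!
# SR3 RsDefs: charts for the residues

`gg b z` is `z` if `b = true` and `1` otherwise.
-/

set_option autoImplicit false

open Topology Filter Metric MvPolynomial

noncomputable section

namespace Pool.Agent.SR3

open Pool.Agent.H36.BP (EN fs)
open Pool.Agent.H17BP (IsChart)
open Pool.Agent.H17EF (coneE)

variable {N k M : ℕ}

/-- `log` of the inverse distance to the component (the same as `lamE` in `StubH`) -/
def lamV (E : Fin (M + 1) → MvPolynomial (Fin (N + 1)) ℂ) (c : ℕ) (x : EN N) : ℝ := c * Real.log ‖x‖ - Real.log ‖vec E x‖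

/-- A chart of the surface near a point: the component `o₁` of the boundary is `y.1 = 0`, the component `o₂` is `y.2 = 0`, the others do not pass through
the point. -/
structure LC (P : Ideal (MvPolynomial (Fin (N + 1)) ℂ)) (H : MvPolynomial (Fin (N + 1)) ℂ) (E : Fin k → Fin (M + 1) → MvPolynomial (Fin (N + 1)) ℂ)
    (σ : ℂ × ℂ → EN N) (τ : EN N → ℂ × ℂ) (o₁ o₂ : Option (Fin k)) : Prop where
  chart : IsChart (coneE P) σ τ
  ne : ∀ i, o₁ = some i → o₂ ≠ some i
  one : o₁ = none → o₂ = none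
  eqs : ∀ i, ∃ e : ℂ × ℂ → EN M, AnalyticAt ℂ e 0 ∧ e 0 ≠ 0 ∧
    ∀ᶠ y in 𝓝 (0 : ℂ × ℂ), vec (E i) (σ y) = (gg (decide (o₁ = some i)) y.1 * gg (decide (o₂ = some i)) y.2) • e y
  dom : ∀ᶠ y in 𝓝 (0 : ℂ × ℂ), (σ y ∈ oc P H ↔ gg o₁.isSome y.1 * gg o₂.isSome y.2 ≠ 0)

/-- the value of the logarithmic differential of the equation of the component `i` on the tangent vector `t` -/
def uu (o₁ o₂ : Option (Fin k)) (i : Fin k) (y t : ℂ × ℂ) : ℂ :=
  (if o₁ = some i then t.1 / y.1 else 0) + (if o₂ = some i then t.2 / y.2 else 0)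

/-- The number `r` is the residue of `θ` (a function of a point and a tangent vector, homogeneous of degree `m`) along the component `i` at the point `x`:
for `y` near `x` and vectors `v` for which the logarithmic differential of `E i` is much bigger than the length and than the logarithmic differentials of
the other components, `θ (y, v)` is close to `r (ell i) ^ m`. -/
def IsR (P : Ideal (MvPolynomial (Fin (N + 1)) ℂ)) (H : MvPolynomial (Fin (N + 1)) ℂ) (E : Fin k → Fin (M + 1) → MvPolynomial (Fin (N + 1)) ℂ)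
    (c : Fin k → ℕ) (w : EN N → EN N → ℂ) (m : ℕ) (i : Fin k) (x : EN N) (r : ℂ) : Prop :=
  ∀ ε : ℝ, 0 < ε → ∃ η : ℝ, 0 < η ∧ ∀ᶠ y in 𝓝 x, y ∈ oc P H → ∀ v, Pool.Agent.H14.PP.Tan (coneE P) y v →
    (∀ i', i' ≠ i → ‖ellE (E i') (c i') y v‖ ≤ η * ‖ellE (E i) (c i) y v‖) → fs y v ≤ η * ‖ellE (E i) (c i) y v‖ →
    ‖w y v - r * ellE (E i) (c i) y v ^ m‖ ≤ ε * ‖ellE (E i) (c i) y v‖ ^ m

end Pool.Agent.SR3
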