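import Pool.Agent.SR3.RsE
import Pool.Agent.SR3.Glo
import Pool.Agent.SR3.RsC1
import Pool.Agent.SR3.RsC2
import Pool.Agent.SR3.Snc2
import Pool.Agent.H17EF.Alg

/-!
# SR3 RsF: the frame given by a chart
-/

set_option autoImplicit false

open Topology Filter Metric MvPolynomial

noncomputable section

namespace Pool.Agent.SR3

open Pool.Agent.H36.BP (EN fs)
open Pool.Agent.H17BP (Surface IsChart)
open Pool.Agent.H14.PP (IsCone Tan)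
open Pool.Agent.H17EF (coneE)
open Pool.Agent.AD (SymDiff)

variable {N k M : ℕ} {P : Ideal (MvPolynomial (Fin (N + 1)) ℂ)} {H : MvPolynomial (Fin (N + 1)) ℂ} {h : ℕ}
  {E : Fin k → Fin (M + 1) → MvPolynomial (Fin (N + 1)) ℂ} {c : Fin k → ℕ} {σ : ℂ × ℂ → EN N} {τ : EN N → ℂ × ℂ} {o₁ o₂ : Option (Fin k)}

theorem rs_oc_smul (hc : IsCone (coneE P)) (hH : H.IsHomogeneous h) {x : EN N} (hx : x ∈ oc P H) {a : ℂ} (ha : a ≠ 0) : a • x ∈ oc P H := by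
  refine ⟨hc.smul_mem x hx.1 a ha, fun i => ?_⟩
  have h1 : eval (a • x).ofLp H = a ^ h * eval x.ofLp H := Pool.Agent.H17EF.eval_smul_form hH a x.ofLp
  rw [h1]
  exact mul_ne_zero (pow_ne_zero _ ha) (hx.2 i)

theorem rs_tan_smul {K : Set (EN N)} (hK : ∀ x ∈ K, ∀ a : ℂ, a ≠ 0 → a • x ∈ K) {x v : EN N} (hv : Tan K x v) {a : ℂ} (ha : a ≠ 0) : Tan K (a • x) (a • v) := by
  obtain ⟨F, ⟨h1, h2⟩, h3, h4⟩ := hv
  refine ⟨fun z => a • F z, ⟨(analyticAt_const (v := a)).fun_smul h1, h2.mono fun z hz => hK _ hz a ha⟩, by simp only [h3], ?_⟩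
  rw [deriv_fun_const_smul _ h1.differentiableAt, h4]

/-- invariance of a symmetric differential on the open part -/
theorem sym_inv (hc : IsCone (coneE P)) (hH : H.IsHomogeneous h) {m : ℕ} (θ : SymDiff (oc P H) m) {x w : EN N} (hw : Tan (oc P H) x w)
    {a : ℂ} (ha : a ≠ 0) (a' : ℂ) : θ.toFun (a • x) (a • w + a' • (a • x)) = θ.toFun x w := by
  rw [θ.add_smul _ _ (rs_tan_smul (fun y hy b hb => rs_oc_smul hc hH hy hb) hw ha), θ.scale _ _ hw a ha]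

/-- **The frame.** -/
theorem frame (hc : IsCone (coneE P)) (hH : H.IsHomogeneous h) (hE : ∀ i l, (E i l).IsHomogeneous (c i)) (hL : LC P H E σ τ o₁ o₂)
    (hne : ∀ i, ∀ x ∈ oc P H, vec (E i) x ≠ 0) :
    ∃ C : ℝ, 0 ≤ C ∧ ∀ᶠ y in 𝓝 (σ 0), y ∈ oc P H → σ (τ y) ∈ oc P H ∧ ∀ v, Tan (coneE P) y v → ∃ t : ℂ × ℂ,
      (∀ {m : ℕ} (θ : SymDiff (oc P H) m), θ.toFun y v = θ.toFun (σ (τ y)) (fderiv ℂ σ (τ y) t)) ∧ ‖t‖ ≤ C * fs y v ∧ fs y v ≤ C * ‖t‖ ∧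
      ∀ i, ‖ellE (E i) (c i) y v - uu o₁ o₂ i (τ y) t‖ ≤ C * ‖t‖ := by
  obtain ⟨C, hC, hest⟩ := lc_est hE hL
  refine ⟨C, hC, ?_⟩
  have hτ : Tendsto τ (𝓝 (σ 0)) (𝓝 0) := by
    have h1 := hL.chart.τ_an.continuousAt.tendsto
    have h2 : τ (σ 0) = 0 := hL.chart.left.self_of_nhds
    rwa [h2] at h1
  filter_upwards [tan_chart hL.chart, hτ.eventually hest, hτ.eventually hL.dom, hτ.eventually (lc_open hL)] with y h1 h2 h3 h4 hy
  obtain ⟨a, ha, hya, h5⟩ := h1 hy.1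
  have hσ : σ (τ y) ∈ oc P H := by
    have h6 := rs_oc_smul hc hH hy (inv_ne_zero ha)
    have h7 : a⁻¹ • y = σ (τ y) := by
      conv_lhs => rw [hya]
      rw [smul_smul, inv_mul_cancel₀ ha, one_smul]
    rwa [h7] at h6
  refine ⟨hσ, fun v hv => ?_⟩
  obtain ⟨t, a', hv'⟩ := h5 v hv
  have hx0 : σ (τ y) ≠ 0 := fun h0 => hc.zero_notMem (h0 ▸ hσ.1)
  have hT : Tan (oc P H) (σ (τ y)) (fderiv ℂ σ (τ y) t) := tan_of_near (h4 (h3.mp hσ)) t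
  have hfs : fs y v = fs (σ (τ y)) (fderiv ℂ σ (τ y) t) := by
    have h8 : fs (a • σ (τ y)) (a • fderiv ℂ σ (τ y) t + (a' * a) • σ (τ y)) = fs (σ (τ y)) (fderiv ℂ σ (τ y) t) :=
      Pool.Agent.H36.BP.fs_inv hx0 _ ha _
    rw [mul_smul, ← hya, ← hv'] at h8
    exact h8
  have hell : ∀ i, ellE (E i) (c i) y v = ellE (E i) (c i) (σ (τ y)) (fderiv ℂ σ (τ y) t) := by
    intro i
    have h8 : ellE (E i) (c i) (a • σ (τ y)) (a • fderiv ℂ σ (τ y) t + (a' * a) • σ (τ y)) = ellE (E i) (c i) (σ (τ y)) (fderiv ℂ σ (τ y) t) :=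
      snc2_ell_inv hE i hx0 (hne i _ hσ) _ ha _
    rw [mul_smul, ← hya, ← hv'] at h8
    exact h8
  refine ⟨t, ?_, ?_, ?_, ?_⟩
  · intro m θ
    have h8 := sym_inv hc hH θ hT ha a'
    rw [← hya, ← hv'] at h8
    exact h8
  · rw [hfs]
    exact (h2 t).2.1
  · rw [hfs]
    exact (h2 t).1
  · intro i
    rw [hell]
    exact (h2 t).2.2 hσ i

end Pool.Agent.SR3
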