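import Pool.Agent.SR3.RsF

/-!
# SR3 RsR: the residue along a component: existence and uniqueness
-/

set_option autoImplicit false

open Topology Filter Metric MvPolynomial

noncomputable section

namespace Pool.Agent.SR3

open Pool.Agent.H36.BP (EN fs)
open Pool.Agent.H17BP (Surface IsChart)
open Pool.Agent.H14.PP (IsCone Tan)
open Pool.Agent.H17EF (coneE)
open Pool.Agent.AD (SymDiff)

variable {N k M : ℕ} {P : Ideal (MvPolynomial (Fin (N + 1)) ℂ)} {H : MvPolynomial (Fin (N + 1)) ℂ} {h : ℕ}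
  {E : Fin k → Fin (M + 1) → MvPolynomial (Fin (N + 1)) ℂ} {b c : Fin k → ℕ} {σ : ℂ × ℂ → EN N} {τ : EN N → ℂ × ℂ} {o₁ o₂ : Option (Fin k)}

theorem rs_pow_sub_le {x y : ℂ} {R : ℝ} (hR : 0 ≤ R) (hx : ‖x‖ ≤ R) (hy : ‖y‖ ≤ R) (m : ℕ) : ‖x ^ (m + 1) - y ^ (m + 1)‖ ≤ (m + 1) * R ^ m * ‖x - y‖ := by
  induction m with
  | zero => simp
  | succ m ih =>
    have h1 : x ^ (m + 1 + 1) - y ^ (m + 1 + 1) = x ^ (m + 1) * (x - y) + (x ^ (m + 1) - y ^ (m + 1)) * y := by ring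
    rw [h1]
    have h2 : ‖x ^ (m + 1)‖ ≤ R ^ (m + 1) := by
      rw [norm_pow]
      exact pow_le_pow_left₀ (norm_nonneg _) hx _
    calc ‖x ^ (m + 1) * (x - y) + (x ^ (m + 1) - y ^ (m + 1)) * y‖
        ≤ ‖x ^ (m + 1)‖ * ‖x - y‖ + ‖x ^ (m + 1) - y ^ (m + 1)‖ * ‖y‖ := (norm_add_le _ _).trans (by rw [norm_mul, norm_mul])
      _ ≤ R ^ (m + 1) * ‖x - y‖ + ((m + 1) * R ^ m * ‖x - y‖) * R := by gcongr
      _ = ((m + 1 : ℕ) + 1) * R ^ (m + 1) * ‖x - y‖ := by push_cast; ring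


theorem exp_est {m : ℕ} (hm : 1 ≤ m) {α : ℕ → ℂ} {r l u₁ u₂ : ℂ} {A d ε : ℝ} (hA : 0 ≤ A) (hα : ∀ k ∈ Finset.range (m + 1), ‖α k‖ ≤ A)
    (hd : 0 ≤ d) (hd1 : d ≤ 1) (h1 : ‖u₁ - l‖ ≤ d * ‖l‖) (h2 : ‖u₂‖ ≤ d * ‖l‖) (hr : ‖α m - r‖ ≤ ε) :
    ‖∑ k ∈ Finset.range (m + 1), α k * u₁ ^ k * u₂ ^ (m - k) - r * l ^ m‖ ≤ (2 * m * A * 2 ^ m * d + ε) * ‖l‖ ^ m := by
  have hl := norm_nonneg l
  have hu₁ : ‖u₁‖ ≤ 2 * ‖l‖ := by
    have := norm_add_le (u₁ - l) l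
    rw [sub_add_cancel] at this
    nlinarith
  rw [Finset.sum_range_succ, Nat.sub_self, pow_zero, mul_one]
  have h3 : ∑ k ∈ Finset.range m, α k * u₁ ^ k * u₂ ^ (m - k) + α m * u₁ ^ m - r * l ^ m =
      ∑ k ∈ Finset.range m, α k * u₁ ^ k * u₂ ^ (m - k) + α m * (u₁ ^ m - l ^ m) + (α m - r) * l ^ m := by ring
  rw [h3]
  have h4 : ‖∑ k ∈ Finset.range m, α k * u₁ ^ k * u₂ ^ (m - k)‖ ≤ m * (A * 2 ^ m * d * ‖l‖ ^ m) := by
    have h5 : ∀ k ∈ Finset.range m, ‖α k * u₁ ^ k * u₂ ^ (m - k)‖ ≤ A * 2 ^ m * d * ‖l‖ ^ m := by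
      intro k hk
      have hk' : k < m := Finset.mem_range.mp hk
      rw [norm_mul, norm_mul, norm_pow, norm_pow]
      have h6 : ‖u₁‖ ^ k ≤ 2 ^ m * ‖l‖ ^ k := by
        calc ‖u₁‖ ^ k ≤ (2 * ‖l‖) ^ k := pow_le_pow_left₀ (norm_nonneg _) hu₁ _
          _ = 2 ^ k * ‖l‖ ^ k := by rw [mul_pow]
          _ ≤ 2 ^ m * ‖l‖ ^ k := by
            gcongr
            · norm_num
      have h7 : ‖u₂‖ ^ (m - k) ≤ d * ‖l‖ ^ (m - k) := by
        calc ‖u₂‖ ^ (m - k) ≤ (d * ‖l‖) ^ (m - k) := pow_le_pow_left₀ (norm_nonneg _) h2 _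
          _ = d ^ (m - k) * ‖l‖ ^ (m - k) := by rw [mul_pow]
          _ ≤ d * ‖l‖ ^ (m - k) := by
            gcongr
            exact pow_le_of_le_one hd hd1 (by omega)
      have h8 := hα k (Finset.mem_range.mpr (by omega))
      calc ‖α k‖ * ‖u₁‖ ^ k * ‖u₂‖ ^ (m - k) ≤ A * (2 ^ m * ‖l‖ ^ k) * (d * ‖l‖ ^ (m - k)) := by gcongr
        _ = A * 2 ^ m * d * (‖l‖ ^ k * ‖l‖ ^ (m - k)) := by ring
        _ = A * 2 ^ m * d * ‖l‖ ^ m := by rw [← pow_add, Nat.add_sub_cancel' hk'.le]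
    refine (norm_sum_le _ _).trans ((Finset.sum_le_sum h5).trans ?_)
    simp
  have h9 : ‖α m * (u₁ ^ m - l ^ m)‖ ≤ m * (A * 2 ^ m * d * ‖l‖ ^ m) := by
    obtain ⟨n, rfl⟩ : ∃ n, m = n + 1 := ⟨m - 1, by omega⟩
    rw [norm_mul]
    have h10 := rs_pow_sub_le (x := u₁) (y := l) (R := 2 * ‖l‖) (by positivity) hu₁ (by linarith) n
    have h11 := hα (n + 1) (Finset.mem_range.mpr (by omega))
    calc ‖α (n + 1)‖ * ‖u₁ ^ (n + 1) - l ^ (n + 1)‖ ≤ A * ((n + 1) * (2 * ‖l‖) ^ n * (d * ‖l‖)) := by gcongr; exact h10.trans (by gcongr)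
      _ = (n + 1) * (A * 2 ^ n * d * ‖l‖ ^ (n + 1)) := by ring
      _ ≤ ((n + 1 : ℕ) : ℝ) * (A * 2 ^ (n + 1) * d * ‖l‖ ^ (n + 1)) := by
        push_cast
        gcongr
        · norm_num
        · omega
  have h12 : ‖(α m - r) * l ^ m‖ ≤ ε * ‖l‖ ^ m := by
    rw [norm_mul, norm_pow]
    gcongr
  refine (norm_add_le _ _).trans ((add_le_add (norm_add_le _ _) h12).trans ?_)
  nlinarith [h4, h9]

/-- the estimates of the logarithmic coordinates in the frame -/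
theorem frame_est {i : Fin k} {o₂ : Option (Fin k)} (ho : o₂ ≠ some i) {C F : ℝ} {η : ℝ} (hC : 0 ≤ C) (hη : 0 ≤ η) {p t : ℂ × ℂ} {ell : Fin k → ℂ}
    (ht : ‖t‖ ≤ C * F) (hF : F ≤ η * ‖ell i‖) (hu : ∀ i', ‖ell i' - uu (some i) o₂ i' p t‖ ≤ C * ‖t‖)
    (hsm : ∀ i', i' ≠ i → ‖ell i'‖ ≤ η * ‖ell i‖) :
    ‖t.1 / gg (some i).isSome p.1 - ell i‖ ≤ (1 + C + C ^ 2) * η * ‖ell i‖ ∧ ‖t.2 / gg o₂.isSome p.2‖ ≤ (1 + C + C ^ 2) * η * ‖ell i‖ := by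
  have hl := norm_nonneg (ell i)
  have h1 : ‖t‖ ≤ C * (η * ‖ell i‖) := ht.trans (mul_le_mul_of_nonneg_left hF hC)
  have h2 : 0 ≤ η * ‖ell i‖ := by positivity
  have h3 : C * ‖t‖ ≤ C * (C * (η * ‖ell i‖)) := mul_le_mul_of_nonneg_left h1 hC
  constructor
  · have h4 : uu (some i) o₂ i p t = t.1 / gg (some i).isSome p.1 := by
      simp [uu, ho, gg]
    have h5 := hu i
    rw [h4, norm_sub_rev] at h5
    nlinarith
  · rcases o₂ with _ | i₂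
    · simp only [Option.isSome_none, gg_false, div_one]
      have h6 := norm_snd_le t
      nlinarith [mul_nonneg hC h2]
    · have hne : i₂ ≠ i := fun e => ho (by rw [e])
      have h4 : uu (some i) (some i₂) i₂ p t = t.2 / gg (some i₂).isSome p.2 := by
        simp [uu, gg, hne.symm]
      have h5 := hu i₂
      rw [h4] at h5
      have h6 := hsm i₂ hne
      have h7 : ‖t.2 / gg (some i₂).isSome p.2‖ ≤ ‖ell i₂‖ + ‖ell i₂ - t.2 / gg (some i₂).isSome p.2‖ := by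
        have := norm_sub_le (ell i₂) (ell i₂ - t.2 / gg (some i₂).isSome p.2)
        rwa [sub_sub_cancel] at this
      nlinarith [mul_nonneg hC h2]

/-- **Existence of the residue**: it is the coefficient of `(dy₁ / y₁) ^ m`. -/
theorem isR_of_exp (hc : IsCone (coneE P)) (hH : H.IsHomogeneous h) (hE : ∀ i l, (E i l).IsHomogeneous (c i))
    (hne : ∀ i, ∀ x ∈ oc P H, vec (E i) x ≠ 0) {i : Fin k} (hL : LC P H E σ τ (some i) o₂) {m : ℕ} (hm : 1 ≤ m) (θ : SymDiff (oc P H) m)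
    {a : ℕ → ℂ × ℂ → ℂ} (ha : ∀ k, AnalyticAt ℂ (a k) 0) (hexp : ∀ᶠ y in 𝓝 (0 : ℂ × ℂ), σ y ∈ oc P H → ∀ t : ℂ × ℂ,
      θ.toFun (σ y) (fderiv ℂ σ y t) =
        ∑ k ∈ Finset.range (m + 1), a k y * (t.1 / gg (some i).isSome y.1) ^ k * (t.2 / gg o₂.isSome y.2) ^ (m - k)) :
    ∀ᶠ s in 𝓝 (0 : ℂ), IsR P H E c θ.toFun m i (σ (0, s)) (a m (0, s)) := by
  obtain ⟨C, hC, hfr⟩ := frame hc hH hE hL hne
  have hho : o₂ ≠ some i := hL.ne i rfl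
  have hτ : Tendsto τ (𝓝 (σ 0)) (𝓝 0) := by
    have h1 := hL.chart.τ_an.continuousAt.tendsto
    have h2 : τ (σ 0) = 0 := hL.chart.left.self_of_nhds
    rwa [h2] at h1
  -- a bound for the coefficients
  obtain ⟨A, hA0, hA⟩ : ∃ A : ℝ, 0 ≤ A ∧ ∀ᶠ p in 𝓝 (0 : ℂ × ℂ), ∀ k ∈ Finset.range (m + 1), ‖a k p‖ ≤ A := by
    refine ⟨∑ k ∈ Finset.range (m + 1), (‖a k 0‖ + 1), by positivity, ?_⟩
    rw [Filter.eventually_all_finset]
    intro k hk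
    have h1 : ∀ᶠ p in 𝓝 (0 : ℂ × ℂ), ‖a k p‖ < ‖a k 0‖ + 1 := (ha k).continuousAt.norm.eventually_lt_const (by linarith)
    filter_upwards [h1] with p hp
    exact hp.le.trans (Finset.single_le_sum (f := fun k => ‖a k 0‖ + 1) (fun j _ => by positivity) hk)
  have hgood : ∀ᶠ x in 𝓝 (σ 0), (∀ᶠ y in 𝓝 x, (y ∈ oc P H → σ (τ y) ∈ oc P H ∧ ∀ v, Tan (coneE P) y v → ∃ t : ℂ × ℂ,
      (∀ {m : ℕ} (θ : SymDiff (oc P H) m), θ.toFun y v = θ.toFun (σ (τ y)) (fderiv ℂ σ (τ y) t)) ∧ ‖t‖ ≤ C * fs y v ∧ fs y v ≤ C * ‖t‖ ∧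
      ∀ i', ‖ellE (E i') (c i') y v - uu (some i) o₂ i' (τ y) t‖ ≤ C * ‖t‖) ∧ (σ (τ y) ∈ oc P H → ∀ t : ℂ × ℂ,
      θ.toFun (σ (τ y)) (fderiv ℂ σ (τ y) t) = ∑ k ∈ Finset.range (m + 1), a k (τ y) * (t.1 / gg (some i).isSome (τ y).1) ^ k *
        (t.2 / gg o₂.isSome (τ y).2) ^ (m - k)) ∧ (∀ k ∈ Finset.range (m + 1), ‖a k (τ y)‖ ≤ A)) ∧ ContinuousAt (fun y => a m (τ y)) x := by
    have h1 := ((hfr.and (hτ.eventually hexp)).and (hτ.eventually hA))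
    have h2 : ∀ᶠ x in 𝓝 (σ 0), ContinuousAt τ x := hL.chart.τ_an.eventually_analyticAt.mono fun x hx => hx.continuousAt
    have h3 : ∀ᶠ x in 𝓝 (σ 0), ContinuousAt (a m) (τ x) :=
      hτ.eventually ((ha m).eventually_analyticAt.mono fun x hx => hx.continuousAt)
    filter_upwards [eventually_eventually_nhds.mpr h1, h2, h3] with x hx hx2 hx3
    exact ⟨hx.mono fun y hy => ⟨hy.1.1, hy.1.2, hy.2⟩, ContinuousAt.comp (g := a m) hx3 hx2⟩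
  have hline : Tendsto (fun s : ℂ => ((0, s) : ℂ × ℂ)) (𝓝 0) (𝓝 (0 : ℂ × ℂ)) := by
    have : Continuous (fun s : ℂ => ((0, s) : ℂ × ℂ)) := by fun_prop
    exact this.tendsto 0
  have hσ : Tendsto (fun s : ℂ => σ (0, s)) (𝓝 0) (𝓝 (σ 0)) := hL.chart.σ_an.continuousAt.tendsto.comp hline
  filter_upwards [hσ.eventually hgood, hline.eventually hL.chart.left] with s hs hleft
  obtain ⟨hs1, hs2⟩ := hs
  intro ε hε
  set D : ℝ := 1 + C + C ^ 2 with hD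
  have hD0 : 0 < D := by positivity
  set K : ℝ := 2 * m * A * 2 ^ m * D with hK
  have hK0 : 0 ≤ K := by positivity
  refine ⟨min (1 / D) (ε / (2 * (K + 1))), by positivity, ?_⟩
  set η : ℝ := min (1 / D) (ε / (2 * (K + 1))) with hη
  have hη0 : 0 < η := by positivity
  have hη1 : D * η ≤ 1 := by
    have := min_le_left (1 / D) (ε / (2 * (K + 1)))
    rw [← hη, le_div_iff₀ hD0] at this
    linarith
  have hη2 : K * η ≤ ε / 2 := by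
    have := min_le_right (1 / D) (ε / (2 * (K + 1)))
    rw [← hη, le_div_iff₀ (by positivity)] at this
    nlinarith
  have hclose : ∀ᶠ y in 𝓝 (σ (0, s)), ‖a m (τ y) - a m (0, s)‖ ≤ ε / 2 := by
    have h1 : Tendsto (fun y => ‖a m (τ y) - a m (0, s)‖) (𝓝 (σ (0, s))) (𝓝 0) := by
      have h2 := hs2.tendsto
      simp only [hleft] at h2
      have h3 := (h2.sub_const (a m (0, s))).norm
      rwa [sub_self, norm_zero] at h3
    exact (h1.eventually_lt_const (half_pos hε)).mono fun y hy => hy.le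
  filter_upwards [hs1, hclose] with y hy hyc hyo v hv hsm hfs
  obtain ⟨h1, h2, h3⟩ := hy
  obtain ⟨h4, h5⟩ := h1 hyo
  obtain ⟨t, ht1, ht2, -, ht4⟩ := h5 v hv
  obtain ⟨e1, e2⟩ := frame_est (ell := fun i' => ellE (E i') (c i') y v) hho hC hη0.le ht2 hfs ht4 hsm
  rw [ht1 θ, h2 h4 t]
  refine (exp_est (d := D * η) (ε := ε / 2) hm hA0 h3 (by positivity) hη1 e1 e2 hyc).trans ?_
  refine mul_le_mul_of_nonneg_right ?_ (by positivity)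
  have : 2 * (m : ℝ) * A * 2 ^ m * (D * η) = K * η := by rw [hK]; ring
  linarith

end Pool.Agent.SR3
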