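import Pool.Agent.SR3.LnDefs
import Pool.Agent.H62.FC.CurveIdeal

/-!
# SR3 StubC: the new fields of `Geo.Ok` for a surface with normal crossings (stubs; never import this file in a finished file)

One section = one file `Pool/Agent/SR3/<Section>.lean`, with exactly these statements, in the namespace `Pool.Agent.SR3`.  Write against this file
with `open Stub`; when the real files are on main, replace the import and delete `open Stub`.  Chief: helper91.
-/

set_option autoImplicit false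

open Topology Filter Metric MvPolynomial

noncomputable section

namespace Pool.Agent.SR3

open Pool.Agent.H36.BP (EN fs wd)
open Pool.Agent.H17BP (Surface IsChart)
open Pool.Agent.H14.PP (IsCone Tan)
open Pool.Agent.H17 (PN VanishesAt HolomorphicInto)
open Pool.Agent.H62.FC (Homog)
open Pool.Agent.H17LG.Variety (FunField)
open Pool.Agent.H17EF (projVar coneE)
open Pool.Agent.AD (SymDiff TangentTo)
open Pool.Agent.AD.NC (IsSmooth)

variable {N k M : ℕ} {P : Ideal (MvPolynomial (Fin (N + 1)) ℂ)} {H : MvPolynomial (Fin (N + 1)) ℂ} {h : ℕ}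
  {E : Fin k → Fin (M + 1) → MvPolynomial (Fin (N + 1)) ℂ} {c b : Fin k → ℕ}

namespace Stub

/-! ## Fld1 (file Fld1.lean).  `pd_nhds`: take `c = ⟪x, y⟫ / ‖x‖ ^ 2` (the projection of `y` to the line of `x`): `‖c • x - y‖ = wd x y / ‖x‖ = pd x y * ‖y‖`,
`c ≠ 0` if `pd x y < 1` (compare `snc2_wd` in SR3/Snc2, `H17EF`, `SDA`).  `oneE`: `BdyAux.local_eqn` of SR3/Bdy.  `twoE`: in the chart at `y`, `E i y = 0` gives
`s i ≠ none`, and `s` is injective there with values `some false`, `some true`.  `locE`: in the chart `vec (E i) (σ t) = co (s i) t • e i t`, `e i 0 ≠ 0`: take `l` with `(e i 0) l ≠ 0`;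
then `pd_nhds` and homogeneity. -/

theorem pd_nhds {y : EN N} (hy : y ≠ 0) {s : Set (EN N)} (hs : s ∈ 𝓝 y) : ∃ r : ℝ, 0 < r ∧ ∀ x : EN N, x ≠ 0 → pd x y < r → ∃ a : ℂ, a ≠ 0 ∧ a • x ∈ s := by
  sorry

theorem snc_oneE (hs : Snc P H E b) : ∀ y ∈ coneE P, y ∉ oc P H → ∃ i, vec (E i) y = 0 := by
  sorry

theorem snc_twoE (hs : Snc P H E b) : ∀ y ∈ coneE P, ∀ i i' i'', i ≠ i' → i' ≠ i'' → i ≠ i'' → vec (E i) y = 0 → vec (E i') y = 0 → vec (E i'') y ≠ 0 := by
  sorry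

theorem snc_locE (hX : Surface (coneE P)) (hc : IsCone (coneE P)) (hE : ∀ i l, (E i l).IsHomogeneous (c i)) (hs : Snc P H E b) :
    ∀ y ∈ coneE P, ∀ i, vec (E i) y = 0 → ∃ (l : Fin (M + 1)) (r a : ℝ), 0 < r ∧ 0 < a ∧ ∀ x ∈ coneE P, pd x y < r → a * ‖vec (E i) x‖ ≤ ‖(vec (E i) x).ofLp l‖ := by
  sorry

/-! ## Fld2 (file Fld2.lean).  `cross`: `BdyAux.local_eqn`: in a neighbourhood of `y` the points of the cone with `τ = 0` are multiples of `y`; if `i ≠ i'` and
`E i y' = E i' y' = 0` near `y` then `τ y' = 0`.  Compactness of the unit sphere of `insert 0 (coneE P)` (`IsCone.closed`; `isCompact_sphere`).  `crE` (with `α = 1`): in the chart `x = a • σ t`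
(`IsChart.right`), `|t.1|, |t.2| ≤ C * ‖vec (E i) x‖ / ‖x‖ ^ c i = C * exp (- lamE)` (both sides are invariant under `x ↦ a • x`) and `pd x y ≤ C * ‖t‖`. -/

theorem snc_cross (hX : Surface (coneE P)) (hc : IsCone (coneE P)) (hE : ∀ i l, (E i l).IsHomogeneous (c i)) (hs : Snc P H E b) :
    ∃ S : Finset (EN N), ∀ y ∈ coneE P, ∀ i i', i ≠ i' → vec (E i) y = 0 → vec (E i') y = 0 → ∃ s ∈ S, ∃ a : ℂ, y = a • s := by
  sorry

theorem snc_crE (hX : Surface (coneE P)) (hc : IsCone (coneE P)) (hH : H.IsHomogeneous h) (hE : ∀ i l, (E i l).IsHomogeneous (c i)) (hs : Snc P H E b) :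
    ∀ y ∈ coneE P, ∀ i i', i ≠ i' → vec (E i) y = 0 → vec (E i') y = 0 → ∃ r C α : ℝ, 0 < r ∧ 0 < α ∧ ∀ x ∈ oc P H, pd x y < r → ∀ u : ℝ,
      u ≤ lamE (E i) (c i) x → u ≤ lamE (E i') (c i') x → pd x y ≤ C * Real.exp (-(α * u)) := by
  sorry

/-! ## Fld3 (file Fld3.lean): `res_loc` of SR3/Rloc, moved to a neighbourhood in the projective space by `pd_nhds` (all terms are invariant under `(x, v) ↦ (a x, a v)`:
`sym_fields`, `snc2_ell_inv`; see how SR3/Rsd (`exists_res`) does it). -/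

theorem snc_resL [P.IsPrime] {z : Fin 2 → FunField P} (hP : Homog P) (hz : IsTranscendenceBasis ℂ z) (hsm : IsSmooth P 2)
    (hH : H.IsHomogeneous h) (h1 : 1 ≤ h) (hE : ∀ i l, (E i l).IsHomogeneous (c i)) (hs : Snc P H E b)
    {s : ℕ} {m : Fin s → ℕ} (hm : ∀ j, 1 ≤ m j) (θ : ∀ j, SymDiff (oc P H) (m j)) (hθ : ∀ j, HasLogPoles E c (θ j)) :
    ∀ y ∈ coneE P, ∃ (Q : Fin s → MvPolynomial (Fin k) ℂ) (r C : ℝ), 0 < r ∧ 0 ≤ C ∧ (∀ j, (Q j).IsHomogeneous (m j)) ∧
      (∀ j (u u' : Fin k → ℂ), (∀ i, vec (E i) y = 0 → u i = u' i) → eval u (Q j) = eval u' (Q j)) ∧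
      ∀ x ∈ oc P H, pd x y < r → ∀ j v, Tan (coneE P) x v →
        ‖(θ j).toFun x v - eval (fun i => ellE (E i) (c i) x v) (Q j)‖ ≤ C * fs x v * logLen E c x v ^ (m j - 1) := by
  sorry

/-! ## LnN (file LnN.lean): an affine line is tangent to every logarithmic symmetric differential.  `g z = θ (F z) (F' z)` is entire (`SymDiff.analytic` with `k = 1`); `F` and `vec E ∘ F` are vectors
of polynomials without zeros, so `‖F' z‖ / ‖F z‖`, `‖(vec E ∘ F)' z‖ / ‖vec E (F z)‖ ≤ C / (1 + ‖z‖)`; so `logLen E c (F z) (F' z) ≤ C / (1 + ‖z‖)` (`fs x v ≤ ‖v‖ / ‖x‖`, `|ellE| ≤ ..`),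
so `g → 0` at infinity, `g = 0`.  `line_R`: `NullCurve.null` for `f = [F]`; `OrderTwo f`: `log ‖F z‖ ≤ C + n log (1 + ‖z‖)`. -/

theorem line_null (hH : H.IsHomogeneous h) (h1 : 1 ≤ h) (hs : Snc P H E b) {m : ℕ} (hm : 1 ≤ m) (θ : SymDiff (oc P H) m) (hθ : HasLogPoles E c θ) {F : Fin (N + 1) → Polynomial ℂ}
    (hF : PLine P H F) (z : ℂ) :
    θ.toFun (WithLp.toLp 2 (pev F z)) (deriv (fun w => (WithLp.toLp 2 (pev F w) : EN N)) z) = 0 := by
  sorry

theorem line_R (hP : Homog P) (hH : H.IsHomogeneous h) (h1 : 1 ≤ h) (hs : Snc P H E b) {s : ℕ} {m : Fin s → ℕ} (hm : ∀ j, 1 ≤ m j) (θ : ∀ j, SymDiff (oc P H) (m j)) (hθ : ∀ j, HasLogPoles E c (θ j))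
    {t : ℕ} {R : Fin t → MvPolynomial (Fin (N + 1)) ℂ} (hN : NullCurve θ R) {F : Fin (N + 1) → Polynomial ℂ} (hF : PLine P H F) (l : Fin t) (z : ℂ) :
    eval (pev F z) (R l) = 0 := by
  sorry

/-! ## LnA (file LnA.lean): the image of a polynomial curve is closed.  The map `φ : MvPolynomial ι ℂ → ℂ[X]`, `X l ↦ F l`, is integral (`X` is integral over `ℂ[F l]`, `F l` not constant: monic up
to a unit); let `q` be a zero of the kernel: the maximal ideal of `q` contains the kernel, lying over (`Ideal.exists_ideal_over_maximal_of_isIntegral` or `Ideal.exists_ideal_over_prime_of_isIntegral`):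
a maximal ideal of `ℂ[X]` over it, which is `(X - w)`. -/

theorem line_image {n : ℕ} {F : Fin n → Polynomial ℂ} (hF : ∃ l, 1 ≤ (F l).natDegree) {q : Fin n → ℂ}
    (hq : ∀ g : MvPolynomial (Fin n) ℂ, (∀ z, eval (pev F z) g = 0) → eval q g = 0) : ∃ w, q = pev F w := by
  sorry

/-! ## LnB (file LnB.lean): two lines with the same forms.  Let `ζ` run through the `h`-th roots of `1`; `ζ F` is also a line in `{H = 1}`.
CLAIM: `q = pev F' z` lies on the image of some `ζ F`.  If not, by `line_image` there are `g ζ` with `g ζ (ζ F) = 0`, `g ζ (q) ≠ 0`; `g = ∏ g ζ` vanishes on all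
`ζ F` and not at `q`.  `g = ∑ g_a`, `g_a` the sum of the homogeneous components of degree `a` modulo `h`: `∑ ζ ^ a g_a (F) = 0` for all `ζ`, so `g_a (F) = 0` for all `a`, and
`g_a (q) ≠ 0` for some `a`.  Multiplying the components by powers of `H` we obtain a form `G` with `G (F) = g_a (F) = 0` and `G (q) = g_a (q) ≠ 0` (`H (F) = H (q) = 1`): contradiction.
Then ONE `ζ` for all `z`: `{z | pev F' z ∈ image of ζ F}` is the set of the common zeros of the polynomials `g (F' z)`, `g` in the ideal of `ζ F`: finite or everything, and they cover `ℂ`. -/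

theorem line_two (hH : H.IsHomogeneous h) (h1 : 1 ≤ h) {F F' : Fin (N + 1) → Polynomial ℂ} (hF : PLine P H F) (hF' : PLine P H F')
    (hle : ∀ (n : ℕ) (g : MvPolynomial (Fin (N + 1)) ℂ), g.IsHomogeneous n → (∀ z, eval (pev F z) g = 0) → ∀ z, eval (pev F' z) g = 0) :
    ∃ ζ : ℂ, ζ ^ h = 1 ∧ ∀ z, ∃ w, pev F' z = ζ • pev F w := by
  sorry

/-! ## LnC (file LnC.lean): finitely many lines.  `f z = [pev F z]` is a `CurveIn P R f` (NC/Defs), `finite_curves` (NC/Cur): finitely many ideals `mapIdeal f`, `mem_mapIdeal_form`; for each of them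
choose a line and take all its multiples by `h`-th roots of `1` (again lines); `line_two`. -/

theorem lines_fin [P.IsPrime] (hP : Homog P) (hz : ∃ z : Fin 2 → FunField P, IsTranscendenceBasis ℂ z) (hH : H.IsHomogeneous h) (h1 : 1 ≤ h)
    {R : MvPolynomial (Fin (N + 1)) ℂ} {d : ℕ} (hR : R.IsHomogeneous d) (hRP : R ∉ P) (hL : ∀ F, PLine P H F → ∀ z, eval (pev F z) R = 0) :
    ∃ (n : ℕ) (Φ : Fin n → Fin (N + 1) → Polynomial ℂ), (∀ i, PLine P H (Φ i)) ∧ ∀ F, PLine P H F → ∃ i, ∀ z, ∃ w, pev F z = pev (Φ i) w := by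
  sorry

/-! ## LnF (file LnF.lean): the field `lines`.  A curve of polynomial growth is polynomial (SR3/Lin, `na_of`), `line_R`, `lines_fin`. -/

theorem lines_geo [P.IsPrime] {z : Fin 2 → FunField P} (hP : Homog P) (hz : IsTranscendenceBasis ℂ z) (hH : H.IsHomogeneous h) (h1 : 1 ≤ h)
    (hs : Snc P H E b) {s : ℕ} {m : Fin s → ℕ} (hm : ∀ j, 1 ≤ m j) (θ : ∀ j, SymDiff (oc P H) (m j)) (hθ : ∀ j, HasLogPoles E c (θ j))
    {t : ℕ} {R : Fin t → MvPolynomial (Fin (N + 1)) ℂ} (hN : NullCurve θ R) {n : ℕ} (supp : Fin n → Finset (Fin k))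
    (Pol : Fin n → Fin s → MvPolynomial (Fin k) ℂ) (ty : EN N → Fin n) {mΩ jΩ r : ℕ} (Ω : Fin r → EN N → EN N → EN N → ℂ) :
    ∃ (a : ℕ) (Φ : Fin a → ℂ → EN N), (∀ i, (geoOf P H h E c b θ supp Pol ty mΩ jΩ Ω).Line (Φ i)) ∧
      ∀ F, (geoOf P H h E c b θ supp Pol ty mΩ jΩ Ω).Line F → ∃ i, ∀ z, ∃ w, F z = Φ i w := by
  sorry

end Stub

end Pool.Agent.SR3
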