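import Pool.Agent.SR3.GDefs

/-!
# SR3 StubG: statements of part (G) (helper92; note 4700 with the changes (i), (ii)); never import this file in a finished file

One section = one file `Pool/Agent/SR3/<Section>.lean`, with exactly these statements, in the namespace `Pool.Agent.SR3`.  Write against this file with
`open Stub`; when the real files are on main, replace the import.  Import the real files of block A of SR3 (ABas, ALam, AGrd, AGrw, ASml, AJmp, AThr, AZal, APl,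
AGap: `gap_one`, `gap_montel`, Apx, ...), but NEVER `GapD` or what is proved from it (ASpd `speed`, ALbd `L_bdd`, ALow `lower`, AStc `static`).
`jump`, `gap_one` and so on take `S : Base ..`: use `⟨hG, hM, hQ⟩`.
-/

set_option autoImplicit false

open Topology Filter Metric

noncomputable section

namespace Pool.Agent.SR3

open Pool.Agent.H36.BP (EN fs wd Sub OrdTwo)
open Pool.Agent.H14.PP (IsCone Tan)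
open Pool.Agent.SY (Ent)
open Pool.Agent.SDA (EnergyK Near AffOpen Nm nForms)
open Pool.Agent.H62.EF (MN pr)
open Pool.Agent.G3 (LLift)
open Geo (Gd)

variable {N : ℕ} {G : Geo N} {T : Set (EN N)} {rho : EN N → ℝ} {M : ℕ} {c₀ C δ : ℝ} {g : (ℂ → EN N) → ℂ → ℝ}

namespace Stub

/-! ## HolA: a good radius.  The `ρ` which are excluded by `k` lie in an interval of length `2 τ k`. -/

theorem exists_rad (t : Finset ℂ) (τ : ℂ → ℝ) (w : ℂ) {a b : ℝ} (h0 : ∀ k ∈ t, 0 ≤ τ k) (hs : 2 * ∑ k ∈ t, τ k < b - a) :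
    ∃ ρ, a < ρ ∧ ρ < b ∧ ∀ k ∈ t, ∀ ζ, ‖ζ - w‖ = ρ → τ k ≤ ‖ζ - k‖ := by
  sorry

/-! ## HolB: extension over the holes.  Laurent splitting in the annuli: `h a ζ = -(2 π i)⁻¹ ∮ f ξ / (ξ - ζ)` over `C(a, s a)` is holomorphic for
`|ζ - a| > s a`, of norm at most `2 μ s a / |ζ - a|` for `|ζ - a| ≥ 2 s a`; `f - h a` extends over the disc; `g = f - ∑ h a`.  Both parts from the splitting. -/

theorem ext_holes {E : Type} [NormedAddCommGroup E] [NormedSpace ℂ E] [CompleteSpace E] {f : ℂ → E} {U : Set ℂ} (hU : IsOpen U) (t : Finset ℂ) (s : ℂ → ℝ)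
    (hs : ∀ a ∈ t, 0 < s a) (hsep : ∀ a ∈ t, ∀ b ∈ t, a ≠ b → 4 * max (s a) (s b) < ‖a - b‖) (hf : ∀ ζ ∈ U, Off t s ζ → DifferentiableAt ℂ f ζ) {μ : ℝ}
    (hμ : ∀ a ∈ t, ∀ ζ, s a ≤ ‖ζ - a‖ → ‖ζ - a‖ ≤ 2 * s a → DifferentiableAt ℂ f ζ ∧ ‖f ζ‖ ≤ μ) :
    ∃ g : ℂ → E, DifferentiableOn ℂ g U ∧ ∀ ζ ∈ U, Off t (fun a => 2 * s a) ζ → ‖g ζ - f ζ‖ ≤ 2 * μ * ∑ a ∈ t, s a / ‖ζ - a‖ := by
  sorry

/-- the residue form -/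
theorem circle_sum {E : Type} [NormedAddCommGroup E] [NormedSpace ℂ E] [CompleteSpace E] {f : ℂ → E} {w : ℂ} {ρ : ℝ} (hρ : 0 < ρ) (t : Finset ℂ) (s : ℂ → ℝ)
    (hs : ∀ a ∈ t, 0 < s a) (hsep : ∀ a ∈ t, ∀ b ∈ t, a ≠ b → 4 * max (s a) (s b) < ‖a - b‖) (hin : ∀ a ∈ t, ‖a - w‖ + 2 * s a < ρ)
    (hf : ∀ ζ ∈ closedBall w ρ, Off t s ζ → DifferentiableAt ℂ f ζ) :
    (∮ ζ in C(w, ρ), f ζ) = ∑ a ∈ t, ∮ ζ in C(a, s a), f ζ := by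
  sorry

/-! ## HolC: the bounded form, from `ext_holes` (on `ball w (3 r / 8)`, with the holes `|a - w| < r / 2`, `μ = M`), `exists_rad` on `(r / 4, 3 r / 8)` with
`τ = √ s`, and the maximum principle. -/

theorem ext_bdd {E : Type} [NormedAddCommGroup E] [NormedSpace ℂ E] [CompleteSpace E] {f : ℂ → E} {w : ℂ} {r B : ℝ} (hr : 0 < r) (hr1 : r ≤ 1 / 2)
    (t : Finset ℂ) (s : ℂ → ℝ) (hs : ∀ a ∈ t, 0 < s a) (hsep : ∀ a ∈ t, ∀ b ∈ t, a ≠ b → 4 * max (s a) (s b) < ‖a - b‖)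
    (hout : ∀ a ∈ t, r ≤ ‖a - w‖ → s a ≤ ‖a - w‖ / 2) (hsm : 32 * ∑ a ∈ t.filter (fun a => ‖a - w‖ < r), √(s a) ≤ r)
    (hf : ∀ ζ ∈ ball w r, Off t s ζ → DifferentiableAt ℂ f ζ ∧ ‖f ζ‖ ≤ B) :
    ∃ g : ℂ → E, DifferentiableOn ℂ g (ball w (r / 4)) ∧ (∀ ζ ∈ ball w (r / 4), ‖g ζ‖ ≤ 2 * B) ∧
      ∀ ζ ∈ ball w (r / 4), Far t s ζ → ‖g ζ - f ζ‖ ≤ 2 * B * ∑ a ∈ t.filter (fun a => ‖a - w‖ < r), √(s a) := by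
  sorry

/-! ## HolD: limits of curves in the projective space with holes.  `ext_bdd` for `F n / ⟪x n, F n⟫`, Montel (`Pool.Agent.H17.montel_ultrafilter`), compare two
local limits on circles which avoid the holes; compare `Pool.Agent.G3.ult` (`G3/P/Ult.lean`). -/

theorem ult_holes (𝒰 : Ultrafilter ℕ) {U : Set ℂ} (hU : IsOpen U) (F : ℕ → ℂ → EN N) (t : ℕ → Finset ℂ) (s : ℕ → ℂ → ℝ)
    (hs : ∀ n, ∀ a ∈ t n, 0 < s n a) (hsep : ∀ n, ∀ a ∈ t n, ∀ b ∈ t n, a ≠ b → 4 * max (s n a) (s n b) < ‖a - b‖)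
    (hsm : ∀ z ∈ U, ∃ r : ℝ, 0 < r ∧ (∀ᶠ n in (𝒰 : Filter ℕ), ∀ a ∈ t n, r ≤ ‖a - z‖ → s n a ≤ ‖a - z‖ / 2) ∧
      Tendsto (fun n => ∑ a ∈ (t n).filter (fun a => ‖a - z‖ < r), √(s n a)) (𝒰 : Filter ℕ) (𝓝 0))
    (hloc : ∀ z ∈ U, ∃ r : ℝ, 0 < r ∧ ∀ᶠ n in (𝒰 : Filter ℕ), ∃ x : EN N, ∀ w ∈ ball z r, Off (t n) (s n) w →
      DifferentiableAt ℂ (F n) w ∧ ‖x‖ * ‖F n w‖ < 2 * ‖(inner ℂ x (F n w) : ℂ)‖) :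
    ∃ f : ℂ → MN N, Geo.LimOf 𝒰 U F t s f := by
  sorry

/-! ## Grd: choice of the holes (largest radius first, in a finite subcover of the compact set `W`) -/

theorem greedy {W : Set ℂ} (hW : IsCompact W) {s : ℂ → ℝ} {K : ℝ} (hK : 2 ≤ K) (hs : ∀ z ∈ W, 0 < s z)
    (ha : ∀ z ∈ W, ∀ z' ∈ W, ‖z' - z‖ < s z / 2 ∨ K * s z < ‖z' - z‖) :
    ∃ t : Finset ℂ, (∀ z ∈ t, z ∈ W) ∧ (∀ z ∈ t, ∀ z' ∈ t, z ≠ z' → K * max (s z) (s z') < ‖z - z'‖) ∧ ∀ z ∈ W, ∃ z' ∈ t, ‖z - z'‖ < s z' / 2 := by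
  sorry

/-- Hofer's lemma for a finite set -/
theorem hofer {t : Finset ℂ} {ρ : ℂ → ℝ} (hρ : ∀ a ∈ t, 0 < ρ a) {A : ℝ} (hA : 0 < A) {a : ℂ} (ha : a ∈ t) :
    ∃ b ∈ t, ‖b - a‖ ≤ 2 * A * ρ a ∧ ρ b ≤ ρ a ∧ ∀ c ∈ t, ‖c - b‖ ≤ A * ρ b → ρ b / 2 ≤ ρ c := by
  sorry

/-! ## Jen: Jensen's inequality for the number of zeros -/

theorem card_zeros_le {f : ℂ → ℂ} {z₀ : ℂ} {r R A : ℝ} (hr : 0 < r) (hR : r < R) (hf : Differentiable ℂ f) (h0 : f z₀ ≠ 0)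
    (hb : ∀ z ∈ closedBall z₀ R, ‖f z‖ ≤ Real.exp A) (t : Finset ℂ) (ht : ∀ a ∈ t, ‖a - z₀‖ ≤ r ∧ f a = 0) :
    (t.card : ℝ) * Real.log (R / r) ≤ A - Real.log ‖f z₀‖ := by
  sorry

/-! ## Win: contour integrals of logarithmic derivatives -/

theorem circle_close {f g : ℂ → ℂ} {w : ℂ} {ρ : ℝ} (hρ : 0 < ρ) (hf : ∀ z ∈ sphere w ρ, AnalyticAt ℂ f z) (hg : ∀ z ∈ sphere w ρ, AnalyticAt ℂ g z)
    (h : ∀ z ∈ sphere w ρ, ‖f z - g z‖ < ‖g z‖) : (∮ z in C(w, ρ), logDeriv f z) = ∮ z in C(w, ρ), logDeriv g z := by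
  sorry

/-- an isolated zero in the centre -/
theorem circle_zero {f : ℂ → ℂ} {w : ℂ} {ρ : ℝ} (hρ : 0 < ρ) (hf : ∀ z ∈ closedBall w ρ, AnalyticAt ℂ f z) (h0 : f w = 0)
    (h1 : ∀ z ∈ closedBall w ρ, z ≠ w → f z ≠ 0) : ∃ k : ℕ, 1 ≤ k ∧ (∮ z in C(w, ρ), logDeriv f z) = 2 * Real.pi * Complex.I * k := by
  sorry

/-- polynomials with all zeros in the disc -/
theorem circle_poly {p : Polynomial ℂ} (hp : p ≠ 0) {ρ : ℝ} (hρ : 0 < ρ) (h : ∀ z, p.eval z = 0 → ‖z‖ < ρ) :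
    (∮ z in C(0, ρ), logDeriv (fun z => p.eval z) z) = 2 * Real.pi * Complex.I * p.natDegree := by
  sorry

/-! ## Bdr: from the fields of `Ok` (`oneE`, `locE`, `cross`, `h1` for a curve without crossings: take the constant sequence of curves `F k = x₀` in `K`) -/

theorem bdry_of (hG : G.Ok) (hK : G.K.Nonempty) : G.Bdry := by
  sorry

/-- from `Ok.lines`: a line is polynomial, so it has an end; the lines in `Φ k` have values in the image of `Φ k`; a finite set of representatives of the ends -/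
theorem exists_ends (hG : G.Ok) : ∃ Y : Finset (EN N), G.Ends Y := by
  sorry

/-! ## LinL: limits at exponentially small scales (three circles and `growth` as in `gap_one`, `gap_montel`, as in SR2/AGap `gapD`) -/

theorem line_limit (hG : G.Ok) (hM : G.Met T rho M c₀ C δ g) (hQ : G.QN rho) {B B' η : ℝ} (hη : 0 < η) (𝒰 : Ultrafilter ℕ) (h𝒰 : (𝒰 : Filter ℕ) ≤ atTop) (q : ℕ → G.J → ℂ)
    (F : ℕ → ℂ → EN N) (z : ℕ → ℂ) (r : ℕ → ℝ) (hF : ∀ n, G.Cl T (q n) (F n))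
    (hd : Tendsto (fun n => infDist (z n) (Gd rho δ (F n))) (𝒰 : Filter ℕ) atTop)
    (hr : ∀ᶠ n in (𝒰 : Filter ℕ), 0 < r n ∧ r n ≤ Real.exp (-(η * infDist (z n) (Gd rho δ (F n)))))
    (hb : ∀ᶠ n in (𝒰 : Filter ℕ), ∀ w : ℂ, ‖w‖ ≤ 1 → Real.log ‖F n (z n + r n * w)‖ ≤ B)
    (hlo : ∀ᶠ n in (𝒰 : Filter ℕ), ∃ w : ℂ, ‖w‖ ≤ 1 ∧ Real.log ‖F n (z n + r n * w)‖ ≤ B')
    (hup : ∀ᶠ n in (𝒰 : Filter ℕ), ∃ w : ℂ, ‖w‖ ≤ 1 ∧ B' + 1 ≤ Real.log ‖F n (z n + r n * w)‖) :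
    ∃ φ : ℂ → EN N, G.Line φ ∧ TendstoLocallyUniformlyOn (fun n w => F n (z n + r n * w)) φ (𝒰 : Filter ℕ) Set.univ := by
  sorry

/-- A line is not contained in a small neighbourhood of `Y`: `φ / ⟪y, φ⟫` would be bounded (Liouville). -/
theorem line_low (hG : G.Ok) {Y : Finset (EN N)} (hY : G.Ends Y) : ∃ B₀ : ℝ, ∀ φ, G.Line φ → ∃ z, Real.log ‖φ z‖ < B₀ := by
  sorry

theorem line_end (hG : G.Ok) {Y : Finset (EN N)} (hY : G.Ends Y) {φ : ℂ → EN N} (hφ : G.Line φ) :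
    (∃ P : Fin (N + 1) → Polynomial ℂ, ∀ z l, (φ z).ofLp l = (P l).eval z) ∧ Tendsto (fun w => ‖φ w‖) (cocompact ℂ) atTop ∧
      ∃ y ∈ Y, Tendsto (fun w => pr (φ w)) (cocompact ℂ) (𝓝 (pr y)) := by
  sorry

/-! ## Spd: the speed off the wells.  As SR2/ASpd.  At a rescaled point where the lift stays bounded use `gap_one`, `line_limit` and `line_low`: if the radius of
the well is comparable with the scale, the limit is a line, which has a point with `log < B₀`; if it is smaller, the speed is unbounded. -/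

theorem speedW (hG : G.Ok) (hM : G.Met T rho M c₀ C δ g) (hQ : G.QN rho) {Y : Finset (EN N)} (hY : G.Ends Y) : ∃ B₀ : ℝ, ∀ B₃ : ℝ, B₀ ≤ B₃ → ∃ B R : ℝ, 0 < B ∧ 0 < R ∧
    ∀ (q : G.J → ℂ) (F : ℂ → EN N), G.Cl T q F → ∀ (z : ℂ) (r : ℝ), R ≤ infDist z (Gd rho δ F) → 0 < r → r ≤ infDist z (Gd rho δ F) →
      (∀ w ∈ ball z r, B₃ < Real.log ‖F w‖) → fs (F z) (deriv F z) ≤ B / r := by
  sorry

/-! ## RimA: the scale of a hole, for a limit line.  `κ` large: `line_end`; `val`: Hurwitz for a nonconstant coordinate; `wind`: `circle_poly` for the two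
polynomials (their quotient is bounded near infinity, so the degree is nonpositive), `circle_close` for `Γ n`. -/

theorem rim_of_line (hG : G.Ok) {Y : Finset (EN N)} (hY : G.Ends Y) : ∃ ε₁ : ℝ, 0 < ε₁ ∧ ∀ ε : ℝ, 0 < ε → ε ≤ ε₁ → ∀ (B₃ K : ℝ) (𝒰 : Ultrafilter ℕ)
    (Γ : ℕ → ℂ → EN N) (φ : ℂ → EN N), (∀ n, Differentiable ℂ (Γ n) ∧ (∀ z, Γ n z ∈ G.K) ∧ (∀ z, G.p (Γ n z) = 1) ∧ Real.log ‖Γ n 0‖ ≤ B₃) → G.Line φ →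
    TendstoLocallyUniformlyOn Γ φ (𝒰 : Filter ℕ) Set.univ →
    ∃ (κ B₆ : ℝ) (y : EN N), 1 ≤ κ ∧ ∀ᶠ n in (𝒰 : Filter ℕ), ∀ B₄ : ℝ, B₆ ≤ B₄ → (∀ w : ℂ, ‖w‖ ≤ K → Real.log ‖Γ n (κ * w)‖ ≤ B₄) →
      G.Rim Y B₃ B₄ ε K (fun w => Γ n (κ * w)) y := by
  sorry

/-! ## RimB: every well is in a hole (`gap_one`, `line_limit`, `rim_of_line`; if not, a sequence with `κ ≤ n`, `B₄ = n`); `η` depends on `B₃` only -/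

theorem exists_rim (hG : G.Ok) (hM : G.Met T rho M c₀ C δ g) (hQ : G.QN rho) {Y : Finset (EN N)} (hY : G.Ends Y) : ∃ ε₁ : ℝ, 0 < ε₁ ∧ ∀ B₃ : ℝ, ∃ η : ℝ, 0 < η ∧
    ∀ ε : ℝ, 0 < ε → ε ≤ ε₁ → ∀ K : ℝ, ∃ B₄ R : ℝ, 0 < R ∧ ∀ (q : G.J → ℂ) (F : ℂ → EN N), G.Cl T q F → ∀ z, R ≤ infDist z (Gd rho δ F) →
      Real.log ‖F z‖ ≤ B₃ → ∃ (s : ℝ) (y : EN N), 0 < s ∧ s ≤ Real.exp (-(η * infDist z (Gd rho δ F))) ∧ G.Rim Y B₃ B₄ ε K (fun w => F (z + s * w)) y := by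
  sorry

/-! ## HolE: the holes in the disc of radius `θ d`, `θ < 1` (from `exists_rim`, `greedy`) -/

theorem exists_holes (hG : G.Ok) (hM : G.Met T rho M c₀ C δ g) (hQ : G.QN rho) {Y : Finset (EN N)} (hY : G.Ends Y) : ∃ ε₁ : ℝ, 0 < ε₁ ∧ ∀ B₃ θ : ℝ, 0 < θ → θ < 1 → ∃ η : ℝ, 0 < η ∧
    ∀ ε : ℝ, 0 < ε → ε ≤ ε₁ → ∀ K : ℝ, 2 ≤ K → ∃ B₄ R : ℝ, 0 < R ∧ ∀ (q : G.J → ℂ) (F : ℂ → EN N), G.Cl T q F → ∀ z₀, R ≤ infDist z₀ (Gd rho δ F) →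
      ∃ (t : Finset ℂ) (s : ℂ → ℝ) (y : ℂ → EN N),
        G.Holes Y B₃ B₄ ε K (Real.exp (-(η * infDist z₀ (Gd rho δ F)))) F z₀ (θ * infDist z₀ (Gd rho δ F)) t s y := by
  sorry

/-! ## Cnt: the number of holes (zeros of `F l - 2 exp B₃`, `card_zeros_le` with centre `a`, `growth`) -/

theorem holes_count (hG : G.Ok) (hM : G.Met T rho M c₀ C δ g) (hQ : G.QN rho) {Y : Finset (EN N)} {B₃ η θ θ' : ℝ} (hη : 0 < η) (h0 : 0 < θ') (h1 : θ' < θ) (h2 : θ < 1) :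
    ∃ B₅ : ℝ, 0 < B₅ ∧ ∀ B₄ ε K : ℝ, 20 ≤ K → ∃ R : ℝ, 0 < R ∧ ∀ (q : G.J → ℂ) (F : ℂ → EN N), G.Cl T q F → ∀ z₀ t s y, R ≤ infDist z₀ (Gd rho δ F) →
      G.Holes Y B₃ B₄ ε K (Real.exp (-(η * infDist z₀ (Gd rho δ F)))) F z₀ (θ * infDist z₀ (Gd rho δ F)) t s y →
      (t.card : ℝ) ≤ B₅ * infDist z₀ (Gd rho δ F) ∧
      ∀ a ∈ t, ‖a - z₀‖ ≤ θ' * infDist z₀ (Gd rho δ F) → ∀ r : ℝ, 0 < r → r < infDist z₀ (Gd rho δ F) →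
        (((t.erase a).filter (fun b => ‖b - a‖ ≤ r)).card : ℝ) * Real.log (infDist z₀ (Gd rho δ F) / r) ≤ B₅ * infDist z₀ (Gd rho δ F) := by
  sorry

/-! ## PreA: exit radii (`infDist` to `{z | Off z ∧ ε₂ ≤ dist (pr (F z)) (pr (y a))}` and the complement of the disc) and `hofer`, with `A = n`, for the index
`m = m (n)` large; `d := (1 - θ) infDist z₀`.  `exit`: the nearest point `z` is not on a rim: if `‖z - b‖ = s b` (`b ≠ a`, since `ε < ε₂`), then the point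
`b + 2 s b (a - b) / ‖a - b‖` is in `ball a (ρ a)` and `Off`, so `y b = y a` (the points of `Y` have distance `> 2 ε₁`), so `dist (pr (F z)) (pr (y a)) < ε`. -/

theorem exists_pre (hG : G.Ok) (hM : G.Met T rho M c₀ C δ g) (hQ : G.QN rho) {Y : Finset (EN N)} (hY : G.Ends Y) : ∃ ε₁ : ℝ, 0 < ε₁ ∧ ∀ ε₂ : ℝ, 0 < ε₂ → ε₂ ≤ ε₁ →
    ∀ B₃ η θ θ' : ℝ, 0 < η → 0 < θ' → θ' < θ → θ < 1 → ∃ B₅ : ℝ, 0 < B₅ ∧ ∀ B₄ ε K : ℝ, 0 < ε → 2 * ε ≤ ε₂ → 20 ≤ K →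
      (∀ n : ℕ, ∃ (q : G.J → ℂ) (F : ℂ → EN N) (z₀ : ℂ) (t : Finset ℂ) (s : ℂ → ℝ) (y : ℂ → EN N) (a z : ℂ), G.Cl T q F ∧ (n : ℝ) ≤ infDist z₀ (Gd rho δ F) ∧
        G.Holes Y B₃ B₄ ε K (Real.exp (-(η * infDist z₀ (Gd rho δ F)))) F z₀ (θ * infDist z₀ (Gd rho δ F)) t s y ∧ a ∈ t ∧
        ‖a - z₀‖ ≤ θ' * infDist z₀ (Gd rho δ F) ∧ ‖z - a‖ ≤ infDist z₀ (Gd rho δ F) / (n + 1) ∧ Off t s z ∧ ε₂ ≤ dist (pr (F z)) (pr (y a))) →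
      ∃ q F t s y a ρ d A, G.Pre T rho δ Y B₃ B₄ ε K ε₂ η B₅ q F t s y a ρ d A := by
  sorry

/-! ## PreB: the holes are relatively small.  If not, `line_limit` at the hole; the exit point of `a n` tends to a point of the line with `log ≥ B₃`, near `Y` by
`Ends.near` (`B₀` is the bound for `ε₂ / 2`), but it is at distance `ε₂` from `y (a n)`.  Then the sums: `cnt`, for `ρ n ≥ exp (-(η d n) / 2)` and not. -/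

theorem pre_small (hG : G.Ok) (hM : G.Met T rho M c₀ C δ g) (hQ : G.QN rho) {Y : Finset (EN N)} (hY : G.Ends Y) : ∃ ε₁ : ℝ, 0 < ε₁ ∧ ∀ ε₂ : ℝ, 0 < ε₂ → ε₂ ≤ ε₁ → ∃ B₀ : ℝ,
    ∀ B₃ B₄ ε K η B₅ : ℝ, B₀ ≤ B₃ → 0 < ε → 20 ≤ K → 0 < η → ∀ q F t s y a ρ d A, G.Pre T rho δ Y B₃ B₄ ε K ε₂ η B₅ q F t s y a ρ d A →
      ∀ (𝒰 : Ultrafilter ℕ), (𝒰 : Filter ℕ) ≤ atTop → ∀ R τ : ℝ, 0 < τ → ∀ᶠ n in (𝒰 : Filter ℕ), ∀ b ∈ t n, ‖b - a n‖ ≤ R * ρ n → s n b ≤ τ * ρ n := by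
  sorry

theorem pre_sum {Y : Finset (EN N)} {B₃ B₄ ε K ε₂ η B₅ : ℝ} (hK : 20 ≤ K) (hη : 0 < η) {q F t s y a ρ d A} (h : G.Pre T rho δ Y B₃ B₄ ε K ε₂ η B₅ q F t s y a ρ d A)
    (𝒰 : Ultrafilter ℕ) (h𝒰 : (𝒰 : Filter ℕ) ≤ atTop)
    (hs : ∀ R τ : ℝ, 0 < τ → ∀ᶠ n in (𝒰 : Filter ℕ), ∀ b ∈ t n, ‖b - a n‖ ≤ R * ρ n → s n b ≤ τ * ρ n) :
    (∀ R : ℝ, Tendsto (fun n => ∑ b ∈ (t n).filter (fun b => ‖b - a n‖ ≤ R * ρ n), √(s n b / ρ n)) (𝒰 : Filter ℕ) (𝓝 0)) ∧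
      ∀ᶠ n in (𝒰 : Filter ℕ), ∑ b ∈ ((t n).erase (a n)).filter (fun b => ‖b - a n‖ < ρ n), s n b / ‖b - a n‖ ≤ B₅ / η + 1 := by
  sorry

/-! ## PreC: rescaling, from `speedW`, `pre_small`, `pre_sum` (assembly) -/

theorem exists_resc (hG : G.Ok) (hM : G.Met T rho M c₀ C δ g) (hQ : G.QN rho) {Y : Finset (EN N)} (hY : G.Ends Y) : ∃ ε₁ : ℝ, 0 < ε₁ ∧ ∀ ε₂ : ℝ, 0 < ε₂ → ε₂ ≤ ε₁ → ∃ B₀ : ℝ,
    ∀ B₃ B₄ ε K η B₅ : ℝ, B₀ ≤ B₃ → 0 < ε → 2 * ε ≤ ε₂ → 20 ≤ K → 0 < η → ∀ q F t s y a ρ d A, G.Pre T rho δ Y B₃ B₄ ε K ε₂ η B₅ q F t s y a ρ d A →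
      ∃ (𝒰 : Ultrafilter ℕ) (Γ : ℕ → ℂ → EN N) (t' : ℕ → Finset ℂ) (s' : ℕ → ℂ → ℝ) (y' : ℕ → ℂ → EN N),
        G.Res Y B₃ B₄ ε K ε₂ (B₅ / η + 1) 𝒰 Γ t' s' y' := by
  sorry

/-! ## LimA: existence of the limit (`ult_holes`; the charts are given by `y a`, or by `Γ n z` where the speed is bounded) -/

theorem exists_limH (hG : G.Ok) {Y : Finset (EN N)} (hY : G.Ends Y) : ∃ ε₁ : ℝ, 0 < ε₁ ∧ ∀ B₃ B₄ ε K ε₂ : ℝ, 20 ≤ K → ε₂ ≤ ε₁ → ∀ 𝒰 U Γ t s y,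
    G.Loc Y B₃ B₄ ε K ε₂ 𝒰 U Γ t s y → ∃ f : ℂ → MN N, Geo.LimOf 𝒰 U Γ t s f := by
  sorry

/-! ## LimB: the limit is in the boundary.  If `p` is not identically zero on a local lift at a limit point `z₁` of holes, the lifts are bounded on a circle
outside the holes, hence in the disc, so equicontinuous, against `Rim.low` and `Rim.up`. -/

theorem lim_bdry (hG : G.Ok) {Y : Finset (EN N)} {B₃ B₄ ε K ε₂ : ℝ} (hK : 20 ≤ K) {𝒰 : Ultrafilter ℕ} {U : Set ℂ} {Γ t s y}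
    (hL : G.Loc Y B₃ B₄ ε K ε₂ 𝒰 U Γ t s y) {f : ℂ → MN N} (hf : Geo.LimOf 𝒰 U Γ t s f) {z₁ : ℂ} (hz : z₁ ∈ U)
    (hh : ∀ r : ℝ, 0 < r → ∀ᶠ n in (𝒰 : Filter ℕ), ∃ a ∈ t n, ‖a - z₁‖ < r) : ∀ z ∈ U, ∀ x : EN N, x ≠ 0 → f z = pr x → x ∈ G.X ∧ x ∉ G.K := by
  sorry

/-! ## LimC: a limit which meets a crossing is constant.  The local equations `(E i Γ) l / ⟪x, Γ⟫ ^ c i` on a circle: winding `≥ 1` (`circle_zero`, `circle_close`),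
against `circle_sum` and `Rim.wind`; so both components contain the limit near the point; `Bdry.two`. -/

theorem lim_cross (hG : G.Ok) (hB : G.Bdry) {Y : Finset (EN N)} (hY : G.Ends Y) : ∃ ε₁ : ℝ, 0 < ε₁ ∧ ∀ B₃ B₄ ε K ε₂ : ℝ, 20 ≤ K → 0 < ε → 2 * ε ≤ ε₂ →
    ε₂ ≤ ε₁ → ∀ 𝒰 U Γ t s y, G.Loc Y B₃ B₄ ε K ε₂ 𝒰 U Γ t s y → ∀ f, Geo.LimOf 𝒰 U Γ t s f →
    (∀ z ∈ U, ∀ x : EN N, x ≠ 0 → f z = pr x → x ∈ G.X ∧ x ∉ G.K) → ∀ z₁ ∈ U, ∀ (x : EN N) (i i' : G.ι), x ≠ 0 → f z₁ = pr x → i ≠ i' → G.E i x = 0 →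
      G.E i' x = 0 → ∀ z ∈ U, f z = f z₁ := by
  sorry

/-! ## LimE: if holes with an end `v` at a crossing accumulate at `z₁`, then `f z₁ = pr v`: otherwise one of the two local equations is not zero at `f z₁`, winding
number `0` on a small circle, against `circle_sum` and `Rim.wind` (`1 ≤ k`). -/

theorem lim_end (hG : G.Ok) (hB : G.Bdry) {Y : Finset (EN N)} (hY : G.Ends Y) : ∃ ε₁ : ℝ, 0 < ε₁ ∧ ∀ B₃ B₄ ε K ε₂ : ℝ, 20 ≤ K → 0 < ε → 2 * ε ≤ ε₂ →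
    ε₂ ≤ ε₁ → ∀ 𝒰 U Γ t s y, G.Loc Y B₃ B₄ ε K ε₂ 𝒰 U Γ t s y → ∀ f, Geo.LimOf 𝒰 U Γ t s f →
    (∀ z ∈ U, ∀ x : EN N, x ≠ 0 → f z = pr x → x ∈ G.X ∧ x ∉ G.K) → ∀ z₁ ∈ U, ∀ (v : EN N) (i i' : G.ι), v ∈ Y → i ≠ i' → G.E i v = 0 → G.E i' v = 0 →
      (∀ r : ℝ, 0 < r → ∀ᶠ n in (𝒰 : Filter ℕ), ∃ a ∈ t n, ‖a - z₁‖ < r ∧ y n a = v) → f z₁ = pr v := by
  sorry

/-! ## LimD: on the plane the limit is constant (`G3.entire_lift`, `Bdry.zero`, `Bdry.one`, `lim_cross`) -/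

theorem lim_const (hG : G.Ok) (hB : G.Bdry) {Y : Finset (EN N)} (hY : G.Ends Y) : ∃ ε₁ : ℝ, 0 < ε₁ ∧ ∀ B₃ B₄ ε K ε₂ : ℝ, 20 ≤ K → 0 < ε → 2 * ε ≤ ε₂ →
    ε₂ ≤ ε₁ → ∀ 𝒰 Γ t s y, G.Loc Y B₃ B₄ ε K ε₂ 𝒰 Set.univ Γ t s y → ∀ f, Geo.LimOf 𝒰 Set.univ Γ t s f →
    (∀ z, ∀ x : EN N, x ≠ 0 → f z = pr x → x ∈ G.X ∧ x ∉ G.K) → ∀ z z', f z = f z' := by
  sorry

/-! ## ResF: contradiction.  `f = c`, `dist c (pr y) = ε₂`; `ext_holes` for `Γ / ⟪y, Γ⟫ - y / ‖y‖ ^ 2` (norm `≤ C ε` at the rims), at the point `2 s 0`. -/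

theorem res_false (hG : G.Ok) (hB : G.Bdry) {Y : Finset (EN N)} (hY : G.Ends Y) : ∃ ε₁ : ℝ, 0 < ε₁ ∧ ∀ ε₂ θ : ℝ, 0 < ε₂ → ε₂ ≤ ε₁ → 0 ≤ θ → ∃ ε₀ : ℝ, 0 < ε₀ ∧
    ∀ B₃ B₄ ε K : ℝ, 0 < ε → ε ≤ ε₀ → 20 ≤ K → ∀ 𝒰 Γ t s y, ¬ G.Res Y B₃ B₄ ε K ε₂ θ 𝒰 Γ t s y := by
  sorry

/-! ## Stay: the result (G'), assembly -/

theorem stay (hG : G.Ok) (hM : G.Met T rho M c₀ C δ g) (hQ : G.QN rho) (hB : G.Bdry) {Y : Finset (EN N)} (hY : G.Ends Y) : ∃ ε₁ : ℝ, 0 < ε₁ ∧ ∀ ε₂ : ℝ, 0 < ε₂ → ε₂ ≤ ε₁ → ∃ B₀ : ℝ,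
    ∀ B₃ : ℝ, B₀ ≤ B₃ → ∀ η θ θ' : ℝ, 0 < η → 0 < θ' → θ' < θ → θ < 1 → ∃ ε₀ : ℝ, 0 < ε₀ ∧ ∀ ε : ℝ, 0 < ε → ε ≤ ε₀ → ∀ K B₄ : ℝ, 20 ≤ K → ∃ κ R : ℝ, 0 < κ ∧ 0 < R ∧
    ∀ (q : G.J → ℂ) (F : ℂ → EN N), G.Cl T q F → ∀ z₀ t s y, R ≤ infDist z₀ (Gd rho δ F) →
      G.Holes Y B₃ B₄ ε K (Real.exp (-(η * infDist z₀ (Gd rho δ F)))) F z₀ (θ * infDist z₀ (Gd rho δ F)) t s y →
      ∀ a ∈ t, ‖a - z₀‖ ≤ θ' * infDist z₀ (Gd rho δ F) → ∀ z, ‖z - a‖ ≤ κ * infDist z₀ (Gd rho δ F) → Off t s z → dist (pr (F z)) (pr (y a)) < ε₂ := by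
  sorry

/-! ## Mac: the macroscopic limit: an end at a crossing stays there on the whole disc of radius `θ' d` (rescale by `d`, `U` a disc; `stay`, `speedW`, `holes_count`
give `Loc`; `exists_limH`, `lim_bdry`, `lim_end`, `lim_cross`) -/

theorem macro_stay (hG : G.Ok) (hM : G.Met T rho M c₀ C δ g) (hQ : G.QN rho) (hB : G.Bdry) {Y : Finset (EN N)} (hY : G.Ends Y) : ∃ ε₁ : ℝ, 0 < ε₁ ∧ ∀ ε₂ : ℝ, 0 < ε₂ → ε₂ ≤ ε₁ → ∃ B₀ : ℝ,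
    ∀ B₃ : ℝ, B₀ ≤ B₃ → ∀ η θ θ' : ℝ, 0 < η → 0 < θ' → θ' < θ → θ < 1 → ∃ ε₀ : ℝ, 0 < ε₀ ∧ ∀ ε : ℝ, 0 < ε → ε ≤ ε₀ → ∀ K B₄ : ℝ, 20 ≤ K → ∃ R : ℝ, 0 < R ∧
    ∀ (q : G.J → ℂ) (F : ℂ → EN N), G.Cl T q F → ∀ z₀ t s y, R ≤ infDist z₀ (Gd rho δ F) →
      G.Holes Y B₃ B₄ ε K (Real.exp (-(η * infDist z₀ (Gd rho δ F)))) F z₀ (θ * infDist z₀ (Gd rho δ F)) t s y →
      ∀ a ∈ t, ‖a - z₀‖ ≤ 1 → ∀ i i' : G.ι, i ≠ i' → G.E i (y a) = 0 → G.E i' (y a) = 0 →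
      ∀ z, ‖z - z₀‖ ≤ θ' * infDist z₀ (Gd rho δ F) → Off t s z → dist (pr (F z)) (pr (y a)) < ε₂ := by
  sorry

/-! ## Smo: the wells end at crossings.  Otherwise `stay` for `a`, `exists_pt` in `closedBall a (κ d)`; the point is in no hole (`Rim.bdd`, `n_le_L`, `L_le_fs`); all
`|q j| ≤ C fs L ^ (m j - 1)` tend to `0`, against `nq q = 1`. -/

theorem smooth_end (hG : G.Ok) (hM : G.Met T rho M c₀ C δ g) (hQ : G.QN rho) (hB : G.Bdry) {Y : Finset (EN N)} (hY : G.Ends Y)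
    (hn : ∀ y ∈ Y, (∀ i i' : G.ι, i ≠ i' → G.E i y = 0 → G.E i' y ≠ 0) → ∃ (r B : ℝ), 0 < r ∧ ∀ x ∈ G.K, dist (pr x) (pr y) < r → ∀ v, Tan G.X x v →
      ∀ j, ‖G.w j x v‖ ≤ B * fs x v * G.L x v ^ (G.m j - 1)) : ∃ B₀ : ℝ, ∀ B₃ : ℝ, B₀ ≤ B₃ → ∀ η θ θ' : ℝ, 0 < η → 0 < θ' → θ' < θ → θ < 1 →
    ∃ ε₀ : ℝ, 0 < ε₀ ∧ ∀ ε : ℝ, 0 < ε → ε ≤ ε₀ → ∀ K B₄ : ℝ, 20 ≤ K → ∃ R : ℝ, 0 < R ∧
    ∀ (q : G.J → ℂ) (F : ℂ → EN N), G.Cl T q F → ∀ z₀ t s y, R ≤ infDist z₀ (Gd rho δ F) →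
      G.Holes Y B₃ B₄ ε K (Real.exp (-(η * infDist z₀ (Gd rho δ F)))) F z₀ (θ * infDist z₀ (Gd rho δ F)) t s y →
      ∀ a ∈ t, ‖a - z₀‖ ≤ θ' * infDist z₀ (Gd rho δ F) → ∃ i i' : G.ι, i ≠ i' ∧ G.E i (y a) = 0 ∧ G.E i' (y a) = 0 := by
  sorry

/-! ## HolP: near holes are parallel.  If not, sequences; `line_limit` at the larger hole `a`: `Γ → φ`, `F (b + s b w) → φ (β + σ w)`, `φ` lies in one `Φ k`; near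
infinity `Q = x ^ p' / x' ^ p` (`p`, `p'` the orders of the poles of `x`, `x'` on `Φ k`) is close to its value at the end, so its winding on both rims is `0`. -/

theorem holes_par (hG : G.Ok) (hM : G.Met T rho M c₀ C δ g) (hQ : G.QN rho) (hB : G.Bdry) {Y : Finset (EN N)} (hY : G.Ends Y) : ∃ ε₁ : ℝ, 0 < ε₁ ∧
    ∀ B₃ η θ θ' : ℝ, 0 < η → 0 < θ' → θ' < θ → θ < 1 → ∀ ε : ℝ, 0 < ε → ε ≤ ε₁ → ∀ K B₄ K' : ℝ, 20 ≤ K → ∃ R : ℝ, 0 < R ∧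
    ∀ (q : G.J → ℂ) (F : ℂ → EN N), G.Cl T q F → ∀ z₀ t s y, R ≤ infDist z₀ (Gd rho δ F) →
      G.Holes Y B₃ B₄ ε K (Real.exp (-(η * infDist z₀ (Gd rho δ F)))) F z₀ (θ * infDist z₀ (Gd rho δ F)) t s y →
      ∀ a ∈ t, ∀ b ∈ t, ‖a - z₀‖ ≤ θ' * infDist z₀ (Gd rho δ F) → ‖a - b‖ ≤ K' * max (s a) (s b) → y a = y b ∧
        ∀ i i' l l', G.LocEq ε (y a) i l → G.LocEq ε (y a) i' l' → G.E i (y a) = 0 → G.E i' (y a) = 0 →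
          G.wnd (fun w => F (a + s a * w)) (y a) i l 1 * G.wnd (fun w => F (b + s b * w)) (y b) i' l' 1 =
            G.wnd (fun w => F (a + s a * w)) (y a) i' l' 1 * G.wnd (fun w => F (b + s b * w)) (y b) i l 1 := by
  sorry

/-! ## PtZ: a point with small derivatives (maximum principle for `∑ (κ + lam i) ^ 2 + K d log ‖F‖ - A |z| ^ 2`; `lam_grad`, `lam_sub`, `sub_sq`, `growth`) -/

theorem exists_pt (hG : G.Ok) (hM : G.Met T rho M c₀ C δ g) : ∃ B : ℝ, 0 < B ∧ ∀ (q : G.J → ℂ) (F : ℂ → EN N), G.Cl T q F → ∀ (z : ℂ) (r : ℝ),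
    1 ≤ infDist z (Gd rho δ F) → 0 < r → r ≤ infDist z (Gd rho δ F) → ∃ z', ‖z' - z‖ ≤ r ∧
      ∑ i, ‖G.ell i (F z') (deriv F z')‖ ^ 2 + infDist z (Gd rho δ F) * fs (F z') (deriv F z') ^ 2 ≤ B * (infDist z (Gd rho δ F) / r) ^ 2 := by
  sorry

end Stub

end Pool.Agent.SR3
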